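import Pool.Agent.H82.BX.TIE
import Pool.Agent.H2.XY.REA

/-!
# A1: the bilayer model dominates the chain model on the torus

`rea`: `corr L h T x = gE (hTor L (1/T) (1/(4hT))) (cos ph_0 cos ph_x)` on `Y = Bool → ZMod L × ZMod L → Cir`.
`ι : Y →+ (SV → Cir)`: `ι θ (inl v) = ph θ v`, `ι θ (inr (e, false)) = ph θ (s e)`,
`ι θ (inr (e, true)) = θ true (s e) - θ false (r e)` (identify `v : Fin 2 → ZMod L` with `(v 0, v 1)`).  On the three links of `e` the differences are
`0`, `θ false (s e) - θ false (r e)`, `θ true (r e) - θ true (s e)`.  So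
`hS (TD L) b l (ι θ) = b ∑_e (1 + cos(dθ^-) + cos(dθ^+)) + 3 l ∑_v cos²(ph θ v)` (every `v` is `s e` for two edges), which is
`hTor L b (3l/2) θ + const` (`cosC_two`); `b = 1/T`, `l = 1/(6hT)`.  Constants cancel in `gE`.  Then `tie` (`gin_hS`, `gin_cc`).
-/

set_option autoImplicit false

open Finset MeasureTheory

namespace H82.BX

open H82.IC XYB

/-- point of the torus. -/
def toT (L : ℕ) (x : ℤ × ℤ) : Fin 2 → ZMod L := ![(x.1 : ZMod L), (x.2 : ZMod L)]

/-- the angles of the chain model as functions of the bilayer angles -/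
noncomputable def A1_f (L : ℕ) (θ : Bool → ZMod L × ZMod L → Cir) :
    SV (Fin 2 → ZMod L) ((Fin 2 → ZMod L) × Fin 2) → Cir
  | Sum.inl v => θ true (v 0, v 1) - θ false (v 0, v 1)
  | Sum.inr (e, false) => θ true (e.1 0, e.1 1) - θ false (e.1 0, e.1 1)
  | Sum.inr (e, true) => θ true (e.1 0, e.1 1) -
      θ false ((e.1 + Pi.single e.2 1 : Fin 2 → ZMod L) 0, (e.1 + Pi.single e.2 1 : Fin 2 → ZMod L) 1)

/-- the homomorphism -/
noncomputable def A1_i (L : ℕ) : (Bool → ZMod L × ZMod L → Cir) →+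
    (SV (Fin 2 → ZMod L) ((Fin 2 → ZMod L) × Fin 2) → Cir) where
  toFun := A1_f L
  map_zero' := by
    funext w
    rcases w with v | ⟨e, _ | _⟩ <;> simp [A1_f]
  map_add' := by
    intro θ η
    funext w
    rcases w with v | ⟨e, _ | _⟩ <;> simp only [A1_f, Pi.add_apply] <;> abel

theorem A1_cont (L : ℕ) : Continuous (A1_i L) := by
  show Continuous (A1_f L)
  refine continuous_pi fun w => ?_
  rcases w with v | ⟨e, _ | _⟩ <;> simp only [A1_f] <;> fun_prop

theorem A1_link (L : ℕ) [NeZero L] (b : ℝ) (θ : Bool → ZMod L × ZMod L → Cir)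
    (e : (Fin 2 → ZMod L) × Fin 2) :
    ∑ j : Fin 3, b * cosC (A1_f L θ ((LK (TD L)).r (e, j)) - A1_f L θ ((LK (TD L)).s (e, j))) =
      b + b * cosC (θ false ((e.1 + Pi.single e.2 1 : Fin 2 → ZMod L) 0,
          (e.1 + Pi.single e.2 1 : Fin 2 → ZMod L) 1) - θ false (e.1 0, e.1 1)) +
        b * cosC (θ true ((e.1 + Pi.single e.2 1 : Fin 2 → ZMod L) 0,
          (e.1 + Pi.single e.2 1 : Fin 2 → ZMod L) 1) - θ true (e.1 0, e.1 1)) := by
  rw [Fin.sum_univ_three]
  have h0 : A1_f L θ ((LK (TD L)).r (e, 0)) - A1_f L θ ((LK (TD L)).s (e, 0)) = 0 := by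
    show (θ true (e.1 0, e.1 1) - θ false (e.1 0, e.1 1)) -
      (θ true (e.1 0, e.1 1) - θ false (e.1 0, e.1 1)) = 0
    abel
  have h1 : A1_f L θ ((LK (TD L)).r (e, 1)) - A1_f L θ ((LK (TD L)).s (e, 1)) =
      -(θ false ((e.1 + Pi.single e.2 1 : Fin 2 → ZMod L) 0,
          (e.1 + Pi.single e.2 1 : Fin 2 → ZMod L) 1) - θ false (e.1 0, e.1 1)) := by
    show (θ true (e.1 0, e.1 1) - θ false ((e.1 + Pi.single e.2 1 : Fin 2 → ZMod L) 0,
          (e.1 + Pi.single e.2 1 : Fin 2 → ZMod L) 1)) -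
      (θ true (e.1 0, e.1 1) - θ false (e.1 0, e.1 1)) = _
    abel
  have h2 : A1_f L θ ((LK (TD L)).r (e, 2)) - A1_f L θ ((LK (TD L)).s (e, 2)) =
      (θ true ((e.1 + Pi.single e.2 1 : Fin 2 → ZMod L) 0,
          (e.1 + Pi.single e.2 1 : Fin 2 → ZMod L) 1) - θ true (e.1 0, e.1 1)) := by
    show (θ true ((e.1 + Pi.single e.2 1 : Fin 2 → ZMod L) 0,
          (e.1 + Pi.single e.2 1 : Fin 2 → ZMod L) 1) -
        θ false ((e.1 + Pi.single e.2 1 : Fin 2 → ZMod L) 0,
          (e.1 + Pi.single e.2 1 : Fin 2 → ZMod L) 1)) -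
      (θ true (e.1 0, e.1 1) - θ false ((e.1 + Pi.single e.2 1 : Fin 2 → ZMod L) 0,
          (e.1 + Pi.single e.2 1 : Fin 2 → ZMod L) 1)) = _
    abel
  rw [h0, h1, h2, cosC_neg, cosC_zero, mul_one]

theorem A1_shift (L : ℕ) (v : Fin 2 → ZMod L) (i : Fin 2) :
    (((v + Pi.single i 1 : Fin 2 → ZMod L) 0, (v + Pi.single i 1 : Fin 2 → ZMod L) 1) :
      ZMod L × ZMod L) = if i = 0 then (v 0 + 1, v 1) else (v 0, v 1 + 1) := by
  fin_cases i <;> simp

theorem A1_sum (L : ℕ) [NeZero L] (f : ZMod L × ZMod L → ℝ) :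
    ∑ v : Fin 2 → ZMod L, f (v 0, v 1) = ∑ x : ZMod L × ZMod L, f x :=
  Fintype.sum_equiv (finTwoArrowEquiv (ZMod L)) _ _ fun _ => rfl

theorem A1_energy (L : ℕ) [NeZero L] (b l : ℝ) (θ : Bool → ZMod L × ZMod L → Cir) :
    hS (TD L) b l (A1_f L θ) = hTor L b (3 * l / 2) θ +
      ∑ _x : ZMod L × ZMod L, (2 * b + 3 * l / 2) := by
  have e1 : hG (LK (TD L)) (fun _ => b) (A1_f L θ) =
      ∑ x : ZMod L × ZMod L, (2 * b + ∑ c : Bool,
        (b * cosC (θ c (x.1 + 1, x.2) - θ c x) + b * cosC (θ c (x.1, x.2 + 1) - θ c x))) := by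
    unfold hG
    rw [Fintype.sum_prod_type]
    simp only [A1_link]
    rw [Fintype.sum_prod_type, ← A1_sum L]
    refine Finset.sum_congr rfl fun v _ => ?_
    simp only [A1_shift]
    rw [Fin.sum_univ_two, Fintype.sum_bool]
    simp only [Fin.isValue, if_true, one_ne_zero, if_false]
    ring
  have e2 : ∑ w : SV (Fin 2 → ZMod L) ((Fin 2 → ZMod L) × Fin 2),
      l * pn w * cosC (A1_f L θ w) ^ 2 =
      ∑ x : ZMod L × ZMod L, 3 * l * cosC (θ true x - θ false x) ^ 2 := by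
    rw [Fintype.sum_sum_type, Fintype.sum_prod_type]
    simp only [Fintype.sum_bool]
    rw [Fintype.sum_prod_type, ← A1_sum L, ← Finset.sum_add_distrib]
    refine Finset.sum_congr rfl fun v _ => ?_
    rw [Fin.sum_univ_two]
    simp only [pn, A1_f]
    ring
  unfold hS hTor
  rw [e1, e2]
  have e3 : ∀ x : ZMod L × ZMod L, 3 * l * cosC (θ true x - θ false x) ^ 2 =
      3 * l / 2 * cosC (ph θ x + ph θ x) + 3 * l / 2 := by
    intro x
    rw [cosC_two]
    show _ = 3 * l / 2 * (2 * cosC (θ true x - θ false x) ^ 2 - 1) + 3 * l / 2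
    ring
  simp only [e3]
  rw [Finset.sum_comm (s := (univ : Finset Bool))]
  simp only [Finset.sum_add_distrib]
  ring

theorem A1_gE_const {X : Type*} [AddCommGroup X] [TopologicalSpace X] [IsTopologicalAddGroup X]
    [CompactSpace X] [MeasurableSpace X] [BorelSpace X] (H F : X → ℝ) (c : ℝ) :
    gE (fun x => H x + c) F = gE H F := by
  unfold gE
  have h1 : (fun x : X => F x * Real.exp (H x + c)) =
      fun x => Real.exp c * (F x * Real.exp (H x)) := by
    funext x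
    rw [Real.exp_add]
    ring
  have h2 : (fun x : X => Real.exp (H x + c)) = fun x => Real.exp c * Real.exp (H x) := by
    funext x
    rw [Real.exp_add]
    ring
  rw [h1, h2, integral_const_mul, integral_const_mul, mul_div_mul_left _ _ (Real.exp_pos c).ne']

theorem a1 (L : ℕ) [NeZero L] (h T : ℝ) (hh : 0 < h) (hT : 0 < T) (x : ℤ × ℤ) :
    gE (hS (TD L) (1 / T) (1 / (6 * h * T)))
      (fun θ => cosC (θ (Sum.inl 0)) * cosC (θ (Sum.inl (toT L x)))) ≤ corr L h T x := by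
  have hdiv : ∀ y : Bool → ZMod L × ZMod L → Cir, ∃ z, z + z = y := by
    intro y
    choose z hz using fun b => cir_pi_div (y b)
    exact ⟨z, funext hz⟩
  have h1 := tie hdiv (A1_i L) (A1_cont L) (hS (TD L) (1 / T) (1 / (6 * h * T)))
    (fun θ => cosC (θ (Sum.inl 0)) * cosC (θ (Sum.inl (toT L x))))
    (gin_hS (TD L) (1 / T) (1 / (6 * h * T)) (by positivity) (by positivity))
    (gin_cc (Sum.inl 0) (Sum.inl (toT L x)))
  refine h1.trans (le_of_eq ?_)
  rw [rea L h T hh hT x]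
  have h2 : (fun y => hS (TD L) (1 / T) (1 / (6 * h * T)) (A1_i L y)) =
      fun y => hTor L (1 / T) (1 / (4 * h * T)) y +
        ∑ _x : ZMod L × ZMod L, (2 * (1 / T) + 3 * (1 / (6 * h * T)) / 2) := by
    funext y
    have h3 := A1_energy L (1 / T) (1 / (6 * h * T)) y
    have h4 : 3 * (1 / (6 * h * T)) / 2 = 1 / (4 * h * T) := by
      field_simp
      ring
    rw [h4] at h3 ⊢
    exact h3
  rw [h2, A1_gE_const]
  rfl

end H82.BX
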