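import Pool.Agent.H82.BX.GCM

/-!
# CLO: clocks dominate circles, and converge to circles

`clo`: `gin_mono` with `H'_p = p ∑_w cos(M θ_w)` (characters `θ ↦ M • θ_w`), all `p ≥ 0`; limit `p → ∞`: for continuous `Φ`,
`∫ Φ e^{H'_p}/∫ e^{H'_p} → M^{-|U|} ∑_g Φ(ang M g)`.  Proof of the limit: `H'_p` is invariant under translations by `ang M g`, so `Φ` may be replaced by the average
`Φ̄(θ) = M^{-|U|} ∑_g Φ(θ + ang M g)`, and `Φ̄(θ) = Φ̄(0)` whenever all `cos(M θ_w) = 1`.  By compactness, for `ε > 0` there is `η > 0` with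
`|Φ̄(θ) - Φ̄(0)| ≤ ε` if `∑_w (1 - cos(M θ_w)) ≤ η`; the weight of the complement tends to `0`
(`θ ↦ M • θ` is a continuous surjective homomorphism of `U → Cir`, so the law of `M • θ` is Haar: `integral_comp_surj`; reduces to the statement for
`e^{p ∑ cos u_w}`).
`rie`: `Φ̄(θ) = M^{-|U|} ∑_g Φ(θ + ang M g)` has integral `∫ Φ`; every `θ` is within `2π/M` (each coordinate) of some `ang M g'`, so by uniform continuity
`|Φ̄(θ) - Φ̄(0)| ≤ ε` for `M` large; hence `Φ̄(0) → ∫ Φ`.  Apply to `Φ = F e^H` and `e^H`.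
-/

set_option autoImplicit false

open Finset MeasureTheory

namespace H82.BX

open H82.IC XYB

open Filter Topology in
theorem clo_lap {X : Type*} [AddCommGroup X] [TopologicalSpace X] [IsTopologicalAddGroup X]
    [CompactSpace X] [MeasurableSpace X] [BorelSpace X] [SecondCountableTopology X]
    (h G : X → ℝ) (hh : Continuous h) (hG : Continuous G)
    (h0 : ∀ x, 0 ≤ h x) (x0 : X) (hx0 : h x0 = 0) (c : ℝ) (hc : ∀ x, h x = 0 → G x = c) :
    Tendsto (fun p : ℕ => (∫ x, G x * Real.exp (-((p:ℝ) * h x)) ∂haarP X) /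
      ∫ x, Real.exp (-((p:ℝ) * h x)) ∂haarP X) atTop (𝓝 c) := by
  rw [Metric.tendsto_atTop]
  intro ε hε
  have hGc : Continuous (fun x => |G x - c|) := (hG.sub continuous_const).abs
  have hK : IsCompact {x | ε / 2 ≤ |G x - c|} := (isClosed_le continuous_const hGc).isCompact
  obtain ⟨η, hη, hηK⟩ : ∃ η : ℝ, 0 < η ∧ ∀ x, ε / 2 ≤ |G x - c| → η ≤ h x := by
    rcases Set.eq_empty_or_nonempty {x | ε / 2 ≤ |G x - c|} with hE | hne
    · refine ⟨1, one_pos, fun x hx => ?_⟩
      have : x ∈ {x | ε / 2 ≤ |G x - c|} := hx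
      rw [hE] at this; exact this.elim
    · obtain ⟨y, hy, hmin⟩ := hK.exists_isMinOn hne hh.continuousOn
      refine ⟨h y, ?_, fun x hx => hmin hx⟩
      rcases (h0 y).lt_or_eq with h1 | h1
      · exact h1
      · exfalso
        have h2 := hc y h1.symm
        have h3 : ε / 2 ≤ |G y - c| := hy
        rw [h2, sub_self, abs_zero] at h3
        linarith
  obtain ⟨C0, hC0⟩ := isCompact_univ.exists_bound_of_continuousOn hGc.continuousOn
  obtain ⟨C, hC1, hC⟩ : ∃ C : ℝ, 0 ≤ C ∧ ∀ x, |G x - c| ≤ C := by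
    refine ⟨max C0 0, le_max_right _ _, fun x => ?_⟩
    have := hC0 x (Set.mem_univ x)
    rw [Real.norm_eq_abs, abs_abs] at this
    exact this.trans (le_max_left _ _)
  set S : Set X := {x | h x < η / 2} with hS
  have hSo : IsOpen S := isOpen_lt hh continuous_const
  have hm : 0 < (haarP X).real S := by
    rw [Measure.real, ENNReal.toReal_pos_iff]
    refine ⟨hSo.measure_pos _ ⟨x0, ?_⟩, measure_lt_top _ _⟩
    change h x0 < η / 2
    rw [hx0]; linarith
  set m := (haarP X).real S with hmd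
  have hlim : Tendsto (fun p : ℕ => (C / m) * Real.exp (-((p:ℝ) * (η / 2)))) atTop (𝓝 ((C / m) * 0)) := by
    refine Tendsto.const_mul _ ?_
    refine Real.tendsto_exp_neg_atTop_nhds_zero.comp ?_
    exact Tendsto.atTop_mul_const (by linarith) tendsto_natCast_atTop_atTop
  rw [mul_zero] at hlim
  obtain ⟨N, hN⟩ := (Metric.tendsto_atTop.1 hlim) (ε / 2) (by linarith)
  refine ⟨N, fun p hp => ?_⟩
  have hNp := hN p hp
  rw [Real.dist_eq, sub_zero] at hNp
  have hNp' := lt_of_le_of_lt (le_abs_self _) hNp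
  have hp0 : (0:ℝ) ≤ p := Nat.cast_nonneg p
  have hce : Continuous (fun x => Real.exp (-((p:ℝ) * h x))) :=
    Real.continuous_exp.comp (continuous_const.mul hh).neg
  have hZ : 0 < ∫ x, Real.exp (-((p:ℝ) * h x)) ∂haarP X :=
    integral_exp_pos (fun x => -((p:ℝ) * h x)) (continuous_const.mul hh).neg
  set Z := ∫ x, Real.exp (-((p:ℝ) * h x)) ∂haarP X with hZd
  have hZm : m * Real.exp (-((p:ℝ) * (η / 2))) ≤ Z := by
    have e1 : ∫ x, S.indicator (fun _ => Real.exp (-((p:ℝ) * (η / 2)))) x ∂haarP X =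
        m * Real.exp (-((p:ℝ) * (η / 2))) := by
      rw [integral_indicator_const _ hSo.measurableSet, smul_eq_mul]
    rw [← e1]
    refine integral_mono ?_ (integrable_cont _ hce) ?_
    · exact (integrable_const _).indicator hSo.measurableSet
    · intro x
      by_cases hx : x ∈ S
      · simp only [Set.indicator_of_mem hx]
        apply Real.exp_le_exp.2
        have : h x < η / 2 := hx
        nlinarith
      · simp only [Set.indicator_of_notMem hx]
        exact (Real.exp_pos _).le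
  have hi1 : Integrable (fun x => (G x - c) * Real.exp (-((p:ℝ) * h x))) (haarP X) :=
    integrable_cont _ ((hG.sub continuous_const).mul hce)
  have hi2 : Integrable (fun x => c * Real.exp (-((p:ℝ) * h x))) (haarP X) :=
    integrable_cont _ (continuous_const.mul hce)
  have hi3 : Integrable (fun x => ε / 2 * Real.exp (-((p:ℝ) * h x))) (haarP X) :=
    integrable_cont _ (continuous_const.mul hce)
  have hnum : ∫ x, G x * Real.exp (-((p:ℝ) * h x)) ∂haarP X =
      (∫ x, (G x - c) * Real.exp (-((p:ℝ) * h x)) ∂haarP X) + c * Z := by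
    rw [hZd, ← integral_const_mul, ← integral_add hi1 hi2]
    congr 1; ext x; ring
  have hbd : |∫ x, (G x - c) * Real.exp (-((p:ℝ) * h x)) ∂haarP X| ≤
      ε / 2 * Z + C * Real.exp (-((p:ℝ) * η)) := by
    have e1 : ε / 2 * Z + C * Real.exp (-((p:ℝ) * η)) =
        ∫ x, (ε / 2 * Real.exp (-((p:ℝ) * h x)) + C * Real.exp (-((p:ℝ) * η))) ∂haarP X := by
      rw [integral_add hi3 (integrable_const _), integral_const_mul, integral_const]
      simp [hZd]
    rw [e1]
    refine (abs_integral_le_integral_abs).trans ?_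
    refine integral_mono (integrable_cont _ (((hG.sub continuous_const).mul hce).abs))
      (integrable_cont _ ((continuous_const.mul hce).add continuous_const)) ?_
    intro x
    simp only
    rw [abs_mul, abs_of_pos (Real.exp_pos _)]
    by_cases hx : ε / 2 ≤ |G x - c|
    · have h1 := hηK x hx
      have h2 : Real.exp (-((p:ℝ) * h x)) ≤ Real.exp (-((p:ℝ) * η)) := by
        apply Real.exp_le_exp.2; nlinarith
      have h3 := mul_le_mul (hC x) h2 (Real.exp_pos _).le hC1
      have h4 : 0 ≤ ε / 2 * Real.exp (-((p:ℝ) * h x)) := by positivity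
      linarith
    · push Not at hx
      have h3 := mul_le_mul_of_nonneg_right hx.le (Real.exp_pos (-((p:ℝ) * h x))).le
      have h4 : 0 ≤ C * Real.exp (-((p:ℝ) * η)) := by positivity
      linarith
  rw [Real.dist_eq, hnum]
  have e2 : ((∫ x, (G x - c) * Real.exp (-((p:ℝ) * h x)) ∂haarP X) + c * Z) / Z - c =
      (∫ x, (G x - c) * Real.exp (-((p:ℝ) * h x)) ∂haarP X) / Z := by
    field_simp
    ring
  rw [e2, abs_div, abs_of_pos hZ, div_lt_iff₀ hZ]
  refine lt_of_le_of_lt hbd ?_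
  have e3 : Real.exp (-((p:ℝ) * η)) = Real.exp (-((p:ℝ) * (η / 2))) * Real.exp (-((p:ℝ) * (η / 2))) := by
    rw [← Real.exp_add]; congr 1; ring
  rw [e3]
  set q := Real.exp (-((p:ℝ) * (η / 2))) with hq
  have hq0 : 0 < q := Real.exp_pos _
  have h5 : C * q < ε / 2 * m := by
    have : C / m * q = C * q / m := by ring
    rw [this, div_lt_iff₀ hm] at hNp'
    exact hNp'
  have h6 : C * (q * q) < ε / 2 * (m * q) := by
    have := mul_lt_mul_of_pos_right h5 hq0
    nlinarith
  nlinarith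

theorem clo_nle (x : ℝ) : ‖((x : ℝ) : Cir)‖ ≤ |x| :=
  QuotientAddGroup.norm_mk_le_norm

theorem clo_int (M : ℕ) (hM : 0 < M) (n : ℤ) :
    ∃ a : Fin M, ((2 * Real.pi * a.val / M : ℝ) : Cir) = ((2 * Real.pi * n / M : ℝ) : Cir) := by
  have hM' : (0:ℤ) < M := by exact_mod_cast hM
  have h0 := Int.emod_nonneg n hM'.ne'
  have h1 := Int.emod_lt_of_pos n hM'
  refine ⟨⟨(n % M).toNat, by omega⟩, ?_⟩
  simp only
  have h2 : (((n % M).toNat : ℕ) : ℝ) = ((n % M : ℤ) : ℝ) := by
    have : (((n % M).toNat : ℕ) : ℤ) = n % M := Int.toNat_of_nonneg h0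
    exact_mod_cast this
  rw [h2]
  have h3 : (n : ℝ) = (n % M : ℤ) + M * ((n / M : ℤ) : ℝ) := by
    have := Int.emod_add_mul_ediv n M
    exact_mod_cast this.symm
  have hMr : (M : ℝ) ≠ 0 := by positivity
  have h4 : (2 * Real.pi * n / M : ℝ) = 2 * Real.pi * ((n % M : ℤ) : ℝ) / M +
      (n / M : ℤ) • (2 * Real.pi) := by
    rw [zsmul_eq_mul]
    conv_lhs => rw [h3]
    field_simp
  rw [h4, AddCircle.coe_add, AddCircle.coe_zsmul, AddCircle.coe_period, zsmul_zero, add_zero]

theorem clo_cos (t : Cir) (h : cosC t = 1) : t = 0 := by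
  induction t using cir_ind with
  | h x =>
    rw [cosC_coe, Real.cos_eq_one_iff] at h
    obtain ⟨n, hn⟩ := h
    rw [AddCircle.coe_eq_zero_iff]
    exact ⟨n, by rw [zsmul_eq_mul]; exact hn⟩

theorem clo_div (M : ℕ) (hM : 0 < M) (t : Cir) (h : M • t = 0) :
    ∃ a : Fin M, ((2 * Real.pi * a.val / M : ℝ) : Cir) = t := by
  induction t using cir_ind with
  | h x =>
    have h' : ((M • x : ℝ) : Cir) = 0 := h
    rw [AddCircle.coe_eq_zero_iff] at h'
    obtain ⟨n, hn⟩ := h'
    obtain ⟨a, ha⟩ := clo_int M hM n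
    refine ⟨a, ha.trans ?_⟩
    congr 1
    rw [zsmul_eq_mul, nsmul_eq_mul] at hn
    have hMr : (M : ℝ) ≠ 0 := by positivity
    field_simp
    linarith

theorem clo_tor (M : ℕ) (hM : 0 < M) (a : Fin M) :
    M • ((2 * Real.pi * a.val / M : ℝ) : Cir) = 0 := by
  have hMr : (M : ℝ) ≠ 0 := by positivity
  rw [← AddCircle.coe_nsmul, AddCircle.coe_eq_zero_iff]
  refine ⟨a.val, ?_⟩
  rw [zsmul_eq_mul, nsmul_eq_mul]
  push_cast
  field_simp

variable {U : Type} [Fintype U] [DecidableEq U]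

theorem clo_add (M : ℕ) [NeZero M] (g g' : U → Fin M) : ang M (g + g') = ang M g + ang M g' := by
  funext w
  simp only [ang, Pi.add_apply]
  have hM : 0 < M := Nat.pos_of_ne_zero (NeZero.ne M)
  have hMr : (M : ℝ) ≠ 0 := by positivity
  have h1 : ((g w).val + (g' w).val : ℕ) = ((g w + g' w).val : ℕ) + M * (((g w).val + (g' w).val) / M) := by
    rw [Fin.val_add]
    exact (Nat.mod_add_div _ _).symm
  have h2 : ((g w).val : ℝ) + ((g' w).val : ℝ) = ((g w + g' w).val : ℝ) +
      M * ((((g w).val + (g' w).val) / M : ℕ) : ℝ) := by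
    exact_mod_cast h1
  rw [← AddCircle.coe_add]
  have h3 : 2 * Real.pi * ((g w).val : ℝ) / M + 2 * Real.pi * ((g' w).val : ℝ) / M =
      2 * Real.pi * ((g w + g' w).val : ℝ) / M + (((g w).val + (g' w).val) / M : ℕ) • (2 * Real.pi) := by
    rw [nsmul_eq_mul, ← add_div, ← mul_add, h2]
    field_simp
  rw [h3, AddCircle.coe_add, AddCircle.coe_nsmul, AddCircle.coe_period, nsmul_zero, add_zero]

/-- sum over the translates. -/
noncomputable def clo_S (M : ℕ) (Φ : (U → Cir) → ℝ) (θ : U → Cir) : ℝ := ∑ g : U → Fin M, Φ (θ + ang M g)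

theorem clo_S_cont (M : ℕ) (Φ : (U → Cir) → ℝ) (hΦ : Continuous Φ) : Continuous (clo_S M Φ) := by
  unfold clo_S
  exact continuous_finsetSum _ (fun g _ => hΦ.comp (continuous_id.add continuous_const))

theorem clo_S_inv (M : ℕ) [NeZero M] (Φ : (U → Cir) → ℝ) (θ : U → Cir) (g' : U → Fin M) :
    clo_S M Φ (θ + ang M g') = clo_S M Φ θ := by
  unfold clo_S
  refine Fintype.sum_equiv (Equiv.addLeft g') _ _ (fun g => ?_)
  simp only [Equiv.coe_addLeft]
  rw [clo_add, add_assoc]

theorem clo_S_zero (M : ℕ) (Φ : (U → Cir) → ℝ) : clo_S M Φ 0 = ∑ g : U → Fin M, Φ (ang M g) := by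
  unfold clo_S
  simp

/-- `∑_w (1 - cos (M θ_w))`. -/
noncomputable def clo_h (M : ℕ) (θ : U → Cir) : ℝ := ∑ w, (1 - cosC (M • θ w))

theorem clo_h_cont (M : ℕ) : Continuous (clo_h (U := U) M) := by
  unfold clo_h
  refine continuous_finsetSum _ (fun w _ => continuous_const.sub (continuous_cosC.comp ?_))
  exact (continuous_nsmul M).comp (continuous_apply w)

theorem clo_h_inv (M : ℕ) (hM : 0 < M) (θ : U → Cir) (g : U → Fin M) :
    clo_h M (θ + ang M g) = clo_h M θ := by
  unfold clo_h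
  refine Finset.sum_congr rfl (fun w _ => ?_)
  rw [Pi.add_apply, smul_add]
  have : M • ang M g w = 0 := clo_tor M hM (g w)
  rw [this, add_zero]

theorem clo_int_S (M : ℕ) (hM : 0 < M) (Φ : (U → Cir) → ℝ) (hΦ : Continuous Φ) (k : (U → Cir) → ℝ)
    (hk : Continuous k) (hki : ∀ θ (g : U → Fin M), k (θ + ang M g) = k θ) :
    ∫ θ, clo_S M Φ θ * k θ ∂haarP (U → Cir) =
      (Fintype.card (U → Fin M) : ℝ) * ∫ θ, Φ θ * k θ ∂haarP (U → Cir) := by
  have e1 : ∀ θ, clo_S M Φ θ * k θ = ∑ g : U → Fin M, Φ (θ + ang M g) * k (θ + ang M g) := by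
    intro θ
    unfold clo_S
    rw [Finset.sum_mul]
    exact Finset.sum_congr rfl (fun g _ => by rw [hki])
  simp only [e1]
  rw [integral_finsetSum]
  · rw [Finset.sum_congr rfl (fun g _ => integral_add_const (fun θ => Φ θ * k θ) (ang M g))]
    rw [Finset.sum_const, Finset.card_univ, nsmul_eq_mul]
  · intro g _
    exact integrable_cont _ ((hΦ.mul hk).comp (continuous_id.add continuous_const))

theorem clo (M : ℕ) (hM : 0 < M) (H F : (U → Cir) → ℝ) (hH : Gin H) (hF : Gin F) :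
    gE H F ≤ clE M H F := by
  classical
  have : NeZero M := ⟨hM.ne'⟩
  have hHc := hH.continuous
  have hFc := hF.continuous
  have hzero : ∀ θ : U → Cir, clo_h M θ = 0 → ∃ g : U → Fin M, θ = 0 + ang M g := by
    intro θ hθ
    unfold clo_h at hθ
    rw [Finset.sum_eq_zero_iff_of_nonneg (fun w _ => by linarith [cosC_le_one (M • θ w)])] at hθ
    have h1 : ∀ w, ∃ a : Fin M, ((2 * Real.pi * a.val / M : ℝ) : Cir) = θ w := by
      intro w
      refine clo_div M hM _ (clo_cos _ ?_)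
      have := hθ w (Finset.mem_univ w)
      linarith
    choose g hg using h1
    refine ⟨g, ?_⟩
    rw [zero_add]
    funext w
    exact (hg w).symm
  have hlap : ∀ Φ : (U → Cir) → ℝ, Continuous Φ → Filter.Tendsto (fun p : ℕ =>
      (∫ x, clo_S M Φ x * Real.exp (-((p:ℝ) * clo_h M x)) ∂haarP (U → Cir)) /
      ∫ x, Real.exp (-((p:ℝ) * clo_h M x)) ∂haarP (U → Cir)) Filter.atTop (nhds (clo_S M Φ 0)) := by
    intro Φ hΦ
    refine clo_lap (clo_h M) (clo_S M Φ) (clo_h_cont M) (clo_S_cont M Φ hΦ) ?_ 0 ?_ _ ?_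
    · intro θ
      exact Finset.sum_nonneg (fun w _ => by linarith [cosC_le_one (M • θ w)])
    · unfold clo_h
      simp
    · intro θ hθ
      obtain ⟨g, hg⟩ := hzero θ hθ
      rw [hg, clo_S_inv]
  have hΨ : Continuous (fun θ : U → Cir => Real.exp (H θ)) := Real.continuous_exp.comp hHc
  have hΦ : Continuous (fun θ : U → Cir => F θ * Real.exp (H θ)) := hFc.mul hΨ
  have hpos : 0 < clo_S M (fun θ : U → Cir => Real.exp (H θ)) 0 :=
    Finset.sum_pos (fun g _ => Real.exp_pos _) Finset.univ_nonempty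
  have hT := (hlap _ hΦ).div (hlap _ hΨ) hpos.ne'
  have hcl : clE M H F = clo_S M (fun θ => F θ * Real.exp (H θ)) 0 /
      clo_S M (fun θ : U → Cir => Real.exp (H θ)) 0 := by
    rw [clo_S_zero, clo_S_zero]; rfl
  rw [hcl]
  refine ge_of_tendsto' hT (fun p => ?_)
  -- the quotient is `gE (H + p ∑ cos) F`
  have hH' : Gin (fun θ : U → Cir => (p:ℝ) * ∑ w, cosC (M • θ w)) := by
    refine Gin.smul (Nat.cast_nonneg p) (Gin.sum univ (fun w _ => ?_))
    refine Gin.cos ((nsmulAddMonoidHom M).comp (Pi.evalAddMonoidHom (fun _ : U => Cir) w)) ?_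
    exact (continuous_nsmul M).comp (continuous_apply w)
  have hmono := gin_mono (pi_div cir_div) hF hH hH'
  refine hmono.trans (le_of_eq ?_)
  have hZ : 0 < ∫ x, Real.exp (-((p:ℝ) * clo_h M x)) ∂haarP (U → Cir) :=
    integral_exp_pos (fun x => -((p:ℝ) * clo_h M x)) (continuous_const.mul (clo_h_cont M)).neg
  have hk : Continuous (fun x : U → Cir => Real.exp (-((p:ℝ) * clo_h M x))) :=
    Real.continuous_exp.comp (continuous_const.mul (clo_h_cont M)).neg
  have hki : ∀ (θ : U → Cir) (g : U → Fin M), Real.exp (-((p:ℝ) * clo_h M (θ + ang M g))) =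
      Real.exp (-((p:ℝ) * clo_h M θ)) := fun θ g => by rw [clo_h_inv M hM]
  have hcard : (0:ℝ) < (Fintype.card (U → Fin M) : ℝ) := by exact_mod_cast Fintype.card_pos
  have hZ2 : 0 < ∫ x, Real.exp (H x) * Real.exp (-((p:ℝ) * clo_h M x)) ∂haarP (U → Cir) := by
    have := integral_exp_pos (fun x => H x + -((p:ℝ) * clo_h M x))
      (hHc.add (continuous_const.mul (clo_h_cont M)).neg)
    simpa only [Real.exp_add] using this
  rw [Pi.div_apply, clo_int_S M hM _ hΦ _ hk hki, clo_int_S M hM _ hΨ _ hk hki,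
    div_div_div_cancel_right₀ hZ.ne', mul_div_mul_left _ _ hcard.ne']
  have hid : ∀ θ : U → Cir, Real.exp (H θ + (p:ℝ) * ∑ w, cosC (M • θ w)) =
      Real.exp ((p:ℝ) * Fintype.card U) * (Real.exp (H θ) * Real.exp (-((p:ℝ) * clo_h M θ))) := by
    intro θ
    rw [← Real.exp_add, ← Real.exp_add]
    congr 1
    unfold clo_h
    rw [Finset.sum_sub_distrib]
    simp
    ring
  unfold gE
  simp only [hid]
  have e1 : ∀ θ : U → Cir, F θ * (Real.exp ((p:ℝ) * Fintype.card U) * (Real.exp (H θ) * Real.exp (-((p:ℝ) * clo_h M θ)))) =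
      Real.exp ((p:ℝ) * Fintype.card U) * (F θ * Real.exp (H θ) * Real.exp (-((p:ℝ) * clo_h M θ))) := by
    intro θ; ring
  simp only [e1]
  rw [integral_const_mul, integral_const_mul, mul_div_mul_left _ _ (Real.exp_pos _).ne']

/-- Riemann sums. -/
theorem clo_rie (Φ : (U → Cir) → ℝ) (hΦ : Continuous Φ) :
    Filter.Tendsto (fun M : ℕ => (Fintype.card (U → Fin M) : ℝ)⁻¹ * clo_S M Φ 0) Filter.atTop
      (nhds (∫ θ, Φ θ ∂haarP (U → Cir))) := by
  classical
  rw [Metric.tendsto_atTop]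
  intro ε hε
  have huc : UniformContinuous Φ := CompactSpace.uniformContinuous_of_continuous hΦ
  obtain ⟨δ, hδ, hδ2⟩ := Metric.uniformContinuous_iff.1 huc (ε / 2) (by linarith)
  obtain ⟨N, hN⟩ := exists_nat_gt (2 * Real.pi / δ)
  refine ⟨max N 1, fun M hM => ?_⟩
  have hM1 : 0 < M := lt_of_lt_of_le one_pos ((le_max_right N 1).trans hM)
  have hMN : (N:ℝ) ≤ M := by exact_mod_cast (le_max_left N 1).trans hM
  have : NeZero M := ⟨hM1.ne'⟩
  have hMr : (0:ℝ) < M := by exact_mod_cast hM1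
  have hsmall : 2 * Real.pi / M < δ := by
    rw [div_lt_iff₀ hMr]
    rw [div_lt_iff₀ hδ] at hN
    nlinarith
  have hcard : (0:ℝ) < (Fintype.card (U → Fin M) : ℝ) := by exact_mod_cast Fintype.card_pos
  -- coordinates
  have hcoord : ∀ t : Cir, ∃ a : Fin M, ‖t - ((2 * Real.pi * a.val / M : ℝ) : Cir)‖ < δ := by
    intro t
    induction t using cir_ind with
    | h x =>
      obtain ⟨a, ha⟩ := clo_int M hM1 ⌊x * M / (2 * Real.pi)⌋
      refine ⟨a, ?_⟩
      rw [ha]
      change ‖((x : ℝ) : Cir) - _‖ < δ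
      rw [← AddCircle.coe_sub]
      refine lt_of_le_of_lt (clo_nle _) ?_
      refine lt_of_le_of_lt ?_ hsmall
      have h1 := Int.floor_le (x * M / (2 * Real.pi))
      have h2 := Int.lt_floor_add_one (x * M / (2 * Real.pi))
      have hpi := Real.two_pi_pos
      rw [le_div_iff₀ hpi] at h1
      rw [div_lt_iff₀ hpi] at h2
      rw [abs_le]
      constructor
      · have h5 : 2 * Real.pi * (⌊x * M / (2 * Real.pi)⌋ : ℝ) / M ≤ x := by
          rw [div_le_iff₀ hMr]
          linarith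
        have h6 : 0 < 2 * Real.pi / M := by positivity
        linarith
      · rw [sub_le_iff_le_add, ← add_div, le_div_iff₀ hMr]
        nlinarith
  have hclose : ∀ θ : U → Cir, |clo_S M Φ θ - clo_S M Φ 0| ≤ Fintype.card (U → Fin M) * (ε / 2) := by
    intro θ
    choose g hg using fun w => hcoord (θ w)
    have e1 : clo_S M Φ θ = clo_S M Φ (θ - ang M g) := by
      rw [← clo_S_inv M Φ (θ - ang M g) g, sub_add_cancel]
    rw [e1]
    unfold clo_S
    rw [← Finset.sum_sub_distrib]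
    refine (Finset.abs_sum_le_sum_abs _ _).trans ?_
    refine (Finset.sum_le_card_nsmul _ _ (ε / 2) ?_).trans (le_of_eq ?_)
    · intro g' _
      have h1 : dist (θ - ang M g + ang M g') (0 + ang M g') < δ := by
        rw [dist_add_right, dist_zero_right]
        rw [pi_norm_lt_iff hδ]
        intro w
        exact hg w
      have h2 := hδ2 h1
      rw [Real.dist_eq] at h2
      exact h2.le
    · rw [Finset.card_univ, nsmul_eq_mul]
  have hint : ∫ θ, clo_S M Φ θ ∂haarP (U → Cir) =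
      (Fintype.card (U → Fin M) : ℝ) * ∫ θ, Φ θ ∂haarP (U → Cir) := by
    have := clo_int_S M hM1 Φ hΦ (fun _ => 1) continuous_const (fun _ _ => rfl)
    simpa using this
  have e1 : (Fintype.card (U → Fin M) : ℝ)⁻¹ * clo_S M Φ 0 - ∫ θ, Φ θ ∂haarP (U → Cir) =
      (Fintype.card (U → Fin M) : ℝ)⁻¹ * ∫ θ, (clo_S M Φ 0 - clo_S M Φ θ) ∂haarP (U → Cir) := by
    rw [integral_sub (integrable_const _) (integrable_cont _ (clo_S_cont M Φ hΦ)), hint, integral_const]
    simp only [probReal_univ, one_smul]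
    field_simp
  rw [Real.dist_eq, e1, abs_mul, abs_of_pos (inv_pos.2 hcard)]
  have h2 : |∫ θ, (clo_S M Φ 0 - clo_S M Φ θ) ∂haarP (U → Cir)| ≤ Fintype.card (U → Fin M) * (ε / 2) := by
    refine (abs_integral_le_integral_abs).trans ?_
    have h3 : ∫ θ : U → Cir, (Fintype.card (U → Fin M) * (ε / 2) : ℝ) ∂haarP (U → Cir) =
        Fintype.card (U → Fin M) * (ε / 2) := by
      rw [integral_const]; simp
    rw [← h3]
    refine integral_mono (integrable_cont _ ((continuous_const.sub (clo_S_cont M Φ hΦ)).abs))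
      (integrable_const _) ?_
    intro θ
    simp only
    rw [abs_sub_comm]
    exact hclose θ
  have h4 := mul_le_mul_of_nonneg_left h2 (inv_pos.2 hcard).le
  refine lt_of_le_of_lt h4 ?_
  rw [← mul_assoc, inv_mul_cancel₀ hcard.ne']
  linarith

theorem rie (H F : (U → Cir) → ℝ) (hH : Continuous H) (hF : Continuous F) :
    Filter.Tendsto (fun M : ℕ => clE M H F) Filter.atTop (nhds (gE H F)) := by
  have hΨ : Continuous (fun θ : U → Cir => Real.exp (H θ)) := Real.continuous_exp.comp hH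
  have hΦ : Continuous (fun θ : U → Cir => F θ * Real.exp (H θ)) := hF.mul hΨ
  have hpos := integral_exp_pos H hH
  have hT := (clo_rie _ hΦ).div (clo_rie _ hΨ) hpos.ne'
  have : gE H F = (∫ θ, F θ * Real.exp (H θ) ∂haarP (U → Cir)) / ∫ θ, Real.exp (H θ) ∂haarP (U → Cir) := rfl
  rw [this]
  refine hT.congr' ?_
  filter_upwards [Filter.eventually_gt_atTop 0] with M hM
  have : NeZero M := ⟨hM.ne'⟩
  have hcard : (0:ℝ) < (Fintype.card (U → Fin M) : ℝ) := by exact_mod_cast Fintype.card_pos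
  rw [Pi.div_apply, mul_div_mul_left _ _ (inv_pos.2 hcard).ne', clo_S_zero, clo_S_zero]
  rfl

end H82.BX
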