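import Pool.Agent.H82.BX.TIE
import Pool.Agent.H82.BX.CLO

/-!
# A3: the clock chain model on the torus dominates the XY model on the chained triangular box

`tie` with `W = ↥(bx 2 n) ⊕ ↥(EN n) × Fin 5`, `Y = SV(torus) → Cir`, `ι θ p = θ (pT L n p)`.  The six links of the edge `(x, i)` (`i = 0, 1`) are mapped to the
positions `x, x, x, x, z, m, x + e_i` (`z, m` the chain of the torus edge `(x, i)`), those of the diagonal `(x, 2)` to
`x, z, m, x+e₀, z', m', x+e₀+e₁` (chains of the torus edges `(x,0)` and `(x+e₀,1)`).  So `hG (C6 (TB n)) κ (ι θ) = const + κ ∑_{torus links} N cos`, with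
multiplicity `N ∈ {0,1,2}` (`(x,i)` and the diagonal `(x,2)` resp. `(x - e₀, 2)`; injectivity of the projection of the box to the torus since
`L ≥ 4n+4`).  As `2 κ ≤ b` and `0 ≤ l`, the difference `hS (TD L) b l - hG ∘ ι` is (up to a constant) in the cone: `gin_mono`; then `clo`.
-/

set_option autoImplicit false

open Finset MeasureTheory

namespace H82.BX

open H82.IC XYB

/-- projection to the torus. -/
def prT (L : ℕ) (x : Vx 2) : Fin 2 → ZMod L := fun i => (x i : ZMod L)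

/-- positions on the torus of the inner vertices of the chained triangular box. -/
def pT (L n : ℕ) : ↥(bx 2 n) ⊕ (↥(EN n) × Fin 5) → SV (Fin 2 → ZMod L) ((Fin 2 → ZMod L) × Fin 2)
  | Sum.inl v => Sum.inl (prT L v.1)
  | Sum.inr q =>
    (![(![Sum.inl (prT L q.1.1.1), Sum.inl (prT L q.1.1.1), Sum.inl (prT L q.1.1.1),
          Sum.inr ((prT L q.1.1.1, 0), false), Sum.inr ((prT L q.1.1.1, 0), true)] : Fin 5 → _),
       (![Sum.inl (prT L q.1.1.1), Sum.inl (prT L q.1.1.1), Sum.inl (prT L q.1.1.1),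
          Sum.inr ((prT L q.1.1.1, 1), false), Sum.inr ((prT L q.1.1.1, 1), true)] : Fin 5 → _),
       (![Sum.inr ((prT L q.1.1.1, 0), false), Sum.inr ((prT L q.1.1.1, 0), true),
          Sum.inl (prT L q.1.1.1 + Pi.single 0 1),
          Sum.inr ((prT L q.1.1.1 + Pi.single 0 1, 1), false),
          Sum.inr ((prT L q.1.1.1 + Pi.single 0 1, 1), true)] : Fin 5 → _)] :
      Fin 3 → Fin 5 → SV (Fin 2 → ZMod L) ((Fin 2 → ZMod L) × Fin 2)) q.1.1.2 q.2

section aux

/-- the restriction homomorphism. -/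
def a3io (L n : ℕ) : (SV (Fin 2 → ZMod L) ((Fin 2 → ZMod L) × Fin 2) → Cir) →+
    (↥(bx 2 n) ⊕ (↥(EN n) × Fin 5) → Cir) where
  toFun θ p := θ (pT L n p)
  map_zero' := rfl
  map_add' _ _ := rfl

/-- energy of the chain of a torus edge. -/
noncomputable def a3A {L : ℕ} (f : (Fin 2 → ZMod L) × Fin 2)
    (θ : SV (Fin 2 → ZMod L) ((Fin 2 → ZMod L) × Fin 2) → Cir) : ℝ :=
  ∑ k : Fin 3, cosC (θ ((LK (TD L)).r (f, k)) - θ ((LK (TD L)).s (f, k)))

/-- first torus edge of an edge of the box. -/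
def a3g1 (L : ℕ) (e : Vx 2 × Fin 3) : (Fin 2 → ZMod L) × Fin 2 :=
  (prT L e.1, if e.2 = 1 then 1 else 0)

/-- second torus edge of a diagonal of the box. -/
def a3g2 (L : ℕ) (e : Vx 2 × Fin 3) : (Fin 2 → ZMod L) × Fin 2 :=
  (prT L e.1 + Pi.single 0 1, 1)

lemma a3_prT_add (L : ℕ) (x y : Vx 2) : prT L (x + y) = prT L x + prT L y := by
  funext i; simp [prT]

lemma a3_prT_single (L : ℕ) (i : Fin 2) : prT L (Pi.single i 1) = Pi.single i 1 := by
  funext j
  by_cases h : j = i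
  · subst h; simp [prT]
  · simp [prT, Pi.single_eq_of_ne h]

lemma a3_inner (L n : ℕ) (e : ↥(EN n))
    (θ : SV (Fin 2 → ZMod L) ((Fin 2 → ZMod L) × Fin 2) → Cir) :
    ∑ j : Fin 6, cosC (θ (pT L n ((C6 (TB n)).r (e, j))) - θ (pT L n ((C6 (TB n)).s (e, j)))) =
      (if e.1.2 = 2 then 0 else 3) + a3A (a3g1 L e.1) θ +
        (if e.1.2 = 2 then a3A (a3g2 L e.1) θ else 0) := by
  obtain ⟨⟨x, k⟩, he⟩ := e
  fin_cases k
  · simp [Fin.sum_univ_six, Fin.sum_univ_three, C6, TB, pT, a3A, a3g1, LK, TD, TT, a3_prT_add, a3_prT_single]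
    ring
  · simp [Fin.sum_univ_six, Fin.sum_univ_three, C6, TB, pT, a3A, a3g1, LK, TD, TT, a3_prT_add, a3_prT_single]
    ring
  · simp [Fin.sum_univ_six, Fin.sum_univ_three, C6, TB, pT, a3A, a3g1, a3g2, LK, TD, TT, a3_prT_add, a3_prT_single]
    ring_nf

lemma a3_prT_inj {n L : ℕ} (hL : 4 * n + 4 ≤ L) {x y : Vx 2} (hx : x ∈ bx 2 n) (hy : y ∈ bx 2 n)
    (h : prT L x = prT L y) : x = y := by
  funext i
  have h1 := congrFun h i
  unfold prT at h1
  rw [ZMod.intCast_eq_intCast_iff] at h1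
  have hxi := Finset.mem_Icc.1 (Fintype.mem_piFinset.1 hx i)
  have hyi := Finset.mem_Icc.1 (Fintype.mem_piFinset.1 hy i)
  obtain ⟨c, hc⟩ := h1.dvd
  have hc0 : c = 0 := by
    by_contra hne
    have hL' : (4 * (n : ℤ) + 4) ≤ (L : ℤ) := by exact_mod_cast hL
    rcases lt_or_gt_of_ne hne with h2 | h2
    · have : (L : ℤ) * c ≤ (L : ℤ) * (-1) := by
        apply mul_le_mul_of_nonneg_left _ (by positivity); omega
      omega
    · have : (L : ℤ) * 1 ≤ (L : ℤ) * c := by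
        apply mul_le_mul_of_nonneg_left _ (by positivity); omega
      omega
  rw [hc0] at hc
  omega

lemma a3_EN_fst {n : ℕ} (e : ↥(EN n)) : e.1.1 ∈ bx 2 n :=
  (mem_product.1 (mem_filter.1 e.2).1).1

/-- multiplicities. -/
noncomputable def a3N (L n : ℕ) (f : (Fin 2 → ZMod L) × Fin 2) : ℝ :=
  open Classical in
  (if f ∈ (univ.filter (fun e : ↥(EN n) => e.1.2 ≠ 2)).image (fun e => a3g1 L e.1) then 1 else 0) +
  (if f ∈ (univ.filter (fun e : ↥(EN n) => e.1.2 = 2)).image (fun e => a3g1 L e.1) then 1 else 0) +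
  (if f ∈ (univ.filter (fun e : ↥(EN n) => e.1.2 = 2)).image (fun e => a3g2 L e.1) then 1 else 0)

lemma a3N_le (L n : ℕ) (f : (Fin 2 → ZMod L) × Fin 2) : a3N L n f ≤ 2 := by
  classical
  unfold a3N
  by_cases h1 : f ∈ (univ.filter (fun e : ↥(EN n) => e.1.2 = 2)).image (fun e => a3g1 L e.1)
  · by_cases h2 : f ∈ (univ.filter (fun e : ↥(EN n) => e.1.2 = 2)).image (fun e => a3g2 L e.1)
    · exfalso
      obtain ⟨e, he, hef⟩ := mem_image.1 h1
      obtain ⟨e', he', hef'⟩ := mem_image.1 h2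
      have hk := (mem_filter.1 he).2
      have := congrArg Prod.snd (hef.trans hef'.symm)
      simp [a3g1, a3g2, hk] at this
    · rw [if_pos h1, if_neg h2]
      split_ifs <;> norm_num
  · rw [if_neg h1]
    split_ifs <;> norm_num

lemma a3_sum (L n : ℕ) [NeZero L] (hL : 4 * n + 4 ≤ L)
    (θ : SV (Fin 2 → ZMod L) ((Fin 2 → ZMod L) × Fin 2) → Cir) :
    ∑ e : ↥(EN n), (a3A (a3g1 L e.1) θ + (if e.1.2 = 2 then a3A (a3g2 L e.1) θ else 0)) =
      ∑ f, a3N L n f * a3A f θ := by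
  classical
  have key : ∀ (S : Finset ↥(EN n)) (g : ↥(EN n) → (Fin 2 → ZMod L) × Fin 2), Set.InjOn g S →
      ∑ e ∈ S, a3A (g e) θ = ∑ f, (if f ∈ S.image g then 1 else 0) * a3A f θ := by
    intro S g hg
    simp only [ite_mul, one_mul, zero_mul]
    rw [Finset.sum_ite_mem, Finset.univ_inter, Finset.sum_image hg]
  have h0 := key (univ.filter (fun e : ↥(EN n) => e.1.2 ≠ 2)) (fun e => a3g1 L e.1) (by
    intro e he e' he' h
    have hk := (mem_filter.1 he).2
    have hk' := (mem_filter.1 he').2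
    have h1 := a3_prT_inj hL (a3_EN_fst e) (a3_EN_fst e') (congrArg Prod.fst h)
    have h2 := congrArg Prod.snd h
    simp only [a3g1] at h2
    apply Subtype.ext
    apply Prod.ext h1
    generalize e.1.2 = a at hk h2 ⊢
    generalize e'.1.2 = a' at hk' h2 ⊢
    revert hk hk' h2
    fin_cases a <;> fin_cases a' <;> simp)
  have h1 := key (univ.filter (fun e : ↥(EN n) => e.1.2 = 2)) (fun e => a3g1 L e.1) (by
    intro e he e' he' h
    have hk := (mem_filter.1 he).2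
    have hk' := (mem_filter.1 he').2
    have h1 := a3_prT_inj hL (a3_EN_fst e) (a3_EN_fst e') (congrArg Prod.fst h)
    apply Subtype.ext
    exact Prod.ext h1 (hk.trans hk'.symm))
  have h2 := key (univ.filter (fun e : ↥(EN n) => e.1.2 = 2)) (fun e => a3g2 L e.1) (by
    intro e he e' he' h
    have hk := (mem_filter.1 he).2
    have hk' := (mem_filter.1 he').2
    have h1 := a3_prT_inj hL (a3_EN_fst e) (a3_EN_fst e') (add_right_cancel (congrArg Prod.fst h))
    apply Subtype.ext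
    exact Prod.ext h1 (hk.trans hk'.symm))
  have e1 : ∑ f, a3N L n f * a3A f θ =
      ∑ e ∈ univ.filter (fun e : ↥(EN n) => e.1.2 ≠ 2), a3A (a3g1 L e.1) θ +
      ∑ e ∈ univ.filter (fun e : ↥(EN n) => e.1.2 = 2), a3A (a3g1 L e.1) θ +
      ∑ e ∈ univ.filter (fun e : ↥(EN n) => e.1.2 = 2), a3A (a3g2 L e.1) θ := by
    rw [h0, h1, h2, ← Finset.sum_add_distrib, ← Finset.sum_add_distrib]
    apply Finset.sum_congr rfl
    intro f _
    unfold a3N
    ring
  rw [e1, Finset.sum_add_distrib, Finset.sum_filter _ (fun e : ↥(EN n) => a3A (a3g2 L e.1) θ),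
    ← Finset.sum_filter_add_sum_filter_not univ (fun e : ↥(EN n) => e.1.2 = 2)
      (fun e => a3A (a3g1 L e.1) θ)]
  ring

lemma a3_hG (L n : ℕ) [NeZero L] (hL : 4 * n + 4 ≤ L) (κ : ℝ)
    (θ : SV (Fin 2 → ZMod L) ((Fin 2 → ZMod L) × Fin 2) → Cir) :
    hG (C6 (TB n)) (fun _ => κ) (a3io L n θ) =
      κ * (∑ e : ↥(EN n), if e.1.2 = 2 then 0 else 3) + ∑ f, κ * a3N L n f * a3A f θ := by
  unfold hG
  rw [Fintype.sum_prod_type]
  have h : ∀ e : ↥(EN n), ∑ j : Fin 6, κ * cosC (a3io L n θ ((C6 (TB n)).r (e, j)) -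
      a3io L n θ ((C6 (TB n)).s (e, j))) = κ * (if e.1.2 = 2 then 0 else 3) +
      κ * (a3A (a3g1 L e.1) θ + (if e.1.2 = 2 then a3A (a3g2 L e.1) θ else 0)) := by
    intro e
    rw [← Finset.mul_sum]
    have := a3_inner L n e θ
    simp only [a3io, AddMonoidHom.coe_mk, ZeroHom.coe_mk]
    rw [this]; ring
  rw [Finset.sum_congr rfl (fun e _ => h e), Finset.sum_add_distrib, ← Finset.mul_sum,
    ← Finset.mul_sum, a3_sum L n hL θ, Finset.mul_sum (s := univ) (f := fun f => a3N L n f * a3A f θ)]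
  congr 1
  apply Finset.sum_congr rfl
  intro f _
  ring

lemma a3_LK (L : ℕ) [NeZero L] (J : (Fin 2 → ZMod L) × Fin 2 → ℝ)
    (θ : SV (Fin 2 → ZMod L) ((Fin 2 → ZMod L) × Fin 2) → Cir) :
    hG (LK (TD L)) (fun l => J l.1) θ = ∑ f, J f * a3A f θ := by
  unfold hG a3A
  rw [Fintype.sum_prod_type]
  apply Finset.sum_congr rfl
  intro f _
  rw [Finset.mul_sum]

lemma a3_gE_addc {X : Type*} [AddCommGroup X] [TopologicalSpace X] [IsTopologicalAddGroup X]
    [CompactSpace X] [MeasurableSpace X] [BorelSpace X] [SecondCountableTopology X]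
    (H F : X → ℝ) (c : ℝ) : gE (fun x => c + H x) F = gE H F := by
  unfold gE
  have h1 : (fun x => F x * Real.exp (c + H x)) = fun x => Real.exp c * (F x * Real.exp (H x)) := by
    funext x; rw [Real.exp_add]; ring
  have h2 : (fun x => Real.exp (c + H x)) = fun x => Real.exp c * Real.exp (H x) := by
    funext x; rw [Real.exp_add]
  rw [h1, h2, integral_const_mul, integral_const_mul, mul_div_mul_left _ _ (Real.exp_pos c).ne']

end aux

lemma a3_split (L n : ℕ) [NeZero L] (hL : 4 * n + 4 ≤ L) (b κ l : ℝ)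
    (θ : SV (Fin 2 → ZMod L) ((Fin 2 → ZMod L) × Fin 2) → Cir) :
    hG (C6 (TB n)) (fun _ => κ) (a3io L n θ) +
      (hG (LK (TD L)) (fun l => b - κ * a3N L n l.1) θ + hS (TD L) 0 l θ) =
      κ * (∑ e : ↥(EN n), if e.1.2 = 2 then 0 else 3) + hS (TD L) b l θ := by
  have e1 := a3_hG L n hL κ θ
  have e2 := a3_LK L (fun f => b - κ * a3N L n f) θ
  have e3 := a3_LK L (fun _ => (0:ℝ)) θ
  have e4 := a3_LK L (fun _ => b) θ
  have e5 : ∑ f, (b - κ * a3N L n f) * a3A f θ =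
      ∑ f, b * a3A f θ - ∑ f, κ * a3N L n f * a3A f θ := by
    rw [← Finset.sum_sub_distrib]
    apply Finset.sum_congr rfl
    intro f _
    ring
  simp only [zero_mul, Finset.sum_const_zero] at e3
  unfold hS
  rw [e1, e2, e3, e4, e5]
  ring

theorem a3 (n L : ℕ) [NeZero L] (hL : 4 * n + 4 ≤ L) (b κ l : ℝ) (hκ : 0 ≤ κ) (hb : 2 * κ ≤ b)
    (hl : 0 ≤ l) (M : ℕ) (hM : 0 < M) (p q : ↥(bx 2 n) ⊕ (↥(EN n) × Fin 5)) :
    gE (hG (C6 (TB n)) (fun _ => κ)) (fun θ => cosC (θ p) * cosC (θ q)) ≤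
      clE M (hS (TD L) b l) (fun θ => cosC (θ (pT L n p)) * cosC (θ (pT L n q))) := by
  have hb0 : 0 ≤ b := by linarith
  have hι : Continuous (a3io L n) := continuous_pi fun w => continuous_apply (pT L n w)
  have h1 : gE (hG (C6 (TB n)) (fun _ => κ)) (fun θ => cosC (θ p) * cosC (θ q)) ≤
      gE (fun θ => hG (C6 (TB n)) (fun _ => κ) (a3io L n θ))
        (fun θ => cosC (θ (pT L n p)) * cosC (θ (pT L n q))) :=
    tie (cir_pi_div (U := SV (Fin 2 → ZMod L) ((Fin 2 → ZMod L) × Fin 2))) (a3io L n) hι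
      (hG (C6 (TB n)) (fun _ => κ)) (fun θ => cosC (θ p) * cosC (θ q))
      (gin_hG _ _ (fun _ => hκ)) (gin_cc p q)
  refine h1.trans ?_
  have hJ : ∀ f : (Fin 2 → ZMod L) × Fin 2, 0 ≤ b - κ * a3N L n f := fun f => by
    have := mul_le_mul_of_nonneg_left (a3N_le L n f) hκ
    linarith
  have hG1 : Gin (fun θ => hG (LK (TD L)) (fun l => b - κ * a3N L n l.1) θ) :=
    gin_hG _ _ (fun e => hJ e.1)
  have hG2 : Gin (fun θ => hS (TD L) 0 l θ) := gin_hS _ 0 l le_rfl hl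
  have hGι : Gin (fun θ => hG (C6 (TB n)) (fun _ => κ) (a3io L n θ)) :=
    gin_comp (a3io L n) hι (gin_hG _ _ (fun _ => hκ))
  have hcc : Gin (fun θ : SV (Fin 2 → ZMod L) ((Fin 2 → ZMod L) × Fin 2) → Cir =>
      cosC (θ (pT L n p)) * cosC (θ (pT L n q))) := gin_cc (pT L n p) (pT L n q)
  have h2 := gin_mono (cir_pi_div (U := SV (Fin 2 → ZMod L) ((Fin 2 → ZMod L) × Fin 2)))
    hcc hGι (hG1.add hG2)
  have hcl : gE (hS (TD L) b l) (fun θ => cosC (θ (pT L n p)) * cosC (θ (pT L n q))) ≤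
    clE M (hS (TD L) b l) (fun θ => cosC (θ (pT L n p)) * cosC (θ (pT L n q))) :=
      clo M hM _ _ (gin_hS _ b l hb0 hl) hcc
  have h3 : gE (fun θ => hG (C6 (TB n)) (fun _ => κ) (a3io L n θ) +
      (hG (LK (TD L)) (fun l => b - κ * a3N L n l.1) θ + hS (TD L) 0 l θ))
      (fun θ => cosC (θ (pT L n p)) * cosC (θ (pT L n q))) =
      gE (hS (TD L) b l) (fun θ => cosC (θ (pT L n p)) * cosC (θ (pT L n q))) := by
    rw [funext (a3_split L n hL b κ l)]
    exact a3_gE_addc (hS (TD L) b l) _ _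
  exact (h2.trans (le_of_eq h3)).trans hcl

end H82.BX
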