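import Pool.Agent.H82.BX.BES
import Pool.Agent.H2.XY.I0B

/-!
# BE2: log-concavity of `n ↦ I_n(κ)`, and `I_1/I_0 → 1`

Log-concavity: with `s = a + b`, `t = a - b` one gets
`2 (I_n² - I_{n-1} I_{n+1}) = ∫∫ (cos 2na (1 - cos 2b) + cos 2nb (1 - cos 2a)) e^{2κ cos a cos b}`
and `∫ cos 2na e^{x cos a} da ≥ 0` for all real `x` (`x ↦ -x` is the translation of `a` by `π`).
-/

set_option autoImplicit false

open Finset MeasureTheory

namespace H82.BX

open H82.IC XYB

lemma be2_cont (κ : ℝ) (n : ℤ) : Continuous fun t : Cir => cosC (n • t) * Real.exp (κ * cosC t) :=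
  (continuous_cosC.comp (continuous_zsmul n)).mul
    (Real.continuous_exp.comp (continuous_const.mul continuous_cosC))

lemma be2_smul2 {G : Type} [AddCommGroup G] (n : ℤ) (x : G) (h : (2 : ℤ) • x = 0) :
    (2 * n) • x = 0 := by
  rw [mul_comm, mul_smul, h, smul_zero]

/-- translation by `π`. -/
lemma be2_neg (κ : ℝ) (n : ℤ) : bI (-κ) (2 * n) = bI κ (2 * n) := by
  unfold bI
  rw [← integral_add_const (fun t : Cir => cosC ((2 * n) • t) * Real.exp (κ * cosC t)) ((Real.pi : ℝ) : Cir)]
  congr 1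
  ext t
  have h1 : (2 * n) • (t + ((Real.pi : ℝ) : Cir)) = (2 * n) • t := by
    rw [smul_add]
    have : (2 * n) • ((Real.pi : ℝ) : Cir) = 0 := by
      have h2 : (2 : ℤ) • ((Real.pi : ℝ) : Cir) = 0 := by
        rw [← AddCircle.coe_zsmul]
        have : (2 : ℤ) • Real.pi = 2 * Real.pi := by simp
        rw [this]
        exact AddCircle.coe_period _
      exact be2_smul2 n _ h2
    rw [this, add_zero]
  have h2 : cosC (t + ((Real.pi : ℝ) : Cir)) = - cosC t := by
    rw [cosC_add]; simp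
  rw [h1, h2]
  congr 2
  ring

lemma be2_even_nonneg (x : ℝ) (n : ℤ) : 0 ≤ bI x (2 * n) := by
  rcases le_total 0 x with h | h
  · exact bI_nonneg x h _
  · rw [← be2_neg]
    exact bI_nonneg _ (by linarith) _

/-- the homomorphism `(a, b) ↦ (a + b, a - b)`. -/
noncomputable def be2phi : Cir × Cir →+ Cir × Cir where
  toFun p := (p.1 + p.2, p.1 - p.2)
  map_zero' := by simp
  map_add' p q := by
    ext1
    · simp only [Prod.fst_add, Prod.snd_add]; abel
    · simp only [Prod.fst_add, Prod.snd_add]; abel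

lemma be2phi_cont : Continuous be2phi := by
  change Continuous (fun p : Cir × Cir => (p.1 + p.2, p.1 - p.2))
  fun_prop

lemma be2phi_surj : Function.Surjective be2phi := by
  rintro ⟨s, t⟩
  obtain ⟨a, ha⟩ := cir_div (s + t)
  refine ⟨(a, s - a), ?_⟩
  change (a + (s - a), a - (s - a)) = (s, t)
  ext1
  · simp
  · change a - (s - a) = t
    have : a - (s - a) = (a + a) - s := by abel
    rw [this, ha]; abel

/-- the reflection `(a, b) ↦ (-a, b)`. -/
noncomputable def be2psi : Cir × Cir →+ Cir × Cir where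
  toFun p := (-p.1, p.2)
  map_zero' := by simp
  map_add' p q := by
    ext1
    · simp only [Prod.fst_add]; abel
    · simp only [Prod.snd_add]

lemma be2psi_cont : Continuous be2psi := by
  change Continuous (fun p : Cir × Cir => (-p.1, p.2))
  fun_prop

lemma be2psi_surj : Function.Surjective be2psi := by
  rintro ⟨s, t⟩
  refine ⟨(-s, t), ?_⟩
  change (- -s, t) = (s, t)
  simp

lemma be2_mul (κ : ℝ) (n m : ℤ) : bI κ n * bI κ m =
    ∫ p : Cir × Cir, cosC (n • p.1) * cosC (m • p.2) * Real.exp (κ * (cosC p.1 + cosC p.2))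
      ∂haarP (Cir × Cir) := by
  unfold bI
  rw [haarP_prod, ← integral_prod_mul]
  congr 1
  ext p
  rw [mul_add, Real.exp_add]
  ring

lemma be2_smul {G : Type} [AddCommGroup G] (n : ℤ) (a b : G) :
    n • (a + b) + n • (a - b) = (2 * n) • a ∧
    n • (a + b) - n • (a - b) = (2 * n) • b ∧
    (n - 1) • (a + b) + (n + 1) • (a - b) = (2 * n) • a - (b + b) ∧
    (n - 1) • (a + b) - (n + 1) • (a - b) = (2 * n) • b - (a + a) ∧
    n • (-a + b) + n • (-a - b) = -((2 * n) • a) ∧
    n • (-a + b) - n • (-a - b) = (2 * n) • b ∧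
    (n - 1) • (-a + b) + (n + 1) • (-a - b) = -((2 * n) • a + (b + b)) ∧
    (n - 1) • (-a + b) - (n + 1) • (-a - b) = (2 * n) • b + (a + a) := by
  refine ⟨?_, ?_, ?_, ?_, ?_, ?_, ?_, ?_⟩ <;> module

lemma be2_trig (n : ℤ) (a b : Cir) :
    (cosC (n • (a + b)) * cosC (n • (a - b)) - cosC ((n - 1) • (a + b)) * cosC ((n + 1) • (a - b))) +
      (cosC (n • (-a + b)) * cosC (n • (-a - b)) -
        cosC ((n - 1) • (-a + b)) * cosC ((n + 1) • (-a - b))) =
      cosC ((2 * n) • a) * (1 - cosC (b + b)) + cosC ((2 * n) • b) * (1 - cosC (a + a)) := by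
  have key : ∀ s t : Cir, cosC s * cosC t = (cosC (s + t) + cosC (s - t)) / 2 := by
    intro s t
    rw [cosC_add, cosC_sub]; ring
  obtain ⟨e1, e2, e3, e4, e5, e6, e7, e8⟩ := be2_smul n a b
  rw [key, key (_ • _) (_ • (a - b)), key (n • (-a + b)), key (_ • (-a + b)), e1, e2, e3, e4, e5, e6,
    e7, e8, cosC_neg, cosC_neg, cosC_sub, cosC_sub, cosC_add ((2 * n) • a), cosC_add ((2 * n) • b)]
  ring

lemma be2_exp (κ : ℝ) (a b : Cir) : κ * (cosC (a + b) + cosC (a - b)) = 2 * κ * cosC b * cosC a := by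
  rw [cosC_add, cosC_sub]; ring

lemma be2_fub (κ : ℝ) (n : ℤ) :
    0 ≤ ∫ p : Cir × Cir, (1 - cosC (p.2 + p.2)) *
      (cosC ((2 * n) • p.1) * Real.exp (2 * κ * cosC p.2 * cosC p.1)) ∂haarP (Cir × Cir) := by
  have hc : Continuous fun p : Cir × Cir => (1 - cosC (p.2 + p.2)) *
      (cosC ((2 * n) • p.1) * Real.exp (2 * κ * cosC p.2 * cosC p.1)) := by
    have c1 : Continuous fun p : Cir × Cir => cosC (p.2 + p.2) :=
      continuous_cosC.comp (continuous_snd.add continuous_snd)
    have c2 : Continuous fun p : Cir × Cir => cosC ((2 * n) • p.1) :=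
      continuous_cosC.comp ((continuous_zsmul _).comp continuous_fst)
    have c3 : Continuous fun p : Cir × Cir => cosC p.2 := continuous_cosC.comp continuous_snd
    have c4 : Continuous fun p : Cir × Cir => cosC p.1 := continuous_cosC.comp continuous_fst
    fun_prop
  have hi := integrable_cont _ hc
  rw [haarP_prod] at hi ⊢
  rw [integral_prod_symm _ hi]
  apply integral_nonneg
  intro b
  change 0 ≤ ∫ a, (1 - cosC (b + b)) * (cosC ((2 * n) • a) * Real.exp (2 * κ * cosC b * cosC a))
    ∂haarP Cir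
  rw [integral_const_mul]
  exact mul_nonneg (by linarith [cosC_le_one (b + b)]) (be2_even_nonneg _ _)

lemma be2_fub' (κ : ℝ) (n : ℤ) :
    0 ≤ ∫ p : Cir × Cir, (1 - cosC (p.1 + p.1)) *
      (cosC ((2 * n) • p.2) * Real.exp (2 * κ * cosC p.1 * cosC p.2)) ∂haarP (Cir × Cir) := by
  have hc : Continuous fun p : Cir × Cir => (1 - cosC (p.1 + p.1)) *
      (cosC ((2 * n) • p.2) * Real.exp (2 * κ * cosC p.1 * cosC p.2)) := by
    have c1 : Continuous fun p : Cir × Cir => cosC (p.1 + p.1) :=
      continuous_cosC.comp (continuous_fst.add continuous_fst)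
    have c2 : Continuous fun p : Cir × Cir => cosC ((2 * n) • p.2) :=
      continuous_cosC.comp ((continuous_zsmul _).comp continuous_snd)
    have c3 : Continuous fun p : Cir × Cir => cosC p.2 := continuous_cosC.comp continuous_snd
    have c4 : Continuous fun p : Cir × Cir => cosC p.1 := continuous_cosC.comp continuous_fst
    fun_prop
  have hi := integrable_cont _ hc
  rw [haarP_prod] at hi ⊢
  rw [integral_prod _ hi]
  apply integral_nonneg
  intro b
  change 0 ≤ ∫ a, (1 - cosC (b + b)) * (cosC ((2 * n) • a) * Real.exp (2 * κ * cosC b * cosC a))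
    ∂haarP Cir
  rw [integral_const_mul]
  exact mul_nonneg (by linarith [cosC_le_one (b + b)]) (be2_even_nonneg _ _)

theorem bI_lc (κ : ℝ) (hκ : 0 ≤ κ) (n : ℤ) : bI κ (n - 1) * bI κ (n + 1) ≤ bI κ n ^ 2 := by
  have _ := hκ
  set f : Cir × Cir → ℝ := fun p => (cosC (n • p.1) * cosC (n • p.2) -
    cosC ((n - 1) • p.1) * cosC ((n + 1) • p.2)) * Real.exp (κ * (cosC p.1 + cosC p.2)) with hf
  have cc : ∀ m : ℤ, Continuous fun p : Cir × Cir => cosC (m • p.1) := fun m =>
    continuous_cosC.comp ((continuous_zsmul _).comp continuous_fst)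
  have cd : ∀ m : ℤ, Continuous fun p : Cir × Cir => cosC (m • p.2) := fun m =>
    continuous_cosC.comp ((continuous_zsmul _).comp continuous_snd)
  have c3 : Continuous fun p : Cir × Cir => cosC p.2 := continuous_cosC.comp continuous_snd
  have c4 : Continuous fun p : Cir × Cir => cosC p.1 := continuous_cosC.comp continuous_fst
  have ce : Continuous fun p : Cir × Cir => Real.exp (κ * (cosC p.1 + cosC p.2)) := by fun_prop
  have hfc : Continuous f := by
    have a1 := cc n
    have a2 := cc (n - 1)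
    have a3 := cd n
    have a4 := cd (n + 1)
    exact ((a1.mul a3).sub (a2.mul a4)).mul ce
  have h1 : bI κ n ^ 2 - bI κ (n - 1) * bI κ (n + 1) = ∫ p, f p ∂haarP (Cir × Cir) := by
    rw [sq, be2_mul, be2_mul, ← integral_sub]
    · congr 1
      ext p
      simp only [hf]
      ring
    · exact integrable_cont _ (((cc n).mul (cd n)).mul ce)
    · exact integrable_cont _ (((cc (n - 1)).mul (cd (n + 1))).mul ce)
  have h2 : ∫ p, f p ∂haarP (Cir × Cir) = ∫ p, f (be2phi p) ∂haarP (Cir × Cir) :=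
    (integral_comp_surj be2phi be2phi_cont be2phi_surj f hfc).symm
  have h3 : ∫ p, f (be2phi p) ∂haarP (Cir × Cir) = ∫ p, f (be2phi (be2psi p)) ∂haarP (Cir × Cir) :=
    (integral_comp_surj be2psi be2psi_cont be2psi_surj (fun p => f (be2phi p))
      (hfc.comp be2phi_cont)).symm
  have i1 : Integrable (fun p => f (be2phi p)) (haarP (Cir × Cir)) :=
    integrable_cont _ (hfc.comp be2phi_cont)
  have i2 : Integrable (fun p => f (be2phi (be2psi p))) (haarP (Cir × Cir)) :=
    integrable_cont _ ((hfc.comp be2phi_cont).comp be2psi_cont)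
  have h4 : (∫ p, f (be2phi p) ∂haarP (Cir × Cir)) + ∫ p, f (be2phi (be2psi p)) ∂haarP (Cir × Cir) =
      (∫ p : Cir × Cir, (1 - cosC (p.2 + p.2)) *
        (cosC ((2 * n) • p.1) * Real.exp (2 * κ * cosC p.2 * cosC p.1)) ∂haarP (Cir × Cir)) +
      ∫ p : Cir × Cir, (1 - cosC (p.1 + p.1)) *
        (cosC ((2 * n) • p.2) * Real.exp (2 * κ * cosC p.1 * cosC p.2)) ∂haarP (Cir × Cir) := by
    have g1 : Continuous fun p : Cir × Cir => cosC (p.1 + p.1) :=
      continuous_cosC.comp (continuous_fst.add continuous_fst)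
    have g2 : Continuous fun p : Cir × Cir => cosC (p.2 + p.2) :=
      continuous_cosC.comp (continuous_snd.add continuous_snd)
    have g3 := cc (2 * n)
    have g4 := cd (2 * n)
    rw [← integral_add i1 i2, ← integral_add]
    · congr 1
      ext p
      obtain ⟨a, b⟩ := p
      have t := be2_trig n a b
      have x1 := be2_exp κ a b
      have x2 : κ * (cosC (-a + b) + cosC (-a - b)) = 2 * κ * cosC b * cosC a := by
        rw [be2_exp, cosC_neg]
      change (cosC (n • (a + b)) * cosC (n • (a - b)) -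
          cosC ((n - 1) • (a + b)) * cosC ((n + 1) • (a - b))) *
            Real.exp (κ * (cosC (a + b) + cosC (a - b))) +
        (cosC (n • (-a + b)) * cosC (n • (-a - b)) -
          cosC ((n - 1) • (-a + b)) * cosC ((n + 1) • (-a - b))) *
            Real.exp (κ * (cosC (-a + b) + cosC (-a - b))) =
        (1 - cosC (b + b)) * (cosC ((2 * n) • a) * Real.exp (2 * κ * cosC b * cosC a)) +
        (1 - cosC (a + a)) * (cosC ((2 * n) • b) * Real.exp (2 * κ * cosC a * cosC b))
      rw [x1, x2, ← add_mul, t, show 2 * κ * cosC a * cosC b = 2 * κ * cosC b * cosC a by ring]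
      ring
    · exact integrable_cont _ (by fun_prop)
    · exact integrable_cont _ (by fun_prop)
  have p1 := be2_fub κ n
  have p2 := be2_fub' κ n
  linarith

lemma bI_zero' (κ : ℝ) : bI κ 0 = I0 κ := by
  unfold bI I0
  simp

theorem bI_one_lt (κ : ℝ) (hκ : 0 ≤ κ) : bI κ 1 < bI κ 0 := by
  have _ := hκ
  have hc1 := be2_cont κ 1
  have hc0 := be2_cont κ 0
  have h : 0 < ∫ t : Cir, (1 - cosC t) * Real.exp (κ * cosC t) ∂haarP Cir := by
    have hc : Continuous fun t : Cir => (1 - cosC t) * Real.exp (κ * cosC t) := by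
      have := continuous_cosC
      fun_prop
    refine hc.integral_pos_of_hasCompactSupport_nonneg_nonzero
      (HasCompactSupport.of_compactSpace _) (fun t => ?_) (x := ((Real.pi : ℝ) : Cir)) ?_
    · exact mul_nonneg (by linarith [cosC_le_one t]) (Real.exp_pos _).le
    · simp only [cosC_coe, Real.cos_pi]
      have := Real.exp_pos (κ * -1)
      positivity
  have e : bI κ 0 - bI κ 1 = ∫ t : Cir, (1 - cosC t) * Real.exp (κ * cosC t) ∂haarP Cir := by
    unfold bI
    rw [← integral_sub (integrable_cont _ hc0) (integrable_cont _ hc1)]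
    congr 1
    ext t
    simp
    ring
  linarith

theorem bI_ratio : ∃ κ : ℝ, 0 < κ ∧ 1 / 2 ≤ (bI κ 1 / bI κ 0) ^ 6 := by
  obtain ⟨p, hp, hb⟩ := i0b (39 / 40) (by norm_num)
  set κ : ℝ := 1600 / p with hκd
  have hκ : 0 < κ := by positivity
  refine ⟨κ, hκ, ?_⟩
  have hI := hb κ hκ.le
  have hI0 : 0 < bI κ 0 := by
    rw [bI_zero']
    have := Real.exp_pos (κ * (39 / 40))
    nlinarith
  have hc1 := be2_cont κ 1
  have hc0 := be2_cont κ 0
  -- pointwise bound
  have hpt : ∀ t : Cir, (1 - cosC t) * Real.exp (κ * cosC t) ≤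
      (1 / 20) * Real.exp (κ * cosC t) + 2 * Real.exp (κ * (19 / 20)) := by
    intro t
    have l1 := cosC_le_one t
    have l2 := neg_one_le_cosC t
    have e1 := Real.exp_pos (κ * cosC t)
    have e2 := Real.exp_pos (κ * (19 / 20))
    by_cases h : 1 - cosC t ≤ 1 / 20
    · nlinarith
    · push Not at h
      have : Real.exp (κ * cosC t) ≤ Real.exp (κ * (19 / 20)) :=
        Real.exp_le_exp.2 (by nlinarith)
      nlinarith
  have e : bI κ 0 - bI κ 1 = ∫ t : Cir, (1 - cosC t) * Real.exp (κ * cosC t) ∂haarP Cir := by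
    unfold bI
    rw [← integral_sub (integrable_cont _ hc0) (integrable_cont _ hc1)]
    congr 1
    ext t
    simp
    ring
  have hle : bI κ 0 - bI κ 1 ≤ (1 / 20) * bI κ 0 + 2 * Real.exp (κ * (19 / 20)) := by
    rw [e, bI_zero']
    have hcc : Continuous fun t : Cir => Real.exp (κ * cosC t) := by
      have := continuous_cosC
      fun_prop
    have hca : Continuous fun t : Cir => (1 - cosC t) * Real.exp (κ * cosC t) := by
      have := continuous_cosC
      fun_prop
    calc ∫ t : Cir, (1 - cosC t) * Real.exp (κ * cosC t) ∂haarP Cir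
        ≤ ∫ t : Cir, ((1 / 20) * Real.exp (κ * cosC t) + 2 * Real.exp (κ * (19 / 20))) ∂haarP Cir := by
          apply integral_mono (integrable_cont _ hca) (integrable_cont _ (by fun_prop))
          intro t
          exact hpt t
      _ = (1 / 20) * I0 κ + 2 * Real.exp (κ * (19 / 20)) := by
          rw [integral_add (integrable_cont _ (by fun_prop)) (integrable_const _),
            integral_const_mul]
          simp [I0]
  have hexp : 2 * Real.exp (κ * (19 / 20)) ≤ (1 / 20) * bI κ 0 := by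
    rw [bI_zero']
    have h1 : Real.exp (κ * (39 / 40)) = Real.exp (κ * (19 / 20)) * Real.exp (κ / 40) := by
      rw [← Real.exp_add]; congr 1; ring
    have h2 : κ / 40 + 1 ≤ Real.exp (κ / 40) := Real.add_one_le_exp _
    have h3 : p * (κ / 40) = 40 := by
      rw [hκd]; field_simp; norm_num
    have h4 : 40 ≤ p * Real.exp (κ / 40) := by nlinarith
    have h5 := Real.exp_pos (κ * (19 / 20))
    have h6 : 40 * Real.exp (κ * (19 / 20)) ≤ I0 κ := by
      calc 40 * Real.exp (κ * (19 / 20)) ≤ (p * Real.exp (κ / 40)) * Real.exp (κ * (19 / 20)) := by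
            exact mul_le_mul_of_nonneg_right h4 h5.le
        _ = p * Real.exp (κ * (39 / 40)) := by rw [h1]; ring
        _ ≤ I0 κ := hI
    linarith
  have hr : 9 / 10 ≤ bI κ 1 / bI κ 0 := by
    rw [le_div_iff₀ hI0]
    linarith
  calc (1 / 2 : ℝ) ≤ (9 / 10) ^ 6 := by norm_num
    _ ≤ (bI κ 1 / bI κ 0) ^ 6 := pow_le_pow_left₀ (by norm_num) hr 6

lemma bI_le_zero (κ : ℝ) (n : ℤ) : bI κ n ≤ bI κ 0 := by
  unfold bI
  apply integral_mono (integrable_cont _ (be2_cont κ n)) (integrable_cont _ (be2_cont κ 0))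
  intro t
  have e1 := Real.exp_pos (κ * cosC t)
  have l1 := cosC_le_one (n • t)
  have : cosC ((0 : ℤ) • t) = 1 := by simp
  simp only [this]
  exact mul_le_mul_of_nonneg_right l1 e1.le

theorem wk_ok (κ : ℝ) (hκ : 0 < κ) : WOk (wk κ) where
  pos n := pow_pos (bI_pos κ hκ n) 6
  symm n := by unfold wk; rw [bI_neg]
  lc n := by
    unfold wk
    rw [← mul_pow, ← pow_mul, mul_comm 6 2, pow_mul]
    exact pow_le_pow_left₀ (mul_nonneg (bI_nonneg κ hκ.le _) (bI_nonneg κ hκ.le _))
      (bI_lc κ hκ.le n) 6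
  summ k := by
    have h := (bI_summ κ hκ.le k).mul_left (bI κ 0 ^ 5)
    refine Summable.of_nonneg_of_le (fun n => ?_) (fun n => ?_) h
    · exact mul_nonneg (by positivity) (pow_nonneg (bI_nonneg κ hκ.le n) 6)
    · unfold wk
      have h0 := bI_nonneg κ hκ.le n
      have h1 := bI_le_zero κ n
      have h2 : bI κ n ^ 5 ≤ bI κ 0 ^ 5 := pow_le_pow_left₀ h0 h1 5
      have h3 : (0 : ℝ) ≤ |(n : ℝ)| ^ k := by positivity
      calc |(n : ℝ)| ^ k * bI κ n ^ 6 = (|(n : ℝ)| ^ k * bI κ n) * bI κ n ^ 5 := by ring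
        _ ≤ (|(n : ℝ)| ^ k * bI κ n) * bI κ 0 ^ 5 :=
            mul_le_mul_of_nonneg_left h2 (mul_nonneg h3 h0)
        _ = bI κ 0 ^ 5 * (|(n : ℝ)| ^ k * bI κ n) := by ring

end H82.BX
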