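import Pool.Agent.H82.BX.Defs
import Pool.Agent.H2.XY.GA

/-!
# BES: Fourier coefficients of `exp (κ cos x)`

`bI κ n = ∫ cos(n t) e^{κ cos t}` is the `n`-th Fourier coefficient (the function is real and even).  Series: expanding
`e^{κ cos t} = e^{κ e^{it}/2} e^{κ e^{-it}/2} = ∑_{j,k} (κ/2)^{j+k}/(j! k!) e^{i(j-k)t}` (absolutely convergent double series) gives
`bI κ n = ∑_{k} (κ/2)^{2k+|n|}/(k! (k+|n|)!)`, positive for `κ > 0`, and `bI 0 n = 1[n = 0]`.
Bound: `bI κ n ≤ (κ/2)^{|n|}/|n|! · e^{κ²/4}`, so all moments are summable.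
`bes_fourier`: the double series grouped by `n = j - k`.
-/

set_option autoImplicit false

open Finset MeasureTheory

namespace H82.BX

open H82.IC XYB

lemma bes_fou_cos (n : ℤ) (t : Cir) :
    (fourier n t : ℂ) = (cosC (n • t) : ℂ) + (sinC (n • t) : ℂ) * Complex.I := by
  induction t using cir_ind with
  | h x =>
    rw [fourier_coe_apply, ← AddCircle.coe_zsmul, cosC_coe, sinC_coe]
    rw [show (2 * (Real.pi : ℂ) * Complex.I * n * x / ((2 * Real.pi : ℝ) : ℂ)) =
      ((n • x : ℝ) : ℂ) * Complex.I by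
        have : (Real.pi : ℂ) ≠ 0 := by exact_mod_cast Real.pi_ne_zero
        rw [zsmul_eq_mul]
        push_cast
        field_simp]
    rw [Complex.exp_mul_I]
    simp

lemma bes_fou_one_add (t : Cir) : (fourier 1 t : ℂ) + fourier (-1) t = 2 * (cosC t : ℂ) := by
  rw [bes_fou_cos, bes_fou_cos]
  simp
  ring

lemma bes_fou_pow (m : ℤ) (j : ℕ) (t : Cir) : (fourier m t : ℂ) ^ j = fourier (m * j) t := by
  induction j with
  | zero => simp
  | succ j ih =>
    rw [pow_succ, ih, ← fourier_add, show m * (j : ℤ) + m = m * ((j + 1 : ℕ) : ℤ) by push_cast; ring]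

noncomputable def bes_cf (κ : ℝ) (p : ℕ × ℕ) : ℝ :=
  (κ / 2) ^ p.1 / p.1.factorial * ((κ / 2) ^ p.2 / p.2.factorial)

lemma bes_summ_cf (κ : ℝ) : Summable (fun p : ℕ × ℕ => |bes_cf κ p|) := by
  have h : Summable (fun j : ℕ => ‖(κ / 2) ^ j / (j.factorial : ℝ)‖) :=
    (Real.summable_pow_div_factorial (κ / 2)).norm
  have := h.mul_norm h
  refine this.congr fun p => ?_
  rw [bes_cf, Real.norm_eq_abs]

lemma bes_cexp_hs (z : ℂ) : HasSum (fun n : ℕ => z ^ n / n.factorial) (Complex.exp z) := by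
  rw [Complex.exp_eq_exp_ℂ]
  exact NormedSpace.expSeries_div_hasSum_exp z

lemma bes_cexp_hs2 (z w : ℂ) :
    HasSum (fun p : ℕ × ℕ => z ^ p.1 / p.1.factorial * (w ^ p.2 / p.2.factorial))
      (Complex.exp z * Complex.exp w) := by
  have hs : Summable (fun p : ℕ × ℕ => (fun n : ℕ => z ^ n / (n.factorial : ℂ)) p.1 *
      (fun n : ℕ => w ^ n / (n.factorial : ℂ)) p.2) :=
    summable_mul_of_summable_norm (f := fun n : ℕ => z ^ n / (n.factorial : ℂ))
      (g := fun n : ℕ => w ^ n / (n.factorial : ℂ)) (NormedSpace.norm_expSeries_div_summable z)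
      (NormedSpace.norm_expSeries_div_summable w)
  exact HasSum.mul (f := fun n : ℕ => z ^ n / (n.factorial : ℂ))
    (g := fun n : ℕ => w ^ n / (n.factorial : ℂ)) (bes_cexp_hs z) (bes_cexp_hs w) hs

lemma bes_dbl (κ : ℝ) (t : Cir) :
    HasSum (fun p : ℕ × ℕ => (bes_cf κ p : ℂ) * fourier ((p.1 : ℤ) - p.2) t)
      (Real.exp (κ * cosC t) : ℂ) := by
  have h := bes_cexp_hs2 ((κ / 2 : ℂ) * fourier 1 t) ((κ / 2 : ℂ) * fourier (-1) t)
  have e : Complex.exp ((κ / 2 : ℂ) * fourier 1 t) * Complex.exp ((κ / 2 : ℂ) * fourier (-1) t)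
      = (Real.exp (κ * cosC t) : ℂ) := by
    rw [← Complex.exp_add, ← mul_add, bes_fou_one_add, Complex.ofReal_exp]
    congr 1
    push_cast
    ring
  rw [e] at h
  have e2 : (fun p : ℕ × ℕ => (bes_cf κ p : ℂ) * (fourier ((p.1 : ℤ) - p.2) t : ℂ)) =
      fun p : ℕ × ℕ => ((κ / 2 : ℂ) * fourier 1 t) ^ p.1 / p.1.factorial *
        (((κ / 2 : ℂ) * fourier (-1) t) ^ p.2 / p.2.factorial) := by
    funext p
    rw [mul_pow, mul_pow, bes_fou_pow, bes_fou_pow, bes_cf]
    rw [show ((p.1 : ℤ) - p.2) = 1 * p.1 + (-1) * p.2 by ring, fourier_add]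
    push_cast
    ring
  rw [e2]
  exact h

/-- integral of a character -/
lemma bes_int_fou (n : ℤ) : ∫ t : Cir, (fourier n t : ℂ) ∂haarP Cir = if n = 0 then 1 else 0 := by
  have h := congrFun (fourierCoeff_fourier (T := 2 * Real.pi) n) 0
  rw [fourierCoeff] at h
  simp only [neg_zero, fourier_zero, one_smul] at h
  rw [haarP_cir, h, Pi.single_apply]
  simp only [eq_comm]

lemma bes_cont_E (κ : ℝ) : Continuous (fun t : Cir => Real.exp (κ * cosC t)) :=
  Real.continuous_exp.comp (continuous_const.mul continuous_cosC)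

lemma bes_integrable_C (f : Cir → ℂ) (hf : Continuous f) : Integrable f (haarP Cir) :=
  hf.integrable_of_hasCompactSupport (HasCompactSupport.of_compactSpace f)

lemma bes_coef (κ : ℝ) (n : ℤ) :
    HasSum (fun p : ℕ × ℕ => (((bes_cf κ p) * (if (p.1 : ℤ) - p.2 = n then 1 else 0) : ℝ) : ℂ))
      (∫ t : Cir, (fourier (-n) t : ℂ) * (Real.exp (κ * cosC t) : ℂ) ∂haarP Cir) := by
  have h := hasSum_integral_of_summable_integral_norm (μ := haarP Cir)
    (F := fun (p : ℕ × ℕ) (t : Cir) => (bes_cf κ p : ℂ) * (fourier ((p.1 : ℤ) - p.2 - n) t : ℂ))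
    (fun p => bes_integrable_C _ (continuous_const.mul (map_continuous _))) (by
      refine (bes_summ_cf κ).congr fun p => ?_
      simp [Circle.norm_coe])
  have e1 : ∀ p : ℕ × ℕ, ∫ t : Cir, (bes_cf κ p : ℂ) * (fourier ((p.1 : ℤ) - p.2 - n) t : ℂ) ∂haarP Cir
      = (((bes_cf κ p) * (if (p.1 : ℤ) - p.2 = n then 1 else 0) : ℝ) : ℂ) := by
    intro p
    rw [integral_const_mul, bes_int_fou]
    by_cases hp : (p.1 : ℤ) - p.2 = n
    · simp [hp]
    · rw [if_neg (sub_ne_zero.2 hp), if_neg hp]; simp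
  have e2 : ∀ t : Cir, ∑' p : ℕ × ℕ, (bes_cf κ p : ℂ) * (fourier ((p.1 : ℤ) - p.2 - n) t : ℂ) =
      (fourier (-n) t : ℂ) * (Real.exp (κ * cosC t) : ℂ) := by
    intro t
    rw [← ((bes_dbl κ t).mul_left (fourier (-n) t : ℂ)).tsum_eq]
    refine tsum_congr fun p => ?_
    rw [sub_eq_add_neg _ n, fourier_add]
    ring
  simp_rw [e1, e2] at h
  exact h

lemma bes_bI_re (κ : ℝ) (n : ℤ) :
    bI κ n = (∫ t : Cir, (fourier (-n) t : ℂ) * (Real.exp (κ * cosC t) : ℂ) ∂haarP Cir).re := by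
  have hi : Integrable (fun t : Cir => (fourier (-n) t : ℂ) * (Real.exp (κ * cosC t) : ℂ))
      (haarP Cir) :=
    bes_integrable_C _ ((map_continuous _).mul (Complex.continuous_ofReal.comp (bes_cont_E κ)))
  have h := integral_re hi
  rw [bI]
  simp only [RCLike.re_to_complex] at h
  rw [← h]
  refine integral_congr_ae (ae_of_all _ fun t => ?_)
  simp only
  rw [Complex.re_mul_ofReal, bes_fou_cos]
  simp

lemma bes_coefR (κ : ℝ) (n : ℤ) :
    HasSum (fun p : ℕ × ℕ => (bes_cf κ p) * (if (p.1 : ℤ) - p.2 = n then 1 else 0)) (bI κ n) := by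
  rw [bes_bI_re]
  have h := Complex.hasSum_re (bes_coef κ n)
  simpa using h

lemma bes_coefC (κ : ℝ) (n : ℤ) :
    (∫ t : Cir, (fourier (-n) t : ℂ) * (Real.exp (κ * cosC t) : ℂ) ∂haarP Cir) = (bI κ n : ℂ) :=
  (bes_coef κ n).unique (Complex.hasSum_ofReal.2 (bes_coefR κ n))

theorem bI_series (κ : ℝ) (n : ℕ) :
    HasSum (fun k : ℕ => (κ / 2) ^ (2 * k + n) / (k.factorial * (k + n).factorial)) (bI κ n) := by
  have h := bes_coefR κ n
  have hinj : Function.Injective (fun k : ℕ => ((k + n, k) : ℕ × ℕ)) := by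
    intro a b hab
    exact (Prod.ext_iff.1 hab).2
  rw [← hinj.hasSum_iff] at h
  · have e : (fun k : ℕ => (κ / 2) ^ (2 * k + n) / (k.factorial * (k + n).factorial : ℝ)) =
        (fun p : ℕ × ℕ => (bes_cf κ p) * (if (p.1 : ℤ) - p.2 = n then 1 else 0)) ∘
          (fun k : ℕ => ((k + n, k) : ℕ × ℕ)) := by
      funext k
      simp only [Function.comp, bes_cf]
      rw [if_pos (by push_cast; ring), show 2 * k + n = (k + n) + k by ring, pow_add (κ / 2) (k + n) k]
      field_simp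
    rw [e]
    exact h
  · intro p hp
    rw [if_neg, mul_zero]
    intro hpn
    apply hp
    exact ⟨p.2, Prod.ext (by simp only; omega) rfl⟩

theorem bI_neg (κ : ℝ) (n : ℤ) : bI κ (-n) = bI κ n := by
  unfold bI
  simp only [neg_zsmul, cosC_neg]

theorem bI_pos (κ : ℝ) (hκ : 0 < κ) (n : ℤ) : 0 < bI κ n := by
  have key : ∀ m : ℕ, 0 < bI κ m := by
    intro m
    have h := bI_series κ m
    rw [← h.tsum_eq]
    refine h.summable.tsum_pos (fun k => ?_) 0 ?_
    · positivity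
    · positivity
  obtain ⟨m, rfl | rfl⟩ := n.eq_nat_or_neg
  · exact key m
  · rw [bI_neg]; exact key m

theorem bI_zero (n : ℤ) : bI 0 n = if n = 0 then 1 else 0 := by
  rw [bes_bI_re]
  simp only [zero_mul, Real.exp_zero, Complex.ofReal_one, mul_one]
  rw [bes_int_fou]
  by_cases h : n = 0
  · simp [h]
  · simp [h]

theorem bI_nonneg (κ : ℝ) (hκ : 0 ≤ κ) (n : ℤ) : 0 ≤ bI κ n := by
  rcases hκ.eq_or_lt with rfl | h
  · rw [bI_zero]; split_ifs <;> norm_num
  · exact (bI_pos κ h n).le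

lemma bes_bI_le (κ : ℝ) (hκ : 0 ≤ κ) (n : ℕ) :
    bI κ n ≤ (κ / 2) ^ n / n.factorial * Real.exp ((κ / 2) ^ 2) := by
  have h := bI_series κ n
  have h2 : HasSum (fun k : ℕ => (κ / 2) ^ n / n.factorial * (((κ / 2) ^ 2) ^ k / k.factorial))
      ((κ / 2) ^ n / n.factorial * Real.exp ((κ / 2) ^ 2)) := by
    refine HasSum.mul_left _ ?_
    rw [Real.exp_eq_exp_ℝ]
    exact NormedSpace.expSeries_div_hasSum_exp _
  refine hasSum_le (fun k => ?_) h h2
  rw [div_mul_div_comm, ← pow_mul, ← pow_add, show n + 2 * k = 2 * k + n by ring]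
  refine div_le_div_of_nonneg_left (by positivity) (by positivity) ?_
  rw [mul_comm (n.factorial : ℝ)]
  refine mul_le_mul_of_nonneg_left ?_ (by positivity)
  exact_mod_cast Nat.factorial_le (Nat.le_add_left n k)

lemma bes_summ_nat (κ : ℝ) (hκ : 0 ≤ κ) (k : ℕ) : Summable (fun n : ℕ => (n : ℝ) ^ k * bI κ n) := by
  have h1 : Summable (fun n : ℕ => ((k.factorial : ℝ) * Real.exp ((κ / 2) ^ 2)) *
      ((Real.exp 1 * (κ / 2)) ^ n / n.factorial)) :=
    (Real.summable_pow_div_factorial _).mul_left _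
  refine Summable.of_nonneg_of_le (fun n => mul_nonneg (by positivity) (bI_nonneg κ hκ n))
    (fun n => ?_) h1
  have h2 := bes_bI_le κ hκ n
  have h3 : (n : ℝ) ^ k ≤ k.factorial * Real.exp 1 ^ n := by
    have := Real.pow_div_factorial_le_exp (x := (n : ℝ)) (Nat.cast_nonneg n) k
    rw [div_le_iff₀ (by positivity)] at this
    rw [Real.exp_one_pow]
    linarith [this]
  calc (n : ℝ) ^ k * bI κ n ≤ (k.factorial * Real.exp 1 ^ n) *
        ((κ / 2) ^ n / n.factorial * Real.exp ((κ / 2) ^ 2)) :=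
        mul_le_mul h3 h2 (bI_nonneg κ hκ n) (by positivity)
    _ = _ := by rw [mul_pow]; ring

theorem bI_summ (κ : ℝ) (hκ : 0 ≤ κ) (k : ℕ) : Summable (fun n : ℤ => |(n : ℝ)| ^ k * bI κ n) := by
  refine Summable.of_nat_of_neg ?_ ?_
  · refine (bes_summ_nat κ hκ k).congr fun n => ?_
    simp
  · refine (bes_summ_nat κ hκ k).congr fun n => ?_
    rw [bI_neg]
    simp

lemma bes_fcoef (κ : ℝ) (n : ℤ) :
    fourierCoeff (T := 2 * Real.pi) (fun t : Cir => (Real.exp (κ * cosC t) : ℂ)) n = (bI κ n : ℂ) := by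
  rw [← bes_coefC, fourierCoeff, haarP_cir]
  simp only [smul_eq_mul]

theorem bes_fourier (κ : ℝ) (hκ : 0 ≤ κ) (x : Cir) :
    HasSum (fun n : ℤ => (bI κ n : ℂ) * fourier n x) (Real.exp (κ * cosC x) : ℂ) := by
  let f : C(Cir, ℂ) := ⟨fun t : Cir => (Real.exp (κ * cosC t) : ℂ),
    Complex.continuous_ofReal.comp (bes_cont_E κ)⟩
  have hf : ∀ n, fourierCoeff (T := 2 * Real.pi) f n = (bI κ n : ℂ) := fun n => bes_fcoef κ n
  have hs : Summable (fourierCoeff (T := 2 * Real.pi) f) := by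
    have h0 := bI_summ κ hκ 0
    simp only [pow_zero, one_mul] at h0
    refine (Complex.summable_ofReal.2 h0).congr fun n => ?_
    rw [hf]
  have h := has_pointwise_sum_fourier_series_of_summable (T := 2 * Real.pi) hs x
  simp only [hf, smul_eq_mul] at h
  exact h


lemma bes_rec_nat (κ : ℝ) (n : ℕ) :
    κ / 2 * bI κ n - κ / 2 * bI κ ((n + 2 : ℕ) : ℤ) = ((n : ℝ) + 1) * bI κ ((n + 1 : ℕ) : ℤ) := by
  have h0 := (bI_series κ n).mul_left (κ / 2)
  have h2 := (bI_series κ (n + 2)).mul_left (κ / 2)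
  have h1 := (bI_series κ (n + 1)).mul_left ((n : ℝ) + 1)
  have h3 : HasSum (fun k : ℕ => (k : ℝ) * ((κ / 2) ^ (2 * k + (n + 1)) /
      (k.factorial * (k + (n + 1)).factorial))) (κ / 2 * bI κ ((n + 2 : ℕ) : ℤ)) := by
    have := (hasSum_nat_add_iff (f := fun k : ℕ => (k : ℝ) * ((κ / 2) ^ (2 * k + (n + 1)) /
      (k.factorial * (k + (n + 1)).factorial))) 1 (g := κ / 2 * bI κ ((n + 2 : ℕ) : ℤ))).1
    simp only [Finset.sum_range_one, Nat.cast_zero, zero_mul, add_zero] at this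
    apply this
    have e : (fun k : ℕ => ((k + 1 : ℕ) : ℝ) * ((κ / 2) ^ (2 * (k + 1) + (n + 1)) /
        ((k + 1).factorial * (k + 1 + (n + 1)).factorial))) =
        fun k : ℕ => κ / 2 * ((κ / 2) ^ (2 * k + (n + 2)) / (k.factorial * (k + (n + 2)).factorial)) := by
      funext k
      rw [show k + 1 + (n + 1) = k + (n + 2) by ring, Nat.factorial_succ k,
        show 2 * (k + 1) + (n + 1) = (2 * k + (n + 2)) + 1 by ring, pow_succ]
      have h1 : ((k + 1 : ℕ) : ℝ) ≠ 0 := by positivity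
      have h2 : (k.factorial : ℝ) ≠ 0 := by positivity
      have h3 : ((k + (n + 2)).factorial : ℝ) ≠ 0 := by positivity
      push_cast at h1 ⊢
      field_simp
    rw [e]
    exact h2
  have h4 : HasSum (fun k : ℕ => ((k : ℝ) + (n + 1)) * ((κ / 2) ^ (2 * k + (n + 1)) /
      (k.factorial * (k + (n + 1)).factorial))) (κ / 2 * bI κ n) := by
    have e : (fun k : ℕ => ((k : ℝ) + (n + 1)) * ((κ / 2) ^ (2 * k + (n + 1)) /
      (k.factorial * (k + (n + 1)).factorial))) =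
        fun k : ℕ => κ / 2 * ((κ / 2) ^ (2 * k + n) / (k.factorial * (k + n).factorial)) := by
      funext k
      rw [← add_assoc k n 1, Nat.factorial_succ (k + n), ← add_assoc (2 * k) n 1, pow_succ]
      have h1 : ((k : ℝ) + n + 1) ≠ 0 := by positivity
      have h2 : (k.factorial : ℝ) ≠ 0 := by positivity
      have h3 : ((k + n).factorial : ℝ) ≠ 0 := by positivity
      push_cast
      field_simp
      ring
    rw [e]
    exact h0
  have h5 := h4.sub h3
  refine h5.unique ?_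
  have e : (fun k : ℕ => ((k : ℝ) + (n + 1)) * ((κ / 2) ^ (2 * k + (n + 1)) /
      (k.factorial * (k + (n + 1)).factorial)) - (k : ℝ) * ((κ / 2) ^ (2 * k + (n + 1)) /
      (k.factorial * (k + (n + 1)).factorial))) = fun k : ℕ => ((n : ℝ) + 1) *
      ((κ / 2) ^ (2 * k + (n + 1)) / (k.factorial * (k + (n + 1)).factorial)) := by
    funext k
    ring
  rw [e]
  exact h1

lemma bes_rec (κ : ℝ) (n : ℤ) :
    κ / 2 * bI κ (n - 1) - κ / 2 * bI κ (n + 1) = (n : ℝ) * bI κ n := by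
  have key : ∀ m : ℕ, κ / 2 * bI κ (m - 1) - κ / 2 * bI κ (m + 1) = (m : ℝ) * bI κ m := by
    intro m
    cases m with
    | zero =>
      have := bI_neg κ 1
      simp only [Nat.cast_zero, zero_sub, zero_add, zero_mul]
      rw [this, sub_self]
    | succ m =>
      have h := bes_rec_nat κ m
      push_cast at h ⊢
      rw [add_sub_cancel_right, show (m : ℤ) + 1 + 1 = m + 2 by ring]
      exact h
  obtain ⟨m, rfl | rfl⟩ := n.eq_nat_or_neg
  · exact_mod_cast key m
  · have h := key m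
    rw [bI_neg, show -(m : ℤ) - 1 = -(m + 1) by ring, bI_neg, show -(m : ℤ) + 1 = -(m - 1) by ring,
      bI_neg]
    push_cast
    linarith

/-- derivative of the series: `∑ n I_n e^{inx} = -i (d/dx) e^{κ cos x} = i κ sin x e^{κ cos x}`. -/
theorem bes_fourier' (κ : ℝ) (hκ : 0 ≤ κ) (x : Cir) :
    HasSum (fun n : ℤ => ((n : ℂ) * bI κ n) * fourier n x)
      (Complex.I * (κ * sinC x * Real.exp (κ * cosC x) : ℝ)) := by
  have h := bes_fourier κ hκ x
  have hp : HasSum (fun n : ℤ => (bI κ (n - 1) : ℂ) * (fourier n x : ℂ))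
      ((fourier 1 x : ℂ) * (Real.exp (κ * cosC x) : ℂ)) := by
    have h1 := h.mul_left (fourier 1 x : ℂ)
    rw [← (Equiv.addRight (-1 : ℤ)).hasSum_iff] at h1
    have e : (fun n : ℤ => (bI κ (n - 1) : ℂ) * (fourier n x : ℂ)) =
        (fun n : ℤ => (fourier 1 x : ℂ) * ((bI κ n : ℂ) * (fourier n x : ℂ))) ∘
          (Equiv.addRight (-1 : ℤ)) := by
      funext n
      simp only [Function.comp, Equiv.coe_addRight]
      rw [← sub_eq_add_neg]
      conv_lhs => rw [show n = 1 + (n - 1) by ring, fourier_add]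
      rw [show 1 + (n - 1) - 1 = n - 1 by ring]
      ring
    rw [e]
    exact h1
  have hm : HasSum (fun n : ℤ => (bI κ (n + 1) : ℂ) * (fourier n x : ℂ))
      ((fourier (-1) x : ℂ) * (Real.exp (κ * cosC x) : ℂ)) := by
    have h1 := h.mul_left (fourier (-1) x : ℂ)
    rw [← (Equiv.addRight (1 : ℤ)).hasSum_iff] at h1
    have e : (fun n : ℤ => (bI κ (n + 1) : ℂ) * (fourier n x : ℂ)) =
        (fun n : ℤ => (fourier (-1) x : ℂ) * ((bI κ n : ℂ) * (fourier n x : ℂ))) ∘
          (Equiv.addRight (1 : ℤ)) := by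
      funext n
      simp only [Function.comp, Equiv.coe_addRight]
      conv_lhs => rw [show n = -1 + (n + 1) by ring, fourier_add]
      rw [show -1 + (n + 1) + 1 = n + 1 by ring]
      ring
    rw [e]
    exact h1
  have h2 := (hp.sub hm).mul_left (κ / 2 : ℂ)
  have e1 : (fun n : ℤ => ((n : ℂ) * bI κ n) * (fourier n x : ℂ)) =
      fun n : ℤ => (κ / 2 : ℂ) * ((bI κ (n - 1) : ℂ) * (fourier n x : ℂ) -
        (bI κ (n + 1) : ℂ) * (fourier n x : ℂ)) := by
    funext n
    have hr : ((κ / 2 : ℂ) * (bI κ (n - 1) : ℂ) - (κ / 2 : ℂ) * (bI κ (n + 1) : ℂ)) =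
        (n : ℂ) * bI κ n := by
      exact_mod_cast congrArg (fun r : ℝ => (r : ℂ)) (bes_rec κ n)
    rw [← hr]
    ring
  have e2 : (Complex.I * (κ * sinC x * Real.exp (κ * cosC x) : ℝ)) =
      (κ / 2 : ℂ) * ((fourier 1 x : ℂ) * (Real.exp (κ * cosC x) : ℂ) -
        (fourier (-1) x : ℂ) * (Real.exp (κ * cosC x) : ℂ)) := by
    rw [bes_fou_cos, bes_fou_cos]
    simp
    ring
  rw [e1, e2]
  exact h2

end H82.BX
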