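import Pool.Agent.H82.BX.Defs

/-!
# BL1: abstract vertex estimate, abstract block estimates (elementary real inequalities)

`vertex_est`: let `a` be a threshold: `F c ≤ a` if `φ c < 1/2`, `F c ≥ a` if `φ c ≥ 1/2` (monotone functions on a linear order; both
classes are nonempty).  `2 Cov = ∑∑ p p' (F - F')(φ - φ')`, all terms are `≥ 0`; the pairs (`φ c ≥ 1/2`, `c' ∈ lo`) give
`Cov ≥ (7/50) p0 ∑_{φ ≥ 1/2} p (F - a)`, the pairs (`φ c < 1/2`, `c' ∈ hi`) give `Cov ≥ (7/50) p0 ∑_{φ < 1/2} p (a - F)`; so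
`Cov ≥ (7/100) p0 ∑ p |F - a|`, and `∑∑ p p' |F - F'| ≤ 2 ∑ p |F - a|`.
`blk_up`: `|Ph o t - Ph false 0| ≤ 1[o] (Ph true t - Ph false t) + (Ph false 0 - Ph false t)`,
`Ph true t - Ph false t ≤ Ph true 0 - Ph false t ≤ X + Y`, `Ph false 0 - Ph false t ≤ Y`, with `X = Ph true 0 - Ph false 0`,
`Y = Ph false 0 - Ph false tm`; the conditional probability of `o = true` given `y` is `r ρ/((1-r) + r ρ) ≤ 2 r ≤ 2 rm`,
`ρ = D true t/D false t ∈ [1,2]`.  So `E|Φ - Ph false 0| ≤ 2 rm (X+Y) + Y ≤ 3 (rm X + Y)` (`rm ≤ 1`), and `E|Φ - EΦ| ≤ 2 E|Φ - a|`.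
`blk_low`: `G ζ = ∑_μ a ζ μ psi ζ μ/∑_μ a ζ μ` is monotone (`hst` with `g = psi ζ ·`), and for `ζ ∈ hi`, `ζ' ∈ lo` (so `ζ' < ζ`)
`G ζ - G ζ' ≥ ∑_μ P(μ|ζ')(psi ζ μ - psi ζ' μ) ≥ p0 Δ`.  `Cov(psi, φ) = Cov(G, φ) ≥ p(hi) p(lo) (7/25) p0 Δ`.
-/

set_option autoImplicit false

open Finset MeasureTheory

namespace H82.BX

open H82.IC

section one
variable {Y : Type} [Fintype Y] [LinearOrder Y]

theorem cov_id (p F φ : Y → ℝ) (h1 : ∑ c, p c = 1) :
    ∑ c, ∑ c', p c * p c' * ((F c - F c') * (φ c - φ c')) =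
      2 * ((∑ c, p c * (F c * φ c)) - (∑ c, p c * F c) * ∑ c, p c * φ c) := by
  have e1 : ∀ c, ∑ c', p c * p c' * ((F c - F c') * (φ c - φ c')) =
      p c * (F c * φ c) - (p c * F c) * (∑ c', p c' * φ c') - (p c * φ c) * (∑ c', p c' * F c')
        + p c * ∑ c', p c' * (F c' * φ c') := by
    intro c
    have : ∀ c', p c * p c' * ((F c - F c') * (φ c - φ c')) =
        (p c * (F c * φ c)) * p c' - (p c * F c) * (p c' * φ c') - (p c * φ c) * (p c' * F c')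
          + p c * (p c' * (F c' * φ c')) := by intro c'; ring
    simp only [this, sum_add_distrib, sum_sub_distrib, ← mul_sum, h1, mul_one]
  simp only [e1, sum_add_distrib, sum_sub_distrib, ← sum_mul, h1]
  ring

theorem cov_ge (p F φ : Y → ℝ) (hp : ∀ c, 0 ≤ p c) (h1 : ∑ c, p c = 1) (K : Y → Y → ℝ)
    (hK : ∀ c c', K c c' ≤ (F c - F c') * (φ c - φ c')) :
    ∑ c, ∑ c', p c * p c' * K c c' ≤
      2 * ((∑ c, p c * (F c * φ c)) - (∑ c, p c * F c) * ∑ c, p c * φ c) := by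
  rw [← cov_id p F φ h1]
  exact sum_le_sum fun c _ => sum_le_sum fun c' _ =>
    mul_le_mul_of_nonneg_left (hK c c') (mul_nonneg (hp c) (hp c'))

theorem mono_mul (F φ : Y → ℝ) (hF : Monotone F) (hφ : Monotone φ) (c c' : Y) :
    0 ≤ (F c - F c') * (φ c - φ c') := by
  rcases le_total c c' with h | h
  · have a := hF h
    have b := hφ h
    nlinarith
  · have a := hF h
    have b := hφ h
    nlinarith

/-- two disjoint classes. -/
theorem cov_two (p F φ : Y → ℝ) (hp : ∀ c, 0 ≤ p c) (h1 : ∑ c, p c = 1) (hF : Monotone F)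
    (hφ : Monotone φ) (u l : Y → ℝ) (hdis : ∀ c, u c = 0 ∨ l c = 0)
    (hul : ∀ c c', u c * l c' ≤ (F c - F c') * (φ c - φ c')) :
    (∑ c, p c * u c) * (∑ c, p c * l c) ≤
      ((∑ c, p c * (F c * φ c)) - (∑ c, p c * F c) * ∑ c, p c * φ c) := by
  have h := cov_ge p F φ hp h1 (fun c c' => u c * l c' + u c' * l c) (by
    intro c c'
    have hz := mono_mul F φ hF hφ c c'
    have h2 := hul c c'
    have h3 := hul c' c
    have h4 : (F c' - F c) * (φ c' - φ c) = (F c - F c') * (φ c - φ c') := by ring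
    rw [h4] at h3
    rcases hdis c with hc | hc
    · simp only [hc, zero_mul, zero_add] at h2 ⊢
      exact h3
    · simp only [hc, mul_zero, add_zero] at h3 ⊢
      exact h2)
  have e : ∑ c, ∑ c', p c * p c' * (u c * l c' + u c' * l c) =
      2 * ((∑ c, p c * u c) * (∑ c, p c * l c)) := by
    have : ∀ c, ∑ c', p c * p c' * (u c * l c' + u c' * l c) =
        (p c * u c) * (∑ c', p c' * l c') + (p c * l c) * (∑ c', p c' * u c') := by
      intro c
      have : ∀ c', p c * p c' * (u c * l c' + u c' * l c) =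
        (p c * u c) * (p c' * l c') + (p c * l c) * (p c' * u c') := by intro c'; ring
      simp only [this, sum_add_distrib, ← mul_sum]
    simp only [this, sum_add_distrib, ← sum_mul]
    ring
  rw [e] at h
  linarith

theorem vertex_est (p F φ : Y → ℝ) (hp : ∀ c, 0 ≤ p c) (h1 : ∑ c, p c = 1) (hF : Monotone F)
    (hφ : Monotone φ) (p0 : ℝ) (hp0 : 0 < p0) (lo hi : Finset Y) (hlo : ∀ c ∈ lo, φ c ≤ 9 / 25)
    (hhi : ∀ c ∈ hi, 16 / 25 ≤ φ c) (plo : p0 ≤ ∑ c ∈ lo, p c) (phi : p0 ≤ ∑ c ∈ hi, p c) :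
    ∑ c, ∑ c', p c * p c' * |F c - F c'| ≤
      100 / p0 * ((∑ c, p c * (F c * φ c)) - (∑ c, p c * F c) * ∑ c, p c * φ c) := by
  classical
  have hhine : hi.Nonempty := by
    rcases hi.eq_empty_or_nonempty with h | h
    · rw [h, sum_empty] at phi; linarith
    · exact h
  obtain ⟨h0, hh0⟩ := hhine
  have hUne : (univ.filter fun c => (1 / 2 : ℝ) ≤ φ c).Nonempty :=
    ⟨h0, by
      have := hhi h0 hh0
      simp only [mem_filter, mem_univ, true_and]; linarith⟩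
  set c0 := (univ.filter fun c => (1 / 2 : ℝ) ≤ φ c).min' hUne with hc0
  have hc0m : (1 / 2 : ℝ) ≤ φ c0 := by
    have := (univ.filter fun c => (1 / 2 : ℝ) ≤ φ c).min'_mem hUne
    exact (mem_filter.mp this).2
  have hge : ∀ c, (1 / 2 : ℝ) ≤ φ c → F c0 ≤ F c := by
    intro c hc
    exact hF (min'_le _ c (by simp only [mem_filter, mem_univ, true_and]; exact hc))
  have hle : ∀ c, φ c < 1 / 2 → F c ≤ F c0 := by
    intro c hc
    refine hF (le_of_lt ?_)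
    by_contra hcon
    have := hφ (not_lt.mp hcon)
    linarith
  set Cv := ((∑ c, p c * (F c * φ c)) - (∑ c, p c * F c) * ∑ c, p c * φ c) with hCv
  -- upper part
  have hU : (∑ c, p c * (if (1 / 2 : ℝ) ≤ φ c then F c - F c0 else 0)) *
      (∑ c, p c * (if c ∈ lo then (7 / 50 : ℝ) else 0)) ≤ Cv := by
    refine cov_two p F φ hp h1 hF hφ _ _ ?_ ?_
    · intro c
      by_cases hc : c ∈ lo
      · left
        have := hlo c hc
        rw [if_neg (by linarith)]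
      · right; rw [if_neg hc]
    · intro c c'
      by_cases hc : (1 / 2 : ℝ) ≤ φ c
      · by_cases hc' : c' ∈ lo
        · rw [if_pos hc, if_pos hc']
          have e1 := hlo c' hc'
          have e2 := hle c' (by linarith)
          have e3 := hge c hc
          nlinarith
        · rw [if_neg hc', mul_zero]
          exact mono_mul F φ hF hφ c c'
      · rw [if_neg hc, zero_mul]
        exact mono_mul F φ hF hφ c c'
  have hV : (∑ c, p c * (if φ c < 1 / 2 then F c0 - F c else 0)) *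
      (∑ c, p c * (if c ∈ hi then (7 / 50 : ℝ) else 0)) ≤ Cv := by
    refine cov_two p F φ hp h1 hF hφ _ _ ?_ ?_
    · intro c
      by_cases hc : c ∈ hi
      · left
        have := hhi c hc
        rw [if_neg (by linarith)]
      · right; rw [if_neg hc]
    · intro c c'
      by_cases hc : φ c < 1 / 2
      · by_cases hc' : c' ∈ hi
        · rw [if_pos hc, if_pos hc']
          have e1 := hhi c' hc'
          have e2 := hge c' (by linarith)
          have e3 := hle c hc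
          nlinarith
        · rw [if_neg hc', mul_zero]
          exact mono_mul F φ hF hφ c c'
      · rw [if_neg hc, zero_mul]
        exact mono_mul F φ hF hφ c c'
  have sum_ind : ∀ S : Finset Y, ∑ c, p c * (if c ∈ S then (7 / 50 : ℝ) else 0) =
      7 / 50 * ∑ c ∈ S, p c := by
    intro S
    have : ∀ c, p c * (if c ∈ S then (7 / 50 : ℝ) else 0) = if c ∈ S then 7 / 50 * p c else 0 := by
      intro c; split_ifs <;> ring
    simp only [this]
    rw [← sum_filter, mul_sum]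
    refine sum_congr ?_ (fun _ _ => rfl)
    ext c; simp
  rw [sum_ind] at hU hV
  have hU0 : 0 ≤ ∑ c, p c * (if (1 / 2 : ℝ) ≤ φ c then F c - F c0 else 0) := by
    refine sum_nonneg fun c _ => mul_nonneg (hp c) ?_
    split_ifs with hc
    · linarith [hge c hc]
    · exact le_rfl
  have hV0 : 0 ≤ ∑ c, p c * (if φ c < 1 / 2 then F c0 - F c else 0) := by
    refine sum_nonneg fun c _ => mul_nonneg (hp c) ?_
    split_ifs with hc
    · linarith [hle c hc]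
    · exact le_rfl
  have hU1 : (∑ c, p c * (if (1 / 2 : ℝ) ≤ φ c then F c - F c0 else 0)) * (7 / 50 * p0) ≤ Cv :=
    le_trans (mul_le_mul_of_nonneg_left (by linarith) hU0) hU
  have hV1 : (∑ c, p c * (if φ c < 1 / 2 then F c0 - F c else 0)) * (7 / 50 * p0) ≤ Cv :=
    le_trans (mul_le_mul_of_nonneg_left (by linarith) hV0) hV
  have hsum : ∑ c, p c * |F c - F c0| =
      (∑ c, p c * (if (1 / 2 : ℝ) ≤ φ c then F c - F c0 else 0)) +
      (∑ c, p c * (if φ c < 1 / 2 then F c0 - F c else 0)) := by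
    rw [← sum_add_distrib]
    refine sum_congr rfl fun c _ => ?_
    by_cases hc : (1 / 2 : ℝ) ≤ φ c
    · rw [if_pos hc, if_neg (not_lt.mpr hc), abs_of_nonneg (by linarith [hge c hc])]; ring
    · rw [if_neg hc, if_pos (not_le.mp hc), abs_of_nonpos (by linarith [hle c (not_le.mp hc)])]
      ring
  have hmain : (∑ c, p c * |F c - F c0|) * (7 / 100 * p0) ≤ Cv := by
    rw [hsum]; nlinarith
  have hLHS : ∑ c, ∑ c', p c * p c' * |F c - F c'| ≤ 2 * ∑ c, p c * |F c - F c0| := by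
    have : ∀ c c', p c * p c' * |F c - F c'| ≤
        (p c * |F c - F c0|) * p c' + p c * (p c' * |F c' - F c0|) := by
      intro c c'
      have h := abs_sub_le (F c) (F c0) (F c')
      rw [abs_sub_comm (F c0) (F c')] at h
      have h2 := mul_le_mul_of_nonneg_left h (mul_nonneg (hp c) (hp c'))
      nlinarith
    calc ∑ c, ∑ c', p c * p c' * |F c - F c'| ≤
        ∑ c, ∑ c', ((p c * |F c - F c0|) * p c' + p c * (p c' * |F c' - F c0|)) :=
          sum_le_sum fun c _ => sum_le_sum fun c' _ => this c c'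
      _ = 2 * ∑ c, p c * |F c - F c0| := by
          simp only [sum_add_distrib, ← mul_sum, ← sum_mul, h1]
          ring
  have hS0 : 0 ≤ ∑ c, p c * |F c - F c0| := sum_nonneg fun c _ => mul_nonneg (hp c) (abs_nonneg _)
  have hCv0 : 0 ≤ Cv := le_trans (mul_nonneg hS0 (by positivity)) hmain
  refine le_trans hLHS ?_
  rw [div_mul_eq_mul_div, le_div_iff₀ hp0]
  nlinarith

theorem blk_low [Nonempty Y] (a psi : Y → Y → ℝ) (φ : Y → ℝ) (ha : ∀ ζ μ, 0 < a ζ μ) (hφ : Monotone φ)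
    (hpsi : ∀ ζ ζ' μ μ', ζ ≤ ζ' → μ ≤ μ' → psi ζ μ ≤ psi ζ' μ')
    (hst : ∀ g : Y → ℝ, Monotone g → ∀ ζ ζ', ζ ≤ ζ' →
      (∑ μ, a ζ μ * g μ) / ∑ μ, a ζ μ ≤ (∑ μ, a ζ' μ * g μ) / ∑ μ, a ζ' μ)
    (p0 Δ : ℝ) (hp0 : 0 < p0) (hΔ : 0 ≤ Δ) (lo hi mi : Finset Y) (hlo : ∀ c ∈ lo, φ c ≤ 9 / 25)
    (hhi : ∀ c ∈ hi, 16 / 25 ≤ φ c)
    (plo : p0 * ∑ ζ, ∑ μ, a ζ μ ≤ ∑ ζ ∈ lo, ∑ μ, a ζ μ)
    (phi : p0 * ∑ ζ, ∑ μ, a ζ μ ≤ ∑ ζ ∈ hi, ∑ μ, a ζ μ)
    (pmi : ∀ ζ, p0 * ∑ μ, a ζ μ ≤ ∑ μ ∈ mi, a ζ μ)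
    (hd : ∀ ζ ∈ hi, ∀ ζ' ∈ lo, ∀ μ ∈ mi, Δ ≤ psi ζ μ - psi ζ' μ) (Z : ℝ)
    (hZ : Z = ∑ ζ, ∑ μ, a ζ μ) :
    7 / 25 * p0 ^ 3 * Δ ≤ (∑ ζ, ∑ μ, a ζ μ * (psi ζ μ * φ ζ)) / Z -
      (∑ ζ, ∑ μ, a ζ μ * psi ζ μ) / Z * ((∑ ζ, ∑ μ, a ζ μ * φ ζ) / Z) := by
  classical
  have hA : ∀ ζ, 0 < ∑ μ, a ζ μ := fun ζ => sum_pos (fun μ _ => ha ζ μ) univ_nonempty
  have hZp : 0 < Z := by rw [hZ]; exact sum_pos (fun ζ _ => hA ζ) univ_nonempty
  set p : Y → ℝ := fun ζ => (∑ μ, a ζ μ) / Z with hpd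
  set G : Y → ℝ := fun ζ => (∑ μ, a ζ μ * psi ζ μ) / ∑ μ, a ζ μ with hG
  have hp : ∀ c, 0 ≤ p c := fun c => div_nonneg (hA c).le hZp.le
  have h1 : ∑ c, p c = 1 := by
    simp only [hpd, ← sum_div]; rw [← hZ, div_self hZp.ne']
  have hGm : Monotone G := by
    intro ζ ζ' h
    refine le_trans (hst (psi ζ) (fun μ μ' hμ => hpsi ζ ζ μ μ' le_rfl hμ) ζ ζ' h) ?_
    refine div_le_div_of_nonneg_right ?_ (hA ζ').le
    exact sum_le_sum fun μ _ => mul_le_mul_of_nonneg_left (hpsi ζ ζ' μ μ h le_rfl) (ha ζ' μ).le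
  have hGd : ∀ ζ ∈ hi, ∀ ζ' ∈ lo, p0 * Δ ≤ G ζ - G ζ' := by
    intro ζ hζ ζ' hζ'
    have hlt : ζ' < ζ := by
      by_contra hcon
      have := hφ (not_lt.mp hcon)
      linarith [hlo ζ' hζ', hhi ζ hζ]
    have s1 : (∑ μ, a ζ' μ * psi ζ μ) / (∑ μ, a ζ' μ) ≤ G ζ :=
      hst (psi ζ) (fun μ μ' hμ => hpsi ζ ζ μ μ' le_rfl hμ) ζ' ζ hlt.le
    have s2 : p0 * Δ ≤ (∑ μ, a ζ' μ * psi ζ μ) / (∑ μ, a ζ' μ) - G ζ' := by
      rw [hG]
      simp only
      rw [← sub_div, le_div_iff₀ (hA ζ'), ← sum_sub_distrib]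
      calc p0 * Δ * ∑ μ, a ζ' μ = Δ * (p0 * ∑ μ, a ζ' μ) := by ring
        _ ≤ Δ * ∑ μ ∈ mi, a ζ' μ := mul_le_mul_of_nonneg_left (pmi ζ') hΔ
        _ = ∑ μ ∈ mi, Δ * a ζ' μ := mul_sum _ _ _
        _ ≤ ∑ μ ∈ mi, (a ζ' μ * psi ζ μ - a ζ' μ * psi ζ' μ) := by
            refine sum_le_sum fun μ hμ => ?_
            have := hd ζ hζ ζ' hζ' μ hμ
            nlinarith [ha ζ' μ]
        _ ≤ ∑ μ, (a ζ' μ * psi ζ μ - a ζ' μ * psi ζ' μ) := by
            refine sum_le_sum_of_subset_of_nonneg (subset_univ _) fun μ _ _ => ?_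
            have := hpsi ζ' ζ μ μ hlt.le le_rfl
            nlinarith [ha ζ' μ]
    linarith
  have hcov := cov_two p G φ hp h1 hGm hφ (fun c => if c ∈ hi then p0 * Δ else 0)
    (fun c => if c ∈ lo then (7 / 25 : ℝ) else 0) (by
      intro c
      by_cases hc : c ∈ lo
      · left
        have h1 := hlo c hc
        have : c ∉ hi := fun h => by linarith [hhi c h]
        simp only [if_neg this]
      · right; simp only [if_neg hc]) (by
      intro c c'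
      by_cases hc : c ∈ hi
      · by_cases hc' : c' ∈ lo
        · simp only [if_pos hc, if_pos hc']
          have e1 := hlo c' hc'
          have e2 := hhi c hc
          have e3 := hGd c hc c' hc'
          have e4 : 0 ≤ p0 * Δ := mul_nonneg hp0.le hΔ
          nlinarith
        · simp only [if_neg hc', mul_zero]
          exact mono_mul G φ hGm hφ c c'
      · simp only [if_neg hc, zero_mul]
        exact mono_mul G φ hGm hφ c c')
  have sum_ind : ∀ (S : Finset Y) (k : ℝ), ∑ c, p c * (if c ∈ S then k else 0) =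
      k * ∑ c ∈ S, p c := by
    intro S k
    have : ∀ c, p c * (if c ∈ S then k else 0) = if c ∈ S then k * p c else 0 := by
      intro c; split_ifs <;> ring
    simp only [this]
    rw [← sum_filter, mul_sum]
    refine sum_congr ?_ (fun _ _ => rfl)
    ext c; simp
  rw [sum_ind, sum_ind] at hcov
  have hplo : p0 ≤ ∑ c ∈ lo, p c := by
    simp only [hpd, ← sum_div]
    rw [le_div_iff₀ hZp, hZ]; exact plo
  have hphi : p0 ≤ ∑ c ∈ hi, p c := by
    simp only [hpd, ← sum_div]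
    rw [le_div_iff₀ hZp, hZ]; exact phi
  have e1 : (∑ ζ, ∑ μ, a ζ μ * (psi ζ μ * φ ζ)) / Z = ∑ c, p c * (G c * φ c) := by
    rw [sum_div]
    refine sum_congr rfl fun c _ => ?_
    have : ∑ μ, a c μ * (psi c μ * φ c) = (∑ μ, a c μ * psi c μ) * φ c := by
      rw [sum_mul]; exact sum_congr rfl fun μ _ => by ring
    rw [this]
    simp only [hpd, hG]
    field_simp [(hA c).ne']
  have e2 : (∑ ζ, ∑ μ, a ζ μ * psi ζ μ) / Z = ∑ c, p c * G c := by
    rw [sum_div]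
    refine sum_congr rfl fun c _ => ?_
    simp only [hpd, hG]
    field_simp [(hA c).ne']
  have e3 : (∑ ζ, ∑ μ, a ζ μ * φ ζ) / Z = ∑ c, p c * φ c := by
    rw [sum_div]
    refine sum_congr rfl fun c _ => ?_
    simp only [hpd]
    rw [← sum_mul]; ring
  rw [e1, e2, e3]
  refine le_trans ?_ hcov
  have h3 : p0 * p0 ≤ (∑ c ∈ hi, p c) * ∑ c ∈ lo, p c :=
    mul_le_mul hphi hplo hp0.le (le_trans hp0.le hphi)
  have h4 : 0 ≤ 7 / 25 * (p0 * Δ) := by positivity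
  calc 7 / 25 * p0 ^ 3 * Δ = (7 / 25 * (p0 * Δ)) * (p0 * p0) := by ring
    _ ≤ (7 / 25 * (p0 * Δ)) * ((∑ c ∈ hi, p c) * ∑ c ∈ lo, p c) :=
        mul_le_mul_of_nonneg_left h3 h4
    _ = p0 * Δ * (∑ c ∈ hi, p c) * (7 / 25 * ∑ c ∈ lo, p c) := by ring

end one

/-- affine denominators and their quotients. -/
noncomputable def Dd (d0 d1 : Bool → ℝ) (o : Bool) (t : ℝ) : ℝ := d0 o + t * d1 o

noncomputable def Ph (d0 d1 n0 n1 : Bool → ℝ) (o : Bool) (t : ℝ) : ℝ :=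
  (n0 o + t * n1 o) / (d0 o + t * d1 o)

structure BOk (d0 d1 n0 n1 : Bool → ℝ) : Prop where
  pos : ∀ o, 0 < d0 o
  dn : ∀ o, 0 ≤ d1 o
  dl : ∀ o, d1 o ≤ d0 o
  ph0 : ∀ o t, 0 ≤ t → t ≤ 1 → 0 ≤ Ph d0 d1 n0 n1 o t
  ph1 : ∀ o t, 0 ≤ t → t ≤ 1 → Ph d0 d1 n0 n1 o t ≤ 1
  up : ∀ t, 0 ≤ t → t ≤ 1 → Ph d0 d1 n0 n1 false t ≤ Ph d0 d1 n0 n1 true t
  an : ∀ o t t', 0 ≤ t → t ≤ t' → t' ≤ 1 → Ph d0 d1 n0 n1 o t' ≤ Ph d0 d1 n0 n1 o t
  ra : ∀ t t', 0 ≤ t → t ≤ t' → t' ≤ 1 →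
    Dd d0 d1 true t' * Dd d0 d1 false t ≤ Dd d0 d1 true t * Dd d0 d1 false t'
  r1 : ∀ t, 0 ≤ t → t ≤ 1 → Dd d0 d1 false t ≤ Dd d0 d1 true t
  r2 : ∀ t, 0 ≤ t → t ≤ 1 → Dd d0 d1 true t ≤ 2 * Dd d0 d1 false t

/-- the comparison quantity. -/
noncomputable def Qfo (d0 d1 n0 n1 : Bool → ℝ) (rm tm : ℝ) : ℝ :=
  rm * (Ph d0 d1 n0 n1 true 0 - Ph d0 d1 n0 n1 false 0) +
    (Ph d0 d1 n0 n1 false 0 - Ph d0 d1 n0 n1 false tm)

theorem blk_up {Y : Type} [Fintype Y] (d0 d1 n0 n1 : Bool → ℝ) (h : BOk d0 d1 n0 n1) (a r t : Y → ℝ)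
    (rm tm : ℝ) (hrm : rm ≤ 1) (htm : tm ≤ 1) (ha : ∀ y, 0 < a y) (hr0 : ∀ y, 0 ≤ r y)
    (hr1 : ∀ y, r y ≤ rm) (hr2 : ∀ y, r y < 1) (ht0 : ∀ y, 0 ≤ t y) (ht1 : ∀ y, t y ≤ tm) [Nonempty Y]
    (π : Y → Bool → ℝ) (hπ : ∀ y o, π y o = a y * (if o then r y else 1 - r y) * Dd d0 d1 o (t y)) :
    ∑ y, ∑ o, π y o * |Ph d0 d1 n0 n1 o (t y) -
        (∑ y, ∑ o, π y o * Ph d0 d1 n0 n1 o (t y)) / ∑ y, ∑ o, π y o| ≤
      6 * Qfo d0 d1 n0 n1 rm tm * ∑ y, ∑ o, π y o := by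
  classical
  obtain ⟨y0⟩ := (inferInstance : Nonempty Y)
  haveI : Nonempty Y := ⟨y0⟩
  have hrm0 : 0 ≤ rm := le_trans (hr0 y0) (hr1 y0)
  have htm0 : 0 ≤ tm := le_trans (ht0 y0) (ht1 y0)
  have hD : ∀ o y, 0 < Dd d0 d1 o (t y) := by
    intro o y
    have := h.pos o
    have h2 := mul_nonneg (ht0 y) (h.dn o)
    unfold Dd; linarith
  have hπ0 : ∀ y o, 0 ≤ π y o := by
    intro y o
    rw [hπ]
    refine mul_nonneg (mul_nonneg (ha y).le ?_) (hD o y).le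
    split_ifs
    · exact hr0 y
    · linarith [hr2 y]
  set X := Ph d0 d1 n0 n1 true 0 - Ph d0 d1 n0 n1 false 0 with hX
  set W := Ph d0 d1 n0 n1 false 0 - Ph d0 d1 n0 n1 false tm with hW
  have hX0 : 0 ≤ X := by
    have := h.up 0 le_rfl zero_le_one; linarith
  have hW0 : 0 ≤ W := by
    have := h.an false 0 tm le_rfl htm0 htm; linarith
  have hQ : Qfo d0 d1 n0 n1 rm tm = rm * X + W := rfl
  have hbt : ∀ y, |Ph d0 d1 n0 n1 true (t y) - Ph d0 d1 n0 n1 false 0| ≤ X + W := by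
    intro y
    have t1 : t y ≤ 1 := le_trans (ht1 y) htm
    have e1 := h.an true 0 (t y) le_rfl (ht0 y) t1
    have e2 := h.up (t y) (ht0 y) t1
    have e3 := h.an false (t y) tm (ht0 y) (ht1 y) htm
    rw [abs_le]; constructor <;> linarith
  have hbf : ∀ y, |Ph d0 d1 n0 n1 false (t y) - Ph d0 d1 n0 n1 false 0| ≤ W := by
    intro y
    have t1 : t y ≤ 1 := le_trans (ht1 y) htm
    have e1 := h.an false 0 (t y) le_rfl (ht0 y) t1
    have e3 := h.an false (t y) tm (ht0 y) (ht1 y) htm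
    rw [abs_le]; constructor <;> linarith
  have hy : ∀ y, ∑ o, π y o * |Ph d0 d1 n0 n1 o (t y) - Ph d0 d1 n0 n1 false 0| ≤
      (2 * (rm * X) + W) * ∑ o, π y o := by
    intro y
    rw [Fintype.sum_bool, Fintype.sum_bool]
    have p1 : π y true = a y * r y * Dd d0 d1 true (t y) := by rw [hπ]; simp
    have p2 : π y false = a y * (1 - r y) * Dd d0 d1 false (t y) := by rw [hπ]; simp
    have t1 : t y ≤ 1 := le_trans (ht1 y) htm
    have q1 := h.r1 (t y) (ht0 y) t1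
    have q2 := h.r2 (t y) (ht0 y) t1
    have b1 : π y true * |Ph d0 d1 n0 n1 true (t y) - Ph d0 d1 n0 n1 false 0| ≤
        π y true * (X + W) := mul_le_mul_of_nonneg_left (hbt y) (hπ0 y true)
    have b2 : π y false * |Ph d0 d1 n0 n1 false (t y) - Ph d0 d1 n0 n1 false 0| ≤
        π y false * W := mul_le_mul_of_nonneg_left (hbf y) (hπ0 y false)
    have b3 : π y true * X ≤ 2 * (rm * X) * (π y true + π y false) := by
      have c1 : π y true ≤ 2 * rm * (a y * Dd d0 d1 false (t y)) := by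
        rw [p1]
        have : r y * Dd d0 d1 true (t y) ≤ rm * (2 * Dd d0 d1 false (t y)) :=
          mul_le_mul (hr1 y) q2 (hD true y).le hrm0
        calc a y * r y * Dd d0 d1 true (t y) = a y * (r y * Dd d0 d1 true (t y)) := by ring
          _ ≤ a y * (rm * (2 * Dd d0 d1 false (t y))) := mul_le_mul_of_nonneg_left this (ha y).le
          _ = _ := by ring
      have c2 : a y * Dd d0 d1 false (t y) ≤ π y true + π y false := by
        rw [p1, p2]
        have := mul_le_mul_of_nonneg_left q1 (mul_nonneg (ha y).le (hr0 y))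
        nlinarith
      calc π y true * X ≤ (2 * rm * (a y * Dd d0 d1 false (t y))) * X :=
            mul_le_mul_of_nonneg_right c1 hX0
        _ = (2 * (rm * X)) * (a y * Dd d0 d1 false (t y)) := by ring
        _ ≤ _ := mul_le_mul_of_nonneg_left c2 (by positivity)
    nlinarith
  set S := ∑ y, ∑ o, π y o with hS
  have hS0 : 0 ≤ S := sum_nonneg fun y _ => sum_nonneg fun o _ => hπ0 y o
  set m := (∑ y, ∑ o, π y o * Ph d0 d1 n0 n1 o (t y)) / S with hm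
  set c := Ph d0 d1 n0 n1 false 0 with hc
  have htot : ∑ y, ∑ o, π y o * |Ph d0 d1 n0 n1 o (t y) - c| ≤ (2 * (rm * X) + W) * S := by
    rw [hS, mul_sum]
    exact sum_le_sum fun y _ => hy y
  have hcm : S * |c - m| ≤ ∑ y, ∑ o, π y o * |Ph d0 d1 n0 n1 o (t y) - c| := by
    rcases hS0.eq_or_lt with h0 | h0
    · rw [← h0, zero_mul]
      exact sum_nonneg fun y _ => sum_nonneg fun o _ => mul_nonneg (hπ0 y o) (abs_nonneg _)
    · have e : S * (m - c) = ∑ y, ∑ o, π y o * (Ph d0 d1 n0 n1 o (t y) - c) := by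
        rw [hm]
        have : ∀ y o, π y o * (Ph d0 d1 n0 n1 o (t y) - c) =
          π y o * Ph d0 d1 n0 n1 o (t y) - π y o * c := fun y o => by ring
        simp only [this, sum_sub_distrib, ← sum_mul]
        rw [← hS]
        field_simp
      have e2 : S * |c - m| = |S * (m - c)| := by
        rw [abs_mul, abs_of_pos h0, abs_sub_comm]
      rw [e2, e]
      refine le_trans (abs_sum_le_sum_abs _ _) (sum_le_sum fun y _ => ?_)
      refine le_trans (abs_sum_le_sum_abs _ _) (sum_le_sum fun o _ => ?_)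
      rw [abs_mul, abs_of_nonneg (hπ0 y o)]
  have hfin : ∑ y, ∑ o, π y o * |Ph d0 d1 n0 n1 o (t y) - m| ≤
      ∑ y, ∑ o, π y o * |Ph d0 d1 n0 n1 o (t y) - c| + S * |c - m| := by
    have e : S * |c - m| = ∑ y, ∑ o, π y o * |c - m| := by
      simp only [← sum_mul]; rw [hS]
    rw [e, ← sum_add_distrib]
    refine sum_le_sum fun y _ => ?_
    rw [← sum_add_distrib]
    refine sum_le_sum fun o _ => ?_
    rw [← mul_add]
    exact mul_le_mul_of_nonneg_left (abs_sub_le _ _ _) (hπ0 y o)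
  rw [hQ]
  have hrX : 0 ≤ rm * X := mul_nonneg hrm0 hX0
  have : (2 * (rm * X) + W) * S ≤ 3 * (rm * X + W) * S :=
    mul_le_mul_of_nonneg_right (by linarith) hS0
  nlinarith

end H82.BX
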