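import Pool.Agent.H82.BX.BL1

/-!
# BL2: the key real inequality of the block estimate

`Ψ(r,t) = ((1-r) N false t + r N true t)/((1-r) D false t + r D true t) = (1-u) Φ0(t) + u Φ1(t)`, `Φo(t) = Ph o t`,
`u = r ρ/((1-r) + r ρ)`, `ρ(t) = D true t/D false t ∈ [1,2]` antitone.  `X = Φ1(0) - Φ0(0)`, `Y = Φ0(0) - Φ0(tm)`.
`Ψ` is increasing in `r` (`u` is increasing in `r`, `Φ1 ≥ Φ0`) and decreasing in `t` (`u` decreasing in `t`, `Φo` decreasing).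
(i) For fixed `r`, `Ψ(r, ·)` is a quotient of affine functions with denominator `δ0 + t δ1`, `0 ≤ δ1 ≤ δ0`; such a quotient `g` satisfies
`g(s) - g(s') = (s' - s) Δ/(D(s) D(s'))` with `Δ` constant, so difference quotients on `[0,1]` are comparable within a factor `4`:
`Ψ(r,t) - Ψ(r,t') ≥ (1/4) ((t'-t)/tm) (Ψ(r,0) - Ψ(r,tm)) ≥ (c/4)(Ψ(r,0) - Ψ(r,tm))` (if `tm > 0`; if `tm = 0` then `Y = 0` and `Φ1(0) = Φ1(tm)`,
and the bounds below involving `Ψ(r,0) - Ψ(r,tm)` are trivial).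
With `u1 = u(r,tm) ≤ u(r,0)`: `Ψ(r,0) - Ψ(r,tm) ≥ (1-u1)(Φ0(0) - Φ0(tm)) + u1 (Φ1(0) - Φ1(tm))`,
`1 - u1 ≥ (1-r)/2 ≥ (1-ρ0)/2`, `u1 ≥ r/2`.
(ii) `Ψ(r,t) - Ψ(r',t) = (u(r,t) - u(r',t))(Φ1(t) - Φ0(t)) ≥ (1/4)(r-r')(Φ1(t) - Φ0(t))`, and
`Φ1(t) - Φ0(t) ≥ Φ1(t) - Φ0(0) ≥ X - (Φ1(0) - Φ1(tm))`.
Let `Γ = Ψ(r,t) - Ψ(r',t')`.  `Γ ≥ Ψ(r,t) - Ψ(r,t')` (`Ψ(r,t') ≥ Ψ(r',t')`) and `Γ ≥ Ψ(r,t) - Ψ(r',t)`.  With `r ≥ c rm`:
`Γ ≥ (c/4)((1-ρ0)/2) Y`, `Γ ≥ (c/4)(c rm/2)(Φ1(0) - Φ1(tm))`, `Γ ≥ (c/4) rm (X - (Φ1(0) - Φ1(tm)))`.  Adding with suitable weights: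
`Γ ≥ κ (rm X + Y)`.
-/

set_option autoImplicit false

open Finset MeasureTheory

namespace H82.BX

/-- the value after averaging the bit. -/
noncomputable def Ps (d0 d1 n0 n1 : Bool → ℝ) (r t : ℝ) : ℝ :=
  ((1 - r) * (n0 false + t * n1 false) + r * (n0 true + t * n1 true)) /
    ((1 - r) * (d0 false + t * d1 false) + r * (d0 true + t * d1 true))

/-- abstract form of `Ps`. -/
noncomputable def Pa (r A B F G : ℝ) : ℝ := ((1 - r) * (A * F) + r * (B * G)) / ((1 - r) * A + r * B)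

theorem Pa_den (r A B : ℝ) (hr : 0 ≤ r) (hr1 : r < 1) (hA : 0 < A) (hB : 0 < B) :
    0 < (1 - r) * A + r * B := by
  have h1 : 0 < (1 - r) * A := mul_pos (by linarith) hA
  have h2 : 0 ≤ r * B := mul_nonneg hr hB.le
  linarith

theorem Pa_sub_r (r r' A B F G : ℝ) (hr' : 0 ≤ r') (hr : r' ≤ r) (hr1 : r < 1) (hA : 0 < A)
    (hB : 0 < B) : Pa r A B F G - Pa r' A B F G =
      (r - r') * (A * B * (G - F)) / (((1 - r) * A + r * B) * ((1 - r') * A + r' * B)) := by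
  have h1 := Pa_den r A B (le_trans hr' hr) hr1 hA hB
  have h2 := Pa_den r' A B hr' (lt_of_le_of_lt hr hr1) hA hB
  unfold Pa
  rw [div_sub_div _ _ h1.ne' h2.ne']
  congr 1
  ring

theorem Pa_sub_r_ge (r r' A B F G : ℝ) (hr' : 0 ≤ r') (hr : r' ≤ r) (hr1 : r < 1) (hA : 0 < A)
    (hAB : A ≤ B) (hBA : B ≤ 2 * A) (hFG : F ≤ G) :
    1 / 2 * ((r - r') * (G - F)) ≤ Pa r A B F G - Pa r' A B F G := by
  have hB : 0 < B := lt_of_lt_of_le hA hAB
  rw [Pa_sub_r r r' A B F G hr' hr hr1 hA hB]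
  have h1 := Pa_den r A B (le_trans hr' hr) hr1 hA hB
  have h2 := Pa_den r' A B hr' (lt_of_le_of_lt hr hr1) hA hB
  have e1 : (1 - r) * A + r * B ≤ 2 * A := by nlinarith
  have e2 : (1 - r') * A + r' * B ≤ B := by nlinarith
  rw [le_div_iff₀ (mul_pos h1 h2)]
  have h3 : ((1 - r) * A + r * B) * ((1 - r') * A + r' * B) ≤ 2 * A * B :=
    mul_le_mul e1 e2 h2.le (by positivity)
  have h4 : 0 ≤ (r - r') * (G - F) := mul_nonneg (by linarith) (by linarith)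
  calc 1 / 2 * ((r - r') * (G - F)) * (((1 - r) * A + r * B) * ((1 - r') * A + r' * B)) ≤
      1 / 2 * ((r - r') * (G - F)) * (2 * A * B) :=
        mul_le_mul_of_nonneg_left h3 (by positivity)
    _ = _ := by ring

theorem Pa_eq (r A B F G : ℝ) (hr : 0 ≤ r) (hr1 : r < 1) (hA : 0 < A) (hB : 0 < B) :
    Pa r A B F G = (1 - r) * A / ((1 - r) * A + r * B) * F + r * B / ((1 - r) * A + r * B) * G := by
  have h1 := Pa_den r A B hr hr1 hA hB
  unfold Pa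
  field_simp

theorem Pa_w (r A B : ℝ) (hr : 0 ≤ r) (hr1 : r < 1) (hA : 0 < A) (hAB : A ≤ B) (hBA : B ≤ 2 * A) :
    (1 - r) * A / ((1 - r) * A + r * B) + r * B / ((1 - r) * A + r * B) = 1 ∧
    (1 - r) / 2 ≤ (1 - r) * A / ((1 - r) * A + r * B) ∧
    r ≤ r * B / ((1 - r) * A + r * B) := by
  have hB : 0 < B := lt_of_lt_of_le hA hAB
  have h1 := Pa_den r A B hr hr1 hA hB
  refine ⟨by rw [← add_div, div_self h1.ne'], ?_, ?_⟩
  · rw [le_div_iff₀ h1]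
    have e1 : (1 - r) * A + r * B ≤ 2 * A := by nlinarith
    calc (1 - r) / 2 * ((1 - r) * A + r * B) ≤ (1 - r) / 2 * (2 * A) :=
          mul_le_mul_of_nonneg_left e1 (by linarith)
      _ = _ := by ring
  · rw [le_div_iff₀ h1]
    refine mul_le_mul_of_nonneg_left ?_ hr
    nlinarith

/-- comparison at two values of `t`. -/
theorem Pa_t (r A B F G A' B' F' G' : ℝ) (hr : 0 ≤ r) (hr1 : r < 1) (hA : 0 < A) (hB : 0 < B)
    (hA' : 0 < A') (hB' : 0 < B') (hFG : F ≤ G) (hra : B' * A ≤ B * A') :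
    (1 - r) * A' / ((1 - r) * A' + r * B') * (F - F') +
      r * B' / ((1 - r) * A' + r * B') * (G - G') ≤ Pa r A B F G - Pa r A' B' F' G' := by
  rw [Pa_eq r A B F G hr hr1 hA hB, Pa_eq r A' B' F' G' hr hr1 hA' hB']
  have h1 := Pa_den r A B hr hr1 hA hB
  have h2 := Pa_den r A' B' hr hr1 hA' hB'
  have hu : r * B' / ((1 - r) * A' + r * B') ≤ r * B / ((1 - r) * A + r * B) := by
    rw [div_le_div_iff₀ h2 h1]
    have : 0 ≤ (1 - r) * r := mul_nonneg (by linarith) hr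
    nlinarith [mul_le_mul_of_nonneg_left hra this]
  have s1 : (1 - r) * A / ((1 - r) * A + r * B) = 1 - r * B / ((1 - r) * A + r * B) := by
    field_simp; ring
  have s2 : (1 - r) * A' / ((1 - r) * A' + r * B') = 1 - r * B' / ((1 - r) * A' + r * B') := by
    field_simp; ring
  rw [s1, s2]
  nlinarith

section
variable (d0 d1 n0 n1 : Bool → ℝ)

theorem Dd_pos (h : BOk d0 d1 n0 n1) (o : Bool) (t : ℝ) (ht : 0 ≤ t) : 0 < Dd d0 d1 o t := by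
  have := h.pos o
  have h2 := mul_nonneg ht (h.dn o)
  unfold Dd; linarith

theorem Ps_Pa (h : BOk d0 d1 n0 n1) (r t : ℝ) (ht : 0 ≤ t) : Ps d0 d1 n0 n1 r t =
    Pa r (Dd d0 d1 false t) (Dd d0 d1 true t) (Ph d0 d1 n0 n1 false t) (Ph d0 d1 n0 n1 true t) := by
  have h1 := Dd_pos d0 d1 n0 n1 h false t ht
  have h2 := Dd_pos d0 d1 n0 n1 h true t ht
  have e1 : Dd d0 d1 false t * Ph d0 d1 n0 n1 false t = n0 false + t * n1 false := by
    unfold Dd at h1; unfold Dd Ph; field_simp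
  have e2 : Dd d0 d1 true t * Ph d0 d1 n0 n1 true t = n0 true + t * n1 true := by
    unfold Dd at h2; unfold Dd Ph; field_simp
  unfold Pa
  rw [e1, e2]
  rfl

end

theorem Ps_mono (d0 d1 n0 n1 : Bool → ℝ) (h : BOk d0 d1 n0 n1) (r r' t t' : ℝ) (hr' : 0 ≤ r')
    (hr : r' ≤ r) (hr1 : r < 1) (ht : 0 ≤ t) (htt : t ≤ t') (ht1 : t' ≤ 1) :
    Ps d0 d1 n0 n1 r' t' ≤ Ps d0 d1 n0 n1 r t := by
  have ht' : 0 ≤ t' := le_trans ht htt
  have hr0 : 0 ≤ r := le_trans hr' hr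
  have a1 := Dd_pos d0 d1 n0 n1 h false t ht
  have a2 := Dd_pos d0 d1 n0 n1 h true t ht
  have a3 := Dd_pos d0 d1 n0 n1 h false t' ht'
  have a4 := Dd_pos d0 d1 n0 n1 h true t' ht'
  have s1 : Ps d0 d1 n0 n1 r' t' ≤ Ps d0 d1 n0 n1 r t' := by
    rw [Ps_Pa d0 d1 n0 n1 h r' t' ht', Ps_Pa d0 d1 n0 n1 h r t' ht']
    have e := Pa_sub_r_ge r r' _ _ (Ph d0 d1 n0 n1 false t') (Ph d0 d1 n0 n1 true t') hr' hr hr1 a3
      (h.r1 t' ht' ht1) (h.r2 t' ht' ht1) (h.up t' ht' ht1)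
    have : 0 ≤ (r - r') * (Ph d0 d1 n0 n1 true t' - Ph d0 d1 n0 n1 false t') :=
      mul_nonneg (by linarith) (by linarith [h.up t' ht' ht1])
    linarith
  have s2 : Ps d0 d1 n0 n1 r t' ≤ Ps d0 d1 n0 n1 r t := by
    rw [Ps_Pa d0 d1 n0 n1 h r t ht, Ps_Pa d0 d1 n0 n1 h r t' ht']
    have e := Pa_t r _ _ (Ph d0 d1 n0 n1 false t) (Ph d0 d1 n0 n1 true t) _ _
      (Ph d0 d1 n0 n1 false t') (Ph d0 d1 n0 n1 true t') hr0 hr1 a1 a2 a3 a4
      (h.up t ht (le_trans htt ht1)) (h.ra t t' ht htt ht1)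
    have den := Pa_den r _ _ hr0 hr1 a3 a4
    have w1 : 0 ≤ (1 - r) * Dd d0 d1 false t' / ((1 - r) * Dd d0 d1 false t' +
        r * Dd d0 d1 true t') := div_nonneg (mul_nonneg (by linarith) a3.le) den.le
    have w2 : 0 ≤ r * Dd d0 d1 true t' / ((1 - r) * Dd d0 d1 false t' +
        r * Dd d0 d1 true t') := div_nonneg (mul_nonneg hr0 a4.le) den.le
    have f1 := h.an false t t' ht htt ht1
    have f2 := h.an true t t' ht htt ht1
    have g1 := mul_nonneg w1 (sub_nonneg.mpr f1)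
    have g2 := mul_nonneg w2 (sub_nonneg.mpr f2)
    linarith
  exact le_trans s1 s2

/-- quotients of affine functions: comparison of difference quotients. -/
theorem aff_quot (a0 a1 e0 e1 c t t' tm : ℝ) (he0 : 0 < e0) (he1 : 0 ≤ e1) (hee : e1 ≤ e0)
    (ht : 0 ≤ t) (htt : t ≤ t') (htm : t' ≤ tm) (htm1 : tm ≤ 1) (hc : c * tm ≤ t' - t)
    (hc0 : 0 < c)
    (hdec : (a0 + 1 * a1) / (e0 + 1 * e1) ≤ (a0 + 0 * a1) / (e0 + 0 * e1)) :
    c / 4 * ((a0 + 0 * a1) / (e0 + 0 * e1) - (a0 + tm * a1) / (e0 + tm * e1)) ≤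
      (a0 + t * a1) / (e0 + t * e1) - (a0 + t' * a1) / (e0 + t' * e1) := by
  have den : ∀ s : ℝ, 0 ≤ s → e0 ≤ e0 + s * e1 := fun s hs => by nlinarith
  have key : ∀ s s' : ℝ, 0 ≤ s → 0 ≤ s' →
      (a0 + s * a1) / (e0 + s * e1) - (a0 + s' * a1) / (e0 + s' * e1) =
        (s' - s) * (a0 * e1 - a1 * e0) / ((e0 + s * e1) * (e0 + s' * e1)) := by
    intro s s' hs hs'
    have h1 := lt_of_lt_of_le he0 (den s hs)
    have h2 := lt_of_lt_of_le he0 (den s' hs')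
    rw [div_sub_div _ _ h1.ne' h2.ne']
    congr 1
    ring
  have hΔ : 0 ≤ a0 * e1 - a1 * e0 := by
    have h := key 0 1 le_rfl zero_le_one
    have h0 : 0 ≤ (1 - 0) * (a0 * e1 - a1 * e0) / ((e0 + 0 * e1) * (e0 + 1 * e1)) := by
      rw [← h]; linarith
    have hd : 0 < (e0 + 0 * e1) * (e0 + 1 * e1) :=
      mul_pos (lt_of_lt_of_le he0 (den 0 le_rfl)) (lt_of_lt_of_le he0 (den 1 zero_le_one))
    by_contra hneg
    have : (1 - 0) * (a0 * e1 - a1 * e0) / ((e0 + 0 * e1) * (e0 + 1 * e1)) < 0 :=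
      div_neg_of_neg_of_pos (by linarith) hd
    linarith
  have ht' : 0 ≤ t' := le_trans ht htt
  have htm0 : 0 ≤ tm := le_trans ht' htm
  rw [key t t' ht ht', key 0 tm le_rfl htm0]
  have b1 : (e0 + t * e1) * (e0 + t' * e1) ≤ 2 * e0 * (2 * e0) := by
    refine mul_le_mul ?_ ?_ (le_trans he0.le (den t' ht')) (by positivity) <;> nlinarith
  have b1p : 0 < (e0 + t * e1) * (e0 + t' * e1) :=
    mul_pos (lt_of_lt_of_le he0 (den t ht)) (lt_of_lt_of_le he0 (den t' ht'))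
  have b2 : e0 * e0 ≤ (e0 + 0 * e1) * (e0 + tm * e1) :=
    mul_le_mul (den 0 le_rfl) (den tm htm0) he0.le (le_trans he0.le (den 0 le_rfl))
  have c1 : (tm - 0) * (a0 * e1 - a1 * e0) / ((e0 + 0 * e1) * (e0 + tm * e1)) ≤
      tm * (a0 * e1 - a1 * e0) / (e0 * e0) := by
    rw [sub_zero]
    exact div_le_div_of_nonneg_left (mul_nonneg htm0 hΔ) (by positivity) b2
  have c2 : (t' - t) * (a0 * e1 - a1 * e0) / (2 * e0 * (2 * e0)) ≤
      (t' - t) * (a0 * e1 - a1 * e0) / ((e0 + t * e1) * (e0 + t' * e1)) :=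
    div_le_div_of_nonneg_left (mul_nonneg (by linarith) hΔ) b1p b1
  refine le_trans (mul_le_mul_of_nonneg_left c1 (by positivity)) (le_trans ?_ c2)
  have : c / 4 * (tm * (a0 * e1 - a1 * e0) / (e0 * e0)) =
      (c * tm) * (a0 * e1 - a1 * e0) / (2 * e0 * (2 * e0)) := by
    field_simp; ring
  rw [this]
  exact div_le_div_of_nonneg_right (mul_le_mul_of_nonneg_right hc hΔ) (by positivity)

theorem blk_psi (c ρ0 : ℝ) (hc : 0 < c) (hρ : ρ0 < 1) : ∃ κ : ℝ, 0 < κ ∧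
    ∀ d0 d1 n0 n1 : Bool → ℝ, BOk d0 d1 n0 n1 → ∀ rm tm r r' t t' : ℝ, rm ≤ ρ0 → 0 ≤ tm → tm ≤ 1 →
      0 ≤ r' → r' ≤ r → r ≤ rm → 0 ≤ t → t ≤ t' → t' ≤ tm → c * rm ≤ r - r' → c * tm ≤ t' - t →
      κ * Qfo d0 d1 n0 n1 rm tm ≤ Ps d0 d1 n0 n1 r t - Ps d0 d1 n0 n1 r' t' := by
  have hρ1 : 0 < 1 - ρ0 := by linarith
  set M := 2 / c + 4 / c ^ 2 + 8 / (c * (1 - ρ0)) with hM
  have hMp : 0 < M := by positivity
  refine ⟨1 / M, by positivity, ?_⟩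
  intro d0 d1 n0 n1 h rm tm r r' t t' hrm htm0 htm1 hr' hr hrr ht htt htm hcr hct
  have hr0 : 0 ≤ r := le_trans hr' hr
  have hr1 : r < 1 := by linarith
  have hrm0 : 0 ≤ rm := le_trans hr0 hrr
  have ht' : 0 ≤ t' := le_trans ht htt
  have ht1 : t' ≤ 1 := le_trans htm htm1
  have htt1 : t ≤ 1 := le_trans htt ht1
  set Γ := Ps d0 d1 n0 n1 r t - Ps d0 d1 n0 n1 r' t' with hΓ
  set X := Ph d0 d1 n0 n1 true 0 - Ph d0 d1 n0 n1 false 0 with hX
  set W := Ph d0 d1 n0 n1 false 0 - Ph d0 d1 n0 n1 false tm with hW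
  set T := Ph d0 d1 n0 n1 true 0 - Ph d0 d1 n0 n1 true tm with hT
  have hQ : Qfo d0 d1 n0 n1 rm tm = rm * X + W := rfl
  have hW0 : 0 ≤ W := by
    have := h.an false 0 tm le_rfl htm0 htm1; linarith
  have hT0 : 0 ≤ T := by
    have := h.an true 0 tm le_rfl htm0 htm1; linarith
  have hΓ0 : 0 ≤ Γ := by
    have := Ps_mono d0 d1 n0 n1 h r r' t t' hr' hr hr1 ht htt ht1
    linarith
  have hcrm : c * rm ≤ r := by linarith
  -- (i)
  have k1 : c / 4 * (Ps d0 d1 n0 n1 r 0 - Ps d0 d1 n0 n1 r tm) ≤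
      Ps d0 d1 n0 n1 r t - Ps d0 d1 n0 n1 r t' := by
    have e : ∀ s : ℝ, Ps d0 d1 n0 n1 r s =
        (((1 - r) * n0 false + r * n0 true) + s * ((1 - r) * n1 false + r * n1 true)) /
        (((1 - r) * d0 false + r * d0 true) + s * ((1 - r) * d1 false + r * d1 true)) := by
      intro s
      unfold Ps
      congr 1 <;> ring
    have hdec := Ps_mono d0 d1 n0 n1 h r r 0 1 hr0 le_rfl hr1 le_rfl zero_le_one le_rfl
    rw [e 0, e 1] at hdec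
    rw [e 0, e tm, e t, e t']
    have p0 := h.pos false
    have p1 := h.pos true
    have q0 := h.dn false
    have q1 := h.dn true
    have l0 := h.dl false
    have l1 := h.dl true
    have r1' : 0 ≤ 1 - r := by linarith
    refine aff_quot _ _ _ _ c t t' tm ?_ ?_ ?_ ht htt htm htm1 hct hc hdec
    · have := mul_pos (show (0 : ℝ) < 1 - r by linarith) p0
      have := mul_nonneg hr0 p1.le
      linarith
    · have := mul_nonneg r1' q0
      have := mul_nonneg hr0 q1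
      linarith
    · have := mul_le_mul_of_nonneg_left l0 r1'
      have := mul_le_mul_of_nonneg_left l1 hr0
      linarith
  have k2 : (1 - ρ0) / 2 * W + c * rm * T ≤ Ps d0 d1 n0 n1 r 0 - Ps d0 d1 n0 n1 r tm := by
    rw [Ps_Pa d0 d1 n0 n1 h r 0 le_rfl, Ps_Pa d0 d1 n0 n1 h r tm htm0]
    have e := Pa_t r _ _ (Ph d0 d1 n0 n1 false 0) (Ph d0 d1 n0 n1 true 0) _ _
      (Ph d0 d1 n0 n1 false tm) (Ph d0 d1 n0 n1 true tm) hr0 hr1
      (Dd_pos d0 d1 n0 n1 h false 0 le_rfl) (Dd_pos d0 d1 n0 n1 h true 0 le_rfl)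
      (Dd_pos d0 d1 n0 n1 h false tm htm0) (Dd_pos d0 d1 n0 n1 h true tm htm0)
      (h.up 0 le_rfl zero_le_one) (h.ra 0 tm le_rfl htm0 htm1)
    obtain ⟨-, w2, w3⟩ := Pa_w r _ _ hr0 hr1 (Dd_pos d0 d1 n0 n1 h false tm htm0)
      (h.r1 tm htm0 htm1) (h.r2 tm htm0 htm1)
    refine le_trans ?_ e
    refine add_le_add ?_ ?_
    · exact mul_le_mul_of_nonneg_right (by linarith) hW0
    · exact mul_le_mul_of_nonneg_right (by linarith) hT0
  have k3 : Ps d0 d1 n0 n1 r t - Ps d0 d1 n0 n1 r t' ≤ Γ := by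
    have := Ps_mono d0 d1 n0 n1 h r r' t' t' hr' hr hr1 ht' le_rfl ht1
    linarith
  have hk : c / 4 * ((1 - ρ0) / 2 * W + c * rm * T) ≤ Γ :=
    le_trans (mul_le_mul_of_nonneg_left k2 (by positivity)) (le_trans k1 k3)
  have hcT : 0 ≤ c * rm * T := mul_nonneg (mul_nonneg hc.le hrm0) hT0
  have hWr : 0 ≤ (1 - ρ0) / 2 * W := mul_nonneg (by linarith) hW0
  have i1 : c * (1 - ρ0) / 8 * W ≤ Γ := by
    have : c / 4 * ((1 - ρ0) / 2 * W) ≤ c / 4 * ((1 - ρ0) / 2 * W + c * rm * T) :=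
      mul_le_mul_of_nonneg_left (by linarith) (by positivity)
    calc c * (1 - ρ0) / 8 * W = c / 4 * ((1 - ρ0) / 2 * W) := by ring
      _ ≤ _ := le_trans this hk
  have i2 : c ^ 2 / 4 * (rm * T) ≤ Γ := by
    have : c / 4 * (c * rm * T) ≤ c / 4 * ((1 - ρ0) / 2 * W + c * rm * T) :=
      mul_le_mul_of_nonneg_left (by linarith) (by positivity)
    calc c ^ 2 / 4 * (rm * T) = c / 4 * (c * rm * T) := by ring
      _ ≤ _ := le_trans this hk
  -- (ii)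
  have i3 : c / 2 * (rm * (X - T)) ≤ Γ := by
    rcases le_total (X - T) 0 with hneg | hpos
    · have : c / 2 * (rm * (X - T)) ≤ 0 :=
        mul_nonpos_of_nonneg_of_nonpos (by positivity) (mul_nonpos_of_nonneg_of_nonpos hrm0 hneg)
      linarith
    · have e := Pa_sub_r_ge r r' _ _ (Ph d0 d1 n0 n1 false t) (Ph d0 d1 n0 n1 true t) hr' hr hr1
        (Dd_pos d0 d1 n0 n1 h false t ht) (h.r1 t ht htt1) (h.r2 t ht htt1) (h.up t ht htt1)
      rw [← Ps_Pa d0 d1 n0 n1 h r t ht, ← Ps_Pa d0 d1 n0 n1 h r' t ht] at e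
      have g1 : Ps d0 d1 n0 n1 r' t' ≤ Ps d0 d1 n0 n1 r' t :=
        Ps_mono d0 d1 n0 n1 h r' r' t t' hr' le_rfl (lt_of_le_of_lt hr hr1) ht htt ht1
      have g2 : X - T ≤ Ph d0 d1 n0 n1 true t - Ph d0 d1 n0 n1 false t := by
        have a1 := h.an true t tm ht (le_trans htt htm) htm1
        have a2 := h.an false 0 t le_rfl ht htt1
        linarith
      have g3 : c * rm * (X - T) ≤ (r - r') * (Ph d0 d1 n0 n1 true t - Ph d0 d1 n0 n1 false t) :=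
        mul_le_mul hcr g2 hpos (by linarith)
      nlinarith
  -- conclusion
  have f1 : W ≤ 8 / (c * (1 - ρ0)) * Γ := by
    rw [div_mul_eq_mul_div, le_div_iff₀ (by positivity)]
    nlinarith
  have f2 : rm * T ≤ 4 / c ^ 2 * Γ := by
    rw [div_mul_eq_mul_div, le_div_iff₀ (by positivity)]
    nlinarith
  have f3 : rm * (X - T) ≤ 2 / c * Γ := by
    rw [div_mul_eq_mul_div, le_div_iff₀ (by positivity)]
    nlinarith
  rw [hQ, one_div, inv_mul_le_iff₀ hMp, hM]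
  nlinarith

end H82.BX
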