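import Pool.Agent.H82.BX.Defs

/-!
# BL3: hyperbolic tangent estimates for one chain

`chr b x y u v = tanh(b x u) tanh(b u v) tanh(b v y)` for `x, y, u, v ∈ [0,1]`, increasing in `u` and `v`.
Upper bound `chr ≤ tanh(b x) tanh(b) tanh(b y)`.
Difference for `u ≥ 4/5`, `u' ≤ 3/5`, `v ≥ 1/3`: `≥ [tanh(b x u) - tanh(b x u')] tanh(b u v) tanh(b v y)`, with
`tanh(b x u) - tanh(b x u') ≥ b x (u - u')/cosh(b)^2 ≥ tanh(b x)/(5 cosh(b)^2)` (mean value theorem, `tanh a ≤ a`),
`tanh(b u v) ≥ tanh(4 b/15)`, `tanh(b v y) ≥ v tanh(b y) ≥ tanh(b y)/3` (concavity of `tanh` on `[0,∞)`).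
So `c = tanh(4b/15)/(15 cosh(b)^2)` (note `tanh b ≤ 1`).
-/

set_option autoImplicit false

open Finset MeasureTheory

namespace H82.BX

theorem bl3_sub (x y : ℝ) :
    Real.tanh x - Real.tanh y = Real.sinh (x - y) / (Real.cosh x * Real.cosh y) := by
  have hx := (Real.cosh_pos x).ne'
  have hy := (Real.cosh_pos y).ne'
  rw [Real.tanh_eq_sinh_div_cosh, Real.tanh_eq_sinh_div_cosh, Real.sinh_sub]
  field_simp

theorem bl3_mono {x y : ℝ} (h : x ≤ y) : Real.tanh x ≤ Real.tanh y := by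
  have h1 := bl3_sub y x
  have h2 : 0 ≤ Real.sinh (y - x) / (Real.cosh y * Real.cosh x) :=
    div_nonneg (Real.sinh_nonneg_iff.2 (by linarith))
      (mul_pos (Real.cosh_pos _) (Real.cosh_pos _)).le
  linarith

theorem bl3_nonneg {x : ℝ} (h : 0 ≤ x) : 0 ≤ Real.tanh x := by
  have := bl3_mono h
  rwa [Real.tanh_zero] at this

theorem bl3_low {x y B : ℝ} (h0 : 0 ≤ y) (h : y ≤ x) (hB : x ≤ B) :
    (x - y) / Real.cosh B ^ 2 ≤ Real.tanh x - Real.tanh y := by
  rw [bl3_sub]
  have h1 : x - y ≤ Real.sinh (x - y) := Real.self_le_sinh_iff.2 (by linarith)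
  have h2 : Real.cosh x ≤ Real.cosh B := by
    rw [Real.cosh_le_cosh, abs_of_nonneg (h0.trans h), abs_of_nonneg (h0.trans (h.trans hB))]
    exact hB
  have h3 : Real.cosh y ≤ Real.cosh B := by
    rw [Real.cosh_le_cosh, abs_of_nonneg h0, abs_of_nonneg (h0.trans (h.trans hB))]
    exact h.trans hB
  have h4 := Real.cosh_pos x
  have h5 := Real.cosh_pos y
  have h6 : Real.cosh x * Real.cosh y ≤ Real.cosh B ^ 2 := by
    rw [sq]; exact mul_le_mul h2 h3 h5.le (h4.le.trans h2)
  exact div_le_div₀ (by linarith) h1 (by positivity) h6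

theorem bl3_le {x : ℝ} (h : 0 ≤ x) : Real.tanh x ≤ x := by
  have hmono : MonotoneOn (fun t : ℝ => t * Real.cosh t - Real.sinh t) (Set.Ici 0) := by
    have hd : ∀ t : ℝ, HasDerivAt (fun t : ℝ => t * Real.cosh t - Real.sinh t)
        (t * Real.sinh t) t := by
      intro t
      have h1 : HasDerivAt (fun t : ℝ => t * Real.cosh t - Real.sinh t)
          (1 * Real.cosh t + t * Real.sinh t - Real.cosh t) t :=
        ((hasDerivAt_id t).mul (Real.hasDerivAt_cosh t)).sub (Real.hasDerivAt_sinh t)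
      have h2 : t * Real.sinh t = 1 * Real.cosh t + t * Real.sinh t - Real.cosh t := by ring
      rw [h2]
      exact h1
    refine monotoneOn_of_deriv_nonneg (convex_Ici 0)
      (fun t _ => (hd t).continuousAt.continuousWithinAt)
      (fun t _ => (hd t).differentiableAt.differentiableWithinAt) fun t ht => ?_
    rw [(hd t).deriv]
    rw [interior_Ici] at ht
    exact mul_nonneg (le_of_lt ht) (Real.sinh_nonneg_iff.2 (le_of_lt ht))
  have h1 := hmono (Set.mem_Ici.2 le_rfl) (Set.mem_Ici.2 h) h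
  simp only [zero_mul, Real.sinh_zero, sub_zero] at h1
  rw [Real.tanh_eq_sinh_div_cosh, div_le_iff₀ (Real.cosh_pos x)]
  linarith

theorem bl3_sinh {l t : ℝ} (hl : 0 ≤ l) (hl1 : l ≤ 1) (ht : 0 ≤ t) :
    Real.sinh (l * t) ≤ l * Real.sinh t := by
  have hmono : MonotoneOn (fun t : ℝ => l * Real.sinh t - Real.sinh (l * t)) (Set.Ici 0) := by
    have hd : ∀ t : ℝ, HasDerivAt (fun t : ℝ => l * Real.sinh t - Real.sinh (l * t))
        (l * Real.cosh t - Real.cosh (l * t) * l) t := by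
      intro t
      have h2 : HasDerivAt (fun t : ℝ => l * t) l t := by
        simpa using (hasDerivAt_id t).const_mul l
      exact ((Real.hasDerivAt_sinh t).const_mul l).sub h2.sinh
    refine monotoneOn_of_deriv_nonneg (convex_Ici 0)
      (fun t _ => (hd t).continuousAt.continuousWithinAt)
      (fun t _ => (hd t).differentiableAt.differentiableWithinAt) fun t ht => ?_
    rw [(hd t).deriv]
    rw [interior_Ici] at ht
    have ht' : 0 ≤ t := le_of_lt ht
    have h3 : Real.cosh (l * t) ≤ Real.cosh t := by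
      rw [Real.cosh_le_cosh, abs_of_nonneg (mul_nonneg hl ht'), abs_of_nonneg ht']
      nlinarith
    nlinarith
  have h1 := hmono (Set.mem_Ici.2 le_rfl) (Set.mem_Ici.2 ht) ht
  simp only [mul_zero, Real.sinh_zero, sub_zero] at h1
  linarith

theorem bl3_conc {v w : ℝ} (hv : 0 ≤ v) (hv1 : v ≤ 1) (hw : 0 ≤ w) :
    v * Real.tanh w ≤ Real.tanh (v * w) := by
  have hx := Real.cosh_pos w
  have hy := Real.cosh_pos (v * w)
  have e1 : Real.sinh ((1 + v) * w) =
      Real.sinh w * Real.cosh (v * w) + Real.cosh w * Real.sinh (v * w) := by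
    rw [← Real.sinh_add]; congr 1; ring
  have e2 : Real.sinh ((1 - v) * w) =
      Real.sinh w * Real.cosh (v * w) - Real.cosh w * Real.sinh (v * w) := by
    rw [← Real.sinh_sub]; congr 1; ring
  have hp : 0 < 1 + v := by linarith
  have h3 := bl3_sinh (l := (1 - v) / (1 + v)) (t := (1 + v) * w)
    (div_nonneg (by linarith) hp.le) (by rw [div_le_one hp]; linarith) (by positivity)
  have h4 : (1 - v) / (1 + v) * ((1 + v) * w) = (1 - v) * w := by
    field_simp
  rw [h4, div_mul_eq_mul_div, le_div_iff₀ hp, e1, e2] at h3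
  rw [Real.tanh_eq_sinh_div_cosh, Real.tanh_eq_sinh_div_cosh, mul_div_assoc',
    div_le_div_iff₀ hx hy]
  nlinarith

noncomputable def chr (b x y u v : ℝ) : ℝ :=
  Real.tanh (b * (x * u)) * Real.tanh (b * (u * v)) * Real.tanh (b * (v * y))

/-- maximum of `chr` over `u, v`. -/
noncomputable def chm (b x y : ℝ) : ℝ := Real.tanh (b * x) * Real.tanh b * Real.tanh (b * y)

theorem chr_mono (b x y u v u' v' : ℝ) (hb : 0 ≤ b) (hx : 0 ≤ x) (hy : 0 ≤ y) (hu : 0 ≤ u)
    (hv : 0 ≤ v) (huu : u ≤ u') (hvv : v ≤ v') : chr b x y u v ≤ chr b x y u' v' := by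
  have hu' := hu.trans huu
  have hv' := hv.trans hvv
  have h1 : Real.tanh (b * (x * u)) ≤ Real.tanh (b * (x * u')) :=
    bl3_mono (mul_le_mul_of_nonneg_left (mul_le_mul_of_nonneg_left huu hx) hb)
  have h2 : Real.tanh (b * (u * v)) ≤ Real.tanh (b * (u' * v')) :=
    bl3_mono (mul_le_mul_of_nonneg_left (mul_le_mul huu hvv hv hu') hb)
  have h3 : Real.tanh (b * (v * y)) ≤ Real.tanh (b * (v' * y)) :=
    bl3_mono (mul_le_mul_of_nonneg_left (mul_le_mul_of_nonneg_right hvv hy) hb)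
  have p1 : 0 ≤ Real.tanh (b * (x * u)) := bl3_nonneg (by positivity)
  have p2 : 0 ≤ Real.tanh (b * (u * v)) := bl3_nonneg (by positivity)
  have p3 : 0 ≤ Real.tanh (b * (v * y)) := bl3_nonneg (by positivity)
  exact mul_le_mul (mul_le_mul h1 h2 p2 (p1.trans h1)) h3 p3
    (mul_nonneg (p1.trans h1) (p2.trans h2))

theorem chr_le (b x y u v : ℝ) (hb : 0 ≤ b) (hx : 0 ≤ x) (hx1 : x ≤ 1) (hy : 0 ≤ y) (hy1 : y ≤ 1)
    (hu : 0 ≤ u) (hu1 : u ≤ 1) (hv : 0 ≤ v) (hv1 : v ≤ 1) :
    0 ≤ chr b x y u v ∧ chr b x y u v ≤ chm b x y ∧ chm b x y ≤ Real.tanh b := by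
  have p1 : 0 ≤ Real.tanh (b * (x * u)) := bl3_nonneg (by positivity)
  have p2 : 0 ≤ Real.tanh (b * (u * v)) := bl3_nonneg (by positivity)
  have p3 : 0 ≤ Real.tanh (b * (v * y)) := bl3_nonneg (by positivity)
  refine ⟨mul_nonneg (mul_nonneg p1 p2) p3, ?_, ?_⟩
  · have := chr_mono b x y u v 1 1 hb hx hy hu hv hu1 hv1
    simpa [chr, chm] using this
  · have q1 : 0 ≤ Real.tanh (b * x) := bl3_nonneg (by positivity)
    have q2 : 0 ≤ Real.tanh b := bl3_nonneg hb
    have q3 : 0 ≤ Real.tanh (b * y) := bl3_nonneg (by positivity)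
    have r1 := (Real.tanh_lt_one (b * x)).le
    have r3 := (Real.tanh_lt_one (b * y)).le
    unfold chm
    calc Real.tanh (b * x) * Real.tanh b * Real.tanh (b * y)
        ≤ 1 * Real.tanh b * 1 :=
          mul_le_mul (mul_le_mul_of_nonneg_right r1 q2) r3 q3 (by positivity)
      _ = Real.tanh b := by ring

theorem chr_diff (b : ℝ) (hb : 0 < b) : ∃ c : ℝ, 0 < c ∧ ∀ x y u u' v : ℝ, 0 ≤ x → x ≤ 1 → 0 ≤ y →
    y ≤ 1 → 4 / 5 ≤ u → u ≤ 1 → 0 ≤ u' → u' ≤ 3 / 5 → 1 / 3 ≤ v → v ≤ 1 →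
    c * chm b x y ≤ chr b x y u v - chr b x y u' v := by
  have hC := Real.cosh_pos b
  have ht0 : 0 < Real.tanh (4 * b / 15) := by
    rw [Real.tanh_eq_sinh_div_cosh]
    exact div_pos (Real.sinh_pos_iff.2 (by positivity)) (Real.cosh_pos _)
  refine ⟨Real.tanh (4 * b / 15) / (15 * Real.cosh b ^ 2), by positivity, ?_⟩
  intro x y u u' v hx hx1 hy hy1 hu hu1 hu' hu'1 hv hv1
  have hu0 : 0 ≤ u := by linarith
  have hv0 : 0 ≤ v := by linarith
  have hP' : 0 ≤ Real.tanh (b * (x * u')) := bl3_nonneg (by positivity)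
  have hQ' : Real.tanh (b * (u' * v)) ≤ Real.tanh (b * (u * v)) :=
    bl3_mono (mul_le_mul_of_nonneg_left (mul_le_mul_of_nonneg_right (by linarith) hv0) hb.le)
  have hR0 : 0 ≤ Real.tanh (b * (v * y)) := bl3_nonneg (by positivity)
  have hQ : Real.tanh (4 * b / 15) ≤ Real.tanh (b * (u * v)) := by
    refine bl3_mono ?_
    have : 4 / 15 ≤ u * v := by nlinarith
    nlinarith
  have hR : Real.tanh (b * y) / 3 ≤ Real.tanh (b * (v * y)) := by
    have h1 := bl3_conc (v := v) (w := b * y) hv0 hv1 (by positivity)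
    have h2 : v * (b * y) = b * (v * y) := by ring
    rw [h2] at h1
    have h3 : 0 ≤ Real.tanh (b * y) := bl3_nonneg (by positivity)
    nlinarith
  have hP : Real.tanh (b * x) / (5 * Real.cosh b ^ 2) ≤
      Real.tanh (b * (x * u)) - Real.tanh (b * (x * u')) := by
    have h1 := bl3_low (x := b * (x * u)) (y := b * (x * u')) (B := b) (by positivity)
      (mul_le_mul_of_nonneg_left (mul_le_mul_of_nonneg_left (by linarith) hx) hb.le)
      (by
        have : x * u ≤ 1 := by nlinarith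
        nlinarith)
    refine le_trans ?_ h1
    have h2 := bl3_le (x := b * x) (by positivity)
    rw [div_le_div_iff₀ (by positivity) (by positivity)]
    have h4 : Real.tanh (b * x) ≤ 5 * (b * (x * u) - b * (x * u')) := by
      have h5 : 0 ≤ b * x := by positivity
      nlinarith
    have h6 : 0 ≤ Real.cosh b ^ 2 := by positivity
    nlinarith [mul_le_mul_of_nonneg_right h4 h6]
  have hA0 : 0 ≤ Real.tanh (b * x) := bl3_nonneg (by positivity)
  have hB0 : 0 ≤ Real.tanh (b * y) := bl3_nonneg (by positivity)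
  have hQ0 : 0 ≤ Real.tanh (b * (u * v)) := ht0.le.trans hQ
  have hPP : 0 ≤ Real.tanh (b * (x * u)) - Real.tanh (b * (x * u')) :=
    le_trans (by positivity) hP
  have hb1 := (Real.tanh_lt_one b).le
  have hb0 : 0 ≤ Real.tanh b := bl3_nonneg hb.le
  calc Real.tanh (4 * b / 15) / (15 * Real.cosh b ^ 2) * chm b x y
      = (Real.tanh (b * x) / (5 * Real.cosh b ^ 2)) * Real.tanh (4 * b / 15) *
          (Real.tanh (b * y) / 3) * Real.tanh b := by
        unfold chm
        field_simp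
        ring
    _ ≤ (Real.tanh (b * x) / (5 * Real.cosh b ^ 2)) * Real.tanh (4 * b / 15) *
          (Real.tanh (b * y) / 3) * 1 := by
        refine mul_le_mul_of_nonneg_left hb1 (by positivity)
    _ = (Real.tanh (b * x) / (5 * Real.cosh b ^ 2)) * Real.tanh (4 * b / 15) *
          (Real.tanh (b * y) / 3) := by ring
    _ ≤ (Real.tanh (b * (x * u)) - Real.tanh (b * (x * u'))) * Real.tanh (b * (u * v)) *
          Real.tanh (b * (v * y)) := by
        refine mul_le_mul (mul_le_mul hP hQ ht0.le hPP) hR (by positivity) (by positivity)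
    _ ≤ chr b x y u v - chr b x y u' v := by
        unfold chr
        have : 0 ≤ Real.tanh (b * (x * u')) *
            (Real.tanh (b * (u * v)) - Real.tanh (b * (u' * v))) * Real.tanh (b * (v * y)) :=
          mul_nonneg (mul_nonneg hP' (by linarith)) hR0
        nlinarith

end H82.BX
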