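import Pool.Agent.H82.BX.GI8
import Pool.Agent.H82.BX.BL2

/-!
# BP1: the conditional law of a block

Fix an admissible set `S`, a configuration `x`, an edge `e` whose ends are in `S` and whose chain is not
(`z_e, m_e ∉ S`, so the bit is not in `S` either), and `f` a function of the bits only.  `A = sA S`, `B = sB S`,
`bD o t = SB A (insert e B) (tt(x)[e := t]) (pc x) (po x)[e := o] 1`, `bN o t` the same sum of `f`.
`bx1`: for `x' = x` with `z_e := ζ`, `m_e := μ`, bit `:= o`, the conditional expectation given `S ∪ {z_e, m_e, bit}` is `bN o t/bD o t` with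
`t = tt (pc x') e`: `ce_EB` for the larger set; in `WB` with `e` frozen the moduli `c z_e, c m_e` appear only in `wv`, so
fixing them or summing over them gives the same quotient; the other frozen `tB e'` are those of `x`.
`bx2`: `cs (S ∪ {z_e, m_e, bit}) x' mW = C · nu ζ e^{l cc²ζ} nu μ AA (rr or 1 - rr) bD o t`, `C > 0` not depending on `(ζ, μ, o)`:
`W = WB(insert e B) · ∏_{e' ∈ insert e B} AA (rr or 1-rr)`.
-/

set_option autoImplicit false

open Finset MeasureTheory

namespace H82.BX

open H82.IC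

variable {V E : Type} [Fintype V] [DecidableEq V] [Fintype E] [DecidableEq E]

/-- block of an edge. -/
def blk (e : E) : Finset (SV V E ⊕ E) :=
  {Sum.inl (Sum.inr (e, false)), Sum.inl (Sum.inr (e, true)), Sum.inr e}

/-- `x` with the block of `e` set to `(ζ, μ, o)`. -/
def xb {k : ℕ} (x : ∀ i, XI k V E i) (e : E) (ζ μ : Fin (k + 1)) (o : Bool) : ∀ i, XI k V E i :=
  mkx (Function.update (Function.update (pc x) (Sum.inr (e, false)) ζ) (Sum.inr (e, true)) μ)
    (Function.update (po x) e o)

noncomputable def bN (G : Gr V E) (M : Al) (b l : ℝ) (S : Finset (SV V E ⊕ E)) (x : ∀ i, XI M.k V E i)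
    (e : E) (f : (E → Bool) → ℝ) (o : Bool) (t : ℝ) : ℝ :=
  SB G M b l (sA S) (insert e (sB S)) (Function.update (tt G M b (pc x)) e t) (pc x)
    (Function.update (po x) e o) (fun _ o' => f o')


/-! ### auxiliary lemmas -/

theorem bp1_loc (G : Gr V E) (M : Al) (b : ℝ) (c c' : SV V E → Fin (M.k + 1)) (e : E)
    (h : ∀ j : Fin 3, c ((LK G).s (e, j)) = c' ((LK G).s (e, j)) ∧
      c ((LK G).r (e, j)) = c' ((LK G).r (e, j))) :
    AA G M b c e = AA G M b c' e ∧ rr G M b c e = rr G M b c' e ∧ tt G M b c e = tt G M b c' e := by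
  have ha : ∀ j : Fin 3, la G M b c (e, j) = la G M b c' (e, j) := fun j => by
    unfold la; rw [(h j).1, (h j).2]
  have hb' : ∀ j : Fin 3, lb G M b c (e, j) = lb G M b c' (e, j) := fun j => by
    unfold lb; rw [(h j).1, (h j).2]
  refine ⟨?_, ?_, ?_⟩
  · unfold AA
    exact Finset.prod_congr rfl fun j _ => by rw [ha j, hb' j]
  · unfold rr
    exact Finset.prod_congr rfl fun j _ => by rw [ha j]
  · unfold tt
    exact Finset.prod_congr rfl fun j _ => by rw [hb' j]

theorem bp1_loc2 (G : Gr V E) (M : Al) (b : ℝ) (c c' : SV V E → Fin (M.k + 1)) (e : E)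
    (h1 : c (Sum.inl (G.s e)) = c' (Sum.inl (G.s e))) (h2 : c (Sum.inl (G.r e)) = c' (Sum.inl (G.r e)))
    (h3 : c (Sum.inr (e, false)) = c' (Sum.inr (e, false)))
    (h4 : c (Sum.inr (e, true)) = c' (Sum.inr (e, true))) :
    AA G M b c e = AA G M b c' e ∧ rr G M b c e = rr G M b c' e ∧ tt G M b c e = tt G M b c' e := by
  refine bp1_loc G M b c c' e (fun j => ?_)
  fin_cases j
  · exact ⟨h1, h3⟩
  · exact ⟨h3, h4⟩
  · exact ⟨h4, h2⟩

/-- weight of a modulus. -/
noncomputable def hw (M : Al) (l : ℝ) (w : SV V E) (ζ : Fin (M.k + 1)) : ℝ :=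
  M.nu ζ * Real.exp (l * pn w * M.cc ζ ^ 2)

theorem bp1_wv (M : Al) (l : ℝ) (c : SV V E → Fin (M.k + 1)) (w : SV V E) (ζ : Fin (M.k + 1)) :
    wv M l (Function.update c w ζ) * hw M l w (c w) = wv M l c * hw M l w ζ := by
  have h1 : ∀ c' : SV V E → Fin (M.k + 1), wv M l c' =
      hw M l w (c' w) * ∏ v ∈ univ.erase w, hw M l v (c' v) := by
    intro c'
    unfold wv
    rw [← Finset.mul_prod_erase univ _ (Finset.mem_univ w)]
    rfl
  rw [h1 (Function.update c w ζ), h1 c, Function.update_self]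
  have h2 : ∏ v ∈ univ.erase w, hw M l v (Function.update c w ζ v) =
      ∏ v ∈ univ.erase w, hw M l v (c v) := by
    refine Finset.prod_congr rfl fun v hv => ?_
    rw [Function.update_of_ne (Finset.ne_of_mem_erase hv)]
  rw [h2]
  ring

theorem bp1_key {k : ℕ} (w : SV V E) (A : Finset (SV V E)) (hw0 : w ∉ A) (h : Fin (k + 1) → ℝ)
    (F : (SV V E → Fin (k + 1)) → ℝ)
    (hF : ∀ c ζ, F (Function.update c w ζ) * h (c w) = F c * h ζ) (c0 : SV V E → Fin (k + 1))
    (ζ : Fin (k + 1)) :
    (∑ c, if (∀ v ∈ A, c v = c0 v) then F c else 0) * h ζ =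
      (∑ ζ', h ζ') * ∑ c, if (∀ v ∈ insert w A, c v = Function.update c0 w ζ v) then F c else 0 := by
  have hT : ∀ ζ' : Fin (k + 1),
      (∑ c, if (∀ v ∈ insert w A, c v = Function.update c0 w ζ' v) then F c else 0) * h ζ =
      (∑ c, if (∀ v ∈ insert w A, c v = Function.update c0 w ζ v) then F c else 0) * h ζ' := by
    intro ζ'
    rw [Finset.sum_mul, Finset.sum_mul, ← Finset.sum_filter_add_sum_filter_not univ
      (fun c : SV V E → Fin (k + 1) => ∀ v ∈ insert w A, c v = Function.update c0 w ζ' v)]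
    rw [← Finset.sum_filter_add_sum_filter_not univ
      (fun c : SV V E → Fin (k + 1) => ∀ v ∈ insert w A, c v = Function.update c0 w ζ v)
      (fun c => (if (∀ v ∈ insert w A, c v = Function.update c0 w ζ v) then F c else 0) * h ζ')]
    have z1 : (∑ c ∈ univ.filter (fun c : SV V E → Fin (k + 1) =>
        ¬ ∀ v ∈ insert w A, c v = Function.update c0 w ζ' v),
        (if (∀ v ∈ insert w A, c v = Function.update c0 w ζ' v) then F c else 0) * h ζ) = 0 := by
      refine Finset.sum_eq_zero fun c hc => ?_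
      rw [if_neg (Finset.mem_filter.1 hc).2, zero_mul]
    have z2 : (∑ c ∈ univ.filter (fun c : SV V E → Fin (k + 1) =>
        ¬ ∀ v ∈ insert w A, c v = Function.update c0 w ζ v),
        (if (∀ v ∈ insert w A, c v = Function.update c0 w ζ v) then F c else 0) * h ζ') = 0 := by
      refine Finset.sum_eq_zero fun c hc => ?_
      rw [if_neg (Finset.mem_filter.1 hc).2, zero_mul]
    rw [z1, z2, add_zero, add_zero]
    refine Finset.sum_nbij' (fun c => Function.update c w ζ) (fun c => Function.update c w ζ')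
      ?_ ?_ ?_ ?_ ?_
    · intro c hc
      rw [Finset.mem_filter] at hc ⊢
      refine ⟨Finset.mem_univ _, (os1_cond (X := fun _ => Fin (k + 1)) A c0 _ w hw0 ζ).2 ?_⟩
      have h1 := (os1_cond (X := fun _ => Fin (k + 1)) A c0 c w hw0 ζ').1 hc.2
      refine ⟨Function.update_self _ _ _, fun j hj => ?_⟩
      rw [Function.update_of_ne (fun e : j = w => hw0 (e ▸ hj))]
      exact h1.2 j hj
    · intro c hc
      rw [Finset.mem_filter] at hc ⊢
      refine ⟨Finset.mem_univ _, (os1_cond (X := fun _ => Fin (k + 1)) A c0 _ w hw0 ζ').2 ?_⟩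
      have h1 := (os1_cond (X := fun _ => Fin (k + 1)) A c0 c w hw0 ζ).1 hc.2
      refine ⟨Function.update_self _ _ _, fun j hj => ?_⟩
      rw [Function.update_of_ne (fun e : j = w => hw0 (e ▸ hj))]
      exact h1.2 j hj
    · intro c hc
      have h1 := (os1_cond (X := fun _ => Fin (k + 1)) A c0 c w hw0 ζ').1 (Finset.mem_filter.1 hc).2
      show Function.update (Function.update c w ζ) w ζ' = c
      rw [Function.update_idem, ← h1.1, Function.update_eq_self]
    · intro c hc
      have h1 := (os1_cond (X := fun _ => Fin (k + 1)) A c0 c w hw0 ζ).1 (Finset.mem_filter.1 hc).2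
      show Function.update (Function.update c w ζ') w ζ = c
      rw [Function.update_idem, ← h1.1, Function.update_eq_self]
    · intro c hc
      have h1 := (os1_cond (X := fun _ => Fin (k + 1)) A c0 c w hw0 ζ').1 (Finset.mem_filter.1 hc).2
      have h2 : ∀ v ∈ insert w A, Function.update c w ζ v = Function.update c0 w ζ v := by
        refine (os1_cond (X := fun _ => Fin (k + 1)) A c0 _ w hw0 ζ).2 ⟨Function.update_self _ _ _, fun j hj => ?_⟩
        rw [Function.update_of_ne (fun e : j = w => hw0 (e ▸ hj))]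
        exact h1.2 j hj
      rw [if_pos (Finset.mem_filter.1 hc).2, if_pos h2]
      have h3 := hF c ζ
      rw [h1.1] at h3
      exact h3.symm
  have hs : (∑ c, if (∀ v ∈ A, c v = c0 v) then F c else 0) =
      ∑ ζ', ∑ c, if (∀ v ∈ insert w A, c v = Function.update c0 w ζ' v) then F c else 0 := by
    have := cs_split (X := fun _ : SV V E => Fin (k + 1)) A c0 w hw0 F
    unfold cs at this
    exact this
  rw [hs, Finset.sum_mul, Finset.sum_congr rfl (fun ζ' _ => hT ζ'), ← Finset.mul_sum]
  ring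

theorem bp1_adm (G : Gr V E) (S : Finset (SV V E ⊕ E)) (hS : Adm G S) (e : E)
    (hs : Sum.inl (Sum.inl (G.s e)) ∈ S) (hr : Sum.inl (Sum.inl (G.r e)) ∈ S) :
    Adm G (S ∪ blk e) := by
  have hb : ∀ y : SV V E ⊕ E, y ∈ blk (V := V) e ↔ y = Sum.inl (Sum.inr (e, false)) ∨
      y = Sum.inl (Sum.inr (e, true)) ∨ y = Sum.inr e := by
    intro y; unfold blk; simp
  refine ⟨?_, ?_, ?_⟩
  · intro e' he'
    rw [Finset.mem_union, hb] at he' ⊢
    rcases he' with h | h | h | h
    · exact Or.inl (hS.bit e' h)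
    · cases h
    · cases h
    · cases h
      exact Or.inr (Or.inr (Or.inl rfl))
  · intro e' he'
    rw [Finset.mem_union, hb] at he' ⊢
    rcases he' with h | h | h | h
    · exact Or.inl (hS.mm e' h)
    · cases h
    · cases h
      exact Or.inr (Or.inl rfl)
    · cases h
  · intro e' he'
    rw [Finset.mem_union, hb] at he'
    rw [Finset.mem_union, Finset.mem_union]
    rcases he' with h | h | h | h
    · exact ⟨Or.inl (hS.zz e' h).1, Or.inl (hS.zz e' h).2⟩
    · cases h
      exact ⟨Or.inl hs, Or.inl hr⟩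
    · cases h
    · cases h

theorem bp1_sA (S : Finset (SV V E ⊕ E)) (e : E) :
    sA (S ∪ blk e) = insert (Sum.inr (e, true)) (insert (Sum.inr (e, false)) (sA S)) := by
  ext w
  rw [mem_sA]
  simp only [Finset.mem_union, Finset.mem_insert, mem_sA, blk, Finset.mem_singleton, Sum.inl.injEq,
    reduceCtorEq, or_false]
  tauto

theorem bp1_sB (S : Finset (SV V E ⊕ E)) (e : E) : sB (S ∪ blk e) = insert e (sB S) := by
  ext w
  rw [mem_sB]
  simp only [Finset.mem_union, Finset.mem_insert, mem_sB, blk, Finset.mem_singleton, Sum.inr.injEq,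
    reduceCtorEq, false_or]
  tauto

section fixed
variable (G : Gr V E) (M : Al) (b l : ℝ) (S : Finset (SV V E ⊕ E)) (x : ∀ i, XI M.k V E i) (e : E)

theorem bp1_WB (B : Finset E) (he : e ∈ B) (tB : E → ℝ) (c : SV V E → Fin (M.k + 1)) (o : E → Bool)
    (bb : Bool) (ζ : Fin (M.k + 1)) :
    WB G M b l B tB (Function.update c (Sum.inr (e, bb)) ζ) o *
      hw M l (Sum.inr (e, bb) : SV V E) (c (Sum.inr (e, bb))) =
      WB G M b l B tB c o * hw M l (Sum.inr (e, bb) : SV V E) ζ := by
  have hne : ∀ e' : E, e' ≠ e → AA G M b (Function.update c (Sum.inr (e, bb)) ζ) e' = AA G M b c e' ∧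
      rr G M b (Function.update c (Sum.inr (e, bb)) ζ) e' = rr G M b c e' ∧
      tt G M b (Function.update c (Sum.inr (e, bb)) ζ) e' = tt G M b c e' := by
    intro e' he'
    refine bp1_loc2 G M b _ _ e' ?_ ?_ ?_ ?_
    · rw [Function.update_of_ne (by simp)]
    · rw [Function.update_of_ne (by simp)]
    · rw [Function.update_of_ne (by simp [he'])]
    · rw [Function.update_of_ne (by simp [he'])]
  have h1 := bp1_wv (E := E) M l c (Sum.inr (e, bb)) ζ
  have h2 : (∏ e' ∈ univ \ B, AA G M b (Function.update c (Sum.inr (e, bb)) ζ) e' *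
      (if o e' then rr G M b (Function.update c (Sum.inr (e, bb)) ζ) e'
        else 1 - rr G M b (Function.update c (Sum.inr (e, bb)) ζ) e')) =
      ∏ e' ∈ univ \ B, AA G M b c e' * (if o e' then rr G M b c e' else 1 - rr G M b c e') := by
    refine Finset.prod_congr rfl fun e' he' => ?_
    have h3 := hne e' (fun h => (Finset.mem_sdiff.1 he').2 (h ▸ he))
    rw [h3.1, h3.2.1]
  have h4 : (fun e' => if e' ∈ B then tB e' else tt G M b (Function.update c (Sum.inr (e, bb)) ζ) e') =
      (fun e' => if e' ∈ B then tB e' else tt G M b c e') := by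
    funext e'
    by_cases h : e' ∈ B
    · rw [if_pos h, if_pos h]
    · rw [if_neg h, if_neg h, (hne e' (fun h' => h (h' ▸ he))).2.2]
  unfold WB
  rw [h2, h4]
  linear_combination ((∏ e' ∈ univ \ B, AA G M b c e' * (if o e' then rr G M b c e' else 1 - rr G M b c e')) *
    (Zv G (bt o) * Zv G (fun e' => if e' ∈ B then tB e' else tt G M b c e'))) * h1

theorem bp1_SB (A : Finset (SV V E)) (B : Finset E) (tB : E → ℝ) (c0 : SV V E → Fin (M.k + 1))
    (o0 : E → Bool) (g : (E → Bool) → ℝ) :
    SB G M b l A B tB c0 o0 (fun _ o => g o) = ∑ c, if (∀ w ∈ A, c w = c0 w) then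
      (∑ o, if (∀ e' ∈ B, o e' = o0 e') then WB G M b l B tB c o * g o else 0) else 0 := by
  unfold SB
  refine Finset.sum_congr rfl fun c _ => ?_
  by_cases h : ∀ w ∈ A, c w = c0 w
  · rw [if_pos h]
    refine Finset.sum_congr rfl fun o _ => ?_
    exact if_congr (and_iff_right h) rfl rfl
  · rw [if_neg h]
    refine Finset.sum_eq_zero fun o _ => ?_
    rw [if_neg (fun h' => h h'.1)]

/-- the key identity: fixing the moduli of the block. -/
theorem bp1_main (hS : Adm G S) (hz : Sum.inl (Sum.inr (e, false)) ∉ S) (ζ μ : Fin (M.k + 1)) (o : Bool)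
    (g : (E → Bool) → ℝ) :
    (hw M l (Sum.inr (e, false) : SV V E) ζ * hw M l (Sum.inr (e, true) : SV V E) μ) *
      bN G M b l S x e g o (tt G M b (pc (xb x e ζ μ o)) e) =
    ((∑ ζ', hw M l (Sum.inr (e, false) : SV V E) ζ') * ∑ μ', hw M l (Sum.inr (e, true) : SV V E) μ') *
      SB G M b l (sA (S ∪ blk e)) (sB (S ∪ blk e)) (tt G M b (pc (xb x e ζ μ o)))
        (pc (xb x e ζ μ o)) (po (xb x e ζ μ o)) (fun _ o' => g o') := by
  have hm : Sum.inl (Sum.inr (e, true)) ∉ S := fun h => hz (hS.mm e h)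
  have hpc : pc (xb x e ζ μ o) = Function.update (Function.update (pc x) (Sum.inr (e, false)) ζ)
      (Sum.inr (e, true)) μ := rfl
  have hpo : po (xb x e ζ μ o) = Function.update (po x) e o := rfl
  set tB : E → ℝ := Function.update (tt G M b (pc x)) e (tt G M b (pc (xb x e ζ μ o)) e) with htB
  have hbit : e ∉ sB S := fun h => hm (hS.bit e ((mem_sB S e).1 h))
  have e1 : SB G M b l (sA (S ∪ blk e)) (sB (S ∪ blk e)) (tt G M b (pc (xb x e ζ μ o)))
        (pc (xb x e ζ μ o)) (po (xb x e ζ μ o)) (fun _ o' => g o') =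
      SB G M b l (insert (Sum.inr (e, true)) (insert (Sum.inr (e, false)) (sA S))) (insert e (sB S)) tB
        (Function.update (Function.update (pc x) (Sum.inr (e, false)) ζ) (Sum.inr (e, true)) μ)
        (Function.update (po x) e o) (fun _ o' => g o') := by
    rw [bp1_sA, bp1_sB, hpo, ← hpc]
    unfold SB
    refine Finset.sum_congr rfl fun c _ => Finset.sum_congr rfl fun o' _ => ?_
    have h5 : WB G M b l (insert e (sB S)) (tt G M b (pc (xb x e ζ μ o))) c o' =
        WB G M b l (insert e (sB S)) tB c o' := by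
      unfold WB
      have h6 : (fun e' => if e' ∈ insert e (sB S) then tt G M b (pc (xb x e ζ μ o)) e'
          else tt G M b c e') = (fun e' => if e' ∈ insert e (sB S) then tB e' else tt G M b c e') := by
        funext e'
        by_cases h : e' ∈ insert e (sB S)
        · rw [if_pos h, if_pos h]
          by_cases he : e' = e
          · rw [he, htB, Function.update_self]
          · rw [htB, Function.update_of_ne he]
            refine (bp1_loc2 G M b _ _ e' ?_ ?_ ?_ ?_).2.2
            · rw [hpc, Function.update_of_ne (by simp), Function.update_of_ne (by simp)]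
            · rw [hpc, Function.update_of_ne (by simp), Function.update_of_ne (by simp)]
            · rw [hpc, Function.update_of_ne (by simp), Function.update_of_ne (by simp [he])]
            · rw [hpc, Function.update_of_ne (by simp [he]), Function.update_of_ne (by simp)]
        · rw [if_neg h, if_neg h]
      rw [h6]
    rw [h5]
  rw [e1]
  unfold bN
  rw [bp1_SB, bp1_SB]
  set F : (SV V E → Fin (M.k + 1)) → ℝ := fun c => ∑ o', if (∀ e' ∈ insert e (sB S), o' e' =
    Function.update (po x) e o e') then WB G M b l (insert e (sB S)) tB c o' * g o' else 0 with hF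
  have hFu : ∀ (bb : Bool) (c : SV V E → Fin (M.k + 1)) (ζ : Fin (M.k + 1)),
      F (Function.update c (Sum.inr (e, bb)) ζ) * hw M l (Sum.inr (e, bb) : SV V E) (c (Sum.inr (e, bb))) =
      F c * hw M l (Sum.inr (e, bb) : SV V E) ζ := by
    intro bb c ζ
    rw [hF]
    simp only
    rw [Finset.sum_mul, Finset.sum_mul]
    refine Finset.sum_congr rfl fun o' _ => ?_
    by_cases h : ∀ e' ∈ insert e (sB S), o' e' = Function.update (po x) e o e'
    · rw [if_pos h, if_pos h]
      have h7 := bp1_WB G M b l e (insert e (sB S)) (Finset.mem_insert_self _ _) tB c o' bb ζ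
      linear_combination (g o') * h7
    · rw [if_neg h, if_neg h, zero_mul, zero_mul]
  have k1 := bp1_key (Sum.inr (e, false) : SV V E) (sA S) (fun h => hz ((mem_sA S _).1 h))
    (hw M l (Sum.inr (e, false) : SV V E)) F (hFu false) (pc x) ζ
  have k2 := bp1_key (Sum.inr (e, true) : SV V E) (insert (Sum.inr (e, false)) (sA S))
    (fun h => by
      rcases Finset.mem_insert.1 h with h | h
      · simp at h
      · exact hm ((mem_sA S _).1 h))
    (hw M l (Sum.inr (e, true) : SV V E)) F (hFu true)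
    (Function.update (pc x) (Sum.inr (e, false)) ζ) μ
  linear_combination (hw M l (Sum.inr (e, true) : SV V E) μ) * k1 +
    (∑ ζ', hw M l (Sum.inr (e, false) : SV V E) ζ') * k2

end fixed

theorem bp1_hw_pos (M : Al) (hM : M.Ok) (l : ℝ) (w : SV V E) (ζ : Fin (M.k + 1)) : 0 < hw M l w ζ :=
  mul_pos (hM.nu0 ζ) (Real.exp_pos _)

theorem bp1_hws_pos (M : Al) (hM : M.Ok) (l : ℝ) (w : SV V E) :
    0 < ∑ ζ : Fin (M.k + 1), hw M l w ζ :=
  Finset.sum_pos (fun ζ _ => bp1_hw_pos M hM l w ζ) ⟨0, Finset.mem_univ 0⟩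

theorem bp1_AA_pos (G : Gr V E) (M : Al) (b : ℝ) (c : SV V E → Fin (M.k + 1)) (e : E) :
    0 < AA G M b c e :=
  Finset.prod_pos fun j _ => mul_pos (Real.cosh_pos _) (Real.cosh_pos _)

theorem bx1 (G : Gr V E) (M : Al) (hM : M.Ok) (b l : ℝ) (hb : 0 < b) (S : Finset (SV V E ⊕ E))
    (hS : Adm G S) (x : ∀ i, XI M.k V E i) (e : E) (hs : Sum.inl (Sum.inl (G.s e)) ∈ S)
    (hr : Sum.inl (Sum.inl (G.r e)) ∈ S) (hz : Sum.inl (Sum.inr (e, false)) ∉ S)
    (f : (E → Bool) → ℝ) (ζ μ : Fin (M.k + 1)) (o : Bool) :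
    ce (mW G M b l) (fun y => f (po y)) (S ∪ blk e) (xb x e ζ μ o) =
      bN G M b l S x e f o (tt G M b (pc (xb x e ζ μ o)) e) /
        bN G M b l S x e (fun _ => 1) o (tt G M b (pc (xb x e ζ μ o)) e) := by
  have hA := bp1_adm G S hS e hs hr
  have h0 := ce_EB G M hM b l hb (S ∪ blk e) hA (fun y => f (po y)) (xb x e ζ μ o)
  rw [h0]
  have h1 : (fun (c : SV V E → Fin (M.k + 1)) (o' : E → Bool) => f (po (mkx c o'))) = fun _ o' => f o' := rfl
  show EB G M b l (sA (S ∪ blk e)) (sB (S ∪ blk e)) (tt G M b (pc (xb x e ζ μ o))) (pc (xb x e ζ μ o))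
    (po (xb x e ζ μ o)) (fun _ o' => f o') = _
  unfold EB
  have k1 := bp1_main G M b l S x e hS hz ζ μ o f
  have k2 := bp1_main G M b l S x e hS hz ζ μ o (fun _ => 1)
  have p1 := bp1_hw_pos (V := V) (E := E) M hM l (Sum.inr (e, false)) ζ
  have p2 := bp1_hw_pos (V := V) (E := E) M hM l (Sum.inr (e, true)) μ
  have p3 := bp1_hws_pos (V := V) (E := E) M hM l (Sum.inr (e, false))
  have p4 := bp1_hws_pos (V := V) (E := E) M hM l (Sum.inr (e, true))
  have p5 : 0 < SB G M b l (sA (S ∪ blk e)) (sB (S ∪ blk e)) (tt G M b (pc (xb x e ζ μ o)))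
      (pc (xb x e ζ μ o)) (po (xb x e ζ μ o)) (fun _ _ => 1) :=
    SB_pos G M hM b l hb _ _ _ (fun e' _ => (rr_bd G M hM b hb _ e').2.2.1.le)
      (fun e' _ => (rr_bd G M hM b hb _ e').2.2.2.le) _ _
  have p6 : bN G M b l S x e (fun _ => 1) o (tt G M b (pc (xb x e ζ μ o)) e) ≠ 0 := by
    intro h
    rw [h, mul_zero] at k2
    have := mul_pos (mul_pos p3 p4) p5
    linarith
  rw [div_eq_div_iff p5.ne' p6]
  have p7 : (hw M l (Sum.inr (e, false) : SV V E) ζ * hw M l (Sum.inr (e, true) : SV V E) μ) *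
      ((∑ ζ', hw M l (Sum.inr (e, false) : SV V E) ζ') * ∑ μ', hw M l (Sum.inr (e, true) : SV V E) μ') ≠ 0 :=
    (mul_pos (mul_pos p1 p2) (mul_pos p3 p4)).ne'
  refine mul_left_cancel₀ p7 ?_
  set X1 := SB G M b l (sA (S ∪ blk e)) (sB (S ∪ blk e)) (tt G M b (pc (xb x e ζ μ o)))
    (pc (xb x e ζ μ o)) (po (xb x e ζ μ o)) (fun _ o' => f o')
  set X2 := SB G M b l (sA (S ∪ blk e)) (sB (S ∪ blk e)) (tt G M b (pc (xb x e ζ μ o)))
    (pc (xb x e ζ μ o)) (po (xb x e ζ μ o)) (fun _ _ => 1)
  set Y1 := bN G M b l S x e f o (tt G M b (pc (xb x e ζ μ o)) e)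
  set Y2 := bN G M b l S x e (fun _ => 1) o (tt G M b (pc (xb x e ζ μ o)) e)
  set u := hw M l (Sum.inr (e, false) : SV V E) ζ * hw M l (Sum.inr (e, true) : SV V E) μ
  set v := (∑ ζ', hw M l (Sum.inr (e, false) : SV V E) ζ') * ∑ μ', hw M l (Sum.inr (e, true) : SV V E) μ'
  -- k1 : u * Y1 = v * X1, k2 : u * Y2 = v * X2
  calc u * v * (X1 * Y2) = (v * X1) * (u * Y2) := by ring
    _ = (u * Y1) * (v * X2) := by rw [← k1, k2]
    _ = u * v * (Y1 * X2) := by ring

theorem bx2 (G : Gr V E) (M : Al) (hM : M.Ok) (b l : ℝ) (hb : 0 < b) (S : Finset (SV V E ⊕ E))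
    (hS : Adm G S) (x : ∀ i, XI M.k V E i) (e : E) (hs : Sum.inl (Sum.inl (G.s e)) ∈ S)
    (hr : Sum.inl (Sum.inl (G.r e)) ∈ S) (hz : Sum.inl (Sum.inr (e, false)) ∉ S) :
    ∃ C : ℝ, 0 < C ∧ ∀ (ζ μ : Fin (M.k + 1)) (o : Bool),
      cs (S ∪ blk e) (xb x e ζ μ o) (mW G M b l) =
        C * (M.nu ζ * Real.exp (l * M.cc ζ ^ 2) * M.nu μ * AA G M b (pc (xb x e ζ μ o)) e) *
          (if o then rr G M b (pc (xb x e ζ μ o)) e else 1 - rr G M b (pc (xb x e ζ μ o)) e) *
          bN G M b l S x e (fun _ => 1) o (tt G M b (pc (xb x e ζ μ o)) e) := by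
  have hm : Sum.inl (Sum.inr (e, true)) ∉ S := fun h => hz (hS.mm e h)
  have hbit : e ∉ sB S := fun h => hm (hS.bit e ((mem_sB S e).1 h))
  have hA := bp1_adm G S hS e hs hr
  set Z : ℝ := ∑ c, ∑ o, W G M b l c o with hZ
  have hZp : 0 < Z := Finset.sum_pos (fun c _ => Finset.sum_pos (fun o _ => W_pos G M hM b l hb c o)
    ⟨fun _ => true, Finset.mem_univ _⟩) ⟨fun _ => 0, Finset.mem_univ _⟩
  set Q : ℝ := ∏ e' ∈ sB S, AA G M b (pc x) e' *
    (if po x e' then rr G M b (pc x) e' else 1 - rr G M b (pc x) e') with hQ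
  have hQp : 0 < Q := by
    refine Finset.prod_pos fun e' _ => mul_pos (bp1_AA_pos G M b _ e') ?_
    have := rr_bd G M hM b hb (pc x) e'
    split_ifs
    · exact this.1
    · linarith [this.2.1]
  set H1 : ℝ := ∑ ζ', hw M l (Sum.inr (e, false) : SV V E) ζ' with hH1
  set H2 : ℝ := ∑ μ', hw M l (Sum.inr (e, true) : SV V E) μ' with hH2
  have hH1p : 0 < H1 := bp1_hws_pos M hM l _
  have hH2p : 0 < H2 := bp1_hws_pos M hM l _
  refine ⟨Q / Z / (H1 * H2), div_pos (div_pos hQp hZp) (mul_pos hH1p hH2p), fun ζ μ o => ?_⟩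
  have hpc : pc (xb x e ζ μ o) = Function.update (Function.update (pc x) (Sum.inr (e, false)) ζ)
      (Sum.inr (e, true)) μ := rfl
  have hpo : po (xb x e ζ μ o) = Function.update (po x) e o := rfl
  have k := bp1_main G M b l S x e hS hz ζ μ o (fun _ => 1)
  set c' := pc (xb x e ζ μ o) with hc'
  set o' := po (xb x e ζ μ o) with ho'
  set S' := S ∪ blk e with hS'
  have hloc : ∀ e', e' ≠ e → AA G M b c' e' = AA G M b (pc x) e' ∧ rr G M b c' e' = rr G M b (pc x) e' ∧
      tt G M b c' e' = tt G M b (pc x) e' := by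
    intro e' he
    refine bp1_loc2 G M b _ _ e' ?_ ?_ ?_ ?_
    · rw [hpc, Function.update_of_ne (by simp), Function.update_of_ne (by simp)]
    · rw [hpc, Function.update_of_ne (by simp), Function.update_of_ne (by simp)]
    · rw [hpc, Function.update_of_ne (by simp), Function.update_of_ne (by simp [he])]
    · rw [hpc, Function.update_of_ne (by simp [he]), Function.update_of_ne (by simp)]
  -- the sum over the configurations
  have hcs : cs S' (xb x e ζ μ o) (mW G M b l) =
      (AA G M b c' e * (if o then rr G M b c' e else 1 - rr G M b c' e)) * Q / Z *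
      SB G M b l (sA S') (sB S') (tt G M b c') c' o' (fun _ _ => 1) := by
    unfold cs SB
    rw [sum_mkx, Finset.mul_sum]
    refine Finset.sum_congr rfl fun c _ => ?_
    rw [Finset.mul_sum]
    refine Finset.sum_congr rfl fun o'' _ => ?_
    have hiff : (∀ i ∈ S', mkx c o'' i = xb x e ζ μ o i) ↔
        (∀ w ∈ sA S', c w = c' w) ∧ (∀ e' ∈ sB S', o'' e' = o' e') := by
      constructor
      · intro h
        exact ⟨fun w hw => h (Sum.inl w) ((mem_sA S' w).1 hw), fun e' he => h (Sum.inr e') ((mem_sB S' e').1 he)⟩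
      · rintro ⟨h1, h2⟩ (w | e') hi
        · exact h1 w ((mem_sA S' w).2 hi)
        · exact h2 e' ((mem_sB S' e').2 hi)
    by_cases h : (∀ w ∈ sA S', c w = c' w) ∧ (∀ e' ∈ sB S', o'' e' = o' e')
    · rw [if_pos (hiff.2 h), if_pos h]
      obtain ⟨hc, ho⟩ := h
      have hmem : ∀ e' ∈ sB S', AA G M b c e' = AA G M b c' e' ∧ rr G M b c e' = rr G M b c' e' ∧
          tt G M b c e' = tt G M b c' e' := by
        intro e' he
        have a1 := hA.bit e' ((mem_sB S' e').1 he)
        have a2 := hA.mm e' a1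
        have a3 := hA.zz e' a2
        exact bp1_loc2 G M b c c' e' (hc _ ((mem_sA S' _).2 a3.1)) (hc _ ((mem_sA S' _).2 a3.2))
          (hc _ ((mem_sA S' _).2 a2)) (hc _ ((mem_sA S' _).2 a1))
      have hpcm : pc (mkx (V := V) c o'') = c := rfl
      have hpom : po (mkx (V := V) c o'') = o'' := rfl
      show W G M b l (pc (mkx c o'')) (po (mkx c o'')) / Z = _
      rw [hpcm, hpom]
      unfold W WB
      have g1 : (∏ e', AA G M b c e' * (if o'' e' then rr G M b c e' else 1 - rr G M b c e')) =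
          (AA G M b c' e * (if o then rr G M b c' e else 1 - rr G M b c' e)) * Q *
          ∏ e' ∈ univ \ sB S', AA G M b c e' * (if o'' e' then rr G M b c e' else 1 - rr G M b c e') := by
        rw [← Finset.prod_sdiff (Finset.subset_univ (sB S'))]
        have g2 : (∏ e' ∈ sB S', AA G M b c e' * (if o'' e' then rr G M b c e' else 1 - rr G M b c e')) =
            (AA G M b c' e * (if o then rr G M b c' e else 1 - rr G M b c' e)) * Q := by
          have g3 : (∏ e' ∈ sB S', AA G M b c e' * (if o'' e' then rr G M b c e' else 1 - rr G M b c e')) =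
              ∏ e' ∈ sB S', AA G M b c' e' * (if o' e' then rr G M b c' e' else 1 - rr G M b c' e') := by
            refine Finset.prod_congr rfl fun e' he => ?_
            rw [(hmem e' he).1, (hmem e' he).2.1, ho e' he]
          rw [g3, hS', bp1_sB, Finset.prod_insert hbit]
          have g4 : o' e = o := by rw [hpo, Function.update_self]
          rw [g4]
          congr 1
          rw [hQ]
          refine Finset.prod_congr rfl fun e' he => ?_
          have hne : e' ≠ e := fun h => hbit (h ▸ he)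
          have g5 : o' e' = po x e' := by rw [hpo, Function.update_of_ne hne]
          rw [(hloc e' hne).1, (hloc e' hne).2.1, g5]
        rw [g2]
        ring
      have g6 : Zv G (tt G M b c) = Zv G (fun e' => if e' ∈ sB S' then tt G M b c' e' else tt G M b c e') := by
        congr 1
        funext e'
        by_cases he : e' ∈ sB S'
        · rw [if_pos he, (hmem e' he).2.2]
        · rw [if_neg he]
      rw [g1, g6]
      ring
    · rw [if_neg (fun h' => h (hiff.1 h')), if_neg h, mul_zero]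
  rw [hcs]
  have e1 : hw M l (Sum.inr (e, false) : SV V E) ζ = M.nu ζ * Real.exp (l * M.cc ζ ^ 2) := by
    unfold hw
    show M.nu ζ * Real.exp (l * 1 * M.cc ζ ^ 2) = _
    rw [mul_one]
  have e2 : hw M l (Sum.inr (e, true) : SV V E) μ = M.nu μ := by
    unfold hw
    show M.nu μ * Real.exp (l * 0 * M.cc μ ^ 2) = _
    rw [mul_zero, zero_mul, Real.exp_zero, mul_one]
  rw [e1, e2] at k
  have hH : H1 * H2 ≠ 0 := (mul_pos hH1p hH2p).ne'
  have k' : SB G M b l (sA S') (sB S') (tt G M b c') c' o' (fun _ _ => 1) =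
      (M.nu ζ * Real.exp (l * M.cc ζ ^ 2) * M.nu μ) *
        bN G M b l S x e (fun _ => 1) o (tt G M b c' e) / (H1 * H2) := by
    rw [eq_div_iff hH]
    linear_combination -k
  rw [k']
  field_simp

/-- summing over the block. -/
theorem bx3 (G : Gr V E) (M : Al) (S : Finset (SV V E ⊕ E)) (hS : Adm G S) (x : ∀ i, XI M.k V E i)
    (e : E) (hz : Sum.inl (Sum.inr (e, false)) ∉ S) (g : (∀ i, XI M.k V E i) → ℝ) :
    cs S x g = ∑ ζ : Fin (M.k + 1), ∑ μ : Fin (M.k + 1), ∑ o : Bool,
      cs (S ∪ blk e) (xb x e ζ μ o) g := by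
  have hm : Sum.inl (Sum.inr (e, true)) ∉ S := fun h => hz (hS.mm e h)
  have hbit : (Sum.inr e : SV V E ⊕ E) ∉ S := fun h => hm (hS.bit e h)
  rw [cs_split S x (Sum.inl (Sum.inr (e, false))) hz g]
  refine Finset.sum_congr rfl fun ζ _ => ?_
  rw [cs_split _ _ (Sum.inl (Sum.inr (e, true))) (by
    intro h
    rcases Finset.mem_insert.1 h with h | h
    · simp at h
    · exact hm h) g]
  refine Finset.sum_congr rfl fun μ _ => ?_
  rw [cs_split _ _ (Sum.inr e) (by
    intro h
    rcases Finset.mem_insert.1 h with h | h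
    · simp at h
    · rcases Finset.mem_insert.1 h with h | h
      · simp at h
      · exact hbit h) g]
  refine Finset.sum_congr rfl fun o _ => ?_
  have h1 : S ∪ blk e = insert (Sum.inr e) (insert (Sum.inl (Sum.inr (e, true)))
      (insert (Sum.inl (Sum.inr (e, false))) S)) := by
    ext y
    unfold blk
    simp only [Finset.mem_union, Finset.mem_insert, Finset.mem_singleton]
    tauto
  rw [h1]
  congr 1
  funext i
  rcases i with (w | e')
  · by_cases h2 : w = Sum.inr (e, true)
    · subst h2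
      rw [Function.update_of_ne (by simp), Function.update_self]
      show μ = Function.update (Function.update (pc x) (Sum.inr (e, false)) ζ) (Sum.inr (e, true)) μ
        (Sum.inr (e, true))
      rw [Function.update_self]
    · rw [Function.update_of_ne (by simp), Function.update_of_ne (by simpa using h2)]
      show _ = Function.update (Function.update (pc x) (Sum.inr (e, false)) ζ) (Sum.inr (e, true)) μ w
      rw [Function.update_of_ne h2]
      by_cases h3 : w = Sum.inr (e, false)
      · subst h3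
        rw [Function.update_self, Function.update_self]
      · rw [Function.update_of_ne (by simpa using h3), Function.update_of_ne h3]
        rfl
  · show _ = Function.update (po x) e o e'
    by_cases h2 : e' = e
    · subst h2
      rw [Function.update_self, Function.update_self]
    · rw [Function.update_of_ne (by simpa using h2), Function.update_of_ne (by simp),
        Function.update_of_ne (by simp), Function.update_of_ne h2]
      rfl

end H82.BX
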