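import Pool.Agent.H82.BX.BP1

/-!
# BP2: the structure hypotheses `BOk` for a block

`bN` is affine in `t` (`Zv_upd`): `bN o t = n0 o + t n1 o` with `n0 o = bN o 0`, `n1 o = bN o 1 - bN o 0`.
* `pos`: `SB_pos`; `dn`, `dl`: `Zv_bd`.
* `ph0`, `ph1`: `0 ≤ f ≤ 1`, nonnegative weights.
* `up`, `an`: `EB_mono` (`fun _ o => f o` is `Mon`).
* `ra`: `SB(1) = ∑_{c = c0 on A} wv Ls(c, bt o) Lt(c, tB)` (GI6) and the four functions theorem
  (`four_functions_theorem_univ`) with `f1 c = 1[c = c0 on A] wv Ls(c,(e:=1)) Lt(c,(e:=t'))`, `f2` with `((e:=0),(e:=t))`,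
  `f3` with `((e:=0),(e:=t'))`, `f4` with `((e:=1),(e:=t))`, by `Ls_super`, `Lt_super`.
* `r1`, `r2`: with the bit of `e` frozen: `SB(1)` with `o = true/false` compares `Zv` at `1` and `0` in the coordinate `e`, after summing the bits off
  `insert e B` (`fo_sum`): `Zv_bd`.
-/

set_option autoImplicit false

open Finset MeasureTheory

namespace H82.BX

open H82.IC

variable {V E : Type} [Fintype V] [DecidableEq V] [Fintype E] [DecidableEq E]

omit [Fintype V] [DecidableEq V] [Fintype E] in
/-- frozen parameters with one coordinate changed. -/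
theorem bp2_frz_upd (B : Finset E) (T r : E → ℝ) (e : E) (he : e ∈ B) (t : ℝ) :
    (fun e' => if e' ∈ B then Function.update T e t e' else r e') =
      Function.update (fun e' => if e' ∈ B then T e' else r e') e t := by
  funext e'
  by_cases h : e' = e
  · subst h
    simp [he]
  · simp [Function.update_of_ne h]

/-- the weights do not see the last factor. -/
noncomputable def bp2_wB (G : Gr V E) (M : Al) (b l : ℝ) (B : Finset E)
    (c : SV V E → Fin (M.k + 1)) (o : E → Bool) : ℝ :=
  wv M l c * (∏ e ∈ univ \ B, AA G M b c e * (if o e then rr G M b c e else 1 - rr G M b c e)) *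
    Zv G (bt o)

theorem bp2_WB_eq (G : Gr V E) (M : Al) (b l : ℝ) (B : Finset E) (T : E → ℝ) (e : E) (he : e ∈ B)
    (t : ℝ) (c : SV V E → Fin (M.k + 1)) (o : E → Bool) :
    WB G M b l B (Function.update T e t) c o = bp2_wB G M b l B c o *
      Zv G (Function.update (fun e' => if e' ∈ B then T e' else tt G M b c e') e t) := by
  unfold WB bp2_wB
  rw [bp2_frz_upd B T _ e he t]
  ring

theorem bp2_Zv_pos' (G : Gr V E) (o : E → Bool) : 0 < Zv G (bt o) :=
  Zv_pos G _ (fun e => by unfold bt; split_ifs <;> norm_num)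
    (fun e => by unfold bt; split_ifs <;> norm_num)

omit [Fintype V] [DecidableEq V] [Fintype E] [DecidableEq E] in
theorem bp2_AA_pos (G : Gr V E) (M : Al) (b : ℝ) (c : SV V E → Fin (M.k + 1)) (e : E) :
    0 < AA G M b c e :=
  Finset.prod_pos fun _ _ => mul_pos (Real.cosh_pos _) (Real.cosh_pos _)

omit [DecidableEq V] [DecidableEq E] in
theorem bp2_wv_pos (M : Al) (hM : M.Ok) (l : ℝ) (c : SV V E → Fin (M.k + 1)) : 0 < wv M l c :=
  Finset.prod_pos fun _ _ => mul_pos (hM.nu0 _) (Real.exp_pos _)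

theorem bp2_wB_pos (G : Gr V E) (M : Al) (hM : M.Ok) (b l : ℝ) (hb : 0 < b) (B : Finset E)
    (c : SV V E → Fin (M.k + 1)) (o : E → Bool) : 0 < bp2_wB G M b l B c o := by
  unfold bp2_wB
  refine mul_pos (mul_pos (bp2_wv_pos M hM l c) (Finset.prod_pos fun e _ => ?_)) (bp2_Zv_pos' G o)
  obtain ⟨h1, h2, _, _⟩ := rr_bd G M hM b hb c e
  refine mul_pos (bp2_AA_pos G M b c e) ?_
  split_ifs
  · exact h1
  · linarith

theorem bN_aff (G : Gr V E) (M : Al) (b l : ℝ) (S : Finset (SV V E ⊕ E)) (x : ∀ i, XI M.k V E i)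
    (e : E) (f : (E → Bool) → ℝ) (o : Bool) (t : ℝ) :
    bN G M b l S x e f o t =
      bN G M b l S x e f o 0 + t * (bN G M b l S x e f o 1 - bN G M b l S x e f o 0) := by
  unfold bN SB
  rw [← Finset.sum_sub_distrib, Finset.mul_sum, ← Finset.sum_add_distrib]
  refine Finset.sum_congr rfl fun c _ => ?_
  rw [← Finset.sum_sub_distrib, Finset.mul_sum, ← Finset.sum_add_distrib]
  refine Finset.sum_congr rfl fun o' _ => ?_
  split_ifs with h
  · rw [bp2_WB_eq _ _ _ _ _ _ _ (mem_insert_self _ _), bp2_WB_eq _ _ _ _ _ _ _ (mem_insert_self _ _),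
      bp2_WB_eq _ _ _ _ _ _ _ (mem_insert_self _ _), Zv_upd G _ e t]
    ring
  · ring

/-- frozen parameters are between `0` and `1`. -/
theorem bp2_frz_bd (G : Gr V E) (M : Al) (hM : M.Ok) (b : ℝ) (hb : 0 < b) (B : Finset E)
    (c0 : SV V E → Fin (M.k + 1)) (e : E) (t : ℝ) (h0 : 0 ≤ t) (h1 : t ≤ 1)
    (c : SV V E → Fin (M.k + 1)) (e' : E) :
    0 ≤ (if e' ∈ B then Function.update (tt G M b c0) e t e' else tt G M b c e') ∧
      (if e' ∈ B then Function.update (tt G M b c0) e t e' else tt G M b c e') ≤ 1 := by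
  split_ifs
  · by_cases h : e' = e
    · subst h
      simp [h0, h1]
    · rw [Function.update_of_ne h]
      obtain ⟨_, _, h3, h4⟩ := rr_bd G M hM b hb c0 e'
      exact ⟨h3.le, h4.le⟩
  · obtain ⟨_, _, h3, h4⟩ := rr_bd G M hM b hb c e'
    exact ⟨h3.le, h4.le⟩

theorem bp2_upd_bd (G : Gr V E) (M : Al) (hM : M.Ok) (b : ℝ) (hb : 0 < b)
    (c0 : SV V E → Fin (M.k + 1)) (e : E) (t : ℝ) (h0 : 0 ≤ t) (h1 : t ≤ 1) (e' : E) :
    0 ≤ Function.update (tt G M b c0) e t e' ∧ Function.update (tt G M b c0) e t e' ≤ 1 := by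
  have := bp2_frz_bd G M hM b hb univ c0 e t h0 h1 c0 e'
  simpa using this

/-- `SB(1)` as a sum over the moduli. -/
theorem bp2_SB_one (G : Gr V E) (M : Al) (b l : ℝ) (A : Finset (SV V E)) (B : Finset E) (tB : E → ℝ)
    (c0 : SV V E → Fin (M.k + 1)) (o0 : E → Bool) :
    SB G M b l A B tB c0 o0 (fun _ _ => 1) =
      ∑ c, if (∀ w ∈ A, c w = c0 w) then wv M l c * Ls G M b B c (bt o0) * Lt G M b B c tB
        else 0 := by
  unfold SB
  refine Finset.sum_congr rfl fun c _ => ?_
  by_cases hc : ∀ w ∈ A, c w = c0 w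
  · rw [if_pos hc]
    have h1 : ∀ o : E → Bool, (if (∀ w ∈ A, c w = c0 w) ∧ (∀ e ∈ B, o e = o0 e) then
        WB G M b l B tB c o * 1 else 0) = wv M l c * (∏ e ∈ univ \ B, AA G M b c e) *
          Zv G (fun e => if e ∈ B then tB e else tt G M b c e) *
          (if (∀ e ∈ B, o e = o0 e) then
            (∏ e ∈ univ \ B, (if o e then rr G M b c e else 1 - rr G M b c e)) * Zv G (bt o) * 1
            else 0) := by
      intro o
      by_cases ho : ∀ e ∈ B, o e = o0 e
      · rw [if_pos ⟨hc, ho⟩, if_pos ho]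
        unfold WB
        rw [Finset.prod_mul_distrib]
        ring
      · rw [if_neg (fun h => ho h.2), if_neg ho, mul_zero]
    simp only [h1]
    rw [← Finset.mul_sum]
    have h2 := fo_sum G B (rr G M b c) o0
    unfold fo at h2
    rw [h2]
    unfold Ls Lt AA
    simp only [Finset.prod_mul_distrib]
    ring
  · rw [if_neg hc]
    exact Finset.sum_eq_zero fun o _ => if_neg fun h => hc h.1

omit [Fintype E] in
theorem bp2_bt_upd (o : E → Bool) (e : E) (a : Bool) :
    bt (Function.update o e a) = Function.update (bt o) e (if a then 1 else 0) := by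
  funext e'
  by_cases h : e' = e
  · subst h
    simp [bt]
  · simp [bt, Function.update_of_ne h]

theorem bp2_Ls_upd (G : Gr V E) (M : Al) (b : ℝ) (B : Finset E) (c : SV V E → Fin (M.k + 1))
    (o : E → Bool) (e : E) (he : e ∈ B) (a : Bool) :
    Ls G M b B c (bt (Function.update o e a)) =
      (∏ e ∈ univ \ B, ∏ j : Fin 3, Real.cosh (la G M b c (e, j))) *
        Zv G (Function.update (fun e' => if e' ∈ B then bt o e' else rr G M b c e') e
          (if a then 1 else 0)) := by
  unfold Ls
  rw [bp2_bt_upd, bp2_frz_upd B _ _ e he]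

omit [Fintype E] [DecidableEq E] in
theorem bp2_bt_bd (o : E → Bool) (e : E) : 0 ≤ bt o e ∧ bt o e ≤ 1 := by
  unfold bt
  split_ifs <;> norm_num

theorem bp2_Ls_nn (G : Gr V E) (M : Al) (hM : M.Ok) (b : ℝ) (hb : 0 < b) (B : Finset E)
    (c : SV V E → Fin (M.k + 1)) (o : E → Bool) : 0 ≤ Ls G M b B c (bt o) := by
  unfold Ls
  refine mul_nonneg (Finset.prod_nonneg fun _ _ => Finset.prod_nonneg fun _ _ =>
    (Real.cosh_pos _).le) (Zv_pos G _ (fun e => ?_) (fun e => ?_)).le
  · split_ifs
    · exact (bp2_bt_bd o e).1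
    · exact (rr_bd G M hM b hb c e).1.le
  · split_ifs
    · exact (bp2_bt_bd o e).2
    · exact (rr_bd G M hM b hb c e).2.1.le

theorem bp2_Lt_nn (G : Gr V E) (M : Al) (hM : M.Ok) (b : ℝ) (hb : 0 < b) (B : Finset E)
    (c c0 : SV V E → Fin (M.k + 1)) (e : E) (t : ℝ) (h0 : 0 ≤ t) (h1 : t ≤ 1) :
    0 ≤ Lt G M b B c (Function.update (tt G M b c0) e t) := by
  unfold Lt
  exact mul_nonneg (Finset.prod_nonneg fun _ _ => Finset.prod_nonneg fun _ _ =>
    (Real.cosh_pos _).le) (Zv_pos G _ (fun e' => (bp2_frz_bd G M hM b hb B c0 e t h0 h1 c e').1)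
      (fun e' => (bp2_frz_bd G M hM b hb B c0 e t h0 h1 c e').2)).le

/-- the two bits. -/
theorem bp2_Ls_bit (G : Gr V E) (M : Al) (hM : M.Ok) (b : ℝ) (hb : 0 < b) (B : Finset E)
    (c : SV V E → Fin (M.k + 1)) (o : E → Bool) (e : E) (he : e ∈ B) :
    Ls G M b B c (bt (Function.update o e false)) ≤ Ls G M b B c (bt (Function.update o e true)) ∧
      Ls G M b B c (bt (Function.update o e true)) ≤
        2 * Ls G M b B c (bt (Function.update o e false)) := by
  rw [bp2_Ls_upd G M b B c o e he, bp2_Ls_upd G M b B c o e he]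
  have hp : 0 ≤ ∏ e ∈ univ \ B, ∏ j : Fin 3, Real.cosh (la G M b c (e, j)) :=
    Finset.prod_nonneg fun _ _ => Finset.prod_nonneg fun _ _ => (Real.cosh_pos _).le
  obtain ⟨h1, h2⟩ := Zv_bd G (fun e' => if e' ∈ B then bt o e' else rr G M b c e') e
    (fun e' => by
      split_ifs
      · exact (bp2_bt_bd o e').1
      · exact (rr_bd G M hM b hb c e').1.le)
    (fun e' => by
      split_ifs
      · exact (bp2_bt_bd o e').2
      · exact (rr_bd G M hM b hb c e').2.1.le)
  simp only [Bool.false_eq_true, if_false, if_true]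
  constructor
  · exact mul_le_mul_of_nonneg_left h1 hp
  · calc _ ≤ _ := mul_le_mul_of_nonneg_left h2 hp
      _ = _ := by ring

omit [DecidableEq V] [DecidableEq E] in
theorem bp2_wv_inf_sup (M : Al) (l : ℝ) (c c' : SV V E → Fin (M.k + 1)) :
    wv M l c * wv M l c' = wv M l (c ⊓ c') * wv M l (c ⊔ c') := by
  unfold wv
  rw [← Finset.prod_mul_distrib, ← Finset.prod_mul_distrib]
  refine Finset.prod_congr rfl fun w _ => ?_
  rcases le_total (c w) (c' w) with h | h
  · rw [Pi.inf_apply, Pi.sup_apply, inf_eq_left.2 h, sup_eq_right.2 h]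
  · rw [Pi.inf_apply, Pi.sup_apply, inf_eq_right.2 h, sup_eq_left.2 h]
    ring

/-- four functions. -/
theorem bp2_SB_four (G : Gr V E) (M : Al) (hM : M.Ok) (b l : ℝ) (hb : 0 < b) (A : Finset (SV V E))
    (B : Finset E) (e : E) (c0 : SV V E → Fin (M.k + 1)) (o0 : E → Bool)
    (t t' : ℝ) (h0 : 0 ≤ t) (htt : t ≤ t') (h1 : t' ≤ 1) :
    SB G M b l A B (Function.update (tt G M b c0) e t') c0 (Function.update o0 e true)
        (fun _ _ => 1) *
      SB G M b l A B (Function.update (tt G M b c0) e t) c0 (Function.update o0 e false)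
        (fun _ _ => 1) ≤
    SB G M b l A B (Function.update (tt G M b c0) e t') c0 (Function.update o0 e false)
        (fun _ _ => 1) *
      SB G M b l A B (Function.update (tt G M b c0) e t) c0 (Function.update o0 e true)
        (fun _ _ => 1) := by
  rw [bp2_SB_one, bp2_SB_one, bp2_SB_one, bp2_SB_one]
  have ht0 : 0 ≤ t' := h0.trans htt
  have ht1 : t ≤ 1 := htt.trans h1
  have hnn : ∀ (o : E → Bool) (s : ℝ), 0 ≤ s → s ≤ 1 → (0 : (SV V E → Fin (M.k + 1)) → ℝ) ≤
      fun c => if (∀ w ∈ A, c w = c0 w) then wv M l c * Ls G M b B c (bt o) *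
        Lt G M b B c (Function.update (tt G M b c0) e s) else 0 := by
    intro o s hs0 hs1 c
    change 0 ≤ if (∀ w ∈ A, c w = c0 w) then wv M l c * Ls G M b B c (bt o) *
        Lt G M b B c (Function.update (tt G M b c0) e s) else 0
    split_ifs
    · exact mul_nonneg (mul_nonneg (bp2_wv_pos M hM l c).le (bp2_Ls_nn G M hM b hb B c o))
        (bp2_Lt_nn G M hM b hb B c c0 e s hs0 hs1)
    · exact le_rfl
  refine four_functions_theorem_univ _ _ _ _ (hnn _ _ ht0 h1) (hnn _ _ h0 ht1) (hnn _ _ ht0 h1)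
    (hnn _ _ h0 ht1) ?_
  intro c c'
  by_cases hc : ∀ w ∈ A, c w = c0 w
  · by_cases hc' : ∀ w ∈ A, c' w = c0 w
    · have hi : ∀ w ∈ A, (c ⊓ c') w = c0 w := fun w hw => by
        rw [Pi.inf_apply, hc w hw, hc' w hw, inf_idem]
      have hs : ∀ w ∈ A, (c ⊔ c') w = c0 w := fun w hw => by
        rw [Pi.sup_apply, hc w hw, hc' w hw, sup_idem]
      rw [if_pos hc, if_pos hc', if_pos hi, if_pos hs]
      have e1 := Ls_super G M hM b hb.le B c c' (bt (Function.update o0 e true))
        (bt (Function.update o0 e false)) (fun e' _ => (bp2_bt_bd _ e').1) (fun e' _ => (bp2_bt_bd _ e').2)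
        (fun e' _ => (bp2_bt_bd _ e').1) (fun e' _ => (bp2_bt_bd _ e').2)
      have u1 : bt (Function.update o0 e true) ⊓ bt (Function.update o0 e false) =
          bt (Function.update o0 e false) := by
        funext e'
        rw [Pi.inf_apply]
        by_cases h : e' = e
        · subst h; simp [bt]
        · simp [bt, Function.update_of_ne h]
      have u2 : bt (Function.update o0 e true) ⊔ bt (Function.update o0 e false) =
          bt (Function.update o0 e true) := by
        funext e'
        rw [Pi.sup_apply]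
        by_cases h : e' = e
        · subst h; simp [bt]
        · simp [bt, Function.update_of_ne h]
      rw [u1, u2] at e1
      have e2 := Lt_super G M hM b hb.le B c c' (Function.update (tt G M b c0) e t')
        (Function.update (tt G M b c0) e t)
        (fun e' _ => (bp2_upd_bd G M hM b hb c0 e t' ht0 h1 e').1)
        (fun e' _ => (bp2_upd_bd G M hM b hb c0 e t' ht0 h1 e').2)
        (fun e' _ => (bp2_upd_bd G M hM b hb c0 e t h0 ht1 e').1)
        (fun e' _ => (bp2_upd_bd G M hM b hb c0 e t h0 ht1 e').2)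
      have v1 : Function.update (tt G M b c0) e t' ⊔ Function.update (tt G M b c0) e t =
          Function.update (tt G M b c0) e t' := by
        funext e'
        rw [Pi.sup_apply]
        by_cases h : e' = e
        · subst h; simp [htt]
        · simp [Function.update_of_ne h]
      have v2 : Function.update (tt G M b c0) e t' ⊓ Function.update (tt G M b c0) e t =
          Function.update (tt G M b c0) e t := by
        funext e'
        rw [Pi.inf_apply]
        by_cases h : e' = e
        · subst h; simp [htt]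
        · simp [Function.update_of_ne h]
      rw [v1, v2] at e2
      have hw := bp2_wv_inf_sup M l c c'
      have hA0 := bp2_Ls_nn G M hM b hb B c (Function.update o0 e true)
      have hA1 := bp2_Ls_nn G M hM b hb B c' (Function.update o0 e false)
      have hB0 := bp2_Lt_nn G M hM b hb B c c0 e t' ht0 h1
      have hB1 := bp2_Lt_nn G M hM b hb B c' c0 e t h0 ht1
      have hC0 := bp2_Ls_nn G M hM b hb B (c ⊓ c') (Function.update o0 e false)
      have hC1 := bp2_Ls_nn G M hM b hb B (c ⊔ c') (Function.update o0 e true)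
      calc _ = (wv M l c * wv M l c') * ((Ls G M b B c (bt (Function.update o0 e true)) *
              Ls G M b B c' (bt (Function.update o0 e false))) *
              (Lt G M b B c (Function.update (tt G M b c0) e t') *
              Lt G M b B c' (Function.update (tt G M b c0) e t))) := by ring
        _ ≤ (wv M l c * wv M l c') * ((Ls G M b B (c ⊓ c') (bt (Function.update o0 e false)) *
              Ls G M b B (c ⊔ c') (bt (Function.update o0 e true))) *
              (Lt G M b B (c ⊓ c') (Function.update (tt G M b c0) e t') *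
              Lt G M b B (c ⊔ c') (Function.update (tt G M b c0) e t))) := by
            refine mul_le_mul_of_nonneg_left ?_ (mul_pos (bp2_wv_pos M hM l c) (bp2_wv_pos M hM l c')).le
            exact mul_le_mul e1 e2 (mul_nonneg hB0 hB1) (mul_nonneg hC0 hC1)
        _ = _ := by rw [hw]; ring
    · rw [if_neg hc', mul_zero]
      exact mul_nonneg (hnn _ _ ht0 h1 _) (hnn _ _ h0 ht1 _)
  · rw [if_neg hc, zero_mul]
    exact mul_nonneg (hnn _ _ ht0 h1 _) (hnn _ _ h0 ht1 _)

theorem bN_ok (G : Gr V E) (M : Al) (hM : M.Ok) (b l : ℝ) (hb : 0 < b) (S : Finset (SV V E ⊕ E))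
    (hS : Adm G S) (x : ∀ i, XI M.k V E i) (e : E) (he : e ∉ sB S) (f : (E → Bool) → ℝ)
    (hf : Monotone f) (hf0 : ∀ o, 0 ≤ f o) (hf1 : ∀ o, f o ≤ 1) :
    BOk (fun o => bN G M b l S x e (fun _ => 1) o 0)
      (fun o => bN G M b l S x e (fun _ => 1) o 1 - bN G M b l S x e (fun _ => 1) o 0)
      (fun o => bN G M b l S x e f o 0)
      (fun o => bN G M b l S x e f o 1 - bN G M b l S x e f o 0) := by
  have hD : ∀ o t, Dd (fun o => bN G M b l S x e (fun _ => 1) o 0)
      (fun o => bN G M b l S x e (fun _ => 1) o 1 - bN G M b l S x e (fun _ => 1) o 0) o t =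
      bN G M b l S x e (fun _ => 1) o t := fun o t => (bN_aff G M b l S x e (fun _ => 1) o t).symm
  have hP : ∀ o t, Ph (fun o => bN G M b l S x e (fun _ => 1) o 0)
      (fun o => bN G M b l S x e (fun _ => 1) o 1 - bN G M b l S x e (fun _ => 1) o 0)
      (fun o => bN G M b l S x e f o 0)
      (fun o => bN G M b l S x e f o 1 - bN G M b l S x e f o 0) o t =
      EB G M b l (sA S) (insert e (sB S)) (Function.update (tt G M b (pc x)) e t) (pc x)
        (Function.update (po x) e o) (fun _ o' => f o') := by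
    intro o t
    unfold Ph
    rw [← bN_aff, ← bN_aff]
    rfl
  have hpos : ∀ o t, 0 ≤ t → t ≤ 1 → 0 < bN G M b l S x e (fun _ => 1) o t := by
    intro o t h0 h1
    exact SB_pos G M hM b l hb _ _ _ (fun e' _ => (bp2_upd_bd G M hM b hb (pc x) e t h0 h1 e').1)
      (fun e' _ => (bp2_upd_bd G M hM b hb (pc x) e t h0 h1 e').2) _ _
  have hmem : e ∈ insert e (sB S) := mem_insert_self _ _
  have hWB : ∀ t, 0 ≤ t → t ≤ 1 → ∀ c o', 0 ≤ WB G M b l (insert e (sB S))
      (Function.update (tt G M b (pc x)) e t) c o' := by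
    intro t h0 h1 c o'
    have hz : 0 < Zv G (Function.update
        (fun e' => if e' ∈ insert e (sB S) then tt G M b (pc x) e' else tt G M b c e') e t) := by
      rw [← bp2_frz_upd _ _ _ e hmem]
      exact Zv_pos G _ (fun e' => (bp2_frz_bd G M hM b hb _ (pc x) e t h0 h1 c e').1)
        (fun e' => (bp2_frz_bd G M hM b hb _ (pc x) e t h0 h1 c e').2)
    rw [bp2_WB_eq _ _ _ _ _ _ _ hmem]
    exact (mul_pos (bp2_wB_pos G M hM b l hb _ c o') hz).le
  have hZ : ∀ c : SV V E → Fin (M.k + 1),
      Zv G (Function.update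
        (fun e' => if e' ∈ insert e (sB S) then tt G M b (pc x) e' else tt G M b c e') e 0) ≤
      Zv G (Function.update
        (fun e' => if e' ∈ insert e (sB S) then tt G M b (pc x) e' else tt G M b c e') e 1) ∧
      Zv G (Function.update
        (fun e' => if e' ∈ insert e (sB S) then tt G M b (pc x) e' else tt G M b c e') e 1) ≤
      2 * Zv G (Function.update
        (fun e' => if e' ∈ insert e (sB S) then tt G M b (pc x) e' else tt G M b c e') e 0) := by
    intro c
    apply Zv_bd
    · intro e'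
      split_ifs
      · exact (rr_bd G M hM b hb (pc x) e').2.2.1.le
      · exact (rr_bd G M hM b hb c e').2.2.1.le
    · intro e'
      split_ifs
      · exact (rr_bd G M hM b hb (pc x) e').2.2.2.le
      · exact (rr_bd G M hM b hb c e').2.2.2.le
  have hdn : ∀ o, bN G M b l S x e (fun _ => 1) o 0 ≤ bN G M b l S x e (fun _ => 1) o 1 := by
    intro o
    unfold bN SB
    refine Finset.sum_le_sum fun c _ => Finset.sum_le_sum fun o' _ => ?_
    split_ifs
    · rw [bp2_WB_eq _ _ _ _ _ _ _ hmem, bp2_WB_eq _ _ _ _ _ _ _ hmem, mul_one, mul_one]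
      exact mul_le_mul_of_nonneg_left (hZ c).1 (bp2_wB_pos G M hM b l hb _ c o').le
    · exact le_rfl
  have hdl : ∀ o, bN G M b l S x e (fun _ => 1) o 1 ≤ 2 * bN G M b l S x e (fun _ => 1) o 0 := by
    intro o
    unfold bN SB
    rw [Finset.mul_sum]
    refine Finset.sum_le_sum fun c _ => ?_
    rw [Finset.mul_sum]
    refine Finset.sum_le_sum fun o' _ => ?_
    split_ifs
    · rw [bp2_WB_eq _ _ _ _ _ _ _ hmem, bp2_WB_eq _ _ _ _ _ _ _ hmem, mul_one, mul_one]
      calc _ ≤ _ := mul_le_mul_of_nonneg_left (hZ c).2 (bp2_wB_pos G M hM b l hb _ c o').le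
        _ = _ := by ring
    · simp
  have hmon : Mon (fun (_ : SV V E → Fin (M.k + 1)) (o' : E → Bool) => f o') :=
    fun c c' o o' _ ho => hf ho
  refine ⟨fun o => hpos o 0 le_rfl zero_le_one, fun o => sub_nonneg.2 (hdn o), fun o => ?_,
    ?_, ?_, ?_, ?_, ?_, ?_, ?_⟩
  · have := hdl o
    change bN G M b l S x e (fun _ => 1) o 1 - bN G M b l S x e (fun _ => 1) o 0 ≤
      bN G M b l S x e (fun _ => 1) o 0
    linarith
  · intro o t h0 h1
    rw [hP]
    unfold EB
    refine div_nonneg ?_ (hpos o t h0 h1).le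
    unfold SB
    refine Finset.sum_nonneg fun c _ => Finset.sum_nonneg fun o' _ => ?_
    split_ifs
    · exact mul_nonneg (hWB t h0 h1 c o') (hf0 o')
    · exact le_rfl
  · intro o t h0 h1
    rw [hP]
    unfold EB
    refine (div_le_one (hpos o t h0 h1)).2 ?_
    unfold bN SB
    refine Finset.sum_le_sum fun c _ => Finset.sum_le_sum fun o' _ => ?_
    split_ifs
    · exact mul_le_mul_of_nonneg_left (hf1 o') (hWB t h0 h1 c o')
    · exact le_rfl
  · intro t h0 h1
    rw [hP, hP]
    refine EB_mono G M hM b l hb _ _ _ _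
      (fun e' _ => (bp2_upd_bd G M hM b hb (pc x) e t h0 h1 e').1) (fun _ _ => le_rfl)
      (fun e' _ => (bp2_upd_bd G M hM b hb (pc x) e t h0 h1 e').2) _ _ (fun _ _ => le_rfl) _ _
      (fun e' _ => ?_) _ hmon
    by_cases h : e' = e
    · subst h; simp
    · rw [Function.update_of_ne h, Function.update_of_ne h]
  · intro o t t' h0 htt h1
    rw [hP, hP]
    refine EB_mono G M hM b l hb _ _ _ _
      (fun e' _ => (bp2_upd_bd G M hM b hb (pc x) e t h0 (htt.trans h1) e').1) (fun e' _ => ?_)
      (fun e' _ => (bp2_upd_bd G M hM b hb (pc x) e t' (h0.trans htt) h1 e').2) _ _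
      (fun _ _ => le_rfl) _ _ (fun _ _ => le_rfl) _ hmon
    by_cases h : e' = e
    · subst h; simpa using htt
    · rw [Function.update_of_ne h, Function.update_of_ne h]
  · intro t t' h0 htt h1
    rw [hD, hD, hD, hD]
    have := bp2_SB_four G M hM b l hb (sA S) (insert e (sB S)) e (pc x) (po x) t t' h0 htt h1
    rw [mul_comm (bN G M b l S x e (fun _ => 1) true t)]
    exact this
  · intro t h0 h1
    rw [hD, hD]
    unfold bN
    rw [bp2_SB_one, bp2_SB_one]
    refine Finset.sum_le_sum fun c _ => ?_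
    split_ifs
    · exact mul_le_mul_of_nonneg_right (mul_le_mul_of_nonneg_left
        (bp2_Ls_bit G M hM b hb _ c (po x) e hmem).1 (bp2_wv_pos M hM l c).le)
        (bp2_Lt_nn G M hM b hb _ c (pc x) e t h0 h1)
    · exact le_rfl
  · intro t h0 h1
    rw [hD, hD]
    unfold bN
    rw [bp2_SB_one, bp2_SB_one, Finset.mul_sum]
    refine Finset.sum_le_sum fun c _ => ?_
    split_ifs
    · calc _ ≤ wv M l c * (2 * Ls G M b (insert e (sB S)) c
            (bt (Function.update (po x) e false))) *
            Lt G M b (insert e (sB S)) c (Function.update (tt G M b (pc x)) e t) :=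
              mul_le_mul_of_nonneg_right (mul_le_mul_of_nonneg_left
              (bp2_Ls_bit G M hM b hb _ c (po x) e hmem).2 (bp2_wv_pos M hM l c).le)
              (bp2_Lt_nn G M hM b hb _ c (pc x) e t h0 h1)
        _ = _ := by ring
    · simp

end H82.BX
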