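import Pool.Agent.H82.BX.BP5

/-!
# BP3: the block estimate (assembly)

`∑_x m x |ce f (S ∪ blk e) x - ce f S x| = ∑_x (m x/cs S x m) cs S x (m |ce f (S ∪ blk e) · - ce f S x|)` (the exchange formula of OS1; `ce f S y = ce f S x` for `y = x` on `S`)
`≤ ∑_x m x 6 QB(x) ≤ (6/κ) ∑_x m x (conditional covariance of f and c2 given S at x) ≤ (6/κ) cv` (`bp_up`, `bp_low`, `mW_cov` with the increasing function `y ↦ f (po y)`).
-/

set_option autoImplicit false

open Finset MeasureTheory

namespace H82.BX

open H82.IC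

variable {V E : Type} [Fintype V] [DecidableEq V] [Fintype E] [DecidableEq E]

theorem block_est (b Λ : ℝ) (hb : 0 < b) (hΛ : 0 ≤ Λ) : ∃ K : ℝ, 0 < K ∧
    ∀ (V E : Type) [Fintype V] [DecidableEq V] [Fintype E] [DecidableEq E] (G : Gr V E),
      Deg4 G → ∀ (M : Al), M.Ok → ∀ l : ℝ, 0 ≤ l → l ≤ Λ → ∀ (f : (E → Bool) → ℝ), Monotone f →
      (∀ o, 0 ≤ f o) → (∀ o, f o ≤ 1) → ∀ (S : Finset (SV V E ⊕ E)), Adm G S → ∀ e : E,
      Sum.inl (Sum.inl (G.s e)) ∈ S → Sum.inl (Sum.inl (G.r e)) ∈ S →
      Sum.inl (Sum.inr (e, false)) ∉ S →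
      ∑ x, mW G M b l x * |ce (mW G M b l) (fun y => f (po y)) (S ∪ blk e) x -
          ce (mW G M b l) (fun y => f (po y)) S x| ≤
        K * cv G M b l (fun y => f (po y)) (Sum.inr (e, false)) := by
  obtain ⟨κ, hκ, hlow⟩ := bp_low b Λ hb hΛ
  refine ⟨6 / κ, by positivity, ?_⟩
  intro V E _ _ _ _ G hG M hM l hl0 hl f hf hf0 hf1 S hS e hs hr hz
  have hm : ∀ x, 0 < mW G M b l x := fun x => mW_pos G M hM b l hb x
  have h1 := ce_avg (mW G M b l)
    (fun x => |ce (mW G M b l) (fun y => f (po y)) (S ∪ blk e) x -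
      ce (mW G M b l) (fun y => f (po y)) S x|) (fun _ => 1) hm S (fun _ _ _ => rfl)
  simp only [mul_one] at h1
  rw [h1]
  have h2 : ∀ x, ce (mW G M b l) (fun x => |ce (mW G M b l) (fun y => f (po y)) (S ∪ blk e) x -
      ce (mW G M b l) (fun y => f (po y)) S x|) S x ≤
      6 / κ * (ce (mW G M b l) (fun y => f (po y) * c2 M (Sum.inr (e, false)) y) S x -
          ce (mW G M b l) (fun y => f (po y)) S x *
            ce (mW G M b l) (c2 M (Sum.inr (e, false))) S x) := by
    intro x
    have h3 := bp_up G M hM b l hb f hf hf0 hf1 S hS x e hs hr hz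
    have h4 := hlow V E G hG M hM l hl0 hl f hf hf0 hf1 S hS x e hs hr hz
    have h5 : cs S x (fun y => mW G M b l y * |ce (mW G M b l) (fun y => f (po y)) (S ∪ blk e) y -
        ce (mW G M b l) (fun y => f (po y)) S y|) =
        cs S x (fun y => mW G M b l y * |ce (mW G M b l) (fun y => f (po y)) (S ∪ blk e) y -
        ce (mW G M b l) (fun y => f (po y)) S x|) := by
      unfold cs
      refine Finset.sum_congr rfl fun y _ => ?_
      split_ifs with h
      · dsimp only
        rw [ce_congr (mW G M b l) (fun y => f (po y)) S y x h]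
      · rfl
    have h6 : ce (mW G M b l) (fun x => |ce (mW G M b l) (fun y => f (po y)) (S ∪ blk e) x -
        ce (mW G M b l) (fun y => f (po y)) S x|) S x ≤ 6 * QB G M b l S x e f := by
      have h7 : ce (mW G M b l) (fun x => |ce (mW G M b l) (fun y => f (po y)) (S ∪ blk e) x -
        ce (mW G M b l) (fun y => f (po y)) S x|) S x =
        cs S x (fun y => mW G M b l y * |ce (mW G M b l) (fun y => f (po y)) (S ∪ blk e) y -
        ce (mW G M b l) (fun y => f (po y)) S x|) / cs S x (mW G M b l) := by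
        rw [← h5]
        rfl
      rw [h7, div_le_iff₀ (cs_pos _ hm S x)]
      exact h3
    refine h6.trans ?_
    have h8 : QB G M b l S x e f ≤
        (ce (mW G M b l) (fun y => f (po y) * c2 M (Sum.inr (e, false)) y) S x -
          ce (mW G M b l) (fun y => f (po y)) S x *
            ce (mW G M b l) (c2 M (Sum.inr (e, false))) S x) / κ := by
      rw [le_div_iff₀ hκ, mul_comm]
      exact h4
    calc 6 * QB G M b l S x e f ≤ 6 *
        ((ce (mW G M b l) (fun y => f (po y) * c2 M (Sum.inr (e, false)) y) S x -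
          ce (mW G M b l) (fun y => f (po y)) S x *
            ce (mW G M b l) (c2 M (Sum.inr (e, false))) S x) / κ) :=
          mul_le_mul_of_nonneg_left h8 (by norm_num)
      _ = _ := by ring
  have hfm : Monotone (fun y : (∀ i, XI M.k V E i) => f (po y)) := by
    intro x y hxy
    exact hf (fun e' => hxy (Sum.inr e'))
  have h9 := mW_cov G M hM b l hb S hS (fun y => f (po y)) hfm (Sum.inr (e, false))
  calc ∑ x, mW G M b l x * ce (mW G M b l)
        (fun x => |ce (mW G M b l) (fun y => f (po y)) (S ∪ blk e) x -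
        ce (mW G M b l) (fun y => f (po y)) S x|) S x ≤
      ∑ x, mW G M b l x * (6 / κ *
        (ce (mW G M b l) (fun y => f (po y) * c2 M (Sum.inr (e, false)) y) S x -
          ce (mW G M b l) (fun y => f (po y)) S x *
            ce (mW G M b l) (c2 M (Sum.inr (e, false))) S x)) :=
        Finset.sum_le_sum fun x _ => mul_le_mul_of_nonneg_left (h2 x) (hm x).le
    _ = 6 / κ * ∑ x, mW G M b l x *
        (ce (mW G M b l) (fun y => f (po y) * c2 M (Sum.inr (e, false)) y) S x -
          ce (mW G M b l) (fun y => f (po y)) S x *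
            ce (mW G M b l) (c2 M (Sum.inr (e, false))) S x) := by
        rw [Finset.mul_sum]
        refine Finset.sum_congr rfl fun x _ => ?_
        ring
    _ ≤ _ := mul_le_mul_of_nonneg_left h9 (by positivity)

end H82.BX
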