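import Pool.Agent.H82.BX.BP2
import Pool.Agent.H82.BX.BL3

/-!
# BP4: the comparison quantity of a block and the upper bound

Fix `S, x, e` as in BP1.  Notation: `a ζ μ = C nu ζ e^{l cc²ζ} nu μ AA D(..)` (`bx2`); `rr ζ μ = chr b x1 y1 (cc ζ) (cc μ)` with `x1 = cc (c (s e))`, `y1 = cc (c (r e))`
(`rr`, `la` of the links `s e - z_e`, `z_e - m_e`, `m_e - r e`; `G.s e`, `G.r e` may coincide, no problem), and `tt ζ μ = chr b x2 y2 (ss ζ) (ss μ)`.
`bp_up`: `blk_up` with `Y` = pairs `(ζ, μ)`, `a y = C nu ζ e^{l cc²ζ} nu μ AA`, `r = rr`, `t = tt`, `π y o = cs (S ∪ blk e) (xb x e ζ μ o) mW` (`bx2`; `Dd d0 d1 o t = bN .. 1 o t` by `bN_aff`),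
`Ph .. o t = ce f (S ∪ blk e) (xb ..)` (`bx1`), the average is `ce m f S x` (`bx3`; `cs (S ∪ blk e) x' (m f) = ce · cs`), `bx3` for the left side (on the cylinder the conditional expectation is constant).
`rm ≤ 1`, `tm ≤ 1`, `rr < 1` (`tanh < 1`), bounds by `chr_le`.
-/

set_option autoImplicit false

open Finset MeasureTheory

namespace H82.BX

open H82.IC

variable {V E : Type} [Fintype V] [DecidableEq V] [Fintype E] [DecidableEq E]

/-- maximal value of `rr` over the block. -/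
noncomputable def rM (G : Gr V E) (M : Al) (b : ℝ) (x : ∀ i, XI M.k V E i) (e : E) : ℝ :=
  chm b (M.cc (pc x (Sum.inl (G.s e)))) (M.cc (pc x (Sum.inl (G.r e))))

/-- maximal value of `tt` over the block. -/
noncomputable def tM (G : Gr V E) (M : Al) (b : ℝ) (x : ∀ i, XI M.k V E i) (e : E) : ℝ :=
  chm b (M.ss (pc x (Sum.inl (G.s e)))) (M.ss (pc x (Sum.inl (G.r e))))

/-- the comparison quantity. -/
noncomputable def QB (G : Gr V E) (M : Al) (b l : ℝ) (S : Finset (SV V E ⊕ E)) (x : ∀ i, XI M.k V E i)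
    (e : E) (f : (E → Bool) → ℝ) : ℝ :=
  Qfo (fun o => bN G M b l S x e (fun _ => 1) o 0)
    (fun o => bN G M b l S x e (fun _ => 1) o 1 - bN G M b l S x e (fun _ => 1) o 0)
    (fun o => bN G M b l S x e f o 0)
    (fun o => bN G M b l S x e f o 1 - bN G M b l S x e f o 0) (rM G M b x e) (tM G M b x e)

/-- `rr` and `tt` of the block are `chr`. -/
theorem rr_xb (G : Gr V E) (M : Al) (b : ℝ) (x : ∀ i, XI M.k V E i) (e : E) (ζ μ : Fin (M.k + 1))
    (o : Bool) : rr G M b (pc (xb x e ζ μ o)) e =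
      chr b (M.cc (pc x (Sum.inl (G.s e)))) (M.cc (pc x (Sum.inl (G.r e)))) (M.cc ζ) (M.cc μ) ∧
    tt G M b (pc (xb x e ζ μ o)) e =
      chr b (M.ss (pc x (Sum.inl (G.s e)))) (M.ss (pc x (Sum.inl (G.r e)))) (M.ss ζ) (M.ss μ) := by
  have hs : pc (xb x e ζ μ o) (Sum.inl (G.s e)) = pc x (Sum.inl (G.s e)) := by
    show Function.update (Function.update (pc x) (Sum.inr (e, false)) ζ) (Sum.inr (e, true)) μ
      (Sum.inl (G.s e)) = _
    rw [Function.update_of_ne (by simp), Function.update_of_ne (by simp)]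
  have hr : pc (xb x e ζ μ o) (Sum.inl (G.r e)) = pc x (Sum.inl (G.r e)) := by
    show Function.update (Function.update (pc x) (Sum.inr (e, false)) ζ) (Sum.inr (e, true)) μ
      (Sum.inl (G.r e)) = _
    rw [Function.update_of_ne (by simp), Function.update_of_ne (by simp)]
  have hz : pc (xb x e ζ μ o) (Sum.inr (e, false)) = ζ := by
    show Function.update (Function.update (pc x) (Sum.inr (e, false)) ζ) (Sum.inr (e, true)) μ
      (Sum.inr (e, false)) = ζ
    rw [Function.update_of_ne (by simp), Function.update_self]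
  have hm : pc (xb x e ζ μ o) (Sum.inr (e, true)) = μ := by
    show Function.update (Function.update (pc x) (Sum.inr (e, false)) ζ) (Sum.inr (e, true)) μ
      (Sum.inr (e, true)) = μ
    rw [Function.update_self]
  constructor
  · unfold rr la chr
    rw [Fin.prod_univ_three]
    show Real.tanh (b * (M.cc (pc (xb x e ζ μ o) (Sum.inl (G.s e))) *
        M.cc (pc (xb x e ζ μ o) (Sum.inr (e, false))))) *
      Real.tanh (b * (M.cc (pc (xb x e ζ μ o) (Sum.inr (e, false))) *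
        M.cc (pc (xb x e ζ μ o) (Sum.inr (e, true))))) *
      Real.tanh (b * (M.cc (pc (xb x e ζ μ o) (Sum.inr (e, true))) *
        M.cc (pc (xb x e ζ μ o) (Sum.inl (G.r e))))) = _
    rw [hs, hr, hz, hm]
  · unfold tt lb chr
    rw [Fin.prod_univ_three]
    show Real.tanh (b * (M.ss (pc (xb x e ζ μ o) (Sum.inl (G.s e))) *
        M.ss (pc (xb x e ζ μ o) (Sum.inr (e, false))))) *
      Real.tanh (b * (M.ss (pc (xb x e ζ μ o) (Sum.inr (e, false))) *
        M.ss (pc (xb x e ζ μ o) (Sum.inr (e, true))))) *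
      Real.tanh (b * (M.ss (pc (xb x e ζ μ o) (Sum.inr (e, true))) *
        M.ss (pc (xb x e ζ μ o) (Sum.inl (G.r e))))) = _
    rw [hs, hr, hz, hm]

/-- a function constant on the cylinder. -/
theorem bp4_const {I : Type} [Fintype I] [DecidableEq I] {X : I → Type} [∀ i, Fintype (X i)]
    [∀ i, LinearOrder (X i)] (A : Finset I) (x : ∀ i, X i) (m F : (∀ i, X i) → ℝ) (c : ℝ)
    (h : ∀ y, (∀ i ∈ A, y i = x i) → F y = c) :
    cs A x (fun y => m y * F y) = cs A x m * c := by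
  unfold cs
  rw [Finset.sum_mul]
  refine Finset.sum_congr rfl fun y _ => ?_
  by_cases hy : ∀ i ∈ A, y i = x i
  · rw [if_pos hy, if_pos hy]
    show m y * F y = m y * c
    rw [h y hy]
  · rw [if_neg hy, if_neg hy, zero_mul]

theorem bp_up (G : Gr V E) (M : Al) (hM : M.Ok) (b l : ℝ) (hb : 0 < b)
    (f : (E → Bool) → ℝ) (hf : Monotone f) (hf0 : ∀ o, 0 ≤ f o) (hf1 : ∀ o, f o ≤ 1)
    (S : Finset (SV V E ⊕ E)) (hS : Adm G S) (x : ∀ i, XI M.k V E i) (e : E)
    (hs : Sum.inl (Sum.inl (G.s e)) ∈ S) (hr : Sum.inl (Sum.inl (G.r e)) ∈ S)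
    (hz : Sum.inl (Sum.inr (e, false)) ∉ S) :
    cs S x (fun y => mW G M b l y * |ce (mW G M b l) (fun y => f (po y)) (S ∪ blk e) y -
        ce (mW G M b l) (fun y => f (po y)) S x|) ≤
      6 * QB G M b l S x e f * cs S x (mW G M b l) := by
  have hm' : Sum.inl (Sum.inr (e, true)) ∉ S := fun h => hz (hS.mm e h)
  have hbit : e ∉ sB S := fun h => hm' (hS.bit e ((mem_sB S e).1 h))
  have hmp := mW_pos G M hM b l hb
  obtain ⟨C, hC, hcs⟩ := bx2 G M hM b l hb S hS x e hs hr hz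
  have hok := bN_ok G M hM b l hb S hS x e hbit f hf hf0 hf1
  have hD : ∀ o t, Dd (fun o => bN G M b l S x e (fun _ => 1) o 0)
      (fun o => bN G M b l S x e (fun _ => 1) o 1 - bN G M b l S x e (fun _ => 1) o 0) o t =
      bN G M b l S x e (fun _ => 1) o t := fun o t => (bN_aff G M b l S x e (fun _ => 1) o t).symm
  have hP : ∀ o t, Ph (fun o => bN G M b l S x e (fun _ => 1) o 0)
      (fun o => bN G M b l S x e (fun _ => 1) o 1 - bN G M b l S x e (fun _ => 1) o 0)
      (fun o => bN G M b l S x e f o 0)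
      (fun o => bN G M b l S x e f o 1 - bN G M b l S x e f o 0) o t =
      bN G M b l S x e f o t / bN G M b l S x e (fun _ => 1) o t := by
    intro o t
    unfold Ph
    rw [← bN_aff, ← bN_aff]
  have hQ : QB G M b l S x e f = Qfo (fun o => bN G M b l S x e (fun _ => 1) o 0)
      (fun o => bN G M b l S x e (fun _ => 1) o 1 - bN G M b l S x e (fun _ => 1) o 0)
      (fun o => bN G M b l S x e f o 0)
      (fun o => bN G M b l S x e f o 1 - bN G M b l S x e f o 0) (rM G M b x e) (tM G M b x e) := rfl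
  rw [hQ]
  set d0 : Bool → ℝ := fun o => bN G M b l S x e (fun _ => 1) o 0 with hd0
  set d1 : Bool → ℝ := fun o => bN G M b l S x e (fun _ => 1) o 1 -
    bN G M b l S x e (fun _ => 1) o 0 with hd1
  set n0 : Bool → ℝ := fun o => bN G M b l S x e f o 0 with hn0
  set n1 : Bool → ℝ := fun o => bN G M b l S x e f o 1 - bN G M b l S x e f o 0 with hn1
  set m := mW G M b l with hmdef
  set g : (∀ i, XI M.k V E i) → ℝ := fun y => f (po y) with hg
  set rY : Fin (M.k + 1) × Fin (M.k + 1) → ℝ := fun y =>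
    rr G M b (pc (xb x e y.1 y.2 true)) e with hrY
  set tY : Fin (M.k + 1) × Fin (M.k + 1) → ℝ := fun y =>
    tt G M b (pc (xb x e y.1 y.2 true)) e with htY
  set aY : Fin (M.k + 1) × Fin (M.k + 1) → ℝ := fun y =>
    C * (M.nu y.1 * Real.exp (l * M.cc y.1 ^ 2) * M.nu y.2 *
      AA G M b (pc (xb x e y.1 y.2 true)) e) with haY
  set πY : Fin (M.k + 1) × Fin (M.k + 1) → Bool → ℝ := fun y o =>
    cs (S ∪ blk e) (xb x e y.1 y.2 o) m with hπY
  have hpi : ∀ y o, πY y o = aY y * (if o then rY y else 1 - rY y) * Dd d0 d1 o (tY y) := by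
    intro y o
    rw [hD]
    exact hcs y.1 y.2 o
  have hrb : ∀ y, 0 ≤ rY y ∧ rY y ≤ rM G M b x e ∧ rM G M b x e ≤ Real.tanh b := by
    intro y
    have h1 := (rr_xb G M b x e y.1 y.2 true).1
    have h2 := chr_le b (M.cc (pc x (Sum.inl (G.s e)))) (M.cc (pc x (Sum.inl (G.r e))))
      (M.cc y.1) (M.cc y.2) hb.le (hM.cc0 _).le (hM.cc1 _) (hM.cc0 _).le (hM.cc1 _)
      (hM.cc0 _).le (hM.cc1 _) (hM.cc0 _).le (hM.cc1 _)
    rw [hrY]
    simp only
    rw [h1]
    exact h2
  have htb : ∀ y, 0 ≤ tY y ∧ tY y ≤ tM G M b x e ∧ tM G M b x e ≤ Real.tanh b := by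
    intro y
    have h1 := (rr_xb G M b x e y.1 y.2 true).2
    have h2 := chr_le b (M.ss (pc x (Sum.inl (G.s e)))) (M.ss (pc x (Sum.inl (G.r e))))
      (M.ss y.1) (M.ss y.2) hb.le (hM.ss0 _).le (hM.ss1 _) (hM.ss0 _).le (hM.ss1 _)
      (hM.ss0 _).le (hM.ss1 _) (hM.ss0 _).le (hM.ss1 _)
    rw [htY]
    simp only
    rw [h1]
    exact h2
  have htl := Real.tanh_lt_one b
  have key := blk_up d0 d1 n0 n1 hok aY rY tY (rM G M b x e) (tM G M b x e)
    (((hrb (0, 0)).2.2).trans htl.le) (((htb (0, 0)).2.2).trans htl.le)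
    (fun y => mul_pos hC (mul_pos (mul_pos (mul_pos (hM.nu0 _) (Real.exp_pos _)) (hM.nu0 _))
      (bp1_AA_pos G M b _ e)))
    (fun y => (hrb y).1) (fun y => (hrb y).2.1)
    (fun y => lt_of_le_of_lt ((hrb y).2.1.trans (hrb y).2.2) htl)
    (fun y => (htb y).1) (fun y => (htb y).2.1) πY hpi
  -- the values of the conditional expectation
  have hce : ∀ (y : Fin (M.k + 1) × Fin (M.k + 1)) (o : Bool),
      ce m g (S ∪ blk e) (xb x e y.1 y.2 o) = Ph d0 d1 n0 n1 o (tY y) := by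
    intro y o
    rw [hP]
    exact bx1 G M hM b l hb S hS x e hs hr hz f y.1 y.2 o
  have hsum : ∀ F : (∀ i, XI M.k V E i) → ℝ, cs S x F =
      ∑ y : Fin (M.k + 1) × Fin (M.k + 1), ∑ o, cs (S ∪ blk e) (xb x e y.1 y.2 o) F := by
    intro F
    rw [bx3 G M S hS x e hz F, Fintype.sum_prod_type]
  have hs1 : cs S x m = ∑ y, ∑ o, πY y o := hsum m
  have hs2 : cs S x (fun y => m y * g y) = ∑ y, ∑ o, πY y o * Ph d0 d1 n0 n1 o (tY y) := by
    rw [hsum]
    refine Finset.sum_congr rfl fun y _ => Finset.sum_congr rfl fun o _ => ?_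
    rw [← hce y o]
    have hp : 0 < cs (S ∪ blk e) (xb x e y.1 y.2 o) m := cs_pos m hmp _ _
    show _ = cs (S ∪ blk e) (xb x e y.1 y.2 o) m * _
    unfold ce
    field_simp
  have hav : ce m g S x = (∑ y, ∑ o, πY y o * Ph d0 d1 n0 n1 o (tY y)) / ∑ y, ∑ o, πY y o := by
    rw [← hs1, ← hs2]
    rfl
  rw [hs1]
  refine le_trans (le_of_eq ?_) key
  rw [hsum]
  refine Finset.sum_congr rfl fun y _ => Finset.sum_congr rfl fun o _ => ?_
  rw [← hav, ← hce y o]
  exact bp4_const (S ∪ blk e) (xb x e y.1 y.2 o) m _ _ (fun z hz' => by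
    rw [ce_congr m g (S ∪ blk e) z (xb x e y.1 y.2 o) hz'])

end H82.BX
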