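import Pool.Agent.H82.BX.GI6

/-!
# GI7: finite energy for one modulus

Write `SB(F) = ∑_{c = c0 on A} Q(c) F` for functions `F` of `c`, `Q(c) = wv(c) Ls(c, bt o0) Lt(c, tB)` (as in GI6).  For `w ∉ A` (then
`w` is not an end or a chain vertex of an edge of `B`, by `hB`) let `c, c'` differ only at `w`.  `Ls(c,u) = 4^{-|E|} Zs (LK4 G) ...` is a sum over
signs of products of `exp(K_l s_l)` over the links (off `B`) times a factor that does not depend on `c`; at most four links are at `w`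
(`Deg4` for `w = inl v`, two for `inr`), and for each of them `|K_l(c) - K_l(c')| ≤ b`: so `Ls(c) ≥ e^{-4b} Ls(c')`, same for `Lt`.  And
`wv(c)/nu(c w) ≥ e^{-l} wv(c')/nu(c' w)` (`0 ≤ cc² ≤ 1`).  So with `R(c) = Q(c)/nu(c w)`: `R(c) ≥ e^{-8b-l} R(c')` and
`∑_{c = c0 on A, c w ∈ S} Q(c) = ∑_{v ∈ S} nu(v) ∑_{d : off w} R(d, v) ≥ (∑_{v ∈ S} nu v) e^{-8b-l} ∑_{d} ∑_{v'} nu(v') R(d, v')`
(`∑ nu = 1`).
-/

set_option autoImplicit false

open Finset MeasureTheory

namespace H82.BX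

open H82.IC

variable {V E : Type} [Fintype V] [DecidableEq V] [Fintype E] [DecidableEq E]

/-- number of ends of the link `l` at `w`. -/
def GI7_d (G : Gr V E) (w : SV V E) (l : E × Fin 3) : ℝ :=
  (if (LK G).s l = w then 1 else 0) + (if (LK G).r l = w then 1 else 0)

theorem GI7_d_nonneg (G : Gr V E) (w : SV V E) (l : E × Fin 3) : 0 ≤ GI7_d G w l := by
  unfold GI7_d
  split_ifs <;> norm_num

theorem GI7_sum_d (G : Gr V E) (hG : Deg4 G) (w : SV V E) :
    ∑ e, ∑ j : Fin 3, GI7_d G w (e, j) ≤ 4 := by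
  rcases w with v | ⟨e0, t⟩
  · have h1 : ∀ e : E, ∑ j : Fin 3, GI7_d G (Sum.inl v : SV V E) (e, j) =
        (if G.s e = v then (1 : ℝ) else 0) + (if G.r e = v then 1 else 0) := by
      intro e
      rw [Fin.sum_univ_three]
      simp [GI7_d, LK]
    rw [Finset.sum_congr rfl fun e _ => h1 e, Finset.sum_add_distrib]
    rw [← Finset.sum_filter, ← Finset.sum_filter, Finset.sum_const, Finset.sum_const]
    have h2 := hG v
    simp only [nsmul_eq_mul, mul_one]
    exact_mod_cast h2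
  · have h1 : ∀ e : E, ∑ j : Fin 3, GI7_d G (Sum.inr (e0, t) : SV V E) (e, j) =
        if e = e0 then (2 : ℝ) else 0 := by
      intro e
      rw [Fin.sum_univ_three]
      by_cases h : e = e0
      · subst h
        cases t <;> simp [GI7_d, LK] <;> norm_num
      · cases t <;> simp [GI7_d, LK, h]
    rw [Finset.sum_congr rfl fun e _ => h1 e, Finset.sum_ite_eq' univ e0]
    simp
    norm_num

/-- the product over the links, compared at two couplings. -/
theorem GI7_Zs (G : Gr V E) (hG : Deg4 G) (B : Finset E) (w : SV V E) (b : ℝ) (hb : 0 ≤ b)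
    (K K' : E × Fin 3 → ℝ) (u : E → ℝ) (h0 : ∀ e ∈ B, 0 ≤ u e) (h1 : ∀ e ∈ B, u e ≤ 1)
    (hK : ∀ e, e ∉ B → ∀ j : Fin 3, |K (e, j) - K' (e, j)| ≤ b * GI7_d G w (e, j)) :
    Real.exp (-(4 * b)) * Zs (LK4 G) (p4 B K) (q4 B K u) ≤
      Zs (LK4 G) (p4 B K') (q4 B K' u) := by
  unfold Zs
  rw [Finset.mul_sum]
  refine Finset.sum_le_sum fun σ _ => ?_
  rw [Fintype.prod_prod_type, Fintype.prod_prod_type]
  have hsg : ∀ x y : SV V E, sg (σ x) * sg (σ y) = 1 ∨ sg (σ x) * sg (σ y) = -1 := by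
    intro x y
    unfold sg
    cases σ x <;> cases σ y <;> simp
  have hexp : ∀ (x s : ℝ), (s = 1 ∨ s = -1) → Real.cosh x + Real.sinh x * s = Real.exp (x * s) := by
    intro x s hs
    rcases hs with rfl | rfl
    · rw [mul_one, mul_one, Real.cosh_add_sinh]
    · rw [mul_neg_one, mul_neg_one, ← sub_eq_add_neg, Real.cosh_sub_sinh]
  have hterm : ∀ e : E, 0 ≤ ∏ j : Fin 4, (p4 B K (e, j) + q4 B K u (e, j) *
      (sg (σ ((LK4 G).s (e, j))) * sg (σ ((LK4 G).r (e, j))))) := by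
    intro e
    refine Finset.prod_nonneg fun j _ => ?_
    by_cases he : e ∈ B
    · have hs := hsg ((LK4 G).s (e, j)) ((LK4 G).r (e, j))
      have h2 := h0 e he
      have h3 := h1 e he
      fin_cases j
      · simp [p4, q4, he]
      · simp [p4, q4, he]
      · simp [p4, q4, he]
      · rcases hs with hs | hs
        · simp only [p4, q4, he, if_true] at hs ⊢
          rw [hs]
          simp
          linarith
        · simp only [p4, q4, he, if_true] at hs ⊢
          rw [hs]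
          simp
          linarith
    · have hs := hsg ((LK4 G).s (e, j)) ((LK4 G).r (e, j))
      fin_cases j
      · simp only [p4, q4, he, if_false]
        exact (hexp _ _ hs).symm ▸ (Real.exp_pos _).le
      · simp only [p4, q4, he, if_false]
        exact (hexp _ _ hs).symm ▸ (Real.exp_pos _).le
      · simp only [p4, q4, he, if_false]
        exact (hexp _ _ hs).symm ▸ (Real.exp_pos _).le
      · simp [p4, q4, he]
  have hcmp : ∀ e : E, Real.exp (-(b * ∑ j : Fin 3, GI7_d G w (e, j))) *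
      ∏ j : Fin 4, (p4 B K (e, j) + q4 B K u (e, j) *
      (sg (σ ((LK4 G).s (e, j))) * sg (σ ((LK4 G).r (e, j))))) ≤
      ∏ j : Fin 4, (p4 B K' (e, j) + q4 B K' u (e, j) *
      (sg (σ ((LK4 G).s (e, j))) * sg (σ ((LK4 G).r (e, j))))) := by
    intro e
    by_cases he : e ∈ B
    · have h2 : ∀ j, p4 B K (e, j) = p4 B K' (e, j) ∧ q4 B K u (e, j) = q4 B K' u (e, j) := by
        intro j
        simp [p4, q4, he]
      have h3 : (∏ j : Fin 4, (p4 B K' (e, j) + q4 B K' u (e, j) *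
        (sg (σ ((LK4 G).s (e, j))) * sg (σ ((LK4 G).r (e, j)))))) =
        ∏ j : Fin 4, (p4 B K (e, j) + q4 B K u (e, j) *
        (sg (σ ((LK4 G).s (e, j))) * sg (σ ((LK4 G).r (e, j))))) := by
        refine Finset.prod_congr rfl fun j _ => ?_
        rw [(h2 j).1, (h2 j).2]
      rw [h3]
      refine mul_le_of_le_one_left (hterm e) ?_
      rw [Real.exp_le_one_iff, neg_nonpos]
      exact mul_nonneg hb (Finset.sum_nonneg fun j _ => GI7_d_nonneg G w (e, j))
    · have hs := fun j : Fin 4 => hsg ((LK4 G).s (e, j)) ((LK4 G).r (e, j))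
      have hk := hK e he
      have h2 : ∀ (K : E × Fin 3 → ℝ), (∏ j : Fin 4, (p4 B K (e, j) + q4 B K u (e, j) *
        (sg (σ ((LK4 G).s (e, j))) * sg (σ ((LK4 G).r (e, j)))))) =
        Real.exp (K (e, 0) * (sg (σ ((LK4 G).s (e, 0))) * sg (σ ((LK4 G).r (e, 0))))) *
        Real.exp (K (e, 1) * (sg (σ ((LK4 G).s (e, 1))) * sg (σ ((LK4 G).r (e, 1))))) *
        Real.exp (K (e, 2) * (sg (σ ((LK4 G).s (e, 2))) * sg (σ ((LK4 G).r (e, 2))))) := by
        intro K
        rw [Fin.prod_univ_four, ← hexp _ _ (hs 0), ← hexp _ _ (hs 1), ← hexp _ _ (hs 2)]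
        simp [p4, q4, he]
      rw [h2 K, h2 K', ← Real.exp_add, ← Real.exp_add, ← Real.exp_add, ← Real.exp_add,
        ← Real.exp_add, Real.exp_le_exp, Fin.sum_univ_three]
      have h5 : ∀ (x y s d : ℝ), (s = 1 ∨ s = -1) → |x - y| ≤ d → x * s - d ≤ y * s := by
        intro x y s d hs' hd
        have := abs_le.1 hd
        rcases hs' with rfl | rfl <;> linarith [this.1, this.2]
      have h6 := h5 _ _ _ _ (hs 0) (hk 0)
      have h7 := h5 _ _ _ _ (hs 1) (hk 1)
      have h8 := h5 _ _ _ _ (hs 2) (hk 2)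
      linarith
  calc Real.exp (-(4 * b)) * ∏ e : E, ∏ j : Fin 4, (p4 B K (e, j) + q4 B K u (e, j) *
      (sg (σ ((LK4 G).s (e, j))) * sg (σ ((LK4 G).r (e, j)))))
      ≤ (∏ e : E, Real.exp (-(b * ∑ j : Fin 3, GI7_d G w (e, j)))) *
        ∏ e : E, ∏ j : Fin 4, (p4 B K (e, j) + q4 B K u (e, j) *
      (sg (σ ((LK4 G).s (e, j))) * sg (σ ((LK4 G).r (e, j))))) := by
        refine mul_le_mul_of_nonneg_right ?_ (Finset.prod_nonneg fun e _ => hterm e)
        rw [← Real.exp_sum, Real.exp_le_exp, Finset.sum_neg_distrib, ← Finset.mul_sum]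
        have h9 := mul_le_mul_of_nonneg_left (GI7_sum_d G hG w) hb
        linarith
    _ = ∏ e : E, (Real.exp (-(b * ∑ j : Fin 3, GI7_d G w (e, j))) *
        ∏ j : Fin 4, (p4 B K (e, j) + q4 B K u (e, j) *
      (sg (σ ((LK4 G).s (e, j))) * sg (σ ((LK4 G).r (e, j)))))) := by
        rw [Finset.prod_mul_distrib]
    _ ≤ _ := by
        refine Finset.prod_le_prod (fun e _ => mul_nonneg (Real.exp_pos _).le (hterm e)) ?_
        intro e _
        exact hcmp e

/-- product coupling bound. -/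
theorem GI7_K (G : Gr V E) (M : Al) (x : Fin (M.k + 1) → ℝ) (hx0 : ∀ i, 0 ≤ x i) (hx1 : ∀ i, x i ≤ 1)
    (b : ℝ) (hb : 0 ≤ b) (c c' : SV V E → Fin (M.k + 1)) (w : SV V E) (hc : ∀ v, v ≠ w → c v = c' v)
    (l : E × Fin 3) :
    |b * (x (c ((LK G).s l)) * x (c ((LK G).r l))) - b * (x (c' ((LK G).s l)) * x (c' ((LK G).r l)))| ≤
      b * GI7_d G w l := by
  rw [← mul_sub, abs_mul, abs_of_nonneg hb]
  refine mul_le_mul_of_nonneg_left ?_ hb
  have hp : ∀ i j, 0 ≤ x i * x j ∧ x i * x j ≤ 1 := fun i j =>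
    ⟨mul_nonneg (hx0 i) (hx0 j), mul_le_one₀ (hx1 i) (hx0 j) (hx1 j)⟩
  unfold GI7_d
  by_cases h1 : (LK G).s l = w
  · have h3 : (0 : ℝ) ≤ (if (LK G).r l = w then (1 : ℝ) else 0) := by split_ifs <;> norm_num
    have h4 := hp (c ((LK G).s l)) (c ((LK G).r l))
    have h5 := hp (c' ((LK G).s l)) (c' ((LK G).r l))
    simp only [h1, if_true]
    rw [h1] at h4 h5
    rw [abs_le]
    constructor <;> linarith [h4.1, h4.2, h5.1, h5.2]
  · by_cases h2 : (LK G).r l = w
    · have h4 := hp (c ((LK G).s l)) (c ((LK G).r l))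
      have h5 := hp (c' ((LK G).s l)) (c' ((LK G).r l))
      simp only [h1, h2, if_true, if_false]
      rw [h2] at h4 h5
      rw [abs_le]
      constructor <;> linarith [h4.1, h4.2, h5.1, h5.2]
    · rw [hc _ h1, hc _ h2, sub_self, abs_zero]
      simp [h1, h2]

theorem GI7_Ls (G : Gr V E) (hG : Deg4 G) (M : Al) (hM : M.Ok) (b : ℝ) (hb : 0 ≤ b) (B : Finset E)
    (c c' : SV V E → Fin (M.k + 1)) (w : SV V E) (hc : ∀ v, v ≠ w → c v = c' v) (u : E → ℝ)
    (h0 : ∀ e ∈ B, 0 ≤ u e) (h1 : ∀ e ∈ B, u e ≤ 1) :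
    Real.exp (-(4 * b)) * Ls G M b B c u ≤ Ls G M b B c' u := by
  have h2 := GI7_Zs G hG B w b hb (la G M b c) (la G M b c') u h0 h1
    (fun e _ j => GI7_K G M M.cc (fun i => (hM.cc0 i).le) hM.cc1 b hb c c' w hc (e, j))
  rw [chain_sum, chain_sum] at h2
  have h3 : (0 : ℝ) < 4 ^ Fintype.card E := by positivity
  unfold Ls rr
  rw [mul_assoc, mul_assoc, mul_left_comm] at h2
  exact le_of_mul_le_mul_left h2 h3

theorem GI7_Lt (G : Gr V E) (hG : Deg4 G) (M : Al) (hM : M.Ok) (b : ℝ) (hb : 0 ≤ b) (B : Finset E)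
    (c c' : SV V E → Fin (M.k + 1)) (w : SV V E) (hc : ∀ v, v ≠ w → c v = c' v) (u : E → ℝ)
    (h0 : ∀ e ∈ B, 0 ≤ u e) (h1 : ∀ e ∈ B, u e ≤ 1) :
    Real.exp (-(4 * b)) * Lt G M b B c u ≤ Lt G M b B c' u := by
  have h2 := GI7_Zs G hG B w b hb (lb G M b c) (lb G M b c') u h0 h1
    (fun e _ j => GI7_K G M M.ss (fun i => (hM.ss0 i).le) hM.ss1 b hb c c' w hc (e, j))
  rw [chain_sum, chain_sum] at h2
  have h3 : (0 : ℝ) < 4 ^ Fintype.card E := by positivity
  unfold Lt tt
  rw [mul_assoc, mul_assoc, mul_left_comm] at h2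
  exact le_of_mul_le_mul_left h2 h3

theorem GI7_Ls_nonneg (G : Gr V E) (M : Al) (hM : M.Ok) (b : ℝ) (hb : 0 < b) (B : Finset E)
    (c : SV V E → Fin (M.k + 1)) (u : E → ℝ)
    (h0 : ∀ e ∈ B, 0 ≤ u e) (h1 : ∀ e ∈ B, u e ≤ 1) : 0 < Ls G M b B c u ∧ 0 < Lt G M b B c u := by
  constructor
  · unfold Ls
    refine mul_pos (Finset.prod_pos fun e _ => Finset.prod_pos fun j _ => Real.cosh_pos _) ?_
    refine Zv_pos G _ ?_ ?_
    · intro e
      split_ifs with he
      · exact h0 e he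
      · exact (rr_bd G M hM b hb c e).1.le
    · intro e
      split_ifs with he
      · exact h1 e he
      · exact (rr_bd G M hM b hb c e).2.1.le
  · unfold Lt
    refine mul_pos (Finset.prod_pos fun e _ => Finset.prod_pos fun j _ => Real.cosh_pos _) ?_
    refine Zv_pos G _ ?_ ?_
    · intro e
      split_ifs with he
      · exact h0 e he
      · exact (rr_bd G M hM b hb c e).2.2.1.le
    · intro e
      split_ifs with he
      · exact h1 e he
      · exact (rr_bd G M hM b hb c e).2.2.2.le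

theorem GI7_wv (M : Al) (hM : M.Ok) (l : ℝ) (hl : 0 ≤ l) (c : SV V E → Fin (M.k + 1)) (w : SV V E)
    (v : Fin (M.k + 1)) :
    Real.exp (-l) * (M.nu v * wv M l c) ≤ M.nu (c w) * wv M l (Function.update c w v) := by
  unfold wv
  rw [← Finset.mul_prod_erase univ _ (Finset.mem_univ w),
    ← Finset.mul_prod_erase univ (fun w' => M.nu (Function.update c w v w') *
      Real.exp (l * pn w' * M.cc (Function.update c w v w') ^ 2)) (Finset.mem_univ w)]
  have h1 : ∏ x ∈ univ.erase w, (M.nu (Function.update c w v x) *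
      Real.exp (l * pn x * M.cc (Function.update c w v x) ^ 2)) =
      ∏ x ∈ univ.erase w, (M.nu (c x) * Real.exp (l * pn x * M.cc (c x) ^ 2)) := by
    refine Finset.prod_congr rfl fun x hx => ?_
    rw [Function.update_of_ne (Finset.ne_of_mem_erase hx)]
  rw [h1, Function.update_self]
  have h2 : 0 ≤ ∏ x ∈ univ.erase w, (M.nu (c x) * Real.exp (l * pn x * M.cc (c x) ^ 2)) :=
    Finset.prod_nonneg fun x _ => mul_nonneg (hM.nu0 _).le (Real.exp_pos _).le
  have hpn : 0 ≤ (pn w : ℝ) ∧ (pn w : ℝ) ≤ 1 := by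
    rcases w with v | ⟨e, t⟩
    · simp [pn]
    · cases t <;> simp [pn]
  have h3 : Real.exp (-l) * Real.exp (l * pn w * M.cc (c w) ^ 2) ≤
      Real.exp (l * pn w * M.cc v ^ 2) := by
    rw [← Real.exp_add, Real.exp_le_exp]
    have h4 : l * pn w * M.cc (c w) ^ 2 ≤ l := by
      have h5 : M.cc (c w) ^ 2 ≤ 1 := pow_le_one₀ (hM.cc0 _).le (hM.cc1 _)
      have h6 : pn w * M.cc (c w) ^ 2 ≤ 1 := mul_le_one₀ hpn.2 (sq_nonneg _) h5
      calc l * pn w * M.cc (c w) ^ 2 = l * (pn w * M.cc (c w) ^ 2) := by ring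
        _ ≤ l * 1 := mul_le_mul_of_nonneg_left h6 hl
        _ = l := mul_one l
    have h7 : 0 ≤ l * pn w * M.cc v ^ 2 := mul_nonneg (mul_nonneg hl hpn.1) (sq_nonneg _)
    linarith
  have h8 : 0 ≤ M.nu v * M.nu (c w) * ∏ x ∈ univ.erase w, (M.nu (c x) *
      Real.exp (l * pn x * M.cc (c x) ^ 2)) :=
    mul_nonneg (mul_nonneg (hM.nu0 _).le (hM.nu0 _).le) h2
  have h9 := mul_le_mul_of_nonneg_left h3 h8
  calc _ = M.nu v * M.nu (c w) * (∏ x ∈ univ.erase w, (M.nu (c x) *
      Real.exp (l * pn x * M.cc (c x) ^ 2))) *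
      (Real.exp (-l) * Real.exp (l * pn w * M.cc (c w) ^ 2)) := by ring
    _ ≤ _ := h9
    _ = _ := by ring

/-- weight of the moduli after summing over the bits. -/
noncomputable def GI7_Q (G : Gr V E) (M : Al) (b l : ℝ) (B : Finset E) (tB : E → ℝ)
    (o0 : E → Bool) (c : SV V E → Fin (M.k + 1)) : ℝ :=
  wv M l c * Ls G M b B c (bt o0) * Lt G M b B c tB

theorem GI7_SB (G : Gr V E) (M : Al) (b l : ℝ) (A : Finset (SV V E)) (B : Finset E) (tB : E → ℝ)
    (c0 : SV V E → Fin (M.k + 1)) (o0 : E → Bool) (φ : (SV V E → Fin (M.k + 1)) → ℝ) :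
    SB G M b l A B tB c0 o0 (fun c _ => φ c) =
      ∑ c, (if ∀ w ∈ A, c w = c0 w then 1 else 0) * (GI7_Q G M b l B tB o0 c * φ c) := by
  unfold SB
  refine Finset.sum_congr rfl fun c _ => ?_
  by_cases hA : ∀ w ∈ A, c w = c0 w
  · rw [if_pos hA, one_mul]
    have h1 := fo_sum G B (rr G M b c) o0
    unfold fo at h1
    unfold GI7_Q Ls Lt
    rw [← h1]
    simp only [Finset.mul_sum, Finset.sum_mul]
    refine Finset.sum_congr rfl fun o _ => ?_
    by_cases ho : ∀ e ∈ B, o e = o0 e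
    · rw [if_pos ⟨hA, ho⟩, if_pos ho]
      unfold WB AA
      simp only [Finset.prod_mul_distrib]
      ring
    · rw [if_neg (fun h => ho h.2), if_neg ho]
      ring
  · rw [if_neg hA, zero_mul]
    refine Finset.sum_eq_zero fun o _ => ?_
    rw [if_neg (fun h => hA h.1)]

/-- exchange of the value at `w` with the extra value. -/
def GI7_eq {k : ℕ} (w : SV V E) :
    (SV V E → Fin (k + 1)) × Fin (k + 1) ≃ (SV V E → Fin (k + 1)) × Fin (k + 1) where
  toFun p := (Function.update p.1 w p.2, p.1 w)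
  invFun p := (Function.update p.1 w p.2, p.1 w)
  left_inv p := by
    simp
  right_inv p := by
    simp

theorem fin_en (G : Gr V E) (hG : Deg4 G) (M : Al) (hM : M.Ok) (b l : ℝ) (hb : 0 < b) (hl : 0 ≤ l)
    (A : Finset (SV V E)) (B : Finset E)
    (hB : ∀ e ∈ B, Sum.inl (G.s e) ∈ A ∧ Sum.inl (G.r e) ∈ A ∧ Sum.inr (e, false) ∈ A ∧
      Sum.inr (e, true) ∈ A)
    (tB : E → ℝ) (h0 : ∀ e ∈ B, 0 ≤ tB e) (h1 : ∀ e ∈ B, tB e ≤ 1)
    (c0 : SV V E → Fin (M.k + 1)) (o0 : E → Bool) (w : SV V E) (hw : w ∉ A)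
    (S : Finset (Fin (M.k + 1))) :
    Real.exp (-(8 * b + l)) * ∑ v ∈ S, M.nu v ≤
      EB G M b l A B tB c0 o0 (fun c _ => if c w ∈ S then 1 else 0) := by
  have hpos := SB_pos G M hM b l hb A B tB h0 h1 c0 o0
  unfold EB
  rw [le_div_iff₀ hpos, GI7_SB G M b l A B tB c0 o0 (fun _ => 1),
    GI7_SB G M b l A B tB c0 o0 (fun c => if c w ∈ S then 1 else 0)]
  have hbt0 : ∀ e ∈ B, 0 ≤ bt o0 e := by
    intro e _
    unfold bt
    split_ifs <;> norm_num
  have hbt1 : ∀ e ∈ B, bt o0 e ≤ 1 := by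
    intro e _
    unfold bt
    split_ifs <;> norm_num
  -- the local comparison
  have key : ∀ (c : SV V E → Fin (M.k + 1)) (v : Fin (M.k + 1)),
      Real.exp (-(8 * b + l)) * (M.nu v * GI7_Q G M b l B tB o0 c) ≤
        M.nu (c w) * GI7_Q G M b l B tB o0 (Function.update c w v) := by
    intro c v
    have hc : ∀ x, x ≠ w → c x = Function.update c w v x := by
      intro x hx
      rw [Function.update_of_ne hx]
    have e1 := GI7_Ls G hG M hM b hb.le B c (Function.update c w v) w hc (bt o0) hbt0 hbt1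
    have e2 := GI7_Lt G hG M hM b hb.le B c (Function.update c w v) w hc tB h0 h1
    have e3 := GI7_wv M hM l hl c w v
    have p1 := (GI7_Ls_nonneg G M hM b hb B c (bt o0) hbt0 hbt1).1
    have p2 := (GI7_Ls_nonneg G M hM b hb B c tB h0 h1).2
    have p3 := (GI7_Ls_nonneg G M hM b hb B (Function.update c w v) (bt o0) hbt0 hbt1).1
    have p4' := (GI7_Ls_nonneg G M hM b hb B (Function.update c w v) tB h0 h1).2
    have hw1 : 0 ≤ wv M l (Function.update c w v) := by
      unfold wv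
      exact Finset.prod_nonneg fun x _ => mul_nonneg (hM.nu0 _).le (Real.exp_pos _).le
    have hexp : Real.exp (-(8 * b + l)) =
        Real.exp (-l) * Real.exp (-(4 * b)) * Real.exp (-(4 * b)) := by
      rw [← Real.exp_add, ← Real.exp_add]
      congr 1
      ring
    unfold GI7_Q
    calc Real.exp (-(8 * b + l)) * (M.nu v * (wv M l c * Ls G M b B c (bt o0) * Lt G M b B c tB))
        = (Real.exp (-l) * (M.nu v * wv M l c)) * (Real.exp (-(4 * b)) * Ls G M b B c (bt o0)) *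
          (Real.exp (-(4 * b)) * Lt G M b B c tB) := by
          rw [hexp]; ring
      _ ≤ (M.nu (c w) * wv M l (Function.update c w v)) *
          Ls G M b B (Function.update c w v) (bt o0) * Lt G M b B (Function.update c w v) tB := by
          refine mul_le_mul (mul_le_mul e3 e1 (by positivity) (mul_nonneg (hM.nu0 _).le hw1)) e2
            (by positivity) (mul_nonneg (mul_nonneg (hM.nu0 _).le hw1) p3.le)
      _ = _ := by ring
  -- the two sides as double sums
  have hL : Real.exp (-(8 * b + l)) * (∑ v ∈ S, M.nu v) *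
      ∑ c, (if ∀ w ∈ A, c w = c0 w then (1 : ℝ) else 0) * (GI7_Q G M b l B tB o0 c * 1) =
      ∑ c, ∑ v, (if ∀ w ∈ A, c w = c0 w then (1 : ℝ) else 0) * (if v ∈ S then 1 else 0) *
        (Real.exp (-(8 * b + l)) * (M.nu v * GI7_Q G M b l B tB o0 c)) := by
    rw [Finset.mul_sum]
    refine Finset.sum_congr rfl fun c _ => ?_
    have h2 : ∑ v ∈ S, M.nu v = ∑ v, (if v ∈ S then (1 : ℝ) else 0) * M.nu v := by
      simp [Finset.sum_ite_mem]
    rw [h2, Finset.mul_sum, Finset.sum_mul]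
    refine Finset.sum_congr rfl fun v _ => ?_
    ring
  have hR : ∑ c, (if ∀ w ∈ A, c w = c0 w then (1 : ℝ) else 0) *
      (GI7_Q G M b l B tB o0 c * (if c w ∈ S then 1 else 0)) =
      ∑ c, ∑ v, (if ∀ w ∈ A, c w = c0 w then (1 : ℝ) else 0) * (if c w ∈ S then 1 else 0) *
        (M.nu v * GI7_Q G M b l B tB o0 c) := by
    refine Finset.sum_congr rfl fun c _ => ?_
    rw [← Finset.mul_sum, ← Finset.sum_mul, hM.nu1]
    ring
  have hswap : ∑ c, ∑ v, (if ∀ w ∈ A, c w = c0 w then (1 : ℝ) else 0) * (if c w ∈ S then 1 else 0) *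
        (M.nu v * GI7_Q G M b l B tB o0 c) =
      ∑ c, ∑ v, (if ∀ w ∈ A, c w = c0 w then (1 : ℝ) else 0) * (if v ∈ S then 1 else 0) *
        (M.nu (c w) * GI7_Q G M b l B tB o0 (Function.update c w v)) := by
    rw [← Fintype.sum_prod_type' (fun (c : SV V E → Fin (M.k + 1)) (v : Fin (M.k + 1)) =>
        (if ∀ w ∈ A, c w = c0 w then (1 : ℝ) else 0) * (if c w ∈ S then 1 else 0) *
        (M.nu v * GI7_Q G M b l B tB o0 c)),
      ← Fintype.sum_prod_type' (fun (c : SV V E → Fin (M.k + 1)) (v : Fin (M.k + 1)) =>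
        (if ∀ w ∈ A, c w = c0 w then (1 : ℝ) else 0) * (if v ∈ S then 1 else 0) *
        (M.nu (c w) * GI7_Q G M b l B tB o0 (Function.update c w v))),
      ← (GI7_eq (k := M.k) w).sum_comp]
    refine Finset.sum_congr rfl fun p _ => ?_
    have h3 : (∀ w' ∈ A, Function.update p.1 w p.2 w' = c0 w') ↔ ∀ w' ∈ A, p.1 w' = c0 w' := by
      refine forall₂_congr fun w' hw' => ?_
      have h4 : w' ≠ w := by
        rintro rfl; exact hw hw'
      rw [Function.update_of_ne h4]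
    simp only [GI7_eq, Equiv.coe_fn_mk, h3, Function.update_self]
  rw [hL, hR, hswap]
  refine Finset.sum_le_sum fun c _ => Finset.sum_le_sum fun v _ => ?_
  refine mul_le_mul_of_nonneg_left (key c v) (mul_nonneg ?_ ?_)
  · split_ifs <;> norm_num
  · split_ifs <;> norm_num

end H82.BX
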