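import Pool.Agent.H82.BX.BP4
import Pool.Agent.H82.BX.GI7

/-!
# BP5: the lower bound of the conditional covariance by the comparison quantity

Fix `S, x, e` as in BP1.  `a ζ μ = ∑_o cs (S ∪ blk e) (xb x e ζ μ o) mW` (`> 0`), `psi ζ μ = Ps .. (rr ζ μ) (tt ζ μ) = (∑_o cs (S ∪ blk e) (xb ..) (mW f))/a ζ μ` (`bx1`, `bx2`, `bN_aff`).
`blk_low` with `φ = cc²`, `lo = M.lo`, `hi = M.hi`, `mi = M.mi`, `Δ = κ QB` from `blk_psi` (`c` from `chr_diff`, used for `cc` with `ζ ∈ hi, ζ' ∈ lo`, and for `ss` with the roles of `ζ, ζ'` exchanged; `ρ0 = tanh b`):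
* `hpsi`: `Ps_mono`, `chr_mono`, `cc` monotone, `ss` antitone;
* masses: `∑_{ζ ∈ lo} ∑_μ a ζ μ = cs S x (mW 1[z_e ∈ lo])` etc., so `fin_en` (through `ce_EB` with the set `S` resp. `S ∪ {z_e}`, both admissible; the hypothesis `hB` of `fin_en` follows from `Adm`, `0 ≤ tt ≤ 1`) gives
  `p0 = e^{-(8b+Λ)}/4` (`M.Ok.lo, hi, mi`);
* `hst`: `(∑_μ a ζ μ g μ)/∑_μ a ζ μ = ce m (g(c m_e)) (S ∪ {z_e}) (x with z_e := ζ)`, monotone in `ζ` by `mW_mon`.
* the right side of `blk_low` is `ce m (f c2) S x - ce m f S x ce m c2 S x` (`bx3`).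
`Fin (M.k+1)` is nonempty; `φ ζ = cc ζ ^ 2 ≤ 9/25` on `lo`, `≥ 16/25` on `hi`.
-/

set_option autoImplicit false

open Finset MeasureTheory

namespace H82.BX

open H82.IC

section aux
variable {V E : Type} [Fintype V] [DecidableEq V] [Fintype E] [DecidableEq E]

theorem b5_z {k : ℕ} (x : ∀ i, XI k V E i) (e : E) (ζ μ : Fin (k + 1)) (o : Bool) :
    pc (xb x e ζ μ o) (Sum.inr (e, false)) = ζ := by
  show Function.update (Function.update (pc x) (Sum.inr (e, false)) ζ) (Sum.inr (e, true)) μ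
    (Sum.inr (e, false)) = ζ
  rw [Function.update_of_ne (by simp), Function.update_self]

theorem b5_m {k : ℕ} (x : ∀ i, XI k V E i) (e : E) (ζ μ : Fin (k + 1)) (o : Bool) :
    pc (xb x e ζ μ o) (Sum.inr (e, true)) = μ := by
  show Function.update (Function.update (pc x) (Sum.inr (e, false)) ζ) (Sum.inr (e, true)) μ
    (Sum.inr (e, true)) = μ
  rw [Function.update_self]

theorem b5_mono {k : ℕ} (x : ∀ i, XI k V E i) (e : E) (ζ μ ζ' μ' : Fin (k + 1)) (o o' : Bool)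
    (h1 : ζ ≤ ζ') (h2 : μ ≤ μ') : pc (xb x e ζ μ o) ≤ pc (xb x e ζ' μ' o') := by
  show Function.update (Function.update (pc x) (Sum.inr (e, false)) ζ) (Sum.inr (e, true)) μ ≤
    Function.update (Function.update (pc x) (Sum.inr (e, false)) ζ') (Sum.inr (e, true)) μ'
  intro j
  by_cases hj1 : j = Sum.inr (e, true)
  · subst hj1
    rw [Function.update_self, Function.update_self]
    exact h2
  · rw [Function.update_of_ne hj1, Function.update_of_ne hj1]
    by_cases hj : j = Sum.inr (e, false)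
    · subst hj
      rw [Function.update_self, Function.update_self]
      exact h1
    · rw [Function.update_of_ne hj, Function.update_of_ne hj]

theorem b5_pc {k : ℕ} (x : ∀ i, XI k V E i) (e : E) (ζ μ : Fin (k + 1)) (o o' : Bool) :
    pc (xb x e ζ μ o) = pc (xb x e ζ μ o') := rfl

theorem b5_cyl {k : ℕ} (S : Finset (SV V E ⊕ E)) (x y : ∀ i, XI k V E i) (e : E)
    (ζ μ : Fin (k + 1)) (o : Bool) (h : ∀ i ∈ S ∪ blk e, y i = xb x e ζ μ o i) :
    pc y (Sum.inr (e, false)) = ζ ∧ pc y (Sum.inr (e, true)) = μ := by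
  constructor
  · have h1 := h (Sum.inl (Sum.inr (e, false))) (by simp [blk])
    exact h1.trans (b5_z x e ζ μ o)
  · have h1 := h (Sum.inl (Sum.inr (e, true))) (by simp [blk])
    exact h1.trans (b5_m x e ζ μ o)

theorem b5_fac {k : ℕ} (S : Finset (SV V E ⊕ E)) (x : ∀ i, XI k V E i) (e : E)
    (ζ μ : Fin (k + 1)) (o : Bool) (φ : Fin (k + 1) → Fin (k + 1) → ℝ)
    (h : (∀ i, XI k V E i) → ℝ) :
    cs (S ∪ blk e) (xb x e ζ μ o)
        (fun y => φ (pc y (Sum.inr (e, false))) (pc y (Sum.inr (e, true))) * h y) =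
      φ ζ μ * cs (S ∪ blk e) (xb x e ζ μ o) h := by
  unfold cs
  rw [Finset.mul_sum]
  refine Finset.sum_congr rfl fun y _ => ?_
  by_cases hc : ∀ i ∈ S ∪ blk e, y i = xb x e ζ μ o i
  · rw [if_pos hc, if_pos hc]
    show φ (pc y (Sum.inr (e, false))) (pc y (Sum.inr (e, true))) * h y = φ ζ μ * h y
    rw [(b5_cyl S x y e ζ μ o hc).1, (b5_cyl S x y e ζ μ o hc).2]
  · rw [if_neg hc, if_neg hc, mul_zero]

theorem b5_sum (G : Gr V E) (M : Al) (S : Finset (SV V E ⊕ E)) (hS : Adm G S)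
    (x : ∀ i, XI M.k V E i) (e : E) (hz : Sum.inl (Sum.inr (e, false)) ∉ S)
    (φ : Fin (M.k + 1) → Fin (M.k + 1) → ℝ) (h : (∀ i, XI M.k V E i) → ℝ) :
    cs S x (fun y => φ (pc y (Sum.inr (e, false))) (pc y (Sum.inr (e, true))) * h y) =
      ∑ ζ : Fin (M.k + 1), ∑ μ : Fin (M.k + 1), φ ζ μ *
        ∑ o : Bool, cs (S ∪ blk e) (xb x e ζ μ o) h := by
  rw [bx3 G M S hS x e hz]
  refine Finset.sum_congr rfl fun ζ _ => Finset.sum_congr rfl fun μ _ => ?_
  rw [Finset.mul_sum]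
  exact Finset.sum_congr rfl fun o _ => b5_fac S x e ζ μ o φ h

theorem b5_ins {k : ℕ} (S : Finset (SV V E ⊕ E)) (x : ∀ i, XI k V E i) (e : E)
    (hz : Sum.inl (Sum.inr (e, false)) ∉ S) (ζ : Fin (k + 1)) (g : (∀ i, XI k V E i) → ℝ) :
    cs (insert (Sum.inl (Sum.inr (e, false))) S)
        (Function.update x (Sum.inl (Sum.inr (e, false))) ζ) g =
      cs S x (fun y => (if pc y (Sum.inr (e, false)) = ζ then 1 else 0) * g y) := by
  unfold cs
  refine Finset.sum_congr rfl fun y _ => ?_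
  have h1 := os1_cond S x y (Sum.inl (Sum.inr (e, false))) hz ζ
  by_cases h2 : ∀ j ∈ S, y j = x j
  · by_cases h3 : pc y (Sum.inr (e, false)) = ζ
    · rw [if_pos (h1.2 ⟨h3, h2⟩), if_pos h2]
      show g y = (if pc y (Sum.inr (e, false)) = ζ then 1 else 0) * g y
      rw [if_pos h3, one_mul]
    · rw [if_neg (fun hc => h3 (h1.1 hc).1), if_pos h2]
      show 0 = (if pc y (Sum.inr (e, false)) = ζ then 1 else 0) * g y
      rw [if_neg h3, zero_mul]
  · rw [if_neg (fun hc => h2 (h1.1 hc).2), if_neg h2]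

theorem b5_insm (G : Gr V E) (M : Al) (S : Finset (SV V E ⊕ E)) (hS : Adm G S)
    (x : ∀ i, XI M.k V E i) (e : E) (hz : Sum.inl (Sum.inr (e, false)) ∉ S)
    (ζ : Fin (M.k + 1)) (g : Fin (M.k + 1) → ℝ) (h : (∀ i, XI M.k V E i) → ℝ) :
    cs (insert (Sum.inl (Sum.inr (e, false))) S)
        (Function.update x (Sum.inl (Sum.inr (e, false))) ζ)
        (fun y => h y * g (pc y (Sum.inr (e, true)))) =
      ∑ μ : Fin (M.k + 1), (∑ o : Bool, cs (S ∪ blk e) (xb x e ζ μ o) h) * g μ := by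
  rw [b5_ins S x e hz ζ]
  have h1 : (fun y : (∀ i, XI M.k V E i) => (if pc y (Sum.inr (e, false)) = ζ then (1 : ℝ) else 0) *
      (h y * g (pc y (Sum.inr (e, true))))) =
      fun y => (fun a c => (if a = ζ then (1 : ℝ) else 0) * g c) (pc y (Sum.inr (e, false)))
        (pc y (Sum.inr (e, true))) * h y := by
    funext y
    ring
  rw [h1, b5_sum G M S hS x e hz (fun a c => (if a = ζ then (1 : ℝ) else 0) * g c) h,
    Finset.sum_eq_single ζ]
  · refine Finset.sum_congr rfl fun μ _ => ?_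
    simp only [if_true]
    ring
  · intro ζ' _ hne
    refine Finset.sum_eq_zero fun μ _ => ?_
    simp [hne]
  · intro hc
    exact absurd (Finset.mem_univ _) hc

theorem b5_adm (G : Gr V E) (S : Finset (SV V E ⊕ E)) (hS : Adm G S) (e : E)
    (hs : Sum.inl (Sum.inl (G.s e)) ∈ S) (hr : Sum.inl (Sum.inl (G.r e)) ∈ S) :
    Adm G (insert (Sum.inl (Sum.inr (e, false))) S) := by
  constructor
  · intro e' he'
    rw [Finset.mem_insert] at he' ⊢
    rcases he' with he' | he'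
    · exact absurd he' (by simp)
    · exact Or.inr (hS.bit e' he')
  · intro e' he'
    rw [Finset.mem_insert] at he' ⊢
    rcases he' with he' | he'
    · exact absurd he' (by simp)
    · exact Or.inr (hS.mm e' he')
  · intro e' he'
    rw [Finset.mem_insert] at he'
    rcases he' with he' | he'
    · have h1 : e' = e := by
        have h2 := Sum.inl_injective he'
        have h3 := Sum.inr_injective h2
        exact (Prod.mk.inj h3).1
      subst h1
      exact ⟨Finset.mem_insert_of_mem hs, Finset.mem_insert_of_mem hr⟩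
    · exact ⟨Finset.mem_insert_of_mem (hS.zz e' he').1, Finset.mem_insert_of_mem (hS.zz e' he').2⟩

theorem b5_fe (G : Gr V E) (hG : Deg4 G) (M : Al) (hM : M.Ok) (b l Λ : ℝ) (hb : 0 < b) (hl : 0 ≤ l)
    (hlΛ : l ≤ Λ) (S : Finset (SV V E ⊕ E)) (hS : Adm G S) (x : ∀ i, XI M.k V E i)
    (w : SV V E) (hw : Sum.inl w ∉ S) (T : Finset (Fin (M.k + 1))) (hT : 1 / 4 ≤ ∑ c ∈ T, M.nu c) :
    Real.exp (-(8 * b + Λ)) / 4 * cs S x (mW G M b l) ≤
      cs S x (fun y => mW G M b l y * (if pc y w ∈ T then 1 else 0)) := by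
  have h1 := fin_en G hG M hM b l hb hl (sA S) (sB S)
    (by
      intro e' he'
      rw [mem_sB] at he'
      have h2 := hS.bit e' he'
      have h3 := hS.mm e' h2
      have h4 := hS.zz e' h3
      exact ⟨(mem_sA S _).2 h4.1, (mem_sA S _).2 h4.2, (mem_sA S _).2 h3, (mem_sA S _).2 h2⟩)
    (tt G M b (pc x)) (fun e' _ => (rr_bd G M hM b hb (pc x) e').2.2.1.le)
    (fun e' _ => (rr_bd G M hM b hb (pc x) e').2.2.2.le) (pc x) (po x) w
    (fun hc => hw ((mem_sA S _).1 hc)) T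
  have h2 := ce_EB G M hM b l hb S hS (fun y => if pc y w ∈ T then 1 else 0) x
  have h3 : EB G M b l (sA S) (sB S) (tt G M b (pc x)) (pc x) (po x)
      (fun c o => (fun y : (∀ i, XI M.k V E i) => if pc y w ∈ T then (1 : ℝ) else 0) (mkx c o)) =
      EB G M b l (sA S) (sB S) (tt G M b (pc x)) (pc x) (po x)
        (fun c _ => if c w ∈ T then 1 else 0) := rfl
  rw [h3] at h2
  rw [← h2] at h1
  have hc : 0 < cs S x (mW G M b l) := cs_pos _ (mW_pos G M hM b l hb) S x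
  have h4 : Real.exp (-(8 * b + Λ)) / 4 ≤ Real.exp (-(8 * b + l)) * ∑ v ∈ T, M.nu v := by
    have h5 : Real.exp (-(8 * b + Λ)) ≤ Real.exp (-(8 * b + l)) :=
      Real.exp_le_exp.2 (by linarith)
    have h6 := Real.exp_pos (-(8 * b + Λ))
    have h7 := mul_le_mul h5 hT (by norm_num) (le_trans h6.le h5)
    linarith
  have h5 := le_trans h4 h1
  unfold ce at h5
  rwa [le_div_iff₀ hc] at h5

end aux

theorem b5_psi {V E : Type} [Fintype V] [DecidableEq V] [Fintype E] [DecidableEq E] (G : Gr V E)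
    (M : Al) (hM : M.Ok) (b l : ℝ) (hb : 0 < b) (S : Finset (SV V E ⊕ E)) (hS : Adm G S)
    (x : ∀ i, XI M.k V E i) (e : E) (hs : Sum.inl (Sum.inl (G.s e)) ∈ S)
    (hr : Sum.inl (Sum.inl (G.r e)) ∈ S) (hz : Sum.inl (Sum.inr (e, false)) ∉ S)
    (f : (E → Bool) → ℝ) (ζ μ : Fin (M.k + 1)) :
    ∑ o : Bool, cs (S ∪ blk e) (xb x e ζ μ o) (fun y => mW G M b l y * f (po y)) =
      (∑ o : Bool, cs (S ∪ blk e) (xb x e ζ μ o) (mW G M b l)) *
        Ps (fun o => bN G M b l S x e (fun _ => 1) o 0)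
          (fun o => bN G M b l S x e (fun _ => 1) o 1 - bN G M b l S x e (fun _ => 1) o 0)
          (fun o => bN G M b l S x e f o 0)
          (fun o => bN G M b l S x e f o 1 - bN G M b l S x e f o 0)
          (rr G M b (pc (xb x e ζ μ false)) e) (tt G M b (pc (xb x e ζ μ false)) e) := by
  have hmp := mW_pos G M hM b l hb
  obtain ⟨C, hC, h2⟩ := bx2 G M hM b l hb S hS x e hs hr hz
  have h1 := bx1 G M hM b l hb S hS x e hs hr hz f ζ μ
  have h3 := h2 ζ μ
  have hp : ∀ o, 0 < cs (S ∪ blk e) (xb x e ζ μ o) (mW G M b l) := fun o => cs_pos _ hmp _ _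
  set w : ℝ := C * (M.nu ζ * Real.exp (l * M.cc ζ ^ 2) * M.nu μ *
    AA G M b (pc (xb x e ζ μ false)) e) with hw
  set r : ℝ := rr G M b (pc (xb x e ζ μ false)) e with hr'
  set t : ℝ := tt G M b (pc (xb x e ζ μ false)) e with ht'
  have hf : cs (S ∪ blk e) (xb x e ζ μ false) (mW G M b l) =
      w * (1 - r) * bN G M b l S x e (fun _ => 1) false t := by
    have := h3 false
    simpa using this
  have htr : cs (S ∪ blk e) (xb x e ζ μ true) (mW G M b l) =
      w * r * bN G M b l S x e (fun _ => 1) true t := by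
    have := h3 true
    simpa [b5_pc x e ζ μ true false] using this
  have hbf : bN G M b l S x e (fun _ => 1) false t ≠ 0 := by
    intro hc
    have := hp false
    rw [hf, hc, mul_zero] at this
    exact lt_irrefl _ this
  have hbt : bN G M b l S x e (fun _ => 1) true t ≠ 0 := by
    intro hc
    have := hp true
    rw [htr, hc, mul_zero] at this
    exact lt_irrefl _ this
  have hnf : cs (S ∪ blk e) (xb x e ζ μ false) (fun y => mW G M b l y * f (po y)) =
      w * (1 - r) * bN G M b l S x e f false t := by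
    have h4 := h1 false
    unfold ce at h4
    rw [div_eq_div_iff (hp false).ne' hbf, hf] at h4
    have h5 : cs (S ∪ blk e) (xb x e ζ μ false) (fun y => mW G M b l y * f (po y)) *
        bN G M b l S x e (fun _ => 1) false t =
        (w * (1 - r) * bN G M b l S x e f false t) * bN G M b l S x e (fun _ => 1) false t := by
      rw [h4]; ring
    exact mul_right_cancel₀ hbf h5
  have hnt : cs (S ∪ blk e) (xb x e ζ μ true) (fun y => mW G M b l y * f (po y)) =
      w * r * bN G M b l S x e f true t := by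
    have h4 := h1 true
    rw [b5_pc x e ζ μ true false] at h4
    unfold ce at h4
    rw [div_eq_div_iff (hp true).ne' hbt, htr] at h4
    have h5 : cs (S ∪ blk e) (xb x e ζ μ true) (fun y => mW G M b l y * f (po y)) *
        bN G M b l S x e (fun _ => 1) true t =
        (w * r * bN G M b l S x e f true t) * bN G M b l S x e (fun _ => 1) true t := by
      rw [h4]
      show bN G M b l S x e f true t * _ = _
      ring
    exact mul_right_cancel₀ hbt h5
  have hden : 0 < (1 - r) * bN G M b l S x e (fun _ => 1) false t +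
      r * bN G M b l S x e (fun _ => 1) true t := by
    have h6 := add_pos (hp false) (hp true)
    rw [hf, htr] at h6
    have h7 : 0 < w := by
      have h8 : 0 < AA G M b (pc (xb x e ζ μ false)) e := by
        unfold AA
        exact Finset.prod_pos fun j _ => mul_pos (Real.cosh_pos _) (Real.cosh_pos _)
      exact mul_pos hC (mul_pos (mul_pos (mul_pos (hM.nu0 ζ) (Real.exp_pos _)) (hM.nu0 μ)) h8)
    have h9 : w * (1 - r) * bN G M b l S x e (fun _ => 1) false t +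
        w * r * bN G M b l S x e (fun _ => 1) true t =
        w * ((1 - r) * bN G M b l S x e (fun _ => 1) false t +
          r * bN G M b l S x e (fun _ => 1) true t) := by ring
    rw [h9] at h6
    exact (pos_iff_pos_of_mul_pos h6).1 h7
  rw [Fintype.sum_bool, Fintype.sum_bool, hnt, hnf, htr, hf]
  unfold Ps
  rw [← bN_aff G M b l S x e f false t, ← bN_aff G M b l S x e f true t,
    ← bN_aff G M b l S x e (fun _ => 1) false t, ← bN_aff G M b l S x e (fun _ => 1) true t]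
  field_simp
  ring

theorem bp_low (b Λ : ℝ) (hb : 0 < b) (hΛ : 0 ≤ Λ) : ∃ κ : ℝ, 0 < κ ∧
    ∀ (V E : Type) [Fintype V] [DecidableEq V] [Fintype E] [DecidableEq E] (G : Gr V E),
      Deg4 G → ∀ (M : Al), M.Ok → ∀ l : ℝ, 0 ≤ l → l ≤ Λ → ∀ (f : (E → Bool) → ℝ), Monotone f →
      (∀ o, 0 ≤ f o) → (∀ o, f o ≤ 1) → ∀ (S : Finset (SV V E ⊕ E)), Adm G S →
      ∀ (x : ∀ i, XI M.k V E i) (e : E),
      Sum.inl (Sum.inl (G.s e)) ∈ S → Sum.inl (Sum.inl (G.r e)) ∈ S →
      Sum.inl (Sum.inr (e, false)) ∉ S →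
      κ * QB G M b l S x e f ≤
        ce (mW G M b l) (fun y => f (po y) * c2 M (Sum.inr (e, false)) y) S x -
          ce (mW G M b l) (fun y => f (po y)) S x * ce (mW G M b l) (c2 M (Sum.inr (e, false))) S x := by
  obtain ⟨c, hc, hcd⟩ := chr_diff b hb
  obtain ⟨κ1, hκ1, hpsi1⟩ := blk_psi c (Real.tanh b) hc (Real.tanh_lt_one b)
  set p0 : ℝ := Real.exp (-(8 * b + Λ)) / 4 with hp0d
  have hp0 : 0 < p0 := by
    have := Real.exp_pos (-(8 * b + Λ))
    positivity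
  refine ⟨7 / 25 * p0 ^ 3 * κ1, by positivity, ?_⟩
  intro V E _ _ _ _ G hG M hM l hl hlΛ f hf hf0 hf1 S hS x e hs hr hz
  have hmp := mW_pos G M hM b l hb
  have he : e ∉ sB S := by
    intro h
    rw [mem_sB] at h
    exact hz (hS.mm e (hS.bit e h))
  have hB := bN_ok G M hM b l hb S hS x e he f hf hf0 hf1
  -- notation
  set d0 : Bool → ℝ := fun o => bN G M b l S x e (fun _ => 1) o 0 with hd0
  set d1 : Bool → ℝ := fun o => bN G M b l S x e (fun _ => 1) o 1 - bN G M b l S x e (fun _ => 1) o 0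
    with hd1
  set n0 : Bool → ℝ := fun o => bN G M b l S x e f o 0 with hn0
  set n1 : Bool → ℝ := fun o => bN G M b l S x e f o 1 - bN G M b l S x e f o 0 with hn1
  set r : Fin (M.k + 1) → Fin (M.k + 1) → ℝ :=
    fun ζ μ => rr G M b (pc (xb x e ζ μ false)) e with hrdef
  set t : Fin (M.k + 1) → Fin (M.k + 1) → ℝ :=
    fun ζ μ => tt G M b (pc (xb x e ζ μ false)) e with htdef
  set psi : Fin (M.k + 1) → Fin (M.k + 1) → ℝ := fun ζ μ => Ps d0 d1 n0 n1 (r ζ μ) (t ζ μ) with hpsid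
  set a : Fin (M.k + 1) → Fin (M.k + 1) → ℝ :=
    fun ζ μ => ∑ o : Bool, cs (S ∪ blk e) (xb x e ζ μ o) (mW G M b l) with had
  have ha : ∀ ζ μ, 0 < a ζ μ := fun ζ μ =>
    Finset.sum_pos (fun o _ => cs_pos _ hmp _ _) ⟨true, Finset.mem_univ _⟩
  have hbd : ∀ ζ μ, 0 < r ζ μ ∧ r ζ μ < 1 ∧ 0 < t ζ μ ∧ t ζ μ < 1 := fun ζ μ =>
    rr_bd G M hM b hb _ e
  have hmo : ∀ ζ ζ' μ μ', ζ ≤ ζ' → μ ≤ μ' → r ζ μ ≤ r ζ' μ' ∧ t ζ' μ' ≤ t ζ μ := fun ζ ζ' μ μ' h1 h2 =>
    rr_mono G M hM b hb _ _ (b5_mono x e ζ μ ζ' μ' false false h1 h2) e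
  -- mass bounds
  have hZ : cs S x (mW G M b l) = ∑ ζ, ∑ μ, a ζ μ := bx3 G M S hS x e hz _
  have hZpos : 0 < cs S x (mW G M b l) := cs_pos _ hmp _ _
  have hmass : ∀ T : Finset (Fin (M.k + 1)), 1 / 4 ≤ ∑ c ∈ T, M.nu c →
      p0 * ∑ ζ, ∑ μ, a ζ μ ≤ ∑ ζ ∈ T, ∑ μ, a ζ μ := by
    intro T hT
    have h1 := b5_fe G hG M hM b l Λ hb hl hlΛ S hS x (Sum.inr (e, false)) hz T hT
    rw [hZ] at h1
    refine h1.trans (le_of_eq ?_)
    have h2 : (fun y : (∀ i, XI M.k V E i) => mW G M b l y *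
        (if pc y (Sum.inr (e, false)) ∈ T then (1 : ℝ) else 0)) =
        fun y => (fun a _ => if a ∈ T then (1 : ℝ) else 0) (pc y (Sum.inr (e, false)))
          (pc y (Sum.inr (e, true))) * mW G M b l y := by
      funext y
      exact mul_comm _ _
    rw [h2, b5_sum G M S hS x e hz (fun a _ => if a ∈ T then (1 : ℝ) else 0) (mW G M b l)]
    rw [← Finset.sum_filter_add_sum_filter_not univ (fun ζ => ζ ∈ T)]
    have h3 : ∑ ζ ∈ univ.filter (fun ζ => ¬ ζ ∈ T), ∑ μ : Fin (M.k + 1),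
        (if ζ ∈ T then (1 : ℝ) else 0) * ∑ o : Bool, cs (S ∪ blk e) (xb x e ζ μ o) (mW G M b l) = 0 := by
      refine Finset.sum_eq_zero fun ζ hζ => Finset.sum_eq_zero fun μ _ => ?_
      rw [if_neg (Finset.mem_filter.1 hζ).2, zero_mul]
    rw [h3, add_zero, Finset.filter_mem_eq_inter, Finset.univ_inter]
    refine Finset.sum_congr rfl fun ζ hζ => Finset.sum_congr rfl fun μ _ => ?_
    rw [if_pos hζ, one_mul]
  have hadm' := b5_adm G S hS e hs hr
  have hmi : ∀ ζ, p0 * ∑ μ, a ζ μ ≤ ∑ μ ∈ M.mi, a ζ μ := by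
    intro ζ
    have h1 := b5_fe G hG M hM b l Λ hb hl hlΛ (insert (Sum.inl (Sum.inr (e, false))) S) hadm'
      (Function.update x (Sum.inl (Sum.inr (e, false))) ζ) (Sum.inr (e, true))
      (by
        intro h
        rw [Finset.mem_insert] at h
        rcases h with h | h
        · exact absurd h (by simp)
        · exact hz (hS.mm e h)) M.mi hM.mi
    have h2 := b5_insm G M S hS x e hz ζ (fun _ => 1) (mW G M b l)
    have h3 := b5_insm G M S hS x e hz ζ (fun μ => if μ ∈ M.mi then 1 else 0) (mW G M b l)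
    simp only [mul_one] at h2
    rw [h2, h3] at h1
    refine h1.trans (le_of_eq ?_)
    simp only [mul_ite, mul_one, mul_zero]
    rw [← Finset.sum_filter, Finset.filter_mem_eq_inter, Finset.univ_inter]
  -- the stochastic monotonicity
  have hst : ∀ g : Fin (M.k + 1) → ℝ, Monotone g → ∀ ζ ζ', ζ ≤ ζ' →
      (∑ μ, a ζ μ * g μ) / ∑ μ, a ζ μ ≤ (∑ μ, a ζ' μ * g μ) / ∑ μ, a ζ' μ := by
    intro g hg ζ ζ' hζ
    have h1 := mW_mon G M hM b l hb (insert (Sum.inl (Sum.inr (e, false))) S) hadm'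
      (fun y => g (pc y (Sum.inr (e, true)))) (fun y y' h => hg (h (Sum.inl (Sum.inr (e, true)))))
      (Function.update x (Sum.inl (Sum.inr (e, false))) ζ)
      (Function.update x (Sum.inl (Sum.inr (e, false))) ζ') (by
        intro i _
        by_cases hi : i = Sum.inl (Sum.inr (e, false))
        · subst hi
          rw [Function.update_self, Function.update_self]
          exact hζ
        · rw [Function.update_of_ne hi, Function.update_of_ne hi])
    unfold ce at h1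
    have h2 := fun ζ => b5_insm G M S hS x e hz ζ (fun _ => 1) (mW G M b l)
    have h3 := fun ζ => b5_insm G M S hS x e hz ζ g (mW G M b l)
    simp only [mul_one] at h2
    rw [h2 ζ, h2 ζ'] at h1
    rw [h3 ζ, h3 ζ'] at h1
    exact h1
  -- monotonicity of psi
  have hps : ∀ ζ ζ' μ μ', ζ ≤ ζ' → μ ≤ μ' → psi ζ μ ≤ psi ζ' μ' := by
    intro ζ ζ' μ μ' h1 h2
    have h3 := hmo ζ ζ' μ μ' h1 h2
    exact Ps_mono d0 d1 n0 n1 hB (r ζ' μ') (r ζ μ) (t ζ' μ') (t ζ μ) (hbd ζ μ).1.le h3.1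
      (hbd ζ' μ').2.1 (hbd ζ' μ').2.2.1.le h3.2 (hbd ζ μ).2.2.2.le
  have hrch : ∀ ζ μ, r ζ μ = chr b (M.cc (pc x (Sum.inl (G.s e)))) (M.cc (pc x (Sum.inl (G.r e))))
      (M.cc ζ) (M.cc μ) := fun ζ μ => (rr_xb G M b x e ζ μ false).1
  have htch : ∀ ζ μ, t ζ μ = chr b (M.ss (pc x (Sum.inl (G.s e)))) (M.ss (pc x (Sum.inl (G.r e))))
      (M.ss ζ) (M.ss μ) := fun ζ μ => (rr_xb G M b x e ζ μ false).2
  have hrM : ∀ ζ μ, r ζ μ ≤ rM G M b x e ∧ rM G M b x e ≤ Real.tanh b := by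
    intro ζ μ
    have h1 := chr_le b (M.cc (pc x (Sum.inl (G.s e)))) (M.cc (pc x (Sum.inl (G.r e)))) (M.cc ζ)
      (M.cc μ) hb.le (hM.cc0 _).le (hM.cc1 _) (hM.cc0 _).le (hM.cc1 _) (hM.cc0 _).le (hM.cc1 _)
      (hM.cc0 _).le (hM.cc1 _)
    rw [hrch]
    exact h1.2
  have htM : ∀ ζ μ, t ζ μ ≤ tM G M b x e ∧ tM G M b x e ≤ Real.tanh b := by
    intro ζ μ
    have h1 := chr_le b (M.ss (pc x (Sum.inl (G.s e)))) (M.ss (pc x (Sum.inl (G.r e)))) (M.ss ζ)
      (M.ss μ) hb.le (hM.ss0 _).le (hM.ss1 _) (hM.ss0 _).le (hM.ss1 _) (hM.ss0 _).le (hM.ss1 _)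
      (hM.ss0 _).le (hM.ss1 _)
    rw [htch]
    exact h1.2
  have htM0 : 0 ≤ tM G M b x e := le_trans (hbd 0 0).2.2.1.le (htM 0 0).1
  have htM1 : tM G M b x e ≤ 1 := le_trans (htM 0 0).2 (Real.tanh_lt_one b).le
  have hrM0 : 0 ≤ rM G M b x e := le_trans (hbd 0 0).1.le (hrM 0 0).1
  have hd : ∀ ζ ∈ M.hi, ∀ ζ' ∈ M.lo, ∀ μ ∈ M.mi,
      κ1 * QB G M b l S x e f ≤ psi ζ μ - psi ζ' μ := by
    intro ζ hζ ζ' hζ' μ hμ
    unfold Al.hi at hζ
    unfold Al.lo at hζ'
    unfold Al.mi at hμ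
    have hζ1 := (Finset.mem_filter.1 hζ).2
    have hζ2 := (Finset.mem_filter.1 hζ').2
    have hμ1 := (Finset.mem_filter.1 hμ).2
    have hle : ζ' ≤ ζ := by
      by_contra hcon
      have h1 := hM.mono (lt_of_not_ge hcon).le
      linarith [hζ1.1, hζ2.1]
    have h3 := hmo ζ' ζ μ μ hle le_rfl
    refine hpsi1 d0 d1 n0 n1 hB (rM G M b x e) (tM G M b x e) (r ζ μ) (r ζ' μ) (t ζ μ) (t ζ' μ)
      (hrM ζ μ).2 htM0 htM1 (hbd ζ' μ).1.le h3.1 (hrM ζ μ).1 (hbd ζ μ).2.2.1.le h3.2 (htM ζ' μ).1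
      ?_ ?_
    · rw [hrch, hrch]
      exact hcd _ _ _ _ _ (hM.cc0 _).le (hM.cc1 _) (hM.cc0 _).le (hM.cc1 _) hζ1.1 (hM.cc1 _)
        (hM.cc0 _).le hζ2.1 hμ1.1 (hM.cc1 _)
    · rw [htch, htch]
      exact hcd _ _ _ _ _ (hM.ss0 _).le (hM.ss1 _) (hM.ss0 _).le (hM.ss1 _) hζ2.2 (hM.ss1 _)
        (hM.ss0 _).le hζ1.2 hμ1.2 (hM.ss1 _)
  have hQ0 : 0 ≤ QB G M b l S x e f := by
    show 0 ≤ Qfo d0 d1 n0 n1 (rM G M b x e) (tM G M b x e)
    unfold Qfo
    have h1 := hB.up 0 le_rfl zero_le_one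
    have h2 := hB.an false 0 (tM G M b x e) le_rfl htM0 htM1
    have h3 := mul_nonneg hrM0 (sub_nonneg.2 h1)
    linarith
  have hmain := blk_low a psi (fun ζ => M.cc ζ ^ 2) ha
    (fun ζ ζ' h => pow_le_pow_left₀ (hM.cc0 ζ).le (hM.mono h) 2) hps hst p0
    (κ1 * QB G M b l S x e f) hp0 (mul_nonneg hκ1.le hQ0) M.lo M.hi M.mi
    (by
      intro ζ hζ
      unfold Al.lo at hζ
      have h1 := (Finset.mem_filter.1 hζ).2.1
      have h2 := pow_le_pow_left₀ (hM.cc0 ζ).le h1 2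
      show M.cc ζ ^ 2 ≤ 9 / 25
      norm_num at h2 ⊢
      exact h2)
    (by
      intro ζ hζ
      unfold Al.hi at hζ
      have h1 := (Finset.mem_filter.1 hζ).2.1
      have h2 := pow_le_pow_left₀ (by norm_num) h1 2
      show 16 / 25 ≤ M.cc ζ ^ 2
      norm_num at h2 ⊢
      exact h2)
    (hmass _ hM.lo) (hmass _ hM.hi) hmi hd (cs S x (mW G M b l)) hZ
  have hpe : ∀ ζ μ, ∑ o : Bool, cs (S ∪ blk e) (xb x e ζ μ o) (fun y => mW G M b l y * f (po y)) =
      a ζ μ * psi ζ μ := fun ζ μ => b5_psi G M hM b l hb S hS x e hs hr hz f ζ μ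
  have e1 : cs S x (fun y => mW G M b l y * (f (po y) * c2 M (Sum.inr (e, false)) y)) =
      ∑ ζ, ∑ μ, a ζ μ * (psi ζ μ * M.cc ζ ^ 2) := by
    have h2 : (fun y : (∀ i, XI M.k V E i) => mW G M b l y * (f (po y) * c2 M (Sum.inr (e, false)) y)) =
        fun y => (fun z _ => M.cc z ^ 2) (pc y (Sum.inr (e, false)))
          (pc y (Sum.inr (e, true))) * (fun y => mW G M b l y * f (po y)) y := by
      funext y
      show mW G M b l y * (f (po y) * M.cc (pc y (Sum.inr (e, false))) ^ 2) =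
        M.cc (pc y (Sum.inr (e, false))) ^ 2 * (mW G M b l y * f (po y))
      ring
    rw [h2, b5_sum G M S hS x e hz (fun z _ => M.cc z ^ 2) (fun y => mW G M b l y * f (po y))]
    refine Finset.sum_congr rfl fun ζ _ => Finset.sum_congr rfl fun μ _ => ?_
    rw [hpe]
    ring
  have e2 : cs S x (fun y => mW G M b l y * f (po y)) = ∑ ζ, ∑ μ, a ζ μ * psi ζ μ := by
    rw [bx3 G M S hS x e hz]
    exact Finset.sum_congr rfl fun ζ _ => Finset.sum_congr rfl fun μ _ => hpe ζ μ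
  have e3 : cs S x (fun y => mW G M b l y * c2 M (Sum.inr (e, false)) y) =
      ∑ ζ, ∑ μ, a ζ μ * M.cc ζ ^ 2 := by
    have h2 : (fun y : (∀ i, XI M.k V E i) => mW G M b l y * c2 M (Sum.inr (e, false)) y) =
        fun y => (fun z _ => M.cc z ^ 2) (pc y (Sum.inr (e, false)))
          (pc y (Sum.inr (e, true))) * mW G M b l y := by
      funext y
      show mW G M b l y * M.cc (pc y (Sum.inr (e, false))) ^ 2 =
        M.cc (pc y (Sum.inr (e, false))) ^ 2 * mW G M b l y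
      ring
    rw [h2, b5_sum G M S hS x e hz (fun z _ => M.cc z ^ 2) (mW G M b l)]
    exact Finset.sum_congr rfl fun ζ _ => Finset.sum_congr rfl fun μ _ => mul_comm _ _
  have hfin : ce (mW G M b l) (fun y => f (po y) * c2 M (Sum.inr (e, false)) y) S x -
          ce (mW G M b l) (fun y => f (po y)) S x * ce (mW G M b l) (c2 M (Sum.inr (e, false))) S x =
      (∑ ζ, ∑ μ, a ζ μ * (psi ζ μ * M.cc ζ ^ 2)) / cs S x (mW G M b l) -
      (∑ ζ, ∑ μ, a ζ μ * psi ζ μ) / cs S x (mW G M b l) *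
        ((∑ ζ, ∑ μ, a ζ μ * M.cc ζ ^ 2) / cs S x (mW G M b l)) := by
    unfold ce
    rw [e1, e2, e3]
  rw [hfin]
  refine le_trans (le_of_eq ?_) hmain
  ring

end H82.BX
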