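import Pool.Agent.H82.BX.CK3

/-!
# CIN: insertion tolerance of the bits

For an edge `e` and fixed bits `o` let `o' = opP e o`.  Fix the moduli off the four vertices of the chain of `e` (`s e`, `z_e`, `m_e`, `r e`).  For any moduli `c` and any `c'` with values in `M.hi` at the four vertices
and equal to `c` elsewhere: `W(c',o')/∏ nu(c' w) ≥ κ W(c,o)/∏ nu(c w)` (products over the four vertices), `κ = κ(b,Λ) > 0`: the pinning factors change by at most `e^{-4Λ}`; at most `7` edges touch the chain (`Deg4`);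
`AA(c') ≥ 1 ≥ cosh(b)^{-6} AA(c)`; for `f ≠ e` open: `rr f (c') ≥ (4/5)^2 rr f (c)` (`tanh(s a) ≥ s tanh a`, the moduli at the (at most two) changed vertices are `≥ 4/5 ≥ (4/5)·` the old ones);
`f` closed: `1 - rr f (c') ≥ (1 - tanh b)`; `rr e (c') ≥ tanh(16 b/25)^3`; `Zv (bt o') ≥ Zv (bt o)`; `Zv (tt c') ≥ 2^{-7} Zv (tt c)` (`Zv_bd`, change the parameters of the at most seven edges one by one).
Sum over `c'` at the four vertices (`∑_{hi} nu ≥ 1/4`) and `c` (`∑ nu = 1`): `∑_c W(c, o) ≤ 4^4 κ^{-1} ∑_c W(c, o')`.  Then sum over `o` (each `o'` comes from at most two `o`).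
First for `M.Ok`, then let `ε → 0` (`EW_lim`) for `clk K 0`.
-/

set_option autoImplicit false
set_option linter.unusedSectionVars false
set_option linter.unusedVariables false

open Finset MeasureTheory Filter Topology

namespace H82.BX

open H82.IC XYB

/-! ### tanh -/

theorem cin_tanh_eq (y : ℝ) : Real.tanh y * Real.cosh y = Real.sinh y := by
  rw [Real.tanh_eq_sinh_div_cosh, div_mul_cancel₀ _ (Real.cosh_pos y).ne']

theorem cin_tanh_nonneg {y : ℝ} (hy : 0 ≤ y) : 0 ≤ Real.tanh y := by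
  rw [Real.tanh_eq_sinh_div_cosh]
  exact div_nonneg (Real.sinh_nonneg_iff.2 hy) (Real.cosh_pos y).le

theorem cin_tanh_pos {y : ℝ} (hy : 0 < y) : 0 < Real.tanh y := by
  rw [Real.tanh_eq_sinh_div_cosh]
  exact div_pos (Real.sinh_pos_iff.2 hy) (Real.cosh_pos y)

theorem cin_tanh_mono {x y : ℝ} (h : x ≤ y) : Real.tanh x ≤ Real.tanh y := by
  rw [Real.tanh_eq_sinh_div_cosh, Real.tanh_eq_sinh_div_cosh,
    div_le_div_iff₀ (Real.cosh_pos x) (Real.cosh_pos y)]
  have h1 : 0 ≤ Real.sinh (y - x) := Real.sinh_nonneg_iff.2 (by linarith)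
  rw [Real.sinh_sub] at h1
  linarith

theorem cin_tanh_mul (s y : ℝ) (h0 : 0 ≤ s) (h1 : s ≤ 1) (hy : 0 ≤ y) :
    s * Real.tanh y ≤ Real.tanh (s * y) := by
  set h : ℝ → ℝ := fun y => Real.sinh (s * y) * Real.cosh y - s * (Real.sinh y * Real.cosh (s * y)) with hh
  have hd : ∀ x : ℝ, HasDerivAt h ((1 - s ^ 2) * (Real.sinh (s * x) * Real.sinh x)) x := by
    intro x
    have e1 : HasDerivAt (fun y : ℝ => s * y) s x := by
      simpa using (hasDerivAt_id x).const_mul s
    have e2 : HasDerivAt (fun y : ℝ => Real.sinh (s * y)) (Real.cosh (s * x) * s) x :=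
      (Real.hasDerivAt_sinh (s * x)).comp x e1
    have e3 : HasDerivAt (fun y : ℝ => Real.cosh (s * y)) (Real.sinh (s * x) * s) x :=
      (Real.hasDerivAt_cosh (s * x)).comp x e1
    have e4 := (e2.mul (Real.hasDerivAt_cosh x)).sub
      (((Real.hasDerivAt_sinh x).mul e3).const_mul s)
    refine e4.congr_deriv ?_
    ring
  have hm : MonotoneOn h (Set.Ici 0) := by
    refine monotoneOn_of_deriv_nonneg (convex_Ici 0) ?_ ?_ ?_
    · exact fun x _ => (hd x).continuousAt.continuousWithinAt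
    · exact fun x _ => (hd x).differentiableAt.differentiableWithinAt
    · intro x hx
      rw [interior_Ici, Set.mem_Ioi] at hx
      rw [(hd x).deriv]
      have : 0 ≤ 1 - s ^ 2 := by nlinarith
      exact mul_nonneg this (mul_nonneg (Real.sinh_nonneg_iff.2 (by positivity))
        (Real.sinh_nonneg_iff.2 hx.le))
  have h2 := hm (Set.mem_Ici.2 le_rfl) (Set.mem_Ici.2 hy) hy
  simp only [hh, mul_zero, Real.sinh_zero, zero_mul, sub_zero] at h2
  rw [Real.tanh_eq_sinh_div_cosh, Real.tanh_eq_sinh_div_cosh, ← mul_div_assoc,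
    div_le_div_iff₀ (Real.cosh_pos y) (Real.cosh_pos (s * y))]
  linarith

section gen
variable {V E : Type} [Fintype V] [DecidableEq V] [Fintype E] [DecidableEq E]

/-! ### partition functions -/

theorem cin_Zv (G : Gr V E) (T : Finset E) : ∀ (t t' : E → ℝ), (∀ f, 0 ≤ t f) → (∀ f, t f ≤ 1) →
    (∀ f, 0 ≤ t' f) → (∀ f, t' f ≤ 1) → (∀ f, f ∉ T → t f = t' f) → Zv G t ≤ 2 ^ T.card * Zv G t' := by
  induction T using Finset.induction_on with
  | empty =>
    intro t t' _ _ _ _ h
    have : t = t' := funext fun f => h f (notMem_empty f)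
    rw [this]
    simp
  | insert e T he ih =>
    intro t t' h0 h1 h0' h1' h
    have a1 : Zv G t ≤ Zv G (Function.update t e 1) := by
      refine Zv_mono G _ _ h0 fun f => ?_
      rcases eq_or_ne f e with rfl | hf
      · rw [Function.update_self]
        exact h1 f
      · rw [Function.update_of_ne hf]
    have a2 := (Zv_bd G t e h0 h1).2
    have a3 : Zv G (Function.update t e 0) ≤ Zv G (Function.update t e (t' e)) := by
      refine Zv_mono G _ _ (fun f => ?_) fun f => ?_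
      · rcases eq_or_ne f e with rfl | hf
        · rw [Function.update_self]
        · rw [Function.update_of_ne hf]
          exact h0 f
      · rcases eq_or_ne f e with rfl | hf
        · rw [Function.update_self, Function.update_self]
          exact h0' f
        · rw [Function.update_of_ne hf, Function.update_of_ne hf]
    have a4 := ih (Function.update t e (t' e)) t' (fun f => by
        rcases eq_or_ne f e with rfl | hf
        · rw [Function.update_self]
          exact h0' f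
        · rw [Function.update_of_ne hf]
          exact h0 f) (fun f => by
        rcases eq_or_ne f e with rfl | hf
        · rw [Function.update_self]
          exact h1' f
        · rw [Function.update_of_ne hf]
          exact h1 f) h0' h1' (fun f hf => by
        rcases eq_or_ne f e with rfl | hfe
        · rw [Function.update_self]
        · rw [Function.update_of_ne hfe]
          exact h f (by rw [mem_insert]; exact fun hh => hh.elim hfe hf))
    rw [card_insert_of_notMem he, pow_succ]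
    calc Zv G t ≤ Zv G (Function.update t e 1) := a1
      _ ≤ 2 * Zv G (Function.update t e 0) := a2
      _ ≤ 2 * Zv G (Function.update t e (t' e)) := by linarith
      _ ≤ 2 * (2 ^ T.card * Zv G t') := by linarith
      _ = 2 ^ T.card * 2 * Zv G t' := by ring

theorem cin_opP (e : E) (o : E → Bool) : opP e o = Function.update o e true := by
  unfold opP
  congr
  exact Subsingleton.elim _ _

theorem cin_bt0 (o : E → Bool) (f : E) : 0 ≤ bt o f := by
  unfold bt
  split_ifs <;> norm_num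

theorem cin_bt1 (o : E → Bool) (f : E) : bt o f ≤ 1 := by
  unfold bt
  split_ifs <;> norm_num

variable (G : Gr V E) (M : Al)

theorem cin_la0 (hM : M.Ok) {b : ℝ} (hb : 0 < b) (c : SV V E → Fin (M.k + 1)) (l : E × Fin 3) :
    0 < la G M b c l := mul_pos hb (mul_pos (hM.cc0 _) (hM.cc0 _))

theorem cin_lb0 (hM : M.Ok) {b : ℝ} (hb : 0 < b) (c : SV V E → Fin (M.k + 1)) (l : E × Fin 3) :
    0 < lb G M b c l := mul_pos hb (mul_pos (hM.ss0 _) (hM.ss0 _))

theorem cin_la1 (hM : M.Ok) {b : ℝ} (hb : 0 < b) (c : SV V E → Fin (M.k + 1)) (l : E × Fin 3) :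
    la G M b c l ≤ b := by
  have h := mul_le_one₀ (hM.cc1 (c ((LK G).s l))) (hM.cc0 (c ((LK G).r l))).le (hM.cc1 (c ((LK G).r l)))
  calc la G M b c l ≤ b * 1 := mul_le_mul_of_nonneg_left h hb.le
    _ = b := mul_one b

theorem cin_lb1 (hM : M.Ok) {b : ℝ} (hb : 0 < b) (c : SV V E → Fin (M.k + 1)) (l : E × Fin 3) :
    lb G M b c l ≤ b := by
  have h := mul_le_one₀ (hM.ss1 (c ((LK G).s l))) (hM.ss0 (c ((LK G).r l))).le (hM.ss1 (c ((LK G).r l)))
  calc lb G M b c l ≤ b * 1 := mul_le_mul_of_nonneg_left h hb.le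
    _ = b := mul_one b

theorem cin_rr0 (hM : M.Ok) {b : ℝ} (hb : 0 < b) (c : SV V E → Fin (M.k + 1)) (f : E) :
    0 < rr G M b c f := prod_pos fun _ _ => cin_tanh_pos (cin_la0 G M hM hb c _)

theorem cin_rr1 (hM : M.Ok) {b : ℝ} (hb : 0 < b) (c : SV V E → Fin (M.k + 1)) (f : E) :
    rr G M b c f ≤ Real.tanh b := by
  have h0 : ∀ j : Fin 3, 0 ≤ Real.tanh (la G M b c (f, j)) := fun j =>
    cin_tanh_nonneg (cin_la0 G M hM hb c _).le
  have h1 : ∀ j : Fin 3, Real.tanh (la G M b c (f, j)) ≤ 1 := fun j => (Real.tanh_lt_one _).le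
  have h2 : Real.tanh (la G M b c (f, 0)) ≤ Real.tanh b := cin_tanh_mono (cin_la1 G M hM hb c _)
  unfold rr
  rw [Fin.prod_univ_three]
  calc Real.tanh (la G M b c (f, 0)) * Real.tanh (la G M b c (f, 1)) * Real.tanh (la G M b c (f, 2))
      ≤ Real.tanh (la G M b c (f, 0)) * 1 * 1 :=
        mul_le_mul (mul_le_mul_of_nonneg_left (h1 1) (h0 0)) (h1 2) (h0 2)
          (mul_nonneg (h0 0) zero_le_one)
    _ ≤ Real.tanh b := by rw [mul_one, mul_one]; exact h2

theorem cin_tt0 (hM : M.Ok) {b : ℝ} (hb : 0 < b) (c : SV V E → Fin (M.k + 1)) (f : E) :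
    0 ≤ tt G M b c f := prod_nonneg fun _ _ => cin_tanh_nonneg (cin_lb0 G M hM hb c _).le

theorem cin_tt1 (hM : M.Ok) {b : ℝ} (hb : 0 < b) (c : SV V E → Fin (M.k + 1)) (f : E) :
    tt G M b c f ≤ 1 :=
  prod_le_one (fun _ _ => cin_tanh_nonneg (cin_lb0 G M hM hb c _).le) fun _ _ => (Real.tanh_lt_one _).le

theorem cin_AA1 (b : ℝ) (c : SV V E → Fin (M.k + 1)) (f : E) : 1 ≤ AA G M b c f := by
  unfold AA
  rw [Fin.prod_univ_three]
  have h : ∀ j : Fin 3, 1 ≤ Real.cosh (la G M b c (f, j)) * Real.cosh (lb G M b c (f, j)) := fun j =>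
    one_le_mul_of_one_le_of_one_le (Real.one_le_cosh _) (Real.one_le_cosh _)
  exact one_le_mul_of_one_le_of_one_le (one_le_mul_of_one_le_of_one_le (h 0) (h 1)) (h 2)

theorem cin_AA6 (hM : M.Ok) {b : ℝ} (hb : 0 < b) (c : SV V E → Fin (M.k + 1)) (f : E) :
    AA G M b c f ≤ Real.cosh b ^ 6 := by
  have h : ∀ j ∈ (univ : Finset (Fin 3)),
      Real.cosh (la G M b c (f, j)) * Real.cosh (lb G M b c (f, j)) ≤ Real.cosh b ^ 2 := by
    intro j _
    have e1 : Real.cosh (la G M b c (f, j)) ≤ Real.cosh b := by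
      rw [Real.cosh_le_cosh, abs_of_pos (cin_la0 G M hM hb c _), abs_of_pos hb]
      exact cin_la1 G M hM hb c _
    have e2 : Real.cosh (lb G M b c (f, j)) ≤ Real.cosh b := by
      rw [Real.cosh_le_cosh, abs_of_pos (cin_lb0 G M hM hb c _), abs_of_pos hb]
      exact cin_lb1 G M hM hb c _
    rw [pow_two]
    exact mul_le_mul e1 e2 (Real.cosh_pos _).le (Real.cosh_pos _).le
  unfold AA
  calc _ ≤ ∏ _j : Fin 3, Real.cosh b ^ 2 :=
        prod_le_prod (fun j _ => (mul_pos (Real.cosh_pos _) (Real.cosh_pos _)).le) h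
    _ = Real.cosh b ^ 6 := by
        rw [prod_const, card_univ, Fintype.card_fin]
        ring

/-- edges whose chain contains `w`. -/
noncomputable def cin_T (w : SV V E) : Finset E :=
  univ.filter (fun f => ∃ j : Fin 3, (LK G).s (f, j) = w ∨ (LK G).r (f, j) = w)

theorem cin_T_card (hG : Deg4 G) (w : SV V E) : (cin_T G w).card ≤ 4 := by
  rcases w with v | ⟨f0, t⟩
  · have hsub : cin_T G (Sum.inl v) ⊆ univ.filter (fun e => G.s e = v) ∪ univ.filter (fun e => G.r e = v) := by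
      intro f hf
      unfold cin_T at hf
      rw [mem_filter] at hf
      obtain ⟨_, j, hj⟩ := hf
      rw [mem_union, mem_filter, mem_filter]
      fin_cases j
      · rcases hj with hj | hj
        · exact Or.inl ⟨mem_univ _, Sum.inl_injective hj⟩
        · exact absurd hj (by simp [LK])
      · rcases hj with hj | hj
        · exact absurd hj (by simp [LK])
        · exact absurd hj (by simp [LK])
      · rcases hj with hj | hj
        · exact absurd hj (by simp [LK])
        · exact Or.inr ⟨mem_univ _, Sum.inl_injective hj⟩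
    exact ((card_le_card hsub).trans (card_union_le _ _)).trans (hG v)
  · have hsub : cin_T G (Sum.inr (f0, t)) ⊆ {f0} := by
      intro f hf
      unfold cin_T at hf
      rw [mem_filter] at hf
      obtain ⟨_, j, hj⟩ := hf
      rw [mem_singleton]
      fin_cases j
      · rcases hj with hj | hj
        · exact absurd hj (by simp [LK])
        · have := Sum.inr_injective hj
          exact congrArg Prod.fst this
      · rcases hj with hj | hj
        · exact congrArg Prod.fst (Sum.inr_injective hj)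
        · exact congrArg Prod.fst (Sum.inr_injective hj)
      · rcases hj with hj | hj
        · exact congrArg Prod.fst (Sum.inr_injective hj)
        · exact absurd hj (by simp [LK])
    exact (card_le_card hsub).trans (by simp)

theorem cin_la_eq (b : ℝ) (c : SV V E → Fin (M.k + 1)) (w : SV V E) (a : Fin (M.k + 1)) (f : E)
    (hf : f ∉ cin_T G w) (j : Fin 3) :
    la G M b (Function.update c w a) (f, j) = la G M b c (f, j) ∧
      lb G M b (Function.update c w a) (f, j) = lb G M b c (f, j) := by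
  have h : ∀ j : Fin 3, ¬ ((LK G).s (f, j) = w ∨ (LK G).r (f, j) = w) := by
    intro j hj
    exact hf (by unfold cin_T; exact mem_filter.2 ⟨mem_univ _, j, hj⟩)
  have h1 := h j
  push Not at h1
  unfold la lb
  rw [Function.update_of_ne h1.1, Function.update_of_ne h1.2]
  exact ⟨rfl, rfl⟩

/-- the edge factor. -/
noncomputable def cin_F (b : ℝ) (o : E → Bool) (c : SV V E → Fin (M.k + 1)) (f : E) : ℝ :=
  AA G M b c f * (if o f then rr G M b c f else 1 - rr G M b c f)

theorem cin_F0 (hM : M.Ok) {b : ℝ} (hb : 0 < b) (o : E → Bool) (c : SV V E → Fin (M.k + 1)) (f : E) :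
    0 ≤ cin_F G M b o c f := by
  unfold cin_F
  have h1 := cin_rr1 G M hM hb c f
  have h2 := Real.tanh_lt_one b
  have h3 := cin_rr0 G M hM hb c f
  refine mul_nonneg (zero_le_one.trans (cin_AA1 G M b c f)) ?_
  split_ifs
  · exact h3.le
  · linarith

theorem cin_F_eq (b : ℝ) (o : E → Bool) (c : SV V E → Fin (M.k + 1)) (w : SV V E) (a : Fin (M.k + 1))
    (f : E) (hf : f ∉ cin_T G w) :
    cin_F G M b o (Function.update c w a) f = cin_F G M b o c f := by
  have h := cin_la_eq G M b c w a f hf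
  unfold cin_F AA rr
  simp only [(h _).1, (h _).2]

/-- one edge constant. -/
noncomputable def cin_r (b : ℝ) : ℝ := (Real.cosh b ^ 6)⁻¹ * ((4 / 5) ^ 3 * (1 - Real.tanh b))

theorem cin_r0 (b : ℝ) : 0 < cin_r b := by
  unfold cin_r
  have h2 := Real.tanh_lt_one b
  have h3 := Real.cosh_pos b
  have : 0 < 1 - Real.tanh b := by linarith
  positivity

theorem cin_r1 {b : ℝ} (hb : 0 < b) : cin_r b ≤ 1 := by
  unfold cin_r
  have h2 := Real.tanh_lt_one b
  have h4 := cin_tanh_pos hb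
  have h3 : 1 ≤ Real.cosh b ^ 6 := one_le_pow₀ (Real.one_le_cosh b)
  refine mul_le_one₀ (inv_le_one_of_one_le₀ h3) ?_ ?_
  · have : 0 < 1 - Real.tanh b := by linarith
    positivity
  · nlinarith

theorem cin_la_ge (hM : M.Ok) {b : ℝ} (hb : 0 < b) (c : SV V E → Fin (M.k + 1)) (w : SV V E)
    (a : Fin (M.k + 1)) (ha : a ∈ M.hi) (l : E × Fin 3) :
    4 / 5 * la G M b c l ≤ la G M b (Function.update c w a) l := by
  have ha' : 4 / 5 ≤ M.cc a := by
    unfold Al.hi at ha
    exact (mem_filter.1 ha).2.1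
  have hne : (LK G).s l ≠ (LK G).r l := by
    obtain ⟨f, j⟩ := l
    fin_cases j <;> simp [LK]
  have hs0 := hM.cc0 (c ((LK G).s l))
  have hr0 := hM.cc0 (c ((LK G).r l))
  have hs1 := hM.cc1 (c ((LK G).s l))
  have hr1 := hM.cc1 (c ((LK G).r l))
  unfold la
  rcases eq_or_ne ((LK G).s l) w with h1 | h1
  · have h2 : (LK G).r l ≠ w := fun h => hne (h1.trans h.symm)
    rw [h1, Function.update_self, Function.update_of_ne h2]
    rw [h1] at hs0 hs1
    have e : 4 / 5 * (M.cc (c w) * M.cc (c ((LK G).r l))) ≤ M.cc a * M.cc (c ((LK G).r l)) := by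
      rw [← mul_assoc]
      refine mul_le_mul_of_nonneg_right ?_ hr0.le
      linarith
    calc 4 / 5 * (b * (M.cc (c w) * M.cc (c ((LK G).r l))))
        = b * (4 / 5 * (M.cc (c w) * M.cc (c ((LK G).r l)))) := by ring
      _ ≤ _ := mul_le_mul_of_nonneg_left e hb.le
  · rcases eq_or_ne ((LK G).r l) w with h2 | h2
    · rw [h2, Function.update_self, Function.update_of_ne h1]
      rw [h2] at hr0 hr1
      have e : 4 / 5 * (M.cc (c ((LK G).s l)) * M.cc (c w)) ≤ M.cc (c ((LK G).s l)) * M.cc a := by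
        have : M.cc (c ((LK G).s l)) * (4 / 5 * M.cc (c w)) ≤ M.cc (c ((LK G).s l)) * M.cc a :=
          mul_le_mul_of_nonneg_left (by linarith) hs0.le
        linarith
      calc 4 / 5 * (b * (M.cc (c ((LK G).s l)) * M.cc (c w)))
          = b * (4 / 5 * (M.cc (c ((LK G).s l)) * M.cc (c w))) := by ring
        _ ≤ _ := mul_le_mul_of_nonneg_left e hb.le
    · rw [Function.update_of_ne h1, Function.update_of_ne h2]
      have : 0 < b * (M.cc (c ((LK G).s l)) * M.cc (c ((LK G).r l))) := mul_pos hb (mul_pos hs0 hr0)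
      linarith

theorem cin_rr_ge (hM : M.Ok) {b : ℝ} (hb : 0 < b) (c : SV V E → Fin (M.k + 1)) (w : SV V E)
    (a : Fin (M.k + 1)) (ha : a ∈ M.hi) (f : E) :
    (4 / 5) ^ 3 * rr G M b c f ≤ rr G M b (Function.update c w a) f := by
  unfold rr
  have h : ∀ j ∈ (univ : Finset (Fin 3)), 4 / 5 * Real.tanh (la G M b c (f, j)) ≤
      Real.tanh (la G M b (Function.update c w a) (f, j)) := by
    intro j _
    exact (cin_tanh_mul (4 / 5) _ (by norm_num) (by norm_num) (cin_la0 G M hM hb c _).le).trans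
      (cin_tanh_mono (cin_la_ge G M hM hb c w a ha _))
  calc (4 / 5) ^ 3 * ∏ j : Fin 3, Real.tanh (la G M b c (f, j))
      = ∏ j : Fin 3, (4 / 5 * Real.tanh (la G M b c (f, j))) := by
        rw [prod_mul_distrib, prod_const, card_univ, Fintype.card_fin]
    _ ≤ _ := prod_le_prod (fun j _ => mul_nonneg (by norm_num)
        (cin_tanh_nonneg (cin_la0 G M hM hb c _).le)) h

theorem cin_F_ge (hM : M.Ok) {b : ℝ} (hb : 0 < b) (o : E → Bool) (c : SV V E → Fin (M.k + 1)) (w : SV V E)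
    (a : Fin (M.k + 1)) (ha : a ∈ M.hi) (f : E) :
    cin_r b * cin_F G M b o c f ≤ cin_F G M b o (Function.update c w a) f := by
  have hc6 : 0 < Real.cosh b ^ 6 := pow_pos (Real.cosh_pos b) 6
  have t1 := Real.tanh_lt_one b
  have t0 := cin_tanh_pos hb
  have hA : (Real.cosh b ^ 6)⁻¹ * AA G M b c f ≤ AA G M b (Function.update c w a) f := by
    refine le_trans ?_ (cin_AA1 G M b _ f)
    rw [inv_mul_le_iff₀ hc6, mul_one]
    exact cin_AA6 G M hM hb c f
  have hr0 := cin_rr0 G M hM hb c f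
  have hr1 := cin_rr1 G M hM hb c f
  have hX : (4 / 5) ^ 3 * (1 - Real.tanh b) * (if o f then rr G M b c f else 1 - rr G M b c f) ≤
      (if o f then rr G M b (Function.update c w a) f else 1 - rr G M b (Function.update c w a) f) := by
    split_ifs
    · have h1 := cin_rr_ge G M hM hb c w a ha f
      have h2 : (4 / 5) ^ 3 * (1 - Real.tanh b) * rr G M b c f ≤ (4 / 5) ^ 3 * rr G M b c f := by
        refine mul_le_mul_of_nonneg_right ?_ hr0.le
        nlinarith
      exact h2.trans h1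
    · have h1 := cin_rr1 G M hM hb (Function.update c w a) f
      have h2 : (4 / 5) ^ 3 * (1 - Real.tanh b) * (1 - rr G M b c f) ≤ 1 * (1 - Real.tanh b) * 1 := by
        refine mul_le_mul (mul_le_mul_of_nonneg_right (by norm_num) (by linarith)) (by linarith)
          (by linarith) (by linarith)
      linarith
  have hX0 : 0 ≤ (if o f then rr G M b c f else 1 - rr G M b c f) := by
    split_ifs
    · exact hr0.le
    · linarith
  unfold cin_r cin_F
  calc (Real.cosh b ^ 6)⁻¹ * ((4 / 5) ^ 3 * (1 - Real.tanh b)) *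
        (AA G M b c f * (if o f then rr G M b c f else 1 - rr G M b c f))
      = ((Real.cosh b ^ 6)⁻¹ * AA G M b c f) *
        ((4 / 5) ^ 3 * (1 - Real.tanh b) * (if o f then rr G M b c f else 1 - rr G M b c f)) := by ring
    _ ≤ _ := mul_le_mul hA hX (mul_nonneg (mul_nonneg (by norm_num) (by linarith)) hX0)
        (zero_le_one.trans (cin_AA1 G M b _ f))

theorem cin_prod_ge (hG : Deg4 G) (hM : M.Ok) {b : ℝ} (hb : 0 < b) (o : E → Bool)
    (c : SV V E → Fin (M.k + 1)) (w : SV V E) (a : Fin (M.k + 1)) (ha : a ∈ M.hi) :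
    cin_r b ^ 4 * ∏ f, cin_F G M b o c f ≤ ∏ f, cin_F G M b o (Function.update c w a) f := by
  have h1 : ∏ f, ((if f ∈ cin_T G w then cin_r b else 1) * cin_F G M b o c f) ≤
      ∏ f, cin_F G M b o (Function.update c w a) f := by
    refine prod_le_prod (fun f _ => ?_) fun f _ => ?_
    · refine mul_nonneg ?_ (cin_F0 G M hM hb o c f)
      split_ifs
      · exact (cin_r0 b).le
      · exact zero_le_one
    · split_ifs with hf
      · exact cin_F_ge G M hM hb o c w a ha f
      · rw [one_mul, cin_F_eq G M b o c w a f hf]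
  rw [prod_mul_distrib] at h1
  refine le_trans (mul_le_mul_of_nonneg_right ?_ (prod_nonneg fun f _ => cin_F0 G M hM hb o c f)) h1
  rw [prod_ite, prod_const_one, mul_one, prod_const]
  refine pow_le_pow_of_le_one (cin_r0 b).le (cin_r1 hb) ?_
  rw [Finset.filter_mem_eq_inter, Finset.univ_inter]
  exact cin_T_card G hG w

theorem cin_Zt (hG : Deg4 G) (hM : M.Ok) {b : ℝ} (hb : 0 < b)
    (c : SV V E → Fin (M.k + 1)) (w : SV V E) (a : Fin (M.k + 1)) :
    Zv G (tt G M b c) ≤ 2 ^ 4 * Zv G (tt G M b (Function.update c w a)) := by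
  have h := cin_Zv G (cin_T G w) (tt G M b c) (tt G M b (Function.update c w a))
    (cin_tt0 G M hM hb c) (cin_tt1 G M hM hb c) (cin_tt0 G M hM hb _) (cin_tt1 G M hM hb _)
    (fun f hf => by
      unfold tt
      exact prod_congr rfl fun j _ => by rw [(cin_la_eq G M b c w a f hf j).2])
  have hp : 0 < Zv G (tt G M b (Function.update c w a)) :=
    Zv_pos G _ (cin_tt0 G M hM hb _) (cin_tt1 G M hM hb _)
  refine h.trans (mul_le_mul_of_nonneg_right ?_ hp.le)
  exact pow_le_pow_right₀ (by norm_num) (cin_T_card G hG w)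

theorem cin_wv0 (hM : M.Ok) (l : ℝ) (c : SV V E → Fin (M.k + 1)) : 0 < wv M l c :=
  prod_pos fun w _ => mul_pos (hM.nu0 _) (Real.exp_pos _)

theorem cin_wv (hM : M.Ok) {l Λ : ℝ} (hl : 0 ≤ l) (hlΛ : l ≤ Λ) (c : SV V E → Fin (M.k + 1)) (w : SV V E)
    (a : Fin (M.k + 1)) :
    Real.exp (-Λ) * M.nu a * wv M l c ≤ wv M l (Function.update c w a) * M.nu (c w) := by
  have hpn : 0 ≤ pn w ∧ pn w ≤ 1 := by
    rcases w with v | ⟨f, t⟩
    · exact ⟨zero_le_one, le_rfl⟩
    · cases t
      · exact ⟨zero_le_one, le_rfl⟩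
      · exact ⟨le_rfl, zero_le_one⟩
  unfold wv
  rw [← mul_prod_erase univ (fun w => M.nu (c w) * Real.exp (l * pn w * M.cc (c w) ^ 2)) (mem_univ w),
    ← mul_prod_erase univ (fun w' => M.nu (Function.update c w a w') *
      Real.exp (l * pn w' * M.cc (Function.update c w a w') ^ 2)) (mem_univ w)]
  have he : ∏ w' ∈ univ.erase w, (M.nu (Function.update c w a w') *
      Real.exp (l * pn w' * M.cc (Function.update c w a w') ^ 2)) =
      ∏ w' ∈ univ.erase w, (M.nu (c w') * Real.exp (l * pn w' * M.cc (c w') ^ 2)) := by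
    refine prod_congr rfl fun w' hw' => ?_
    rw [Function.update_of_ne (ne_of_mem_erase hw')]
  rw [he, Function.update_self]
  set P := ∏ w' ∈ univ.erase w, (M.nu (c w') * Real.exp (l * pn w' * M.cc (c w') ^ 2)) with hP
  have hP0 : 0 < P := prod_pos fun w _ => mul_pos (hM.nu0 _) (Real.exp_pos _)
  have e1 : 1 ≤ Real.exp (l * pn w * M.cc a ^ 2) :=
    Real.one_le_exp (mul_nonneg (mul_nonneg hl hpn.1) (sq_nonneg _))
  have e2 : Real.exp (l * pn w * M.cc (c w) ^ 2) ≤ Real.exp Λ := by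
    refine Real.exp_le_exp.2 ?_
    have c0 := hM.cc0 (c w)
    have c1 := hM.cc1 (c w)
    have c2 : M.cc (c w) ^ 2 ≤ 1 := by nlinarith
    calc l * pn w * M.cc (c w) ^ 2 ≤ l * 1 * 1 :=
          mul_le_mul (mul_le_mul_of_nonneg_left hpn.2 hl) c2 (sq_nonneg _) (by linarith)
      _ ≤ Λ := by linarith
  have n0 := hM.nu0 (c w)
  have n1 := hM.nu0 a
  calc Real.exp (-Λ) * M.nu a * (M.nu (c w) * Real.exp (l * pn w * M.cc (c w) ^ 2) * P)
      = (Real.exp (-Λ) * Real.exp (l * pn w * M.cc (c w) ^ 2)) * (M.nu a * M.nu (c w) * P) := by ring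
    _ ≤ 1 * (M.nu a * M.nu (c w) * P) := by
        refine mul_le_mul_of_nonneg_right ?_ (by positivity)
        calc Real.exp (-Λ) * Real.exp (l * pn w * M.cc (c w) ^ 2) ≤ Real.exp (-Λ) * Real.exp Λ :=
              mul_le_mul_of_nonneg_left e2 (Real.exp_pos _).le
          _ = 1 := by rw [← Real.exp_add]; simp
    _ ≤ Real.exp (l * pn w * M.cc a ^ 2) * (M.nu a * M.nu (c w) * P) :=
        mul_le_mul_of_nonneg_right e1 (by positivity)
    _ = M.nu a * Real.exp (l * pn w * M.cc a ^ 2) * P * M.nu (c w) := by ring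

theorem cin_W_eq (b l : ℝ) (c : SV V E → Fin (M.k + 1)) (o : E → Bool) :
    W G M b l c o = wv M l c * (∏ f, cin_F G M b o c f) * (Zv G (bt o) * Zv G (tt G M b c)) := rfl

theorem cin_W0 (hM : M.Ok) {b : ℝ} (hb : 0 < b) (l : ℝ) (c : SV V E → Fin (M.k + 1)) (o : E → Bool) :
    0 ≤ W G M b l c o := by
  rw [cin_W_eq]
  have h1 := cin_wv0 M hM l c
  have h2 : 0 ≤ ∏ f, cin_F G M b o c f := prod_nonneg fun f _ => cin_F0 G M hM hb o c f
  have h3 := Zv_pos G (bt o) (cin_bt0 o) (cin_bt1 o)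
  have h4 := Zv_pos G _ (cin_tt0 G M hM hb c) (cin_tt1 G M hM hb c)
  positivity

/-- constant of one vertex. -/
noncomputable def cin_k (b Λ : ℝ) : ℝ := Real.exp (-Λ) * cin_r b ^ 4 * (1 / 2 ^ 4)

theorem cin_k0 (b Λ : ℝ) : 0 < cin_k b Λ := by
  unfold cin_k
  have := cin_r0 b
  positivity

theorem cin_W_ge (hG : Deg4 G) (hM : M.Ok) {b : ℝ} (hb : 0 < b) {l Λ : ℝ} (hl : 0 ≤ l) (hlΛ : l ≤ Λ)
    (c : SV V E → Fin (M.k + 1)) (o : E → Bool) (w : SV V E) (a : Fin (M.k + 1)) (ha : a ∈ M.hi) :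
    cin_k b Λ * (M.nu a * W G M b l c o) ≤ W G M b l (Function.update c w a) o * M.nu (c w) := by
  have h1 := cin_wv M hM hl hlΛ c w a
  have h2 := cin_prod_ge G M hG hM hb o c w a ha
  have h3 := cin_Zt G M hG hM hb c w a
  have h4 := Zv_pos G (bt o) (cin_bt0 o) (cin_bt1 o)
  have h5 := Zv_pos G _ (cin_tt0 G M hM hb c) (cin_tt1 G M hM hb c)
  have h6 := Zv_pos G _ (cin_tt0 G M hM hb (Function.update c w a)) (cin_tt1 G M hM hb (Function.update c w a))
  have p1 : 0 ≤ ∏ f, cin_F G M b o c f := prod_nonneg fun f _ => cin_F0 G M hM hb o c f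
  have w1 := cin_wv0 M hM l c
  have w2 := cin_wv0 M hM l (Function.update c w a)
  have n0 := hM.nu0 (c w)
  have n1 := hM.nu0 a
  have r0 := cin_r0 b
  rw [cin_W_eq, cin_W_eq]
  unfold cin_k
  calc Real.exp (-Λ) * cin_r b ^ 4 * (1 / 2 ^ 4) *
        (M.nu a * (wv M l c * (∏ f, cin_F G M b o c f) * (Zv G (bt o) * Zv G (tt G M b c))))
      = (Real.exp (-Λ) * M.nu a * wv M l c) * (cin_r b ^ 4 * ∏ f, cin_F G M b o c f) *
        (Zv G (bt o) * (1 / 2 ^ 4 * Zv G (tt G M b c))) := by ring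
    _ ≤ (wv M l (Function.update c w a) * M.nu (c w)) *
        (∏ f, cin_F G M b o (Function.update c w a) f) *
        (Zv G (bt o) * Zv G (tt G M b (Function.update c w a))) := by
        refine mul_le_mul (mul_le_mul h1 h2 (by positivity) (by positivity)) ?_ (by positivity) ?_
        · refine mul_le_mul_of_nonneg_left ?_ h4.le
          linarith
        · refine mul_nonneg (by positivity) (prod_nonneg fun f _ => cin_F0 G M hM hb o _ f)
    _ = _ := by ring

/-- indicator. -/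
noncomputable def cin_i (P : Prop) (x : ℝ) : ℝ := open Classical in if P then x else 0

theorem cin_i_pos {P : Prop} (h : P) (x : ℝ) : cin_i P x = x := by
  unfold cin_i
  rw [if_pos h]

theorem cin_i_neg {P : Prop} (h : ¬ P) (x : ℝ) : cin_i P x = 0 := by
  unfold cin_i
  rw [if_neg h]

/-- resampling of one vertex. -/
theorem cin_step (hG : Deg4 G) (hM : M.Ok) {b : ℝ} (hb : 0 < b) {l Λ : ℝ} (hl : 0 ≤ l) (hlΛ : l ≤ Λ)
    (o : E → Bool) (w : SV V E) (P : (SV V E → Fin (M.k + 1)) → Prop)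
    (hP : ∀ c a, a ∈ M.hi → P c → P (Function.update c w a)) :
    (∑ c, cin_i (P c) (W G M b l c o)) ≤
      4 / cin_k b Λ * ∑ c, cin_i (P c ∧ c w ∈ M.hi) (W G M b l c o) := by
  have hk := cin_k0 b Λ
  have hW := cin_W0 G M hM hb l
  set Ph : ((SV V E → Fin (M.k + 1)) × Fin (M.k + 1)) → ℝ := fun x =>
    cin_i (P x.1 ∧ x.1 w ∈ M.hi) (W G M b l x.1 o * M.nu x.2) with hPh
  have hPh0 : ∀ x, 0 ≤ Ph x := by
    intro x
    simp only [hPh]
    by_cases hc : P x.1 ∧ x.1 w ∈ M.hi
    · rw [cin_i_pos hc]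
      exact mul_nonneg (hW _ o) (hM.nu0 _).le
    · rw [cin_i_neg hc]
  have hinv : ∑ x : (SV V E → Fin (M.k + 1)) × Fin (M.k + 1), Ph (Function.update x.1 w x.2, x.1 w) =
      ∑ x, Ph x := by
    refine Finset.sum_bij' (fun x _ => (Function.update x.1 w x.2, x.1 w))
      (fun x _ => (Function.update x.1 w x.2, x.1 w)) (fun _ _ => mem_univ _) (fun _ _ => mem_univ _) ?_ ?_ ?_
    · intro x _
      simp
    · intro x _
      simp
    · intro x _
      rfl
  have h1 : cin_k b Λ * ((1 / 4) * ∑ c, cin_i (P c) (W G M b l c o)) ≤ ∑ x, Ph x := by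
    rw [← hinv, Fintype.sum_prod_type]
    calc cin_k b Λ * ((1 / 4) * ∑ c, cin_i (P c) (W G M b l c o))
        ≤ cin_k b Λ * ((∑ a ∈ M.hi, M.nu a) * ∑ c, cin_i (P c) (W G M b l c o)) := by
          refine mul_le_mul_of_nonneg_left (mul_le_mul_of_nonneg_right hM.hi ?_) hk.le
          refine sum_nonneg fun c _ => ?_
          by_cases hc : P c
          · rw [cin_i_pos hc]
            exact hW c o
          · rw [cin_i_neg hc]
      _ = ∑ c, ∑ a ∈ M.hi, cin_i (P c) (cin_k b Λ * (M.nu a * W G M b l c o)) := by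
          rw [mul_sum, mul_sum]
          refine sum_congr rfl fun c _ => ?_
          by_cases hc : P c
          · simp only [cin_i_pos hc]
            rw [sum_mul, mul_sum]
          · simp only [cin_i_neg hc]
            simp
      _ ≤ ∑ c, ∑ a, Ph (Function.update c w a, c w) := by
          refine sum_le_sum fun c _ => ?_
          refine le_trans (sum_le_sum fun a ha => ?_) (sum_le_sum_of_subset_of_nonneg (subset_univ M.hi) ?_)
          · by_cases hc : P c
            · rw [cin_i_pos hc]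
              simp only [hPh]
              rw [cin_i_pos ⟨hP c a ha hc, by rw [Function.update_self]; exact ha⟩]
              exact cin_W_ge G M hG hM hb hl hlΛ c o w a ha
            · rw [cin_i_neg hc]
              exact hPh0 _
          · intro a _ _
            exact hPh0 _
  have h2 : ∑ x, Ph x = ∑ c, cin_i (P c ∧ c w ∈ M.hi) (W G M b l c o) := by
    rw [Fintype.sum_prod_type]
    refine sum_congr rfl fun c _ => ?_
    simp only [hPh]
    by_cases hc : P c ∧ c w ∈ M.hi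
    · simp only [cin_i_pos hc]
      rw [← mul_sum, hM.nu1, mul_one]
    · simp only [cin_i_neg hc]
      simp
  rw [h2] at h1
  rw [div_mul_eq_mul_div, le_div_iff₀ hk]
  linarith

/-- opening `e` when the four moduli are high. -/
theorem cin_open (hM : M.Ok) {b : ℝ} (hb : 0 < b) (l : ℝ) (c : SV V E → Fin (M.k + 1)) (o : E → Bool) (e : E)
    (h1 : c (Sum.inl (G.s e)) ∈ M.hi) (h2 : c (Sum.inr (e, false)) ∈ M.hi)
    (h3 : c (Sum.inr (e, true)) ∈ M.hi) (h4 : c (Sum.inl (G.r e)) ∈ M.hi) :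
    W G M b l c o ≤ (Real.tanh (16 / 25 * b) ^ 3)⁻¹ * W G M b l c (opP e o) := by
  have hτ0 : 0 < Real.tanh (16 / 25 * b) ^ 3 := pow_pos (cin_tanh_pos (by positivity)) 3
  have hτ1 : Real.tanh (16 / 25 * b) ^ 3 ≤ 1 :=
    pow_le_one₀ (cin_tanh_nonneg (by positivity)) (Real.tanh_lt_one _).le
  have hi : ∀ a, a ∈ M.hi → 4 / 5 ≤ M.cc a := fun a ha => by
    unfold Al.hi at ha
    exact (mem_filter.1 ha).2.1
  have hrr : Real.tanh (16 / 25 * b) ^ 3 ≤ rr G M b c e := by
    have hl : ∀ j ∈ (univ : Finset (Fin 3)), Real.tanh (16 / 25 * b) ≤ Real.tanh (la G M b c (e, j)) := by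
      intro j _
      refine cin_tanh_mono ?_
      have h5 : 4 / 5 ≤ M.cc (c ((LK G).s (e, j))) ∧ 4 / 5 ≤ M.cc (c ((LK G).r (e, j))) := by
        fin_cases j
        · exact ⟨hi _ h1, hi _ h2⟩
        · exact ⟨hi _ h2, hi _ h3⟩
        · exact ⟨hi _ h3, hi _ h4⟩
      unfold la
      have : (4 / 5 : ℝ) * (4 / 5) ≤ M.cc (c ((LK G).s (e, j))) * M.cc (c ((LK G).r (e, j))) :=
        mul_le_mul h5.1 h5.2 (by norm_num) (by linarith [h5.1])
      nlinarith
    unfold rr
    calc Real.tanh (16 / 25 * b) ^ 3 = ∏ _j : Fin 3, Real.tanh (16 / 25 * b) := by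
          rw [prod_const, card_univ, Fintype.card_fin]
      _ ≤ _ := prod_le_prod (fun _ _ => cin_tanh_nonneg (by positivity)) hl
  have hr0 := cin_rr0 G M hM hb c e
  have hr1 := cin_rr1 G M hM hb c e
  have t1 := Real.tanh_lt_one b
  have ho := cin_opP e o
  rw [ho, cin_W_eq, cin_W_eq]
  have hw := cin_wv0 M hM l c
  have hF : ∏ f, cin_F G M b o c f ≤ (Real.tanh (16 / 25 * b) ^ 3)⁻¹ *
      ∏ f, cin_F G M b (Function.update o e true) c f := by
    rw [← mul_prod_erase univ (fun f => cin_F G M b o c f) (mem_univ e),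
      ← mul_prod_erase univ (fun f => cin_F G M b (Function.update o e true) c f) (mem_univ e), ← mul_assoc]
    have he : ∏ f ∈ univ.erase e, cin_F G M b (Function.update o e true) c f =
        ∏ f ∈ univ.erase e, cin_F G M b o c f := by
      refine prod_congr rfl fun f hf => ?_
      unfold cin_F
      rw [Function.update_of_ne (ne_of_mem_erase hf)]
    rw [he]
    refine mul_le_mul_of_nonneg_right ?_ (prod_nonneg fun f _ => cin_F0 G M hM hb o c f)
    unfold cin_F
    rw [Function.update_self, if_pos rfl]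
    have hA := zero_le_one.trans (cin_AA1 G M b c e)
    rw [le_inv_mul_iff₀ hτ0, mul_comm (AA G M b c e), mul_comm (AA G M b c e), ← mul_assoc]
    refine mul_le_mul_of_nonneg_right ?_ hA
    split_ifs
    · exact mul_le_of_le_one_left hr0.le hτ1
    · calc Real.tanh (16 / 25 * b) ^ 3 * (1 - rr G M b c e) ≤ Real.tanh (16 / 25 * b) ^ 3 * 1 :=
            mul_le_mul_of_nonneg_left (by linarith) hτ0.le
        _ ≤ rr G M b c e := by linarith
  have hZ : Zv G (bt o) ≤ Zv G (bt (Function.update o e true)) := by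
    refine Zv_mono G _ _ (cin_bt0 o) fun f => ?_
    rcases eq_or_ne f e with rfl | hf
    · have : bt (Function.update o f true) f = 1 := by
        unfold bt
        rw [Function.update_self, if_pos rfl]
      rw [this]
      exact cin_bt1 o f
    · unfold bt
      rw [Function.update_of_ne hf]
  have z0 := Zv_pos G (bt o) (cin_bt0 o) (cin_bt1 o)
  have z1 := Zv_pos G (bt (Function.update o e true)) (cin_bt0 _) (cin_bt1 _)
  have z2 := Zv_pos G _ (cin_tt0 G M hM hb c) (cin_tt1 G M hM hb c)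
  have p0 : 0 ≤ ∏ f, cin_F G M b (Function.update o e true) c f :=
    prod_nonneg fun f _ => cin_F0 G M hM hb _ c f
  calc wv M l c * (∏ f, cin_F G M b o c f) * (Zv G (bt o) * Zv G (tt G M b c))
      ≤ wv M l c * ((Real.tanh (16 / 25 * b) ^ 3)⁻¹ * ∏ f, cin_F G M b (Function.update o e true) c f) *
        (Zv G (bt (Function.update o e true)) * Zv G (tt G M b c)) := by
        refine mul_le_mul (mul_le_mul_of_nonneg_left hF hw.le)
          (mul_le_mul_of_nonneg_right hZ z2.le) (by positivity) ?_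
        exact mul_nonneg hw.le (mul_nonneg (inv_nonneg.2 hτ0.le) p0)
    _ = _ := by ring

/-- constant of the edge. -/
noncomputable def cin_C (b Λ : ℝ) : ℝ := (4 / cin_k b Λ) ^ 4 * (Real.tanh (16 / 25 * b) ^ 3)⁻¹

theorem cin_C0 {b : ℝ} (hb : 0 < b) (Λ : ℝ) : 0 < cin_C b Λ := by
  unfold cin_C
  have := cin_k0 b Λ
  have h2 : 0 < Real.tanh (16 / 25 * b) := cin_tanh_pos (by positivity)
  positivity

theorem cin_sum (hG : Deg4 G) (hM : M.Ok) {b : ℝ} (hb : 0 < b) {l Λ : ℝ} (hl : 0 ≤ l) (hlΛ : l ≤ Λ)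
    (o : E → Bool) (e : E) :
    ∑ c, W G M b l c o ≤ cin_C b Λ * ∑ c, W G M b l c (opP e o) := by
  have hk := cin_k0 b Λ
  have hk4 : 0 < 4 / cin_k b Λ := by positivity
  have hup : ∀ (u w : SV V E) (c : SV V E → Fin (M.k + 1)) (a : Fin (M.k + 1)), a ∈ M.hi → c u ∈ M.hi →
      Function.update c w a u ∈ M.hi := by
    intro u w c a ha hc
    rcases eq_or_ne u w with rfl | h
    · rw [Function.update_self]
      exact ha
    · rw [Function.update_of_ne h]
      exact hc
  have s1 := cin_step G M hG hM hb hl hlΛ o (Sum.inl (G.s e)) (fun _ => True) (fun _ _ _ h => h)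
  have s2 := cin_step G M hG hM hb hl hlΛ o (Sum.inr (e, false)) (fun c => True ∧ c (Sum.inl (G.s e)) ∈ M.hi)
    (fun c a ha h => ⟨trivial, hup _ _ c a ha h.2⟩)
  have s3 := cin_step G M hG hM hb hl hlΛ o (Sum.inr (e, true))
    (fun c => (True ∧ c (Sum.inl (G.s e)) ∈ M.hi) ∧ c (Sum.inr (e, false)) ∈ M.hi)
    (fun c a ha h => ⟨⟨trivial, hup _ _ c a ha h.1.2⟩, hup _ _ c a ha h.2⟩)
  have s4 := cin_step G M hG hM hb hl hlΛ o (Sum.inl (G.r e))
    (fun c => ((True ∧ c (Sum.inl (G.s e)) ∈ M.hi) ∧ c (Sum.inr (e, false)) ∈ M.hi) ∧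
      c (Sum.inr (e, true)) ∈ M.hi)
    (fun c a ha h => ⟨⟨⟨trivial, hup _ _ c a ha h.1.1.2⟩, hup _ _ c a ha h.1.2⟩, hup _ _ c a ha h.2⟩)
  have s0 : ∑ c, W G M b l c o = ∑ c, cin_i True (W G M b l c o) :=
    sum_congr rfl fun c _ => (cin_i_pos trivial _).symm
  rw [s0]
  have s5 : (∑ c : SV V E → Fin (M.k + 1), cin_i ((((True ∧ c (Sum.inl (G.s e)) ∈ M.hi) ∧
      c (Sum.inr (e, false)) ∈ M.hi) ∧ c (Sum.inr (e, true)) ∈ M.hi) ∧ c (Sum.inl (G.r e)) ∈ M.hi)
      (W G M b l c o)) ≤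
      (Real.tanh (16 / 25 * b) ^ 3)⁻¹ * ∑ c, W G M b l c (opP e o) := by
    rw [mul_sum]
    refine sum_le_sum fun c _ => ?_
    by_cases h : ((((True ∧ c (Sum.inl (G.s e)) ∈ M.hi) ∧
      c (Sum.inr (e, false)) ∈ M.hi) ∧ c (Sum.inr (e, true)) ∈ M.hi) ∧ c (Sum.inl (G.r e)) ∈ M.hi)
    · rw [cin_i_pos h]
      exact cin_open G M hM hb l c o e h.1.1.1.2 h.1.1.2 h.1.2 h.2
    · rw [cin_i_neg h]
      refine mul_nonneg (inv_nonneg.2 (pow_nonneg (cin_tanh_nonneg (by positivity)) 3)) (cin_W0 G M hM hb l c _)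
  unfold cin_C
  calc ∑ c, cin_i True (W G M b l c o) ≤ 4 / cin_k b Λ * _ := s1
    _ ≤ 4 / cin_k b Λ * (4 / cin_k b Λ * _) := mul_le_mul_of_nonneg_left s2 hk4.le
    _ ≤ 4 / cin_k b Λ * (4 / cin_k b Λ * (4 / cin_k b Λ * _)) :=
        mul_le_mul_of_nonneg_left (mul_le_mul_of_nonneg_left s3 hk4.le) hk4.le
    _ ≤ 4 / cin_k b Λ * (4 / cin_k b Λ * (4 / cin_k b Λ * (4 / cin_k b Λ * _))) :=
        mul_le_mul_of_nonneg_left (mul_le_mul_of_nonneg_left (mul_le_mul_of_nonneg_left s4 hk4.le) hk4.le) hk4.le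
    _ ≤ 4 / cin_k b Λ * (4 / cin_k b Λ * (4 / cin_k b Λ * (4 / cin_k b Λ *
        ((Real.tanh (16 / 25 * b) ^ 3)⁻¹ * ∑ c, W G M b l c (opP e o))))) :=
        mul_le_mul_of_nonneg_left (mul_le_mul_of_nonneg_left (mul_le_mul_of_nonneg_left
          (mul_le_mul_of_nonneg_left s5 hk4.le) hk4.le) hk4.le) hk4.le
    _ = _ := by ring

theorem cin_two (e : E) (g : (E → Bool) → ℝ) (hg : ∀ o, 0 ≤ g o) :
    ∑ o, g (opP e o) ≤ 2 * ∑ o, g o := by
  have ho : ∀ o : E → Bool, opP e o = Function.update o e true := fun o => cin_opP e o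
  have h1 : ∀ o : E → Bool, g (opP e o) ≤ g o + g (Function.update o e (!(o e))) := by
    intro o
    rw [ho]
    cases h : o e
    · rw [Bool.not_false]
      have := hg o
      linarith
    · have e1 : Function.update o e true = o := by
        rw [← h, Function.update_eq_self]
      rw [e1]
      have := hg (Function.update o e (!true))
      linarith
  have h2 : ∑ o : E → Bool, g (Function.update o e (!(o e))) = ∑ o, g o := by
    refine Finset.sum_bij' (fun o _ => Function.update o e (!(o e))) (fun o _ => Function.update o e (!(o e)))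
      (fun _ _ => mem_univ _) (fun _ _ => mem_univ _) ?_ ?_ ?_
    · intro o _
      simp
    · intro o _
      simp
    · intro o _
      rfl
  calc ∑ o, g (opP e o) ≤ ∑ o, (g o + g (Function.update o e (!(o e)))) := sum_le_sum fun o _ => h1 o
    _ = 2 * ∑ o, g o := by rw [sum_add_distrib, h2]; ring

theorem cin_main (hG : Deg4 G) (hM : M.Ok) {b : ℝ} (hb : 0 < b) {l Λ : ℝ} (hl : 0 ≤ l) (hlΛ : l ≤ Λ)
    (e : E) (φ : (E → Bool) → ℝ) (hφ : ∀ o, 0 ≤ φ o) :
    EW G M b l (fun _ o => φ (opP e o)) ≤ (2 * cin_C b Λ) * EW G M b l (fun _ o => φ o) := by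
  have hW := cin_W0 G M hM hb l
  have hC := cin_C0 hb Λ
  unfold EW
  rw [← mul_div_assoc]
  refine div_le_div_of_nonneg_right ?_ (sum_nonneg fun c _ => sum_nonneg fun o _ => hW c o)
  rw [sum_comm, sum_comm (f := fun c o => W G M b l c o * φ o)]
  calc ∑ o, ∑ c, W G M b l c o * φ (opP e o) = ∑ o, (∑ c, W G M b l c o) * φ (opP e o) :=
        sum_congr rfl fun o _ => by rw [sum_mul]
    _ ≤ ∑ o, (cin_C b Λ * ∑ c, W G M b l c (opP e o)) * φ (opP e o) :=
        sum_le_sum fun o _ => mul_le_mul_of_nonneg_right (cin_sum G M hG hM hb hl hlΛ o e) (hφ _)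
    _ ≤ 2 * ∑ o, (cin_C b Λ * ∑ c, W G M b l c o) * φ o :=
        cin_two e (fun o => (cin_C b Λ * ∑ c, W G M b l c o) * φ o) (fun o =>
          mul_nonneg (mul_nonneg hC.le (sum_nonneg fun c _ => hW c o)) (hφ o))
    _ = 2 * cin_C b Λ * ∑ o, ∑ c, W G M b l c o * φ o := by
        rw [mul_sum, mul_sum]
        refine sum_congr rfl fun o _ => ?_
        rw [← sum_mul]
        ring

end gen

theorem cin (b Λ : ℝ) (hb : 0 < b) (hΛ : 0 ≤ Λ) : ∃ C : ℝ, 0 < C ∧
    ∀ (V E : Type) [Fintype V] [DecidableEq V] [Fintype E] [DecidableEq E] (G : Gr V E), Deg4 G →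
      ∀ (M : Al), M.Ok → ∀ l : ℝ, 0 ≤ l → l ≤ Λ → ∀ (e : E) (φ : (E → Bool) → ℝ), (∀ o, 0 ≤ φ o) →
        EW G M b l (fun _ o => φ (opP e o)) ≤ C * EW G M b l (fun _ o => φ o) := by
  have hC := cin_C0 hb Λ
  refine ⟨2 * cin_C b Λ, by positivity, ?_⟩
  intro V E _ _ _ _ G hG M hM l hl hlΛ e φ hφ
  exact cin_main G M hG hM hb hl hlΛ e φ hφ

theorem cin0 (b Λ : ℝ) (hb : 0 < b) (hΛ : 0 ≤ Λ) : ∃ C : ℝ, 0 < C ∧
    ∀ (V E : Type) [Fintype V] [DecidableEq V] [Fintype E] [DecidableEq E] (G : Gr V E), Deg4 G →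
      ∀ (K : ℕ), 0 < K → ∀ l : ℝ, 0 ≤ l → l ≤ Λ → ∀ (e : E) (φ : (E → Bool) → ℝ), (∀ o, 0 ≤ φ o) →
        EW G (clk K 0) b l (fun _ o => φ (opP e o)) ≤ C * EW G (clk K 0) b l (fun _ o => φ o) := by
  obtain ⟨C, hC, h⟩ := cin b Λ hb hΛ
  refine ⟨C, hC, ?_⟩
  intro V E _ _ _ _ G hG K hK l hl hlΛ e φ hφ
  refine le_of_tendsto_of_tendsto (EW_lim G b l hb K hK (fun o => φ (opP e o)))
    ((EW_lim G b l hb K hK φ).const_mul C) ?_
  have hev : ∀ᶠ ε : ℝ in 𝓝[>] 0, ε ∈ Set.Ioc (0 : ℝ) (1 / 4) := Ioc_mem_nhdsGT (by norm_num)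
  filter_upwards [hev] with ε hε
  exact h V E G hG (clk K ε) (clk_ok K hK ε hε.1 hε.2) l hl hlΛ e φ hφ

end H82.BX
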