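import Pool.Agent.H82.BX.GI2

/-!
# GI5: the edge bits given the moduli

`fo_sum`: `Zv G (if e ∈ B then bt o0 e else r e)`: expand `1 + r s = (1 - r) · (1 + 0 s) + r (1 + s)` on the edges off `B`.
`fo_mono`: Holley's inequality (`holley` in `Mathlib/Combinatorics/SetFamily/FourFunctions.lean`) on the finite distributive
lattice `E → Bool` with
`f1 o = 1[o = o0 on B] ∏_{e ∉ B} (if o e then r e else 1 - r e) Zv (bt o)` / norm and `f2` with `r', o0'`:
`f1 o f2 o' ≤ f1 (o ⊓ o') f2 (o ⊔ o')` from `Zs_four` + `four_bit` (`bt (o ⊔ o') = max`), from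
`(1-r)^{1-a} r^a (1-r')^{1-a'} r'^{a'} ≤ (1-r)^{1-a∧a'} r^{a∧a'} (1-r')^{1-a∨a'} r'^{a∨a'}` for `r ≤ r'`, and from the constraints
(`o0 ≤ o0'` on `B`).  The observable has to be made nonnegative by adding a constant.
`fo_fkg`: `fkg` (same file) with the weight `f1` (`r = r'`, `o0 = o0'`).
-/

set_option autoImplicit false

open Finset MeasureTheory

namespace H82.BX

open H82.IC

variable {V E : Type} [Fintype V] [DecidableEq V] [Fintype E] [DecidableEq E]

/-- unnormalised sum over the bits equal to `o0` on `B`. -/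
noncomputable def fo (G : Gr V E) (B : Finset E) (r : E → ℝ) (o0 : E → Bool) (f : (E → Bool) → ℝ) : ℝ :=
  ∑ o : E → Bool, if (∀ e ∈ B, o e = o0 e) then
    (∏ e ∈ univ \ B, (if o e then r e else 1 - r e)) * Zv G (bt o) * f o else 0

/-- local weight of the bit `x` of the edge `e`. -/
noncomputable def GI5_w (B : Finset E) (r : E → ℝ) (o0 : E → Bool) (e : E) (x : Bool) : ℝ :=
  if e ∈ B then (if x = o0 e then 1 else 0) else (if x then r e else 1 - r e)

/-- product weight. -/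
noncomputable def GI5_ph (B : Finset E) (r : E → ℝ) (o0 : E → Bool) (o : E → Bool) : ℝ :=
  ∏ e, GI5_w B r o0 e (o e)

omit [Fintype V] [DecidableEq V] in
theorem GI5_ph_eq (B : Finset E) (r : E → ℝ) (o0 o : E → Bool) :
    GI5_ph B r o0 o = if (∀ e ∈ B, o e = o0 e) then
      (∏ e ∈ univ \ B, (if o e then r e else 1 - r e)) else 0 := by
  unfold GI5_ph
  split_ifs with h
  · rw [← Finset.prod_sdiff (Finset.subset_univ B)]
    have h1 : ∏ e ∈ B, GI5_w B r o0 e (o e) = 1 := by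
      refine Finset.prod_eq_one fun e he => ?_
      unfold GI5_w
      rw [if_pos he, if_pos (h e he)]
    rw [h1, mul_one]
    refine Finset.prod_congr rfl fun e he => ?_
    unfold GI5_w
    rw [if_neg (Finset.mem_sdiff.1 he).2]
  · push Not at h
    obtain ⟨e, he, hne⟩ := h
    refine Finset.prod_eq_zero (Finset.mem_univ e) ?_
    unfold GI5_w
    rw [if_pos he, if_neg hne]

theorem GI5_fo (G : Gr V E) (B : Finset E) (r : E → ℝ) (o0 : E → Bool) (f : (E → Bool) → ℝ) :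
    fo G B r o0 f = ∑ o : E → Bool, GI5_ph B r o0 o * Zv G (bt o) * f o := by
  unfold fo
  refine Finset.sum_congr rfl fun o _ => ?_
  rw [GI5_ph_eq]
  split_ifs with h
  · rfl
  · rw [zero_mul, zero_mul]

theorem fo_sum (G : Gr V E) (B : Finset E) (r : E → ℝ) (o0 : E → Bool) :
    fo G B r o0 (fun _ => 1) = Zv G (fun e => if e ∈ B then bt o0 e else r e) := by
  rw [GI5_fo]
  unfold Zv Zs
  simp only [mul_one, Finset.mul_sum]
  rw [Finset.sum_comm]
  refine Finset.sum_congr rfl fun σ _ => ?_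
  have key : ∀ e : E, ∑ x : Bool, GI5_w B r o0 e x *
      (1 + (if x then (1 : ℝ) else 0) * (sg (σ (G.s e)) * sg (σ (G.r e)))) =
      1 + (if e ∈ B then bt o0 e else r e) * (sg (σ (G.s e)) * sg (σ (G.r e))) := by
    intro e
    rw [Fintype.sum_bool]
    unfold GI5_w bt
    by_cases he : e ∈ B
    · simp only [if_pos he]
      cases o0 e <;> simp
    · simp only [if_neg he, if_true, Bool.false_eq_true, if_false]
      ring
  rw [← Finset.prod_congr rfl fun e _ => key e, Finset.prod_univ_sum, Fintype.piFinset_univ]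
  refine Finset.sum_congr rfl fun o _ => ?_
  unfold GI5_ph bt
  rw [← Finset.prod_mul_distrib]

theorem GI5_w_nonneg (B : Finset E) (r : E → ℝ) (h0 : ∀ e, 0 ≤ r e) (h1 : ∀ e, r e ≤ 1)
    (o0 : E → Bool) (e : E) (x : Bool) : 0 ≤ GI5_w B r o0 e x := by
  unfold GI5_w
  have a := h0 e
  have b := h1 e
  split_ifs <;> linarith

theorem GI5_ph_nonneg (B : Finset E) (r : E → ℝ) (h0 : ∀ e, 0 ≤ r e) (h1 : ∀ e, r e ≤ 1)
    (o0 o : E → Bool) : 0 ≤ GI5_ph B r o0 o :=
  Finset.prod_nonneg fun e _ => GI5_w_nonneg B r h0 h1 o0 e (o e)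

theorem GI5_w_super (B : Finset E) (r r' : E → ℝ) (h0 : ∀ e, 0 ≤ r e) (h : ∀ e, r e ≤ r' e)
    (h1 : ∀ e, r' e ≤ 1) (o0 o0' : E → Bool) (ho : ∀ e ∈ B, o0 e ≤ o0' e) (e : E) (x y : Bool) :
    GI5_w B r o0 e x * GI5_w B r' o0' e y ≤ GI5_w B r o0 e (x ⊓ y) * GI5_w B r' o0' e (x ⊔ y) := by
  unfold GI5_w
  by_cases he : e ∈ B
  · simp only [if_pos he]
    have := ho e he
    revert this
    cases x <;> cases y <;> cases o0 e <;> cases o0' e <;> simp
  · simp only [if_neg he]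
    have a := h0 e
    have b := h e
    have c := h1 e
    cases x <;> cases y <;> simp <;> nlinarith

theorem GI5_ph_super (B : Finset E) (r r' : E → ℝ) (h0 : ∀ e, 0 ≤ r e) (h : ∀ e, r e ≤ r' e)
    (h1 : ∀ e, r' e ≤ 1) (o0 o0' : E → Bool) (ho : ∀ e ∈ B, o0 e ≤ o0' e) (o o' : E → Bool) :
    GI5_ph B r o0 o * GI5_ph B r' o0' o' ≤ GI5_ph B r o0 (o ⊓ o') * GI5_ph B r' o0' (o ⊔ o') := by
  unfold GI5_ph
  rw [← Finset.prod_mul_distrib, ← Finset.prod_mul_distrib]
  refine Finset.prod_le_prod (fun e _ => ?_) (fun e _ => ?_)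
  · exact mul_nonneg (GI5_w_nonneg B r h0 (fun e => (h e).trans (h1 e)) o0 e _)
      (GI5_w_nonneg B r' (fun e => (h0 e).trans (h e)) h1 o0' e _)
  · exact GI5_w_super B r r' h0 h h1 o0 o0' ho e (o e) (o' e)

theorem GI5_bt01 (o : E → Bool) (e : E) : 0 ≤ bt o e ∧ bt o e ≤ 1 := by
  unfold bt
  split_ifs <;> norm_num

theorem GI5_Zv_super (G : Gr V E) (o o' : E → Bool) :
    Zv G (bt o) * Zv G (bt o') ≤ Zv G (bt (o ⊓ o')) * Zv G (bt (o ⊔ o')) := by
  have hm : ∀ e, max (bt o e) (bt o' e) = bt (o ⊔ o') e := by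
    intro e
    unfold bt
    rw [Pi.sup_apply]
    cases o e <;> cases o' e <;> simp
  have hn : ∀ e, min (bt o e) (bt o' e) = bt (o ⊓ o') e := by
    intro e
    unfold bt
    rw [Pi.inf_apply]
    cases o e <;> cases o' e <;> simp
  have hb := fun e => four_bit (bt o e) (bt o' e) (GI5_bt01 o e).1 (GI5_bt01 o e).2
    (GI5_bt01 o' e).1 (GI5_bt01 o' e).2
  simp only [hm, hn] at hb
  have := Zs_four G (fun _ => 1) (bt o) (fun _ => 1) (bt o') (fun _ => 1) (bt (o ⊔ o')) (fun _ => 1)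
    (bt (o ⊓ o')) (fun e => (hb e).1) (fun e => (hb e).2.1) (fun e => (hb e).2.2.1)
    (fun e => (hb e).2.2.2)
  unfold Zv
  rw [mul_comm (Zs G (fun _ => 1) (bt (o ⊓ o')))]
  exact this

theorem GI5_super (G : Gr V E) (B : Finset E) (r r' : E → ℝ) (h0 : ∀ e, 0 ≤ r e)
    (h : ∀ e, r e ≤ r' e) (h1 : ∀ e, r' e ≤ 1) (o0 o0' : E → Bool) (ho : ∀ e ∈ B, o0 e ≤ o0' e)
    (o o' : E → Bool) :
    (GI5_ph B r o0 o * Zv G (bt o)) * (GI5_ph B r' o0' o' * Zv G (bt o')) ≤
      (GI5_ph B r o0 (o ⊓ o') * Zv G (bt (o ⊓ o'))) * (GI5_ph B r' o0' (o ⊔ o') * Zv G (bt (o ⊔ o'))) := by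
  have hz : ∀ o : E → Bool, 0 ≤ Zv G (bt o) := fun o =>
    (Zv_pos G (bt o) (fun e => (GI5_bt01 o e).1) (fun e => (GI5_bt01 o e).2)).le
  have a1 := GI5_ph_super B r r' h0 h h1 o0 o0' ho o o'
  have a2 := GI5_Zv_super G o o'
  have n1 := GI5_ph_nonneg B r h0 (fun e => (h e).trans (h1 e)) o0
  have n2 := GI5_ph_nonneg B r' (fun e => (h0 e).trans (h e)) h1 o0'
  calc (GI5_ph B r o0 o * Zv G (bt o)) * (GI5_ph B r' o0' o' * Zv G (bt o'))
      = (GI5_ph B r o0 o * GI5_ph B r' o0' o') * (Zv G (bt o) * Zv G (bt o')) := by ring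
    _ ≤ (GI5_ph B r o0 (o ⊓ o') * GI5_ph B r' o0' (o ⊔ o')) *
          (Zv G (bt (o ⊓ o')) * Zv G (bt (o ⊔ o'))) :=
        mul_le_mul a1 a2 (mul_nonneg (hz _) (hz _)) (mul_nonneg (n1 _) (n2 _))
    _ = _ := by ring

theorem GI5_one_pos (G : Gr V E) (B : Finset E) (r : E → ℝ) (h0 : ∀ e, 0 ≤ r e) (h1 : ∀ e, r e ≤ 1)
    (o0 : E → Bool) : 0 < fo G B r o0 (fun _ => 1) := by
  rw [fo_sum]
  refine Zv_pos G _ (fun e => ?_) (fun e => ?_)
  · split_ifs
    · exact (GI5_bt01 o0 e).1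
    · exact h0 e
  · split_ifs
    · exact (GI5_bt01 o0 e).2
    · exact h1 e

theorem GI5_shift (G : Gr V E) (B : Finset E) (r : E → ℝ) (o0 : E → Bool) (f : (E → Bool) → ℝ) (a : ℝ) :
    fo G B r o0 (fun o => f o - a) = fo G B r o0 f - a * fo G B r o0 (fun _ => 1) := by
  rw [GI5_fo, GI5_fo, GI5_fo, Finset.mul_sum, ← Finset.sum_sub_distrib]
  refine Finset.sum_congr rfl fun o _ => ?_
  ring

theorem fo_mono (G : Gr V E) (B : Finset E) (r r' : E → ℝ) (h0 : ∀ e, 0 ≤ r e) (h : ∀ e, r e ≤ r' e)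
    (h1 : ∀ e, r' e ≤ 1) (o0 o0' : E → Bool) (ho : ∀ e ∈ B, o0 e ≤ o0' e) (f : (E → Bool) → ℝ)
    (hf : Monotone f) :
    fo G B r o0 f / fo G B r o0 (fun _ => 1) ≤ fo G B r' o0' f / fo G B r' o0' (fun _ => 1) := by
  have h0' : ∀ e, 0 ≤ r' e := fun e => (h0 e).trans (h e)
  have h1' : ∀ e, r e ≤ 1 := fun e => (h e).trans (h1 e)
  have z1 := GI5_one_pos G B r h0 h1' o0
  have z2 := GI5_one_pos G B r' h0' h1 o0'
  have hz : ∀ o : E → Bool, 0 ≤ Zv G (bt o) := fun o =>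
    (Zv_pos G (bt o) (fun e => (GI5_bt01 o e).1) (fun e => (GI5_bt01 o e).2)).le
  have n1 := GI5_ph_nonneg B r h0 h1' o0
  have n2 := GI5_ph_nonneg B r' h0' h1 o0'
  set Z1 := fo G B r o0 (fun _ => 1) with hZ1
  set Z2 := fo G B r' o0' (fun _ => 1) with hZ2
  have hbot : ∀ o : E → Bool, (fun _ => false) ≤ o := fun o e => Bool.false_le _
  have key := holley (μ := fun o : E → Bool => f o - f (fun _ => false))
    (f := fun o => GI5_ph B r o0 o * Zv G (bt o) / Z1)
    (g := fun o => GI5_ph B r' o0' o * Zv G (bt o) / Z2)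
    (fun o => sub_nonneg.2 (hf (hbot o)))
    (fun o => div_nonneg (mul_nonneg (n1 o) (hz o)) z1.le)
    (fun o => div_nonneg (mul_nonneg (n2 o) (hz o)) z2.le)
    (fun o o' hoo => sub_le_sub_right (hf hoo) _)
    (by
      have e1 : ∑ o, GI5_ph B r o0 o * Zv G (bt o) / Z1 = 1 := by
        rw [← Finset.sum_div, div_eq_one_iff_eq z1.ne', hZ1, GI5_fo]
        simp only [mul_one]
      have e2 : ∑ o, GI5_ph B r' o0' o * Zv G (bt o) / Z2 = 1 := by
        rw [← Finset.sum_div, div_eq_one_iff_eq z2.ne', hZ2, GI5_fo]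
        simp only [mul_one]
      rw [e1, e2])
    (by
      intro o o'
      have := GI5_super G B r r' h0 h h1 o0 o0' ho o o'
      rw [div_mul_div_comm, div_mul_div_comm]
      exact div_le_div_of_nonneg_right this (mul_pos z1 z2).le)
  have e1 : ∑ o, (f o - f (fun _ => false)) * (GI5_ph B r o0 o * Zv G (bt o) / Z1) =
      fo G B r o0 f / Z1 - f (fun _ => false) := by
    have : fo G B r o0 f / Z1 - f (fun _ => false) =
        fo G B r o0 (fun o => f o - f (fun _ => false)) / Z1 := by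
      rw [GI5_shift, ← hZ1]
      field_simp
    rw [this, GI5_fo, Finset.sum_div]
    refine Finset.sum_congr rfl fun o _ => ?_
    ring
  have e2 : ∑ o, (f o - f (fun _ => false)) * (GI5_ph B r' o0' o * Zv G (bt o) / Z2) =
      fo G B r' o0' f / Z2 - f (fun _ => false) := by
    have : fo G B r' o0' f / Z2 - f (fun _ => false) =
        fo G B r' o0' (fun o => f o - f (fun _ => false)) / Z2 := by
      rw [GI5_shift, ← hZ2]
      field_simp
    rw [this, GI5_fo, Finset.sum_div]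
    refine Finset.sum_congr rfl fun o _ => ?_
    ring
  rw [e1, e2] at key
  linarith

theorem fo_fkg (G : Gr V E) (B : Finset E) (r : E → ℝ) (h0 : ∀ e, 0 ≤ r e) (h1 : ∀ e, r e ≤ 1)
    (o0 : E → Bool) (f g : (E → Bool) → ℝ) (hf : Monotone f) (hg : Monotone g) :
    fo G B r o0 f * fo G B r o0 g ≤ fo G B r o0 (fun _ => 1) * fo G B r o0 (fun o => f o * g o) := by
  have hz : ∀ o : E → Bool, 0 ≤ Zv G (bt o) := fun o =>
    (Zv_pos G (bt o) (fun e => (GI5_bt01 o e).1) (fun e => (GI5_bt01 o e).2)).le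
  have n1 := GI5_ph_nonneg B r h0 h1 o0
  have hbot : ∀ o : E → Bool, (fun _ => false) ≤ o := fun o e => Bool.false_le _
  have key := fkg (μ := fun o : E → Bool => GI5_ph B r o0 o * Zv G (bt o))
    (f := fun o => f o - f (fun _ => false)) (g := fun o => g o - g (fun _ => false))
    (fun o => mul_nonneg (n1 o) (hz o)) (fun o => sub_nonneg.2 (hf (hbot o)))
    (fun o => sub_nonneg.2 (hg (hbot o))) (fun o o' hoo => sub_le_sub_right (hf hoo) _)
    (fun o o' hoo => sub_le_sub_right (hg hoo) _)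
    (fun o o' => GI5_super G B r r h0 (fun e => le_rfl) h1 o0 o0 (fun e _ => le_rfl) o o')
  set a := f (fun _ => false) with ha
  set b := g (fun _ => false) with hb
  have e0 : ∑ o, GI5_ph B r o0 o * Zv G (bt o) = fo G B r o0 (fun _ => 1) := by
    rw [GI5_fo]
    simp only [mul_one]
  have e1 : ∑ o, GI5_ph B r o0 o * Zv G (bt o) * (f o - a) =
      fo G B r o0 f - a * fo G B r o0 (fun _ => 1) := by
    rw [← GI5_shift, GI5_fo]
  have e2 : ∑ o, GI5_ph B r o0 o * Zv G (bt o) * (g o - b) =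
      fo G B r o0 g - b * fo G B r o0 (fun _ => 1) := by
    rw [← GI5_shift, GI5_fo]
  have e3 : ∑ o, GI5_ph B r o0 o * Zv G (bt o) * ((f o - a) * (g o - b)) =
      fo G B r o0 (fun o => f o * g o) - b * fo G B r o0 f - a * fo G B r o0 g +
        a * b * fo G B r o0 (fun _ => 1) := by
    rw [GI5_fo, GI5_fo, GI5_fo, GI5_fo, Finset.mul_sum, Finset.mul_sum, Finset.mul_sum,
      ← Finset.sum_sub_distrib, ← Finset.sum_sub_distrib, ← Finset.sum_add_distrib]
    refine Finset.sum_congr rfl fun o _ => ?_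
    ring
  rw [e0, e1, e2, e3] at key
  nlinarith [key]

end H82.BX
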