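import Pool.Agent.H82.BX.CK1

/-!
# CK2: inner vertices of the chains

Ends: `en G (inl v) = {v}`, `en G (inr (e, _)) = {s e, r e}`.  Claim (`K ≥ 0`):
`sgS (σ_p σ_q) ≤ ∑_{x ∈ en p} ∑_{y ∈ en q} sgS (σ_x σ_y)`.
All `sgS (σ_x σ_y) ≥ 0` (Griffiths: expand the exponentials `cosh + sinh s`, sums of products of signs are `≥ 0`).  If `p` is inner to the chain of `e`, and `q` is not inner to the same chain, sum over the two inner signs of `e`:
with weights `C_j + S_j s`: the sum of `σ_p × weights` is `4 C0 C1 C2 (α σ_x + β σ_y)`, `x = s e`, `y = r e`, `0 ≤ α, β ≤ 1` (`p = z`: `α = T0`, `β = T1 T2`; `p = m`: `α = T0 T1`, `β = T2`), while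
the sum of `(σ_x + σ_y) × weights` is `4 C0 C1 C2 (σ_x + σ_y)(1 + r σ_x σ_y) = 4 C0 C1 C2 (1 + r)(σ_x + σ_y)`; the remaining factor (with `σ_q`) has nonnegative correlations with `σ_x`, `σ_y`.
Then the same for `q`.  If `p, q` are both inner to the chain of `e` then the right side contains `sgS (σ_x σ_x) = sgS 1 ≥ sgS (σ_p σ_q)`.
-/

set_option autoImplicit false

open Finset MeasureTheory

namespace H82.BX

open H82.IC XYB

section aux
variable {ι : Type} [Fintype ι] [DecidableEq ι]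

theorem CK2_sq (b : Bool) : sg b * sg b = 1 := by
  cases b <;> simp [sg]

theorem CK2_not (b : Bool) : sg (!b) = -sg b := by
  cases b <;> simp [sg]

theorem CK2_pm (b : Bool) : sg b = 1 ∨ sg b = -1 := by
  cases b
  · right; simp [sg]
  · left; simp [sg]

theorem CK2_le (a b : Bool) : sg a * sg b ≤ 1 := by
  rcases CK2_pm a with h | h <;> rcases CK2_pm b with h' | h' <;> rw [h, h'] <;> norm_num

/-- flipping one sign -/
theorem CK2_flip (i : ι) (g : (ι → Bool) → ℝ)
    (hg : ∀ σ, g (Function.update σ i (!σ i)) = g σ) : ∑ σ : ι → Bool, g σ * sg (σ i) = 0 := by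
  refine Finset.sum_involution (fun σ _ => Function.update σ i (!σ i)) ?_ ?_ ?_ ?_
  · intro σ _
    simp only [Function.update_self, CK2_not, hg]
    ring
  · intro σ _ _ h
    have h1 := congrFun h i
    simp only [Function.update_self] at h1
    cases hs : σ i <;> simp [hs] at h1
  · intro σ _
    exact Finset.mem_univ _
  · intro σ _
    funext k
    by_cases hk : k = i
    · subst hk
      simp
    · simp [Function.update_of_ne hk]

/-- all correlations with products of signs are nonnegative -/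
def CK2_P (f : (ι → Bool) → ℝ) : Prop := ∀ A : Finset ι, 0 ≤ ∑ σ, f σ * ∏ i ∈ A, sg (σ i)

theorem CK2_P_one : CK2_P (fun _ : ι → Bool => 1) := by
  intro A
  rcases A.eq_empty_or_nonempty with rfl | ⟨i, hi⟩
  · simp
  · have h : ∑ σ : ι → Bool, (1 : ℝ) * ∏ k ∈ A, sg (σ k) =
        ∑ σ : ι → Bool, (∏ k ∈ A.erase i, sg (σ k)) * sg (σ i) := by
      refine Finset.sum_congr rfl fun σ _ => ?_
      rw [one_mul, ← Finset.prod_erase_mul A _ hi]
    rw [h, CK2_flip i]
    intro σ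
    refine Finset.prod_congr rfl fun k hk => ?_
    rw [Function.update_of_ne (Finset.ne_of_mem_erase hk)]

omit [Fintype ι] in
theorem CK2_char (i : ι) (A : Finset ι) : ∃ A' : Finset ι, ∀ σ : ι → Bool,
    sg (σ i) * ∏ k ∈ A, sg (σ k) = ∏ k ∈ A', sg (σ k) := by
  by_cases hi : i ∈ A
  · refine ⟨A.erase i, fun σ => ?_⟩
    rw [← Finset.mul_prod_erase A _ hi, ← mul_assoc, CK2_sq, one_mul]
  · refine ⟨insert i A, fun σ => ?_⟩
    rw [Finset.prod_insert hi]

theorem CK2_P_two {f : (ι → Bool) → ℝ} (hf : CK2_P f) (i j : ι) (A : Finset ι) :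
    0 ≤ ∑ σ, f σ * ((sg (σ i) * sg (σ j)) * ∏ k ∈ A, sg (σ k)) := by
  obtain ⟨A', h'⟩ := CK2_char j A
  obtain ⟨A'', h''⟩ := CK2_char i A'
  have h := hf A''
  refine h.trans (le_of_eq (Finset.sum_congr rfl fun σ _ => ?_))
  rw [← h'', ← h']
  ring

theorem CK2_exp (K : ℝ) (a b : Bool) :
    Real.exp (K * (sg a * sg b)) = Real.cosh K + Real.sinh K * (sg a * sg b) := by
  have h : sg a * sg b = 1 ∨ sg a * sg b = -1 := by
    rcases CK2_pm a with h | h <;> rcases CK2_pm b with h' | h' <;> rw [h, h'] <;> norm_num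
  rcases h with h | h <;> rw [h]
  · rw [mul_one, mul_one, Real.cosh_add_sinh]
  · rw [mul_neg_one, mul_neg_one, ← sub_eq_add_neg, Real.cosh_sub_sinh]

theorem CK2_P_link {f : (ι → Bool) → ℝ} (hf : CK2_P f) {K : ℝ} (hK : 0 ≤ K) (i j : ι) :
    CK2_P (fun σ => f σ * Real.exp (K * (sg (σ i) * sg (σ j)))) := by
  intro A
  have h1 := hf A
  have h2 := CK2_P_two hf i j A
  have h3 : ∑ σ, f σ * Real.exp (K * (sg (σ i) * sg (σ j))) * ∏ k ∈ A, sg (σ k) =
      Real.cosh K * (∑ σ, f σ * ∏ k ∈ A, sg (σ k)) +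
      Real.sinh K * ∑ σ, f σ * ((sg (σ i) * sg (σ j)) * ∏ k ∈ A, sg (σ k)) := by
    rw [Finset.mul_sum, Finset.mul_sum, ← Finset.sum_add_distrib]
    refine Finset.sum_congr rfl fun σ _ => ?_
    rw [CK2_exp]
    ring
  rw [h3]
  exact add_nonneg (mul_nonneg (Real.cosh_pos K).le h1)
    (mul_nonneg (Real.sinh_nonneg_iff.2 hK) h2)

theorem CK2_P_prod {L : Type} [DecidableEq L] (s : Finset L) (K : L → ℝ) (hK : ∀ l, 0 ≤ K l)
    (i j : L → ι) :
    CK2_P (fun σ => ∏ l ∈ s, Real.exp (K l * (sg (σ (i l)) * sg (σ (j l))))) := by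
  induction s using Finset.induction_on with
  | empty => simpa using (CK2_P_one (ι := ι))
  | @insert l s hl ih =>
    have h := CK2_P_link ih (hK l) (i l) (j l)
    have e : (fun σ : ι → Bool => ∏ l ∈ insert l s, Real.exp (K l * (sg (σ (i l)) * sg (σ (j l))))) =
        fun σ => (∏ l ∈ s, Real.exp (K l * (sg (σ (i l)) * sg (σ (j l))))) *
          Real.exp (K l * (sg (σ (i l)) * sg (σ (j l)))) := by
      funext σ
      rw [Finset.prod_insert hl, mul_comm]
    rw [e]
    exact h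

theorem CK2_corr {f : (ι → Bool) → ℝ} (hf : CK2_P f) (i j : ι) :
    0 ≤ ∑ σ, f σ * (sg (σ i) * sg (σ j)) := by
  have h := CK2_P_two hf i j ∅
  simpa using h

end aux

variable {V E : Type} [Fintype V] [DecidableEq V] [Fintype E] [DecidableEq E]

def en (G : Gr V E) : SV V E → Finset V
  | Sum.inl v => {v}
  | Sum.inr (e, _) => {G.s e, G.r e}

theorem CK2_nonneg (G : Gr V E) (K : E × Fin 3 → ℝ) (hK : ∀ l, 0 ≤ K l) (p q : SV V E) :
    0 ≤ sgS G K (fun σ => sg (σ p) * sg (σ q)) := by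
  have h := CK2_corr (CK2_P_prod (univ : Finset (E × Fin 3)) K hK (LK G).s (LK G).r) p q
  unfold sgS
  refine h.trans (le_of_eq (Finset.sum_congr rfl fun σ _ => ?_))
  rw [mul_comm]

theorem CK2_le_one (G : Gr V E) (K : E × Fin 3 → ℝ) (p q x : SV V E) :
    sgS G K (fun σ => sg (σ p) * sg (σ q)) ≤ sgS G K (fun σ => sg (σ x) * sg (σ x)) := by
  unfold sgS
  refine Finset.sum_le_sum fun σ _ => ?_
  have h0 : (0 : ℝ) ≤ ∏ l : E × Fin 3, Real.exp (K l * (sg (σ ((LK G).s l)) * sg (σ ((LK G).r l)))) :=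
    Finset.prod_nonneg fun l _ => (Real.exp_pos _).le
  refine mul_le_mul_of_nonneg_right ?_ h0
  change sg (σ p) * sg (σ q) ≤ sg (σ x) * sg (σ x)
  rw [CK2_sq]
  exact CK2_le _ _

/-- the weight of the other chains -/
noncomputable def CK2_w (G : Gr V E) (K : E × Fin 3 → ℝ) (e : E) (σ : SV V E → Bool) : ℝ :=
  ∏ l ∈ (univ : Finset (E × Fin 3)).filter (fun l => l.1 ≠ e),
    Real.exp (K l * (sg (σ ((LK G).s l)) * sg (σ ((LK G).r l))))

omit [Fintype V] [DecidableEq V] in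
theorem CK2_split (G : Gr V E) (K : E × Fin 3 → ℝ) (e : E) (σ : SV V E → Bool) :
    ∏ l : E × Fin 3, Real.exp (K l * (sg (σ ((LK G).s l)) * sg (σ ((LK G).r l)))) =
      CK2_w G K e σ *
      ((Real.cosh (K (e, 0)) + Real.sinh (K (e, 0)) *
          (sg (σ (Sum.inl (G.s e))) * sg (σ (Sum.inr (e, false))))) *
       (Real.cosh (K (e, 1)) + Real.sinh (K (e, 1)) *
          (sg (σ (Sum.inr (e, false))) * sg (σ (Sum.inr (e, true))))) *
       (Real.cosh (K (e, 2)) + Real.sinh (K (e, 2)) *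
          (sg (σ (Sum.inr (e, true))) * sg (σ (Sum.inl (G.r e)))))) := by
  rw [← Finset.prod_filter_mul_prod_filter_not (univ : Finset (E × Fin 3)) (fun l => l.1 ≠ e)]
  unfold CK2_w
  congr 1
  have h1 : (univ : Finset (E × Fin 3)).filter (fun l => ¬ l.1 ≠ e) =
      (univ : Finset (Fin 3)).image (fun j => (e, j)) := by
    ext ⟨e', j⟩
    simp only [Finset.mem_filter, Finset.mem_univ, true_and, not_not, Finset.mem_image,
      Prod.mk.injEq]
    exact ⟨fun h => ⟨j, h.symm, rfl⟩, fun ⟨_, h, _⟩ => h.symm⟩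
  rw [h1, Finset.prod_image (fun a _ b _ h => (Prod.mk.inj h).2), Fin.prod_univ_three]
  rw [CK2_exp, CK2_exp, CK2_exp]
  rfl

omit [Fintype V] in
/-- invariance of the weight of the other chains -/
theorem CK2_w_inv (G : Gr V E) (K : E × Fin 3 → ℝ) (e : E) (c : Bool) (σ : SV V E → Bool) (b : Bool) :
    CK2_w G K e (Function.update σ (Sum.inr (e, c)) b) = CK2_w G K e σ := by
  unfold CK2_w
  refine Finset.prod_congr rfl fun l hl => ?_
  obtain ⟨e', j⟩ := l
  have he : e' ≠ e := (Finset.mem_filter.1 hl).2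
  have hs : (LK G).s (e', j) ≠ Sum.inr (e, c) := by
    unfold LK
    fin_cases j <;> simp [he]
  have hr : (LK G).r (e', j) ≠ Sum.inr (e, c) := by
    unfold LK
    fin_cases j <;> simp [he]
  rw [Function.update_of_ne hs, Function.update_of_ne hr]

/-- summing over the two inner signs -/
theorem CK2_inner (e : E) (x y : SV V E) (hx : ∀ c, x ≠ Sum.inr (e, c)) (hy : ∀ c, y ≠ Sum.inr (e, c))
    (g : (SV V E → Bool) → ℝ)
    (hg : ∀ (c : Bool) (σ : SV V E → Bool) (b : Bool),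
      g (Function.update σ (Sum.inr (e, c)) b) = g σ)
    (C0 C1 C2 S0 S1 S2 : ℝ) (k : Fin 4) :
    let W : (SV V E → Bool) → ℝ := fun σ =>
      (C0 + S0 * (sg (σ x) * sg (σ (Sum.inr (e, false))))) *
      (C1 + S1 * (sg (σ (Sum.inr (e, false))) * sg (σ (Sum.inr (e, true))))) *
      (C2 + S2 * (sg (σ (Sum.inr (e, true))) * sg (σ y)))
    ∑ σ, g σ * W σ * (![sg (σ (Sum.inr (e, false))), sg (σ (Sum.inr (e, true))), sg (σ x), sg (σ y)] : Fin 4 → ℝ) k =
      (![S0 * C1 * C2, S0 * S1 * C2, C0 * C1 * C2, S0 * S1 * S2] : Fin 4 → ℝ) k * (∑ σ, g σ * sg (σ x)) +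
      (![C0 * S1 * S2, C0 * C1 * S2, S0 * S1 * S2, C0 * C1 * C2] : Fin 4 → ℝ) k * (∑ σ, g σ * sg (σ y)) := by
  intro W
  have hz : ∀ u : (SV V E → Bool) → ℝ, (∀ σ b, u (Function.update σ (Sum.inr (e, false)) b) = u σ) →
      ∑ σ : SV V E → Bool, u σ * sg (σ (Sum.inr (e, false))) = 0 :=
    fun u hu => CK2_flip _ u fun σ => hu σ _
  have hm : ∀ u : (SV V E → Bool) → ℝ, (∀ σ b, u (Function.update σ (Sum.inr (e, true)) b) = u σ) →
      ∑ σ : SV V E → Bool, u σ * sg (σ (Sum.inr (e, true))) = 0 :=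
    fun u hu => CK2_flip _ u fun σ => hu σ _
  have ux : ∀ (c : Bool) (σ : SV V E → Bool) (b : Bool),
      (Function.update σ (Sum.inr (e, c)) b) x = σ x :=
    fun c σ b => Function.update_of_ne (hx c) _ _
  have uy : ∀ (c : Bool) (σ : SV V E → Bool) (b : Bool),
      (Function.update σ (Sum.inr (e, c)) b) y = σ y :=
    fun c σ b => Function.update_of_ne (hy c) _ _
  have um : ∀ (σ : SV V E → Bool) (b : Bool),
      (Function.update σ (Sum.inr (e, false)) b) (Sum.inr (e, true)) = σ (Sum.inr (e, true)) :=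
    fun σ b => Function.update_of_ne (by simp) _ _
  have uz : ∀ (σ : SV V E → Bool) (b : Bool),
      (Function.update σ (Sum.inr (e, true)) b) (Sum.inr (e, false)) = σ (Sum.inr (e, false)) :=
    fun σ b => Function.update_of_ne (by simp) _ _
  -- general assembly
  have main : ∀ (F : (SV V E → Bool) → ℝ) (α β : ℝ) (u v : (SV V E → Bool) → ℝ),
      (∀ σ b, u (Function.update σ (Sum.inr (e, false)) b) = u σ) →
      (∀ σ b, v (Function.update σ (Sum.inr (e, true)) b) = v σ) →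
      (∀ σ, F σ = α * (g σ * sg (σ x)) + β * (g σ * sg (σ y)) + u σ * sg (σ (Sum.inr (e, false))) +
        v σ * sg (σ (Sum.inr (e, true)))) →
      ∑ σ, F σ = α * (∑ σ, g σ * sg (σ x)) + β * (∑ σ, g σ * sg (σ y)) := by
    intro F α β u v hu hv hF
    rw [Finset.sum_congr rfl fun σ _ => hF σ, Finset.sum_add_distrib, Finset.sum_add_distrib,
      Finset.sum_add_distrib, hz u hu, hm v hv, add_zero, add_zero, Finset.mul_sum, Finset.mul_sum]
  fin_cases k
  · refine main _ _ _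
      (fun σ => g σ * (C0 * C1 * C2 + C0 * C1 * S2 * (sg (σ (Sum.inr (e, true))) * sg (σ y)) +
        S0 * S1 * C2 * (sg (σ x) * sg (σ (Sum.inr (e, true)))) + S0 * S1 * S2 * (sg (σ x) * sg (σ y))))
      (fun σ => g σ * (C0 * S1 * C2 + S0 * C1 * S2 * (sg (σ x) * sg (σ y)))) ?_ ?_ ?_
    · intro σ b
      simp only [hg, ux, uy, um]
    · intro σ b
      simp only [hg, ux, uy]
    · intro σ
      rcases CK2_pm (σ x) with h1 | h1 <;> rcases CK2_pm (σ y) with h2 | h2 <;>
        rcases CK2_pm (σ (Sum.inr (e, false))) with h3 | h3 <;>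
        rcases CK2_pm (σ (Sum.inr (e, true))) with h4 | h4 <;>
        simp [W, h1, h2, h3, h4] <;> ring
  · refine main _ _ _
      (fun σ => g σ * (S0 * C1 * C2 * (sg (σ x) * sg (σ (Sum.inr (e, true)))) + C0 * S1 * C2 +
        S0 * C1 * S2 * (sg (σ x) * sg (σ y)) + C0 * S1 * S2 * (sg (σ (Sum.inr (e, true))) * sg (σ y))))
      (fun σ => g σ * (C0 * C1 * C2 + S0 * S1 * S2 * (sg (σ x) * sg (σ y)))) ?_ ?_ ?_
    · intro σ b
      simp only [hg, ux, uy, um]
    · intro σ b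
      simp only [hg, ux, uy]
    · intro σ
      rcases CK2_pm (σ x) with h1 | h1 <;> rcases CK2_pm (σ y) with h2 | h2 <;>
        rcases CK2_pm (σ (Sum.inr (e, false))) with h3 | h3 <;>
        rcases CK2_pm (σ (Sum.inr (e, true))) with h4 | h4 <;>
        simp [W, h1, h2, h3, h4] <;> ring
  · refine main _ _ _
      (fun σ => g σ * (S0 * C1 * C2 + C0 * S1 * C2 * (sg (σ x) * sg (σ (Sum.inr (e, true)))) +
        S0 * C1 * S2 * (sg (σ (Sum.inr (e, true))) * sg (σ y)) + C0 * S1 * S2 * (sg (σ x) * sg (σ y))))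
      (fun σ => g σ * (C0 * C1 * S2 * (sg (σ x) * sg (σ y)) + S0 * S1 * C2)) ?_ ?_ ?_
    · intro σ b
      simp only [hg, ux, uy, um]
    · intro σ b
      simp only [hg, ux, uy]
    · intro σ
      rcases CK2_pm (σ x) with h1 | h1 <;> rcases CK2_pm (σ y) with h2 | h2 <;>
        rcases CK2_pm (σ (Sum.inr (e, false))) with h3 | h3 <;>
        rcases CK2_pm (σ (Sum.inr (e, true))) with h4 | h4 <;>
        simp [W, h1, h2, h3, h4] <;> ring
  · refine main _ _ _
      (fun σ => g σ * (S0 * C1 * C2 * (sg (σ x) * sg (σ y)) + C0 * S1 * C2 * (sg (σ (Sum.inr (e, true))) * sg (σ y)) +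
        S0 * C1 * S2 * (sg (σ x) * sg (σ (Sum.inr (e, true)))) + C0 * S1 * S2))
      (fun σ => g σ * (C0 * C1 * S2 + S0 * S1 * C2 * (sg (σ x) * sg (σ y)))) ?_ ?_ ?_
    · intro σ b
      simp only [hg, ux, uy, um]
    · intro σ b
      simp only [hg, ux, uy]
    · intro σ
      rcases CK2_pm (σ x) with h1 | h1 <;> rcases CK2_pm (σ y) with h2 | h2 <;>
        rcases CK2_pm (σ (Sum.inr (e, false))) with h3 | h3 <;>
        rcases CK2_pm (σ (Sum.inr (e, true))) with h4 | h4 <;>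
        simp [W, h1, h2, h3, h4] <;> ring

theorem CK2_step (G : Gr V E) (K : E × Fin 3 → ℝ) (hK : ∀ l, 0 ≤ K l) (e : E) (c : Bool)
    (q : SV V E) (hq : ∀ c', q ≠ Sum.inr (e, c')) :
    sgS G K (fun σ => sg (σ (Sum.inr (e, c))) * sg (σ q)) ≤
      ∑ x ∈ en G (Sum.inr (e, c)), sgS G K (fun σ => sg (σ (Sum.inl x)) * sg (σ q)) := by
  set g : (SV V E → Bool) → ℝ := fun σ => CK2_w G K e σ * sg (σ q) with hgdef
  have hg : ∀ (c : Bool) (σ : SV V E → Bool) (b : Bool),
      g (Function.update σ (Sum.inr (e, c)) b) = g σ := by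
    intro c σ b
    simp only [hgdef]
    rw [CK2_w_inv, Function.update_of_ne (hq c)]
  have hw : CK2_P (CK2_w G K e) :=
    CK2_P_prod _ K hK (LK G).s (LK G).r
  set X : ℝ := ∑ σ, g σ * sg (σ (Sum.inl (G.s e))) with hX
  set Y : ℝ := ∑ σ, g σ * sg (σ (Sum.inl (G.r e))) with hY
  have hX0 : 0 ≤ X := by
    have h := CK2_corr hw q (Sum.inl (G.s e))
    refine h.trans (le_of_eq (Finset.sum_congr rfl fun σ _ => ?_))
    simp only [hgdef]
    ring
  have hY0 : 0 ≤ Y := by
    have h := CK2_corr hw q (Sum.inl (G.r e))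
    refine h.trans (le_of_eq (Finset.sum_congr rfl fun σ _ => ?_))
    simp only [hgdef]
    ring
  have inn := CK2_inner e (Sum.inl (G.s e)) (Sum.inl (G.r e)) (fun c => by simp) (fun c => by simp) g hg
    (Real.cosh (K (e, 0))) (Real.cosh (K (e, 1))) (Real.cosh (K (e, 2)))
    (Real.sinh (K (e, 0))) (Real.sinh (K (e, 1))) (Real.sinh (K (e, 2)))
  have conv : ∀ p : SV V E, sgS G K (fun σ => sg (σ p) * sg (σ q)) =
      ∑ σ, g σ * ((Real.cosh (K (e, 0)) + Real.sinh (K (e, 0)) *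
          (sg (σ (Sum.inl (G.s e))) * sg (σ (Sum.inr (e, false))))) *
       (Real.cosh (K (e, 1)) + Real.sinh (K (e, 1)) *
          (sg (σ (Sum.inr (e, false))) * sg (σ (Sum.inr (e, true))))) *
       (Real.cosh (K (e, 2)) + Real.sinh (K (e, 2)) *
          (sg (σ (Sum.inr (e, true))) * sg (σ (Sum.inl (G.r e)))))) * sg (σ p) := by
    intro p
    unfold sgS
    refine Finset.sum_congr rfl fun σ _ => ?_
    rw [CK2_split G K e σ]
    simp only [hgdef]
    ring
  have c0 := (Real.cosh_pos (K (e, 0))).le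
  have c1 := (Real.cosh_pos (K (e, 1))).le
  have c2 := (Real.cosh_pos (K (e, 2))).le
  have s0 := Real.sinh_nonneg_iff.2 (hK (e, 0))
  have s1 := Real.sinh_nonneg_iff.2 (hK (e, 1))
  have s2 := Real.sinh_nonneg_iff.2 (hK (e, 2))
  have d0 := (Real.sinh_lt_cosh (K (e, 0))).le
  have d1 := (Real.sinh_lt_cosh (K (e, 1))).le
  have d2 := (Real.sinh_lt_cosh (K (e, 2))).le
  have ex : sgS G K (fun σ => sg (σ (Sum.inl (G.s e))) * sg (σ q)) =
      Real.cosh (K (e, 0)) * Real.cosh (K (e, 1)) * Real.cosh (K (e, 2)) * X +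
      Real.sinh (K (e, 0)) * Real.sinh (K (e, 1)) * Real.sinh (K (e, 2)) * Y := by
    rw [conv]
    exact inn 2
  have ey : sgS G K (fun σ => sg (σ (Sum.inl (G.r e))) * sg (σ q)) =
      Real.sinh (K (e, 0)) * Real.sinh (K (e, 1)) * Real.sinh (K (e, 2)) * X +
      Real.cosh (K (e, 0)) * Real.cosh (K (e, 1)) * Real.cosh (K (e, 2)) * Y := by
    rw [conv]
    exact inn 3
  have ep : ∃ α β : ℝ, sgS G K (fun σ => sg (σ (Sum.inr (e, c))) * sg (σ q)) = α * X + β * Y ∧
      α ≤ Real.cosh (K (e, 0)) * Real.cosh (K (e, 1)) * Real.cosh (K (e, 2)) ∧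
      β ≤ Real.cosh (K (e, 0)) * Real.cosh (K (e, 1)) * Real.cosh (K (e, 2)) ∧
      α + β ≤ Real.cosh (K (e, 0)) * Real.cosh (K (e, 1)) * Real.cosh (K (e, 2)) +
        Real.sinh (K (e, 0)) * Real.sinh (K (e, 1)) * Real.sinh (K (e, 2)) := by
    generalize Real.cosh (K (e, 0)) = C0 at *
    generalize Real.cosh (K (e, 1)) = C1 at *
    generalize Real.cosh (K (e, 2)) = C2 at *
    generalize Real.sinh (K (e, 0)) = S0 at *
    generalize Real.sinh (K (e, 1)) = S1 at *
    generalize Real.sinh (K (e, 2)) = S2 at *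
    have p12 : S1 * S2 ≤ C1 * C2 := mul_le_mul d1 d2 s2 c1
    have p01 : S0 * S1 ≤ C0 * C1 := mul_le_mul d0 d1 s1 c0
    cases c
    · refine ⟨S0 * C1 * C2, C0 * S1 * S2, ?_, ?_, ?_, ?_⟩
      · rw [conv]
        exact inn 0
      · exact mul_le_mul_of_nonneg_right (mul_le_mul_of_nonneg_right d0 c1) c2
      · nlinarith
      · nlinarith
    · refine ⟨S0 * S1 * C2, C0 * C1 * S2, ?_, ?_, ?_, ?_⟩
      · rw [conv]
        exact inn 1
      · exact mul_le_mul_of_nonneg_right p01 c2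
      · nlinarith [mul_nonneg c0 c1]
      · nlinarith
  obtain ⟨α, β, h1, h2, h3, h4⟩ := ep
  have r0 : 0 ≤ Real.sinh (K (e, 0)) * Real.sinh (K (e, 1)) * Real.sinh (K (e, 2)) :=
    mul_nonneg (mul_nonneg s0 s1) s2
  rw [h1]
  change _ ≤ ∑ x ∈ ({G.s e, G.r e} : Finset V), sgS G K (fun σ => sg (σ (Sum.inl x)) * sg (σ q))
  by_cases hse : G.s e = G.r e
  · have hXY : X = Y := by rw [hX, hY, hse]
    rw [hse, Finset.pair_eq_singleton, Finset.sum_singleton, ey, hXY]
    nlinarith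
  · rw [Finset.sum_pair hse, ex, ey]
    nlinarith

theorem sgS_ends (G : Gr V E) (K : E × Fin 3 → ℝ) (hK : ∀ l, 0 ≤ K l) (p q : SV V E) :
    sgS G K (fun σ => sg (σ p) * sg (σ q)) ≤ ∑ x ∈ en G p, ∑ y ∈ en G q,
      sgS G K (fun σ => sg (σ (Sum.inl x)) * sg (σ (Sum.inl y))) := by
  have comm : ∀ a b : SV V E, sgS G K (fun σ => sg (σ a) * sg (σ b)) =
      sgS G K (fun σ => sg (σ b) * sg (σ a)) := by
    intro a b
    congr 1
    funext σ
    exact mul_comm _ _
  -- one vertex of the graph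
  have one : ∀ (x : V) (q : SV V E), sgS G K (fun σ => sg (σ (Sum.inl x)) * sg (σ q)) ≤
      ∑ y ∈ en G q, sgS G K (fun σ => sg (σ (Sum.inl x)) * sg (σ (Sum.inl y))) := by
    intro x q
    rcases q with v | ⟨e, c⟩
    · change _ ≤ ∑ y ∈ ({v} : Finset V), sgS G K (fun σ => sg (σ (Sum.inl x)) * sg (σ (Sum.inl y)))
      rw [Finset.sum_singleton]
    · rw [comm]
      refine (CK2_step G K hK e c (Sum.inl x) (fun c' => by simp)).trans (le_of_eq ?_)
      exact Finset.sum_congr rfl fun y _ => comm _ _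
  rcases p with v | ⟨e, c⟩
  · change _ ≤ ∑ x ∈ ({v} : Finset V), _
    rw [Finset.sum_singleton]
    exact one v q
  · by_cases hq : ∀ c', q ≠ Sum.inr (e, c')
    · refine (CK2_step G K hK e c q hq).trans (Finset.sum_le_sum fun x _ => one x q)
    · push Not at hq
      obtain ⟨c', rfl⟩ := hq
      have hmem : G.s e ∈ en G (Sum.inr (e, c)) := by
        change G.s e ∈ ({G.s e, G.r e} : Finset V)
        simp
      have hmem' : G.s e ∈ en G (Sum.inr (e, c')) := by
        change G.s e ∈ ({G.s e, G.r e} : Finset V)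
        simp
      refine (CK2_le_one G K _ _ (Sum.inl (G.s e))).trans ?_
      refine le_trans ?_ (Finset.single_le_sum (f := fun x => ∑ y ∈ en G (Sum.inr (e, c')),
        sgS G K (fun σ => sg (σ (Sum.inl x)) * sg (σ (Sum.inl y))))
        (fun x _ => Finset.sum_nonneg fun y _ => CK2_nonneg G K hK _ _) hmem)
      exact Finset.single_le_sum (f := fun y =>
        sgS G K (fun σ => sg (σ (Sum.inl (G.s e))) * sg (σ (Sum.inl y))))
        (fun y _ => CK2_nonneg G K hK _ _) hmem'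

end H82.BX
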