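import Pool.Agent.H82.BX.GI8

/-!
# DER: derivative in the pinning, closing the edges at the origin

* `EW_deriv`: `W` depends on `l` only through `wv = ∏ nu exp(l pn cc²)`, so `d/dl W = (∑_w pn w cc(c w)²) W`; quotient rule.
  (`mW_EW`, `c2`.)  The covariances are `≥ 0` (`mW_asc`: `c2` is monotone).
* `cls`: for every `c`, closing all edges at `0` in `o` (call the result `o'`): for an open edge the factor `rr e` becomes `1 - rr e ≥ 1 - tanh b ≥ (1 - tanh b) rr e`, and `Zv (bt o') ≥ 2^{-4} Zv (bt o)`
  (`Zv_bd`, at most four edges at the vertex); at most `2^4` configurations `o` have the same `o'`.  So the probability that all edges at `v` are closed is at least `((1 - tanh b)/4)^4`.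
-/

set_option autoImplicit false

open Finset MeasureTheory

namespace H82.BX

open H82.IC

variable {V E : Type} [Fintype V] [DecidableEq V] [Fintype E] [DecidableEq E]

omit [DecidableEq V] [DecidableEq E] in
theorem der_wv (M : Al) (l : ℝ) (c : SV V E → Fin (M.k + 1)) :
    wv M l c = (∏ w, M.nu (c w)) * Real.exp (l * ∑ w, pn w * M.cc (c w) ^ 2) := by
  unfold wv
  rw [Finset.prod_mul_distrib, ← Real.exp_sum, Finset.mul_sum]
  congr 2
  refine Finset.sum_congr rfl fun w _ => ?_
  ring

theorem der_W (G : Gr V E) (M : Al) (b l : ℝ) (c : SV V E → Fin (M.k + 1)) (o : E → Bool) :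
    HasDerivAt (fun l => W G M b l c o) ((∑ w, pn w * M.cc (c w) ^ 2) * W G M b l c o) l := by
  unfold W
  simp only [der_wv]
  have h1 : HasDerivAt (fun l : ℝ => l * ∑ w, pn w * M.cc (c w) ^ 2)
      (1 * ∑ w, pn w * M.cc (c w) ^ 2) l := (hasDerivAt_id l).mul_const _
  have h2 := (((h1.exp).const_mul (∏ w, M.nu (c w))).mul_const
    (∏ e, AA G M b c e * (if o e then rr G M b c e else 1 - rr G M b c e))).mul_const
    (Zv G (bt o) * Zv G (tt G M b c))
  refine h2.congr_deriv ?_
  ring

theorem EW_deriv (G : Gr V E) (M : Al) (b : ℝ) (hZ : ∀ l, 0 < ∑ c, ∑ o, W G M b l c o)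
    (f : (E → Bool) → ℝ) (l : ℝ) : HasDerivAt (fun l => EW G M b l (fun _ o => f o))
      (∑ w, pn w * cv G M b l (fun y => f (po y)) w) l := by
  have hZl := hZ l
  set Z : ℝ := ∑ c, ∑ o, W G M b l c o with hZdef
  have hZne : Z ≠ 0 := hZl.ne'
  have hN : HasDerivAt (fun l => ∑ c, ∑ o, W G M b l c o * f o)
      (∑ c, ∑ o, ((∑ w, pn w * M.cc (c w) ^ 2) * W G M b l c o) * f o) l := by
    refine HasDerivAt.fun_sum fun c _ => HasDerivAt.fun_sum fun o _ => ?_
    exact (der_W G M b l c o).mul_const _
  have hD : HasDerivAt (fun l => ∑ c, ∑ o, W G M b l c o)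
      (∑ c, ∑ o, ((∑ w, pn w * M.cc (c w) ^ 2) * W G M b l c o)) l := by
    refine HasDerivAt.fun_sum fun c _ => HasDerivAt.fun_sum fun o _ => ?_
    exact der_W G M b l c o
  have hdiv := hN.fun_div hD hZne
  unfold EW
  refine hdiv.congr_deriv ?_
  symm
  have hx : ∀ F : (SV V E → Fin (M.k + 1)) → (E → Bool) → ℝ,
      ∑ x : (∀ i, XI M.k V E i), mW G M b l x * F (pc x) (po x) =
        (∑ c, ∑ o, W G M b l c o * F c o) / Z := by
    intro F
    rw [sum_mkx, Finset.sum_div]
    refine Finset.sum_congr rfl fun c _ => ?_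
    rw [Finset.sum_div]
    refine Finset.sum_congr rfl fun o _ => ?_
    have h1 : mW G M b l (mkx c o) = W G M b l c o / Z := rfl
    have h2 : pc (mkx c o) = c := rfl
    have h3 : po (mkx c o) = o := rfl
    rw [h1, h2, h3]
    ring
  have hcv : ∀ w, cv G M b l (fun y => f (po y)) w =
      (∑ c, ∑ o, W G M b l c o * (f o * M.cc (c w) ^ 2)) / Z -
        (∑ c, ∑ o, W G M b l c o * f o) / Z * ((∑ c, ∑ o, W G M b l c o * M.cc (c w) ^ 2) / Z) := by
    intro w
    have e1 := hx (fun c o => f o * M.cc (c w) ^ 2)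
    have e2 := hx (fun _ o => f o)
    have e3 := hx (fun c _ => M.cc (c w) ^ 2)
    unfold cv c2
    rw [e1, e2, e3]
  have s1 : ∑ c, ∑ o, ((∑ w, pn w * M.cc (c w) ^ 2) * W G M b l c o) * f o =
      ∑ w : SV V E, pn w * ∑ c, ∑ o, W G M b l c o * (f o * M.cc (c w) ^ 2) := by
    simp_rw [Finset.sum_mul, Finset.mul_sum]
    rw [Finset.sum_comm' (s := univ) (t := fun _ => univ) (t' := univ) (s' := fun _ => univ) (by simp)]
    · rw [Finset.sum_comm]
      have : ∀ (c : SV V E → Fin (M.k + 1)), ∑ o : E → Bool, ∑ w : SV V E,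
          pn w * M.cc (c w) ^ 2 * W G M b l c o * f o =
          ∑ w : SV V E, ∑ o : E → Bool, pn w * (W G M b l c o * (f o * M.cc (c w) ^ 2)) := by
        intro c
        rw [Finset.sum_comm]
        refine Finset.sum_congr rfl fun w _ => Finset.sum_congr rfl fun o _ => ?_
        ring
      rw [Finset.sum_congr rfl fun c _ => this c, Finset.sum_comm]
  have s2 : ∑ c, ∑ o, ((∑ w, pn w * M.cc (c w) ^ 2) * W G M b l c o) =
      ∑ w : SV V E, pn w * ∑ c, ∑ o, W G M b l c o * M.cc (c w) ^ 2 := by
    simp_rw [Finset.sum_mul, Finset.mul_sum]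
    have : ∀ (c : SV V E → Fin (M.k + 1)), ∑ o : E → Bool, ∑ w : SV V E,
        pn w * M.cc (c w) ^ 2 * W G M b l c o =
        ∑ w : SV V E, ∑ o : E → Bool, pn w * (W G M b l c o * M.cc (c w) ^ 2) := by
      intro c
      rw [Finset.sum_comm]
      refine Finset.sum_congr rfl fun w _ => Finset.sum_congr rfl fun o _ => ?_
      ring
    rw [Finset.sum_congr rfl fun c _ => this c, Finset.sum_comm]
  rw [s1, s2]
  simp only [hcv]
  rw [← hZdef]
  have key : ∀ (A B : SV V E → ℝ) (N : ℝ), ∑ w : SV V E, pn w * (A w / Z - N / Z * (B w / Z)) =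
      ((∑ w : SV V E, pn w * A w) * Z - N * ∑ w : SV V E, pn w * B w) / Z ^ 2 := by
    intro A B N
    rw [Finset.sum_mul, Finset.mul_sum, ← Finset.sum_sub_distrib, Finset.sum_div]
    refine Finset.sum_congr rfl fun w _ => ?_
    field_simp
  exact key (fun w => ∑ c, ∑ o, W G M b l c o * (f o * M.cc (c w) ^ 2))
    (fun w => ∑ c, ∑ o, W G M b l c o * M.cc (c w) ^ 2) _

theorem cv_nonneg (G : Gr V E) (M : Al) (hM : M.Ok) (b l : ℝ) (hb : 0 < b)
    (f : (∀ i, XI M.k V E i) → ℝ) (hf : Monotone f) (w : SV V E) : 0 ≤ cv G M b l f w := by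
  have hg : Monotone (c2 M w : (∀ i, XI M.k V E i) → ℝ) := by
    intro x y hxy
    have h1 : pc x w ≤ pc y w := hxy (Sum.inl w)
    have h2 := hM.mono h1
    exact pow_le_pow_left₀ (hM.cc0 _).le h2 2
  have h := mW_asc G M hM b l hb f (c2 M w) hf hg
  unfold cv
  linarith

theorem der_prod (g : E → Bool → ℝ) (o : E → Bool) (e : E) (x : Bool) :
    ∏ e', g e' (Function.update o e x e') = g e x * ∏ e' ∈ univ.erase e, g e' (o e') := by
  rw [← Finset.mul_prod_erase univ _ (Finset.mem_univ e)]
  congr 1
  · simp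
  · refine Finset.prod_congr rfl fun e' he' => ?_
    have : e' ≠ e := (Finset.mem_erase.1 he').1
    simp [Function.update, this]

theorem der_flip (F : (E → Bool) → ℝ) (e : E) :
    ∑ o, F o = ∑ o ∈ univ.filter (fun o : E → Bool => o e = false),
      (F o + F (Function.update o e true)) := by
  rw [← Finset.sum_filter_add_sum_filter_not univ (fun o : E → Bool => o e = false),
    Finset.sum_add_distrib]
  congr 1
  refine Finset.sum_nbij' (fun o => Function.update o e false) (fun o => Function.update o e true)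
    ?_ ?_ ?_ ?_ ?_
  · intro o _; simp
  · intro o _; simp
  · intro o ho
    have h1 : o e = true := by
      have := (Finset.mem_filter.1 ho).2
      simpa using this
    simp [← h1]
  · intro o ho
    have h1 : o e = false := (Finset.mem_filter.1 ho).2
    simp [← h1]
  · intro o ho
    have h1 : o e = true := by
      have := (Finset.mem_filter.1 ho).2
      simpa using this
    simp [← h1]

theorem der_step (G : Gr V E) (M : Al) (hM : M.Ok) (b l : ℝ) (hb : 0 < b)
    (c : SV V E → Fin (M.k + 1)) (o : E → Bool) (e : E) (ho : o e = false) :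
    (1 - Real.tanh b) / 4 * (W G M b l c o + W G M b l c (Function.update o e true)) ≤
      W G M b l c o := by
  obtain ⟨hr0, hr1, ht0, ht1⟩ := rr_bd G M hM b hb c e
  have hla : ∀ j : Fin 3, la G M b c (e, j) ≤ b := by
    intro j
    unfold la
    have h1 := hM.cc1 (c ((LK G).s (e, j)))
    have h2 := hM.cc1 (c ((LK G).r (e, j)))
    have h3 := hM.cc0 (c ((LK G).s (e, j)))
    have h4 := hM.cc0 (c ((LK G).r (e, j)))
    have h5 : M.cc (c ((LK G).s (e, j))) * M.cc (c ((LK G).r (e, j))) ≤ 1 :=
      mul_le_one₀ h1 h4.le h2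
    nlinarith
  have hla0 : ∀ j : Fin 3, 0 < la G M b c (e, j) := by
    intro j
    unfold la
    have h3 := hM.cc0 (c ((LK G).s (e, j)))
    have h4 := hM.cc0 (c ((LK G).r (e, j)))
    positivity
  have htp : ∀ j : Fin 3, 0 ≤ Real.tanh (la G M b c (e, j)) := by
    intro j
    rw [Real.tanh_eq_sinh_div_cosh]
    exact div_nonneg (Real.sinh_nonneg_iff.2 (hla0 j).le) (Real.cosh_pos _).le
  have ht1' : ∀ x : ℝ, Real.tanh x ≤ 1 := by
    intro x
    rw [Real.tanh_eq_sinh_div_cosh, div_le_one (Real.cosh_pos _)]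
    exact (Real.sinh_lt_cosh x).le
  have htm : ∀ j : Fin 3, Real.tanh (la G M b c (e, j)) ≤ Real.tanh b := by
    intro j
    have h1 := hla j
    rw [Real.tanh_eq_sinh_div_cosh, Real.tanh_eq_sinh_div_cosh, div_le_div_iff₀ (Real.cosh_pos _)
      (Real.cosh_pos _)]
    have h2 : 0 ≤ Real.sinh (b - la G M b c (e, j)) := Real.sinh_nonneg_iff.2 (by linarith)
    rw [Real.sinh_sub] at h2
    nlinarith
  have hrb : rr G M b c e ≤ Real.tanh b := by
    unfold rr
    rw [Fin.prod_univ_three]
    have h1 := htm 0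
    have h2 : Real.tanh (la G M b c (e, 0)) * Real.tanh (la G M b c (e, 1)) ≤ Real.tanh b * 1 :=
      mul_le_mul h1 (ht1' _) (htp 1) ((htp 0).trans h1)
    have h3 : Real.tanh (la G M b c (e, 0)) * Real.tanh (la G M b c (e, 1)) *
        Real.tanh (la G M b c (e, 2)) ≤ Real.tanh b * 1 * 1 :=
      mul_le_mul h2 (ht1' _) (htp 2) (by have := (htp 0).trans h1; linarith)
    linarith
  -- the two configurations
  set Q : ℝ := ∏ e' ∈ univ.erase e, (AA G M b c e' *
    (if o e' then rr G M b c e' else 1 - rr G M b c e')) with hQ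
  have hAA : ∀ e', 0 < AA G M b c e' := by
    intro e'
    unfold AA
    exact Finset.prod_pos fun j _ => mul_pos (Real.cosh_pos _) (Real.cosh_pos _)
  have hQ0 : 0 ≤ Q := by
    refine Finset.prod_nonneg fun e' _ => mul_nonneg (hAA e').le ?_
    obtain ⟨a1, a2, _, _⟩ := rr_bd G M hM b hb c e'
    split_ifs <;> linarith
  have hwv : 0 < wv M l c := by
    unfold wv
    exact Finset.prod_pos fun w _ => mul_pos (hM.nu0 _) (Real.exp_pos _)
  have hZt : 0 < Zv G (tt G M b c) := by
    refine Zv_pos G _ (fun e' => ?_) (fun e' => ?_)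
    · exact (rr_bd G M hM b hb c e').2.2.1.le
    · exact (rr_bd G M hM b hb c e').2.2.2.le
  have hbt0 : ∀ e', 0 ≤ bt o e' := by intro e'; unfold bt; split_ifs <;> norm_num
  have hbt1 : ∀ e', bt o e' ≤ 1 := by intro e'; unfold bt; split_ifs <;> norm_num
  have hu0 : Function.update (bt o) e 0 = bt o := by
    have : bt o e = 0 := by unfold bt; simp [ho]
    rw [← this]; exact Function.update_eq_self e _
  have hu1 : bt (Function.update o e true) = Function.update (bt o) e 1 := by
    funext e'
    by_cases h : e' = e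
    · subst h; simp [bt]
    · simp [bt, Function.update, h]
  have hZ := Zv_bd G (bt o) e hbt0 hbt1
  rw [hu0, ← hu1] at hZ
  have hZ0 : 0 < Zv G (bt o) := Zv_pos G _ hbt0 hbt1
  have hW0 : W G M b l c o = wv M l c * ((AA G M b c e * (1 - rr G M b c e)) * Q) *
      (Zv G (bt o) * Zv G (tt G M b c)) := by
    unfold W
    have h1 := der_prod (fun e' x => AA G M b c e' * (if x then rr G M b c e' else 1 - rr G M b c e'))
      o e false
    have h2 : Function.update o e false = o := by rw [← ho]; exact Function.update_eq_self e _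
    rw [h2] at h1
    rw [h1]
    simp [hQ]
  have hW1 : W G M b l c (Function.update o e true) = wv M l c * ((AA G M b c e * rr G M b c e) * Q) *
      (Zv G (bt (Function.update o e true)) * Zv G (tt G M b c)) := by
    unfold W
    have h1 := der_prod (fun e' x => AA G M b c e' * (if x then rr G M b c e' else 1 - rr G M b c e'))
      o e true
    rw [h1]
    simp [hQ]
  set K : ℝ := wv M l c * (AA G M b c e * Q) * Zv G (tt G M b c) with hK
  have hK0 : 0 ≤ K := mul_nonneg (mul_nonneg hwv.le (mul_nonneg (hAA e).le hQ0)) hZt.le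
  have e0 : W G M b l c o = K * ((1 - rr G M b c e) * Zv G (bt o)) := by rw [hW0, hK]; ring
  have e1 : W G M b l c (Function.update o e true) =
      K * (rr G M b c e * Zv G (bt (Function.update o e true))) := by rw [hW1, hK]; ring
  rw [e0, e1]
  have hfin : (1 - Real.tanh b) / 4 * ((1 - rr G M b c e) * Zv G (bt o) +
      rr G M b c e * Zv G (bt (Function.update o e true))) ≤ (1 - rr G M b c e) * Zv G (bt o) := by
    set r := rr G M b c e with hr
    set z := Zv G (bt o) with hz
    set z1 := Zv G (bt (Function.update o e true)) with hz1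
    have a1 : r * z1 ≤ r * (2 * z) := mul_le_mul_of_nonneg_left hZ.2 hr0.le
    have a2 : (1 - r) * z + r * z1 ≤ 2 * z := by nlinarith
    have a3 : 0 ≤ 1 - Real.tanh b := by linarith [ht1' b]
    have a4 : (1 - Real.tanh b) * ((1 - r) * z + r * z1) ≤ (1 - r) * (2 * z) := by
      refine mul_le_mul (by linarith) a2 ?_ (by linarith)
      have : 0 ≤ z1 := le_trans hZ0.le hZ.1
      have b1 : 0 ≤ (1 - r) * z := mul_nonneg (by linarith) hZ0.le
      have b2 : 0 ≤ r * z1 := mul_nonneg hr0.le this
      linarith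
    have a5 : 0 ≤ (1 - r) * z := mul_nonneg (by linarith) hZ0.le
    linarith
  calc (1 - Real.tanh b) / 4 * (K * ((1 - rr G M b c e) * Zv G (bt o)) +
        K * (rr G M b c e * Zv G (bt (Function.update o e true))))
      = K * ((1 - Real.tanh b) / 4 * ((1 - rr G M b c e) * Zv G (bt o) +
      rr G M b c e * Zv G (bt (Function.update o e true)))) := by ring
    _ ≤ K * ((1 - rr G M b c e) * Zv G (bt o)) := mul_le_mul_of_nonneg_left hfin hK0

theorem der_ind (G : Gr V E) (M : Al) (hM : M.Ok) (b l : ℝ) (hb : 0 < b)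
    (c : SV V E → Fin (M.k + 1)) (S : Finset E) :
    ((1 - Real.tanh b) / 4) ^ S.card * ∑ o, W G M b l c o ≤
      ∑ o, W G M b l c o * ind (∀ e ∈ S, o e = false) := by
  classical
  have ht1 : Real.tanh b ≤ 1 := by
    rw [Real.tanh_eq_sinh_div_cosh, div_le_one (Real.cosh_pos _)]
    exact (Real.sinh_lt_cosh b).le
  induction S using Finset.induction_on with
  | empty => simp [ind]
  | insert e S he ih =>
    rw [Finset.card_insert_of_notMem he, pow_succ']
    have h1 : (1 - Real.tanh b) / 4 * ∑ o, W G M b l c o * ind (∀ e ∈ S, o e = false) ≤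
        ∑ o, W G M b l c o * ind (∀ e' ∈ insert e S, o e' = false) := by
      rw [der_flip (fun o => W G M b l c o * ind (∀ e ∈ S, o e = false)) e, Finset.mul_sum]
      have h2 : ∑ o, W G M b l c o * ind (∀ e' ∈ insert e S, o e' = false) =
          ∑ o ∈ univ.filter (fun o : E → Bool => o e = false),
            W G M b l c o * ind (∀ e ∈ S, o e = false) := by
        rw [Finset.sum_filter]
        refine Finset.sum_congr rfl fun o _ => ?_
        by_cases ho : o e = false
        · rw [if_pos ho]
          congr 2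
          simp [ho]
        · rw [if_neg ho]
          have : ¬ ∀ e' ∈ insert e S, o e' = false := fun h => ho (h e (Finset.mem_insert_self _ _))
          simp only [ind, if_neg this, mul_zero]
      rw [h2]
      refine Finset.sum_le_sum fun o ho => ?_
      have ho' : o e = false := (Finset.mem_filter.1 ho).2
      have h3 : ind (∀ e' ∈ S, Function.update o e true e' = false) = ind (∀ e' ∈ S, o e' = false) := by
        congr 1
        refine propext ⟨fun h e' he' => ?_, fun h e' he' => ?_⟩
        · have hne : e' ≠ e := fun h => he (h ▸ he')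
          have := h e' he'
          simpa [Function.update, hne] using this
        · have hne : e' ≠ e := fun h => he (h ▸ he')
          simpa [Function.update, hne] using h e' he'
      rw [h3, ← add_mul, ← mul_assoc]
      refine mul_le_mul_of_nonneg_right (der_step G M hM b l hb c o e ho') ?_
      unfold ind; split_ifs <;> norm_num
    refine le_trans ?_ h1
    rw [mul_assoc]
    exact mul_le_mul_of_nonneg_left ih (by linarith)

theorem cls (G : Gr V E) (hG : Deg4 G) (M : Al) (hM : M.Ok) (b l : ℝ) (hb : 0 < b) (v : V) :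
    ((1 - Real.tanh b) / 4) ^ 4 ≤
      EW G M b l (fun _ o => ind (∀ e, G.s e = v ∨ G.r e = v → o e = false)) := by
  classical
  have ht1 : Real.tanh b ≤ 1 := by
    rw [Real.tanh_eq_sinh_div_cosh, div_le_one (Real.cosh_pos _)]
    exact (Real.sinh_lt_cosh b).le
  have ht0 : 0 ≤ Real.tanh b := by
    rw [Real.tanh_eq_sinh_div_cosh]
    exact div_nonneg (Real.sinh_nonneg_iff.2 hb.le) (Real.cosh_pos _).le
  set S : Finset E := univ.filter (fun e => G.s e = v) ∪ univ.filter (fun e => G.r e = v) with hS
  have hcard : S.card ≤ 4 := (Finset.card_union_le _ _).trans (hG v)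
  have hZ : 0 < ∑ c, ∑ o, W G M b l c o :=
    Finset.sum_pos (fun c _ => Finset.sum_pos (fun o _ => W_pos G M hM b l hb c o)
      Finset.univ_nonempty) Finset.univ_nonempty
  unfold EW
  rw [le_div_iff₀ hZ, Finset.mul_sum]
  refine Finset.sum_le_sum fun c _ => ?_
  have h1 := der_ind G M hM b l hb c S
  have h2 : ∀ o : E → Bool, ind (∀ e, G.s e = v ∨ G.r e = v → o e = false) =
      ind (∀ e ∈ S, o e = false) := by
    intro o
    congr 1
    simp [hS, Finset.mem_union, Finset.mem_filter]
  have h3 : 0 ≤ ∑ o, W G M b l c o := Finset.sum_nonneg fun o _ => (W_pos G M hM b l hb c o).le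
  have h4 : ((1 - Real.tanh b) / 4) ^ 4 ≤ ((1 - Real.tanh b) / 4) ^ S.card :=
    pow_le_pow_of_le_one (by linarith) (by linarith) hcard
  calc ((1 - Real.tanh b) / 4) ^ 4 * ∑ o, W G M b l c o
      ≤ ((1 - Real.tanh b) / 4) ^ S.card * ∑ o, W G M b l c o := mul_le_mul_of_nonneg_right h4 h3
    _ ≤ _ := by
      refine h1.trans (le_of_eq ?_)
      refine Finset.sum_congr rfl fun o _ => ?_
      show W G M b l c o * ind (∀ e ∈ S, o e = false) =
        W G M b l c o * ind (∀ e, G.s e = v ∨ G.r e = v → o e = false)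
      rw [h2 o]

end H82.BX
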