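import Mathlib

/-!
# DRA: the subcritical half of the sharpness dichotomy

`S_n(l) = ∑_{j<n} f_j(l)`.  Facts: `S` is monotone in `l` and in `n`, `n f_n ≤ S_n`.  If on `[a', b'] ⊆ [0, 2 l1]` one has
`S_n ≤ s` (`s > 0`), then `f_n' ≥ (n/(C0 s)) f_n` there, so `f_n(a') ≤ exp(-(n/(C0 s)) (b'-a')) f_n(b')`
(`l ↦ exp(-(n/(C0 s)) l) f_n(l)` is monotone, nonnegative derivative).
Let `n ≥ 1`, `S_n(l1) ≤ √n`, `μ_k = l1 (1/2 + 2^{-k/4}/2)` (`μ_0 = l1`, decreasing to `l1/2`).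
Claim by induction on `k`: `S_{2^k n}(μ_k) ≤ √n + ∑_{j<k} a_j ≤ 2 √n`, `a_j = 2^j n exp(-2^j n (μ_j - μ_{j+1})/(2 C0 √n))`:
`S_{2^{k+1} n}(μ_{k+1}) ≤ S_{2^k n}(μ_k) + 2^k n f_{2^k n}(μ_{k+1})` and the fact above with `s = 2 √n` on `[μ_{k+1}, μ_k]`
(there `S_{2^k n} ≤ S_{2^k n}(μ_k)`), `f ≤ 1`.
`μ_j - μ_{j+1} = (l1/2) 2^{-j/4} (1 - 2^{-1/4}) ≥ l1 2^{-j/4} / 20`; with `q = l1/(40 C0)`, `x = 2^{3j/4} √n q`:
`a_j ≤ 2^j n exp(-x) ≤ 2^j n 24/x^4 = 24 · 2^{-2j} /(n q^4)`, so `∑_j a_j ≤ 32/(n q^4) ≤ √n` as soon as `n √n ≥ 32/q^4`: this defines `n0`.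
Conclusion: `S_{2^k n}(l1/2) ≤ 2√n` for all `k`, so by the fact on `[l1/4, l1/2]`: `f_{2^k n}(l1/4) ≤ exp(-2^k n l1/(8 C0 √n))`.
For `m ≥ n` take `k` with `2^k n ≤ m < 2^{k+1} n`: `f_m ≤ f_{2^k n} ≤ exp(-m l1/(16 C0 √n))`; for `m < n`: `f_m ≤ 1`.  With
`a = l1/(16 C0 √N)`, `C = exp(a N)`: `f_m(l1/4) ≤ C exp(-a m)` for all `m`, if `n ≤ N`.
(Any other choice of constants is fine.)
-/

set_option autoImplicit false

open Finset

namespace H82.BX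

/-- the differential inequality. -/
structure DR (C0 b : ℝ) (f : ℕ → ℝ → ℝ) : Prop where
  zero : ∀ l ∈ Set.Icc 0 b, f 0 l = 1
  nonneg : ∀ n, ∀ l ∈ Set.Icc 0 b, 0 ≤ f n l
  anti : ∀ n, ∀ l ∈ Set.Icc 0 b, f (n + 1) l ≤ f n l
  mono : ∀ n, MonotoneOn (f n) (Set.Icc 0 b)
  diff : ∀ n, Differentiable ℝ (f n)
  ineq : ∀ n, ∀ l ∈ Set.Icc 0 b, n * f n l ≤ C0 * (∑ j ∈ range n, f j l) * deriv (f n) l

theorem DRA_anti {C0 b : ℝ} {f : ℕ → ℝ → ℝ} (hf : DR C0 b f) {l : ℝ} (hl : l ∈ Set.Icc 0 b)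
    {n m : ℕ} (h : n ≤ m) : f m l ≤ f n l :=
  antitone_nat_of_succ_le (f := fun n => f n l) (fun n => hf.anti n l hl) h

theorem DRA_le_one {C0 b : ℝ} {f : ℕ → ℝ → ℝ} (hf : DR C0 b f) {l : ℝ} (hl : l ∈ Set.Icc 0 b)
    (n : ℕ) : f n l ≤ 1 := by
  rw [← hf.zero l hl]
  exact DRA_anti hf hl (Nat.zero_le n)

theorem DRA_S_pos {C0 b : ℝ} {f : ℕ → ℝ → ℝ} (hf : DR C0 b f) {l : ℝ} (hl : l ∈ Set.Icc 0 b)
    {n : ℕ} (hn : 1 ≤ n) : 0 < ∑ j ∈ range n, f j l := by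
  refine Finset.sum_pos' (fun j _ => hf.nonneg j l hl) ⟨0, Finset.mem_range.2 hn, ?_⟩
  rw [hf.zero l hl]
  exact one_pos

theorem DRA_S_mono {C0 b : ℝ} {f : ℕ → ℝ → ℝ} (hf : DR C0 b f) {l l' : ℝ}
    (hl : l ∈ Set.Icc 0 b) (hl' : l' ∈ Set.Icc 0 b) (h : l ≤ l') (n : ℕ) :
    ∑ j ∈ range n, f j l ≤ ∑ j ∈ range n, f j l' :=
  Finset.sum_le_sum fun j _ => hf.mono j hl hl' h

theorem DRA_S_le {C0 b : ℝ} {f : ℕ → ℝ → ℝ} (hf : DR C0 b f) {l : ℝ} (hl : l ∈ Set.Icc 0 b)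
    {n m : ℕ} (h : n ≤ m) : ∑ j ∈ range n, f j l ≤ ∑ j ∈ range m, f j l :=
  Finset.sum_le_sum_of_subset_of_nonneg (Finset.range_subset_range.2 h)
    fun j _ _ => hf.nonneg j l hl

theorem DRA_S_two {C0 b : ℝ} {f : ℕ → ℝ → ℝ} (hf : DR C0 b f) {l : ℝ} (hl : l ∈ Set.Icc 0 b)
    (n : ℕ) : ∑ j ∈ range (n + n), f j l ≤ ∑ j ∈ range n, f j l + n * f n l := by
  rw [Finset.sum_range_add]
  have h1 := Finset.sum_le_card_nsmul (range n) (fun x => f (n + x) l) (f n l)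
    (fun x _ => DRA_anti hf hl (Nat.le_add_right n x))
  rw [Finset.card_range, nsmul_eq_mul] at h1
  linarith

theorem DRA_decay {C0 b : ℝ} {f : ℕ → ℝ → ℝ} (hf : DR C0 b f) (hC : 0 < C0) {n : ℕ} (hn : 1 ≤ n)
    {a' b' s : ℝ} (ha : 0 ≤ a') (hab : a' ≤ b') (hb : b' ≤ b) (hs : 0 < s)
    (hS : ∀ l ∈ Set.Icc a' b', ∑ j ∈ range n, f j l ≤ s) :
    f n a' ≤ Real.exp (-((n : ℝ) / (C0 * s)) * (b' - a')) * f n b' := by
  obtain ⟨κ, hκ⟩ : ∃ κ, κ = (n : ℝ) / (C0 * s) := ⟨_, rfl⟩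
  rw [← hκ]
  have hCs : 0 < C0 * s := mul_pos hC hs
  have hexp : ∀ l, HasDerivAt (fun l => Real.exp (-κ * l)) (Real.exp (-κ * l) * (-κ * 1)) l :=
    fun l => ((hasDerivAt_id l).const_mul (-κ)).exp
  have hd : ∀ l, HasDerivAt (fun l => Real.exp (-κ * l) * f n l)
      (Real.exp (-κ * l) * (-κ * 1) * f n l + Real.exp (-κ * l) * deriv (f n) l) l :=
    fun l => (hexp l).mul ((hf.diff n) l).hasDerivAt
  have hmono : MonotoneOn (fun l => Real.exp (-κ * l) * f n l) (Set.Icc a' b') := by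
    refine monotoneOn_of_deriv_nonneg (convex_Icc a' b')
      (fun l _ => (hd l).continuousAt.continuousWithinAt)
      (fun l _ => (hd l).differentiableAt.differentiableWithinAt) ?_
    intro l hl
    rw [interior_Icc] at hl
    have hl' : l ∈ Set.Icc a' b' := Set.Ioo_subset_Icc_self hl
    have hlb : l ∈ Set.Icc 0 b := ⟨ha.trans hl'.1, hl'.2.trans hb⟩
    rw [(hd l).deriv]
    have h1 := hf.ineq n l hlb
    have hSp := DRA_S_pos hf hlb hn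
    have h2 : 0 ≤ deriv (f n) l := by
      by_contra hcon
      push Not at hcon
      have h3 : C0 * (∑ j ∈ range n, f j l) * deriv (f n) l < 0 :=
        mul_neg_of_pos_of_neg (mul_pos hC hSp) hcon
      have h4 : 0 ≤ (n : ℝ) * f n l := mul_nonneg (Nat.cast_nonneg n) (hf.nonneg n l hlb)
      linarith
    have h3 : C0 * (∑ j ∈ range n, f j l) * deriv (f n) l ≤ C0 * s * deriv (f n) l :=
      mul_le_mul_of_nonneg_right (mul_le_mul_of_nonneg_left (hS l hl') hC.le) h2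
    have h4 : κ * f n l ≤ deriv (f n) l := by
      rw [hκ, div_mul_eq_mul_div, div_le_iff₀ hCs, mul_comm (deriv (f n) l)]
      exact h1.trans h3
    have h5 : Real.exp (-κ * l) * (-κ * 1) * f n l + Real.exp (-κ * l) * deriv (f n) l =
        Real.exp (-κ * l) * (deriv (f n) l - κ * f n l) := by ring
    rw [h5]
    exact mul_nonneg (Real.exp_pos _).le (by linarith)
  have h1 : Real.exp (-κ * a') * f n a' ≤ Real.exp (-κ * b') * f n b' :=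
    hmono (Set.left_mem_Icc.2 hab) (Set.right_mem_Icc.2 hab) hab
  have h2 := mul_le_mul_of_nonneg_left h1 (Real.exp_pos (κ * a')).le
  rw [← mul_assoc, ← mul_assoc, ← Real.exp_add, ← Real.exp_add] at h2
  have e1 : κ * a' + -κ * a' = 0 := by ring
  have e2 : κ * a' + -κ * b' = -κ * (b' - a') := by ring
  rw [e1, e2, Real.exp_zero, one_mul] at h2
  exact h2

theorem DRA_geom (k : ℕ) : ∑ j ∈ range k, (50 / 81 : ℝ) ^ j ≤ 3 := by
  have h1 := geom_sum_mul_neg (50 / 81 : ℝ) k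
  have h2 : (0 : ℝ) ≤ (50 / 81) ^ k := by positivity
  linarith

theorem DRA_exp {y : ℝ} (hy : 0 < y) : Real.exp (-y) ≤ 2 / y ^ 2 := by
  have h1 := Real.quadratic_le_exp_of_nonneg hy.le
  have h2 : y ^ 2 / 2 ≤ Real.exp y := by linarith
  have h3 : 0 < y ^ 2 / 2 := by positivity
  rw [Real.exp_neg]
  calc (Real.exp y)⁻¹ ≤ (y ^ 2 / 2)⁻¹ := inv_anti₀ h3 h2
    _ = 2 / y ^ 2 := by rw [inv_div]

theorem DRA_main {C0 l1 : ℝ} (hC : 0 < C0) (hl : 0 < l1) {f : ℕ → ℝ → ℝ}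
    (hf : DR C0 (2 * l1) f) {n : ℕ} (hn : 1 ≤ n)
    (hn0 : 6 / (l1 / (40 * C0)) ^ 2 ≤ Real.sqrt n)
    (hS : ∑ j ∈ range n, f j l1 ≤ Real.sqrt n) (k : ℕ) :
    ∑ j ∈ range (2 ^ k * n), f j (l1 * (1 / 2 + (9 / 10) ^ k / 2)) ≤
      Real.sqrt n + 2 / (l1 / (40 * C0)) ^ 2 * ∑ j ∈ range k, (50 / 81 : ℝ) ^ j := by
  obtain ⟨q, hq⟩ : ∃ q, q = l1 / (40 * C0) := ⟨_, rfl⟩
  rw [← hq] at hn0 ⊢
  have hq0 : 0 < q := by rw [hq]; positivity
  have hnR : (0 : ℝ) < n := by exact_mod_cast hn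
  have hsq : 0 < Real.sqrt n := Real.sqrt_pos.2 hnR
  have hsq2 : Real.sqrt n * Real.sqrt n = n := Real.mul_self_sqrt hnR.le
  have hμ : ∀ k : ℕ, l1 * (1 / 2 + (9 / 10) ^ k / 2) ∈ Set.Icc 0 (2 * l1) := by
    intro k
    have h1 : (0 : ℝ) < (9 / 10) ^ k := by positivity
    have h2 : (9 / 10 : ℝ) ^ k ≤ 1 := pow_le_one₀ (by norm_num) (by norm_num)
    constructor
    · positivity
    · nlinarith
  have hbd : ∀ k : ℕ, Real.sqrt n + 2 / q ^ 2 * ∑ j ∈ range k, (50 / 81 : ℝ) ^ j ≤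
      2 * Real.sqrt n := by
    intro k
    have h1 : 2 / q ^ 2 * ∑ j ∈ range k, (50 / 81 : ℝ) ^ j ≤ 2 / q ^ 2 * 3 :=
      mul_le_mul_of_nonneg_left (DRA_geom k) (by positivity)
    have h2 : 2 / q ^ 2 * 3 = 6 / q ^ 2 := by ring
    linarith
  induction k with
  | zero =>
    have e1 : l1 * (1 / 2 + (9 / 10) ^ 0 / 2) = l1 := by ring
    rw [e1, pow_zero, one_mul, Finset.range_zero, Finset.sum_empty, mul_zero, add_zero]
    exact hS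
  | succ k ih =>
    obtain ⟨μ, hμd⟩ : ∃ μ, μ = l1 * (1 / 2 + (9 / 10) ^ k / 2) := ⟨_, rfl⟩
    obtain ⟨μ', hμd'⟩ : ∃ μ', μ' = l1 * (1 / 2 + (9 / 10) ^ (k + 1) / 2) := ⟨_, rfl⟩
    have hm := hμ k
    have hm' := hμ (k + 1)
    rw [← hμd] at ih hm
    rw [← hμd'] at hm' ⊢
    obtain ⟨K, hK⟩ : ∃ K, K = 2 ^ k * n := ⟨_, rfl⟩
    have hK1 : 1 ≤ K := by
      rw [hK]
      exact Nat.mul_pos (by positivity) hn
    have hKK : 2 ^ (k + 1) * n = K + K := by rw [hK, pow_succ]; ring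
    rw [← hK] at ih
    rw [hKK]
    have hdiff : μ - μ' = l1 / 20 * (9 / 10) ^ k := by
      rw [hμd, hμd', pow_succ]
      ring
    have hle : μ' ≤ μ := by
      have : 0 ≤ l1 / 20 * (9 / 10) ^ k := by positivity
      linarith
    have h1 := DRA_S_two hf hm' K
    have h2 := DRA_S_mono hf hm' hm hle K
    have h3 := DRA_decay hf hC hK1 hm'.1 hle hm.2 (s := 2 * Real.sqrt n) (by positivity)
      (fun l hl => (DRA_S_mono hf ⟨hm'.1.trans hl.1, hl.2.trans hm.2⟩ hm hl.2 K).trans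
        (ih.trans (hbd k)))
    have h4 : f K μ' ≤ Real.exp (-((K : ℝ) / (C0 * (2 * Real.sqrt n))) * (μ - μ')) := by
      refine h3.trans ?_
      have := mul_le_mul_of_nonneg_left (DRA_le_one hf hm K)
        (Real.exp_pos (-((K : ℝ) / (C0 * (2 * Real.sqrt n))) * (μ - μ'))).le
      rw [mul_one] at this
      exact this
    obtain ⟨y, hy⟩ : ∃ y, y = (9 / 5 : ℝ) ^ k * Real.sqrt n * q := ⟨_, rfl⟩
    have hy0 : 0 < y := by rw [hy]; positivity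
    have hKR : (K : ℝ) = 2 ^ k * (Real.sqrt n * Real.sqrt n) := by
      rw [hK, hsq2]
      push_cast
      rfl
    have hexpo : -((K : ℝ) / (C0 * (2 * Real.sqrt n))) * (μ - μ') = -y := by
      rw [hdiff, hy, hq, hKR]
      have e1 : (9 / 5 : ℝ) ^ k = 2 ^ k * (9 / 10) ^ k := by
        rw [← mul_pow]
        norm_num
      rw [e1]
      field_simp
      ring
    rw [hexpo] at h4
    have h5 := h4.trans (DRA_exp hy0)
    have h6 : (K : ℝ) * f K μ' ≤ 2 / q ^ 2 * (50 / 81) ^ k := by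
      have e1 : (K : ℝ) * f K μ' ≤ K * (2 / y ^ 2) :=
        mul_le_mul_of_nonneg_left h5 (Nat.cast_nonneg K)
      refine e1.trans (le_of_eq ?_)
      rw [hKR, hy]
      have e2 : (50 / 81 : ℝ) ^ k * ((9 / 5) ^ k * (9 / 5) ^ k) = 2 ^ k := by
        rw [← mul_pow, ← mul_pow]
        norm_num
      have e3 : (9 / 5 : ℝ) ^ k ≠ 0 := by positivity
      rw [← e2]
      field_simp
    rw [Finset.sum_range_succ, mul_add]
    linarith

theorem dr_down (C0 l1 : ℝ) (hC : 0 < C0) (hl : 0 < l1) :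
    ∃ n0 : ℕ, ∀ N : ℕ, ∃ C a : ℝ, 0 < C ∧ 0 < a ∧ ∀ f : ℕ → ℝ → ℝ, DR C0 (2 * l1) f →
      ∀ n : ℕ, n0 ≤ n → n ≤ N → ∑ j ∈ range n, f j l1 ≤ Real.sqrt n →
        ∀ m : ℕ, f m (l1 / 4) ≤ C * Real.exp (-a * m) := by
  obtain ⟨q, hq⟩ : ∃ q, q = l1 / (40 * C0) := ⟨_, rfl⟩
  obtain ⟨n1, hn1⟩ := exists_nat_ge ((6 / q ^ 2) ^ 2)
  refine ⟨n1 + 1, fun N => ⟨1, l1 / (8 * C0 * Real.sqrt (N + 1)), one_pos, by positivity,
    fun f hf n hn hnN hS m => ?_⟩⟩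
  have hn' : 1 ≤ n := by omega
  have hnR : (0 : ℝ) < n := by exact_mod_cast hn'
  have hsq : 0 < Real.sqrt n := Real.sqrt_pos.2 hnR
  have hn0 : 6 / (l1 / (40 * C0)) ^ 2 ≤ Real.sqrt n := by
    rw [← hq]
    have h1 : (6 / q ^ 2) ^ 2 ≤ (n : ℝ) := by
      refine hn1.trans ?_
      exact_mod_cast (by omega : n1 ≤ n)
    have h2 : 0 ≤ 6 / q ^ 2 := by positivity
    rw [← Real.sqrt_sq h2]
    exact Real.sqrt_le_sqrt h1
  have hmain := DRA_main hC hl hf hn' hn0 hS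
  have hI2 : l1 / 2 ∈ Set.Icc 0 (2 * l1) := ⟨by positivity, by linarith⟩
  have hI4 : l1 / 4 ∈ Set.Icc 0 (2 * l1) := ⟨by positivity, by linarith⟩
  have hSall : ∀ m : ℕ, ∑ j ∈ range m, f j (l1 / 2) ≤ 2 * Real.sqrt n := by
    intro m
    have h1 : m ≤ 2 ^ m * n := by
      have h2 : m < 2 ^ m := Nat.lt_two_pow_self
      calc m ≤ 2 ^ m * 1 := by omega
        _ ≤ 2 ^ m * n := Nat.mul_le_mul_left _ hn'
    have h0 : (0 : ℝ) < (9 / 10) ^ m := by positivity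
    have h0' : (9 / 10 : ℝ) ^ m ≤ 1 := pow_le_one₀ (by norm_num) (by norm_num)
    have hμ : l1 * (1 / 2 + (9 / 10) ^ m / 2) ∈ Set.Icc 0 (2 * l1) :=
      ⟨by positivity, by nlinarith⟩
    have hle : l1 / 2 ≤ l1 * (1 / 2 + (9 / 10) ^ m / 2) := by
      have : 0 ≤ l1 * ((9 / 10) ^ m / 2) := by positivity
      linarith
    refine (DRA_S_le hf hI2 h1).trans ((DRA_S_mono hf hI2 hμ hle _).trans
      ((hmain m).trans ?_))
    have h3 : 2 / (l1 / (40 * C0)) ^ 2 * ∑ j ∈ range m, (50 / 81 : ℝ) ^ j ≤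
        2 / (l1 / (40 * C0)) ^ 2 * 3 :=
      mul_le_mul_of_nonneg_left (DRA_geom m) (by positivity)
    have h4 : 2 / (l1 / (40 * C0)) ^ 2 * 3 = 6 / (l1 / (40 * C0)) ^ 2 := by ring
    linarith
  rw [one_mul]
  rcases Nat.eq_zero_or_pos m with rfl | hm
  · rw [hf.zero _ hI4, Nat.cast_zero, mul_zero, Real.exp_zero]
  · have h1 := DRA_decay hf hC hm hI4.1 (by linarith : l1 / 4 ≤ l1 / 2) hI2.2
      (s := 2 * Real.sqrt n) (by positivity)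
      (fun l hl' => (DRA_S_mono hf ⟨hI4.1.trans hl'.1, hl'.2.trans hI2.2⟩ hI2 hl'.2 m).trans
        (hSall m))
    have h2 : Real.exp (-((m : ℝ) / (C0 * (2 * Real.sqrt n))) * (l1 / 2 - l1 / 4)) *
        f m (l1 / 2) ≤ Real.exp (-((m : ℝ) / (C0 * (2 * Real.sqrt n))) * (l1 / 2 - l1 / 4)) := by
      have := mul_le_mul_of_nonneg_left (DRA_le_one hf hI2 m)
        (Real.exp_pos (-((m : ℝ) / (C0 * (2 * Real.sqrt n))) * (l1 / 2 - l1 / 4))).le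
      rw [mul_one] at this
      exact this
    refine h1.trans (h2.trans (Real.exp_le_exp.2 ?_))
    have h3 : Real.sqrt n ≤ Real.sqrt (N + 1) := by
      refine Real.sqrt_le_sqrt ?_
      have : (n : ℝ) ≤ N := by exact_mod_cast hnN
      linarith
    have h4 : l1 / (8 * C0 * Real.sqrt (N + 1)) ≤ l1 / (8 * C0 * Real.sqrt n) := by
      refine div_le_div_of_nonneg_left hl.le (by positivity) ?_
      exact mul_le_mul_of_nonneg_left h3 (by positivity)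
    have h5 : -((m : ℝ) / (C0 * (2 * Real.sqrt n))) * (l1 / 2 - l1 / 4) =
        -(l1 / (8 * C0 * Real.sqrt n) * m) := by
      field_simp
      ring
    rw [h5]
    have h6 := mul_le_mul_of_nonneg_right h4 (Nat.cast_nonneg m : (0 : ℝ) ≤ m)
    linarith

end H82.BX
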