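import Pool.Agent.H82.BX.GI8
import Pool.Agent.H82.IC.KC

/-!
# EX1: the exploration of the clusters of the seeds

`nx_legal`: `nxS` depends on `x` only through `eo S x`, which depends on the bits in `S`; the four tests reveal the coordinates in the
order ends, `z_e`, `m_e`, bit, so admissibility is kept.
`nx_none`: if there is no candidate, no unexplored edge touches the explored cluster of the seeds, so (induction along paths) every
`y` equal to `x` on `S` has the same seed clusters.
`rev_touch`: induction on `n`: if `i` is queried at `A = rev nx k x`, the candidate `e` touches the explored cluster and `eo A x ⊆ op1 (po x)`.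
-/

set_option autoImplicit false

open Finset MeasureTheory

namespace H82.BX

open H82.IC

variable {V E : Type} [Fintype V] [DecidableEq V] [Fintype E] [DecidableEq E] {k : ℕ}

/-- the coordinate `i` belongs to the edge `e`. -/
def toE (G : Gr V E) (i : SV V E ⊕ E) (e : E) : Prop :=
  i = Sum.inl (Sum.inl (G.s e)) ∨ i = Sum.inl (Sum.inl (G.r e)) ∨ i = Sum.inl (Sum.inr (e, false)) ∨
    i = Sum.inl (Sum.inr (e, true)) ∨ i = Sum.inr e

/-- the next coordinate for a candidate predicate. -/
noncomputable def nxP (G : Gr V E) (S : Finset (SV V E ⊕ E)) (P : E → Prop) :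
    Option (SV V E ⊕ E) :=
  open Classical in
  if h : ∃ e, P e then
    (if Sum.inl (Sum.inl (G.s h.choose)) ∉ S then some (Sum.inl (Sum.inl (G.s h.choose)))
    else if Sum.inl (Sum.inl (G.r h.choose)) ∉ S then some (Sum.inl (Sum.inl (G.r h.choose)))
    else if Sum.inl (Sum.inr (h.choose, false)) ∉ S then some (Sum.inl (Sum.inr (h.choose, false)))
    else if Sum.inl (Sum.inr (h.choose, true)) ∉ S then some (Sum.inl (Sum.inr (h.choose, true)))
    else some (Sum.inr h.choose))
  else none

theorem nxS_eq (G : Gr V E) (Sd : Finset V) (S : Finset (SV V E ⊕ E)) (x : ∀ i, XI k V E i) :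
    nxS G Sd S x = nxP G S (cand G Sd S x) := rfl

theorem EX1_eo (S : Finset (SV V E ⊕ E)) (x y : ∀ i, XI k V E i) (h : ∀ i ∈ S, x i = y i) :
    eo S x = eo S y := by
  ext e
  constructor
  · rintro ⟨h1, h2⟩
    refine ⟨h1, ?_⟩
    have h3 : po y e = po x e := (h _ h1).symm
    rw [h3]
    exact h2
  · rintro ⟨h1, h2⟩
    refine ⟨h1, ?_⟩
    have h3 : po x e = po y e := h _ h1
    rw [h3]
    exact h2

theorem EX1_cand (G : Gr V E) (Sd : Finset V) (S : Finset (SV V E ⊕ E)) (x y : ∀ i, XI k V E i)
    (h : ∀ i ∈ S, x i = y i) : cand G Sd S x = cand G Sd S y := by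
  unfold cand
  rw [EX1_eo S x y h]

theorem EX1_spec (G : Gr V E) (S : Finset (SV V E ⊕ E)) (P : E → Prop)
    (hP : ∀ e, P e → Sum.inr e ∉ S) (i : SV V E ⊕ E) (h : nxP G S P = some i) :
    i ∉ S ∧ ∃ e, P e ∧ (i = Sum.inl (Sum.inl (G.s e)) ∨ i = Sum.inl (Sum.inl (G.r e)) ∨
      (i = Sum.inl (Sum.inr (e, false)) ∧ Sum.inl (Sum.inl (G.s e)) ∈ S ∧
        Sum.inl (Sum.inl (G.r e)) ∈ S) ∨
      (i = Sum.inl (Sum.inr (e, true)) ∧ Sum.inl (Sum.inr (e, false)) ∈ S) ∨
      (i = Sum.inr e ∧ Sum.inl (Sum.inr (e, true)) ∈ S)) := by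
  classical
  unfold nxP at h
  by_cases h0 : ∃ e, P e
  · rw [dif_pos h0] at h
    by_cases h1 : Sum.inl (Sum.inl (G.s h0.choose)) ∉ S
    · rw [if_pos h1] at h
      obtain rfl := Option.some.inj h
      exact ⟨h1, _, h0.choose_spec, Or.inl rfl⟩
    rw [if_neg h1] at h
    by_cases h2 : Sum.inl (Sum.inl (G.r h0.choose)) ∉ S
    · rw [if_pos h2] at h
      obtain rfl := Option.some.inj h
      exact ⟨h2, _, h0.choose_spec, Or.inr (Or.inl rfl)⟩
    rw [if_neg h2] at h
    by_cases h3 : Sum.inl (Sum.inr (h0.choose, false)) ∉ S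
    · rw [if_pos h3] at h
      obtain rfl := Option.some.inj h
      exact ⟨h3, _, h0.choose_spec, Or.inr (Or.inr (Or.inl ⟨rfl, not_not.1 h1, not_not.1 h2⟩))⟩
    rw [if_neg h3] at h
    by_cases h4 : Sum.inl (Sum.inr (h0.choose, true)) ∉ S
    · rw [if_pos h4] at h
      obtain rfl := Option.some.inj h
      exact ⟨h4, _, h0.choose_spec, Or.inr (Or.inr (Or.inr (Or.inl ⟨rfl, not_not.1 h3⟩)))⟩
    rw [if_neg h4] at h
    obtain rfl := Option.some.inj h
    exact ⟨hP _ h0.choose_spec, _, h0.choose_spec,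
      Or.inr (Or.inr (Or.inr (Or.inr ⟨rfl, not_not.1 h4⟩)))⟩
  · rw [dif_neg h0] at h
    cases h

theorem EX1_none (G : Gr V E) (S : Finset (SV V E ⊕ E)) (P : E → Prop)
    (h : nxP G S P = none) (e : E) : ¬ P e := by
  classical
  intro he
  have h0 : ∃ e, P e := ⟨e, he⟩
  unfold nxP at h
  rw [dif_pos h0] at h
  split_ifs at h

theorem EX1_cn (G : Gr V E) (Sd : Finset V) (S : Finset (SV V E ⊕ E)) (x : ∀ i, XI k V E i) (e : E)
    (h : cand G Sd S x e) : Sum.inr e ∉ S := h.1

theorem nx_legal (G : Gr V E) (Sd : Finset V) :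
    Legal (Adm G) (nxS G Sd : Finset (SV V E ⊕ E) → (∀ i, XI k V E i) → Option (SV V E ⊕ E)) := by
  refine ⟨⟨?_, ?_, ?_⟩, ?_, ?_, ?_⟩
  · intro e he
    exact absurd he (Finset.notMem_empty _)
  · intro e he
    exact absurd he (Finset.notMem_empty _)
  · intro e he
    exact absurd he (Finset.notMem_empty _)
  · intro A x y h
    rw [nxS_eq, nxS_eq, EX1_cand G Sd A x y h]
  · intro A x i h
    rw [nxS_eq] at h
    exact (EX1_spec G A _ (EX1_cn G Sd A x) i h).1
  · intro A x i hA h
    rw [nxS_eq] at h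
    obtain ⟨_, e, _, h2⟩ := EX1_spec G A _ (EX1_cn G Sd A x) i h
    rcases h2 with h2 | h2 | ⟨h2, h3, h4⟩ | ⟨h2, h3⟩ | ⟨h2, h3⟩
    · subst h2
      refine ⟨fun f hf => ?_, fun f hf => ?_, fun f hf => ?_⟩
      · rcases Finset.mem_insert.1 hf with hf | hf
        · cases hf
        · exact Finset.mem_insert_of_mem (hA.bit f hf)
      · rcases Finset.mem_insert.1 hf with hf | hf
        · cases hf
        · exact Finset.mem_insert_of_mem (hA.mm f hf)
      · rcases Finset.mem_insert.1 hf with hf | hf
        · cases hf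
        · exact ⟨Finset.mem_insert_of_mem (hA.zz f hf).1, Finset.mem_insert_of_mem (hA.zz f hf).2⟩
    · subst h2
      refine ⟨fun f hf => ?_, fun f hf => ?_, fun f hf => ?_⟩
      · rcases Finset.mem_insert.1 hf with hf | hf
        · cases hf
        · exact Finset.mem_insert_of_mem (hA.bit f hf)
      · rcases Finset.mem_insert.1 hf with hf | hf
        · cases hf
        · exact Finset.mem_insert_of_mem (hA.mm f hf)
      · rcases Finset.mem_insert.1 hf with hf | hf
        · cases hf
        · exact ⟨Finset.mem_insert_of_mem (hA.zz f hf).1, Finset.mem_insert_of_mem (hA.zz f hf).2⟩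
    · subst h2
      refine ⟨fun f hf => ?_, fun f hf => ?_, fun f hf => ?_⟩
      · rcases Finset.mem_insert.1 hf with hf | hf
        · cases hf
        · exact Finset.mem_insert_of_mem (hA.bit f hf)
      · rcases Finset.mem_insert.1 hf with hf | hf
        · simp at hf
        · exact Finset.mem_insert_of_mem (hA.mm f hf)
      · rcases Finset.mem_insert.1 hf with hf | hf
        · have hfe : f = e := by simpa using hf
          subst hfe
          exact ⟨Finset.mem_insert_of_mem h3, Finset.mem_insert_of_mem h4⟩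
        · exact ⟨Finset.mem_insert_of_mem (hA.zz f hf).1, Finset.mem_insert_of_mem (hA.zz f hf).2⟩
    · subst h2
      refine ⟨fun f hf => ?_, fun f hf => ?_, fun f hf => ?_⟩
      · rcases Finset.mem_insert.1 hf with hf | hf
        · cases hf
        · exact Finset.mem_insert_of_mem (hA.bit f hf)
      · rcases Finset.mem_insert.1 hf with hf | hf
        · have hfe : f = e := by simpa using hf
          subst hfe
          exact Finset.mem_insert_of_mem h3
        · exact Finset.mem_insert_of_mem (hA.mm f hf)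
      · rcases Finset.mem_insert.1 hf with hf | hf
        · simp at hf
        · exact ⟨Finset.mem_insert_of_mem (hA.zz f hf).1, Finset.mem_insert_of_mem (hA.zz f hf).2⟩
    · subst h2
      refine ⟨fun f hf => ?_, fun f hf => ?_, fun f hf => ?_⟩
      · rcases Finset.mem_insert.1 hf with hf | hf
        · have hfe : f = e := by simpa using hf
          subst hfe
          exact Finset.mem_insert_of_mem h3
        · exact Finset.mem_insert_of_mem (hA.bit f hf)
      · rcases Finset.mem_insert.1 hf with hf | hf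
        · cases hf
        · exact Finset.mem_insert_of_mem (hA.mm f hf)
      · rcases Finset.mem_insert.1 hf with hf | hf
        · cases hf
        · exact ⟨Finset.mem_insert_of_mem (hA.zz f hf).1, Finset.mem_insert_of_mem (hA.zz f hf).2⟩

theorem EX1_sub (S : Finset (SV V E ⊕ E)) (x : ∀ i, XI k V E i) : eo S x ⊆ op1 (po x) :=
  fun _ he => he.2

theorem EX1_conn (G : Gr V E) (Sd : Finset V) (S : Finset (SV V E ⊕ E)) (x y : ∀ i, XI k V E i)
    (h : nxS G Sd S x = none) (hy : ∀ i ∈ S, y i = x i) (s : V) (hs : s ∈ Sd) (v : V) :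
    G.Conn (op1 (po y)) s v ↔ G.Conn (eo S x) s v := by
  rw [nxS_eq] at h
  have hn := EX1_none G S _ h
  constructor
  · intro hc
    induction hc with
    | refl => exact conn_refl G _ s
    | @tail a b _ hab ih =>
      obtain ⟨e, he, hab⟩ := hab
      have hmem : Sum.inr e ∈ S := by
        by_contra hne
        refine hn e ⟨hne, s, hs, ?_⟩
        rcases hab with ⟨h1, _⟩ | ⟨_, h2⟩
        · left
          rw [h1]
          exact ih
        · right
          rw [h2]
          exact ih
      have hx : e ∈ eo S x := by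
        refine ⟨hmem, ?_⟩
        have h3 : po y e = po x e := hy _ hmem
        rw [← h3]
        exact he
      exact Relation.ReflTransGen.tail ih ⟨e, hx, hab⟩
  · intro hc
    rw [← EX1_eo S y x hy] at hc
    exact conn_mono G (EX1_sub S y) hc

theorem nx_none (G : Gr V E) (Sd : Finset V) (S : Finset (SV V E ⊕ E)) (x y : ∀ i, XI k V E i)
    (h : nxS G Sd S x = none) (hy : ∀ i ∈ S, y i = x i) (s : V) (hs : s ∈ Sd) (v : V) :
    G.Conn (op1 (po y)) s v ↔ G.Conn (op1 (po x)) s v := by
  rw [EX1_conn G Sd S x y h hy s hs v, EX1_conn G Sd S x x h (fun _ _ => rfl) s hs v]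

theorem rev_touch (G : Gr V E) (Sd : Finset V) (n : ℕ) (x : ∀ i, XI k V E i) (i : SV V E ⊕ E)
    (h : i ∈ rev (nxS G Sd) n x) :
    ∃ e, toE G i e ∧ ∃ s ∈ Sd, G.Conn (op1 (po x)) s (G.s e) ∨ G.Conn (op1 (po x)) s (G.r e) := by
  induction n with
  | zero => exact absurd h (Finset.notMem_empty _)
  | succ n ih =>
    rw [rev] at h
    split at h
    · exact ih h
    · rename_i j hj
      rcases Finset.mem_insert.1 h with h | h
      · subst h
        rw [nxS_eq] at hj
        obtain ⟨_, e, he, h2⟩ := EX1_spec G _ _ (EX1_cn G Sd _ x) i hj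
        obtain ⟨_, s, hs, hc⟩ := he
        refine ⟨e, ?_, s, hs, ?_⟩
        · rcases h2 with h2 | h2 | ⟨h2, _⟩ | ⟨h2, _⟩ | ⟨h2, _⟩
          · exact Or.inl h2
          · exact Or.inr (Or.inl h2)
          · exact Or.inr (Or.inr (Or.inl h2))
          · exact Or.inr (Or.inr (Or.inr (Or.inl h2)))
          · exact Or.inr (Or.inr (Or.inr (Or.inr h2)))
        · rcases hc with hc | hc
          · exact Or.inl (conn_mono G (EX1_sub _ x) hc)
          · exact Or.inr (conn_mono G (EX1_sub _ x) hc)
      · exact ih h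

/-- connections to a vertex outside: a function determined by the seed clusters.  If every connection from `a` to `T` meets a seed,
then `ind (∃ u ∈ T, a ↔ u)` is determined when the exploration stops. -/
theorem det_conn (G : Gr V E) (Sd : Finset V) (a : V) (T : Set V)
    (hsep : ∀ ω : Set E, ∀ u ∈ T, G.Conn ω a u → ∃ s ∈ Sd, G.Conn ω a s)
    (S : Finset (SV V E ⊕ E)) (x y : ∀ i, XI k V E i)
    (h : nxS G Sd S x = none) (hy : ∀ i ∈ S, y i = x i) :
    (∃ u ∈ T, G.Conn (op1 (po y)) a u) ↔ ∃ u ∈ T, G.Conn (op1 (po x)) a u := by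
  constructor
  · rintro ⟨u, hu, hc⟩
    obtain ⟨s, hs, hcs⟩ := hsep _ u hu hc
    have h1 := (nx_none G Sd S x y h hy s hs a).1 (conn_symm G hcs)
    have h2 := (nx_none G Sd S x y h hy s hs u).1 (conn_trans G (conn_symm G hcs) hc)
    exact ⟨u, hu, conn_trans G (conn_symm G h1) h2⟩
  · rintro ⟨u, hu, hc⟩
    obtain ⟨s, hs, hcs⟩ := hsep _ u hu hc
    have h1 := (nx_none G Sd S x y h hy s hs a).2 (conn_symm G hcs)
    have h2 := (nx_none G Sd S x y h hy s hs u).2 (conn_trans G (conn_symm G hcs) hc)
    exact ⟨u, hu, conn_trans G (conn_symm G h1) h2⟩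

end H82.BX
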