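import Pool.Agent.H82.BX.OSD

/-!
# OSC: the diagonal

`aT n A x x = ce m (f^2) A x` as soon as `n ≥ |I \ A|`: induction on `n`.  When `nx A x = none`, `f` is constant (`= f x`) on the
configurations equal to `x` on `A` (`hdet`), so `ce m f A x = f x`, `ce m (f^2) A x = (f x)^2` (`ce_const`).  When
`nx A x = some i`: both arguments are updated with the same value `qt (cp m A x i) u`; `qt_int` and `ce_step` (for `f^2`).
`n = 0`: `A = univ` (card), so `f` is determined again (`y = x`).
-/

set_option autoImplicit false

open Finset MeasureTheory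

namespace H82.BX

variable {I : Type} [Fintype I] [DecidableEq I] {X : I → Type} [∀ i, Fintype (X i)]
  [∀ i, LinearOrder (X i)] [∀ i, Nonempty (X i)]

theorem osc_sq (m f : (∀ i, X i) → ℝ) (hm : ∀ x, 0 < m x) (A : Finset I) (x : ∀ i, X i)
    (h : ∀ y : (∀ i, X i), (∀ i ∈ A, y i = x i) → f y = f x) :
    ce m f A x * ce m f A x = ce m (fun z => f z ^ 2) A x := by
  rw [ce_const m f hm A x h, ce_const m (fun z => f z ^ 2) hm A x (fun y hy => by
    show f y ^ 2 = f x ^ 2
    rw [h y hy])]
  ring

theorem osc_none (m f : (∀ i, X i) → ℝ) (nx : Finset I → (∀ i, X i) → Option I) (n : ℕ)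
    (A : Finset I) (x y : ∀ i, X i) (h : nx A x = none) :
    aT m f nx (n + 1) A x y = ce m f A x * ce m f A y := by
  simp only [aT, h]

theorem osc_some (m f : (∀ i, X i) → ℝ) (nx : Finset I → (∀ i, X i) → Option I) (n : ℕ)
    (A : Finset I) (x y : ∀ i, X i) (i : I) (h : nx A x = some i) :
    aT m f nx (n + 1) A x y = ∫ u in (0 : ℝ)..1, aT m f nx n (insert i A)
        (Function.update x i (qt (cp m A x i) u)) (Function.update y i (qt (cp m A y i) u)) := by
  simp only [aT, h]

theorem os_diag (m f : (∀ i, X i) → ℝ) (hm : ∀ x, 0 < m x) (Ad : Finset I → Prop)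
    (nx : Finset I → (∀ i, X i) → Option I) (hL : Legal Ad nx)
    (hdet : ∀ A, Ad A → ∀ x : (∀ i, X i), nx A x = none →
      ∀ y, (∀ i ∈ A, y i = x i) → f y = f x)
    (n : ℕ) (A : Finset I) (hA : Ad A) (hn : (univ \ A).card ≤ n) (x : ∀ i, X i) :
    aT m f nx n A x x = ce m (fun z => f z ^ 2) A x := by
  induction n generalizing A x with
  | zero =>
    have hA' : ∀ i : I, i ∈ A := by
      intro i
      have h0 : (univ \ A) = ∅ := by
        apply Finset.card_eq_zero.mp
        omega
      by_contra hi
      have : i ∈ (univ \ A) := by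
        rw [Finset.mem_sdiff]
        exact ⟨Finset.mem_univ i, hi⟩
      rw [h0] at this
      exact absurd this (Finset.notMem_empty i)
    show ce m f A x * ce m f A x = _
    apply osc_sq m f hm A x
    intro y hy
    have : y = x := funext (fun i => hy i (hA' i))
    rw [this]
  | succ n ih =>
    cases h : nx A x with
    | none =>
      rw [osc_none m f nx n A x x h]
      exact osc_sq m f hm A x (hdet A hA x h)
    | some i =>
      have hi := hL.new A x i h
      have hA2 := hL.adm A x i hA h
      have hc : (univ \ insert i A).card ≤ n := by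
        have h1 : (univ \ insert i A) = (univ \ A).erase i := by
          ext j
          simp only [Finset.mem_sdiff, Finset.mem_univ, true_and, Finset.mem_insert,
            Finset.mem_erase, not_or]
        rw [h1, Finset.card_erase_of_mem (by
          rw [Finset.mem_sdiff]
          exact ⟨Finset.mem_univ i, hi⟩)]
        omega
      rw [osc_some m f nx n A x x i h]
      have h2 : ∀ u : ℝ, aT m f nx n (insert i A) (Function.update x i (qt (cp m A x i) u))
          (Function.update x i (qt (cp m A x i) u)) =
          (fun c => ce m (fun z => f z ^ 2) (insert i A) (Function.update x i c))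
            (qt (cp m A x i) u) := fun u => ih (insert i A) hA2 hc _
      simp only [h2]
      rw [qt_int (cp m A x i) (fun c => cp_nonneg m hm A x i c) (cp_sum m hm A x i hi)
        (fun c => ce m (fun z => f z ^ 2) (insert i A) (Function.update x i c))]
      exact ce_step m (fun z => f z ^ 2) hm A x i hi

end H82.BX
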