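import Pool.Agent.H82.BX.OSD

/-!
# OSE: the accumulated cost

Let `K n A x = ∑_y m y kT n A x y`.  Claim: for `Ad A`, `K n A x ≤ ∑_i c_i P_n(A, x, i)` where `P_n(A,x,i)` is defined by the
recursion `P_0 = 0`, `P_{n+1}(A,x,i) = 0` if `nx A x = none`, and
`= 1[i = j] + ∑_c cp m A x j c P_n(insert j A, update x j c, i)` if `nx A x = some j`.  (Use `cp_avg` for the average over `y`:
`∑_y m y ∑_c' cp m A y j c' φ(update y j c') = ∑_y m y φ y`; `hc` for the influence; `∑ m = 1`; `kT n (insert j A) x' y` depends on
`y` only through `insert j A`, by induction with `cs_congr`.)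
And `P_n(∅, x, i) = ∑_z m z ind (i ∈ rev nx n z)`: more generally, `P_n(A,x,i) = ce m (fun z => 1[i is revealed in the n steps
after A]) A x` with the exploration continued from `A`; define `rv n A z` = the set revealed from `A` in `n` steps
(`rv 0 A z = A`, `rv (n+1) A z = match nx A z with none => A | some i => rv n (insert i A) z`), show
`rv n ∅ z = rev nx n z` (the two recursions unfold from opposite ends: `rv n (rev nx k z) z = rev nx (n+k) z`) and
`P_n(A,x,i) = ce m (fun z => 1[i ∈ rv n A z, i ∉ A]) A x` by induction with `ce_step`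
(`Legal.loc`: `nx A z = nx A x` for `z = x` on `A`).
-/

set_option autoImplicit false

open Finset MeasureTheory

namespace H82.BX

open H82.IC

variable {I : Type} [Fintype I] [DecidableEq I] {X : I → Type} [∀ i, Fintype (X i)]
  [∀ i, LinearOrder (X i)] [∀ i, Nonempty (X i)]

/-- the set revealed from `A` in `n` steps. -/
noncomputable def rvE (nx : Finset I → (∀ i, X i) → Option I) : ℕ → Finset I → (∀ i, X i) → Finset I
  | 0, A, _ => A
  | n + 1, A, z => match nx A z with
    | none => A
    | some i => rvE nx n (insert i A) z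

omit [Fintype I] [∀ i, Fintype (X i)] [∀ i, LinearOrder (X i)] [∀ i, Nonempty (X i)] in
theorem rvE_none (nx : Finset I → (∀ i, X i) → Option I) (n : ℕ) (A : Finset I) (z : ∀ i, X i)
    (h : nx A z = none) : rvE nx (n + 1) A z = A := by
  simp only [rvE, h]

omit [Fintype I] [∀ i, Fintype (X i)] [∀ i, LinearOrder (X i)] [∀ i, Nonempty (X i)] in
theorem rvE_some (nx : Finset I → (∀ i, X i) → Option I) (n : ℕ) (A : Finset I) (z : ∀ i, X i)
    (j : I) (h : nx A z = some j) : rvE nx (n + 1) A z = rvE nx n (insert j A) z := by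
  simp only [rvE, h]

omit [Fintype I] [∀ i, Fintype (X i)] [∀ i, LinearOrder (X i)] [∀ i, Nonempty (X i)] in
theorem rvE_sub (nx : Finset I → (∀ i, X i) → Option I) (n : ℕ) :
    ∀ (A : Finset I) (z : ∀ i, X i), A ⊆ rvE nx n A z := by
  induction n with
  | zero => intro A z; exact Finset.Subset.refl _
  | succ n ih =>
    intro A z
    cases h : nx A z with
    | none => rw [rvE_none nx n A z h]
    | some j =>
      rw [rvE_some nx n A z j h]
      exact (Finset.subset_insert j A).trans (ih _ _)

omit [∀ i, LinearOrder (X i)] [∀ i, Fintype (X i)] [Fintype I] [∀ i, Nonempty (X i)] in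
theorem rev_stop (nx : Finset I → (∀ i, X i) → Option I) (k : ℕ) (z : ∀ i, X i)
    (h : nx (rev nx k z) z = none) (n : ℕ) : rev nx (n + k) z = rev nx k z := by
  induction n with
  | zero => rw [Nat.zero_add]
  | succ n ih =>
    have e : n + 1 + k = (n + k) + 1 := by omega
    rw [e]
    have : rev nx (n + k + 1) z = match nx (rev nx (n + k) z) z with
      | none => rev nx (n + k) z
      | some i => insert i (rev nx (n + k) z) := rfl
    rw [this, ih, h]

omit [∀ i, LinearOrder (X i)] [∀ i, Fintype (X i)] [Fintype I] [∀ i, Nonempty (X i)] in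
theorem rvE_rev (nx : Finset I → (∀ i, X i) → Option I) (n : ℕ) :
    ∀ (k : ℕ) (z : ∀ i, X i), rvE nx n (rev nx k z) z = rev nx (n + k) z := by
  induction n with
  | zero => intro k z; rw [Nat.zero_add]; rfl
  | succ n ih =>
    intro k z
    cases h : nx (rev nx k z) z with
    | none => rw [rvE_none nx n _ z h, rev_stop nx k z h]
    | some j =>
      rw [rvE_some nx n _ z j h]
      have e : insert j (rev nx k z) = rev nx (k + 1) z := by
        have : rev nx (k + 1) z = match nx (rev nx k z) z with
          | none => rev nx k z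
          | some i => insert i (rev nx k z) := rfl
        rw [this, h]
      rw [e, ih]
      congr 1
      omega

omit [∀ i, Nonempty (X i)] in
theorem ce_fun_congr (m g h : (∀ i, X i) → ℝ) (A : Finset I) (x : ∀ i, X i)
    (e : ∀ y, (∀ i ∈ A, y i = x i) → g y = h y) : ce m g A x = ce m h A x := by
  unfold ce cs
  congr 1
  refine Finset.sum_congr rfl fun y _ => ?_
  by_cases hy : ∀ i ∈ A, y i = x i
  · rw [if_pos hy, if_pos hy]
    simp only [e y hy]
  · rw [if_neg hy, if_neg hy]

omit [∀ i, Nonempty (X i)] in
theorem ce_add_const (m g : (∀ i, X i) → ℝ) (hm : ∀ x, 0 < m x) (a : ℝ) (A : Finset I) (x : ∀ i, X i) :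
    ce m (fun z => g z + a) A x = ce m g A x + a := by
  have hp := cs_pos m hm A x
  unfold ce
  rw [div_add' _ _ _ hp.ne']
  congr 1
  unfold cs
  rw [Finset.mul_sum, ← Finset.sum_add_distrib]
  refine Finset.sum_congr rfl fun y _ => ?_
  by_cases hy : ∀ i ∈ A, y i = x i
  · rw [if_pos hy, if_pos hy, if_pos hy]; ring
  · rw [if_neg hy, if_neg hy, if_neg hy]; ring

omit [∀ i, Nonempty (X i)] in
theorem cp_congr (m : (∀ i, X i) → ℝ) (A : Finset I) (x y : ∀ i, X i) (h : ∀ i ∈ A, x i = y i)
    (j : I) (c : X j) : cp m A x j c = cp m A y j c := by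
  unfold cp
  rw [cs_congr A x y h, cs_congr (insert j A) (Function.update x j c) (Function.update y j c)]
  intro i hi
  by_cases hij : i = j
  · subst hij; simp
  · rw [Function.update_of_ne hij, Function.update_of_ne hij]
    exact h i ((Finset.mem_insert.1 hi).resolve_left hij)

omit [Fintype I] [∀ i, Fintype (X i)] [∀ i, LinearOrder (X i)] [∀ i, Nonempty (X i)] in
theorem upd_agree (A : Finset I) (x y : ∀ i, X i) (h : ∀ i ∈ A, x i = y i) (j : I) (c : X j) :
    ∀ i ∈ insert j A, Function.update x j c i = Function.update y j c i := by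
  intro i hi
  by_cases hij : i = j
  · subst hij; simp
  · rw [Function.update_of_ne hij, Function.update_of_ne hij]
    exact h i ((Finset.mem_insert.1 hi).resolve_left hij)

omit [∀ i, Nonempty (X i)] in
theorem infl_congr (m f : (∀ i, X i) → ℝ) (A : Finset I) (x y : ∀ i, X i) (h : ∀ i ∈ A, x i = y i)
    (j : I) : infl m f A x j = infl m f A y j := by
  unfold infl
  refine Finset.sum_congr rfl fun c _ => Finset.sum_congr rfl fun c' _ => ?_
  rw [cp_congr m A x y h, cp_congr m A x y h, ce_congr m f _ _ _ (upd_agree A x y h j c),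
    ce_congr m f _ _ _ (upd_agree A x y h j c')]

omit [∀ i, Nonempty (X i)] in
theorem kT_congr (m f : (∀ i, X i) → ℝ) (nx : Finset I → (∀ i, X i) → Option I) (n : ℕ) :
    ∀ (A : Finset I) (x y y' : ∀ i, X i), (∀ i ∈ A, y i = y' i) →
      kT m f nx n A x y = kT m f nx n A x y' := by
  induction n with
  | zero => intro A x y y' _; rfl
  | succ n ih =>
    intro A x y y' h
    unfold kT
    cases nx A x with
    | none => rfl
    | some j =>
      simp only []
      rw [infl_congr m f A y y' h]
      congr 1
      refine Finset.sum_congr rfl fun c _ => Finset.sum_congr rfl fun c' _ => ?_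
      rw [cp_congr m A y y' h, ih _ _ _ _ (upd_agree A y y' h j c')]

/-- the revealment probabilities from `A`. -/
noncomputable def QE (m : (∀ i, X i) → ℝ) (nx : Finset I → (∀ i, X i) → Option I) (n : ℕ)
    (A : Finset I) (x : ∀ i, X i) (i : I) : ℝ :=
  ce m (fun z => ind (i ∈ rvE nx n A z ∧ i ∉ A)) A x

omit [∀ i, Nonempty (X i)] in
theorem QE_zero_of (m : (∀ i, X i) → ℝ) (nx : Finset I → (∀ i, X i) → Option I) (n : ℕ)
    (A : Finset I) (x : ∀ i, X i) (i : I)
    (h : ∀ z, (∀ i ∈ A, z i = x i) → rvE nx n A z = A) : QE m nx n A x i = 0 := by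
  unfold QE
  rw [ce_fun_congr m _ (fun _ => 0) A x]
  · unfold ce cs
    simp
  · intro z hz
    rw [h z hz]
    unfold ind
    rw [if_neg]
    tauto

omit [∀ i, Nonempty (X i)] in
theorem QE_step (m : (∀ i, X i) → ℝ) (hm : ∀ x, 0 < m x) (Ad : Finset I → Prop)
    (nx : Finset I → (∀ i, X i) → Option I) (hL : Legal Ad nx) (n : ℕ)
    (A : Finset I) (x : ∀ i, X i) (i j : I) (hj : nx A x = some j) :
    QE m nx (n + 1) A x i = ind (i = j) +
      ∑ c, cp m A x j c * QE m nx n (insert j A) (Function.update x j c) i := by
  have hjA := hL.new A x j hj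
  unfold QE
  rw [ce_step m (fun z => ind (i ∈ rvE nx n (insert j A) z ∧ i ∉ insert j A)) hm A x j hjA,
    add_comm (ind (i = j)), ← ce_add_const m _ hm]
  apply ce_fun_congr
  intro z hz
  have h1 : nx A z = some j := by rw [hL.loc A z x hz, hj]
  rw [rvE_some nx n A z j h1]
  unfold ind
  by_cases hij : i = j
  · subst hij
    have h2 : i ∈ rvE nx n (insert i A) z := rvE_sub nx n _ z (Finset.mem_insert_self i A)
    simp [h2, hjA]
  · simp [hij]

theorem os_revK (m f : (∀ i, X i) → ℝ) (hm : ∀ x, 0 < m x) (Ad : Finset I → Prop)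
    (nx : Finset I → (∀ i, X i) → Option I) (hL : Legal Ad nx) (c : I → ℝ)
    (hc : ∀ A i, Ad A → i ∉ A → Ad (insert i A) → ∑ x, m x * infl m f A x i ≤ c i)
    (n : ℕ) : ∀ (A : Finset I), Ad A → ∀ (x : ∀ i, X i),
    ∑ y, m y * kT m f nx n A x y ≤ ∑ i, QE m nx n A x i * c i := by
  induction n with
  | zero =>
    intro A hA x
    have e1 : ∑ y, m y * kT m f nx 0 A x y = 0 := by
      apply Finset.sum_eq_zero
      intro y _
      simp [kT]
    have e2 : ∑ i, QE m nx 0 A x i * c i = 0 := by
      apply Finset.sum_eq_zero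
      intro i _
      rw [QE_zero_of m nx 0 A x i (fun z _ => rfl), zero_mul]
    rw [e1, e2]
  | succ n ih =>
    intro A hA x
    cases hj : nx A x with
    | none =>
      have e1 : ∑ y, m y * kT m f nx (n + 1) A x y = 0 := by
        apply Finset.sum_eq_zero
        intro y _
        simp [kT, hj]
      have e2 : ∑ i, QE m nx (n + 1) A x i * c i = 0 := by
        apply Finset.sum_eq_zero
        intro i _
        rw [QE_zero_of m nx (n + 1) A x i, zero_mul]
        intro z hz
        exact rvE_none nx n A z (by rw [hL.loc A z x hz, hj])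
      rw [e1, e2]
    | some j =>
      have hjA := hL.new A x j hj
      have hAd := hL.adm A x j hA hj
      have e1 : ∑ y, m y * kT m f nx (n + 1) A x y = (∑ y, m y * infl m f A y j) +
          ∑ b, cp m A x j b * ∑ y, m y * kT m f nx n (insert j A) (Function.update x j b) y := by
        have e2 : ∀ y, m y * kT m f nx (n + 1) A x y = m y * infl m f A y j +
            ∑ b, cp m A x j b * (m y * ∑ b', cp m A y j b' *
              kT m f nx n (insert j A) (Function.update x j b) (Function.update y j b')) := by
          intro y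
          have e3 : kT m f nx (n + 1) A x y = infl m f A y j +
              ∑ c, ∑ c', cp m A x j c * cp m A y j c' *
              kT m f nx n (insert j A) (Function.update x j c) (Function.update y j c') := by
            rw [kT, hj]
          rw [e3, mul_add]
          congr 1
          rw [Finset.mul_sum]
          refine Finset.sum_congr rfl fun b _ => ?_
          rw [Finset.mul_sum, Finset.mul_sum, Finset.mul_sum]
          refine Finset.sum_congr rfl fun b' _ => ?_
          ring
        rw [Finset.sum_congr rfl fun y _ => e2 y, Finset.sum_add_distrib]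
        congr 1
        rw [Finset.sum_comm]
        refine Finset.sum_congr rfl fun b _ => ?_
        rw [← Finset.mul_sum]
        congr 1
        exact (cp_avg m (fun y => kT m f nx n (insert j A) (Function.update x j b) y) hm A j hjA
          (fun y y' h => kT_congr m f nx n _ _ y y' h)).symm
      rw [e1]
      have e4 : ∑ i, QE m nx (n + 1) A x i * c i = c j + ∑ b, cp m A x j b *
          ∑ i, QE m nx n (insert j A) (Function.update x j b) i * c i := by
        have e5 : ∀ i, QE m nx (n + 1) A x i * c i = ind (i = j) * c i + ∑ b, cp m A x j b *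
            (QE m nx n (insert j A) (Function.update x j b) i * c i) := by
          intro i
          rw [QE_step m hm Ad nx hL n A x i j hj, add_mul, Finset.sum_mul]
          congr 1
          refine Finset.sum_congr rfl fun b _ => ?_
          ring
        rw [Finset.sum_congr rfl fun i _ => e5 i, Finset.sum_add_distrib]
        congr 1
        · unfold ind
          simp
        · rw [Finset.sum_comm]
          refine Finset.sum_congr rfl fun b _ => ?_
          rw [← Finset.mul_sum]
      rw [e4]
      refine add_le_add (hc A j hA hjA hAd) ?_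
      refine Finset.sum_le_sum fun b _ => ?_
      exact mul_le_mul_of_nonneg_left (ih _ hAd _) (cp_nonneg m hm A x j b)

theorem os_rev (m f : (∀ i, X i) → ℝ) (hm : ∀ x, 0 < m x) (h1 : ∑ x, m x = 1) (Ad : Finset I → Prop)
    (nx : Finset I → (∀ i, X i) → Option I) (hL : Legal Ad nx) (c : I → ℝ)
    (hc : ∀ A i, Ad A → i ∉ A → Ad (insert i A) → ∑ x, m x * infl m f A x i ≤ c i)
    (n : ℕ) (x : ∀ i, X i) :
    ∑ y, m y * kT m f nx n ∅ x y ≤ ∑ i, (∑ z, m z * ind (i ∈ rev nx n z)) * c i := by
  refine (os_revK m f hm Ad nx hL c hc n ∅ hL.empty x).trans (le_of_eq ?_)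
  refine Finset.sum_congr rfl fun i _ => ?_
  congr 1
  unfold QE ce cs
  simp only [Finset.notMem_empty, false_implies, implies_true, if_true, not_false_iff, and_true, h1, div_one]
  refine Finset.sum_congr rfl fun z _ => ?_
  congr 2
  have := rvE_rev nx n 0 z
  rw [Nat.add_zero] at this
  exact congrArg (fun S => i ∈ S) this

end H82.BX
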