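import Pool.Agent.H82.BX.OSB
import Pool.Agent.H82.BX.OSC
import Pool.Agent.H82.BX.OSE

/-!
# OSS: the OSSS inequality for monotone systems

`N = |I|`.  `∑ m f² = ce m f² ∅ x = aT N ∅ x x` (`os_diag`) for every `x`.  The value `aT N ∅ x y` does not depend on `x, y`
(`Legal.loc`, `ce_congr` with the empty set: all recursions at `A = ∅` only use `x`, `y` through their values on the revealed set;
induction: `aT n A x y` depends on `x`, `y` only through their values on `A`).  So
`∑ m f² = ∑_y m y aT N ∅ x y ≤ ∑_y m y (ce ∅ x * ce ∅ y + kT N ∅ x y)` (`os_cost`), `ce m f ∅ x = ∑ m f`, and `os_rev`.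
-/

set_option autoImplicit false

open Finset MeasureTheory

namespace H82.BX

open H82.IC

variable {I : Type} [Fintype I] [DecidableEq I] {X : I → Type} [∀ i, Fintype (X i)]
  [∀ i, LinearOrder (X i)] [∀ i, Nonempty (X i)]

theorem oss_upd (A : Finset I) (y y' : ∀ i, X i) (h : ∀ i ∈ A, y i = y' i) (i : I) (c : X i) :
    ∀ j ∈ insert i A, Function.update y i c j = Function.update y' i c j := by
  intro j hj
  by_cases hji : j = i
  · subst hji
    rw [Function.update_self, Function.update_self]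
  · rw [Function.update_of_ne hji, Function.update_of_ne hji]
    exact h j ((Finset.mem_insert.1 hj).resolve_left hji)

theorem oss_cp (m : (∀ i, X i) → ℝ) (A : Finset I) (y y' : ∀ i, X i)
    (h : ∀ i ∈ A, y i = y' i) (i : I) : cp m A y i = cp m A y' i := by
  funext c
  unfold cp
  rw [cs_congr A y y' h m, cs_congr (insert i A) _ _ (oss_upd A y y' h i c) m]

theorem oss_aT (m f : (∀ i, X i) → ℝ) (nx : Finset I → (∀ i, X i) → Option I) (n : ℕ) :
    ∀ (A : Finset I) (x y y' : ∀ i, X i), (∀ i ∈ A, y i = y' i) →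
      aT m f nx n A x y = aT m f nx n A x y' := by
  induction n with
  | zero =>
    intro A x y y' h
    simp only [aT]
    rw [ce_congr m f A y y' h]
  | succ n ih =>
    intro A x y y' h
    simp only [aT]
    cases nx A x with
    | none =>
      dsimp only
      rw [ce_congr m f A y y' h]
    | some i =>
      dsimp only
      rw [oss_cp m A y y' h i]
      congr 1
      funext u
      exact ih _ _ _ _ (oss_upd A y y' h i _)

theorem oss_ce (m g : (∀ i, X i) → ℝ) (h1 : ∑ x, m x = 1) (x : ∀ i, X i) :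
    ce m g ∅ x = ∑ y, m y * g y := by
  unfold ce cs
  simp only [Finset.notMem_empty, false_imp_iff, implies_true, if_true]
  rw [h1, div_one]

theorem osss (m f : (∀ i, X i) → ℝ) (hm : ∀ x, 0 < m x) (h1 : ∑ x, m x = 1) (hf : Monotone f)
    (hf0 : ∀ x, 0 ≤ f x) (hf1 : ∀ x, f x ≤ 1) (Ad : Finset I → Prop)
    (nx : Finset I → (∀ i, X i) → Option I) (hL : Legal Ad nx) (hM : MonM m Ad)
    (hdet : ∀ A, Ad A → ∀ x : (∀ i, X i), nx A x = none →
      ∀ y, (∀ i ∈ A, y i = x i) → f y = f x)
    (c : I → ℝ) (hc : ∀ A i, Ad A → i ∉ A → Ad (insert i A) → ∑ x, m x * infl m f A x i ≤ c i) :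
    (∑ x, m x * f x ^ 2) - (∑ x, m x * f x) ^ 2 ≤
      ∑ i, (∑ z, m z * ind (i ∈ rev nx (Fintype.card I) z)) * c i := by
  obtain ⟨x⟩ : Nonempty (∀ i, X i) := inferInstance
  have hdiag : aT m f nx (Fintype.card I) ∅ x x = ∑ y, m y * f y ^ 2 := by
    rw [os_diag m f hm Ad nx hL hdet (Fintype.card I) ∅ hL.empty (Finset.card_le_univ _) x,
      oss_ce m _ h1 x]
  have hcost : ∀ y, m y * (∑ z, m z * f z ^ 2) ≤
      m y * ((∑ z, m z * f z) ^ 2) + m y * kT m f nx (Fintype.card I) ∅ x y := by
    intro y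
    rw [← mul_add]
    refine mul_le_mul_of_nonneg_left ?_ (hm y).le
    have h := os_cost m f hm hf hf0 hf1 Ad nx hL hM (Fintype.card I) ∅ hL.empty x y
    rw [oss_aT m f nx (Fintype.card I) ∅ x y x (fun i hi => absurd hi (Finset.notMem_empty i)),
      hdiag, oss_ce m f h1 x, oss_ce m f h1 y, ← sq] at h
    exact h
  have hsum := Finset.sum_le_sum fun y (_ : y ∈ (Finset.univ : Finset (∀ i, X i))) => hcost y
  rw [Finset.sum_add_distrib, ← Finset.sum_mul, ← Finset.sum_mul, h1, one_mul, one_mul] at hsum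
  have hrev := os_rev m f hm h1 Ad nx hL c hc (Fintype.card I) x
  linarith

end H82.BX
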