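import Pool.Agent.H82.BX.GI8
import Pool.Agent.H82.IC.KC

/-!
# TG1: geometry of the torus and translation invariance

* `td`: `(x i).valMinAbs.natAbs` is symmetric and subadditive (`ZMod.natAbs_valMinAbs_add_le`, `ZMod.natAbs_valMinAbs_neg`), `0` at `0`,
  at most `1` at `1`.  Along an edge of the torus `td (· - a)` changes by at most one.
* `sep_torus`: on a path from `0` to a vertex with `td ≥ n` every value `k ≤ n` of `td` is attained.
* `arm_le`: `td w = k` and `u ↔ w` imply `armT (|k - td u|) u` (`Nat.dist`).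
* `fT_tr`: the weight `W (TD L)` is invariant under the translation of `V` and of `E = V × Fin 2` (relabelling bijections commute with
  `s`, `r`, `LK`), so the probability of `armT n x` does not depend on `x`.
-/

set_option autoImplicit false

open Finset MeasureTheory

namespace H82.BX

open H82.IC

variable {L : ℕ} [NeZero L]

theorem deg4_TD : Deg4 (TD L) := by
  intro v
  have h1 : (univ.filter (fun e : (Fin 2 → ZMod L) × Fin 2 => (TD L).s e = v)).card ≤ 2 := by
    have : (univ.filter (fun e : (Fin 2 → ZMod L) × Fin 2 => (TD L).s e = v)) ⊆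
        (univ : Finset (Fin 2)).image (fun i => (v, i)) := by
      intro e he
      rw [mem_filter] at he
      rw [mem_image]
      refine ⟨e.2, mem_univ _, ?_⟩
      have h : e.1 = v := he.2
      rw [← h]
    refine (card_le_card this).trans (card_image_le.trans ?_)
    simp
  have h2 : (univ.filter (fun e : (Fin 2 → ZMod L) × Fin 2 => (TD L).r e = v)).card ≤ 2 := by
    have : (univ.filter (fun e : (Fin 2 → ZMod L) × Fin 2 => (TD L).r e = v)) ⊆
        (univ : Finset (Fin 2)).image (fun i => (v - Pi.single i 1, i)) := by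
      intro e he
      rw [mem_filter] at he
      rw [mem_image]
      refine ⟨e.2, mem_univ _, ?_⟩
      have h : e.1 + Pi.single e.2 1 = v := he.2
      rw [← h, add_sub_cancel_right]
    refine (card_le_card this).trans (card_image_le.trans ?_)
    simp
  omega

theorem td_zero : td (0 : Fin 2 → ZMod L) = 0 := by
  unfold td
  rw [← Nat.le_zero]
  refine Finset.sup_le (fun i _ => ?_)
  simp

theorem td_neg (x : Fin 2 → ZMod L) : td (-x) = td x := by
  unfold td
  refine Finset.sup_congr rfl (fun i _ => ?_)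
  rw [Pi.neg_apply, ZMod.natAbs_valMinAbs_neg]

theorem TG1_le (x : Fin 2 → ZMod L) (i : Fin 2) : (x i).valMinAbs.natAbs ≤ td x := by
  unfold td
  exact Finset.le_sup (f := fun i => (x i).valMinAbs.natAbs) (mem_univ i)

theorem td_add (x y : Fin 2 → ZMod L) : td (x + y) ≤ td x + td y := by
  conv_lhs => unfold td
  refine Finset.sup_le (fun i _ => ?_)
  rw [Pi.add_apply]
  refine (ZMod.natAbs_valMinAbs_add_le _ _).trans ((Int.natAbs_add_le _ _).trans ?_)
  exact Nat.add_le_add (TG1_le x i) (TG1_le y i)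

theorem td_sub_le (x y : Fin 2 → ZMod L) : td x - td y ≤ td (x - y) ∧ td y - td x ≤ td (x - y) := by
  have h1 : td x ≤ td (x - y) + td y := by
    have h := td_add (x - y) y
    rwa [sub_add_cancel] at h
  have h2 : td y ≤ td (x - y) + td x := by
    have h := td_add (y - x) x
    rw [sub_add_cancel] at h
    rwa [← td_neg (y - x), neg_sub] at h
  omega

theorem TG1_single (i : Fin 2) : td (Pi.single i 1 : Fin 2 → ZMod L) ≤ 1 := by
  unfold td
  refine Finset.sup_le (fun j _ => ?_)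
  rw [ZMod.valMinAbs_natAbs_eq_min]
  refine (min_le_left _ _).trans ?_
  by_cases h : j = i
  · subst h
    rw [Pi.single_eq_same, ZMod.val_one_eq_one_mod]
    exact Nat.mod_le 1 L
  · rw [Pi.single_eq_of_ne h, ZMod.val_zero]
    exact Nat.zero_le 1

theorem td_edge (a : Fin 2 → ZMod L) (e : (Fin 2 → ZMod L) × Fin 2) :
    td ((TD L).r e - a) ≤ td ((TD L).s e - a) + 1 ∧ td ((TD L).s e - a) ≤ td ((TD L).r e - a) + 1 := by
  have h := td_sub_le ((TD L).r e - a) ((TD L).s e - a)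
  have h1 : (TD L).r e - a - ((TD L).s e - a) = Pi.single e.2 1 := by
    show e.1 + Pi.single e.2 1 - a - (e.1 - a) = Pi.single e.2 1
    abel
  rw [h1] at h
  have h2 := TG1_single (L := L) e.2
  omega

theorem TG1_adj (ω : Set ((Fin 2 → ZMod L) × Fin 2)) (b c : Fin 2 → ZMod L)
    (h : (TD L).Adj ω b c) : td c ≤ td b + 1 := by
  obtain ⟨e, _, he⟩ := h
  have h1 := td_edge (0 : Fin 2 → ZMod L) e
  rw [sub_zero, sub_zero] at h1
  rcases he with ⟨h2, h3⟩ | ⟨h2, h3⟩
  · rw [h2, h3] at h1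
    exact h1.1
  · rw [h2, h3] at h1
    exact h1.2

theorem sep_torus (n k : ℕ) (hk : k ≤ n) (ω : Set ((Fin 2 → ZMod L) × Fin 2)) (u : Fin 2 → ZMod L)
    (hu : n ≤ td u) (h : (TD L).Conn ω 0 u) : ∃ s, td s = k ∧ (TD L).Conn ω 0 s := by
  have key : ∀ u : Fin 2 → ZMod L, (TD L).Conn ω 0 u → k ≤ td u →
      ∃ s, td s = k ∧ (TD L).Conn ω 0 s := by
    intro u hu
    unfold Gr.Conn at hu
    induction hu with
    | refl =>
      intro hk0
      rw [td_zero] at hk0
      refine ⟨0, ?_, Relation.ReflTransGen.refl⟩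
      rw [td_zero]
      omega
    | @tail b c hb hbc ih =>
      intro hkc
      by_cases hkb : k ≤ td b
      · exact ih hkb
      · have h1 := TG1_adj ω b c hbc
        exact ⟨c, by omega, Relation.ReflTransGen.tail hb hbc⟩
  exact key u h (hk.trans hu)

theorem arm_le (k : ℕ) (o : (Fin 2 → ZMod L) × Fin 2 → Bool) (u w : Fin 2 → ZMod L) (hw : td w = k)
    (h : (TD L).Conn (op1 o) u w) : armT (Nat.dist k (td u)) u o := by
  refine ⟨w, ?_, h⟩
  have h1 := td_sub_le w u
  rw [hw] at h1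
  unfold Nat.dist
  omega

/-! ### automorphisms -/

section aut
variable {V E : Type} [Fintype V] [DecidableEq V] [Fintype E] [DecidableEq E]

/-- the automorphism on the vertices of the chain graph. -/
def TG1_S (p : V ≃ V) (q : E ≃ E) : SV V E ≃ SV V E :=
  Equiv.sumCongr p (Equiv.prodCongr q (Equiv.refl Bool))

theorem TG1_LKs (G : Gr V E) (p : V ≃ V) (q : E ≃ E) (hs : ∀ e, G.s (q e) = p (G.s e))
    (e : E) (j : Fin 3) : TG1_S p q ((LK G).s (e, j)) = (LK G).s (q e, j) := by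
  fin_cases j
  · show Sum.inl (p (G.s e)) = Sum.inl (G.s (q e))
    rw [hs]
  · rfl
  · rfl

theorem TG1_LKr (G : Gr V E) (p : V ≃ V) (q : E ≃ E) (hr : ∀ e, G.r (q e) = p (G.r e))
    (e : E) (j : Fin 3) : TG1_S p q ((LK G).r (e, j)) = (LK G).r (q e, j) := by
  fin_cases j
  · rfl
  · rfl
  · show Sum.inl (p (G.r e)) = Sum.inl (G.r (q e))
    rw [hr]

theorem TG1_pn (p : V ≃ V) (q : E ≃ E) (w : SV V E) : pn (TG1_S p q w) = pn w := by
  rcases w with v | ⟨e, b⟩
  · rfl
  · cases b <;> rfl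

theorem TG1_wv (M : Al) (l : ℝ) (p : V ≃ V) (q : E ≃ E) (c : SV V E → Fin (M.k + 1)) :
    wv M l (fun w => c (TG1_S p q w)) = wv M l c := by
  unfold wv
  rw [← Equiv.prod_comp (TG1_S p q) (fun w => M.nu (c w) * Real.exp (l * pn w * M.cc (c w) ^ 2))]
  refine Finset.prod_congr rfl (fun w _ => ?_)
  rw [TG1_pn]

theorem TG1_la (G : Gr V E) (p : V ≃ V) (q : E ≃ E) (hs : ∀ e, G.s (q e) = p (G.s e))
    (hr : ∀ e, G.r (q e) = p (G.r e)) (M : Al) (b : ℝ) (c : SV V E → Fin (M.k + 1)) (e : E) (j : Fin 3) :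
    la G M b (fun w => c (TG1_S p q w)) (e, j) = la G M b c (q e, j) := by
  show b * (M.cc (c (TG1_S p q ((LK G).s (e, j)))) * M.cc (c (TG1_S p q ((LK G).r (e, j))))) = _
  rw [TG1_LKs G p q hs, TG1_LKr G p q hr]
  rfl

theorem TG1_lb (G : Gr V E) (p : V ≃ V) (q : E ≃ E) (hs : ∀ e, G.s (q e) = p (G.s e))
    (hr : ∀ e, G.r (q e) = p (G.r e)) (M : Al) (b : ℝ) (c : SV V E → Fin (M.k + 1)) (e : E) (j : Fin 3) :
    lb G M b (fun w => c (TG1_S p q w)) (e, j) = lb G M b c (q e, j) := by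
  show b * (M.ss (c (TG1_S p q ((LK G).s (e, j)))) * M.ss (c (TG1_S p q ((LK G).r (e, j))))) = _
  rw [TG1_LKs G p q hs, TG1_LKr G p q hr]
  rfl

theorem TG1_rr (G : Gr V E) (p : V ≃ V) (q : E ≃ E) (hs : ∀ e, G.s (q e) = p (G.s e))
    (hr : ∀ e, G.r (q e) = p (G.r e)) (M : Al) (b : ℝ) (c : SV V E → Fin (M.k + 1)) (e : E) :
    rr G M b (fun w => c (TG1_S p q w)) e = rr G M b c (q e) := by
  unfold rr
  refine Finset.prod_congr rfl (fun j _ => ?_)
  rw [TG1_la G p q hs hr]

theorem TG1_tt (G : Gr V E) (p : V ≃ V) (q : E ≃ E) (hs : ∀ e, G.s (q e) = p (G.s e))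
    (hr : ∀ e, G.r (q e) = p (G.r e)) (M : Al) (b : ℝ) (c : SV V E → Fin (M.k + 1)) (e : E) :
    tt G M b (fun w => c (TG1_S p q w)) e = tt G M b c (q e) := by
  unfold tt
  refine Finset.prod_congr rfl (fun j _ => ?_)
  rw [TG1_lb G p q hs hr]

theorem TG1_AA (G : Gr V E) (p : V ≃ V) (q : E ≃ E) (hs : ∀ e, G.s (q e) = p (G.s e))
    (hr : ∀ e, G.r (q e) = p (G.r e)) (M : Al) (b : ℝ) (c : SV V E → Fin (M.k + 1)) (e : E) :
    AA G M b (fun w => c (TG1_S p q w)) e = AA G M b c (q e) := by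
  unfold AA
  refine Finset.prod_congr rfl (fun j _ => ?_)
  rw [TG1_la G p q hs hr, TG1_lb G p q hs hr]

theorem TG1_Zv (G : Gr V E) (p : V ≃ V) (q : E ≃ E) (hs : ∀ e, G.s (q e) = p (G.s e))
    (hr : ∀ e, G.r (q e) = p (G.r e)) (t : E → ℝ) :
    Zv G (fun e => t (q e)) = Zv G t := by
  unfold Zv Zs
  rw [← Equiv.sum_comp (Equiv.arrowCongr p (Equiv.refl Bool))
    (fun σ : V → Bool => ∏ e, ((1 : ℝ) + t e * (sg (σ (G.s e)) * sg (σ (G.r e)))))]
  refine Finset.sum_congr rfl (fun σ _ => ?_)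
  refine Fintype.prod_equiv q _ _ (fun e => ?_)
  have h1 : (Equiv.arrowCongr p (Equiv.refl Bool)) σ (G.s (q e)) = σ (G.s e) := by
    rw [hs]
    show σ (p.symm (p (G.s e))) = σ (G.s e)
    rw [Equiv.symm_apply_apply]
  have h2 : (Equiv.arrowCongr p (Equiv.refl Bool)) σ (G.r (q e)) = σ (G.r e) := by
    rw [hr]
    show σ (p.symm (p (G.r e))) = σ (G.r e)
    rw [Equiv.symm_apply_apply]
  show (1 : ℝ) + t (q e) * (sg (σ (G.s e)) * sg (σ (G.r e))) = 1 + t (q e) * _
  rw [h1, h2]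

theorem TG1_W (G : Gr V E) (p : V ≃ V) (q : E ≃ E) (hs : ∀ e, G.s (q e) = p (G.s e))
    (hr : ∀ e, G.r (q e) = p (G.r e)) (M : Al) (b l : ℝ) (c : SV V E → Fin (M.k + 1)) (o : E → Bool) :
    W G M b l (fun w => c (TG1_S p q w)) (fun e => o (q e)) = W G M b l c o := by
  unfold W
  have h1 : (∏ e, AA G M b (fun w => c (TG1_S p q w)) e * (if o (q e) then
      rr G M b (fun w => c (TG1_S p q w)) e else 1 - rr G M b (fun w => c (TG1_S p q w)) e)) =
      ∏ e, AA G M b c e * (if o e then rr G M b c e else 1 - rr G M b c e) := by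
    rw [← Equiv.prod_comp q (fun e => AA G M b c e * (if o e then rr G M b c e else 1 - rr G M b c e))]
    refine Finset.prod_congr rfl (fun e _ => ?_)
    rw [TG1_AA G p q hs hr, TG1_rr G p q hs hr]
  have h2 : Zv G (bt (fun e => o (q e))) = Zv G (bt o) := by
    rw [← TG1_Zv G p q hs hr (bt o)]
    rfl
  have h3 : Zv G (tt G M b (fun w => c (TG1_S p q w))) = Zv G (tt G M b c) := by
    rw [← TG1_Zv G p q hs hr (tt G M b c)]
    congr 1
    funext e
    exact TG1_tt G p q hs hr M b c e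
  rw [h1, h2, h3, TG1_wv]

theorem TG1_sum (G : Gr V E) (p : V ≃ V) (q : E ≃ E) (hs : ∀ e, G.s (q e) = p (G.s e))
    (hr : ∀ e, G.r (q e) = p (G.r e)) (M : Al) (b l : ℝ) (f : (E → Bool) → ℝ) :
    ∑ c, ∑ o, W G M b l c o * f (fun e => o (q e)) = ∑ c, ∑ o, W G M b l c o * f o := by
  rw [← Equiv.sum_comp (Equiv.arrowCongr (TG1_S p q).symm (Equiv.refl (Fin (M.k + 1))))
    (fun c => ∑ o, W G M b l c o * f o)]
  refine Finset.sum_congr rfl (fun c _ => ?_)
  rw [← Equiv.sum_comp (Equiv.arrowCongr q.symm (Equiv.refl Bool))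
    (fun o => W G M b l (Equiv.arrowCongr (TG1_S p q).symm (Equiv.refl (Fin (M.k + 1))) c) o * f o)]
  refine Finset.sum_congr rfl (fun o _ => ?_)
  have h1 : Equiv.arrowCongr (TG1_S p q).symm (Equiv.refl (Fin (M.k + 1))) c =
      (fun w => c (TG1_S p q w)) := rfl
  have h2 : Equiv.arrowCongr q.symm (Equiv.refl Bool) o = (fun e => o (q e)) := rfl
  rw [h1, h2, TG1_W G p q hs hr]

end aut

/-- translation invariance of the chain model on the torus (functions of the bits). -/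
theorem EW_tr (M : Al) (b l : ℝ) (a : Fin 2 → ZMod L) (f : ((Fin 2 → ZMod L) × Fin 2 → Bool) → ℝ) :
    EW (TD L) M b l (fun _ o => f (fun e => o (e.1 + a, e.2))) = EW (TD L) M b l (fun _ o => f o) := by
  unfold EW
  have h := TG1_sum (TD L) (Equiv.addRight a)
    (Equiv.prodCongr (Equiv.addRight a) (Equiv.refl (Fin 2))) (fun e => rfl)
    (fun e => by
      show e.1 + a + Pi.single e.2 1 = e.1 + Pi.single e.2 1 + a
      abel) M b l f
  have h2 : (∑ c, ∑ o, W (TD L) M b l c o * f (fun e => o (e.1 + a, e.2))) =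
      ∑ c, ∑ o, W (TD L) M b l c o * f o := h
  rw [h2]

theorem TG1_conn (a : Fin 2 → ZMod L) (o : (Fin 2 → ZMod L) × Fin 2 → Bool) (v u : Fin 2 → ZMod L)
    (h : (TD L).Conn (op1 (fun e => o (e.1 + a, e.2))) v u) : (TD L).Conn (op1 o) (v + a) (u + a) := by
  unfold Gr.Conn at h ⊢
  refine Relation.ReflTransGen.lift (p := (TD L).Adj (op1 o)) (fun x => x + a) ?_ v u h
  rintro x y ⟨e, he, hxy⟩
  refine ⟨(e.1 + a, e.2), he, ?_⟩
  rcases hxy with ⟨h1, h2⟩ | ⟨h1, h2⟩
  · left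
    rw [← h1, ← h2]
    refine ⟨rfl, ?_⟩
    show e.1 + a + Pi.single e.2 1 = e.1 + Pi.single e.2 1 + a
    abel
  · right
    rw [← h1, ← h2]
    refine ⟨rfl, ?_⟩
    show e.1 + a + Pi.single e.2 1 = e.1 + Pi.single e.2 1 + a
    abel

theorem TG1_arm (n : ℕ) (x : Fin 2 → ZMod L) (o : (Fin 2 → ZMod L) × Fin 2 → Bool) :
    armT n 0 (fun e => o (e.1 + x, e.2)) ↔ armT n x o := by
  constructor
  · rintro ⟨u, hu, hc⟩
    refine ⟨u + x, ?_, ?_⟩
    · rw [add_sub_cancel_right]
      rwa [sub_zero] at hu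
    · have h := TG1_conn x o 0 u hc
      rwa [zero_add] at h
  · rintro ⟨u, hu, hc⟩
    refine ⟨u - x, ?_, ?_⟩
    · rwa [sub_zero]
    · have h : (TD L).Conn (op1 (fun e => (fun e' : (Fin 2 → ZMod L) × Fin 2 => o (e'.1 + x, e'.2))
          (e.1 + -x, e.2))) x u := by
        have h1 : (fun e : (Fin 2 → ZMod L) × Fin 2 =>
            (fun e' : (Fin 2 → ZMod L) × Fin 2 => o (e'.1 + x, e'.2)) (e.1 + -x, e.2)) = o := by
          funext e
          show o (e.1 + -x + x, e.2) = o e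
          rw [neg_add_cancel_right]
        rw [h1]
        exact hc
      have h2 := TG1_conn (-x) (fun e => o (e.1 + x, e.2)) x u h
      rw [← sub_eq_add_neg, ← sub_eq_add_neg, sub_self] at h2
      exact h2

theorem fT_tr (M : Al) (b l : ℝ) (n : ℕ) (x : Fin 2 → ZMod L) :
    EW (TD L) M b l (fun _ o => ind (armT n x o)) = fT L M b n l := by
  unfold fT
  rw [← EW_tr M b l x (fun o => ind (armT n 0 o))]
  congr 1
  funext _ o
  show ind (armT n x o) = ind (armT n 0 (fun e => o (e.1 + x, e.2)))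
  rw [propext (TG1_arm n x o)]

end H82.BX
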