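import Pool.Agent.H82.BX.INF
import Pool.Agent.H82.BX.OSS
import Pool.Agent.H82.BX.EX1
import Pool.Agent.H82.BX.TG1
import Pool.Agent.H82.BX.DER
import Pool.Agent.H82.BX.DRA
import Pool.Agent.H82.IC.CN

/-!
# DIF: the differential inequality on the torus

`f(x) = ind (armT n 0 (po x))` (increasing, in `{0,1}`), `1 ≤ n`, `1 ≤ k ≤ n`, seeds `Sd_k = {u | td u = k}`.  `osss` with `m = mW`, `Ad = Adm`, `nx = nxS Sd_k`
(`nx_legal`, `mW_mon`, `det_conn` with `sep_torus`), `c i = K cv (pin i)` (`infl_bound`):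
`f_n - f_n² ≤ K ∑_i δ_i^k cv(pin i)`, `δ_i^k ≤ ∑_u P(u ↔ Sd_k)`, the sum over the at most `5` vertices `u` which are ends of an edge `e` with `toE i e`
(`rev_touch`; for `i = inl (inl v)`: `v` and its four neighbours; otherwise the two ends of `e`), and
`P(u ↔ Sd_k) ≤ P(armT |k - td u| u) = f_{|k - td u|}` (`arm_le`, `fT_tr`).
`∑_{k=1}^n f_{|k-d|} ≤ 2 S_n` (`f` is nonincreasing in the index: for `1 ≤ d ≤ n` each value `j = |k-d| ≤ n-1` is taken at most twice; for `d = 0`: `∑_{k=1}^n f_k ≤ S_n`; for `d > n`: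
`f_{d-k} ≤ f_{n-k}`).  Sum over `k`: `n (f_n - f_n²) ≤ 10 K S_n ∑_i cv(pin i) ≤ 30 K S_n ∑_w pn w cv(w) = 30 K S_n f_n'` (`EW_deriv`; `pin` takes each `inl v` once and each
`z_e` three times).  `1 - f_n ≥ 1 - f_1 ≥ ((1 - tanh b)/4)^4` (`cls`: if all edges at `0` are closed there is no arm of length `≥ 1`).
For `n = 0` the inequality `ineq` is trivial (`S_0 = 0`, `n = 0`).  The other fields of `DR`: `f_0 = 1` (`u = 0`), monotone in `n`, monotone in `l` (nonnegative derivative: `cv_nonneg`).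
-/

set_option autoImplicit false

open Finset MeasureTheory

namespace H82.BX

open H82.IC

private theorem ind_t {p : Prop} (h : p) : ind p = 1 := by unfold ind; rw [if_pos h]
private theorem ind_f {p : Prop} (h : ¬ p) : ind p = 0 := by unfold ind; rw [if_neg h]
private theorem ind_nn (p : Prop) : 0 ≤ ind p := by unfold ind; split_ifs <;> norm_num
private theorem ind_l1 (p : Prop) : ind p ≤ 1 := by unfold ind; split_ifs <;> norm_num
private theorem ind_mo {p q : Prop} (h : p → q) : ind p ≤ ind q := by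
  by_cases hp : p
  · rw [ind_t hp, ind_t (h hp)]
  · rw [ind_f hp]; exact ind_nn q
private theorem ind_sq (p : Prop) : ind p ^ 2 = ind p := by
  by_cases hp : p
  · rw [ind_t hp]; norm_num
  · rw [ind_f hp]; norm_num

/-- sum along an injection into `range n`. -/
private theorem sum_inj_le (n : ℕ) (S : Finset ℕ) (φ : ℕ → ℕ) (F : ℕ → ℝ) (hF : ∀ j, 0 ≤ F j)
    (hinj : ∀ x ∈ S, ∀ y ∈ S, φ x = φ y → x = y) (hr : ∀ x ∈ S, φ x < n) :
    ∑ k ∈ S, F (φ k) ≤ ∑ j ∈ range n, F j := by
  classical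
  rw [← Finset.sum_image (g := φ) (f := F) (by
    intro x hx y hy hxy; exact hinj x hx y hy hxy)]
  refine Finset.sum_le_sum_of_subset_of_nonneg ?_ (fun j _ _ => hF j)
  intro j hj
  obtain ⟨x, hx, rfl⟩ := Finset.mem_image.1 hj
  exact Finset.mem_range.2 (hr x hx)

/-- sums over the distances. -/
private theorem dist_sum (n d : ℕ) (F : ℕ → ℝ) (hF : ∀ j, 0 ≤ F j) (hA : Antitone F) :
    ∑ k ∈ Icc 1 n, F (Nat.dist k d) ≤ 2 * ∑ j ∈ range n, F j := by
  classical
  rw [← Finset.sum_filter_add_sum_filter_not (Icc 1 n) (fun k => k ≤ d)]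
  have h1 : ∑ k ∈ (Icc 1 n).filter (fun k => k ≤ d), F (Nat.dist k d) ≤ ∑ j ∈ range n, F j := by
    refine (Finset.sum_le_sum (g := fun k => F (min d n - k)) fun k hk => ?_).trans
      (sum_inj_le n _ (fun k => min d n - k) F hF ?_ ?_)
    · have hk' := Finset.mem_filter.1 hk
      refine hA ?_
      rw [Nat.dist_eq_sub_of_le hk'.2]
      have := min_le_left d n
      omega
    · intro x hx y hy hxy
      rw [Finset.mem_filter, Finset.mem_Icc] at hx hy
      have hx2 : x ≤ min d n := le_min hx.2 hx.1.2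
      have hy2 : y ≤ min d n := le_min hy.2 hy.1.2
      omega
    · intro x hx
      rw [Finset.mem_filter, Finset.mem_Icc] at hx
      have := min_le_right d n
      show min d n - x < n
      omega
  have h2 : ∑ k ∈ (Icc 1 n).filter (fun k => ¬ k ≤ d), F (Nat.dist k d) ≤ ∑ j ∈ range n, F j := by
    refine (Finset.sum_le_sum (g := fun k => F (k - d - 1)) fun k hk => ?_).trans
      (sum_inj_le n _ (fun k => k - d - 1) F hF ?_ ?_)
    · have hk' := Finset.mem_filter.1 hk
      refine hA ?_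
      rw [Nat.dist_eq_sub_of_le_right (by omega)]
      omega
    · intro x hx y hy hxy
      rw [Finset.mem_filter, Finset.mem_Icc] at hx hy
      omega
    · intro x hx
      rw [Finset.mem_filter, Finset.mem_Icc] at hx
      show x - d - 1 < n
      omega
  linarith

section gen
variable {V E : Type} [Fintype V] [DecidableEq V] [Fintype E] [DecidableEq E]

private theorem Zpos (G : Gr V E) (M : Al) (hM : M.Ok) (b l : ℝ) (hb : 0 < b) :
    0 < ∑ c, ∑ o, W G M b l c o := by
  have h1 := mW_sum G M hM b l hb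
  by_contra hcon
  push Not at hcon
  have hx : ∀ x : (∀ i, XI M.k V E i), 0 < mW G M b l x := mW_pos G M hM b l hb
  obtain ⟨x⟩ : Nonempty (∀ i, XI M.k V E i) := inferInstance
  have h2 := hx x
  unfold mW at h2
  have hW := W_pos G M hM b l hb (pc x) (po x)
  have h3 : W G M b l (pc x) (po x) / ∑ c, ∑ o, W G M b l c o ≤ 0 :=
    div_nonpos_of_nonneg_of_nonpos hW.le hcon
  linarith

private theorem EW_eq (G : Gr V E) (M : Al) (hM : M.Ok) (b l : ℝ) (hb : 0 < b)
    (f : (E → Bool) → ℝ) : EW G M b l (fun _ o => f o) = ∑ x, mW G M b l x * f (po x) :=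
  (mW_EW G M hM b l hb (fun _ o => f o)).symm

private theorem EW_mo (G : Gr V E) (M : Al) (hM : M.Ok) (b l : ℝ) (hb : 0 < b)
    (f g : (E → Bool) → ℝ) (h : ∀ o, f o ≤ g o) :
    EW G M b l (fun _ o => f o) ≤ EW G M b l (fun _ o => g o) := by
  rw [EW_eq G M hM b l hb, EW_eq G M hM b l hb]
  exact Finset.sum_le_sum fun x _ => mul_le_mul_of_nonneg_left (h _) (mW_pos G M hM b l hb x).le

private theorem EW_c1 (G : Gr V E) (M : Al) (hM : M.Ok) (b l : ℝ) (hb : 0 < b) :
    EW G M b l (fun _ _ => 1) = 1 := by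
  have := EW_eq G M hM b l hb (fun _ => 1)
  simp only [mul_one] at this
  rw [this]
  exact mW_sum G M hM b l hb

private theorem EW_sub (G : Gr V E) (M : Al) (hM : M.Ok) (b l : ℝ) (hb : 0 < b)
    (f : (E → Bool) → ℝ) :
    EW G M b l (fun _ o => 1 - f o) = 1 - EW G M b l (fun _ o => f o) := by
  rw [EW_eq G M hM b l hb (fun o => 1 - f o), EW_eq G M hM b l hb f]
  simp only [mul_sub, mul_one, Finset.sum_sub_distrib]
  rw [mW_sum G M hM b l hb]

/-- number of edges of a coordinate. -/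
private theorem card_toE (G : Gr V E) (hG : Deg4 G) (D : SV V E → ℝ) (hD : ∀ w, 0 ≤ D w) :
    ∑ i : SV V E ⊕ E, (open Classical in ((univ.filter (fun e => toE G i e)).card : ℝ)) * D (pin i) ≤
      4 * ∑ w, pn w * D w := by
  classical
  rw [Fintype.sum_sum_type, Fintype.sum_sum_type]
  have hw : ∑ w : SV V E, pn w * D w = ∑ v, D (Sum.inl v) + ∑ e, D (Sum.inr (e, false)) := by
    rw [Fintype.sum_sum_type, Fintype.sum_prod_type]
    congr 1
    · exact Finset.sum_congr rfl fun v _ => by simp [pn]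
    · refine Finset.sum_congr rfl fun e _ => ?_
      simp [pn]
  rw [hw]
  have h1 : ∑ v : V, ((univ.filter (fun e => toE G (Sum.inl (Sum.inl v)) e)).card : ℝ) *
      D (pin (Sum.inl (Sum.inl v) : SV V E ⊕ E)) ≤ 4 * ∑ v, D (Sum.inl v) := by
    rw [Finset.mul_sum]
    refine Finset.sum_le_sum fun v _ => ?_
    refine mul_le_mul_of_nonneg_right ?_ (hD _)
    have hsub : univ.filter (fun e => toE G (Sum.inl (Sum.inl v)) e) ⊆
        univ.filter (fun e => G.s e = v) ∪ univ.filter (fun e => G.r e = v) := by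
      intro e he
      rw [Finset.mem_filter] at he
      rcases he.2 with h | h | h | h | h
      · exact Finset.mem_union_left _ (Finset.mem_filter.2 ⟨mem_univ _, by simpa using h.symm⟩)
      · exact Finset.mem_union_right _ (Finset.mem_filter.2 ⟨mem_univ _, by simpa using h.symm⟩)
      · simp at h
      · simp at h
      · simp at h
    have hc := (Finset.card_le_card hsub).trans (Finset.card_union_le _ _)
    have := hc.trans (hG v)
    exact_mod_cast this
  have hone : ∀ (i : SV V E ⊕ E) (e0 : E), (∀ e, toE G i e → e = e0) →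
      ((univ.filter (fun e => toE G i e)).card : ℝ) ≤ 1 := by
    intro i e0 h
    have hsub : univ.filter (fun e => toE G i e) ⊆ {e0} := by
      intro e he
      rw [Finset.mem_singleton]
      exact h e (Finset.mem_filter.1 he).2
    have := Finset.card_le_card hsub
    rw [Finset.card_singleton] at this
    exact_mod_cast this
  have h2 : ∑ q : E × Bool, ((univ.filter (fun e => toE G (Sum.inl (Sum.inr q)) e)).card : ℝ) *
      D (pin (Sum.inl (Sum.inr q) : SV V E ⊕ E)) ≤ 2 * ∑ e, D (Sum.inr (e, false)) := by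
    rw [Fintype.sum_prod_type, Finset.mul_sum]
    refine Finset.sum_le_sum fun e _ => ?_
    have hb : ∀ β : Bool, ((univ.filter (fun e' => toE G (Sum.inl (Sum.inr (e, β))) e')).card : ℝ) *
      D (pin (Sum.inl (Sum.inr (e, β)) : SV V E ⊕ E)) ≤ 1 * D (Sum.inr (e, false)) := by
      intro β
      refine mul_le_mul_of_nonneg_right (hone _ e ?_) (hD _)
      intro e' he'
      rcases he' with h | h | h | h | h
      · simp at h
      · simp at h
      · simp at h; exact h.1.symm
      · simp at h; exact h.1.symm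
      · simp at h
    rw [Fintype.sum_bool]
    have := hb true
    have := hb false
    linarith
  have h3 : ∑ e : E, ((univ.filter (fun e' => toE G (Sum.inr e) e')).card : ℝ) *
      D (pin (Sum.inr e : SV V E ⊕ E)) ≤ 1 * ∑ e, D (Sum.inr (e, false)) := by
    rw [Finset.mul_sum]
    refine Finset.sum_le_sum fun e _ => ?_
    refine mul_le_mul_of_nonneg_right (hone _ e ?_) (hD _)
    intro e' he'
    rcases he' with h | h | h | h | h
    · simp at h
    · simp at h
    · simp at h
    · simp at h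
    · simp at h; exact h.symm
  have h4 : 0 ≤ ∑ e : E, D (Sum.inr (e, false)) := Finset.sum_nonneg fun e _ => hD _
  linarith

private theorem rev_gen (G : Gr V E) (M : Al) (hM : M.Ok) (b l : ℝ) (hb : 0 < b) (Sd : Finset V)
    (p q : E → (E → Bool) → Prop)
    (hp : ∀ (o : E → Bool) (e : E) (s : V), s ∈ Sd → G.Conn (op1 o) s (G.s e) → p e o)
    (hq : ∀ (o : E → Bool) (e : E) (s : V), s ∈ Sd → G.Conn (op1 o) s (G.r e) → q e o)
    (N : ℕ) (i : SV V E ⊕ E) :
    ∑ z, mW G M b l z * ind (i ∈ rev (nxS G Sd) N z) ≤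
    ∑ e ∈ (open Classical in univ.filter (fun e => toE G i e)),
      (EW G M b l (fun _ o => ind (p e o)) + EW G M b l (fun _ o => ind (q e o))) := by
  classical
  have hR : ∑ e ∈ univ.filter (fun e => toE G i e),
      (EW G M b l (fun _ o => ind (p e o)) + EW G M b l (fun _ o => ind (q e o))) =
      ∑ z, mW G M b l z * ∑ e ∈ univ.filter (fun e => toE G i e),
        (ind (p e (po z)) + ind (q e (po z))) := by
    simp only [Finset.mul_sum]
    rw [Finset.sum_comm]
    refine Finset.sum_congr rfl fun e _ => ?_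
    rw [EW_eq G M hM b l hb (fun o => ind (p e o)), EW_eq G M hM b l hb (fun o => ind (q e o)),
      ← Finset.sum_add_distrib]
    exact Finset.sum_congr rfl fun z _ => by ring
  rw [hR]
  refine Finset.sum_le_sum fun z _ => mul_le_mul_of_nonneg_left ?_ (mW_pos G M hM b l hb z).le
  have hnn : ∀ e, 0 ≤ ind (p e (po z)) + ind (q e (po z)) :=
    fun e => add_nonneg (ind_nn _) (ind_nn _)
  by_cases hi : i ∈ rev (nxS G Sd) N z
  · rw [ind_t hi]
    obtain ⟨e, he, s, hs, hse⟩ := rev_touch G Sd N z i hi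
    refine le_trans ?_ (Finset.single_le_sum (f := fun e => ind (p e (po z)) + ind (q e (po z)))
      (fun e _ => hnn e) (Finset.mem_filter.2 ⟨mem_univ e, he⟩))
    rcases hse with h | h
    · rw [ind_t (hp (po z) e s hs h)]
      have := ind_nn (q e (po z))
      linarith
    · rw [ind_t (hq (po z) e s hs h)]
      have := ind_nn (p e (po z))
      linarith
  · rw [ind_f hi]
    exact Finset.sum_nonneg fun e _ => hnn e

private theorem one_gen (b Λ K : ℝ) (hb : 0 < b) (hK : 0 < K)
    (hinf : ∀ (V E : Type) [Fintype V] [DecidableEq V] [Fintype E] [DecidableEq E] (G : Gr V E),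
      Deg4 G → ∀ (M : Al), M.Ok → ∀ l : ℝ, 0 ≤ l → l ≤ Λ → ∀ (f : (E → Bool) → ℝ), Monotone f →
      (∀ o, 0 ≤ f o) → (∀ o, f o ≤ 1) → ∀ (S : Finset (SV V E ⊕ E)) (i : SV V E ⊕ E), Adm G S →
      i ∉ S → Adm G (insert i S) →
      ∑ x, mW G M b l x * infl (mW G M b l) (fun y => f (po y)) S x i ≤
        K * cv G M b l (fun y => f (po y)) (pin i))
    (G : Gr V E) (hG : Deg4 G) (M : Al) (hM : M.Ok) (l : ℝ) (hl0 : 0 ≤ l) (hl : l ≤ Λ)
    (P : (E → Bool) → Prop) (hP : ∀ o o', o ≤ o' → P o → P o') (Sd : Finset V)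
    (hdet : ∀ (S : Finset (SV V E ⊕ E)) (x y : ∀ i, XI M.k V E i), nxS G Sd S x = none →
      (∀ i ∈ S, y i = x i) → (P (po y) ↔ P (po x)))
    (p q : E → (E → Bool) → Prop)
    (hp : ∀ (o : E → Bool) (e : E) (s : V), s ∈ Sd → G.Conn (op1 o) s (G.s e) → p e o)
    (hq : ∀ (o : E → Bool) (e : E) (s : V), s ∈ Sd → G.Conn (op1 o) s (G.r e) → q e o) :
    EW G M b l (fun _ o => ind (P o)) - (EW G M b l (fun _ o => ind (P o))) ^ 2 ≤
      ∑ i : SV V E ⊕ E, (∑ e ∈ (open Classical in univ.filter (fun e => toE G i e)),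
      (EW G M b l (fun _ o => ind (p e o)) + EW G M b l (fun _ o => ind (q e o)))) *
        (K * cv G M b l (fun y => ind (P (po y))) (pin i)) := by
  classical
  have hfm : Monotone (fun x : (∀ i, XI M.k V E i) => ind (P (po x))) :=
    fun x y h => ind_mo (hP _ _ fun e => h (Sum.inr e))
  have hcv : ∀ w, 0 ≤ cv G M b l (fun y => ind (P (po y))) w :=
    cv_nonneg G M hM b l hb _ hfm
  have hos := osss (mW G M b l) (fun y => ind (P (po y))) (mW_pos G M hM b l hb)
    (mW_sum G M hM b l hb) hfm (fun y => ind_nn _) (fun y => ind_l1 _)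
    (Adm G) (nxS G Sd) (nx_legal G _) (mW_mon G M hM b l hb)
    (by
      intro A _ x hx y hy
      show ind (P (po y)) = ind (P (po x))
      rw [propext (hdet A x y hx hy)])
    (fun i => K * cv G M b l (fun y => ind (P (po y))) (pin i))
    (by
      intro A i hA hi hiA
      exact hinf V E G hG M hM l hl0 hl (fun o => ind (P o)) (fun o o' h => ind_mo (hP o o' h))
        (fun o => ind_nn _) (fun o => ind_l1 _) A i hA hi hiA)
  have e1 : ∑ x, mW G M b l x * ind (P (po x)) = EW G M b l (fun _ o => ind (P o)) :=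
    (EW_eq G M hM b l hb (fun o => ind (P o))).symm
  simp only [ind_sq] at hos
  rw [e1] at hos
  refine hos.trans (Finset.sum_le_sum fun i _ => ?_)
  exact mul_le_mul_of_nonneg_right (rev_gen G M hM b l hb Sd p q hp hq _ i)
    (mul_nonneg hK.le (hcv _))

end gen

section tor
variable {L : ℕ} [NeZero L]

private theorem armT_mono (n : ℕ) (x : Fin 2 → ZMod L) {o o' : (Fin 2 → ZMod L) × Fin 2 → Bool}
    (h : o ≤ o') (ha : armT n x o) : armT n x o' := by
  obtain ⟨u, hu, hc⟩ := ha
  refine ⟨u, hu, conn_mono (TD L) ?_ hc⟩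
  intro e he
  have h1 := h e
  have h2 : o e = true := he
  show o' e = true
  rw [h2] at h1
  exact (Bool.eq_true_of_true_le h1)

private theorem armT_anti {n m : ℕ} (h : n ≤ m) (x : Fin 2 → ZMod L) (o : (Fin 2 → ZMod L) × Fin 2 → Bool)
    (ha : armT m x o) : armT n x o := by
  obtain ⟨u, hu, hc⟩ := ha
  exact ⟨u, h.trans hu, hc⟩

private theorem armT_closed {n : ℕ} (hn : 1 ≤ n) (o : (Fin 2 → ZMod L) × Fin 2 → Bool)
    (hcl : ∀ e, (TD L).s e = 0 ∨ (TD L).r e = 0 → o e = false) : ¬ armT n 0 o := by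
  rintro ⟨u, hu, hc⟩
  rcases Relation.ReflTransGen.cases_head hc with h | ⟨c, ⟨e, he, hab⟩, -⟩
  · rw [← h, sub_zero, td_zero] at hu
    omega
  · have h1 : o e = true := he
    have h2 := hcl e (by
      rcases hab with h | h
      · exact Or.inl h.1
      · exact Or.inr h.2)
    rw [h1] at h2
    exact Bool.noConfusion h2

private theorem fT_anti (M : Al) (hM : M.Ok) (b l : ℝ) (hb : 0 < b) : Antitone (fun n => fT L M b n l) := by
  intro n m h
  exact EW_mo (TD L) M hM b l hb _ _ fun o => ind_mo (armT_anti h 0 o)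

private theorem fT_nn (M : Al) (hM : M.Ok) (b l : ℝ) (hb : 0 < b) (n : ℕ) : 0 ≤ fT L M b n l := by
  have h := EW_mo (TD L) M hM b l hb (fun _ => 0) (fun o => ind (armT n 0 o)) (fun o => ind_nn _)
  have h0 : EW (TD L) M b l (fun _ _ => 0) = 0 := by simp [EW]
  rw [h0] at h
  exact h

private theorem f_mono (n : ℕ) : Monotone (fun o : (Fin 2 → ZMod L) × Fin 2 → Bool => ind (armT n 0 o)) :=
  fun _ _ h => ind_mo (armT_mono n 0 h)

private theorem fx_mono {k : ℕ} (n : ℕ) :
    Monotone (fun x : (∀ i, XI k (Fin 2 → ZMod L) ((Fin 2 → ZMod L) × Fin 2) i) =>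
      ind (armT n 0 (po x))) := by
  intro x y h
  exact f_mono n (fun e => h (Sum.inr e))

private theorem one_k (b Λ K : ℝ) (hb : 0 < b) (hK : 0 < K)
    (hinf : ∀ (V E : Type) [Fintype V] [DecidableEq V] [Fintype E] [DecidableEq E] (G : Gr V E),
      Deg4 G → ∀ (M : Al), M.Ok → ∀ l : ℝ, 0 ≤ l → l ≤ Λ → ∀ (f : (E → Bool) → ℝ), Monotone f →
      (∀ o, 0 ≤ f o) → (∀ o, f o ≤ 1) → ∀ (S : Finset (SV V E ⊕ E)) (i : SV V E ⊕ E), Adm G S →
      i ∉ S → Adm G (insert i S) →
      ∑ x, mW G M b l x * infl (mW G M b l) (fun y => f (po y)) S x i ≤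
        K * cv G M b l (fun y => f (po y)) (pin i))
    (M : Al) (hM : M.Ok) (l : ℝ) (hl0 : 0 ≤ l) (hl : l ≤ Λ) (n k : ℕ) (hk : k ≤ n) :
    fT L M b n l - (fT L M b n l) ^ 2 ≤
      ∑ i, (∑ e ∈ (open Classical in univ.filter (fun e => toE (TD L) i e)),
      (fT L M b (Nat.dist k (td ((TD L).s e))) l + fT L M b (Nat.dist k (td ((TD L).r e))) l)) *
        (K * cv (TD L) M b l (fun y => ind (armT n 0 (po y))) (pin i)) := by
  classical
  have h := one_gen b Λ K hb hK hinf (TD L) deg4_TD M hM l hl0 hl (armT n 0)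
    (fun o o' h => armT_mono n 0 h) (univ.filter (fun u : Fin 2 → ZMod L => td u = k))
    (fun A x y hx hy => det_conn (TD L) (univ.filter (fun u : Fin 2 → ZMod L => td u = k)) 0
        {u | n ≤ td (u - 0)} (by
          intro ω u hu hc
          have hu' : n ≤ td u := by
            have : n ≤ td (u - 0) := hu
            rwa [sub_zero] at this
          obtain ⟨s, hs, hsc⟩ := sep_torus n k hk ω u hu' hc
          exact ⟨s, Finset.mem_filter.2 ⟨mem_univ _, hs⟩, hsc⟩) A x y hx hy)
    (fun e o => armT (Nat.dist k (td ((TD L).s e))) ((TD L).s e) o)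
    (fun e o => armT (Nat.dist k (td ((TD L).r e))) ((TD L).r e) o)
    (fun o e s hs hc => arm_le k o _ s (Finset.mem_filter.1 hs).2 (conn_symm (TD L) hc))
    (fun o e s hs hc => arm_le k o _ s (Finset.mem_filter.1 hs).2 (conn_symm (TD L) hc))
  simp only [fT_tr] at h
  exact h

end tor

theorem fT_DR (b Λ : ℝ) (hb : 0 < b) (hΛ : 0 < Λ) : ∃ C0 : ℝ, 0 < C0 ∧
    ∀ (L : ℕ) [NeZero L] (M : Al), M.Ok → DR C0 Λ (fT L M b) := by
  classical
  obtain ⟨K, hK, hinf⟩ := infl_bound b Λ hb hΛ.le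
  set c1 : ℝ := ((1 - Real.tanh b) / 4) ^ 4 with hc1
  have htanh : Real.tanh b < 1 := Real.tanh_lt_one b
  have hc1p : 0 < c1 := by
    rw [hc1]
    have : 0 < (1 - Real.tanh b) / 4 := by linarith
    positivity
  refine ⟨16 * K / c1, by positivity, ?_⟩
  intro L _ M hM
  have hder : ∀ n l, HasDerivAt (fT L M b n)
      (∑ w, pn w * cv (TD L) M b l (fun y => ind (armT n 0 (po y))) w) l := fun n l =>
    EW_deriv (TD L) M b (fun l => Zpos (TD L) M hM b l hb) (fun o => ind (armT n 0 o)) l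
  have hcv : ∀ n l w, 0 ≤ cv (TD L) M b l (fun y => ind (armT n 0 (po y))) w := fun n l =>
    cv_nonneg (TD L) M hM b l hb _ (fx_mono n)
  have hpn : ∀ w : SV (Fin 2 → ZMod L) ((Fin 2 → ZMod L) × Fin 2), 0 ≤ pn w := by
    intro w
    rcases w with v | ⟨e, β⟩
    · simp [pn]
    · cases β <;> simp [pn]
  have hd0 : ∀ n l, 0 ≤ ∑ w, pn w * cv (TD L) M b l (fun y => ind (armT n 0 (po y))) w := fun n l =>
    Finset.sum_nonneg fun w _ => mul_nonneg (hpn w) (hcv n l w)
  refine ⟨?_, ?_, ?_, ?_, ?_, ?_⟩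
  · intro l _
    have h : (fun (_ : SV (Fin 2 → ZMod L) ((Fin 2 → ZMod L) × Fin 2) → Fin (M.k + 1))
        (o : (Fin 2 → ZMod L) × Fin 2 → Bool) => ind (armT 0 0 o)) = fun _ _ => 1 := by
      funext _ o
      exact ind_t ⟨0, Nat.zero_le _, Relation.ReflTransGen.refl⟩
    unfold fT
    rw [h]
    exact EW_c1 (TD L) M hM b l hb
  · intro n l _
    exact fT_nn M hM b l hb n
  · intro n l _
    exact fT_anti M hM b l hb (Nat.le_succ n)
  · intro n
    refine Monotone.monotoneOn ?_ _
    refine monotone_of_deriv_nonneg (fun l => (hder n l).differentiableAt) fun l => ?_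
    rw [(hder n l).deriv]
    exact hd0 n l
  · intro n l
    exact (hder n l).differentiableAt
  · intro n l hl
    rw [(hder n l).deriv]
    rcases Nat.eq_zero_or_pos n with hn | hn
    · subst hn
      simp
    obtain ⟨D, hD⟩ : ∃ D : ℝ, D = ∑ w, pn w * cv (TD L) M b l (fun y => ind (armT n 0 (po y))) w :=
      ⟨_, rfl⟩
    obtain ⟨S, hS⟩ : ∃ S : ℝ, S = ∑ j ∈ range n, fT L M b j l := ⟨_, rfl⟩
    rw [← hD, ← hS]
    have hS0 : 0 ≤ S := by
      rw [hS]
      exact Finset.sum_nonneg fun j _ => fT_nn M hM b l hb j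
    have hDD : 0 ≤ D := by
      rw [hD]
      exact hd0 n l
    have hsum : ∑ k ∈ Icc 1 n, (fT L M b n l - (fT L M b n l) ^ 2) ≤
        ∑ k ∈ Icc 1 n, ∑ i, (∑ e ∈ univ.filter (fun e => toE (TD L) i e),
          (fT L M b (Nat.dist k (td ((TD L).s e))) l + fT L M b (Nat.dist k (td ((TD L).r e))) l)) *
        (K * cv (TD L) M b l (fun y => ind (armT n 0 (po y))) (pin i)) :=
      Finset.sum_le_sum fun k hk =>
        one_k b Λ K hb hK hinf M hM l hl.1 hl.2 n k (Finset.mem_Icc.1 hk).2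
    rw [Finset.sum_const, Nat.card_Icc, Nat.add_sub_cancel, nsmul_eq_mul] at hsum
    have hcomm : ∑ k ∈ Icc 1 n, ∑ i, (∑ e ∈ univ.filter (fun e => toE (TD L) i e),
          (fT L M b (Nat.dist k (td ((TD L).s e))) l + fT L M b (Nat.dist k (td ((TD L).r e))) l)) *
        (K * cv (TD L) M b l (fun y => ind (armT n 0 (po y))) (pin i)) ≤
        ∑ i : SV (Fin 2 → ZMod L) ((Fin 2 → ZMod L) × Fin 2) ⊕ ((Fin 2 → ZMod L) × Fin 2),
          ((univ.filter (fun e => toE (TD L) i e)).card : ℝ) *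
            (4 * S * (K * cv (TD L) M b l (fun y => ind (armT n 0 (po y))) (pin i))) := by
      rw [Finset.sum_comm]
      refine Finset.sum_le_sum fun i _ => ?_
      rw [← Finset.sum_mul, ← mul_assoc (((univ.filter (fun e => toE (TD L) i e)).card : ℝ))]
      refine mul_le_mul_of_nonneg_right ?_ (mul_nonneg hK.le (hcv n l _))
      rw [Finset.sum_comm, ← nsmul_eq_mul]
      refine Finset.sum_le_card_nsmul _ _ _ fun e _ => ?_
      rw [Finset.sum_add_distrib]
      have h1 := dist_sum n (td ((TD L).s e)) (fun j => fT L M b j l) (fT_nn M hM b l hb)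
        (fT_anti M hM b l hb)
      have h2 := dist_sum n (td ((TD L).r e)) (fun j => fT L M b j l) (fT_nn M hM b l hb)
        (fT_anti M hM b l hb)
      rw [← hS] at h1 h2
      linarith
    have hcard := card_toE (TD L) deg4_TD
      (fun w => cv (TD L) M b l (fun y => ind (armT n 0 (po y))) w) (hcv n l)
    have hfin : (n : ℝ) * (fT L M b n l - (fT L M b n l) ^ 2) ≤ 16 * K * S * D := by
      refine (hsum.trans hcomm).trans ?_
      have e1 : ∑ i : SV (Fin 2 → ZMod L) ((Fin 2 → ZMod L) × Fin 2) ⊕ ((Fin 2 → ZMod L) × Fin 2),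
          ((univ.filter (fun e => toE (TD L) i e)).card : ℝ) *
            (4 * S * (K * cv (TD L) M b l (fun y => ind (armT n 0 (po y))) (pin i))) =
          4 * S * K * ∑ i : SV (Fin 2 → ZMod L) ((Fin 2 → ZMod L) × Fin 2) ⊕ ((Fin 2 → ZMod L) × Fin 2),
          ((univ.filter (fun e => toE (TD L) i e)).card : ℝ) *
            cv (TD L) M b l (fun y => ind (armT n 0 (po y))) (pin i) := by
        rw [Finset.mul_sum]
        exact Finset.sum_congr rfl fun i _ => by ring
      rw [e1]
      have h1 := mul_le_mul_of_nonneg_left hcard (by positivity : 0 ≤ 4 * S * K)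
      refine le_trans ?_ (h1.trans (le_of_eq (by rw [hD]; ring)))
      refine le_of_eq ?_
      congr 1
    have hone : fT L M b n l ≤ 1 - c1 := by
      have hcl := cls (TD L) deg4_TD M hM b l hb 0
      have h1 : EW (TD L) M b l (fun _ o => ind (armT n 0 o)) ≤
          EW (TD L) M b l (fun _ o => 1 - ind (∀ e, (TD L).s e = 0 ∨ (TD L).r e = 0 → o e = false)) := by
        refine EW_mo (TD L) M hM b l hb _ _ fun o => ?_
        by_cases hc : ∀ e, (TD L).s e = 0 ∨ (TD L).r e = 0 → o e = false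
        · rw [ind_f (armT_closed hn o hc)]
          have := ind_l1 (∀ e, (TD L).s e = 0 ∨ (TD L).r e = 0 → o e = false)
          linarith
        · rw [ind_f hc, sub_zero]
          exact ind_l1 _
      have h2 : EW (TD L) M b l (fun _ o => 1 - ind (∀ e, (TD L).s e = 0 ∨ (TD L).r e = 0 → o e = false)) =
          1 - EW (TD L) M b l (fun _ o => ind (∀ e, (TD L).s e = 0 ∨ (TD L).r e = 0 → o e = false)) := by
        exact EW_sub (TD L) M hM b l hb _
      rw [h2] at h1
      have h3 : fT L M b n l = EW (TD L) M b l (fun _ o => ind (armT n 0 o)) := rfl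
      rw [h3]
      linarith
    have hf0 := fT_nn M hM b l hb (L := L) n
    have hnf : 0 ≤ (n : ℝ) * fT L M b n l := mul_nonneg (Nat.cast_nonneg n) hf0
    have hmul : (n : ℝ) * fT L M b n l * c1 ≤ 16 * K * S * D := by
      refine le_trans ?_ hfin
      have : (n : ℝ) * fT L M b n l * c1 ≤ (n : ℝ) * fT L M b n l * (1 - fT L M b n l) :=
        mul_le_mul_of_nonneg_left (by linarith) hnf
      refine this.trans (le_of_eq (by ring))
    rw [← le_div_iff₀ hc1p] at hmul
    refine hmul.trans (le_of_eq ?_)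
    ring

end H82.BX
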