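import Pool.Agent.H82.BX.BP3

/-!
# INF: influences are bounded by covariances

* `i = inl w`, `w` a vertex or some `z_e`: for every `x`, `vertex_est` with `Y = Fin (k+1)`, `p = cp m S x i`, `F c = ce m f (insert i S) (update x i c)`
  (monotone by `mW_mon`), `φ = cc²`, masses by `fin_en` (`cp_event`, `ce_EB`; `w ∉ sA S`), gives
  `infl m f S x i ≤ (100/p0) (ce (f c2_w) S x - ce f S x ce c2_w S x)` (`ce_step`); then average, `mW_cov`.
* `i = inl (inr (e, true))` (`m_e`): `insert i S` is admissible so `z_e ∈ S` and the ends of `e` are in `S`; the bit of `e` is not in `S`.  Let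
  `S' = S.erase z_e` (admissible).  `os_infl`: `∑ m infl ≤ 2 ∑ m |ce (insert i S) - ce S|
  ≤ 2 ∑ m (|ce (insert i S) - ce S'| + |ce S - ce S'|) ≤ 4 ∑ m |ce (S' ∪ blk e) - ce S'|` (`os_jensen` twice), `block_est` for `S'`.
* `i = inr e`: `z_e, m_e ∈ S`; `S' = (S.erase m_e).erase z_e`; the same.
-/

set_option autoImplicit false

open Finset MeasureTheory

namespace H82.BX

open H82.IC
section general
variable {I : Type} [Fintype I] [DecidableEq I] {X : I → Type} [∀ i, Fintype (X i)]
  [∀ i, LinearOrder (X i)]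

theorem inf_mulc (m f φ : (∀ i, X i) → ℝ) (A : Finset I) (x : ∀ i, X i)
    (h : ∀ y, (∀ i ∈ A, y i = x i) → φ y = φ x) :
    ce m (fun y => f y * φ y) A x = ce m f A x * φ x := by
  have h1 : cs A x (fun y => m y * (f y * φ y)) = cs A x (fun y => m y * f y) * φ x := by
    unfold cs
    rw [Finset.sum_mul]
    refine Finset.sum_congr rfl fun y _ => ?_
    by_cases ha : ∀ i ∈ A, y i = x i
    · rw [if_pos ha, if_pos ha]
      show m y * (f y * φ y) = m y * f y * φ x
      rw [h y ha]
      ring
    · rw [if_neg ha, if_neg ha, zero_mul]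
  unfold ce
  rw [h1]
  ring

theorem inf_blk (m f : (∀ i, X i) → ℝ) (hm : ∀ x, 0 < m x) (S' S T : Finset I) (i : I) (hi : i ∉ S)
    (h1 : S' ⊆ S) (h2 : insert i S ⊆ T) :
    ∑ x, m x * infl m f S x i ≤ 4 * ∑ x, m x * |ce m f T x - ce m f S' x| := by
  have hST : S ⊆ T := fun j hj => h2 (Finset.mem_insert_of_mem hj)
  have a1 := os_infl m f hm S i hi
  have a2 := os_jensen m f hm S' (insert i S) T (fun j hj => Finset.mem_insert_of_mem (h1 hj)) h2
  have a3 := os_jensen m f hm S' S T h1 hST
  have a4 : ∑ x, m x * |ce m f (insert i S) x - ce m f S x| ≤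
      ∑ x, m x * |ce m f (insert i S) x - ce m f S' x| +
        ∑ x, m x * |ce m f S x - ce m f S' x| := by
    rw [← Finset.sum_add_distrib]
    refine Finset.sum_le_sum fun x _ => ?_
    rw [← mul_add]
    refine mul_le_mul_of_nonneg_left ?_ (hm x).le
    have h3 := abs_sub_le (ce m f (insert i S) x) (ce m f S' x) (ce m f S x)
    rw [abs_sub_comm (ce m f S' x)] at h3
    exact h3
  linarith

end general

theorem inf_lo (M : Al) (c : Fin (M.k + 1)) (hc : c ∈ M.lo) : M.cc c ≤ 3 / 5 := by
  classical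
  unfold Al.lo at hc
  exact (Finset.mem_filter.1 hc).2.1

theorem inf_hi (M : Al) (c : Fin (M.k + 1)) (hc : c ∈ M.hi) : 4 / 5 ≤ M.cc c := by
  classical
  unfold Al.hi at hc
  exact (Finset.mem_filter.1 hc).2.1

section mod
variable {V E : Type} [Fintype V] [DecidableEq V] [Fintype E] [DecidableEq E]

omit [Fintype V] [DecidableEq V] [Fintype E] [DecidableEq E] in
theorem inf_c2mono (M : Al) (hM : M.Ok) (w : SV V E) : Monotone (c2 M w : (∀ i, XI M.k V E i) → ℝ) := by
  intro x y h
  unfold c2
  have h1 : pc x w ≤ pc y w := h (Sum.inl w)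
  exact pow_le_pow_left₀ (hM.cc0 _).le (hM.mono h1) 2

omit [Fintype V] [DecidableEq V] [Fintype E] [DecidableEq E] in
theorem inf_fmono {k : ℕ} (f : (E → Bool) → ℝ) (hf : Monotone f) :
    Monotone (fun y : (∀ i, XI k V E i) => f (po y)) := by
  intro x y h
  exact hf (fun e => h (Sum.inr e))

theorem inf_cv0 (G : Gr V E) (M : Al) (hM : M.Ok) (b l : ℝ) (hb : 0 < b) (f : (∀ i, XI M.k V E i) → ℝ)
    (hf : Monotone f) (w : SV V E) : 0 ≤ cv G M b l f w := by
  unfold cv
  have h := mW_asc G M hM b l hb f (c2 M w) hf (inf_c2mono M hM w)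
  linarith

/-- mass of a set of letters, given an admissible set. -/
theorem inf_mass (G : Gr V E) (hG : Deg4 G) (M : Al) (hM : M.Ok) (b l Λ : ℝ) (hb : 0 < b) (hl : 0 ≤ l)
    (hlΛ : l ≤ Λ) (S : Finset (SV V E ⊕ E)) (hS : Adm G S) (w : SV V E) (hw : Sum.inl w ∉ S)
    (x : ∀ i, XI M.k V E i) (s : Finset (Fin (M.k + 1))) (hs : 1 / 4 ≤ ∑ v ∈ s, M.nu v) :
    Real.exp (-(8 * b + Λ)) / 4 ≤ ∑ c ∈ s, cp (mW G M b l) S x (Sum.inl w) c := by
  have h1 := cp_event (mW G M b l) (fun x => mW_pos G M hM b l hb x) S x (Sum.inl w) hw s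
  have h2 : ∑ c ∈ s, cp (mW G M b l) S x (Sum.inl w) c =
      ce (mW G M b l) (fun z => if pc z w ∈ s then 1 else 0) S x := h1
  rw [h2, ce_EB G M hM b l hb S hS]
  have h3 := fin_en G hG M hM b l hb hl (sA S) (sB S) (by
      intro e he
      rw [mem_sB] at he
      have a1 := hS.bit e he
      have a2 := hS.mm e a1
      have a3 := hS.zz e a2
      exact ⟨(mem_sA S _).2 a3.1, (mem_sA S _).2 a3.2, (mem_sA S _).2 a2, (mem_sA S _).2 a1⟩)
    (tt G M b (pc x)) (fun e _ => (rr_bd G M hM b hb (pc x) e).2.2.1.le)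
    (fun e _ => (rr_bd G M hM b hb (pc x) e).2.2.2.le) (pc x) (po x) w
    (fun h => hw ((mem_sA S _).1 h)) s
  refine le_trans ?_ h3
  have h4 : Real.exp (-(8 * b + Λ)) ≤ Real.exp (-(8 * b + l)) := by
    apply Real.exp_le_exp.2
    linarith
  have h5 := Real.exp_pos (-(8 * b + Λ))
  have h6 := Real.exp_pos (-(8 * b + l))
  nlinarith

theorem inf_vert (G : Gr V E) (hG : Deg4 G) (M : Al) (hM : M.Ok) (b l Λ : ℝ) (hb : 0 < b) (hl : 0 ≤ l)
    (hlΛ : l ≤ Λ) (f : (∀ i, XI M.k V E i) → ℝ) (hf : Monotone f) (S : Finset (SV V E ⊕ E))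
    (hS : Adm G S) (w : SV V E) (hw : Sum.inl w ∉ S) (hiS : Adm G (insert (Sum.inl w) S)) :
    ∑ x, mW G M b l x * infl (mW G M b l) f S x (Sum.inl w) ≤
      100 / (Real.exp (-(8 * b + Λ)) / 4) * cv G M b l f w := by
  have hm : ∀ x, 0 < mW G M b l x := fun x => mW_pos G M hM b l hb x
  have hp0 : 0 < Real.exp (-(8 * b + Λ)) / 4 := by positivity
  obtain ⟨p0, hp0e⟩ : ∃ p0 : ℝ, p0 = Real.exp (-(8 * b + Λ)) / 4 := ⟨_, rfl⟩
  rw [← hp0e] at hp0 ⊢
  have key : ∀ x, infl (mW G M b l) f S x (Sum.inl w) ≤ 100 / p0 *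
      (ce (mW G M b l) (fun y => f y * c2 M w y) S x -
        ce (mW G M b l) f S x * ce (mW G M b l) (c2 M w) S x) := by
    intro x
    have hF : ∀ c c' : XI M.k V E (Sum.inl w), c ≤ c' →
        ce (mW G M b l) f (insert (Sum.inl w) S) (Function.update x (Sum.inl w) c) ≤
          ce (mW G M b l) f (insert (Sum.inl w) S) (Function.update x (Sum.inl w) c') := by
      intro c c' hcc
      refine mW_mon G M hM b l hb (insert (Sum.inl w) S) hiS f hf _ _ ?_
      intro j _
      by_cases e : j = Sum.inl w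
      · subst e
        rw [Function.update_self, Function.update_self]
        exact hcc
      · rw [Function.update_of_ne e, Function.update_of_ne e]
    have h0 := vertex_est (Y := XI M.k V E (Sum.inl w)) (fun c => cp (mW G M b l) S x (Sum.inl w) c)
      (fun c => ce (mW G M b l) f (insert (Sum.inl w) S) (Function.update x (Sum.inl w) c))
      (fun c => M.cc c ^ 2) (fun c => cp_nonneg (mW G M b l) hm S x (Sum.inl w) c)
      (cp_sum (mW G M b l) hm S x (Sum.inl w) hw)
      (fun c c' h => hF c c' h)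
      (fun c c' h => pow_le_pow_left₀ (hM.cc0 _).le (hM.mono h) 2) p0 hp0 M.lo M.hi
      (by
        intro c hc
        have h1 := inf_lo M c hc
        have h2 := hM.cc0 c
        show M.cc c ^ 2 ≤ 9 / 25
        nlinarith)
      (by
        intro c hc
        have h1 := inf_hi M c hc
        show 16 / 25 ≤ M.cc c ^ 2
        nlinarith)
      (by rw [hp0e]; exact inf_mass G hG M hM b l Λ hb hl hlΛ S hS w hw x M.lo hM.lo)
      (by rw [hp0e]; exact inf_mass G hG M hM b l Λ hb hl hlΛ S hS w hw x M.hi hM.hi)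
    have hc2 : ∀ c : XI M.k V E (Sum.inl w), ∀ y : (∀ i, XI M.k V E i),
        (∀ j ∈ insert (Sum.inl w) S, y j = Function.update x (Sum.inl w) c j) →
        c2 M w y = c2 M w (Function.update x (Sum.inl w) c) := by
      intro c y hy
      unfold c2
      have h1 : pc y w = pc (Function.update x (Sum.inl w) c) w :=
        hy _ (Finset.mem_insert_self _ _)
      rw [h1]
    have hc2v : ∀ c : XI M.k V E (Sum.inl w),
        c2 M w (Function.update x (Sum.inl w) c) = M.cc c ^ 2 := by
      intro c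
      have h1 : pc (Function.update x (Sum.inl w) c) w = c :=
        Function.update_self (Sum.inl w) c x
      unfold c2
      rw [h1]
    have e1 := ce_step (mW G M b l) f hm S x (Sum.inl w) hw
    have e2 := ce_step (mW G M b l) (c2 M w) hm S x (Sum.inl w) hw
    have e3 := ce_step (mW G M b l) (fun y => f y * c2 M w y) hm S x (Sum.inl w) hw
    have e2' : ∑ c : XI M.k V E (Sum.inl w), cp (mW G M b l) S x (Sum.inl w) c * M.cc c ^ 2 =
        ce (mW G M b l) (c2 M w) S x := by
      rw [← e2]
      refine Finset.sum_congr rfl fun c _ => ?_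
      rw [ce_const _ _ hm _ _ (hc2 c), hc2v c]
    have e3' : ∑ c : XI M.k V E (Sum.inl w), cp (mW G M b l) S x (Sum.inl w) c *
        (ce (mW G M b l) f (insert (Sum.inl w) S) (Function.update x (Sum.inl w) c) *
          M.cc c ^ 2) = ce (mW G M b l) (fun y => f y * c2 M w y) S x := by
      rw [← e3]
      refine Finset.sum_congr rfl fun c _ => ?_
      rw [inf_mulc _ _ _ _ _ (hc2 c), hc2v c]
    rw [← e1, ← e2', ← e3']
    exact h0
  calc ∑ x, mW G M b l x * infl (mW G M b l) f S x (Sum.inl w)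
      ≤ ∑ x, mW G M b l x * (100 / p0 * (ce (mW G M b l) (fun y => f y * c2 M w y) S x -
          ce (mW G M b l) f S x * ce (mW G M b l) (c2 M w) S x)) :=
        Finset.sum_le_sum fun x _ => mul_le_mul_of_nonneg_left (key x) (hm x).le
    _ = 100 / p0 * ∑ x, mW G M b l x * (ce (mW G M b l) (fun y => f y * c2 M w y) S x -
          ce (mW G M b l) f S x * ce (mW G M b l) (c2 M w) S x) := by
        rw [Finset.mul_sum]
        refine Finset.sum_congr rfl fun x _ => ?_
        ring
    _ ≤ 100 / p0 * cv G M b l f w :=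
        mul_le_mul_of_nonneg_left (mW_cov G M hM b l hb S hS f hf w) (by positivity)

end mod

theorem infl_bound (b Λ : ℝ) (hb : 0 < b) (hΛ : 0 ≤ Λ) : ∃ K : ℝ, 0 < K ∧
    ∀ (V E : Type) [Fintype V] [DecidableEq V] [Fintype E] [DecidableEq E] (G : Gr V E),
      Deg4 G → ∀ (M : Al), M.Ok → ∀ l : ℝ, 0 ≤ l → l ≤ Λ → ∀ (f : (E → Bool) → ℝ), Monotone f →
      (∀ o, 0 ≤ f o) → (∀ o, f o ≤ 1) → ∀ (S : Finset (SV V E ⊕ E)) (i : SV V E ⊕ E), Adm G S →
      i ∉ S → Adm G (insert i S) →
      ∑ x, mW G M b l x * infl (mW G M b l) (fun y => f (po y)) S x i ≤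
        K * cv G M b l (fun y => f (po y)) (pin i) := by
  obtain ⟨K1, hK1, hblk⟩ := block_est b Λ hb hΛ
  refine ⟨100 / (Real.exp (-(8 * b + Λ)) / 4) + 4 * K1, by positivity, ?_⟩
  intro V E _ _ _ _ G hG M hM l hl hlΛ f hf hf0 hf1 S i hS hi hiS
  have hm : ∀ x, 0 < mW G M b l x := fun x => mW_pos G M hM b l hb x
  have hfm := inf_fmono (V := V) (k := M.k) f hf
  have hcv := inf_cv0 G M hM b l hb (fun y => f (po y)) hfm (pin i)
  have hp0 : 0 < 100 / (Real.exp (-(8 * b + Λ)) / 4) := by positivity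
  -- the vertex case
  have hvert : ∀ w : SV V E, i = Sum.inl w → pin i = w →
      ∑ x, mW G M b l x * infl (mW G M b l) (fun y => f (po y)) S x i ≤
        (100 / (Real.exp (-(8 * b + Λ)) / 4) + 4 * K1) *
          cv G M b l (fun y => f (po y)) (pin i) := by
    intro w hw hpin
    subst hw
    have h1 := inf_vert G hG M hM b l Λ hb hl hlΛ (fun y => f (po y)) hfm S hS w hi hiS
    rw [hpin] at hcv ⊢
    have h2 := mul_nonneg hK1.le hcv
    linarith
  -- the block case
  have hblock : ∀ (e : E) (S' : Finset (SV V E ⊕ E)), pin i = Sum.inr (e, false) → S' ⊆ S →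
      insert i S ⊆ S' ∪ blk e → Adm G S' → Sum.inl (Sum.inl (G.s e)) ∈ S' →
      Sum.inl (Sum.inl (G.r e)) ∈ S' → Sum.inl (Sum.inr (e, false)) ∉ S' →
      ∑ x, mW G M b l x * infl (mW G M b l) (fun y => f (po y)) S x i ≤
        (100 / (Real.exp (-(8 * b + Λ)) / 4) + 4 * K1) *
          cv G M b l (fun y => f (po y)) (pin i) := by
    intro e S' hpin h1 h2 hA hs hr hz
    have a1 := inf_blk (mW G M b l) (fun y => f (po y)) hm S' S (S' ∪ blk e) i hi h1 h2
    have a2 := hblk V E G hG M hM l hl hlΛ f hf hf0 hf1 S' hA e hs hr hz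
    rw [hpin] at hcv ⊢
    have h3 := mul_nonneg hp0.le hcv
    linarith
  rcases i with w | e
  · rcases w with v | ⟨e, q⟩
    · exact hvert _ rfl rfl
    · cases q
      · exact hvert _ rfl rfl
      · -- `m_e`
        have hz1 : Sum.inl (Sum.inr (e, false)) ∈ S := by
          have h1 := hiS.mm e (Finset.mem_insert_self _ _)
          rcases Finset.mem_insert.1 h1 with h2 | h2
          · simp at h2
          · exact h2
        have hzz := hS.zz e hz1
        have hb0 : Sum.inr e ∉ S := fun h => hi (hS.bit e h)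
        refine hblock e (S.erase (Sum.inl (Sum.inr (e, false)))) rfl (Finset.erase_subset _ _) ?_ ?_
          (Finset.mem_erase.2 ⟨by simp, hzz.1⟩) (Finset.mem_erase.2 ⟨by simp, hzz.2⟩)
          (Finset.notMem_erase _ _)
        · intro j hj
          rcases Finset.mem_insert.1 hj with h | h
          · subst h
            exact Finset.mem_union_right _ (by simp [blk])
          · by_cases hjz : j = Sum.inl (Sum.inr (e, false))
            · subst hjz
              exact Finset.mem_union_right _ (by simp [blk])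
            · exact Finset.mem_union_left _ (Finset.mem_erase.2 ⟨hjz, h⟩)
        · refine ⟨?_, ?_, ?_⟩
          · intro e' he'
            exact Finset.mem_erase.2 ⟨by simp, hS.bit e' (Finset.mem_of_mem_erase he')⟩
          · intro e' he'
            have h1 := Finset.mem_of_mem_erase he'
            refine Finset.mem_erase.2 ⟨?_, hS.mm e' h1⟩
            intro h2
            have h3 : e' = e := by simpa using h2
            rw [h3] at h1
            exact hi h1
          · intro e' he'
            have h1 := hS.zz e' (Finset.mem_of_mem_erase he')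
            exact ⟨Finset.mem_erase.2 ⟨by simp, h1.1⟩, Finset.mem_erase.2 ⟨by simp, h1.2⟩⟩
  · -- the bit
    have hm1 : Sum.inl (Sum.inr (e, true)) ∈ S := by
      have h1 := hiS.bit e (Finset.mem_insert_self _ _)
      rcases Finset.mem_insert.1 h1 with h2 | h2
      · simp at h2
      · exact h2
    have hz1 := hS.mm e hm1
    have hzz := hS.zz e hz1
    refine hblock e ((S.erase (Sum.inl (Sum.inr (e, true)))).erase (Sum.inl (Sum.inr (e, false)))) rfl
      ((Finset.erase_subset _ _).trans (Finset.erase_subset _ _)) ?_ ?_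
      (Finset.mem_erase.2 ⟨by simp, Finset.mem_erase.2 ⟨by simp, hzz.1⟩⟩)
      (Finset.mem_erase.2 ⟨by simp, Finset.mem_erase.2 ⟨by simp, hzz.2⟩⟩)
      (Finset.notMem_erase _ _)
    · intro j hj
      rcases Finset.mem_insert.1 hj with h | h
      · subst h
        exact Finset.mem_union_right _ (by simp [blk])
      · by_cases hjz : j = Sum.inl (Sum.inr (e, false))
        · subst hjz
          exact Finset.mem_union_right _ (by simp [blk])
        · by_cases hjm : j = Sum.inl (Sum.inr (e, true))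
          · subst hjm
            exact Finset.mem_union_right _ (by simp [blk])
          · exact Finset.mem_union_left _ (Finset.mem_erase.2 ⟨hjz, Finset.mem_erase.2 ⟨hjm, h⟩⟩)
    · refine ⟨?_, ?_, ?_⟩
      · intro e' he'
        have h1 := Finset.mem_of_mem_erase (Finset.mem_of_mem_erase he')
        refine Finset.mem_erase.2 ⟨by simp, Finset.mem_erase.2 ⟨?_, hS.bit e' h1⟩⟩
        intro h2
        have h3 : e' = e := by simpa using h2
        rw [h3] at h1
        exact hi h1
      · intro e' he'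
        have h0 := Finset.mem_of_mem_erase he'
        have h1 := Finset.mem_of_mem_erase h0
        have h4 : e' ≠ e := by
          intro h3
          rw [h3] at h0
          exact Finset.notMem_erase _ _ h0
        refine Finset.mem_erase.2 ⟨?_, Finset.mem_erase.2 ⟨by simp, hS.mm e' h1⟩⟩
        intro h2
        have h3 : e' = e := by simpa using h2
        exact h4 h3
      · intro e' he'
        have h1 := hS.zz e' (Finset.mem_of_mem_erase (Finset.mem_of_mem_erase he'))
        exact ⟨Finset.mem_erase.2 ⟨by simp, Finset.mem_erase.2 ⟨by simp, h1.1⟩⟩,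
          Finset.mem_erase.2 ⟨by simp, Finset.mem_erase.2 ⟨by simp, h1.2⟩⟩⟩

end H82.BX
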