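import Pool.Agent.H82.BX.CK2
import Pool.Agent.H82.BX.INF
import Pool.Agent.H82.BX.DIF

/-!
# CK3: passing from the regularised alphabets to the clock

* `clk_ok`: for `0 < ε ≤ 1/4`, `1 ≤ K`, `(clk K ε).Ok`: `sin x ≤ 1/2` for `x ≤ π/6` (`c ≤ 2K`), then `cc ≤ (1/2+ε)/(1+ε) ≤ 3/5` and `ss ≥ cos(π/6)`-ish `≥ 4/5`; similarly `hi`: `c ≥ 4K`; `mi`: `2K ≤ c ≤ 4K`;
  the weights of the three ranges are `≥ 1/3`, `∑ nu = 1`.
* `EW_lim`: `W G (clk K ε) b l c o` is continuous in `ε` at `0` (finite products of continuous functions), and the total weight at `ε = 0` is positive (all moduli with `0 < c w < 6K`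
  have positive weight).  The types `Fin ((clk K ε).k + 1)` are all `Fin (6*K+1)` by definition.
* `DR0`: `DR C0 Λ (fT L (clk K ε) b)` for small `ε > 0` (`fT_DR`), let `ε → 0`: `deriv` is given by `EW_deriv` (both for `ε > 0` and `ε = 0`), which is continuous in `ε`.
* `asc0`, `low0`: association for `clk K ε` (`asc`), limit.  `EW cc(c v) ≥ (4/5) (1/4) e^{-8b-l}` by `fin_en` with `A = ∅`, `B = ∅` (`EB` with empty sets is `EW`), so
  `EW (cc_u cc_v ind) ≥ EW cc_u EW cc_v EW ind`.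
* `up0`: `ck1`, `sgS_one`, `sgS_two`, `sgS_ends` (at fixed `c`), `cc ≤ 1`.
-/

set_option autoImplicit false

open Finset MeasureTheory Filter Topology

namespace H82.BX

open H82.IC XYB

/-! ## the alphabet as a function of the moduli -/

/-- the alphabet with given moduli. -/
noncomputable def CK3_M (K : ℕ) (x y : Fin (6 * K + 1) → ℝ) : Al where
  k := 6 * K
  cc := x
  ss := y
  nu c := (if c.val = 0 ∨ c.val = 6 * K then 1 / 2 else 1) / (6 * K)

noncomputable def CK3_x (K : ℕ) (ε : ℝ) (c : Fin (6 * K + 1)) : ℝ :=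
  (Real.sin (c.val * Real.pi / (12 * K)) + ε) / (1 + ε)

noncomputable def CK3_y (K : ℕ) (ε : ℝ) (c : Fin (6 * K + 1)) : ℝ :=
  (Real.cos (c.val * Real.pi / (12 * K)) + ε) / (1 + ε)

theorem CK3_clk (K : ℕ) (ε : ℝ) : clk K ε = CK3_M K (CK3_x K ε) (CK3_y K ε) := rfl

theorem CK3_ang (K : ℕ) (hK : 0 < K) (c : Fin (6 * K + 1)) :
    0 ≤ (c.val : ℝ) * Real.pi / (12 * K) ∧ (c.val : ℝ) * Real.pi / (12 * K) ≤ Real.pi / 2 := by
  have hK' : (0 : ℝ) < K := by exact_mod_cast hK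
  have h1 : (c.val : ℝ) ≤ 6 * K := by
    have := Nat.lt_succ_iff.1 c.isLt
    exact_mod_cast this
  constructor
  · positivity
  · rw [div_le_div_iff₀ (by positivity) (by norm_num)]
    have h2 := mul_le_mul_of_nonneg_right h1 Real.pi_pos.le
    linarith

theorem CK3_sc (K : ℕ) (hK : 0 < K) (c : Fin (6 * K + 1)) :
    0 ≤ Real.sin ((c.val : ℝ) * Real.pi / (12 * K)) ∧ 0 ≤ Real.cos ((c.val : ℝ) * Real.pi / (12 * K)) := by
  have h := CK3_ang K hK c
  refine ⟨Real.sin_nonneg_of_nonneg_of_le_pi h.1 (by linarith [Real.pi_pos]), ?_⟩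
  exact Real.cos_nonneg_of_neg_pi_div_two_le_of_le (by linarith [Real.pi_pos]) h.2

theorem CK3_x01 (K : ℕ) (hK : 0 < K) (ε : ℝ) (h0 : 0 ≤ ε) (c : Fin (6 * K + 1)) :
    0 ≤ CK3_x K ε c ∧ CK3_x K ε c ≤ 1 ∧ 0 ≤ CK3_y K ε c ∧ CK3_y K ε c ≤ 1 := by
  have h := CK3_sc K hK c
  unfold CK3_x CK3_y
  refine ⟨by have := h.1; positivity, ?_, by have := h.2; positivity, ?_⟩
  · rw [div_le_one (by linarith)]
    linarith [Real.sin_le_one ((c.val : ℝ) * Real.pi / (12 * K))]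
  · rw [div_le_one (by linarith)]
    linarith [Real.cos_le_one ((c.val : ℝ) * Real.pi / (12 * K))]

theorem CK3_nu_pos (K : ℕ) (hK : 0 < K) (x y : Fin (6 * K + 1) → ℝ) (c : Fin (6 * K + 1)) :
    0 < (CK3_M K x y).nu c := by
  have hK' : (0 : ℝ) < K := by exact_mod_cast hK
  have h1 : (CK3_M K x y).nu c = (if c.val = 0 ∨ c.val = 6 * K then 1 / 2 else 1) / (6 * K) := rfl
  rw [h1]
  split_ifs <;> positivity

theorem CK3_nu_sum (K : ℕ) (hK : 0 < K) :
    ∑ c : Fin (6 * K + 1), (if c.val = 0 ∨ c.val = 6 * K then (1 : ℝ) / 2 else 1) / (6 * K) = 1 := by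
  have hK' : (0 : ℝ) < K := by exact_mod_cast hK
  rw [Fin.sum_univ_eq_sum_range
    (fun n : ℕ => (if n = 0 ∨ n = 6 * K then (1 : ℝ) / 2 else 1) / (6 * K)) (6 * K + 1),
    Finset.sum_range_succ]
  obtain ⟨m, hm⟩ : ∃ m, 6 * K = m + 1 := ⟨6 * K - 1, by omega⟩
  have hm' : (6 * (K : ℝ)) = m + 1 := by exact_mod_cast hm
  rw [hm, hm', Finset.sum_range_succ']
  have h1 : ∀ i ∈ Finset.range m, (if i + 1 = 0 ∨ i + 1 = m + 1 then (1 : ℝ) / 2 else 1) / (m + 1) =
      1 / (m + 1) := by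
    intro i hi
    have := Finset.mem_range.1 hi
    rw [if_neg (by omega)]
  rw [Finset.sum_congr rfl h1]
  have hm0 : (0 : ℝ) < (m : ℝ) + 1 := by positivity
  simp
  field_simp
  ring

/-- masses of ranges. -/
theorem CK3_range (K : ℕ) (hK : 0 < K) (S : Finset (Fin (6 * K + 1))) (a : ℕ) (ha : a + 2 * K < 6 * K)
    (hS : ∀ c : Fin (6 * K + 1), a < c.val → c.val ≤ a + 2 * K → c ∈ S) :
    1 / 4 ≤ ∑ c ∈ S, (if c.val = 0 ∨ c.val = 6 * K then (1 : ℝ) / 2 else 1) / (6 * K) := by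
  have hK' : (0 : ℝ) < K := by exact_mod_cast hK
  have h1 : Finset.Ioc (⟨a, by omega⟩ : Fin (6 * K + 1)) ⟨a + 2 * K, by omega⟩ ⊆ S := by
    intro c hc
    rw [Finset.mem_Ioc] at hc
    exact hS c hc.1 hc.2
  have h2 : ∑ c ∈ Finset.Ioc (⟨a, by omega⟩ : Fin (6 * K + 1)) ⟨a + 2 * K, by omega⟩,
      (if c.val = 0 ∨ c.val = 6 * K then (1 : ℝ) / 2 else 1) / (6 * K) =
      ∑ c ∈ Finset.Ioc (⟨a, by omega⟩ : Fin (6 * K + 1)) ⟨a + 2 * K, by omega⟩, 1 / (6 * (K : ℝ)) := by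
    refine Finset.sum_congr rfl fun c hc => ?_
    rw [Finset.mem_Ioc] at hc
    have h3 : a < c.val := hc.1
    have h4 : c.val ≤ a + 2 * K := hc.2
    rw [if_neg (by omega)]
  refine le_trans ?_ (Finset.sum_le_sum_of_subset_of_nonneg h1 fun c _ _ => by positivity)
  rw [h2, Finset.sum_const, Fin.card_Ioc]
  simp only [Nat.add_sub_cancel_left, nsmul_eq_mul]
  push_cast
  have h5 : 2 * (K : ℝ) * (1 / (6 * K)) = 1 / 3 := by
    field_simp
    norm_num
  rw [h5]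
  norm_num

theorem CK3_mem_lo (M : Al) (c : Fin (M.k + 1)) : c ∈ M.lo ↔ M.cc c ≤ 3 / 5 ∧ 4 / 5 ≤ M.ss c := by
  unfold Al.lo
  simp

theorem CK3_mem_hi (M : Al) (c : Fin (M.k + 1)) : c ∈ M.hi ↔ 4 / 5 ≤ M.cc c ∧ M.ss c ≤ 3 / 5 := by
  unfold Al.hi
  simp

theorem CK3_mem_mi (M : Al) (c : Fin (M.k + 1)) : c ∈ M.mi ↔ 1 / 3 ≤ M.cc c ∧ 1 / 3 ≤ M.ss c := by
  unfold Al.mi
  simp

theorem clk_ok (K : ℕ) (hK : 0 < K) (ε : ℝ) (h0 : 0 < ε) (h1 : ε ≤ 1 / 4) : (clk K ε).Ok := by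
  have hK' : (0 : ℝ) < K := by exact_mod_cast hK
  have hs3 : (86 / 100 : ℝ) ≤ Real.sqrt 3 / 2 := by
    have h2 : (172 / 100 : ℝ) ≤ Real.sqrt 3 := by
      refine Real.le_sqrt_of_sq_le ?_
      norm_num
    linarith
  have hpi := Real.pi_pos
  have hang : ∀ c : Fin (6 * K + 1), 0 ≤ (c.val : ℝ) * Real.pi / (12 * K) ∧
    (c.val : ℝ) * Real.pi / (12 * K) ≤ Real.pi / 2 := CK3_ang K hK
  -- small angles
  have hsm : ∀ c : Fin (6 * K + 1), c.val ≤ 2 * K →
      Real.sin ((c.val : ℝ) * Real.pi / (12 * K)) ≤ 1 / 2 ∧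
        Real.sqrt 3 / 2 ≤ Real.cos ((c.val : ℝ) * Real.pi / (12 * K)) := by
    intro c hc
    have h2 : (c.val : ℝ) * Real.pi / (12 * K) ≤ Real.pi / 6 := by
      have h3 : (c.val : ℝ) ≤ 2 * K := by exact_mod_cast hc
      rw [div_le_div_iff₀ (by positivity) (by norm_num)]
      have h4 := mul_le_mul_of_nonneg_right h3 hpi.le
      linarith
    have h5 := hang c
    constructor
    · rw [← Real.sin_pi_div_six]
      exact Real.sin_le_sin_of_le_of_le_pi_div_two (by linarith) (by linarith) h2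
    · rw [← Real.cos_pi_div_six]
      exact Real.cos_le_cos_of_nonneg_of_le_pi h5.1 (by linarith) h2
  have hlg : ∀ c : Fin (6 * K + 1), 4 * K ≤ c.val →
      Real.cos ((c.val : ℝ) * Real.pi / (12 * K)) ≤ 1 / 2 ∧
        Real.sqrt 3 / 2 ≤ Real.sin ((c.val : ℝ) * Real.pi / (12 * K)) := by
    intro c hc
    have h2 : Real.pi / 3 ≤ (c.val : ℝ) * Real.pi / (12 * K) := by
      have h3 : (4 * K : ℝ) ≤ c.val := by exact_mod_cast hc
      rw [div_le_div_iff₀ (by norm_num) (by positivity)]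
      have h4 := mul_le_mul_of_nonneg_right h3 hpi.le
      linarith
    have h5 := hang c
    constructor
    · rw [← Real.cos_pi_div_three]
      exact Real.cos_le_cos_of_nonneg_of_le_pi (by linarith) (by linarith) h2
    · rw [← Real.sin_pi_div_three]
      exact Real.sin_le_sin_of_le_of_le_pi_div_two (by linarith) h5.2 h2
  have hmd : ∀ c : Fin (6 * K + 1), 2 * K ≤ c.val → c.val ≤ 4 * K →
      1 / 2 ≤ Real.cos ((c.val : ℝ) * Real.pi / (12 * K)) ∧
        1 / 2 ≤ Real.sin ((c.val : ℝ) * Real.pi / (12 * K)) := by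
    intro c hc hc'
    have h2 : Real.pi / 6 ≤ (c.val : ℝ) * Real.pi / (12 * K) := by
      have h3 : (2 * K : ℝ) ≤ c.val := by exact_mod_cast hc
      rw [div_le_div_iff₀ (by norm_num) (by positivity)]
      have h4 := mul_le_mul_of_nonneg_right h3 hpi.le
      linarith
    have h2' : (c.val : ℝ) * Real.pi / (12 * K) ≤ Real.pi / 3 := by
      have h3 : (c.val : ℝ) ≤ 4 * K := by exact_mod_cast hc'
      rw [div_le_div_iff₀ (by positivity) (by norm_num)]
      have h4 := mul_le_mul_of_nonneg_right h3 hpi.le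
      linarith
    have h5 := hang c
    constructor
    · rw [← Real.cos_pi_div_three]
      exact Real.cos_le_cos_of_nonneg_of_le_pi h5.1 (by linarith) h2'
    · rw [← Real.sin_pi_div_six]
      exact Real.sin_le_sin_of_le_of_le_pi_div_two (by linarith) h5.2 h2
  have hE : (0 : ℝ) < 1 + ε := by linarith
  have hmonoang : ∀ c c' : Fin (6 * K + 1), c ≤ c' → (c.val : ℝ) * Real.pi / (12 * K) ≤
      (c'.val : ℝ) * Real.pi / (12 * K) := by
    intro c c' h
    have h3 : (c.val : ℝ) ≤ c'.val := by exact_mod_cast (Fin.le_def.1 h)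
    gcongr
  rw [CK3_clk]
  refine ⟨?_, ?_, ?_, ?_, ?_, ?_, ?_, ?_, ?_, ?_, ?_⟩
  · intro c c' h
    show CK3_x K ε c ≤ CK3_x K ε c'
    unfold CK3_x
    refine div_le_div_of_nonneg_right ?_ hE.le
    have h5 := hang c
    have h6 := hang c'
    have := Real.sin_le_sin_of_le_of_le_pi_div_two (by linarith) h6.2 (hmonoang c c' h)
    linarith
  · intro c c' h
    show CK3_y K ε c' ≤ CK3_y K ε c
    unfold CK3_y
    refine div_le_div_of_nonneg_right ?_ hE.le
    have h5 := hang c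
    have h6 := hang c'
    have := Real.cos_le_cos_of_nonneg_of_le_pi h5.1 (by linarith) (hmonoang c c' h)
    linarith
  · intro c
    show 0 < CK3_x K ε c
    have := (CK3_sc K hK c).1
    unfold CK3_x
    positivity
  · intro c
    exact (CK3_x01 K hK ε h0.le c).2.1
  · intro c
    show 0 < CK3_y K ε c
    have := (CK3_sc K hK c).2
    unfold CK3_y
    positivity
  · intro c
    exact (CK3_x01 K hK ε h0.le c).2.2.2
  · intro c
    exact CK3_nu_pos K hK _ _ c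
  · exact CK3_nu_sum K hK
  · refine CK3_range K hK _ 0 (by omega) ?_
    intro c hc hc'
    have h2 := hsm c (by omega)
    refine (CK3_mem_lo (CK3_M K (CK3_x K ε) (CK3_y K ε)) c).2 ⟨?_, ?_⟩
    · show CK3_x K ε c ≤ 3 / 5
      unfold CK3_x
      rw [div_le_iff₀ hE]
      linarith [h2.1]
    · show 4 / 5 ≤ CK3_y K ε c
      unfold CK3_y
      rw [le_div_iff₀ hE]
      linarith [h2.2]
  · refine CK3_range K hK _ (4 * K - 1) (by omega) ?_
    intro c hc hc'
    have h2 := hlg c (by omega)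
    refine (CK3_mem_hi (CK3_M K (CK3_x K ε) (CK3_y K ε)) c).2 ⟨?_, ?_⟩
    · show 4 / 5 ≤ CK3_x K ε c
      unfold CK3_x
      rw [le_div_iff₀ hE]
      linarith [h2.2]
    · show CK3_y K ε c ≤ 3 / 5
      unfold CK3_y
      rw [div_le_iff₀ hE]
      linarith [h2.1]
  · refine CK3_range K hK _ (2 * K) (by omega) ?_
    intro c hc hc'
    have h2 := hmd c (by omega) (by omega)
    refine (CK3_mem_mi (CK3_M K (CK3_x K ε) (CK3_y K ε)) c).2 ⟨?_, ?_⟩
    · show 1 / 3 ≤ CK3_x K ε c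
      unfold CK3_x
      rw [le_div_iff₀ hE]
      linarith [h2.2]
    · show 1 / 3 ≤ CK3_y K ε c
      unfold CK3_y
      rw [le_div_iff₀ hE]
      linarith [h2.1]

theorem CK3_path (K : ℕ) : Tendsto (fun ε : ℝ => (CK3_x K ε, CK3_y K ε)) (𝓝[>] 0)
    (𝓝 (CK3_x K 0, CK3_y K 0)) := by
  have h1 : ContinuousAt (fun ε : ℝ => (CK3_x K ε, CK3_y K ε)) 0 := by
    refine ContinuousAt.prodMk ?_ ?_
    · refine continuousAt_pi.2 fun c => ?_
      unfold CK3_x
      refine ContinuousAt.div (by fun_prop) (by fun_prop) (by norm_num)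
    · refine continuousAt_pi.2 fun c => ?_
      unfold CK3_y
      refine ContinuousAt.div (by fun_prop) (by fun_prop) (by norm_num)
  exact h1.tendsto.mono_left nhdsWithin_le_nhds

theorem CK3_tanh_lt (x : ℝ) : Real.tanh x < 1 := by
  rw [Real.tanh_eq_sinh_div_cosh, div_lt_one (Real.cosh_pos x)]
  exact Real.sinh_lt_cosh x

theorem CK3_tanh_nonneg {x : ℝ} (hx : 0 ≤ x) : 0 ≤ Real.tanh x := by
  rw [Real.tanh_eq_sinh_div_cosh]
  exact div_nonneg (Real.sinh_nonneg_iff.2 hx) (Real.cosh_pos x).le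

@[fun_prop]
theorem CK3_tanh : Continuous Real.tanh := by
  have h1 : Real.tanh = fun x => Real.sinh x / Real.cosh x := by
    funext x
    exact Real.tanh_eq_sinh_div_cosh x
  rw [h1]
  exact Real.continuous_sinh.div Real.continuous_cosh fun x => (Real.cosh_pos x).ne'

section gen
variable {V E : Type} [Fintype V] [DecidableEq V] [Fintype E] [DecidableEq E]

theorem CK3_cont (G : Gr V E) (b l : ℝ) (K : ℕ) (c : SV V E → Fin (6 * K + 1)) (o : E → Bool) :
    Continuous (fun z : (Fin (6 * K + 1) → ℝ) × (Fin (6 * K + 1) → ℝ) =>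
      W G (CK3_M K z.1 z.2) b l c o) := by
  unfold W wv AA rr tt la lb Zv Zs
  simp only [CK3_M]
  refine Continuous.mul (Continuous.mul ?_ ?_) (Continuous.mul ?_ ?_)
  · fun_prop
  · refine continuous_finsetProd _ fun e _ => ?_
    refine Continuous.mul ?_ ?_
    · fun_prop
    · cases o e
      · simp
        fun_prop
      · simp
        fun_prop
  · fun_prop
  · fun_prop

theorem CK3_contZ (G : Gr V E) (b l : ℝ) (K : ℕ) :
    Continuous (fun z : (Fin (6 * K + 1) → ℝ) × (Fin (6 * K + 1) → ℝ) =>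
      ∑ c : SV V E → Fin (6 * K + 1), ∑ o, W G (CK3_M K z.1 z.2) b l c o) :=
  continuous_finsetSum _ fun c _ => continuous_finsetSum _ fun o _ => CK3_cont G b l K c o

/-- sign of the weights. -/
theorem CK3_W (G : Gr V E) (b l : ℝ) (hb : 0 < b) (K : ℕ) (hK : 0 < K)
    (x y : Fin (6 * K + 1) → ℝ) (hx : ∀ i, 0 ≤ x i) (hy : ∀ i, 0 ≤ y i)
    (c : SV V E → Fin (6 * K + 1)) (o : E → Bool) :
    0 ≤ W G (CK3_M K x y) b l c o ∧ ((∀ e, o e = false) → 0 < W G (CK3_M K x y) b l c o) := by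
  have hla : ∀ t, 0 ≤ la G (CK3_M K x y) b c t := fun t =>
    mul_nonneg hb.le (mul_nonneg (hx _) (hx _))
  have hlb : ∀ t, 0 ≤ lb G (CK3_M K x y) b c t := fun t =>
    mul_nonneg hb.le (mul_nonneg (hy _) (hy _))
  have hr0 : ∀ e, 0 ≤ rr G (CK3_M K x y) b c e := fun e =>
    Finset.prod_nonneg fun j _ => CK3_tanh_nonneg (hla (e, j))
  have hr1 : ∀ e, rr G (CK3_M K x y) b c e < 1 := by
    intro e
    unfold rr
    rw [Fin.prod_univ_three]
    have a0 := CK3_tanh_nonneg (hla (e, 0))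
    have a1 := CK3_tanh_nonneg (hla (e, 1))
    have a2 := CK3_tanh_nonneg (hla (e, 2))
    have b0 := CK3_tanh_lt (la G (CK3_M K x y) b c (e, 0))
    have b1 := CK3_tanh_lt (la G (CK3_M K x y) b c (e, 1))
    have b2 := CK3_tanh_lt (la G (CK3_M K x y) b c (e, 2))
    have h1 : Real.tanh (la G (CK3_M K x y) b c (e, 0)) * Real.tanh (la G (CK3_M K x y) b c (e, 1)) ≤ 1 :=
      mul_le_one₀ b0.le a1 b1.le
    calc _ ≤ 1 * Real.tanh (la G (CK3_M K x y) b c (e, 2)) := mul_le_mul_of_nonneg_right h1 a2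
      _ < 1 := by rw [one_mul]; exact b2
  have ht0 : ∀ e, 0 ≤ tt G (CK3_M K x y) b c e := fun e =>
    Finset.prod_nonneg fun j _ => CK3_tanh_nonneg (hlb (e, j))
  have ht1 : ∀ e, tt G (CK3_M K x y) b c e ≤ 1 := fun e =>
    Finset.prod_le_one (fun j _ => CK3_tanh_nonneg (hlb (e, j))) fun j _ => (CK3_tanh_lt _).le
  have hb0 : ∀ e, 0 ≤ bt o e := by
    intro e
    unfold bt
    split_ifs <;> norm_num
  have hb1 : ∀ e, bt o e ≤ 1 := by
    intro e
    unfold bt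
    split_ifs <;> norm_num
  have hwv : 0 < wv (CK3_M K x y) l c :=
    Finset.prod_pos fun w _ => mul_pos (CK3_nu_pos K hK x y _) (Real.exp_pos _)
  have hAA : ∀ e, 0 < AA G (CK3_M K x y) b c e := fun e =>
    Finset.prod_pos fun j _ => mul_pos (Real.cosh_pos _) (Real.cosh_pos _)
  have hZ := mul_pos (Zv_pos G (bt o) hb0 hb1) (Zv_pos G (tt G (CK3_M K x y) b c) ht0 ht1)
  constructor
  · refine mul_nonneg (mul_nonneg hwv.le (Finset.prod_nonneg fun e _ => mul_nonneg (hAA e).le ?_)) hZ.le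
    split_ifs
    · exact hr0 e
    · linarith [hr1 e]
  · intro ho
    refine mul_pos (mul_pos hwv (Finset.prod_pos fun e _ => mul_pos (hAA e) ?_)) hZ
    rw [if_neg (by rw [ho e]; exact Bool.false_ne_true)]
    linarith [hr1 e]

theorem CK3_Zpos (G : Gr V E) (b l : ℝ) (hb : 0 < b) (K : ℕ) (hK : 0 < K)
    (x y : Fin (6 * K + 1) → ℝ) (hx : ∀ i, 0 ≤ x i) (hy : ∀ i, 0 ≤ y i) :
    0 < ∑ c : SV V E → Fin (6 * K + 1), ∑ o, W G (CK3_M K x y) b l c o := by
  refine Finset.sum_pos (fun c _ => ?_) ⟨fun _ => 0, Finset.mem_univ _⟩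
  refine Finset.sum_pos' (fun o _ => (CK3_W G b l hb K hK x y hx hy c o).1)
    ⟨fun _ => false, Finset.mem_univ _, (CK3_W G b l hb K hK x y hx hy c _).2 fun _ => rfl⟩

theorem W0_pos (G : Gr V E) (b l : ℝ) (hb : 0 < b) (K : ℕ) (hK : 0 < K) :
    0 < ∑ c : SV V E → Fin ((clk K 0).k + 1), ∑ o, W G (clk K 0) b l c o :=
  CK3_Zpos G b l hb K hK _ _ (fun i => (CK3_x01 K hK 0 le_rfl i).1)
    (fun i => (CK3_x01 K hK 0 le_rfl i).2.2.1)

theorem W0_nonneg (G : Gr V E) (b l : ℝ) (hb : 0 < b) (K : ℕ) (hK : 0 < K)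
    (c : SV V E → Fin ((clk K 0).k + 1)) (o : E → Bool) : 0 ≤ W G (clk K 0) b l c o :=
  (CK3_W G b l hb K hK _ _ (fun i => (CK3_x01 K hK 0 le_rfl i).1)
    (fun i => (CK3_x01 K hK 0 le_rfl i).2.2.1) c o).1

/-- ratio of sums as a function of the moduli. -/
noncomputable def CK3_R (G : Gr V E) (b l : ℝ) (K : ℕ)
    (F : (Fin (6 * K + 1) → ℝ) × (Fin (6 * K + 1) → ℝ) → (SV V E → Fin (6 * K + 1)) → (E → Bool) → ℝ)
    (z : (Fin (6 * K + 1) → ℝ) × (Fin (6 * K + 1) → ℝ)) : ℝ :=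
  (∑ c : SV V E → Fin (6 * K + 1), ∑ o, W G (CK3_M K z.1 z.2) b l c o * F z c o) /
    ∑ c : SV V E → Fin (6 * K + 1), ∑ o, W G (CK3_M K z.1 z.2) b l c o

theorem CK3_R_eq (G : Gr V E) (b l : ℝ) (K : ℕ)
    (F : (Fin (6 * K + 1) → ℝ) × (Fin (6 * K + 1) → ℝ) → (SV V E → Fin (6 * K + 1)) → (E → Bool) → ℝ)
    (ε : ℝ) : EW G (clk K ε) b l (F (CK3_x K ε, CK3_y K ε)) =
      CK3_R G b l K F (CK3_x K ε, CK3_y K ε) := rfl

theorem CK3_R_lim (G : Gr V E) (b l : ℝ) (hb : 0 < b) (K : ℕ) (hK : 0 < K)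
    (F : (Fin (6 * K + 1) → ℝ) × (Fin (6 * K + 1) → ℝ) → (SV V E → Fin (6 * K + 1)) → (E → Bool) → ℝ)
    (hF : ∀ c o, Continuous fun z => F z c o) :
    ContinuousAt (CK3_R G b l K F) (CK3_x K 0, CK3_y K 0) := by
  have h2 : Continuous (fun z : (Fin (6 * K + 1) → ℝ) × (Fin (6 * K + 1) → ℝ) =>
      ∑ c : SV V E → Fin (6 * K + 1), ∑ o, W G (CK3_M K z.1 z.2) b l c o * F z c o) :=
    continuous_finsetSum _ fun c _ => continuous_finsetSum _ fun o _ =>
      (CK3_cont G b l K c o).mul (hF c o)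
  have h3 := CK3_Zpos G b l hb K hK _ _ (fun i => (CK3_x01 K hK 0 le_rfl i).1)
    (fun i => (CK3_x01 K hK 0 le_rfl i).2.2.1)
  exact h2.continuousAt.div (CK3_contZ G b l K).continuousAt h3.ne'

/-- general limit. -/
theorem CK3_lim (G : Gr V E) (b l : ℝ) (hb : 0 < b) (K : ℕ) (hK : 0 < K)
    (F : (Fin (6 * K + 1) → ℝ) × (Fin (6 * K + 1) → ℝ) → (SV V E → Fin (6 * K + 1)) → (E → Bool) → ℝ)
    (hF : ∀ c o, Continuous fun z => F z c o) :
    Tendsto (fun ε : ℝ => EW G (clk K ε) b l (F (CK3_x K ε, CK3_y K ε))) (𝓝[>] 0)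
      (𝓝 (EW G (clk K 0) b l (F (CK3_x K 0, CK3_y K 0)))) := by
  simp only [CK3_R_eq]
  exact (CK3_R_lim G b l hb K hK F hF).tendsto.comp (CK3_path K)

theorem EW_lim (G : Gr V E) (b l : ℝ) (hb : 0 < b) (K : ℕ) (hK : 0 < K) (f : (E → Bool) → ℝ) :
    Tendsto (fun ε : ℝ => EW G (clk K ε) b l (fun _ o => f o)) (𝓝[>] 0)
      (𝓝 (EW G (clk K 0) b l (fun _ o => f o))) :=
  CK3_lim G b l hb K hK (fun _ _ o => f o) fun _ _ => continuous_const

/-- small `ε` are good. -/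
theorem CK3_ev : ∀ᶠ ε : ℝ in 𝓝[>] 0, 0 < ε ∧ ε ≤ 1 / 4 := by
  have h1 : ∀ᶠ ε : ℝ in 𝓝[>] 0, 0 < ε := eventually_mem_nhdsWithin
  have h2 : ∀ᶠ ε : ℝ in 𝓝[>] 0, ε < 1 / 4 :=
    (eventually_lt_nhds (by norm_num : (0 : ℝ) < 1 / 4)).filter_mono nhdsWithin_le_nhds
  filter_upwards [h1, h2] with ε h3 h4
  exact ⟨h3, h4.le⟩

theorem asc0 (G : Gr V E) (b l : ℝ) (hb : 0 < b) (K : ℕ) (hK : 0 < K) (f g : (E → Bool) → ℝ)
    (hf : Monotone f) (hg : Monotone g) :
    EW G (clk K 0) b l (fun _ o => f o) * EW G (clk K 0) b l (fun _ o => g o) ≤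
      EW G (clk K 0) b l (fun _ o => f o * g o) := by
  refine le_of_tendsto_of_tendsto ((EW_lim G b l hb K hK f).mul (EW_lim G b l hb K hK g))
    (EW_lim G b l hb K hK (fun o => f o * g o)) ?_
  filter_upwards [CK3_ev] with ε hε
  exact asc G (clk K ε) (clk_ok K hK ε hε.1 hε.2) b l hb (fun _ o => f o) (fun _ o => g o)
    (fun _ _ _ _ _ h => hf h) (fun _ _ _ _ _ h => hg h)

/-- the clock two point function as an expectation of the chain model. -/
theorem CK3_two (G : Gr V E) (b l : ℝ) (K : ℕ) (hK : 0 < K) (u v : V) :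
    clE (24 * K) (hS G b l) (fun θ => cosC (θ (Sum.inl u)) * cosC (θ (Sum.inl v))) =
      EW G (clk K 0) b l (fun c o => (clk K 0).cc (c (Sum.inl u)) * (clk K 0).cc (c (Sum.inl v)) *
        ind (G.Conn (op1 o) u v)) := by
  rw [ck1 G b l K hK (Sum.inl u) (Sum.inl v)]
  unfold EW
  have h4 : (0 : ℝ) < (4 ^ Fintype.card E) ^ 2 := by positivity
  have hW : ∀ (c : SV V E → Fin (6 * K + 1)) (φ : (E → Bool) → ℝ),
      wv (clk K 0) l c * ((4 ^ Fintype.card E * (∏ e, ∏ j : Fin 3, Real.cosh (la G (clk K 0) b c (e, j))) *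
        fo G ∅ (rr G (clk K 0) b c) (fun _ => false) φ) *
        (4 ^ Fintype.card E * (∏ e, ∏ j : Fin 3, Real.cosh (lb G (clk K 0) b c (e, j))) *
          Zv G (tt G (clk K 0) b c))) =
      (4 ^ Fintype.card E) ^ 2 * ∑ o, W G (clk K 0) b l c o * φ o := by
    intro c φ
    unfold fo
    simp only [Finset.notMem_empty, false_imp_iff, implies_true, if_true, Finset.sdiff_empty]
    rw [Finset.mul_sum, Finset.mul_sum, Finset.sum_mul, Finset.mul_sum]
    refine Finset.sum_congr rfl fun o _ => ?_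
    unfold W AA
    simp only [Finset.prod_mul_distrib]
    ring
  have hN : ∀ c : SV V E → Fin (6 * K + 1), wv (clk K 0) l c *
        ((clk K 0).cc (c (Sum.inl u)) * (clk K 0).cc (c (Sum.inl v))) *
        (sgS G (la G (clk K 0) b c) (fun σ => sg (σ (Sum.inl u)) * sg (σ (Sum.inl v))) *
          sgS G (lb G (clk K 0) b c) (fun _ => 1)) =
      (4 ^ Fintype.card E) ^ 2 * ∑ o, W G (clk K 0) b l c o *
        ((clk K 0).cc (c (Sum.inl u)) * (clk K 0).cc (c (Sum.inl v)) * ind (G.Conn (op1 o) u v)) := by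
    intro c
    rw [sgS_two, sgS_one]
    have h5 := hW c (fun o => ind (G.Conn (op1 o) u v))
    have h6 : ∑ o, W G (clk K 0) b l c o *
        ((clk K 0).cc (c (Sum.inl u)) * (clk K 0).cc (c (Sum.inl v)) * ind (G.Conn (op1 o) u v)) =
        ((clk K 0).cc (c (Sum.inl u)) * (clk K 0).cc (c (Sum.inl v))) *
          ∑ o, W G (clk K 0) b l c o * ind (G.Conn (op1 o) u v) := by
      rw [Finset.mul_sum]
      refine Finset.sum_congr rfl fun o _ => ?_
      ring
    unfold rr tt at h5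
    rw [h6]
    linear_combination ((clk K 0).cc (c (Sum.inl u)) * (clk K 0).cc (c (Sum.inl v))) * h5
  have hD : ∀ c : SV V E → Fin (6 * K + 1), wv (clk K 0) l c *
        (sgS G (la G (clk K 0) b c) (fun _ => 1) * sgS G (lb G (clk K 0) b c) (fun _ => 1)) =
      (4 ^ Fintype.card E) ^ 2 * ∑ o, W G (clk K 0) b l c o := by
    intro c
    rw [sgS_one, sgS_one]
    have h5 := hW c (fun _ => 1)
    rw [fo_sum] at h5
    simp only [Finset.notMem_empty, if_false, mul_one] at h5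
    rw [← h5]
    unfold rr tt
    rfl
  rw [Finset.sum_congr rfl fun c _ => hN c, Finset.sum_congr rfl fun c _ => hD c, ← Finset.mul_sum,
    ← Finset.mul_sum, mul_div_mul_left _ _ h4.ne']
  rfl

/-- mean of the modulus. -/
theorem CK3_mean (G : Gr V E) (hG : Deg4 G) (M : Al) (hM : M.Ok) (b l : ℝ) (hb : 0 < b) (hl : 0 ≤ l)
    (w : SV V E) : Real.exp (-(8 * b + l)) / 5 ≤ EW G M b l (fun c _ => M.cc (c w)) := by
  have h1 := fin_en G hG M hM b l hb hl ∅ ∅ (by simp) (fun _ => 0) (by simp) (by simp)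
    (fun _ => 0) (fun _ => false) w (by simp) M.hi
  have h2 : ∀ f, EB G M b l ∅ ∅ (fun _ => 0) (fun _ => 0) (fun _ => false) f = EW G M b l f := by
    intro f
    have h3 : ∀ f, SB G M b l ∅ ∅ (fun _ => 0) (fun _ => 0) (fun _ => false) f =
        ∑ c, ∑ o, W G M b l c o * f c o := by
      intro f
      unfold SB
      refine Finset.sum_congr rfl fun c _ => Finset.sum_congr rfl fun o _ => ?_
      rw [if_pos ⟨by simp, by simp⟩]
      unfold WB W
      simp
    unfold EB EW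
    rw [h3, h3]
    simp
  rw [h2] at h1
  have hZ : 0 < ∑ c, ∑ o, W G M b l c o :=
    Finset.sum_pos (fun c _ => Finset.sum_pos (fun o _ => W_pos G M hM b l hb c o)
      ⟨fun _ => false, Finset.mem_univ _⟩) ⟨fun _ => 0, Finset.mem_univ _⟩
  have h3 : (4 / 5 : ℝ) * EW G M b l (fun c _ => if c w ∈ M.hi then 1 else 0) ≤
      EW G M b l (fun c _ => M.cc (c w)) := by
    unfold EW
    rw [← mul_div_assoc]
    refine div_le_div_of_nonneg_right ?_ hZ.le
    rw [Finset.mul_sum]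
    refine Finset.sum_le_sum fun c _ => ?_
    rw [Finset.mul_sum]
    refine Finset.sum_le_sum fun o _ => ?_
    rw [mul_left_comm]
    refine mul_le_mul_of_nonneg_left ?_ (W_pos G M hM b l hb c o).le
    show 4 / 5 * (if c w ∈ M.hi then (1 : ℝ) else 0) ≤ M.cc (c w)
    split_ifs with h
    · linarith [((CK3_mem_hi M (c w)).1 h).1]
    · linarith [hM.cc0 (c w)]
  have h4 : Real.exp (-(8 * b + l)) * (1 / 4) ≤ Real.exp (-(8 * b + l)) * ∑ v ∈ M.hi, M.nu v :=
    mul_le_mul_of_nonneg_left hM.hi (Real.exp_pos _).le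
  linarith

/-- monotonicity of connections. -/
theorem CK3_conn_mono (G : Gr V E) (u v : V) : Monotone (fun o : E → Bool => ind (G.Conn (op1 o) u v)) := by
  intro o o' h
  show ind (G.Conn (op1 o) u v) ≤ ind (G.Conn (op1 o') u v)
  unfold ind
  by_cases h1 : G.Conn (op1 o) u v
  · have h2 : G.Conn (op1 o') u v := by
      refine Relation.ReflTransGen.mono ?_ _ _ h1
      rintro x y ⟨e, he, hxy⟩
      refine ⟨e, ?_, hxy⟩
      have h3 := h e
      have he' : o e = true := he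
      rw [he'] at h3
      show o' e = true
      cases h4 : o' e
      · rw [h4] at h3
        exact absurd h3 (by simp)
      · rfl
    rw [if_pos h1, if_pos h2]
  · rw [if_neg h1]
    split_ifs <;> norm_num

theorem CK3_ind01 (p : Prop) : 0 ≤ ind p ∧ ind p ≤ 1 := by
  unfold ind
  split_ifs <;> norm_num

/-- lower bound of the clock two point function. -/
theorem low0 (G : Gr V E) (hG : Deg4 G) (b l : ℝ) (hb : 0 < b) (hl : 0 ≤ l) (K : ℕ) (hK : 0 < K) (u v : V) :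
    (Real.exp (-(8 * b + l)) / 5) ^ 2 * EW G (clk K 0) b l (fun _ o => ind (G.Conn (op1 o) u v)) ≤
      clE (24 * K) (hS G b l) (fun θ => cosC (θ (Sum.inl u)) * cosC (θ (Sum.inl v))) := by
  rw [CK3_two G b l K hK u v]
  have hlim := CK3_lim G b l hb K hK
    (fun z c o => z.1 (c (Sum.inl u)) * z.1 (c (Sum.inl v)) * ind (G.Conn (op1 o) u v))
    (fun c o => by fun_prop)
  refine le_of_tendsto_of_tendsto
    ((EW_lim G b l hb K hK (fun o => ind (G.Conn (op1 o) u v))).const_mul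
      ((Real.exp (-(8 * b + l)) / 5) ^ 2)) hlim ?_
  filter_upwards [CK3_ev] with ε hε
  have hM := clk_ok K hK ε hε.1 hε.2
  have m1 := CK3_mean G hG (clk K ε) hM b l hb hl (Sum.inl u)
  have m2 := CK3_mean G hG (clk K ε) hM b l hb hl (Sum.inl v)
  have hi := CK3_conn_mono G u v
  have a1 := asc G (clk K ε) hM b l hb (fun c _ => (clk K ε).cc (c (Sum.inl u)))
    (fun c o => (clk K ε).cc (c (Sum.inl v)) * ind (G.Conn (op1 o) u v))
    (fun c c' _ _ hc _ => hM.mono (hc _))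
    (fun c c' o o' hc ho => mul_le_mul (hM.mono (hc _)) (hi ho) (CK3_ind01 _).1 (hM.cc0 _).le)
  have a2 := asc G (clk K ε) hM b l hb (fun c _ => (clk K ε).cc (c (Sum.inl v)))
    (fun c o => ind (G.Conn (op1 o) u v))
    (fun c c' _ _ hc _ => hM.mono (hc _))
    (fun c c' o o' _ ho => hi ho)
  have hZ : 0 < ∑ c, ∑ o, W G (clk K ε) b l c o :=
    Finset.sum_pos (fun c _ => Finset.sum_pos (fun o _ => W_pos G (clk K ε) hM b l hb c o)
      ⟨fun _ => false, Finset.mem_univ _⟩) ⟨fun _ => 0, Finset.mem_univ _⟩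
  have hI : 0 ≤ EW G (clk K ε) b l (fun c o => ind (G.Conn (op1 o) u v)) := by
    unfold EW
    refine div_nonneg (Finset.sum_nonneg fun c _ => Finset.sum_nonneg fun o _ => ?_) hZ.le
    exact mul_nonneg (W_pos G (clk K ε) hM b l hb c o).le (CK3_ind01 _).1
  have hq : 0 < Real.exp (-(8 * b + l)) / 5 := by positivity
  have e1 : (fun (c : SV V E → Fin ((clk K ε).k + 1)) (o : E → Bool) =>
      (clk K ε).cc (c (Sum.inl u)) * ((clk K ε).cc (c (Sum.inl v)) * ind (G.Conn (op1 o) u v))) =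
      fun c o => (clk K ε).cc (c (Sum.inl u)) * (clk K ε).cc (c (Sum.inl v)) *
        ind (G.Conn (op1 o) u v) := by
    funext c o
    ring
  rw [e1] at a1
  have s1 : Real.exp (-(8 * b + l)) / 5 * EW G (clk K ε) b l (fun c o => ind (G.Conn (op1 o) u v)) ≤
      EW G (clk K ε) b l (fun c o => (clk K ε).cc (c (Sum.inl v)) * ind (G.Conn (op1 o) u v)) :=
    (mul_le_mul_of_nonneg_right m2 hI).trans a2
  have s2 : Real.exp (-(8 * b + l)) / 5 * (Real.exp (-(8 * b + l)) / 5 *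
      EW G (clk K ε) b l (fun c o => ind (G.Conn (op1 o) u v))) ≤
      EW G (clk K ε) b l (fun c _ => (clk K ε).cc (c (Sum.inl u))) *
      EW G (clk K ε) b l (fun c o => (clk K ε).cc (c (Sum.inl v)) * ind (G.Conn (op1 o) u v)) :=
    mul_le_mul m1 s1 (mul_nonneg hq.le hI) (hq.le.trans m1)
  have s3 := s2.trans a1
  rw [sq, mul_assoc]
  exact s3

/-- upper bound. -/
theorem up0 (G : Gr V E) (b l : ℝ) (hb : 0 < b) (K : ℕ) (hK : 0 < K) (p q : SV V E) :
    clE (24 * K) (hS G b l) (fun θ => cosC (θ p) * cosC (θ q)) ≤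
      ∑ x ∈ en G p, ∑ y ∈ en G q, EW G (clk K 0) b l (fun _ o => ind (G.Conn (op1 o) x y)) := by
  rw [ck1 G b l K hK p q]
  have h4 : (0 : ℝ) < (4 ^ Fintype.card E) ^ 2 := by positivity
  have hx := fun i => CK3_x01 K hK 0 le_rfl i
  have hla : ∀ (c : SV V E → Fin (6 * K + 1)) t, 0 ≤ la G (clk K 0) b c t := fun c t =>
    mul_nonneg hb.le (mul_nonneg (hx _).1 (hx _).1)
  have hlb : ∀ (c : SV V E → Fin (6 * K + 1)) t, 0 ≤ lb G (clk K 0) b c t := fun c t =>
    mul_nonneg hb.le (mul_nonneg (hx _).2.2.1 (hx _).2.2.1)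
  have hW : ∀ (c : SV V E → Fin (6 * K + 1)) (φ : (E → Bool) → ℝ),
      wv (clk K 0) l c * ((4 ^ Fintype.card E * (∏ e, ∏ j : Fin 3, Real.cosh (la G (clk K 0) b c (e, j))) *
        fo G ∅ (rr G (clk K 0) b c) (fun _ => false) φ) *
        (4 ^ Fintype.card E * (∏ e, ∏ j : Fin 3, Real.cosh (lb G (clk K 0) b c (e, j))) *
          Zv G (tt G (clk K 0) b c))) =
      (4 ^ Fintype.card E) ^ 2 * ∑ o, W G (clk K 0) b l c o * φ o := by
    intro c φ
    unfold fo
    simp only [Finset.notMem_empty, false_imp_iff, implies_true, if_true, Finset.sdiff_empty]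
    rw [Finset.mul_sum, Finset.mul_sum, Finset.sum_mul, Finset.mul_sum]
    refine Finset.sum_congr rfl fun o _ => ?_
    unfold W AA
    simp only [Finset.prod_mul_distrib]
    ring
  have hD : ∀ c : SV V E → Fin (6 * K + 1), wv (clk K 0) l c *
        (sgS G (la G (clk K 0) b c) (fun _ => 1) * sgS G (lb G (clk K 0) b c) (fun _ => 1)) =
      (4 ^ Fintype.card E) ^ 2 * ∑ o, W G (clk K 0) b l c o := by
    intro c
    rw [sgS_one, sgS_one]
    have h5 := hW c (fun _ => 1)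
    rw [fo_sum] at h5
    simp only [Finset.notMem_empty, if_false, mul_one] at h5
    rw [← h5]
    unfold rr tt
    rfl
  have hT : ∀ (c : SV V E → Fin (6 * K + 1)) (x y : V), wv (clk K 0) l c *
        (sgS G (la G (clk K 0) b c) (fun σ => sg (σ (Sum.inl x)) * sg (σ (Sum.inl y))) *
          sgS G (lb G (clk K 0) b c) (fun _ => 1)) =
      (4 ^ Fintype.card E) ^ 2 * ∑ o, W G (clk K 0) b l c o * ind (G.Conn (op1 o) x y) := by
    intro c x y
    rw [sgS_two, sgS_one]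
    have h5 := hW c (fun o => ind (G.Conn (op1 o) x y))
    rw [← h5]
    unfold rr tt
    rfl
  have hwv : ∀ c : SV V E → Fin (6 * K + 1), 0 < wv (clk K 0) l c := fun c =>
    Finset.prod_pos fun w _ => mul_pos (CK3_nu_pos K hK _ _ _) (Real.exp_pos _)
  have hone : ∀ c : SV V E → Fin (6 * K + 1), 0 ≤ sgS G (lb G (clk K 0) b c) (fun _ => 1) := by
    intro c
    unfold sgS
    exact Finset.sum_nonneg fun σ _ => mul_nonneg zero_le_one (Finset.prod_nonneg fun t _ => (Real.exp_pos _).le)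
  have hnn : ∀ (c : SV V E → Fin (6 * K + 1)) (x y : V),
      0 ≤ sgS G (la G (clk K 0) b c) (fun σ => sg (σ (Sum.inl x)) * sg (σ (Sum.inl y))) := by
    intro c x y
    rw [sgS_two]
    refine mul_nonneg (mul_nonneg (by positivity) (Finset.prod_nonneg fun e _ =>
      Finset.prod_nonneg fun j _ => (Real.cosh_pos _).le)) ?_
    unfold fo
    refine Finset.sum_nonneg fun o _ => ?_
    split_ifs
    · refine mul_nonneg (mul_nonneg (Finset.prod_nonneg fun e _ => ?_) (Zv_pos G (bt o) ?_ ?_).le)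
        (CK3_ind01 _).1
      · have r0 : 0 ≤ ∏ j : Fin 3, Real.tanh (la G (clk K 0) b c (e, j)) :=
          Finset.prod_nonneg fun j _ => CK3_tanh_nonneg (hla c (e, j))
        have r1 : ∏ j : Fin 3, Real.tanh (la G (clk K 0) b c (e, j)) ≤ 1 :=
          Finset.prod_le_one (fun j _ => CK3_tanh_nonneg (hla c (e, j))) fun j _ => (CK3_tanh_lt _).le
        split_ifs
        · exact r0
        · linarith
      · intro e
        unfold bt
        split_ifs <;> norm_num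
      · intro e
        unfold bt
        split_ifs <;> norm_num
    · exact le_rfl
  have hnum : ∀ c : SV V E → Fin (6 * K + 1), wv (clk K 0) l c *
        ((clk K 0).cc (c p) * (clk K 0).cc (c q)) *
        (sgS G (la G (clk K 0) b c) (fun σ => sg (σ p) * sg (σ q)) * sgS G (lb G (clk K 0) b c) (fun _ => 1)) ≤
      ∑ x ∈ en G p, ∑ y ∈ en G q,
        (4 ^ Fintype.card E) ^ 2 * ∑ o, W G (clk K 0) b l c o * ind (G.Conn (op1 o) x y) := by
    intro c
    have e1 : ∑ x ∈ en G p, ∑ y ∈ en G q,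
        (4 ^ Fintype.card E) ^ 2 * ∑ o, W G (clk K 0) b l c o * ind (G.Conn (op1 o) x y) =
        wv (clk K 0) l c * sgS G (lb G (clk K 0) b c) (fun _ => 1) *
        ∑ x ∈ en G p, ∑ y ∈ en G q,
          sgS G (la G (clk K 0) b c) (fun σ => sg (σ (Sum.inl x)) * sg (σ (Sum.inl y))) := by
      rw [Finset.mul_sum]
      refine Finset.sum_congr rfl fun x _ => ?_
      rw [Finset.mul_sum]
      refine Finset.sum_congr rfl fun y _ => ?_
      rw [← hT]
      ring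
    rw [e1]
    have h6 := sgS_ends G (la G (clk K 0) b c) (hla c) p q
    have h7 : 0 ≤ ∑ x ∈ en G p, ∑ y ∈ en G q,
        sgS G (la G (clk K 0) b c) (fun σ => sg (σ (Sum.inl x)) * sg (σ (Sum.inl y))) :=
      Finset.sum_nonneg fun x _ => Finset.sum_nonneg fun y _ => hnn c x y
    have h8 : 0 ≤ (clk K 0).cc (c p) * (clk K 0).cc (c q) := mul_nonneg (hx _).1 (hx _).1
    have h9 : (clk K 0).cc (c p) * (clk K 0).cc (c q) ≤ 1 :=
      mul_le_one₀ (hx _).2.1 (hx _).1 (hx _).2.1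
    have h10 : ((clk K 0).cc (c p) * (clk K 0).cc (c q)) *
        sgS G (la G (clk K 0) b c) (fun σ => sg (σ p) * sg (σ q)) ≤
        ∑ x ∈ en G p, ∑ y ∈ en G q,
          sgS G (la G (clk K 0) b c) (fun σ => sg (σ (Sum.inl x)) * sg (σ (Sum.inl y))) := by
      refine (mul_le_mul_of_nonneg_left h6 h8).trans ?_
      calc _ ≤ 1 * ∑ x ∈ en G p, ∑ y ∈ en G q,
          sgS G (la G (clk K 0) b c) (fun σ => sg (σ (Sum.inl x)) * sg (σ (Sum.inl y))) :=
            mul_le_mul_of_nonneg_right h9 h7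
        _ = _ := one_mul _
    have h11 := mul_le_mul_of_nonneg_left h10 (mul_nonneg (hwv c).le (hone c))
    calc _ = wv (clk K 0) l c * sgS G (lb G (clk K 0) b c) (fun _ => 1) *
        (((clk K 0).cc (c p) * (clk K 0).cc (c q)) *
        sgS G (la G (clk K 0) b c) (fun σ => sg (σ p) * sg (σ q))) := by ring
      _ ≤ _ := h11
  have hZ := W0_pos G b l hb K hK
  have hZ' : 0 < (4 ^ Fintype.card E) ^ 2 * ∑ c : SV V E → Fin (6 * K + 1), ∑ o, W G (clk K 0) b l c o :=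
    mul_pos h4 hZ
  rw [Finset.sum_congr rfl fun c _ => hD c, ← Finset.mul_sum, div_le_iff₀ hZ']
  refine (Finset.sum_le_sum fun c _ => hnum c).trans (le_of_eq ?_)
  rw [Finset.sum_mul, Finset.sum_comm]
  refine Finset.sum_congr rfl fun x _ => ?_
  rw [Finset.sum_mul, Finset.sum_comm]
  refine Finset.sum_congr rfl fun y _ => ?_
  rw [← Finset.mul_sum]
  have h12 : EW G (clk K 0) b l (fun _ o => ind (G.Conn (op1 o) x y)) *
      ∑ c : SV V E → Fin (6 * K + 1), ∑ o, W G (clk K 0) b l c o =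
      ∑ c : SV V E → Fin (6 * K + 1), ∑ o, W G (clk K 0) b l c o * ind (G.Conn (op1 o) x y) := by
    unfold EW
    exact div_mul_cancel₀ _ hZ.ne'
  rw [mul_left_comm, h12]

/-- the covariance as a function of the moduli. -/
noncomputable def CK3_C (G : Gr V E) (b l : ℝ) (K : ℕ) (f : (E → Bool) → ℝ) (w : SV V E)
    (z : (Fin (6 * K + 1) → ℝ) × (Fin (6 * K + 1) → ℝ)) : ℝ :=
  (∑ x : (∀ i, XI (6 * K) V E i), (W G (CK3_M K z.1 z.2) b l (pc x) (po x) /
      ∑ c : SV V E → Fin (6 * K + 1), ∑ o, W G (CK3_M K z.1 z.2) b l c o) *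
      (f (po x) * z.1 (pc x w) ^ 2)) -
    (∑ x : (∀ i, XI (6 * K) V E i), (W G (CK3_M K z.1 z.2) b l (pc x) (po x) /
      ∑ c : SV V E → Fin (6 * K + 1), ∑ o, W G (CK3_M K z.1 z.2) b l c o) * f (po x)) *
    ∑ x : (∀ i, XI (6 * K) V E i), (W G (CK3_M K z.1 z.2) b l (pc x) (po x) /
      ∑ c : SV V E → Fin (6 * K + 1), ∑ o, W G (CK3_M K z.1 z.2) b l c o) * z.1 (pc x w) ^ 2

theorem CK3_C_eq (G : Gr V E) (b l : ℝ) (K : ℕ) (f : (E → Bool) → ℝ) (w : SV V E) (ε : ℝ) :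
    cv G (clk K ε) b l (fun y => f (po y)) w = CK3_C G b l K f w (CK3_x K ε, CK3_y K ε) := rfl

theorem CK3_C_cont (G : Gr V E) (b l : ℝ) (hb : 0 < b) (K : ℕ) (hK : 0 < K) (f : (E → Bool) → ℝ)
    (w : SV V E) : ContinuousAt (CK3_C G b l K f w) (CK3_x K 0, CK3_y K 0) := by
  have hne : ∑ c : SV V E → Fin (6 * K + 1), ∑ o, W G (CK3_M K (CK3_x K 0) (CK3_y K 0)) b l c o ≠ 0 :=
    (CK3_Zpos G b l hb K hK _ _ (fun i => (CK3_x01 K hK 0 le_rfl i).1)
        (fun i => (CK3_x01 K hK 0 le_rfl i).2.2.1)).ne'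
  have hm : ∀ x : (∀ i, XI (6 * K) V E i),
      ContinuousAt (fun z : (Fin (6 * K + 1) → ℝ) × (Fin (6 * K + 1) → ℝ) =>
        W G (CK3_M K z.1 z.2) b l (pc x) (po x) /
      ∑ c : SV V E → Fin (6 * K + 1), ∑ o, W G (CK3_M K z.1 z.2) b l c o) (CK3_x K 0, CK3_y K 0) := by
    intro x
    exact (CK3_cont G b l K (pc x) (po x)).continuousAt.div (CK3_contZ G b l K).continuousAt hne
  have hc : ∀ x : (∀ i, XI (6 * K) V E i),
      ContinuousAt (fun z : (Fin (6 * K + 1) → ℝ) × (Fin (6 * K + 1) → ℝ) =>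
        z.1 (pc x w) ^ 2) (CK3_x K 0, CK3_y K 0) := by
    intro x
    have h1 : Continuous (fun z : (Fin (6 * K + 1) → ℝ) × (Fin (6 * K + 1) → ℝ) =>
        z.1 (pc x w) ^ 2) := by fun_prop
    exact h1.continuousAt
  unfold CK3_C
  refine ContinuousAt.sub ?_ (ContinuousAt.mul ?_ ?_)
  · exact tendsto_finsetSum _ fun x _ => (hm x).mul (continuousAt_const.mul (hc x))
  · exact tendsto_finsetSum _ fun x _ => (hm x).mul continuousAt_const
  · exact tendsto_finsetSum _ fun x _ => (hm x).mul (hc x)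

/-- continuity of the covariances. -/
theorem CK3_cv (G : Gr V E) (b l : ℝ) (hb : 0 < b) (K : ℕ) (hK : 0 < K) (f : (E → Bool) → ℝ) (w : SV V E) :
    Tendsto (fun ε : ℝ => cv G (clk K ε) b l (fun y => f (po y)) w) (𝓝[>] 0)
      (𝓝 (cv G (clk K 0) b l (fun y => f (po y)) w)) := by
  simp only [CK3_C_eq]
  exact (CK3_C_cont G b l hb K hK f w).tendsto.comp (CK3_path K)

end gen

theorem CK3_hasDeriv (L : ℕ) [NeZero L] (K : ℕ) (hK : 0 < K) (b : ℝ) (hb : 0 < b) (ε : ℝ) (hε : 0 ≤ ε)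
    (n : ℕ) (l : ℝ) : HasDerivAt (fT L (clk K ε) b n)
      (∑ w, pn w * cv (TD L) (clk K ε) b l (fun y => ind (armT n 0 (po y))) w) l :=
  EW_deriv (TD L) (clk K ε) b
    (fun l => CK3_Zpos (TD L) b l hb K hK _ _ (fun i => (CK3_x01 K hK ε hε i).1)
      (fun i => (CK3_x01 K hK ε hε i).2.2.1)) (fun o => ind (armT n 0 o)) l

theorem fT_DR0 (b Λ : ℝ) (hb : 0 < b) (hΛ : 0 < Λ) : ∃ C0 : ℝ, 0 < C0 ∧
    ∀ (L : ℕ) [NeZero L] (K : ℕ), 0 < K → DR C0 Λ (fT L (clk K 0) b) := by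
  obtain ⟨C0, hC0, h⟩ := fT_DR b Λ hb hΛ
  refine ⟨C0, hC0, ?_⟩
  intro L _ K hK
  have hd : ∀ ε : ℝ, 0 < ε ∧ ε ≤ 1 / 4 → DR C0 Λ (fT L (clk K ε) b) := fun ε hε =>
    h L (clk K ε) (clk_ok K hK ε hε.1 hε.2)
  have hl : ∀ n l, Tendsto (fun ε : ℝ => fT L (clk K ε) b n l) (𝓝[>] 0) (𝓝 (fT L (clk K 0) b n l)) :=
    fun n l => EW_lim (TD L) b l hb K hK (fun o => ind (armT n 0 o))
  have hdl : ∀ n l, Tendsto (fun ε : ℝ => deriv (fT L (clk K ε) b n) l) (𝓝[>] 0)
      (𝓝 (deriv (fT L (clk K 0) b n) l)) := by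
    intro n l
    rw [(CK3_hasDeriv L K hK b hb 0 le_rfl n l).deriv]
    have h1 : Tendsto (fun ε : ℝ => ∑ w, pn w * cv (TD L) (clk K ε) b l (fun y => ind (armT n 0 (po y))) w)
        (𝓝[>] 0) (𝓝 (∑ w, pn w * cv (TD L) (clk K 0) b l (fun y => ind (armT n 0 (po y))) w)) :=
      tendsto_finsetSum _ fun w _ => (CK3_cv (TD L) b l hb K hK (fun o => ind (armT n 0 o)) w).const_mul _
    refine h1.congr' ?_
    filter_upwards [CK3_ev] with ε hε
    rw [(CK3_hasDeriv L K hK b hb ε hε.1.le n l).deriv]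
  refine ⟨?_, ?_, ?_, ?_, ?_, ?_⟩
  · intro l hl'
    refine tendsto_nhds_unique (hl 0 l) ?_
    refine (tendsto_const_nhds (x := (1 : ℝ))).congr' ?_
    filter_upwards [CK3_ev] with ε hε
    exact ((hd ε hε).zero l hl').symm
  · intro n l hl'
    refine ge_of_tendsto (hl n l) ?_
    filter_upwards [CK3_ev] with ε hε
    exact (hd ε hε).nonneg n l hl'
  · intro n l hl'
    refine le_of_tendsto_of_tendsto (hl (n + 1) l) (hl n l) ?_
    filter_upwards [CK3_ev] with ε hε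
    exact (hd ε hε).anti n l hl'
  · intro n l hl' l' hl'' hll
    refine le_of_tendsto_of_tendsto (hl n l) (hl n l') ?_
    filter_upwards [CK3_ev] with ε hε
    exact (hd ε hε).mono n hl' hl'' hll
  · intro n l
    exact (CK3_hasDeriv L K hK b hb 0 le_rfl n l).differentiableAt
  · intro n l hl'
    refine le_of_tendsto_of_tendsto ((hl n l).const_mul (n : ℝ))
      (((tendsto_finsetSum _ fun j _ => hl j l).const_mul C0).mul (hdl n l)) ?_
    filter_upwards [CK3_ev] with ε hε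
    exact (hd ε hε).ineq n l hl'

end H82.BX
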