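import Pool.Agent.H82.BX.CK3
import Pool.Agent.H82.BX.DIF

/-!
# CK4: the clock chain model at `ε = 0`

* `fT_DR0`: `DR C0 Λ (fT L (clk K ε) b)` for small `ε > 0` (`fT_DR`, `clk_ok`), let `ε → 0` (`EW_lim`): the monotonicity fields pass to the limit; `deriv` is given by `EW_deriv` (both for `ε > 0` and `ε = 0`), which is continuous in `ε`
  (it is a combination of `EW`'s of functions of `(c, o)`: numerators and denominators are finite sums of continuous functions of `ε`).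
* `asc0`: association for `clk K ε` (`asc`), limit.
* `low0`: `EW cc(c v) ≥ (4/5) (1/4) e^{-8b-l}` by `fin_en` with `A = ∅`, `B = ∅` (`EB` with empty sets is `EW`), so
  `EW (cc_u cc_v ind) ≥ EW cc_u EW cc_v EW ind` (association for increasing functions of `(c, o)`: `asc`, for `ε > 0`, then the limit).  The clock expectation is `EW (cc_u cc_v ind(u ↔ v))` by `ck1`, `sgS_one`, `sgS_two`.
* `up0`: `ck1`, `sgS_one`, `sgS_two`, `sgS_ends` (at fixed `c`), `cc ≤ 1`.
-/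

set_option autoImplicit false

open Finset MeasureTheory Filter Topology

namespace H82.BX

open H82.IC XYB

section gen
variable {V E : Type} [Fintype V] [DecidableEq V] [Fintype E] [DecidableEq E]

omit [Fintype V] [DecidableEq V] [Fintype E] [DecidableEq E] in
theorem ck4_tanh : Continuous Real.tanh := by
  have h : Real.tanh = fun x => Real.sinh x / Real.cosh x := by
    funext x; exact Real.tanh_eq_sinh_div_cosh x
  rw [h]
  exact Real.continuous_sinh.div Real.continuous_cosh (fun x => (Real.cosh_pos x).ne')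

theorem ck4_cc (K : ℕ) (c : Fin (6 * K + 1)) :
    Tendsto (fun ε : ℝ => (clk K ε).cc c) (𝓝[>] 0) (𝓝 ((clk K 0).cc c)) := by
  have h : ContinuousAt (fun ε : ℝ => (Real.sin (c.val * Real.pi / (12 * K)) + ε) / (1 + ε)) 0 := by
    refine ContinuousAt.div ?_ ?_ ?_
    · fun_prop
    · fun_prop
    · norm_num
  exact h.tendsto.mono_left nhdsWithin_le_nhds

theorem ck4_ss (K : ℕ) (c : Fin (6 * K + 1)) :
    Tendsto (fun ε : ℝ => (clk K ε).ss c) (𝓝[>] 0) (𝓝 ((clk K 0).ss c)) := by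
  have h : ContinuousAt (fun ε : ℝ => (Real.cos (c.val * Real.pi / (12 * K)) + ε) / (1 + ε)) 0 := by
    refine ContinuousAt.div ?_ ?_ ?_
    · fun_prop
    · fun_prop
    · norm_num
  exact h.tendsto.mono_left nhdsWithin_le_nhds

theorem ck4_W (G : Gr V E) (b l : ℝ) (K : ℕ) (c : SV V E → Fin (6 * K + 1)) (o : E → Bool) :
    Tendsto (fun ε : ℝ => W G (clk K ε) b l c o) (𝓝[>] 0) (𝓝 (W G (clk K 0) b l c o)) := by
  have hla : ∀ e, Tendsto (fun ε : ℝ => la G (clk K ε) b c e) (𝓝[>] 0) (𝓝 (la G (clk K 0) b c e)) :=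
    fun e => ((ck4_cc K _).mul (ck4_cc K _)).const_mul b
  have hlb : ∀ e, Tendsto (fun ε : ℝ => lb G (clk K ε) b c e) (𝓝[>] 0) (𝓝 (lb G (clk K 0) b c e)) :=
    fun e => ((ck4_ss K _).mul (ck4_ss K _)).const_mul b
  have hrr : ∀ e, Tendsto (fun ε : ℝ => rr G (clk K ε) b c e) (𝓝[>] 0) (𝓝 (rr G (clk K 0) b c e)) :=
    fun e => tendsto_finsetProd _ (fun j _ => (ck4_tanh.tendsto _).comp (hla (e, j)))
  have htt : ∀ e, Tendsto (fun ε : ℝ => tt G (clk K ε) b c e) (𝓝[>] 0) (𝓝 (tt G (clk K 0) b c e)) :=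
    fun e => tendsto_finsetProd _ (fun j _ => (ck4_tanh.tendsto _).comp (hlb (e, j)))
  have hAA : ∀ e, Tendsto (fun ε : ℝ => AA G (clk K ε) b c e) (𝓝[>] 0) (𝓝 (AA G (clk K 0) b c e)) :=
    fun e => tendsto_finsetProd _ (fun j _ => ((Real.continuous_cosh.tendsto _).comp (hla (e, j))).mul
      ((Real.continuous_cosh.tendsto _).comp (hlb (e, j))))
  have hwv : Tendsto (fun ε : ℝ => wv (clk K ε) l c) (𝓝[>] 0) (𝓝 (wv (clk K 0) l c)) :=
    tendsto_finsetProd _ (fun w _ => tendsto_const_nhds.mul ((Real.continuous_exp.tendsto _).comp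
      (((ck4_cc K (c w)).pow 2).const_mul (l * pn w))))
  have hZ : Tendsto (fun ε : ℝ => Zv G (tt G (clk K ε) b c)) (𝓝[>] 0) (𝓝 (Zv G (tt G (clk K 0) b c))) :=
    tendsto_finsetSum _ (fun σ _ => tendsto_finsetProd _ (fun e _ =>
      tendsto_const_nhds.add ((htt e).mul tendsto_const_nhds)))
  have hP : Tendsto (fun ε : ℝ => ∏ e, AA G (clk K ε) b c e * (if o e then rr G (clk K ε) b c e
      else 1 - rr G (clk K ε) b c e)) (𝓝[>] 0) (𝓝 (∏ e, AA G (clk K 0) b c e * (if o e then rr G (clk K 0) b c e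
      else 1 - rr G (clk K 0) b c e))) := by
    refine tendsto_finsetProd _ (fun e _ => (hAA e).mul ?_)
    by_cases h : o e = true
    · simp only [h, if_true]; exact hrr e
    · simp only [h]; exact tendsto_const_nhds.sub (hrr e)
  exact (hwv.mul hP).mul (tendsto_const_nhds.mul hZ)

theorem ck4_lim (G : Gr V E) (b l : ℝ) (hb : 0 < b) (K : ℕ) (hK : 0 < K)
    (F : ℝ → (SV V E → Fin (6 * K + 1)) → (E → Bool) → ℝ)
    (F0 : (SV V E → Fin (6 * K + 1)) → (E → Bool) → ℝ)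
    (hF : ∀ c o, Tendsto (fun ε => F ε c o) (𝓝[>] 0) (𝓝 (F0 c o))) :
    Tendsto (fun ε : ℝ => EW G (clk K ε) b l (F ε)) (𝓝[>] 0) (𝓝 (EW G (clk K 0) b l F0)) := by
  have h1 : Tendsto (fun ε : ℝ => ∑ c : SV V E → Fin (6 * K + 1), ∑ o, W G (clk K ε) b l c o * F ε c o)
      (𝓝[>] 0) (𝓝 (∑ c : SV V E → Fin (6 * K + 1), ∑ o, W G (clk K 0) b l c o * F0 c o)) :=
    tendsto_finsetSum _ (fun c _ => tendsto_finsetSum _ (fun o _ => (ck4_W G b l K c o).mul (hF c o)))
  have h2 : Tendsto (fun ε : ℝ => ∑ c : SV V E → Fin (6 * K + 1), ∑ o, W G (clk K ε) b l c o)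
      (𝓝[>] 0) (𝓝 (∑ c : SV V E → Fin (6 * K + 1), ∑ o, W G (clk K 0) b l c o)) :=
    tendsto_finsetSum _ (fun c _ => tendsto_finsetSum _ (fun o _ => ck4_W G b l K c o))
  exact h1.div h2 (W0_pos G b l hb K hK).ne'

omit [Fintype V] [DecidableEq V] [Fintype E] [DecidableEq E] in
theorem ck4_ev (K : ℕ) (hK : 0 < K) : ∀ᶠ ε : ℝ in 𝓝[>] 0, 0 < ε ∧ (clk K ε).Ok := by
  filter_upwards [Ioo_mem_nhdsGT (show (0:ℝ) < 1 / 4 by norm_num)] with ε hε
  exact ⟨hε.1, clk_ok K hK ε hε.1 hε.2.le⟩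

theorem asc0 (G : Gr V E) (b l : ℝ) (hb : 0 < b) (K : ℕ) (hK : 0 < K) (f g : (E → Bool) → ℝ)
    (hf : Monotone f) (hg : Monotone g) :
    EW G (clk K 0) b l (fun _ o => f o) * EW G (clk K 0) b l (fun _ o => g o) ≤
      EW G (clk K 0) b l (fun _ o => f o * g o) := by
  refine le_of_tendsto_of_tendsto ((EW_lim G b l hb K hK f).mul (EW_lim G b l hb K hK g))
    (EW_lim G b l hb K hK (fun o => f o * g o)) ?_
  filter_upwards [ck4_ev K hK] with ε hε
  exact asc G (clk K ε) hε.2 b l hb (fun _ o => f o) (fun _ o => g o)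
    (fun _ _ _ _ _ ho => hf ho) (fun _ _ _ _ _ ho => hg ho)

theorem ck4_row (G : Gr V E) (M : Al) (b l : ℝ) (c : SV V E → Fin (M.k + 1)) (φ : (E → Bool) → ℝ) :
    ∑ o, W G M b l c o * φ o = wv M l c * (∏ e, AA G M b c e) *
      (fo G ∅ (rr G M b c) (fun _ => false) φ * Zv G (tt G M b c)) := by
  unfold fo W
  rw [Finset.sum_mul, Finset.mul_sum]
  refine Finset.sum_congr rfl (fun o _ => ?_)
  rw [if_pos (by simp), Finset.sdiff_empty, Finset.prod_mul_distrib]
  ring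

theorem ck4_row1 (G : Gr V E) (M : Al) (b l : ℝ) (c : SV V E → Fin (M.k + 1)) :
    16 ^ Fintype.card E * ∑ o, W G M b l c o = wv M l c *
      (sgS G (la G M b c) (fun _ => 1) * sgS G (lb G M b c) (fun _ => 1)) := by
  have h := ck4_row G M b l c (fun _ => 1)
  simp only [mul_one] at h
  rw [h, fo_sum, sgS_one, sgS_one]
  have e1 : (fun e => if e ∈ (∅ : Finset E) then bt (fun _ => false) e else rr G M b c e) =
      fun e => ∏ j : Fin 3, Real.tanh (la G M b c (e, j)) := by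
    funext e; simp [rr]
  have e2 : ∏ e, AA G M b c e = (∏ e, ∏ j : Fin 3, Real.cosh (la G M b c (e, j))) *
      ∏ e, ∏ j : Fin 3, Real.cosh (lb G M b c (e, j)) := by
    unfold AA
    simp only [Finset.prod_mul_distrib]
  have e3 : (16:ℝ) ^ Fintype.card E = 4 ^ Fintype.card E * 4 ^ Fintype.card E := by
    rw [← mul_pow]; norm_num
  have e4 : tt G M b c = fun e => ∏ j : Fin 3, Real.tanh (lb G M b c (e, j)) := rfl
  rw [e1, e2, e3, e4]
  ring

theorem ck4_row2 (G : Gr V E) (M : Al) (b l : ℝ) (c : SV V E → Fin (M.k + 1)) (u v : V) :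
    16 ^ Fintype.card E * ∑ o, W G M b l c o * ind (G.Conn (op1 o) u v) = wv M l c *
      (sgS G (la G M b c) (fun σ => sg (σ (Sum.inl u)) * sg (σ (Sum.inl v))) *
        sgS G (lb G M b c) (fun _ => 1)) := by
  rw [ck4_row G M b l c (fun o => ind (G.Conn (op1 o) u v)), sgS_one, sgS_two]
  have e1 : rr G M b c = fun e => ∏ j : Fin 3, Real.tanh (la G M b c (e, j)) := rfl
  have e2 : ∏ e, AA G M b c e = (∏ e, ∏ j : Fin 3, Real.cosh (la G M b c (e, j))) *
      ∏ e, ∏ j : Fin 3, Real.cosh (lb G M b c (e, j)) := by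
    unfold AA
    simp only [Finset.prod_mul_distrib]
  have e3 : (16:ℝ) ^ Fintype.card E = 4 ^ Fintype.card E * 4 ^ Fintype.card E := by
    rw [← mul_pow]; norm_num
  have e4 : tt G M b c = fun e => ∏ j : Fin 3, Real.tanh (lb G M b c (e, j)) := rfl
  rw [e1, e2, e3, e4]
  ring

/-- the clock two point function at two vertices. -/
theorem ck4_id (G : Gr V E) (b l : ℝ) (K : ℕ) (hK : 0 < K) (u v : V) :
    clE (24 * K) (hS G b l) (fun θ => cosC (θ (Sum.inl u)) * cosC (θ (Sum.inl v))) =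
      EW G (clk K 0) b l (fun c o => (clk K 0).cc (c (Sum.inl u)) * (clk K 0).cc (c (Sum.inl v)) *
        ind (G.Conn (op1 o) u v)) := by
  rw [ck1 G b l K hK]
  have h16 : (0:ℝ) < 16 ^ Fintype.card E := by positivity
  have hR : EW G (clk K 0) b l (fun c o => (clk K 0).cc (c (Sum.inl u)) * (clk K 0).cc (c (Sum.inl v)) *
        ind (G.Conn (op1 o) u v)) = (16 ^ Fintype.card E * ∑ c : SV V E → Fin (6 * K + 1), ∑ o,
        W G (clk K 0) b l c o * ((clk K 0).cc (c (Sum.inl u)) * (clk K 0).cc (c (Sum.inl v)) *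
        ind (G.Conn (op1 o) u v))) / (16 ^ Fintype.card E * ∑ c : SV V E → Fin (6 * K + 1), ∑ o,
        W G (clk K 0) b l c o) := by
    rw [mul_div_mul_left _ _ h16.ne']
    rfl
  rw [hR]
  congr 1
  · rw [Finset.mul_sum]
    refine Finset.sum_congr rfl (fun c _ => ?_)
    have h := ck4_row2 G (clk K 0) b l c u v
    have e1 : ∑ o, W G (clk K 0) b l c o * ((clk K 0).cc (c (Sum.inl u)) * (clk K 0).cc (c (Sum.inl v)) *
        ind (G.Conn (op1 o) u v)) = (clk K 0).cc (c (Sum.inl u)) * (clk K 0).cc (c (Sum.inl v)) *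
        ∑ o, W G (clk K 0) b l c o * ind (G.Conn (op1 o) u v) := by
      rw [Finset.mul_sum]
      exact Finset.sum_congr rfl (fun o _ => by ring)
    rw [e1]
    have h' := congrArg (fun z => (clk K 0).cc (c (Sum.inl u)) * (clk K 0).cc (c (Sum.inl v)) * z) h
    refine Eq.trans ?_ (h'.symm.trans ?_)
    · ring
    · ring
  · rw [Finset.mul_sum]
    refine Finset.sum_congr rfl (fun c _ => ?_)
    exact (ck4_row1 G (clk K 0) b l c).symm

theorem ck4_cc_nonneg (K : ℕ) (hK : 0 < K) (c : Fin (6 * K + 1)) : 0 ≤ (clk K 0).cc c := by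
  change 0 ≤ (Real.sin (c.val * Real.pi / (12 * K)) + 0) / (1 + 0)
  have hK' : (0:ℝ) < K := by exact_mod_cast hK
  have h1 : (c.val : ℝ) ≤ 6 * K := by
    have := Nat.lt_succ_iff.1 c.2
    exact_mod_cast this
  rw [add_zero, add_zero, div_one]
  refine Real.sin_nonneg_of_nonneg_of_le_pi (by positivity) ?_
  rw [div_le_iff₀ (by positivity)]
  nlinarith [Real.pi_pos, mul_le_mul_of_nonneg_right h1 Real.pi_pos.le, mul_pos hK' Real.pi_pos]

theorem ck4_cc_le_one (K : ℕ) (c : Fin (6 * K + 1)) : (clk K 0).cc c ≤ 1 := by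
  change (Real.sin (c.val * Real.pi / (12 * K)) + 0) / (1 + 0) ≤ 1
  rw [add_zero, add_zero, div_one]
  exact Real.sin_le_one _

theorem ck4_cc_eq (K : ℕ) (ε : ℝ) (hε : 0 < ε) (c : Fin (6 * K + 1)) :
    (clk K 0).cc c = (1 + ε) * (clk K ε).cc c - ε := by
  change (Real.sin (c.val * Real.pi / (12 * K)) + 0) / (1 + 0) =
    (1 + ε) * ((Real.sin (c.val * Real.pi / (12 * K)) + ε) / (1 + ε)) - ε
  have : (1 + ε) ≠ 0 := by positivity
  field_simp
  ring

theorem ck4_cc_mono (K : ℕ) (hK : 0 < K) (c c' : Fin (6 * K + 1)) (h : c ≤ c') :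
    (clk K 0).cc c ≤ (clk K 0).cc c' := by
  have h1 := (clk_ok K hK (1 / 4) (by norm_num) le_rfl).mono h
  rw [ck4_cc_eq K (1 / 4) (by norm_num) c, ck4_cc_eq K (1 / 4) (by norm_num) c']
  linarith

theorem ck4_EWmono (G : Gr V E) (M : Al) (hM : M.Ok) (b l : ℝ) (hb : 0 < b)
    (f g : (SV V E → Fin (M.k + 1)) → (E → Bool) → ℝ) (h : ∀ c o, f c o ≤ g c o) :
    EW G M b l f ≤ EW G M b l g := by
  unfold EW
  refine div_le_div_of_nonneg_right ?_ ?_
  · exact Finset.sum_le_sum (fun c _ => Finset.sum_le_sum (fun o _ =>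
      mul_le_mul_of_nonneg_left (h c o) (W_pos G M hM b l hb c o).le))
  · exact Finset.sum_nonneg (fun c _ => Finset.sum_nonneg (fun o _ => (W_pos G M hM b l hb c o).le))

theorem ck4_EWmul (G : Gr V E) (M : Al) (b l : ℝ) (a : ℝ)
    (f : (SV V E → Fin (M.k + 1)) → (E → Bool) → ℝ) :
    EW G M b l (fun c o => a * f c o) = a * EW G M b l f := by
  unfold EW
  rw [← mul_div_assoc, Finset.mul_sum]
  congr 1
  refine Finset.sum_congr rfl (fun c _ => ?_)
  rw [Finset.mul_sum]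
  exact Finset.sum_congr rfl (fun o _ => by ring)

theorem ck4_EB (G : Gr V E) (M : Al) (b l : ℝ) (tB : E → ℝ) (c0 : SV V E → Fin (M.k + 1))
    (o0 : E → Bool) (f : (SV V E → Fin (M.k + 1)) → (E → Bool) → ℝ) :
    EB G M b l ∅ ∅ tB c0 o0 f = EW G M b l f := by
  have h : ∀ f : (SV V E → Fin (M.k + 1)) → (E → Bool) → ℝ,
      SB G M b l ∅ ∅ tB c0 o0 f = ∑ c, ∑ o, W G M b l c o * f c o := by
    intro f
    unfold SB
    refine Finset.sum_congr rfl (fun c _ => Finset.sum_congr rfl (fun o _ => ?_))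
    rw [if_pos (by simp)]
    unfold WB W
    simp
  unfold EB EW
  rw [h f, h (fun _ _ => 1)]
  simp only [mul_one]

theorem ck4_one (G : Gr V E) (hG : Deg4 G) (b l : ℝ) (hb : 0 < b) (hl : 0 ≤ l) (K : ℕ)
    (ε : ℝ) (hε : 0 < ε) (hM : (clk K ε).Ok) (hε4 : ε ≤ 4) (w : SV V E) (hK : 0 < K) :
    (4 / 5 - ε / 5) * (Real.exp (-(8 * b + l)) / 4) ≤
      EW G (clk K ε) b l (fun c _ => (clk K 0).cc (c w)) := by
  have h1 := fin_en G hG (clk K ε) hM b l hb hl ∅ ∅ (by simp) (fun _ => 0) (by simp) (by simp)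
    (fun _ => 0) (fun _ => false) w (by simp) (clk K ε).hi
  rw [ck4_EB] at h1
  have h2 : Real.exp (-(8 * b + l)) * (1 / 4) ≤
      EW G (clk K ε) b l (fun c _ => if c w ∈ (clk K ε).hi then 1 else 0) :=
    (mul_le_mul_of_nonneg_left hM.hi (Real.exp_pos _).le).trans h1
  have h3 : EW G (clk K ε) b l (fun c _ => (4 / 5 - ε / 5) * (if c w ∈ (clk K ε).hi then 1 else 0)) ≤
      EW G (clk K ε) b l (fun c _ => (clk K 0).cc (c w)) := by
    refine ck4_EWmono G (clk K ε) hM b l hb _ _ (fun c o => ?_)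
    by_cases hc : c w ∈ (clk K ε).hi
    · rw [if_pos hc, mul_one]
      unfold Al.hi at hc
      rw [Finset.mem_filter] at hc
      have h4 := hc.2.1
      rw [ck4_cc_eq K ε hε (c w)]
      nlinarith
    · rw [if_neg hc, mul_zero]
      exact ck4_cc_nonneg K hK (c w)
  rw [ck4_EWmul] at h3
  have h5 : 0 ≤ 4 / 5 - ε / 5 := by linarith
  have h6 := mul_le_mul_of_nonneg_left h2 h5
  calc (4 / 5 - ε / 5) * (Real.exp (-(8 * b + l)) / 4) =
      (4 / 5 - ε / 5) * (Real.exp (-(8 * b + l)) * (1 / 4)) := by ring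
    _ ≤ _ := h6.trans h3

theorem ck4_ind_mono (G : Gr V E) (u v : V) (o o' : E → Bool) (h : o ≤ o') :
    ind (G.Conn (op1 o) u v) ≤ ind (G.Conn (op1 o') u v) := by
  unfold ind
  by_cases h1 : G.Conn (op1 o) u v
  · have h2 : G.Conn (op1 o') u v := by
      refine Relation.ReflTransGen.mono ?_ _ _ h1
      rintro x y ⟨e, he, hxy⟩
      refine ⟨e, ?_, hxy⟩
      have h3 := h e
      have h4 : o e = true := he
      rw [h4] at h3
      exact top_le_iff.1 h3
    rw [if_pos h1, if_pos h2]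
  · rw [if_neg h1]
    split_ifs <;> norm_num

/-- lower bound of the clock two point function. -/
theorem low0 (G : Gr V E) (hG : Deg4 G) (b l : ℝ) (hb : 0 < b) (hl : 0 ≤ l) (K : ℕ) (hK : 0 < K) (u v : V) :
    (Real.exp (-(8 * b + l)) / 5) ^ 2 * EW G (clk K 0) b l (fun _ o => ind (G.Conn (op1 o) u v)) ≤
      clE (24 * K) (hS G b l) (fun θ => cosC (θ (Sum.inl u)) * cosC (θ (Sum.inl v))) := by
  rw [ck4_id G b l K hK]
  have hL : Tendsto (fun ε : ℝ => ((4 / 5 - ε / 5) * (Real.exp (-(8 * b + l)) / 4)) ^ 2 *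
      EW G (clk K ε) b l (fun _ o => ind (G.Conn (op1 o) u v))) (𝓝[>] 0)
      (𝓝 (((4 / 5 - 0 / 5) * (Real.exp (-(8 * b + l)) / 4)) ^ 2 *
        EW G (clk K 0) b l (fun _ o => ind (G.Conn (op1 o) u v)))) := by
    refine Tendsto.mul ?_ (EW_lim G b l hb K hK _)
    refine Tendsto.pow (Tendsto.mul_const _ ?_) 2
    have : ContinuousAt (fun ε : ℝ => 4 / 5 - ε / 5) 0 := by fun_prop
    exact this.tendsto.mono_left nhdsWithin_le_nhds
  have hR := ck4_lim G b l hb K hK (fun _ c o => (clk K 0).cc (c (Sum.inl u)) * (clk K 0).cc (c (Sum.inl v)) *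
        ind (G.Conn (op1 o) u v)) (fun c o => (clk K 0).cc (c (Sum.inl u)) * (clk K 0).cc (c (Sum.inl v)) *
        ind (G.Conn (op1 o) u v)) (fun c o => tendsto_const_nhds)
  have e1 : (Real.exp (-(8 * b + l)) / 5) ^ 2 = ((4 / 5 - 0 / 5) * (Real.exp (-(8 * b + l)) / 4)) ^ 2 := by
    ring
  rw [e1]
  refine le_of_tendsto_of_tendsto hL hR ?_
  filter_upwards [ck4_ev K hK, Ioo_mem_nhdsGT (show (0:ℝ) < 4 by norm_num)] with ε hε hε4
  obtain ⟨hε0, hM⟩ := hε
  have hcm : ∀ w : SV V E, Mon (k := (clk K ε).k) (V := V) (E := E) (fun c _ => (clk K 0).cc (c w)) :=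
    fun w c c' o o' hc _ => ck4_cc_mono K hK _ _ (hc w)
  have h1 := asc G (clk K ε) hM b l hb _ _ (hcm (Sum.inl u)) (hcm (Sum.inl v))
  have hcm2 : Mon (k := (clk K ε).k) (V := V) (E := E)
      (fun c _ => (clk K 0).cc (c (Sum.inl u)) * (clk K 0).cc (c (Sum.inl v))) := by
    intro c c' o o' hc _
    exact mul_le_mul (ck4_cc_mono K hK _ _ (hc _)) (ck4_cc_mono K hK _ _ (hc _))
      (ck4_cc_nonneg K hK _) (ck4_cc_nonneg K hK _)
  have hcm3 : Mon (k := (clk K ε).k) (V := V) (E := E)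
      (fun _ o => ind (G.Conn (op1 o) u v)) := fun c c' o o' _ ho => ck4_ind_mono G u v o o' ho
  have h2 := asc G (clk K ε) hM b l hb _ _ hcm2 hcm3
  have h3 := ck4_one G hG b l hb hl K ε hε0 hM hε4.2.le (Sum.inl u) hK
  have h4 := ck4_one G hG b l hb hl K ε hε0 hM hε4.2.le (Sum.inl v) hK
  have h5 : 0 ≤ (4 / 5 - ε / 5) * (Real.exp (-(8 * b + l)) / 4) := by
    have : 0 ≤ 4 / 5 - ε / 5 := by linarith [hε4.2]
    positivity
  have h6 : 0 ≤ EW G (clk K ε) b l (fun _ o => ind (G.Conn (op1 o) u v)) := by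
    have h7 := ck4_EWmono G (clk K ε) hM b l hb (fun _ _ => 0 * 1) (fun _ o => ind (G.Conn (op1 o) u v))
      (fun c o => by rw [zero_mul]; unfold ind; split_ifs <;> norm_num)
    rw [ck4_EWmul G (clk K ε) b l 0 (fun _ _ => 1), zero_mul] at h7
    exact h7
  have h8 := (mul_le_mul h3 h4 h5 (h5.trans h3)).trans h1
  rw [pow_two]
  exact (mul_le_mul_of_nonneg_right h8 h6).trans h2

/-- upper bound. -/
theorem up0 (G : Gr V E) (b l : ℝ) (hb : 0 < b) (K : ℕ) (hK : 0 < K) (p q : SV V E) :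
    clE (24 * K) (hS G b l) (fun θ => cosC (θ p) * cosC (θ q)) ≤
      ∑ x ∈ en G p, ∑ y ∈ en G q, EW G (clk K 0) b l (fun _ o => ind (G.Conn (op1 o) x y)) := by
  rw [ck1 G b l K hK]
  have h16 : (0:ℝ) < 16 ^ Fintype.card E := by positivity
  have hZ := W0_pos G b l hb K hK
  have hden : (∑ c : SV V E → Fin (6 * K + 1), wv (clk K 0) l c *
        (sgS G (la G (clk K 0) b c) (fun _ => 1) * sgS G (lb G (clk K 0) b c) (fun _ => 1))) =
      16 ^ Fintype.card E * ∑ c : SV V E → Fin ((clk K 0).k + 1), ∑ o, W G (clk K 0) b l c o := by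
    rw [Finset.mul_sum]
    exact Finset.sum_congr rfl (fun c _ => (ck4_row1 G (clk K 0) b l c).symm)
  have hEW : ∑ x ∈ en G p, ∑ y ∈ en G q, EW G (clk K 0) b l (fun _ o => ind (G.Conn (op1 o) x y)) =
      (16 ^ Fintype.card E * ∑ c : SV V E → Fin ((clk K 0).k + 1), ∑ x ∈ en G p, ∑ y ∈ en G q,
        ∑ o, W G (clk K 0) b l c o * ind (G.Conn (op1 o) x y)) /
      (16 ^ Fintype.card E * ∑ c : SV V E → Fin ((clk K 0).k + 1), ∑ o, W G (clk K 0) b l c o) := by
    rw [mul_div_mul_left _ _ h16.ne']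
    unfold EW
    simp only [← Finset.sum_div]
    congr 1
    rw [Finset.sum_congr rfl (fun x _ => Finset.sum_comm)]
    rw [Finset.sum_comm]
  rw [hden, hEW]
  refine div_le_div_of_nonneg_right ?_ (mul_pos h16 hZ).le
  rw [Finset.mul_sum]
  refine Finset.sum_le_sum (fun c _ => ?_)
  have hcc0 : ∀ w, 0 ≤ (clk K 0).cc (c w) := fun w => ck4_cc_nonneg K hK (c w)
  have hla : ∀ e, 0 ≤ la G (clk K 0) b c e := fun e =>
    mul_nonneg hb.le (mul_nonneg (hcc0 _) (hcc0 _))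
  have hends := sgS_ends G (la G (clk K 0) b c) hla p q
  have hwv : 0 ≤ wv (clk K 0) l c := by
    unfold wv
    refine Finset.prod_nonneg (fun w _ => mul_nonneg ?_ (Real.exp_pos _).le)
    change 0 ≤ (if (c w).val = 0 ∨ (c w).val = 6 * K then (1:ℝ) / 2 else 1) / (6 * K)
    split_ifs <;> positivity
  have hlb : 0 ≤ sgS G (lb G (clk K 0) b c) (fun _ => 1) := by
    unfold sgS
    exact Finset.sum_nonneg (fun σ _ => mul_nonneg zero_le_one (Finset.prod_nonneg (fun e _ => (Real.exp_pos _).le)))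
  have hR : 16 ^ Fintype.card E * ∑ x ∈ en G p, ∑ y ∈ en G q,
      ∑ o, W G (clk K 0) b l c o * ind (G.Conn (op1 o) x y) = wv (clk K 0) l c *
      ((∑ x ∈ en G p, ∑ y ∈ en G q, sgS G (la G (clk K 0) b c)
        (fun σ => sg (σ (Sum.inl x)) * sg (σ (Sum.inl y)))) * sgS G (lb G (clk K 0) b c) (fun _ => 1)) := by
    rw [Finset.mul_sum, Finset.sum_mul, Finset.mul_sum]
    refine Finset.sum_congr rfl (fun x _ => ?_)
    rw [Finset.mul_sum, Finset.sum_mul, Finset.mul_sum]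
    exact Finset.sum_congr rfl (fun y _ => ck4_row2 G (clk K 0) b l c x y)
  have hRn : 0 ≤ 16 ^ Fintype.card E * ∑ x ∈ en G p, ∑ y ∈ en G q,
      ∑ o, W G (clk K 0) b l c o * ind (G.Conn (op1 o) x y) := by
    refine mul_nonneg h16.le (Finset.sum_nonneg (fun x _ => Finset.sum_nonneg (fun y _ =>
      Finset.sum_nonneg (fun o _ => mul_nonneg (W0_nonneg G b l hb K hK c o) ?_))))
    unfold ind
    split_ifs <;> norm_num
  rw [hR] at hRn ⊢
  set A := wv (clk K 0) l c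
  set B := sgS G (lb G (clk K 0) b c) (fun _ => 1)
  set S := sgS G (la G (clk K 0) b c) (fun σ => sg (σ p) * sg (σ q))
  set R := ∑ x ∈ en G p, ∑ y ∈ en G q, sgS G (la G (clk K 0) b c)
        (fun σ => sg (σ (Sum.inl x)) * sg (σ (Sum.inl y)))
  have h1 : A * (S * B) ≤ A * (R * B) :=
    mul_le_mul_of_nonneg_left (mul_le_mul_of_nonneg_right hends hlb) hwv
  have hx0 : 0 ≤ (clk K 0).cc (c p) * (clk K 0).cc (c q) := mul_nonneg (hcc0 p) (hcc0 q)
  have hx1 : (clk K 0).cc (c p) * (clk K 0).cc (c q) ≤ 1 :=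
    mul_le_one₀ (ck4_cc_le_one K (c p)) (hcc0 q) (ck4_cc_le_one K (c q))
  set X := (clk K 0).cc (c p) * (clk K 0).cc (c q)
  calc A * X * (S * B) = X * (A * (S * B)) := by ring
    _ ≤ X * (A * (R * B)) := mul_le_mul_of_nonneg_left h1 hx0
    _ ≤ 1 * (A * (R * B)) := mul_le_mul_of_nonneg_right hx1 hRn
    _ = A * (R * B) := one_mul _

theorem ck4_mW (G : Gr V E) (M : Al) (b l : ℝ) (F : (∀ i, XI M.k V E i) → ℝ) :
    ∑ x, mW G M b l x * F x = EW G M b l (fun c o => F (mkx c o)) := by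
  rw [sum_mkx]
  unfold EW
  rw [Finset.sum_div]
  refine Finset.sum_congr rfl (fun c _ => ?_)
  rw [Finset.sum_div]
  refine Finset.sum_congr rfl (fun o _ => ?_)
  unfold mW
  have e1 : pc (mkx c o) = c := rfl
  have e2 : po (mkx c o) = o := rfl
  rw [e1, e2]
  ring

theorem ck4_cv (G : Gr V E) (M : Al) (b l : ℝ) (f : (E → Bool) → ℝ) (w : SV V E) :
    cv G M b l (fun y => f (po y)) w = EW G M b l (fun c o => f o * M.cc (c w) ^ 2) -
      EW G M b l (fun _ o => f o) * EW G M b l (fun c _ => M.cc (c w) ^ 2) := by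
  unfold cv
  rw [ck4_mW G M b l (fun y => f (po y) * c2 M w y), ck4_mW G M b l (fun y => f (po y)),
    ck4_mW G M b l (c2 M w)]
  rfl

theorem ck4_cvlim (G : Gr V E) (b l : ℝ) (hb : 0 < b) (K : ℕ) (hK : 0 < K) (f : (E → Bool) → ℝ)
    (w : SV V E) :
    Tendsto (fun ε : ℝ => cv G (clk K ε) b l (fun y => f (po y)) w) (𝓝[>] 0)
      (𝓝 (cv G (clk K 0) b l (fun y => f (po y)) w)) := by
  simp only [ck4_cv]
  have h1 := ck4_lim G b l hb K hK (fun ε c o => f o * (clk K ε).cc (c w) ^ 2)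
    (fun c o => f o * (clk K 0).cc (c w) ^ 2) (fun c o => ((ck4_cc K (c w)).pow 2).const_mul (f o))
  have h2 := ck4_lim G b l hb K hK (fun ε c _ => (clk K ε).cc (c w) ^ 2)
    (fun c _ => (clk K 0).cc (c w) ^ 2) (fun c o => (ck4_cc K (c w)).pow 2)
  exact h1.sub ((EW_lim G b l hb K hK f).mul h2)

/-- derivatives converge. -/
theorem ck4_dlim (G : Gr V E) (b l : ℝ) (hb : 0 < b) (K : ℕ) (hK : 0 < K) (f : (E → Bool) → ℝ) :
    Tendsto (fun ε : ℝ => deriv (fun l => EW G (clk K ε) b l (fun _ o => f o)) l) (𝓝[>] 0)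
      (𝓝 (deriv (fun l => EW G (clk K 0) b l (fun _ o => f o)) l)) := by
  have h0 : deriv (fun l => EW G (clk K 0) b l (fun _ o => f o)) l =
      ∑ w, pn w * cv G (clk K 0) b l (fun y => f (po y)) w :=
    (EW_deriv G (clk K 0) b (fun l => W0_pos G b l hb K hK) f l).deriv
  rw [h0]
  have h1 : Tendsto (fun ε : ℝ => ∑ w, pn w * cv G (clk K ε) b l (fun y => f (po y)) w) (𝓝[>] 0)
      (𝓝 (∑ w, pn w * cv G (clk K 0) b l (fun y => f (po y)) w)) :=
    tendsto_finsetSum _ (fun w _ => (ck4_cvlim G b l hb K hK f w).const_mul (pn w))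
  refine h1.congr' ?_
  filter_upwards [ck4_ev K hK] with ε hε
  refine ((EW_deriv G (clk K ε) b (fun l => ?_) f l).deriv).symm
  exact Finset.sum_pos (fun c _ => Finset.sum_pos (fun o _ => W_pos G (clk K ε) hε.2 b l hb c o)
    Finset.univ_nonempty) Finset.univ_nonempty

end gen

theorem fT_DR0 (b Λ : ℝ) (hb : 0 < b) (hΛ : 0 < Λ) : ∃ C0 : ℝ, 0 < C0 ∧
    ∀ (L : ℕ) [NeZero L] (K : ℕ), 0 < K → DR C0 Λ (fT L (clk K 0) b) := by
  obtain ⟨C0, hC0, h⟩ := fT_DR b Λ hb hΛ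
  refine ⟨C0, hC0, fun L _ K hK => ?_⟩
  have hlim : ∀ n l, Tendsto (fun ε : ℝ => fT L (clk K ε) b n l) (𝓝[>] 0) (𝓝 (fT L (clk K 0) b n l)) :=
    fun n l => EW_lim (TD L) b l hb K hK (fun o => ind (armT n 0 o))
  have hd : ∀ n l, Tendsto (fun ε : ℝ => deriv (fT L (clk K ε) b n) l) (𝓝[>] 0)
      (𝓝 (deriv (fT L (clk K 0) b n) l)) :=
    fun n l => ck4_dlim (TD L) b l hb K hK (fun o => ind (armT n 0 o))
  refine ⟨?_, ?_, ?_, ?_, ?_, ?_⟩
  · intro l hl
    refine tendsto_nhds_unique (hlim 0 l) ?_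
    refine tendsto_const_nhds.congr' ?_
    filter_upwards [ck4_ev K hK] with ε hε
    exact ((h L (clk K ε) hε.2).zero l hl).symm
  · intro n l hl
    refine ge_of_tendsto (hlim n l) ?_
    filter_upwards [ck4_ev K hK] with ε hε
    exact (h L (clk K ε) hε.2).nonneg n l hl
  · intro n l hl
    refine le_of_tendsto_of_tendsto (hlim (n + 1) l) (hlim n l) ?_
    filter_upwards [ck4_ev K hK] with ε hε
    exact (h L (clk K ε) hε.2).anti n l hl
  · intro n l hl l' hl' hll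
    refine le_of_tendsto_of_tendsto (hlim n l) (hlim n l') ?_
    filter_upwards [ck4_ev K hK] with ε hε
    exact (h L (clk K ε) hε.2).mono n hl hl' hll
  · intro n l
    exact (EW_deriv (TD L) (clk K 0) b (fun l => W0_pos (TD L) b l hb K hK)
      (fun o => ind (armT n 0 o)) l).differentiableAt
  · intro n l hl
    refine le_of_tendsto_of_tendsto ((hlim n l).const_mul (n:ℝ))
      (((tendsto_finsetSum (range n) (fun j _ => hlim j l)).const_mul C0).mul (hd n l)) ?_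
    filter_upwards [ck4_ev K hK] with ε hε
    exact (h L (clk K ε) hε.2).ineq n l hl

end H82.BX
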