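import Pool.Agent.H82.BX.PG0

/-!
# KOL: limits of consistent families of cylinder masses

For each `i` and each finite set `F` let `ρ_{i,F}` be the measure `∑_{ζ : F → α} P_i(F, ext ζ) δ_{ext ζ}` on `E → α` (`ext ζ` = `ζ` on `F`, arbitrary fixed value off `F`).  Choose an exhaustion `F_i` of `E` (countable) and
`ρ_i = ρ_{i, F_i}`: for `F ⊆ F_i` the mass of `{ω = ξ on F}` is `P_i(F, ξ)` (consistency).  The space of probability measures on the compact metrizable space `E → α` (discrete topology on `α`; Borel σ-algebra = product σ-algebra) is compact, so the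
ultrafilter `hyperfilter ℕ` gives a limit, and cylinder events are clopen (compare `IC/PM1.lean`, `exists_ultra_limit`).
`kol_event`: an event depending only on `F` is the disjoint union of the cylinders `{ω = ξ on F}` over `ξ : F → α` in the event.
-/

set_option autoImplicit false

open Finset MeasureTheory Filter Topology

namespace H82.BX

open H82.IC

section
variable {E α : Type} [Countable E] [DecidableEq E] [Fintype α] [DecidableEq α] [Nonempty α]
  [MeasurableSpace α] [MeasurableSingletonClass α]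

/-- consistent family of cylinder masses. -/
structure Cyl (P : Finset E → (E → α) → ℝ) : Prop where
  nonneg : ∀ F ξ, 0 ≤ P F ξ
  loc : ∀ F ξ ξ', (∀ e ∈ F, ξ e = ξ' e) → P F ξ = P F ξ'
  one : ∀ ξ, P ∅ ξ = 1
  cons : ∀ F ξ e, e ∉ F → P F ξ = ∑ a, P (insert e F) (Function.update ξ e a)

/-- `ζ` on `F`, a fixed value elsewhere. -/
noncomputable def gl (F : Finset E) (ζ : ↥F → α) : E → α :=
  fun e => if h : e ∈ F then ζ ⟨e, h⟩ else Classical.arbitrary α

/-- mass of an event. -/
noncomputable def PX (P : Finset E → (E → α) → ℝ) (F : Finset E) (X : Set (E → α)) : ℝ :=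
  ∑ ζ : ↥F → α, ind (gl F ζ ∈ X) * P F (gl F ζ)

/-- functions on `insert e F` are pairs of a function on `F` and a value at `e`. -/
def KOL_eq (F : Finset E) (e : E) (he : e ∉ F) : (↥(insert e F) → α) ≃ (↥F → α) × α where
  toFun ζ := (fun x => ζ ⟨x.1, Finset.mem_insert_of_mem x.2⟩, ζ ⟨e, Finset.mem_insert_self e F⟩)
  invFun p := fun x => if h : x.1 ∈ F then p.1 ⟨x.1, h⟩ else p.2
  left_inv ζ := by
    funext x
    by_cases h : x.1 ∈ F
    · simp only [h, dite_true]
    · simp only [h, dite_false]
      have hx : x.1 = e := by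
        rcases Finset.mem_insert.1 x.2 with h1 | h1
        · exact h1
        · exact absurd h1 h
      exact congrArg ζ (Subtype.ext hx.symm)
  right_inv p := by
    apply Prod.ext
    · funext x
      simp only [x.2, dite_true]
    · simp only [he, dite_false]

omit [Countable E] [Fintype α] [DecidableEq α] [MeasurableSpace α] [MeasurableSingletonClass α] in
theorem KOL_gl (F : Finset E) (e : E) (he : e ∉ F) (p : (↥F → α) × α) :
    gl (insert e F) ((KOL_eq F e he).symm p) = Function.update (gl F p.1) e p.2 := by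
  funext x
  by_cases hx : x = e
  · subst hx
    simp [gl, KOL_eq, he]
  · by_cases hF : x ∈ F
    · simp [gl, KOL_eq, hx, hF]
    · simp [gl, hx, hF]

omit [Countable E] [DecidableEq α] [MeasurableSpace α] [MeasurableSingletonClass α] in
theorem KOL_step (P : Finset E → (E → α) → ℝ) (h : Cyl P) (F : Finset E) (e : E) (he : e ∉ F)
    (X : Set (E → α)) (hX : ∀ ω ω' : E → α, (∀ e ∈ F, ω e = ω' e) → (ω ∈ X ↔ ω' ∈ X)) :
    PX P F X = PX P (insert e F) X := by
  unfold PX
  rw [← (KOL_eq (α := α) F e he).symm.sum_comp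
    (fun ζ => ind (gl (insert e F) ζ ∈ X) * P (insert e F) (gl (insert e F) ζ)),
    Fintype.sum_prod_type]
  refine Finset.sum_congr rfl fun ζ _ => ?_
  rw [h.cons F (gl F ζ) e he, Finset.mul_sum]
  refine Finset.sum_congr rfl fun a _ => ?_
  rw [KOL_gl]
  have h1 : (Function.update (gl F ζ) e a ∈ X) = (gl F ζ ∈ X) := by
    refine propext (hX _ _ ?_)
    intro x hx
    have hxe : x ≠ e := by
      rintro rfl; exact he hx
    exact Function.update_of_ne hxe _ _
  simp only [h1]

omit [Countable E] [DecidableEq α] [MeasurableSpace α] [MeasurableSingletonClass α] in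
/-- enlarging `F` does not change the mass of an event depending on `F`. -/
theorem PX_mono (P : Finset E → (E → α) → ℝ) (h : Cyl P) (F F' : Finset E) (hF : F ⊆ F')
    (X : Set (E → α)) (hX : ∀ ω ω' : E → α, (∀ e ∈ F, ω e = ω' e) → (ω ∈ X ↔ ω' ∈ X)) :
    PX P F X = PX P F' X := by
  have key : ∀ G : Finset E, PX P F X = PX P (F ∪ G) X := by
    intro G
    induction G using Finset.induction_on with
    | empty => rw [Finset.union_empty]
    | insert e G he ih =>
      rw [Finset.union_insert]
      by_cases h1 : e ∈ F ∪ G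
      · rw [Finset.insert_eq_of_mem h1]; exact ih
      · rw [ih]
        refine KOL_step P h (F ∪ G) e h1 X ?_
        intro ω ω' hw
        exact hX ω ω' fun x hx => hw x (Finset.mem_union_left _ hx)
  have h2 := key F'
  rwa [Finset.union_eq_right.2 hF] at h2

/-- the finite approximations. -/
noncomputable def KOL_mu (P : Finset E → (E → α) → ℝ) (F : Finset E) : Measure (E → α) :=
  ∑ ζ : ↥F → α, ENNReal.ofReal (P F (gl F ζ)) • Measure.dirac (gl F ζ)

omit [Countable E] [DecidableEq α] [MeasurableSingletonClass α] in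
theorem KOL_mu_apply (P : Finset E → (E → α) → ℝ) (h : Cyl P) (F : Finset E) (X : Set (E → α))
    (hX : MeasurableSet X) : KOL_mu P F X = ENNReal.ofReal (PX P F X) := by
  classical
  unfold KOL_mu PX
  rw [Measure.finsetSum_apply, ENNReal.ofReal_sum_of_nonneg]
  · refine Finset.sum_congr rfl fun ζ _ => ?_
    rw [Measure.smul_apply, Measure.dirac_apply' _ hX, smul_eq_mul]
    by_cases h1 : gl F ζ ∈ X
    · simp [ind, h1]
    · simp [ind, h1]
  · intro ζ _
    refine mul_nonneg ?_ (h.nonneg _ _)
    unfold ind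
    split_ifs <;> norm_num

omit [Countable E] [DecidableEq α] [MeasurableSpace α] [MeasurableSingletonClass α] in
theorem KOL_univ (P : Finset E → (E → α) → ℝ) (h : Cyl P) (F : Finset E) :
    PX P F Set.univ = 1 := by
  rw [← PX_mono P h ∅ F (Finset.empty_subset F) Set.univ (fun _ _ _ => Iff.rfl)]
  unfold PX
  have h1 : ∀ ζ : ↥(∅ : Finset E) → α, ind (gl ∅ ζ ∈ Set.univ) * P ∅ (gl ∅ ζ) = 1 := by
    intro ζ
    rw [h.one]
    simp [ind]
  rw [Finset.sum_congr rfl fun ζ _ => h1 ζ]
  simp

omit [Countable E] [DecidableEq α] [MeasurableSingletonClass α] in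
theorem KOL_prob (P : Finset E → (E → α) → ℝ) (h : Cyl P) (F : Finset E) :
    IsProbabilityMeasure (KOL_mu P F) := by
  refine ⟨?_⟩
  rw [KOL_mu_apply P h F _ MeasurableSet.univ, KOL_univ P h F, ENNReal.ofReal_one]

theorem kol (P : ℕ → Finset E → (E → α) → ℝ) (h : ∀ i, Cyl (P i)) :
    ∃ ν : Measure (E → α), IsProbabilityMeasure ν ∧ ∀ (F : Finset E) (X : Set (E → α)),
      (∀ ω ω' : E → α, (∀ e ∈ F, ω e = ω' e) → (ω ∈ X ↔ ω' ∈ X)) →
      Tendsto (fun i => PX (P i) F X) (hyperfilter ℕ) (𝓝 (ν.real X)) := by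
  classical
  let _ : TopologicalSpace α := ⊥
  have : DiscreteTopology α := ⟨rfl⟩
  have : BorelSpace α := by
    refine ⟨?_⟩
    ext s
    constructor
    · intro _
      exact MeasurableSpace.measurableSet_generateFrom (isOpen_discrete s)
    · intro _
      exact Set.Finite.measurableSet (Set.toFinite s)
  obtain ⟨f, hf⟩ := exists_injective_nat E
  let Fi : ℕ → Finset E := fun i => ((Set.finite_Iio i).preimage hf.injOn).toFinset
  have hFi : ∀ i e, e ∈ Fi i ↔ f e < i := by
    intro i e
    simp [Fi]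
  let Pr : ℕ → ProbabilityMeasure (E → α) := fun i =>
    ⟨KOL_mu (P i) (Fi i), KOL_prob (P i) (h i) (Fi i)⟩
  obtain ⟨μ, -, hμ⟩ := isCompact_univ.ultrafilter_le_nhds ((hyperfilter ℕ).map Pr) (by simp)
  have hlim : Tendsto Pr (hyperfilter ℕ) (𝓝 μ) := hμ
  refine ⟨μ, μ.2, fun F X hX => ?_⟩
  have hcl : IsClopen X := by
    have hm : Continuous (fun (ω : E → α) (e : F) => ω e) :=
      continuous_pi fun e => continuous_apply _
    have hX' : X = (fun (ω : E → α) (e : F) => ω e) ⁻¹' ((fun (ω : E → α) (e : F) => ω e) '' X) := by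
      ext ω
      constructor
      · intro hω
        exact ⟨ω, hω, rfl⟩
      · rintro ⟨ω', hω', h1⟩
        refine (hX ω' ω fun e he => ?_).mp hω'
        exact congrFun h1 ⟨e, he⟩
    rw [hX']
    exact (isClopen_discrete _).preimage hm
  have h1 := ProbabilityMeasure.tendsto_measure_of_isClopen_of_tendsto hlim hcl
  have h2 := (NNReal.tendsto_coe.2 h1)
  refine Tendsto.congr' ?_ h2
  have h3 : ∀ᶠ i : ℕ in atTop, F ⊆ Fi i := by
    refine eventually_atTop.2 ⟨F.sup f + 1, fun i hi e he => ?_⟩
    rw [hFi]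
    have h4 : f e ≤ F.sup f := Finset.le_sup he
    omega
  have h4 : ∀ᶠ i : ℕ in (hyperfilter ℕ : Filter ℕ), F ⊆ Fi i := by
    have h5 : (hyperfilter ℕ : Filter ℕ) ≤ atTop := by
      rw [← Nat.cofinite_eq_atTop]
      exact hyperfilter_le_cofinite
    exact h5 h3
  filter_upwards [h4] with i hi
  rw [PX_mono (P i) (h i) F (Fi i) hi X hX]
  have h6 : (KOL_mu (P i) (Fi i)).real X = PX (P i) (Fi i) X := by
    rw [Measure.real, KOL_mu_apply (P i) (h i) (Fi i) X hcl.isOpen.measurableSet, ENNReal.toReal_ofReal]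
    refine Finset.sum_nonneg fun ζ _ => mul_nonneg ?_ ((h i).nonneg _ _)
    unfold ind
    split_ifs <;> norm_num
  exact h6

end

end H82.BX
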