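import Pool.Agent.H82.BX.CIN
import Pool.Agent.H82.BX.KOL
import Pool.Agent.H82.BX.TG1
import Pool.Agent.H82.BX.A3

/-!
# CLT: the limit of the bits of the chain models on large tori

`P_i F ξ = EW (TD (L i)) (clk (K i) 0) b l (ind (∀ e ∈ F, o (prE e) = ξ e))`, `prE L e = (prT L e.1, e.2)`: a consistent family (`kol`); for an event
`X` depending on `F`, `PX (P_i) F X = EW (ind (o ∘ prE ∈ X))`.
* `TIP`: `tip_of_lc`; `shP a (o ∘ prE) = (translate of o) ∘ prE`, `EW_tr`.
* `INSe`: `insc_inse` (with `ε` not needed): for `X` depending on `F` and `e`, enlarge `F` to contain `e`; for `i` large `prE` is injective on `F` so `opP e (o ∘ prE)` and `(opP (prE e) o) ∘ prE` agree on `F`; `cin0`.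
* FKG: `asc0` (indicators of increasing events are increasing in `o`).
-/

set_option autoImplicit false

open Finset MeasureTheory Filter Topology

namespace H82.BX

open H82.IC XYB

def prE (L : ℕ) (e : Vx 2 × Fin 2) : (Fin 2 → ZMod L) × Fin 2 := (prT L e.1, e.2)

theorem clt_rep {V E : Type} [Fintype V] [DecidableEq V] [Fintype E] [DecidableEq E] (G : Gr V E)
    (b l : ℝ) (hb : 0 < b) (K : ℕ) (hK : 0 < K) : ∃ p : (E → Bool) → ℝ, (∀ o, 0 ≤ p o) ∧
      ∑ o, p o = 1 ∧
      ∀ f : (E → Bool) → ℝ, EW G (clk K 0) b l (fun _ o => f o) = ∑ o, p o * f o := by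
  have hZ := W0_pos G b l hb K hK
  refine ⟨fun o => (∑ c : SV V E → Fin ((clk K 0).k + 1), W G (clk K 0) b l c o) /
    ∑ c : SV V E → Fin ((clk K 0).k + 1), ∑ o, W G (clk K 0) b l c o, ?_, ?_, ?_⟩
  · intro o
    exact div_nonneg (Finset.sum_nonneg fun c _ => W0_nonneg G b l hb K hK c o) hZ.le
  · rw [← Finset.sum_div, Finset.sum_comm, div_self hZ.ne']
  · intro f
    unfold EW
    rw [Finset.sum_comm, Finset.sum_div]
    refine Finset.sum_congr rfl fun o _ => ?_
    rw [← Finset.sum_mul]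
    ring

section
variable {E T : Type} [Countable E] [DecidableEq E] [Fintype T] [DecidableEq T]

theorem clt_cyl (π : E → T) (p : (T → Bool) → ℝ) (hp : ∀ o, 0 ≤ p o) (h1 : ∑ o, p o = 1) :
    Cyl (fun (F : Finset E) (ξ : E → Bool) => ∑ o, p o * ind (∀ e ∈ F, o (π e) = ξ e)) where
  nonneg F ξ := Finset.sum_nonneg fun o _ => mul_nonneg (hp o) (ind_nonneg _)
  loc F ξ ξ' h := by
    refine Finset.sum_congr rfl fun o _ => ?_
    have : (∀ e ∈ F, o (π e) = ξ e) ↔ (∀ e ∈ F, o (π e) = ξ' e) :=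
      ⟨fun h2 e he => (h2 e he).trans (h e he), fun h2 e he => (h2 e he).trans (h e he).symm⟩
    rw [show (∀ e ∈ F, o (π e) = ξ e) = (∀ e ∈ F, o (π e) = ξ' e) from propext this]
  one ξ := by
    rw [← h1]
    refine Finset.sum_congr rfl fun o _ => ?_
    rw [ind_true (by simp), mul_one]
  cons F ξ e he := by
    rw [Finset.sum_comm]
    refine Finset.sum_congr rfl fun o _ => ?_
    rw [← Finset.mul_sum]
    congr 1
    have hk : ∀ a : Bool, (∀ e' ∈ insert e F, o (π e') = Function.update ξ e a e') ↔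
        (o (π e) = a ∧ ∀ e' ∈ F, o (π e') = ξ e') := by
      intro a
      constructor
      · intro h
        refine ⟨by simpa using h e (Finset.mem_insert_self e F), fun e' he' => ?_⟩
        have h2 := h e' (Finset.mem_insert_of_mem he')
        rwa [Function.update_of_ne (fun hc => he (by rw [← hc]; exact he'))] at h2
      · rintro ⟨h, h'⟩ e' he'
        rcases Finset.mem_insert.1 he' with rfl | h2
        · simpa using h
        · rw [Function.update_of_ne (fun hc => he (by rw [← hc]; exact h2))]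
          exact h' e' h2
    rw [Fintype.sum_bool, propext (hk true), propext (hk false), ind_and, ind_and]
    cases h : o (π e) <;> simp [ind]

theorem clt_PX (π : E → T) (p : (T → Bool) → ℝ) (F : Finset E) (X : Set (E → Bool))
    (hX : ∀ ω ω' : E → Bool, (∀ e ∈ F, ω e = ω' e) → (ω ∈ X ↔ ω' ∈ X)) :
    PX (fun (F : Finset E) (ξ : E → Bool) => ∑ o, p o * ind (∀ e ∈ F, o (π e) = ξ e)) F X =
      ∑ o, p o * ind ((fun e => o (π e)) ∈ X) := by
  unfold PX
  simp only [Finset.mul_sum]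
  rw [Finset.sum_comm]
  refine Finset.sum_congr rfl fun o _ => ?_
  rw [Finset.sum_eq_single (fun e : ↥F => o (π e.1))]
  · have h1 : ∀ e ∈ F, o (π e) = gl F (fun e : ↥F => o (π e.1)) e := by
      intro e he
      simp [gl, he]
    have h2 : (gl F (fun e : ↥F => o (π e.1)) ∈ X) ↔ ((fun e => o (π e)) ∈ X) :=
      hX _ _ fun e he => (h1 e he).symm
    rw [ind_true h1, propext h2]
    ring
  · intro ζ _ hζ
    have h1 : ¬ ∀ e ∈ F, o (π e) = gl F ζ e := by
      intro h
      apply hζ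
      funext e
      have := h e.1 e.2
      simp only [gl, e.2, dif_pos] at this
      exact this.symm
    rw [ind_false h1]
    ring
  · intro h
    exact absurd (Finset.mem_univ _) h

end

theorem clt_prT_add (L : ℕ) (x a : Vx 2) : prT L (x + a) = prT L x + prT L a := by
  funext i
  simp [prT]

theorem clt_prE_shift (L : ℕ) (a : Vx 2) (o : (Fin 2 → ZMod L) × Fin 2 → Bool) :
    shP a (fun e : Vx 2 × Fin 2 => o (prE L e)) =
      fun e => (fun e' : (Fin 2 → ZMod L) × Fin 2 => o (e'.1 + prT L a, e'.2)) (prE L e) := by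
  funext e
  simp only [shP, prE, clt_prT_add]

theorem clt_prT_inj (x y : Vx 2) (h : x ≠ y) : ∃ n0 : ℕ, ∀ L : ℕ, n0 ≤ L → prT L x ≠ prT L y := by
  obtain ⟨i, hi⟩ := Function.ne_iff.1 h
  refine ⟨(x i - y i).natAbs + 1, fun L hL hc => ?_⟩
  have h1 := congrFun hc i
  simp only [prT] at h1
  have h2 : ((x i - y i : ℤ) : ZMod L) = 0 := by
    push_cast
    rw [h1, sub_self]
  rw [ZMod.intCast_zmod_eq_zero_iff_dvd] at h2
  have h3 := Int.natAbs_dvd_natAbs.2 h2
  rw [Int.natAbs_natCast] at h3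
  have h4 : (x i - y i).natAbs ≠ 0 := by
    rw [Int.natAbs_ne_zero]
    exact sub_ne_zero.2 hi
  have h5 := Nat.le_of_dvd (Nat.pos_of_ne_zero h4) h3
  omega

theorem clt_prE_inj (e e' : Vx 2 × Fin 2) : ∃ n0 : ℕ, ∀ L : ℕ, n0 ≤ L →
    (prE L e' = prE L e ↔ e' = e) := by
  by_cases h : e' = e
  · exact ⟨0, fun L _ => by simp [h]⟩
  · by_cases h1 : e'.1 = e.1
    · have h2 : e'.2 ≠ e.2 := fun hc => h (Prod.ext h1 hc)
      refine ⟨0, fun L _ => ⟨fun hc => absurd (congrArg Prod.snd hc) h2, fun hc => absurd hc h⟩⟩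
    · obtain ⟨n0, hn⟩ := clt_prT_inj e'.1 e.1 h1
      exact ⟨n0, fun L hL => ⟨fun hc => absurd (congrArg Prod.fst hc) (hn L hL),
        fun hc => absurd hc h⟩⟩

theorem clt_prE_injF (e : Vx 2 × Fin 2) (F : Finset (Vx 2 × Fin 2)) : ∃ n0 : ℕ, ∀ L : ℕ, n0 ≤ L →
    ∀ e' ∈ F, (prE L e' = prE L e ↔ e' = e) := by
  classical
  choose n0 hn using fun e' => clt_prE_inj e e'
  refine ⟨F.sup n0, fun L hL e' he' => hn e' L (le_trans (Finset.le_sup he') hL)⟩

theorem clt_opP_ne {E : Type} (e e' : E) (h : e' ≠ e) (ω : E → Bool) : opP e ω e' = ω e' := by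
  classical
  simp [opP, Function.update, h]

theorem clt_opP_self {E : Type} (e : E) (ω : E → Bool) : opP e ω e = true := by
  classical
  simp [opP, Function.update]

theorem clt (b l : ℝ) (hb : 0 < b) (hl : 0 ≤ l) (L K : ℕ → ℕ) (hL0 : ∀ i, NeZero (L i))
    (hL : Tendsto L atTop atTop) (hK : ∀ i, 0 < K i) :
    ∃ ν : Measure (Vx 2 × Fin 2 → Bool), IsProbabilityMeasure ν ∧ TIP ν ∧ INSe ν ∧
      (∀ X Y : Set (Vx 2 × Fin 2 → Bool), Lc X → Lc Y → Inc1 X → Inc1 Y →
        ν.real X * ν.real Y ≤ ν.real (X ∩ Y)) ∧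
      ∀ X : Set (Vx 2 × Fin 2 → Bool), Lc X →
        Tendsto (fun i => haveI := hL0 i; EW (TD (L i)) (clk (K i) 0) b l
          (fun _ o => ind ((fun e => o (prE (L i) e)) ∈ X))) (hyperfilter ℕ) (𝓝 (ν.real X)) := by
  classical
  have hrep : ∀ i, ∃ p : ((Fin 2 → ZMod (L i)) × Fin 2 → Bool) → ℝ,
      haveI := hL0 i; (∀ o, 0 ≤ p o) ∧ ∑ o, p o = 1 ∧
      ∀ f : ((Fin 2 → ZMod (L i)) × Fin 2 → Bool) → ℝ,
        EW (TD (L i)) (clk (K i) 0) b l (fun _ o => f o) = ∑ o, p o * f o := by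
    intro i
    haveI := hL0 i
    exact clt_rep (TD (L i)) b l hb (K i) (hK i)
  choose p hp using hrep
  let P : ℕ → Finset (Vx 2 × Fin 2) → (Vx 2 × Fin 2 → Bool) → ℝ := fun i F ξ =>
    haveI := hL0 i; ∑ o, p i o * ind (∀ e ∈ F, o (prE (L i) e) = ξ e)
  have hcyl : ∀ i, Cyl (P i) := by
    intro i
    haveI := hL0 i
    exact clt_cyl (prE (L i)) (p i) (hp i).1 (hp i).2.1
  obtain ⟨ν, hν, hlim⟩ := kol P hcyl
  have hX : ∀ X : Set (Vx 2 × Fin 2 → Bool), Lc X →
        Tendsto (fun i => haveI := hL0 i; EW (TD (L i)) (clk (K i) 0) b l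
          (fun _ o => ind ((fun e => o (prE (L i) e)) ∈ X))) (hyperfilter ℕ) (𝓝 (ν.real X)) := by
    rintro X ⟨F, hF⟩
    refine (hlim F X hF).congr fun i => ?_
    haveI := hL0 i
    have h1 := clt_PX (prE (L i)) (p i) F X hF
    have h2 := (hp i).2.2 (fun o => ind ((fun e => o (prE (L i) e)) ∈ X))
    exact h1.trans h2.symm
  refine ⟨ν, hν, ?_, ?_, ?_, hX⟩
  · refine tip_of_lc ν fun a X hXl => ?_
    refine tendsto_nhds_unique (hX _ (shP_lc a hXl)) ((hX X hXl).congr fun i => ?_)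
    haveI := hL0 i
    have h1 := EW_tr (clk (K i) 0) b l (prT (L i) a)
      (fun o : (Fin 2 → ZMod (L i)) × Fin 2 → Bool => ind ((fun e => o (prE (L i) e)) ∈ X))
    rw [← h1]
    congr 1
    funext _ o
    congr 1
    rw [Set.mem_setOf_eq, clt_prE_shift]
  · refine insc_inse ν fun ε hε => ?_
    obtain ⟨C, hC, h1⟩ := cin0 b l hb hl
    refine ⟨C, hC, fun e X hXl => ?_⟩
    obtain ⟨F, hF⟩ := hXl
    have hXl : Lc X := ⟨F, hF⟩
    have hXe : Lc {ω : Vx 2 × Fin 2 → Bool | opP e ω ∈ X} := by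
      refine ⟨F, fun ω ω' h => hF _ _ fun e' he' => ?_⟩
      by_cases h2 : e' = e
      · subst h2; rw [clt_opP_self, clt_opP_self]
      · rw [clt_opP_ne e e' h2, clt_opP_ne e e' h2, h e' he']
    obtain ⟨n0, hn⟩ := clt_prE_injF e F
    have hev : ∀ᶠ i in (hyperfilter ℕ : Filter ℕ), n0 ≤ L i :=
      Nat.hyperfilter_le_atTop (hL.eventually_ge_atTop n0)
    have hle : ν.real {ω | opP e ω ∈ X} ≤ C * ν.real X := by
      refine le_of_tendsto_of_tendsto (hX _ hXe) ((hX X hXl).const_mul C) ?_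
      filter_upwards [hev] with i hi
      haveI := hL0 i
      have h2 := h1 _ _ (TD (L i)) deg4_TD (K i) (hK i) l hl le_rfl (prE (L i) e)
        (fun o => ind ((fun e => o (prE (L i) e)) ∈ X)) (fun o => ind_nonneg _)
      refine le_trans (le_of_eq ?_) h2
      congr 1
      funext _ o
      congr 1
      refine propext (hF _ _ fun e' he' => ?_)
      have h3 := hn (L i) hi e' he'
      by_cases h4 : e' = e
      · subst h4
        rw [clt_opP_self, clt_opP_self]
      · rw [clt_opP_ne e e' h4, clt_opP_ne _ _ (fun hc => h4 (h3.1 hc))]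
    linarith
  · intro X Y hXl hYl hXi hYi
    refine le_of_tendsto_of_tendsto ((hX X hXl).mul (hX Y hYl)) (hX _ (lc_inter hXl hYl)) ?_
    refine Eventually.of_forall fun i => ?_
    haveI := hL0 i
    have hmono : ∀ Z : Set (Vx 2 × Fin 2 → Bool), Inc1 Z →
        Monotone (fun o : (Fin 2 → ZMod (L i)) × Fin 2 → Bool =>
          ind ((fun e => o (prE (L i) e)) ∈ Z)) := by
      intro Z hZ o o' ho
      refine ind_mono fun h => hZ _ _ (fun e he => ?_) h
      have h2 := ho (prE (L i) e)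
      rw [he] at h2
      exact top_le_iff.1 h2
    have h2 := asc0 (TD (L i)) b l hb (K i) (hK i) _ _ (hmono X hXi) (hmono Y hYi)
    refine h2.trans (le_of_eq ?_)
    congr 1
    funext _ o
    rw [← ind_and]
    rfl

end H82.BX
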