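import Pool.Agent.H82.BX.Defs
import Pool.Agent.H82.IC.G1
import Pool.Agent.H82.IC.KC

/-!
# PG1: geometry of periodic graphs

`Λ_n = {z | nm z.1 ≤ n}`; both ends of an edge `e` are within `1` of `e.1`, so the two ends differ by at most `2` in `nm`.
`pbx n` = the finset of vertices of `Λ_n`, `pbE n` = the finset of edges with both ends in `Λ_n` (they have `nm e.1 ≤ n + 1`),
`pbd n` = the vertices with `n - 1 ≤ nm z.1 ≤ n`, i.e. `n ≤ nm z.1 + 1` and `nm z.1 ≤ n`.
`exit_pg`: follow a path from `u` (`nm u.1 ≤ n`) to `y` (`n < nm y.1`) until the last time before it leaves `Λ_n`: the last vertex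
inside has `nm ≥ n - 1`.  (Compare `G1_poe`, `exit_box` in `IC/G1.lean`.)
`card_pbd`: `|{x ∈ ℤ² : n - 1 ≤ nm x ≤ n}| ≤ (2n+1)^2 - (2(n-1)-1)^2 ≤ 16 (n + 1)` etc.; any constant is fine.
-/

set_option autoImplicit false

open Finset MeasureTheory

namespace H82.BX

open H82.IC

variable {K K' : Type} [Fintype K] [Fintype K']

/-- vertices of the box. -/
noncomputable def pbx (K : Type) [Fintype K] (n : ℕ) : Finset (Vx 2 × K) := (bx 2 n) ×ˢ univ

/-- edges of the box. -/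
noncomputable def pbE (P : PG K K') (n : ℕ) : Finset (Vx 2 × K') :=
  ((bx 2 (n + 1)) ×ˢ univ).filter (fun e => nm (P.gr.s e).1 ≤ n ∧ nm (P.gr.r e).1 ≤ n)

/-- boundary layer. -/
noncomputable def pbd (K : Type) [Fintype K] (n : ℕ) : Finset (Vx 2 × K) :=
  (pbx K n).filter (fun z => n ≤ nm z.1 + 1)

theorem PG1_tri {d : ℕ} (x y : Vx d) : nm x ≤ nm y + nm (x - y) := by
  have h := nm_add y (x - y)
  rwa [add_sub_cancel] at h

theorem PG1_off (x a : Vx 2) (h : nm a ≤ 1) : nm x ≤ nm (x + a) + 1 := by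
  have h1 := PG1_tri x (x + a)
  have h2 : x - (x + a) = -a := by abel
  rw [h2, nm_neg] at h1
  omega

theorem PG1_on (x a : Vx 2) (h : nm a ≤ 1) : nm (x + a) ≤ nm x + 1 := by
  have h1 := nm_add x a
  omega

theorem mem_pbx (n : ℕ) (z : Vx 2 × K) : z ∈ pbx K n ↔ nm z.1 ≤ n := by
  unfold pbx
  rw [mem_product, mem_bx]
  simp

theorem mem_pbE (P : PG K K') (hP : P.Ok) (n : ℕ) (e : Vx 2 × K') :
    e ∈ pbE P n ↔ nm (P.gr.s e).1 ≤ n ∧ nm (P.gr.r e).1 ≤ n := by
  unfold pbE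
  rw [mem_filter, mem_product, mem_bx]
  constructor
  · exact fun h => h.2
  · intro h
    refine ⟨⟨?_, mem_univ _⟩, h⟩
    have h1 : nm e.1 ≤ nm (e.1 + P.sv e.2) + 1 := PG1_off _ _ (hP.small e.2).1
    have h2 : nm (e.1 + P.sv e.2) ≤ n := h.1
    omega

theorem mem_pbd (n : ℕ) (z : Vx 2 × K) : z ∈ pbd K n ↔ nm z.1 ≤ n ∧ n ≤ nm z.1 + 1 := by
  unfold pbd
  rw [mem_filter, mem_pbx]

theorem card_pbd (K : Type) [Fintype K] : ∃ C : ℕ, ∀ n : ℕ, (pbd K n).card ≤ C * (n + 1) := by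
  refine ⟨16 * Fintype.card K, fun n => ?_⟩
  rcases Nat.lt_or_ge n 2 with hn | hn
  · have h1 : (pbd K n).card ≤ (pbx K n).card := card_le_card (filter_subset _ _)
    have h2 : (pbx K n).card = (2 * n + 1) ^ 2 * Fintype.card K := by
      unfold pbx
      rw [card_product, card_bx, card_univ]
    rw [h2] at h1
    refine h1.trans ?_
    have h3 : (2 * n + 1) ^ 2 ≤ 16 * (n + 1) := by
      interval_cases n <;> norm_num
    calc (2 * n + 1) ^ 2 * Fintype.card K ≤ (16 * (n + 1)) * Fintype.card K :=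
          Nat.mul_le_mul_right _ h3
      _ = 16 * Fintype.card K * (n + 1) := by ring
  · have h1 : pbd K n ⊆ (bx 2 n \ bx 2 (n - 2)) ×ˢ univ := by
      intro z hz
      unfold pbd pbx at hz
      rw [mem_filter, mem_product] at hz
      rw [mem_product, mem_sdiff]
      refine ⟨⟨hz.1.1, ?_⟩, mem_univ _⟩
      rw [mem_bx]
      have := hz.2
      omega
    refine (card_le_card h1).trans ?_
    rw [card_product, card_sdiff_of_subset (bx_mono (by omega)), card_bx, card_bx, card_univ]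
    have h3 : (2 * n + 1) ^ 2 - (2 * (n - 2) + 1) ^ 2 ≤ 16 * (n + 1) := by
      obtain ⟨m, rfl⟩ := Nat.exists_eq_add_of_le hn
      have h4 : 2 + m - 2 = m := by omega
      rw [h4, Nat.sub_le_iff_le_add]
      nlinarith
    calc ((2 * n + 1) ^ 2 - (2 * (n - 2) + 1) ^ 2) * Fintype.card K
        ≤ (16 * (n + 1)) * Fintype.card K := Nat.mul_le_mul_right _ h3
      _ = 16 * Fintype.card K * (n + 1) := by ring

theorem exists_pbx (F : Finset (Vx 2 × K)) : ∃ n, F ⊆ pbx K n := by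
  refine ⟨F.sup (fun z => nm z.1), fun z hz => ?_⟩
  unfold pbx
  rw [mem_product, mem_bx]
  exact ⟨Finset.le_sup (f := fun z : Vx 2 × K => nm z.1) hz, mem_univ _⟩

theorem exists_pbE (P : PG K K') (hP : P.Ok) (F : Finset (Vx 2 × K')) : ∃ n, F ⊆ pbE P n := by
  refine ⟨F.sup (fun e => max (nm (P.gr.s e).1) (nm (P.gr.r e).1)), fun e he => ?_⟩
  have h1 : max (nm (P.gr.s e).1) (nm (P.gr.r e).1) ≤
      F.sup (fun e => max (nm (P.gr.s e).1) (nm (P.gr.r e).1)) :=
    Finset.le_sup (f := fun e => max (nm (P.gr.s e).1) (nm (P.gr.r e).1)) he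
  rw [mem_pbE P hP]
  exact ⟨(le_max_left _ _).trans h1, (le_max_right _ _).trans h1⟩

theorem pbE_mono (P : PG K K') (hP : P.Ok) {n m : ℕ} (h : n ≤ m) : pbE P n ⊆ pbE P m := by
  intro e he
  rw [mem_pbE P hP] at he ⊢
  exact ⟨he.1.trans h, he.2.trans h⟩

theorem exit_pg (P : PG K K') (hP : P.Ok) {n : ℕ} {ω : Set (Vx 2 × K')} {u y : Vx 2 × K}
    (hu : nm u.1 ≤ n) (hy : n < nm y.1) (h : P.gr.Conn ω u y) :
    ∃ b ∈ pbd K n, P.gr.Conn (ω ∩ pbE P n) u b := by
  have key : (P.gr.Conn (ω ∩ pbE P n) u y ∧ nm y.1 ≤ n) ∨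
      ∃ b ∈ pbd K n, P.gr.Conn (ω ∩ pbE P n) u b := by
    clear hy
    induction h with
    | refl => exact Or.inl ⟨conn_refl _ _ _, hu⟩
    | @tail y z _ hyz ih =>
      rcases ih with ⟨h1, h2⟩ | h1
      · rcases le_or_gt (nm z.1) n with h3 | h3
        · left
          refine ⟨Relation.ReflTransGen.tail h1 ?_, h3⟩
          obtain ⟨e, he, hor⟩ := hyz
          refine ⟨e, ⟨he, ?_⟩, hor⟩
          rw [Finset.mem_coe, mem_pbE P hP]
          rcases hor with h4 | h4
          · rw [h4.1, h4.2]; exact ⟨h2, h3⟩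
          · rw [h4.1, h4.2]; exact ⟨h3, h2⟩
        · right
          refine ⟨y, (mem_pbd n y).2 ⟨h2, ?_⟩, h1⟩
          obtain ⟨e, _, hor⟩ := hyz
          have a1 : nm e.1 ≤ nm (P.gr.s e).1 + 1 := PG1_off _ _ (hP.small e.2).1
          have a2 : nm e.1 ≤ nm (P.gr.r e).1 + 1 := PG1_off _ _ (hP.small e.2).2
          have a3 : nm (P.gr.s e).1 ≤ nm e.1 + 1 := PG1_on _ _ (hP.small e.2).1
          have a4 : nm (P.gr.r e).1 ≤ nm e.1 + 1 := PG1_on _ _ (hP.small e.2).2
          rcases hor with h4 | h4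
          · rw [h4.1] at a1 a3
            rw [h4.2] at a2 a4
            omega
          · rw [h4.1] at a1 a3
            rw [h4.2] at a2 a4
            omega
      · exact Or.inr h1
  rcases key with ⟨_, h2⟩ | h1
  · omega
  · exact h1

/-- a connection uses finitely many edges. -/
theorem conn_pg (P : PG K K') (hP : P.Ok) {ω : Set (Vx 2 × K')} {u v : Vx 2 × K}
    (h : P.gr.Conn ω u v) : ∃ n, P.gr.Conn (ω ∩ pbE P n) u v := by
  induction h with
  | refl => exact ⟨0, conn_refl _ _ _⟩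
  | @tail y z _ hyz ih =>
    obtain ⟨n, hn⟩ := ih
    obtain ⟨e, he, hor⟩ := hyz
    obtain ⟨m, hm⟩ := exists_pbE P hP ({e} : Finset (Vx 2 × K'))
    have hem : e ∈ pbE P m := hm (Finset.mem_singleton_self e)
    refine ⟨max n m, Relation.ReflTransGen.tail (b := y) ?_ ?_⟩
    · refine conn_mono _ ?_ hn
      exact Set.inter_subset_inter_right _ (Finset.coe_subset.2 (pbE_mono P hP (le_max_left n m)))
    · exact ⟨e, ⟨he, Finset.mem_coe.2 (pbE_mono P hP (le_max_right n m) hem)⟩, hor⟩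

/-- infinite clusters. -/
theorem inf_pg (P : PG K K') (ω : Set (Vx 2 × K')) (v : Vx 2 × K) :
    (P.gr.cl ω v).Infinite ↔ ∀ n : ℕ, ∃ b : Vx 2 × K, n ≤ nm b.1 ∧ P.gr.Conn ω v b := by
  constructor
  · intro h n
    by_contra hcon
    push Not at hcon
    refine h ((Finset.finite_toSet (pbx K n)).subset fun b hb => ?_)
    rw [Finset.mem_coe]
    unfold pbx
    rw [mem_product, mem_bx]
    refine ⟨?_, mem_univ _⟩
    by_contra hlt
    exact hcon b (by omega) hb
  · intro h hfin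
    obtain ⟨n, hn⟩ := exists_pbx (K := K) hfin.toFinset
    obtain ⟨b, hb1, hb2⟩ := h (n + 1)
    have h1 : b ∈ hfin.toFinset := hfin.mem_toFinset.2 hb2
    have h2 := hn h1
    unfold pbx at h2
    rw [mem_product, mem_bx] at h2
    have := h2.1
    omega

/-- translations. -/
theorem conn_sh (P : PG K K') (a : Vx 2) (ω : Set (Vx 2 × K')) (u v : Vx 2 × K) :
    P.gr.Conn {e | ((e.1 + a, e.2) : Vx 2 × K') ∈ ω} u v ↔
      P.gr.Conn ω (u.1 + a, u.2) (v.1 + a, v.2) := by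
  have hs : ∀ e : Vx 2 × K', P.gr.s (e.1 + a, e.2) = ((P.gr.s e).1 + a, (P.gr.s e).2) := by
    intro e
    change (e.1 + a + P.sv e.2, P.sk e.2) = (e.1 + P.sv e.2 + a, P.sk e.2)
    rw [add_right_comm]
  have hr : ∀ e : Vx 2 × K', P.gr.r (e.1 + a, e.2) = ((P.gr.r e).1 + a, (P.gr.r e).2) := by
    intro e
    change (e.1 + a + P.rv e.2, P.rk e.2) = (e.1 + P.rv e.2 + a, P.rk e.2)
    rw [add_right_comm]
  constructor
  · intro h
    induction h with
    | refl => exact conn_refl _ _ _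
    | @tail y z _ hyz ih =>
      refine Relation.ReflTransGen.tail ih ?_
      obtain ⟨e, he, hor⟩ := hyz
      refine ⟨(e.1 + a, e.2), he, ?_⟩
      rw [hs, hr]
      rcases hor with h4 | h4
      · left; rw [h4.1, h4.2]; exact ⟨rfl, rfl⟩
      · right; rw [h4.1, h4.2]; exact ⟨rfl, rfl⟩
  · intro h
    have key : ∀ w, P.gr.Conn ω (u.1 + a, u.2) w →
        P.gr.Conn {e | ((e.1 + a, e.2) : Vx 2 × K') ∈ ω} u (w.1 - a, w.2) := by
      intro w hw
      induction hw with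
      | refl =>
        have : (((u.1 + a, u.2) : Vx 2 × K).1 - a, ((u.1 + a, u.2) : Vx 2 × K).2) = u := by
          simp
        rw [this]
        exact conn_refl _ _ _
      | @tail y z _ hyz ih =>
        refine Relation.ReflTransGen.tail ih ?_
        obtain ⟨e, he, hor⟩ := hyz
        have hs' := hs (e.1 - a, e.2)
        have hr' := hr (e.1 - a, e.2)
        simp only [sub_add_cancel] at hs' hr'
        refine ⟨(e.1 - a, e.2), ?_, ?_⟩
        · change (e.1 - a + a, e.2) ∈ ω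
          rw [sub_add_cancel]
          exact he
        · have h5 : P.gr.s (e.1 - a, e.2) = ((P.gr.s e).1 - a, (P.gr.s e).2) := by
            rw [hs']
            simp
          have h6 : P.gr.r (e.1 - a, e.2) = ((P.gr.r e).1 - a, (P.gr.r e).2) := by
            rw [hr']
            simp
          rw [h5, h6]
          rcases hor with h4 | h4
          · left; rw [h4.1, h4.2]; exact ⟨rfl, rfl⟩
          · right; rw [h4.1, h4.2]; exact ⟨rfl, rfl⟩
    have h7 := key _ h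
    have h8 : (((v.1 + a, v.2) : Vx 2 × K).1 - a, ((v.1 + a, v.2) : Vx 2 × K).2) = v := by simp
    rwa [h8] at h7

theorem tile_conn (P : PG K K') (hP : P.Ok) (r : ℕ) (hr : 1 ≤ r) (x : Vx 2)
    (a b : Vx 2 × K) (ha : a ∈ (tl r x : Set (Vx 2 × K))) (hb : b ∈ (tl r x : Set (Vx 2 × K))) :
    P.gr.Conn (P.gr.ins (tl r x)) a b := by
  have h := hP.conn r hr (a.1 - x, a.2) (by
    change nm (a.1 - x - 0) ≤ r
    rw [sub_zero]; exact ha) (b.1 - x, b.2) (by
    change nm (b.1 - x - 0) ≤ r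
    rw [sub_zero]; exact hb)
  have hset : P.gr.ins (tl r 0) = {e | ((e.1 + x, e.2) : Vx 2 × K') ∈ P.gr.ins (tl r x)} := by
    ext e
    change (nm (e.1 + P.sv e.2 - 0) ≤ r ∧ nm (e.1 + P.rv e.2 - 0) ≤ r) ↔
      (nm (e.1 + x + P.sv e.2 - x) ≤ r ∧ nm (e.1 + x + P.rv e.2 - x) ≤ r)
    have h1 : e.1 + x + P.sv e.2 - x = e.1 + P.sv e.2 - 0 := by abel
    have h2 : e.1 + x + P.rv e.2 - x = e.1 + P.rv e.2 - 0 := by abel
    rw [h1, h2]
  rw [hset, conn_sh] at h
  have h3 : ∀ z : Vx 2 × K, (((z.1 - x, z.2) : Vx 2 × K).1 + x, ((z.1 - x, z.2) : Vx 2 × K).2) = z := by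
    intro z; simp
  rw [h3, h3] at h
  exact h

end H82.BX
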