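import Pool.Agent.H82.BX.POI
import Pool.Agent.H82.BX.PG1

/-!
# CR1: an infinite cluster of the box `FN K` touches one of the four sides of `FN N`

`AS K S N σ`: some vertex of `FN K` is connected to `σ` by edges of `S ∩ inN N`.
`as_geo`: `v ∈ FN K ⊆ FN N` has an infinite cluster in `S`, so it is connected to a vertex outside the finite set `FN N`; follow a path to the first exit of `FN N`: the part before the exit uses edges of `S ∩ inN N` and its last vertex `w` has a neighbour outside of `FN N`: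
an upper triangle `(z, true)` has the neighbours `(z, false)`, `(z - e₀, false)`, `(z + e₁, false)`, so `w = (z, true)` has `z 0 = -N` (`w ∈ Lf N`) or `z 1 = N - 1` (`Tp N`); a lower triangle `(z, false)` has the neighbours `(z, true)`, `(z + e₀, true)`, `(z - e₁, true)`, so
`z 0 = N - 1` (`Rt N`) or `z 1 = -N` (`Bt N`).
`as_sy1`, `as_sy2`: the reflections `sV1`, `sV2` preserve `FN K`, `FN N`, `inN N` and exchange the sides: `sV1 : Lf ↔ Bt, Rt ↔ Tp`, `sV2 : Lf ↔ Tp, Rt ↔ Bt`; the edge `e` is open in `ω ∘ sE1` iff `sE1 e` is open in `ω` and `sE1` is an involution which maps the ends of `e` to the ends of `sE1 e`.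
`tb_sy1`: same for the crossings.
-/

set_option autoImplicit false

open Finset MeasureTheory Filter Topology

namespace H82.BX

open H82.IC XYB

/-- `FN K` is joined to `σ` inside `FN N`. -/
def AS (K N : ℕ) (σ : Set (Vx 2 × Bool)) (S : Set (Vx 2 × Fin 3)) : Prop :=
  ∃ u ∈ FN K, ∃ v ∈ σ, HH.gr.Conn (S ∩ inN N) u v

theorem CR1_s0 (x : Vx 2) : HH.gr.s (x, (0 : Fin 3)) = (x, false) := by
  show (x + 0, false) = (x, false)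
  rw [add_zero]

theorem CR1_r0 (x : Vx 2) : HH.gr.r (x, (0 : Fin 3)) = (x + -Pi.single 1 1, true) := rfl

theorem CR1_s1 (x : Vx 2) : HH.gr.s (x, (1 : Fin 3)) = (x + -Pi.single 0 1, false) := rfl

theorem CR1_r1 (x : Vx 2) : HH.gr.r (x, (1 : Fin 3)) = (x, true) := by
  show (x + 0, true) = (x, true)
  rw [add_zero]

theorem CR1_s2 (x : Vx 2) : HH.gr.s (x, (2 : Fin 3)) = (x, true) := by
  show (x + 0, true) = (x, true)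
  rw [add_zero]

theorem CR1_r2 (x : Vx 2) : HH.gr.r (x, (2 : Fin 3)) = (x, false) := by
  show (x + 0, false) = (x, false)
  rw [add_zero]

theorem CR1_mem (n : ℕ) (x : Vx 2) (k : Bool) :
    (x, k) ∈ FN n ↔ (-(n : ℤ) ≤ x 0 ∧ x 0 < n) ∧ (-(n : ℤ) ≤ x 1 ∧ x 1 < n) := by
  rw [mem_FN, Fin.forall_fin_two]

/-- the side of the box through which the path leaves. -/
theorem CR1_exit (N : ℕ) (a b : Vx 2 × Bool) (e : Vx 2 × Fin 3)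
    (hab : (HH.gr.s e = a ∧ HH.gr.r e = b) ∨ (HH.gr.s e = b ∧ HH.gr.r e = a))
    (ha : a ∈ FN N) (hb : b ∉ FN N) : a ∈ Lf N ∨ a ∈ Rt N ∨ a ∈ Tp N ∨ a ∈ Bt N := by
  obtain ⟨x, k⟩ := e
  fin_cases k
  · change (HH.gr.s (x, (0 : Fin 3)) = a ∧ HH.gr.r (x, (0 : Fin 3)) = b) ∨
      (HH.gr.s (x, (0 : Fin 3)) = b ∧ HH.gr.r (x, (0 : Fin 3)) = a) at hab
    rw [CR1_s0, CR1_r0] at hab
    rcases hab with ⟨rfl, rfl⟩ | ⟨rfl, rfl⟩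
    · right; right; right
      refine ⟨ha, rfl, ?_⟩
      rw [CR1_mem] at ha hb
      simp at ha hb ⊢
      omega
    · right; right; left
      refine ⟨ha, rfl, ?_⟩
      rw [CR1_mem] at ha hb
      simp at ha hb ⊢
      omega
  · change (HH.gr.s (x, (1 : Fin 3)) = a ∧ HH.gr.r (x, (1 : Fin 3)) = b) ∨
      (HH.gr.s (x, (1 : Fin 3)) = b ∧ HH.gr.r (x, (1 : Fin 3)) = a) at hab
    rw [CR1_s1, CR1_r1] at hab
    rcases hab with ⟨rfl, rfl⟩ | ⟨rfl, rfl⟩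
    · right; left
      refine ⟨ha, rfl, ?_⟩
      rw [CR1_mem] at ha hb
      simp at ha hb ⊢
      omega
    · left
      refine ⟨ha, rfl, ?_⟩
      rw [CR1_mem] at ha hb
      simp at ha hb ⊢
      omega
  · change (HH.gr.s (x, (2 : Fin 3)) = a ∧ HH.gr.r (x, (2 : Fin 3)) = b) ∨
      (HH.gr.s (x, (2 : Fin 3)) = b ∧ HH.gr.r (x, (2 : Fin 3)) = a) at hab
    rw [CR1_s2, CR1_r2] at hab
    rcases hab with ⟨rfl, rfl⟩ | ⟨rfl, rfl⟩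
    · exfalso
      rw [CR1_mem] at ha hb
      exact hb ha
    · exfalso
      rw [CR1_mem] at ha hb
      exact hb ha

theorem as_geo (K N : ℕ) (hKN : K ≤ N) (S : Set (Vx 2 × Fin 3)) (v : Vx 2 × Bool) (hv : v ∈ FN K)
    (hinf : (HH.gr.cl S v).Infinite) :
    AS K N (Lf N) S ∨ AS K N (Rt N) S ∨ AS K N (Tp N) S ∨ AS K N (Bt N) S := by
  have hvN : v ∈ FN N := by
    rw [mem_FN] at hv ⊢
    intro i
    have h := hv i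
    have h2 : (K : ℤ) ≤ N := by exact_mod_cast hKN
    constructor <;> omega
  have hex : ∃ u ∈ HH.gr.cl S v, u ∉ FN N := by
    by_contra hcon
    push Not at hcon
    exact hinf ((FN N).finite_toSet.subset (fun u hu => hcon u hu))
  obtain ⟨u, hu, huN⟩ := hex
  have key : ∀ u, HH.gr.Conn S v u → (u ∈ FN N ∧ HH.gr.Conn (S ∩ inN N) v u) ∨
      ∃ w, HH.gr.Conn (S ∩ inN N) v w ∧ (w ∈ Lf N ∨ w ∈ Rt N ∨ w ∈ Tp N ∨ w ∈ Bt N) := by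
    intro u hu
    induction hu with
    | refl => exact Or.inl ⟨hvN, conn_refl _ _ _⟩
    | @tail a b _ hab ih =>
      rcases ih with ⟨ha, hc⟩ | h
      · obtain ⟨e, he, hab⟩ := hab
        by_cases hb : b ∈ FN N
        · left
          refine ⟨hb, Relation.ReflTransGen.tail hc ⟨e, ⟨he, ?_⟩, hab⟩⟩
          show HH.gr.s e ∈ (FN N : Set (Vx 2 × Bool)) ∧ HH.gr.r e ∈ (FN N : Set (Vx 2 × Bool))
          rcases hab with ⟨h1, h2⟩ | ⟨h1, h2⟩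
          · rw [h1, h2]
            exact ⟨ha, hb⟩
          · rw [h1, h2]
            exact ⟨hb, ha⟩
        · right
          exact ⟨a, hc, CR1_exit N a b e hab ha hb⟩
      · exact Or.inr h
  rcases key u hu with ⟨h1, _⟩ | ⟨w, hw, h⟩
  · exact absurd h1 huN
  · rcases h with h | h | h | h
    · exact Or.inl ⟨v, hv, w, h, hw⟩
    · exact Or.inr (Or.inl ⟨v, hv, w, h, hw⟩)
    · exact Or.inr (Or.inr (Or.inl ⟨v, hv, w, h, hw⟩))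
    · exact Or.inr (Or.inr (Or.inr ⟨v, hv, w, h, hw⟩))

/-- `ψ` maps the ends of `e` to the ends of the image. -/
def CR1H {V E : Type} (G : Gr V E) (φ : V → V) (ψ : E → E) : Prop :=
  ∀ e, (G.s (ψ e) = φ (G.s e) ∧ G.r (ψ e) = φ (G.r e)) ∨
    (G.s (ψ e) = φ (G.r e) ∧ G.r (ψ e) = φ (G.s e))

theorem CR1_tr {V E : Type} (G : Gr V E) (φ : V → V) (ψ : E → E) (h : CR1H G φ ψ) (S S' : Set E)
    (hS : ∀ e ∈ S, ψ e ∈ S') (u v : V) (hc : G.Conn S u v) : G.Conn S' (φ u) (φ v) := by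
  induction hc with
  | refl => exact conn_refl _ _ _
  | @tail a b _ hab ih =>
    refine Relation.ReflTransGen.tail ih ?_
    obtain ⟨e, he, hab⟩ := hab
    refine ⟨ψ e, hS e he, ?_⟩
    rcases h e with ⟨h1, h2⟩ | ⟨h1, h2⟩
    · rw [h1, h2]
      rcases hab with ⟨h3, h4⟩ | ⟨h3, h4⟩
      · left
        rw [h3, h4]
        exact ⟨rfl, rfl⟩
      · right
        rw [h3, h4]
        exact ⟨rfl, rfl⟩
    · rw [h1, h2]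
      rcases hab with ⟨h3, h4⟩ | ⟨h3, h4⟩
      · right
        rw [h3, h4]
        exact ⟨rfl, rfl⟩
      · left
        rw [h3, h4]
        exact ⟨rfl, rfl⟩

theorem CR1_in (N : ℕ) (φ : Vx 2 × Bool → Vx 2 × Bool) (ψ : Vx 2 × Fin 3 → Vx 2 × Fin 3)
    (h : CR1H HH.gr φ ψ) (hN : ∀ v ∈ FN N, φ v ∈ FN N) (e : Vx 2 × Fin 3) (he : e ∈ inN N) :
    ψ e ∈ inN N := by
  obtain ⟨h1, h2⟩ := he
  show HH.gr.s (ψ e) ∈ (FN N : Set (Vx 2 × Bool)) ∧ HH.gr.r (ψ e) ∈ (FN N : Set (Vx 2 × Bool))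
  rcases h e with ⟨h3, h4⟩ | ⟨h3, h4⟩
  · rw [h3, h4]
    exact ⟨hN _ h1, hN _ h2⟩
  · rw [h3, h4]
    exact ⟨hN _ h2, hN _ h1⟩

theorem CR1_cn (N : ℕ) (φ : Vx 2 × Bool → Vx 2 × Bool) (ψ : Vx 2 × Fin 3 → Vx 2 × Fin 3)
    (h : CR1H HH.gr φ ψ) (hN : ∀ v ∈ FN N, φ v ∈ FN N) (ω : Vx 2 × Fin 3 → Bool)
    (u v : Vx 2 × Bool) (hc : HH.gr.Conn (op1 (ω ∘ ψ) ∩ inN N) u v) :
    HH.gr.Conn (op1 ω ∩ inN N) (φ u) (φ v) :=
  CR1_tr HH.gr φ ψ h (op1 (ω ∘ ψ) ∩ inN N) (op1 ω ∩ inN N)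
    (fun e he => ⟨he.1, CR1_in N φ ψ h hN e he.2⟩) u v hc

theorem CR1_cn' (N : ℕ) (φ : Vx 2 × Bool → Vx 2 × Bool) (ψ : Vx 2 × Fin 3 → Vx 2 × Fin 3)
    (h : CR1H HH.gr φ ψ) (hN : ∀ v ∈ FN N, φ v ∈ FN N) (hi : ∀ e, ψ (ψ e) = e)
    (ω : Vx 2 × Fin 3 → Bool)
    (u v : Vx 2 × Bool) (hc : HH.gr.Conn (op1 ω ∩ inN N) u v) :
    HH.gr.Conn (op1 (ω ∘ ψ) ∩ inN N) (φ u) (φ v) := by
  refine CR1_tr HH.gr φ ψ h (op1 ω ∩ inN N) (op1 (ω ∘ ψ) ∩ inN N)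
    (fun e he => ⟨?_, CR1_in N φ ψ h hN e he.2⟩) u v hc
  show ω (ψ (ψ e)) = true
  rw [hi]
  exact he.1

theorem CR1_as (K N : ℕ) (φ : Vx 2 × Bool → Vx 2 × Bool) (ψ : Vx 2 × Fin 3 → Vx 2 × Fin 3)
    (h : CR1H HH.gr φ ψ) (hK : ∀ n, ∀ v ∈ FN n, φ v ∈ FN n) (hi : ∀ e, ψ (ψ e) = e)
    (σ σ' : Set (Vx 2 × Bool)) (h1 : ∀ v ∈ σ, φ v ∈ σ') (h2 : ∀ v ∈ σ', φ v ∈ σ)
    (ω : Vx 2 × Fin 3 → Bool) :
    AS K N σ (op1 (ω ∘ ψ)) ↔ AS K N σ' (op1 ω) := by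
  constructor
  · rintro ⟨u, hu, v, hv, hc⟩
    exact ⟨φ u, hK K u hu, φ v, h1 v hv, CR1_cn N φ ψ h (hK N) ω u v hc⟩
  · rintro ⟨u, hu, v, hv, hc⟩
    exact ⟨φ u, hK K u hu, φ v, h2 v hv, CR1_cn' N φ ψ h (hK N) hi ω u v hc⟩

theorem CR1_H1 : CR1H HH.gr sV1 sE1 := by
  rintro ⟨x, k⟩
  fin_cases k
  · right
    change HH.gr.s (swp x, (1 : Fin 3)) = sV1 (HH.gr.r (x, (0 : Fin 3))) ∧
      HH.gr.r (swp x, (1 : Fin 3)) = sV1 (HH.gr.s (x, (0 : Fin 3)))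
    rw [CR1_s0, CR1_r0, CR1_s1, CR1_r1]
    refine ⟨Prod.ext ?_ rfl, rfl⟩
    funext i
    fin_cases i <;> simp [sV1, swp]
  · right
    change HH.gr.s (swp x, (0 : Fin 3)) = sV1 (HH.gr.r (x, (1 : Fin 3))) ∧
      HH.gr.r (swp x, (0 : Fin 3)) = sV1 (HH.gr.s (x, (1 : Fin 3)))
    rw [CR1_s0, CR1_r0, CR1_s1, CR1_r1]
    refine ⟨rfl, Prod.ext ?_ rfl⟩
    funext i
    fin_cases i <;> simp [sV1, swp]
  · right
    change HH.gr.s (swp x, (2 : Fin 3)) = sV1 (HH.gr.r (x, (2 : Fin 3))) ∧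
      HH.gr.r (swp x, (2 : Fin 3)) = sV1 (HH.gr.s (x, (2 : Fin 3)))
    rw [CR1_s2, CR1_r2, CR1_s2, CR1_r2]
    exact ⟨rfl, rfl⟩

theorem CR1_H2 : CR1H HH.gr sV2 sE2 := by
  rintro ⟨x, k⟩
  fin_cases k
  · left
    change HH.gr.s (-swp x - Pi.single 1 1, (1 : Fin 3)) = sV2 (HH.gr.s (x, (0 : Fin 3))) ∧
      HH.gr.r (-swp x - Pi.single 1 1, (1 : Fin 3)) = sV2 (HH.gr.r (x, (0 : Fin 3)))
    rw [CR1_s0, CR1_r0, CR1_s1, CR1_r1]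
    refine ⟨Prod.ext ?_ rfl, Prod.ext ?_ rfl⟩
    · funext i
      fin_cases i
      · show -(x 1) - 0 + -1 = -(x 1) - 1
        ring
      · show -(x 0) - 1 + -0 = -(x 0) - 1
        ring
    · funext i
      fin_cases i
      · show -(x 1) - 0 = -(x 1 + -1) - 1
        ring
      · show -(x 0) - 1 = -(x 0 + -0) - 1
        ring
  · left
    change HH.gr.s (-swp x - Pi.single 0 1, (0 : Fin 3)) = sV2 (HH.gr.s (x, (1 : Fin 3))) ∧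
      HH.gr.r (-swp x - Pi.single 0 1, (0 : Fin 3)) = sV2 (HH.gr.r (x, (1 : Fin 3)))
    rw [CR1_s0, CR1_r0, CR1_s1, CR1_r1]
    refine ⟨Prod.ext ?_ rfl, Prod.ext ?_ rfl⟩
    · funext i
      fin_cases i
      · show -(x 1) - 1 = -(x 1 + -0) - 1
        ring
      · show -(x 0) - 0 = -(x 0 + -1) - 1
        ring
    · funext i
      fin_cases i
      · show -(x 1) - 1 + -0 = -(x 1) - 1
        ring
      · show -(x 0) - 0 + -1 = -(x 0) - 1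
        ring
  · left
    change HH.gr.s (-swp x - 1, (2 : Fin 3)) = sV2 (HH.gr.s (x, (2 : Fin 3))) ∧
      HH.gr.r (-swp x - 1, (2 : Fin 3)) = sV2 (HH.gr.r (x, (2 : Fin 3)))
    rw [CR1_s2, CR1_r2, CR1_s2, CR1_r2]
    exact ⟨rfl, rfl⟩

theorem CR1_i1 (e : Vx 2 × Fin 3) : sE1 (sE1 e) = e := by
  obtain ⟨x, k⟩ := e
  refine Prod.ext ?_ ?_
  · funext i
    fin_cases i <;> rfl
  · fin_cases k <;> rfl

theorem CR1_i2 (e : Vx 2 × Fin 3) : sE2 (sE2 e) = e := by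
  obtain ⟨x, k⟩ := e
  refine Prod.ext ?_ ?_
  · funext i
    fin_cases k <;> fin_cases i
    · show -(-(x 0) - 1) - 1 = x 0
      ring
    · show -(-(x 1) - 0) - 0 = x 1
      ring
    · show -(-(x 0) - 0) - 0 = x 0
      ring
    · show -(-(x 1) - 1) - 1 = x 1
      ring
    · show -(-(x 0) - 1) - 1 = x 0
      ring
    · show -(-(x 1) - 1) - 1 = x 1
      ring
  · fin_cases k <;> rfl

theorem CR1_F1 (n : ℕ) : ∀ v ∈ FN n, sV1 v ∈ FN n := by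
  rintro ⟨x, k⟩ hv
  show (swp x, !k) ∈ FN n
  rw [CR1_mem] at hv ⊢
  exact ⟨hv.2, hv.1⟩

theorem CR1_F2 (n : ℕ) : ∀ v ∈ FN n, sV2 v ∈ FN n := by
  rintro ⟨x, k⟩ hv
  show (-swp x - 1, k) ∈ FN n
  rw [CR1_mem] at hv ⊢
  simp [swp] at hv ⊢
  omega

theorem CR1_LB1 (N : ℕ) : ∀ v ∈ Lf N, sV1 v ∈ Bt N := by
  rintro ⟨x, k⟩ ⟨h1, h2, h3⟩
  refine ⟨CR1_F1 N _ h1, ?_, h3⟩
  show (!k) = false
  rw [show k = true from h2]
  rfl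

theorem CR1_BL1 (N : ℕ) : ∀ v ∈ Bt N, sV1 v ∈ Lf N := by
  rintro ⟨x, k⟩ ⟨h1, h2, h3⟩
  refine ⟨CR1_F1 N _ h1, ?_, h3⟩
  show (!k) = true
  rw [show k = false from h2]
  rfl

theorem CR1_RT1 (N : ℕ) : ∀ v ∈ Rt N, sV1 v ∈ Tp N := by
  rintro ⟨x, k⟩ ⟨h1, h2, h3⟩
  refine ⟨CR1_F1 N _ h1, ?_, h3⟩
  show (!k) = true
  rw [show k = false from h2]
  rfl

theorem CR1_TR1 (N : ℕ) : ∀ v ∈ Tp N, sV1 v ∈ Rt N := by
  rintro ⟨x, k⟩ ⟨h1, h2, h3⟩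
  refine ⟨CR1_F1 N _ h1, ?_, h3⟩
  show (!k) = false
  rw [show k = true from h2]
  rfl

theorem CR1_LT2 (N : ℕ) : ∀ v ∈ Lf N, sV2 v ∈ Tp N := by
  rintro ⟨x, k⟩ ⟨h1, h2, h3⟩
  refine ⟨CR1_F2 N _ h1, h2, ?_⟩
  have h4 : x 0 = -(N : ℤ) := h3
  show -(x 0) - 1 = (N : ℤ) - 1
  omega

theorem CR1_TL2 (N : ℕ) : ∀ v ∈ Tp N, sV2 v ∈ Lf N := by
  rintro ⟨x, k⟩ ⟨h1, h2, h3⟩
  refine ⟨CR1_F2 N _ h1, h2, ?_⟩
  have h4 : x 1 = (N : ℤ) - 1 := h3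
  show -(x 1) - 1 = -(N : ℤ)
  omega

theorem CR1_RB2 (N : ℕ) : ∀ v ∈ Rt N, sV2 v ∈ Bt N := by
  rintro ⟨x, k⟩ ⟨h1, h2, h3⟩
  refine ⟨CR1_F2 N _ h1, h2, ?_⟩
  have h4 : x 0 = (N : ℤ) - 1 := h3
  show -(x 0) - 1 = -(N : ℤ)
  omega

theorem CR1_BR2 (N : ℕ) : ∀ v ∈ Bt N, sV2 v ∈ Rt N := by
  rintro ⟨x, k⟩ ⟨h1, h2, h3⟩
  refine ⟨CR1_F2 N _ h1, h2, ?_⟩
  have h4 : x 1 = -(N : ℤ) := h3
  show -(x 1) - 1 = (N : ℤ) - 1
  omega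

theorem as_sy1 (K N : ℕ) (ω : Vx 2 × Fin 3 → Bool) :
    (AS K N (Bt N) (op1 (ω ∘ sE1)) ↔ AS K N (Lf N) (op1 ω)) ∧
      (AS K N (Tp N) (op1 (ω ∘ sE1)) ↔ AS K N (Rt N) (op1 ω)) :=
  ⟨CR1_as K N sV1 sE1 CR1_H1 CR1_F1 CR1_i1 _ _ (CR1_BL1 N) (CR1_LB1 N) ω,
    CR1_as K N sV1 sE1 CR1_H1 CR1_F1 CR1_i1 _ _ (CR1_TR1 N) (CR1_RT1 N) ω⟩

theorem as_sy2 (K N : ℕ) (ω : Vx 2 × Fin 3 → Bool) :
    (AS K N (Tp N) (op1 (ω ∘ sE2)) ↔ AS K N (Lf N) (op1 ω)) ∧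
      (AS K N (Bt N) (op1 (ω ∘ sE2)) ↔ AS K N (Rt N) (op1 ω)) :=
  ⟨CR1_as K N sV2 sE2 CR1_H2 CR1_F2 CR1_i2 _ _ (CR1_TL2 N) (CR1_LT2 N) ω,
    CR1_as K N sV2 sE2 CR1_H2 CR1_F2 CR1_i2 _ _ (CR1_BR2 N) (CR1_RB2 N) ω⟩

theorem tb_sy1 (N : ℕ) (ω : Vx 2 × Fin 3 → Bool) :
    TBc N (op1 (ω ∘ sE1)) ↔ LRc N (op1 ω) := by
  constructor
  · rintro ⟨u, hu, v, hv, hc⟩
    refine ⟨sV1 v, CR1_BL1 N v hv, sV1 u, CR1_TR1 N u hu, ?_⟩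
    exact conn_symm _ (CR1_cn N sV1 sE1 CR1_H1 (CR1_F1 N) ω u v hc)
  · rintro ⟨u, hu, v, hv, hc⟩
    refine ⟨sV1 v, CR1_RT1 N v hv, sV1 u, CR1_LB1 N u hu, ?_⟩
    exact conn_symm _ (CR1_cn' N sV1 sE1 CR1_H1 (CR1_F1 N) CR1_i1 ω u v hc)

/-- the edges inside the box form a finite set. -/
theorem CR1_fin (N : ℕ) : ∃ F : Finset (Vx 2 × Fin 3), inN N ⊆ F := by
  refine ⟨(bx 2 (N + 1)) ×ˢ univ, ?_⟩
  rintro ⟨x, k⟩ ⟨h1, _⟩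
  rw [Finset.mem_coe, mem_product]
  refine ⟨?_, mem_univ _⟩
  show x ∈ bx 2 (N + 1)
  unfold bx
  rw [Fintype.mem_piFinset]
  have h2 : HH.gr.s (x, k) ∈ FN N := h1
  intro i
  rw [Finset.mem_Icc]
  fin_cases k
  · change HH.gr.s (x, (0 : Fin 3)) ∈ FN N at h2
    rw [CR1_s0, CR1_mem] at h2
    push_cast
    fin_cases i
    · show -((N : ℤ) + 1) ≤ x 0 ∧ x 0 ≤ (N : ℤ) + 1
      omega
    · show -((N : ℤ) + 1) ≤ x 1 ∧ x 1 ≤ (N : ℤ) + 1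
      omega
  · change HH.gr.s (x, (1 : Fin 3)) ∈ FN N at h2
    rw [CR1_s1, CR1_mem] at h2
    simp at h2
    push_cast
    fin_cases i
    · show -((N : ℤ) + 1) ≤ x 0 ∧ x 0 ≤ (N : ℤ) + 1
      omega
    · show -((N : ℤ) + 1) ≤ x 1 ∧ x 1 ≤ (N : ℤ) + 1
      omega
  · change HH.gr.s (x, (2 : Fin 3)) ∈ FN N at h2
    rw [CR1_s2, CR1_mem] at h2
    push_cast
    fin_cases i
    · show -((N : ℤ) + 1) ≤ x 0 ∧ x 0 ≤ (N : ℤ) + 1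
      omega
    · show -((N : ℤ) + 1) ≤ x 1 ∧ x 1 ≤ (N : ℤ) + 1
      omega

theorem CR1_eq (N : ℕ) (F : Finset (Vx 2 × Fin 3)) (hF : inN N ⊆ F)
    (ω ω' : Vx 2 × Fin 3 → Bool) (h : ∀ e ∈ F, ω e = ω' e) :
    op1 ω ∩ inN N = op1 ω' ∩ inN N := by
  ext e
  constructor
  · rintro ⟨h1, h2⟩
    refine ⟨?_, h2⟩
    show ω' e = true
    rw [← h e (hF h2)]
    exact h1
  · rintro ⟨h1, h2⟩
    refine ⟨?_, h2⟩
    show ω e = true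
    rw [h e (hF h2)]
    exact h1

/-- the events depend on finitely many edges and are increasing. -/
theorem as_lc (K N : ℕ) (σ : Set (Vx 2 × Bool)) : Lc {ω : Vx 2 × Fin 3 → Bool | AS K N σ (op1 ω)} ∧
    Inc1 {ω : Vx 2 × Fin 3 → Bool | AS K N σ (op1 ω)} := by
  constructor
  · obtain ⟨F, hF⟩ := CR1_fin N
    refine ⟨F, fun ω ω' h => ?_⟩
    show AS K N σ (op1 ω) ↔ AS K N σ (op1 ω')
    unfold AS
    rw [CR1_eq N F hF ω ω' h]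
  · rintro ω ω' h ⟨u, hu, v, hv, hc⟩
    have hsub : op1 ω ∩ inN N ⊆ op1 ω' ∩ inN N := fun e he => ⟨h e he.1, he.2⟩
    exact ⟨u, hu, v, hv, conn_mono _ hsub hc⟩

theorem lr_lc (N : ℕ) : Lc {ω : Vx 2 × Fin 3 → Bool | LRc N (op1 ω)} ∧
    Lc {ω : Vx 2 × Fin 3 → Bool | TBc N (op1 ω)} := by
  obtain ⟨F, hF⟩ := CR1_fin N
  constructor
  · refine ⟨F, fun ω ω' h => ?_⟩
    show LRc N (op1 ω) ↔ LRc N (op1 ω')
    unfold LRc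
    rw [CR1_eq N F hF ω ω' h]
  · refine ⟨F, fun ω ω' h => ?_⟩
    show TBc N (op1 ω) ↔ TBc N (op1 ω')
    unfold TBc
    rw [CR1_eq N F hF ω ω' h]

end H82.BX
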