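import Pool.Agent.H82.BX.Defs

/-!
# HS1: summability and basic properties of the height expectations

`Bd.out`: every `v ∈ F` is connected by edges of `EF` to a vertex outside `F` (height `0`), so `|h v| ≤ ∑_{e ∈ EF} |∇_e h|`, and `h ↦ (∇_e h)_{e ∈ EF}` is injective.  Hence
`∑_h ∏_{e ∈ EF} w(∇_e h) (1 + ∑_v |h v|)^k ≤ ∑_{J : EF → ℤ} ∏ w(J_e) (1 + |F| ∑_e |J_e|)^k < ∞` (expand the power, `WOk.summ`).
Everything else: sums of absolutely convergent series.
-/

set_option autoImplicit false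

open Finset MeasureTheory

namespace H82.BX

open H82.IC

variable {V E : Type} [DecidableEq V] [DecidableEq E]

theorem HS1_base (F : Finset V) (h : ↥F → ℤ) : (1 : ℝ) ≤ 1 + ∑ v, |(h v : ℝ)| := by
  have : 0 ≤ ∑ v, |(h v : ℝ)| := Finset.sum_nonneg fun v _ => abs_nonneg _
  linarith

theorem HS1_C (F : Finset V) (g : (V → ℤ) → ℝ) (C : ℝ) (k : ℕ)
    (h : ∀ h : ↥F → ℤ, |g (ex h)| ≤ C * (1 + ∑ v, |(h v : ℝ)|) ^ k) : 0 ≤ C := by
  have h0 := h 0
  have h1 := (abs_nonneg _).trans h0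
  simpa using h1

/-- bounded functions are `PBd`. -/
theorem HS1_PBd_bdd (F : Finset V) (g : (V → ℤ) → ℝ) (C : ℝ) (h : ∀ h, |g h| ≤ C) : PBd F g :=
  ⟨C, 0, fun h' => by simpa using h (ex h')⟩

theorem HS1_PBd_add (F : Finset V) (g g' : (V → ℤ) → ℝ) (h : PBd F g) (h' : PBd F g') :
    PBd F (fun h => g h + g' h) := by
  obtain ⟨C, k, hC⟩ := h
  obtain ⟨C', k', hC'⟩ := h'
  have c0 := HS1_C F g C k hC
  have c0' := HS1_C F g' C' k' hC'
  refine ⟨C + C', k + k', fun x => ?_⟩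
  have b1 := HS1_base F x
  set B := 1 + ∑ v, |(x v : ℝ)|
  have h1 : B ^ k ≤ B ^ (k + k') := pow_le_pow_right₀ b1 (Nat.le_add_right _ _)
  have h2 : B ^ k' ≤ B ^ (k + k') := pow_le_pow_right₀ b1 (Nat.le_add_left _ _)
  calc |g (ex x) + g' (ex x)| ≤ |g (ex x)| + |g' (ex x)| := abs_add_le _ _
    _ ≤ C * B ^ k + C' * B ^ k' := add_le_add (hC x) (hC' x)
    _ ≤ C * B ^ (k + k') + C' * B ^ (k + k') :=
        add_le_add (mul_le_mul_of_nonneg_left h1 c0) (mul_le_mul_of_nonneg_left h2 c0')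
    _ = (C + C') * B ^ (k + k') := by ring

theorem HS1_ex_mem (F : Finset V) (h : ↥F → ℤ) (v : ↥F) : ex h v.1 = h v := by
  unfold ex
  rw [dif_pos v.2]

theorem HS1_ex_not (F : Finset V) (h : ↥F → ℤ) (v : V) (hv : v ∉ F) : ex h v = 0 := by
  unfold ex
  rw [dif_neg hv]

theorem HS1_ex_sub (F : Finset V) (h h' : ↥F → ℤ) (v : V) : ex (h - h') v = ex h v - ex h' v := by
  unfold ex
  split_ifs with hv
  · rfl
  · simp

theorem HS1_ex_neg (F : Finset V) (h : ↥F → ℤ) : ex (-h) = -ex h := by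
  funext v
  rw [Pi.neg_apply]
  unfold ex
  split_ifs with hv
  · rfl
  · simp

/-- gradient. -/
def HS1_J (G : Gr V E) (F : Finset V) (EF : Finset E) (h : ↥F → ℤ) : ↥EF → ℤ :=
  fun e => ex h (G.s e.1) - ex h (G.r e.1)

theorem HS1_path (G : Gr V E) (F : Finset V) (EF : Finset E) {v u : V}
    (hc : G.Conn (EF : Set E) v u) : ∃ N : ℕ, ∀ h : ↥F → ℤ,
      |(ex h v : ℝ) - ex h u| ≤ N * ∑ e, |(HS1_J G F EF h e : ℝ)| := by
  induction hc with
  | refl => exact ⟨0, fun h => by simp⟩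
  | @tail y z _ hyz ih =>
    obtain ⟨N, hN⟩ := ih
    obtain ⟨e, he, hor⟩ := hyz
    refine ⟨N + 1, fun h => ?_⟩
    have h1 : |(ex h y : ℝ) - ex h z| ≤ ∑ e, |(HS1_J G F EF h e : ℝ)| := by
      have h2 : |(ex h y : ℝ) - ex h z| = |(HS1_J G F EF h ⟨e, he⟩ : ℝ)| := by
        unfold HS1_J
        push_cast
        rcases hor with h3 | h3
        · rw [h3.1, h3.2]
        · rw [h3.1, h3.2, abs_sub_comm]
      rw [h2]
      exact Finset.single_le_sum (f := fun e => |(HS1_J G F EF h e : ℝ)|)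
        (fun e _ => abs_nonneg _) (mem_univ _)
    have h4 : (ex h v : ℝ) - ex h z = ((ex h v : ℝ) - ex h y) + ((ex h y : ℝ) - ex h z) := by ring
    rw [h4]
    refine (abs_add_le _ _).trans ((add_le_add (hN h) h1).trans (le_of_eq ?_))
    push_cast
    ring

theorem HS1_bound (G : Gr V E) (F : Finset V) (EF : Finset E) (hB : Bd G F EF) :
    ∃ N : ℕ, ∀ h : ↥F → ℤ, ∀ v : ↥F, |(h v : ℝ)| ≤ N * ∑ e, |(HS1_J G F EF h e : ℝ)| := by
  have h1 : ∀ v : ↥F, ∃ N : ℕ, ∀ h : ↥F → ℤ, |(h v : ℝ)| ≤ N * ∑ e, |(HS1_J G F EF h e : ℝ)| := by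
    intro v
    obtain ⟨u, hu, hc⟩ := hB.out v.1 v.2
    obtain ⟨N, hN⟩ := HS1_path G F EF hc
    refine ⟨N, fun h => ?_⟩
    have h2 := hN h
    rwa [HS1_ex_mem, HS1_ex_not F h u hu, Int.cast_zero, sub_zero] at h2
  choose N hN using h1
  refine ⟨∑ v, N v, fun h v => (hN v h).trans ?_⟩
  refine mul_le_mul_of_nonneg_right ?_ (Finset.sum_nonneg fun e _ => abs_nonneg _)
  exact_mod_cast Finset.single_le_sum (f := N) (fun v _ => Nat.zero_le _) (mem_univ v)

theorem HS1_J_inj (G : Gr V E) (F : Finset V) (EF : Finset E) (hB : Bd G F EF) :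
    Function.Injective (HS1_J G F EF) := by
  obtain ⟨N, hN⟩ := HS1_bound G F EF hB
  intro h h' hh
  funext v
  have h1 := hN (h - h') v
  have h2 : ∑ e, |(HS1_J G F EF (h - h') e : ℝ)| = 0 := by
    refine Finset.sum_eq_zero fun e _ => ?_
    have h3 : HS1_J G F EF (h - h') e = HS1_J G F EF h e - HS1_J G F EF h' e := by
      unfold HS1_J
      rw [HS1_ex_sub, HS1_ex_sub]
      ring
    rw [h3, hh, sub_self, Int.cast_zero, abs_zero]
  rw [h2, mul_zero] at h1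
  have h4 : ((h - h') v : ℝ) = 0 := abs_nonpos_iff.1 h1
  have h5 : (h - h') v = 0 := by exact_mod_cast h4
  rw [Pi.sub_apply] at h5
  omega

theorem HS1_pi_summ {ι : Type} [Fintype ι] [DecidableEq ι] (φ : ℤ → ℝ) (h0 : ∀ n, 0 ≤ φ n)
    (hs : Summable φ) : Summable (fun J : ι → ℤ => ∏ i, φ (J i)) := by
  refine summable_of_sum_le (c := ∏ _i : ι, ∑' n, φ n)
    (fun J => Finset.prod_nonneg fun i _ => h0 _) fun s => ?_
  have h1 : s ⊆ Fintype.piFinset (fun i : ι => s.image (fun J => J i)) := by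
    intro J hJ
    rw [Fintype.mem_piFinset]
    exact fun i => mem_image_of_mem _ hJ
  calc ∑ J ∈ s, ∏ i, φ (J i)
      ≤ ∑ J ∈ Fintype.piFinset (fun i : ι => s.image (fun J => J i)), ∏ i, φ (J i) :=
        Finset.sum_le_sum_of_subset_of_nonneg h1
          (fun J _ _ => Finset.prod_nonneg fun i _ => h0 _)
    _ = ∏ i : ι, ∑ n ∈ s.image (fun J => J i), φ n := by
        rw [Finset.prod_univ_sum]
    _ ≤ ∏ _i : ι, ∑' n, φ n := by
        refine Finset.prod_le_prod (fun i _ => Finset.sum_nonneg fun n _ => h0 n) fun i _ => ?_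
        exact hs.sum_le_tsum _ (fun n _ => h0 n)

theorem HS1_phi_summ (w : ℤ → ℝ) (hw : WOk w) (k : ℕ) :
    Summable (fun n : ℤ => w n * (1 + |(n : ℝ)|) ^ k) := by
  have h1 : Summable (fun n : ℤ => 2 ^ (k - 1) * (|(n : ℝ)| ^ 0 * w n + |(n : ℝ)| ^ k * w n)) :=
    ((hw.summ 0).add (hw.summ k)).mul_left _
  refine Summable.of_nonneg_of_le (fun n => ?_) (fun n => ?_) h1
  · exact mul_nonneg (hw.pos n).le (pow_nonneg (by positivity) _)
  · have h2 := add_pow_le (zero_le_one' ℝ) (abs_nonneg (n : ℝ)) k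
    have h3 := mul_le_mul_of_nonneg_left h2 (hw.pos n).le
    refine h3.trans (le_of_eq ?_)
    rw [one_pow, pow_zero]
    ring

theorem HS1_one_add (s : Finset E) (x : E → ℝ) (hx : ∀ e, 0 ≤ x e) :
    1 + ∑ e ∈ s, x e ≤ ∏ e ∈ s, (1 + x e) := by
  induction s using Finset.induction_on with
  | empty => simp
  | insert a s ha ih =>
    rw [Finset.sum_insert ha, Finset.prod_insert ha]
    have h1 : 1 ≤ ∏ e ∈ s, (1 + x e) := by
      have : 0 ≤ ∑ e ∈ s, x e := Finset.sum_nonneg fun e _ => hx e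
      linarith
    nlinarith [hx a]

theorem WH_pos (G : Gr V E) (F : Finset V) (EF : Finset E) (w : ℤ → ℝ) (hw : WOk w) (h : ↥F → ℤ) :
    0 < WH G F EF w h := by
  unfold WH
  exact Finset.prod_pos fun e _ => hw.pos _

theorem WH_summ (G : Gr V E) (F : Finset V) (EF : Finset E) (hB : Bd G F EF) (w : ℤ → ℝ) (hw : WOk w)
    (g : (V → ℤ) → ℝ) (hg : PBd F g) : Summable (fun h : ↥F → ℤ => WH G F EF w h * g (ex h)) := by
  obtain ⟨C, k, hC⟩ := hg
  have c0 := HS1_C F g C k hC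
  obtain ⟨N, hN⟩ := HS1_bound G F EF hB
  have hs := (HS1_pi_summ (ι := ↥EF) (fun n : ℤ => w n * (1 + |(n : ℝ)|) ^ k)
    (fun n => mul_nonneg (hw.pos n).le (pow_nonneg (by positivity) _))
    (HS1_phi_summ w hw k)).comp_injective (HS1_J_inj G F EF hB)
  refine Summable.of_norm_bounded (hs.mul_left (C * (1 + F.card * N : ℝ) ^ k)) fun h => ?_
  rw [Real.norm_eq_abs, abs_mul, abs_of_pos (WH_pos G F EF w hw h)]
  have h1 : WH G F EF w h = ∏ e : ↥EF, w (HS1_J G F EF h e) := by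
    unfold WH HS1_J
    rw [← Finset.prod_coe_sort EF]
  have h2 : 1 + ∑ v, |(h v : ℝ)| ≤ (1 + F.card * N) * ∏ e : ↥EF, (1 + |(HS1_J G F EF h e : ℝ)|) := by
    have h3 : ∑ v, |(h v : ℝ)| ≤ F.card * (N * ∑ e, |(HS1_J G F EF h e : ℝ)|) := by
      refine (Finset.sum_le_sum fun v _ => hN h v).trans (le_of_eq ?_)
      rw [Finset.sum_const, nsmul_eq_mul, Finset.card_univ, Fintype.card_coe]
    have h4 := HS1_one_add (univ : Finset ↥EF) (fun e => |(HS1_J G F EF h e : ℝ)|)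
      (fun e => abs_nonneg _)
    have h5 : (0 : ℝ) ≤ F.card * N := by positivity
    have h6 : (0 : ℝ) ≤ ∑ e, |(HS1_J G F EF h e : ℝ)| := Finset.sum_nonneg fun e _ => abs_nonneg _
    refine le_trans ?_ (mul_le_mul_of_nonneg_left h4 (by linarith))
    nlinarith
  have h7 : (1 + ∑ v, |(h v : ℝ)|) ^ k ≤
      (1 + F.card * N : ℝ) ^ k * ∏ e : ↥EF, (1 + |(HS1_J G F EF h e : ℝ)|) ^ k := by
    have h8 := pow_le_pow_left₀ (by linarith [HS1_base F h]) h2 k
    rwa [mul_pow, ← Finset.prod_pow] at h8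
  have h9 : |g (ex h)| ≤ C * ((1 + F.card * N : ℝ) ^ k *
      ∏ e : ↥EF, (1 + |(HS1_J G F EF h e : ℝ)|) ^ k) :=
    (hC h).trans (mul_le_mul_of_nonneg_left h7 c0)
  refine (mul_le_mul_of_nonneg_left h9 (WH_pos G F EF w hw h).le).trans (le_of_eq ?_)
  rw [Function.comp_apply, Finset.prod_mul_distrib, ← h1]
  ring

theorem WH_summ1 (G : Gr V E) (F : Finset V) (EF : Finset E) (hB : Bd G F EF) (w : ℤ → ℝ) (hw : WOk w) :
    Summable (fun h : ↥F → ℤ => WH G F EF w h) ∧ 0 < ∑' h : ↥F → ℤ, WH G F EF w h := by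
  have h1 : Summable (fun h : ↥F → ℤ => WH G F EF w h) := by
    have h2 := WH_summ G F EF hB w hw (fun _ => 1) (HS1_PBd_bdd F _ 1 (fun h => by simp))
    simpa using h2
  exact ⟨h1, h1.tsum_pos (fun h => (WH_pos G F EF w hw h).le) 0 (WH_pos G F EF w hw 0)⟩

theorem Eh_one (G : Gr V E) (F : Finset V) (EF : Finset E) (hB : Bd G F EF) (w : ℤ → ℝ) (hw : WOk w) (c : ℝ) :
    Eh G F EF w (fun _ => c) = c := by
  unfold Eh
  rw [tsum_mul_right, mul_div_cancel_left₀ _ (WH_summ1 G F EF hB w hw).2.ne']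

theorem Eh_add (G : Gr V E) (F : Finset V) (EF : Finset E) (hB : Bd G F EF) (w : ℤ → ℝ) (hw : WOk w)
    (g g' : (V → ℤ) → ℝ) (hg : PBd F g) (hg' : PBd F g') :
    Eh G F EF w (fun h => g h + g' h) = Eh G F EF w g + Eh G F EF w g' := by
  unfold Eh
  rw [← add_div, ← (WH_summ G F EF hB w hw g hg).tsum_add (WH_summ G F EF hB w hw g' hg')]
  congr 1
  refine tsum_congr fun h => ?_
  ring

theorem Eh_smul (G : Gr V E) (F : Finset V) (EF : Finset E) (w : ℤ → ℝ) (c : ℝ) (g : (V → ℤ) → ℝ) :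
    Eh G F EF w (fun h => c * g h) = c * Eh G F EF w g := by
  unfold Eh
  rw [← mul_div_assoc, ← tsum_mul_left]
  congr 1
  refine tsum_congr fun h => ?_
  ring

theorem Eh_sum {ι : Type} (G : Gr V E) (F : Finset V) (EF : Finset E) (hB : Bd G F EF) (w : ℤ → ℝ)
    (hw : WOk w) (s : Finset ι) (g : ι → (V → ℤ) → ℝ) (hg : ∀ i ∈ s, PBd F (g i)) :
    Eh G F EF w (fun h => ∑ i ∈ s, g i h) = ∑ i ∈ s, Eh G F EF w (g i) := by
  classical
  have key : ∀ t : Finset ι, t ⊆ s → PBd F (fun h => ∑ i ∈ t, g i h) ∧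
      Eh G F EF w (fun h => ∑ i ∈ t, g i h) = ∑ i ∈ t, Eh G F EF w (g i) := by
    intro t
    induction t using Finset.induction_on with
    | empty =>
      intro _
      refine ⟨HS1_PBd_bdd F _ 0 (fun h => by simp), ?_⟩
      unfold Eh
      simp
    | insert a t ha ih =>
      intro hsub
      obtain ⟨i1, i2⟩ := ih (fun x hx => hsub (mem_insert_of_mem hx))
      have h1 := hg a (hsub (mem_insert_self _ _))
      simp only [Finset.sum_insert ha]
      refine ⟨HS1_PBd_add F _ _ h1 i1, ?_⟩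
      rw [Eh_add G F EF hB w hw (g a) (fun h => ∑ i ∈ t, g i h) h1 i1, i2]
  exact (key s (Finset.Subset.refl _)).2

theorem Eh_mono (G : Gr V E) (F : Finset V) (EF : Finset E) (hB : Bd G F EF) (w : ℤ → ℝ) (hw : WOk w)
    (g g' : (V → ℤ) → ℝ) (hg : PBd F g) (hg' : PBd F g') (h : ∀ h : ↥F → ℤ, g (ex h) ≤ g' (ex h)) :
    Eh G F EF w g ≤ Eh G F EF w g' := by
  unfold Eh
  refine div_le_div_of_nonneg_right ?_ (WH_summ1 G F EF hB w hw).2.le
  refine (WH_summ G F EF hB w hw g hg).tsum_le_tsum (fun x => ?_) (WH_summ G F EF hB w hw g' hg')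
  exact mul_le_mul_of_nonneg_left (h x) (WH_pos G F EF w hw x).le

theorem Eh_congr (G : Gr V E) (F : Finset V) (EF : Finset E) (w : ℤ → ℝ)
    (g g' : (V → ℤ) → ℝ) (h : ∀ h : ↥F → ℤ, g (ex h) = g' (ex h)) :
    Eh G F EF w g = Eh G F EF w g' := by
  unfold Eh
  congr 1
  refine tsum_congr fun x => ?_
  rw [h x]

theorem Eh_neg (G : Gr V E) (F : Finset V) (EF : Finset E) (w : ℤ → ℝ) (hw : WOk w) (g : (V → ℤ) → ℝ) :
    Eh G F EF w (fun h => g (-h)) = Eh G F EF w g := by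
  unfold Eh
  congr 1
  rw [← (Equiv.neg (↥F → ℤ)).tsum_eq]
  refine tsum_congr fun h => ?_
  have h1 : WH G F EF w (-h) = WH G F EF w h := by
    unfold WH
    refine Finset.prod_congr rfl fun e _ => ?_
    rw [HS1_ex_neg, Pi.neg_apply, Pi.neg_apply, ← hw.symm]
    congr 1
    ring
  change WH G F EF w (-h) * g (-ex (-h)) = _
  rw [h1, HS1_ex_neg, neg_neg]

/-- relabelling by a graph isomorphism. -/
theorem Eh_iso (G : Gr V E) (F F' : Finset V) (EF EF' : Finset E) (w : ℤ → ℝ) (hw : WOk w)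
    (gV : V ≃ V) (gE : E ≃ E) (hg : ∀ e, (gV (G.s e) = G.s (gE e) ∧ gV (G.r e) = G.r (gE e)) ∨
      (gV (G.s e) = G.r (gE e) ∧ gV (G.r e) = G.s (gE e)))
    (hF : ∀ v, v ∈ F ↔ gV v ∈ F') (hE : ∀ e, e ∈ EF ↔ gE e ∈ EF') (g : (V → ℤ) → ℝ) :
    Eh G F' EF' w g = Eh G F EF w (fun h => g (fun v => h (gV.symm v))) := by
  let φ : (↥F' → ℤ) ≃ (↥F → ℤ) :=
    { toFun := fun h v => h ⟨gV v.1, (hF v.1).1 v.2⟩
      invFun := fun h v => h ⟨gV.symm v.1, (hF _).2 (by rw [Equiv.apply_symm_apply]; exact v.2)⟩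
      left_inv := fun h => by
        funext v
        simp
      right_inv := fun h => by
        funext v
        simp }
  have h1 : ∀ (h : ↥F' → ℤ) (v : V), ex h (gV v) = ex (φ h) v := by
    intro h v
    unfold ex
    by_cases hv : v ∈ F
    · rw [dif_pos hv, dif_pos ((hF v).1 hv)]
      rfl
    · rw [dif_neg hv, dif_neg (fun hc => hv ((hF v).2 hc))]
  have h2 : ∀ h : ↥F' → ℤ, ex h = fun v => ex (φ h) (gV.symm v) := by
    intro h
    funext v
    rw [← h1, Equiv.apply_symm_apply]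
  have h3 : ∀ h : ↥F' → ℤ, WH G F' EF' w h = WH G F EF w (φ h) := by
    intro h
    unfold WH
    symm
    refine Finset.prod_bij (fun e _ => gE e) (fun e he => (hE e).1 he)
      (fun e _ e' _ hee => gE.injective hee) (fun e' he' => ?_) (fun e _ => ?_)
    · refine ⟨gE.symm e', (hE _).2 (by rw [Equiv.apply_symm_apply]; exact he'), ?_⟩
      rw [Equiv.apply_symm_apply]
    · rcases hg e with h4 | h4
      · rw [← h4.1, ← h4.2, h1, h1]
      · rw [← h4.1, ← h4.2, h1, h1, ← hw.symm]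
        congr 1
        ring
  unfold Eh
  rw [← φ.tsum_eq, ← φ.tsum_eq]
  congr 1
  · refine tsum_congr fun h => ?_
    rw [h3, h2 h]
  · exact tsum_congr fun h => h3 h

/-- Cauchy product bound used for second moments: bounded functions are `PBd`. -/
theorem PBd_bdd (F : Finset V) (g : (V → ℤ) → ℝ) (C : ℝ) (h : ∀ h, |g h| ≤ C) : PBd F g := by
  exact HS1_PBd_bdd F g C h

theorem PBd_h (F : Finset V) (v : V) : PBd F (fun h => (h v : ℝ)) := by
  refine ⟨1, 1, fun h => ?_⟩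
  rw [one_mul, pow_one]
  change |(ex h v : ℝ)| ≤ _
  by_cases hv : v ∈ F
  · have h1 := HS1_ex_mem F h ⟨v, hv⟩
    change ex h v = _ at h1
    rw [h1]
    have h2 := Finset.single_le_sum (f := fun v => |(h v : ℝ)|) (fun v _ => abs_nonneg _)
      (mem_univ (⟨v, hv⟩ : ↥F))
    linarith
  · rw [HS1_ex_not F h v hv, Int.cast_zero, abs_zero]
    linarith [HS1_base F h]

theorem PBd_mul (F : Finset V) (g g' : (V → ℤ) → ℝ) (h : PBd F g) (h' : PBd F g') :
    PBd F (fun h => g h * g' h) := by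
  obtain ⟨C, k, hC⟩ := h
  obtain ⟨C', k', hC'⟩ := h'
  refine ⟨C * C', k + k', fun x => ?_⟩
  rw [abs_mul]
  refine (mul_le_mul (hC x) (hC' x) (abs_nonneg _) ((abs_nonneg _).trans (hC x))).trans
    (le_of_eq ?_)
  rw [pow_add]
  ring

theorem PBd_add (F : Finset V) (g g' : (V → ℤ) → ℝ) (h : PBd F g) (h' : PBd F g') :
    PBd F (fun h => g h + g' h) := by
  exact HS1_PBd_add F g g' h h'

theorem PBd_smul (F : Finset V) (c : ℝ) (g : (V → ℤ) → ℝ) (h : PBd F g) : PBd F (fun h => c * g h) := by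
  obtain ⟨C, k, hC⟩ := h
  refine ⟨|c| * C, k, fun x => ?_⟩
  rw [abs_mul, mul_assoc]
  exact mul_le_mul_of_nonneg_left (hC x) (abs_nonneg _)

end H82.BX
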