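import Pool.Agent.H82.BX.GCM

/-!
# SSN: sine correlations are dominated by cosine correlations

For signs `σ, τ : V → Bool` let `R_{σ,τ}` act on `V → Cir` by `θ_v ↦` the angle with cosine `sg(σ_v) cos θ_v` and sine `sg(τ_v) sin θ_v` (`θ`, `-θ`, `π - θ`, `π + θ`): it preserves Haar measure.  Average over `σ, τ`:
for fixed `θ` and `c_v = cos θ_v`, `s_v = sin θ_v` the average of `F e^{hG}` is a product of an Ising sum in `σ` with couplings `J c c'` and one in `τ` with couplings `J s s'`; replacing `σ_v` by `σ_v sgn(c_v)` the couplings are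
`J |c c'| ≥ 0`.  Griffiths: `∑_σ σ_A e^{...} ≥ 0`, `|∑_σ σ_A e^{..}| ≤ ∑_σ e^{..}`.
For each of the four terms of `sin(p-p') sin(q-q') = (s_p c_{p'} - c_p s_{p'})(s_q c_{q'} - c_q s_{q'})`, e.g. `s_p s_q c_{p'} c_{q'}`:
`∑_σ |c c| σ_{p'} σ_{q'} e · ∑_τ |s s| τ_p τ_q e ≤ ∑_σ |c_{p'} c_{q'}| σ σ e · ∑_τ e` = the same average for `cos θ_{p'} cos θ_{q'}`.
So `|⟨sin(θ_p - θ_{p'}) sin(θ_q - θ_{q'})⟩| ≤` the sum of the four cosine correlations.
-/

set_option autoImplicit false

open Finset MeasureTheory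

namespace H82.BX

open H82.IC XYB

variable {V E : Type} [Fintype V] [DecidableEq V] [Fintype E] [DecidableEq E]

/-! ### Griffiths -/

/-- `f` has nonnegative moments against all monomials in the `z v = sg (σ v) * y v`. -/
def SSN_Good (y : V → ℝ) (f : (V → Bool) → ℝ) : Prop :=
  ∀ m : V → ℕ, 0 ≤ ∑ σ : V → Bool, f σ * ∏ v, (sg (σ v) * y v) ^ (m v)

theorem SSN_good_one (y : V → ℝ) : SSN_Good y (fun _ => 1) := by
  intro m
  have h1 : ∑ σ : V → Bool, (1 : ℝ) * ∏ v, (sg (σ v) * y v) ^ (m v) =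
      ∏ v, ∑ b : Bool, (sg b * y v) ^ (m v) := by
    rw [Finset.prod_univ_sum, Fintype.piFinset_univ]
    exact Finset.sum_congr rfl fun σ _ => one_mul _
  rw [h1]
  refine Finset.prod_nonneg fun v _ => ?_
  rw [Fintype.sum_bool]
  unfold sg
  simp only [if_true, Bool.false_eq_true, if_false, one_mul, neg_mul]
  rcases Nat.even_or_odd (m v) with he | ho
  · rw [he.neg_pow]
    have := he.pow_nonneg (y v)
    linarith
  · rw [ho.neg_pow]
    simp

theorem SSN_mono_mul (y : V → ℝ) (σ : V → Bool) (m : V → ℕ) (a b : V) :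
    ((sg (σ a) * y a) * (sg (σ b) * y b)) * ∏ v, (sg (σ v) * y v) ^ (m v) =
      ∏ v, (sg (σ v) * y v) ^ (m v + (if v = a then 1 else 0) + (if v = b then 1 else 0)) := by
  have h1 : ∀ c : V, ∏ v, (sg (σ v) * y v) ^ (if v = c then 1 else 0) = sg (σ c) * y c := by
    intro c
    rw [Finset.prod_eq_single c]
    · simp
    · intro b _ hb
      simp [hb]
    · intro hc
      exact absurd (mem_univ _) hc
  simp only [pow_add]
  rw [Finset.prod_mul_distrib, Finset.prod_mul_distrib, h1 a, h1 b]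
  ring

theorem SSN_good_step (y : V → ℝ) (f : (V → Bool) → ℝ) (hf : SSN_Good y f) (p κ : ℝ) (hp : 0 ≤ p)
    (hκ : 0 ≤ κ) (a b : V) :
    SSN_Good y (fun σ => (p + κ * ((sg (σ a) * y a) * (sg (σ b) * y b))) * f σ) := by
  intro m
  have h1 : ∑ σ : V → Bool, (p + κ * ((sg (σ a) * y a) * (sg (σ b) * y b))) * f σ *
      ∏ v, (sg (σ v) * y v) ^ (m v) =
      p * (∑ σ : V → Bool, f σ * ∏ v, (sg (σ v) * y v) ^ (m v)) +
      κ * ∑ σ : V → Bool, f σ * ∏ v, (sg (σ v) * y v) ^
        (m v + (if v = a then 1 else 0) + (if v = b then 1 else 0)) := by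
    rw [Finset.mul_sum, Finset.mul_sum, ← Finset.sum_add_distrib]
    refine Finset.sum_congr rfl fun σ _ => ?_
    rw [← SSN_mono_mul]
    ring
  rw [h1]
  exact add_nonneg (mul_nonneg hp (hf m)) (mul_nonneg hκ (hf _))

theorem SSN_exp (J x : ℝ) (hJ : 0 ≤ J) : ∃ p κ : ℝ, 0 ≤ p ∧ 0 ≤ κ ∧
    ∀ s : ℝ, (s = 1 ∨ s = -1) → Real.exp (J * (s * x)) = p + κ * (s * x) := by
  by_cases hx : x = 0
  · refine ⟨1, 0, zero_le_one, le_rfl, fun s _ => ?_⟩
    rw [hx]; simp
  · refine ⟨Real.cosh (J * x), Real.sinh (J * x) / x, (Real.cosh_pos _).le, ?_, fun s hs => ?_⟩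
    · rcases lt_or_gt_of_ne hx with h | h
      · exact div_nonneg_of_nonpos (Real.sinh_nonpos_iff.2 (mul_nonpos_of_nonneg_of_nonpos hJ h.le)) h.le
      · exact div_nonneg (Real.sinh_nonneg_iff.2 (mul_nonneg hJ h.le)) h.le
    · rcases hs with h | h
      · rw [h, one_mul, div_mul_cancel₀ _ hx, Real.cosh_add_sinh]
      · have h1 : Real.sinh (J * x) / x * (-1 * x) = -Real.sinh (J * x) := by
          field_simp
        rw [h, h1, ← sub_eq_add_neg, Real.cosh_sub_sinh]
        congr 1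
        ring

theorem SSN_sgsg (a b : Bool) : sg a * sg b = 1 ∨ sg a * sg b = -1 := by
  cases a <;> cases b <;> simp [sg]

theorem SSN_good_exp (G : Gr V E) (J : E → ℝ) (hJ : ∀ e, 0 ≤ J e) (y : V → ℝ) :
    SSN_Good y (fun σ => Real.exp (∑ e, J e * ((sg (σ (G.r e)) * y (G.r e)) *
      (sg (σ (G.s e)) * y (G.s e))))) := by
  have key : ∀ S : Finset E, SSN_Good y (fun σ => Real.exp (∑ e ∈ S, J e *
      ((sg (σ (G.r e)) * y (G.r e)) * (sg (σ (G.s e)) * y (G.s e))))) := by
    intro S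
    induction S using Finset.induction_on with
    | empty =>
      simp only [Finset.sum_empty, Real.exp_zero]
      exact SSN_good_one y
    | insert e S he ih =>
      obtain ⟨p, κ, hp, hκ, h⟩ := SSN_exp (J e) (y (G.r e) * y (G.s e)) (hJ e)
      have h1 := SSN_good_step y _ ih p κ hp hκ (G.r e) (G.s e)
      have h2 : (fun σ : V → Bool => Real.exp (∑ e ∈ insert e S, J e *
          ((sg (σ (G.r e)) * y (G.r e)) * (sg (σ (G.s e)) * y (G.s e))))) =
          fun σ => (p + κ * ((sg (σ (G.r e)) * y (G.r e)) * (sg (σ (G.s e)) * y (G.s e)))) *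
            Real.exp (∑ e ∈ S, J e *
              ((sg (σ (G.r e)) * y (G.r e)) * (sg (σ (G.s e)) * y (G.s e)))) := by
        funext σ
        rw [Finset.sum_insert he, Real.exp_add]
        congr 1
        have h3 := h _ (SSN_sgsg (σ (G.r e)) (σ (G.s e)))
        have h4 : (sg (σ (G.r e)) * y (G.r e)) * (sg (σ (G.s e)) * y (G.s e)) =
            sg (σ (G.r e)) * sg (σ (G.s e)) * (y (G.r e) * y (G.s e)) := by ring
        rw [h4, h3]
      rw [h2]
      exact h1
  exact key univ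

/-- Griffiths. -/
theorem SSN_griff (G : Gr V E) (J : E → ℝ) (hJ : ∀ e, 0 ≤ J e) (y : V → ℝ) (b c : V) :
    0 ≤ ∑ σ : V → Bool, ((sg (σ b) * y b) * (sg (σ c) * y c)) *
      Real.exp (∑ e, J e * ((sg (σ (G.r e)) * y (G.r e)) * (sg (σ (G.s e)) * y (G.s e)))) := by
  have h1 := SSN_good_exp G J hJ y
    (fun v => 0 + (if v = b then 1 else 0) + (if v = c then 1 else 0))
  refine le_trans h1 (le_of_eq (Finset.sum_congr rfl fun σ _ => ?_))
  have h2 := SSN_mono_mul y σ (fun _ => 0) b c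
  simp only [pow_zero, Finset.prod_const_one, mul_one] at h2
  rw [h2]
  ring

theorem SSN_sg_abs (a : Bool) : |sg a| = 1 := by
  cases a <;> simp [sg]

theorem SSN_bd (G : Gr V E) (J : E → ℝ) (y : V → ℝ) (hy : ∀ v, |y v| ≤ 1) (a d : V) :
    |∑ σ : V → Bool, ((sg (σ a) * y a) * (sg (σ d) * y d)) *
      Real.exp (∑ e, J e * ((sg (σ (G.r e)) * y (G.r e)) * (sg (σ (G.s e)) * y (G.s e))))| ≤
    ∑ σ : V → Bool,
      Real.exp (∑ e, J e * ((sg (σ (G.r e)) * y (G.r e)) * (sg (σ (G.s e)) * y (G.s e)))) := by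
  refine (Finset.abs_sum_le_sum_abs _ _).trans (Finset.sum_le_sum fun σ _ => ?_)
  rw [abs_mul, abs_of_pos (Real.exp_pos _), abs_mul, abs_mul, abs_mul, SSN_sg_abs, SSN_sg_abs,
    one_mul, one_mul]
  have h1 : |y a| * |y d| ≤ 1 := mul_le_one₀ (hy a) (abs_nonneg _) (hy d)
  calc |y a| * |y d| * _ ≤ 1 * _ := mul_le_mul_of_nonneg_right h1 (Real.exp_pos _).le
    _ = _ := one_mul _

/-! ### the sign changes -/

/-- the angle with cosine `sg σ cos θ` and sine `sg τ sin θ`. -/
noncomputable def SSN_R (σ τ : V → Bool) (θ : V → Cir) : V → Cir := fun v =>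
  (if σ v = τ v then θ v else -θ v) + (if σ v then 0 else ((Real.pi : ℝ) : Cir))

noncomputable def SSN_phi (σ τ : V → Bool) : (V → Cir) →+ (V → Cir) where
  toFun θ v := if σ v = τ v then θ v else -θ v
  map_zero' := by funext v; simp
  map_add' θ θ' := by
    funext v
    simp only [Pi.add_apply]
    split_ifs
    · rfl
    · rw [neg_add]

theorem SSN_phi_cont (σ τ : V → Bool) : Continuous (SSN_phi σ τ) := by
  refine continuous_pi fun v => ?_
  change Continuous (fun θ : V → Cir => if σ v = τ v then θ v else -θ v)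
  split_ifs
  · exact continuous_apply v
  · exact (continuous_apply v).neg

theorem SSN_phi_surj (σ τ : V → Bool) : Function.Surjective (SSN_phi σ τ) := by
  intro θ
  refine ⟨SSN_phi σ τ θ, ?_⟩
  funext v
  change (if σ v = τ v then (if σ v = τ v then θ v else -θ v)
    else -(if σ v = τ v then θ v else -θ v)) = θ v
  split_ifs
  · rfl
  · rw [neg_neg]

theorem SSN_R_cont (σ τ : V → Bool) : Continuous (SSN_R (V := V) σ τ) := by
  refine continuous_pi fun v => ?_
  change Continuous (fun θ : V → Cir => (if σ v = τ v then θ v else -θ v) +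
    (if σ v then 0 else ((Real.pi : ℝ) : Cir)))
  refine Continuous.add ?_ continuous_const
  split_ifs
  · exact continuous_apply v
  · exact (continuous_apply v).neg

theorem SSN_inv (σ τ : V → Bool) (f : (V → Cir) → ℝ) (hf : Continuous f) :
    ∫ θ, f (SSN_R σ τ θ) ∂haarP (V → Cir) = ∫ θ, f θ ∂haarP (V → Cir) := by
  have h1 := integral_comp_surj (SSN_phi σ τ) (SSN_phi_cont σ τ) (SSN_phi_surj σ τ)
    (fun x => f (x + fun v => (if σ v then 0 else ((Real.pi : ℝ) : Cir))))
    (hf.comp (continuous_id.add continuous_const))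
  rw [integral_add_const] at h1
  exact h1

theorem SSN_cos_add_pi (t : Cir) : cosC (t + ((Real.pi : ℝ) : Cir)) = -cosC t := by
  rw [cosC_add, cosC_coe, sinC_coe, Real.cos_pi, Real.sin_pi]; ring

theorem SSN_sin_add_pi (t : Cir) : sinC (t + ((Real.pi : ℝ) : Cir)) = -sinC t := by
  rw [sinC_add, cosC_coe, sinC_coe, Real.cos_pi, Real.sin_pi]; ring

theorem SSN_cosR (σ τ : V → Bool) (θ : V → Cir) (v : V) :
    cosC (SSN_R σ τ θ v) = sg (σ v) * cosC (θ v) := by
  unfold SSN_R sg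
  cases σ v <;> cases τ v <;> simp [SSN_cos_add_pi]

theorem SSN_sinR (σ τ : V → Bool) (θ : V → Cir) (v : V) :
    sinC (SSN_R σ τ θ v) = sg (τ v) * sinC (θ v) := by
  unfold SSN_R sg
  cases σ v <;> cases τ v <;> simp [SSN_sin_add_pi]

theorem SSN_hG_cont (G : Gr V E) (J : E → ℝ) : Continuous (hG G J) := by
  unfold hG
  refine continuous_finsetSum _ fun e _ => continuous_const.mul ?_
  exact continuous_cosC.comp ((continuous_apply _).sub (continuous_apply _))

theorem SSN_hGR (G : Gr V E) (J : E → ℝ) (σ τ : V → Bool) (θ : V → Cir) :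
    Real.exp (hG G J (SSN_R σ τ θ)) =
      Real.exp (∑ e, J e * ((sg (σ (G.r e)) * cosC (θ (G.r e))) * (sg (σ (G.s e)) * cosC (θ (G.s e))))) *
      Real.exp (∑ e, J e * ((sg (τ (G.r e)) * sinC (θ (G.r e))) * (sg (τ (G.s e)) * sinC (θ (G.s e))))) := by
  rw [← Real.exp_add, ← Finset.sum_add_distrib]
  congr 1
  unfold hG
  refine Finset.sum_congr rfl fun e _ => ?_
  rw [cosC_sub, SSN_cosR, SSN_cosR, SSN_sinR, SSN_sinR]
  ring

theorem SSN_core (G : Gr V E) (J : E → ℝ) (hJ : ∀ e, 0 ≤ J e) (a b c d : V) :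
    |gE (hG G J) (fun θ => (sinC (θ a) * sinC (θ d)) * (cosC (θ b) * cosC (θ c)))| ≤
      gE (hG G J) (fun θ => cosC (θ b) * cosC (θ c)) := by
  unfold gE
  have hZ := integral_exp_pos (X := V → Cir) (hG G J) (SSN_hG_cont G J)
  rw [abs_div, abs_of_pos hZ]
  refine div_le_div_of_nonneg_right ?_ hZ.le
  have hc : ∀ v : V, Continuous (fun θ : V → Cir => cosC (θ v)) := fun v =>
    continuous_cosC.comp (continuous_apply v)
  have hs : ∀ v : V, Continuous (fun θ : V → Cir => sinC (θ v)) := fun v =>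
    continuous_sinC.comp (continuous_apply v)
  have hexp : Continuous (fun θ : V → Cir => Real.exp (hG G J θ)) :=
    Real.continuous_exp.comp (SSN_hG_cont G J)
  set F : (V → Cir) → ℝ := fun θ =>
    ((sinC (θ a) * sinC (θ d)) * (cosC (θ b) * cosC (θ c))) * Real.exp (hG G J θ) with hF
  set C : (V → Cir) → ℝ := fun θ => (cosC (θ b) * cosC (θ c)) * Real.exp (hG G J θ) with hC
  have cF : Continuous F := (((hs a).mul (hs d)).mul ((hc b).mul (hc c))).mul hexp
  have cC : Continuous C := ((hc b).mul (hc c)).mul hexp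
  have hN : (0 : ℝ) < Fintype.card (V → Bool) * Fintype.card (V → Bool) := by
    have : 0 < Fintype.card (V → Bool) := Fintype.card_pos
    positivity
  have havg : ∀ f : (V → Cir) → ℝ, Continuous f →
      (Fintype.card (V → Bool) * Fintype.card (V → Bool) : ℝ) * ∫ θ, f θ ∂haarP (V → Cir) =
      ∫ θ, ∑ σ : V → Bool, ∑ τ : V → Bool, f (SSN_R σ τ θ) ∂haarP (V → Cir) := by
    intro f hf
    have hint : ∀ σ τ : V → Bool, Integrable (fun θ => f (SSN_R σ τ θ)) (haarP (V → Cir)) :=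
      fun σ τ => integrable_cont _ (hf.comp (SSN_R_cont σ τ))
    rw [integral_finsetSum _ (fun σ _ => integrable_finsetSum _ fun τ _ => hint σ τ)]
    have h1 : ∀ σ : V → Bool, ∫ θ, ∑ τ : V → Bool, f (SSN_R σ τ θ) ∂haarP (V → Cir) =
        Fintype.card (V → Bool) * ∫ θ, f θ ∂haarP (V → Cir) := by
      intro σ
      rw [integral_finsetSum _ (fun τ _ => hint σ τ)]
      rw [Finset.sum_congr rfl fun τ _ => SSN_inv σ τ f hf, Finset.sum_const, nsmul_eq_mul,
        Finset.card_univ]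
    rw [Finset.sum_congr rfl fun σ _ => h1 σ, Finset.sum_const, nsmul_eq_mul, Finset.card_univ]
    ring
  have hpt : ∀ θ : V → Cir, |∑ σ : V → Bool, ∑ τ : V → Bool, F (SSN_R σ τ θ)| ≤
      ∑ σ : V → Bool, ∑ τ : V → Bool, C (SSN_R σ τ θ) := by
    intro θ
    set A := ∑ σ : V → Bool, ((sg (σ b) * cosC (θ b)) * (sg (σ c) * cosC (θ c))) *
      Real.exp (∑ e, J e * ((sg (σ (G.r e)) * cosC (θ (G.r e))) * (sg (σ (G.s e)) * cosC (θ (G.s e)))))
      with hA
    set B := ∑ τ : V → Bool, ((sg (τ a) * sinC (θ a)) * (sg (τ d) * sinC (θ d))) *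
      Real.exp (∑ e, J e * ((sg (τ (G.r e)) * sinC (θ (G.r e))) * (sg (τ (G.s e)) * sinC (θ (G.s e)))))
      with hB
    set B0 := ∑ τ : V → Bool,
      Real.exp (∑ e, J e * ((sg (τ (G.r e)) * sinC (θ (G.r e))) * (sg (τ (G.s e)) * sinC (θ (G.s e)))))
      with hB0
    have e1 : ∑ σ : V → Bool, ∑ τ : V → Bool, F (SSN_R σ τ θ) = A * B := by
      rw [hA, hB, Finset.sum_mul_sum]
      refine Finset.sum_congr rfl fun σ _ => Finset.sum_congr rfl fun τ _ => ?_
      rw [hF]
      simp only [SSN_hGR, SSN_cosR, SSN_sinR]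
      ring
    have e2 : ∑ σ : V → Bool, ∑ τ : V → Bool, C (SSN_R σ τ θ) = A * B0 := by
      rw [hA, hB0, Finset.sum_mul_sum]
      refine Finset.sum_congr rfl fun σ _ => Finset.sum_congr rfl fun τ _ => ?_
      rw [hC]
      simp only [SSN_hGR, SSN_cosR]
      ring
    have hA0 : 0 ≤ A := SSN_griff G J hJ (fun v => cosC (θ v)) b c
    have hBB : |B| ≤ B0 := SSN_bd G J (fun v => sinC (θ v)) (fun v => abs_sinC_le_one _) a d
    rw [e1, e2, abs_mul, abs_of_nonneg hA0]
    exact mul_le_mul_of_nonneg_left hBB hA0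
  have cFs : Continuous (fun θ : V → Cir => ∑ σ : V → Bool, ∑ τ : V → Bool, F (SSN_R σ τ θ)) :=
    continuous_finsetSum _ fun σ _ => continuous_finsetSum _ fun τ _ => cF.comp (SSN_R_cont σ τ)
  have cCs : Continuous (fun θ : V → Cir => ∑ σ : V → Bool, ∑ τ : V → Bool, C (SSN_R σ τ θ)) :=
    continuous_finsetSum _ fun σ _ => continuous_finsetSum _ fun τ _ => cC.comp (SSN_R_cont σ τ)
  have h2 : |(Fintype.card (V → Bool) * Fintype.card (V → Bool) : ℝ) *
      ∫ θ, F θ ∂haarP (V → Cir)| ≤ (Fintype.card (V → Bool) * Fintype.card (V → Bool) : ℝ) *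
      ∫ θ, C θ ∂haarP (V → Cir) := by
    rw [havg F cF, havg C cC]
    refine (abs_integral_le_integral_abs).trans ?_
    exact integral_mono (integrable_cont _ cFs).abs (integrable_cont _ cCs) hpt
  rw [abs_mul, abs_of_pos hN] at h2
  exact le_of_mul_le_mul_left h2 hN

theorem ssn (G : Gr V E) (J : E → ℝ) (hJ : ∀ e, 0 ≤ J e) (p p' q q' : V) :
    |gE (hG G J) (fun θ => sinC (θ p - θ p') * sinC (θ q - θ q'))| ≤
      gE (hG G J) (fun θ => cosC (θ p) * cosC (θ q)) + gE (hG G J) (fun θ => cosC (θ p) * cosC (θ q')) +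
      gE (hG G J) (fun θ => cosC (θ p') * cosC (θ q)) + gE (hG G J) (fun θ => cosC (θ p') * cosC (θ q')) := by
  have hc : ∀ v : V, Continuous (fun θ : V → Cir => cosC (θ v)) := fun v =>
    continuous_cosC.comp (continuous_apply v)
  have hs : ∀ v : V, Continuous (fun θ : V → Cir => sinC (θ v)) := fun v =>
    continuous_sinC.comp (continuous_apply v)
  have hexp : Continuous (fun θ : V → Cir => Real.exp (hG G J θ)) :=
    Real.continuous_exp.comp (SSN_hG_cont G J)
  have hi : ∀ a b c d : V, Integrable (fun θ : V → Cir =>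
      ((sinC (θ a) * sinC (θ d)) * (cosC (θ b) * cosC (θ c))) * Real.exp (hG G J θ))
      (haarP (V → Cir)) := fun a b c d =>
    integrable_cont _ ((((hs a).mul (hs d)).mul ((hc b).mul (hc c))).mul hexp)
  have key : gE (hG G J) (fun θ => sinC (θ p - θ p') * sinC (θ q - θ q')) =
      gE (hG G J) (fun θ => (sinC (θ p) * sinC (θ q)) * (cosC (θ p') * cosC (θ q'))) -
      gE (hG G J) (fun θ => (sinC (θ p) * sinC (θ q')) * (cosC (θ p') * cosC (θ q))) -
      gE (hG G J) (fun θ => (sinC (θ p') * sinC (θ q)) * (cosC (θ p) * cosC (θ q'))) +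
      gE (hG G J) (fun θ => (sinC (θ p') * sinC (θ q')) * (cosC (θ p) * cosC (θ q))) := by
    unfold gE
    rw [← sub_div, ← sub_div, ← add_div]
    congr 1
    have h1 := hi p p' q' q
    have h2 := hi p p' q q'
    have h3 := hi p' p q' q
    have h4 := hi p' p q q'
    have e12 := integral_sub h1 h2
    have e123 := integral_sub (h1.sub h2) h3
    have e1234 := integral_add ((h1.sub h2).sub h3) h4
    simp only [Pi.sub_apply] at e123 e1234
    have e0 : ∫ θ, (sinC (θ p - θ p') * sinC (θ q - θ q')) * Real.exp (hG G J θ) ∂haarP (V → Cir) =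
        ∫ θ, ((sinC (θ p) * sinC (θ q)) * (cosC (θ p') * cosC (θ q'))) * Real.exp (hG G J θ) -
          ((sinC (θ p) * sinC (θ q')) * (cosC (θ p') * cosC (θ q))) * Real.exp (hG G J θ) -
          ((sinC (θ p') * sinC (θ q)) * (cosC (θ p) * cosC (θ q'))) * Real.exp (hG G J θ) +
          ((sinC (θ p') * sinC (θ q')) * (cosC (θ p) * cosC (θ q))) * Real.exp (hG G J θ)
          ∂haarP (V → Cir) := by
      refine integral_congr_ae (Filter.Eventually.of_forall fun θ => ?_)
      simp only [sinC_sub]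
      ring
    rw [e0, e1234, e123, e12]
  have k1 := SSN_core G J hJ p p' q' q
  have k2 := SSN_core G J hJ p p' q q'
  have k3 := SSN_core G J hJ p' p q' q
  have k4 := SSN_core G J hJ p' p q q'
  rw [key]
  rw [abs_le] at k1 k2 k3 k4 ⊢
  constructor <;> linarith [k1.1, k1.2, k2.1, k2.2, k3.1, k3.2, k4.1, k4.2]

end H82.BX
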