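import Pool.Agent.H82.BX.DU2
import Pool.Agent.H82.BX.SSN
import Pool.Agent.H82.BX.HS1

/-!
# MOM: second moments of the heights under exponential decay

Hypothesis `hED`: the box correlations are `≤ C exp(-a nm (bp p - bp q))` for all `n, p, q` (`C ≥ 0`: take `p = q`).
`du_two`, `ssn` with `p, p'` the ends of the link `(e,0)` (base points `e.1`, both: `bp (inl (TT.s e)) = e.1`, `bp (inr (e,0)) = e.1`): for `e ≠ e'`
`|En (dh e dh e')| ≤ 4 κ² C exp(-a nm (e.1 - e'.1))`.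
For `i`, `j` in `FN n` with `i.1 0 < j.1 0`, or `i = j`: `h i` by `left_path`, `h j` by `right_path` (heights are `0` outside): the edges `(x, i.1 1; k)` with `x ≤ i.1 0` and `(x', j.1 1; k')` with `x' ≥ j.1 0` are different
(if `i.1 0 < j.1 0` by `x < x'`; for `i = j`: `left_path` uses `(a;1)` and, for lower triangles, `(a;2)`; `right_path` uses `(a;2)` only for upper triangles, and `x' > a`).  Edges of the row not in `EN n` contribute `0`.
`|En (h_i h_j)| ≤ 4 κ² C ∑_{x ≤ i0} ∑_{x' ≥ j0} 4 exp(-a (x' - x)) ≤ C' exp(-a (j0 - i0))`, `C' = 16 κ² C/(1-e^{-a})²`.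
-/

set_option autoImplicit false

open Finset MeasureTheory

namespace H82.BX

open H82.IC XYB

/-- edge types 1 and 2. -/
private def mty : Fin 2 → Fin 3 := ![1, 2]

private theorem mty_inj {k k' : Fin 2} (h : mty k = mty k') : k = k' := by
  revert h; revert k k'; decide

/-- coefficients of the path to the left. -/
private noncomputable def mcL (i : Vx 2 × Bool) (x : ℤ) (k : Fin 2) : ℝ :=
  if x ≤ i.1 0 then (if k = 1 ∧ i.2 = true ∧ x = i.1 0 then 0 else -1) else 0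

/-- coefficients of the path to the right. -/
private noncomputable def mcR (j : Vx 2 × Bool) (x : ℤ) (k : Fin 2) : ℝ :=
  if j.1 0 < x then 1 else if k = 1 ∧ j.2 = true ∧ x = j.1 0 then 1 else 0

private theorem left_sum (n : ℕ) (h : Vx 2 × Bool → ℤ) (h0 : ∀ v, v ∉ FN n → h v = 0)
    (i : Vx 2 × Bool) (hi : i ∈ FN n) :
    (h i : ℝ) = ∑ x ∈ Icc (-(n : ℤ)) n, ∑ k : Fin 2, mcL i x k * (dh h (![x, i.1 1], mty k) : ℝ) := by
  have hin := (mem_FN n i).1 hi 0
  rw [left_path n h h0 i hi]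
  push_cast
  rw [← Finset.sum_neg_distrib]
  have hsub : Icc (-(n : ℤ)) (i.1 0) ⊆ Icc (-(n : ℤ)) n := by
    intro x hx
    rw [Finset.mem_Icc] at hx ⊢
    omega
  rw [← Finset.sum_subset hsub (f := fun x => ∑ k : Fin 2, mcL i x k * (dh h (![x, i.1 1], mty k) : ℝ))]
  · refine Finset.sum_congr rfl fun x hx => ?_
    rw [Finset.mem_Icc] at hx
    rw [Fin.sum_univ_two]
    simp only [mcL, hx.2, if_true, mty]
    by_cases hc : i.2 = true ∧ x = i.1 0
    · simp [hc]
    · rw [if_neg hc]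
      simp only [hc, and_false, if_false]
      simp
      ring
  · intro x hx hx'
    rw [Finset.mem_Icc] at hx hx'
    have : ¬ x ≤ i.1 0 := by omega
    simp [mcL, this]

private theorem right_sum (n : ℕ) (h : Vx 2 × Bool → ℤ) (h0 : ∀ v, v ∉ FN n → h v = 0)
    (j : Vx 2 × Bool) (hj : j ∈ FN n) :
    (h j : ℝ) = ∑ x ∈ Icc (-(n : ℤ)) n, ∑ k : Fin 2, mcR j x k * (dh h (![x, j.1 1], mty k) : ℝ) := by
  have hin := (mem_FN n j).1 hj 0
  rw [right_path n h h0 j hj]
  push_cast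
  have hsplit : Icc (-(n : ℤ)) n = Ico (-(n : ℤ)) (j.1 0) ∪ ({j.1 0} ∪ Ioc (j.1 0) n) := by
    ext x
    simp only [Finset.mem_Icc, Finset.mem_union, Finset.mem_Ico, Finset.mem_singleton, Finset.mem_Ioc]
    omega
  have hd1 : Disjoint (Ico (-(n : ℤ)) (j.1 0)) ({j.1 0} ∪ Ioc (j.1 0) (n : ℤ)) := by
    rw [Finset.disjoint_left]
    intro x
    simp only [Finset.mem_union, Finset.mem_Ico, Finset.mem_singleton, Finset.mem_Ioc]
    omega
  have hd2 : Disjoint ({j.1 0} : Finset ℤ) (Ioc (j.1 0) (n : ℤ)) := by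
    rw [Finset.disjoint_left]
    intro x
    simp only [Finset.mem_singleton, Finset.mem_Ioc]
    omega
  rw [hsplit, Finset.sum_union hd1, Finset.sum_union hd2, Finset.sum_singleton]
  have hv : j.1 = ![j.1 0, j.1 1] := by
    funext t; fin_cases t <;> rfl
  have h1 : ∑ x ∈ Ico (-(n : ℤ)) (j.1 0), ∑ k : Fin 2, mcR j x k * (dh h (![x, j.1 1], mty k) : ℝ) = 0 := by
    refine Finset.sum_eq_zero fun x hx => Finset.sum_eq_zero fun k _ => ?_
    rw [Finset.mem_Ico] at hx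
    have e1 : ¬ (j.1 0 < x) := by omega
    have e2 : ¬ (k = 1 ∧ j.2 = true ∧ x = j.1 0) := by
      rintro ⟨-, -, h⟩; omega
    simp [mcR, e1, e2]
  have h2 : ∑ x ∈ Ioc (j.1 0) (n : ℤ), ∑ k : Fin 2, mcR j x k * (dh h (![x, j.1 1], mty k) : ℝ) =
      ∑ x ∈ Ioc (j.1 0) (n : ℤ), ((dh h (![x, j.1 1], 1) : ℝ) + (dh h (![x, j.1 1], 2) : ℝ)) := by
    refine Finset.sum_congr rfl fun x hx => ?_
    rw [Finset.mem_Ioc] at hx
    rw [Fin.sum_univ_two]
    simp [mcR, hx.1, mty]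
  have h3 : ∑ k : Fin 2, mcR j (j.1 0) k * (dh h (![j.1 0, j.1 1], mty k) : ℝ) =
      if j.2 = true then (dh h (j.1, 2) : ℝ) else 0 := by
    rw [Fin.sum_univ_two, ← hv]
    by_cases hc : j.2 = true
    · simp [mcR, hc, mty]
    · simp [mcR, hc]
  rw [h1, h2, h3]
  by_cases hc : j.2 = true
  · simp only [hc, if_true]; ring
  · simp only [hc]; ring

private theorem abs_mcL (i : Vx 2 × Bool) (x : ℤ) (k : Fin 2) :
    |mcL i x k| ≤ if x ≤ i.1 0 then 1 else 0 := by
  unfold mcL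
  split_ifs <;> simp

private theorem abs_mcR (j : Vx 2 × Bool) (x : ℤ) (k : Fin 2) :
    |mcR j x k| ≤ if j.1 0 ≤ x then 1 else 0 := by
  unfold mcR
  split_ifs with h1 h2 h3 h4 h5 <;> first | (exfalso; omega) | simp

private theorem PBd_dh (F : Finset (Vx 2 × Bool)) (e : Vx 2 × Fin 3) :
    PBd F (fun h => (dh h e : ℝ)) := by
  have : (fun h : Vx 2 × Bool → ℤ => (dh h e : ℝ)) =
      fun h => (h (HH.gr.s e) : ℝ) + (-1) * (h (HH.gr.r e) : ℝ) := by
    funext h; unfold dh; push_cast; ring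
  rw [this]
  exact PBd_add F _ _ (PBd_h F _) (PBd_smul F (-1) _ (PBd_h F _))

private theorem gE_cc_le (n : ℕ) (κ C a : ℝ)
    (hED : ∀ (n : ℕ) (p q : ↥(bx 2 n) ⊕ (↥(EN n) × Fin 5)),
      gE (hG (C6 (TB n)) (fun _ => κ)) (fun θ => cosC (θ p) * cosC (θ q)) ≤
        C * Real.exp (-a * nm (bp p - bp q))) (p q : ↥(bx 2 n) ⊕ (↥(EN n) × Fin 5))
    (u v : Vx 2) (hp : bp p = u) (hq : bp q = v) :
    gE (hG (C6 (TB n)) (fun _ => κ)) (fun θ => cosC (θ p) * cosC (θ q)) ≤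
        (max C 0) * Real.exp (-a * nm (u - v)) := by
  refine (hED n p q).trans ?_
  rw [hp, hq]
  exact mul_le_mul_of_nonneg_right (le_max_left _ _) (Real.exp_pos _).le

private theorem c2_bound (κ C a : ℝ) (hκ : 0 < κ) 
    (hED : ∀ (n : ℕ) (p q : ↥(bx 2 n) ⊕ (↥(EN n) × Fin 5)),
      gE (hG (C6 (TB n)) (fun _ => κ)) (fun θ => cosC (θ p) * cosC (θ q)) ≤
        C * Real.exp (-a * nm (bp p - bp q))) (n : ℕ) (e e' : Vx 2 × Fin 3) (hne : e ≠ e') :
    |En (wk κ) n (fun h => (dh h e : ℝ) * (dh h e' : ℝ))| ≤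
      (4 * κ ^ 2 * max C 0) * Real.exp (-a * nm (e.1 - e'.1)) := by
  have hK : 0 ≤ (4 * κ ^ 2 * max C 0) * Real.exp (-a * nm (e.1 - e'.1)) := by positivity
  have hzero : ∀ e : Vx 2 × Fin 3, e ∉ EN n → ∀ h : ↥(FN n) → ℤ, dh (ex h) e = 0 := by
    intro e he h
    have hb := (FN_Bd n).mem e
    have h1 : HH.gr.s e ∉ FN n := fun hh => he (hb.2 (Or.inl hh))
    have h2 : HH.gr.r e ∉ FN n := fun hh => he (hb.2 (Or.inr hh))
    simp [dh, ex, h1, h2]
  by_cases he : e ∈ EN n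
  · by_cases he' : e' ∈ EN n
    · have hne' : (⟨e, he⟩ : ↥(EN n)) ≠ ⟨e', he'⟩ := by
        intro hh; exact hne (congrArg Subtype.val hh)
      rw [du_two n κ hκ ⟨e, he⟩ ⟨e', he'⟩ hne']
      have hs := ssn (C6 (TB n)) (fun _ => κ) (fun _ => hκ.le)
        ((C6 (TB n)).r (⟨e, he⟩, 0)) ((C6 (TB n)).s (⟨e, he⟩, 0))
        ((C6 (TB n)).r (⟨e', he'⟩, 0)) ((C6 (TB n)).s (⟨e', he'⟩, 0))
      have b1 : bp ((C6 (TB n)).r (⟨e, he⟩, 0)) = e.1 := rfl
      have b2 : bp ((C6 (TB n)).s (⟨e, he⟩, 0)) = e.1 := rfl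
      have b3 : bp ((C6 (TB n)).r (⟨e', he'⟩, 0)) = e'.1 := rfl
      have b4 : bp ((C6 (TB n)).s (⟨e', he'⟩, 0)) = e'.1 := rfl
      have g1 := gE_cc_le n κ C a hED _ _ _ _ b1 b3
      have g2 := gE_cc_le n κ C a hED _ _ _ _ b1 b4
      have g3 := gE_cc_le n κ C a hED _ _ _ _ b2 b3
      have g4 := gE_cc_le n κ C a hED _ _ _ _ b2 b4
      rw [abs_mul, abs_neg, abs_of_nonneg (sq_nonneg κ)]
      calc _ ≤ κ ^ 2 * (4 * ((max C 0) * Real.exp (-a * nm (e.1 - e'.1)))) := by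
            refine mul_le_mul_of_nonneg_left ?_ (sq_nonneg κ)
            linarith
        _ = _ := by ring
    · have : En (wk κ) n (fun h => (dh h e : ℝ) * (dh h e' : ℝ)) = 0 := by
        unfold En
        rw [Eh_congr HH.gr (FN n) (EN n) (wk κ) _ (fun _ => 0)]
        · simp [Eh]
        · intro h; simp [hzero e' he' h]
      rw [this, abs_zero]; exact hK
  · have : En (wk κ) n (fun h => (dh h e : ℝ) * (dh h e' : ℝ)) = 0 := by
      unfold En
      rw [Eh_congr HH.gr (FN n) (EN n) (wk κ) _ (fun _ => 0)]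
      · simp [Eh]
      · intro h; simp [hzero e he h]
    rw [this, abs_zero]; exact hK

private theorem geo_sum (a : ℝ) (ha : 0 < a) (S : Finset ℤ) (φ : ℤ → ℤ) (hφ : ∀ x y, φ x = φ y → x = y) :
    ∑ x ∈ S, (if 0 ≤ φ x then Real.exp (-a * (φ x : ℝ)) else 0) ≤ (1 - Real.exp (-a))⁻¹ := by
  have hr0 : 0 ≤ Real.exp (-a) := (Real.exp_pos _).le
  have hr1 : Real.exp (-a) < 1 := by
    rw [Real.exp_lt_one_iff]; linarith
  rw [← Finset.sum_filter]
  have h1 : ∑ x ∈ S.filter (fun x => 0 ≤ φ x), Real.exp (-a * (φ x : ℝ)) =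
      ∑ m ∈ (S.filter (fun x => 0 ≤ φ x)).image (fun x => (φ x).toNat), Real.exp (-a) ^ m := by
    rw [Finset.sum_image]
    · refine Finset.sum_congr rfl fun x hx => ?_
      have hx0 : 0 ≤ φ x := (Finset.mem_filter.1 hx).2
      rw [← Real.exp_nat_mul]
      congr 1
      have : ((φ x).toNat : ℝ) = (φ x : ℝ) := by
        exact_mod_cast Int.toNat_of_nonneg hx0
      rw [this]; ring
    · intro x hx y hy hxy
      have hx0 : 0 ≤ φ x := (Finset.mem_filter.1 hx).2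
      have hy0 : 0 ≤ φ y := (Finset.mem_filter.1 hy).2
      refine hφ x y ?_
      have := congrArg (fun m : ℕ => (m : ℤ)) hxy
      simp only [Int.toNat_of_nonneg hx0, Int.toNat_of_nonneg hy0] at this
      exact this
  rw [h1, ← tsum_geometric_of_lt_one hr0 hr1]
  exact (summable_geometric_of_lt_one hr0 hr1).sum_le_tsum _ (fun m _ => pow_nonneg hr0 m)

private theorem main_bound (κ C a : ℝ) (hκ : 0 < κ) (ha : 0 < a)
    (hED : ∀ (n : ℕ) (p q : ↥(bx 2 n) ⊕ (↥(EN n) × Fin 5)),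
      gE (hG (C6 (TB n)) (fun _ => κ)) (fun θ => cosC (θ p) * cosC (θ q)) ≤
        C * Real.exp (-a * nm (bp p - bp q))) (n : ℕ) (i j : Vx 2 × Bool) (hi : i ∈ FN n)
    (hj : j ∈ FN n) (hij : i.1 0 < j.1 0 ∨ i = j) :
    |En (wk κ) n (fun h => (h i : ℝ) * (h j : ℝ))| ≤
      4 * (4 * κ ^ 2 * max C 0) * ((1 - Real.exp (-a))⁻¹) ^ 2 * Real.exp (-a * (j.1 0 - i.1 0 : ℤ)) := by
  have hw := wk_ok κ hκ
  have hB := FN_Bd n
  set K : ℝ := 4 * κ ^ 2 * max C 0 with hK
  have hK0 : 0 ≤ K := by positivity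
  have hij0 : i.1 0 ≤ j.1 0 := by
    rcases hij with h | h
    · exact h.le
    · rw [h]
  have hexp : En (wk κ) n (fun h => (h i : ℝ) * (h j : ℝ)) =
      ∑ x ∈ Icc (-(n : ℤ)) n, ∑ k : Fin 2, ∑ x' ∈ Icc (-(n : ℤ)) n, ∑ k' : Fin 2,
        (mcL i x k * mcR j x' k') *
          En (wk κ) n (fun h => (dh h (![x, i.1 1], mty k) : ℝ) * (dh h (![x', j.1 1], mty k') : ℝ)) := by
    unfold En
    have hc : Eh HH.gr (FN n) (EN n) (wk κ) (fun h => (h i : ℝ) * (h j : ℝ)) =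
        Eh HH.gr (FN n) (EN n) (wk κ) (fun h =>
          ∑ x ∈ Icc (-(n : ℤ)) n, ∑ k : Fin 2, ∑ x' ∈ Icc (-(n : ℤ)) n, ∑ k' : Fin 2,
            (mcL i x k * mcR j x' k') *
              ((dh h (![x, i.1 1], mty k) : ℝ) * (dh h (![x', j.1 1], mty k') : ℝ))) := by
      refine Eh_congr _ _ _ _ _ _ fun h => ?_
      have h0 : ∀ v, v ∉ FN n → (ex h) v = 0 := by
        intro v hv; simp [ex, hv]
      rw [left_sum n (ex h) h0 i hi, right_sum n (ex h) h0 j hj]
      rw [Finset.sum_mul]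
      refine Finset.sum_congr rfl fun x _ => ?_
      rw [Finset.sum_mul]
      refine Finset.sum_congr rfl fun k _ => ?_
      rw [Finset.mul_sum]
      refine Finset.sum_congr rfl fun x' _ => ?_
      rw [Finset.mul_sum]
      refine Finset.sum_congr rfl fun k' _ => ?_
      ring
    rw [hc]
    have hP0 : ∀ x k x' k', PBd (FN n) (fun h => (mcL i x k * mcR j x' k') *
              ((dh h (![x, i.1 1], mty k) : ℝ) * (dh h (![x', j.1 1], mty k') : ℝ))) := by
      intro x k x' k'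
      exact PBd_smul _ _ _ (PBd_mul _ _ _ (PBd_dh _ _) (PBd_dh _ _))
    have hPs : ∀ {ι : Type} (s : Finset ι) (g : ι → (Vx 2 × Bool → ℤ) → ℝ),
        (∀ i ∈ s, PBd (FN n) (g i)) → PBd (FN n) (fun h => ∑ i ∈ s, g i h) := by
      classical
      intro ι s g
      induction s using Finset.induction_on with
      | empty =>
        intro _
        simp only [Finset.sum_empty]
        exact PBd_bdd _ _ 0 (by intro h; simp)
      | insert b t hb ih =>
        intro hg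
        have : (fun h : Vx 2 × Bool → ℤ => ∑ i ∈ insert b t, g i h) =
            fun h => g b h + ∑ i ∈ t, g i h := by
          funext h; rw [Finset.sum_insert hb]
        rw [this]
        exact PBd_add _ _ _ (hg b (Finset.mem_insert_self _ _))
          (ih fun i hi => hg i (Finset.mem_insert_of_mem hi))
    rw [Eh_sum HH.gr (FN n) (EN n) hB (wk κ) hw _ _
      (fun x _ => hPs _ _ fun k _ => hPs _ _ fun x' _ => hPs _ _ fun k' _ => hP0 x k x' k')]
    refine Finset.sum_congr rfl fun x _ => ?_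
    rw [Eh_sum HH.gr (FN n) (EN n) hB (wk κ) hw _ _
      (fun k _ => hPs _ _ fun x' _ => hPs _ _ fun k' _ => hP0 x k x' k')]
    refine Finset.sum_congr rfl fun k _ => ?_
    rw [Eh_sum HH.gr (FN n) (EN n) hB (wk κ) hw _ _
      (fun x' _ => hPs _ _ fun k' _ => hP0 x k x' k')]
    refine Finset.sum_congr rfl fun x' _ => ?_
    rw [Eh_sum HH.gr (FN n) (EN n) hB (wk κ) hw _ _
      (fun k' _ => hP0 x k x' k')]
    refine Finset.sum_congr rfl fun k' _ => ?_
    rw [Eh_smul]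
  rw [hexp]
  set L : ℤ → ℝ := fun x => if 0 ≤ i.1 0 - x then Real.exp (-a * ((i.1 0 - x : ℤ) : ℝ)) else 0 with hL
  set R : ℤ → ℝ := fun x => if 0 ≤ x - j.1 0 then Real.exp (-a * ((x - j.1 0 : ℤ) : ℝ)) else 0 with hR
  have hterm : ∀ x k x' k', |(mcL i x k * mcR j x' k') *
          En (wk κ) n (fun h => (dh h (![x, i.1 1], mty k) : ℝ) * (dh h (![x', j.1 1], mty k') : ℝ))| ≤
      K * Real.exp (-a * (j.1 0 - i.1 0 : ℤ)) * (L x * R x') := by
    intro x k x' k'
    have hL0 : 0 ≤ L x := by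
      rw [hL]; dsimp only; split_ifs <;> positivity
    have hR0 : 0 ≤ R x' := by
      rw [hR]; dsimp only; split_ifs <;> positivity
    have hrhs : 0 ≤ K * Real.exp (-a * (j.1 0 - i.1 0 : ℤ)) * (L x * R x') := by positivity
    by_cases hz : mcL i x k * mcR j x' k' = 0
    · rw [hz, zero_mul, abs_zero]; exact hrhs
    · have hz1 : mcL i x k ≠ 0 := left_ne_zero_of_mul hz
      have hz2 : mcR j x' k' ≠ 0 := right_ne_zero_of_mul hz
      have hx : x ≤ i.1 0 := by
        by_contra hc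
        exact hz1 (by simp [mcL, hc])
      have hx' : j.1 0 ≤ x' := by
        by_contra hc
        refine hz2 ?_
        have e1 : ¬ (j.1 0 < x') := by omega
        have e2 : ¬ (k' = 1 ∧ j.2 = true ∧ x' = j.1 0) := by
          rintro ⟨-, -, h⟩; omega
        simp [mcR, e1, e2]
      have hne : ((![x, i.1 1], mty k) : Vx 2 × Fin 3) ≠ (![x', j.1 1], mty k') := by
        intro hh
        have h1 : x = x' := by
          have := congrArg (fun p : Vx 2 × Fin 3 => p.1 0) hh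
          simpa using this
        have h2 : k = k' := mty_inj (congrArg Prod.snd hh)
        rcases hij with hlt | heq
        · omega
        · subst heq
          subst h1
          subst h2
          have hxi : x = i.1 0 := le_antisymm hx hx'
          by_cases hc : k = 1 ∧ i.2 = true
          · exact hz1 (by simp [mcL, hxi, hc.1, hc.2])
          · refine hz2 ?_
            have e1 : ¬ (i.1 0 < x) := by omega
            have e2 : ¬ (k = 1 ∧ i.2 = true ∧ x = i.1 0) := by tauto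
            simp [mcR, e1, e2]
      have hb := c2_bound κ C a hκ hED n _ _ hne
      have hnm : ((x' - x : ℤ) : ℝ) ≤ (nm ((![x, i.1 1] : Vx 2) - ![x', j.1 1]) : ℝ) := by
        have : (x' - x) ≤ ((nm ((![x, i.1 1] : Vx 2) - ![x', j.1 1]) : ℕ) : ℤ) := by
          have h1 : (((![x, i.1 1] : Vx 2) - ![x', j.1 1]) 0).natAbs ≤
              nm ((![x, i.1 1] : Vx 2) - ![x', j.1 1]) := by
            unfold nm
            exact Finset.le_sup (f := fun i => (((![x, _] : Vx 2) - ![x', _]) i).natAbs) (Finset.mem_univ 0)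
          have h2 : ((![x, i.1 1] : Vx 2) - ![x', j.1 1]) 0 = x - x' := by simp
          rw [h2] at h1
          omega
        exact_mod_cast this
      have hLx : L x = Real.exp (-a * ((i.1 0 - x : ℤ) : ℝ)) := by
        rw [hL]; dsimp only; rw [if_pos (by omega)]
      have hRx : R x' = Real.exp (-a * ((x' - j.1 0 : ℤ) : ℝ)) := by
        rw [hR]; dsimp only; rw [if_pos (by omega)]
      rw [abs_mul, abs_mul]
      have ha1 : |mcL i x k| ≤ 1 := by
        have := abs_mcL i x k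
        rwa [if_pos hx] at this
      have ha2 : |mcR j x' k'| ≤ 1 := by
        have := abs_mcR j x' k'
        rwa [if_pos hx'] at this
      calc |mcL i x k| * |mcR j x' k'| * |En (wk κ) n (fun h => (dh h (![x, i.1 1], mty k) : ℝ) *
              (dh h (![x', j.1 1], mty k') : ℝ))|
          ≤ 1 * 1 * (K * Real.exp (-a * nm ((![x, i.1 1] : Vx 2) - ![x', j.1 1]))) := by
            refine mul_le_mul (mul_le_mul ha1 ha2 (abs_nonneg _) zero_le_one) hb (abs_nonneg _) (by norm_num)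
        _ ≤ K * Real.exp (-a * ((x' - x : ℤ) : ℝ)) := by
            rw [one_mul, one_mul]
            refine mul_le_mul_of_nonneg_left (Real.exp_le_exp.2 ?_) hK0
            nlinarith
        _ = K * Real.exp (-a * (j.1 0 - i.1 0 : ℤ)) * (L x * R x') := by
            rw [hLx, hRx, mul_assoc K, ← Real.exp_add, ← Real.exp_add]
            congr 2
            push_cast
            ring
  have hsum : |∑ x ∈ Icc (-(n : ℤ)) n, ∑ k : Fin 2, ∑ x' ∈ Icc (-(n : ℤ)) n, ∑ k' : Fin 2,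
        (mcL i x k * mcR j x' k') *
          En (wk κ) n (fun h => (dh h (![x, i.1 1], mty k) : ℝ) * (dh h (![x', j.1 1], mty k') : ℝ))| ≤
      ∑ x ∈ Icc (-(n : ℤ)) n, ∑ k : Fin 2, ∑ x' ∈ Icc (-(n : ℤ)) n, ∑ k' : Fin 2,
        K * Real.exp (-a * (j.1 0 - i.1 0 : ℤ)) * (L x * R x') := by
    refine (Finset.abs_sum_le_sum_abs _ _).trans (Finset.sum_le_sum fun x _ => ?_)
    refine (Finset.abs_sum_le_sum_abs _ _).trans (Finset.sum_le_sum fun k _ => ?_)
    refine (Finset.abs_sum_le_sum_abs _ _).trans (Finset.sum_le_sum fun x' _ => ?_)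
    refine (Finset.abs_sum_le_sum_abs _ _).trans (Finset.sum_le_sum fun k' _ => ?_)
    exact hterm x k x' k'
  refine hsum.trans ?_
  have hgL : ∑ x ∈ Icc (-(n : ℤ)) n, L x ≤ (1 - Real.exp (-a))⁻¹ :=
    geo_sum a ha _ (fun x => i.1 0 - x) (by intro x y h; simpa using h)
  have hgR : ∑ x ∈ Icc (-(n : ℤ)) n, R x ≤ (1 - Real.exp (-a))⁻¹ :=
    geo_sum a ha _ (fun x => x - j.1 0) (by intro x y h; simpa using h)
  have hL0 : 0 ≤ ∑ x ∈ Icc (-(n : ℤ)) n, L x :=
    Finset.sum_nonneg fun x _ => by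
      rw [hL]; dsimp only; split_ifs <;> positivity
  have hR0 : 0 ≤ ∑ x ∈ Icc (-(n : ℤ)) n, R x :=
    Finset.sum_nonneg fun x _ => by
      rw [hR]; dsimp only; split_ifs <;> positivity
  have hcalc : ∑ x ∈ Icc (-(n : ℤ)) n, ∑ k : Fin 2, ∑ x' ∈ Icc (-(n : ℤ)) n, ∑ k' : Fin 2,
        K * Real.exp (-a * (j.1 0 - i.1 0 : ℤ)) * (L x * R x') =
      4 * K * Real.exp (-a * (j.1 0 - i.1 0 : ℤ)) *
        ((∑ x ∈ Icc (-(n : ℤ)) n, L x) * ∑ x ∈ Icc (-(n : ℤ)) n, R x) := by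
    simp only [Finset.sum_const, Finset.card_univ, Fintype.card_fin, nsmul_eq_mul]
    rw [Finset.sum_mul_sum, Finset.mul_sum]
    refine Finset.sum_congr rfl fun x _ => ?_
    rw [Finset.mul_sum, Finset.mul_sum]
    refine Finset.sum_congr rfl fun x' _ => ?_
    push_cast
    ring
  rw [hcalc]
  have hLR : (∑ x ∈ Icc (-(n : ℤ)) n, L x) * ∑ x ∈ Icc (-(n : ℤ)) n, R x ≤
      ((1 - Real.exp (-a))⁻¹) ^ 2 := by
    rw [sq]
    exact mul_le_mul hgL hgR hR0 (hL0.trans hgL)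
  calc _ ≤ 4 * K * Real.exp (-a * (j.1 0 - i.1 0 : ℤ)) * ((1 - Real.exp (-a))⁻¹) ^ 2 :=
        mul_le_mul_of_nonneg_left hLR (by positivity)
    _ = _ := by ring

theorem mom (κ C a : ℝ) (hκ : 0 < κ) (ha : 0 < a)
    (hED : ∀ (n : ℕ) (p q : ↥(bx 2 n) ⊕ (↥(EN n) × Fin 5)),
      gE (hG (C6 (TB n)) (fun _ => κ)) (fun θ => cosC (θ p) * cosC (θ q)) ≤
        C * Real.exp (-a * nm (bp p - bp q))) :
    ∃ C' : ℝ, 0 < C' ∧ (∀ n : ℕ, ∀ i ∈ FN n, En (wk κ) n (fun h => (h i : ℝ) ^ 2) ≤ C') ∧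
      ∀ n : ℕ, ∀ i ∈ FN n, ∀ j ∈ FN n, i.1 0 < j.1 0 →
        |En (wk κ) n (fun h => (h i : ℝ) * (h j : ℝ))| ≤ C' * Real.exp (-a * (j.1 0 - i.1 0 : ℤ)) := by
  set D : ℝ := 4 * (4 * κ ^ 2 * max C 0) * ((1 - Real.exp (-a))⁻¹) ^ 2 with hD
  have hD0 : 0 ≤ D := by positivity
  refine ⟨D + 1, by linarith, ?_, ?_⟩
  · intro n i hi
    have h := main_bound κ C a hκ ha hED n i i hi hi (Or.inr rfl)
    rw [sub_self, Int.cast_zero, mul_zero, Real.exp_zero, mul_one] at h
    have h2 : En (wk κ) n (fun h => (h i : ℝ) ^ 2) = En (wk κ) n (fun h => (h i : ℝ) * (h i : ℝ)) := by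
      congr 1; funext h; ring
    rw [h2]
    have := (abs_le.1 h).2
    linarith
  · intro n i hi j hj hij
    have h := main_bound κ C a hκ ha hED n i j hi hj (Or.inl hij)
    refine h.trans ?_
    exact mul_le_mul_of_nonneg_right (by linarith) (Real.exp_pos _).le

end H82.BX
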