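import Pool.Agent.H82.BX.Defs

/-!
# PG0: measure theory on `E → α`, `E` countable, `α` finite

* `lc_meas`: a cylinder event is a finite union of sets `{ω | ω = ξ on F}`.
* `lc_approx`: cylinder events form an algebra generating the σ-algebra (`E` countable).  Approximation of measurable sets in measure
  by sets of a generating algebra (the class of approximable sets is a σ-algebra; or: outer regularity on the compact metrizable
  space `E → α`, open sets are countable unions of cylinders).
* `insc_inse`: let `ν' = ν.map (opP e)` (`opP e` is measurable).  Apply `lc_approx` to the finite measure `ν + ν'` and the set `X`: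
  `ν'(X) ≤ ν'(D) + δ ≤ C ν(D) + ε + δ ≤ C (ν(X) + δ) + ε + δ`, `δ → 0`.
* `tip_of_lc`: same with `ν' = ν.map (shP a)`: two probability measures that agree on cylinders are equal.
* `opF_bound`: induction on `F` (open the edges of `F` one after the other).
-/

set_option autoImplicit false

open Finset MeasureTheory

namespace H82.BX

open H82.IC

section gen
variable {E α : Type} [Countable E] [Fintype α] [MeasurableSpace α] [MeasurableSingletonClass α]

omit [Countable E] in
theorem PG0_lc_iff (X : Set (E → α)) : Lc X ↔ X ∈ measurableCylinders (fun _ : E => α) := by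
  constructor
  · rintro ⟨F, hF⟩
    rw [mem_measurableCylinders]
    refine ⟨F, {g | ∃ ω ∈ X, F.restrict ω = g}, Set.Finite.measurableSet (Set.toFinite _), ?_⟩
    ext ω
    rw [mem_cylinder]
    constructor
    · intro h; exact ⟨ω, h, rfl⟩
    · rintro ⟨ω', h', he⟩
      refine (hF ω' ω ?_).1 h'
      intro e he'
      exact congrFun he ⟨e, he'⟩
  · intro h
    rw [mem_measurableCylinders] at h
    obtain ⟨F, S, hS, rfl⟩ := h
    refine ⟨F, ?_⟩
    intro ω ω' hw
    rw [mem_cylinder, mem_cylinder]
    have h1 : F.restrict ω = F.restrict ω' := by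
      funext e; exact hw e.1 e.2
    rw [h1]

theorem lc_meas {X : Set (E → α)} (h : Lc X) : MeasurableSet X := by
  exact MeasurableSet.of_mem_measurableCylinders ((PG0_lc_iff X).1 h)

theorem lc_compl {X : Set (E → α)} (h : Lc X) : Lc Xᶜ := by
  obtain ⟨F, hF⟩ := h
  exact ⟨F, fun ω ω' hw => not_congr (hF ω ω' hw)⟩

theorem lc_inter {X Y : Set (E → α)} (h : Lc X) (h' : Lc Y) : Lc (X ∩ Y) := by
  classical
  obtain ⟨F, hF⟩ := h
  obtain ⟨F', hF'⟩ := h'
  refine ⟨F ∪ F', fun ω ω' hw => ?_⟩
  exact and_congr (hF ω ω' (fun e he => hw e (Finset.mem_union_left _ he)))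
    (hF' ω ω' (fun e he => hw e (Finset.mem_union_right _ he)))

theorem lc_union {X Y : Set (E → α)} (h : Lc X) (h' : Lc Y) : Lc (X ∪ Y) := by
  classical
  obtain ⟨F, hF⟩ := h
  obtain ⟨F', hF'⟩ := h'
  refine ⟨F ∪ F', fun ω ω' hw => ?_⟩
  exact or_congr (hF ω ω' (fun e he => hw e (Finset.mem_union_left _ he)))
    (hF' ω ω' (fun e he => hw e (Finset.mem_union_right _ he)))

theorem lc_approx (ν : Measure (E → α)) [IsFiniteMeasure ν] (X : Set (E → α)) (hX : MeasurableSet X)
    (δ : ℝ) (hδ : 0 < δ) : ∃ D : Set (E → α), Lc D ∧ ν.real (symmDiff X D) ≤ δ := by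
  have halg : IsSetAlgebra {X : Set (E → α) | Lc X} := by
    refine ⟨⟨∅, fun ω ω' _ => Iff.rfl⟩, ?_, ?_⟩
    · intro s hs; exact lc_compl hs
    · intro s t hs ht; exact lc_union hs ht
  have hgen : (MeasurableSpace.pi : MeasurableSpace (E → α)) =
      MeasurableSpace.generateFrom {X : Set (E → α) | Lc X} := by
    have h1 : {X : Set (E → α) | Lc X} = measurableCylinders (fun _ : E => α) := by
      ext X; exact PG0_lc_iff X
    rw [h1]; exact generateFrom_measurableCylinders.symm
  have hd := Measure.MeasureDense.of_generateFrom_isSetAlgebra_finite (μ := ν) halg hgen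
  obtain ⟨D, hD, h⟩ := hd.approx X hX (measure_ne_top _ _) δ hδ
  refine ⟨D, hD, ?_⟩
  exact ENNReal.toReal_le_of_le_ofReal hδ.le h.le

omit [Countable E] [Fintype α] [MeasurableSingletonClass α] in
theorem PG0_tri (ν : Measure (E → α)) [IsFiniteMeasure ν] (X D : Set (E → α)) :
    ν.real X ≤ ν.real D + ν.real (symmDiff X D) := by
  have h1 : X ⊆ D ∪ symmDiff X D := by
    intro x hx
    by_cases hd : x ∈ D
    · exact Or.inl hd
    · exact Or.inr (Or.inl ⟨hx, hd⟩)
  exact (measureReal_mono h1).trans (measureReal_union_le _ _)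

/-- probability measures are determined by their values on cylinders. -/
theorem lc_ext (ν ν' : Measure (E → α)) [IsProbabilityMeasure ν] [IsProbabilityMeasure ν']
    (h : ∀ X : Set (E → α), Lc X → ν.real X = ν'.real X) : ν = ν' := by
  refine ext_of_generate_finite (measurableCylinders (fun _ : E => α))
    generateFrom_measurableCylinders.symm isPiSystem_measurableCylinders ?_ ?_
  · intro s hs
    have h1 := h s ((PG0_lc_iff s).2 hs)
    exact (ENNReal.toReal_eq_toReal_iff' (measure_ne_top _ _) (measure_ne_top _ _)).1 h1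
  · rw [measure_univ, measure_univ]

end gen

section bool
variable {E : Type} [Countable E]

theorem opP_meas (e : E) : Measurable (opP e : (E → Bool) → E → Bool) := by
  classical
  rw [measurable_pi_iff]
  intro i
  by_cases hi : i = e
  · subst hi
    have h1 : (fun ω : E → Bool => opP i ω i) = fun _ => true := by
      funext ω; simp [opP]
    rw [h1]; exact measurable_const
  · have h1 : (fun ω : E → Bool => opP e ω i) = fun ω => ω i := by
      funext ω; simp [opP, Function.update, hi]
    rw [h1]; exact measurable_pi_apply i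

theorem insc_inse (ν : Measure (E → Bool)) [IsProbabilityMeasure ν] (h : INSc ν) : INSe ν := by
  intro ε hε
  obtain ⟨C, hC, h1⟩ := h (ε / 2) (by positivity)
  refine ⟨C, hC, ?_⟩
  intro e X hX
  have hop := opP_meas e
  have hpm : IsProbabilityMeasure (ν.map (opP e)) :=
    Measure.isProbabilityMeasure_map hop.aemeasurable
  have hδ : 0 < ε / (2 * (C + 1)) := by positivity
  obtain ⟨D, hD, h2⟩ := lc_approx (ν + ν.map (opP e)) X hX (ε / (2 * (C + 1))) hδ
  have hDm := lc_meas hD
  have h3 : (ν + ν.map (opP e)).real (symmDiff X D) =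
      ν.real (symmDiff X D) + (ν.map (opP e)).real (symmDiff X D) := by
    rw [Measure.real, Measure.add_apply,
      ENNReal.toReal_add (measure_ne_top _ _) (measure_ne_top _ _)]
    rfl
  have h4 : ∀ Y : Set (E → Bool), MeasurableSet Y →
      (ν.map (opP e)).real Y = ν.real {ω | opP e ω ∈ Y} := by
    intro Y hY
    rw [Measure.real, Measure.map_apply hop hY]
    rfl
  have h5 := PG0_tri (ν.map (opP e)) X D
  have h6 := PG0_tri ν D X
  rw [symmDiff_comm] at h6
  have h7 := h1 e D hD
  rw [h3] at h2
  rw [h4 X hX, h4 D hDm] at h5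
  have h8 : 0 ≤ ν.real (symmDiff X D) := measureReal_nonneg
  have h9 : 0 ≤ (ν.map (opP e)).real (symmDiff X D) := measureReal_nonneg
  have h10 : (C + 1) * (ε / (2 * (C + 1))) = ε / 2 := by
    field_simp
  have h11 : C * ν.real D ≤ C * (ν.real X + ε / (2 * (C + 1))) := by
    apply mul_le_mul_of_nonneg_left _ hC.le
    linarith
  linarith

/-- open all edges of `F`. -/
noncomputable def opF (F : Finset E) (ω : E → Bool) : E → Bool :=
  open Classical in fun e => if e ∈ F then true else ω e

theorem opF_meas (F : Finset E) : Measurable (opF F : (E → Bool) → E → Bool) := by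
  classical
  rw [measurable_pi_iff]
  intro i
  by_cases hi : i ∈ F
  · have h1 : (fun ω : E → Bool => opF F ω i) = fun _ => true := by
      funext ω; simp [opF, hi]
    rw [h1]; exact measurable_const
  · have h1 : (fun ω : E → Bool => opF F ω i) = fun ω => ω i := by
      funext ω; simp [opF, hi]
    rw [h1]; exact measurable_pi_apply i

theorem opF_bound (ν : Measure (E → Bool)) [IsProbabilityMeasure ν] (h : INSe ν) (F : Finset E)
    (ε : ℝ) (hε : 0 < ε) : ∃ C : ℝ, 0 < C ∧ ∀ X : Set (E → Bool), MeasurableSet X →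
      ν.real {ω | opF F ω ∈ X} ≤ C * ν.real X + ε := by
  classical
  induction F using Finset.induction_on generalizing ε with
  | empty =>
    refine ⟨1, one_pos, ?_⟩
    intro X hX
    have h1 : {ω : E → Bool | opF ∅ ω ∈ X} = X := by
      ext ω
      have h2 : opF ∅ ω = ω := by funext i; simp [opF]
      simp [h2]
    rw [h1]; linarith
  | insert e F he ih =>
    obtain ⟨C1, hC1, h1⟩ := h (ε / 2) (by positivity)
    obtain ⟨C2, hC2, h2⟩ := ih (ε / (2 * C1)) (by positivity)
    refine ⟨C1 * C2, by positivity, ?_⟩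
    intro X hX
    have h3 : {ω : E → Bool | opF (insert e F) ω ∈ X} =
        {ω | opP e ω ∈ {ω' : E → Bool | opF F ω' ∈ X}} := by
      ext ω
      have h4 : opF (insert e F) ω = opF F (opP e ω) := by
        funext i
        by_cases hi : i = e
        · subst hi
          simp [opF, opP]
        · simp [opF, opP, Function.update, hi]
      simp only [Set.mem_setOf_eq, h4]
    rw [h3]
    have h5 := h1 e {ω' : E → Bool | opF F ω' ∈ X} (opF_meas F hX)
    have h6 := h2 X hX
    have h7 : C1 * ν.real {ω' : E → Bool | opF F ω' ∈ X} ≤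
        C1 * (C2 * ν.real X + ε / (2 * C1)) := mul_le_mul_of_nonneg_left h6 hC1.le
    have h8 : C1 * (C2 * ν.real X + ε / (2 * C1)) = C1 * C2 * ν.real X + ε / 2 := by
      field_simp
    linarith

end bool

section sh
variable {K' α : Type} [Countable K'] [Fintype α] [MeasurableSpace α] [MeasurableSingletonClass α]

theorem shP_meas (a : Vx 2) : Measurable (shP a : (Vx 2 × K' → α) → Vx 2 × K' → α) := by
  rw [measurable_pi_iff]
  intro i
  exact measurable_pi_apply (i.1 + a, i.2)

theorem shP_lc (a : Vx 2) {X : Set (Vx 2 × K' → α)} (h : Lc X) :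
    Lc {ω : Vx 2 × K' → α | shP a ω ∈ X} := by
  classical
  obtain ⟨F, hF⟩ := h
  refine ⟨F.image (fun e => (e.1 + a, e.2)), ?_⟩
  intro ω ω' hw
  refine hF (shP a ω) (shP a ω') ?_
  intro e he
  exact hw (e.1 + a, e.2) (Finset.mem_image_of_mem _ he)

theorem tip_of_lc (ν : Measure (Vx 2 × K' → α)) [IsProbabilityMeasure ν]
    (h : ∀ (a : Vx 2) (X : Set (Vx 2 × K' → α)), Lc X → ν.real {ω | shP a ω ∈ X} = ν.real X) :
    TIP ν := by
  intro a X hX
  have hm : Measurable (shP a : (Vx 2 × K' → α) → Vx 2 × K' → α) := shP_meas a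
  have hpm : IsProbabilityMeasure (ν.map (shP a)) :=
    Measure.isProbabilityMeasure_map hm.aemeasurable
  have h1 : ν.map (shP a) = ν := by
    refine lc_ext _ _ ?_
    intro Y hY
    have h2 := h a Y hY
    rw [← h2, Measure.real, Measure.map_apply hm (lc_meas hY)]
    rfl
  have h3 : (ν.map (shP a)).real X = ν.real X := by rw [h1]
  rw [Measure.real, Measure.map_apply hm hX] at h3
  exact h3

end sh

end H82.BX
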