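import Pool.Agent.H82.BX.PG6
import Pool.Agent.H82.BX.PG1

/-!
# POI: discrete Poincaré lemma in the triangular box, path formulas

`dh h e = h (s e) - h (r e)` for the edge `e` of `HH.gr` (dual to the edge `e` of `TT`):
`J(x,y; 0) = h(L(x,y)) - h(U(x,y-1))`, `J(x,y; 1) = h(L(x-1,y)) - h(U(x,y))`, `J(x,y; 2) = h(U(x,y)) - h(L(x,y))`, where
`L(x,y) = ((x,y), false)`, `U(x,y) = ((x,y), true)`.
`dh_dv`: with `J = dh (ex h)` on `EN n`: at `(x,y)` the incoming edges (`TT.r e = (x,y)`) are `(x-1,y;0)`, `(x,y-1;1)`, `(x-1,y-1;2)` and the outgoing ones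
`(x,y;0)`, `(x,y;1)`, `(x,y;2)`; the heights cancel (heights are `0` off `FN n`, and for the edges of `TT` at the vertex not in `EN n` both heights are `0`).
`left_path`: row formulas (`a = v.1 0`, row `b = v.1 1`): `h(U(a,b)) = -∑_{x ≤ a} J(x,b;1) - ∑_{x < a} J(x,b;2)`, `h(L(a,b)) = -∑_{x ≤ a} (J(x,b;1) + J(x,b;2))`, the sums over `x ≥ -n`
(telescoping from the left, where `h = 0`);
`right_path`: `h(L(a,b)) = ∑_{x > a} (J(x,b;1) + J(x,b;2))`, `h(U(a,b)) = ∑_{x ≥ a} J(x,b;2) + ∑_{x > a} J(x,b;1)`.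
`poi`: injectivity by `left_path`.  Surjectivity: given `J` with `dv = 0` define `h` by the row formula; the relations for `k = 1, 2` inside the row hold by construction; the last one at the right end says that the
flux through the row `y = b` is `0`: the sum of the divergences over the vertices with second coordinate `≤ b` (horizontal edges cancel); the relation for `k = 0`: by induction on the rows / on `x`, from the divergence at `(x,y)`.
(Alternatively: dimension count over `ℚ` does not suffice for `ℤ`; use the explicit formulas.)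
-/

set_option autoImplicit false

open Finset MeasureTheory

namespace H82.BX

open H82.IC

theorem mem_FN (n : ℕ) (v : Vx 2 × Bool) : v ∈ FN n ↔ ∀ i, -(n : ℤ) ≤ v.1 i ∧ v.1 i < n := by
  simp [FN, Finset.mem_product, Fintype.mem_piFinset]

theorem mem_EN (n : ℕ) (e : Vx 2 × Fin 3) : e ∈ EN n ↔ TT.s e ∈ bx 2 n ∧ TT.r e ∈ bx 2 n := by
  rw [EN, Finset.mem_filter, Finset.mem_product]
  exact ⟨fun h => ⟨h.1.1, h.2⟩, fun h => ⟨⟨h.1, Finset.mem_univ _⟩, h.2⟩⟩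

theorem POI_bx (n : ℕ) (a b : ℤ) :
    (![a, b] : Vx 2) ∈ bx 2 n ↔ (-(n : ℤ) ≤ a ∧ a ≤ n) ∧ (-(n : ℤ) ≤ b ∧ b ≤ n) := by
  simp [bx, Fintype.mem_piFinset, Fin.forall_fin_two]

theorem POI_fn (n : ℕ) (a b : ℤ) (k : Bool) :
    ((![a, b], k) : Vx 2 × Bool) ∈ FN n ↔
      (-(n : ℤ) ≤ a ∧ a < n) ∧ (-(n : ℤ) ≤ b ∧ b < n) := by
  rw [mem_FN, Fin.forall_fin_two]
  simp

theorem POI_r0 (a b : ℤ) : TT.r (![a, b], 0) = ![a + 1, b] := by
  ext i
  fin_cases i <;> simp [TT]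

theorem POI_r1 (a b : ℤ) : TT.r (![a, b], 1) = ![a, b + 1] := by
  ext i
  fin_cases i <;> simp [TT]

theorem POI_r2 (a b : ℤ) : TT.r (![a, b], 2) = ![a + 1, b + 1] := by
  ext i
  fin_cases i <;> simp [TT]

theorem POI_en0 (n : ℕ) (a b : ℤ) : ((![a, b], 0) : Vx 2 × Fin 3) ∈ EN n ↔
    (-(n : ℤ) ≤ a ∧ a < n) ∧ (-(n : ℤ) ≤ b ∧ b ≤ n) := by
  rw [mem_EN, POI_r0]
  change (![a, b] : Vx 2) ∈ bx 2 n ∧ _ ↔ _
  rw [POI_bx, POI_bx]
  omega

theorem POI_en1 (n : ℕ) (a b : ℤ) : ((![a, b], 1) : Vx 2 × Fin 3) ∈ EN n ↔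
    (-(n : ℤ) ≤ a ∧ a ≤ n) ∧ (-(n : ℤ) ≤ b ∧ b < n) := by
  rw [mem_EN, POI_r1]
  change (![a, b] : Vx 2) ∈ bx 2 n ∧ _ ↔ _
  rw [POI_bx, POI_bx]
  omega

theorem POI_en2 (n : ℕ) (a b : ℤ) : ((![a, b], 2) : Vx 2 × Fin 3) ∈ EN n ↔
    (-(n : ℤ) ≤ a ∧ a < n) ∧ (-(n : ℤ) ≤ b ∧ b < n) := by
  rw [mem_EN, POI_r2]
  change (![a, b] : Vx 2) ∈ bx 2 n ∧ _ ↔ _
  rw [POI_bx, POI_bx]
  omega

theorem POI_s0 (a b : ℤ) : HH.gr.s (![a, b], 0) = (![a, b], false) := by
  change (![a, b] + 0, false) = (![a, b], false)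
  rw [add_zero]

theorem POI_t0 (a b : ℤ) : HH.gr.r (![a, b], 0) = (![a, b - 1], true) := by
  change (![a, b] + -Pi.single 1 1, true) = (![a, b - 1], true)
  congr 1
  ext i
  fin_cases i <;> simp [sub_eq_add_neg]

theorem POI_s1 (a b : ℤ) : HH.gr.s (![a, b], 1) = (![a - 1, b], false) := by
  change (![a, b] + -Pi.single 0 1, false) = (![a - 1, b], false)
  congr 1
  ext i
  fin_cases i <;> simp [sub_eq_add_neg]

theorem POI_t1 (a b : ℤ) : HH.gr.r (![a, b], 1) = (![a, b], true) := by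
  change (![a, b] + 0, true) = (![a, b], true)
  rw [add_zero]

theorem POI_s2 (a b : ℤ) : HH.gr.s (![a, b], 2) = (![a, b], true) := by
  change (![a, b] + 0, true) = (![a, b], true)
  rw [add_zero]

theorem POI_t2 (a b : ℤ) : HH.gr.r (![a, b], 2) = (![a, b], false) := by
  change (![a, b] + 0, false) = (![a, b], false)
  rw [add_zero]

theorem POI_dh0 (h : Vx 2 × Bool → ℤ) (a b : ℤ) :
    dh h (![a, b], 0) = h (![a, b], false) - h (![a, b - 1], true) := by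
  rw [dh, POI_s0, POI_t0]

theorem POI_dh1 (h : Vx 2 × Bool → ℤ) (a b : ℤ) :
    dh h (![a, b], 1) = h (![a - 1, b], false) - h (![a, b], true) := by
  rw [dh, POI_s1, POI_t1]

theorem POI_dh2 (h : Vx 2 × Bool → ℤ) (a b : ℤ) :
    dh h (![a, b], 2) = h (![a, b], true) - h (![a, b], false) := by
  rw [dh, POI_s2, POI_t2]

theorem POI_eta (x : Vx 2) : ∃ a b : ℤ, x = ![a, b] :=
  ⟨x 0, x 1, by ext i; fin_cases i <;> rfl⟩

/-- the edges of the box are the edges of `HH.gr` touching `FN n`, and the box is anchored. -/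
theorem FN_Bd (n : ℕ) : Bd HH.gr (FN n) (EN n) := by
  have hmem : ∀ e, e ∈ EN n ↔ HH.gr.s e ∈ FN n ∨ HH.gr.r e ∈ FN n := by
    rintro ⟨x, k⟩
    obtain ⟨a, b, rfl⟩ := POI_eta x
    fin_cases k
    · change (![a, b], (0 : Fin 3)) ∈ EN n ↔ HH.gr.s (![a, b], 0) ∈ FN n ∨ HH.gr.r (![a, b], 0) ∈ FN n
      rw [POI_en0, POI_s0, POI_t0, POI_fn, POI_fn]
      omega
    · change (![a, b], (1 : Fin 3)) ∈ EN n ↔ HH.gr.s (![a, b], 1) ∈ FN n ∨ HH.gr.r (![a, b], 1) ∈ FN n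
      rw [POI_en1, POI_s1, POI_t1, POI_fn, POI_fn]
      omega
    · change (![a, b], (2 : Fin 3)) ∈ EN n ↔ HH.gr.s (![a, b], 2) ∈ FN n ∨ HH.gr.r (![a, b], 2) ∈ FN n
      rw [POI_en2, POI_s2, POI_t2, POI_fn, POI_fn]
      omega
  refine ⟨hmem, ?_⟩
  have key : ∀ (m : ℕ) (a b : ℤ), a = -(n : ℤ) - 1 + m → a < n → -(n : ℤ) ≤ b → b < n →
      HH.gr.Conn (EN n : Set (Vx 2 × Fin 3)) (![a, b], false) (![-(n : ℤ) - 1, b], false) := by
    intro m
    induction m with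
    | zero =>
      intro a b ha _ _ _
      rw [ha]
      simp only [Nat.cast_zero, add_zero]
      exact conn_refl _ _ _
    | succ m ih =>
      intro a b ha h1 h2 h3
      have h4 := ih (a - 1) b (by rw [ha]; push_cast; ring) (by omega) h2 h3
      have he2 : ((![a, b], 2) : Vx 2 × Fin 3) ∈ (EN n : Set (Vx 2 × Fin 3)) := by
        rw [Finset.mem_coe, POI_en2]
        push_cast at ha
        omega
      have he1 : ((![a, b], 1) : Vx 2 × Fin 3) ∈ (EN n : Set (Vx 2 × Fin 3)) := by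
        rw [Finset.mem_coe, POI_en1]
        push_cast at ha
        omega
      have h5 := conn_symm _ (PG6_edge HH.gr _ he2 (POI_s2 a b) (POI_t2 a b))
      have h6 := conn_symm _ (PG6_edge HH.gr _ he1 (POI_s1 a b) (POI_t1 a b))
      exact conn_trans _ (conn_trans _ h5 h6) h4
  rintro ⟨x, k⟩ hv
  obtain ⟨a, b, rfl⟩ := POI_eta x
  rw [POI_fn] at hv
  refine ⟨(![-(n : ℤ) - 1, b], false), ?_, ?_⟩
  · rw [POI_fn]
    omega
  · have hc : HH.gr.Conn (EN n : Set (Vx 2 × Fin 3)) (![a, b], false) (![-(n : ℤ) - 1, b], false) :=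
      key (a + n + 1).toNat a b (by omega) hv.1.2 hv.2.1 hv.2.2
    cases k
    · exact hc
    · have he2 : ((![a, b], 2) : Vx 2 × Fin 3) ∈ (EN n : Set (Vx 2 × Fin 3)) := by
        rw [Finset.mem_coe, POI_en2]
        omega
      exact conn_trans _ (PG6_edge HH.gr _ he2 (POI_s2 a b) (POI_t2 a b)) hc

theorem POI_eta2 (x : Vx 2) : x = ![x 0, x 1] := by
  ext i
  fin_cases i <;> rfl

theorem POI_tel (n : ℕ) (a : ℤ) (ha : -(n : ℤ) ≤ a) (g : ℤ → ℤ) :
    ∑ x ∈ Icc (-(n : ℤ)) a, (g (x - 1) - g x) = g (-(n : ℤ) - 1) - g a := by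
  obtain ⟨m, rfl⟩ : ∃ m : ℕ, a = -(n : ℤ) + m := ⟨(a + n).toNat, by omega⟩
  clear ha
  induction m with
  | zero => simp
  | succ m ih =>
    have h1 : Icc (-(n : ℤ)) (-(n : ℤ) + (m + 1 : ℕ)) =
        insert (-(n : ℤ) + (m + 1 : ℕ)) (Icc (-(n : ℤ)) (-(n : ℤ) + m)) := by
      ext x
      simp only [mem_Icc, mem_insert]
      push_cast
      omega
    rw [h1, sum_insert (by simp), ih]
    have h2 : -(n : ℤ) + (m + 1 : ℕ) - 1 = -(n : ℤ) + m := by
      push_cast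
      ring
    rw [h2]
    ring

theorem POI_tel2 (a : ℤ) (n : ℤ) (ha : a ≤ n) (g : ℤ → ℤ) :
    ∑ x ∈ Ioc a n, (g (x - 1) - g x) = g a - g n := by
  obtain ⟨m, rfl⟩ : ∃ m : ℕ, n = a + m := ⟨(n - a).toNat, by omega⟩
  clear ha
  induction m with
  | zero => simp
  | succ m ih =>
    have h1 : Ioc a (a + (m + 1 : ℕ)) = insert (a + (m + 1 : ℕ)) (Ioc a (a + m)) := by
      ext x
      simp only [mem_Ioc, mem_insert]
      push_cast
      omega
    rw [h1, sum_insert (by simp), ih]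
    have h2 : a + (m + 1 : ℕ) - 1 = a + m := by
      push_cast
      ring
    rw [h2]
    ring

theorem left_path (n : ℕ) (h : Vx 2 × Bool → ℤ) (h0 : ∀ v, v ∉ FN n → h v = 0) (v : Vx 2 × Bool)
    (hv : v ∈ FN n) :
    h v = -∑ x ∈ Icc (-(n : ℤ)) (v.1 0), (dh h (![x, v.1 1], 1) +
      (if v.2 = true ∧ x = v.1 0 then 0 else dh h (![x, v.1 1], 2))) := by
  obtain ⟨x0, k⟩ := v
  obtain ⟨a, b, rfl⟩ := POI_eta x0
  rw [POI_fn] at hv
  change h (![a, b], k) = -∑ x ∈ Icc (-(n : ℤ)) a, (dh h (![x, b], 1) +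
      (if k = true ∧ x = a then 0 else dh h (![x, b], 2)))
  have hz : h (![-(n : ℤ) - 1, b], false) = 0 := h0 _ (by rw [POI_fn]; omega)
  have h1 : ∑ x ∈ Icc (-(n : ℤ)) a, (dh h (![x, b], 1) + dh h (![x, b], 2)) =
      - h (![a, b], false) := by
    have h2 := POI_tel n a hv.1.1 (fun x => h (![x, b], false))
    rw [hz, zero_sub] at h2
    rw [← h2]
    apply sum_congr rfl
    intro x _
    rw [POI_dh1, POI_dh2]
    ring
  cases k
  · simp only [Bool.false_eq_true, false_and, if_false]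
    rw [h1, neg_neg]
  · have h3 : ∀ x ∈ Icc (-(n : ℤ)) a, (dh h (![x, b], 1) +
        (if true = true ∧ x = a then 0 else dh h (![x, b], 2))) =
        (dh h (![x, b], 1) + dh h (![x, b], 2)) - (if x = a then dh h (![a, b], 2) else 0) := by
      intro x _
      by_cases hx : x = a
      · subst hx
        simp
      · simp [hx]
    rw [sum_congr rfl h3, sum_sub_distrib, h1, sum_ite_eq', if_pos (by rw [mem_Icc]; omega),
      POI_dh2]
    ring

theorem right_path (n : ℕ) (h : Vx 2 × Bool → ℤ) (h0 : ∀ v, v ∉ FN n → h v = 0) (v : Vx 2 × Bool)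
    (hv : v ∈ FN n) :
    h v = (∑ x ∈ Ioc (v.1 0) n, (dh h (![x, v.1 1], 1) +
      dh h (![x, v.1 1], 2))) + (if v.2 = true then dh h (v.1, 2) else 0) := by
  obtain ⟨x0, k⟩ := v
  obtain ⟨a, b, rfl⟩ := POI_eta x0
  rw [POI_fn] at hv
  change h (![a, b], k) = (∑ x ∈ Ioc a (n : ℤ), (dh h (![x, b], 1) +
      dh h (![x, b], 2))) + (if k = true then dh h (![a, b], 2) else 0)
  have hz : h (![(n : ℤ), b], false) = 0 := h0 _ (by rw [POI_fn]; omega)
  have h1 : ∑ x ∈ Ioc a (n : ℤ), (dh h (![x, b], 1) + dh h (![x, b], 2)) =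
      h (![a, b], false) := by
    have h2 := POI_tel2 a n (by omega) (fun x => h (![x, b], false))
    rw [hz, sub_zero] at h2
    rw [← h2]
    apply sum_congr rfl
    intro x _
    rw [POI_dh1, POI_dh2]
    ring
  rw [h1, POI_dh2]
  cases k
  · simp
  · simp

/-- extension of a flow by zero. -/
noncomputable def POI_x (n : ℕ) (J : ↥(EN n) → ℤ) (e : Vx 2 × Fin 3) : ℤ :=
  if he : e ∈ EN n then J ⟨e, he⟩ else 0

theorem POI_x0 (n : ℕ) (J : ↥(EN n) → ℤ) (e : Vx 2 × Fin 3) (he : e ∉ EN n) : POI_x n J e = 0 :=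
  dif_neg he

theorem POI_xc (n : ℕ) (J : ↥(EN n) → ℤ) (e : ↥(EN n)) : POI_x n J e.1 = J e := by
  rw [POI_x, dif_pos e.2]

theorem POI_sum (n : ℕ) (J : ↥(EN n) → ℤ) (p : Vx 2 × Fin 3 → Vx 2) (v : Vx 2)
    (g : Fin 3 → Vx 2) (hg : ∀ e : Vx 2 × Fin 3, p e = v ↔ e = (g e.2, e.2)) :
    ∑ e : ↥(EN n), (if p e.1 = v then J e else 0) = ∑ k, POI_x n J (g k, k) := by
  have h1 : ∀ e : ↥(EN n), (if p e.1 = v then J e else 0) =
      ∑ k, if e.1 = (g k, k) then POI_x n J e.1 else 0 := by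
    intro e
    rw [Finset.sum_eq_single e.1.2]
    · by_cases h : p e.1 = v
      · rw [if_pos h, if_pos ((hg _).1 h), POI_xc]
      · rw [if_neg h, if_neg (fun h' => h ((hg _).2 h'))]
    · intro k _ hk
      rw [if_neg]
      intro h
      apply hk
      rw [h]
    · intro h
      exact absurd (mem_univ _) h
  rw [sum_congr rfl (fun e _ => h1 e), sum_comm]
  apply sum_congr rfl
  intro k _
  rw [Finset.sum_coe_sort (EN n) (fun e => if e = (g k, k) then POI_x n J e else 0), sum_ite_eq']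
  by_cases h : (g k, k) ∈ EN n
  · rw [if_pos h]
  · rw [if_neg h, POI_x0 n J _ h]

theorem POI_dv (n : ℕ) (J : ↥(EN n) → ℤ) (a b : ℤ) (hv : (![a, b] : Vx 2) ∈ bx 2 n) :
    dv (TB n) J ⟨![a, b], hv⟩ =
      (POI_x n J (![a - 1, b], 0) + POI_x n J (![a, b - 1], 1) + POI_x n J (![a - 1, b - 1], 2)) -
        (POI_x n J (![a, b], 0) + POI_x n J (![a, b], 1) + POI_x n J (![a, b], 2)) := by
  have h1 : dv (TB n) J ⟨![a, b], hv⟩ = (∑ e : ↥(EN n), (if TT.r e.1 = ![a, b] then J e else 0)) -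
      ∑ e : ↥(EN n), (if TT.s e.1 = ![a, b] then J e else 0) := by
    rw [dv, sum_sub_distrib]
    congr 1
    · apply sum_congr rfl
      intro e _
      congr 1
      exact propext ⟨fun h => congrArg Subtype.val h, fun h => Subtype.ext h⟩
    · apply sum_congr rfl
      intro e _
      congr 1
      exact propext ⟨fun h => congrArg Subtype.val h, fun h => Subtype.ext h⟩
  rw [h1, POI_sum n J TT.r ![a, b] ![![a - 1, b], ![a, b - 1], ![a - 1, b - 1]],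
    POI_sum n J TT.s ![a, b] ![![a, b], ![a, b], ![a, b]]]
  · simp [Fin.sum_univ_three]
  · rintro ⟨x, k⟩
    obtain ⟨c, d, rfl⟩ := POI_eta x
    change (![c, d] : Vx 2) = ![a, b] ↔ _
    fin_cases k <;> simp
  · rintro ⟨x, k⟩
    obtain ⟨c, d, rfl⟩ := POI_eta x
    fin_cases k
    · change TT.r (![c, d], 0) = ![a, b] ↔ _
      rw [POI_r0]
      simp
      omega
    · change TT.r (![c, d], 1) = ![a, b] ↔ _
      rw [POI_r1]
      simp
      omega
    · change TT.r (![c, d], 2) = ![a, b] ↔ _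
      rw [POI_r2]
      simp
      omega

theorem POI_dh_off (n : ℕ) (h : Vx 2 × Bool → ℤ) (h0 : ∀ v, v ∉ FN n → h v = 0) (e : Vx 2 × Fin 3)
    (he : e ∉ EN n) : dh h e = 0 := by
  rw [(FN_Bd n).mem, not_or] at he
  rw [dh, h0 _ he.1, h0 _ he.2, sub_zero]

theorem POI_ex0 (n : ℕ) (h : ↥(FN n) → ℤ) (v : Vx 2 × Bool) (hv : v ∉ FN n) : ex h v = 0 :=
  dif_neg hv

theorem POI_exc (n : ℕ) (h : ↥(FN n) → ℤ) (v : ↥(FN n)) : ex h v.1 = h v := by
  rw [ex, dif_pos v.2]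

theorem POI_div (n : ℕ) (h : ↥(FN n) → ℤ) (v : ↥(bx 2 n)) :
    dv (TB n) (fun e => dh (ex h) e.1) v = 0 := by
  obtain ⟨x, hx⟩ := v
  obtain ⟨a, b, rfl⟩ := POI_eta x
  have h1 : ∀ e, POI_x n (fun e : ↥(EN n) => dh (ex h) e.1) e = dh (ex h) e := by
    intro e
    by_cases he : e ∈ EN n
    · rw [POI_x, dif_pos he]
    · rw [POI_x0 n _ e he, POI_dh_off n (ex h) (POI_ex0 n h) e he]
  rw [POI_dv, h1, h1, h1, h1, h1, h1]
  rw [POI_dh0, POI_dh0, POI_dh1, POI_dh1, POI_dh2, POI_dh2]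
  ring

/-- partial row sums. -/
noncomputable def POI_S (n : ℕ) (J : ↥(EN n) → ℤ) (k : Fin 3) (a b : ℤ) : ℤ :=
  ∑ x ∈ Icc (-(n : ℤ)) a, POI_x n J (![x, b], k)

theorem POI_S_lt (n : ℕ) (J : ↥(EN n) → ℤ) (k : Fin 3) (a b : ℤ) (ha : a < -(n : ℤ)) :
    POI_S n J k a b = 0 := by
  rw [POI_S, Finset.Icc_eq_empty (by omega), sum_empty]

theorem POI_lt (n : ℕ) (J : ↥(EN n) → ℤ) (k : Fin 3) (a b : ℤ)
    (h : a < -(n : ℤ) ∨ b < -(n : ℤ)) : POI_x n J (![a, b], k) = 0 := by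
  apply POI_x0
  fin_cases k
  · change ¬ (![a, b], (0 : Fin 3)) ∈ EN n
    rw [POI_en0]
    omega
  · change ¬ (![a, b], (1 : Fin 3)) ∈ EN n
    rw [POI_en1]
    omega
  · change ¬ (![a, b], (2 : Fin 3)) ∈ EN n
    rw [POI_en2]
    omega

theorem POI_S_rec (n : ℕ) (J : ↥(EN n) → ℤ) (k : Fin 3) (a b : ℤ) :
    POI_S n J k a b = POI_S n J k (a - 1) b + POI_x n J (![a, b], k) := by
  by_cases ha : a < -(n : ℤ)
  · rw [POI_S_lt n J k a b ha, POI_S_lt n J k (a - 1) b (by omega), POI_lt n J k a b (Or.inl ha),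
      add_zero]
  · have h1 : Icc (-(n : ℤ)) a = insert a (Icc (-(n : ℤ)) (a - 1)) := by
      ext x
      simp only [mem_Icc, mem_insert]
      omega
    rw [POI_S, h1, sum_insert (by simp), POI_S, add_comm]

theorem POI_S_b (n : ℕ) (J : ↥(EN n) → ℤ) (k : Fin 3) (hk : k ≠ 0) (a b : ℤ)
    (h : b < -(n : ℤ) ∨ (n : ℤ) ≤ b) : POI_S n J k a b = 0 := by
  rw [POI_S]
  apply sum_eq_zero
  intro x _
  apply POI_x0
  fin_cases k
  · exact absurd rfl hk
  · change ¬ (![x, b], (1 : Fin 3)) ∈ EN n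
    rw [POI_en1]
    omega
  · change ¬ (![x, b], (2 : Fin 3)) ∈ EN n
    rw [POI_en2]
    omega

theorem POI_D (n : ℕ) (J : ↥(EN n) → ℤ) (hJ : ∀ v, dv (TB n) J v = 0) (a b : ℤ) :
    (POI_x n J (![a - 1, b], 0) + POI_x n J (![a, b - 1], 1) + POI_x n J (![a - 1, b - 1], 2)) -
        (POI_x n J (![a, b], 0) + POI_x n J (![a, b], 1) + POI_x n J (![a, b], 2)) = 0 := by
  by_cases hv : (![a, b] : Vx 2) ∈ bx 2 n
  · rw [← POI_dv n J a b hv]
    exact hJ _
  · rw [POI_bx] at hv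
    rw [POI_x0 n J (![a - 1, b], 0) (by rw [POI_en0]; omega),
      POI_x0 n J (![a, b - 1], 1) (by rw [POI_en1]; omega),
      POI_x0 n J (![a - 1, b - 1], 2) (by rw [POI_en2]; omega),
      POI_x0 n J (![a, b], 0) (by rw [POI_en0]; omega),
      POI_x0 n J (![a, b], 1) (by rw [POI_en1]; omega),
      POI_x0 n J (![a, b], 2) (by rw [POI_en2]; omega)]
    rfl

theorem POI_R (n : ℕ) (J : ↥(EN n) → ℤ) (hJ : ∀ v, dv (TB n) J v = 0) (a b : ℤ) :
    POI_x n J (![a, b], 0) + POI_S n J 1 a b + POI_S n J 2 a b =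
      POI_S n J 1 a (b - 1) + POI_S n J 2 (a - 1) (b - 1) := by
  by_cases ha : a < -(n : ℤ)
  · rw [POI_S_lt n J 1 a b ha, POI_S_lt n J 2 a b ha, POI_S_lt n J 1 a (b - 1) ha,
      POI_S_lt n J 2 (a - 1) (b - 1) (by omega), POI_lt n J 0 a b (Or.inl ha)]
    rfl
  · obtain ⟨m, rfl⟩ : ∃ m : ℕ, a = -(n : ℤ) - 1 + m := ⟨(a + n + 1).toNat, by omega⟩
    clear ha
    induction m with
    | zero =>
      have ha : -(n : ℤ) - 1 + (0 : ℕ) < -(n : ℤ) := by push_cast; omega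
      rw [POI_S_lt n J 1 _ b ha, POI_S_lt n J 2 _ b ha, POI_S_lt n J 1 _ (b - 1) ha,
        POI_S_lt n J 2 _ (b - 1) (by omega), POI_lt n J 0 _ b (Or.inl ha)]
      rfl
    | succ m ih =>
      have hD := POI_D n J hJ (-(n : ℤ) - 1 + (m + 1 : ℕ)) b
      have e1 : -(n : ℤ) - 1 + (m + 1 : ℕ) - 1 = -(n : ℤ) - 1 + m := by push_cast; ring
      have h1 := POI_S_rec n J 1 (-(n : ℤ) - 1 + (m + 1 : ℕ)) b
      have h2 := POI_S_rec n J 2 (-(n : ℤ) - 1 + (m + 1 : ℕ)) b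
      have h3 := POI_S_rec n J 1 (-(n : ℤ) - 1 + (m + 1 : ℕ)) (b - 1)
      have h4 := POI_S_rec n J 2 (-(n : ℤ) - 1 + m) (b - 1)
      rw [e1] at hD h1 h2 h3
      rw [e1]
      linarith

theorem POI_T (n : ℕ) (J : ↥(EN n) → ℤ) (hJ : ∀ v, dv (TB n) J v = 0) (a b : ℤ)
    (ha : (n : ℤ) ≤ a) : POI_S n J 1 a b + POI_S n J 2 a b = 0 := by
  by_cases hb : b < -(n : ℤ)
  · rw [POI_S_b n J 1 (by decide) a b (Or.inl hb), POI_S_b n J 2 (by decide) a b (Or.inl hb)]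
    rfl
  · obtain ⟨m, rfl⟩ : ∃ m : ℕ, b = -(n : ℤ) - 1 + m := ⟨(b + n + 1).toNat, by omega⟩
    clear hb
    induction m with
    | zero =>
      have hb : -(n : ℤ) - 1 + (0 : ℕ) < -(n : ℤ) := by push_cast; omega
      rw [POI_S_b n J 1 (by decide) a _ (Or.inl hb), POI_S_b n J 2 (by decide) a _ (Or.inl hb)]
      rfl
    | succ m ih =>
      have hR := POI_R n J hJ a (-(n : ℤ) - 1 + (m + 1 : ℕ))
      have e1 : -(n : ℤ) - 1 + (m + 1 : ℕ) - 1 = -(n : ℤ) - 1 + m := by push_cast; ring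
      have h4 := POI_S_rec n J 2 a (-(n : ℤ) - 1 + m)
      have h5 : POI_x n J (![a, -(n : ℤ) - 1 + m], 2) = 0 :=
        POI_x0 n J _ (by rw [POI_en2]; omega)
      have h6 : POI_x n J (![a, -(n : ℤ) - 1 + (m + 1 : ℕ)], 0) = 0 :=
        POI_x0 n J _ (by rw [POI_en0]; omega)
      rw [e1] at hR
      linarith

/-- the heights of a flow. -/
noncomputable def POI_h (n : ℕ) (J : ↥(EN n) → ℤ) (v : Vx 2 × Bool) : ℤ :=
  -POI_S n J 1 (v.1 0) (v.1 1) -
    (if v.2 = true then POI_S n J 2 (v.1 0 - 1) (v.1 1) else POI_S n J 2 (v.1 0) (v.1 1))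

theorem POI_hf (n : ℕ) (J : ↥(EN n) → ℤ) (a b : ℤ) :
    POI_h n J (![a, b], false) = -POI_S n J 1 a b - POI_S n J 2 a b := by
  simp [POI_h]

theorem POI_ht (n : ℕ) (J : ↥(EN n) → ℤ) (a b : ℤ) :
    POI_h n J (![a, b], true) = -POI_S n J 1 a b - POI_S n J 2 (a - 1) b := by
  simp [POI_h]

theorem POI_h0 (n : ℕ) (J : ↥(EN n) → ℤ) (hJ : ∀ v, dv (TB n) J v = 0) (v : Vx 2 × Bool)
    (hv : v ∉ FN n) : POI_h n J v = 0 := by
  obtain ⟨x, k⟩ := v
  obtain ⟨a, b, rfl⟩ := POI_eta x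
  rw [POI_fn] at hv
  by_cases ha : a < -(n : ℤ)
  · cases k
    · rw [POI_hf, POI_S_lt n J 1 a b ha, POI_S_lt n J 2 a b ha]
      rfl
    · rw [POI_ht, POI_S_lt n J 1 a b ha, POI_S_lt n J 2 (a - 1) b (by omega)]
      rfl
  · by_cases hb : b < -(n : ℤ) ∨ (n : ℤ) ≤ b
    · cases k
      · rw [POI_hf, POI_S_b n J 1 (by decide) a b hb, POI_S_b n J 2 (by decide) a b hb]
        rfl
      · rw [POI_ht, POI_S_b n J 1 (by decide) a b hb, POI_S_b n J 2 (by decide) (a - 1) b hb]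
        rfl
    · have ha' : (n : ℤ) ≤ a := by omega
      have h1 := POI_T n J hJ a b ha'
      cases k
      · rw [POI_hf]
        linarith
      · rw [POI_ht]
        have h2 := POI_S_rec n J 2 a b
        have h3 : POI_x n J (![a, b], 2) = 0 := POI_x0 n J _ (by rw [POI_en2]; omega)
        linarith

theorem POI_dhh (n : ℕ) (J : ↥(EN n) → ℤ) (hJ : ∀ v, dv (TB n) J v = 0) (e : Vx 2 × Fin 3) :
    dh (POI_h n J) e = POI_x n J e := by
  obtain ⟨x, k⟩ := e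
  obtain ⟨a, b, rfl⟩ := POI_eta x
  fin_cases k
  · change dh (POI_h n J) (![a, b], 0) = POI_x n J (![a, b], 0)
    have h1 := POI_R n J hJ a b
    rw [POI_dh0, POI_hf, POI_ht]
    linarith
  · change dh (POI_h n J) (![a, b], 1) = POI_x n J (![a, b], 1)
    have h1 := POI_S_rec n J 1 a b
    rw [POI_dh1, POI_hf, POI_ht]
    linarith
  · change dh (POI_h n J) (![a, b], 2) = POI_x n J (![a, b], 2)
    have h1 := POI_S_rec n J 2 a b
    rw [POI_dh2, POI_hf, POI_ht]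
    linarith

/-- integer flows without divergence in the triangular box are differences of heights. -/
theorem poi (n : ℕ) :
    ∃ φ : (↥(FN n) → ℤ) ≃ {J : ↥(EN n) → ℤ // ∀ v, dv (TB n) J v = 0},
      ∀ h e, (φ h).1 e = dh (ex h) e.1 := by
  let f : (↥(FN n) → ℤ) → {J : ↥(EN n) → ℤ // ∀ v, dv (TB n) J v = 0} := fun h =>
    ⟨fun e => dh (ex h) e.1, fun v => POI_div n h v⟩
  have hf : Function.Bijective f := by
    constructor
    · intro h h' hh
      have h1 : ∀ e, dh (ex h) e = dh (ex h') e := by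
        intro e
        by_cases he : e ∈ EN n
        · exact congrFun (congrArg Subtype.val hh) ⟨e, he⟩
        · rw [POI_dh_off n (ex h) (POI_ex0 n h) e he, POI_dh_off n (ex h') (POI_ex0 n h') e he]
      funext v
      rw [← POI_exc n h v, ← POI_exc n h' v, left_path n (ex h) (POI_ex0 n h) v.1 v.2,
        left_path n (ex h') (POI_ex0 n h') v.1 v.2]
      simp only [h1]
    · rintro ⟨J, hJ⟩
      refine ⟨fun v => POI_h n J v.1, Subtype.ext ?_⟩
      funext e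
      have h1 : ex (fun v : ↥(FN n) => POI_h n J v.1) = POI_h n J := by
        funext v
        by_cases hv : v ∈ FN n
        · rw [ex, dif_pos hv]
        · rw [POI_ex0 n _ v hv, POI_h0 n J hJ v hv]
      change dh (ex (fun v : ↥(FN n) => POI_h n J v.1)) e.1 = J e
      rw [h1, POI_dhh n J hJ, POI_xc]
  exact ⟨Equiv.ofBijective f hf, fun h e => rfl⟩

end H82.BX
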