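import Pool.Agent.H82.BX.NU1
import Pool.Agent.H82.BX.BE2
import Pool.Agent.H82.BX.POI
import Pool.Agent.H82.BX.PG0

/-!
# NU4: mixing of the limit law of `ω⁻`

`X` depends on `F1`, `Y` on `F2`; the translated event `{ω | shP (k e₀) ω ∈ Y}` depends on `F2 + (k, 0)`.  For `k` large all ends of the edges of `F1` have first coordinate smaller than all ends of the edges of `F2 + (k,0)` (so the two edge sets are disjoint and their vertices too):
`pm_mix` with `B1 = F1`, `B2 = F2 + (k,0)`; the error is `∑_{i ∈ N1, j ∈ N2} En (h_i h_j) ≤ |N1| |N2| C' e^{-a (k - k1)}` (second part of `mom`; vertices outside `FN n` have height `0`), uniformly in `n`; let `n → ∞` (`nu_pm`) for fixed `k`.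
-/

set_option autoImplicit false

open Finset MeasureTheory Filter Topology

namespace H82.BX

open H82.IC XYB

theorem nu4_stt_meas : Measurable (stt 1 : (Vx 2 × Fin 3 → Fin 3) → Vx 2 × Fin 3 → Bool) := by
  rw [measurable_pi_iff]
  intro e
  exact (measurable_of_finite (fun x : Fin 3 => decide (x = 1))).comp (measurable_pi_apply e)

theorem nu4_map (ν : Measure (Vx 2 × Fin 3 → Fin 3)) (X : Set (Vx 2 × Fin 3 → Bool)) (hX : Lc X) :
    (ν.map (stt 1)).real X = ν.real {η | stt 1 η ∈ X} := by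
  rw [Measure.real, Measure.map_apply nu4_stt_meas (lc_meas hX)]
  rfl

theorem nu4_ind_mono (X : Set (Vx 2 × Fin 3 → Bool)) (hX : Inc1 X) :
    Monotone (fun o : Vx 2 × Fin 3 → Bool => ind (o ∈ X)) := by
  intro o o' h
  unfold ind
  by_cases h1 : o ∈ X
  · have h2 : o' ∈ X := hX o o' (fun e he => by
      have := h e
      rw [he] at this
      exact Bool.eq_true_of_true_le this) h1
    simp only [h1, h2, if_true, le_refl]
  · simp only [h1, if_false]
    split_ifs <;> norm_num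

theorem nu4_ind_bd (X : Set (Vx 2 × Fin 3 → Bool)) (o : Vx 2 × Fin 3 → Bool) :
    0 ≤ ind (o ∈ X) ∧ ind (o ∈ X) ≤ 1 := by
  unfold ind
  split_ifs <;> norm_num

theorem nu4_bdd (F : Finset (Vx 2 × Bool)) : ∃ M : ℕ, ∀ v ∈ F, |v.1 0| ≤ M := by
  refine ⟨F.sup (fun v => (v.1 0).natAbs), fun v hv => ?_⟩
  have : (v.1 0).natAbs ≤ F.sup (fun v => (v.1 0).natAbs) :=
    Finset.le_sup (f := fun v : Vx 2 × Bool => (v.1 0).natAbs) hv
  rw [Int.abs_eq_natAbs]
  exact_mod_cast this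

theorem nu_mix (κ C' a : ℝ) (hκ : 0 < κ) (ha : 0 < a) (h1 : wk κ 0 ≤ 2 * wk κ 1) (hC : 0 < C')
    (hM : ∀ n : ℕ, ∀ i ∈ FN n, ∀ j ∈ FN n, i.1 0 < j.1 0 →
      |En (wk κ) n (fun h => (h i : ℝ) * (h j : ℝ))| ≤ C' * Real.exp (-a * (j.1 0 - i.1 0 : ℤ)))
    (ν : Measure (Vx 2 × Fin 3 → Fin 3)) [IsProbabilityMeasure ν] (hν : NuL κ ν) (hT : TIP ν)
    (X Y : Set (Vx 2 × Fin 3 → Bool)) (hX : Lc X) (hY : Lc Y) (hX' : Inc1 X) (hY' : Inc1 Y)
    (ε : ℝ) (hε : 0 < ε) : ∃ k0 : ℕ, ∀ k : ℕ, k0 ≤ k →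
      (ν.map (stt 1)).real (X ∩ {ω | shP (Pi.single 0 (k : ℤ)) ω ∈ Y}) ≤
        (ν.map (stt 1)).real X * (ν.map (stt 1)).real Y + ε := by
  have hX0 := hX
  have hY0 := hY
  obtain ⟨F1, hF1⟩ := hX
  obtain ⟨F2, hF2⟩ := hY
  set N1 : Finset (Vx 2 × Bool) := F1.image HH.gr.s ∪ F1.image HH.gr.r with hN1
  set N2 : Finset (Vx 2 × Bool) := F2.image HH.gr.s ∪ F2.image HH.gr.r with hN2
  obtain ⟨M, hMM⟩ := nu4_bdd (N1 ∪ N2)
  -- choice of `k0`
  have hlim : Tendsto (fun k : ℕ => (N1.card * N2.card : ℝ) * (C' * Real.exp (-a * ((k : ℝ) - 2 * M))))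
      atTop (𝓝 ((N1.card * N2.card : ℝ) * (C' * 0))) := by
    refine Tendsto.const_mul _ (Tendsto.const_mul _ ?_)
    refine Real.tendsto_exp_atBot.comp ?_
    have : Tendsto (fun k : ℕ => (k : ℝ) - 2 * M) atTop atTop :=
      tendsto_atTop_add_const_right _ _ tendsto_natCast_atTop_atTop
    exact this.const_mul_atTop_of_neg (by linarith)
  rw [mul_zero, mul_zero] at hlim
  have hev := (hlim.eventually (gt_mem_nhds hε)).and (eventually_gt_atTop (2 * M))
  obtain ⟨k0, hk0⟩ := eventually_atTop.1 hev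
  refine ⟨k0, fun k hk => ?_⟩
  obtain ⟨hk1, hk2⟩ := hk0 k hk
  set sh : Vx 2 := Pi.single 0 (k : ℤ) with hsh
  have hsh0 : sh 0 = k := by simp [hsh]
  set Y' : Set (Vx 2 × Fin 3 → Bool) := {ω | shP sh ω ∈ Y} with hY'def
  set B2 : Finset (Vx 2 × Fin 3) := F2.image (fun e => (e.1 + sh, e.2)) with hB2
  set N2' : Finset (Vx 2 × Bool) := N2.image (fun v => (v.1 + sh, v.2)) with hN2'
  have hF2' : ∀ ω ω' : Vx 2 × Fin 3 → Bool, (∀ e ∈ B2, ω e = ω' e) → (ω ∈ Y' ↔ ω' ∈ Y') := by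
    intro ω ω' h
    exact hF2 (shP sh ω) (shP sh ω') fun e he => h (e.1 + sh, e.2) (Finset.mem_image_of_mem _ he)
  have hYlc : Lc Y' := ⟨B2, hF2'⟩
  have hYinc : Inc1 Y' := fun ω ω' h h' => hY' (shP sh ω) (shP sh ω') (fun e he => h _ he) h'
  -- the ends
  have e1 : ∀ e ∈ F1, HH.gr.s e ∈ N1 ∧ HH.gr.r e ∈ N1 := fun e he =>
    ⟨mem_union_left _ (mem_image_of_mem _ he), mem_union_right _ (mem_image_of_mem _ he)⟩
  have hss : ∀ e : Vx 2 × Fin 3, HH.gr.s (e.1 + sh, e.2) = ((HH.gr.s e).1 + sh, (HH.gr.s e).2) := by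
    intro e
    unfold PG.gr
    simp only [Prod.mk.injEq, and_true]
    abel
  have hrr : ∀ e : Vx 2 × Fin 3, HH.gr.r (e.1 + sh, e.2) = ((HH.gr.r e).1 + sh, (HH.gr.r e).2) := by
    intro e
    unfold PG.gr
    simp only [Prod.mk.injEq, and_true]
    abel
  have e2 : ∀ e ∈ B2, HH.gr.s e ∈ N2' ∧ HH.gr.r e ∈ N2' := by
    intro e he
    obtain ⟨e', he', rfl⟩ := mem_image.1 he
    rw [hss, hrr]
    exact ⟨mem_image_of_mem (fun v : Vx 2 × Bool => (v.1 + sh, v.2))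
        (mem_union_left _ (mem_image_of_mem _ he')),
      mem_image_of_mem (fun v : Vx 2 × Bool => (v.1 + sh, v.2))
        (mem_union_right _ (mem_image_of_mem _ he'))⟩
  have b1 : ∀ v ∈ N1, v.1 0 ≤ M := fun v hv => (abs_le.1 (hMM v (mem_union_left _ hv))).2
  have b2 : ∀ v ∈ N2', (k : ℤ) - M ≤ v.1 0 := by
    intro v hv
    obtain ⟨v', hv', rfl⟩ := mem_image.1 hv
    have := (abs_le.1 (hMM v' (mem_union_right _ hv'))).1
    simp only [Pi.add_apply, hsh0]
    omega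
  have hdis : Disjoint F1 B2 := by
    rw [Finset.disjoint_left]
    intro e h h'
    have i1 := b1 _ (e1 e h).1
    have i2 := b2 _ (e2 e h').1
    omega
  -- the bound in the boxes
  have key : ∀ n : ℕ, PM HH.gr (FN n) (EN n) (wk κ) (F1 ∪ B2) (fun o => ind (o ∈ X ∩ Y')) ≤
      PM HH.gr (FN n) (EN n) (wk κ) F1 (fun o => ind (o ∈ X)) *
        PM HH.gr (FN n) (EN n) (wk κ) B2 (fun o => ind (o ∈ Y')) + ε := by
    intro n
    have hm := pm_mix HH.gr (FN n) (EN n) (FN_Bd n) (wk κ) (wk_ok κ hκ) F1 B2 hdis N1 N2'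
      (fun e he => ⟨fun _ => (e1 e he).1, fun _ => (e1 e he).2⟩)
      (fun e he => ⟨fun _ => (e2 e he).1, fun _ => (e2 e he).2⟩)
      (fun o => ind (o ∈ X)) (fun o => ind (o ∈ Y')) (nu4_ind_mono X hX') (nu4_ind_mono Y' hYinc)
      (fun o o' h => by simp only [hF1 o o' h]) (fun o o' h => by simp only [hF2' o o' h])
      (nu4_ind_bd X) (nu4_ind_bd Y')
    have hprod : (fun o : Vx 2 × Fin 3 → Bool => ind (o ∈ X) * ind (o ∈ Y')) =
        fun o => ind (o ∈ X ∩ Y') := by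
      funext o
      unfold ind
      by_cases h1 : o ∈ X <;> by_cases h2 : o ∈ Y' <;> simp [h1, h2]
    rw [hprod] at hm
    refine hm.trans (add_le_add_right ?_ _)
    have hterm : ∀ i ∈ N1, ∀ j ∈ N2',
        |Eh HH.gr (FN n) (EN n) (wk κ) (fun h => (h i : ℝ) * (h j : ℝ))| ≤
          C' * Real.exp (-a * ((k : ℝ) - 2 * M)) := by
      intro i hi j hj
      have hz : ∀ v : Vx 2 × Bool, v ∉ FN n → ∀ h : ↥(FN n) → ℤ, ex h v = 0 := by
        intro v hv h
        unfold ex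
        rw [dif_neg hv]
      have hpos : 0 ≤ C' * Real.exp (-a * ((k : ℝ) - 2 * M)) := by positivity
      have hzero : (∀ h : ↥(FN n) → ℤ, ((ex h i : ℤ) : ℝ) * ((ex h j : ℤ) : ℝ) = 0) →
          |Eh HH.gr (FN n) (EN n) (wk κ) (fun h => (h i : ℝ) * (h j : ℝ))| ≤
          C' * Real.exp (-a * ((k : ℝ) - 2 * M)) := by
        intro h0
        have := Eh_congr HH.gr (FN n) (EN n) (wk κ) (fun h => (h i : ℝ) * (h j : ℝ)) (fun _ => 0)
          (fun h => h0 h)
        rw [this, Eh_one HH.gr (FN n) (EN n) (FN_Bd n) (wk κ) (wk_ok κ hκ), abs_zero]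
        exact hpos
      by_cases hi' : i ∈ FN n
      · by_cases hj' : j ∈ FN n
        · have i1 := b1 i hi
          have i2 := b2 j hj
          have hlt : i.1 0 < j.1 0 := by omega
          refine (hM n i hi' j hj' hlt).trans ?_
          refine mul_le_mul_of_nonneg_left (Real.exp_le_exp.2 ?_) hC.le
          have : ((k : ℝ) - 2 * M) ≤ ((j.1 0 - i.1 0 : ℤ) : ℝ) := by
            have : (k : ℤ) - 2 * M ≤ j.1 0 - i.1 0 := by omega
            exact_mod_cast this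
          nlinarith
        · exact hzero fun h => by rw [hz j hj' h]; simp
      · exact hzero fun h => by rw [hz i hi' h]; simp
    have hcard : ∑ i ∈ N1, ∑ j ∈ N2',
        |Eh HH.gr (FN n) (EN n) (wk κ) (fun h => (h i : ℝ) * (h j : ℝ))| ≤
        (N1.card * N2'.card : ℝ) * (C' * Real.exp (-a * ((k : ℝ) - 2 * M))) := by
      calc _ ≤ ∑ i ∈ N1, ∑ j ∈ N2', C' * Real.exp (-a * ((k : ℝ) - 2 * M)) :=
            sum_le_sum fun i hi => sum_le_sum fun j hj => hterm i hi j hj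
        _ = _ := by
          simp only [sum_const, nsmul_eq_mul]
          ring
    refine hcard.trans (le_trans ?_ hk1.le)
    refine mul_le_mul_of_nonneg_right ?_ (by positivity)
    refine mul_le_mul_of_nonneg_left ?_ (Nat.cast_nonneg _)
    exact_mod_cast Finset.card_image_le
  -- the limits
  have t1 := nu_pm κ hκ h1 ν hν (F1 ∪ B2) (X ∩ Y') (fun ω ω' h => by
    rw [Set.mem_inter_iff, Set.mem_inter_iff, hF1 ω ω' (fun e he => h e (mem_union_left _ he)),
      hF2' ω ω' (fun e he => h e (mem_union_right _ he))])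
  have t2 := nu_pm κ hκ h1 ν hν F1 X hF1
  have t3 := nu_pm κ hκ h1 ν hν B2 Y' hF2'
  have hle := le_of_tendsto_of_tendsto' t1 ((t2.mul t3).add_const ε) key
  have htr : ν.real {η | stt 1 η ∈ Y'} = ν.real {η | stt 1 η ∈ Y} := by
    have hmy : MeasurableSet {η : Vx 2 × Fin 3 → Fin 3 | stt 1 η ∈ Y} :=
      nu4_stt_meas (lc_meas hY0)
    exact hT sh _ hmy
  rw [htr] at hle
  rw [nu4_map ν _ (lc_inter hX0 hYlc), nu4_map ν X hX0, nu4_map ν Y hY0]
  exact hle

end H82.BX
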