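import Pool.Agent.H82.BX.HS3
import Pool.Agent.H82.IC.CN

/-!
# HS4: connection to the outside (FK representation of the signs at level 1/2)

`g = h - 1/2` (half integers, `-1/2` outside `F`).  For a height function and `ω ⊆ EF` consider the joint weight
`Q(h, ω) = ∏_{e ∈ ω} (w(|g_a| - |g_b|) - w(|g_a| + |g_b|)) 1[g_a g_b > 0] ∏_{e ∈ EF \ ω} w(|g_a| + |g_b|)` (arguments are integers).  Summing over `ω` gives `WH` (same sign: `w(|g_a|-|g_b|) = w(g_a - g_b)`;
opposite signs: `w(|g_a|+|g_b|) = w(g_a - g_b)`).  Given `h`, `ω` is a product measure with probabilities `1 - w(|g_a|+|g_b|)/w(g_a-g_b)` on the edges with `g_a g_b > 0`, which for `g_a, g_b < 0` (`h_a, h_b ≤ 0`) is `qm w h_a h_b`.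
Let `C` be the `ω`-cluster of `v` (in `EF`).  If `C ⊆ F`, the map `g ↦ -g` on `C` (`h ↦ 1 - h` on `C`, `ω` fixed) is an involution preserving `Q` and `C`: so `∑_{h,ω} Q g_v 1[C ⊆ F] = 0`.
By symmetry (`Eh_neg`) `Eh h_v = 0`, so `-1/2 = E g_v = E[g_v ; C ⊄ F]`.  On `{C ⊄ F}` all `g` on the path from `v` to the outside have the sign of `-1/2`, so `g_v < 0` and the path consists of `ω⁻` edges:
`1/2 = E[|g_v| ; C ⊄ F] ≤ E[|g_v| 1_A]`, `A = {v ↔ outside in ω⁻}`.  For `t = E g_v² = Eh h_v² + 1/4`: `|g_v| 1_A ≤ g_v²/(4t) + t 1_A`, so `1/2 ≤ 1/4 + t P(A)`, `P(A) ≥ 1/(4t)`.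
-/

set_option autoImplicit false

open Finset MeasureTheory

namespace H82.BX

open H82.IC

variable {V E : Type} [DecidableEq V] [DecidableEq E]

/-- weight of a closed edge. -/
noncomputable def HS4_B (w : ℤ → ℝ) (a b : ℤ) : ℝ :=
  if (a ≤ 0 ↔ b ≤ 0) then w (a + b - 1) else w (a - b)

/-- weight of an open edge. -/
noncomputable def HS4_A (w : ℤ → ℝ) (a b : ℤ) : ℝ :=
  if (a ≤ 0 ↔ b ≤ 0) then w (a - b) - w (a + b - 1) else 0

theorem HS4_AB (w : ℤ → ℝ) (a b : ℤ) : HS4_A w a b + HS4_B w a b = w (a - b) := by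
  unfold HS4_A HS4_B
  split_ifs <;> ring

theorem HS4_symm' (w : ℤ → ℝ) (hw : WOk w) (x y : ℤ) (h : x = -y) : w x = w y := by
  rw [h, hw.symm]

theorem HS4_Aflip (w : ℤ → ℝ) (hw : WOk w) (a b : ℤ) : HS4_A w (1 - a) (1 - b) = HS4_A w a b := by
  unfold HS4_A
  by_cases h : (a ≤ 0 ↔ b ≤ 0)
  · have h' : (1 - a ≤ 0 ↔ 1 - b ≤ 0) := by omega
    rw [if_pos h, if_pos h', HS4_symm' w hw (1 - a - (1 - b)) (a - b) (by ring),
      HS4_symm' w hw (1 - a + (1 - b) - 1) (a + b - 1) (by ring)]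
  · have h' : ¬ (1 - a ≤ 0 ↔ 1 - b ≤ 0) := by omega
    rw [if_neg h, if_neg h']

theorem HS4_Bflip1 (w : ℤ → ℝ) (hw : WOk w) (a b : ℤ) : HS4_B w (1 - a) b = HS4_B w a b := by
  unfold HS4_B
  by_cases h : (a ≤ 0 ↔ b ≤ 0)
  · have h' : ¬ (1 - a ≤ 0 ↔ b ≤ 0) := by omega
    rw [if_pos h, if_neg h', HS4_symm' w hw (1 - a - b) (a + b - 1) (by ring)]
  · have h' : (1 - a ≤ 0 ↔ b ≤ 0) := by omega
    rw [if_neg h, if_pos h', HS4_symm' w hw (1 - a + b - 1) (a - b) (by ring)]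

theorem HS4_Bflip2 (w : ℤ → ℝ) (hw : WOk w) (a b : ℤ) : HS4_B w a (1 - b) = HS4_B w a b := by
  unfold HS4_B
  by_cases h : (a ≤ 0 ↔ b ≤ 0)
  · have h' : ¬ (a ≤ 0 ↔ 1 - b ≤ 0) := by omega
    rw [if_pos h, if_neg h']
    congr 1; ring
  · have h' : (a ≤ 0 ↔ 1 - b ≤ 0) := by omega
    rw [if_neg h, if_pos h']
    congr 1; ring

theorem HS4_Bpos (w : ℤ → ℝ) (hw : WOk w) (a b : ℤ) : 0 < HS4_B w a b := by
  unfold HS4_B
  split_ifs <;> exact hw.pos _

theorem HS4_Aneg (w : ℤ → ℝ) (hw : WOk w) (a b : ℤ) (ha : a ≤ 0) (hb : b ≤ 0) :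
    HS4_A w a b = w (a - b) * qm w a b := by
  unfold HS4_A qm
  have h : (a ≤ 0 ↔ b ≤ 0) := by omega
  rw [if_pos h, if_pos ⟨ha, hb⟩]
  have := (hw.pos (a - b)).ne'
  field_simp

theorem HS4_Apos (w : ℤ → ℝ) (hw : WOk w) (a b : ℤ) : 0 ≤ HS4_A w a b := by
  by_cases h : (a ≤ 0 ↔ b ≤ 0)
  · by_cases ha : a ≤ 0
    · rw [HS4_Aneg w hw a b ha (h.1 ha)]
      exact mul_nonneg (hw.pos _).le (qm_bd w hw a b).1
    · rw [← HS4_Aflip w hw, HS4_Aneg w hw (1 - a) (1 - b) (by omega) (by omega)]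
      exact mul_nonneg (hw.pos _).le (qm_bd w hw _ _).1
  · unfold HS4_A
    rw [if_neg h]

/-! ### products of two-point weights -/

theorem HS4_prod_sum {I : Type} [Fintype I] [DecidableEq I] (c : I → Bool → ℝ) :
    ∑ o : I → Bool, (∏ i, c i (o i)) = ∏ i, (c i true + c i false) := by
  have h := Finset.prod_univ_sum (fun _ : I => (Finset.univ : Finset Bool)) c
  rw [Fintype.piFinset_univ] at h
  rw [← h]
  refine Finset.prod_congr rfl (fun i _ => ?_)
  rw [Fintype.sum_bool]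

theorem HS4_prod_loc1 {I : Type} [Fintype I] [DecidableEq I] (N : I → Prop) [DecidablePred N]
    (f : (I → Bool) → ℝ) (hf : ∀ o o', (∀ i, N i → o i = o' i) → f o = f o') (c : I → Bool → ℝ) :
    ∑ o : I → Bool, (∏ i, c i (o i)) * f o
      = ∑ o1 : {i // N i} → Bool, (∏ i : {i // N i}, c i (o1 i)) *
        (f (fun i => if h : N i then o1 ⟨i, h⟩ else false)) *
          ∏ i : {i // ¬ N i}, (c i true + c i false) := by
  rw [← (Equiv.piEquivPiSubtypeProd N (fun _ => Bool)).symm.sum_comp, Fintype.sum_prod_type]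
  refine Finset.sum_congr rfl (fun o1 _ => ?_)
  rw [← HS4_prod_sum (fun i : {i // ¬ N i} => c i.1), Finset.mul_sum]
  refine Finset.sum_congr rfl (fun o2 _ => ?_)
  have e1 : f ((Equiv.piEquivPiSubtypeProd N (fun _ => Bool)).symm (o1, o2)) =
      f (fun i => if h : N i then o1 ⟨i, h⟩ else false) := by
    apply hf
    intro i hi
    simp [Equiv.piEquivPiSubtypeProd, hi]
  have e2 : (∏ i, c i ((Equiv.piEquivPiSubtypeProd N (fun _ => Bool)).symm (o1, o2) i)) =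
      (∏ i : {i // N i}, c i (o1 i)) * ∏ i : {i // ¬ N i}, c i (o2 i) := by
    rw [← Fintype.prod_subtype_mul_prod_subtype N]
    congr 1
    · refine Finset.prod_congr rfl (fun i _ => ?_)
      have := i.2
      simp [Equiv.piEquivPiSubtypeProd, this]
    · refine Finset.prod_congr rfl (fun i _ => ?_)
      have := i.2
      simp [Equiv.piEquivPiSubtypeProd, this]
  rw [e1, e2]
  ring

theorem HS4_prod_loc {I : Type} [Fintype I] [DecidableEq I] (N : I → Prop) [DecidablePred N]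
    (c c' : I → Bool → ℝ) (h1 : ∀ i b, N i → c i b = c' i b)
    (h2 : ∀ i, ¬ N i → c i true + c i false = c' i true + c' i false)
    (f : (I → Bool) → ℝ) (hf : ∀ o o', (∀ i, N i → o i = o' i) → f o = f o') :
    ∑ o : I → Bool, (∏ i, c i (o i)) * f o = ∑ o : I → Bool, (∏ i, c' i (o i)) * f o := by
  rw [HS4_prod_loc1 N f hf c, HS4_prod_loc1 N f hf c']
  refine Finset.sum_congr rfl (fun o1 _ => ?_)
  congr 1
  · congr 1
    exact Finset.prod_congr rfl (fun i _ => h1 i.1 _ i.2)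
  · exact Finset.prod_congr rfl (fun i _ => h2 i.1 i.2)

/-! ### the joint weight -/

/-- joint weight of the heights and of the sign clusters. -/
noncomputable def HS4_Q (G : Gr V E) (EF : Finset E) (w : ℤ → ℝ) (x : V → ℤ) (o : ↥EF → Bool) : ℝ :=
  ∏ e : ↥EF, if o e then HS4_A w (x (G.s e.1)) (x (G.r e.1)) else HS4_B w (x (G.s e.1)) (x (G.r e.1))

theorem HS4_Qnn (G : Gr V E) (EF : Finset E) (w : ℤ → ℝ) (hw : WOk w) (x : V → ℤ) (o : ↥EF → Bool) :
    0 ≤ HS4_Q G EF w x o := by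
  unfold HS4_Q
  refine Finset.prod_nonneg (fun e _ => ?_)
  split_ifs
  · exact HS4_Apos w hw _ _
  · exact (HS4_Bpos w hw _ _).le

theorem HS4_Qsum (G : Gr V E) (EF : Finset E) (w : ℤ → ℝ) (x : V → ℤ) :
    ∑ o : ↥EF → Bool, HS4_Q G EF w x o = ∏ e ∈ EF, w (x (G.s e) - x (G.r e)) := by
  unfold HS4_Q
  have := HS4_prod_sum (fun (e : ↥EF) (b : Bool) =>
    if b then HS4_A w (x (G.s e.1)) (x (G.r e.1)) else HS4_B w (x (G.s e.1)) (x (G.r e.1)))
  rw [this, ← Finset.prod_coe_sort EF]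
  refine Finset.prod_congr rfl (fun e _ => ?_)
  simp only [if_true]
  simpa using HS4_AB w (x (G.s e.1)) (x (G.r e.1))

theorem HS4_Qle (G : Gr V E) (EF : Finset E) (w : ℤ → ℝ) (hw : WOk w) (x : V → ℤ) (o : ↥EF → Bool) :
    HS4_Q G EF w x o ≤ ∏ e ∈ EF, w (x (G.s e) - x (G.r e)) := by
  rw [← HS4_Qsum]
  exact Finset.single_le_sum (fun o _ => HS4_Qnn G EF w hw x o) (Finset.mem_univ o)

/-- connection to the outside. -/
def HS4_out (G : Gr V E) (F : Finset V) (v : V) (o : E → Bool) : Prop :=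
  ∃ u, u ∉ F ∧ G.Conn (op1 o) v u

/-- on the support of `Q` a path to the outside has only nonpositive heights. -/
theorem HS4_path (G : Gr V E) (EF : Finset E) (w : ℤ → ℝ) (x : V → ℤ)
    (o : ↥EF → Bool) (hQ : HS4_Q G EF w x o ≠ 0) (v u : V) (hu : x u ≤ 0)
    (hc : G.Conn (op1 (g0 EF o)) v u) :
    x v ≤ 0 ∧ G.Conn {e | e ∈ op1 (g0 EF o) ∧ x (G.s e) ≤ 0 ∧ x (G.r e) ≤ 0} v u := by
  have hsame : ∀ e ∈ op1 (g0 EF o), (x (G.s e) ≤ 0 ↔ x (G.r e) ≤ 0) := by
    intro e he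
    by_contra hne
    apply hQ
    unfold op1 g0 at he
    simp only [Set.mem_setOf_eq] at he
    by_cases heF : e ∈ EF
    · rw [dif_pos heF] at he
      unfold HS4_Q
      refine Finset.prod_eq_zero (Finset.mem_univ (⟨e, heF⟩ : ↥EF)) ?_
      rw [if_pos he]
      unfold HS4_A
      rw [if_neg hne]
    · rw [dif_neg heF] at he
      exact absurd he (by simp)
  unfold Gr.Conn at hc
  induction hc using Relation.ReflTransGen.head_induction_on with
  | refl => exact ⟨hu, Relation.ReflTransGen.refl⟩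
  | @head a c h1 _ ih =>
    obtain ⟨e, he, h2⟩ := h1
    have hs := hsame e he
    rcases h2 with ⟨rfl, rfl⟩ | ⟨rfl, rfl⟩
    · have ha : x (G.s e) ≤ 0 := hs.2 ih.1
      refine ⟨ha, Relation.ReflTransGen.head ⟨e, ⟨he, ha, ih.1⟩, Or.inl ⟨rfl, rfl⟩⟩ ih.2⟩
    · have ha : x (G.r e) ≤ 0 := hs.1 ih.1
      refine ⟨ha, Relation.ReflTransGen.head ⟨e, ⟨he, ih.1, ha⟩, Or.inr ⟨rfl, rfl⟩⟩ ih.2⟩

theorem HS4_conn_le (G : Gr V E) (F : Finset V) (EF : Finset E) (w : ℤ → ℝ) (hw : WOk w)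
    (x : V → ℤ) (hx : ∀ u, u ∉ F → x u ≤ 0) (v : V) :
    ∑ o : ↥EF → Bool, HS4_Q G EF w x o * ind (HS4_out G F v (g0 EF o)) ≤
      (∏ e ∈ EF, w (x (G.s e) - x (G.r e))) *
        em w G EF x (fun o => ind (HS4_out G F v o)) := by
  classical
  set N : ↥EF → Prop := fun e => x (G.s e.1) ≤ 0 ∧ x (G.r e.1) ≤ 0 with hN
  set f : (↥EF → Bool) → ℝ := fun o => ind (∃ u, u ∉ F ∧
    G.Conn {e | e ∈ op1 (g0 EF o) ∧ x (G.s e) ≤ 0 ∧ x (G.r e) ≤ 0} v u) with hf
  have hf1 : ∀ o o', (∀ i, N i → o i = o' i) → f o = f o' := by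
    intro o o' hoo
    have : {e | e ∈ op1 (g0 EF o) ∧ x (G.s e) ≤ 0 ∧ x (G.r e) ≤ 0} =
        {e | e ∈ op1 (g0 EF o') ∧ x (G.s e) ≤ 0 ∧ x (G.r e) ≤ 0} := by
      ext e
      simp only [Set.mem_setOf_eq]
      constructor
      · rintro ⟨h1, h2, h3⟩
        refine ⟨?_, h2, h3⟩
        unfold op1 g0 at h1 ⊢
        simp only [Set.mem_setOf_eq] at h1 ⊢
        by_cases heF : e ∈ EF
        · rw [dif_pos heF] at h1 ⊢
          rw [← hoo ⟨e, heF⟩ ⟨h2, h3⟩]; exact h1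
        · rw [dif_neg heF] at h1
          exact absurd h1 (by simp)
      · rintro ⟨h1, h2, h3⟩
        refine ⟨?_, h2, h3⟩
        unfold op1 g0 at h1 ⊢
        simp only [Set.mem_setOf_eq] at h1 ⊢
        by_cases heF : e ∈ EF
        · rw [dif_pos heF] at h1 ⊢
          rw [hoo ⟨e, heF⟩ ⟨h2, h3⟩]; exact h1
        · rw [dif_neg heF] at h1
          exact absurd h1 (by simp)
    simp only [hf, this]
  set c : ↥EF → Bool → ℝ := fun e b =>
    if b then HS4_A w (x (G.s e.1)) (x (G.r e.1)) else HS4_B w (x (G.s e.1)) (x (G.r e.1)) with hc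
  set c' : ↥EF → Bool → ℝ := fun e b =>
    w (x (G.s e.1) - x (G.r e.1)) * (if b then qm w (x (G.s e.1)) (x (G.r e.1)) else
      1 - qm w (x (G.s e.1)) (x (G.r e.1))) with hc'
  have h1 : ∀ i b, N i → c i b = c' i b := by
    intro i b hi
    have hA := HS4_Aneg w hw _ _ hi.1 hi.2
    have hAB := HS4_AB w (x (G.s i.1)) (x (G.r i.1))
    cases b
    · simp only [hc, hc', if_false, Bool.false_eq_true]
      rw [hA] at hAB
      linarith
    · simp only [hc, hc', if_true]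
      exact hA
  have h2 : ∀ i, ¬ N i → c i true + c i false = c' i true + c' i false := by
    intro i _
    have hAB := HS4_AB w (x (G.s i.1)) (x (G.r i.1))
    simp only [hc, hc', if_true, if_false, Bool.false_eq_true]
    rw [hAB]; ring
  have h3 := HS4_prod_loc N c c' h1 h2 f hf1
  have h4 : ∑ o : ↥EF → Bool, HS4_Q G EF w x o * ind (HS4_out G F v (g0 EF o)) ≤
      ∑ o : ↥EF → Bool, (∏ i, c i (o i)) * f o := by
    refine Finset.sum_le_sum (fun o _ => ?_)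
    by_cases hQ : HS4_Q G EF w x o = 0
    · have : (∏ i, c i (o i)) = 0 := hQ
      rw [hQ, this]; simp
    · have hQ' : (∏ i, c i (o i)) = HS4_Q G EF w x o := rfl
      rw [hQ']
      refine mul_le_mul_of_nonneg_left ?_ (HS4_Qnn G EF w hw x o)
      simp only [hf]
      unfold ind HS4_out
      split_ifs with ha hb hb
      · exact le_rfl
      · exfalso
        obtain ⟨u, hu, huc⟩ := ha
        exact hb ⟨u, hu, (HS4_path G EF w x o hQ v u (hx u hu) huc).2⟩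
      · exact zero_le_one
      · exact le_rfl
  refine h4.trans ?_
  rw [h3]
  unfold em
  rw [Finset.mul_sum]
  refine Finset.sum_le_sum (fun o _ => ?_)
  have h5 : (∏ i, c' i (o i)) = (∏ e ∈ EF, w (x (G.s e) - x (G.r e))) *
      ∏ e : ↥EF, (if o e then qm w (x (G.s e.1)) (x (G.r e.1)) else
        1 - qm w (x (G.s e.1)) (x (G.r e.1))) := by
    simp only [hc']
    rw [Finset.prod_mul_distrib, Finset.prod_coe_sort EF (fun e => w (x (G.s e) - x (G.r e)))]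
  rw [h5, mul_assoc]
  refine mul_le_mul_of_nonneg_left ?_ (Finset.prod_nonneg (fun e _ => (hw.pos _).le))
  refine mul_le_mul_of_nonneg_left ?_ (Finset.prod_nonneg (fun e _ => ?_))
  · simp only [hf]
    unfold ind HS4_out
    split_ifs with ha hb hb
    · exact le_rfl
    · exfalso
      obtain ⟨u, hu, huc⟩ := ha
      exact hb ⟨u, hu, conn_mono G (fun e he => he.1) huc⟩
    · exact zero_le_one
    · exact le_rfl
  · have := qm_bd w hw (x (G.s e.1)) (x (G.r e.1))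
    split_ifs
    · exact this.1
    · linarith [this.2]

/-! ### the flip -/

/-- `h ↦ 1 - h` on `S`. -/
noncomputable def HS4_fl {F : Finset V} (S : Set V) (h : ↥F → ℤ) : ↥F → ℤ :=
  open Classical in fun u => if u.1 ∈ S then 1 - h u else h u

theorem HS4_fl_inv {F : Finset V} (S : Set V) : Function.Involutive (HS4_fl (F := F) S) := by
  intro h
  funext u
  unfold HS4_fl
  by_cases hu : u.1 ∈ S
  · simp [hu]
  · simp [hu]

theorem HS4_fl_ex1 {F : Finset V} (S : Set V) (hS : ∀ u ∈ S, u ∈ F) (h : ↥F → ℤ) (u : V) (hu : u ∈ S) :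
    ex (HS4_fl S h) u = 1 - ex h u := by
  unfold ex HS4_fl
  simp [hS u hu, hu]

theorem HS4_fl_ex2 {F : Finset V} (S : Set V) (h : ↥F → ℤ) (u : V) (hu : u ∉ S) :
    ex (HS4_fl S h) u = ex h u := by
  unfold ex HS4_fl
  by_cases hF : u ∈ F
  · simp [hF, hu]
  · simp [hF]

theorem HS4_Qfl (G : Gr V E) (F : Finset V) (EF : Finset E) (w : ℤ → ℝ) (hw : WOk w)
    (v : V) (o : ↥EF → Bool) (S : Set V) (hS : ∀ u ∈ S, u ∈ F)
    (hSd : S = {u | G.Conn (op1 (g0 EF o)) v u}) (h : ↥F → ℤ) :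
    HS4_Q G EF w (ex (HS4_fl S h)) o = HS4_Q G EF w (ex h) o := by
  unfold HS4_Q
  refine Finset.prod_congr rfl (fun e _ => ?_)
  by_cases hoe : o e = true
  · rw [if_pos hoe, if_pos hoe]
    have hmem : e.1 ∈ op1 (g0 EF o) := by
      unfold op1 g0
      simp [hoe]
    have hiff : (G.s e.1 ∈ S ↔ G.r e.1 ∈ S) := by
      rw [hSd]
      simp only [Set.mem_setOf_eq]
      constructor
      · intro hs
        exact conn_trans G hs (conn_edge G hmem)
      · intro hr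
        exact conn_trans G hr (conn_symm G (conn_edge G hmem))
    by_cases hs : G.s e.1 ∈ S
    · rw [HS4_fl_ex1 S hS h _ hs, HS4_fl_ex1 S hS h _ (hiff.1 hs), HS4_Aflip w hw]
    · rw [HS4_fl_ex2 S h _ hs, HS4_fl_ex2 S h _ (fun hr => hs (hiff.2 hr))]
  · rw [if_neg hoe, if_neg hoe]
    by_cases hs : G.s e.1 ∈ S
    · rw [HS4_fl_ex1 S hS h _ hs, HS4_Bflip1 w hw]
      by_cases hr : G.r e.1 ∈ S
      · rw [HS4_fl_ex1 S hS h _ hr, HS4_Bflip2 w hw]
      · rw [HS4_fl_ex2 S h _ hr]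
    · rw [HS4_fl_ex2 S h _ hs]
      by_cases hr : G.r e.1 ∈ S
      · rw [HS4_fl_ex1 S hS h _ hr, HS4_Bflip2 w hw]
      · rw [HS4_fl_ex2 S h _ hr]

theorem HS4_tsum0 (G : Gr V E) (F : Finset V) (EF : Finset E) (w : ℤ → ℝ) (hw : WOk w)
    (v : V) (o : ↥EF → Bool) (hno : ¬ HS4_out G F v (g0 EF o)) :
    ∑' h : ↥F → ℤ, HS4_Q G EF w (ex h) o * ((ex h v : ℝ) - 1 / 2) = 0 := by
  set S : Set V := {u | G.Conn (op1 (g0 EF o)) v u} with hSd
  have hS : ∀ u ∈ S, u ∈ F := by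
    intro u hu
    by_contra huF
    exact hno ⟨u, huF, hu⟩
  have hvS : v ∈ S := conn_refl G _ v
  have h1 := (Function.Involutive.toPerm (HS4_fl (F := F) S) (HS4_fl_inv (F := F) S)).tsum_eq
    (fun h : ↥F → ℤ => HS4_Q G EF w (ex h) o * ((ex h v : ℝ) - 1 / 2))
  have h2 : ∀ h : ↥F → ℤ, HS4_Q G EF w
      (ex (Function.Involutive.toPerm (HS4_fl (F := F) S) (HS4_fl_inv (F := F) S) h)) o *
      ((ex (Function.Involutive.toPerm (HS4_fl (F := F) S) (HS4_fl_inv (F := F) S) h) v : ℝ) - 1 / 2) =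
      -(HS4_Q G EF w (ex h) o * ((ex h v : ℝ) - 1 / 2)) := by
    intro h
    have e1 : (Function.Involutive.toPerm (HS4_fl (F := F) S) (HS4_fl_inv (F := F) S)) h =
      HS4_fl S h := rfl
    rw [e1, HS4_Qfl G F EF w hw v o S hS hSd, HS4_fl_ex1 S hS h v hvS]
    push_cast
    ring
  simp only [h2, tsum_neg] at h1
  linarith

theorem hs_arm (G : Gr V E) (F : Finset V) (EF : Finset E) (hB : Bd G F EF) (w : ℤ → ℝ) (hw : WOk w)
    (v : V) (hv : v ∈ F) :
    1 / (4 * Eh G F EF w (fun h => (h v : ℝ) ^ 2) + 1) ≤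
      PM G F EF w EF (fun o => ind (∃ u, u ∉ F ∧ G.Conn (op1 o) v u)) := by
  classical
  have hWH : ∀ h : ↥F → ℤ, WH G F EF w h = ∏ e ∈ EF, w (ex h (G.s e) - ex h (G.r e)) := fun h => rfl
  set φ : (E → Bool) → ℝ := fun o => ind (HS4_out G F v o) with hφ
  have hφ0 : ∀ o, 0 ≤ φ o := by
    intro o; simp only [hφ]; unfold ind; split_ifs <;> norm_num
  have hφ1 : ∀ o, φ o ≤ 1 := by
    intro o; simp only [hφ]; unfold ind; split_ifs <;> norm_num
  have hem := fun h : V → ℤ => em_bd w hw G EF h φ hφ0 hφ1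
  obtain ⟨hZs, hZ⟩ := WH_summ1 G F EF hB w hw
  set Z := ∑' h : ↥F → ℤ, WH G F EF w h with hZd
  -- the function g
  have pb1 : PBd F (fun h : V → ℤ => ((h v : ℝ) - 1 / 2)) := by
    have := PBd_add F (fun h => (h v : ℝ)) (fun _ => -(1 / 2 : ℝ)) (PBd_h F v)
      (PBd_bdd F _ (1 / 2) (fun h => by rw [abs_neg, abs_of_pos] <;> norm_num))
    simpa [sub_eq_add_neg] using this
  have s1 := WH_summ G F EF hB w hw _ pb1
  have s1a : Summable (fun h : ↥F → ℤ => WH G F EF w h * |(ex h v : ℝ) - 1 / 2|) := by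
    have := s1.abs
    refine this.congr (fun h => ?_)
    rw [abs_mul, abs_of_pos (WH_pos G F EF w hw h)]
  have sQ : ∀ o : ↥EF → Bool, Summable (fun h : ↥F → ℤ =>
      HS4_Q G EF w (ex h) o * ((ex h v : ℝ) - 1 / 2)) := by
    intro o
    refine Summable.of_norm_bounded s1a (fun h => ?_)
    rw [Real.norm_eq_abs, abs_mul, abs_of_nonneg (HS4_Qnn G EF w hw _ o), hWH]
    exact mul_le_mul_of_nonneg_right (HS4_Qle G EF w hw _ o) (abs_nonneg _)
  -- the expectation of g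
  have hE1 : Eh G F EF w (fun h => (h v : ℝ)) = 0 := by
    have a := Eh_neg G F EF w hw (fun h => (h v : ℝ))
    have b := Eh_smul G F EF w (-1) (fun h => (h v : ℝ))
    have c : Eh G F EF w (fun h => ((-h) v : ℤ) : (V → ℤ) → ℝ) =
        Eh G F EF w (fun h => (-1) * (h v : ℝ)) := by
      refine Eh_congr G F EF w _ _ (fun h => ?_)
      push_cast [Pi.neg_apply]
      ring
    linarith
  have hE2 : ∑' h : ↥F → ℤ, WH G F EF w h * ((ex h v : ℝ) - 1 / 2) = -(1 / 2) * Z := by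
    have a := Eh_add G F EF hB w hw (fun h => (h v : ℝ)) (fun _ => -(1 / 2 : ℝ)) (PBd_h F v)
      (PBd_bdd F _ (1 / 2) (fun h => by rw [abs_neg, abs_of_pos] <;> norm_num))
    rw [hE1, Eh_one G F EF hB w hw] at a
    unfold Eh at a
    rw [div_eq_iff hZ.ne'] at a
    rw [zero_add] at a
    rw [← a]
    rfl
  have hE3 : ∑' h : ↥F → ℤ, WH G F EF w h * ((ex h v : ℝ) - 1 / 2) =
      ∑ o : ↥EF → Bool, ∑' h : ↥F → ℤ, HS4_Q G EF w (ex h) o * ((ex h v : ℝ) - 1 / 2) := by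
    rw [← Summable.tsum_finsetSum (fun o _ => sQ o)]
    refine tsum_congr (fun h => ?_)
    rw [← Finset.sum_mul, HS4_Qsum, hWH]
  have hE4 : ∑ o : ↥EF → Bool, ∑' h : ↥F → ℤ, HS4_Q G EF w (ex h) o * ((ex h v : ℝ) - 1 / 2) =
      ∑ o : ↥EF → Bool, ∑' h : ↥F → ℤ, HS4_Q G EF w (ex h) o * ((ex h v : ℝ) - 1 / 2) *
        φ (g0 EF o) := by
    refine Finset.sum_congr rfl (fun o _ => ?_)
    by_cases ho : HS4_out G F v (g0 EF o)
    · have : φ (g0 EF o) = 1 := by simp only [hφ]; unfold ind; rw [if_pos ho]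
      simp only [this, mul_one]
    · have : φ (g0 EF o) = 0 := by simp only [hφ]; unfold ind; rw [if_neg ho]
      rw [HS4_tsum0 G F EF w hw v o ho]
      simp only [this, mul_zero, tsum_zero]
  have sQφ : ∀ o : ↥EF → Bool, Summable (fun h : ↥F → ℤ =>
      HS4_Q G EF w (ex h) o * ((ex h v : ℝ) - 1 / 2) * φ (g0 EF o)) := fun o => (sQ o).mul_right _
  have hE5 : ∑ o : ↥EF → Bool, ∑' h : ↥F → ℤ, HS4_Q G EF w (ex h) o * ((ex h v : ℝ) - 1 / 2) *
        φ (g0 EF o) = ∑' h : ↥F → ℤ, ∑ o : ↥EF → Bool,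
          HS4_Q G EF w (ex h) o * ((ex h v : ℝ) - 1 / 2) * φ (g0 EF o) := by
    rw [← Summable.tsum_finsetSum (fun o _ => sQφ o)]
  -- t
  have pb2 : PBd F (fun h : V → ℤ => ((h v : ℝ)) ^ 2) := by
    have := PBd_mul F _ _ (PBd_h F v) (PBd_h F v)
    simpa [pow_two] using this
  set T := Eh G F EF w (fun h => (h v : ℝ) ^ 2) with hT
  have hT0 : 0 ≤ T := by
    have := Eh_mono G F EF hB w hw (fun _ => 0) (fun h => (h v : ℝ) ^ 2)
      (PBd_bdd F _ 0 (fun _ => by simp)) pb2 (fun h => by positivity)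
    rw [Eh_one G F EF hB w hw] at this
    exact this
  set t : ℝ := T + 1 / 4 with ht
  have ht0 : 0 < t := by rw [ht]; linarith
  -- pointwise bound
  have pb3 : PBd F (fun h : V → ℤ => em w G EF h φ) :=
    PBd_bdd F _ 1 (fun h => by rw [abs_of_nonneg (hem h).1]; exact (hem h).2)
  have pb4 : PBd F (fun h : V → ℤ => ((h v : ℝ) - 1 / 2) * ((h v : ℝ) - 1 / 2)) :=
    PBd_mul F _ _ pb1 pb1
  have pb5 : PBd F (fun h : V → ℤ => (1 / (4 * t)) * (((h v : ℝ) - 1 / 2) * ((h v : ℝ) - 1 / 2)) +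
      t * em w G EF h φ) := PBd_add F _ _ (PBd_smul F _ _ pb4) (PBd_smul F _ _ pb3)
  have s5 := WH_summ G F EF hB w hw _ pb5
  have hpt : ∀ h : ↥F → ℤ, -(WH G F EF w h * ((1 / (4 * t)) *
      (((ex h v : ℝ) - 1 / 2) * ((ex h v : ℝ) - 1 / 2)) + t * em w G EF (ex h) φ)) ≤
      ∑ o : ↥EF → Bool, HS4_Q G EF w (ex h) o * ((ex h v : ℝ) - 1 / 2) * φ (g0 EF o) := by
    intro h
    set gv : ℝ := (ex h v : ℝ) - 1 / 2 with hgv
    have hx : ∀ u, u ∉ F → ex h u ≤ 0 := by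
      intro u hu
      unfold ex
      rw [dif_neg hu]
    have hle := HS4_conn_le G F EF w hw (ex h) hx v
    have e1 : ∑ o : ↥EF → Bool, HS4_Q G EF w (ex h) o * gv * φ (g0 EF o) =
        gv * ∑ o : ↥EF → Bool, HS4_Q G EF w (ex h) o * φ (g0 EF o) := by
      rw [Finset.mul_sum]
      exact Finset.sum_congr rfl (fun o _ => by ring)
    rw [e1]
    set X : ℝ := ∑ o : ↥EF → Bool, HS4_Q G EF w (ex h) o * φ (g0 EF o) with hX
    have hX0 : 0 ≤ X := Finset.sum_nonneg (fun o _ => mul_nonneg (HS4_Qnn G EF w hw _ o) (hφ0 _))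
    have hX1 : X ≤ WH G F EF w h * em w G EF (ex h) φ := hle
    have hW := WH_pos G F EF w hw h
    set a := em w G EF (ex h) φ with ha
    have ha0 : 0 ≤ a := (hem _).1
    have ha1 : a ≤ 1 := (hem _).2
    have h6 : |gv| * a ≤ (1 / (4 * t)) * (gv * gv) + t * a := by
      have h7 : |gv| * a ≤ (1 / (4 * t)) * (gv * gv) + t * (a * a) := by
        have h8 : 0 ≤ (|gv| / (2 * t) - a) ^ 2 * t := by positivity
        have h9 : (|gv| / (2 * t) - a) ^ 2 * t = (1 / (4 * t)) * (|gv| * |gv|) - |gv| * a + t * (a * a) := by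
          field_simp
          ring
        rw [h9, abs_mul_abs_self] at h8
        linarith
      have h10 : t * (a * a) ≤ t * a := by
        refine mul_le_mul_of_nonneg_left ?_ ht0.le
        nlinarith
      linarith
    have h11 : -(|gv| * X) ≤ gv * X := by
      have := neg_abs_le gv
      nlinarith
    have h12 : |gv| * X ≤ WH G F EF w h * ((1 / (4 * t)) * (gv * gv) + t * a) := by
      calc |gv| * X ≤ |gv| * (WH G F EF w h * a) := mul_le_mul_of_nonneg_left hX1 (abs_nonneg _)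
        _ = WH G F EF w h * (|gv| * a) := by ring
        _ ≤ _ := mul_le_mul_of_nonneg_left h6 hW.le
    linarith
  have hfin : -(∑' h : ↥F → ℤ, WH G F EF w h * ((1 / (4 * t)) *
      (((ex h v : ℝ) - 1 / 2) * ((ex h v : ℝ) - 1 / 2)) + t * em w G EF (ex h) φ)) ≤
      -(1 / 2) * Z := by
    rw [← hE2, hE3, hE4, hE5, ← tsum_neg]
    refine Summable.tsum_le_tsum hpt s5.neg ?_
    exact summable_sum (fun o _ => sQφ o)
  -- evaluate
  have hEv : ∑' h : ↥F → ℤ, WH G F EF w h * ((1 / (4 * t)) *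
      (((ex h v : ℝ) - 1 / 2) * ((ex h v : ℝ) - 1 / 2)) + t * em w G EF (ex h) φ) =
      Z * (1 / (4 * t) * t + t * PM G F EF w EF φ) := by
    have a := Eh_add G F EF hB w hw
      (fun h : V → ℤ => (1 / (4 * t)) * (((h v : ℝ) - 1 / 2) * ((h v : ℝ) - 1 / 2)))
      (fun h => t * em w G EF h φ) (PBd_smul F _ _ pb4) (PBd_smul F _ _ pb3)
    rw [Eh_smul, Eh_smul] at a
    have b : Eh G F EF w (fun h : V → ℤ => ((h v : ℝ) - 1 / 2) * ((h v : ℝ) - 1 / 2)) = t := by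
      have c : Eh G F EF w (fun h : V → ℤ => ((h v : ℝ) - 1 / 2) * ((h v : ℝ) - 1 / 2)) =
          Eh G F EF w (fun h : V → ℤ => ((h v : ℝ) ^ 2 + ((-1) * (h v : ℝ) + 1 / 4))) := by
        refine Eh_congr G F EF w _ _ (fun h => ?_)
        ring
      rw [c, Eh_add G F EF hB w hw _ _ pb2 (PBd_add F _ _ (PBd_smul F _ _ (PBd_h F v))
        (PBd_bdd F _ (1 / 4) (fun h => by rw [abs_of_pos] <;> norm_num))),
        Eh_add G F EF hB w hw _ _ (PBd_smul F _ _ (PBd_h F v))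
        (PBd_bdd F _ (1 / 4) (fun h => by rw [abs_of_pos] <;> norm_num)), Eh_smul, hE1,
        Eh_one G F EF hB w hw, ht, hT]
      ring
    rw [b] at a
    unfold Eh at a
    rw [div_eq_iff hZ.ne'] at a
    rw [a]
    unfold PM Eh
    ring
  rw [hEv] at hfin
  have h20 : (1 / (4 * t) * t + t * PM G F EF w EF φ) = 1 / 4 + t * PM G F EF w EF φ := by
    field_simp
  rw [h20] at hfin
  have h21 : 1 / 4 ≤ t * PM G F EF w EF φ := by
    by_contra hcon
    push Not at hcon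
    nlinarith
  have h22 : 1 / (4 * T + 1) ≤ PM G F EF w EF φ := by
    have : 4 * T + 1 = 4 * t := by rw [ht]; ring
    rw [this, div_le_iff₀ (by linarith)]
    linarith
  exact h22

end H82.BX
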