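import Pool.Agent.H82.BX.PG2
import Pool.Agent.H82.BX.PG0
import Pool.Agent.H82.IC.BKC

/-!
# PG3: no trifurcation tiles

Adapt `IC/BKC.lean` (`meas_Tri`, `no_tri`).  Measurability: `{ω | Conn (op1 ω \ S0) u v}` is a countable union over `n` of cylinder
events (`conn_pg`), infinite clusters by `inf_pg`.  Positivity after opening: suppose `p0 = ν{TriP (op1 ω) r 0} > 0` and let `F` be the finset of
the edges of `ins (tl r 0)` (`⊆ pbE P r`).  `TriP` does not depend on the edges of `F`, so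
`{TriP} ⊆ {opF F ω ∈ {TriP} ∩ {F open}}`, and `opF_bound` with `ε = p0/2` gives `ν({TriP} ∩ {F open}) > 0`.
Then the grid argument with `bk_pg` (grid `(2r+1) k`, `nm k ≤ m`, `n = (2r+1) m + r + 2`), `card_pbd` and `TIP`:
`(2m+1)^2 p ≤ C (n+1)`, contradiction as `m → ∞`.
-/

set_option autoImplicit false

open Finset MeasureTheory

namespace H82.BX

open H82.IC

variable {K K' : Type} [Fintype K] [Fintype K'] [Nonempty K]

theorem PG3_lcn (P : PG K K') (S0 : Set (Vx 2 × K')) (u v : Vx 2 × K) (n : ℕ) :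
    Lc {ω : Vx 2 × K' → Bool | P.gr.Conn ((op1 ω \ S0) ∩ pbE P n) u v} := by
  refine ⟨pbE P n, fun ω ω' h => ?_⟩
  have h1 : (op1 ω \ S0) ∩ pbE P n = (op1 ω' \ S0) ∩ pbE P n := by
    ext e
    constructor
    · rintro ⟨⟨h2, h3⟩, h4⟩
      refine ⟨⟨?_, h3⟩, h4⟩
      have h5 : ω e = true := h2
      show ω' e = true
      rw [← h e (Finset.mem_coe.1 h4)]
      exact h5
    · rintro ⟨⟨h2, h3⟩, h4⟩
      refine ⟨⟨?_, h3⟩, h4⟩
      have h5 : ω' e = true := h2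
      show ω e = true
      rw [h e (Finset.mem_coe.1 h4)]
      exact h5
  show P.gr.Conn ((op1 ω \ S0) ∩ pbE P n) u v ↔ P.gr.Conn ((op1 ω' \ S0) ∩ pbE P n) u v
  rw [h1]

theorem meas_connP (P : PG K K') (hP : P.Ok) (S0 : Set (Vx 2 × K')) (u v : Vx 2 × K) :
    MeasurableSet {ω : Vx 2 × K' → Bool | P.gr.Conn (op1 ω \ S0) u v} := by
  have e : {ω : Vx 2 × K' → Bool | P.gr.Conn (op1 ω \ S0) u v} =
      ⋃ n : ℕ, {ω : Vx 2 × K' → Bool | P.gr.Conn ((op1 ω \ S0) ∩ pbE P n) u v} := by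
    ext ω
    rw [Set.mem_iUnion]
    constructor
    · intro h
      exact conn_pg P hP h
    · rintro ⟨n, h⟩
      exact conn_mono _ Set.inter_subset_left h
  rw [e]
  exact MeasurableSet.iUnion fun n => lc_meas (PG3_lcn P S0 u v n)

theorem meas_infP (P : PG K K') (hP : P.Ok) (S0 : Set (Vx 2 × K')) (v : Vx 2 × K) :
    MeasurableSet {ω : Vx 2 × K' → Bool | (P.gr.cl (op1 ω \ S0) v).Infinite} := by
  have e : {ω : Vx 2 × K' → Bool | (P.gr.cl (op1 ω \ S0) v).Infinite} =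
      ⋂ n : ℕ, ⋃ b : Vx 2 × K, ({ω : Vx 2 × K' → Bool | n ≤ nm b.1} ∩
        {ω | P.gr.Conn (op1 ω \ S0) v b}) := by
    ext ω
    rw [Set.mem_iInter]
    show (P.gr.cl (op1 ω \ S0) v).Infinite ↔ _
    rw [inf_pg]
    refine forall_congr' fun n => ?_
    rw [Set.mem_iUnion]
    exact Iff.rfl
  rw [e]
  exact MeasurableSet.iInter fun n => MeasurableSet.iUnion fun b =>
    (MeasurableSet.const _).inter (meas_connP P hP S0 v b)

theorem PG3_meas (P : PG K K') (hP : P.Ok) (r : ℕ) (x : Vx 2) :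
    MeasurableSet {ω : Vx 2 × K' → Bool | TriP P (op1 ω) r x} := by
  set T := P.gr.ins (tl r x : Set (Vx 2 × K)) with hT
  have e : {ω : Vx 2 × K' → Bool | TriP P (op1 ω) r x} =
      ⋃ v1 : Vx 2 × K, ⋃ v2 : Vx 2 × K, ⋃ v3 : Vx 2 × K,
      ({ω : Vx 2 × K' → Bool | v1 ∈ (tl r x : Set (Vx 2 × K)) ∧ v2 ∈ (tl r x : Set (Vx 2 × K)) ∧
          v3 ∈ (tl r x : Set (Vx 2 × K))} ∩
        ({ω | (P.gr.cl (op1 ω \ T) v1).Infinite} ∩ ({ω | (P.gr.cl (op1 ω \ T) v2).Infinite} ∩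
        ({ω | (P.gr.cl (op1 ω \ T) v3).Infinite} ∩ ({ω | P.gr.Conn (op1 ω \ T) v1 v2}ᶜ ∩
        ({ω | P.gr.Conn (op1 ω \ T) v1 v3}ᶜ ∩ {ω | P.gr.Conn (op1 ω \ T) v2 v3}ᶜ)))))) := by
    ext ω
    simp only [Set.mem_iUnion]
    constructor
    · rintro ⟨v1, h1, v2, h2, v3, h3, a1, a2, a3, b1, b2, b3⟩
      exact ⟨v1, v2, v3, ⟨h1, h2, h3⟩, a1, a2, a3, b1, b2, b3⟩
    · rintro ⟨v1, v2, v3, ⟨h1, h2, h3⟩, a1, a2, a3, b1, b2, b3⟩
      exact ⟨v1, h1, v2, h2, v3, h3, a1, a2, a3, b1, b2, b3⟩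
  rw [e]
  exact MeasurableSet.iUnion fun v1 => MeasurableSet.iUnion fun v2 => MeasurableSet.iUnion fun v3 =>
    (MeasurableSet.const _).inter ((meas_infP P hP T v1).inter ((meas_infP P hP T v2).inter
      ((meas_infP P hP T v3).inter ((meas_connP P hP T v1 v2).compl.inter
        ((meas_connP P hP T v1 v3).compl.inter (meas_connP P hP T v2 v3).compl)))))

/-- the event at `x` -/
def PG3_A (P : PG K K') (r : ℕ) (x : Vx 2) : Set (Vx 2 × K' → Bool) :=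
  {ω | TriP P (op1 ω) r x} ∩
    ⋂ e : Vx 2 × K', {ω | e ∈ P.gr.ins (tl r x : Set (Vx 2 × K)) → ω e = true}

theorem PG3_A_meas (P : PG K K') (hP : P.Ok) (r : ℕ) (x : Vx 2) :
    MeasurableSet (PG3_A P r x) := by
  refine (PG3_meas P hP r x).inter (MeasurableSet.iInter fun e => ?_)
  by_cases h : e ∈ P.gr.ins (tl r x : Set (Vx 2 × K))
  · have h1 : {ω : Vx 2 × K' → Bool | e ∈ P.gr.ins (tl r x : Set (Vx 2 × K)) → ω e = true} =
        (fun ω => ω e) ⁻¹' {true} := by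
      ext ω
      exact ⟨fun h2 => h2 h, fun h2 _ => h2⟩
    rw [h1]
    exact measurable_pi_apply e (MeasurableSet.singleton _)
  · have h1 : {ω : Vx 2 × K' → Bool | e ∈ P.gr.ins (tl r x : Set (Vx 2 × K)) → ω e = true} =
        Set.univ := by
      ext ω
      exact ⟨fun _ => trivial, fun _ h2 => absurd h2 h⟩
    rw [h1]
    exact MeasurableSet.univ

theorem PG3_ins (P : PG K K') (hP : P.Ok) (r : ℕ) (e : Vx 2 × K') :
    e ∈ P.gr.ins (tl r 0 : Set (Vx 2 × K)) ↔ e ∈ pbE P r := by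
  rw [mem_pbE P hP]
  show (nm ((P.gr.s e).1 - 0) ≤ r ∧ nm ((P.gr.r e).1 - 0) ≤ r) ↔ _
  rw [sub_zero, sub_zero]

theorem PG3_insx (P : PG K K') (r : ℕ) (x : Vx 2) (e : Vx 2 × K') :
    ((e.1 + x, e.2) : Vx 2 × K') ∈ P.gr.ins (tl r x : Set (Vx 2 × K)) ↔
      e ∈ P.gr.ins (tl r 0 : Set (Vx 2 × K)) := by
  show (nm (e.1 + x + P.sv e.2 - x) ≤ r ∧ nm (e.1 + x + P.rv e.2 - x) ≤ r) ↔
    (nm (e.1 + P.sv e.2 - 0) ≤ r ∧ nm (e.1 + P.rv e.2 - 0) ≤ r)
  have h1 : e.1 + x + P.sv e.2 - x = e.1 + P.sv e.2 - 0 := by abel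
  have h2 : e.1 + x + P.rv e.2 - x = e.1 + P.rv e.2 - 0 := by abel
  rw [h1, h2]

theorem PG3_congr (P : PG K K') {S S' : Set (Vx 2 × K')} {r : ℕ} {x : Vx 2}
    (h : S \ P.gr.ins (tl r x : Set (Vx 2 × K)) = S' \ P.gr.ins (tl r x : Set (Vx 2 × K)))
    (hT : TriP P S r x) : TriP P S' r x := by
  unfold TriP at hT ⊢
  rwa [h] at hT

theorem PG3_pos (P : PG K K') (hP : P.Ok) (ν : Measure (Vx 2 × K' → Bool))
    [IsProbabilityMeasure ν] (hI : INSe ν) (r : ℕ)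
    (h0 : 0 < ν.real {ω : Vx 2 × K' → Bool | TriP P (op1 ω) r 0}) :
    0 < ν.real (PG3_A P r 0) := by
  classical
  set p0 := ν.real {ω : Vx 2 × K' → Bool | TriP P (op1 ω) r 0} with hp0
  obtain ⟨C, hC, h1⟩ := opF_bound ν hI (pbE P r) (p0 / 2) (by positivity)
  have h2 := h1 (PG3_A P r 0) (PG3_A_meas P hP r 0)
  have h3 : {ω : Vx 2 × K' → Bool | TriP P (op1 ω) r 0} ⊆
      {ω | opF (pbE P r) ω ∈ PG3_A P r 0} := by
    intro ω hω
    refine ⟨?_, ?_⟩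
    · refine PG3_congr P (S := op1 ω) ?_ hω
      ext e
      constructor
      · rintro ⟨h4, h5⟩
        refine ⟨?_, h5⟩
        show opF (pbE P r) ω e = true
        unfold opF
        rw [if_neg (fun h => h5 ((PG3_ins P hP r e).2 h))]
        exact h4
      · rintro ⟨h4, h5⟩
        refine ⟨?_, h5⟩
        have h6 : opF (pbE P r) ω e = true := h4
        unfold opF at h6
        rw [if_neg (fun h => h5 ((PG3_ins P hP r e).2 h))] at h6
        exact h6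
    · rw [Set.mem_iInter]
      intro e he
      show opF (pbE P r) ω e = true
      unfold opF
      rw [if_pos ((PG3_ins P hP r e).1 he)]
  have h4 : p0 ≤ ν.real {ω | opF (pbE P r) ω ∈ PG3_A P r 0} := by
    rw [hp0]
    exact measureReal_mono h3
  have h5 : 0 < C * ν.real (PG3_A P r 0) := by linarith
  exact (pos_iff_pos_of_mul_pos h5).1 hC

theorem PG3_shift (P : PG K K') (r : ℕ) (x : Vx 2) :
    {ω : Vx 2 × K' → Bool | shP x ω ∈ PG3_A P r 0} ⊆ PG3_A P r x := by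
  rintro ω ⟨h1, h2⟩
  have hset : {e : Vx 2 × K' | ((e.1 + x, e.2) : Vx 2 × K') ∈
      op1 ω \ P.gr.ins (tl r x : Set (Vx 2 × K))} =
      op1 (shP x ω) \ P.gr.ins (tl r 0 : Set (Vx 2 × K)) := by
    ext e
    show (ω (e.1 + x, e.2) = true ∧
        ¬ ((e.1 + x, e.2) : Vx 2 × K') ∈ P.gr.ins (tl r x : Set (Vx 2 × K))) ↔
      (ω (e.1 + x, e.2) = true ∧ ¬ e ∈ P.gr.ins (tl r 0 : Set (Vx 2 × K)))
    rw [PG3_insx]
  have hc : ∀ u v, P.gr.Conn (op1 (shP x ω) \ P.gr.ins (tl r 0 : Set (Vx 2 × K))) u v ↔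
      P.gr.Conn (op1 ω \ P.gr.ins (tl r x : Set (Vx 2 × K))) (u.1 + x, u.2) (v.1 + x, v.2) := by
    intro u v
    rw [← hset]
    exact conn_sh P x _ u v
  have hinj : Function.Injective (fun z : Vx 2 × K => ((z.1 + x, z.2) : Vx 2 × K)) := by
    intro a b hab
    have hab' : ((a.1 + x, a.2) : Vx 2 × K) = (b.1 + x, b.2) := hab
    obtain ⟨e1, e2⟩ := Prod.mk.inj hab'
    exact Prod.ext (add_right_cancel e1) e2
  have hi : ∀ v : Vx 2 × K,
      (P.gr.cl (op1 (shP x ω) \ P.gr.ins (tl r 0 : Set (Vx 2 × K))) v).Infinite →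
      (P.gr.cl (op1 ω \ P.gr.ins (tl r x : Set (Vx 2 × K))) (v.1 + x, v.2)).Infinite := by
    intro v hv
    refine (hv.image hinj.injOn).mono ?_
    rintro _ ⟨w, hw, rfl⟩
    exact (hc v w).1 hw
  have ht : ∀ v : Vx 2 × K, v ∈ (tl r 0 : Set (Vx 2 × K)) →
      ((v.1 + x, v.2) : Vx 2 × K) ∈ (tl r x : Set (Vx 2 × K)) := by
    intro v hv
    have h3 : nm (v.1 - 0) ≤ r := hv
    show nm (v.1 + x - x) ≤ r
    rwa [add_sub_cancel_right, ← sub_zero v.1]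
  refine ⟨?_, ?_⟩
  · obtain ⟨v1, m1, v2, m2, v3, m3, a1, a2, a3, b1, b2, b3⟩ := h1
    exact ⟨_, ht _ m1, _, ht _ m2, _, ht _ m3, hi _ a1, hi _ a2, hi _ a3,
      fun h => b1 ((hc _ _).2 h), fun h => b2 ((hc _ _).2 h), fun h => b3 ((hc _ _).2 h)⟩
  · rw [Set.mem_iInter] at h2 ⊢
    intro e he
    have e0 : ((e.1 - x + x, e.2) : Vx 2 × K') = e := by rw [sub_add_cancel]
    have h3 : ((e.1 - x, e.2) : Vx 2 × K') ∈ P.gr.ins (tl r 0 : Set (Vx 2 × K)) := by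
      rw [← PG3_insx P r x ((e.1 - x, e.2) : Vx 2 × K')]
      show ((e.1 - x + x, e.2) : Vx 2 × K') ∈ P.gr.ins (tl r x : Set (Vx 2 × K))
      rw [e0]
      exact he
    have h4 : ω ((e.1 - x) + x, e.2) = true := h2 _ h3
    rwa [e0] at h4

theorem PG3_disj {r : ℕ} {k k' : Vx 2} (h : k ≠ k') :
    Disjoint (tl r (BKC_g r k) : Set (Vx 2 × K)) (tl r (BKC_g r k')) := by
  rw [Set.disjoint_left]
  intro z hz hz'
  have h1 : z.1 ∈ til r (BKC_g r k) := hz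
  have h2 : z.1 ∈ til r (BKC_g r k') := hz'
  exact Set.disjoint_left.1 (BKC_g_disj (r := r) h) h1 h2

theorem PG3_count (P : PG K K') (hP : P.Ok) (r m : ℕ) (hr : 1 ≤ r) (ω : Vx 2 × K' → Bool) :
    ∑ k ∈ bx 2 m, (PG3_A P r (BKC_g r k)).indicator (fun _ => (1 : ℝ)) ω ≤
      ((pbd K ((2 * r + 1) * m + r + 2)).card : ℝ) := by
  classical
  set X : Finset (Vx 2) := ((bx 2 m).filter (fun k => ω ∈ PG3_A P r (BKC_g r k))).image (BKC_g r)
    with hX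
  have h1 : ∑ k ∈ bx 2 m, (PG3_A P r (BKC_g r k)).indicator (fun _ => (1 : ℝ)) ω =
      (X.card : ℝ) := by
    rw [hX, Finset.card_image_of_injective _ (BKC_g_inj r), Finset.card_filter, Nat.cast_sum]
    refine Finset.sum_congr rfl fun k _ => ?_
    by_cases h : ω ∈ PG3_A P r (BKC_g r k)
    · rw [Set.indicator_of_mem h, if_pos h, Nat.cast_one]
    · rw [Set.indicator_of_notMem h, if_neg h, Nat.cast_zero]
  rw [h1]
  have hmem : ∀ x ∈ X, ∃ k, nm k ≤ m ∧ ω ∈ PG3_A P r (BKC_g r k) ∧ BKC_g r k = x := by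
    intro x hx
    obtain ⟨k, hk, hkx⟩ := Finset.mem_image.1 hx
    obtain ⟨h2, h3⟩ := Finset.mem_filter.1 hk
    exact ⟨k, mem_bx.1 h2, h3, hkx⟩
  have h2 := bk_pg P hP (op1 ω) r ((2 * r + 1) * m + r + 2) hr X ?_ ?_ ?_ ?_
  · exact_mod_cast h2
  · intro x hx
    obtain ⟨k, hk, -, rfl⟩ := hmem x hx
    have := BKC_g_nm (r := r) hk
    omega
  · intro x hx y hy hxy
    obtain ⟨k, -, -, rfl⟩ := hmem x hx
    obtain ⟨k', -, -, rfl⟩ := hmem y hy
    exact PG3_disj (fun h => hxy (by rw [h]))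
  · intro x hx e he
    obtain ⟨k, -, h3, rfl⟩ := hmem x hx
    exact Set.mem_iInter.1 h3.2 e he
  · intro x hx
    obtain ⟨k, -, h3, rfl⟩ := hmem x hx
    exact h3.1

theorem PG3_int (P : PG K K') (hP : P.Ok) (ν : Measure (Vx 2 × K' → Bool))
    [IsProbabilityMeasure ν] (r m : ℕ) (hr : 1 ≤ r) :
    ∑ k ∈ bx 2 m, ν.real (PG3_A P r (BKC_g r k)) ≤
      ((pbd K ((2 * r + 1) * m + r + 2)).card : ℝ) := by
  have hi : ∀ k ∈ bx 2 m, Integrable
      (fun ω => (PG3_A P r (BKC_g r k)).indicator (fun _ => (1 : ℝ)) ω) ν := by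
    intro k _
    exact (integrable_const (1 : ℝ)).indicator (PG3_A_meas P hP r _)
  have h1 : ∑ k ∈ bx 2 m, ν.real (PG3_A P r (BKC_g r k)) =
      ∫ ω, ∑ k ∈ bx 2 m, (PG3_A P r (BKC_g r k)).indicator (fun _ => (1 : ℝ)) ω ∂ν := by
    rw [integral_finsetSum _ hi]
    refine Finset.sum_congr rfl fun k _ => ?_
    rw [integral_indicator_const _ (PG3_A_meas P hP r _), smul_eq_mul, mul_one]
  rw [h1]
  have h2 : ∫ ω, ∑ k ∈ bx 2 m, (PG3_A P r (BKC_g r k)).indicator (fun _ => (1 : ℝ)) ω ∂ν ≤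
      ∫ _ω, ((pbd K ((2 * r + 1) * m + r + 2)).card : ℝ) ∂ν :=
    integral_mono (integrable_finsetSum _ hi) (integrable_const _)
      (fun ω => PG3_count P hP r m hr ω)
  rwa [integral_const, probReal_univ, one_smul] at h2

theorem no_triP (P : PG K K') (hP : P.Ok) (ν : Measure (Vx 2 × K' → Bool)) [IsProbabilityMeasure ν]
    (hT : TIP ν) (hI : INSe ν) (r : ℕ) (hr : 1 ≤ r) :
    ν.real {ω : Vx 2 × K' → Bool | TriP P (op1 ω) r 0} = 0 := by
  by_contra hne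
  have h0 : 0 < ν.real {ω : Vx 2 × K' → Bool | TriP P (op1 ω) r 0} :=
    lt_of_le_of_ne measureReal_nonneg (Ne.symm hne)
  have hp := PG3_pos P hP ν hI r h0
  set p := ν.real (PG3_A P r 0) with hpd
  have hA : ∀ x, p ≤ ν.real (PG3_A P r x) := by
    intro x
    rw [hpd, ← hT x _ (PG3_A_meas P hP r 0)]
    exact measureReal_mono (PG3_shift P r x)
  obtain ⟨C, hC⟩ := card_pbd K
  have key : ∀ m : ℕ, (2 * (m : ℝ) + 1) * p ≤ C * (2 * r + 3) := by
    intro m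
    have h1 := PG3_int P hP ν r m hr
    have h2 : ((2 * (m : ℝ) + 1) ^ 2) * p ≤ ∑ k ∈ bx 2 m, ν.real (PG3_A P r (BKC_g r k)) := by
      have h3 : ∑ _k ∈ bx 2 m, p ≤ ∑ k ∈ bx 2 m, ν.real (PG3_A P r (BKC_g r k)) :=
        Finset.sum_le_sum fun k _ => hA _
      rw [Finset.sum_const, card_bx, nsmul_eq_mul] at h3
      push_cast at h3
      exact h3
    have h4 : ((pbd K ((2 * r + 1) * m + r + 2)).card : ℝ) ≤
        C * ((2 * r + 1) * m + r + 3) := by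
      have h5 := hC ((2 * r + 1) * m + r + 2)
      have h6 : ((pbd K ((2 * r + 1) * m + r + 2)).card : ℝ) ≤
          ((C * ((2 * r + 1) * m + r + 2 + 1) : ℕ) : ℝ) := by exact_mod_cast h5
      refine h6.trans (le_of_eq ?_)
      push_cast
      ring
    have hm : (0 : ℝ) ≤ m := Nat.cast_nonneg m
    have hrr : (0 : ℝ) ≤ r := Nat.cast_nonneg r
    have hCC : (0 : ℝ) ≤ C := Nat.cast_nonneg C
    have h5 : ((2 * (r : ℝ) + 1) * m + r + 3) ≤ (2 * r + 3) * (2 * m + 1) := by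
      nlinarith [mul_nonneg hrr hm]
    have h6 : ((2 * (m : ℝ) + 1) ^ 2) * p ≤ C * ((2 * r + 3) * (2 * m + 1)) :=
      (h2.trans h1).trans (h4.trans (mul_le_mul_of_nonneg_left h5 hCC))
    have h9 : (0 : ℝ) < 2 * m + 1 := by positivity
    refine le_of_mul_le_mul_left ?_ h9
    linarith
  obtain ⟨m, hm⟩ := exists_nat_gt (C * (2 * (r : ℝ) + 3) / p)
  rw [div_lt_iff₀ hp] at hm
  have h1 := key m
  have : (0 : ℝ) ≤ m := Nat.cast_nonneg m
  nlinarith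

end H82.BX
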