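import Pool.Agent.H82.BX.NU1
import Pool.Agent.H82.BX.HS4
import Pool.Agent.H82.BX.PG1
import Pool.Agent.H82.BX.PG3
import Pool.Agent.H82.BX.POI

/-!
# NU5: infinite clusters of `ω⁻` have positive probability

`hs_arm`: for all `n` and `v ∈ FN n`: `PM (EN n) (v ↔ outside of FN n) ≥ 1/(4C'+1)`-type bound.  For fixed `k` and `n > k + nm v.1` the event implies the cylinder event `Ak = {v ↔ {nm ≥ k} inside pbE HH (k+1)}` (or any local version: the first exit of the path, `exit_pg`),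
so `ν⁻(Ak) ≥ 1/(4C'+1)` for all `k` (`nu_pm`; `PM` with `B = EN n` versus `B = F`: the factors of the other edges sum to one); the decreasing intersection of the `Ak` is contained in `{cluster of v infinite}` (`inf_pg`, finite degree: the cluster contains vertices
with `nm ≥ k` for every `k`).
-/

set_option autoImplicit false

open Finset MeasureTheory Filter Topology

namespace H82.BX

open H82.IC XYB

section em
variable {V E : Type} [DecidableEq E]

theorem NU5_em_insert (w : ℤ → ℝ) (G : Gr V E) (B : Finset E) (e : E) (he : e ∉ B) (h : V → ℤ)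
    (φ : (E → Bool) → ℝ) (hφ : ∀ o o' : E → Bool, (∀ a, a ≠ e → o a = o' a) → φ o = φ o') :
    em w G (insert e B) h φ = em w G B h φ := by
  classical
  unfold em
  set q : E → ℝ := fun a => qm w (h (G.s a)) (h (G.r a)) with hq
  let ε : ↥(insert e B) ≃ Option ↥B := Finset.subtypeInsertEquivOption he
  have hs : ∀ b : ↥B, ε.symm (some b) = ⟨b.1, mem_insert_of_mem b.2⟩ := by
    intro b; rfl
  have hn : ε.symm none = ⟨e, mem_insert_self e B⟩ := by rfl
  let E2 : (↥(insert e B) → Bool) ≃ Bool × (↥B → Bool) :=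
    (Equiv.arrowCongr ε (Equiv.refl Bool)).trans (Equiv.piOptionEquivProd (β := fun _ => Bool))
  have key : ∀ ω : ↥(insert e B) → Bool,
      (∏ a : ↥(insert e B), if ω a then q a.1 else 1 - q a.1) * φ (g0 (insert e B) ω) =
      (if (E2 ω).1 then q e else 1 - q e) *
        ((∏ a : ↥B, if (E2 ω).2 a then q a.1 else 1 - q a.1) * φ (g0 B (E2 ω).2)) := by
    intro ω
    have h1 : (E2 ω).1 = ω ⟨e, mem_insert_self e B⟩ := by
      change ω (ε.symm none) = _
      rw [hn]
    have h2 : ∀ a : ↥B, (E2 ω).2 a = ω ⟨a.1, mem_insert_of_mem a.2⟩ := by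
      intro a
      change ω (ε.symm (some a)) = _
      rw [hs]
    have h3 : (∏ a : ↥(insert e B), if ω a then q a.1 else 1 - q a.1) =
        (if (E2 ω).1 then q e else 1 - q e) *
          ∏ a : ↥B, if (E2 ω).2 a then q a.1 else 1 - q a.1 := by
      rw [← Equiv.prod_comp ε.symm, Fintype.prod_option]
      congr 1
    have h4 : φ (g0 (insert e B) ω) = φ (g0 B (E2 ω).2) := by
      refine hφ _ _ fun a ha => ?_
      unfold g0
      by_cases hb : a ∈ B
      · rw [dif_pos hb, dif_pos (mem_insert_of_mem hb), h2]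
      · rw [dif_neg hb, dif_neg]
        intro hc
        rcases Finset.mem_insert.1 hc with h5 | h5
        · exact ha h5
        · exact hb h5
    rw [h3, h4, mul_assoc]
  rw [Finset.sum_congr rfl fun ω _ => key ω]
  rw [Equiv.sum_comp E2 (fun p : Bool × (↥B → Bool) => (if p.1 then q e else 1 - q e) *
        ((∏ a : ↥B, if p.2 a then q a.1 else 1 - q a.1) * φ (g0 B p.2)))]
  rw [Fintype.sum_prod_type]
  rw [Fintype.sum_bool]
  simp only [if_true, Bool.false_eq_true, if_false]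
  rw [← Finset.mul_sum, ← Finset.mul_sum, ← add_mul]
  rw [add_sub_cancel, one_mul]

theorem NU5_em_local (w : ℤ → ℝ) (G : Gr V E) (F B : Finset E) (hFB : F ⊆ B) (h : V → ℤ)
    (φ : (E → Bool) → ℝ) (hφ : ∀ o o' : E → Bool, (∀ a ∈ F, o a = o' a) → φ o = φ o') :
    em w G B h φ = em w G F h φ := by
  classical
  have key : ∀ D : Finset E, Disjoint D F → em w G (D ∪ F) h φ = em w G F h φ := by
    intro D
    induction D using Finset.induction_on with
    | empty => intro _; rw [Finset.empty_union]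
    | @insert e D he ih =>
      intro hd
      rw [Finset.disjoint_insert_left] at hd
      rw [Finset.insert_union, NU5_em_insert w G (D ∪ F) e, ih hd.2]
      · rw [Finset.mem_union]
        rintro (h1 | h1)
        · exact he h1
        · exact hd.1 h1
      · intro o o' ho
        refine hφ _ _ fun a ha => ho a ?_
        rintro rfl
        exact hd.1 ha
  have h1 := key (B \ F) Finset.sdiff_disjoint
  rwa [Finset.sdiff_union_of_subset hFB] at h1

theorem NU5_em_le (w : ℤ → ℝ) (hw : WOk w) (G : Gr V E) (B : Finset E) (h : V → ℤ)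
    (φ ψ : (E → Bool) → ℝ) (hφ : ∀ o, φ o ≤ ψ o) : em w G B h φ ≤ em w G B h ψ := by
  unfold em
  refine Finset.sum_le_sum fun ω _ => mul_le_mul_of_nonneg_left (hφ _) ?_
  refine Finset.prod_nonneg fun e _ => ?_
  have := qm_bd w hw (h (G.s e.1)) (h (G.r e.1))
  split_ifs
  · exact this.1
  · linarith [this.2]

end em

theorem NU5_ind_nn (p : Prop) : 0 ≤ ind p ∧ ind p ≤ 1 := by
  unfold ind
  split_ifs <;> norm_num

theorem NU5_ind_mono {p q : Prop} (h : p → q) : ind p ≤ ind q := by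
  classical
  unfold ind
  by_cases hp : p
  · rw [if_pos hp, if_pos (h hp)]
  · rw [if_neg hp]
    split_ifs <;> norm_num

theorem NU5_PBd_em {V E : Type} [DecidableEq V] [DecidableEq E] (F : Finset V) (w : ℤ → ℝ) (hw : WOk w)
    (G : Gr V E) (B : Finset E) (φ : (E → Bool) → ℝ) (h0 : ∀ o, 0 ≤ φ o ∧ φ o ≤ 1) :
    PBd F (fun h => em w G B h φ) := by
  refine PBd_bdd F _ 1 fun h => ?_
  have := em_bd w hw G B h φ (fun o => (h0 o).1) (fun o => (h0 o).2)
  rw [abs_le]
  constructor <;> linarith [this.1, this.2]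

/-- the local event. -/
def NU5_A (v : Vx 2 × Bool) (k : ℕ) : Set (Vx 2 × Fin 3 → Bool) :=
  {ω | ∃ b ∈ pbd Bool k, HH.gr.Conn (op1 ω ∩ pbE HH k) v b}

theorem NU5_A_loc (v : Vx 2 × Bool) (k : ℕ) (ω ω' : Vx 2 × Fin 3 → Bool)
    (h : ∀ e ∈ pbE HH k, ω e = ω' e) : ω ∈ NU5_A v k ↔ ω' ∈ NU5_A v k := by
  have h1 : op1 ω ∩ (pbE HH k : Set (Vx 2 × Fin 3)) = op1 ω' ∩ pbE HH k := by
    ext e
    constructor
    · rintro ⟨h2, h3⟩
      refine ⟨?_, h3⟩
      change ω' e = true
      rw [← h e (Finset.mem_coe.1 h3)]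
      exact h2
    · rintro ⟨h2, h3⟩
      refine ⟨?_, h3⟩
      change ω e = true
      rw [h e (Finset.mem_coe.1 h3)]
      exact h2
  unfold NU5_A
  rw [Set.mem_setOf_eq, Set.mem_setOf_eq, h1]

theorem NU5_nm_lt {n : ℕ} {v : Vx 2 × Bool} (h : nm v.1 < n) : v ∈ FN n := by
  rw [mem_FN]
  intro i
  have := G1_le_nm v.1 i
  omega

theorem NU5_nm_ge {n : ℕ} {v : Vx 2 × Bool} (h : v ∉ FN n) : n ≤ nm v.1 := by
  by_contra hc
  exact h (NU5_nm_lt (by omega))

theorem NU5_pbE_EN {k n : ℕ} (h : k < n) : pbE HH k ⊆ EN n := by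
  intro e he
  rw [mem_pbE HH HH_ok] at he
  exact ((FN_Bd n).mem e).2 (Or.inl (NU5_nm_lt (by omega)))

theorem nu_arm (κ C' : ℝ) (hκ : 0 < κ) (h1 : wk κ 0 ≤ 2 * wk κ 1)
    (hM : ∀ n : ℕ, ∀ i ∈ FN n, En (wk κ) n (fun h => (h i : ℝ) ^ 2) ≤ C')
    (ν : Measure (Vx 2 × Fin 3 → Fin 3)) [IsProbabilityMeasure ν] (hν : NuL κ ν)
    (v : Vx 2 × Bool) : 0 < (ν.map (stt 1)).real {ω | (HH.gr.cl (op1 ω) v).Infinite} := by
  classical
  have hw := wk_ok κ hκ
  -- second moments are nonnegative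
  have hnn : ∀ n : ℕ, 0 ≤ En (wk κ) n (fun h => (h v : ℝ) ^ 2) := by
    intro n
    have h2 : PBd (FN n) (fun h : (Vx 2 × Bool → ℤ) => (h v : ℝ) ^ 2) := by
      have h3 := PBd_mul (FN n) _ _ (PBd_h (FN n) v) (PBd_h (FN n) v)
      simpa only [sq] using h3
    have h4 := Eh_mono HH.gr (FN n) (EN n) (FN_Bd n) (wk κ) hw (fun _ => (0 : ℝ))
      (fun h => (h v : ℝ) ^ 2) (PBd_bdd _ _ 0 (fun _ => by simp)) h2 (fun h => sq_nonneg _)
    rw [Eh_one HH.gr (FN n) (EN n) (FN_Bd n) (wk κ) hw 0] at h4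
    exact h4
  have hv0 : v ∈ FN (nm v.1 + 1) := NU5_nm_lt (by omega)
  have hC : 0 ≤ C' := (hnn _).trans (hM _ v hv0)
  set δ : ℝ := 1 / (4 * C' + 1) with hδ
  have hδ0 : 0 < δ := by positivity
  -- the local events
  have hA : ∀ k, nm v.1 ≤ k → δ ≤ ν.real {η | stt 1 η ∈ NU5_A v k} := by
    intro k hk
    have hlim := nu_pm κ hκ h1 ν hν (pbE HH k) (NU5_A v k) (NU5_A_loc v k)
    refine ge_of_tendsto hlim ?_
    filter_upwards [eventually_gt_atTop k] with n hn
    have hvn : v ∈ FN n := NU5_nm_lt (by omega)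
    have h2 := hs_arm HH.gr (FN n) (EN n) (FN_Bd n) (wk κ) hw v hvn
    have h3 : δ ≤ 1 / (4 * Eh HH.gr (FN n) (EN n) (wk κ) (fun h => (h v : ℝ) ^ 2) + 1) := by
      rw [hδ]
      have h4 := hM n v hvn
      have h5 := hnn n
      unfold En at h4 h5
      exact one_div_le_one_div_of_le (by linarith) (by linarith)
    refine h3.trans (h2.trans ?_)
    have h6 : ∀ o : Vx 2 × Fin 3 → Bool, ind (∃ u, u ∉ FN n ∧ HH.gr.Conn (op1 o) v u) ≤
        ind (o ∈ NU5_A v k) := by
      intro o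
      refine NU5_ind_mono ?_
      rintro ⟨u, hu, hc⟩
      exact exit_pg HH HH_ok hk (lt_of_lt_of_le hn (NU5_nm_ge hu)) hc
    have h7 : PM HH.gr (FN n) (EN n) (wk κ) (EN n)
        (fun o => ind (∃ u, u ∉ FN n ∧ HH.gr.Conn (op1 o) v u)) ≤
        PM HH.gr (FN n) (EN n) (wk κ) (EN n) (fun o => ind (o ∈ NU5_A v k)) := by
      unfold PM
      refine Eh_mono HH.gr (FN n) (EN n) (FN_Bd n) (wk κ) hw _ _ ?_ ?_ ?_
      · exact NU5_PBd_em _ _ hw _ _ _ (fun o => NU5_ind_nn _)
      · exact NU5_PBd_em _ _ hw _ _ _ (fun o => NU5_ind_nn _)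
      · intro h
        exact NU5_em_le _ hw _ _ _ _ _ h6
    refine h7.trans (le_of_eq ?_)
    unfold PM
    refine Eh_congr _ _ _ _ _ _ fun h => ?_
    refine NU5_em_local _ _ _ _ (NU5_pbE_EN hn) _ _ ?_
    intro o o' ho
    have h8 := NU5_A_loc v k o o' ho
    rw [show (o ∈ NU5_A v k) = (o' ∈ NU5_A v k) from propext h8]
  -- measurability
  have hst : Measurable (stt 1 : (Vx 2 × Fin 3 → Fin 3) → Vx 2 × Fin 3 → Bool) := by
    rw [measurable_pi_iff]
    intro e
    have h2 : Measurable (fun a : Fin 3 => decide (a = 1)) := measurable_of_countable _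
    exact h2.comp (measurable_pi_apply e)
  let Ck : ℕ → Set (Vx 2 × Fin 3 → Bool) := fun k =>
    {ω | ∃ b : Vx 2 × Bool, k ≤ nm b.1 ∧ HH.gr.Conn (op1 ω) v b}
  have hCm : ∀ k, MeasurableSet (Ck k) := by
    intro k
    have h2 : Ck k = ⋃ b : Vx 2 × Bool, {ω | k ≤ nm b.1 ∧ HH.gr.Conn (op1 ω) v b} := by
      ext ω
      simp only [Ck, Set.mem_setOf_eq, Set.mem_iUnion]
    rw [h2]
    refine MeasurableSet.iUnion fun b => ?_
    by_cases hb : k ≤ nm b.1
    · have h3 := meas_connP HH HH_ok ∅ v b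
      simp only [Set.diff_empty] at h3
      simpa only [hb, true_and] using h3
    · simp only [hb, false_and, Set.setOf_false, MeasurableSet.empty]
  have hanti : Antitone Ck := by
    intro k l hkl ω
    rintro ⟨b, hb, hc⟩
    exact ⟨b, hkl.trans hb, hc⟩
  have hCA : ∀ k, nm v.1 ≤ k + 1 → NU5_A v (k + 1) ⊆ Ck k := by
    intro k _ ω
    rintro ⟨b, hb, hc⟩
    rw [mem_pbd] at hb
    exact ⟨b, by omega, conn_mono _ Set.inter_subset_left hc⟩
  have hint : (⋂ k, Ck k) = {ω | (HH.gr.cl (op1 ω) v).Infinite} := by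
    ext ω
    rw [Set.mem_iInter, Set.mem_setOf_eq, inf_pg HH]
    rfl
  haveI : IsProbabilityMeasure (ν.map (stt 1 : (Vx 2 × Fin 3 → Fin 3) → Vx 2 × Fin 3 → Bool)) :=
    Measure.isProbabilityMeasure_map hst.aemeasurable
  have hlow : ∀ k, nm v.1 ≤ k → δ ≤ (ν.map (stt 1)).real (Ck k) := by
    intro k hk
    have h2 := hA (k + 1) (by omega)
    rw [map_measureReal_apply hst (hCm k)]
    refine h2.trans (measureReal_mono ?_)
    intro η hη
    exact hCA k (by omega) hη
  have hten : Tendsto (fun k => (ν.map (stt 1)).real (Ck k)) atTop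
      (𝓝 ((ν.map (stt 1)).real (⋂ k, Ck k))) := by
    have h2 := tendsto_measure_iInter_atTop (μ := ν.map (stt 1)) (s := Ck)
      (fun k => (hCm k).nullMeasurableSet) hanti ⟨0, measure_ne_top _ _⟩
    exact (ENNReal.tendsto_toReal (measure_ne_top _ _)).comp h2
  rw [← hint]
  refine lt_of_lt_of_le hδ0 (ge_of_tendsto hten ?_)
  filter_upwards [eventually_ge_atTop (nm v.1)] with k hk
  exact hlow k hk

end H82.BX
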