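import Pool.Agent.H82.BX.NU0
import Pool.Agent.H82.BX.POI

/-!
# NU6: invariances of the limit law

* `nu_tip`: `tip_of_lc` (translation invariance for cylinder events suffices): for a cylinder event `X` depending on `F` the event `{η | shP a η ∈ X}` depends on the translate of `F` and `PX (Pq κ n) (F + a) {..} = ∑_ξ En (the translated integrand)`;
  by the second part of `lih` it has the same limit as `PX (Pq κ n) F X`.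
* `nu_s1`, `nu_s2`: `Eh_iso` with the involutions `sV1`, `sV2` of the vertices and `sE1`, `sE2` of the edges (`FN n`, `EN n` are invariant, `HH.gr.s`, `r` are mapped to each other in some order; `qm_symm`): the masses `PX (Pq κ n)` of `X` and
  of `{η | η ∘ sE1 ∈ X}` are equal for every `n`; cylinder events generate (compare `tip_of_lc`: uniqueness of measures on a pi-system).
* `nu_fl`: `Eh_neg` and `q3 w (-a) (-b) = q3 w a b ∘ fl3`.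
-/

set_option autoImplicit false

open Finset MeasureTheory Filter Topology

namespace H82.BX

open H82.IC XYB

theorem NU6_PX (σ : Vx 2 × Fin 3 ≃ Vx 2 × Fin 3) (τ : Fin 3 ≃ Fin 3)
    (P Q : Finset (Vx 2 × Fin 3) → (Vx 2 × Fin 3 → Fin 3) → ℝ) (F : Finset (Vx 2 × Fin 3))
    (X : Set (Vx 2 × Fin 3 → Fin 3))
    (hX : ∀ ω ω' : Vx 2 × Fin 3 → Fin 3, (∀ e ∈ F, ω e = ω' e) → (ω ∈ X ↔ ω' ∈ X))
    (hQ : ∀ ξ ξ' : Vx 2 × Fin 3 → Fin 3, (∀ e ∈ F, ξ e = ξ' e) → Q F ξ = Q F ξ')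
    (hPQ : ∀ ξ, P (F.map σ.toEmbedding) ξ = Q F (fun e => τ (ξ (σ e)))) :
    PX P (F.map σ.toEmbedding) {η | (fun e => τ (η (σ e))) ∈ X} = PX Q F X := by
  unfold PX
  have hm : ∀ e, e ∈ F ↔ σ e ∈ F.map σ.toEmbedding := by intro e; simp
  refine Fintype.sum_equiv (Equiv.arrowCongr (σ.subtypeEquiv hm).symm τ) _ _ ?_
  intro ζ
  have h1 : ∀ e ∈ F, τ (gl (F.map σ.toEmbedding) ζ (σ e)) =
      gl F (Equiv.arrowCongr (σ.subtypeEquiv hm).symm τ ζ) e := by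
    intro e he
    have he' := (hm e).1 he
    unfold gl
    rw [dif_pos he, dif_pos he']
    rfl
  rw [hPQ, hQ _ _ h1]
  have h2 : ((fun e => τ (gl (F.map σ.toEmbedding) ζ (σ e))) ∈ X) =
      (gl F (Equiv.arrowCongr (σ.subtypeEquiv hm).symm τ ζ) ∈ X) :=
    propext (hX _ _ h1)
  rw [Set.mem_ofPred_eq, h2]

theorem NU6_Pq_loc (κ : ℝ) (n : ℕ) (F : Finset (Vx 2 × Fin 3)) (ξ ξ' : Vx 2 × Fin 3 → Fin 3)
    (h : ∀ e ∈ F, ξ e = ξ' e) : Pq κ n F ξ = Pq κ n F ξ' := by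
  unfold Pq
  congr 1
  funext g
  exact Finset.prod_congr rfl (fun e he => by rw [h e he])

theorem NU6_locX (σ : Vx 2 × Fin 3 ≃ Vx 2 × Fin 3) (τ : Fin 3 ≃ Fin 3) (F : Finset (Vx 2 × Fin 3))
    (X : Set (Vx 2 × Fin 3 → Fin 3))
    (hX : ∀ ω ω' : Vx 2 × Fin 3 → Fin 3, (∀ e ∈ F, ω e = ω' e) → (ω ∈ X ↔ ω' ∈ X))
    (ω ω' : Vx 2 × Fin 3 → Fin 3) (h : ∀ e ∈ F.map σ.toEmbedding, ω e = ω' e) :
    (ω ∈ {η : Vx 2 × Fin 3 → Fin 3 | (fun e => τ (η (σ e))) ∈ X} ↔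
      ω' ∈ {η : Vx 2 × Fin 3 → Fin 3 | (fun e => τ (η (σ e))) ∈ X}) := by
  refine hX _ _ fun e he => ?_
  have h1 := h (σ e) (by simpa using he)
  show τ (ω (σ e)) = τ (ω' (σ e))
  rw [h1]

theorem NU6_lc0 (κ : ℝ) (ν : Measure (Vx 2 × Fin 3 → Fin 3)) (hν : NuL κ ν)
    (σ : Vx 2 × Fin 3 ≃ Vx 2 × Fin 3) (τ : Fin 3 ≃ Fin 3)
    (hPQ : ∀ (n : ℕ) (F : Finset (Vx 2 × Fin 3)) (ξ : Vx 2 × Fin 3 → Fin 3),
      Pq κ n (F.map σ.toEmbedding) ξ = Pq κ n F (fun e => τ (ξ (σ e))))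
    (X : Set (Vx 2 × Fin 3 → Fin 3)) (hX : Lc X) :
    ν.real {η | (fun e => τ (η (σ e))) ∈ X} = ν.real X := by
  obtain ⟨F, hF⟩ := hX
  have h1 := hν F X hF
  have h2 := hν (F.map σ.toEmbedding) _ (NU6_locX σ τ F X hF)
  have h3 : (fun n => PX (Pq κ n) (F.map σ.toEmbedding)
      {η : Vx 2 × Fin 3 → Fin 3 | (fun e => τ (η (σ e))) ∈ X}) = fun n => PX (Pq κ n) F X := by
    funext n
    exact NU6_PX σ τ (Pq κ n) (Pq κ n) F X hF (NU6_Pq_loc κ n F) (hPQ n F)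
  rw [h3] at h2
  exact tendsto_nhds_unique h2 h1

theorem NU6_ext (ν : Measure (Vx 2 × Fin 3 → Fin 3)) [IsProbabilityMeasure ν]
    (σ : Vx 2 × Fin 3 → Vx 2 × Fin 3) (τ : Fin 3 → Fin 3)
    (h : ∀ X : Set (Vx 2 × Fin 3 → Fin 3), Lc X → ν.real {η | (fun e => τ (η (σ e))) ∈ X} = ν.real X)
    (X : Set (Vx 2 × Fin 3 → Fin 3)) (hX : MeasurableSet X) :
    ν.real {η | (fun e => τ (η (σ e))) ∈ X} = ν.real X := by
  have hm : Measurable (fun (η : Vx 2 × Fin 3 → Fin 3) (e : Vx 2 × Fin 3) => τ (η (σ e))) := by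
    rw [measurable_pi_iff]
    intro e
    exact (measurable_of_finite τ).comp (measurable_pi_apply (σ e))
  have hpm : IsProbabilityMeasure (ν.map (fun (η : Vx 2 × Fin 3 → Fin 3) (e : Vx 2 × Fin 3) =>
      τ (η (σ e)))) := Measure.isProbabilityMeasure_map hm.aemeasurable
  have h1 : ν.map (fun (η : Vx 2 × Fin 3 → Fin 3) (e : Vx 2 × Fin 3) => τ (η (σ e))) = ν := by
    refine lc_ext _ _ ?_
    intro Y hY
    have h2 := h Y hY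
    rw [← h2, Measure.real, Measure.map_apply hm (lc_meas hY)]
    rfl
  have h3 : (ν.map (fun (η : Vx 2 × Fin 3 → Fin 3) (e : Vx 2 × Fin 3) => τ (η (σ e)))).real X =
      ν.real X := by rw [h1]
  rw [Measure.real, Measure.map_apply hm hX] at h3
  exact h3

theorem NU6_q3_symm (w : ℤ → ℝ) (hw : WOk w) (a b : ℤ) (i : Fin 3) : q3 w a b i = q3 w b a i := by
  unfold q3
  rw [qm_symm w hw a b, qm_symm w hw (-a) (-b)]

theorem NU6_q3_neg (w : ℤ → ℝ) (a b : ℤ) (i : Fin 3) : q3 w (-a) (-b) i = q3 w a b (fl3 i) := by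
  unfold q3 fl3
  rw [neg_neg, neg_neg]
  fin_cases i
  · show 1 - qm w (-a) (-b) - qm w a b = 1 - qm w a b - qm w (-a) (-b)
    ring
  · rfl
  · rfl

/-- invariance under a symmetry of the boxes. -/
theorem NU6_iso (κ : ℝ) (hκ : 0 < κ) (gV : Vx 2 × Bool ≃ Vx 2 × Bool)
    (σ : Vx 2 × Fin 3 ≃ Vx 2 × Fin 3)
    (hg : ∀ e, (gV (HH.gr.s e) = HH.gr.s (σ e) ∧ gV (HH.gr.r e) = HH.gr.r (σ e)) ∨
      (gV (HH.gr.s e) = HH.gr.r (σ e) ∧ gV (HH.gr.r e) = HH.gr.s (σ e))) (n : ℕ)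
    (hF : ∀ v, v ∈ FN n ↔ gV v ∈ FN n) (hE : ∀ e, e ∈ EN n ↔ σ e ∈ EN n)
    (F : Finset (Vx 2 × Fin 3)) (ξ : Vx 2 × Fin 3 → Fin 3) :
    Pq κ n (F.map σ.toEmbedding) ξ = Pq κ n F (fun e => ξ (σ e)) := by
  have hw := wk_ok κ hκ
  unfold Pq En
  rw [Eh_iso HH.gr (FN n) (FN n) (EN n) (EN n) (wk κ) hw gV σ hg hF hE]
  congr 1
  funext h
  rw [Finset.prod_map]
  refine Finset.prod_congr rfl fun e _ => ?_
  show q3 (wk κ) (h (gV.symm (HH.gr.s (σ e)))) (h (gV.symm (HH.gr.r (σ e)))) (ξ (σ e)) = _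
  rcases hg e with ⟨h1, h2⟩ | ⟨h1, h2⟩
  · rw [← h1, ← h2, Equiv.symm_apply_apply, Equiv.symm_apply_apply]
  · rw [← h1, ← h2, Equiv.symm_apply_apply, Equiv.symm_apply_apply, NU6_q3_symm _ hw]

set_option linter.unusedSimpArgs false

theorem NU6_swp_swp (z : Vx 2) : swp (swp z) = z := by
  ext i; fin_cases i <;> rfl

theorem NU6_sV1_inv (v : Vx 2 × Bool) : sV1 (sV1 v) = v := by
  simp [sV1, NU6_swp_swp]

theorem NU6_fin3 (k : Fin 3) : k = 0 ∨ k = 1 ∨ k = 2 := by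
  fin_cases k <;> simp

theorem NU6_sE1_inv (e : Vx 2 × Fin 3) : sE1 (sE1 e) = e := by
  obtain ⟨z, k⟩ := e
  rcases NU6_fin3 k with rfl | rfl | rfl <;> simp [sE1, NU6_swp_swp]

theorem NU6_e00 : (Pi.single 0 1 : Vx 2) 0 = 1 := by simp
theorem NU6_e01 : (Pi.single 0 1 : Vx 2) 1 = 0 := by simp
theorem NU6_e10 : (Pi.single 1 1 : Vx 2) 0 = 0 := by simp
theorem NU6_e11 : (Pi.single 1 1 : Vx 2) 1 = 1 := by simp
theorem NU6_p2 {x y : Vx 2} (h0 : x 0 = y 0) (h1 : x 1 = y 1) : x = y := by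
  funext i
  rcases (by fin_cases i <;> simp : i = 0 ∨ i = 1) with rfl | rfl
  · exact h0
  · exact h1

theorem NU6_sV2_inv (v : Vx 2 × Bool) : sV2 (sV2 v) = v := by
  obtain ⟨z, b⟩ := v
  refine Prod.ext (NU6_p2 ?_ ?_) rfl
  · show -(-z 0 - 1) - 1 = z 0
    ring
  · show -(-z 1 - 1) - 1 = z 1
    ring

theorem NU6_sE2_inv (e : Vx 2 × Fin 3) : sE2 (sE2 e) = e := by
  obtain ⟨z, k⟩ := e
  rcases NU6_fin3 k with rfl | rfl | rfl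
  · refine Prod.ext (NU6_p2 ?_ ?_) rfl
    · show -(-z 0 - (Pi.single 1 1 : Vx 2) 1) - (Pi.single 0 1 : Vx 2) 0 = z 0
      rw [NU6_e00, NU6_e11]; ring
    · show -(-z 1 - (Pi.single 1 1 : Vx 2) 0) - (Pi.single 0 1 : Vx 2) 1 = z 1
      rw [NU6_e01, NU6_e10]; ring
  · refine Prod.ext (NU6_p2 ?_ ?_) rfl
    · show -(-z 0 - (Pi.single 0 1 : Vx 2) 1) - (Pi.single 1 1 : Vx 2) 0 = z 0
      rw [NU6_e01, NU6_e10]; ring
    · show -(-z 1 - (Pi.single 0 1 : Vx 2) 0) - (Pi.single 1 1 : Vx 2) 1 = z 1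
      rw [NU6_e00, NU6_e11]; ring
  · refine Prod.ext (NU6_p2 ?_ ?_) rfl
    · show -(-z 0 - 1) - 1 = z 0
      ring
    · show -(-z 1 - 1) - 1 = z 1
      ring

def NU6_V1 : Vx 2 × Bool ≃ Vx 2 × Bool := ⟨sV1, sV1, NU6_sV1_inv, NU6_sV1_inv⟩
def NU6_E1 : Vx 2 × Fin 3 ≃ Vx 2 × Fin 3 := ⟨sE1, sE1, NU6_sE1_inv, NU6_sE1_inv⟩
def NU6_V2 : Vx 2 × Bool ≃ Vx 2 × Bool := ⟨sV2, sV2, NU6_sV2_inv, NU6_sV2_inv⟩
def NU6_E2 : Vx 2 × Fin 3 ≃ Vx 2 × Fin 3 := ⟨sE2, sE2, NU6_sE2_inv, NU6_sE2_inv⟩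

theorem NU6_a0 (x y : Vx 2) (i : Fin 2) : (x + y) i = x i + y i := rfl
theorem NU6_a1 (x y : Vx 2) (i : Fin 2) : (x - y) i = x i - y i := rfl
theorem NU6_a2 (x : Vx 2) (i : Fin 2) : (-x) i = -x i := rfl
theorem NU6_a3 (z : Vx 2) : swp z 0 = z 1 := rfl
theorem NU6_a4 (z : Vx 2) : swp z 1 = z 0 := rfl
theorem NU6_a5 (i : Fin 2) : (0 : Vx 2) i = 0 := rfl
theorem NU6_a6 (i : Fin 2) : (1 : Vx 2) i = 1 := rfl

theorem NU6_g1 (e : Vx 2 × Fin 3) :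
    sV1 (HH.gr.s e) = HH.gr.r (sE1 e) ∧ sV1 (HH.gr.r e) = HH.gr.s (sE1 e) := by
  obtain ⟨z, k⟩ := e
  rcases NU6_fin3 k with rfl | rfl | rfl
  · refine ⟨Prod.ext (show swp (z + 0) = swp z + 0 from NU6_p2 ?_ ?_) rfl,
      Prod.ext (show swp (z + -Pi.single 1 1) = swp z + -Pi.single 0 1 from NU6_p2 ?_ ?_) rfl⟩ <;>
    simp only [NU6_a0, NU6_a1, NU6_a2, NU6_a3, NU6_a4, NU6_a5, NU6_a6, NU6_e00, NU6_e01, NU6_e10, NU6_e11]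
  · refine ⟨Prod.ext (show swp (z + -Pi.single 0 1) = swp z + -Pi.single 1 1 from NU6_p2 ?_ ?_) rfl,
      Prod.ext (show swp (z + 0) = swp z + 0 from NU6_p2 ?_ ?_) rfl⟩ <;>
    simp only [NU6_a0, NU6_a1, NU6_a2, NU6_a3, NU6_a4, NU6_a5, NU6_a6, NU6_e00, NU6_e01, NU6_e10, NU6_e11]
  · refine ⟨Prod.ext (show swp (z + 0) = swp z + 0 from NU6_p2 ?_ ?_) rfl,
      Prod.ext (show swp (z + 0) = swp z + 0 from NU6_p2 ?_ ?_) rfl⟩ <;>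
    simp only [NU6_a0, NU6_a1, NU6_a2, NU6_a3, NU6_a4, NU6_a5, NU6_a6, NU6_e00, NU6_e01, NU6_e10, NU6_e11]

theorem NU6_g2 (e : Vx 2 × Fin 3) :
    sV2 (HH.gr.s e) = HH.gr.s (sE2 e) ∧ sV2 (HH.gr.r e) = HH.gr.r (sE2 e) := by
  obtain ⟨z, k⟩ := e
  rcases NU6_fin3 k with rfl | rfl | rfl
  · refine ⟨Prod.ext (show -swp (z + 0) - 1 = (-swp z - Pi.single 1 1) + -Pi.single 0 1
        from NU6_p2 ?_ ?_) rfl,
      Prod.ext (show -swp (z + -Pi.single 1 1) - 1 = (-swp z - Pi.single 1 1) + 0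
        from NU6_p2 ?_ ?_) rfl⟩ <;>
    simp only [NU6_a0, NU6_a1, NU6_a2, NU6_a3, NU6_a4, NU6_a5, NU6_a6, NU6_e00, NU6_e01, NU6_e10, NU6_e11] <;> ring
  · refine ⟨Prod.ext (show -swp (z + -Pi.single 0 1) - 1 = (-swp z - Pi.single 0 1) + 0
        from NU6_p2 ?_ ?_) rfl,
      Prod.ext (show -swp (z + 0) - 1 = (-swp z - Pi.single 0 1) + -Pi.single 1 1
        from NU6_p2 ?_ ?_) rfl⟩ <;>
    simp only [NU6_a0, NU6_a1, NU6_a2, NU6_a3, NU6_a4, NU6_a5, NU6_a6, NU6_e00, NU6_e01, NU6_e10, NU6_e11] <;> ring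
  · refine ⟨Prod.ext (show -swp (z + 0) - 1 = (-swp z - 1) + 0
        from NU6_p2 ?_ ?_) rfl,
      Prod.ext (show -swp (z + 0) - 1 = (-swp z - 1) + 0
        from NU6_p2 ?_ ?_) rfl⟩ <;>
    simp only [NU6_a0, NU6_a1, NU6_a2, NU6_a3, NU6_a4, NU6_a5, NU6_a6, NU6_e00, NU6_e01, NU6_e10, NU6_e11] <;> ring

theorem NU6_t1 (e : Vx 2 × Fin 3) : TT.r (sE1 e) = swp (TT.r e) := by
  obtain ⟨z, k⟩ := e
  rcases NU6_fin3 k with rfl | rfl | rfl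
  · refine (show swp z + Pi.single 1 1 = swp (z + Pi.single 0 1) from NU6_p2 ?_ ?_) <;>
    simp only [NU6_a0, NU6_a1, NU6_a2, NU6_a3, NU6_a4, NU6_a5, NU6_a6, NU6_e00, NU6_e01, NU6_e10, NU6_e11]
  · refine (show swp z + Pi.single 0 1 = swp (z + Pi.single 1 1) from NU6_p2 ?_ ?_) <;>
    simp only [NU6_a0, NU6_a1, NU6_a2, NU6_a3, NU6_a4, NU6_a5, NU6_a6, NU6_e00, NU6_e01, NU6_e10, NU6_e11]
  · refine (show swp z + (Pi.single 0 1 + Pi.single 1 1) = swp (z + (Pi.single 0 1 + Pi.single 1 1))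
      from NU6_p2 ?_ ?_) <;>
    simp only [NU6_a0, NU6_a1, NU6_a2, NU6_a3, NU6_a4, NU6_a5, NU6_a6, NU6_e00, NU6_e01, NU6_e10, NU6_e11] <;> ring

theorem NU6_t2 (e : Vx 2 × Fin 3) : TT.s (sE2 e) = -swp (TT.r e) := by
  obtain ⟨z, k⟩ := e
  rcases NU6_fin3 k with rfl | rfl | rfl
  · refine (show -swp z - Pi.single 1 1 = -swp (z + Pi.single 0 1) from NU6_p2 ?_ ?_) <;>
    simp only [NU6_a0, NU6_a1, NU6_a2, NU6_a3, NU6_a4, NU6_a5, NU6_a6, NU6_e00, NU6_e01, NU6_e10, NU6_e11] <;> ring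
  · refine (show -swp z - Pi.single 0 1 = -swp (z + Pi.single 1 1) from NU6_p2 ?_ ?_) <;>
    simp only [NU6_a0, NU6_a1, NU6_a2, NU6_a3, NU6_a4, NU6_a5, NU6_a6, NU6_e00, NU6_e01, NU6_e10, NU6_e11] <;> ring
  · refine (show -swp z - 1 = -swp (z + (Pi.single 0 1 + Pi.single 1 1))
      from NU6_p2 ?_ ?_) <;>
    simp only [NU6_a0, NU6_a1, NU6_a2, NU6_a3, NU6_a4, NU6_a5, NU6_a6, NU6_e00, NU6_e01, NU6_e10, NU6_e11] <;> ring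

theorem NU6_t3 (e : Vx 2 × Fin 3) : TT.r (sE2 e) = -swp (TT.s e) := by
  obtain ⟨z, k⟩ := e
  rcases NU6_fin3 k with rfl | rfl | rfl
  · refine (show (-swp z - Pi.single 1 1) + Pi.single 1 1 = -swp z from ?_)
    abel
  · refine (show (-swp z - Pi.single 0 1) + Pi.single 0 1 = -swp z from ?_)
    abel
  · refine (show (-swp z - 1) + (Pi.single 0 1 + Pi.single 1 1) = -swp z
      from NU6_p2 ?_ ?_) <;>
    simp only [NU6_a0, NU6_a1, NU6_a2, NU6_a3, NU6_a4, NU6_a5, NU6_a6, NU6_e00, NU6_e01, NU6_e10, NU6_e11] <;> ring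

theorem nu_tip (κ C' : ℝ) (hκ : 0 < κ) (h1 : wk κ 0 ≤ 2 * wk κ 1)
    (hM : ∀ n : ℕ, ∀ i ∈ FN n, En (wk κ) n (fun h => (h i : ℝ) ^ 2) ≤ C')
    (ν : Measure (Vx 2 × Fin 3 → Fin 3)) [IsProbabilityMeasure ν] (hν : NuL κ ν) : TIP ν := by
  apply tip_of_lc
  intro a X hX
  obtain ⟨F, hF⟩ := hX
  have hw := wk_ok κ hκ
  set σ : Vx 2 × Fin 3 ≃ Vx 2 × Fin 3 := ⟨fun e => (e.1 + a, e.2), fun e => (e.1 - a, e.2),
    fun e => by simp, fun e => by simp⟩ with hσ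
  have hs : ∀ e, HH.gr.s (σ e) = ((HH.gr.s e).1 + a, (HH.gr.s e).2) := by
    intro e
    refine Prod.ext ?_ rfl
    show e.1 + a + HH.sv e.2 = e.1 + HH.sv e.2 + a
    abel
  have hr : ∀ e, HH.gr.r (σ e) = ((HH.gr.r e).1 + a, (HH.gr.r e).2) := by
    intro e
    refine Prod.ext ?_ rfl
    show e.1 + a + HH.rv e.2 = e.1 + HH.rv e.2 + a
    abel
  set Q : ℕ → Finset (Vx 2 × Fin 3) → (Vx 2 × Fin 3 → Fin 3) → ℝ := fun n F ξ =>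
    En (wk κ) n (fun h => ∏ e ∈ F, q3 (wk κ) (h ((HH.gr.s e).1 + a, (HH.gr.s e).2))
      (h ((HH.gr.r e).1 + a, (HH.gr.r e).2)) (ξ e)) with hQdef
  have hQ : ∀ n, ∀ ξ ξ' : Vx 2 × Fin 3 → Fin 3, (∀ e ∈ F, ξ e = ξ' e) → Q n F ξ = Q n F ξ' := by
    intro n ξ ξ' h
    simp only [hQdef]
    congr 1
    funext g
    exact Finset.prod_congr rfl (fun e he => by rw [h e he])
  have hPQ : ∀ n ξ, Pq κ n (F.map σ.toEmbedding) ξ =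
      Q n F (fun e => (Equiv.refl (Fin 3)) (ξ (σ e))) := by
    intro n ξ
    simp only [hQdef]
    unfold Pq
    congr 1
    funext h
    rw [Finset.prod_map]
    refine Finset.prod_congr rfl fun e _ => ?_
    show q3 (wk κ) (h (HH.gr.s (σ e))) (h (HH.gr.r (σ e))) (ξ (σ e)) = _
    rw [hs, hr]
    rfl
  have hlim : ∀ ξ : Vx 2 × Fin 3 → Fin 3, ∃ ℓ : ℝ, Tendsto (fun n => Pq κ n F ξ) atTop (𝓝 ℓ) ∧
      Tendsto (fun n => Q n F ξ) atTop (𝓝 ℓ) := by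
    intro ξ
    obtain ⟨ℓ, hℓ, hℓ'⟩ := lih κ C' hκ hM (F.image HH.gr.s ∪ F.image HH.gr.r)
      (fun h => ∏ e ∈ F, q3 (wk κ) (h (HH.gr.s e)) (h (HH.gr.r e)) (ξ e)) (by
        intro h h' hh
        refine Finset.prod_congr rfl (fun e he => ?_)
        rw [hh _ (Finset.mem_union_left _ (Finset.mem_image_of_mem _ he)),
          hh _ (Finset.mem_union_right _ (Finset.mem_image_of_mem _ he))])
      (fun h => (NU0_prod (wk κ) hw h1 F ξ h).2)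
    exact ⟨ℓ, hℓ, hℓ' a⟩
  choose ℓ hℓ hℓ' using hlim
  have hL : Tendsto (fun n => PX (Pq κ n) F X) atTop
      (𝓝 (∑ ζ : ↥F → Fin 3, ind (gl F ζ ∈ X) * ℓ (gl F ζ))) := by
    unfold PX
    exact tendsto_finsetSum _ (fun ζ _ => (hℓ (gl F ζ)).const_mul _)
  have hL' : Tendsto (fun n => PX (Q n) F X) atTop
      (𝓝 (∑ ζ : ↥F → Fin 3, ind (gl F ζ ∈ X) * ℓ (gl F ζ))) := by
    unfold PX
    exact tendsto_finsetSum _ (fun ζ _ => (hℓ' (gl F ζ)).const_mul _)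
  have h2 := hν F X hF
  have h3 := hν (F.map σ.toEmbedding) _ (NU6_locX σ (Equiv.refl _) F X hF)
  have h4 : (fun n => PX (Pq κ n) (F.map σ.toEmbedding)
      {η : Vx 2 × Fin 3 → Fin 3 | (fun e => (Equiv.refl (Fin 3)) (η (σ e))) ∈ X}) =
      fun n => PX (Q n) F X := by
    funext n
    exact NU6_PX σ (Equiv.refl _) (Pq κ n) (Q n) F X hF (hQ n) (hPQ n)
  rw [h4] at h3
  have h5 := tendsto_nhds_unique h3 hL'
  have h6 := tendsto_nhds_unique h2 hL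
  rw [h6, ← h5]
  rfl

theorem nu_s1 (κ : ℝ) (hκ : 0 < κ) (h1 : wk κ 0 ≤ 2 * wk κ 1)
    (ν : Measure (Vx 2 × Fin 3 → Fin 3)) [IsProbabilityMeasure ν] (hν : NuL κ ν)
    (X : Set (Vx 2 × Fin 3 → Fin 3)) (hX : MeasurableSet X) : ν.real {η | η ∘ sE1 ∈ X} = ν.real X := by
  refine NU6_ext ν sE1 id (fun Y hY => ?_) X hX
  refine NU6_lc0 κ ν hν NU6_E1 (Equiv.refl _) (fun n F ξ => ?_) Y hY
  refine NU6_iso κ hκ NU6_V1 NU6_E1 (fun e => Or.inr (NU6_g1 e)) n ?_ ?_ F ξ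
  · intro v
    rw [mem_FN, mem_FN, Fin.forall_fin_two, Fin.forall_fin_two]
    show _ ↔ (-(n : ℤ) ≤ v.1 1 ∧ v.1 1 < n) ∧ (-(n : ℤ) ≤ v.1 0 ∧ v.1 0 < n)
    tauto
  · intro e
    rw [mem_EN, mem_EN]
    have h2 : ∀ z : Vx 2, z ∈ bx 2 n ↔ swp z ∈ bx 2 n := by
      intro z
      simp only [bx, Fintype.mem_piFinset, Fin.forall_fin_two, Finset.mem_Icc]
      show _ ↔ (-(n : ℤ) ≤ z 1 ∧ z 1 ≤ n) ∧ (-(n : ℤ) ≤ z 0 ∧ z 0 ≤ n)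
      tauto
    have h3 : TT.s (sE1 e) = swp (TT.s e) := rfl
    have h4 : TT.r (sE1 e) = swp (TT.r e) := NU6_t1 e
    show _ ↔ TT.s (sE1 e) ∈ bx 2 n ∧ TT.r (sE1 e) ∈ bx 2 n
    rw [h3, h4, ← h2, ← h2]

theorem nu_s2 (κ : ℝ) (hκ : 0 < κ) (h1 : wk κ 0 ≤ 2 * wk κ 1)
    (ν : Measure (Vx 2 × Fin 3 → Fin 3)) [IsProbabilityMeasure ν] (hν : NuL κ ν)
    (X : Set (Vx 2 × Fin 3 → Fin 3)) (hX : MeasurableSet X) : ν.real {η | η ∘ sE2 ∈ X} = ν.real X := by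
  refine NU6_ext ν sE2 id (fun Y hY => ?_) X hX
  refine NU6_lc0 κ ν hν NU6_E2 (Equiv.refl _) (fun n F ξ => ?_) Y hY
  refine NU6_iso κ hκ NU6_V2 NU6_E2 (fun e => Or.inl (NU6_g2 e)) n ?_ ?_ F ξ
  · intro v
    rw [mem_FN, mem_FN, Fin.forall_fin_two, Fin.forall_fin_two]
    show _ ↔ (-(n : ℤ) ≤ -v.1 1 - 1 ∧ -v.1 1 - 1 < n) ∧ (-(n : ℤ) ≤ -v.1 0 - 1 ∧ -v.1 0 - 1 < n)
    omega
  · intro e
    rw [mem_EN, mem_EN]
    have h2 : ∀ z : Vx 2, z ∈ bx 2 n ↔ -swp z ∈ bx 2 n := by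
      intro z
      simp only [bx, Fintype.mem_piFinset, Fin.forall_fin_two, Finset.mem_Icc]
      show _ ↔ (-(n : ℤ) ≤ -z 1 ∧ -z 1 ≤ n) ∧ (-(n : ℤ) ≤ -z 0 ∧ -z 0 ≤ n)
      omega
    have h3 : TT.s (sE2 e) = -swp (TT.r e) := NU6_t2 e
    have h4 : TT.r (sE2 e) = -swp (TT.s e) := NU6_t3 e
    show _ ↔ TT.s (sE2 e) ∈ bx 2 n ∧ TT.r (sE2 e) ∈ bx 2 n
    rw [h3, h4, ← h2, ← h2]
    exact and_comm

theorem nu_fl (κ : ℝ) (hκ : 0 < κ) (h1 : wk κ 0 ≤ 2 * wk κ 1)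
    (ν : Measure (Vx 2 × Fin 3 → Fin 3)) [IsProbabilityMeasure ν] (hν : NuL κ ν)
    (X : Set (Vx 2 × Fin 3 → Fin 3)) (hX : MeasurableSet X) : ν.real {η | fl3 ∘ η ∈ X} = ν.real X := by
  have hw := wk_ok κ hκ
  have hinv : ∀ i, fl3 (fl3 i) = i := by decide
  refine NU6_ext ν id fl3 (fun Y hY => ?_) X hX
  refine NU6_lc0 κ ν hν (Equiv.refl _) ⟨fl3, fl3, hinv, hinv⟩ (fun n F ξ => ?_) Y hY
  have h2 : F.map (Equiv.refl (Vx 2 × Fin 3)).toEmbedding = F := by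
    ext e; simp
  rw [h2]
  unfold Pq En
  rw [← Eh_neg HH.gr (FN n) (EN n) (wk κ) hw]
  congr 1
  funext h
  refine Finset.prod_congr rfl fun e _ => ?_
  exact NU6_q3_neg (wk κ) _ _ _

end H82.BX
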