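import Pool.Agent.H82.BX.NU3
import Pool.Agent.H82.BX.NU4
import Pool.Agent.H82.BX.NU5
import Pool.Agent.H82.BX.NU6
import Pool.Agent.H82.BX.MOM

/-!
# NU2: properties of the limit law of `ω⁻` (assembly)

`mom` gives `C'`; `nu0` gives `ν` with `NuL κ ν`; let `ν⁻ = ν.map (stt 1)`.  `TIP ν⁻`: from `nu_tip` (`stt` commutes with shifts, `stt 1` is measurable); `ins`: `nu_ins`; `fkg`: `nu_fkg`; `mix`: `nu_mix`; `arm`: `nu_arm`; `sy1`, `sy2` from `nu_s1`, `nu_s2` (`stt 1 (η ∘ sE1) = (stt 1 η) ∘ sE1`);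
the flip invariance is `nu_fl`.
-/

set_option autoImplicit false

open Finset MeasureTheory Filter Topology

namespace H82.BX

open H82.IC XYB

/-- the properties of `ω⁻` used in the percolation argument. -/
structure PerOk (ν : Measure (Vx 2 × Fin 3 → Bool)) : Prop where
  prob : IsProbabilityMeasure ν
  tip : TIP ν
  ins : INSe ν
  fkg : ∀ X Y : Set (Vx 2 × Fin 3 → Bool), Lc X → Lc Y → Inc1 X → Inc1 Y →
    ν.real X * ν.real Y ≤ ν.real (X ∩ Y)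
  mix : ∀ X Y : Set (Vx 2 × Fin 3 → Bool), Lc X → Lc Y → Inc1 X → Inc1 Y → ∀ ε : ℝ, 0 < ε →
    ∃ k0 : ℕ, ∀ k : ℕ, k0 ≤ k →
      ν.real (X ∩ {ω | shP (Pi.single 0 (k : ℤ)) ω ∈ Y}) ≤ ν.real X * ν.real Y + ε
  arm : ∀ v : Vx 2 × Bool, 0 < ν.real {ω | (HH.gr.cl (op1 ω) v).Infinite}
  sy1 : ∀ X : Set (Vx 2 × Fin 3 → Bool), MeasurableSet X → ν.real {ω | ω ∘ sE1 ∈ X} = ν.real X
  sy2 : ∀ X : Set (Vx 2 × Fin 3 → Bool), MeasurableSet X → ν.real {ω | ω ∘ sE2 ∈ X} = ν.real X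

theorem nu2_stt {E : Type} (x : Fin 3) : Measurable (stt x : (E → Fin 3) → E → Bool) := by
  refine measurable_pi_iff.2 fun e => ?_
  exact (measurable_of_countable (fun a : Fin 3 => decide (a = x))).comp (measurable_pi_apply e)

theorem nu2_comp {E : Type} (g : E → E) : Measurable (fun ω : E → Bool => fun e => ω (g e)) :=
  measurable_pi_iff.2 fun e => measurable_pi_apply (g e)

theorem nu_props (κ C a : ℝ) (hκ : 0 < κ) (ha : 0 < a) (h1 : wk κ 0 ≤ 2 * wk κ 1)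
    (hED : ∀ (n : ℕ) (p q : ↥(bx 2 n) ⊕ (↥(EN n) × Fin 5)),
      gE (hG (C6 (TB n)) (fun _ => κ)) (fun θ => cosC (θ p) * cosC (θ q)) ≤
        C * Real.exp (-a * nm (bp p - bp q))) :
    ∃ ν : Measure (Vx 2 × Fin 3 → Fin 3), IsProbabilityMeasure ν ∧
      (∀ X : Set (Vx 2 × Fin 3 → Fin 3), MeasurableSet X → ν.real {η | fl3 ∘ η ∈ X} = ν.real X) ∧
      PerOk (ν.map (stt 1)) := by
  obtain ⟨C', hC', hM, hMx⟩ := mom κ C a hκ ha hED
  obtain ⟨ν, hprob, hν⟩ := nu0 κ C' hκ h1 hM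
  have hs := nu2_stt (E := Vx 2 × Fin 3) 1
  refine ⟨ν, hprob, fun X hX => nu_fl κ hκ h1 ν hν X hX, ?_⟩
  refine ⟨Measure.isProbabilityMeasure_map hs.aemeasurable, ?_, nu_ins κ C' hκ h1 hM ν hν,
    nu_fkg κ hκ h1 ν hν, nu_mix κ C' a hκ ha h1 hC' hMx ν hν (nu_tip κ C' hκ h1 hM ν hν), nu_arm κ C' hκ h1 hM ν hν, ?_, ?_⟩
  · intro b X hX
    have hsh : MeasurableSet {ω : Vx 2 × Fin 3 → Bool | shP b ω ∈ X} :=
      (nu2_comp (fun e : Vx 2 × Fin 3 => (e.1 + b, e.2))) hX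
    rw [map_measureReal_apply hs hsh, map_measureReal_apply hs hX]
    exact nu_tip κ C' hκ h1 hM ν hν b (stt 1 ⁻¹' X) (hs hX)
  · intro X hX
    have hsh : MeasurableSet {ω : Vx 2 × Fin 3 → Bool | ω ∘ sE1 ∈ X} := (nu2_comp sE1) hX
    rw [map_measureReal_apply hs hsh, map_measureReal_apply hs hX]
    exact nu_s1 κ hκ h1 ν hν (stt 1 ⁻¹' X) (hs hX)
  · intro X hX
    have hsh : MeasurableSet {ω : Vx 2 × Fin 3 → Bool | ω ∘ sE2 ∈ X} := (nu2_comp sE2) hX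
    rw [map_measureReal_apply hs hsh, map_measureReal_apply hs hX]
    exact nu_s2 κ hκ h1 ν hν (stt 1 ⁻¹' X) (hs hX)

end H82.BX
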