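import Pool.Agent.H82.BX.CR1
import Pool.Agent.H82.BX.NU2

/-!
# CR2: square root trick

Let `q = ν(AS K N (Lf N))`.  By `sy1`, `as_sy1`: `ν(AS Bt) = ν(AS Lf)`, `ν(AS Tp) = ν(AS Rt)`; by `sy2`, `as_sy2`: `ν(AS Tp) = ν(AS Lf)`, `ν(AS Bt) = ν(AS Rt)`; so all four are `q` (cylinder events are measurable).  The complements of the four increasing cylinder events `X1..X4`
satisfy `ν(X1ᶜ ∩ .. ∩ X4ᶜ) ≥ (1-q)^4` (`fkg` for `X1 ∪ X2` etc.: `ν(Xᶜ ∩ Yᶜ) = 1 - ν X - ν Y + ν(X ∩ Y) ≥ (1 - ν X)(1 - ν Y)`), and by `as_geo` this intersection is disjoint from `{some v ∈ FN K has an infinite cluster}`, so `(1-q)^4 ≤ ε^4`.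
-/

set_option autoImplicit false

open Finset MeasureTheory Filter Topology

namespace H82.BX

open H82.IC XYB

theorem CR2_un (ν : Measure (Vx 2 × Fin 3 → Bool)) (h : PerOk ν) (X Y : Set (Vx 2 × Fin 3 → Bool))
    (hX : Lc X) (hY : Lc Y) (iX : Inc1 X) (iY : Inc1 Y) :
    (1 - ν.real X) * (1 - ν.real Y) ≤ 1 - ν.real (X ∪ Y) := by
  haveI := h.prob
  have h1 := h.fkg X Y hX hY iX iY
  have h2 : ν.real (X ∪ Y) + ν.real (X ∩ Y) = ν.real X + ν.real Y :=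
    measureReal_union_add_inter (lc_meas hY)
  nlinarith

theorem CR2_inc (X Y : Set (Vx 2 × Fin 3 → Bool)) (iX : Inc1 X) (iY : Inc1 Y) : Inc1 (X ∪ Y) := by
  intro ω ω' hw h
  rcases h with h | h
  · exact Or.inl (iX ω ω' hw h)
  · exact Or.inr (iY ω ω' hw h)

theorem cr_sq (ν : Measure (Vx 2 × Fin 3 → Bool)) (h : PerOk ν) (ε : ℝ) (hε : 0 < ε) (K N : ℕ)
    (hKN : K ≤ N)
    (hp : 1 - ε ^ 4 ≤ ν.real {ω | ∃ v ∈ FN K, (HH.gr.cl (op1 ω) v).Infinite}) :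
    1 - ε ≤ ν.real {ω | AS K N (Lf N) (op1 ω)} ∧ 1 - ε ≤ ν.real {ω | AS K N (Rt N) (op1 ω)} := by
  haveI := h.prob
  obtain ⟨cL, iL⟩ := as_lc K N (Lf N)
  obtain ⟨cR, iR⟩ := as_lc K N (Rt N)
  obtain ⟨cT, iT⟩ := as_lc K N (Tp N)
  obtain ⟨cB, iB⟩ := as_lc K N (Bt N)
  have e1 : ν.real {ω | AS K N (Lf N) (op1 ω)} = ν.real {ω | AS K N (Bt N) (op1 ω)} := by
    rw [← h.sy1 {ω | AS K N (Bt N) (op1 ω)} (lc_meas cB)]
    congr 1
    ext ω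
    exact (as_sy1 K N ω).1.symm
  have e2 : ν.real {ω | AS K N (Rt N) (op1 ω)} = ν.real {ω | AS K N (Tp N) (op1 ω)} := by
    rw [← h.sy1 {ω | AS K N (Tp N) (op1 ω)} (lc_meas cT)]
    congr 1
    ext ω
    exact (as_sy1 K N ω).2.symm
  have e3 : ν.real {ω | AS K N (Lf N) (op1 ω)} = ν.real {ω | AS K N (Tp N) (op1 ω)} := by
    rw [← h.sy2 {ω | AS K N (Tp N) (op1 ω)} (lc_meas cT)]
    congr 1
    ext ω
    exact (as_sy2 K N ω).1.symm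
  set q := ν.real {ω | AS K N (Lf N) (op1 ω)} with hq
  have u1 := CR2_un ν h _ _ cL cR iL iR
  have u2 := CR2_un ν h _ _ cT cB iT iB
  have u3 := CR2_un ν h _ _ (lc_union cL cR) (lc_union cT cB) (CR2_inc _ _ iL iR)
    (CR2_inc _ _ iT iB)
  rw [← hq, e2, ← e3] at u1
  rw [← e3, ← e1] at u2
  have hE : ν.real {ω | ∃ v ∈ FN K, (HH.gr.cl (op1 ω) v).Infinite} ≤
      ν.real (({ω | AS K N (Lf N) (op1 ω)} ∪ {ω | AS K N (Rt N) (op1 ω)}) ∪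
        ({ω | AS K N (Tp N) (op1 ω)} ∪ {ω | AS K N (Bt N) (op1 ω)})) := by
    refine measureReal_mono ?_
    rintro ω ⟨v, hv, hinf⟩
    rcases as_geo K N hKN (op1 ω) v hv hinf with g | g | g | g
    · exact Or.inl (Or.inl g)
    · exact Or.inl (Or.inr g)
    · exact Or.inr (Or.inl g)
    · exact Or.inr (Or.inr g)
  have hq1 : q ≤ 1 := measureReal_le_one
  have h0 : 0 ≤ (1 - q) * (1 - q) := mul_nonneg (by linarith) (by linarith)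
  have h4 : (1 - q) ^ 4 ≤ ε ^ 4 := by
    have : ((1 - q) * (1 - q)) * ((1 - q) * (1 - q)) ≤
        (1 - ν.real ({ω | AS K N (Lf N) (op1 ω)} ∪ {ω | AS K N (Rt N) (op1 ω)})) *
        (1 - ν.real ({ω | AS K N (Tp N) (op1 ω)} ∪ {ω | AS K N (Bt N) (op1 ω)})) :=
      mul_le_mul u1 u2 h0 (le_trans h0 u1)
    calc (1 - q) ^ 4 = ((1 - q) * (1 - q)) * ((1 - q) * (1 - q)) := by ring
      _ ≤ _ := this
      _ ≤ _ := u3
      _ ≤ ε ^ 4 := by linarith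
  have h5 : 1 - q ≤ ε := le_of_pow_le_pow_left₀ (by norm_num) hε.le h4
  refine ⟨by linarith, ?_⟩
  rw [e2, ← e3]
  linarith

end H82.BX
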