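import Pool.Agent.H82.BX.PG2
import Pool.Agent.H82.IC.BKD

/-!
# PG4: at most two infinite clusters (deterministic)

Adapt `BKD_branch`, `two_clusters` of `IC/BKD.lean` to periodic graphs.
-/

set_option autoImplicit false

open Finset MeasureTheory

namespace H82.BX

open H82.IC

variable {K K' : Type} [Fintype K] [Fintype K']

/-- a vertex of the tile, connected to `v`, with infinite cluster outside the tile. -/
theorem PG4_branch (P : PG K K') (S : Set (Vx 2 × K')) (r : ℕ) (v : Vx 2 × K) (hv : nm v.1 ≤ r)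
    (h : (P.gr.cl S v).Infinite) :
    ∃ w ∈ (tl r 0 : Set (Vx 2 × K)), P.gr.Conn S v w ∧
      (P.gr.cl (S \ P.gr.ins (tl r 0)) w).Infinite := by
  by_contra hcon
  push Not at hcon
  apply h
  have hsub : P.gr.cl S v ⊆ ⋃ w ∈ {w : Vx 2 × K | w ∈ (tl r 0 : Set (Vx 2 × K)) ∧ P.gr.Conn S v w},
      P.gr.cl (S \ P.gr.ins (tl r 0)) w := by
    intro z hz
    have hz' : P.gr.Conn S v z := hz
    simp only [Set.mem_iUnion]
    induction hz' with
    | refl =>
      refine ⟨v, ⟨?_, conn_refl _ _ _⟩, mem_cl_self _ _ _⟩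
      change nm (v.1 - 0) ≤ r
      rwa [sub_zero]
    | @tail b c hb h2 ih =>
      obtain ⟨w, ⟨hw1, hw2⟩, hw3⟩ := ih hb
      obtain ⟨e, he, h1⟩ := h2
      by_cases hK : e ∈ P.gr.ins (tl r 0)
      · have hc : c ∈ (tl r 0 : Set (Vx 2 × K)) := by
          rcases h1 with ⟨_, rfl⟩ | ⟨rfl, _⟩
          · exact hK.2
          · exact hK.1
        refine ⟨c, ⟨hc, ?_⟩, mem_cl_self _ _ _⟩
        exact Relation.ReflTransGen.tail hb ⟨e, he, h1⟩
      · refine ⟨w, ⟨hw1, hw2⟩, ?_⟩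
        exact Relation.ReflTransGen.tail hw3 ⟨e, ⟨he, hK⟩, h1⟩
  apply Set.Finite.subset _ hsub
  have hfin : {w : Vx 2 × K | w ∈ (tl r 0 : Set (Vx 2 × K)) ∧ P.gr.Conn S v w}.Finite := by
    apply (pbx K r).finite_toSet.subset
    rintro w ⟨hw, _⟩
    have hw' : nm (w.1 - 0) ≤ r := hw
    rw [sub_zero] at hw'
    exact Finset.mem_coe.mpr ((mem_pbx r w).mpr hw')
  apply hfin.biUnion
  rintro w ⟨hw1, hw2⟩
  exact hcon w hw1 hw2

theorem two_clustersP (P : PG K K') (hP : P.Ok) (S : Set (Vx 2 × K'))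
    (h : ∀ r, 1 ≤ r → ¬ TriP P S r 0) (v1 v2 v3 : Vx 2 × K)
    (h1 : (P.gr.cl S v1).Infinite) (h2 : (P.gr.cl S v2).Infinite)
    (h3 : (P.gr.cl S v3).Infinite) :
    P.gr.Conn S v1 v2 ∨ P.gr.Conn S v1 v3 ∨ P.gr.Conn S v2 v3 := by
  by_contra hcon
  push Not at hcon
  obtain ⟨n12, n13, n23⟩ := hcon
  obtain ⟨r, hr⟩ : ∃ r : ℕ, r = nm v1.1 + nm v2.1 + nm v3.1 + 1 := ⟨_, rfl⟩
  obtain ⟨w1, m1, c1, i1⟩ := PG4_branch P S r v1 (by omega) h1
  obtain ⟨w2, m2, c2, i2⟩ := PG4_branch P S r v2 (by omega) h2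
  obtain ⟨w3, m3, c3, i3⟩ := PG4_branch P S r v3 (by omega) h3
  apply h r (by omega)
  refine ⟨w1, m1, w2, m2, w3, m3, i1, i2, i3, ?_, ?_, ?_⟩
  · intro hc
    exact n12 (conn_trans _ c1 (conn_trans _ (conn_mono _ Set.sdiff_subset hc) (conn_symm _ c2)))
  · intro hc
    exact n13 (conn_trans _ c1 (conn_trans _ (conn_mono _ Set.sdiff_subset hc) (conn_symm _ c3)))
  · intro hc
    exact n23 (conn_trans _ c2 (conn_trans _ (conn_mono _ Set.sdiff_subset hc) (conn_symm _ c3)))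

/-- if the two infinite clusters (of `u` and `v`) meet the tile and all edges of the tile are opened, there is exactly one infinite cluster. -/
theorem merge_clusters (P : PG K K') (hP : P.Ok) (S : Set (Vx 2 × K')) (r : ℕ) (hr : 1 ≤ r)
    (h3 : ∀ v1 v2 v3 : Vx 2 × K, (P.gr.cl S v1).Infinite → (P.gr.cl S v2).Infinite →
      (P.gr.cl S v3).Infinite → P.gr.Conn S v1 v2 ∨ P.gr.Conn S v1 v3 ∨ P.gr.Conn S v2 v3)
    (u v : Vx 2 × K) (hu : u ∈ (tl r 0 : Set (Vx 2 × K))) (hv : v ∈ (tl r 0 : Set (Vx 2 × K)))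
    (hui : (P.gr.cl S u).Infinite) (hvi : (P.gr.cl S v).Infinite) (hn : ¬ P.gr.Conn S u v) :
    ∀ a b : Vx 2 × K, (P.gr.cl (S ∪ P.gr.ins (tl r 0)) a).Infinite →
      (P.gr.cl (S ∪ P.gr.ins (tl r 0)) b).Infinite → P.gr.Conn (S ∪ P.gr.ins (tl r 0)) a b := by
  have tileconn : ∀ a ∈ (tl r 0 : Set (Vx 2 × K)), ∀ b ∈ (tl r 0 : Set (Vx 2 × K)),
      P.gr.Conn (S ∪ P.gr.ins (tl r 0)) a b := fun a ha b hb =>
    conn_mono _ Set.subset_union_right (hP.conn r hr a ha b hb)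
  have key : ∀ a : Vx 2 × K, (P.gr.cl (S ∪ P.gr.ins (tl r 0)) a).Infinite →
      P.gr.Conn (S ∪ P.gr.ins (tl r 0)) a u := by
    intro a ha
    by_cases hm : ∃ w ∈ (tl r 0 : Set (Vx 2 × K)), P.gr.Conn (S ∪ P.gr.ins (tl r 0)) a w
    · obtain ⟨w, hw, hc⟩ := hm
      exact conn_trans _ hc (tileconn w hw u hu)
    · push Not at hm
      have hsub : P.gr.cl (S ∪ P.gr.ins (tl r 0)) a ⊆ P.gr.cl S a := by
        intro z hz
        have hz' : P.gr.Conn (S ∪ P.gr.ins (tl r 0)) a z := hz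
        change P.gr.Conn S a z
        induction hz' with
        | refl => exact conn_refl _ _ _
        | @tail b c hb h2 ih =>
          have ihb := ih hb
          obtain ⟨e, he, h1⟩ := h2
          rcases he with he | he
          · exact Relation.ReflTransGen.tail ihb ⟨e, he, h1⟩
          · exfalso
            have hbt : b ∈ (tl r 0 : Set (Vx 2 × K)) := by
              rcases h1 with ⟨rfl, _⟩ | ⟨_, rfl⟩
              · exact he.1
              · exact he.2
            exact hm b hbt hb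
      have hai : (P.gr.cl S a).Infinite := ha.mono hsub
      rcases h3 a u v hai hui hvi with h | h | h
      · exact conn_mono _ Set.subset_union_left h
      · exact conn_trans _ (conn_mono _ Set.subset_union_left h) (tileconn v hv u hu)
      · exact absurd h hn
  intro a b ha hb
  exact conn_trans _ (key a ha) (conn_symm _ (key b hb))

end H82.BX
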