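import Pool.Agent.H82.BX.PG3
import Pool.Agent.H82.BX.PG4

/-!
# PG5: uniqueness of the infinite cluster

`N2 = {ω | ∃ u v, both clusters infinite, not connected}` (measurable, shift invariant), `N2 r` = the same with `u, v ∈ tl r 0`.
Suppose `ν(N2) > 0`; then `p := ν(N2 r) > 0` for some `r ≥ 1` (countable increasing union).  Let `F` be the finset of the edges of
`ins (tl r 0)`.  For a.e. `ω ∈ N2 r` (no `TriP`, all `r`: `no_triP`, so `two_clustersP`) one has `opF F ω ∉ N2` (`merge_clusters`,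
`op1 (opF F ω) = op1 ω ∪ F`).  Let `C` be given by `opF_bound` for `F` and `ε = p/8`, and let `δ > 0` with `δ + C δ < p/8`.
By `lc_approx` there is a cylinder event `D0` with `ν(N2 Δ D0) ≤ δ`; let `a` be a translation such that `D = {shP a ω ∈ D0}`
does not depend on the edges of `F` (move the finite set of edges of `D0` away from `F`).  By invariance of `N2` and `TIP`,
`ν(N2 Δ D) ≤ δ`.  Then
`p - δ ≤ ν(N2 r ∩ D) ≤ ν{opF F ω ∈ N2ᶜ ∩ D} ≤ C ν(N2ᶜ ∩ D) + ε ≤ C δ + p/8`, contradiction.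
(`N2` is invariant: `conn_sh`; infinite clusters are mapped to infinite clusters.)
-/

set_option autoImplicit false

open Finset MeasureTheory

namespace H82.BX

open H82.IC

variable {K K' : Type} [Fintype K] [Fintype K'] [Nonempty K]

/-- there are two infinite clusters. -/
def pg5_N2 (P : PG K K') : Set (Vx 2 × K' → Bool) :=
  {ω | ∃ u v : Vx 2 × K, (P.gr.cl (op1 ω) u).Infinite ∧ (P.gr.cl (op1 ω) v).Infinite ∧
    ¬ P.gr.Conn (op1 ω) u v}

/-- two infinite clusters meet the tile. -/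
def pg5_N2r (P : PG K K') (r : ℕ) : Set (Vx 2 × K' → Bool) :=
  {ω | ∃ u ∈ (tl r 0 : Set (Vx 2 × K)), ∃ v ∈ (tl r 0 : Set (Vx 2 × K)),
    (P.gr.cl (op1 ω) u).Infinite ∧ (P.gr.cl (op1 ω) v).Infinite ∧ ¬ P.gr.Conn (op1 ω) u v}

theorem pg5_mC (P : PG K K') (hP : P.Ok) (u v : Vx 2 × K) :
    MeasurableSet {ω : Vx 2 × K' → Bool | P.gr.Conn (op1 ω) u v} := by
  have h := meas_connP P hP ∅ u v
  simpa using h

theorem pg5_mI (P : PG K K') (hP : P.Ok) (v : Vx 2 × K) :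
    MeasurableSet {ω : Vx 2 × K' → Bool | (P.gr.cl (op1 ω) v).Infinite} := by
  have h := meas_infP P hP ∅ v
  simpa using h

theorem pg5_mN (P : PG K K') (hP : P.Ok) (u v : Vx 2 × K) :
    MeasurableSet {ω : Vx 2 × K' → Bool | (P.gr.cl (op1 ω) u).Infinite ∧
      (P.gr.cl (op1 ω) v).Infinite ∧ ¬ P.gr.Conn (op1 ω) u v} := by
  have h : {ω : Vx 2 × K' → Bool | (P.gr.cl (op1 ω) u).Infinite ∧
      (P.gr.cl (op1 ω) v).Infinite ∧ ¬ P.gr.Conn (op1 ω) u v}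
      = {ω | (P.gr.cl (op1 ω) u).Infinite} ∩ ({ω | (P.gr.cl (op1 ω) v).Infinite}
        ∩ {ω | P.gr.Conn (op1 ω) u v}ᶜ) := by
    ext ω; rfl
  rw [h]
  exact (pg5_mI P hP u).inter ((pg5_mI P hP v).inter (pg5_mC P hP u v).compl)

theorem pg5_mN2 (P : PG K K') (hP : P.Ok) : MeasurableSet (pg5_N2 P) := by
  have h : pg5_N2 P = ⋃ u : Vx 2 × K, ⋃ v : Vx 2 × K, {ω : Vx 2 × K' → Bool |
      (P.gr.cl (op1 ω) u).Infinite ∧ (P.gr.cl (op1 ω) v).Infinite ∧ ¬ P.gr.Conn (op1 ω) u v} := by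
    ext ω
    simp only [pg5_N2, Set.mem_setOf_eq, Set.mem_iUnion]
  rw [h]
  exact MeasurableSet.iUnion fun u => MeasurableSet.iUnion fun v => pg5_mN P hP u v

omit [Nonempty K] [Fintype K] [Fintype K'] in
theorem pg5_iUnion (P : PG K K') : pg5_N2 P ⊆ ⋃ r : ℕ, pg5_N2r P (r + 1) := by
  rintro ω ⟨u, v, hu, hv, huv⟩
  refine Set.mem_iUnion.2 ⟨max (nm u.1) (nm v.1), u, ?_, v, ?_, hu, hv, huv⟩
  · simp only [tl, Set.mem_setOf_eq, sub_zero]
    exact (le_max_left _ _).trans (Nat.le_succ _)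
  · simp only [tl, Set.mem_setOf_eq, sub_zero]
    exact (le_max_right _ _).trans (Nat.le_succ _)

omit [Nonempty K] [Fintype K] [Fintype K'] in
theorem pg5_conn_sh (P : PG K K') (hc : ∀ (a : Vx 2) (ω : Set (Vx 2 × K')) (u v : Vx 2 × K),
      P.gr.Conn {e | ((e.1 + a, e.2) : Vx 2 × K') ∈ ω} u v ↔
      P.gr.Conn ω (u.1 + a, u.2) (v.1 + a, v.2)) (a : Vx 2) (ω : Vx 2 × K' → Bool)
      (u v : Vx 2 × K) :
    P.gr.Conn (op1 (shP a ω)) u v ↔ P.gr.Conn (op1 ω) (u.1 + a, u.2) (v.1 + a, v.2) := by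
  have h : op1 (shP a ω) = {e | ((e.1 + a, e.2) : Vx 2 × K') ∈ op1 ω} := by
    ext e; rfl
  rw [h, hc]

omit [Nonempty K] [Fintype K] [Fintype K'] in
theorem pg5_inf_sh (P : PG K K') (hc : ∀ (a : Vx 2) (ω : Set (Vx 2 × K')) (u v : Vx 2 × K),
      P.gr.Conn {e | ((e.1 + a, e.2) : Vx 2 × K') ∈ ω} u v ↔
      P.gr.Conn ω (u.1 + a, u.2) (v.1 + a, v.2)) (a : Vx 2) (ω : Vx 2 × K' → Bool)
      (u : Vx 2 × K) :
    (P.gr.cl (op1 (shP a ω)) u).Infinite ↔ (P.gr.cl (op1 ω) (u.1 + a, u.2)).Infinite := by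
  have hinj : Function.Injective (fun z : Vx 2 × K => ((z.1 + a, z.2) : Vx 2 × K)) := by
    rintro ⟨x, k⟩ ⟨y, l⟩ h
    simp only [Prod.mk.injEq, add_left_inj] at h
    exact Prod.ext h.1 h.2
  have himg : P.gr.cl (op1 ω) (u.1 + a, u.2)
      = (fun z : Vx 2 × K => ((z.1 + a, z.2) : Vx 2 × K)) '' (P.gr.cl (op1 (shP a ω)) u) := by
    ext w
    constructor
    · intro hw
      refine ⟨(w.1 - a, w.2), ?_, ?_⟩
      · change P.gr.Conn (op1 (shP a ω)) u (w.1 - a, w.2)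
        rw [pg5_conn_sh P hc]
        have hw' : P.gr.Conn (op1 ω) (u.1 + a, u.2) w := hw
        simpa using hw'
      · simp
    · rintro ⟨z, hz, rfl⟩
      exact (pg5_conn_sh P hc a ω u z).1 hz
  rw [himg, Set.infinite_image_iff hinj.injOn]

omit [Nonempty K] in
theorem pg5_N2_sh (P : PG K K') (a : Vx 2) (ω : Vx 2 × K' → Bool) :
    shP a ω ∈ pg5_N2 P ↔ ω ∈ pg5_N2 P := by
  constructor
  · rintro ⟨u, v, hu, hv, huv⟩
    rw [pg5_inf_sh P (conn_sh P)] at hu hv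
    rw [pg5_conn_sh P (conn_sh P)] at huv
    exact ⟨_, _, hu, hv, huv⟩
  · rintro ⟨u, v, hu, hv, huv⟩
    refine ⟨(u.1 - a, u.2), (v.1 - a, v.2), ?_, ?_, ?_⟩
    · rw [pg5_inf_sh P (conn_sh P)]; simpa using hu
    · rw [pg5_inf_sh P (conn_sh P)]; simpa using hv
    · rw [pg5_conn_sh P (conn_sh P)]; simpa using huv

omit [Fintype K] [Fintype K'] [Nonempty K] in
theorem pg5_op1 (F : Finset (Vx 2 × K')) (ω : Vx 2 × K' → Bool) :
    op1 (opF F ω) = op1 ω ∪ (F : Set (Vx 2 × K')) := by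
  classical
  ext e
  simp only [op1, opF, Set.mem_setOf_eq, Set.mem_union, Finset.mem_coe]
  by_cases h : e ∈ F
  · simp [h]
  · simp [h]

omit [Fintype K'] in
/-- move a cylinder event away from `F`. -/
theorem pg5_move (F : Finset (Vx 2 × K')) (D0 : Set (Vx 2 × K' → Bool)) (h : Lc D0) :
    ∃ a : Vx 2, ∀ ω : Vx 2 × K' → Bool, shP a (opF F ω) ∈ D0 ↔ shP a ω ∈ D0 := by
  classical
  obtain ⟨E0, hE0⟩ := h
  obtain ⟨a, ha⟩ := Infinite.exists_notMem_finset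
    ((F ×ˢ E0).image fun q : (Vx 2 × K') × (Vx 2 × K') => q.1.1 - q.2.1)
  refine ⟨a, fun ω => hE0 _ _ fun e he => ?_⟩
  have hn : ((e.1 + a, e.2) : Vx 2 × K') ∉ F := by
    intro hF
    apply ha
    rw [Finset.mem_image]
    refine ⟨((e.1 + a, e.2), e), Finset.mk_mem_product hF he, ?_⟩
    simp
  simp only [shP, opF]
  rw [if_neg hn]

theorem bk_unique (P : PG K K') (hP : P.Ok) (ν : Measure (Vx 2 × K' → Bool)) [IsProbabilityMeasure ν]
    (hT : TIP ν) (hI : INSe ν) :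
    ∀ᵐ ω ∂ν, ∀ u v : Vx 2 × K, (P.gr.cl (op1 ω) u).Infinite → (P.gr.cl (op1 ω) v).Infinite →
      P.gr.Conn (op1 ω) u v := by
  suffices hmain : ν (pg5_N2 P) = 0 by
    have h1 : ∀ᵐ ω ∂ν, ω ∉ pg5_N2 P := measure_eq_zero_iff_ae_notMem.1 hmain
    filter_upwards [h1] with ω hω u v hu hv
    by_contra hc
    exact hω ⟨u, v, hu, hv, hc⟩
  by_contra hne
  -- the tile
  obtain ⟨r, hr, hrp⟩ : ∃ r : ℕ, 1 ≤ r ∧ ν (pg5_N2r P r) ≠ 0 := by
    by_contra hcon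
    push Not at hcon
    apply hne
    apply measure_mono_null (pg5_iUnion P)
    rw [measure_iUnion_null_iff]
    intro r
    exact hcon (r + 1) (by omega)
  obtain ⟨p, hp⟩ : ∃ p, p = ν.real (pg5_N2r P r) := ⟨_, rfl⟩
  have hp0 : 0 < p := by
    rw [hp, measureReal_def]
    exact ENNReal.toReal_pos hrp (measure_ne_top _ _)
  -- almost surely at most two infinite clusters
  have hae : ∀ᵐ ω ∂ν, ∀ r' : ℕ, 1 ≤ r' → ¬ TriP P (op1 ω) r' 0 := by
    rw [ae_all_iff]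
    intro r'
    by_cases hr' : 1 ≤ r'
    · have h0 := no_triP P hP ν hT hI r' hr'
      rw [measureReal_eq_zero_iff] at h0
      have h1 : ∀ᵐ ω ∂ν, ω ∉ {ω : Vx 2 × K' → Bool | TriP P (op1 ω) r' 0} :=
        measure_eq_zero_iff_ae_notMem.1 h0
      filter_upwards [h1] with ω hω _
      exact hω
    · filter_upwards with ω h
      exact absurd h hr'
  have hF : ((pbE P r : Finset (Vx 2 × K')) : Set (Vx 2 × K')) = P.gr.ins (tl r 0) := by
    ext e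
    rw [Finset.mem_coe, mem_pbE P hP]
    simp only [Gr.ins, tl, Set.mem_setOf_eq, sub_zero]
  have hmerge : ∀ᵐ ω ∂ν, ω ∈ pg5_N2r P r → opF (pbE P r) ω ∉ pg5_N2 P := by
    filter_upwards [hae] with ω hω hN hN2
    obtain ⟨u, hu, v, hv, hui, hvi, hn⟩ := hN
    obtain ⟨a, b, ha, hb, hab⟩ := hN2
    have hm := merge_clusters P hP (op1 ω) r hr
      (fun v1 v2 v3 => two_clustersP P hP (op1 ω) hω v1 v2 v3) u v hu hv hui hvi hn a b
    rw [pg5_op1, hF] at ha hb hab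
    exact hab (hm ha hb)
  -- constants
  obtain ⟨C, hC, hCb⟩ := opF_bound ν hI (pbE P r) (p / 4) (by positivity)
  have hδ : 0 < p / (4 * (C + 1)) := by positivity
  obtain ⟨D0, hD0, hD0a⟩ := lc_approx ν (pg5_N2 P) (pg5_mN2 P hP) (p / (4 * (C + 1))) hδ
  obtain ⟨a, ha⟩ := pg5_move (pbE P r) D0 hD0
  obtain ⟨D, hD⟩ : ∃ D : Set (Vx 2 × K' → Bool), D = {ω | shP a ω ∈ D0} := ⟨_, rfl⟩
  have hDm : MeasurableSet D := by
    rw [hD]
    exact shP_meas a (lc_meas hD0)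
  have hDinv : ∀ ω : Vx 2 × K' → Bool, opF (pbE P r) ω ∈ D ↔ ω ∈ D := by
    intro ω
    rw [hD]
    exact ha ω
  have hN2m := pg5_mN2 P hP
  have hsd : ν.real (symmDiff (pg5_N2 P) D) ≤ p / (4 * (C + 1)) := by
    have h1 : symmDiff (pg5_N2 P) D = {ω | shP a ω ∈ symmDiff (pg5_N2 P) D0} := by
      ext ω
      simp only [Set.mem_symmDiff, Set.mem_setOf_eq, pg5_N2_sh, hD]
    rw [h1, hT a _ (hN2m.symmDiff (lc_meas hD0))]
    exact hD0a
  -- the inequality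
  have i1 : p ≤ ν.real (pg5_N2r P r ∩ D) + ν.real (symmDiff (pg5_N2 P) D) := by
    rw [hp]
    refine le_trans (measureReal_mono ?_ (measure_ne_top _ _)) (measureReal_union_le _ _)
    intro ω hω
    by_cases hd : ω ∈ D
    · exact Or.inl ⟨hω, hd⟩
    · right
      left
      obtain ⟨u, _, v, _, hui, hvi, hn⟩ := hω
      exact ⟨⟨u, v, hui, hvi, hn⟩, hd⟩
  have i2 : ν.real (pg5_N2r P r ∩ D) ≤ ν.real {ω | opF (pbE P r) ω ∈ (pg5_N2 P)ᶜ ∩ D} := by
    rw [measureReal_def, measureReal_def]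
    apply ENNReal.toReal_mono (measure_ne_top _ _)
    apply measure_mono_ae
    filter_upwards [hmerge] with ω hω hω2
    exact ⟨hω hω2.1, (hDinv ω).2 hω2.2⟩
  have i3 := hCb ((pg5_N2 P)ᶜ ∩ D) (hN2m.compl.inter hDm)
  have i4 : ν.real ((pg5_N2 P)ᶜ ∩ D) ≤ ν.real (symmDiff (pg5_N2 P) D) := by
    apply measureReal_mono _ (measure_ne_top _ _)
    rintro ω ⟨h1, h2⟩
    exact Or.inr ⟨h2, h1⟩
  have i5 : (C + 1) * ν.real (symmDiff (pg5_N2 P) D) ≤ p / 4 := by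
    calc (C + 1) * ν.real (symmDiff (pg5_N2 P) D) ≤ (C + 1) * (p / (4 * (C + 1))) :=
          mul_le_mul_of_nonneg_left hsd (by positivity)
      _ = p / 4 := by field_simp
  have i6 : C * ν.real ((pg5_N2 P)ᶜ ∩ D) ≤ C * ν.real (symmDiff (pg5_N2 P) D) :=
    mul_le_mul_of_nonneg_left i4 hC.le
  linarith

end H82.BX
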