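import Pool.Agent.H82.BX.PG1
import Pool.Agent.H82.IC.G1

/-!
# PG6: the two periodic graphs `Q2` and `HH` are admissible

`Q2`: tiles are connected (`box_conn` of `IC/G1.lean`; `Q2.gr` is `Zl 2` up to the trivial factor `Unit`).
`HH`: in the tile all squares `x` with `nm x ≤ r`: the two triangles of a square are adjacent (edge `(x,2)`); the edge `(x,1)` joins the upper
triangle of `x` with the lower triangle of `x - e₀`, the edge `(x,0)` joins the lower triangle of `x` with the upper triangle of `x - e₁`;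
so neighbouring squares are connected, and the squares of the box are connected (induction, or by `box_conn`).
-/

set_option autoImplicit false

open Finset MeasureTheory

namespace H82.BX

open H82.IC

theorem PG6_edge {V E : Type} (G : Gr V E) {ω : Set E} {x y : V} (e : E) (he : e ∈ ω)
    (h1 : G.s e = x) (h2 : G.r e = y) : G.Conn ω x y := by
  subst h1
  subst h2
  exact conn_edge G he

theorem PG6_q2_step (r : ℕ) {y z : Vx 2} (h : (Zl 2).Adj (bE 2 r : Set (Ed 2)) y z) :
    Q2.gr.Conn (Q2.gr.ins (tl r 0)) ((y, ()) : Vx 2 × Unit) (z, ()) := by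
  obtain ⟨e, he, hor⟩ := h
  rw [Finset.mem_coe, mem_bE] at he
  have h1 : Q2.gr.s e = (e.1, ()) := by
    change (e.1 + 0, ()) = (e.1, ())
    rw [add_zero]
  have h2 : Q2.gr.r e = (e.1 + Pi.single e.2 1, ()) := rfl
  have h3 : e ∈ Q2.gr.ins (tl r 0 : Set (Vx 2 × Unit)) := by
    refine ⟨?_, ?_⟩
    · rw [h1]
      change nm (e.1 - 0) ≤ r
      rw [sub_zero]
      exact he.1
    · rw [h2]
      change nm (e.1 + Pi.single e.2 1 - 0) ≤ r
      rw [sub_zero]
      exact he.2
  rcases hor with ⟨ha, hb⟩ | ⟨ha, hb⟩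
  · refine PG6_edge _ e h3 ?_ ?_
    · rw [h1, ← ha]; rfl
    · rw [h2, ← hb]; rfl
  · refine conn_symm _ (PG6_edge _ e h3 ?_ ?_)
    · rw [h1, ← ha]; rfl
    · rw [h2, ← hb]; rfl

theorem Q2_ok : Q2.Ok := by
  constructor
  · intro k'
    refine ⟨?_, ?_⟩
    · change nm (0 : Vx 2) ≤ 1
      rw [nm_zero]
      exact Nat.zero_le 1
    · exact G1_single k'
  · rintro r _ ⟨a, _⟩ ha ⟨b, _⟩ hb
    have ha' : nm a ≤ r := by
      have : nm (a - 0) ≤ r := ha
      rwa [sub_zero] at this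
    have hb' : nm b ≤ r := by
      have : nm (b - 0) ≤ r := hb
      rwa [sub_zero] at this
    have h := box_conn ha' hb'
    induction h with
    | refl => exact conn_refl _ _ _
    | @tail y z h1 h2 ih =>
      have hy : nm y ≤ r := by
        obtain ⟨e, he, hor⟩ := h2
        rw [Finset.mem_coe, mem_bE] at he
        rcases hor with ⟨hs, _⟩ | ⟨_, hs⟩
        · rw [← hs]; exact he.1
        · rw [← hs]; exact he.2
      exact conn_trans _ (ih (by change nm (y - 0) ≤ r; rwa [sub_zero]) hy) (PG6_q2_step r h2)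

theorem PG6_hh_mem (r : ℕ) (x : Vx 2) (k : Bool) :
    ((x, k) : Vx 2 × Bool) ∈ (tl r 0 : Set (Vx 2 × Bool)) ↔ nm x ≤ r := by
  change nm (x - 0) ≤ r ↔ nm x ≤ r
  rw [sub_zero]

theorem PG6_hh_sq (r : ℕ) {x : Vx 2} (hx : nm x ≤ r) (a b : Bool) :
    HH.gr.Conn (HH.gr.ins (tl r 0)) ((x, a) : Vx 2 × Bool) (x, b) := by
  have h1 : HH.gr.s (x, 2) = (x, true) := by
    change (x + 0, true) = (x, true)
    rw [add_zero]
  have h2 : HH.gr.r (x, 2) = (x, false) := by
    change (x + 0, false) = (x, false)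
    rw [add_zero]
  have h3 : ((x, 2) : Vx 2 × Fin 3) ∈ HH.gr.ins (tl r 0 : Set (Vx 2 × Bool)) := by
    refine ⟨?_, ?_⟩
    · rw [h1, PG6_hh_mem]; exact hx
    · rw [h2, PG6_hh_mem]; exact hx
  have h4 := PG6_edge HH.gr _ h3 h1 h2
  cases a <;> cases b
  · exact conn_refl _ _ _
  · exact conn_symm _ h4
  · exact h4
  · exact conn_refl _ _ _

theorem PG6_hh_nb (r : ℕ) {x : Vx 2} (i : Fin 2) (hx : nm x ≤ r) (hx' : nm (x + Pi.single i 1) ≤ r) :
    HH.gr.Conn (HH.gr.ins (tl r 0)) ((x, false) : Vx 2 × Bool) (x + Pi.single i 1, false) := by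
  fin_cases i
  · -- edge `(x + e₀, 1)`
    have h1 : HH.gr.s (x + Pi.single 0 1, 1) = (x, false) := by
      change (x + Pi.single 0 1 + -Pi.single 0 1, false) = (x, false)
      rw [add_neg_cancel_right]
    have h2 : HH.gr.r (x + Pi.single 0 1, 1) = (x + Pi.single 0 1, true) := by
      change (x + Pi.single 0 1 + 0, true) = (x + Pi.single 0 1, true)
      rw [add_zero]
    have h3 : ((x + Pi.single 0 1, 1) : Vx 2 × Fin 3) ∈ HH.gr.ins (tl r 0 : Set (Vx 2 × Bool)) := by
      refine ⟨?_, ?_⟩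
      · rw [h1, PG6_hh_mem]; exact hx
      · rw [h2, PG6_hh_mem]; exact hx'
    exact conn_trans _ (PG6_edge HH.gr _ h3 h1 h2) (PG6_hh_sq r hx' true false)
  · -- edge `(x + e₁, 0)`
    have h1 : HH.gr.s (x + Pi.single 1 1, 0) = (x + Pi.single 1 1, false) := by
      change (x + Pi.single 1 1 + 0, false) = (x + Pi.single 1 1, false)
      rw [add_zero]
    have h2 : HH.gr.r (x + Pi.single 1 1, 0) = (x, true) := by
      change (x + Pi.single 1 1 + -Pi.single 1 1, true) = (x, true)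
      rw [add_neg_cancel_right]
    have h3 : ((x + Pi.single 1 1, 0) : Vx 2 × Fin 3) ∈ HH.gr.ins (tl r 0 : Set (Vx 2 × Bool)) := by
      refine ⟨?_, ?_⟩
      · rw [h1, PG6_hh_mem]; exact hx'
      · rw [h2, PG6_hh_mem]; exact hx
    exact conn_trans _ (PG6_hh_sq r hx false true) (conn_symm _ (PG6_edge HH.gr _ h3 h1 h2))

theorem PG6_hh_step (r : ℕ) {y z : Vx 2} (h : (Zl 2).Adj (bE 2 r : Set (Ed 2)) y z) :
    HH.gr.Conn (HH.gr.ins (tl r 0)) ((y, false) : Vx 2 × Bool) (z, false) := by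
  obtain ⟨e, he, hor⟩ := h
  rw [Finset.mem_coe, mem_bE] at he
  have h4 := PG6_hh_nb r e.2 he.1 he.2
  rcases hor with ⟨ha, hb⟩ | ⟨ha, hb⟩
  · rw [← ha, ← hb]; exact h4
  · rw [← ha, ← hb]; exact conn_symm _ h4

theorem HH_ok : HH.Ok := by
  constructor
  · intro k'
    fin_cases k'
    · refine ⟨?_, ?_⟩
      · change nm (0 : Vx 2) ≤ 1
        rw [nm_zero]
        exact Nat.zero_le 1
      · change nm (-Pi.single 1 1 : Vx 2) ≤ 1
        rw [nm_neg]
        exact G1_single 1
    · refine ⟨?_, ?_⟩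
      · change nm (-Pi.single 0 1 : Vx 2) ≤ 1
        rw [nm_neg]
        exact G1_single 0
      · change nm (0 : Vx 2) ≤ 1
        rw [nm_zero]
        exact Nat.zero_le 1
    · refine ⟨?_, ?_⟩
      · change nm (0 : Vx 2) ≤ 1
        rw [nm_zero]
        exact Nat.zero_le 1
      · change nm (0 : Vx 2) ≤ 1
        rw [nm_zero]
        exact Nat.zero_le 1
  · rintro r _ ⟨a, ka⟩ ha ⟨b, kb⟩ hb
    rw [PG6_hh_mem] at ha hb
    have key : ∀ v : Vx 2, (Zl 2).Conn (bE 2 r : Set (Ed 2)) a v →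
        HH.gr.Conn (HH.gr.ins (tl r 0)) ((a, false) : Vx 2 × Bool) (v, false) := by
      intro v h
      induction h with
      | refl => exact conn_refl _ _ _
      | @tail y z h1 h2 ih => exact conn_trans _ ih (PG6_hh_step r h2)
    exact conn_trans _ (PG6_hh_sq r ha ka false)
      (conn_trans _ (key b (box_conn ha hb)) (PG6_hh_sq r hb false kb))

end H82.BX
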