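import Pool.Agent.H82.BX.CR1
import Pool.Agent.H82.BX.NU2
import Pool.Agent.H82.BX.PG6
import Pool.Agent.H82.BX.PG5

/-!
# CR3: uniqueness in finite boxes

`D N` = there are `u, v ∈ FN K` such that `u` is connected in `op1 ω ∩ inN N` to a vertex of `Lf N`, `v` to a vertex of `Rt N`, and `u, v` are not connected in `op1 ω ∩ inN N`.  Let `D' N` be the same with the two connections replaced by connections in `op1 ω` to vertices of norm at least `N - 1`;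
`D N ⊆ D' N`, `D'` is decreasing in `N` (a connection inside `inN N` is one inside `inN (N+1)`), and the intersection of the `D' N` is contained in
`{∃ u v, infinite clusters, not connected}` (finitely many pairs `u, v`; decreasing; a cluster which leaves every box is infinite), a null event by `bk_unique` (`HH_ok`, `h.tip`, `h.ins`).  Continuity of the measure.
-/

set_option autoImplicit false

open Finset MeasureTheory Filter Topology

namespace H82.BX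

open H82.IC XYB

private theorem CR3_mem_FN (n : ℕ) (v : Vx 2 × Bool) :
    v ∈ FN n ↔ ∀ i : Fin 2, -(n : ℤ) ≤ v.1 i ∧ v.1 i < n := by
  unfold FN
  rw [Finset.mem_product, Fintype.mem_piFinset]
  simp only [Finset.mem_Ico, Finset.mem_univ, and_true]

private theorem CR3_FN_mono {n m : ℕ} (h : n ≤ m) : FN n ⊆ FN m := by
  intro v hv
  rw [CR3_mem_FN] at hv ⊢
  intro i
  have h1 := hv i
  have h2 : (n : ℤ) ≤ m := by exact_mod_cast h
  constructor <;> omega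

private theorem CR3_inN_mono {n m : ℕ} (h : n ≤ m) : inN n ⊆ inN m := by
  rintro e ⟨h1, h2⟩
  exact ⟨Finset.coe_subset.2 (CR3_FN_mono h) h1, Finset.coe_subset.2 (CR3_FN_mono h) h2⟩

private theorem CR3_nm_FN {n : ℕ} {v : Vx 2 × Bool} (h : nm v.1 ≤ n) : v ∈ FN (n + 1) := by
  rw [CR3_mem_FN]
  intro i
  have h1 := G1_nm_le.1 h i
  constructor <;> omega

private theorem CR3_pbE_inN (n : ℕ) : (pbE HH n : Set (Vx 2 × Fin 3)) ⊆ inN (n + 1) := by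
  intro e he
  rw [Finset.mem_coe, mem_pbE HH HH_ok] at he
  exact ⟨CR3_nm_FN he.1, CR3_nm_FN he.2⟩

/-- the bad event for the pair `u, v`. -/
private def CR3_B (u v : Vx 2 × Bool) (N : ℕ) : Set (Vx 2 × Fin 3 → Bool) :=
  {ω | (∃ b : Vx 2 × Bool, N ≤ nm b.1 + 1 ∧ HH.gr.Conn (op1 ω) u b) ∧
    (∃ b : Vx 2 × Bool, N ≤ nm b.1 + 1 ∧ HH.gr.Conn (op1 ω) v b) ∧
    ¬ HH.gr.Conn (op1 ω ∩ inN N) u v}

private theorem CR3_B_anti (u v : Vx 2 × Bool) : Antitone (CR3_B u v) := by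
  intro n m h ω hω
  obtain ⟨⟨b, hb, hb'⟩, ⟨c, hc, hc'⟩, hn⟩ := hω
  refine ⟨⟨b, h.trans hb, hb'⟩, ⟨c, h.trans hc, hc'⟩, fun hcon => hn ?_⟩
  exact conn_mono _ (Set.inter_subset_inter_right _ (CR3_inN_mono h)) hcon

private theorem CR3_B_meas (u v : Vx 2 × Bool) (N : ℕ) : MeasurableSet (CR3_B u v N) := by
  have h1 : ∀ w : Vx 2 × Bool, MeasurableSet
      {ω : Vx 2 × Fin 3 → Bool | ∃ b : Vx 2 × Bool, N ≤ nm b.1 + 1 ∧ HH.gr.Conn (op1 ω) w b} := by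
    intro w
    have h2 : {ω : Vx 2 × Fin 3 → Bool | ∃ b : Vx 2 × Bool, N ≤ nm b.1 + 1 ∧
        HH.gr.Conn (op1 ω) w b} = ⋃ b : Vx 2 × Bool, ({ω : Vx 2 × Fin 3 → Bool | N ≤ nm b.1 + 1} ∩
          {ω | HH.gr.Conn (op1 ω) w b}) := by
      ext ω
      simp only [Set.mem_setOf_eq, Set.mem_iUnion, Set.mem_inter_iff]
    rw [h2]
    exact MeasurableSet.iUnion fun b => (MeasurableSet.const _).inter (pg5_mC HH HH_ok w b)
  have h3 : MeasurableSet {ω : Vx 2 × Fin 3 → Bool | HH.gr.Conn (op1 ω ∩ inN N) u v} := by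
    have h4 := meas_connP HH HH_ok (inN N)ᶜ u v
    simpa only [Set.diff_compl] using h4
  exact (h1 u).inter ((h1 v).inter h3.compl)

private theorem CR3_B_inter (u v : Vx 2 × Bool) :
    (⋂ N : ℕ, CR3_B u v N) ⊆ {ω : Vx 2 × Fin 3 → Bool | (HH.gr.cl (op1 ω) u).Infinite ∧
      (HH.gr.cl (op1 ω) v).Infinite ∧ ¬ HH.gr.Conn (op1 ω) u v} := by
  intro ω hω
  rw [Set.mem_iInter] at hω
  refine ⟨(inf_pg HH _ _).2 fun n => ?_, (inf_pg HH _ _).2 fun n => ?_, fun hcon => ?_⟩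
  · obtain ⟨⟨b, hb, hb'⟩, -, -⟩ := hω (n + 1)
    exact ⟨b, by omega, hb'⟩
  · obtain ⟨-, ⟨b, hb, hb'⟩, -⟩ := hω (n + 1)
    exact ⟨b, by omega, hb'⟩
  · obtain ⟨n, hn⟩ := conn_pg HH HH_ok hcon
    obtain ⟨-, -, h3⟩ := hω (n + 1)
    exact h3 (conn_mono _ (Set.inter_subset_inter_right _ (CR3_pbE_inN n)) hn)

private theorem CR3_lim (ν : Measure (Vx 2 × Fin 3 → Bool)) (h : PerOk ν) (u v : Vx 2 × Bool) :
    Tendsto (fun N => ν.real (CR3_B u v N)) atTop (𝓝 0) := by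
  haveI := h.prob
  have h0 : ν (⋂ N : ℕ, CR3_B u v N) = 0 := by
    have h1 := bk_unique HH HH_ok ν h.tip h.ins
    have h2 : ∀ᵐ ω ∂ν, ω ∉ ⋂ N : ℕ, CR3_B u v N := by
      filter_upwards [h1] with ω hω hmem
      obtain ⟨a, b, c⟩ := CR3_B_inter u v hmem
      exact c (hω u v a b)
    exact measure_eq_zero_iff_ae_notMem.2 h2
  have h3 : Tendsto (fun N => ν (CR3_B u v N)) atTop (𝓝 (ν (⋂ N : ℕ, CR3_B u v N))) :=
    tendsto_measure_iInter_atTop (fun N => (CR3_B_meas u v N).nullMeasurableSet)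
      (CR3_B_anti u v) ⟨0, measure_ne_top _ _⟩
  rw [h0] at h3
  have h4 := (ENNReal.tendsto_toReal ENNReal.zero_ne_top).comp h3
  simpa [Measure.real, Function.comp_def] using h4

private theorem CR3_sub (K N : ℕ) : {ω : Vx 2 × Fin 3 → Bool | ∃ u ∈ FN K, ∃ v ∈ FN K,
      (∃ a ∈ Lf N, HH.gr.Conn (op1 ω ∩ inN N) u a) ∧ (∃ b ∈ Rt N, HH.gr.Conn (op1 ω ∩ inN N) v b) ∧
      ¬ HH.gr.Conn (op1 ω ∩ inN N) u v} ⊆ ⋃ p ∈ FN K ×ˢ FN K, CR3_B p.1 p.2 N := by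
  rintro ω ⟨u, hu, v, hv, ⟨a, ha, ha'⟩, ⟨b, hb, hb'⟩, hn⟩
  simp only [Set.mem_iUnion]
  refine ⟨(u, v), Finset.mem_product.2 ⟨hu, hv⟩, ⟨a, ?_, conn_mono _ Set.inter_subset_left ha'⟩,
    ⟨b, ?_, conn_mono _ Set.inter_subset_left hb'⟩, hn⟩
  · obtain ⟨-, -, h3⟩ := ha
    by_contra hlt
    have h4 : nm a.1 ≤ N - 1 := by omega
    have h5 := G1_nm_le.1 h4 0
    omega
  · obtain ⟨h1, -, h3⟩ := hb
    by_contra hlt
    have h4 : nm b.1 ≤ N - 2 := by omega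
    have h5 := G1_nm_le.1 h4 0
    omega

theorem cr_uni (ν : Measure (Vx 2 × Fin 3 → Bool)) (h : PerOk ν) (ε : ℝ) (hε : 0 < ε) (K : ℕ) :
    ∃ N0 : ℕ, ∀ N : ℕ, N0 ≤ N → ν.real {ω | ∃ u ∈ FN K, ∃ v ∈ FN K,
      (∃ a ∈ Lf N, HH.gr.Conn (op1 ω ∩ inN N) u a) ∧ (∃ b ∈ Rt N, HH.gr.Conn (op1 ω ∩ inN N) v b) ∧
      ¬ HH.gr.Conn (op1 ω ∩ inN N) u v} ≤ ε := by
  haveI := h.prob
  have h1 : Tendsto (fun N => ∑ p ∈ FN K ×ˢ FN K, ν.real (CR3_B p.1 p.2 N)) atTop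
      (𝓝 (∑ p ∈ FN K ×ˢ FN K, (0 : ℝ))) :=
    tendsto_finset_sum _ fun p _ => CR3_lim ν h p.1 p.2
  rw [Finset.sum_const_zero] at h1
  obtain ⟨N0, hN0⟩ := Filter.eventually_atTop.1 (h1.eventually (ge_mem_nhds hε))
  refine ⟨N0, fun N hN => ?_⟩
  refine (measureReal_mono (CR3_sub K N) (measure_ne_top _ _)).trans ?_
  exact (measureReal_biUnion_finset_le _ _).trans (hN0 N hN)

end H82.BX
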