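import Pool.Agent.H82.BX.PER
import Pool.Agent.H82.BX.CR2
import Pool.Agent.H82.BX.CR3

/-!
# CRO: crossings (assembly)

`per_one` with `ε = 10^{-4}` gives `K0`; vertices with `nm v.1 ≤ K0` are in `FN (K0+1)`; let `K = K0 + 1`.  `cr_sq` with `ε = 1/10` (`ε^4 = 10^{-4}`), `cr_uni` with `ε = 1/10`: for `N` large, `N ≥ K`,
`ν(AS Lf ∩ AS Rt ∖ D) ≥ 1 - 3/10 > 1/2`, and on this event there is a left-right crossing (`a - u - v - b`; `LRc N (op1 ω)` uses `op1 ω ∩ inN N`).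
-/

set_option autoImplicit false

open Finset MeasureTheory Filter Topology

namespace H82.BX

open H82.IC XYB

theorem cro_sub (K N : ℕ) (ω : Vx 2 × Fin 3 → Bool) (h1 : AS K N (Lf N) (op1 ω))
    (h2 : AS K N (Rt N) (op1 ω))
    (h3 : ¬ ∃ u ∈ FN K, ∃ v ∈ FN K,
      (∃ a ∈ Lf N, HH.gr.Conn (op1 ω ∩ inN N) u a) ∧ (∃ b ∈ Rt N, HH.gr.Conn (op1 ω ∩ inN N) v b) ∧
      ¬ HH.gr.Conn (op1 ω ∩ inN N) u v) : LRc N (op1 ω) := by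
  obtain ⟨u, hu, a, ha, hua⟩ := h1
  obtain ⟨v, hv, b, hb, hvb⟩ := h2
  have huv : HH.gr.Conn (op1 ω ∩ inN N) u v := by
    by_contra hc
    exact h3 ⟨u, hu, v, hv, ⟨a, ha, hua⟩, ⟨b, hb, hvb⟩, hc⟩
  exact ⟨a, ha, b, hb, conn_trans _ (conn_trans _ (conn_symm _ hua) huv) hvb⟩

theorem cro (ν : Measure (Vx 2 × Fin 3 → Bool)) (h : PerOk ν) :
    ∃ N : ℕ, 1 ≤ N ∧ 1 / 2 < ν.real {ω | LRc N (op1 ω)} := by
  haveI := h.prob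
  obtain ⟨K0, hK0⟩ := per_one ν h ((1 / 10 : ℝ) ^ 4) (by positivity)
  have hp : 1 - (1 / 10 : ℝ) ^ 4 ≤
      ν.real {ω | ∃ v ∈ FN (K0 + 1), (HH.gr.cl (op1 ω) v).Infinite} := by
    refine hK0.trans (measureReal_mono ?_ (measure_ne_top _ _))
    rintro ω ⟨v, hv, hinf⟩
    refine ⟨v, ?_, hinf⟩
    rw [mem_FN]
    intro i
    have h1 := G1_le_nm v.1 i
    constructor
    · push_cast; omega
    · push_cast; omega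
  obtain ⟨N0, hN0⟩ := cr_uni ν h (1 / 10) (by norm_num) (K0 + 1)
  obtain ⟨N, hN⟩ : ∃ N, N = max N0 (K0 + 1) := ⟨_, rfl⟩
  have hNK : K0 + 1 ≤ N := hN ▸ le_max_right _ _
  refine ⟨N, by omega, ?_⟩
  obtain ⟨hL, hR⟩ := cr_sq ν h (1 / 10) (by norm_num) (K0 + 1) N hNK hp
  have hD := hN0 N (hN ▸ le_max_left _ _)
  obtain ⟨A, hA⟩ : ∃ A, A = {ω : Vx 2 × Fin 3 → Bool | AS (K0 + 1) N (Lf N) (op1 ω)} := ⟨_, rfl⟩
  obtain ⟨B, hB⟩ : ∃ B, B = {ω : Vx 2 × Fin 3 → Bool | AS (K0 + 1) N (Rt N) (op1 ω)} := ⟨_, rfl⟩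
  obtain ⟨D, hDd⟩ : ∃ D, D = {ω : Vx 2 × Fin 3 → Bool | ∃ u ∈ FN (K0 + 1), ∃ v ∈ FN (K0 + 1),
      (∃ a ∈ Lf N, HH.gr.Conn (op1 ω ∩ inN N) u a) ∧ (∃ b ∈ Rt N, HH.gr.Conn (op1 ω ∩ inN N) v b) ∧
      ¬ HH.gr.Conn (op1 ω ∩ inN N) u v} := ⟨_, rfl⟩
  rw [← hA] at hL
  rw [← hB] at hR
  rw [← hDd] at hD
  have hAm : MeasurableSet A := hA ▸ lc_meas (as_lc _ _ _).1
  have hBm : MeasurableSet B := hB ▸ lc_meas (as_lc _ _ _).1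
  have hsub : (Aᶜ ∪ Bᶜ ∪ D)ᶜ ⊆ {ω | LRc N (op1 ω)} := by
    intro ω hω
    simp only [Set.mem_compl_iff, Set.mem_union, not_or, not_not] at hω
    obtain ⟨⟨h1, h2⟩, h3⟩ := hω
    rw [hA] at h1
    rw [hB] at h2
    rw [hDd] at h3
    exact cro_sub _ _ _ h1 h2 h3
  have h4 : ν.real (Aᶜ ∪ Bᶜ ∪ D) ≤ 3 / 10 := by
    have e1 := measureReal_union_le (μ := ν) (Aᶜ ∪ Bᶜ) D
    have e2 := measureReal_union_le (μ := ν) Aᶜ Bᶜ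
    have e3 : ν.real Aᶜ = 1 - ν.real A := probReal_compl_eq_one_sub hAm
    have e4 : ν.real Bᶜ = 1 - ν.real B := probReal_compl_eq_one_sub hBm
    linarith
  have h5 : 1 ≤ ν.real (Aᶜ ∪ Bᶜ ∪ D) + ν.real (Aᶜ ∪ Bᶜ ∪ D)ᶜ := by
    have := measureReal_union_le (μ := ν) (Aᶜ ∪ Bᶜ ∪ D) (Aᶜ ∪ Bᶜ ∪ D)ᶜ
    rwa [Set.union_compl_self, probReal_univ] at this
  have h6 := measureReal_mono (μ := ν) hsub (measure_ne_top _ _)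
  linarith

end H82.BX
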