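import Pool.Agent.H82.BX.CK3
import Pool.Agent.H82.BX.A3
import Pool.Agent.H82.BX.DRB

/-!
# DCH: the one arm probabilities are bounded below

`C0` from `fT_DR0 b l`; `l1 = l/2`, so `DR C0 (2 l1) (fT L (clk K 0) b)` for all `L`, `K`.  `c` from `drt C0 l1`.  Suppose for some `n` there are arbitrarily large `L` (with some `K ≥ 1`) with
`fT n l < c`.  Then for those `(L, K)`: `fT m (l/8) ≤ C exp(-a m)` for all `m`, `C, a` not depending on `(L, K)`.  Let `n'` be a box size; take such an `L ≥ 4 n' + 4`: by `a3` (with `l/8`) and `up0` the box correlation of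
`p, q` is at most `∑_{x ∈ en, y ∈ en} P(x ↔ y) ≤ 4 max P(armT (td (y - x)) x) ≤ 4 C exp(-a (nm (bp p - bp q) - 4))` (`fT_tr`; the ends of `pT p` are within distance `2` of `prT (bp p)`, and
`td (prT z) = nm z` for `nm z ≤ 2 n' ≤ L/2`).  This contradicts `noED κ`.
-/

set_option autoImplicit false

open Finset MeasureTheory Filter Topology

namespace H82.BX

open H82.IC XYB

section gen
variable {V E : Type} [Fintype V] [DecidableEq V] [Fintype E] [DecidableEq E]

theorem DCH_EW_mono (G : Gr V E) (b l : ℝ) (hb : 0 < b) (K : ℕ) (hK : 0 < K) (f g : (E → Bool) → ℝ)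
    (hfg : ∀ o, f o ≤ g o) :
    EW G (clk K 0) b l (fun _ o => f o) ≤ EW G (clk K 0) b l (fun _ o => g o) := by
  unfold EW
  refine div_le_div_of_nonneg_right ?_ (W0_pos G b l hb K hK).le
  exact sum_le_sum fun c _ => sum_le_sum fun o _ =>
    mul_le_mul_of_nonneg_left (hfg o) (W0_nonneg G b l hb K hK c o)

theorem DCH_en_card (G : Gr V E) (p : SV V E) : (en G p).card ≤ 2 := by
  rcases p with v | ⟨e, i⟩
  · simp [en]
  · exact Finset.card_le_two

end gen

theorem DCH_ind_mono {p q : Prop} (h : p → q) : ind p ≤ ind q := by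
  unfold ind
  by_cases hp : p
  · simp [hp, h hp]
  · by_cases hq : q <;> simp [hp, hq]

variable {L : ℕ} [NeZero L]

theorem DCH_td_single (i : Fin 2) : td (Pi.single i 1 : Fin 2 → ZMod L) ≤ 1 := by
  have h := (td_edge (0 : Fin 2 → ZMod L) ((0 : Fin 2 → ZMod L), i)).1
  simp only [TD, zero_add, sub_zero, td_zero] at h
  exact h

theorem DCH_conn_arm (x y : Fin 2 → ZMod L) (o : (Fin 2 → ZMod L) × Fin 2 → Bool)
    (h : (TD L).Conn (op1 o) x y) : armT (td (y - x)) x o := ⟨y, le_rfl, h⟩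

theorem DCH_nm_td (n : ℕ) (hL : 4 * n + 4 ≤ L) (z : Vx 2) (hz : ∀ i, (z i).natAbs ≤ 2 * n) :
    nm z ≤ td (prT L z) := by
  unfold nm td
  refine Finset.sup_mono_fun fun i _ => ?_
  have h1 : ((z i : ZMod L)).valMinAbs = z i := by
    rw [ZMod.valMinAbs_spec]
    refine ⟨rfl, ?_⟩
    have := hz i
    rw [Set.mem_Ioc]
    constructor <;> omega
  rw [show prT L z i = (z i : ZMod L) from rfl, h1]

theorem DCH_prT_sub (x y : Vx 2) : prT L (x - y) = prT L x - prT L y := by
  funext i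
  simp [prT]

/-- the ends of `pT p` are within distance `2` of `prT (bp p)`. -/
theorem DCH_ends (n : ℕ) (p : ↥(bx 2 n) ⊕ (↥(EN n) × Fin 5)) (x : Fin 2 → ZMod L)
    (hx : x ∈ en (TD L) (pT L n p)) : td (x - prT L (bp p)) ≤ 2 := by
  have s0 : td (Pi.single 0 1 : Fin 2 → ZMod L) ≤ 1 := DCH_td_single 0
  have s1 : td (Pi.single 1 1 : Fin 2 → ZMod L) ≤ 1 := DCH_td_single 1
  have s2 : td ((Pi.single 0 1 : Fin 2 → ZMod L) + Pi.single 1 1) ≤ 2 := (td_add _ _).trans (by omega)
  have s3 : td (0 : Fin 2 → ZMod L) ≤ 2 := by rw [td_zero]; omega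
  rcases p with v | ⟨e, j⟩
  · simp only [pT, en, mem_singleton] at hx
    rw [hx]
    simp only [bp, sub_self]
    exact s3
  · obtain ⟨⟨z, k⟩, he⟩ := e
    have key : x - prT L z = 0 ∨ x - prT L z = Pi.single 0 1 ∨ x - prT L z = Pi.single 1 1 ∨
        x - prT L z = Pi.single 0 1 + Pi.single 1 1 := by
      fin_cases k <;> fin_cases j <;>
        simp [pT, en, TD] at hx <;>
        first
        | (left; rw [hx]; exact sub_self _)
        | (rcases hx with hx | hx <;> rw [hx] <;> simp [add_assoc])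
        | (right; left; rw [hx]; simp)
    show td (x - prT L z) ≤ 2
    rcases key with h | h | h | h <;> rw [h]
    · exact s3
    · exact s0.trans (by omega)
    · exact s1.trans (by omega)
    · exact s2

/-- the box correlation is bounded by one arm probabilities. -/
theorem DCH_bound (κ b l C a : ℝ) (hκ0 : 0 < κ) (hb : 2 * κ ≤ b) (hl : 0 < l) (hC : 0 < C) (ha : 0 < a)
    (K : ℕ) (hK : 0 < K) (n : ℕ) (hL : 4 * n + 4 ≤ L)
    (hf : ∀ m : ℕ, fT L (clk K 0) b m l ≤ C * Real.exp (-a * m))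
    (p q : ↥(bx 2 n) ⊕ (↥(EN n) × Fin 5)) :
    gE (hG (C6 (TB n)) (fun _ => κ)) (fun θ => cosC (θ p) * cosC (θ q)) ≤
      (4 * C * Real.exp (4 * a)) * Real.exp (-a * nm (bp p - bp q)) := by
  have hb0 : 0 < b := by linarith
  refine (a3 n L hL b κ l hκ0.le hb hl.le (24 * K) (by omega) p q).trans ?_
  refine (up0 (TD L) b l hb0 K hK (pT L n p) (pT L n q)).trans ?_
  have hterm : ∀ x ∈ en (TD L) (pT L n p), ∀ y ∈ en (TD L) (pT L n q),
      EW (TD L) (clk K 0) b l (fun _ o => ind ((TD L).Conn (op1 o) x y)) ≤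
        C * Real.exp (4 * a) * Real.exp (-a * nm (bp p - bp q)) := by
    intro x hx y hy
    have h1 : EW (TD L) (clk K 0) b l (fun _ o => ind ((TD L).Conn (op1 o) x y)) ≤
        EW (TD L) (clk K 0) b l (fun _ o => ind (armT (td (y - x)) x o)) :=
      DCH_EW_mono (TD L) b l hb0 K hK _ _ fun o => DCH_ind_mono (DCH_conn_arm x y o)
    rw [fT_tr] at h1
    refine h1.trans ((hf _).trans ?_)
    rw [mul_assoc, ← Real.exp_add]
    refine mul_le_mul_of_nonneg_left (Real.exp_le_exp.2 ?_) hC.le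
    have e1 := DCH_ends n p x hx
    have e2 := DCH_ends n q y hy
    have e3 : nm (bp p - bp q) ≤ td (prT L (bp p - bp q)) := by
      refine DCH_nm_td n hL _ fun i => ?_
      have hbd : ∀ r : ↥(bx 2 n) ⊕ (↥(EN n) × Fin 5), (bp r i).natAbs ≤ n := by
        intro r
        have hm : bp r ∈ bx 2 n := by
          rcases r with v | ⟨e, j⟩
          · exact v.2
          · exact (mem_product.1 (mem_filter.1 e.2).1).1
        rw [bx, Fintype.mem_piFinset] at hm
        have := Finset.mem_Icc.1 (hm i)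
        omega
      have h1 := hbd p
      have h2 := hbd q
      rw [Pi.sub_apply]
      omega
    rw [DCH_prT_sub] at e3
    have e4 : td (prT L (bp p) - prT L (bp q)) ≤ td (y - x) + 4 := by
      have : prT L (bp p) - prT L (bp q) =
          -(x - prT L (bp p)) + (-(y - x) + (y - prT L (bp q))) := by abel
      rw [this]
      refine (td_add _ _).trans ?_
      have t1 := td_add (-(y - x)) (y - prT L (bp q))
      rw [td_neg] at t1 ⊢
      omega
    have e5 : (nm (bp p - bp q) : ℝ) ≤ (td (y - x) : ℝ) + 4 := by exact_mod_cast e3.trans e4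
    nlinarith
  calc ∑ x ∈ en (TD L) (pT L n p), ∑ y ∈ en (TD L) (pT L n q),
      EW (TD L) (clk K 0) b l (fun _ o => ind ((TD L).Conn (op1 o) x y))
      ≤ ∑ x ∈ en (TD L) (pT L n p), ∑ y ∈ en (TD L) (pT L n q),
        C * Real.exp (4 * a) * Real.exp (-a * nm (bp p - bp q)) :=
        sum_le_sum fun x hx => sum_le_sum fun y hy => hterm x hx y hy
    _ = ((en (TD L) (pT L n p)).card * (en (TD L) (pT L n q)).card : ℝ) *
        (C * Real.exp (4 * a) * Real.exp (-a * nm (bp p - bp q))) := by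
        simp only [sum_const, nsmul_eq_mul]
        ring
    _ ≤ (2 * 2 : ℝ) * (C * Real.exp (4 * a) * Real.exp (-a * nm (bp p - bp q))) := by
        refine mul_le_mul_of_nonneg_right ?_ (by positivity)
        have c1 : ((en (TD L) (pT L n p)).card : ℝ) ≤ 2 := by exact_mod_cast DCH_en_card _ _
        have c2 : ((en (TD L) (pT L n q)).card : ℝ) ≤ 2 := by exact_mod_cast DCH_en_card _ _
        exact mul_le_mul c1 c2 (Nat.cast_nonneg _) (by norm_num)
    _ = _ := by ring

theorem dch (κ b l : ℝ) (hκ0 : 0 < κ) (hκ : noED κ) (hb : 2 * κ ≤ b) (hl : 0 < l) :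
    ∃ c : ℝ, 0 < c ∧ ∀ n : ℕ, ∃ L0 : ℕ, ∀ L : ℕ, L0 ≤ L → ∀ [NeZero L] (K : ℕ), 0 < K →
      c ≤ fT L (clk K 0) b n l := by
  have hb0 : 0 < b := by linarith
  obtain ⟨C0, hC0, hDR⟩ := fT_DR0 b l hb0 hl
  obtain ⟨c, hc, hdrt⟩ := drt C0 (l / 2) hC0 (by linarith)
  refine ⟨c, hc, fun n => ?_⟩
  obtain ⟨C, a, hC, ha, hf⟩ := hdrt n
  by_contra hcon
  push Not at hcon
  refine hκ ⟨4 * C * Real.exp (4 * a), a, ha, fun n' p q => ?_⟩
  obtain ⟨L, hL, hne, K, hK, hlt⟩ := hcon (4 * n' + 4)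
  have h2 : 2 * (l / 2) = l := by ring
  have hD : DR C0 (2 * (l / 2)) (fT L (clk K 0) b) := by
    rw [h2]
    exact hDR L K hK
  rcases hf _ hD with h | h
  · rw [h2] at h
    exact absurd hlt (not_lt.2 h)
  · exact DCH_bound κ b (l / 2 / 4) C a hκ0 hb (by positivity) hC ha K hK n' hL h p q

end H82.BX
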