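import Pool.Agent.H82.BX.INF
import Pool.Agent.H82.BX.OSS
import Pool.Agent.H82.BX.EX1
import Pool.Agent.H82.BX.TG1
import Pool.Agent.H82.BX.DER

/-!
# DI1: OSSS for the one arm event on the torus, with the exploration from the sphere of radius `k`

`f(x) = ind (armT n 0 (po x))` (increasing, in `{0,1}`), `k ≤ n`, seeds `Sd = {u | td u = k}`.  `osss` with `m = mW` (`mW_pos`, `mW_sum`), `Ad = Adm`, `nx = nxS Sd` (`nx_legal`), `mW_mon`, `hdet` from `det_conn` with `sep_torus`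
(`a = 0`, `T = {u | n ≤ td u}`, `td (u - 0) = td u`), `c i = K cv (pin i)` (`infl_bound`, `deg4_TD`):
`f_n - f_n² ≤ ∑_i P(i ∈ rev) K cv(pin i)`, and `P(i ∈ rev) ≤ dl k i` by `rev_touch` (`mW_EW`), `cv ≥ 0` (`cv` is an upper bound of a nonnegative sum: `infl_bound`, or `cv_nonneg` of DER; `K cv(pin i) ≥ 0`).
`∑ m f² = ∑ m f = fT` (`mW_EW`).
-/

set_option autoImplicit false

open Finset MeasureTheory

namespace H82.BX

open H82.IC

/-- probability that the coordinate `i` belongs to an edge which touches the cluster of the sphere of radius `k`. -/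
noncomputable def dl (L : ℕ) [NeZero L] (M : Al) (b l : ℝ) (k : ℕ)
    (i : SV (Fin 2 → ZMod L) ((Fin 2 → ZMod L) × Fin 2) ⊕ ((Fin 2 → ZMod L) × Fin 2)) : ℝ :=
  EW (TD L) M b l (fun _ o => ind (∃ e, toE (TD L) i e ∧ ∃ s : Fin 2 → ZMod L, td s = k ∧
    ((TD L).Conn (op1 o) s ((TD L).s e) ∨ (TD L).Conn (op1 o) s ((TD L).r e))))

theorem di_ind_mono {p q : Prop} (h : p → q) : ind p ≤ ind q := by
  unfold ind
  by_cases hp : p
  · rw [if_pos hp, if_pos (h hp)]
  · rw [if_neg hp]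
    split_ifs
    · exact zero_le_one
    · exact le_rfl

theorem di_ind_0 (p : Prop) : 0 ≤ ind p := by
  unfold ind
  split_ifs
  · exact zero_le_one
  · exact le_rfl

theorem di_ind_1 (p : Prop) : ind p ≤ 1 := by
  unfold ind
  split_ifs
  · exact le_rfl
  · exact zero_le_one

theorem di_ind_sq (p : Prop) : ind p ^ 2 = ind p := by
  unfold ind
  split_ifs <;> simp

theorem di_ind_congr {p q : Prop} (h : p ↔ q) : ind p = ind q := by rw [propext h]

theorem di_conn_mono {V E : Type} (G : Gr V E) {ω ω' : Set E} (h : ω ⊆ ω') {u v : V}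
    (hc : G.Conn ω u v) : G.Conn ω' u v := by
  unfold Gr.Conn at hc ⊢
  induction hc with
  | refl => exact Relation.ReflTransGen.refl
  | tail _ h1 ih =>
    obtain ⟨e, he, h2⟩ := h1
    exact ih.tail ⟨e, h he, h2⟩

theorem di_mono {V E : Type} (G : Gr V E) (a : V) (T : Set V) :
    Monotone (fun o : E → Bool => ind (∃ u ∈ T, G.Conn (op1 o) a u)) := by
  intro o o' h
  refine di_ind_mono ?_
  rintro ⟨u, hu, hc⟩
  refine ⟨u, hu, di_conn_mono _ ?_ hc⟩
  intro e he
  have h1 := h e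
  have he' : o e = true := he
  change o' e = true
  rw [he'] at h1
  exact top_le_iff.1 h1

theorem di_gen (b K : ℝ) (hb : 0 < b) (hK : 0 < K) {V E : Type} [Fintype V] [DecidableEq V]
    [Fintype E] [DecidableEq E] (G : Gr V E) (M : Al) (hM : M.Ok) (l : ℝ)
    (hinf : ∀ (f : (E → Bool) → ℝ), Monotone f →
      (∀ o, 0 ≤ f o) → (∀ o, f o ≤ 1) → ∀ (S : Finset (SV V E ⊕ E)) (i : SV V E ⊕ E), Adm G S →
      i ∉ S → Adm G (insert i S) →
      ∑ x, mW G M b l x * infl (mW G M b l) (fun y => f (po y)) S x i ≤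
        K * cv G M b l (fun y => f (po y)) (pin i))
    (Sd : Finset V) (a : V) (T : Set V)
    (hsep : ∀ ω : Set E, ∀ u ∈ T, G.Conn ω a u → ∃ s ∈ Sd, G.Conn ω a s) :
    EW G M b l (fun _ o => ind (∃ u ∈ T, G.Conn (op1 o) a u)) -
      EW G M b l (fun _ o => ind (∃ u ∈ T, G.Conn (op1 o) a u)) ^ 2 ≤
      K * ∑ i, EW G M b l (fun _ o => ind (∃ e, toE G i e ∧ ∃ s ∈ Sd,
        (G.Conn (op1 o) s (G.s e) ∨ G.Conn (op1 o) s (G.r e)))) *
        cv G M b l (fun y => ind (∃ u ∈ T, G.Conn (op1 (po y)) a u)) (pin i) := by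
  let f : (E → Bool) → ℝ := fun o => ind (∃ u ∈ T, G.Conn (op1 o) a u)
  have hfm : Monotone f := di_mono G a T
  have hf0 : ∀ o, 0 ≤ f o := fun o => di_ind_0 _
  have hf1 : ∀ o, f o ≤ 1 := fun o => di_ind_1 _
  have hFm : Monotone (fun y : (∀ i, XI M.k V E i) => f (po y)) := by
    intro y y' h
    exact hfm fun e => h (Sum.inr e)
  have hdet : ∀ A, Adm G A → ∀ x : (∀ i, XI M.k V E i),
      nxS G Sd A x = none → ∀ y, (∀ i ∈ A, y i = x i) → f (po y) = f (po x) := by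
    intro A _ x hx y hy
    exact di_ind_congr (det_conn G Sd a T hsep A x y hx hy)
  have main := osss (mW G M b l) (fun y => f (po y)) (mW_pos G M hM b l hb)
    (mW_sum G M hM b l hb) hFm (fun y => hf0 _) (fun y => hf1 _) (Adm G)
    (nxS G Sd) (nx_legal G Sd) (mW_mon G M hM b l hb) hdet
    (fun i => K * cv G M b l (fun y => f (po y)) (pin i))
    (fun A i hA hi hAi => hinf f hfm hf0 hf1 A i hA hi hAi)
  have e1 : ∑ x, mW G M b l x * f (po x) = EW G M b l (fun _ o => f o) :=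
    mW_EW G M hM b l hb (fun _ o => f o)
  have e2 : ∑ x, mW G M b l x * f (po x) ^ 2 = EW G M b l (fun _ o => f o) := by
    rw [← e1]
    refine Finset.sum_congr rfl fun x _ => ?_
    rw [show f (po x) ^ 2 = f (po x) from di_ind_sq _]
  rw [e1, e2] at main
  refine main.trans ?_
  rw [Finset.mul_sum]
  refine Finset.sum_le_sum fun i _ => ?_
  have hcv : 0 ≤ cv G M b l (fun y => f (po y)) (pin i) :=
    cv_nonneg G M hM b l hb _ hFm _
  have hdl : ∑ z, mW G M b l z * ind (i ∈ rev (nxS G Sd) (Fintype.card (SV V E ⊕ E)) z) ≤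
      EW G M b l (fun _ o => ind (∃ e, toE G i e ∧ ∃ s ∈ Sd,
        (G.Conn (op1 o) s (G.s e) ∨ G.Conn (op1 o) s (G.r e)))) := by
    rw [← mW_EW G M hM b l hb]
    refine Finset.sum_le_sum fun z _ => ?_
    refine mul_le_mul_of_nonneg_left (di_ind_mono ?_) (mW_pos G M hM b l hb z).le
    intro hi
    exact rev_touch G Sd _ z i hi
  calc _ ≤ EW G M b l (fun _ o => ind (∃ e, toE G i e ∧ ∃ s ∈ Sd,
        (G.Conn (op1 o) s (G.s e) ∨ G.Conn (op1 o) s (G.r e)))) *
          (K * cv G M b l (fun y => f (po y)) (pin i)) :=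
        mul_le_mul_of_nonneg_right hdl (mul_nonneg hK.le hcv)
    _ = _ := by ring

theorem dif_step (b Λ : ℝ) (hb : 0 < b) (hΛ : 0 ≤ Λ) : ∃ K : ℝ, 0 < K ∧
    ∀ (L : ℕ) [NeZero L] (M : Al), M.Ok → ∀ l : ℝ, 0 ≤ l → l ≤ Λ → ∀ n k : ℕ, k ≤ n →
      fT L M b n l - fT L M b n l ^ 2 ≤
        K * ∑ i, dl L M b l k i * cv (TD L) M b l (fun y => ind (armT n 0 (po y))) (pin i) := by
  obtain ⟨K, hK, hinf⟩ := infl_bound b Λ hb hΛ
  refine ⟨K, hK, ?_⟩
  intro L _ M hM l hl0 hl1 n k hk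
  have h := di_gen b K hb hK (TD L) M hM l
    (fun f hfm hf0 hf1 A i hA hi hAi => hinf _ _ (TD L) deg4_TD M hM l hl0 hl1 f hfm hf0 hf1 A i hA hi hAi)
    (univ.filter (fun s => td s = k)) 0 {u | n ≤ td u} (fun ω u hu hc => by
      obtain ⟨s, hs, hs2⟩ := sep_torus n k hk ω u hu hc
      exact ⟨s, by simp [hs], hs2⟩)
  have e1 : ∀ o : (Fin 2 → ZMod L) × Fin 2 → Bool,
      ind (∃ u ∈ {u : Fin 2 → ZMod L | n ≤ td u}, (TD L).Conn (op1 o) 0 u) = ind (armT n 0 o) := by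
    intro o
    refine di_ind_congr ?_
    unfold armT
    simp only [sub_zero]
    rfl
  simp only [e1] at h
  unfold dl fT
  refine h.trans (le_of_eq ?_)
  simp only [Finset.mem_filter, Finset.mem_univ, true_and]

end H82.BX
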