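import Pool.Agent.H82.BX.DI1

/-!
# DI2: sum of the revealment bounds

For a coordinate `i` the ends of the edges `e` with `toE i e` form a set `nb i` of at most `5` vertices: for `i = inl (inl v)` the vertex `v` and its four neighbours `v ± e_j`; for `i = inl (inr (e, _))` and `i = inr e` the two ends of `e`.
If `s ↔ u` with `td s = k` then `armT |k - td u| u` (`arm_le`), whose probability is `f_{|k - td u|}` (`fT_tr`).  Union bound (`EW` is an expectation: `mW_EW` or directly): `dl k i ≤ ∑_{u ∈ nb i} f_{dist k (td u)}`.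
`sum_dist`: for antitone `g ≥ 0`: `∑_{k=1}^n g (dist k d) ≤ 2 ∑_{j<n} g j`: for `1 ≤ d ≤ n` each value `j = |k-d| ≤ n-1` is taken at most twice; for `d = 0`: `∑_{k=1}^n g k ≤ ∑_{j<n} g j`; for `d > n`: `g (d-k) ≤ g (n-k)`.
`fT` is antitone in `n` (the arm events decrease) and `≥ 0`.
-/

set_option autoImplicit false

open Finset MeasureTheory

namespace H82.BX

open H82.IC

theorem sum_dist (g : ℕ → ℝ) (hg : Antitone g) (h0 : ∀ n, 0 ≤ g n) (n d : ℕ) :
    ∑ k ∈ Icc 1 n, g (Nat.dist k d) ≤ 2 * ∑ j ∈ range n, g j := by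
  classical
  -- part `k ≤ d`: the map `k ↦ d - k`; part `d < k`: the map `k ↦ k - d`
  have hsplit : ∑ k ∈ Icc 1 n, g (Nat.dist k d) =
      ∑ k ∈ (Icc 1 n).filter (fun k => k ≤ d), g (Nat.dist k d) +
      ∑ k ∈ (Icc 1 n).filter (fun k => ¬ k ≤ d), g (Nat.dist k d) :=
    (Finset.sum_filter_add_sum_filter_not _ _ _).symm
  have h1 : ∑ k ∈ (Icc 1 n).filter (fun k => k ≤ d), g (Nat.dist k d) ≤ ∑ j ∈ range n, g j := by
    have e1 : ∑ k ∈ (Icc 1 n).filter (fun k => k ≤ d), g (Nat.dist k d) ≤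
        ∑ k ∈ (Icc 1 n).filter (fun k => k ≤ d), g (min n d - k) := by
      refine Finset.sum_le_sum fun k hk => hg ?_
      obtain ⟨hk1, hk2⟩ := Finset.mem_filter.1 hk
      rw [Nat.dist_eq_sub_of_le hk2]
      omega
    refine e1.trans ?_
    rw [← Finset.sum_image (s := (Icc 1 n).filter (fun k => k ≤ d)) (g := fun k => min n d - k)
      (f := g)]
    · refine Finset.sum_le_sum_of_subset_of_nonneg ?_ fun j _ _ => h0 j
      intro j hj
      obtain ⟨k, hk, rfl⟩ := Finset.mem_image.1 hj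
      obtain ⟨hk1, hk2⟩ := Finset.mem_filter.1 hk
      rw [Finset.mem_Icc] at hk1
      rw [Finset.mem_range]
      omega
    · intro a ha b hb hab
      obtain ⟨ha1, ha2⟩ := Finset.mem_filter.1 (Finset.mem_coe.1 ha)
      obtain ⟨hb1, hb2⟩ := Finset.mem_filter.1 (Finset.mem_coe.1 hb)
      rw [Finset.mem_Icc] at ha1 hb1
      dsimp only at hab
      omega
  have h2 : ∑ k ∈ (Icc 1 n).filter (fun k => ¬ k ≤ d), g (Nat.dist k d) ≤ ∑ j ∈ range n, g j := by
    have e1 : ∑ k ∈ (Icc 1 n).filter (fun k => ¬ k ≤ d), g (Nat.dist k d) ≤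
        ∑ k ∈ (Icc 1 n).filter (fun k => ¬ k ≤ d), g (k - d - 1) := by
      refine Finset.sum_le_sum fun k hk => hg ?_
      obtain ⟨hk1, hk2⟩ := Finset.mem_filter.1 hk
      rw [Nat.dist_eq_sub_of_le_right (by omega)]
      omega
    refine e1.trans ?_
    rw [← Finset.sum_image (s := (Icc 1 n).filter (fun k => ¬ k ≤ d)) (g := fun k => k - d - 1)
      (f := g)]
    · refine Finset.sum_le_sum_of_subset_of_nonneg ?_ fun j _ _ => h0 j
      intro j hj
      obtain ⟨k, hk, rfl⟩ := Finset.mem_image.1 hj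
      obtain ⟨hk1, hk2⟩ := Finset.mem_filter.1 hk
      rw [Finset.mem_Icc] at hk1
      rw [Finset.mem_range]
      omega
    · intro a ha b hb hab
      obtain ⟨ha1, ha2⟩ := Finset.mem_filter.1 (Finset.mem_coe.1 ha)
      obtain ⟨hb1, hb2⟩ := Finset.mem_filter.1 (Finset.mem_coe.1 hb)
      rw [Finset.mem_Icc] at ha1 hb1
      dsimp only at hab
      omega
  rw [hsplit]
  linarith

section ew
variable {V E : Type} [Fintype V] [DecidableEq V] [Fintype E] [DecidableEq E]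

theorem di2_mono (G : Gr V E) (M : Al) (hM : M.Ok) (b l : ℝ) (hb : 0 < b)
    (f g : (SV V E → Fin (M.k + 1)) → (E → Bool) → ℝ) (h : ∀ c o, f c o ≤ g c o) :
    EW G M b l f ≤ EW G M b l g := by
  rw [← mW_EW G M hM b l hb f, ← mW_EW G M hM b l hb g]
  exact Finset.sum_le_sum fun x _ => mul_le_mul_of_nonneg_left (h _ _) (mW_pos G M hM b l hb x).le

theorem di2_sum (G : Gr V E) (M : Al) (hM : M.Ok) (b l : ℝ) (hb : 0 < b) {Q : Type} (s : Finset Q)
    (f : Q → (SV V E → Fin (M.k + 1)) → (E → Bool) → ℝ) :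
    EW G M b l (fun c o => ∑ q ∈ s, f q c o) = ∑ q ∈ s, EW G M b l (f q) := by
  rw [← mW_EW G M hM b l hb]
  simp only [Finset.mul_sum]
  rw [Finset.sum_comm]
  refine Finset.sum_congr rfl fun q _ => ?_
  rw [← mW_EW G M hM b l hb]

end ew

theorem fT_anti (L : ℕ) [NeZero L] (M : Al) (hM : M.Ok) (b l : ℝ) (hb : 0 < b) :
    Antitone (fun n => fT L M b n l) := by
  intro m n hmn
  refine di2_mono (TD L) M hM b l hb _ _ fun _ o => ind_mono ?_
  rintro ⟨u, hu, hc⟩
  exact ⟨u, hmn.trans hu, hc⟩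

theorem di2_fT_nonneg (L : ℕ) [NeZero L] (M : Al) (hM : M.Ok) (b l : ℝ) (hb : 0 < b) (n : ℕ) :
    0 ≤ fT L M b n l := by
  unfold fT
  rw [← mW_EW (TD L) M hM b l hb]
  exact Finset.sum_nonneg fun x _ => mul_nonneg (mW_pos (TD L) M hM b l hb x).le (ind_nonneg _)

theorem di2_nb (L : ℕ) [NeZero L]
    (i : SV (Fin 2 → ZMod L) ((Fin 2 → ZMod L) × Fin 2) ⊕ ((Fin 2 → ZMod L) × Fin 2)) :
    ∃ u : Fin 5 → (Fin 2 → ZMod L), ∀ e, toE (TD L) i e →
      (∃ q, u q = (TD L).s e) ∧ ∃ q, u q = (TD L).r e := by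
  have hone : ∀ e0 : (Fin 2 → ZMod L) × Fin 2,
      (∃ q : Fin 5, (![(TD L).s e0, (TD L).r e0, 0, 0, 0] : Fin 5 → (Fin 2 → ZMod L)) q = (TD L).s e0) ∧
      ∃ q : Fin 5, (![(TD L).s e0, (TD L).r e0, 0, 0, 0] : Fin 5 → (Fin 2 → ZMod L)) q = (TD L).r e0 :=
    fun e0 => ⟨⟨0, rfl⟩, ⟨1, rfl⟩⟩
  rcases i with (v | ⟨e0, b⟩) | e0
  · refine ⟨![v, v + Pi.single 0 1, v + Pi.single 1 1, v - Pi.single 0 1, v - Pi.single 1 1], ?_⟩
    intro e he
    rcases e with ⟨y, j⟩
    rcases he with he | he | he | he | he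
    · have hv : v = y := Sum.inl.inj (Sum.inl.inj he)
      subst hv
      refine ⟨⟨0, rfl⟩, ?_⟩
      fin_cases j
      · exact ⟨1, rfl⟩
      · exact ⟨2, rfl⟩
    · have hv : v = y + Pi.single j 1 := Sum.inl.inj (Sum.inl.inj he)
      subst hv
      refine ⟨?_, ⟨0, rfl⟩⟩
      fin_cases j
      · exact ⟨3, add_sub_cancel_right _ _⟩
      · exact ⟨4, add_sub_cancel_right _ _⟩
    · exact absurd (Sum.inl.inj he) (by simp)
    · exact absurd (Sum.inl.inj he) (by simp)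
    · exact absurd he (by simp)
  · refine ⟨![(TD L).s e0, (TD L).r e0, 0, 0, 0], ?_⟩
    intro e he
    have : e = e0 := by
      rcases he with he | he | he | he | he
      · exact absurd (Sum.inl.inj he) (by simp)
      · exact absurd (Sum.inl.inj he) (by simp)
      · exact ((Prod.mk.injEq _ _ _ _).mp (Sum.inr.inj (Sum.inl.inj he))).1.symm
      · exact ((Prod.mk.injEq _ _ _ _).mp (Sum.inr.inj (Sum.inl.inj he))).1.symm
      · exact absurd he (by simp)
    subst this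
    exact hone e
  · refine ⟨![(TD L).s e0, (TD L).r e0, 0, 0, 0], ?_⟩
    intro e he
    have : e = e0 := by
      rcases he with he | he | he | he | he
      · exact absurd he (by simp)
      · exact absurd he (by simp)
      · exact absurd he (by simp)
      · exact absurd he (by simp)
      · exact (Sum.inr.inj he).symm
    subst this
    exact hone e

theorem di2_dl (L : ℕ) [NeZero L] (M : Al) (hM : M.Ok) (b l : ℝ) (hb : 0 < b) (k : ℕ)
    (i : SV (Fin 2 → ZMod L) ((Fin 2 → ZMod L) × Fin 2) ⊕ ((Fin 2 → ZMod L) × Fin 2))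
    (u : Fin 5 → (Fin 2 → ZMod L)) (hu : ∀ e, toE (TD L) i e →
      (∃ q, u q = (TD L).s e) ∧ ∃ q, u q = (TD L).r e) :
    dl L M b l k i ≤ ∑ q, fT L M b (Nat.dist k (td (u q))) l := by
  have h1 : ∀ q, fT L M b (Nat.dist k (td (u q))) l =
      EW (TD L) M b l (fun _ o => ind (armT (Nat.dist k (td (u q))) (u q) o)) :=
    fun q => (fT_tr M b l _ (u q)).symm
  simp only [h1]
  rw [← di2_sum (TD L) M hM b l hb]
  refine di2_mono (TD L) M hM b l hb _ _ fun _ o => ?_
  by_cases hp : ∃ e, toE (TD L) i e ∧ ∃ s : Fin 2 → ZMod L, td s = k ∧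
      ((TD L).Conn (op1 o) s ((TD L).s e) ∨ (TD L).Conn (op1 o) s ((TD L).r e))
  · rw [ind_true hp]
    obtain ⟨e, he, s, hs, hc⟩ := hp
    have key : ∃ q, armT (Nat.dist k (td (u q))) (u q) o := by
      rcases hc with hc | hc
      · obtain ⟨q, hq⟩ := (hu e he).1
        refine ⟨q, arm_le k o (u q) s hs ?_⟩
        rw [hq]
        exact conn_symm _ hc
      · obtain ⟨q, hq⟩ := (hu e he).2
        refine ⟨q, arm_le k o (u q) s hs ?_⟩
        rw [hq]
        exact conn_symm _ hc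
    obtain ⟨q, hq⟩ := key
    rw [← ind_true hq]
    exact Finset.single_le_sum
      (f := fun q => ind (armT (Nat.dist k (td (u q))) (u q) o))
      (fun q _ => ind_nonneg _) (Finset.mem_univ q)
  · rw [ind_false hp]
    exact Finset.sum_nonneg fun q _ => ind_nonneg _

theorem dl_sum (L : ℕ) [NeZero L] (M : Al) (hM : M.Ok) (b l : ℝ) (hb : 0 < b) (n : ℕ)
    (i : SV (Fin 2 → ZMod L) ((Fin 2 → ZMod L) × Fin 2) ⊕ ((Fin 2 → ZMod L) × Fin 2)) :
    ∑ k ∈ Icc 1 n, dl L M b l k i ≤ 10 * ∑ j ∈ range n, fT L M b j l := by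
  obtain ⟨u, hu⟩ := di2_nb L i
  calc ∑ k ∈ Icc 1 n, dl L M b l k i
      ≤ ∑ k ∈ Icc 1 n, ∑ q, fT L M b (Nat.dist k (td (u q))) l :=
        Finset.sum_le_sum fun k _ => di2_dl L M hM b l hb k i u hu
    _ = ∑ q, ∑ k ∈ Icc 1 n, fT L M b (Nat.dist k (td (u q))) l := Finset.sum_comm
    _ ≤ ∑ _q : Fin 5, 2 * ∑ j ∈ range n, fT L M b j l :=
        Finset.sum_le_sum fun q _ =>
          sum_dist (fun j => fT L M b j l) (fT_anti L M hM b l hb)
            (di2_fT_nonneg L M hM b l hb) n (td (u q))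
    _ = 10 * ∑ j ∈ range n, fT L M b j l := by
        rw [Finset.sum_const, Finset.card_univ, Fintype.card_fin, nsmul_eq_mul]
        push_cast
        ring

end H82.BX
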