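import Pool.Agent.H82.BX.GCM

/-!
# MMP: phases (Messager, Miracle-Sole, Pfister)

Let `X = V → Cir`, `χ_e θ = θ_{r e} - θ_{s e}`, `W(θ) = ∑ K_e cos χ_e`, `W_α(θ) = ∑ K_e cos(χ_e + α_e)`, `W' = ∑ (K'_e - K_e) cos χ_e`, `W'_α` similarly.  To show:
`∫∫ [e^{W'(θ)} - e^{W'_α(θ')}] e^{W(θ) + W_α(θ')} ≥ 0`.  Change of variables `θ = x - y`, `θ' = x + y` (`gk_change` in `H2/XY/GK.lean`).  With `u = W'(x-y)`, `v = W'_α(x+y)`:
`cos(χ(x-y)) + cos(χ(x+y)+α) = 2 cos(χ x + α/2) cos(χ y + α/2)`, `cos(χ(x-y)) - cos(χ(x+y)+α) = 2 sin(χ x + α/2) sin(χ y + α/2)` (`α/2`: a half of `α` in `Cir`, `cir_div`), so `u + v`, `u - v` and `W(x-y) + W_α(x+y)` are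
kernels of the form `∑ g_i(x) g_i(y)` (`gk_K`).  `e^u - e^v = 2 e^{(u+v)/2} sinh((u-v)/2)` is in the closure of the positive kernels (`gk_exp`; `sinh` has nonnegative coefficients), products too (`gk_cmul`), and
their integral is `≥ 0` (`gk_int_nonneg`).
-/

set_option autoImplicit false

open Finset MeasureTheory

namespace H82.BX

open H82.IC XYB

variable {V E : Type} [Fintype V] [DecidableEq V] [Fintype E] [DecidableEq E]

/-- integral with couplings `K` and phases `α`. -/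
noncomputable def ZG (G : Gr V E) (K : E → ℝ) (α : E → Cir) : ℝ :=
  ∫ θ : V → Cir, Real.exp (∑ e, K e * cosC (θ (G.r e) - θ (G.s e) + α e)) ∂haarP (V → Cir)

namespace MMPx

section ker
variable {X : Type*} [AddCommGroup X] [TopologicalSpace X] [IsTopologicalAddGroup X]
  [CompactSpace X] [MeasurableSpace X] [BorelSpace X] [SecondCountableTopology X]

theorem fsum {ι : Type} (s : Finset ι) (Φ : ι → C(X × X, ℝ)) (h : ∀ i ∈ s, Φ i ∈ gk_K X) :
    ∑ i ∈ s, Φ i ∈ gk_K X := by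
  classical
  induction s using Finset.induction_on with
  | empty => rw [Finset.sum_empty]; exact gk_zero
  | insert i s hi ih =>
    rw [Finset.sum_insert hi]
    exact gk_add (h i (Finset.mem_insert_self _ _)) (ih fun j hj => h j (Finset.mem_insert_of_mem hj))

/-- `2 sinh` -/
theorem ksinh {Φ : C(X × X, ℝ)} (hΦ : Φ ∈ closure (gk_K X)) :
    ∃ Ψ ∈ closure (gk_K X), ∀ p, Ψ p = Real.exp (Φ p) - Real.exp (-Φ p) := by
  have hs1 := NormedSpace.exp_series_hasSum_exp' (𝕂 := ℝ) Φ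
  have hs2 := NormedSpace.exp_series_hasSum_exp' (𝕂 := ℝ) (-Φ)
  have hs := hs1.sub hs2
  have hval : ∀ (Θ : C(X × X, ℝ)) (p : X × X), (NormedSpace.exp Θ) p = Real.exp (Θ p) := by
    intro Θ p
    have hs := NormedSpace.exp_series_hasSum_exp' (𝕂 := ℝ) Θ
    have hc : Continuous fun Ψ : C(X × X, ℝ) => Ψ p := continuous_eval_const p
    let ev : C(X × X, ℝ) →+ ℝ :=
      { toFun := fun Ψ => Ψ p
        map_zero' := rfl
        map_add' := fun _ _ => rfl }
    have h1 := hs.map ev hc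
    have h2 := NormedSpace.exp_series_hasSum_exp' (𝕂 := ℝ) (Θ p)
    rw [Real.exp_eq_exp_ℝ]
    have e : (ev ∘ fun n : ℕ => ((n.factorial : ℝ)⁻¹) • Θ ^ n) =
        fun n : ℕ => ((n.factorial : ℝ)⁻¹) • (Θ p) ^ n := by
      funext n
      change (((n.factorial : ℝ)⁻¹) • Θ ^ n) p = _
      rw [ContinuousMap.smul_apply, ContinuousMap.pow_apply]
    rw [e] at h1
    exact h1.unique h2
  refine ⟨NormedSpace.exp Φ - NormedSpace.exp (-Φ), ?_, fun p => ?_⟩
  · refine isClosed_closure.mem_of_tendsto hs (Filter.Eventually.of_forall fun s => ?_)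
    induction s using Finset.induction_on with
    | empty => rw [Finset.sum_empty]; exact subset_closure gk_zero
    | @insert a s ha ih =>
      rw [Finset.sum_insert ha]
      refine gk_cadd ?_ ih
      rcases Nat.even_or_odd a with h | h
      · rw [h.neg_pow, sub_self]
        exact subset_closure gk_zero
      · rw [h.neg_pow, smul_neg, sub_neg_eq_add]
        exact gk_cadd (gk_csmul (by positivity) (gk_cpow hΦ a))
          (gk_csmul (by positivity) (gk_cpow hΦ a))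
  · rw [ContinuousMap.sub_apply, hval, hval, ContinuousMap.neg_apply]

end ker

/-- kernel of the sums -/
noncomputable def tS (G : Gr V E) (α : E → Cir) (e : E) : C((V → Cir) × (V → Cir), ℝ) :=
  ⟨fun p => cosC ((p.1 - p.2) (G.r e) - (p.1 - p.2) (G.s e)) +
    cosC ((p.1 + p.2) (G.r e) - (p.1 + p.2) (G.s e) + α e), by
    have := continuous_cosC
    fun_prop⟩

/-- kernel of the differences -/
noncomputable def tD (G : Gr V E) (α : E → Cir) (e : E) : C((V → Cir) × (V → Cir), ℝ) :=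
  ⟨fun p => cosC ((p.1 - p.2) (G.r e) - (p.1 - p.2) (G.s e)) -
    cosC ((p.1 + p.2) (G.r e) - (p.1 + p.2) (G.s e) + α e), by
    have := continuous_cosC
    fun_prop⟩

theorem tS_mem (G : Gr V E) (α : E → Cir) (e : E) : tS G α e ∈ gk_K (V → Cir) := by
  obtain ⟨y, hy⟩ := cir_pi_div α
  refine ⟨2, fun _ => ⟨fun x => cosC (x (G.r e) - x (G.s e) + y e), by
    have := continuous_cosC
    fun_prop⟩, fun p => ?_⟩
  obtain ⟨a, b⟩ := p
  have h1 : α e = y e + y e := by rw [← hy]; rfl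
  show cosC ((a - b) (G.r e) - (a - b) (G.s e)) + cosC ((a + b) (G.r e) - (a + b) (G.s e) + α e) =
    ∑ i : Fin 2, cosC (a (G.r e) - a (G.s e) + y e) * cosC (b (G.r e) - b (G.s e) + y e)
  have e1 : (a - b) (G.r e) - (a - b) (G.s e) =
      (a (G.r e) - a (G.s e) + y e) - (b (G.r e) - b (G.s e) + y e) := by
    simp only [Pi.sub_apply]
    abel
  have e2 : (a + b) (G.r e) - (a + b) (G.s e) + α e =
      (a (G.r e) - a (G.s e) + y e) + (b (G.r e) - b (G.s e) + y e) := by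
    rw [h1]
    simp only [Pi.add_apply]
    abel
  rw [e1, e2, Fin.sum_univ_two]
  generalize a (G.r e) - a (G.s e) + y e = A
  generalize b (G.r e) - b (G.s e) + y e = B
  rw [cosC_sub, cosC_add]
  ring

theorem tD_mem (G : Gr V E) (α : E → Cir) (e : E) : tD G α e ∈ gk_K (V → Cir) := by
  obtain ⟨y, hy⟩ := cir_pi_div α
  refine ⟨2, fun _ => ⟨fun x => sinC (x (G.r e) - x (G.s e) + y e), by
    have := continuous_sinC
    fun_prop⟩, fun p => ?_⟩
  obtain ⟨a, b⟩ := p
  have h1 : α e = y e + y e := by rw [← hy]; rfl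
  show cosC ((a - b) (G.r e) - (a - b) (G.s e)) - cosC ((a + b) (G.r e) - (a + b) (G.s e) + α e) =
    ∑ i : Fin 2, sinC (a (G.r e) - a (G.s e) + y e) * sinC (b (G.r e) - b (G.s e) + y e)
  have e1 : (a - b) (G.r e) - (a - b) (G.s e) =
      (a (G.r e) - a (G.s e) + y e) - (b (G.r e) - b (G.s e) + y e) := by
    simp only [Pi.sub_apply]
    abel
  have e2 : (a + b) (G.r e) - (a + b) (G.s e) + α e =
      (a (G.r e) - a (G.s e) + y e) + (b (G.r e) - b (G.s e) + y e) := by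
    rw [h1]
    simp only [Pi.add_apply]
    abel
  rw [e1, e2, Fin.sum_univ_two]
  generalize a (G.r e) - a (G.s e) + y e = A
  generalize b (G.r e) - b (G.s e) + y e = B
  rw [cosC_sub, cosC_add]
  ring

end MMPx

open MMPx in
theorem mmp (G : Gr V E) (K K' : E → ℝ) (hK : ∀ e, 0 ≤ K e) (hKK : ∀ e, K e ≤ K' e) (α : E → Cir) :
    ZG G K' α * ZG G K 0 ≤ ZG G K α * ZG G K' 0 := by
  have hcos := continuous_cosC
  -- the energies
  set w : (E → ℝ) → (E → Cir) → (V → Cir) → ℝ :=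
    fun J a θ => ∑ e, J e * cosC (θ (G.r e) - θ (G.s e) + a e) with hw
  have hwc : ∀ J a, Continuous (w J a) := fun J a => by
    rw [hw]
    fun_prop
  have hSm : ∀ J : E → ℝ, (∀ e, 0 ≤ J e) → (∑ e, J e • tS G α e) ∈ gk_K (V → Cir) :=
    fun J hJ => fsum _ _ fun e _ => gk_smul (hJ e) (tS_mem G α e)
  have hDm : ∀ J : E → ℝ, (∀ e, 0 ≤ J e) → (∑ e, J e • tD G α e) ∈ gk_K (V → Cir) :=
    fun J hJ => fsum _ _ fun e _ => gk_smul (hJ e) (tD_mem G α e)
  have hSv : ∀ (J : E → ℝ) (p : (V → Cir) × (V → Cir)),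
      (∑ e, J e • tS G α e) p = w J 0 (p.1 - p.2) + w J α (p.1 + p.2) := by
    intro J p
    rw [ContinuousMap.sum_apply, hw, ← Finset.sum_add_distrib]
    refine Finset.sum_congr rfl fun e _ => ?_
    simp only [ContinuousMap.smul_apply, smul_eq_mul, tS, ContinuousMap.coe_mk, Pi.zero_apply, add_zero]
    ring
  have hDv : ∀ (J : E → ℝ) (p : (V → Cir) × (V → Cir)),
      (∑ e, J e • tD G α e) p = w J 0 (p.1 - p.2) - w J α (p.1 + p.2) := by
    intro J p
    rw [ContinuousMap.sum_apply, hw, ← Finset.sum_sub_distrib]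
    refine Finset.sum_congr rfl fun e _ => ?_
    simp only [ContinuousMap.smul_apply, smul_eq_mul, tD, ContinuousMap.coe_mk, Pi.zero_apply, add_zero]
    ring
  set J : E → ℝ := fun e => K' e - K e with hJ
  have hJ0 : ∀ e, 0 ≤ J e := fun e => sub_nonneg.2 (hKK e)
  obtain ⟨Ψ1, hΨ1, hv1⟩ := gk_exp (gk_csmul (c := 1 / 2) (by norm_num) (subset_closure (hSm J hJ0)))
  obtain ⟨Ψ2, hΨ2, hv2⟩ := ksinh (gk_csmul (c := 1 / 2) (by norm_num) (subset_closure (hDm J hJ0)))
  obtain ⟨Ψ3, hΨ3, hv3⟩ := gk_exp (subset_closure (hSm K hK))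
  have hpos := gk_int_nonneg (gk_cmul (gk_cmul hΨ1 hΨ2) hΨ3)
  have hadd : ∀ a θ, w J a θ + w K a θ = w K' a θ := by
    intro a θ
    rw [hw]
    simp only
    rw [← Finset.sum_add_distrib]
    refine Finset.sum_congr rfl fun e _ => ?_
    rw [hJ]
    ring
  have e1 : ∫ p : (V → Cir) × (V → Cir), (Ψ1 * Ψ2 * Ψ3) p ∂haarP ((V → Cir) × (V → Cir)) =
      ∫ p : (V → Cir) × (V → Cir), (Real.exp (w K α p.1) * Real.exp (w K' 0 p.2) -
        Real.exp (w K' α p.1) * Real.exp (w K 0 p.2)) ∂haarP ((V → Cir) × (V → Cir)) := by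
    have hc1 := hwc K α
    have hc2 := hwc K' 0
    have hc3 := hwc K' α
    have hc4 := hwc K 0
    rw [← gk_change cir_pi_div (fun p : (V → Cir) × (V → Cir) =>
      Real.exp (w K α p.1) * Real.exp (w K' 0 p.2) - Real.exp (w K' α p.1) * Real.exp (w K 0 p.2))
      (by fun_prop)]
    congr 1
    funext p
    simp only [ContinuousMap.mul_apply, hv1, hv2, hv3, ContinuousMap.smul_apply, hSv, hDv,
      smul_eq_mul]
    rw [← hadd 0, ← hadd α]
    set A := w J 0 (p.1 - p.2)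
    set B := w J α (p.1 + p.2)
    set C := w K 0 (p.1 - p.2)
    set D := w K α (p.1 + p.2)
    rw [mul_sub, sub_mul, ← Real.exp_add, ← Real.exp_add, ← Real.exp_add, ← Real.exp_add,
      ← Real.exp_add, ← Real.exp_add]
    congr 2 <;> ring
  rw [e1, integral_sub, haarP_prod,
    integral_prod_mul (μ := haarP (V → Cir)) (ν := haarP (V → Cir)) (fun x => Real.exp (w K α x))
      (fun x => Real.exp (w K' 0 x)),
    integral_prod_mul (μ := haarP (V → Cir)) (ν := haarP (V → Cir)) (fun x => Real.exp (w K' α x))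
      (fun x => Real.exp (w K 0 x))] at hpos
  · have h2 : ∀ (J : E → ℝ) (a : E → Cir), ZG G J a = ∫ θ, Real.exp (w J a θ) ∂haarP (V → Cir) :=
      fun J a => rfl
    rw [h2, h2, h2, h2]
    linarith
  · have hc1 := hwc K α
    have hc2 := hwc K' 0
    exact integrable_cont _ (by fun_prop)
  · have hc3 := hwc K' α
    have hc4 := hwc K 0
    exact integrable_cont _ (by fun_prop)

end H82.BX
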