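import Pool.Agent.H82.BX.DU2
import Pool.Agent.H82.BX.MMP
import Pool.Agent.H82.BX.HS1

/-!
# DOM: characteristic functions decrease when the box grows

`FNa a n`, `ENa a n` = the translates of `FN n`, `EN n` by `a`.  Let `FNa a n ⊆ FN m`.  For `t` supported in `FNa a n`:
`∑_v t v h v = ∑_{e ∈ EN m} α_e dh h e` for all `h` vanishing off `FN m` (`left_path` for each `v`).  `du_phase` with couplings `κ` everywhere: numerator and denominator of `Eh (FN m) (cos (t·h))` are `ZX m κ α`, `ZX m κ 0`.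
With couplings `κ'_e = κ` for `e ∈ ENa a n` and `0` for the other edges of `EN m` (`bI 0 j = 1[j = 0]`): the sum over `h` is restricted to `h` with `dh h e = 0` for `e ∈ EN m \\ ENa a n`; such an `h` vanishes off `FNa a n` (a site `v` of `FN m` off `FNa a n`
is joined to the outside of `FN m` by a row path (to the left or to the right, `left_path`/`right_path`) whose edges do not touch `FNa a n`: if the row of `v` does not meet the small box any direction works, otherwise go away from it), and conversely; so the sum is the one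
over heights on `FNa a n`.  `mmp` (on the graph `C6 (TB m)`, `K = κ'`, `K' = κ`): the ratio is smaller for the larger couplings.
`Eh_shift`: translation of everything by `a` (`Eh_iso`).
-/

set_option autoImplicit false

open Finset MeasureTheory

namespace H82.BX

open H82.IC XYB

/-- translated boxes. -/
noncomputable def FNa (a : Vx 2) (n : ℕ) : Finset (Vx 2 × Bool) := (FN n).image (fun v => (v.1 + a, v.2))
noncomputable def ENa (a : Vx 2) (n : ℕ) : Finset (Vx 2 × Fin 3) := (EN n).image (fun e => (e.1 + a, e.2))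

theorem mem_FNa (a : Vx 2) (n : ℕ) (v : Vx 2 × Bool) : v ∈ FNa a n ↔ (v.1 - a, v.2) ∈ FN n := by
  unfold FNa
  rw [Finset.mem_image]
  constructor
  · rintro ⟨w, hw, rfl⟩
    simpa using hw
  · intro h
    exact ⟨_, h, by simp⟩

theorem mem_ENa (a : Vx 2) (n : ℕ) (v : Vx 2 × Fin 3) : v ∈ ENa a n ↔ (v.1 - a, v.2) ∈ EN n := by
  unfold ENa
  rw [Finset.mem_image]
  constructor
  · rintro ⟨w, hw, rfl⟩
    simpa using hw
  · intro h
    exact ⟨_, h, by simp⟩

theorem ENa_touch (a : Vx 2) (n : ℕ) (e : Vx 2 × Fin 3) :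
    e ∈ ENa a n ↔ HH.gr.s e ∈ FNa a n ∨ HH.gr.r e ∈ FNa a n := by
  rw [mem_ENa, (FN_Bd n).mem, mem_FNa, mem_FNa]
  have h1 : HH.gr.s (e.1 - a, e.2) = ((HH.gr.s e).1 - a, (HH.gr.s e).2) := by
    simp only [PG.gr, Prod.mk.injEq, and_true]; abel
  have h2 : HH.gr.r (e.1 - a, e.2) = ((HH.gr.r e).1 - a, (HH.gr.r e).2) := by
    simp only [PG.gr, Prod.mk.injEq, and_true]; abel
  rw [h1, h2]

theorem Eh_shift (w : ℤ → ℝ) (hw : WOk w) (a : Vx 2) (n : ℕ) (g : (Vx 2 × Bool → ℤ) → ℝ) :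
    Eh HH.gr (FNa a n) (ENa a n) w g = En w n (fun h => g (fun v => h (v.1 - a, v.2))) := by
  unfold En
  let gV : Vx 2 × Bool ≃ Vx 2 × Bool :=
    ⟨fun v => (v.1 + a, v.2), fun v => (v.1 - a, v.2), fun v => by simp, fun v => by simp⟩
  let gE : Vx 2 × Fin 3 ≃ Vx 2 × Fin 3 :=
    ⟨fun v => (v.1 + a, v.2), fun v => (v.1 - a, v.2), fun v => by simp, fun v => by simp⟩
  refine Eh_iso HH.gr (FN n) (FNa a n) (EN n) (ENa a n) w hw gV gE (fun e => Or.inl ⟨?_, ?_⟩)
    (fun v => ?_) (fun e => ?_) g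
  · simp only [gV, gE, PG.gr, Equiv.coe_fn_mk, Prod.mk.injEq, and_true]; abel
  · simp only [gV, gE, PG.gr, Equiv.coe_fn_mk, Prod.mk.injEq, and_true]; abel
  · rw [mem_FNa]; simp [gV]
  · rw [mem_ENa]; simp [gE]

/-- functionals represented by edge differences. -/
def Rep (m : ℕ) (L : (Vx 2 × Bool → ℤ) → ℝ) : Prop :=
  ∃ c : ↥(EN m) → ℝ, ∀ h : Vx 2 × Bool → ℤ, (∀ v, v ∉ FN m → h v = 0) →
    L h = ∑ e : ↥(EN m), c e * (dh h e.1 : ℝ)

theorem Rep_zero (m : ℕ) : Rep m (fun _ => 0) := ⟨0, fun h _ => by simp⟩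

theorem Rep_add (m : ℕ) (L L' : (Vx 2 × Bool → ℤ) → ℝ) (h : Rep m L) (h' : Rep m L') :
    Rep m (fun x => L x + L' x) := by
  obtain ⟨c, hc⟩ := h
  obtain ⟨c', hc'⟩ := h'
  refine ⟨fun e => c e + c' e, fun h h0 => ?_⟩
  change L h + L' h = _
  rw [hc h h0, hc' h h0, ← Finset.sum_add_distrib]
  exact Finset.sum_congr rfl fun e _ => by ring

theorem Rep_smul (m : ℕ) (r : ℝ) (L : (Vx 2 × Bool → ℤ) → ℝ) (h : Rep m L) :
    Rep m (fun x => r * L x) := by
  obtain ⟨c, hc⟩ := h
  refine ⟨fun e => r * c e, fun h h0 => ?_⟩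
  change r * L h = _
  rw [hc h h0, Finset.mul_sum]
  exact Finset.sum_congr rfl fun e _ => by ring

theorem Rep_sum {ι : Type} (m : ℕ) (s : Finset ι) (L : ι → (Vx 2 × Bool → ℤ) → ℝ)
    (h : ∀ i ∈ s, Rep m (L i)) : Rep m (fun x => ∑ i ∈ s, L i x) := by
  classical
  induction s using Finset.induction_on with
  | empty => simpa using Rep_zero m
  | insert i s hi ih =>
    have h1 := Rep_add m _ _ (h i (Finset.mem_insert_self _ _))
      (ih fun j hj => h j (Finset.mem_insert_of_mem hj))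
    simpa [Finset.sum_insert hi] using h1

theorem Rep_dh (m : ℕ) (e : Vx 2 × Fin 3) : Rep m (fun h => (dh h e : ℝ)) := by
  classical
  by_cases he : e ∈ EN m
  · refine ⟨fun e' => if e' = ⟨e, he⟩ then 1 else 0, fun h _ => ?_⟩
    simp
  · refine ⟨fun _ => 0, fun h h0 => ?_⟩
    have h1 := (FN_Bd m).mem e
    have h2 : HH.gr.s e ∉ FN m ∧ HH.gr.r e ∉ FN m := by
      constructor
      · intro h3; exact he (h1.2 (Or.inl h3))
      · intro h3; exact he (h1.2 (Or.inr h3))
    simp [dh, h0 _ h2.1, h0 _ h2.2]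

theorem Rep_v (m : ℕ) (v : Vx 2 × Bool) (hv : v ∈ FN m) : Rep m (fun h => (h v : ℝ)) := by
  have h1 : Rep m (fun h => (-1) * ∑ x ∈ Icc (-(m : ℤ)) (v.1 0), ((dh h (![x, v.1 1], 1) : ℝ) +
      (if v.2 = true ∧ x = v.1 0 then 0 else 1) * (dh h (![x, v.1 1], 2) : ℝ))) := by
    refine Rep_smul m _ _ (Rep_sum m _ _ fun x _ => Rep_add m _ _ (Rep_dh m _) ?_)
    exact Rep_smul m _ _ (Rep_dh m _)
  obtain ⟨c, hc⟩ := h1
  refine ⟨c, fun h h0 => ?_⟩
  rw [← hc h h0]
  change ((h v : ℤ) : ℝ) = (-1) * ∑ x ∈ Icc (-(m : ℤ)) (v.1 0), ((dh h (![x, v.1 1], 1) : ℝ) +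
      (if v.2 = true ∧ x = v.1 0 then 0 else 1) * (dh h (![x, v.1 1], 2) : ℝ))
  rw [left_path m h h0 v hv]
  push_cast
  rw [neg_one_mul]
  congr 1
  refine Finset.sum_congr rfl fun x _ => ?_
  split_ifs <;> simp

theorem ex_off {V : Type} [DecidableEq V] (F : Finset V) (h : ↥F → ℤ) (v : V) (hv : v ∉ F) :
    ex h v = 0 := by
  simp [ex, hv]

/-- phases. -/
noncomputable def PHZ (m : ℕ) (α : ↥(EN m) → ℝ) : ↥(EN m) × Fin 6 → Cir :=
  fun l => if l.2 = 0 then ((α l.1 : ℝ) : Cir) else 0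

theorem PHZ_zero (m : ℕ) : PHZ m (fun _ => 0) = 0 := by
  funext l
  unfold PHZ
  split_ifs
  · rfl
  · rfl

theorem dom_num1 (κ : ℝ) (hκ : 0 < κ) (m : ℕ) (α : ↥(EN m) → ℝ) (g : (Vx 2 × Bool → ℤ) → ℝ)
    (hg : ∀ h : ↥(FN m) → ℤ, g (ex h) = Real.cos (∑ e, α e * (dh (ex h) e.1 : ℝ))) :
    ZX m (fun _ => κ) (PHZ m α) =
      ∑' h : ↥(FN m) → ℤ, WH HH.gr (FN m) (EN m) (wk κ) h * g (ex h) := by
  have h1 := (du_phase m (fun _ => κ) (fun _ => hκ.le) α).2
  unfold PHZ
  rw [h1]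
  refine tsum_congr fun h => ?_
  rw [hg h]
  congr 1
  unfold WH wk
  rw [← Finset.prod_coe_sort (EN m)]
  refine Finset.prod_congr rfl fun e _ => ?_
  simp [dh]

/-- a height without jumps off the small box vanishes off the small box. -/
theorem dom_van (a : Vx 2) (n m : ℕ) (h : Vx 2 × Bool → ℤ)
    (h0 : ∀ v, v ∉ FN m → h v = 0) (h1 : ∀ e, e ∉ ENa a n → dh h e = 0)
    (v : Vx 2 × Bool) (hv : v ∉ FNa a n) : h v = 0 := by
  -- row relations
  have r1 : ∀ x b : ℤ, (![x, b], (1 : Fin 3)) ∉ ENa a n → h (![x - 1, b], false) = h (![x, b], true) := by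
    intro x b hx
    have := h1 _ hx
    have e1 : HH.gr.s (![x, b], (1 : Fin 3)) = (![x - 1, b], false) := by
      simp only [PG.gr, HH, Prod.mk.injEq]
      refine ⟨?_, by simp⟩
      funext i; fin_cases i <;> simp [sub_eq_add_neg]
    have e2 : HH.gr.r (![x, b], (1 : Fin 3)) = (![x, b], true) := by
      simp only [PG.gr, HH, Prod.mk.injEq]
      refine ⟨?_, by simp⟩
      funext i; fin_cases i <;> simp
    unfold dh at this
    rw [e1, e2] at this
    linarith
  have r2 : ∀ x b : ℤ, (![x, b], (2 : Fin 3)) ∉ ENa a n → h (![x, b], true) = h (![x, b], false) := by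
    intro x b hx
    have := h1 _ hx
    have e1 : HH.gr.s (![x, b], (2 : Fin 3)) = (![x, b], true) := by
      simp only [PG.gr, HH, Prod.mk.injEq]
      refine ⟨?_, by simp⟩
      funext i; fin_cases i <;> simp
    have e2 : HH.gr.r (![x, b], (2 : Fin 3)) = (![x, b], false) := by
      simp only [PG.gr, HH, Prod.mk.injEq]
      refine ⟨?_, by simp⟩
      funext i; fin_cases i <;> simp
    unfold dh at this
    rw [e1, e2] at this
    linarith
  -- membership of edges
  have m1 : ∀ x b : ℤ, (![x, b], (1 : Fin 3)) ∈ ENa a n →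
      (![x - 1, b], false) ∈ FNa a n ∨ (![x, b], true) ∈ FNa a n := by
    intro x b hx
    rw [ENa_touch] at hx
    have e1 : HH.gr.s (![x, b], (1 : Fin 3)) = (![x - 1, b], false) := by
      simp only [PG.gr, HH, Prod.mk.injEq]
      refine ⟨?_, by simp⟩
      funext i; fin_cases i <;> simp [sub_eq_add_neg]
    have e2 : HH.gr.r (![x, b], (1 : Fin 3)) = (![x, b], true) := by
      simp only [PG.gr, HH, Prod.mk.injEq]
      refine ⟨?_, by simp⟩
      funext i; fin_cases i <;> simp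
    rwa [e1, e2] at hx
  have m2 : ∀ x b : ℤ, (![x, b], (2 : Fin 3)) ∈ ENa a n →
      (![x, b], true) ∈ FNa a n ∨ (![x, b], false) ∈ FNa a n := by
    intro x b hx
    rw [ENa_touch] at hx
    have e1 : HH.gr.s (![x, b], (2 : Fin 3)) = (![x, b], true) := by
      simp only [PG.gr, HH, Prod.mk.injEq]
      refine ⟨?_, by simp⟩
      funext i; fin_cases i <;> simp
    have e2 : HH.gr.r (![x, b], (2 : Fin 3)) = (![x, b], false) := by
      simp only [PG.gr, HH, Prod.mk.injEq]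
      refine ⟨?_, by simp⟩
      funext i; fin_cases i <;> simp
    rwa [e1, e2] at hx
  have mF : ∀ (x b : ℤ) (k : Bool), (![x, b], k) ∈ FNa a n ↔
      ((a 0 - n ≤ x ∧ x < a 0 + n) ∧ (a 1 - n ≤ b ∧ b < a 1 + n)) := by
    intro x b k
    rw [mem_FNa, mem_FN]
    simp only [Fin.forall_fin_two, Pi.sub_apply, Matrix.cons_val_zero, Matrix.cons_val_one]
    constructor
    · rintro ⟨⟨h1, h2⟩, h3, h4⟩
      exact ⟨⟨by linarith, by linarith⟩, by linarith, by linarith⟩
    · rintro ⟨⟨h1, h2⟩, h3, h4⟩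
      exact ⟨⟨by linarith, by linarith⟩, by linarith, by linarith⟩
  have hvv : v = (![v.1 0, v.1 1], v.2) := by
    refine Prod.ext ?_ rfl
    funext i; fin_cases i <;> rfl
  obtain ⟨x, b, k, rfl⟩ : ∃ (x b : ℤ) (k : Bool), v = (![x, b], k) := ⟨_, _, _, hvv⟩
  have out : ∀ (x : ℤ) (k : Bool), (x < -(m : ℤ) ∨ (m : ℤ) ≤ x) → h (![x, b], k) = 0 := by
    intro x k hx
    apply h0
    rw [mem_FN]
    intro h2
    have := h2 0
    simp only [Matrix.cons_val_zero] at this
    rcases hx with hx | hx <;> omega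
  have both : (h (![x, b], true) = 0 ∧ h (![x, b], false) = 0) → h (![x, b], k) = 0 := by
    rintro ⟨h2, h3⟩
    cases k
    · exact h3
    · exact h2
  apply both
  rw [mF] at hv
  by_cases hl : x < a 0 - n ∨ ¬ (a 1 - n ≤ b ∧ b < a 1 + n)
  · -- go to the left
    have key : ∀ y : ℤ, -(m : ℤ) - 1 ≤ y → y ≤ x → (h (![y, b], true) = 0 ∧ h (![y, b], false) = 0) := by
      intro y hy
      induction y, hy using Int.leInduction with
      | base => intro _; exact ⟨out _ _ (Or.inl (by omega)), out _ _ (Or.inl (by omega))⟩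
      | succ y hy ih =>
        intro hyx
        obtain ⟨i1, i2⟩ := ih (by omega)
        have n1 : (![y + 1, b], (1 : Fin 3)) ∉ ENa a n := by
          intro h2
          rcases m1 _ _ h2 with h3 | h3 <;> rw [mF] at h3 <;> rcases hl with hl | hl <;> omega
        have n2 : (![y + 1, b], (2 : Fin 3)) ∉ ENa a n := by
          intro h2
          rcases m2 _ _ h2 with h3 | h3 <;> rw [mF] at h3 <;> rcases hl with hl | hl <;> omega
        have q1 := r1 _ _ n1
        have q2 := r2 _ _ n2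
        rw [show y + 1 - 1 = y by ring] at q1
        constructor
        · rw [← q1]; exact i2
        · rw [← q2, ← q1]; exact i2
    by_cases hx : -(m : ℤ) - 1 ≤ x
    · exact key x hx le_rfl
    · exact ⟨out _ _ (Or.inl (by omega)), out _ _ (Or.inl (by omega))⟩
  · -- go to the right
    push Not at hl
    have hx : a 0 + n ≤ x := by
      by_contra h2
      exact hv ⟨⟨hl.1, by omega⟩, hl.2⟩
    have key : ∀ y : ℤ, y ≤ m → x ≤ y → (h (![y, b], true) = 0 ∧ h (![y, b], false) = 0) := by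
      intro y hy
      induction y, hy using Int.leInductionDown with
      | base => intro _; exact ⟨out _ _ (Or.inr (by omega)), out _ _ (Or.inr (by omega))⟩
      | pred y hy ih =>
        intro hyx
        obtain ⟨i1, i2⟩ := ih (by omega)
        have n1 : (![y, b], (1 : Fin 3)) ∉ ENa a n := by
          intro h2
          rcases m1 _ _ h2 with h3 | h3 <;> rw [mF] at h3 <;> omega
        have n2 : (![y - 1, b], (2 : Fin 3)) ∉ ENa a n := by
          intro h2
          rcases m2 _ _ h2 with h3 | h3 <;> rw [mF] at h3 <;> omega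
        have q1 := r1 _ _ n1
        have q2 := r2 _ _ n2
        constructor
        · rw [q2, q1]; exact i1
        · rw [q1]; exact i1
    by_cases hxm : x ≤ m
    · exact key x hxm le_rfl
    · exact ⟨out _ _ (Or.inr (by omega)), out _ _ (Or.inr (by omega))⟩

theorem dom_num2 (κ : ℝ) (hκ : 0 < κ) (a : Vx 2) (n m : ℕ) (hs : FNa a n ⊆ FN m)
    (α : ↥(EN m) → ℝ) (g : (Vx 2 × Bool → ℤ) → ℝ)
    (hg : ∀ h : ↥(FN m) → ℤ, g (ex h) = Real.cos (∑ e, α e * (dh (ex h) e.1 : ℝ))) :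
    ZX m (fun l => if l.1.1 ∈ ENa a n then κ else 0) (PHZ m α) =
      ∑' h : ↥(FNa a n) → ℤ, WH HH.gr (FNa a n) (ENa a n) (wk κ) h * g (ex h) := by
  classical
  have h1 := (du_phase m (fun l => if l.1.1 ∈ ENa a n then κ else 0)
    (fun l => by split_ifs <;> [exact hκ.le; exact le_rfl]) α).2
  unfold PHZ
  rw [h1]
  -- the embedding
  let ι : (↥(FNa a n) → ℤ) → (↥(FN m) → ℤ) := fun h v => ex h v.1
  have hι : ∀ h, ex (ι h) = ex h := by
    intro h
    funext v
    by_cases hv : v ∈ FN m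
    · simp [ex, hv, ι]
    · rw [ex_off _ _ _ hv, ex_off _ _ _ (fun h2 => hv (hs h2))]
  have hinj : Function.Injective ι := by
    intro h h' hh
    have h2 : ex h = ex h' := by rw [← hι h, ← hι h', hh]
    funext v
    have h3 := congrFun h2 v.1
    simpa [ex] using h3
  -- the weight vanishes off the range
  have hsupp : Function.support (fun h : ↥(FN m) → ℤ =>
      (∏ e : ↥(EN m), ∏ _j : Fin 6, bI (if e.1 ∈ ENa a n then κ else 0) (dh (ex h) e.1)) *
        Real.cos (∑ e : ↥(EN m), α e * (dh (ex h) e.1 : ℝ))) ⊆ Set.range ι := by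
    intro h hh
    have h2 : (∏ e : ↥(EN m), ∏ _j : Fin 6, bI (if e.1 ∈ ENa a n then κ else 0) (dh (ex h) e.1)) ≠ 0 :=
      left_ne_zero_of_mul hh
    rw [Finset.prod_ne_zero_iff] at h2
    have h3 : ∀ e, e ∉ ENa a n → dh (ex h) e = 0 := by
      intro e he
      by_cases hm : e ∈ EN m
      · have h4 := h2 ⟨e, hm⟩ (Finset.mem_univ _)
        rw [Finset.prod_ne_zero_iff] at h4
        have h5 := h4 0 (Finset.mem_univ _)
        dsimp only at h5
        rw [if_neg he, bI_zero] at h5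
        by_contra h6
        exact h5 (if_neg h6)
      · have h4 := (FN_Bd m).mem e
        have h5 : HH.gr.s e ∉ FN m ∧ HH.gr.r e ∉ FN m := by
          constructor
          · intro h3; exact hm (h4.2 (Or.inl h3))
          · intro h3; exact hm (h4.2 (Or.inr h3))
        simp [dh, ex_off _ _ _ h5.1, ex_off _ _ _ h5.2]
    have h4 := dom_van a n m (ex h) (fun v hv => ex_off _ _ _ hv) h3
    refine ⟨fun v => ex h v.1, ?_⟩
    funext v
    change ex (fun v : ↥(FNa a n) => ex h v.1) v.1 = h v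
    have h5 : ex h v.1 = h v := by simp [ex]
    by_cases hv : v.1 ∈ FNa a n
    · simp [ex, hv]
    · rw [ex_off _ _ _ hv, ← h5, h4 _ hv]
  rw [← hinj.tsum_eq hsupp]
  refine tsum_congr fun h => ?_
  rw [← hg (ι h), hι h]
  congr 1
  unfold WH wk
  have hsub : ENa a n ⊆ EN m := by
    intro e he
    rw [ENa_touch] at he
    rw [(FN_Bd m).mem]
    exact he.imp (fun h2 => hs h2) (fun h2 => hs h2)
  rw [Finset.prod_coe_sort (EN m)
    (fun e => ∏ _j : Fin 6, bI (if e ∈ ENa a n then κ else 0) (dh (ex h) e))]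
  rw [← Finset.prod_subset hsub]
  · refine Finset.prod_congr rfl fun e he => ?_
    simp [dh, he]
  · intro e _ he
    have h5 : HH.gr.s e ∉ FNa a n ∧ HH.gr.r e ∉ FNa a n := by
      rw [ENa_touch] at he
      exact not_or.1 he
    rw [if_neg he]
    simp [dh, ex_off _ _ _ h5.1, ex_off _ _ _ h5.2, bI_zero]

theorem ZG_pos {V E : Type} [Fintype V] [DecidableEq V] [Fintype E] [DecidableEq E]
    (G : Gr V E) (K : E → ℝ) (α : E → Cir) : 0 < ZG G K α := by
  unfold ZG
  refine integral_exp_pos _ ?_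
  refine continuous_finsetSum _ fun e _ => continuous_const.mul (continuous_cosC.comp ?_)
  exact ((continuous_apply (G.r e)).sub (continuous_apply (G.s e))).add continuous_const

theorem dom (κ : ℝ) (hκ : 0 < κ) (a : Vx 2) (n m : ℕ) (hs : FNa a n ⊆ FN m)
    (t : Vx 2 × Bool → ℝ) :
    En (wk κ) m (fun h => Real.cos (∑ v ∈ FNa a n, t v * (h v : ℝ))) ≤
      Eh HH.gr (FNa a n) (ENa a n) (wk κ) (fun h => Real.cos (∑ v ∈ FNa a n, t v * (h v : ℝ))) := by
  classical
  have hR : Rep m (fun h => ∑ v ∈ FNa a n, t v * (h v : ℝ)) :=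
    Rep_sum m _ _ fun v hv => Rep_smul m _ _ (Rep_v m v (hs hv))
  obtain ⟨α, hα⟩ := hR
  have hα' : ∀ h : ↥(FN m) → ℤ, Real.cos (∑ v ∈ FNa a n, t v * (ex h v : ℝ)) =
      Real.cos (∑ e, α e * (dh (ex h) e.1 : ℝ)) := by
    intro h
    rw [← hα (ex h) (fun v hv => ex_off _ _ _ hv)]
  have h1 := dom_num1 κ hκ m α (fun h => Real.cos (∑ v ∈ FNa a n, t v * (h v : ℝ))) hα'
  have h2 := dom_num1 κ hκ m (fun _ => 0) (fun _ => 1) (fun h => by simp)
  have h3 := dom_num2 κ hκ a n m hs α (fun h => Real.cos (∑ v ∈ FNa a n, t v * (h v : ℝ))) hα'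
  have h4 := dom_num2 κ hκ a n m hs (fun _ => 0) (fun _ => 1) (fun h => by simp)
  rw [PHZ_zero] at h2 h4
  simp only [mul_one] at h2 h4
  unfold En Eh
  rw [← h1, ← h2, ← h3, ← h4]
  have e1 : ∀ K α, ZX m K α = ZG (C6 (TB m)) K α := fun _ _ => rfl
  simp only [e1]
  rw [div_le_div_iff₀ (ZG_pos _ _ _) (ZG_pos _ _ _)]
  refine mmp (C6 (TB m)) _ _ (fun l => ?_) (fun l => ?_) _
  · split_ifs
    · exact hκ.le
    · exact le_rfl
  · split_ifs
    · exact le_rfl
    · exact hκ.le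

end H82.BX
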