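import Pool.Agent.H82.BX.Defs
import Pool.Agent.H2.XY.GA

/-!
# DU0: Fourier duality on a finite graph

Expand the product of the absolutely convergent series (`g e x = ∑_n a e n e^{inx}`):
`∏_e g e (θ_{r e} - θ_{s e}) = ∑_{J : E → ℤ} ∏_e a e (J e) · ∏_e e^{i J_e (θ_{r e} - θ_{s e})}`, absolutely summable
(`∏_e ∑_n ‖a e n‖ < ∞`), and `∏_e e^{i J_e (θ_r - θ_s)} = ∏_v e^{i (dv J v) θ_v}`, whose Haar integral is `1` if `dv J = 0` and `0` otherwise
(orthogonality of characters on a product).  Interchange by `integral_tsum` / `hasSum_integral_of_summable_norm`.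
-/

set_option autoImplicit false

open Finset MeasureTheory

namespace H82.BX

open H82.IC XYB

/-- products of absolutely convergent series over `Fin n`. -/
theorem du0_pi_fin : ∀ (n : ℕ) (f : Fin n → ℤ → ℂ), (∀ e, Summable (fun k => ‖f e k‖)) →
    Summable (fun J : Fin n → ℤ => ‖∏ e, f e (J e)‖) ∧
    HasSum (fun J : Fin n → ℤ => ∏ e, f e (J e)) (∏ e, ∑' k, f e k) := by
  intro n
  induction n with
  | zero =>
    intro f _
    constructor
    · exact (hasSum_fintype (fun J : Fin 0 → ℤ => ‖∏ e, f e (J e)‖)).summable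
    · have := hasSum_fintype (fun J : Fin 0 → ℤ => ∏ e, f e (J e))
      simp
  | succ n ih =>
    intro f hf
    obtain ⟨h1, h2⟩ := ih (fun i => f i.succ) (fun i => hf i.succ)
    have h0 := hf 0
    have key : ∀ p : ℤ × (Fin n → ℤ), ∏ e, f e ((Fin.consEquiv (fun _ : Fin (n + 1) => ℤ)) p e) =
        f 0 p.1 * ∏ i : Fin n, f i.succ (p.2 i) := by
      intro p
      rw [Fin.prod_univ_succ]
      rfl
    have hs : Summable (fun p : ℤ × (Fin n → ℤ) => ‖f 0 p.1 * ∏ i : Fin n, f i.succ (p.2 i)‖) :=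
      Summable.mul_norm (f := fun k : ℤ => f 0 k) (g := fun J : Fin n → ℤ => ∏ i : Fin n, f i.succ (J i)) h0 h1
    have hs' : Summable (fun J : Fin (n + 1) → ℤ => ‖∏ e, f e (J e)‖) := by
      rw [← (Fin.consEquiv (fun _ : Fin (n + 1) => ℤ)).summable_iff]
      refine hs.congr (fun p => ?_)
      rw [Function.comp_apply, key p]
    refine ⟨hs', ?_⟩
    have ht := tsum_mul_tsum_of_summable_norm (f := fun k : ℤ => f 0 k)
      (g := fun J : Fin n → ℤ => ∏ i : Fin n, f i.succ (J i)) h0 h1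
    have hh : HasSum (fun J : Fin (n + 1) → ℤ => ∏ e, f e (J e))
        (∑' J : Fin (n + 1) → ℤ, ∏ e, f e (J e)) := hs'.of_norm.hasSum
    have he : (∑' J : Fin (n + 1) → ℤ, ∏ e, f e (J e)) = ∏ e, ∑' k, f e k := by
      rw [← (Fin.consEquiv (fun _ : Fin (n + 1) => ℤ)).tsum_eq, Fin.prod_univ_succ, ← h2.tsum_eq, ht]
      exact tsum_congr (fun p => key p)
    rwa [he] at hh

/-- products of absolutely convergent series over a finite type. -/
theorem du0_pi {E : Type} [Fintype E] (f : E → ℤ → ℂ) (hf : ∀ e, Summable (fun k => ‖f e k‖)) :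
    Summable (fun J : E → ℤ => ‖∏ e, f e (J e)‖) ∧
    HasSum (fun J : E → ℤ => ∏ e, f e (J e)) (∏ e, ∑' k, f e k) := by
  classical
  let q := Fintype.equivFin E
  obtain ⟨h1, h2⟩ := du0_pi_fin (Fintype.card E) (fun i => f (q.symm i)) (fun i => hf _)
  have key : ∀ J : Fin (Fintype.card E) → ℤ,
      ∏ e, f e ((Equiv.arrowCongr q.symm (Equiv.refl ℤ)) J e) = ∏ i, f (q.symm i) (J i) := by
    intro J
    rw [← Equiv.prod_comp q.symm]
    refine Finset.prod_congr rfl (fun i _ => ?_)
    simp [Equiv.arrowCongr]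
  have key2 : ∏ e, ∑' k, f e k = ∏ i, ∑' k, f (q.symm i) k := (Equiv.prod_comp q.symm _).symm
  constructor
  · rw [← (Equiv.arrowCongr q.symm (Equiv.refl ℤ)).summable_iff]
    refine h1.congr (fun J => ?_)
    rw [Function.comp_apply, key J]
  · rw [← (Equiv.arrowCongr q.symm (Equiv.refl ℤ)).hasSum_iff, key2]
    convert h2 using 1
    funext J
    rw [Function.comp_apply, key J]

theorem du0_circle_prod {ι : Type} (s : Finset ι) (x : ι → Cir) :
    ∏ i ∈ s, ((AddCircle.toCircle (x i) : Circle) : ℂ) = (AddCircle.toCircle (∑ i ∈ s, x i) : Circle) := by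
  classical
  induction s using Finset.induction_on with
  | empty => simp
  | insert a s ha ih => rw [Finset.prod_insert ha, Finset.sum_insert ha, ih, AddCircle.toCircle_add]; simp

/-- integral of a character. -/
theorem du0_int (n : ℤ) : ∫ t : Cir, fourier n t ∂haarP Cir = if n = 0 then 1 else 0 := by
  have h := fourierCoeff_fourier (T := 2 * Real.pi) n
  have h0 := congrFun h 0
  rw [fourierCoeff] at h0
  simp only [neg_zero, fourier_zero, one_smul] at h0
  rw [haarP_cir]
  rw [h0]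
  simp [Pi.single_apply, eq_comm]

variable {V E : Type} [Fintype V] [DecidableEq V] [Fintype E] [DecidableEq E]

theorem du0_regroup (G : Gr V E) (J : E → ℤ) (θ : V → Cir) :
    ∏ e, (fourier (J e) (θ (G.r e) - θ (G.s e)) : ℂ) = ∏ v, (fourier (dv G J v) (θ v) : ℂ) := by
  simp only [fourier_apply]
  rw [du0_circle_prod, du0_circle_prod]
  congr 2
  have h1 : ∀ v : V, dv G J v • θ v =
      ∑ e, ((if G.r e = v then J e • θ v else 0) - (if G.s e = v then J e • θ v else 0)) := by
    intro v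
    unfold dv
    rw [Finset.sum_smul]
    refine Finset.sum_congr rfl (fun e _ => ?_)
    rw [sub_smul]
    split_ifs <;> simp
  simp only [h1]
  rw [Finset.sum_comm]
  refine Finset.sum_congr rfl (fun e _ => ?_)
  rw [Finset.sum_sub_distrib, smul_sub]
  simp

theorem du0_intJ (G : Gr V E) (J : E → ℤ) :
    ∫ θ : V → Cir, ∏ e, (fourier (J e) (θ (G.r e) - θ (G.s e)) : ℂ) ∂haarP (V → Cir) =
      if (∀ v, dv G J v = 0) then 1 else 0 := by
  simp only [du0_regroup]
  rw [haarP_pi, integral_fintype_prod_eq_prod (fun v t => (fourier (dv G J v) t : ℂ))]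
  simp only [du0_int]
  split_ifs with h
  · simp [h]
  · push Not at h
    obtain ⟨v, hv⟩ := h
    exact Finset.prod_eq_zero (Finset.mem_univ v) (by simp [hv])

theorem du0 (G : Gr V E) (g : E → Cir → ℂ) (a : E → ℤ → ℂ) (ha : ∀ e, Summable (fun n => ‖a e n‖))
    (hg : ∀ e x, HasSum (fun n : ℤ => a e n * fourier n x) (g e x)) :
    Summable (fun J : E → ℤ => ‖∏ e, a e (J e)‖) ∧
    ∫ θ : V → Cir, ∏ e, g e (θ (G.r e) - θ (G.s e)) ∂haarP (V → Cir) =
      ∑' J : E → ℤ, if (∀ v, dv G J v = 0) then ∏ e, a e (J e) else 0 := by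
  have hS : Summable (fun J : E → ℤ => ‖∏ e, a e (J e)‖) := (du0_pi a ha).1
  refine ⟨hS, ?_⟩
  have hn1 : ∀ (n : ℤ) (x : Cir), ‖(fourier n x : ℂ)‖ = 1 := by
    intro n x
    rw [fourier_apply]
    exact Circle.norm_coe _
  -- pointwise expansion
  have hpt : ∀ θ : V → Cir, ∏ e, g e (θ (G.r e) - θ (G.s e)) =
      ∑' J : E → ℤ, (∏ e, a e (J e)) * ∏ e, (fourier (J e) (θ (G.r e) - θ (G.s e)) : ℂ) := by
    intro θ
    have h := du0_pi (fun e n => a e n * (fourier n (θ (G.r e) - θ (G.s e)) : ℂ)) (fun e => by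
      refine (ha e).congr (fun n => ?_)
      rw [norm_mul, hn1, mul_one])
    have h2 := h.2.tsum_eq
    have h3 : ∏ e, ∑' k, a e k * (fourier k (θ (G.r e) - θ (G.s e)) : ℂ) =
        ∏ e, g e (θ (G.r e) - θ (G.s e)) :=
      Finset.prod_congr rfl (fun e _ => (hg e _).tsum_eq)
    rw [← h3, ← h2]
    exact tsum_congr (fun J => Finset.prod_mul_distrib)
  have hcont : ∀ J : E → ℤ, Continuous (fun θ : V → Cir =>
      (∏ e, a e (J e)) * ∏ e, (fourier (J e) (θ (G.r e) - θ (G.s e)) : ℂ)) := by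
    intro J
    refine continuous_const.mul (continuous_finsetProd _ (fun e _ => ?_))
    exact (fourier (J e)).continuous.comp ((continuous_apply _).sub (continuous_apply _))
  have hint : ∀ J : E → ℤ, Integrable (fun θ : V → Cir =>
      (∏ e, a e (J e)) * ∏ e, (fourier (J e) (θ (G.r e) - θ (G.s e)) : ℂ)) (haarP (V → Cir)) :=
    fun J => (hcont J).integrable_of_hasCompactSupport (HasCompactSupport.of_compactSpace _)
  have hnorm : ∀ J : E → ℤ, ∫ θ : V → Cir,
      ‖(∏ e, a e (J e)) * ∏ e, (fourier (J e) (θ (G.r e) - θ (G.s e)) : ℂ)‖ ∂haarP (V → Cir) =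
      ‖∏ e, a e (J e)‖ := by
    intro J
    have : ∀ θ : V → Cir, ‖(∏ e, a e (J e)) * ∏ e, (fourier (J e) (θ (G.r e) - θ (G.s e)) : ℂ)‖ =
        ‖∏ e, a e (J e)‖ := by
      intro θ
      rw [norm_mul, norm_prod (f := fun e => (fourier (J e) (θ (G.r e) - θ (G.s e)) : ℂ))]
      simp only [hn1, Finset.prod_const_one, mul_one]
    simp [this]
  have hI := hasSum_integral_of_summable_integral_norm hint (by simpa only [hnorm] using hS)
  simp only [hpt]
  rw [← hI.tsum_eq]
  refine tsum_congr (fun J => ?_)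
  rw [integral_const_mul, du0_intJ]
  split_ifs <;> simp

end H82.BX
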