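import Pool.Agent.H82.BX.DU0
import Pool.Agent.H82.BX.POI

/-!
# DU1: duality for the chained triangular box

`du0` for the graph `C6 (TB n)`.  A flow `J : ↥(EN n) × Fin 6 → ℤ` has zero divergence at the inner vertex `inr (e, j)` iff `J (e, j) = J (e, j+1)`; so the flows without divergence are the
`(e, j) ↦ J0 e` with `dv (TB n) J0 = 0` (the divergence at `inl v` is the one of `J0`), and `poi` parametrises `J0` by heights.
-/

set_option autoImplicit false

open Finset MeasureTheory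

namespace H82.BX

open H82.IC XYB

section DU1aux
variable {V E : Type} [Fintype V] [DecidableEq V] [Fintype E] [DecidableEq E]

theorem DU1_r_inr (G : Gr V E) (l : E × Fin 6) (e : E) (j : Fin 5) :
    (C6 G).r l = Sum.inr (e, j) ↔ l = (e, j.castSucc) := by
  obtain ⟨e', k⟩ := l
  obtain ⟨k, hk⟩ := k
  obtain ⟨j, hj⟩ := j
  simp only [C6]
  split_ifs with h
  · constructor
    · intro hh
      exact absurd hh (by simp)
    · intro hh
      have h2 := congrArg (fun l => l.2.val) hh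
      simp only [Fin.castSucc_mk] at h2
      omega
  · simp only [Sum.inr.injEq, Prod.mk.injEq, Fin.mk.injEq, Fin.castSucc_mk]

theorem DU1_s_inr (G : Gr V E) (l : E × Fin 6) (e : E) (j : Fin 5) :
    (C6 G).s l = Sum.inr (e, j) ↔ l = (e, j.succ) := by
  obtain ⟨e', k⟩ := l
  obtain ⟨k, hk⟩ := k
  obtain ⟨j, hj⟩ := j
  simp only [C6]
  split_ifs with h
  · constructor
    · intro hh
      exact absurd hh (by simp)
    · intro hh
      have h2 := congrArg (fun l => l.2.val) hh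
      simp only [Fin.succ_mk] at h2
      omega
  · simp only [Sum.inr.injEq, Prod.mk.injEq, Fin.mk.injEq, Fin.succ_mk]
    constructor
    · rintro ⟨h1, h2⟩
      exact ⟨h1, by omega⟩
    · rintro ⟨h1, h2⟩
      exact ⟨h1, by omega⟩

theorem DU1_r_inl (G : Gr V E) (e : E) (j : Fin 6) (v : V) :
    (C6 G).r (e, j) = Sum.inl v ↔ (G.r e = v ∧ j = 5) := by
  obtain ⟨k, hk⟩ := j
  simp only [C6]
  split_ifs with h
  · subst h
    simp only [Sum.inl.injEq]
    constructor
    · intro h1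
      exact ⟨h1, rfl⟩
    · intro h1
      exact h1.1
  · constructor
    · intro hh
      exact absurd hh (by simp)
    · rintro ⟨_, hh⟩
      have h2 := congrArg (fun l : Fin 6 => l.val) hh
      simp only at h2 h
      exact absurd h2 h

theorem DU1_s_inl (G : Gr V E) (e : E) (j : Fin 6) (v : V) :
    (C6 G).s (e, j) = Sum.inl v ↔ (G.s e = v ∧ j = 0) := by
  obtain ⟨k, hk⟩ := j
  simp only [C6]
  split_ifs with h
  · subst h
    simp only [Sum.inl.injEq]
    constructor
    · intro h1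
      exact ⟨h1, rfl⟩
    · intro h1
      exact h1.1
  · constructor
    · intro hh
      exact absurd hh (by simp)
    · rintro ⟨_, hh⟩
      have h2 := congrArg (fun l : Fin 6 => l.val) hh
      simp only at h2 h
      exact absurd h2 h

theorem DU1_dv_inr (G : Gr V E) (J : E × Fin 6 → ℤ) (e : E) (j : Fin 5) :
    dv (C6 G) J (Sum.inr (e, j)) = J (e, j.castSucc) - J (e, j.succ) := by
  unfold dv
  rw [Finset.sum_sub_distrib]
  simp only [DU1_r_inr, DU1_s_inr, Finset.sum_ite_eq', Finset.mem_univ, if_true]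

theorem DU1_dv_inl (G : Gr V E) (J : E × Fin 6 → ℤ) (v : V) :
    dv (C6 G) J (Sum.inl v) =
      ∑ e, ((if G.r e = v then J (e, 5) else 0) - (if G.s e = v then J (e, 0) else 0)) := by
  unfold dv
  rw [Fintype.sum_prod_type]
  refine Finset.sum_congr rfl fun e _ => ?_
  rw [Finset.sum_sub_distrib]
  simp only [DU1_r_inl, DU1_s_inl]
  congr 1
  · by_cases h : G.r e = v
    · simp [h]
    · simp [h]
  · by_cases h : G.s e = v
    · simp [h]
    · simp [h]

theorem DU1_const (G : Gr V E) (J : E × Fin 6 → ℤ) (h : ∀ v, dv (C6 G) J v = 0) (e : E)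
    (j : Fin 6) : J (e, j) = J (e, 0) := by
  have h1 : ∀ i : Fin 5, J (e, i.succ) = J (e, i.castSucc) := by
    intro i
    have h2 := h (Sum.inr (e, i))
    rw [DU1_dv_inr] at h2
    omega
  induction j using Fin.induction with
  | zero => rfl
  | succ i ih => rw [h1 i, ih]

theorem DU1_iff (G : Gr V E) (J : E × Fin 6 → ℤ) :
    (∀ v, dv (C6 G) J v = 0) ↔
      ∃ J0 : E → ℤ, (∀ v, dv G J0 v = 0) ∧ ∀ l, J l = J0 l.1 := by
  constructor
  · intro h
    refine ⟨fun e => J (e, 0), ?_, fun l => DU1_const G J h l.1 l.2⟩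
    intro v
    have h1 := h (Sum.inl v)
    rw [DU1_dv_inl] at h1
    simp only [DU1_const G J h] at h1
    exact h1
  · rintro ⟨J0, h0, h1⟩ v
    rcases v with v | ⟨e, j⟩
    · rw [DU1_dv_inl]
      simp only [h1]
      exact h0 v
    · rw [DU1_dv_inr, h1, h1]
      simp only [sub_self]

end DU1aux

theorem du1 (n : ℕ) (g : (↥(EN n) × Fin 6) → Cir → ℂ) (a : (↥(EN n) × Fin 6) → ℤ → ℂ)
    (ha : ∀ l, Summable (fun m => ‖a l m‖))
    (hg : ∀ l x, HasSum (fun m : ℤ => a l m * fourier m x) (g l x)) :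
    Summable (fun h : ↥(FN n) → ℤ => ‖∏ e : ↥(EN n), ∏ j : Fin 6, a (e, j) (dh (ex h) e.1)‖) ∧
    ∫ θ, ∏ l, g l (θ ((C6 (TB n)).r l) - θ ((C6 (TB n)).s l)) ∂haarP (↥(bx 2 n) ⊕ (↥(EN n) × Fin 5) → Cir) =
      ∑' h : ↥(FN n) → ℤ, ∏ e : ↥(EN n), ∏ j : Fin 6, a (e, j) (dh (ex h) e.1) := by
  obtain ⟨φ, hφ⟩ := poi n
  obtain ⟨hs, hi⟩ := du0 (C6 (TB n)) g a ha hg
  set ψ : (↥(FN n) → ℤ) → (↥(EN n) × Fin 6 → ℤ) := fun h l => dh (ex h) l.1.1 with hψ
  have hinj : Function.Injective ψ := by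
    intro h h' hh
    apply φ.injective
    apply Subtype.ext
    funext e
    rw [hφ, hφ]
    exact congrFun hh (e, 0)
  have hran : ∀ J : ↥(EN n) × Fin 6 → ℤ, (∀ v, dv (C6 (TB n)) J v = 0) ↔ J ∈ Set.range ψ := by
    intro J
    rw [DU1_iff]
    constructor
    · rintro ⟨J0, h0, h1⟩
      refine ⟨φ.symm ⟨J0, h0⟩, ?_⟩
      funext l
      simp only [hψ]
      rw [← hφ, Equiv.apply_symm_apply, h1]
    · rintro ⟨h, rfl⟩
      refine ⟨(φ h).1, (φ h).2, fun l => ?_⟩
      rw [hφ]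
  have hprod : ∀ h : ↥(FN n) → ℤ, ∏ l, a l (ψ h l) =
      ∏ e : ↥(EN n), ∏ j : Fin 6, a (e, j) (dh (ex h) e.1) := by
    intro h
    rw [Fintype.prod_prod_type]
  constructor
  · have h1 := hs.comp_injective hinj
    refine h1.congr fun h => ?_
    simp only [Function.comp_apply]
    rw [hprod]
  · rw [hi]
    have h2 : ∀ h : ↥(FN n) → ℤ, (∏ e : ↥(EN n), ∏ j : Fin 6, a (e, j) (dh (ex h) e.1)) =
        (fun J : ↥(EN n) × Fin 6 → ℤ =>
          if (∀ v, dv (C6 (TB n)) J v = 0) then ∏ e, a e (J e) else 0) (ψ h) := by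
      intro h
      have h3 : ∀ v, dv (C6 (TB n)) (ψ h) v = 0 := (hran (ψ h)).2 ⟨h, rfl⟩
      simp only [if_pos h3]
      rw [hprod]
    rw [tsum_congr h2]
    refine (hinj.tsum_eq ?_).symm
    intro J hJ
    rw [Function.mem_support] at hJ
    by_contra hc
    apply hJ
    exact if_neg (fun hc2 => hc ((hran J).1 hc2))

end H82.BX
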