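import Pool.Agent.H82.BX.DU1
import Pool.Agent.H82.BX.BE2

/-!
# DU2: partition function with phases, second moments

* `du_phase`: `du1` with `g l x = exp(κ_l cos(x + α_l))`, `a l m = bI κ_l m e^{i m α_l}` (`bes_fourier` at `x + α_l`).  The sum over `h` is real: the terms `h` and `-h` are conjugate.
* `du_two`: for `l = (e,0)`, `l' = (e',0)`, `e ≠ e'`: `a l m = m bI κ m`, `g l x = i κ sin x e^{κ cos x}` (`bes_fourier'`), the other links as before.
Both divided by the value for zero phases: `∫ e^{hG} = ∑' WH`, with `WH = ∏_{e ∈ EN n} wk κ (dh e)`.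
-/

set_option autoImplicit false

open Finset MeasureTheory

namespace H82.BX

open H82.IC XYB

/-- integral with phases. -/
noncomputable def ZX (n : ℕ) (κ : (↥(EN n) × Fin 6) → ℝ) (α : (↥(EN n) × Fin 6) → Cir) : ℝ :=
  ∫ θ, Real.exp (∑ l, κ l * cosC (θ ((C6 (TB n)).r l) - θ ((C6 (TB n)).s l) + α l))
    ∂haarP (↥(bx 2 n) ⊕ (↥(EN n) × Fin 5) → Cir)

lemma DU2_fourier_add (m : ℤ) (x y : Cir) :
    (fourier m (x + y) : ℂ) = fourier m x * fourier m y := by
  simp only [fourier_apply, smul_add, AddCircle.toCircle_add, Circle.coe_mul]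

lemma DU2_fourier_coe (m : ℤ) (x : ℝ) :
    (fourier m ((x : ℝ) : Cir) : ℂ) = Complex.exp (((x * m : ℝ) : ℂ) * Complex.I) := by
  rw [fourier_coe_apply]
  congr 1
  have hpi : (Real.pi : ℂ) ≠ 0 := by exact_mod_cast Real.pi_ne_zero
  push_cast
  field_simp

lemma DU2_norm_fourier (m : ℤ) (x : Cir) : ‖(fourier m x : ℂ)‖ = 1 := by
  rw [fourier_apply]; exact Circle.norm_coe _

lemma DU2_summ (κ : ℝ) (hκ : 0 ≤ κ) : Summable (fun m : ℤ => bI κ m) := by
  have h := bI_summ κ hκ 0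
  simpa using h

lemma DU2_summ1 (κ : ℝ) (hκ : 0 ≤ κ) : Summable (fun m : ℤ => |(m : ℝ)| * bI κ m) := by
  have h := bI_summ κ hκ 1
  simpa using h

lemma DU2_WH (n : ℕ) (κ : ℝ) (h : ↥(FN n) → ℤ) :
    WH HH.gr (FN n) (EN n) (wk κ) h = ∏ e : ↥(EN n), ∏ _j : Fin 6, bI κ (dh (ex h) e.1) := by
  unfold WH
  rw [← Finset.prod_coe_sort (EN n) (fun e => wk κ (ex h (HH.gr.s e) - ex h (HH.gr.r e)))]
  refine Finset.prod_congr rfl (fun e _ => ?_)
  simp [wk, dh]

/-- phases on the first links only. -/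
theorem du_phase (n : ℕ) (κ : (↥(EN n) × Fin 6) → ℝ) (hκ : ∀ l, 0 ≤ κ l) (α : ↥(EN n) → ℝ) :
    Summable (fun h : ↥(FN n) → ℤ => ∏ e : ↥(EN n), ∏ j : Fin 6, bI (κ (e, j)) (dh (ex h) e.1)) ∧
    ZX n κ (fun l => if l.2 = 0 then ((α l.1 : ℝ) : Cir) else 0) =
      ∑' h : ↥(FN n) → ℤ, (∏ e : ↥(EN n), ∏ j : Fin 6, bI (κ (e, j)) (dh (ex h) e.1)) *
        Real.cos (∑ e : ↥(EN n), α e * (dh (ex h) e.1 : ℝ)) := by
  classical
  set p : (↥(EN n) × Fin 6) → Cir := fun l => if l.2 = 0 then ((α l.1 : ℝ) : Cir) else 0 with hp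
  set a : (↥(EN n) × Fin 6) → ℤ → ℂ := fun l m => (bI (κ l) m : ℂ) * fourier m (p l) with ha
  set g : (↥(EN n) × Fin 6) → Cir → ℂ := fun l x => (Real.exp (κ l * cosC (x + p l)) : ℂ) with hg
  have hnorm : ∀ l m, ‖a l m‖ = bI (κ l) m := by
    intro l m
    simp only [ha, norm_mul, DU2_norm_fourier, mul_one, Complex.norm_real, Real.norm_eq_abs]
    exact abs_of_nonneg (bI_nonneg _ (hκ l) m)
  obtain ⟨h1, h2⟩ := du1 n g a
    (by intro l; simp only [hnorm]; exact DU2_summ _ (hκ l))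
    (by
      intro l x
      have h := bes_fourier (κ l) (hκ l) (x + p l)
      have e : (fun m : ℤ => a l m * fourier m x) =
          fun m : ℤ => (bI (κ l) m : ℂ) * fourier m (x + p l) := by
        funext m
        simp only [ha]
        rw [DU2_fourier_add]; ring
      rw [e]; exact h)
  have hn2 : ∀ h : ↥(FN n) → ℤ, ‖∏ e : ↥(EN n), ∏ j : Fin 6, a (e, j) (dh (ex h) e.1)‖ =
      ∏ e : ↥(EN n), ∏ j : Fin 6, bI (κ (e, j)) (dh (ex h) e.1) := by
    intro h
    rw [norm_prod]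
    refine Finset.prod_congr rfl (fun e _ => ?_)
    rw [norm_prod]
    refine Finset.prod_congr rfl (fun j _ => hnorm _ _)
  have hval : ∀ h : ↥(FN n) → ℤ, (∏ e : ↥(EN n), ∏ j : Fin 6, a (e, j) (dh (ex h) e.1)).re =
      (∏ e : ↥(EN n), ∏ j : Fin 6, bI (κ (e, j)) (dh (ex h) e.1)) *
        Real.cos (∑ e : ↥(EN n), α e * (dh (ex h) e.1 : ℝ)) := by
    intro h
    have e1 : ∀ e : ↥(EN n), ∏ j : Fin 6, a (e, j) (dh (ex h) e.1) =
        ((∏ j : Fin 6, bI (κ (e, j)) (dh (ex h) e.1) : ℝ) : ℂ) *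
          Complex.exp (((α e * (dh (ex h) e.1 : ℝ) : ℝ) : ℂ) * Complex.I) := by
      intro e
      simp only [ha]
      rw [Finset.prod_mul_distrib]
      congr 1
      · push_cast; rfl
      · rw [Fin.prod_univ_succ]
        have z : ∀ j : Fin 5, (fourier (dh (ex h) e.1) (p (e, j.succ)) : ℂ) = 1 := by
          intro j
          simp [hp, Fin.succ_ne_zero]
        simp only [z, Finset.prod_const_one, mul_one]
        simp only [hp, if_true]
        rw [DU2_fourier_coe]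
    rw [Finset.prod_congr rfl (fun e _ => e1 e), Finset.prod_mul_distrib, ← Complex.exp_sum,
      ← Finset.sum_mul, ← Complex.ofReal_sum, ← Complex.ofReal_prod, Complex.re_ofReal_mul,
      Complex.exp_ofReal_mul_I_re]
  constructor
  · simpa only [hn2] using h1
  · have hs : Summable (fun h : ↥(FN n) → ℤ =>
        ∏ e : ↥(EN n), ∏ j : Fin 6, a (e, j) (dh (ex h) e.1)) := h1.of_norm
    have e2 : (∫ θ, ∏ l, g l (θ ((C6 (TB n)).r l) - θ ((C6 (TB n)).s l))
        ∂haarP (↥(bx 2 n) ⊕ (↥(EN n) × Fin 5) → Cir)) = ((ZX n κ p : ℝ) : ℂ) := by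
      unfold ZX
      rw [← integral_complex_ofReal]
      congr 1
      funext θ
      simp only [hg]
      rw [Real.exp_sum]
      push_cast
      rfl
    have e3 : ZX n κ p = (∑' h : ↥(FN n) → ℤ,
        ∏ e : ↥(EN n), ∏ j : Fin 6, a (e, j) (dh (ex h) e.1)).re := by
      rw [← h2, e2, Complex.ofReal_re]
    rw [e3, Complex.re_tsum hs]
    exact tsum_congr hval

theorem du_two (n : ℕ) (κ : ℝ) (hκ : 0 < κ) (e e' : ↥(EN n)) (he : e ≠ e') :
    En (wk κ) n (fun h => (dh h e.1 : ℝ) * (dh h e'.1 : ℝ)) =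
      -κ ^ 2 * gE (hG (C6 (TB n)) (fun _ => κ)) (fun θ =>
        sinC (θ ((C6 (TB n)).r (e, 0)) - θ ((C6 (TB n)).s (e, 0))) *
          sinC (θ ((C6 (TB n)).r (e', 0)) - θ ((C6 (TB n)).s (e', 0)))) := by
  classical
  have hpq : ((e, 0) : ↥(EN n) × Fin 6) ≠ (e', 0) := by
    intro h; exact he (Prod.ext_iff.1 h).1
  -- denominators
  have hden : (∑' h : ↥(FN n) → ℤ, WH HH.gr (FN n) (EN n) (wk κ) h) =
      ∫ θ : ↥(bx 2 n) ⊕ (↥(EN n) × Fin 5) → Cir, Real.exp (hG (C6 (TB n)) (fun _ => κ) θ)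
        ∂haarP (↥(bx 2 n) ⊕ (↥(EN n) × Fin 5) → Cir) := by
    have h := (du_phase n (fun _ => κ) (fun _ => hκ.le) (fun _ => 0)).2
    simp only [zero_mul, Finset.sum_const_zero, Real.cos_zero, mul_one] at h
    simp only [DU2_WH]
    rw [← h]
    unfold ZX hG
    simp
  set p : ↥(EN n) × Fin 6 := (e, 0) with hp
  set q : ↥(EN n) × Fin 6 := (e', 0) with hq
  set a : (↥(EN n) × Fin 6) → ℤ → ℂ := fun l m =>
    (if l = p then (m : ℂ) else 1) * (if l = q then (m : ℂ) else 1) * (bI κ m : ℂ) with ha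
  set g : (↥(EN n) × Fin 6) → Cir → ℂ := fun l x =>
    (if l = p then Complex.I * (κ * sinC x : ℝ) else 1) *
      (if l = q then Complex.I * (κ * sinC x : ℝ) else 1) * (Real.exp (κ * cosC x) : ℂ) with hg
  have hcase : ∀ l : ↥(EN n) × Fin 6, (∀ m, a l m = (bI κ m : ℂ) ∧ True) ∧
      (∀ x, g l x = (Real.exp (κ * cosC x) : ℂ)) ∨
      (∀ m, a l m = (m : ℂ) * (bI κ m : ℂ)) ∧
      (∀ x, g l x = Complex.I * (κ * sinC x * Real.exp (κ * cosC x) : ℝ)) := by
    intro l
    by_cases h1 : l = p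
    · right
      have h2 : l ≠ q := by rw [h1]; exact hpq
      constructor
      · intro m; simp only [ha, if_pos h1, if_neg h2, mul_one]
      · intro x; simp only [hg, if_pos h1, if_neg h2, mul_one]; push_cast; ring
    · by_cases h2 : l = q
      · right
        constructor
        · intro m; simp only [ha, if_neg h1, if_pos h2, one_mul]
        · intro x; simp only [hg, if_neg h1, if_pos h2, one_mul]; push_cast; ring
      · left
        constructor
        · intro m; simp only [ha, if_neg h1, if_neg h2, one_mul, and_true]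
        · intro x; simp only [hg, if_neg h1, if_neg h2, one_mul]
  obtain ⟨h1, h2⟩ := du1 n g a
    (by
      intro l
      rcases hcase l with ⟨hA, -⟩ | ⟨hA, -⟩
      · have : (fun m => ‖a l m‖) = fun m : ℤ => bI κ m := by
          funext m
          rw [(hA m).1, Complex.norm_real, Real.norm_eq_abs, abs_of_nonneg (bI_nonneg κ hκ.le m)]
        rw [this]; exact DU2_summ κ hκ.le
      · have : (fun m => ‖a l m‖) = fun m : ℤ => |(m : ℝ)| * bI κ m := by
          funext m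
          rw [hA m, norm_mul, Complex.norm_real, Real.norm_eq_abs,
            abs_of_nonneg (bI_nonneg κ hκ.le m), Complex.norm_intCast]
        rw [this]; exact DU2_summ1 κ hκ.le)
    (by
      intro l x
      rcases hcase l with ⟨hA, hB⟩ | ⟨hA, hB⟩
      · have : (fun m => a l m * fourier m x) = fun m : ℤ => (bI κ m : ℂ) * fourier m x := by
          funext m; rw [(hA m).1]
        rw [this, hB x]
        exact bes_fourier κ hκ.le x
      · have : (fun m => a l m * fourier m x) =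
            fun m : ℤ => ((m : ℂ) * bI κ m) * fourier m x := by
          funext m; rw [hA m]
        rw [this, hB x]
        exact bes_fourier' κ hκ.le x)
  have hval : ∀ h : ↥(FN n) → ℤ, (∏ e : ↥(EN n), ∏ j : Fin 6, a (e, j) (dh (ex h) e.1)) =
      ((WH HH.gr (FN n) (EN n) (wk κ) h *
        ((dh (ex h) e.1 : ℝ) * (dh (ex h) e'.1 : ℝ)) : ℝ) : ℂ) := by
    intro h
    have e0 : (∏ e : ↥(EN n), ∏ j : Fin 6, a (e, j) (dh (ex h) e.1)) =
        ∏ l : ↥(EN n) × Fin 6, a l (dh (ex h) l.1.1) := by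
      rw [Fintype.prod_prod_type]
    rw [e0]
    simp only [ha]
    rw [Finset.prod_mul_distrib, Finset.prod_mul_distrib]
    rw [Finset.prod_ite_eq' Finset.univ p (fun l => ((dh (ex h) l.1.1 : ℤ) : ℂ)),
      Finset.prod_ite_eq' Finset.univ q (fun l => ((dh (ex h) l.1.1 : ℤ) : ℂ))]
    simp only [Finset.mem_univ, if_true]
    rw [DU2_WH, Fintype.prod_prod_type]
    push_cast
    simp only [hp, hq]
    ring
  have hint : (∫ θ, ∏ l, g l (θ ((C6 (TB n)).r l) - θ ((C6 (TB n)).s l))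
      ∂haarP (↥(bx 2 n) ⊕ (↥(EN n) × Fin 5) → Cir)) =
      ((-κ ^ 2 * ∫ θ, (sinC (θ ((C6 (TB n)).r p) - θ ((C6 (TB n)).s p)) *
          sinC (θ ((C6 (TB n)).r q) - θ ((C6 (TB n)).s q))) *
          Real.exp (hG (C6 (TB n)) (fun _ => κ) θ)
        ∂haarP (↥(bx 2 n) ⊕ (↥(EN n) × Fin 5) → Cir) : ℝ) : ℂ) := by
    rw [← integral_const_mul, ← integral_complex_ofReal]
    congr 1
    funext θ
    simp only [hg]
    rw [Finset.prod_mul_distrib, Finset.prod_mul_distrib]
    rw [Finset.prod_ite_eq' Finset.univ p (fun l => Complex.I *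
        ((κ * sinC (θ ((C6 (TB n)).r l) - θ ((C6 (TB n)).s l)) : ℝ) : ℂ)),
      Finset.prod_ite_eq' Finset.univ q (fun l => Complex.I *
        ((κ * sinC (θ ((C6 (TB n)).r l) - θ ((C6 (TB n)).s l)) : ℝ) : ℂ))]
    simp only [Finset.mem_univ, if_true]
    unfold hG
    rw [Real.exp_sum]
    push_cast
    linear_combination (κ : ℂ) ^ 2 * (sinC (θ ((C6 (TB n)).r p) - θ ((C6 (TB n)).s p)) : ℂ) *
      (sinC (θ ((C6 (TB n)).r q) - θ ((C6 (TB n)).s q)) : ℂ) *
      (∏ x, Complex.exp ((κ : ℂ) * (cosC (θ ((C6 (TB n)).r x) - θ ((C6 (TB n)).s x)) : ℂ))) *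
        Complex.I_sq
  have hnum : (∑' h : ↥(FN n) → ℤ, WH HH.gr (FN n) (EN n) (wk κ) h *
        ((dh (ex h) e.1 : ℝ) * (dh (ex h) e'.1 : ℝ))) =
      -κ ^ 2 * ∫ θ, (sinC (θ ((C6 (TB n)).r p) - θ ((C6 (TB n)).s p)) *
          sinC (θ ((C6 (TB n)).r q) - θ ((C6 (TB n)).s q))) *
          Real.exp (hG (C6 (TB n)) (fun _ => κ) θ)
        ∂haarP (↥(bx 2 n) ⊕ (↥(EN n) × Fin 5) → Cir) := by
    have h3 := h2
    rw [hint, tsum_congr hval, ← Complex.ofReal_tsum] at h3
    exact (Complex.ofReal_injective h3).symm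
  unfold En Eh gE
  rw [hnum, hden, mul_div_assoc]

end H82.BX
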