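import Pool.Agent.H82.IC.LDefs
import Pool.Agent.H2.XY.GDef

/-!
# MP_26628e_mp, project BX: definitions

The box `ℤ²` is `Vx 2 = Fin 2 → ℤ` (coordinate `0` = horizontal, coordinate `1` = vertical).
-/

set_option autoImplicit false

open Finset MeasureTheory

namespace H82.BX

open H82.IC XYB

/-! ## configurations, periodic graphs -/

section conf
variable {E α : Type}

/-- open edges of a configuration. -/
def op1 (ω : E → Bool) : Set E := {e | ω e = true}

/-- open the edge `e`. -/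
noncomputable def opP (e : E) (ω : E → Bool) : E → Bool :=
  open Classical in Function.update ω e true

/-- cylinder events. -/
def Lc (X : Set (E → α)) : Prop :=
  ∃ F : Finset E, ∀ ω ω' : E → α, (∀ e ∈ F, ω e = ω' e) → (ω ∈ X ↔ ω' ∈ X)

/-- approximate insertion tolerance. -/
def INSe (ν : Measure (E → Bool)) : Prop :=
  ∀ ε : ℝ, 0 < ε → ∃ C : ℝ, 0 < C ∧ ∀ (e : E) (X : Set (E → Bool)), MeasurableSet X →
    ν.real {ω | opP e ω ∈ X} ≤ C * ν.real X + ε

/-- approximate insertion tolerance for cylinder events. -/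
def INSc (ν : Measure (E → Bool)) : Prop :=
  ∀ ε : ℝ, 0 < ε → ∃ C : ℝ, 0 < C ∧ ∀ (e : E) (X : Set (E → Bool)), Lc X →
    ν.real {ω | opP e ω ∈ X} ≤ C * ν.real X + ε

/-- increasing events. -/
def Inc1 (X : Set (E → Bool)) : Prop :=
  ∀ ω ω' : E → Bool, (∀ e, ω e = true → ω' e = true) → ω ∈ X → ω' ∈ X

end conf

/-- periodic graph over `ℤ²`: vertices `(x, k)`, edges `(x, k')` with ends `(x + sv k', sk k')` and
`(x + rv k', rk k')`. -/
structure PG (K K' : Type) where
  sv : K' → Vx 2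
  sk : K' → K
  rv : K' → Vx 2
  rk : K' → K

section per
variable {K K' α : Type}

def PG.gr (P : PG K K') : Gr (Vx 2 × K) (Vx 2 × K') where
  s e := (e.1 + P.sv e.2, P.sk e.2)
  r e := (e.1 + P.rv e.2, P.rk e.2)

/-- shift of a configuration. -/
def shP (a : Vx 2) (ω : Vx 2 × K' → α) : Vx 2 × K' → α := fun e => ω (e.1 + a, e.2)

/-- tile of radius `r` around `x`. -/
def tl (r : ℕ) (x : Vx 2) : Set (Vx 2 × K) := {z | nm (z.1 - x) ≤ r}

/-- the offsets are small and the tiles are connected. -/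
structure PG.Ok (P : PG K K') : Prop where
  small : ∀ k', nm (P.sv k') ≤ 1 ∧ nm (P.rv k') ≤ 1
  conn : ∀ r : ℕ, 1 ≤ r → ∀ a ∈ (tl r 0 : Set (Vx 2 × K)), ∀ b ∈ (tl r 0 : Set (Vx 2 × K)),
    P.gr.Conn (P.gr.ins (tl r 0)) a b

/-- translation invariance. -/
def TIP [MeasurableSpace α] (ν : Measure (Vx 2 × K' → α)) : Prop :=
  ∀ (a : Vx 2) (X : Set (Vx 2 × K' → α)), MeasurableSet X → ν.real {ω | shP a ω ∈ X} = ν.real X

end per

/-- the square lattice. -/
def Q2 : PG Unit (Fin 2) where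
  sv _ := 0
  sk _ := ()
  rv i := Pi.single i 1
  rk _ := ()

/-- the hexagonal lattice of the faces of the triangular lattice: `(x, false)` is the lower right
triangle `x, x+e₀, x+e₀+e₁` of the unit square at `x`, `(x, true)` the upper left triangle
`x, x+e₁, x+e₀+e₁`.  The edge `(x, k)` is dual to the edge `(x, k)` of `TT`. -/
def HH : PG Bool (Fin 3) where
  sv := ![0, -Pi.single 0 1, 0]
  sk := ![false, false, true]
  rv := ![-Pi.single 1 1, 0, 0]
  rk := ![true, true, false]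

/-- the triangular lattice: edges `(x,0) = {x, x+e₀}`, `(x,1) = {x, x+e₁}`, `(x,2) = {x, x+e₀+e₁}`. -/
def TT : Gr (Vx 2) (Vx 2 × Fin 3) where
  s e := e.1
  r e := e.1 + ![Pi.single 0 1, Pi.single 1 1, Pi.single 0 1 + Pi.single 1 1] e.2

/-- faces of the box: the triangles of the squares `x ∈ [-n,n)²`. -/
noncomputable def FN (n : ℕ) : Finset (Vx 2 × Bool) :=
  (Fintype.piFinset (fun _ => Finset.Ico (-(n : ℤ)) n)) ×ˢ univ

/-- edges of the triangular lattice in `[-n,n]²` (= edges of `HH.gr` that touch `FN n`). -/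
noncomputable def EN (n : ℕ) : Finset (Vx 2 × Fin 3) :=
  ((bx 2 n) ×ˢ univ).filter (fun e => TT.r e ∈ bx 2 n)

/-! ## OSSS -/

section osss
variable {I : Type} [Fintype I] [DecidableEq I] {X : I → Type} [∀ i, Fintype (X i)]
  [∀ i, LinearOrder (X i)]

/-- sum of `g` over the configurations equal to `x` on `A`. -/
noncomputable def cs (A : Finset I) (x : ∀ i, X i) (g : (∀ i, X i) → ℝ) : ℝ :=
  ∑ y, if (∀ i ∈ A, y i = x i) then g y else 0

/-- conditional expectation of `f` given the values of `x` on `A` (unnormalised weight `m`). -/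
noncomputable def ce (m f : (∀ i, X i) → ℝ) (A : Finset I) (x : ∀ i, X i) : ℝ :=
  cs A x (fun y => m y * f y) / cs A x m

/-- conditional probability that coordinate `i` is `c`. -/
noncomputable def cp (m : (∀ i, X i) → ℝ) (A : Finset I) (x : ∀ i, X i) (i : I) (c : X i) : ℝ :=
  cs (insert i A) (Function.update x i c) m / cs A x m

/-- influence of `i` given the values of `x` on `A`. -/
noncomputable def infl (m f : (∀ i, X i) → ℝ) (A : Finset I) (x : ∀ i, X i) (i : I) : ℝ :=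
  ∑ c, ∑ c', cp m A x i c * cp m A x i c' *
    |ce m f (insert i A) (Function.update x i c) - ce m f (insert i A) (Function.update x i c')|

/-- exploration: `nx A x` is the next coordinate to be revealed. `rev nx n x` = the revealed set after `n` steps. -/
noncomputable def rev (nx : Finset I → (∀ i, X i) → Option I) (n : ℕ) (x : ∀ i, X i) : Finset I :=
  match n with
  | 0 => ∅
  | n + 1 => match nx (rev nx n x) x with
    | none => rev nx n x
    | some i => insert i (rev nx n x)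

/-- legal explorations. -/
structure Legal (Ad : Finset I → Prop) (nx : Finset I → (∀ i, X i) → Option I) : Prop where
  empty : Ad ∅
  loc : ∀ (A : Finset I) (x y : ∀ i, X i), (∀ i ∈ A, x i = y i) → nx A x = nx A y
  new : ∀ (A : Finset I) (x : ∀ i, X i) (i : I), nx A x = some i → i ∉ A
  adm : ∀ (A : Finset I) (x : ∀ i, X i) (i : I), Ad A → nx A x = some i → Ad (insert i A)

end osss

/-- quantile function of the weights `p` on the finite linear order `Y` (sum `1`). -/
noncomputable def qt {Y : Type} [Fintype Y] [LinearOrder Y] [Nonempty Y] (p : Y → ℝ) (u : ℝ) : Y :=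
  open Classical in
  if h : (univ.filter (fun c : Y => (∑ c' ∈ univ.filter (fun c' => c' < c), p c') ≤ u)).Nonempty
  then (univ.filter (fun c : Y => (∑ c' ∈ univ.filter (fun c' => c' < c), p c') ≤ u)).max' h
  else Classical.arbitrary Y

/-! ## pair weights (Ising) -/

def sg (b : Bool) : ℝ := if b then 1 else -1

section pw
variable {V E : Type} [Fintype V] [DecidableEq V] [Fintype E] [DecidableEq E]

/-- Ising partition function with pair weights `p + q σ σ'`. -/
noncomputable def Zs (G : Gr V E) (p q : E → ℝ) : ℝ :=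
  ∑ σ : V → Bool, ∏ e, (p e + q e * (sg (σ (G.s e)) * sg (σ (G.r e))))

/-- pair weights `1 + t σ σ'`. -/
noncomputable def Zv (G : Gr V E) (t : E → ℝ) : ℝ := Zs G (fun _ => 1) t

/-! ## the chain model -/

/-- vertices of the chain graph: `inl v` the vertices of the graph, `inr (e, false) = z_e`, `inr (e, true) = m_e`. -/
abbrev SV (V E : Type) := V ⊕ (E × Bool)

/-- the chain graph: the edge `e` is replaced by the chain `s e - z_e - m_e - r e`. -/
def LK (G : Gr V E) : Gr (SV V E) (E × Fin 3) where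
  s l := (![Sum.inl (G.s l.1), Sum.inr (l.1, false), Sum.inr (l.1, true)] : Fin 3 → SV V E) l.2
  r l := (![Sum.inr (l.1, false), Sum.inr (l.1, true), Sum.inl (G.r l.1)] : Fin 3 → SV V E) l.2

end pw

/-- alphabet: moduli of cosine and sine, a priori weight. -/
structure Al where
  k : ℕ
  cc : Fin (k + 1) → ℝ
  ss : Fin (k + 1) → ℝ
  nu : Fin (k + 1) → ℝ

noncomputable def Al.lo (M : Al) : Finset (Fin (M.k + 1)) :=
  open Classical in univ.filter (fun c => M.cc c ≤ 3 / 5 ∧ 4 / 5 ≤ M.ss c)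

noncomputable def Al.hi (M : Al) : Finset (Fin (M.k + 1)) :=
  open Classical in univ.filter (fun c => 4 / 5 ≤ M.cc c ∧ M.ss c ≤ 3 / 5)

noncomputable def Al.mi (M : Al) : Finset (Fin (M.k + 1)) :=
  open Classical in univ.filter (fun c => 1 / 3 ≤ M.cc c ∧ 1 / 3 ≤ M.ss c)

structure Al.Ok (M : Al) : Prop where
  mono : Monotone M.cc
  anti : Antitone M.ss
  cc0 : ∀ c, 0 < M.cc c
  cc1 : ∀ c, M.cc c ≤ 1
  ss0 : ∀ c, 0 < M.ss c
  ss1 : ∀ c, M.ss c ≤ 1
  nu0 : ∀ c, 0 < M.nu c
  nu1 : ∑ c, M.nu c = 1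
  lo : 1 / 4 ≤ ∑ c ∈ M.lo, M.nu c
  hi : 1 / 4 ≤ ∑ c ∈ M.hi, M.nu c
  mi : 1 / 4 ≤ ∑ c ∈ M.mi, M.nu c

section chain
variable {V E : Type} [Fintype V] [DecidableEq V] [Fintype E] [DecidableEq E]

/-- `1` at the pinned vertices (`v` and `z_e`), `0` at `m_e`. -/
def pn : SV V E → ℝ
  | Sum.inl _ => 1
  | Sum.inr (_, false) => 1
  | Sum.inr (_, true) => 0

/-- coupling of the cosine signs on a link. -/
noncomputable def la (G : Gr V E) (M : Al) (b : ℝ) (c : SV V E → Fin (M.k + 1)) (l : E × Fin 3) : ℝ :=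
  b * (M.cc (c ((LK G).s l)) * M.cc (c ((LK G).r l)))

/-- coupling of the sine signs on a link. -/
noncomputable def lb (G : Gr V E) (M : Al) (b : ℝ) (c : SV V E → Fin (M.k + 1)) (l : E × Fin 3) : ℝ :=
  b * (M.ss (c ((LK G).s l)) * M.ss (c ((LK G).r l)))

noncomputable def rr (G : Gr V E) (M : Al) (b : ℝ) (c : SV V E → Fin (M.k + 1)) (e : E) : ℝ :=
  ∏ j : Fin 3, Real.tanh (la G M b c (e, j))

noncomputable def tt (G : Gr V E) (M : Al) (b : ℝ) (c : SV V E → Fin (M.k + 1)) (e : E) : ℝ :=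
  ∏ j : Fin 3, Real.tanh (lb G M b c (e, j))

noncomputable def AA (G : Gr V E) (M : Al) (b : ℝ) (c : SV V E → Fin (M.k + 1)) (e : E) : ℝ :=
  ∏ j : Fin 3, (Real.cosh (la G M b c (e, j)) * Real.cosh (lb G M b c (e, j)))

/-- a priori weight with pinning `l cos²`. -/
noncomputable def wv (M : Al) (l : ℝ) (c : SV V E → Fin (M.k + 1)) : ℝ :=
  ∏ w, (M.nu (c w) * Real.exp (l * pn w * M.cc (c w) ^ 2))

/-- open edges as parameters. -/
def bt (o : E → Bool) : E → ℝ := fun e => if o e then 1 else 0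

/-- weight of the moduli `c` and of the edge configuration `o`. -/
noncomputable def W (G : Gr V E) (M : Al) (b l : ℝ) (c : SV V E → Fin (M.k + 1)) (o : E → Bool) : ℝ :=
  wv M l c * (∏ e, AA G M b c e * (if o e then rr G M b c e else 1 - rr G M b c e)) *
    (Zv G (bt o) * Zv G (tt G M b c))

/-- expectation. -/
noncomputable def EW (G : Gr V E) (M : Al) (b l : ℝ)
    (f : (SV V E → Fin (M.k + 1)) → (E → Bool) → ℝ) : ℝ :=
  (∑ c, ∑ o, W G M b l c o * f c o) / ∑ c, ∑ o, W G M b l c o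

/-- weight with the edges of `B` frozen: direct pair weights `1 + o σσ'`, `1 + tB ττ'`. -/
noncomputable def WB (G : Gr V E) (M : Al) (b l : ℝ) (B : Finset E) (tB : E → ℝ)
    (c : SV V E → Fin (M.k + 1)) (o : E → Bool) : ℝ :=
  wv M l c * (∏ e ∈ univ \ B, AA G M b c e * (if o e then rr G M b c e else 1 - rr G M b c e)) *
    (Zv G (bt o) * Zv G (fun e => if e ∈ B then tB e else tt G M b c e))

/-- unnormalised sum over the configurations equal to `c0` on `A`, `o0` on `B`. -/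
noncomputable def SB (G : Gr V E) (M : Al) (b l : ℝ) (A : Finset (SV V E)) (B : Finset E) (tB : E → ℝ)
    (c0 : SV V E → Fin (M.k + 1)) (o0 : E → Bool)
    (f : (SV V E → Fin (M.k + 1)) → (E → Bool) → ℝ) : ℝ :=
  ∑ c, ∑ o, if (∀ w ∈ A, c w = c0 w) ∧ (∀ e ∈ B, o e = o0 e) then WB G M b l B tB c o * f c o else 0

/-- normalised. -/
noncomputable def EB (G : Gr V E) (M : Al) (b l : ℝ) (A : Finset (SV V E)) (B : Finset E) (tB : E → ℝ)
    (c0 : SV V E → Fin (M.k + 1)) (o0 : E → Bool)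
    (f : (SV V E → Fin (M.k + 1)) → (E → Bool) → ℝ) : ℝ :=
  SB G M b l A B tB c0 o0 f / SB G M b l A B tB c0 o0 (fun _ _ => 1)

/-- increasing functions of `(c, o)`. -/
def Mon {k : ℕ} (f : (SV V E → Fin (k + 1)) → (E → Bool) → ℝ) : Prop :=
  ∀ c c' o o', c ≤ c' → o ≤ o' → f c o ≤ f c' o'

/-- every vertex has at most four edge ends. -/
def Deg4 (G : Gr V E) : Prop :=
  ∀ v, (univ.filter (fun e => G.s e = v)).card + (univ.filter (fun e => G.r e = v)).card ≤ 4

end chain

/-! coordinates of the chain model as one family of alphabets -/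

/-- alphabets. -/
def XI (k : ℕ) (V E : Type) : SV V E ⊕ E → Type
  | Sum.inl _ => Fin (k + 1)
  | Sum.inr _ => Bool

instance (k : ℕ) (V E : Type) : ∀ i, Fintype (XI k V E i)
  | Sum.inl _ => inferInstanceAs (Fintype (Fin (k + 1)))
  | Sum.inr _ => inferInstanceAs (Fintype Bool)

instance (k : ℕ) (V E : Type) : ∀ i, LinearOrder (XI k V E i)
  | Sum.inl _ => inferInstanceAs (LinearOrder (Fin (k + 1)))
  | Sum.inr _ => inferInstanceAs (LinearOrder Bool)

instance (k : ℕ) (V E : Type) : ∀ i, Nonempty (XI k V E i)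
  | Sum.inl _ => inferInstanceAs (Nonempty (Fin (k + 1)))
  | Sum.inr _ => inferInstanceAs (Nonempty Bool)

section coord
variable {V E : Type}

def pc {k : ℕ} (x : ∀ i, XI k V E i) : SV V E → Fin (k + 1) := fun w => x (Sum.inl w)
def po {k : ℕ} (x : ∀ i, XI k V E i) : E → Bool := fun e => x (Sum.inr e)

def mkx {k : ℕ} (c : SV V E → Fin (k + 1)) (o : E → Bool) : ∀ i, XI k V E i
  | Sum.inl w => c w
  | Sum.inr e => o e

/-- admissible revealed sets: order of the revelation `s e, r e`, then `z_e`, then `m_e`, then the bit of `e`. -/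
structure Adm (G : Gr V E) (S : Finset (SV V E ⊕ E)) : Prop where
  bit : ∀ e, Sum.inr e ∈ S → Sum.inl (Sum.inr (e, true)) ∈ S
  mm : ∀ e, Sum.inl (Sum.inr (e, true)) ∈ S → Sum.inl (Sum.inr (e, false)) ∈ S
  zz : ∀ e, Sum.inl (Sum.inr (e, false)) ∈ S →
    Sum.inl (Sum.inl (G.s e)) ∈ S ∧ Sum.inl (Sum.inl (G.r e)) ∈ S

/-- the pinned vertex responsible for a coordinate. -/
def pin : SV V E ⊕ E → SV V E
  | Sum.inl (Sum.inl v) => Sum.inl v
  | Sum.inl (Sum.inr (e, _)) => Sum.inr (e, false)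
  | Sum.inr e => Sum.inr (e, false)

/-- moduli vertices of a revealed set. -/
noncomputable def sA (S : Finset (SV V E ⊕ E)) : Finset (SV V E) :=
  open Classical in S.preimage Sum.inl Sum.inl_injective.injOn

/-- edge bits of a revealed set. -/
noncomputable def sB (S : Finset (SV V E ⊕ E)) : Finset E :=
  open Classical in S.preimage Sum.inr Sum.inr_injective.injOn

end coord

section coord2
variable {V E : Type} [Fintype V] [DecidableEq V] [Fintype E] [DecidableEq E]

/-- normalised weight of the chain model on `∀ i, XI k V E i`. -/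
noncomputable def mW (G : Gr V E) (M : Al) (b l : ℝ) (x : ∀ i, XI M.k V E i) : ℝ :=
  W G M b l (pc x) (po x) / ∑ c, ∑ o, W G M b l c o

/-- `cc²` at a vertex. -/
noncomputable def c2 (M : Al) (w : SV V E) (x : ∀ i, XI M.k V E i) : ℝ := M.cc (pc x w) ^ 2

/-- covariance of `f` and `cc²` at `w` (expectations with respect to `mW`). -/
noncomputable def cv (G : Gr V E) (M : Al) (b l : ℝ) (f : (∀ i, XI M.k V E i) → ℝ) (w : SV V E) : ℝ :=
  (∑ x, mW G M b l x * (f x * c2 M w x)) - (∑ x, mW G M b l x * f x) * ∑ x, mW G M b l x * c2 M w x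

/-- explored open edges. -/
def eo {k : ℕ} (S : Finset (SV V E ⊕ E)) (x : ∀ i, XI k V E i) : Set E :=
  {e | Sum.inr e ∈ S ∧ po x e = true}

/-- `e` is not explored and touches the explored cluster of the seeds `Sd`. -/
def cand {k : ℕ} (G : Gr V E) (Sd : Finset V) (S : Finset (SV V E ⊕ E)) (x : ∀ i, XI k V E i) (e : E) :
    Prop :=
  Sum.inr e ∉ S ∧ ∃ v ∈ Sd, G.Conn (eo S x) v (G.s e) ∨ G.Conn (eo S x) v (G.r e)

/-- exploration of the clusters of the seeds. -/
noncomputable def nxS {k : ℕ} (G : Gr V E) (Sd : Finset V) (S : Finset (SV V E ⊕ E))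
    (x : ∀ i, XI k V E i) : Option (SV V E ⊕ E) :=
  open Classical in
  if h : ∃ e, cand G Sd S x e then
    (if Sum.inl (Sum.inl (G.s h.choose)) ∉ S then some (Sum.inl (Sum.inl (G.s h.choose)))
    else if Sum.inl (Sum.inl (G.r h.choose)) ∉ S then some (Sum.inl (Sum.inl (G.r h.choose)))
    else if Sum.inl (Sum.inr (h.choose, false)) ∉ S then some (Sum.inl (Sum.inr (h.choose, false)))
    else if Sum.inl (Sum.inr (h.choose, true)) ∉ S then some (Sum.inl (Sum.inr (h.choose, true)))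
    else some (Sum.inr h.choose))
  else none

end coord2

/-! ## torus -/

/-- the torus graph. -/
def TD (L : ℕ) : Gr (Fin 2 → ZMod L) ((Fin 2 → ZMod L) × Fin 2) where
  s e := e.1
  r e := e.1 + Pi.single e.2 1

/-- torus distance to `0`. -/
noncomputable def td {L : ℕ} (x : Fin 2 → ZMod L) : ℕ := univ.sup (fun i => (x i).valMinAbs.natAbs)

/-- one arm event. -/
def armT {L : ℕ} (n : ℕ) (x : Fin 2 → ZMod L) (o : (Fin 2 → ZMod L) × Fin 2 → Bool) : Prop :=
  ∃ u, n ≤ td (u - x) ∧ (TD L).Conn (op1 o) x u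

/-- one arm probability. -/
noncomputable def fT (L : ℕ) [NeZero L] (M : Al) (b : ℝ) (n : ℕ) (l : ℝ) : ℝ :=
  EW (TD L) M b l (fun _ o => ind (armT n 0 o))

/-! ## clocks and circles -/

/-- clock alphabet with `24 K` hours, regularised by `ε`. -/
noncomputable def clk (K : ℕ) (ε : ℝ) : Al where
  k := 6 * K
  cc c := (Real.sin (c.val * Real.pi / (12 * K)) + ε) / (1 + ε)
  ss c := (Real.cos (c.val * Real.pi / (12 * K)) + ε) / (1 + ε)
  nu c := (if c.val = 0 ∨ c.val = 6 * K then 1 / 2 else 1) / (6 * K)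

section cir
variable {U : Type} [Fintype U] [DecidableEq U]

/-- clock angles. -/
noncomputable def ang (M : ℕ) (g : U → Fin M) : U → Cir := fun w => ((2 * Real.pi * (g w).val / M : ℝ) : Cir)

/-- clock expectation of `F` with weight `e^H`. -/
noncomputable def clE (M : ℕ) (H F : (U → Cir) → ℝ) : ℝ :=
  (∑ g : U → Fin M, F (ang M g) * Real.exp (H (ang M g))) / ∑ g : U → Fin M, Real.exp (H (ang M g))

end cir

section xy
variable {V E : Type} [Fintype V] [DecidableEq V] [Fintype E] [DecidableEq E]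

/-- minus the XY energy with couplings `J` on a graph. -/
noncomputable def hG (G : Gr V E) (J : E → ℝ) (θ : V → Cir) : ℝ := ∑ e, J e * cosC (θ (G.r e) - θ (G.s e))

/-- the chain model with pinning. -/
noncomputable def hS (G : Gr V E) (b l : ℝ) (θ : SV V E → Cir) : ℝ :=
  hG (LK G) (fun _ => b) θ + ∑ w, l * pn w * cosC (θ w) ^ 2

/-- every edge replaced by a chain of six links; `inr (e, j)`, `j < 5`, are the inner vertices of `e`. -/
def C6 (G : Gr V E) : Gr (V ⊕ (E × Fin 5)) (E × Fin 6) where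
  s l := if h : l.2.val = 0 then Sum.inl (G.s l.1) else Sum.inr (l.1, ⟨l.2.val - 1, by omega⟩)
  r l := if h : l.2.val = 5 then Sum.inl (G.r l.1) else Sum.inr (l.1, ⟨l.2.val, by omega⟩)

end xy

/-- the triangular box as a finite graph. -/
noncomputable def TB (n : ℕ) : Gr ↥(bx 2 n) ↥(EN n) where
  s e := ⟨TT.s e.1, (mem_product.1 (mem_filter.1 e.2).1).1⟩
  r e := ⟨TT.r e.1, (mem_filter.1 e.2).2⟩

/-- base point of a vertex of the chained triangular box. -/
def bp {n : ℕ} : ↥(bx 2 n) ⊕ (↥(EN n) × Fin 5) → Vx 2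
  | Sum.inl v => v.1
  | Sum.inr q => q.1.1.1

/-- modified Bessel function `I_n(κ)`. -/
noncomputable def bI (κ : ℝ) (n : ℤ) : ℝ := ∫ t : Cir, cosC (n • t) * Real.exp (κ * cosC t) ∂haarP Cir

/-- divergence of an integer flow. -/
noncomputable def dv {V E : Type} [Fintype E] [DecidableEq V] (G : Gr V E) (J : E → ℤ) (v : V) : ℤ :=
  ∑ e, ((if G.r e = v then J e else 0) - (if G.s e = v then J e else 0))

/-- there is no exponential decay in the chained triangular boxes. -/
def noED (κ : ℝ) : Prop :=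
  ¬ ∃ C a : ℝ, 0 < a ∧ ∀ (n : ℕ) (p q : ↥(bx 2 n) ⊕ (↥(EN n) × Fin 5)),
    gE (hG (C6 (TB n)) (fun _ => κ)) (fun θ => cosC (θ p) * cosC (θ q)) ≤
      C * Real.exp (-a * nm (bp p - bp q))

/-! ## heights -/

section heights
variable {V E : Type} [DecidableEq V]

/-- extension by zero. -/
def ex {F : Finset V} (h : ↥F → ℤ) : V → ℤ := fun v => if hv : v ∈ F then h ⟨v, hv⟩ else 0

/-- weight of a height function on `F`, `0` outside. -/
noncomputable def WH (G : Gr V E) (F : Finset V) (EF : Finset E) (w : ℤ → ℝ) (h : ↥F → ℤ) : ℝ :=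
  ∏ e ∈ EF, w (ex h (G.s e) - ex h (G.r e))

/-- expectation. -/
noncomputable def Eh (G : Gr V E) (F : Finset V) (EF : Finset E) (w : ℤ → ℝ) (g : (V → ℤ) → ℝ) : ℝ :=
  (∑' h : ↥F → ℤ, WH G F EF w h * g (ex h)) / ∑' h : ↥F → ℤ, WH G F EF w h

/-- `EF` are the edges touching `F`, and every vertex of `F` is connected by `EF` to the outside. -/
structure Bd (G : Gr V E) (F : Finset V) (EF : Finset E) : Prop where
  mem : ∀ e, e ∈ EF ↔ G.s e ∈ F ∨ G.r e ∈ F
  out : ∀ v ∈ F, ∃ u, u ∉ F ∧ G.Conn (EF : Set E) v u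

end heights

/-- good weights. -/
structure WOk (w : ℤ → ℝ) : Prop where
  pos : ∀ n, 0 < w n
  symm : ∀ n, w (-n) = w n
  lc : ∀ n, w (n - 1) * w (n + 1) ≤ w n ^ 2
  summ : ∀ k : ℕ, Summable (fun n : ℤ => |(n : ℝ)| ^ k * w n)

/-- opening probability of an edge for the level `1/2` percolation of `{h ≤ 0}`. -/
noncomputable def qm (w : ℤ → ℝ) (a b : ℤ) : ℝ :=
  if a ≤ 0 ∧ b ≤ 0 then 1 - w (a + b - 1) / w (a - b) else 0

/-- `ω` on `B`, closed elsewhere. -/
def g0 {E : Type} [DecidableEq E] (B : Finset E) (ω : ↥B → Bool) : E → Bool :=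
  fun e => if h : e ∈ B then ω ⟨e, h⟩ else false

/-- average of `φ` over the percolation `ω⁻` on the edges of `B` given the heights. -/
noncomputable def em {V E : Type} [DecidableEq E] (w : ℤ → ℝ) (G : Gr V E) (B : Finset E) (h : V → ℤ)
    (φ : (E → Bool) → ℝ) : ℝ :=
  ∑ ω : ↥B → Bool, (∏ e : ↥B, if ω e then qm w (h (G.s e.1)) (h (G.r e.1))
    else 1 - qm w (h (G.s e.1)) (h (G.r e.1))) * φ (g0 B ω)

/-- average of `φ` over the heights and `ω⁻` on the edges of `B`. -/
noncomputable def PM {V E : Type} [DecidableEq V] [DecidableEq E] (G : Gr V E) (F : Finset V)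
    (EF : Finset E) (w : ℤ → ℝ) (B : Finset E) (φ : (E → Bool) → ℝ) : ℝ :=
  Eh G F EF w (fun h => em w G B h φ)

/-- polynomially bounded functions of the heights on `F`. -/
def PBd {V : Type} [DecidableEq V] (F : Finset V) (g : (V → ℤ) → ℝ) : Prop :=
  ∃ (C : ℝ) (k : ℕ), ∀ h : ↥F → ℤ, |g (ex h)| ≤ C * (1 + ∑ v, |(h v : ℝ)|) ^ k

/-- probabilities of the three states (`0` none, `1` open for `h ≤ 0`, `2` open for `h ≥ 0`). -/
noncomputable def q3 (w : ℤ → ℝ) (a b : ℤ) : Fin 3 → ℝ :=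
  ![1 - qm w a b - qm w (-a) (-b), qm w a b, qm w (-a) (-b)]

/-- expectation in the box `FN n`. -/
noncomputable def En (w : ℤ → ℝ) (n : ℕ) (g : (Vx 2 × Bool → ℤ) → ℝ) : ℝ :=
  Eh HH.gr (FN n) (EN n) w g

/-- height weights of the chained XY model. -/
noncomputable def wk (κ : ℝ) (m : ℤ) : ℝ := bI κ m ^ 6

/-- difference of the heights across an edge. -/
def dh (h : Vx 2 × Bool → ℤ) (e : Vx 2 × Fin 3) : ℤ := h (HH.gr.s e) - h (HH.gr.r e)

/-- exchange of the coordinates. -/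
def swp (z : Vx 2) : Vx 2 := ![z 1, z 0]

/-- reflection in the diagonal, on vertices and edges of `HH`. -/
def sV1 (v : Vx 2 × Bool) : Vx 2 × Bool := (swp v.1, !v.2)
def sE1 (e : Vx 2 × Fin 3) : Vx 2 × Fin 3 := (swp e.1, ![1, 0, 2] e.2)

/-- reflection in the antidiagonal. -/
def sV2 (v : Vx 2 × Bool) : Vx 2 × Bool := (-swp v.1 - 1, v.2)
def sE2 (e : Vx 2 × Fin 3) : Vx 2 × Fin 3 :=
  (-swp e.1 - ![Pi.single 1 1, Pi.single 0 1, 1] e.2, ![1, 0, 2] e.2)

/-- exchange of the two percolations. -/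
def fl3 : Fin 3 → Fin 3 := ![0, 2, 1]

/-- the sides of the box `FN N`. -/
def Lf (N : ℕ) : Set (Vx 2 × Bool) := {v | v ∈ FN N ∧ v.2 = true ∧ v.1 0 = -(N : ℤ)}
def Rt (N : ℕ) : Set (Vx 2 × Bool) := {v | v ∈ FN N ∧ v.2 = false ∧ v.1 0 = (N : ℤ) - 1}
def Tp (N : ℕ) : Set (Vx 2 × Bool) := {v | v ∈ FN N ∧ v.2 = true ∧ v.1 1 = (N : ℤ) - 1}
def Bt (N : ℕ) : Set (Vx 2 × Bool) := {v | v ∈ FN N ∧ v.2 = false ∧ v.1 1 = -(N : ℤ)}

/-- edges inside the box `FN N`. -/
def inN (N : ℕ) : Set (Vx 2 × Fin 3) := HH.gr.ins (FN N : Set (Vx 2 × Bool))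

/-- left-right and top-bottom crossings. -/
def LRc (N : ℕ) (S : Set (Vx 2 × Fin 3)) : Prop :=
  ∃ u ∈ Lf N, ∃ v ∈ Rt N, HH.gr.Conn (S ∩ inN N) u v
def TBc (N : ℕ) (S : Set (Vx 2 × Fin 3)) : Prop :=
  ∃ u ∈ Tp N, ∃ v ∈ Bt N, HH.gr.Conn (S ∩ inN N) u v

end H82.BX
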