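import Pool.Agent.H82.BX.CLT
import Pool.Agent.H82.BX.PG5
import Pool.Agent.H82.BX.PG6

/-!
# LRC: from uniform one arm bounds to uniform two point bounds

By contradiction: there are `x` and `L_i → ∞`, `K_i ≥ 1` with `P_i(0 ↔ prT x) < c²/2`.  Take `ν` from `clt`.
* `ν(0 ↔ {nm ≥ k} inside Λ_{k+1}) ≥ c` for every `k` (a cylinder event of `Q2.gr`): on the torus, for `L` large, `armT k 0 o` implies the lifted local event for `o ∘ prE` (follow the path until the first vertex with `td = k`; before that it stays in the window where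
  `prT` is injective and `td = nm`).  Hence `ν(cluster of 0 infinite) ≥ c` (decreasing limit), same for the cluster of `x` (`TIP`).
* FKG for the decreasing limits of increasing cylinder events: `ν(cl 0 infinite, cl x infinite) ≥ c²`.
* `bk_unique` (`Q2_ok`): `ν(0 ↔ x) ≥ c²`; `{0 ↔ x}` is the increasing union of the cylinder events `{0 ↔ x in Λ_m}` (`conn_pg`): some `m` has `ν(0 ↔ x in Λ_m) > c²/2`.
* on the torus `o ∘ prE ∈ {0 ↔ x in Λ_m}` implies `0 ↔ prT x` (project the path); contradiction with the convergence.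
-/

set_option autoImplicit false

open Finset MeasureTheory Filter Topology

namespace H82.BX

open H82.IC XYB

theorem LRC_mono {V E : Type} [Fintype V] [DecidableEq V] [Fintype E] [DecidableEq E] (G : Gr V E)
    (b l : ℝ) (hb : 0 < b) (K : ℕ) (hK : 0 < K) (f g : (E → Bool) → ℝ) (h : ∀ o, f o ≤ g o) :
    EW G (clk K 0) b l (fun _ o => f o) ≤ EW G (clk K 0) b l (fun _ o => g o) := by
  unfold EW
  apply div_le_div_of_nonneg_right _ (W0_pos G b l hb K hK).le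
  refine Finset.sum_le_sum fun c _ => Finset.sum_le_sum fun o _ => ?_
  exact mul_le_mul_of_nonneg_left (h o) (W0_nonneg G b l hb K hK c o)

theorem LRC_ind_le {p q : Prop} (h : p → q) : ind p ≤ ind q := by
  unfold ind
  by_cases hp : p
  · simp [hp, h hp]
  · by_cases hq : q <;> simp [hp, hq]

/-- stop a path at the first vertex of level `m`. -/
theorem LRC_exit {V E : Type*} (G : Gr V E) (d : V → ℕ)
    (hd : ∀ e, d (G.r e) ≤ d (G.s e) + 1 ∧ d (G.s e) ≤ d (G.r e) + 1)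
    (ω : Set E) (m : ℕ) (u w : V) (hu : d u ≤ m) (hw : m ≤ d w) (h : G.Conn ω u w) :
    ∃ s, d s = m ∧ G.Conn (ω ∩ {e | d (G.s e) ≤ m ∧ d (G.r e) ≤ m}) u s := by
  have key : (∃ s, d s = m ∧ G.Conn (ω ∩ {e | d (G.s e) ≤ m ∧ d (G.r e) ≤ m}) u s) ∨
      (d w < m ∧ G.Conn (ω ∩ {e | d (G.s e) ≤ m ∧ d (G.r e) ≤ m}) u w) := by
    clear hw
    induction h with
    | refl =>
      rcases Nat.lt_or_ge (d u) m with h | h
      · exact Or.inr ⟨h, conn_refl _ _ _⟩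
      · exact Or.inl ⟨u, le_antisymm hu h, conn_refl _ _ _⟩
    | @tail y z _ hadj ih =>
      rcases ih with ih | ⟨h1, h2⟩
      · exact Or.inl ih
      · obtain ⟨e, he, hor⟩ := hadj
        have hstep : d z ≤ m ∧ G.Conn (ω ∩ {e | d (G.s e) ≤ m ∧ d (G.r e) ≤ m}) u z := by
          rcases hor with ⟨ha, hb⟩ | ⟨ha, hb⟩
          · have hz : d z ≤ m := by
              have := (hd e).1
              rw [ha, hb] at this
              omega
            refine ⟨hz, Relation.ReflTransGen.tail h2 ⟨e, ⟨he, ?_, ?_⟩, Or.inl ⟨ha, hb⟩⟩⟩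
            · rw [ha]; exact h1.le
            · rw [hb]; exact hz
          · have hz : d z ≤ m := by
              have := (hd e).2
              rw [ha, hb] at this
              omega
            refine ⟨hz, Relation.ReflTransGen.tail h2 ⟨e, ⟨he, ?_, ?_⟩, Or.inr ⟨ha, hb⟩⟩⟩
            · rw [ha]; exact hz
            · rw [hb]; exact h1.le
        rcases Nat.lt_or_ge (d z) m with h | h
        · exact Or.inr ⟨h, hstep.2⟩
        · exact Or.inl ⟨z, le_antisymm hstep.1 h, hstep.2⟩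
  rcases key with h' | ⟨h', _⟩
  · exact h'
  · omega

/-! ## lifting -/

def LRC_lf {L : ℕ} (u : Fin 2 → ZMod L) : Vx 2 := fun i => (u i).valMinAbs

theorem LRC_nm_lf {L : ℕ} (u : Fin 2 → ZMod L) : nm (LRC_lf u) = td u := rfl

theorem LRC_prT_lf {L : ℕ} (u : Fin 2 → ZMod L) : prT L (LRC_lf u) = u := by
  funext i
  exact ZMod.coe_valMinAbs (u i)

theorem LRC_lf_zero {L : ℕ} : LRC_lf (0 : Fin 2 → ZMod L) = 0 := by
  funext i
  exact ZMod.valMinAbs_zero L

theorem LRC_td_coord {L : ℕ} (u : Fin 2 → ZMod L) (i : Fin 2) : (u i).valMinAbs.natAbs ≤ td u := by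
  unfold td
  exact Finset.le_sup (f := fun i => (u i).valMinAbs.natAbs) (mem_univ i)

theorem LRC_lf_step {L : ℕ} [NeZero L] {m : ℕ} (hL : 2 * m + 2 ≤ L) (u : Fin 2 → ZMod L)
    (hu : td u ≤ m) (i : Fin 2) : LRC_lf (u + Pi.single i 1) = LRC_lf u + Pi.single i 1 := by
  funext j
  by_cases hj : j = i
  · subst hj
    change ((u + Pi.single j 1 : Fin 2 → ZMod L) j).valMinAbs = (u j).valMinAbs + (Pi.single j 1 : Vx 2) j
    rw [Pi.add_apply, Pi.single_eq_same, Pi.single_eq_same, ZMod.valMinAbs_spec]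
    have h1 := LRC_td_coord u j
    refine ⟨?_, ?_, ?_⟩
    · simp
    · have : ((u j).valMinAbs).natAbs ≤ m := h1.trans hu
      omega
    · have : ((u j).valMinAbs).natAbs ≤ m := h1.trans hu
      omega
  · change ((u + Pi.single i 1 : Fin 2 → ZMod L) j).valMinAbs = (u j).valMinAbs + (Pi.single i 1 : Vx 2) j
    rw [Pi.add_apply, Pi.single_eq_of_ne hj, Pi.single_eq_of_ne hj, add_zero, add_zero]

theorem LRC_q2s (e : Vx 2 × Fin 2) : Q2.gr.s e = (e.1, ()) := by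
  change (e.1 + 0, ()) = (e.1, ())
  rw [add_zero]

theorem LRC_q2r (e : Vx 2 × Fin 2) : Q2.gr.r e = (e.1 + Pi.single e.2 1, ()) := rfl

theorem LRC_lift {L : ℕ} [NeZero L] {m : ℕ} (hL : 2 * m + 2 ≤ L)
    (o : (Fin 2 → ZMod L) × Fin 2 → Bool) (u : Fin 2 → ZMod L)
    (h : (TD L).Conn (op1 o ∩ {e | td ((TD L).s e) ≤ m ∧ td ((TD L).r e) ≤ m}) 0 u) :
    Q2.gr.Conn (op1 (fun e => o (prE L e))) ((0 : Vx 2), ()) (LRC_lf u, ()) := by
  induction h with
  | refl => rw [LRC_lf_zero]; exact conn_refl _ _ _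
  | @tail y z _ hadj ih =>
    obtain ⟨⟨a, i⟩, ⟨he, hs, hr⟩, hor⟩ := hadj
    change td a ≤ m at hs
    have hstep := LRC_lf_step hL a hs i
    have hopen : ((LRC_lf a, i) : Vx 2 × Fin 2) ∈ op1 (fun e => o (prE L e)) := by
      change o (prT L (LRC_lf a), i) = true
      rw [LRC_prT_lf]
      exact he
    have hedge : Q2.gr.Conn (op1 (fun e => o (prE L e))) ((LRC_lf a, ()) : Vx 2 × Unit)
        (LRC_lf (a + Pi.single i 1), ()) := by
      refine PG6_edge Q2.gr _ hopen ?_ ?_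
      · exact LRC_q2s _
      · rw [LRC_q2r, hstep]
    rcases hor with ⟨ha, hb⟩ | ⟨ha, hb⟩
    · change a = y at ha
      change a + Pi.single i 1 = z at hb
      rw [← hb]
      rw [← ha] at ih
      exact conn_trans _ ih hedge
    · change a = z at ha
      change a + Pi.single i 1 = y at hb
      rw [← ha]
      rw [← hb] at ih
      exact conn_trans _ ih (conn_symm _ hedge)

/-- projection of paths. -/
theorem LRC_proj {L : ℕ} (o : (Fin 2 → ZMod L) × Fin 2 → Bool) (n : ℕ) (x : Vx 2)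
    (h : Q2.gr.Conn (op1 (fun e => o (prE L e)) ∩ pbE Q2 n) ((0 : Vx 2), ()) (x, ())) :
    (TD L).Conn (op1 o) 0 (prT L x) := by
  have key : ∀ z : Vx 2 × Unit,
      Q2.gr.Conn (op1 (fun e => o (prE L e)) ∩ pbE Q2 n) ((0 : Vx 2), ()) z →
      (TD L).Conn (op1 o) 0 (prT L z.1) := by
    intro z hz
    induction hz with
    | refl =>
      have : prT L (0 : Vx 2) = 0 := by
        funext i
        simp [prT]
      change (TD L).Conn (op1 o) 0 (prT L (0 : Vx 2))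
      rw [this]
      exact conn_refl _ _ _
    | @tail y z _ hadj ih =>
      obtain ⟨e, ⟨he, _⟩, hor⟩ := hadj
      have hopen : prE L e ∈ op1 o := he
      have hr : prT L (e.1 + Pi.single e.2 1) = prT L e.1 + Pi.single e.2 1 := by
        funext j
        by_cases hj : j = e.2
        · subst hj
          simp [prT]
        · simp [prT, Pi.single_eq_of_ne hj]
      have hedge : (TD L).Conn (op1 o) (prT L e.1) (prT L (e.1 + Pi.single e.2 1)) := by
        refine PG6_edge (TD L) _ hopen rfl ?_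
        rw [hr]; rfl
      rw [LRC_q2s, LRC_q2r] at hor
      rcases hor with ⟨ha, hb⟩ | ⟨ha, hb⟩
      · rw [← hb]
        rw [← ha] at ih
        exact conn_trans _ ih hedge
      · rw [← ha]
        rw [← hb] at ih
        exact conn_trans _ ih (conn_symm _ hedge)
  exact key (x, ()) h

/-! ## events -/

/-- the cluster of `0` reaches level `m`. -/
def LRC_J (m : ℕ) : Set (Vx 2 × Fin 2 → Bool) :=
  {ω | ∃ v : Vx 2 × Unit, m ≤ nm v.1 ∧ Q2.gr.Conn (op1 ω) ((0 : Vx 2), ()) v}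

theorem LRC_nmstep (e : Vx 2 × Fin 2) :
    nm (Q2.gr.r e).1 ≤ nm (Q2.gr.s e).1 + 1 ∧ nm (Q2.gr.s e).1 ≤ nm (Q2.gr.r e).1 + 1 := by
  rw [LRC_q2s, LRC_q2r]
  constructor
  · exact (nm_add _ _).trans (Nat.add_le_add_left (G1_single e.2) _)
  · have h : e.1 = (e.1 + Pi.single e.2 1) - Pi.single e.2 1 := by rw [add_sub_cancel_right]
    calc nm e.1 = nm ((e.1 + Pi.single e.2 1) - Pi.single e.2 1) := by rw [← h]
      _ ≤ nm (e.1 + Pi.single e.2 1) + nm (Pi.single e.2 1 : Vx 2) := nm_sub _ _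
      _ ≤ _ := Nat.add_le_add_left (G1_single e.2) _

theorem LRC_J_iff (m : ℕ) (ω : Vx 2 × Fin 2 → Bool) : ω ∈ LRC_J m ↔
    ∃ v : Vx 2 × Unit, m ≤ nm v.1 ∧ Q2.gr.Conn (op1 ω ∩ pbE Q2 m) ((0 : Vx 2), ()) v := by
  constructor
  · rintro ⟨v, hv, hc⟩
    obtain ⟨s, hs, hcs⟩ := LRC_exit Q2.gr (fun z => nm z.1) LRC_nmstep (op1 ω) m _ v
      (by change nm (0 : Vx 2) ≤ m; rw [nm_zero]; exact Nat.zero_le m) hv hc
    refine ⟨s, hs.ge, conn_mono Q2.gr ?_ hcs⟩
    rintro e ⟨h1, h2⟩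
    refine ⟨h1, ?_⟩
    rw [Finset.mem_coe, mem_pbE Q2 Q2_ok]
    exact h2
  · rintro ⟨v, hv, hc⟩
    exact ⟨v, hv, conn_mono Q2.gr Set.inter_subset_left hc⟩

theorem LRC_congr {n : ℕ} {ω ω' : Vx 2 × Fin 2 → Bool} (h : ∀ e ∈ pbE Q2 n, ω e = ω' e) :
    op1 ω ∩ (pbE Q2 n : Set (Vx 2 × Fin 2)) = op1 ω' ∩ (pbE Q2 n : Set (Vx 2 × Fin 2)) := by
  ext e
  constructor
  · rintro ⟨h1, h2⟩
    refine ⟨?_, h2⟩
    change ω' e = true
    rw [← h e h2]; exact h1
  · rintro ⟨h1, h2⟩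
    refine ⟨?_, h2⟩
    change ω e = true
    rw [h e h2]; exact h1

theorem LRC_J_lc (m : ℕ) : Lc (LRC_J m) := by
  refine ⟨pbE Q2 m, fun ω ω' h => ?_⟩
  rw [LRC_J_iff, LRC_J_iff, LRC_congr h]

theorem LRC_J_inc (m : ℕ) : Inc1 (LRC_J m) := by
  rintro ω ω' h ⟨v, hv, hc⟩
  exact ⟨v, hv, conn_mono Q2.gr (fun e he => h e he) hc⟩

theorem LRC_J_anti : Antitone LRC_J := by
  rintro m n hmn ω ⟨v, hv, hc⟩
  exact ⟨v, hmn.trans hv, hc⟩

theorem LRC_J_inf (ω : Vx 2 × Fin 2 → Bool) (h : ∀ m, ω ∈ LRC_J m) :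
    (Q2.gr.cl (op1 ω) ((0 : Vx 2), ())).Infinite := by
  rw [inf_pg]
  intro n
  obtain ⟨v, hv, hc⟩ := h n
  exact ⟨v, hv, hc⟩

/-- the event `0 ↔ x` inside the box. -/
def LRC_C (x : Vx 2) (n : ℕ) : Set (Vx 2 × Fin 2 → Bool) :=
  {ω | Q2.gr.Conn (op1 ω ∩ pbE Q2 n) ((0 : Vx 2), ()) (x, ())}

theorem LRC_C_lc (x : Vx 2) (n : ℕ) : Lc (LRC_C x n) := by
  refine ⟨pbE Q2 n, fun ω ω' h => ?_⟩
  change Q2.gr.Conn _ _ _ ↔ Q2.gr.Conn _ _ _
  rw [LRC_congr h]

theorem LRC_C_mono (x : Vx 2) : Monotone (LRC_C x) := by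
  intro m n hmn ω h
  refine conn_mono Q2.gr ?_ h
  rintro e ⟨h1, h2⟩
  exact ⟨h1, Finset.coe_subset.2 (pbE_mono Q2 Q2_ok hmn) h2⟩

/-- decreasing limit. -/
theorem LRC_dec (ν : Measure (Vx 2 × Fin 2 → Bool)) [IsProbabilityMeasure ν]
    (A : ℕ → Set (Vx 2 × Fin 2 → Bool)) (hA : Antitone A) (hm : ∀ m, MeasurableSet (A m)) (c : ℝ)
    (h : ∀ m, c ≤ ν.real (A m)) : c ≤ ν.real (⋂ m, A m) := by
  have h1 := tendsto_measure_iInter_atTop (μ := ν) (s := A) (fun m => (hm m).nullMeasurableSet) hA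
    ⟨0, measure_ne_top _ _⟩
  have h2 : Tendsto (fun m => ν.real (A m)) atTop (𝓝 (ν.real (⋂ m, A m))) :=
    (ENNReal.tendsto_toReal (measure_ne_top _ _)).comp h1
  exact ge_of_tendsto' h2 h

theorem LRC_arm {L : ℕ} [NeZero L] {m : ℕ} (hL : 2 * m + 2 ≤ L)
    (o : (Fin 2 → ZMod L) × Fin 2 → Bool) (h : armT m 0 o) : (fun e => o (prE L e)) ∈ LRC_J m := by
  obtain ⟨u, hu, hc⟩ := h
  rw [sub_zero] at hu
  obtain ⟨s, hs, hcs⟩ := LRC_exit (TD L) td
    (fun e => by simpa using td_edge (L := L) 0 e) (op1 o) m 0 u (by rw [td_zero]; exact Nat.zero_le m) hu hc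
  exact ⟨(LRC_lf s, ()), (LRC_nm_lf s).trans hs |>.ge, LRC_lift hL o s hcs⟩

theorem lrc (b l c : ℝ) (hb : 0 < b) (hl : 0 ≤ l) (hc : 0 < c)
    (hp : ∀ n : ℕ, ∃ L0 : ℕ, ∀ L : ℕ, L0 ≤ L → ∀ [NeZero L] (K : ℕ), 0 < K → c ≤ fT L (clk K 0) b n l)
    (x : Vx 2) : ∃ L0 : ℕ, ∀ L : ℕ, L0 ≤ L → ∀ [NeZero L] (K : ℕ), 0 < K →
      c ^ 2 / 2 ≤ EW (TD L) (clk K 0) b l (fun _ o => ind ((TD L).Conn (op1 o) 0 (prT L x))) := by
  by_contra hcon
  push Not at hcon
  choose L hLi hL0 K hK0 hlt using hcon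
  have hLt : Tendsto L atTop atTop := tendsto_atTop_mono hLi tendsto_id
  obtain ⟨ν, hν, hT, hI, hF, hlim⟩ := clt b l hb hl L K hL0 hLt hK0
  have hle : (hyperfilter ℕ : Filter ℕ) ≤ atTop := Nat.hyperfilter_le_atTop
  -- one arm
  have hJ : ∀ m, c ≤ ν.real (LRC_J m) := by
    intro m
    obtain ⟨L1, hL1⟩ := hp m
    refine ge_of_tendsto (hlim _ (LRC_J_lc m)) (hle ?_)
    filter_upwards [hLt.eventually_ge_atTop (max L1 (2 * m + 2))] with i hi
    have := hL0 i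
    refine (hL1 (L i) ((le_max_left _ _).trans hi) (K i) (hK0 i)).trans ?_
    unfold fT
    exact LRC_mono (TD (L i)) b l hb (K i) (hK0 i) _ _ fun o =>
      LRC_ind_le (LRC_arm ((le_max_right _ _).trans hi) o)
  -- the same around `x`
  have hJm : ∀ m, MeasurableSet (LRC_J m) := fun m => lc_meas (LRC_J_lc m)
  have hJx : ∀ m, c ≤ ν.real {ω | shP x ω ∈ LRC_J m} := by
    intro m
    rw [hT x _ (hJm m)]
    exact hJ m
  have hboth : ∀ m, c ^ 2 ≤ ν.real (LRC_J m ∩ {ω | shP x ω ∈ LRC_J m}) := by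
    intro m
    have h1 := hF (LRC_J m) {ω | shP x ω ∈ LRC_J m} (LRC_J_lc m) (shP_lc x (LRC_J_lc m))
      (LRC_J_inc m) (fun ω ω' h hω => LRC_J_inc m _ _ (fun e he => h _ he) hω)
    have h2 : c * c ≤ ν.real (LRC_J m) * ν.real {ω | shP x ω ∈ LRC_J m} :=
      mul_le_mul (hJ m) (hJx m) hc.le (hc.le.trans (hJ m))
    nlinarith
  have hboth' : c ^ 2 ≤ ν.real (⋂ m, LRC_J m ∩ {ω | shP x ω ∈ LRC_J m}) := by
    refine LRC_dec ν _ ?_ ?_ _ hboth
    · intro m n hmn ω hω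
      exact ⟨LRC_J_anti hmn hω.1, LRC_J_anti hmn hω.2⟩
    · intro m
      exact (hJm m).inter (lc_meas (shP_lc x (LRC_J_lc m)))
  -- uniqueness
  have huniq := bk_unique Q2 Q2_ok ν hT hI
  have hconn : c ^ 2 ≤ ν.real {ω : Vx 2 × Fin 2 → Bool | Q2.gr.Conn (op1 ω) ((0 : Vx 2), ()) (x, ())} := by
    refine hboth'.trans ?_
    rw [measureReal_def, measureReal_def]
    apply ENNReal.toReal_mono (measure_ne_top _ _)
    apply measure_mono_ae
    filter_upwards [huniq] with ω hω hmem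
    have h1 : ∀ m, ω ∈ LRC_J m ∩ {ω | shP x ω ∈ LRC_J m} := Set.mem_iInter.1 hmem
    apply hω
    · exact LRC_J_inf ω fun m => (h1 m).1
    · have h2 := LRC_J_inf (shP x ω) fun m => (h1 m).2
      rw [pg5_inf_sh Q2 (conn_sh Q2)] at h2
      simpa using h2
  -- inside a box
  have hU : {ω : Vx 2 × Fin 2 → Bool | Q2.gr.Conn (op1 ω) ((0 : Vx 2), ()) (x, ())} = ⋃ n, LRC_C x n := by
    ext ω
    rw [Set.mem_iUnion]
    constructor
    · intro h
      exact conn_pg Q2 Q2_ok h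
    · rintro ⟨n, h⟩
      exact conn_mono Q2.gr Set.inter_subset_left h
  rw [hU] at hconn
  have hlimC : Tendsto (fun n => ν.real (LRC_C x n)) atTop (𝓝 (ν.real (⋃ n, LRC_C x n))) :=
    (ENNReal.tendsto_toReal (measure_ne_top _ _)).comp
      (tendsto_measure_iUnion_atTop (μ := ν) (LRC_C_mono x))
  have hall : ∀ n, ν.real (LRC_C x n) ≤ c ^ 2 / 2 := by
    intro n
    refine le_of_tendsto (hlim _ (LRC_C_lc x n)) (hle ?_)
    refine Filter.Eventually.of_forall fun i => ?_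
    have := hL0 i
    refine le_trans ?_ (hlt i).le
    exact LRC_mono (TD (L i)) b l hb (K i) (hK0 i) _ _ fun o =>
      LRC_ind_le (LRC_proj o n x)
  have hfin : ν.real (⋃ n, LRC_C x n) ≤ c ^ 2 / 2 := le_of_tendsto' hlimC hall
  have : 0 < c ^ 2 := by positivity
  linarith

end H82.BX
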