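import Pool.Agent.H2.XY.REA

/-!
# LROF: lower bounds on the correlations give long-range order (from H2/XY/FIN2)
-/

open MeasureTheory Set Filter

noncomputable section

namespace H82.BX

open XYB

lemma corr_le_one (L : ℕ) [NeZero L] (h T : ℝ) (hh : 0 < h) (hT : 0 < T) (x : ℤ × ℤ) :
    corr L h T x ≤ 1 := by
  rw [rea L h T hh hT x, gE_eq]
  have hcont : Continuous (hTor L (1 / T) (1 / (4 * h * T))) := by
    unfold hTor ph
    have := continuous_cosC
    fun_prop
  have := isProb_gM _ hcont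
  have hF : ∀ θ : Bool → ZMod L × ZMod L → Cir,
      cosC (ph θ 0) * cosC (ph θ ((x.1 : ZMod L), (x.2 : ZMod L))) ≤ 1 := by
    intro θ
    have h1 := abs_cosC_le_one (ph θ 0)
    have h2 := abs_cosC_le_one (ph θ ((x.1 : ZMod L), (x.2 : ZMod L)))
    calc _ ≤ |cosC (ph θ 0) * cosC (ph θ ((x.1 : ZMod L), (x.2 : ZMod L)))| := le_abs_self _
      _ = |cosC (ph θ 0)| * |cosC (ph θ ((x.1 : ZMod L), (x.2 : ZMod L)))| := abs_mul _ _
      _ ≤ 1 * 1 := by gcongr
      _ = 1 := by norm_num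
  have hFc : Continuous fun θ : Bool → ZMod L × ZMod L → Cir =>
      cosC (ph θ 0) * cosC (ph θ ((x.1 : ZMod L), (x.2 : ZMod L))) := by
    unfold ph
    have := continuous_cosC
    fun_prop
  calc _ ≤ ∫ θ : Bool → ZMod L × ZMod L → Cir, (1 : ℝ)
        ∂gM (hTor L (1 / T) (1 / (4 * h * T))) := by
        refine integral_mono ?_ (integrable_const 1) hF
        exact hFc.integrable_of_hasCompactSupport (HasCompactSupport.of_compactSpace _)
    _ = 1 := by rw [integral_const]; simp only [smul_eq_mul, mul_one]; exact probReal_univ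

theorem LRO_of_lower (m h T : ℝ) (hm : 0 < m) (hh : 0 < h) (hT : 0 < T)
    (hx : ∀ x : ℤ × ℤ, ∃ L₀ : ℕ, ∀ L : ℕ, L₀ ≤ L → ∀ [NeZero L], m ≤ corr L h T x) :
    m ≤ liminf (fun x : ℤ × ℤ => liminf (fun L : ℕ => corr (L + 1) h T x) atTop) cofinite := by
  have hin : ∀ x : ℤ × ℤ, ∀ᶠ L : ℕ in atTop, m ≤ corr (L + 1) h T x := by
    intro x
    obtain ⟨L₀, hL⟩ := hx x
    filter_upwards [eventually_ge_atTop L₀] with L hLL
    exact hL (L + 1) (by omega)
  have hb : ∀ x : ℤ × ℤ, ∀ᶠ L : ℕ in atTop, corr (L + 1) h T x ≤ 1 := fun x =>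
    Eventually.of_forall fun L => corr_le_one (L + 1) h T hh hT x
  have h1 : ∀ x : ℤ × ℤ, m ≤ liminf (fun L : ℕ => corr (L + 1) h T x) atTop := by
    intro x
    refine le_liminf_of_le ?_ (hin x)
    exact (IsBoundedUnder.isCoboundedUnder_ge ⟨1, by simpa using hb x⟩)
  have h2 : ∀ x : ℤ × ℤ, liminf (fun L : ℕ => corr (L + 1) h T x) atTop ≤ 1 := by
    intro x
    refine liminf_le_of_le ⟨m, by simpa using hin x⟩ ?_
    intro b hb'
    obtain ⟨L, hL⟩ := (hb'.and (hb x)).exists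
    linarith
  refine le_liminf_of_le ?_ (Eventually.of_forall h1)
  refine IsBoundedUnder.isCoboundedUnder_ge ⟨1, ?_⟩
  rw [eventually_map]
  exact Eventually.of_forall h2


end H82.BX
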