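import Pool.Agent.H82.BX.DCH
import Pool.Agent.H82.BX.LRC
import Pool.Agent.H82.BX.A1
import Pool.Agent.H82.BX.LROF

/-!
# FIA: long-range order from the absence of exponential decay

`T < 1/(2κ)`, `b = 1/T ≥ 2 κ`, `l = 1/(6hT) > 0`.  `dch`, `lrc`: for every `x` there is `L0` with `P(0 ↔ x) ≥ c²/2` for all `L ≥ L0`, `K ≥ 1`; `low0` and `rie` (`24 K → ∞`, `hS`, `cos cos` continuous):
`gE (hS ..) (cos cos) ≥ (e^{-8b-l}/5)² c²/2`; `a1`: `corr L h T x ≥ m`; `LRO_of_lower`.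
-/

set_option autoImplicit false

open Finset MeasureTheory Filter Topology

namespace H82.BX

open H82.IC XYB

theorem fia_cont {V E : Type} [Fintype V] [DecidableEq V] [Fintype E] [DecidableEq E] (G : Gr V E)
    (b l : ℝ) : Continuous (hS G b l) := by
  unfold hS hG
  have := continuous_cosC
  fun_prop

theorem fia_lim (L : ℕ) [NeZero L] (b l : ℝ) (m : ℝ) (u v : Fin 2 → ZMod L)
    (h : ∀ K : ℕ, 0 < K → m ≤ clE (24 * K) (hS (TD L) b l)
      (fun θ => cosC (θ (Sum.inl u)) * cosC (θ (Sum.inl v)))) :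
    m ≤ gE (hS (TD L) b l) (fun θ => cosC (θ (Sum.inl u)) * cosC (θ (Sum.inl v))) := by
  have hF : Continuous (fun θ : SV (Fin 2 → ZMod L) ((Fin 2 → ZMod L) × Fin 2) → Cir =>
      cosC (θ (Sum.inl u)) * cosC (θ (Sum.inl v))) := by
    have := continuous_cosC
    fun_prop
  have h1 := rie (hS (TD L) b l) _ (fia_cont (TD L) b l) hF
  have h24 : Tendsto (fun K : ℕ => 24 * K) atTop atTop := tendsto_id.const_mul_atTop' (by norm_num)
  refine ge_of_tendsto (h1.comp h24) ?_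
  filter_upwards [eventually_gt_atTop 0] with K hK
  exact h K hK

theorem fia (κ : ℝ) (hκ0 : 0 < κ) (hκ : noED κ) (h T : ℝ) (hh : 0 < h) (hT : 0 < T)
    (hT1 : T ≤ 1 / (2 * κ)) : LRO h T := by
  have hb : 0 < 1 / T := by positivity
  have hl : 0 < 1 / (6 * h * T) := by positivity
  have hbκ : 2 * κ ≤ 1 / T := by
    rw [le_div_iff₀ hT]
    rw [le_div_iff₀ (by positivity)] at hT1
    linarith
  obtain ⟨c, hc, hp⟩ := dch κ (1 / T) (1 / (6 * h * T)) hκ0 hκ hbκ hl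
  have hm : 0 < (Real.exp (-(8 * (1 / T) + 1 / (6 * h * T))) / 5) ^ 2 * (c ^ 2 / 2) := by positivity
  refine lt_of_lt_of_le hm (LRO_of_lower _ h T hm hh hT ?_)
  intro x
  obtain ⟨L0, hL0⟩ := lrc (1 / T) (1 / (6 * h * T)) c hb hl.le hc hp ![x.1, x.2]
  refine ⟨L0, fun L hL _ => ?_⟩
  refine le_trans ?_ (a1 L h T hh hT x)
  apply fia_lim
  intro K hK
  have h1 := hL0 L hL K hK
  have h2 := low0 (TD L) deg4_TD (1 / T) (1 / (6 * h * T)) hb hl.le K hK 0 (prT L ![x.1, x.2])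
  have h3 : prT L ![x.1, x.2] = toT L x := by
    funext i
    fin_cases i <;> simp [prT, toT]
  rw [h3] at h1 h2
  refine le_trans ?_ h2
  gcongr

end H82.BX
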