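import Pool.Agent.H82.BX.POI
import Pool.Agent.H82.IC.BD

/-!
# PLA: two edge-disjoint crossings of a box of the hexagonal lattice are impossible

Write `L(x,y) = ((x,y), false)`, `U(x,y) = ((x,y), true)`; edges `(x,y;0) = {L(x,y), U(x,y-1)}`, `(x,y;1) = {L(x-1,y), U(x,y)}`, `(x,y;2) = {U(x,y), L(x,y)}`.
From the two connections get finite edge sets `P ⊆ S1 ∩ inN N`, `Q ⊆ S2 ∩ inN N` whose degrees are odd exactly at `u ∈ Lf`, `v ∈ Rt` resp. at `u' ∈ Tp`, `v' ∈ Bt` (edge set of a path mod 2).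
(1) No vertex of `FN N` touches both `P` and `Q`: `x` has three edges, an end point of `P` (`U(-N,b)` or `L(N-1,b)`) has at most two edges in `inN N`, a vertex which is an end point of `P` and of `Q` (`U(-N,N-1)`, `L(N-1,-N)`) at most one (`N ≥ 1`);
and a vertex touched by `P` which is not an end point has even degree `≥ 2`; `P ∩ Q = ∅`.
(2) `P̂ = P ∪ {(-N,b;1), (N,b';1)}` if `u = U(-N,b)`, `v = L(N-1,b')`: all degrees at vertices of `FN N` are even.
For `(x,y)` with `-N ≤ x ≤ N` let `φ(x,y) = #{y' ≥ y : (x,y';1) ∈ P̂} mod 2`.  Then `φ(x,y) + φ(x,y+1) = 1[(x,y;1) ∈ P̂]`, and for `-N ≤ x < N`: `φ(x,y) + φ(x+1,y) = 1[(x,y;0) ∈ P̂]`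
(sum of the degrees over `L(x,y'), U(x,y')`, `y' ≥ y`), `φ(x,y) + φ(x+1,y+1) = 1[(x,y;2) ∈ P̂]`.
(3) For `w ∈ FN N` not touched by `P̂` the values of `φ` at the three corners of the triangle `w` agree; call it `f(w)`; `f(w) = f(w')` for neighbours `w, w'` not touched by `P̂` (common corners).  Follow `Q` from `u' = U(a,N-1)` to `v' = L(a',-N)` (all vertices of `Q` are not
touched by `P̂`): `f(u') = φ(a, N) = 0`.  `f(v') = φ(a', -N) = 1`: `φ(-N,-N) = 1` (only the edge `(-N,b;1)`), and `φ(x+1,-N) = φ(x,-N) + 1[(x,-N;0) ∈ P̂] = φ(x,-N)` because `(x,-N;0)` has the end `U(x,-N-1)` outside `FN N`.  Contradiction.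
(`IC/BD.lean` contains lemmas on boundaries of flows mod 2 and connections.)
-/

set_option autoImplicit false

open Finset MeasureTheory Filter Topology

namespace H82.BX

open H82.IC XYB

/-- the three edges at a vertex. -/
noncomputable def PLA_ed (w : Vx 2 × Bool) (i : Fin 3) : Vx 2 × Fin 3 :=
  if w.2 = true then (![(w.1 + Pi.single 1 1, 0), (w.1, 1), (w.1, 2)] : Fin 3 → Vx 2 × Fin 3) i
  else (![(w.1, 0), (w.1 + Pi.single 0 1, 1), (w.1, 2)] : Fin 3 → Vx 2 × Fin 3) i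

/-- degree mod 2. -/
noncomputable def PLA_dg (p : Vx 2 × Fin 3 → ZMod 2) (w : Vx 2 × Bool) : ZMod 2 :=
  p (PLA_ed w 0) + p (PLA_ed w 1) + p (PLA_ed w 2)

/-- one edge. -/
noncomputable def PLA_one (e : Vx 2 × Fin 3) : Vx 2 × Fin 3 → ZMod 2 :=
  fun e' => if e' = e then 1 else 0

theorem PLA_add1 (x y : ℤ) : (![x, y] : Vx 2) + Pi.single 1 1 = ![x, y + 1] := by
  ext i; fin_cases i <;> simp

theorem PLA_add0 (x y : ℤ) : (![x, y] : Vx 2) + Pi.single 0 1 = ![x + 1, y] := by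
  ext i; fin_cases i <;> simp

theorem PLA_sub1 (x y : ℤ) : (![x, y] : Vx 2) - Pi.single 1 1 = ![x, y - 1] := by
  ext i; fin_cases i <;> simp

theorem PLA_sub0 (x y : ℤ) : (![x, y] : Vx 2) - Pi.single 0 1 = ![x - 1, y] := by
  ext i; fin_cases i <;> simp

theorem PLA_eta (z : Vx 2) : (![z 0, z 1] : Vx 2) = z := by
  ext i; fin_cases i <;> rfl

theorem PLA_s0 (z : Vx 2) : HH.gr.s (z, 0) = (z, false) := by
  simp [PG.gr, HH]

theorem PLA_r0 (z : Vx 2) : HH.gr.r (z, 0) = (z - Pi.single 1 1, true) := by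
  simp [PG.gr, HH, sub_eq_add_neg]

theorem PLA_s1 (z : Vx 2) : HH.gr.s (z, 1) = (z - Pi.single 0 1, false) := by
  simp [PG.gr, HH, sub_eq_add_neg]

theorem PLA_r1 (z : Vx 2) : HH.gr.r (z, 1) = (z, true) := by
  simp [PG.gr, HH]

theorem PLA_s2 (z : Vx 2) : HH.gr.s (z, 2) = (z, true) := by
  simp [PG.gr, HH]

theorem PLA_r2 (z : Vx 2) : HH.gr.r (z, 2) = (z, false) := by
  simp [PG.gr, HH]

theorem PLA_dg_one (e : Vx 2 × Fin 3) (w : Vx 2 × Bool) :
    PLA_dg (PLA_one e) w = src (HH.gr.s e) (HH.gr.r e) w := by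
  obtain ⟨z, k⟩ := e
  obtain ⟨t, b⟩ := w
  have h0 : ∀ i : Fin 2, (t + Pi.single i 1 = z) ↔ (t = z - Pi.single i 1) :=
    fun i => eq_sub_iff_add_eq.symm
  have hk : k = 0 ∨ k = 1 ∨ k = 2 := by
    fin_cases k <;> simp
  rcases hk with rfl | rfl | rfl
  · rw [PLA_s0, PLA_r0]
    cases b <;> simp [PLA_dg, PLA_one, PLA_ed, src, h0]
  · rw [PLA_s1, PLA_r1]
    cases b <;> simp [PLA_dg, PLA_one, PLA_ed, src, h0]
  · rw [PLA_s2, PLA_r2]
    cases b <;> simp [PLA_dg, PLA_one, PLA_ed, src]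

theorem PLA_walk {ω : Set (Vx 2 × Fin 3)} {u v : Vx 2 × Bool} (h : HH.gr.Conn ω u v) :
    ∃ (p : Vx 2 × Fin 3 → ZMod 2) (F : Finset (Vx 2 × Fin 3)), (∀ e, p e ≠ 0 → e ∈ ω) ∧
      (∀ e, e ∉ F → p e = 0) ∧ (∀ w, PLA_dg p w = src u v w) ∧
      ∀ f : Vx 2 × Bool → ZMod 2,
        ∑ e ∈ F, p e * (f (HH.gr.s e) + f (HH.gr.r e)) = f u + f v := by
  induction h with
  | refl =>
    refine ⟨0, ∅, fun e he => absurd rfl he, fun e _ => rfl, fun w => ?_, fun f => ?_⟩
    · rw [src_self]; simp [PLA_dg]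
    · rw [Finset.sum_empty]; exact (CharTwo.add_self_eq_zero _).symm
  | @tail b c _ hstep ih =>
    obtain ⟨p, F, h1, h2, h3, h4⟩ := ih
    obtain ⟨e, he, hends⟩ := hstep
    have hsrc : src (HH.gr.s e) (HH.gr.r e) = src b c := by
      rcases hends with ⟨h, h'⟩ | ⟨h, h'⟩
      · rw [h, h']
      · rw [h, h', src_comm]
    have hf : ∀ f : Vx 2 × Bool → ZMod 2, f (HH.gr.s e) + f (HH.gr.r e) = f b + f c := by
      intro f
      rcases hends with ⟨h, h'⟩ | ⟨h, h'⟩
      · rw [h, h']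
      · rw [h, h', add_comm]
    refine ⟨p + PLA_one e, insert e F, ?_, ?_, ?_, ?_⟩
    · intro e' he'
      by_cases hpe : p e' = 0
      · rw [Pi.add_apply, hpe, zero_add] at he'
        have : e' = e := by
          by_contra hne
          exact he' (by simp [PLA_one, hne])
        rw [this]; exact he
      · exact h1 e' hpe
    · intro e' he'
      rw [Finset.mem_insert, not_or] at he'
      rw [Pi.add_apply, h2 e' he'.2, zero_add]
      simp [PLA_one, he'.1]
    · intro w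
      have h5 : PLA_dg (p + PLA_one e) w = PLA_dg p w + PLA_dg (PLA_one e) w := by
        simp only [PLA_dg, Pi.add_apply]; ring
      rw [h5, h3, PLA_dg_one, hsrc, ← Pi.add_apply, src_add]
    · intro f
      have h5 : ∑ e' ∈ insert e F, (p + PLA_one e) e' * (f (HH.gr.s e') + f (HH.gr.r e')) =
          ∑ e' ∈ insert e F, p e' * (f (HH.gr.s e') + f (HH.gr.r e')) +
          ∑ e' ∈ insert e F, PLA_one e e' * (f (HH.gr.s e') + f (HH.gr.r e')) := by
        rw [← Finset.sum_add_distrib]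
        refine Finset.sum_congr rfl fun e' _ => ?_
        rw [Pi.add_apply, add_mul]
      have h6 : ∑ e' ∈ insert e F, p e' * (f (HH.gr.s e') + f (HH.gr.r e')) =
          ∑ e' ∈ F, p e' * (f (HH.gr.s e') + f (HH.gr.r e')) := by
        symm
        refine Finset.sum_subset (Finset.subset_insert _ _) fun e' _ he' => ?_
        rw [h2 e' he', zero_mul]
      have h7 : ∑ e' ∈ insert e F, PLA_one e e' * (f (HH.gr.s e') + f (HH.gr.r e')) =
          f (HH.gr.s e) + f (HH.gr.r e) := by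
        rw [Finset.sum_eq_single e]
        · simp [PLA_one]
        · intro e' _ hne
          simp [PLA_one, hne]
        · intro hne
          exact absurd (Finset.mem_insert_self e F) hne
      rw [h5, h6, h7, h4, hf]
      have h8 : f b + f b = 0 := CharTwo.add_self_eq_zero _
      linear_combination h8

theorem PLA_loc : ∀ p0 p1 p2 q0 q1 q2 : ZMod 2, (p0 ≠ 0 → q0 = 0) → (p1 ≠ 0 → q1 = 0) →
    (p2 ≠ 0 → q2 = 0) → (p0 + p1 + p2 ≠ 0 → p1 = 0 ∧ q1 = 0) →
    (q0 + q1 + q2 ≠ 0 → p0 = 0 ∧ q0 = 0) → (q0 ≠ 0 ∨ q1 ≠ 0 ∨ q2 ≠ 0) →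
    p0 = 0 ∧ p1 = 0 ∧ p2 = 0 := by
  have h01 : ∀ t : ZMod 2, t = 0 ∨ t = 1 := by decide
  intro p0 p1 p2 q0 q1 q2
  rcases h01 p0 with rfl | rfl <;> rcases h01 p1 with rfl | rfl <;>
    rcases h01 p2 with rfl | rfl <;> rcases h01 q0 with rfl | rfl <;>
    rcases h01 q1 with rfl | rfl <;> rcases h01 q2 with rfl | rfl <;> decide

theorem PLA_in0 {N : ℕ} {x y : ℤ} (h : ((![x, y] : Vx 2), (0 : Fin 3)) ∈ inN N) :
    -(N : ℤ) ≤ x ∧ x < N ∧ -(N : ℤ) < y ∧ y < N := by
  obtain ⟨h1, h2⟩ := h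
  rw [PLA_s0, Finset.mem_coe, mem_FN] at h1
  rw [PLA_r0, Finset.mem_coe, mem_FN] at h2
  have a0 := h1 0
  have a1 := h1 1
  have b1 := h2 1
  simp at a0 a1 b1
  refine ⟨a0.1, a0.2, ?_, a1.2⟩
  linarith [b1.1]

theorem PLA_in1 {N : ℕ} {x y : ℤ} (h : ((![x, y] : Vx 2), (1 : Fin 3)) ∈ inN N) :
    -(N : ℤ) < x ∧ x < N ∧ -(N : ℤ) ≤ y ∧ y < N := by
  obtain ⟨h1, h2⟩ := h
  rw [PLA_s1, Finset.mem_coe, mem_FN] at h1
  rw [PLA_r1, Finset.mem_coe, mem_FN] at h2
  have a0 := h1 0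
  have b0 := h2 0
  have b1 := h2 1
  simp at a0 b0 b1
  refine ⟨?_, b0.2, b1.1, b1.2⟩
  linarith [a0.1]

theorem PLA_in2 {N : ℕ} {x y : ℤ} (h : ((![x, y] : Vx 2), (2 : Fin 3)) ∈ inN N) :
    -(N : ℤ) ≤ x ∧ x < N ∧ -(N : ℤ) ≤ y ∧ y < N := by
  obtain ⟨h1, h2⟩ := h
  rw [PLA_s2, Finset.mem_coe, mem_FN] at h1
  have a0 := h1 0
  have a1 := h1 1
  simp at a0 a1
  exact ⟨a0.1, a0.2, a1.1, a1.2⟩

theorem PLA_src_T (a b c d x y : ℤ) : src ((![a, b] : Vx 2), true) ((![c, d] : Vx 2), false)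
    ((![x, y] : Vx 2), true) = if x = a ∧ y = b then 1 else 0 := by
  have h : ((![x, y] : Vx 2) = ![a, b]) ↔ (x = a ∧ y = b) := by
    constructor
    · intro h; exact ⟨congrFun h 0, congrFun h 1⟩
    · rintro ⟨rfl, rfl⟩; rfl
  simp [src]

theorem PLA_src_F (a b c d x y : ℤ) : src ((![a, b] : Vx 2), true) ((![c, d] : Vx 2), false)
    ((![x, y] : Vx 2), false) = if x = c ∧ y = d then 1 else 0 := by
  have h : ((![x, y] : Vx 2) = ![c, d]) ↔ (x = c ∧ y = d) := by
    constructor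
    · intro h; exact ⟨congrFun h 0, congrFun h 1⟩
    · rintro ⟨rfl, rfl⟩; rfl
  simp [src]

theorem PLA_dgF (p : Vx 2 × Fin 3 → ZMod 2) (x y : ℤ) : PLA_dg p ((![x, y] : Vx 2), false) =
    p (![x, y], 0) + p (![x + 1, y], 1) + p (![x, y], 2) := by
  simp only [PLA_dg, PLA_ed, Bool.false_eq_true, if_false, PLA_add0]
  rfl

theorem PLA_dgT (p : Vx 2 × Fin 3 → ZMod 2) (x y : ℤ) : PLA_dg p ((![x, y] : Vx 2), true) =
    p (![x, y + 1], 0) + p (![x, y], 1) + p (![x, y], 2) := by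
  simp only [PLA_dg, PLA_ed, if_true, PLA_add1]
  rfl

/-- a vertex touched by `q` is not touched by `p` (both kinds of vertices). -/
theorem PLA_unt {N : ℕ} {S1 S2 : Set (Vx 2 × Fin 3)} (hd : Disjoint S1 S2)
    {p q : Vx 2 × Fin 3 → ZMod 2} {b b' a a' : ℤ}
    (hp : ∀ e, p e ≠ 0 → e ∈ S1 ∩ inN N) (hq : ∀ e, q e ≠ 0 → e ∈ S2 ∩ inN N)
    (dp : ∀ w, PLA_dg p w = src ((![-(N : ℤ), b] : Vx 2), true) ((![(N : ℤ) - 1, b'] : Vx 2), false) w)
    (dq : ∀ w, PLA_dg q w = src ((![a, (N : ℤ) - 1] : Vx 2), true) ((![a', -(N : ℤ)] : Vx 2), false) w)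
    (x y : ℤ) :
    ((q (![x, y], 0) ≠ 0 ∨ q (![x + 1, y], 1) ≠ 0 ∨ q (![x, y], 2) ≠ 0) →
      p (![x, y], 0) = 0 ∧ p (![x + 1, y], 1) = 0 ∧ p (![x, y], 2) = 0) ∧
    ((q (![x, y + 1], 0) ≠ 0 ∨ q (![x, y], 1) ≠ 0 ∨ q (![x, y], 2) ≠ 0) →
      p (![x, y + 1], 0) = 0 ∧ p (![x, y], 1) = 0 ∧ p (![x, y], 2) = 0) := by
  have hpq : ∀ e, p e ≠ 0 → q e = 0 := by
    intro e he
    by_contra hq'
    exact Set.disjoint_left.1 hd (hp e he).1 (hq e hq').1
  have pz : ∀ e, e ∉ inN N → p e = 0 := by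
    intro e he; by_contra h; exact he (hp e h).2
  have qz : ∀ e, e ∉ inN N → q e = 0 := by
    intro e he; by_contra h; exact he (hq e h).2
  constructor
  · intro h
    refine PLA_loc _ _ _ _ _ _ (hpq _) (hpq _) (hpq _) ?_ ?_ h
    · intro h'
      have h1 := dp ((![x, y] : Vx 2), false)
      rw [PLA_dgF, PLA_src_F] at h1
      rw [h1] at h'
      by_cases hx : x = (N : ℤ) - 1 ∧ y = b'
      · have hn : ((![x + 1, y] : Vx 2), (1 : Fin 3)) ∉ inN N := by
          intro hin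
          have := (PLA_in1 hin).2.1
          omega
        exact ⟨pz _ hn, qz _ hn⟩
      · exact absurd (if_neg hx) h'
    · intro h'
      have h1 := dq ((![x, y] : Vx 2), false)
      rw [PLA_dgF, PLA_src_F] at h1
      rw [h1] at h'
      by_cases hx : x = a' ∧ y = -(N : ℤ)
      · have hn : ((![x, y] : Vx 2), (0 : Fin 3)) ∉ inN N := by
          intro hin
          have := (PLA_in0 hin).2.2.1
          omega
        exact ⟨pz _ hn, qz _ hn⟩
      · exact absurd (if_neg hx) h'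
  · intro h
    refine PLA_loc _ _ _ _ _ _ (hpq _) (hpq _) (hpq _) ?_ ?_ h
    · intro h'
      have h1 := dp ((![x, y] : Vx 2), true)
      rw [PLA_dgT, PLA_src_T] at h1
      rw [h1] at h'
      by_cases hx : x = -(N : ℤ) ∧ y = b
      · have hn : ((![x, y] : Vx 2), (1 : Fin 3)) ∉ inN N := by
          intro hin
          have := (PLA_in1 hin).1
          omega
        exact ⟨pz _ hn, qz _ hn⟩
      · exact absurd (if_neg hx) h'
    · intro h'
      have h1 := dq ((![x, y] : Vx 2), true)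
      rw [PLA_dgT, PLA_src_T] at h1
      rw [h1] at h'
      by_cases hx : x = a ∧ y = (N : ℤ) - 1
      · have hn : ((![x, y + 1] : Vx 2), (0 : Fin 3)) ∉ inN N := by
          intro hin
          have := (PLA_in0 hin).2.2.2
          omega
        exact ⟨pz _ hn, qz _ hn⟩
      · exact absurd (if_neg hx) h'

/-- the completed flow. -/
noncomputable def PLA_ph (N : ℕ) (p : Vx 2 × Fin 3 → ZMod 2) (b b' x y : ℤ) (k : Fin 3) : ZMod 2 :=
  p (![x, y], k) + (if x = -(N : ℤ) ∧ y = b ∧ k = 1 then 1 else 0) +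
    (if x = (N : ℤ) ∧ y = b' ∧ k = 1 then 1 else 0)

/-- the winding function. -/
noncomputable def PLA_fi (N : ℕ) (p : Vx 2 × Fin 3 → ZMod 2) (b b' x y : ℤ) : ZMod 2 :=
  ∑ y' ∈ Finset.Ico y (N : ℤ), PLA_ph N p b b' x y' 1

theorem PLA_fi_top (N : ℕ) (p : Vx 2 × Fin 3 → ZMod 2) (b b' x : ℤ) :
    PLA_fi N p b b' x N = 0 := by
  simp [PLA_fi]

theorem PLA_fi_step (N : ℕ) (p : Vx 2 × Fin 3 → ZMod 2) (b b' x y : ℤ) (hy : y < N) :
    PLA_fi N p b b' x y = PLA_ph N p b b' x y 1 + PLA_fi N p b b' x (y + 1) := by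
  unfold PLA_fi
  have h : Finset.Ico y (N : ℤ) = insert y (Finset.Ico (y + 1) (N : ℤ)) := by
    ext z; simp only [Finset.mem_Ico, Finset.mem_insert]; omega
  rw [h, Finset.sum_insert (by simp)]

theorem pla (N : ℕ) (hN : 1 ≤ N) (S1 S2 : Set (Vx 2 × Fin 3)) (hd : Disjoint S1 S2)
    (h1 : LRc N S1) (h2 : TBc N S2) : False := by
  obtain ⟨u, ⟨hu1, hu2, hu3⟩, v, ⟨hv1, hv2, hv3⟩, hc⟩ := h1
  obtain ⟨u', ⟨hu1', hu2', hu3'⟩, v', ⟨hv1', hv2', hv3'⟩, hc'⟩ := h2
  obtain ⟨p, F, hp, hpF, dp, _⟩ := PLA_walk hc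
  obtain ⟨q, G, hq, hqG, dq, sq⟩ := PLA_walk hc'
  have eu : u = ((![-(N : ℤ), u.1 1] : Vx 2), true) := by
    rw [← hu3, PLA_eta, ← hu2]
  have ev : v = ((![(N : ℤ) - 1, v.1 1] : Vx 2), false) := by
    rw [← hv3, PLA_eta, ← hv2]
  have eu' : u' = ((![u'.1 0, (N : ℤ) - 1] : Vx 2), true) := by
    rw [← hu3', PLA_eta, ← hu2']
  have ev' : v' = ((![v'.1 0, -(N : ℤ)] : Vx 2), false) := by
    rw [← hv3', PLA_eta, ← hv2']
  rw [mem_FN] at hu1 hv1 hu1' hv1'
  have ru := hu1 1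
  have rv := hv1 1
  have ru' := hu1' 0
  have rv' := hv1' 0
  set b := u.1 1 with hb
  set b' := v.1 1 with hb'
  set a := u'.1 0 with ha
  set a' := v'.1 0 with ha'
  clear_value b b' a a'
  subst eu ev eu' ev'
  have unt := PLA_unt hd hp hq dp dq
  have pz : ∀ e, e ∉ inN N → p e = 0 := by
    intro e he; by_contra h; exact he (hp e h).2
  -- degrees of the completed flow
  have dF : ∀ x y : ℤ, -(N : ℤ) ≤ x → x < N → PLA_ph N p b b' x y 0 + PLA_ph N p b b' (x + 1) y 1 +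
      PLA_ph N p b b' x y 2 = 0 := by
    intro x y h1 h2
    have h3 := dp ((![x, y] : Vx 2), false)
    rw [PLA_dgF, PLA_src_F] at h3
    have h4 : ¬ (x + 1 = -(N : ℤ)) := by omega
    have h5 : (x + 1 = (N : ℤ) ∧ y = b') ↔ (x = (N : ℤ) - 1 ∧ y = b') := by
      constructor <;> rintro ⟨h, h'⟩ <;> exact ⟨by omega, h'⟩
    simp only [PLA_ph, h4, false_and, if_false]
    simp only [Fin.isValue, and_true, h5]
    have h6 : ¬ ((0 : Fin 3) = 1) := by decide
    have h7 : ¬ ((2 : Fin 3) = 1) := by decide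
    simp only [h6, h7, and_false, if_false, add_zero]
    by_cases hx : x = (N : ℤ) - 1 ∧ y = b'
    · rw [if_pos hx] at h3 ⊢
      have h8 : (1 : ZMod 2) + 1 = 0 := by decide
      linear_combination h3 + h8
    · rw [if_neg hx] at h3 ⊢
      linear_combination h3
  have dT : ∀ x y : ℤ, -(N : ℤ) ≤ x → x < N → PLA_ph N p b b' x (y + 1) 0 + PLA_ph N p b b' x y 1 +
      PLA_ph N p b b' x y 2 = 0 := by
    intro x y h1 h2
    have h3 := dp ((![x, y] : Vx 2), true)
    rw [PLA_dgT, PLA_src_T] at h3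
    have h4 : ¬ (x = (N : ℤ)) := by omega
    simp only [PLA_ph, h4, false_and, if_false]
    have h6 : ¬ ((0 : Fin 3) = 1) := by decide
    have h7 : ¬ ((2 : Fin 3) = 1) := by decide
    simp only [h6, h7, and_false, and_true, if_false, add_zero]
    by_cases hx : x = -(N : ℤ) ∧ y = b
    · rw [if_pos hx] at h3 ⊢
      have h8 : (1 : ZMod 2) + 1 = 0 := by decide
      linear_combination h3 + h8
    · rw [if_neg hx] at h3 ⊢
      linear_combination h3
  -- horizontal step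
  have hor : ∀ (m : ℕ) (x y : ℤ), -(N : ℤ) ≤ x → x < N → y + m = N →
      PLA_fi N p b b' x y + PLA_fi N p b b' (x + 1) y = PLA_ph N p b b' x y 0 := by
    intro m
    induction m with
    | zero =>
      intro x y h1 h2 h3
      have h4 : y = N := by simpa using h3
      subst h4
      rw [PLA_fi_top, PLA_fi_top]
      have hn : ((![x, (N : ℤ)] : Vx 2), (0 : Fin 3)) ∉ inN N := by
        intro hin
        have := (PLA_in0 hin).2.2.2
        omega
      have h6 : ¬ ((0 : Fin 3) = 1) := by decide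
      simp only [PLA_ph, pz _ hn, h6, and_false, if_false, add_zero]
    | succ m ih =>
      intro x y h1 h2 h3
      have h4 : y < N := by push_cast at h3; omega
      have h5 := ih x (y + 1) h1 h2 (by push_cast at h3 ⊢; omega)
      rw [PLA_fi_step N p b b' x y h4, PLA_fi_step N p b b' (x + 1) y h4]
      have h6 := dF x y h1 h2
      have h7 := dT x y h1 h2
      have h8 : PLA_ph N p b b' x y 2 + PLA_ph N p b b' x y 2 = 0 := CharTwo.add_self_eq_zero _
      have h9 : PLA_ph N p b b' x y 0 + PLA_ph N p b b' x y 0 = 0 := CharTwo.add_self_eq_zero _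
      have h10 : PLA_ph N p b b' x (y + 1) 0 + PLA_ph N p b b' x (y + 1) 0 = 0 :=
        CharTwo.add_self_eq_zero _
      linear_combination h5 + h6 + h7 - h8 - h9 + 0 * h10
  have hor' : ∀ x y : ℤ, -(N : ℤ) ≤ x → x < N → y ≤ N →
      PLA_fi N p b b' x y + PLA_fi N p b b' (x + 1) y = PLA_ph N p b b' x y 0 := by
    intro x y h1 h2 h3
    exact hor (Int.toNat ((N : ℤ) - y)) x y h1 h2 (by omega)
  -- the bottom row
  have bot : ∀ m : ℕ, -(N : ℤ) + m ≤ N → PLA_fi N p b b' (-(N : ℤ) + m) (-(N : ℤ)) = 1 := by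
    intro m
    induction m with
    | zero =>
      intro _
      rw [Nat.cast_zero, add_zero]
      unfold PLA_fi
      rw [Finset.sum_eq_single b]
      · have hn : ((![-(N : ℤ), b] : Vx 2), (1 : Fin 3)) ∉ inN N := by
          intro hin
          have := (PLA_in1 hin).1
          omega
        have h4 : ¬ (-(N : ℤ) = N) := by omega
        simp only [PLA_ph, pz _ hn, h4, false_and, if_false, and_self, if_true]
        decide
      · intro y _ hy
        have hn : ((![-(N : ℤ), y] : Vx 2), (1 : Fin 3)) ∉ inN N := by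
          intro hin
          have := (PLA_in1 hin).1
          omega
        have h4 : ¬ (-(N : ℤ) = N) := by omega
        simp only [PLA_ph, pz _ hn, h4, hy, false_and, and_false, if_false, add_zero]
      · intro hb
        exact absurd (Finset.mem_Ico.2 ⟨ru.1, ru.2⟩) hb
    | succ m ih =>
      intro hm
      push_cast at hm ⊢
      have h1 := ih (by omega)
      have h2 := hor' (-(N : ℤ) + m) (-(N : ℤ)) (by omega) (by omega) (by omega)
      have hn : ((![-(N : ℤ) + m, -(N : ℤ)] : Vx 2), (0 : Fin 3)) ∉ inN N := by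
        intro hin
        have := (PLA_in0 hin).2.2.1
        omega
      have h6 : ¬ ((0 : Fin 3) = 1) := by decide
      have h3 : PLA_ph N p b b' (-(N : ℤ) + m) (-(N : ℤ)) 0 = 0 := by
        simp only [PLA_ph, pz _ hn, h6, and_false, if_false, add_zero]
      rw [h3, h1] at h2
      have h4 : (1 : ZMod 2) + 1 = 0 := by decide
      rw [← add_assoc]
      linear_combination h2 - h4
  -- `f` is constant along `q`
  have key : ∀ e, q e * (PLA_fi N p b b' ((HH.gr.s e).1 0) ((HH.gr.s e).1 1) +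
      PLA_fi N p b b' ((HH.gr.r e).1 0) ((HH.gr.r e).1 1)) = 0 := by
    intro e
    by_cases hqe : q e = 0
    · rw [hqe, zero_mul]
    · obtain ⟨z, k⟩ := e
      have hz : z = ![z 0, z 1] := (PLA_eta z).symm
      generalize z 0 = x at hz
      generalize z 1 = y at hz
      subst hz
      have hin := (hq _ hqe).2
      have hk : k = 0 ∨ k = 1 ∨ k = 2 := by
        fin_cases k <;> simp
      have h6 : ¬ ((0 : Fin 3) = 1) := by decide
      rcases hk with rfl | rfl | rfl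
      · have hr := PLA_in0 hin
        rw [PLA_s0, PLA_r0, PLA_sub1]
        have e1 : (![x, y - 1] : Vx 2) 0 = x := rfl
        have e2 : (![x, y - 1] : Vx 2) 1 = y - 1 := rfl
        simp only [e1, e2]
        have e3 : (![x, y] : Vx 2) 0 = x := rfl
        have e4 : (![x, y] : Vx 2) 1 = y := rfl
        simp only [e3, e4]
        have h7 := (unt x (y - 1)).2
        rw [sub_add_cancel] at h7
        have h8 := h7 (Or.inl hqe)
        have h9 := PLA_fi_step N p b b' x (y - 1) (by omega)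
        rw [sub_add_cancel] at h9
        have h10 : PLA_ph N p b b' x (y - 1) 1 = 0 := by
          have h11 : ¬ (x = (N : ℤ)) := by omega
          have h12 : ¬ (x = -(N : ℤ) ∧ y - 1 = b) := by
            rintro h
            have h13 := dp ((![x, y - 1] : Vx 2), true)
            rw [PLA_dgT, PLA_src_T, if_pos h, sub_add_cancel, h8.1, h8.2.1, h8.2.2] at h13
            exact absurd h13 (by decide)
          simp only [PLA_ph, h8.2.1, h11, false_and, and_true, if_false, if_neg h12, add_zero]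
        rw [h9, h10, zero_add]
        rw [CharTwo.add_self_eq_zero, mul_zero]
      · have hr := PLA_in1 hin
        rw [PLA_s1, PLA_r1, PLA_sub0]
        have e1 : (![x - 1, y] : Vx 2) 0 = x - 1 := rfl
        have e2 : (![x - 1, y] : Vx 2) 1 = y := rfl
        simp only [e1, e2]
        have e3 : (![x, y] : Vx 2) 0 = x := rfl
        have e4 : (![x, y] : Vx 2) 1 = y := rfl
        simp only [e3, e4]
        have h7 := (unt (x - 1) y).1
        rw [sub_add_cancel] at h7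
        have h8 := h7 (Or.inr (Or.inl hqe))
        have h9 := hor' (x - 1) y (by omega) (by omega) (by omega)
        rw [sub_add_cancel] at h9
        have h10 : PLA_ph N p b b' (x - 1) y 0 = 0 := by
          simp only [PLA_ph, h8.1, h6, and_false, if_false, add_zero]
        rw [h9, h10, mul_zero]
      · rw [PLA_s2, PLA_r2]
        rw [CharTwo.add_self_eq_zero, mul_zero]
  have hs := sq (fun w => PLA_fi N p b b' (w.1 0) (w.1 1))
  rw [Finset.sum_eq_zero (fun e _ => key e)] at hs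
  have e1 : (![a, (N : ℤ) - 1] : Vx 2) 0 = a := rfl
  have e2 : (![a, (N : ℤ) - 1] : Vx 2) 1 = (N : ℤ) - 1 := rfl
  have e3 : (![a', -(N : ℤ)] : Vx 2) 0 = a' := rfl
  have e4 : (![a', -(N : ℤ)] : Vx 2) 1 = -(N : ℤ) := rfl
  simp only [e1, e2, e3, e4] at hs
  have hbot : PLA_fi N p b b' a' (-(N : ℤ)) = 1 := by
    have h1 := bot (Int.toNat (a' + N)) (by omega)
    have h2 : -(N : ℤ) + (Int.toNat (a' + N) : ℤ) = a' := by omega
    rwa [h2] at h1
  have htop : PLA_fi N p b b' a ((N : ℤ) - 1) = 0 := by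
    rw [PLA_fi_step N p b b' a ((N : ℤ) - 1) (by omega), sub_add_cancel, PLA_fi_top, add_zero]
    have h1 := dq ((![a, (N : ℤ) - 1] : Vx 2), true)
    rw [PLA_dgT, PLA_src_T, if_pos ⟨rfl, rfl⟩] at h1
    have h2 : q (![a, (N : ℤ) - 1 + 1], 0) ≠ 0 ∨ q (![a, (N : ℤ) - 1], 1) ≠ 0 ∨
        q (![a, (N : ℤ) - 1], 2) ≠ 0 := by
      by_contra hcon
      push Not at hcon
      rw [hcon.1, hcon.2.1, hcon.2.2] at h1
      exact absurd h1 (by decide)
    have h3 := (unt a ((N : ℤ) - 1)).2 h2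
    have h11 : ¬ (a = (N : ℤ)) := by omega
    have h12 : ¬ (a = -(N : ℤ) ∧ (N : ℤ) - 1 = b) := by
      rintro h
      have h13 := dp ((![a, (N : ℤ) - 1] : Vx 2), true)
      rw [PLA_dgT, PLA_src_T, if_pos h, h3.1, h3.2.1, h3.2.2] at h13
      exact absurd h13 (by decide)
    simp only [PLA_ph, h3.2.1, h11, false_and, and_true, if_false, if_neg h12, add_zero]
  rw [hbot, htop] at hs
  exact absurd hs (by decide)

end H82.BX
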