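import Pool.Agent.H82.BX.CRO
import Pool.Agent.H82.BX.PLA

/-!
# THB: no exponential decay at low temperature

Suppose exponential decay (`¬ noED`).  `wk κ 1/wk κ 0 = (I_1/I_0)^6 ≥ 1/2` gives `wk κ 0 ≤ 2 wk κ 1`.  `nu_props` gives `ν`; `cro` gives `N` with `ν{LRc N (ω⁻)} > 1/2`.  With `sy1`: `{ω | TBc N (op1 (ω ∘ sE1))}`: `sV1` maps `Tp` to `Rt`, `Bt` to `Lf`, so
`TBc N (op1 (ω ∘ sE1)) ↔ LRc N (op1 ω)` (edge `e` open in `ω ∘ sE1` iff `sE1 e` open in `ω`; `inN N` is invariant; `sE1` is an involution) and `ν{TBc N (ω⁻)} > 1/2`; flipping: `ν{TBc N (ω⁺)} > 1/2`, `ω⁺ = stt 2 η = stt 1 (fl3 ∘ η)`.  Both events have probability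
`> 1/2`, so some `η` is in both; `op1 (stt 1 η)` and `op1 (stt 2 η)` are disjoint: contradiction with `pla`.
(Measurability of `LRc`, `TBc`: cylinder events.)
-/

set_option autoImplicit false

open Finset MeasureTheory Filter Topology

namespace H82.BX

open H82.IC XYB

theorem thb_inN (N : ℕ) (e : Vx 2 × Fin 3) :
    e ∈ inN N ↔ HH.gr.s e ∈ FN N ∧ HH.gr.r e ∈ FN N := Iff.rfl

theorem thb_agree {N : ℕ} {ω ω' : Vx 2 × Fin 3 → Bool} (h : ∀ e ∈ EN N, ω e = ω' e) :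
    op1 ω ∩ inN N = op1 ω' ∩ inN N := by
  ext e
  simp only [Set.mem_inter_iff, op1, Set.mem_setOf_eq]
  constructor
  · rintro ⟨h1, h2⟩
    have h3 : e ∈ EN N := ((FN_Bd N).mem e).2 (Or.inl ((thb_inN N e).1 h2).1)
    exact ⟨by rw [← h e h3]; exact h1, h2⟩
  · rintro ⟨h1, h2⟩
    have h3 : e ∈ EN N := ((FN_Bd N).mem e).2 (Or.inl ((thb_inN N e).1 h2).1)
    exact ⟨by rw [h e h3]; exact h1, h2⟩

theorem thb_lr_congr {N : ℕ} {ω ω' : Vx 2 × Fin 3 → Bool} (h : ∀ e ∈ EN N, ω e = ω' e) :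
    LRc N (op1 ω) ↔ LRc N (op1 ω') := by
  unfold LRc
  rw [thb_agree h]

theorem thb_tb_congr {N : ℕ} {ω ω' : Vx 2 × Fin 3 → Bool} (h : ∀ e ∈ EN N, ω e = ω' e) :
    TBc N (op1 ω) ↔ TBc N (op1 ω') := by
  unfold TBc
  rw [thb_agree h]

theorem thb_swp_add (x y : Vx 2) : swp (x + y) = swp x + swp y := by
  ext i
  fin_cases i <;> simp [swp]

theorem thb_swp_neg (x : Vx 2) : swp (-x) = -swp x := by
  ext i
  fin_cases i <;> simp [swp]

theorem thb_swp_zero : swp (0 : Vx 2) = 0 := by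
  ext i
  fin_cases i <;> simp [swp]

theorem thb_swp_e0 : swp (Pi.single 0 1 : Vx 2) = Pi.single 1 1 := by
  ext i
  fin_cases i <;> simp [swp, Pi.single_apply]

theorem thb_swp_e1 : swp (Pi.single 1 1 : Vx 2) = Pi.single 0 1 := by
  ext i
  fin_cases i <;> simp [swp, Pi.single_apply]

theorem thb_s (e : Vx 2 × Fin 3) : HH.gr.s (sE1 e) = sV1 (HH.gr.r e) := by
  obtain ⟨x, k⟩ := e
  fin_cases k
  · change (swp x + -Pi.single 0 1, false) = (swp (x + -Pi.single 1 1), !true)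
    rw [thb_swp_add, thb_swp_neg, thb_swp_e1]
    rfl
  · change (swp x + 0, false) = (swp (x + 0), !true)
    rw [thb_swp_add, thb_swp_zero]
    rfl
  · change (swp x + 0, true) = (swp (x + 0), !false)
    rw [thb_swp_add, thb_swp_zero]
    rfl

theorem thb_r (e : Vx 2 × Fin 3) : HH.gr.r (sE1 e) = sV1 (HH.gr.s e) := by
  obtain ⟨x, k⟩ := e
  fin_cases k
  · change (swp x + 0, true) = (swp (x + 0), !false)
    rw [thb_swp_add, thb_swp_zero]
    rfl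
  · change (swp x + -Pi.single 1 1, true) = (swp (x + -Pi.single 0 1), !false)
    rw [thb_swp_add, thb_swp_neg, thb_swp_e0]
    rfl
  · change (swp x + 0, false) = (swp (x + 0), !true)
    rw [thb_swp_add, thb_swp_zero]
    rfl

theorem thb_FN (N : ℕ) {v : Vx 2 × Bool} (hv : v ∈ FN N) : sV1 v ∈ FN N := by
  rw [mem_FN] at hv ⊢
  intro i
  fin_cases i
  · exact hv 1
  · exact hv 0

theorem thb_in (N : ℕ) {e : Vx 2 × Fin 3} (he : e ∈ inN N) : sE1 e ∈ inN N := by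
  rw [thb_inN] at he ⊢
  rw [thb_s, thb_r]
  exact ⟨thb_FN N he.2, thb_FN N he.1⟩

theorem thb_conn (N : ℕ) (ω : Vx 2 × Fin 3 → Bool) {u v : Vx 2 × Bool}
    (h : HH.gr.Conn (op1 (ω ∘ sE1) ∩ inN N) u v) :
    HH.gr.Conn (op1 ω ∩ inN N) (sV1 u) (sV1 v) := by
  induction h with
  | refl => exact conn_refl _ _ _
  | @tail y z h1 h2 ih =>
    refine conn_trans _ ih ?_
    obtain ⟨e, he, hor⟩ := h2
    have h3 : sE1 e ∈ op1 ω ∩ inN N := ⟨he.1, thb_in N he.2⟩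
    have h4 := conn_edge HH.gr h3
    rw [thb_s, thb_r] at h4
    rcases hor with ⟨ha, hb⟩ | ⟨ha, hb⟩
    · rw [← ha, ← hb]
      exact conn_symm _ h4
    · rw [← ha, ← hb]
      exact h4

theorem thb_lr_tb (N : ℕ) (ω : Vx 2 × Fin 3 → Bool) (h : LRc N (op1 (ω ∘ sE1))) :
    TBc N (op1 ω) := by
  obtain ⟨u, hu, v, hv, huv⟩ := h
  have h1 := thb_conn N ω huv
  refine ⟨sV1 v, ?_, sV1 u, ?_, conn_symm _ h1⟩
  · obtain ⟨h2, h3, h4⟩ := hv
    refine ⟨thb_FN N h2, ?_, h4⟩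
    change (!v.2) = true
    rw [h3]
    rfl
  · obtain ⟨h2, h3, h4⟩ := hu
    refine ⟨thb_FN N h2, ?_, h4⟩
    change (!u.2) = false
    rw [h3]
    rfl

theorem thb_meas_stt (x : Fin 3) :
    Measurable (stt x : (Vx 2 × Fin 3 → Fin 3) → (Vx 2 × Fin 3 → Bool)) := by
  rw [measurable_pi_iff]
  intro e
  exact (measurable_of_finite (fun a : Fin 3 => decide (a = x))).comp (measurable_pi_apply e)

theorem thb_meas_lr (N : ℕ) : MeasurableSet {ω : Vx 2 × Fin 3 → Bool | LRc N (op1 ω)} :=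
  lc_meas ⟨EN N, fun _ _ h => thb_lr_congr h⟩

theorem thb_meas_tb (N : ℕ) : MeasurableSet {ω : Vx 2 × Fin 3 → Bool | TBc N (op1 ω)} :=
  lc_meas ⟨EN N, fun _ _ h => thb_tb_congr h⟩

theorem thb_fl (η : Vx 2 × Fin 3 → Fin 3) : stt 1 (fl3 ∘ η) = stt 2 η := by
  funext e
  change decide (fl3 (η e) = 1) = decide (η e = 2)
  generalize η e = a
  fin_cases a <;> rfl

theorem thb_wk (κ : ℝ) (h : 1 / 2 ≤ (bI κ 1 / bI κ 0) ^ 6) : wk κ 0 ≤ 2 * wk κ 1 := by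
  unfold wk
  rw [div_pow] at h
  have h0 : 0 ≤ bI κ 0 ^ 6 := by positivity
  rcases h0.eq_or_lt with h1 | h1
  · rw [← h1, div_zero] at h
    linarith
  · rw [le_div_iff₀ h1] at h
    linarith

theorem thB (κ : ℝ) (hκ : 0 < κ) (h : 1 / 2 ≤ (bI κ 1 / bI κ 0) ^ 6) : noED κ := by
  rintro ⟨C, a, ha, hED⟩
  obtain ⟨ν, hν, hfl, hP⟩ := nu_props κ C a hκ ha (thb_wk κ h) hED
  obtain ⟨N, hN, hLR⟩ := cro (ν.map (stt 1)) hP
  haveI := hν
  haveI := hP.prob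
  set X : Set (Vx 2 × Fin 3 → Bool) := {ω | LRc N (op1 ω)} with hX
  set Y : Set (Vx 2 × Fin 3 → Bool) := {ω | TBc N (op1 ω)} with hY
  have hXm : MeasurableSet X := thb_meas_lr N
  have hYm : MeasurableSet Y := thb_meas_tb N
  have h1 : 1 / 2 < (ν.map (stt 1)).real Y := by
    have h2 := hP.sy1 X hXm
    have h3 : (ν.map (stt 1)).real {ω | ω ∘ sE1 ∈ X} ≤ (ν.map (stt 1)).real Y :=
      measureReal_mono (fun ω hω => thb_lr_tb N ω hω)
    linarith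
  have hm1 := thb_meas_stt 1
  have hm2 := thb_meas_stt 2
  have h4 : 1 / 2 < ν.real (stt 1 ⁻¹' X) := by
    rw [← map_measureReal_apply hm1 hXm]
    exact hLR
  have h5 : 1 / 2 < ν.real (stt 1 ⁻¹' Y) := by
    rw [← map_measureReal_apply hm1 hYm]
    exact h1
  have h6 : ν.real (stt 2 ⁻¹' Y) = ν.real (stt 1 ⁻¹' Y) := by
    rw [← hfl (stt 1 ⁻¹' Y) (hm1 hYm)]
    congr 1
    ext η
    change stt 2 η ∈ Y ↔ stt 1 (fl3 ∘ η) ∈ Y
    rw [thb_fl]
  by_cases hd : Disjoint (stt 1 ⁻¹' X) (stt 2 ⁻¹' Y)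
  · have h7 := measureReal_union (μ := ν) hd (hm2 hYm)
    have h8 : ν.real (stt 1 ⁻¹' X ∪ stt 2 ⁻¹' Y) ≤ 1 := measureReal_le_one
    linarith
  · rw [Set.not_disjoint_iff] at hd
    obtain ⟨η, h7, h8⟩ := hd
    refine pla N hN (op1 (stt 1 η)) (op1 (stt 2 η)) ?_ h7 h8
    rw [Set.disjoint_left]
    intro e h9 h10
    have h11 : η e = 1 := of_decide_eq_true h9
    have h12 : η e = 2 := of_decide_eq_true h10
    rw [h11] at h12
    exact absurd h12 (by decide)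

end H82.BX
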