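import Pool.Agent.H82.BX.FIA
import Pool.Agent.H82.BX.THB

/-!
# FIN: the final theorem

`I_0 - I_2 = (2/κ) I_1` (series) and `I_0 I_2 ≤ I_1²` give `1 ≤ r² + (2/κ) r` for `r = I_1/I_0`; for `κ = 9`: `r^6 ≥ 1/2`.
-/

set_option autoImplicit false

open Finset MeasureTheory Filter Topology

namespace H82.BX

open H82.IC XYB

theorem bI_rec (κ : ℝ) (hκ : 0 < κ) : bI κ 0 = bI κ 2 + 2 / κ * bI κ 1 := by
  have h0 := bI_series κ 0
  have h1 := (bI_series κ 1).mul_left (2 / κ)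
  have h2 := bI_series κ 2
  have h3 := (hasSum_nat_add_iff' 1).2 (h0.sub h1)
  have h4 : (fun n : ℕ => (κ / 2) ^ (2 * (n + 1) + 0) / ((n + 1).factorial * (n + 1 + 0).factorial : ℝ) -
      2 / κ * ((κ / 2) ^ (2 * (n + 1) + 1) / ((n + 1).factorial * (n + 1 + 1).factorial : ℝ))) =
      fun k : ℕ => (κ / 2) ^ (2 * k + 2) / (k.factorial * (k + 2).factorial : ℝ) := by
    funext k
    have e1 : ((k + 1).factorial : ℝ) = (k + 1) * k.factorial := by
      rw [Nat.factorial_succ]; push_cast; ring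
    have e2 : ((k + 2).factorial : ℝ) = (k + 2) * ((k + 1) * k.factorial) := by
      rw [Nat.factorial_succ, Nat.factorial_succ]; push_cast; ring
    have hk : (0 : ℝ) < k.factorial := by exact_mod_cast Nat.factorial_pos k
    have hk1 : (0 : ℝ) < (k : ℝ) + 1 := by positivity
    have hk2 : (0 : ℝ) < (k : ℝ) + 2 := by positivity
    have e3 : (κ / 2) ^ (2 * (k + 1) + 1) = (κ / 2) ^ (2 * k + 2) * (κ / 2) := by ring
    have e4 : (κ / 2) ^ (2 * (k + 1) + 0) = (κ / 2) ^ (2 * k + 2) := by ring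
    rw [e3, e4, add_zero, show k + 1 + 1 = k + 2 from rfl, e2, e1]
    field_simp
    ring
  rw [h4] at h3
  have h5 := h3.unique h2
  norm_num at h5
  rw [div_self hκ.ne'] at h5
  linarith

theorem bI_nine : 1 / 2 ≤ (bI 9 1 / bI 9 0) ^ 6 := by
  have h0 : 0 < bI 9 0 := bI_pos 9 (by norm_num) 0
  have h1 : 0 < bI 9 1 := bI_pos 9 (by norm_num) 1
  have hr := bI_rec 9 (by norm_num)
  have hl := bI_lc 9 (by norm_num) 1
  norm_num at hl
  obtain ⟨r, hrd⟩ : ∃ r, r = bI 9 1 / bI 9 0 := ⟨_, rfl⟩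
  rw [← hrd]
  have hr0 : 0 < r := by rw [hrd]; positivity
  have e1 : bI 9 1 = r * bI 9 0 := by rw [hrd]; field_simp
  have h5 : bI 9 0 * (bI 9 0 - 2 / 9 * bI 9 1) ≤ bI 9 1 ^ 2 := by
    have : bI 9 2 = bI 9 0 - 2 / 9 * bI 9 1 := by linarith
    rw [← this]
    exact hl
  rw [e1] at h5
  have h6 : 1 - 2 / 9 * r ≤ r ^ 2 := by
    have h7 : bI 9 0 ^ 2 * (1 - 2 / 9 * r) ≤ bI 9 0 ^ 2 * r ^ 2 := by nlinarith
    exact le_of_mul_le_mul_left h7 (by positivity)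
  have h8 : 895 / 1000 ≤ r := by nlinarith
  have h9 : (895 / 1000 : ℝ) ^ 6 ≤ r ^ 6 := pow_le_pow_left₀ (by norm_num) h8 6
  norm_num at h9
  linarith

theorem bx_full (h T : ℝ) (hh : 0 < h) (hT : 0 < T) (hT1 : T ≤ 1 / 18) : LRO h T :=
  fia 9 (by norm_num) (thB 9 (by norm_num) bI_nine) h T hh hT (by norm_num; linarith)

end H82.BX
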