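import Pool.Agent.H82.BX.Defs
import Pool.Agent.H2.XY.GC

/-!
# GCM: composition of functions of the Ginibre cone with homomorphisms; the energies are in the cone

`gin_comp`: `φ : Y →+ X` continuous; `Obs (F ∘ φ)` from `Obs F` (`F(φ(a+b)) + F(φ(a-b)) = ∑ gᵢ(φ a) gᵢ(φ b)`), and
`F ↦ F.comp φ` is continuous on `C(X, ℝ)`, so closures are mapped into closures.
`cos² = 1/2 + cos(2θ)/2`.
-/

set_option autoImplicit false

open Finset MeasureTheory

namespace H82.BX

open H82.IC XYB

theorem gin_comp {X Y : Type*} [AddCommGroup X] [TopologicalSpace X] [IsTopologicalAddGroup X]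
    [CompactSpace X] [MeasurableSpace X] [BorelSpace X] [SecondCountableTopology X]
    [AddCommGroup Y] [TopologicalSpace Y] [IsTopologicalAddGroup Y]
    [CompactSpace Y] [MeasurableSpace Y] [BorelSpace Y] [SecondCountableTopology Y]
    (φ : Y →+ X) (hφ : Continuous φ) {F : X → ℝ} (hF : Gin F) : Gin (fun y => F (φ y)) := by
  obtain ⟨f, hf, hFf⟩ := hF
  let ψ : C(Y, X) := ⟨φ, hφ⟩
  refine ⟨f.comp ψ, ?_, fun y => hFf _⟩
  have hcont : Continuous (fun G : C(X, ℝ) => G.comp ψ) := ContinuousMap.continuous_precomp ψ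
  have hmaps : Set.MapsTo (fun G : C(X, ℝ) => G.comp ψ) {G : C(X, ℝ) | Obs G}
      {G : C(Y, ℝ) | Obs G} := by
    intro G hG
    obtain ⟨h1, h2⟩ := hG
    refine ⟨?_, ?_⟩
    · obtain ⟨n, g, hg⟩ := h1
      refine ⟨n, fun i => (g i).comp ψ, fun a b => ?_⟩
      have := hg (φ a) (φ b)
      simp only [ContinuousMap.comp_apply]
      change G (φ (a + b)) + G (φ (a - b)) = _
      rw [map_add, map_sub]
      exact this
    · obtain ⟨n, g, hg⟩ := h2
      refine ⟨n, fun i => (g i).comp ψ, fun a b => ?_⟩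
      have := hg (φ a) (φ b)
      simp only [ContinuousMap.comp_apply]
      change G (φ (a - b)) - G (φ (a + b)) = _
      rw [map_add, map_sub]
      exact this
  exact hmaps.closure hcont hf

section en
variable {V E : Type} [Fintype V] [DecidableEq V] [Fintype E] [DecidableEq E]

theorem gin_hG (G : Gr V E) (J : E → ℝ) (hJ : ∀ e, 0 ≤ J e) : Gin (hG G J) := by
  have h : ∀ e : E, Gin (fun θ : V → Cir => J e * cosC (θ (G.r e) - θ (G.s e))) := by
    intro e
    refine Gin.smul (hJ e) ?_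
    exact Gin.cos (Pi.evalAddMonoidHom (fun _ : V => Cir) (G.r e) -
      Pi.evalAddMonoidHom (fun _ : V => Cir) (G.s e))
      ((continuous_apply (G.r e)).sub (continuous_apply (G.s e)))
  exact Gin.sum univ fun e _ => h e

/-- `cos θ_p cos θ_q` is in the cone. -/
theorem gin_cc {U : Type} [Fintype U] [DecidableEq U] (p q : U) :
    Gin (fun θ : U → Cir => cosC (θ p) * cosC (θ q)) := by
  have h : ∀ p : U, Gin (fun θ : U → Cir => cosC (θ p)) := fun p =>
    Gin.cos (Pi.evalAddMonoidHom (fun _ : U => Cir) p) (continuous_apply p)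
  exact (h p).mul (h q)

theorem gin_c2 {U : Type} [Fintype U] [DecidableEq U] (p : U) :
    Gin (fun θ : U → Cir => cosC (θ p) ^ 2) := by
  have h := gin_cc p p
  have h2 : (fun θ : U → Cir => cosC (θ p) ^ 2) = fun θ : U → Cir => cosC (θ p) * cosC (θ p) := by
    funext θ
    ring
  rw [h2]
  exact h

theorem gin_hS (G : Gr V E) (b l : ℝ) (hb : 0 ≤ b) (hl : 0 ≤ l) : Gin (hS G b l) := by
  have h1 : Gin (hG (LK G) (fun _ => b)) := gin_hG (LK G) (fun _ => b) (fun _ => hb)
  have hpn : ∀ w : SV V E, 0 ≤ pn w := by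
    rintro (v | ⟨e, _ | _⟩) <;> simp [pn]
  have h2 : Gin (fun θ : SV V E → Cir => ∑ w, l * pn w * cosC (θ w) ^ 2) :=
    Gin.sum univ fun w _ => Gin.smul (mul_nonneg hl (hpn w)) (gin_c2 w)
  exact h1.add h2

theorem cir_pi_div {U : Type} : ∀ x : U → Cir, ∃ y : U → Cir, y + y = x :=
  pi_div cir_div

end en

end H82.BX
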