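import Pool.Agent.H82.BX.Defs
import Pool.Agent.H82.IC.CN

/-!
# GI1: Ising partition functions with pair weights

`Zs_mono`: expand `∏_e (p e + q e s_e) = ∑_{S} ∏_{e ∉ S} p e ∏_{e ∈ S} q e ∏_{e ∈ S} s_e` (`Finset.prod_add`), and
`∑_σ ∏_{e ∈ S} s_e ≥ 0`: `s_e = sg (σ u) sg (σ v)`, the product is a product over the vertices of `sg (σ x)^{d x}`
(`∑_σ ∏_x sg(σ x)^{d x} = ∏_x (1 + (-1)^{d x})`); so the sum is `0` or `2^|V|`.
`Zs_pos`: all factors are `≥ 0`, the term `σ = true` is positive.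
`Zv_upd`: affine in each parameter; `Zv_bd`: `Zv (t[e := 0]) ≤ Zv (t[e := 1])` (`Zs_mono`) and each factor `1 + s ≤ 2 · 1`
while the other factors are `≥ 0`.
-/

set_option autoImplicit false

open Finset MeasureTheory

namespace H82.BX

open H82.IC

variable {V E : Type} [Fintype V] [DecidableEq V] [Fintype E] [DecidableEq E]

/-- sum of a product of pair signs. -/
theorem gi1_mono (G : Gr V E) (S : Finset E) :
    0 ≤ ∑ σ : V → Bool, ∏ e ∈ S, (sg (σ (G.s e)) * sg (σ (G.r e))) := by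
  have h1 : ∀ σ : V → Bool, ∏ e ∈ S, (sg (σ (G.s e)) * sg (σ (G.r e))) =
      ∏ x, sg (σ x) ^ ((S.filter (fun e => G.s e = x)).card + (S.filter (fun e => G.r e = x)).card) := by
    intro σ
    rw [prod_mul_distrib, ← prod_fiberwise' S G.s (fun x => sg (σ x)),
      ← prod_fiberwise' S G.r (fun x => sg (σ x)), ← prod_mul_distrib]
    refine prod_congr rfl fun x _ => ?_
    rw [prod_const, prod_const, pow_add]
  simp only [h1]
  have h2 := prod_univ_sum (fun _ : V => (univ : Finset Bool)) (fun (x : V) (b : Bool) =>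
    sg b ^ ((S.filter (fun e => G.s e = x)).card + (S.filter (fun e => G.r e = x)).card))
  rw [Fintype.piFinset_univ] at h2
  rw [← h2]
  refine prod_nonneg fun x _ => ?_
  rw [Fintype.sum_bool]
  rcases neg_one_pow_eq_or ℝ
    ((S.filter (fun e => G.s e = x)).card + (S.filter (fun e => G.r e = x)).card) with h | h
  · simp [sg, h]
  · simp [sg, h]

theorem gi1_exp (G : Gr V E) (p q : E → ℝ) :
    Zs G p q = ∑ S ∈ (univ : Finset E).powerset, ((∏ e ∈ S, p e) * ∏ e ∈ univ \ S, q e) *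
      ∑ σ : V → Bool, ∏ e ∈ univ \ S, (sg (σ (G.s e)) * sg (σ (G.r e))) := by
  unfold Zs
  simp only [prod_add, prod_mul_distrib, mul_sum]
  rw [sum_comm]
  refine sum_congr rfl fun S _ => sum_congr rfl fun σ _ => ?_
  ring

theorem Zs_mono (G : Gr V E) (p q p' q' : E → ℝ) (hp : ∀ e, |p e| ≤ p' e) (hq : ∀ e, |q e| ≤ q' e) :
    |Zs G p q| ≤ Zs G p' q' := by
  rw [gi1_exp, gi1_exp]
  refine (abs_sum_le_sum_abs _ _).trans (sum_le_sum fun S _ => ?_)
  rw [abs_mul, abs_mul, abs_of_nonneg (gi1_mono G (univ \ S)), abs_prod, abs_prod]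
  refine mul_le_mul_of_nonneg_right ?_ (gi1_mono G _)
  exact mul_le_mul (prod_le_prod (fun _ _ => abs_nonneg _) fun e _ => hp e)
    (prod_le_prod (fun _ _ => abs_nonneg _) fun e _ => hq e)
    (prod_nonneg fun _ _ => abs_nonneg _)
    (prod_nonneg fun e _ => (abs_nonneg _).trans (hp e))

theorem gi1_s (a b : Bool) : sg a * sg b = 1 ∨ sg a * sg b = -1 := by
  cases a <;> cases b <;> simp [sg]

theorem gi1_fac (p q : ℝ) (a b : Bool) (h : |q| ≤ p) : 0 ≤ p + q * (sg a * sg b) := by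
  have h1 := abs_le.1 h
  rcases gi1_s a b with h | h <;> rw [h] <;> linarith

theorem Zs_pos (G : Gr V E) (p q : E → ℝ) (hp : ∀ e, 0 < p e) (hq : ∀ e, |q e| ≤ p e)
    (hq0 : ∀ e, 0 ≤ q e) : 0 < Zs G p q := by
  refine sum_pos' (fun σ _ => prod_nonneg fun e _ => gi1_fac _ _ _ _ (hq e))
    ⟨fun _ => true, mem_univ _, prod_pos fun e _ => ?_⟩
  have := hp e
  have := hq0 e
  simp only [sg, if_true]
  linarith

theorem Zv_pos (G : Gr V E) (t : E → ℝ) (h0 : ∀ e, 0 ≤ t e) (h1 : ∀ e, t e ≤ 1) : 0 < Zv G t :=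
  Zs_pos G _ _ (fun _ => one_pos) (fun e => by rw [abs_of_nonneg (h0 e)]; exact h1 e) h0

theorem Zv_mono (G : Gr V E) (t t' : E → ℝ) (h0 : ∀ e, 0 ≤ t e) (h : ∀ e, t e ≤ t' e) :
    Zv G t ≤ Zv G t' :=
  (le_abs_self _).trans (Zs_mono G _ _ _ _ (fun _ => by simp)
    fun e => by rw [abs_of_nonneg (h0 e)]; exact h e)

/-- the other factors. -/
noncomputable def gi1R (G : Gr V E) (t : E → ℝ) (e : E) (σ : V → Bool) : ℝ :=
  ∏ e' ∈ univ.erase e, (1 + t e' * (sg (σ (G.s e')) * sg (σ (G.r e'))))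

theorem gi1_upd (G : Gr V E) (t : E → ℝ) (e : E) (x : ℝ) :
    Zv G (Function.update t e x) =
      ∑ σ : V → Bool, (1 + x * (sg (σ (G.s e)) * sg (σ (G.r e)))) * gi1R G t e σ := by
  refine sum_congr rfl fun σ _ => ?_
  rw [← mul_prod_erase univ _ (mem_univ e), Function.update_self]
  congr 1
  refine prod_congr rfl fun e' he' => ?_
  rw [Function.update_of_ne (ne_of_mem_erase he')]

theorem Zv_upd (G : Gr V E) (t : E → ℝ) (e : E) (x : ℝ) :
    Zv G (Function.update t e x) =
      Zv G (Function.update t e 0) + x * (Zv G (Function.update t e 1) - Zv G (Function.update t e 0)) := by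
  rw [gi1_upd, gi1_upd, gi1_upd, ← sum_sub_distrib, mul_sum, ← sum_add_distrib]
  refine sum_congr rfl fun σ _ => ?_
  ring

theorem Zv_bd (G : Gr V E) (t : E → ℝ) (e : E) (h0 : ∀ e, 0 ≤ t e) (h1 : ∀ e, t e ≤ 1) :
    Zv G (Function.update t e 0) ≤ Zv G (Function.update t e 1) ∧
      Zv G (Function.update t e 1) ≤ 2 * Zv G (Function.update t e 0) := by
  constructor
  · refine Zv_mono G _ _ (fun e' => ?_) fun e' => ?_
    · by_cases h : e' = e
      · subst h; simp
      · rw [Function.update_of_ne h]; exact h0 e'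
    · by_cases h : e' = e
      · subst h; simp
      · rw [Function.update_of_ne h, Function.update_of_ne h]
  · rw [gi1_upd, gi1_upd, mul_sum]
    refine sum_le_sum fun σ _ => ?_
    have hR : 0 ≤ gi1R G t e σ := prod_nonneg fun e' _ =>
      gi1_fac _ _ _ _ (by rw [abs_of_nonneg (h0 e')]; exact h1 e')
    have : 1 + 1 * (sg (σ (G.s e)) * sg (σ (G.r e))) ≤ 2 := by
      rcases gi1_s (σ (G.s e)) (σ (G.r e)) with h | h <;> rw [h] <;> norm_num
    calc (1 + 1 * (sg (σ (G.s e)) * sg (σ (G.r e)))) * gi1R G t e σ ≤ 2 * gi1R G t e σ :=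
          mul_le_mul_of_nonneg_right this hR
      _ = 2 * ((1 + 0 * (sg (σ (G.s e)) * sg (σ (G.r e)))) * gi1R G t e σ) := by ring

theorem gi1_conn (G : Gr V E) (o : E → Bool) (σ : V → Bool)
    (h : ∏ e, (1 + bt o e * (sg (σ (G.s e)) * sg (σ (G.r e)))) ≠ 0) {u v : V}
    (huv : G.Conn (op1 o) u v) : σ u = σ v := by
  induction huv with
  | refl => rfl
  | tail _ h2 ih =>
    rw [ih]
    obtain ⟨e, he, hh⟩ := h2
    have h3 := prod_ne_zero_iff.1 h e (mem_univ e)
    have he' : o e = true := he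
    have h4 : σ (G.s e) = σ (G.r e) := by
      simp only [bt, he', if_true] at h3
      revert h3
      cases σ (G.s e) <;> cases σ (G.r e) <;> simp [sg]
    rcases hh with ⟨h5, h6⟩ | ⟨h5, h6⟩
    · rw [← h5, ← h6, h4]
    · rw [← h5, ← h6, h4]

theorem sg_not (b : Bool) : sg (!b) = -sg b := by cases b <;> simp [sg]

/-- two point function of the Ising model with pair weights `1 + bt o`: connectivity. -/
theorem Zv_conn (G : Gr V E) (o : E → Bool) (u v : V) :
    ∑ σ : V → Bool, (sg (σ u) * sg (σ v)) * ∏ e, (1 + bt o e * (sg (σ (G.s e)) * sg (σ (G.r e)))) =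
      ind (G.Conn (op1 o) u v) * Zv G (bt o) := by
  classical
  by_cases huv : G.Conn (op1 o) u v
  · rw [show ind (G.Conn (op1 o) u v) = 1 by simp [ind, huv], one_mul]
    refine sum_congr rfl fun σ _ => ?_
    by_cases h : ∏ e, (1 + bt o e * (sg (σ (G.s e)) * sg (σ (G.r e)))) = 0
    · rw [h, mul_zero]
    · rw [gi1_conn G o σ h huv]
      rcases gi1_s (σ v) (σ v) with h' | h'
      · rw [h', one_mul]
      · exfalso
        revert h'
        cases σ v <;> norm_num [sg]
  · rw [show ind (G.Conn (op1 o) u v) = 0 by simp [ind, huv], zero_mul]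
    -- flip the cluster of `u`
    let F : (V → Bool) → (V → Bool) := fun σ x => if G.Conn (op1 o) u x then !(σ x) else σ x
    have hF : Function.Involutive F := by
      intro σ
      funext x
      simp only [F]
      split_ifs <;> simp
    have hsum := (Equiv.sum_comp hF.toPerm (fun σ : V → Bool => (sg (σ u) * sg (σ v)) *
      ∏ e, (1 + bt o e * (sg (σ (G.s e)) * sg (σ (G.r e))))))
    have hneg : ∀ σ : V → Bool, (sg (F σ u) * sg (F σ v)) *
        ∏ e, (1 + bt o e * (sg (F σ (G.s e)) * sg (F σ (G.r e)))) =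
        -((sg (σ u) * sg (σ v)) * ∏ e, (1 + bt o e * (sg (σ (G.s e)) * sg (σ (G.r e))))) := by
      intro σ
      have e1 : F σ u = !(σ u) := by simp [F, H82.IC.conn_refl]
      have e2 : F σ v = σ v := by simp [F, huv]
      have e3 : ∏ e, (1 + bt o e * (sg (F σ (G.s e)) * sg (F σ (G.r e)))) =
          ∏ e, (1 + bt o e * (sg (σ (G.s e)) * sg (σ (G.r e)))) := by
        refine prod_congr rfl fun e _ => ?_
        by_cases he : o e = true
        · have hiff : G.Conn (op1 o) u (G.s e) ↔ G.Conn (op1 o) u (G.r e) :=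
            ⟨fun h => H82.IC.conn_trans G h (H82.IC.conn_edge G (ω := op1 o) he),
              fun h => H82.IC.conn_trans G h
                (H82.IC.conn_symm G (H82.IC.conn_edge G (ω := op1 o) he))⟩
          by_cases hc : G.Conn (op1 o) u (G.r e)
          · have hc' := hiff.2 hc
            simp [F, hc, hc', sg_not]
          · have hc' : ¬ G.Conn (op1 o) u (G.s e) := fun h => hc (hiff.1 h)
            simp [F, hc, hc']
        · simp [bt, he]
      rw [e1, e2, e3, sg_not]
      ring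
    have hs2 : ∑ σ : V → Bool, (sg (F σ u) * sg (F σ v)) *
        ∏ e, (1 + bt o e * (sg (F σ (G.s e)) * sg (F σ (G.r e)))) =
        ∑ σ : V → Bool, (sg (σ u) * sg (σ v)) *
          ∏ e, (1 + bt o e * (sg (σ (G.s e)) * sg (σ (G.r e)))) := hsum
    simp only [hneg, sum_neg_distrib] at hs2
    linarith

end H82.BX
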