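import Pool.Agent.H82.BX.GI1

/-!
# GI2: four partition functions

`Zs p1 q1 * Zs p2 q2 = ∑_{σ,σ'} ∏_e (p1 + q1 s)(p2 + q2 s')`; put `σ' = σ xor η` (bijection for fixed `σ`), so `s' = s h` with
`h = sg (η u) sg (η v) ∈ {1,-1}`.  For fixed `η` the product over `e` is `∏ (a_e + b_e s_e)` with
`h = 1`: `a = p1 p2 + q1 q2`, `b = p1 q2 + q1 p2`;  `h = -1`: `a = p1 p2 - q1 q2`, `b = q1 p2 - p1 q2`;
similarly for `3, 4`; apply `Zs_mono` for each `η` and sum.
-/

set_option autoImplicit false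

open Finset MeasureTheory

namespace H82.BX

open H82.IC

variable {V E : Type} [Fintype V] [DecidableEq V] [Fintype E] [DecidableEq E]

theorem GI2_sg_xor (a b : Bool) : sg (xor a b) = -(sg a * sg b) := by
  cases a <;> cases b <;> simp [sg]

theorem GI2_sg_sq (a : Bool) : sg a * sg a = 1 := by
  cases a <;> simp [sg]

/-- product of the signs of the ends. -/
def GI2_h (G : Gr V E) (η : V → Bool) (e : E) : ℝ := sg (η (G.s e)) * sg (η (G.r e))

theorem GI2_h_cases (G : Gr V E) (η : V → Bool) (e : E) : GI2_h G η e = 1 ∨ GI2_h G η e = -1 := by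
  unfold GI2_h
  cases η (G.s e) <;> cases η (G.r e) <;> simp [sg]

theorem GI2_mul (G : Gr V E) (p q p' q' : E → ℝ) :
    Zs G p q * Zs G p' q' =
      ∑ η : V → Bool, Zs G (fun e => p e * p' e + q e * q' e * GI2_h G η e)
        (fun e => q e * p' e + p e * q' e * GI2_h G η e) := by
  unfold Zs
  rw [Finset.sum_mul_sum, Finset.sum_comm' (s := univ) (t := fun _ => univ) (s' := fun _ => univ)
    (t' := univ) (by intro x y; simp)]
  rw [Finset.sum_comm]
  have hI : ∀ σ : V → Bool, Function.Involutive (fun η : V → Bool => fun x => xor (σ x) (η x)) := by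
    intro σ η
    funext x
    simp
  have key : ∀ σ : V → Bool,
      ∑ σ' : V → Bool, (∏ e, (p e + q e * (sg (σ (G.s e)) * sg (σ (G.r e))))) *
        ∏ e, (p' e + q' e * (sg (σ' (G.s e)) * sg (σ' (G.r e)))) =
      ∑ η : V → Bool, ∏ e, (p e * p' e + q e * q' e * GI2_h G η e +
        (q e * p' e + p e * q' e * GI2_h G η e) * (sg (σ (G.s e)) * sg (σ (G.r e)))) := by
    intro σ
    rw [← Equiv.sum_comp (hI σ).toPerm]
    refine Finset.sum_congr rfl fun η _ => ?_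
    rw [← Finset.prod_mul_distrib]
    refine Finset.prod_congr rfl fun e _ => ?_
    have h1 := GI2_sg_sq (σ (G.s e))
    have h2 := GI2_sg_sq (σ (G.r e))
    simp only [Function.Involutive.coe_toPerm]
    rw [GI2_sg_xor, GI2_sg_xor]
    unfold GI2_h
    generalize sg (σ (G.s e)) = a at *
    generalize sg (σ (G.r e)) = b at *
    generalize sg (η (G.s e)) = c at *
    generalize sg (η (G.r e)) = d at *
    have h3 : (a * b) * (a * b) = 1 := by
      calc (a * b) * (a * b) = (a * a) * (b * b) := by ring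
        _ = 1 := by rw [h1, h2, one_mul]
    linear_combination (q e * q' e * c * d) * h3
  calc _ = ∑ σ : V → Bool, ∑ σ' : V → Bool, (∏ e, (p e + q e * (sg (σ (G.s e)) * sg (σ (G.r e))))) *
        ∏ e, (p' e + q' e * (sg (σ' (G.s e)) * sg (σ' (G.r e)))) := by
        first | rfl | exact Finset.sum_comm
    _ = _ := by
        rw [Finset.sum_congr rfl fun σ _ => key σ, Finset.sum_comm]

theorem Zs_four (G : Gr V E) (p1 q1 p2 q2 p3 q3 p4 q4 : E → ℝ)
    (ha : ∀ e, |p1 e * p2 e + q1 e * q2 e| ≤ p3 e * p4 e + q3 e * q4 e)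
    (hb : ∀ e, |p1 e * q2 e + q1 e * p2 e| ≤ p3 e * q4 e + q3 e * p4 e)
    (hc : ∀ e, |p1 e * p2 e - q1 e * q2 e| ≤ p3 e * p4 e - q3 e * q4 e)
    (hd : ∀ e, |q1 e * p2 e - p1 e * q2 e| ≤ q3 e * p4 e - p3 e * q4 e) :
    Zs G p1 q1 * Zs G p2 q2 ≤ Zs G p3 q3 * Zs G p4 q4 := by
  rw [GI2_mul, GI2_mul]
  refine Finset.sum_le_sum fun η _ => ?_
  refine (le_abs_self _).trans (Zs_mono G _ _ _ _ (fun e => ?_) (fun e => ?_))
  · rcases GI2_h_cases G η e with h | h
    · simp only [h, mul_one]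
      exact ha e
    · simp only [h]
      have := hc e
      rw [show p1 e * p2 e + q1 e * q2 e * (-1) = p1 e * p2 e - q1 e * q2 e by ring,
        show p3 e * p4 e + q3 e * q4 e * (-1) = p3 e * p4 e - q3 e * q4 e by ring]
      exact this
  · rcases GI2_h_cases G η e with h | h
    · simp only [h, mul_one]
      have := hb e
      rw [show q1 e * p2 e + p1 e * q2 e = p1 e * q2 e + q1 e * p2 e by ring,
        show q3 e * p4 e + p3 e * q4 e = p3 e * q4 e + q3 e * p4 e by ring]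
      exact this
    · simp only [h]
      have := hd e
      rw [show q1 e * p2 e + p1 e * q2 e * (-1) = q1 e * p2 e - p1 e * q2 e by ring,
        show q3 e * p4 e + p3 e * q4 e * (-1) = q3 e * p4 e - p3 e * q4 e by ring]
      exact this

/-- exponential pair weights: `K4 ≤ K1, K2 ≤ K3`, `K1 + K2 ≤ K3 + K4`, all `≥ 0`. -/
theorem four_exp (K1 K2 K3 K4 : ℝ) (h4 : 0 ≤ K4) (h41 : K4 ≤ K1) (h42 : K4 ≤ K2) (h13 : K1 ≤ K3)
    (h23 : K2 ≤ K3) (hs : K1 + K2 ≤ K3 + K4) :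
    |Real.cosh K1 * Real.cosh K2 + Real.sinh K1 * Real.sinh K2| ≤
        Real.cosh K3 * Real.cosh K4 + Real.sinh K3 * Real.sinh K4 ∧
    |Real.cosh K1 * Real.sinh K2 + Real.sinh K1 * Real.cosh K2| ≤
        Real.cosh K3 * Real.sinh K4 + Real.sinh K3 * Real.cosh K4 ∧
    |Real.cosh K1 * Real.cosh K2 - Real.sinh K1 * Real.sinh K2| ≤
        Real.cosh K3 * Real.cosh K4 - Real.sinh K3 * Real.sinh K4 ∧
    |Real.sinh K1 * Real.cosh K2 - Real.cosh K1 * Real.sinh K2| ≤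
        Real.sinh K3 * Real.cosh K4 - Real.cosh K3 * Real.sinh K4 := by
  have hd : |K1 - K2| ≤ K3 - K4 := abs_le.2 ⟨by linarith, by linarith⟩
  refine ⟨?_, ?_, ?_, ?_⟩
  · rw [← Real.cosh_add, ← Real.cosh_add, abs_of_pos (Real.cosh_pos _), Real.cosh_le_cosh,
      abs_of_nonneg (by linarith), abs_of_nonneg (by linarith)]
    exact hs
  · rw [show Real.cosh K1 * Real.sinh K2 + Real.sinh K1 * Real.cosh K2 = Real.sinh (K1 + K2) by
        rw [Real.sinh_add]; ring,
      show Real.cosh K3 * Real.sinh K4 + Real.sinh K3 * Real.cosh K4 = Real.sinh (K3 + K4) by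
        rw [Real.sinh_add]; ring,
      abs_of_nonneg (Real.sinh_nonneg_iff.2 (by linarith)), Real.sinh_le_sinh]
    exact hs
  · rw [← Real.cosh_sub, ← Real.cosh_sub, abs_of_pos (Real.cosh_pos _), Real.cosh_le_cosh]
    exact hd.trans (le_abs_self _)
  · rw [← Real.sinh_sub, ← Real.sinh_sub, Real.abs_sinh, Real.sinh_le_sinh]
    exact hd

/-- frozen pair weights `1 + u s`. -/
theorem four_bit (u1 u2 : ℝ) (h1 : 0 ≤ u1) (h1' : u1 ≤ 1) (h2 : 0 ≤ u2) (h2' : u2 ≤ 1) :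
    |1 * 1 + u1 * u2| ≤ 1 * 1 + max u1 u2 * min u1 u2 ∧
    |1 * u2 + u1 * 1| ≤ 1 * min u1 u2 + max u1 u2 * 1 ∧
    |1 * 1 - u1 * u2| ≤ 1 * 1 - max u1 u2 * min u1 u2 ∧
    |u1 * 1 - 1 * u2| ≤ max u1 u2 * 1 - 1 * min u1 u2 := by
  have h0 : 0 ≤ u1 * u2 := mul_nonneg h1 h2
  have h3 : u1 * u2 ≤ 1 := by nlinarith
  rcases le_total u1 u2 with h | h
  · rw [max_eq_right h, min_eq_left h]
    refine ⟨?_, ?_, ?_, ?_⟩ <;> refine abs_le.2 ⟨?_, ?_⟩ <;> nlinarith
  · rw [max_eq_left h, min_eq_right h]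
    refine ⟨?_, ?_, ?_, ?_⟩ <;> refine abs_le.2 ⟨?_, ?_⟩ <;> nlinarith

end H82.BX
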