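import Pool.Agent.H82.BX.GI1

/-!
# GI3: summing the inner signs of the chains

`LK4 G` has the pairs `(e, j)`, `j < 3` the links of the chain of `e`, and `(e, 3)` the direct pair `s e, r e`.
`chain_sum`: write `SV → Bool` as (signs on `V`) × (signs on `E × Bool`), the weight factorises over `e` for fixed signs on `V`; for
`e ∈ B` the inner signs are free (factor 4); for `e ∉ B`:
`∑_{a,b = ±1} (C0 + S0 s a)(C1 + S1 a b)(C2 + S2 b s') = 4 (C0 C1 C2 + S0 S1 S2 s s') = 4 C0 C1 C2 (1 + T0 T1 T2 s s')`,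
`C = cosh`, `S = sinh`, `T = tanh`.
-/

set_option autoImplicit false

open Finset MeasureTheory

namespace H82.BX

open H82.IC

variable {V E : Type} [Fintype V] [DecidableEq V] [Fintype E] [DecidableEq E]

/-- links and direct pairs. -/
def LK4 (G : Gr V E) : Gr (SV V E) (E × Fin 4) where
  s l := (![Sum.inl (G.s l.1), Sum.inr (l.1, false), Sum.inr (l.1, true), Sum.inl (G.s l.1)] :
    Fin 4 → SV V E) l.2
  r l := (![Sum.inr (l.1, false), Sum.inr (l.1, true), Sum.inl (G.r l.1), Sum.inl (G.r l.1)] :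
    Fin 4 → SV V E) l.2

/-- weights `p` for couplings `K` on the links of `e ∉ B` and direct weights `1 + u s` for `e ∈ B`. -/
noncomputable def p4 (B : Finset E) (K : E × Fin 3 → ℝ) (l : E × Fin 4) : ℝ :=
  if l.1 ∈ B then 1 else
    (![Real.cosh (K (l.1, 0)), Real.cosh (K (l.1, 1)), Real.cosh (K (l.1, 2)), 1] : Fin 4 → ℝ) l.2

noncomputable def q4 (B : Finset E) (K : E × Fin 3 → ℝ) (u : E → ℝ) (l : E × Fin 4) : ℝ :=
  if l.1 ∈ B then (![0, 0, 0, u l.1] : Fin 4 → ℝ) l.2 else
    (![Real.sinh (K (l.1, 0)), Real.sinh (K (l.1, 1)), Real.sinh (K (l.1, 2)), 0] : Fin 4 → ℝ) l.2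

/-- signs on the vertices and pairs of inner signs. -/
def gi3Eq (V E : Type) : (V → Bool) × (E → Bool × Bool) ≃ (SV V E → Bool) where
  toFun x := Sum.elim x.1 (fun q => if q.2 then (x.2 q.1).2 else (x.2 q.1).1)
  invFun σ := (fun v => σ (Sum.inl v), fun e => (σ (Sum.inr (e, false)), σ (Sum.inr (e, true))))
  left_inv x := by
    rcases x with ⟨x1, x2⟩
    simp
  right_inv σ := by
    funext w
    rcases w with v | ⟨e, b⟩
    · rfl
    · cases b <;> rfl

/-- the factor of the edge `e`. -/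
noncomputable def gi3h (G : Gr V E) (B : Finset E) (K : E × Fin 3 → ℝ) (u : E → ℝ) (α : V → Bool)
    (e : E) (t : Bool × Bool) : ℝ :=
  (p4 B K (e, 0) + q4 B K u (e, 0) * (sg (α (G.s e)) * sg t.1)) *
  (p4 B K (e, 1) + q4 B K u (e, 1) * (sg t.1 * sg t.2)) *
  (p4 B K (e, 2) + q4 B K u (e, 2) * (sg t.2 * sg (α (G.r e)))) *
  (p4 B K (e, 3) + q4 B K u (e, 3) * (sg (α (G.s e)) * sg (α (G.r e))))

theorem gi3_sum (G : Gr V E) (B : Finset E) (K : E × Fin 3 → ℝ) (u : E → ℝ) (α : V → Bool)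
    (e : E) : ∑ t : Bool × Bool, gi3h G B K u α e t =
      4 * (if e ∉ B then ∏ j : Fin 3, Real.cosh (K (e, j)) else 1) *
        (1 + (if e ∈ B then u e else ∏ j : Fin 3, Real.tanh (K (e, j))) *
          (sg (α (G.s e)) * sg (α (G.r e)))) := by
  rw [Fintype.sum_prod_type]
  simp only [Fintype.sum_bool, gi3h, p4, q4]
  by_cases he : e ∈ B
  · simp only [he, if_true, not_true, if_false]
    simp [sg]
    ring
  · simp only [he, if_false, not_false_iff, if_true, Fin.prod_univ_three,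
      Real.tanh_eq_sinh_div_cosh]
    have h0 := (Real.cosh_pos (K (e, 0))).ne'
    have h1 := (Real.cosh_pos (K (e, 1))).ne'
    have h2 := (Real.cosh_pos (K (e, 2))).ne'
    simp only [Matrix.cons_val_zero, Matrix.cons_val_one, Matrix.cons_val]
    have e1 : sg true = 1 := rfl
    have e2 : sg false = -1 := rfl
    rw [e1, e2]
    field_simp
    ring

theorem chain_sum (G : Gr V E) (B : Finset E) (K : E × Fin 3 → ℝ) (u : E → ℝ) :
    Zs (LK4 G) (p4 B K) (q4 B K u) =
      4 ^ Fintype.card E * (∏ e ∈ univ \ B, ∏ j : Fin 3, Real.cosh (K (e, j))) *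
        Zv G (fun e => if e ∈ B then u e else ∏ j : Fin 3, Real.tanh (K (e, j))) := by
  classical
  have h1 : Zs (LK4 G) (p4 B K) (q4 B K u) =
      ∑ x : (V → Bool) × (E → Bool × Bool), ∏ e, gi3h G B K u x.1 e (x.2 e) := by
    unfold Zs
    rw [← Equiv.sum_comp (gi3Eq V E)]
    refine sum_congr rfl fun x _ => ?_
    rw [Fintype.prod_prod_type]
    refine prod_congr rfl fun e _ => ?_
    rw [Fin.prod_univ_four]
    rfl
  rw [h1, Fintype.sum_prod_type]
  have h2 : ∀ α : V → Bool, ∑ τ : E → Bool × Bool, ∏ e, gi3h G B K u α e (τ e) =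
      ∏ e, ∑ t : Bool × Bool, gi3h G B K u α e t := by
    intro α
    rw [prod_univ_sum, Fintype.piFinset_univ]
  simp only [h2, gi3_sum]
  unfold Zv Zs
  rw [mul_sum]
  refine sum_congr rfl fun α _ => ?_
  rw [prod_mul_distrib, prod_mul_distrib, prod_const, card_univ]
  congr 2
  rw [← prod_filter]
  refine prod_congr ?_ fun _ _ => rfl
  ext e
  simp

end H82.BX
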