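import Pool.Agent.H82.BX.GI2
import Pool.Agent.H82.BX.GI3

/-!
# GI4: log-supermodularity in the moduli

`Lc_σ(c, u) = (∏_{e ∉ B} ∏_j cosh la) Zv(u on B, rr c off B) = 4^{-|E|} Zs (LK4 G) (p4 B la) (q4 B la u)` (`chain_sum`).
`Zs_four` with `1 = (c,u)`, `2 = (c',u')`, `3 = (c ⊔ c', u ⊔ u')`, `4 = (c ⊓ c', u ⊓ u')`: on a link the couplings are
`K_i = b x_i y_i` with `x_3 = max x_1 x_2`, `x_4 = min x_1 x_2` (`cc` is monotone, `Fin` is a linear order), same for `y`;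
`four_exp` (`x_1 y_1 + x_2 y_2 ≤ x_3 y_3 + x_4 y_4` for nonnegative numbers); on a direct pair `four_bit`; for the pairs with weights
`(1, 0)` the conditions are trivial.  For the sine part `ss` is antitone: `3` and `4` are exchanged.
-/

set_option autoImplicit false

open Finset MeasureTheory

namespace H82.BX

open H82.IC

variable {V E : Type} [Fintype V] [DecidableEq V] [Fintype E] [DecidableEq E]

/-- cosine part. -/
noncomputable def Ls (G : Gr V E) (M : Al) (b : ℝ) (B : Finset E) (c : SV V E → Fin (M.k + 1))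
    (u : E → ℝ) : ℝ :=
  (∏ e ∈ univ \ B, ∏ j : Fin 3, Real.cosh (la G M b c (e, j))) *
    Zv G (fun e => if e ∈ B then u e else rr G M b c e)

/-- sine part. -/
noncomputable def Lt (G : Gr V E) (M : Al) (b : ℝ) (B : Finset E) (c : SV V E → Fin (M.k + 1))
    (u : E → ℝ) : ℝ :=
  (∏ e ∈ univ \ B, ∏ j : Fin 3, Real.cosh (lb G M b c (e, j))) *
    Zv G (fun e => if e ∈ B then u e else tt G M b c e)

/-- general form: couplings `K`. -/
private noncomputable def FK (G : Gr V E) (B : Finset E) (K : E × Fin 3 → ℝ) (u : E → ℝ) : ℝ :=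
  (∏ e ∈ univ \ B, ∏ j : Fin 3, Real.cosh (K (e, j))) *
    Zv G (fun e => if e ∈ B then u e else ∏ j : Fin 3, Real.tanh (K (e, j)))

private theorem Zs_eq_FK (G : Gr V E) (B : Finset E) (K : E × Fin 3 → ℝ) (u : E → ℝ) :
    Zs (LK4 G) (p4 B K) (q4 B K u) = 4 ^ Fintype.card E * FK G B K u := by
  rw [chain_sum, FK, mul_assoc]

private theorem FK_four (G : Gr V E) (B : Finset E) (K1 K2 K3 K4 : E × Fin 3 → ℝ) (u u' : E → ℝ)
    (h4 : ∀ l, 0 ≤ K4 l) (h41 : ∀ l, K4 l ≤ K1 l) (h42 : ∀ l, K4 l ≤ K2 l) (h13 : ∀ l, K1 l ≤ K3 l)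
    (h23 : ∀ l, K2 l ≤ K3 l) (hs : ∀ l, K1 l + K2 l ≤ K3 l + K4 l)
    (h0 : ∀ e ∈ B, 0 ≤ u e) (h1 : ∀ e ∈ B, u e ≤ 1)
    (h0' : ∀ e ∈ B, 0 ≤ u' e) (h1' : ∀ e ∈ B, u' e ≤ 1) :
    FK G B K1 u * FK G B K2 u' ≤ FK G B K3 (u ⊔ u') * FK G B K4 (u ⊓ u') := by
  have key := Zs_four (LK4 G) (p4 B K1) (q4 B K1 u) (p4 B K2) (q4 B K2 u')
    (p4 B K3) (q4 B K3 (u ⊔ u')) (p4 B K4) (q4 B K4 (u ⊓ u'))
  have main : ∀ l : E × Fin 4,
      |p4 B K1 l * p4 B K2 l + q4 B K1 u l * q4 B K2 u' l| ≤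
        p4 B K3 l * p4 B K4 l + q4 B K3 (u ⊔ u') l * q4 B K4 (u ⊓ u') l ∧
      |p4 B K1 l * q4 B K2 u' l + q4 B K1 u l * p4 B K2 l| ≤
        p4 B K3 l * q4 B K4 (u ⊓ u') l + q4 B K3 (u ⊔ u') l * p4 B K4 l ∧
      |p4 B K1 l * p4 B K2 l - q4 B K1 u l * q4 B K2 u' l| ≤
        p4 B K3 l * p4 B K4 l - q4 B K3 (u ⊔ u') l * q4 B K4 (u ⊓ u') l ∧
      |q4 B K1 u l * p4 B K2 l - p4 B K1 l * q4 B K2 u' l| ≤
        q4 B K3 (u ⊔ u') l * p4 B K4 l - p4 B K3 l * q4 B K4 (u ⊓ u') l := by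
    rintro ⟨e, j⟩
    by_cases he : e ∈ B
    · have hb := four_bit (u e) (u' e) (h0 e he) (h1 e he) (h0' e he) (h1' e he)
      fin_cases j
      · simp [p4, q4, he]
      · simp [p4, q4, he]
      · simp [p4, q4, he]
      · have hm : (u ⊔ u') e = max (u e) (u' e) := rfl
        have hn : (u ⊓ u') e = min (u e) (u' e) := rfl
        have e1 : ∀ K : E × Fin 3 → ℝ, p4 B K (e, (3 : Fin 4)) = 1 := fun K => by simp [p4, he]
        have e2 : ∀ (K : E × Fin 3 → ℝ) (v : E → ℝ), q4 B K v (e, (3 : Fin 4)) = v e :=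
          fun K v => by simp [q4, he]
        change _ ∧ _ ∧ _ ∧ _
        simp only [Fin.reduceFinMk, e1, e2, hm, hn]
        exact hb
    · have hx := fun j : Fin 3 => four_exp (K1 (e, j)) (K2 (e, j)) (K3 (e, j)) (K4 (e, j))
        (h4 _) (h41 _) (h42 _) (h13 _) (h23 _) (hs _)
      fin_cases j
      · simpa [p4, q4, he] using hx 0
      · simpa [p4, q4, he] using hx 1
      · simpa [p4, q4, he] using hx 2
      · simp [p4, q4, he]
  have hk := key (fun l => (main l).1) (fun l => (main l).2.1) (fun l => (main l).2.2.1)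
    (fun l => (main l).2.2.2)
  rw [Zs_eq_FK, Zs_eq_FK, Zs_eq_FK, Zs_eq_FK] at hk
  have hpos : (0 : ℝ) < 4 ^ Fintype.card E * 4 ^ Fintype.card E := by positivity
  have : (4 ^ Fintype.card E * 4 ^ Fintype.card E : ℝ) * (FK G B K1 u * FK G B K2 u') ≤
      (4 ^ Fintype.card E * 4 ^ Fintype.card E : ℝ) * (FK G B K3 (u ⊔ u') * FK G B K4 (u ⊓ u')) := by
    nlinarith [hk]
  exact le_of_mul_le_mul_left this hpos

private theorem prod_four {b x1 x2 y1 y2 : ℝ} (hb : 0 ≤ b) (hx1 : 0 ≤ x1) (hx2 : 0 ≤ x2) (hy1 : 0 ≤ y1)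
    (hy2 : 0 ≤ y2) :
    0 ≤ b * (min x1 x2 * min y1 y2) ∧
    b * (min x1 x2 * min y1 y2) ≤ b * (x1 * y1) ∧
    b * (min x1 x2 * min y1 y2) ≤ b * (x2 * y2) ∧
    b * (x1 * y1) ≤ b * (max x1 x2 * max y1 y2) ∧
    b * (x2 * y2) ≤ b * (max x1 x2 * max y1 y2) ∧
    b * (x1 * y1) + b * (x2 * y2) ≤ b * (max x1 x2 * max y1 y2) + b * (min x1 x2 * min y1 y2) := by
  have hmx : 0 ≤ min x1 x2 := le_min hx1 hx2
  have hmy : 0 ≤ min y1 y2 := le_min hy1 hy2
  refine ⟨mul_nonneg hb (mul_nonneg hmx hmy), ?_, ?_, ?_, ?_, ?_⟩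
  · exact mul_le_mul_of_nonneg_left (mul_le_mul (min_le_left _ _) (min_le_left _ _) hmy hx1) hb
  · exact mul_le_mul_of_nonneg_left (mul_le_mul (min_le_right _ _) (min_le_right _ _) hmy hx2) hb
  · exact mul_le_mul_of_nonneg_left
      (mul_le_mul (le_max_left _ _) (le_max_left _ _) hy1 (hx1.trans (le_max_left _ _))) hb
  · exact mul_le_mul_of_nonneg_left
      (mul_le_mul (le_max_right _ _) (le_max_right _ _) hy2 (hx1.trans (le_max_left _ _))) hb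
  · rw [← mul_add, ← mul_add]
    apply mul_le_mul_of_nonneg_left _ hb
    rcases le_total x1 x2 with hx | hx <;> rcases le_total y1 y2 with hy | hy
    · rw [max_eq_right hx, max_eq_right hy, min_eq_left hx, min_eq_left hy]; linarith
    · rw [max_eq_right hx, max_eq_left hy, min_eq_left hx, min_eq_right hy]
      nlinarith [mul_nonneg (sub_nonneg.2 hx) (sub_nonneg.2 hy)]
    · rw [max_eq_left hx, max_eq_right hy, min_eq_right hx, min_eq_left hy]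
      nlinarith [mul_nonneg (sub_nonneg.2 hx) (sub_nonneg.2 hy)]
    · rw [max_eq_left hx, max_eq_left hy, min_eq_right hx, min_eq_right hy]

theorem Ls_super (G : Gr V E) (M : Al) (hM : M.Ok) (b : ℝ) (hb : 0 ≤ b) (B : Finset E)
    (c c' : SV V E → Fin (M.k + 1)) (u u' : E → ℝ) (h0 : ∀ e ∈ B, 0 ≤ u e) (h1 : ∀ e ∈ B, u e ≤ 1)
    (h0' : ∀ e ∈ B, 0 ≤ u' e) (h1' : ∀ e ∈ B, u' e ≤ 1) :
    Ls G M b B c u * Ls G M b B c' u' ≤ Ls G M b B (c ⊓ c') (u ⊓ u') * Ls G M b B (c ⊔ c') (u ⊔ u') := by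
  have hsup : ∀ w, M.cc ((c ⊔ c') w) = max (M.cc (c w)) (M.cc (c' w)) := fun w =>
    hM.mono.map_sup _ _
  have hinf : ∀ w, M.cc ((c ⊓ c') w) = min (M.cc (c w)) (M.cc (c' w)) := fun w =>
    hM.mono.map_inf _ _
  have hp := fun l : E × Fin 3 => prod_four (b := b) hb (hM.cc0 (c ((LK G).s l))).le
    (hM.cc0 (c' ((LK G).s l))).le (hM.cc0 (c ((LK G).r l))).le (hM.cc0 (c' ((LK G).r l))).le
  have key := FK_four G B (la G M b c) (la G M b c') (la G M b (c ⊔ c')) (la G M b (c ⊓ c')) u u'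
    (fun l => by simp only [la, hinf]; exact (hp l).1)
    (fun l => by simp only [la, hinf]; exact (hp l).2.1)
    (fun l => by simp only [la, hinf]; exact (hp l).2.2.1)
    (fun l => by simp only [la, hsup]; exact (hp l).2.2.2.1)
    (fun l => by simp only [la, hsup]; exact (hp l).2.2.2.2.1)
    (fun l => by simp only [la, hsup, hinf]; exact (hp l).2.2.2.2.2) h0 h1 h0' h1'
  rw [mul_comm (Ls G M b B (c ⊓ c') (u ⊓ u'))]
  exact key

theorem Lt_super (G : Gr V E) (M : Al) (hM : M.Ok) (b : ℝ) (hb : 0 ≤ b) (B : Finset E)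
    (c c' : SV V E → Fin (M.k + 1)) (u u' : E → ℝ) (h0 : ∀ e ∈ B, 0 ≤ u e) (h1 : ∀ e ∈ B, u e ≤ 1)
    (h0' : ∀ e ∈ B, 0 ≤ u' e) (h1' : ∀ e ∈ B, u' e ≤ 1) :
    Lt G M b B c u * Lt G M b B c' u' ≤ Lt G M b B (c ⊓ c') (u ⊔ u') * Lt G M b B (c ⊔ c') (u ⊓ u') := by
  have hsup : ∀ w, M.ss ((c ⊔ c') w) = min (M.ss (c w)) (M.ss (c' w)) := fun w =>
    hM.anti.map_sup _ _
  have hinf : ∀ w, M.ss ((c ⊓ c') w) = max (M.ss (c w)) (M.ss (c' w)) := fun w =>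
    hM.anti.map_inf _ _
  have hp := fun l : E × Fin 3 => prod_four (b := b) hb (hM.ss0 (c ((LK G).s l))).le
    (hM.ss0 (c' ((LK G).s l))).le (hM.ss0 (c ((LK G).r l))).le (hM.ss0 (c' ((LK G).r l))).le
  exact FK_four G B (lb G M b c) (lb G M b c') (lb G M b (c ⊓ c')) (lb G M b (c ⊔ c')) u u'
    (fun l => by simp only [lb, hsup]; exact (hp l).1)
    (fun l => by simp only [lb, hsup]; exact (hp l).2.1)
    (fun l => by simp only [lb, hsup]; exact (hp l).2.2.1)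
    (fun l => by simp only [lb, hinf]; exact (hp l).2.2.2.1)
    (fun l => by simp only [lb, hinf]; exact (hp l).2.2.2.2.1)
    (fun l => by simp only [lb, hsup, hinf]; exact (hp l).2.2.2.2.2) h0 h1 h0' h1'

end H82.BX
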