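import Pool.Agent.H82.BX.GI4
import Pool.Agent.H82.BX.GI5

/-!
# GI6: monotonicity of conditional expectations (main monotonicity statement)

`AA = ∏_j cosh la · ∏_j cosh lb`, so
`SB(f) = ∑_{c = c0 on A} wv(c) Ls(c, bt o0) Lt(c, tB) g(c, o0)` with
`g(c, o0) = fo G B (rr c) o0 (f c) / fo G B (rr c) o0 1` (`fo_sum`: `(∏_{e∉B} ∏ cosh la) · fo(1) = Ls`).
`rr c` is monotone in `c` (`0 ≤ rr ≤ 1`), so `g(c, o0) ≤ g(c', o0')` for `c ≤ c'`, `o0 ≤ o0'` on `B` (`fo_mono`, `f` increasing).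
Holley's inequality on the finite distributive lattice `SV V E → Fin (k+1)` for
`f1 c = 1[c = c0 on A] wv(c) Ls(c, bt o0) Lt(c, tB)`, `f2 c = 1[c = c0' on A] wv(c) Ls(c, bt o0') Lt(c, tB')`
(normalised): `wv c wv c' = wv (c ⊓ c') wv (c ⊔ c')` (product of functions of one coordinate), `Ls_super`, `Lt_super`
(`bt o0 ⊓ bt o0' = bt o0` on `B`; only the values on `B` matter).  The observable `g` has to be made nonnegative by a constant.
`asc`: `B = ∅`, `A = ∅`: `fkg` for the weight `wv Ls Lt` on the `c` and `fo_fkg` for the bits.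
-/

set_option autoImplicit false

open Finset MeasureTheory

namespace H82.BX

open H82.IC

variable {V E : Type} [Fintype V] [DecidableEq V] [Fintype E] [DecidableEq E]

theorem GI6_tanh_mono {x y : ℝ} (h : x ≤ y) : Real.tanh x ≤ Real.tanh y := by
  rw [Real.tanh_eq_sinh_div_cosh, Real.tanh_eq_sinh_div_cosh,
    div_le_div_iff₀ (Real.cosh_pos x) (Real.cosh_pos y)]
  have h1 := Real.sinh_sub y x
  have h2 : 0 ≤ Real.sinh (y - x) := Real.sinh_nonneg_iff.2 (sub_nonneg.2 h)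
  rw [h1] at h2
  linarith [mul_comm (Real.cosh y) (Real.sinh x)]

theorem GI6_tanh_pos {x : ℝ} (h : 0 < x) : 0 < Real.tanh x := by
  rw [Real.tanh_eq_sinh_div_cosh]
  exact div_pos (Real.sinh_pos_iff.2 h) (Real.cosh_pos x)

theorem GI6_three {f : Fin 3 → ℝ} (h0 : ∀ j, 0 < f j) (h1 : ∀ j, f j < 1) :
    0 < ∏ j, f j ∧ ∏ j, f j < 1 := by
  refine ⟨Finset.prod_pos fun j _ => h0 j, ?_⟩
  rw [Fin.prod_univ_three]
  have a0 := h0 0
  have a1 := h0 1
  have a2 := h0 2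
  have b0 := h1 0
  have b1 := h1 1
  have b2 := h1 2
  have c1 : f 0 * f 1 < 1 := mul_lt_one_of_nonneg_of_lt_one_left a0.le b0 b1.le
  exact mul_lt_one_of_nonneg_of_lt_one_left (mul_pos a0 a1).le c1 b2.le

theorem GI6_la_pos (G : Gr V E) (M : Al) (hM : M.Ok) (b : ℝ) (hb : 0 < b)
    (c : SV V E → Fin (M.k + 1)) (l : E × Fin 3) : 0 < la G M b c l :=
  mul_pos hb (mul_pos (hM.cc0 _) (hM.cc0 _))

theorem GI6_lb_pos (G : Gr V E) (M : Al) (hM : M.Ok) (b : ℝ) (hb : 0 < b)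
    (c : SV V E → Fin (M.k + 1)) (l : E × Fin 3) : 0 < lb G M b c l :=
  mul_pos hb (mul_pos (hM.ss0 _) (hM.ss0 _))

theorem rr_bd (G : Gr V E) (M : Al) (hM : M.Ok) (b : ℝ) (hb : 0 < b) (c : SV V E → Fin (M.k + 1)) (e : E) :
    0 < rr G M b c e ∧ rr G M b c e < 1 ∧ 0 < tt G M b c e ∧ tt G M b c e < 1 := by
  have h1 := GI6_three (f := fun j => Real.tanh (la G M b c (e, j)))
    (fun j => GI6_tanh_pos (GI6_la_pos G M hM b hb c (e, j))) (fun j => Real.tanh_lt_one _)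
  have h2 := GI6_three (f := fun j => Real.tanh (lb G M b c (e, j)))
    (fun j => GI6_tanh_pos (GI6_lb_pos G M hM b hb c (e, j))) (fun j => Real.tanh_lt_one _)
  exact ⟨h1.1, h1.2, h2.1, h2.2⟩

theorem rr_mono (G : Gr V E) (M : Al) (hM : M.Ok) (b : ℝ) (hb : 0 < b) (c c' : SV V E → Fin (M.k + 1))
    (h : c ≤ c') (e : E) : rr G M b c e ≤ rr G M b c' e ∧ tt G M b c' e ≤ tt G M b c e := by
  constructor
  · refine Finset.prod_le_prod (fun j _ => (GI6_tanh_pos (GI6_la_pos G M hM b hb c (e, j))).le)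
      fun j _ => GI6_tanh_mono ?_
    exact mul_le_mul_of_nonneg_left (mul_le_mul (hM.mono (h _)) (hM.mono (h _)) (hM.cc0 _).le
      (hM.cc0 _).le) hb.le
  · refine Finset.prod_le_prod (fun j _ => (GI6_tanh_pos (GI6_lb_pos G M hM b hb c' (e, j))).le)
      fun j _ => GI6_tanh_mono ?_
    exact mul_le_mul_of_nonneg_left (mul_le_mul (hM.anti (h _)) (hM.anti (h _)) (hM.ss0 _).le
      (hM.ss0 _).le) hb.le

theorem GI6_bt (o : E → Bool) (e : E) : 0 ≤ bt o e ∧ bt o e ≤ 1 := by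
  unfold bt
  split_ifs <;> norm_num

theorem GI6_wv_pos (M : Al) (hM : M.Ok) (l : ℝ) (c : SV V E → Fin (M.k + 1)) : 0 < wv M l c :=
  Finset.prod_pos fun w _ => mul_pos (hM.nu0 _) (Real.exp_pos _)

theorem GI6_AA_pos (G : Gr V E) (M : Al) (b : ℝ) (c : SV V E → Fin (M.k + 1)) (e : E) :
    0 < AA G M b c e :=
  Finset.prod_pos fun j _ => mul_pos (Real.cosh_pos _) (Real.cosh_pos _)

theorem GI6_bit (G : Gr V E) (M : Al) (hM : M.Ok) (b : ℝ) (hb : 0 < b)
    (c : SV V E → Fin (M.k + 1)) (o : E → Bool) (e : E) :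
    0 < (if o e then rr G M b c e else 1 - rr G M b c e) := by
  have h := rr_bd G M hM b hb c e
  split_ifs
  · exact h.1
  · linarith [h.2.1]

theorem W_pos (G : Gr V E) (M : Al) (hM : M.Ok) (b l : ℝ) (hb : 0 < b) (c : SV V E → Fin (M.k + 1))
    (o : E → Bool) : 0 < W G M b l c o := by
  unfold W
  refine mul_pos (mul_pos (GI6_wv_pos M hM l c) (Finset.prod_pos fun e _ =>
    mul_pos (GI6_AA_pos G M b c e) (GI6_bit G M hM b hb c o e))) (mul_pos ?_ ?_)
  · exact Zv_pos G _ (fun e => (GI6_bt o e).1) (fun e => (GI6_bt o e).2)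
  · exact Zv_pos G _ (fun e => (rr_bd G M hM b hb c e).2.2.1.le)
      (fun e => (rr_bd G M hM b hb c e).2.2.2.le)

theorem GI6_Zt_pos (G : Gr V E) (M : Al) (hM : M.Ok) (b : ℝ) (hb : 0 < b)
    (B : Finset E) (tB : E → ℝ) (h0 : ∀ e ∈ B, 0 ≤ tB e) (h1 : ∀ e ∈ B, tB e ≤ 1)
    (c : SV V E → Fin (M.k + 1)) :
    0 < Zv G (fun e => if e ∈ B then tB e else tt G M b c e) := by
  refine Zv_pos G _ (fun e => ?_) (fun e => ?_)
  · by_cases he : e ∈ B
    · rw [if_pos he]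
      exact h0 e he
    · rw [if_neg he]
      exact (rr_bd G M hM b hb c e).2.2.1.le
  · by_cases he : e ∈ B
    · rw [if_pos he]
      exact h1 e he
    · rw [if_neg he]
      exact (rr_bd G M hM b hb c e).2.2.2.le

theorem GI6_Zr_pos (G : Gr V E) (M : Al) (hM : M.Ok) (b : ℝ) (hb : 0 < b)
    (B : Finset E) (o : E → Bool) (c : SV V E → Fin (M.k + 1)) :
    0 < Zv G (fun e => if e ∈ B then bt o e else rr G M b c e) := by
  refine Zv_pos G _ (fun e => ?_) (fun e => ?_)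
  · by_cases he : e ∈ B
    · rw [if_pos he]
      exact (GI6_bt o e).1
    · rw [if_neg he]
      exact (rr_bd G M hM b hb c e).1.le
  · by_cases he : e ∈ B
    · rw [if_pos he]
      exact (GI6_bt o e).2
    · rw [if_neg he]
      exact (rr_bd G M hM b hb c e).2.1.le

theorem GI6_WB_pos (G : Gr V E) (M : Al) (hM : M.Ok) (b l : ℝ) (hb : 0 < b)
    (B : Finset E) (tB : E → ℝ) (h0 : ∀ e ∈ B, 0 ≤ tB e) (h1 : ∀ e ∈ B, tB e ≤ 1)
    (c : SV V E → Fin (M.k + 1)) (o : E → Bool) : 0 < WB G M b l B tB c o := by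
  unfold WB
  refine mul_pos (mul_pos (GI6_wv_pos M hM l c) (Finset.prod_pos fun e _ =>
    mul_pos (GI6_AA_pos G M b c e) (GI6_bit G M hM b hb c o e))) (mul_pos ?_ ?_)
  · exact Zv_pos G _ (fun e => (GI6_bt o e).1) (fun e => (GI6_bt o e).2)
  · exact GI6_Zt_pos G M hM b hb B tB h0 h1 c

theorem SB_pos (G : Gr V E) (M : Al) (hM : M.Ok) (b l : ℝ) (hb : 0 < b) (A : Finset (SV V E))
    (B : Finset E) (tB : E → ℝ) (h0 : ∀ e ∈ B, 0 ≤ tB e) (h1 : ∀ e ∈ B, tB e ≤ 1)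
    (c0 : SV V E → Fin (M.k + 1)) (o0 : E → Bool) :
    0 < SB G M b l A B tB c0 o0 (fun _ _ => 1) := by
  unfold SB
  have hnn : ∀ (c : SV V E → Fin (M.k + 1)) (o : E → Bool),
      0 ≤ (if (∀ w ∈ A, c w = c0 w) ∧ (∀ e ∈ B, o e = o0 e) then
        WB G M b l B tB c o * (1 : ℝ) else 0) := by
    intro c o
    split_ifs
    · exact mul_nonneg (GI6_WB_pos G M hM b l hb B tB h0 h1 c o).le zero_le_one
    · exact le_rfl
  have h2 : 0 < (if (∀ w ∈ A, c0 w = c0 w) ∧ (∀ e ∈ B, o0 e = o0 e) then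
        WB G M b l B tB c0 o0 * (1 : ℝ) else 0) := by
    rw [if_pos ⟨fun _ _ => rfl, fun _ _ => rfl⟩, mul_one]
    exact GI6_WB_pos G M hM b l hb B tB h0 h1 c0 o0
  refine lt_of_lt_of_le h2 ?_
  refine le_trans (Finset.single_le_sum (f := fun o : E → Bool =>
    (if (∀ w ∈ A, c0 w = c0 w) ∧ (∀ e ∈ B, o e = o0 e) then
        WB G M b l B tB c0 o * (1 : ℝ) else 0)) (fun o _ => hnn c0 o) (Finset.mem_univ o0)) ?_
  exact Finset.single_le_sum (f := fun c : SV V E → Fin (M.k + 1) => ∑ o : E → Bool,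
    (if (∀ w ∈ A, c w = c0 w) ∧ (∀ e ∈ B, o e = o0 e) then
        WB G M b l B tB c o * (1 : ℝ) else 0)) (fun c _ => Finset.sum_nonneg fun o _ => hnn c o)
        (Finset.mem_univ c0)

/-- the weight of the moduli. -/
noncomputable def GI6_mu (G : Gr V E) (M : Al) (b l : ℝ) (A : Finset (SV V E)) (B : Finset E)
    (tB : E → ℝ) (c0 : SV V E → Fin (M.k + 1)) (o0 : E → Bool) (c : SV V E → Fin (M.k + 1)) : ℝ :=
  if (∀ w ∈ A, c w = c0 w) then wv M l c * Ls G M b B c (bt o0) * Lt G M b B c tB else 0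

/-- the conditional expectation given the moduli. -/
noncomputable def GI6_g (G : Gr V E) (M : Al) (b : ℝ) (B : Finset E) (o0 : E → Bool)
    (f : (SV V E → Fin (M.k + 1)) → (E → Bool) → ℝ) (c : SV V E → Fin (M.k + 1)) : ℝ :=
  fo G B (rr G M b c) o0 (f c) / fo G B (rr G M b c) o0 (fun _ => 1)

theorem GI6_fo_pos (G : Gr V E) (M : Al) (hM : M.Ok) (b : ℝ) (hb : 0 < b)
    (B : Finset E) (o0 : E → Bool) (c : SV V E → Fin (M.k + 1)) :
    0 < fo G B (rr G M b c) o0 (fun _ => 1) := by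
  rw [fo_sum]
  exact GI6_Zr_pos G M hM b hb B o0 c

theorem GI6_Ls_pos (G : Gr V E) (M : Al) (hM : M.Ok) (b : ℝ) (hb : 0 < b)
    (B : Finset E) (o0 : E → Bool) (c : SV V E → Fin (M.k + 1)) :
    0 < Ls G M b B c (bt o0) :=
  mul_pos (Finset.prod_pos fun e _ => Finset.prod_pos fun j _ => Real.cosh_pos _)
    (GI6_Zr_pos G M hM b hb B o0 c)

theorem GI6_Lt_pos (G : Gr V E) (M : Al) (hM : M.Ok) (b : ℝ) (hb : 0 < b)
    (B : Finset E) (tB : E → ℝ) (h0 : ∀ e ∈ B, 0 ≤ tB e) (h1 : ∀ e ∈ B, tB e ≤ 1)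
    (c : SV V E → Fin (M.k + 1)) :
    0 < Lt G M b B c tB :=
  mul_pos (Finset.prod_pos fun e _ => Finset.prod_pos fun j _ => Real.cosh_pos _)
    (GI6_Zt_pos G M hM b hb B tB h0 h1 c)

theorem GI6_mu_nonneg (G : Gr V E) (M : Al) (hM : M.Ok) (b l : ℝ) (hb : 0 < b)
    (A : Finset (SV V E)) (B : Finset E)
    (tB : E → ℝ) (h0 : ∀ e ∈ B, 0 ≤ tB e) (h1 : ∀ e ∈ B, tB e ≤ 1)
    (c0 : SV V E → Fin (M.k + 1)) (o0 : E → Bool) (c : SV V E → Fin (M.k + 1)) :
    0 ≤ GI6_mu G M b l A B tB c0 o0 c := by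
  unfold GI6_mu
  split_ifs
  · exact (mul_pos (mul_pos (GI6_wv_pos M hM l c) (GI6_Ls_pos G M hM b hb B o0 c))
      (GI6_Lt_pos G M hM b hb B tB h0 h1 c)).le
  · exact le_rfl

theorem GI6_SB (G : Gr V E) (M : Al) (hM : M.Ok) (b l : ℝ) (hb : 0 < b) (A : Finset (SV V E))
    (B : Finset E) (tB : E → ℝ)
    (c0 : SV V E → Fin (M.k + 1)) (o0 : E → Bool)
    (f : (SV V E → Fin (M.k + 1)) → (E → Bool) → ℝ) :
    SB G M b l A B tB c0 o0 f =
      ∑ c, GI6_mu G M b l A B tB c0 o0 c * GI6_g G M b B o0 f c := by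
  unfold SB
  refine Finset.sum_congr rfl fun c _ => ?_
  unfold GI6_mu GI6_g
  by_cases hP : ∀ w ∈ A, c w = c0 w
  · rw [if_pos hP]
    have hfo := GI6_fo_pos G M hM b hb B o0 c
    have h1 : (∑ o : E → Bool, if (∀ w ∈ A, c w = c0 w) ∧ (∀ e ∈ B, o e = o0 e) then
        WB G M b l B tB c o * f c o else 0) =
        wv M l c * ((∏ e ∈ univ \ B, ∏ j : Fin 3, Real.cosh (la G M b c (e, j))) *
          (∏ e ∈ univ \ B, ∏ j : Fin 3, Real.cosh (lb G M b c (e, j)))) *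
          Zv G (fun e => if e ∈ B then tB e else tt G M b c e) *
          fo G B (rr G M b c) o0 (f c) := by
      unfold fo
      rw [Finset.mul_sum]
      refine Finset.sum_congr rfl fun o _ => ?_
      by_cases hQ : ∀ e ∈ B, o e = o0 e
      · rw [if_pos ⟨hP, hQ⟩, if_pos hQ]
        have h2 : WB G M b l B tB c o = wv M l c *
            (((∏ e ∈ univ \ B, ∏ j : Fin 3, Real.cosh (la G M b c (e, j))) *
            (∏ e ∈ univ \ B, ∏ j : Fin 3, Real.cosh (lb G M b c (e, j)))) *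
            (∏ e ∈ univ \ B, (if o e then rr G M b c e else 1 - rr G M b c e))) *
            (Zv G (bt o) * Zv G (fun e => if e ∈ B then tB e else tt G M b c e)) := by
          unfold WB AA
          simp only [Finset.prod_mul_distrib]
        rw [h2]
        ring
      · rw [if_neg (fun h => hQ h.2), if_neg hQ, mul_zero]
    rw [h1]
    unfold Ls Lt
    have h3 : Zv G (fun e => if e ∈ B then bt o0 e else rr G M b c e) =
        fo G B (rr G M b c) o0 (fun _ => 1) := (fo_sum G B (rr G M b c) o0).symm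
    rw [h3]
    field_simp
  · rw [if_neg hP, zero_mul]
    refine Finset.sum_eq_zero fun o _ => ?_
    rw [if_neg (fun h => hP h.1)]

theorem GI6_g_one (G : Gr V E) (M : Al) (hM : M.Ok) (b : ℝ) (hb : 0 < b)
    (B : Finset E) (o0 : E → Bool) (c : SV V E → Fin (M.k + 1)) :
    GI6_g G M b B o0 (fun _ _ => 1) c = 1 :=
  div_self (GI6_fo_pos G M hM b hb B o0 c).ne'

theorem GI6_SB1 (G : Gr V E) (M : Al) (hM : M.Ok) (b l : ℝ) (hb : 0 < b) (A : Finset (SV V E))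
    (B : Finset E) (tB : E → ℝ)
    (c0 : SV V E → Fin (M.k + 1)) (o0 : E → Bool) :
    SB G M b l A B tB c0 o0 (fun _ _ => 1) = ∑ c, GI6_mu G M b l A B tB c0 o0 c := by
  rw [GI6_SB G M hM b l hb A B tB c0 o0]
  refine Finset.sum_congr rfl fun c _ => ?_
  rw [GI6_g_one G M hM b hb B o0 c, mul_one]

theorem GI6_fo_le (G : Gr V E) (B : Finset E) (r : E → ℝ) (h0 : ∀ e, 0 ≤ r e) (h1 : ∀ e, r e ≤ 1)
    (o0 : E → Bool) (f f' : (E → Bool) → ℝ) (h : ∀ o, f o ≤ f' o) :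
    fo G B r o0 f ≤ fo G B r o0 f' := by
  unfold fo
  refine Finset.sum_le_sum fun o _ => ?_
  split_ifs
  · refine mul_le_mul_of_nonneg_left (h o) (mul_nonneg (Finset.prod_nonneg fun e _ => ?_) ?_)
    · split_ifs
      · exact h0 e
      · linarith [h1 e]
    · exact (Zv_pos G _ (fun e => (GI6_bt o e).1) (fun e => (GI6_bt o e).2)).le
  · exact le_rfl

theorem GI6_g_mono (G : Gr V E) (M : Al) (hM : M.Ok) (b : ℝ) (hb : 0 < b)
    (B : Finset E) (o0 o0' : E → Bool) (ho : ∀ e ∈ B, o0 e ≤ o0' e)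
    (f : (SV V E → Fin (M.k + 1)) → (E → Bool) → ℝ) (hf : Mon f)
    (c c' : SV V E → Fin (M.k + 1)) (hc : c ≤ c') :
    GI6_g G M b B o0 f c ≤ GI6_g G M b B o0' f c' := by
  unfold GI6_g
  refine le_trans (fo_mono G B (rr G M b c) (rr G M b c')
    (fun e => (rr_bd G M hM b hb c e).1.le) (fun e => (rr_mono G M hM b hb c c' hc e).1)
    (fun e => (rr_bd G M hM b hb c' e).2.1.le) o0 o0' ho (f c)
    (fun o o' h => hf c c o o' le_rfl h)) ?_
  refine div_le_div_of_nonneg_right ?_ (GI6_fo_pos G M hM b hb B o0' c').le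
  exact GI6_fo_le G B _ (fun e => (rr_bd G M hM b hb c' e).1.le)
    (fun e => (rr_bd G M hM b hb c' e).2.1.le) o0' _ _ (fun o => hf c c' o o hc le_rfl)

theorem GI6_wv (M : Al) (l : ℝ) (c c' : SV V E → Fin (M.k + 1)) :
    wv M l c * wv M l c' = wv M l (c ⊓ c') * wv M l (c ⊔ c') := by
  unfold wv
  rw [← Finset.prod_mul_distrib, ← Finset.prod_mul_distrib]
  refine Finset.prod_congr rfl fun w _ => ?_
  rw [Pi.inf_apply, Pi.sup_apply]
  rcases le_total (c w) (c' w) with h | h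
  · rw [inf_eq_left.2 h, sup_eq_right.2 h]
  · rw [inf_eq_right.2 h, sup_eq_left.2 h, mul_comm]

theorem GI6_Ls_congr (G : Gr V E) (M : Al) (b : ℝ) (B : Finset E) (c : SV V E → Fin (M.k + 1))
    (u u' : E → ℝ) (h : ∀ e ∈ B, u e = u' e) : Ls G M b B c u = Ls G M b B c u' := by
  unfold Ls
  have h1 : (fun e => if e ∈ B then u e else rr G M b c e) =
      (fun e => if e ∈ B then u' e else rr G M b c e) := by
    funext e
    by_cases he : e ∈ B
    · rw [if_pos he, if_pos he, h e he]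
    · rw [if_neg he, if_neg he]
  rw [h1]

theorem GI6_Lt_congr (G : Gr V E) (M : Al) (b : ℝ) (B : Finset E) (c : SV V E → Fin (M.k + 1))
    (u u' : E → ℝ) (h : ∀ e ∈ B, u e = u' e) : Lt G M b B c u = Lt G M b B c u' := by
  unfold Lt
  have h1 : (fun e => if e ∈ B then u e else tt G M b c e) =
      (fun e => if e ∈ B then u' e else tt G M b c e) := by
    funext e
    by_cases he : e ∈ B
    · rw [if_pos he, if_pos he, h e he]
    · rw [if_neg he, if_neg he]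
  rw [h1]

theorem GI6_bt_le {o o' : E → Bool} {e : E} (h : o e ≤ o' e) : bt o e ≤ bt o' e := by
  unfold bt
  rcases h1 : o e with _ | _ <;> rcases h2 : o' e with _ | _
  · simp
  · simp
  · rw [h1, h2] at h
    exact absurd h (by decide)
  · simp

theorem GI6_hol (G : Gr V E) (M : Al) (hM : M.Ok) (b l : ℝ) (hb : 0 < b) (A : Finset (SV V E))
    (B : Finset E) (tB tB' : E → ℝ) (h0 : ∀ e ∈ B, 0 ≤ tB' e) (ht : ∀ e ∈ B, tB' e ≤ tB e)
    (h1 : ∀ e ∈ B, tB e ≤ 1) (c0 c0' : SV V E → Fin (M.k + 1)) (hc : ∀ w ∈ A, c0 w ≤ c0' w)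
    (o0 o0' : E → Bool) (ho : ∀ e ∈ B, o0 e ≤ o0' e) (c c' : SV V E → Fin (M.k + 1)) :
    GI6_mu G M b l A B tB c0 o0 c * GI6_mu G M b l A B tB' c0' o0' c' ≤
      GI6_mu G M b l A B tB c0 o0 (c ⊓ c') * GI6_mu G M b l A B tB' c0' o0' (c ⊔ c') := by
  have h0' : ∀ e ∈ B, 0 ≤ tB e := fun e he => (h0 e he).trans (ht e he)
  have h1' : ∀ e ∈ B, tB' e ≤ 1 := fun e he => (ht e he).trans (h1 e he)
  have hR : 0 ≤ GI6_mu G M b l A B tB c0 o0 (c ⊓ c') * GI6_mu G M b l A B tB' c0' o0' (c ⊔ c') :=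
    mul_nonneg (GI6_mu_nonneg G M hM b l hb A B tB h0' h1 c0 o0 _)
      (GI6_mu_nonneg G M hM b l hb A B tB' h0 h1' c0' o0' _)
  by_cases hP : ∀ w ∈ A, c w = c0 w
  swap
  · have : GI6_mu G M b l A B tB c0 o0 c = 0 := if_neg hP
    rw [this, zero_mul]
    exact hR
  by_cases hP' : ∀ w ∈ A, c' w = c0' w
  swap
  · have : GI6_mu G M b l A B tB' c0' o0' c' = 0 := if_neg hP'
    rw [this, mul_zero]
    exact hR
  have hi : ∀ w ∈ A, (c ⊓ c') w = c0 w := by
    intro w hw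
    rw [Pi.inf_apply, hP w hw, hP' w hw, inf_eq_left.2 (hc w hw)]
  have hs : ∀ w ∈ A, (c ⊔ c') w = c0' w := by
    intro w hw
    rw [Pi.sup_apply, hP w hw, hP' w hw, sup_eq_right.2 (hc w hw)]
  unfold GI6_mu
  rw [if_pos hP, if_pos hP', if_pos hi, if_pos hs]
  have e1 := GI6_wv (V := V) (E := E) M l c c'
  have e2 := Ls_super G M hM b hb.le B c c' (bt o0) (bt o0') (fun e _ => (GI6_bt o0 e).1)
    (fun e _ => (GI6_bt o0 e).2) (fun e _ => (GI6_bt o0' e).1) (fun e _ => (GI6_bt o0' e).2)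
  have e3 := Lt_super G M hM b hb.le B c c' tB tB' h0' h1 h0 h1'
  rw [GI6_Ls_congr G M b B (c ⊓ c') (bt o0 ⊓ bt o0') (bt o0) (fun e he => by
      rw [Pi.inf_apply, inf_eq_left.2 (GI6_bt_le (ho e he))]),
    GI6_Ls_congr G M b B (c ⊔ c') (bt o0 ⊔ bt o0') (bt o0') (fun e he => by
      rw [Pi.sup_apply, sup_eq_right.2 (GI6_bt_le (ho e he))])] at e2
  rw [GI6_Lt_congr G M b B (c ⊓ c') (tB ⊔ tB') tB (fun e he => by
      rw [Pi.sup_apply, sup_eq_left.2 (ht e he)]),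
    GI6_Lt_congr G M b B (c ⊔ c') (tB ⊓ tB') tB' (fun e he => by
      rw [Pi.inf_apply, inf_eq_right.2 (ht e he)])] at e3
  have p1 : 0 ≤ wv M l (c ⊓ c') * wv M l (c ⊔ c') :=
    (mul_pos (GI6_wv_pos M hM l _) (GI6_wv_pos M hM l _)).le
  have p2 : 0 ≤ Lt G M b B c tB * Lt G M b B c' tB' :=
    (mul_pos (GI6_Lt_pos G M hM b hb B tB h0' h1 c) (GI6_Lt_pos G M hM b hb B tB' h0 h1' c')).le
  have p3 : 0 ≤ Ls G M b B (c ⊓ c') (bt o0) * Ls G M b B (c ⊔ c') (bt o0') :=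
    (mul_pos (GI6_Ls_pos G M hM b hb B o0 _) (GI6_Ls_pos G M hM b hb B o0' _)).le
  calc wv M l c * Ls G M b B c (bt o0) * Lt G M b B c tB *
        (wv M l c' * Ls G M b B c' (bt o0') * Lt G M b B c' tB')
      = (wv M l c * wv M l c') * ((Ls G M b B c (bt o0) * Ls G M b B c' (bt o0')) *
          (Lt G M b B c tB * Lt G M b B c' tB')) := by ring
    _ = (wv M l (c ⊓ c') * wv M l (c ⊔ c')) * ((Ls G M b B c (bt o0) * Ls G M b B c' (bt o0')) *
          (Lt G M b B c tB * Lt G M b B c' tB')) := by rw [e1]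
    _ ≤ (wv M l (c ⊓ c') * wv M l (c ⊔ c')) *
          ((Ls G M b B (c ⊓ c') (bt o0) * Ls G M b B (c ⊔ c') (bt o0')) *
          (Lt G M b B (c ⊓ c') tB * Lt G M b B (c ⊔ c') tB')) :=
        mul_le_mul_of_nonneg_left (mul_le_mul e2 e3 p2 p3) p1
    _ = wv M l (c ⊓ c') * Ls G M b B (c ⊓ c') (bt o0) * Lt G M b B (c ⊓ c') tB *
        (wv M l (c ⊔ c') * Ls G M b B (c ⊔ c') (bt o0') * Lt G M b B (c ⊔ c') tB') := by ring

theorem EB_mono (G : Gr V E) (M : Al) (hM : M.Ok) (b l : ℝ) (hb : 0 < b) (A : Finset (SV V E))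
    (B : Finset E) (tB tB' : E → ℝ) (h0 : ∀ e ∈ B, 0 ≤ tB' e) (ht : ∀ e ∈ B, tB' e ≤ tB e)
    (h1 : ∀ e ∈ B, tB e ≤ 1) (c0 c0' : SV V E → Fin (M.k + 1)) (hc : ∀ w ∈ A, c0 w ≤ c0' w)
    (o0 o0' : E → Bool) (ho : ∀ e ∈ B, o0 e ≤ o0' e)
    (f : (SV V E → Fin (M.k + 1)) → (E → Bool) → ℝ) (hf : Mon f) :
    EB G M b l A B tB c0 o0 f ≤ EB G M b l A B tB' c0' o0' f := by
  have h0' : ∀ e ∈ B, 0 ≤ tB e := fun e he => (h0 e he).trans (ht e he)
  have h1' : ∀ e ∈ B, tB' e ≤ 1 := fun e he => (ht e he).trans (h1 e he)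
  have hS := SB_pos G M hM b l hb A B tB h0' h1 c0 o0
  have hS' := SB_pos G M hM b l hb A B tB' h0 h1' c0' o0'
  unfold EB
  rw [GI6_SB1 G M hM b l hb] at hS hS'
  rw [GI6_SB1 G M hM b l hb, GI6_SB1 G M hM b l hb, GI6_SB G M hM b l hb, GI6_SB G M hM b l hb]
  set μ := GI6_mu G M b l A B tB c0 o0 with hμ
  set μ' := GI6_mu G M b l A B tB' c0' o0' with hμ'
  set S := ∑ c, μ c with hSd
  set S' := ∑ c, μ' c with hSd'
  have hn : ∀ c, 0 ≤ μ c := fun c => GI6_mu_nonneg G M hM b l hb A B tB h0' h1 c0 o0 c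
  have hn' : ∀ c, 0 ≤ μ' c := fun c => GI6_mu_nonneg G M hM b l hb A B tB' h0 h1' c0' o0' c
  let g : (SV V E → Fin (M.k + 1)) → ℝ := GI6_g G M b B o0' f
  have hg : Monotone g := fun c c' h => GI6_g_mono G M hM b hb B o0' o0' (fun _ _ => le_rfl) f hf c c' h
  let K : ℝ := ∑ c, |g c|
  have hK : ∀ c, 0 ≤ g c + K := by
    intro c
    have h2 : |g c| ≤ K := Finset.single_le_sum (f := fun c => |g c|) (fun c _ => abs_nonneg _)
      (Finset.mem_univ c)
    linarith [neg_abs_le (g c)]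
  have key : ∑ c, (g c + K) * (μ c / S) ≤ ∑ c, (g c + K) * (μ' c / S') := by
    refine holley (μ := fun c => g c + K) (f := fun c => μ c / S) (g := fun c => μ' c / S')
      hK (fun c => div_nonneg (hn c) hS.le) (fun c => div_nonneg (hn' c) hS'.le)
      (fun c c' h => by linarith [hg h]) ?_ ?_
    · rw [← Finset.sum_div, ← Finset.sum_div, div_self hS.ne', div_self hS'.ne']
    · intro c c'
      change μ c / S * (μ' c' / S') ≤ μ (c ⊓ c') / S * (μ' (c ⊔ c') / S')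
      rw [div_mul_div_comm, div_mul_div_comm]
      exact div_le_div_of_nonneg_right (GI6_hol G M hM b l hb A B tB tB' h0 ht h1 c0 c0' hc o0 o0'
        ho c c') (mul_pos hS hS').le
  have ex1 : ∑ c, (g c + K) * (μ c / S) = (∑ c, μ c * g c) / S + K := by
    have : ∀ c ∈ (Finset.univ : Finset (SV V E → Fin (M.k + 1))),
        (g c + K) * (μ c / S) = μ c * g c / S + K * (μ c / S) := fun c _ => by ring
    rw [Finset.sum_congr rfl this, Finset.sum_add_distrib, ← Finset.sum_div, ← Finset.mul_sum,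
      ← Finset.sum_div, div_self hS.ne', mul_one]
  have ex2 : ∑ c, (g c + K) * (μ' c / S') = (∑ c, μ' c * g c) / S' + K := by
    have : ∀ c ∈ (Finset.univ : Finset (SV V E → Fin (M.k + 1))),
        (g c + K) * (μ' c / S') = μ' c * g c / S' + K * (μ' c / S') := fun c _ => by ring
    rw [Finset.sum_congr rfl this, Finset.sum_add_distrib, ← Finset.sum_div, ← Finset.mul_sum,
      ← Finset.sum_div, div_self hS'.ne', mul_one]
  rw [ex1, ex2] at key
  have key2 : (∑ c, μ c * GI6_g G M b B o0 f c) / S ≤ (∑ c, μ c * g c) / S := by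
    refine div_le_div_of_nonneg_right (Finset.sum_le_sum fun c _ => ?_) hS.le
    exact mul_le_mul_of_nonneg_left (GI6_g_mono G M hM b hb B o0 o0' ho f hf c c le_rfl) (hn c)
  linarith

theorem GI6_EW (G : Gr V E) (M : Al) (b l : ℝ)
    (f : (SV V E → Fin (M.k + 1)) → (E → Bool) → ℝ) :
    EW G M b l f = SB G M b l ∅ ∅ (fun _ => 0) (fun _ => 0) (fun _ => false) f /
      SB G M b l ∅ ∅ (fun _ => 0) (fun _ => 0) (fun _ => false) (fun _ _ => 1) := by
  have h : ∀ (c : SV V E → Fin (M.k + 1)) (o : E → Bool),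
      WB G M b l ∅ (fun _ => 0) c o = W G M b l c o := by
    intro c o
    unfold WB W
    simp
  unfold EW SB
  simp [h]

theorem asc (G : Gr V E) (M : Al) (hM : M.Ok) (b l : ℝ) (hb : 0 < b)
    (f g : (SV V E → Fin (M.k + 1)) → (E → Bool) → ℝ) (hf : Mon f) (hg : Mon g) :
    EW G M b l f * EW G M b l g ≤ EW G M b l (fun c o => f c o * g c o) := by
  have z0 : ∀ e ∈ (∅ : Finset E), (0 : ℝ) ≤ (fun _ => 0) e := fun e he => absurd he (by simp)
  have z1 : ∀ e ∈ (∅ : Finset E), (fun _ => (0 : ℝ)) e ≤ 1 := fun e he => absurd he (by simp)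
  have hS := SB_pos G M hM b l hb ∅ ∅ (fun _ => 0) z0 z1 (fun _ => 0) (fun _ => false)
  rw [GI6_EW, GI6_EW, GI6_EW]
  rw [GI6_SB1 G M hM b l hb] at hS
  rw [GI6_SB1 G M hM b l hb, GI6_SB G M hM b l hb, GI6_SB G M hM b l hb, GI6_SB G M hM b l hb]
  set μ := GI6_mu G M b l ∅ ∅ (fun _ => 0) (fun _ => 0) (fun _ => false) with hμ
  set S := ∑ c, μ c with hSd
  have hn : ∀ c, 0 ≤ μ c := fun c => GI6_mu_nonneg G M hM b l hb ∅ ∅ (fun _ => 0) z0 z1
    (fun _ => 0) (fun _ => false) c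
  let F : (SV V E → Fin (M.k + 1)) → ℝ := GI6_g G M b ∅ (fun _ => false) f
  let H : (SV V E → Fin (M.k + 1)) → ℝ := GI6_g G M b ∅ (fun _ => false) g
  have hF : Monotone F := fun c c' h => GI6_g_mono G M hM b hb ∅ _ _ (fun _ _ => le_rfl) f hf c c' h
  have hH : Monotone H := fun c c' h => GI6_g_mono G M hM b hb ∅ _ _ (fun _ _ => le_rfl) g hg c c' h
  have hFH : ∀ c, F c * H c ≤ GI6_g G M b ∅ (fun _ => false) (fun c o => f c o * g c o) c := by
    intro c
    have h1 := fo_fkg G ∅ (rr G M b c) (fun e => (rr_bd G M hM b hb c e).1.le)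
      (fun e => (rr_bd G M hM b hb c e).2.1.le) (fun _ => false) (f c) (g c)
      (fun o o' h => hf c c o o' le_rfl h) (fun o o' h => hg c c o o' le_rfl h)
    have h2 := GI6_fo_pos G M hM b hb ∅ (fun _ => false) c
    change fo G ∅ (rr G M b c) (fun _ => false) (f c) / fo G ∅ (rr G M b c) (fun _ => false)
      (fun _ => 1) * (fo G ∅ (rr G M b c) (fun _ => false) (g c) / fo G ∅ (rr G M b c)
      (fun _ => false) (fun _ => 1)) ≤ fo G ∅ (rr G M b c) (fun _ => false)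
      (fun o => f c o * g c o) / fo G ∅ (rr G M b c) (fun _ => false) (fun _ => 1)
    rw [div_mul_div_comm, div_le_div_iff₀ (mul_pos h2 h2) h2]
    nlinarith [h1, h2]
  let K : ℝ := ∑ c, |F c|
  let L : ℝ := ∑ c, |H c|
  have hK : ∀ c, 0 ≤ F c + K := by
    intro c
    have h2 : |F c| ≤ K := Finset.single_le_sum (f := fun c => |F c|) (fun c _ => abs_nonneg _)
      (Finset.mem_univ c)
    linarith [neg_abs_le (F c)]
  have hL : ∀ c, 0 ≤ H c + L := by
    intro c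
    have h2 : |H c| ≤ L := Finset.single_le_sum (f := fun c => |H c|) (fun c _ => abs_nonneg _)
      (Finset.mem_univ c)
    linarith [neg_abs_le (H c)]
  have key := fkg (μ := μ) (f := fun c => F c + K) (g := fun c => H c + L) hn hK hL
    (fun c c' h => by linarith [hF h]) (fun c c' h => by linarith [hH h])
    (fun c c' => GI6_hol G M hM b l hb ∅ ∅ (fun _ => 0) (fun _ => 0) z0 (fun _ _ => le_rfl) z1
      (fun _ => 0) (fun _ => 0) (fun _ _ => le_rfl) (fun _ => false) (fun _ => false)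
      (fun _ _ => le_rfl) c c')
  have s1 : ∑ c, μ c * (F c + K) = (∑ c, μ c * F c) + K * S := by
    have : ∀ c ∈ (Finset.univ : Finset (SV V E → Fin (M.k + 1))),
        μ c * (F c + K) = μ c * F c + K * μ c := fun c _ => by ring
    rw [Finset.sum_congr rfl this, Finset.sum_add_distrib, ← Finset.mul_sum]
  have s2 : ∑ c, μ c * (H c + L) = (∑ c, μ c * H c) + L * S := by
    have : ∀ c ∈ (Finset.univ : Finset (SV V E → Fin (M.k + 1))),
        μ c * (H c + L) = μ c * H c + L * μ c := fun c _ => by ring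
    rw [Finset.sum_congr rfl this, Finset.sum_add_distrib, ← Finset.mul_sum]
  have s3 : ∑ c, μ c * ((F c + K) * (H c + L)) =
      (∑ c, μ c * (F c * H c)) + L * (∑ c, μ c * F c) + K * (∑ c, μ c * H c) + K * L * S := by
    have : ∀ c ∈ (Finset.univ : Finset (SV V E → Fin (M.k + 1))),
        μ c * ((F c + K) * (H c + L)) = μ c * (F c * H c) + L * (μ c * F c) + K * (μ c * H c) +
          K * L * μ c := fun c _ => by ring
    rw [Finset.sum_congr rfl this, Finset.sum_add_distrib, Finset.sum_add_distrib,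
      Finset.sum_add_distrib, ← Finset.mul_sum, ← Finset.mul_sum, ← Finset.mul_sum]
  rw [s1, s2, s3] at key
  have key2 : (∑ c, μ c * F c) * (∑ c, μ c * H c) ≤ S * ∑ c, μ c * (F c * H c) := by
    nlinarith [key]
  have key3 : ∑ c, μ c * (F c * H c) ≤
      ∑ c, μ c * GI6_g G M b ∅ (fun _ => false) (fun c o => f c o * g c o) c :=
    Finset.sum_le_sum fun c _ => mul_le_mul_of_nonneg_left (hFH c) (hn c)
  change (∑ c, μ c * F c) / S * ((∑ c, μ c * H c) / S) ≤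
    (∑ c, μ c * GI6_g G M b ∅ (fun _ => false) (fun c o => f c o * g c o) c) / S
  rw [div_mul_div_comm, div_le_div_iff₀ (mul_pos hS hS) hS]
  have key4 : (∑ c, μ c * F c) * (∑ c, μ c * H c) ≤
      S * ∑ c, μ c * GI6_g G M b ∅ (fun _ => false) (fun c o => f c o * g c o) c :=
    key2.trans (mul_le_mul_of_nonneg_left key3 hS.le)
  calc (∑ c, μ c * F c) * (∑ c, μ c * H c) * S
      ≤ (S * ∑ c, μ c * GI6_g G M b ∅ (fun _ => false) (fun c o => f c o * g c o) c) * S :=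
        mul_le_mul_of_nonneg_right key4 hS.le
    _ = (∑ c, μ c * GI6_g G M b ∅ (fun _ => false) (fun c o => f c o * g c o) c) * (S * S) := by
        ring

end H82.BX
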