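import Pool.Agent.H82.BX.Defs

/-!
# QT: quantile functions

`qt p u = max {c : P(< c) ≤ u}`.  For `0 ≤ u < 1` the set is nonempty (the least element of `Y` has `P(< c) = 0`),
it is a lower set, and `qt p u = c` iff `P(< c) ≤ u < P(≤ c)` when `p c > 0` (for `p c = 0`: `qt p u = c` never happens for
`u < 1`, unless all later weights vanish; in any case `{u ∈ [0,1) : qt p u = c}` is `[P(< c), P(≤ c))` up to the finite set of
values `P(< c')`: for the integral only the measure `p c` matters.  If several `c` have the same `P(< c)` the largest is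
taken.)
-/

set_option autoImplicit false

open Finset MeasureTheory

namespace H82.BX

variable {Y : Type} [Fintype Y] [LinearOrder Y] [Nonempty Y]

/-- the weight strictly below `c`. -/
noncomputable def qt_Q (p : Y → ℝ) (c : Y) : ℝ := ∑ c' ∈ univ.filter (fun c' => c' < c), p c'

open Classical in
/-- the set of `c` with `P(< c) ≤ u`. -/
noncomputable def qt_S (p : Y → ℝ) (u : ℝ) : Finset Y := univ.filter (fun c : Y => qt_Q p c ≤ u)

/-- the largest element of a finite set. -/
noncomputable def qt_F (T : Finset Y) : Y :=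
  open Classical in if h : T.Nonempty then T.max' h else Classical.arbitrary Y

theorem qt_eqF (p : Y → ℝ) (u : ℝ) : qt p u = qt_F (qt_S p u) := by
  unfold qt qt_F qt_S qt_Q
  congr!

theorem qt_memS (p : Y → ℝ) (u : ℝ) (c : Y) : c ∈ qt_S p u ↔ qt_Q p c ≤ u := by
  unfold qt_S
  simp

theorem qt_meas (p : Y → ℝ) (s : Set Y) : MeasurableSet (qt p ⁻¹' s) := by
  have e : qt p ⁻¹' s = ⋃ T : {T : Finset Y // qt_F T ∈ s}, {u | qt_S p u = T.1} := by
    ext u
    rw [Set.mem_preimage, qt_eqF, Set.mem_iUnion]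
    constructor
    · intro h
      exact ⟨⟨qt_S p u, h⟩, rfl⟩
    · rintro ⟨⟨T, hT⟩, h⟩
      rw [Set.mem_ofPred_eq] at h
      rw [h]
      exact hT
  rw [e]
  refine MeasurableSet.iUnion fun T => ?_
  have e2 : {u : ℝ | qt_S p u = T.1} = ⋂ c : Y, {u : ℝ | qt_Q p c ≤ u ↔ c ∈ T.1} := by
    ext u
    rw [Set.mem_ofPred_eq, Set.mem_iInter]
    constructor
    · intro h c
      rw [Set.mem_ofPred_eq, ← h, qt_memS]
    · intro h
      ext c
      rw [qt_memS]
      exact h c
  rw [e2]
  refine MeasurableSet.iInter fun c => ?_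
  by_cases hc : c ∈ T.1
  · have e3 : {u : ℝ | qt_Q p c ≤ u ↔ c ∈ T.1} = Set.Ici (qt_Q p c) := by
      ext u
      simp [hc]
    rw [e3]
    exact measurableSet_Ici
  · have e3 : {u : ℝ | qt_Q p c ≤ u ↔ c ∈ T.1} = Set.Iio (qt_Q p c) := by
      ext u
      simp [hc]
    rw [e3]
    exact measurableSet_Iio

theorem qt_intble {Y' : Type} [Fintype Y'] [LinearOrder Y'] [Nonempty Y'] (p : Y → ℝ) (p' : Y' → ℝ)
    (G : Y → Y' → ℝ) :
    IntervalIntegrable (fun u => G (qt p u) (qt p' u)) volume 0 1 := by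
  letI : MeasurableSpace Y := ⊤
  letI : MeasurableSpace Y' := ⊤
  have h1 : Measurable (qt p) := fun s _ => qt_meas p s
  have h2 : Measurable (qt p') := fun s _ => qt_meas p' s
  have h3 : Measurable (fun z : Y × Y' => G z.1 z.2) := measurable_of_countable _
  have h4 : Measurable (fun u => G (qt p u) (qt p' u)) := h3.comp (h1.prodMk h2)
  rw [intervalIntegrable_iff]
  haveI : IsFiniteMeasure (volume.restrict (Set.uIoc (0 : ℝ) 1)) := by
    rw [Set.uIoc_of_le zero_le_one]
    infer_instance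
  refine Integrable.of_bound h4.aestronglyMeasurable (∑ c, ∑ c', |G c c'|) ?_
  refine Filter.Eventually.of_forall fun u => ?_
  rw [Real.norm_eq_abs]
  refine le_trans ?_ (Finset.single_le_sum (f := fun c => ∑ c', |G c c'|)
    (fun c _ => Finset.sum_nonneg fun c' _ => abs_nonneg _) (Finset.mem_univ (qt p u)))
  exact Finset.single_le_sum (f := fun c' => |G (qt p u) c'|)
    (fun c' _ => abs_nonneg _) (Finset.mem_univ (qt p' u))

theorem qt_Q_nonneg (p : Y → ℝ) (hp : ∀ c, 0 ≤ p c) (c : Y) : 0 ≤ qt_Q p c :=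
  Finset.sum_nonneg fun c' _ => hp c'

theorem qt_Q_add (p : Y → ℝ) (c : Y) :
    qt_Q p c + p c = ∑ c' ∈ univ.filter (fun c' => c' ≤ c), p c' := by
  have e : univ.filter (fun c' => c' ≤ c) = insert c (univ.filter (fun c' => c' < c)) := by
    ext x
    simp only [Finset.mem_filter, Finset.mem_univ, true_and, Finset.mem_insert]
    exact le_iff_eq_or_lt
  rw [e, Finset.sum_insert (by simp), qt_Q, add_comm]

theorem qt_Q_le (p : Y → ℝ) (hp : ∀ c, 0 ≤ p c) (c c' : Y) (h : c < c') :
    qt_Q p c + p c ≤ qt_Q p c' := by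
  rw [qt_Q_add]
  refine Finset.sum_le_sum_of_subset_of_nonneg (fun x hx => ?_) fun x _ _ => hp x
  rw [Finset.mem_filter] at hx ⊢
  exact ⟨hx.1, lt_of_le_of_lt hx.2 h⟩

theorem qt_Q_one (p : Y → ℝ) (hp : ∀ c, 0 ≤ p c) (h1 : ∑ c, p c = 1) (c : Y) :
    qt_Q p c + p c ≤ 1 := by
  rw [qt_Q_add, ← h1]
  exact Finset.sum_le_sum_of_subset_of_nonneg (Finset.filter_subset _ _) fun x _ _ => hp x

theorem qt_S_ne (p : Y → ℝ) (u : ℝ) (hu : 0 ≤ u) : (qt_S p u).Nonempty := by
  obtain ⟨c, hc⟩ := Finite.exists_min (id : Y → Y)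
  refine ⟨c, ?_⟩
  rw [qt_memS, qt_Q]
  have e : univ.filter (fun c' => c' < c) = ∅ := by
    rw [Finset.filter_eq_empty_iff]
    intro x _ hx
    exact absurd (hc x) (not_le.2 hx)
  rw [e, Finset.sum_empty]
  exact hu

theorem qt_iff (p : Y → ℝ) (hp : ∀ c, 0 ≤ p c) (h1 : ∑ c, p c = 1) (u : ℝ)
    (hu : u ∈ Set.Ico (0 : ℝ) 1) (c : Y) :
    qt p u = c ↔ u ∈ Set.Ico (qt_Q p c) (qt_Q p c + p c) := by
  have hne := qt_S_ne p u hu.1
  have hq : qt p u = (qt_S p u).max' hne := by
    rw [qt_eqF, qt_F, dif_pos hne]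
  rw [hq, Set.mem_Ico]
  constructor
  · intro h
    have hc : c ∈ qt_S p u := h ▸ Finset.max'_mem _ hne
    refine ⟨(qt_memS p u c).1 hc, ?_⟩
    by_contra hcon
    rw [not_lt] at hcon
    have hmax : ∀ x, c < x → u < qt_Q p x := by
      intro x hx
      by_contra hx2
      rw [not_lt] at hx2
      have := Finset.le_max' _ x ((qt_memS p u x).2 hx2)
      rw [h] at this
      exact absurd hx (not_lt.2 this)
    by_cases hex : ∃ x, c < x
    · obtain ⟨y, hy, hymin⟩ : ∃ y, c < y ∧ ∀ x, c < x → y ≤ x := by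
        have hne2 : (univ.filter (fun x => c < x)).Nonempty := by
          obtain ⟨x, hx⟩ := hex
          exact ⟨x, by simp [hx]⟩
        refine ⟨(univ.filter (fun x => c < x)).min' hne2, ?_, fun x hx =>
          Finset.min'_le _ x (by simp [hx])⟩
        have := Finset.min'_mem _ hne2
        rw [Finset.mem_filter] at this
        exact this.2
      have e : qt_Q p y = qt_Q p c + p c := by
        rw [qt_Q_add, qt_Q]
        refine Finset.sum_congr ?_ fun _ _ => rfl
        ext x
        simp only [Finset.mem_filter, Finset.mem_univ, true_and]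
        constructor
        · intro hx
          by_contra hxc
          exact absurd (hymin x (not_le.1 hxc)) (not_le.2 hx)
        · intro hx
          exact lt_of_le_of_lt hx hy
      have := hmax y hy
      rw [e] at this
      linarith
    · have e : qt_Q p c + p c = 1 := by
        rw [qt_Q_add, ← h1]
        refine Finset.sum_congr ?_ fun _ _ => rfl
        ext x
        simp only [Finset.mem_filter, Finset.mem_univ, true_and, iff_true]
        by_contra hxc
        exact hex ⟨x, not_le.1 hxc⟩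
      rw [e] at hcon
      exact absurd hu.2 (not_lt.2 hcon)
  · rintro ⟨h2, h3⟩
    refine le_antisymm (Finset.max'_le _ _ _ fun x hx => ?_)
      (Finset.le_max' _ _ ((qt_memS p u c).2 h2))
    by_contra hxc
    rw [not_le] at hxc
    have h4 := qt_Q_le p hp c x hxc
    have h5 := (qt_memS p u x).1 hx
    linarith

theorem qt_int (p : Y → ℝ) (hp : ∀ c, 0 ≤ p c) (h1 : ∑ c, p c = 1) (g : Y → ℝ) :
    ∫ u in (0 : ℝ)..1, g (qt p u) = ∑ c, p c * g c := by
  rw [intervalIntegral.integral_of_le zero_le_one, integral_Ioc_eq_integral_Ioo,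
    ← integral_Ico_eq_integral_Ioo]
  have e : ∀ u ∈ Set.Ico (0 : ℝ) 1, g (qt p u) =
      ∑ c, (Set.Ico (qt_Q p c) (qt_Q p c + p c)).indicator (fun _ => g c) u := by
    intro u hu
    rw [Finset.sum_eq_single (qt p u)]
    · rw [Set.indicator_of_mem ((qt_iff p hp h1 u hu _).1 rfl)]
    · intro c _ hc
      rw [Set.indicator_of_notMem]
      intro hcon
      exact hc ((qt_iff p hp h1 u hu c).2 hcon).symm
    · intro h
      exact absurd (Finset.mem_univ _) h
  rw [setIntegral_congr_fun measurableSet_Ico e, integral_finsetSum]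
  · refine Finset.sum_congr rfl fun c _ => ?_
    rw [setIntegral_indicator measurableSet_Ico]
    have e2 : Set.Ico (0 : ℝ) 1 ∩ Set.Ico (qt_Q p c) (qt_Q p c + p c) =
        Set.Ico (qt_Q p c) (qt_Q p c + p c) := by
      apply Set.inter_eq_right.2
      intro x hx
      exact ⟨(qt_Q_nonneg p hp c).trans hx.1, lt_of_lt_of_le hx.2 (qt_Q_one p hp h1 c)⟩
    rw [e2, setIntegral_const, Real.volume_real_Ico_of_le (by linarith [hp c]), smul_eq_mul]
    ring
  · intro c _
    exact (integrable_const (g c)).indicator measurableSet_Ico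

theorem qt_mono (p p' : Y → ℝ) (hp : ∀ c, 0 ≤ p c) (hp' : ∀ c, 0 ≤ p' c)
    (h : ∀ c, ∑ c' ∈ univ.filter (fun c' => c' < c), p' c' ≤ ∑ c' ∈ univ.filter (fun c' => c' < c), p c')
    (u : ℝ) : qt p u ≤ qt p' u := by
  rw [qt_eqF, qt_eqF, qt_F, qt_F]
  by_cases hu : 0 ≤ u
  · have h1 := qt_S_ne p u hu
    have h2 := qt_S_ne p' u hu
    rw [dif_pos h1, dif_pos h2]
    refine Finset.max'_subset h1 fun c hc => ?_
    rw [qt_memS] at hc ⊢
    exact (h c).trans hc
  · have h1 : ¬ (qt_S p u).Nonempty := by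
      rintro ⟨c, hc⟩
      rw [qt_memS] at hc
      exact hu ((qt_Q_nonneg p hp c).trans hc)
    have h2 : ¬ (qt_S p' u).Nonempty := by
      rintro ⟨c, hc⟩
      rw [qt_memS] at hc
      exact hu ((qt_Q_nonneg p' hp' c).trans hc)
    rw [dif_neg h1, dif_neg h2]

end H82.BX
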