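import Pool.Agent.H82.BX.OS1
import Pool.Agent.H82.BX.QT

/-!
# OSD: definitions of the OSSS recursion
-/

set_option autoImplicit false

open Finset MeasureTheory

namespace H82.BX

variable {I : Type} [Fintype I] [DecidableEq I] {X : I → Type} [∀ i, Fintype (X i)]
  [∀ i, LinearOrder (X i)] [∀ i, Nonempty (X i)]

/-- `E[f(X) F(Y)]` when `X, Y` start from `x, y` on `A` and are continued with the same uniform variables along the
exploration driven by `X`. -/
noncomputable def aT (m f : (∀ i, X i) → ℝ) (nx : Finset I → (∀ i, X i) → Option I) :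
    ℕ → Finset I → (∀ i, X i) → (∀ i, X i) → ℝ
  | 0, A, x, y => ce m f A x * ce m f A y
  | n + 1, A, x, y => match nx A x with
    | none => ce m f A x * ce m f A y
    | some i => ∫ u in (0 : ℝ)..1, aT m f nx n (insert i A)
        (Function.update x i (qt (cp m A x i) u)) (Function.update y i (qt (cp m A y i) u))

/-- accumulated influence along the exploration (`X`, `Y` independent). -/
noncomputable def kT (m f : (∀ i, X i) → ℝ) (nx : Finset I → (∀ i, X i) → Option I) :
    ℕ → Finset I → (∀ i, X i) → (∀ i, X i) → ℝ
  | 0, _, _, _ => 0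
  | n + 1, A, x, y => match nx A x with
    | none => 0
    | some i => infl m f A y i + ∑ c, ∑ c', cp m A x i c * cp m A y i c' *
        kT m f nx n (insert i A) (Function.update x i c) (Function.update y i c')

/-- monotonicity of the conditional expectations of increasing functions, for the sets in `Ad`. -/
def MonM (m : (∀ i, X i) → ℝ) (Ad : Finset I → Prop) : Prop :=
  ∀ A, Ad A → ∀ g : (∀ i, X i) → ℝ, Monotone g → ∀ x y : (∀ i, X i), (∀ i ∈ A, x i ≤ y i) →
    ce m g A x ≤ ce m g A y

end H82.BX
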