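import Pool.Agent.H82.BX.GI6
import Pool.Agent.H82.BX.OSD

/-!
# GI8: the chain model as a monotone system

`ce_EB`: for `S` admissible and `y = x` on `S`: `mW y = (const depending on x on S) · WB (sB S) (tt (pc x)) (pc y) (po y)`, because
`∏_{e ∈ sB S} AA (rr or 1 - rr)` depends only on the moduli in `sA S` and the bits in `sB S`, and `tt G M b (pc y) e = tt G M b (pc x) e` for
`e ∈ sB S` (the four vertices of the chain of `e` are in `sA S`).  Sums over `∀ i, XI ..` are sums over pairs `(c, o)` (`mkx`, `pc`, `po` are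
inverse bijections).  The numerator and the denominator of `ce` get the same constant.
`mW_mon`: `ce_EB` and `EB_mono` (`tt` is antitone in the moduli; a monotone `g` on `∀ i, XI ..` gives `Mon (fun c o => g (mkx c o))`).
-/

set_option autoImplicit false

open Finset MeasureTheory

namespace H82.BX

open H82.IC

variable {V E : Type} [Fintype V] [DecidableEq V] [Fintype E] [DecidableEq E]

theorem mem_sA (S : Finset (SV V E ⊕ E)) (w : SV V E) : w ∈ sA S ↔ Sum.inl w ∈ S := by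
  unfold sA
  exact Finset.mem_preimage

theorem mem_sB (S : Finset (SV V E ⊕ E)) (e : E) : e ∈ sB S ↔ Sum.inr e ∈ S := by
  unfold sB
  exact Finset.mem_preimage

theorem GI8_Zpos (G : Gr V E) (M : Al) (hM : M.Ok) (b l : ℝ) (hb : 0 < b) :
    0 < ∑ c : SV V E → Fin (M.k + 1), ∑ o : E → Bool, W G M b l c o := by
  refine Finset.sum_pos (fun c _ => ?_) ⟨fun _ => 0, Finset.mem_univ _⟩
  exact Finset.sum_pos (fun o _ => W_pos G M hM b l hb c o) ⟨fun _ => false, Finset.mem_univ _⟩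

theorem mW_pos (G : Gr V E) (M : Al) (hM : M.Ok) (b l : ℝ) (hb : 0 < b) (x : ∀ i, XI M.k V E i) :
    0 < mW G M b l x := by
  unfold mW
  exact div_pos (W_pos G M hM b l hb _ _) (GI8_Zpos G M hM b l hb)

theorem GI8_mkx {k : ℕ} (x : ∀ i, XI k V E i) : mkx (pc x) (po x) = x := by
  funext i
  cases i <;> rfl

theorem sum_mkx {k : ℕ} (F : (∀ i, XI k V E i) → ℝ) : ∑ x, F x = ∑ c, ∑ o, F (mkx c o) := by
  rw [← Fintype.sum_prod_type' (fun c o => F (mkx c o))]
  refine (Fintype.sum_equiv (⟨fun q => mkx q.1 q.2, fun x => (pc x, po x), fun q => rfl,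
    fun x => GI8_mkx x⟩ : ((SV V E → Fin (k + 1)) × (E → Bool)) ≃ (∀ i, XI k V E i)) _ _ ?_).symm
  intro q
  rfl

theorem mW_sum (G : Gr V E) (M : Al) (hM : M.Ok) (b l : ℝ) (hb : 0 < b) :
    ∑ x, mW G M b l x = 1 := by
  rw [sum_mkx]
  have h1 : ∀ (c : SV V E → Fin (M.k + 1)) (o : E → Bool), mW G M b l (mkx c o) =
      W G M b l c o / ∑ c, ∑ o, W G M b l c o := fun c o => rfl
  simp only [h1]
  simp only [← Finset.sum_div]
  exact div_self (GI8_Zpos G M hM b l hb).ne'

theorem mW_EW (G : Gr V E) (M : Al) (hM : M.Ok) (b l : ℝ) (hb : 0 < b)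
    (f : (SV V E → Fin (M.k + 1)) → (E → Bool) → ℝ) :
    ∑ x, mW G M b l x * f (pc x) (po x) = EW G M b l f := by
  rw [sum_mkx]
  have h1 : ∀ (c : SV V E → Fin (M.k + 1)) (o : E → Bool),
      mW G M b l (mkx c o) * f (pc (mkx c o)) (po (mkx c o)) =
      (W G M b l c o * f c o) / ∑ c, ∑ o, W G M b l c o := by
    intro c o
    have h2 : mW G M b l (mkx c o) * f (pc (mkx c o)) (po (mkx c o)) =
      (W G M b l c o / ∑ c, ∑ o, W G M b l c o) * f c o := rfl
    rw [h2, div_mul_eq_mul_div]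
  simp only [h1]
  simp only [← Finset.sum_div]
  rfl

/-- the constant of the frozen edges. -/
noncomputable def GI8_K (G : Gr V E) (M : Al) (b : ℝ) (B : Finset E) (c : SV V E → Fin (M.k + 1))
    (o : E → Bool) : ℝ :=
  ∏ e ∈ B, AA G M b c e * (if o e then rr G M b c e else 1 - rr G M b c e)

theorem GI8_Kpos (G : Gr V E) (M : Al) (hM : M.Ok) (b : ℝ) (hb : 0 < b) (B : Finset E)
    (c : SV V E → Fin (M.k + 1)) (o : E → Bool) : 0 < GI8_K G M b B c o := by
  unfold GI8_K
  refine Finset.prod_pos (fun e _ => mul_pos ?_ ?_)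
  · unfold AA
    exact Finset.prod_pos (fun j _ => mul_pos (Real.cosh_pos _) (Real.cosh_pos _))
  · obtain ⟨h1, h2, _, _⟩ := rr_bd G M hM b hb c e
    split_ifs
    · exact h1
    · linarith

theorem GI8_loc (G : Gr V E) (M : Al) (b : ℝ) (S : Finset (SV V E ⊕ E)) (hS : Adm G S)
    (c c' : SV V E → Fin (M.k + 1)) (h : ∀ w ∈ sA S, c w = c' w) (e : E) (he : e ∈ sB S) :
    rr G M b c e = rr G M b c' e ∧ tt G M b c e = tt G M b c' e ∧ AA G M b c e = AA G M b c' e := by
  rw [mem_sB] at he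
  have h1 := hS.bit e he
  have h2 := hS.mm e h1
  have h3 := hS.zz e h2
  have g1 := h _ ((mem_sA S _).mpr h1)
  have g2 := h _ ((mem_sA S _).mpr h2)
  have g3 := h _ ((mem_sA S _).mpr h3.1)
  have g4 := h _ ((mem_sA S _).mpr h3.2)
  have k1 : ∀ j : Fin 3, c ((LK G).s (e, j)) = c' ((LK G).s (e, j)) ∧
      c ((LK G).r (e, j)) = c' ((LK G).r (e, j)) := by
    intro j
    fin_cases j
    · exact ⟨g3, g2⟩
    · exact ⟨g2, g1⟩
    · exact ⟨g1, g4⟩
  have k2 : ∀ j : Fin 3, la G M b c (e, j) = la G M b c' (e, j) := by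
    intro j
    unfold la
    rw [(k1 j).1, (k1 j).2]
  have k3 : ∀ j : Fin 3, lb G M b c (e, j) = lb G M b c' (e, j) := by
    intro j
    unfold lb
    rw [(k1 j).1, (k1 j).2]
  refine ⟨?_, ?_, ?_⟩
  · unfold rr
    exact Finset.prod_congr rfl (fun j _ => by rw [k2 j])
  · unfold tt
    exact Finset.prod_congr rfl (fun j _ => by rw [k3 j])
  · unfold AA
    exact Finset.prod_congr rfl (fun j _ => by rw [k2 j, k3 j])

theorem GI8_W (G : Gr V E) (M : Al) (b l : ℝ) (S : Finset (SV V E ⊕ E)) (hS : Adm G S)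
    (c c' : SV V E → Fin (M.k + 1)) (o o' : E → Bool) (h : ∀ w ∈ sA S, c w = c' w)
    (h' : ∀ e ∈ sB S, o e = o' e) :
    W G M b l c o = GI8_K G M b (sB S) c' o' * WB G M b l (sB S) (tt G M b c') c o := by
  unfold W WB GI8_K
  have e1 : (∏ e, AA G M b c e * (if o e then rr G M b c e else 1 - rr G M b c e)) =
      (∏ e ∈ univ \ sB S, AA G M b c e * (if o e then rr G M b c e else 1 - rr G M b c e)) *
      ∏ e ∈ sB S, AA G M b c e * (if o e then rr G M b c e else 1 - rr G M b c e) :=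
    (Finset.prod_sdiff (Finset.subset_univ (sB S))).symm
  have e2 : (∏ e ∈ sB S, AA G M b c e * (if o e then rr G M b c e else 1 - rr G M b c e)) =
      ∏ e ∈ sB S, AA G M b c' e * (if o' e then rr G M b c' e else 1 - rr G M b c' e) := by
    refine Finset.prod_congr rfl (fun e he => ?_)
    obtain ⟨k1, _, k3⟩ := GI8_loc G M b S hS c c' h e he
    rw [k1, k3, h' e he]
  have e3 : (tt G M b c) = fun e => if e ∈ sB S then tt G M b c' e else tt G M b c e := by
    funext e
    split_ifs with he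
    · exact (GI8_loc G M b S hS c c' h e he).2.1
    · rfl
  rw [e1, e2, ← e3]
  ring

theorem GI8_cs (G : Gr V E) (M : Al) (b l : ℝ) (S : Finset (SV V E ⊕ E))
    (hS : Adm G S) (f : (∀ i, XI M.k V E i) → ℝ) (x : ∀ i, XI M.k V E i) :
    cs S x (fun y => mW G M b l y * f y) =
      (GI8_K G M b (sB S) (pc x) (po x) / ∑ c, ∑ o, W G M b l c o) *
        SB G M b l (sA S) (sB S) (tt G M b (pc x)) (pc x) (po x) (fun c o => f (mkx c o)) := by
  unfold cs SB
  rw [sum_mkx, Finset.mul_sum]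
  refine Finset.sum_congr rfl (fun c _ => ?_)
  rw [Finset.mul_sum]
  refine Finset.sum_congr rfl (fun o _ => ?_)
  have h1 : (∀ i ∈ S, mkx c o i = x i) ↔
      ((∀ w ∈ sA S, c w = pc x w) ∧ (∀ e ∈ sB S, o e = po x e)) := by
    constructor
    · intro h
      refine ⟨fun w hw => ?_, fun e he => ?_⟩
      · exact h (Sum.inl w) ((mem_sA S w).mp hw)
      · exact h (Sum.inr e) ((mem_sB S e).mp he)
    · rintro ⟨h, h'⟩ i hi
      cases i with
      | inl w => exact h w ((mem_sA S w).mpr hi)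
      | inr e => exact h' e ((mem_sB S e).mpr hi)
  by_cases h2 : (∀ i ∈ S, mkx c o i = x i)
  · have h3 := h1.mp h2
    rw [if_pos h2, if_pos h3]
    have h4 : mW G M b l (mkx c o) = W G M b l c o / ∑ c, ∑ o, W G M b l c o := rfl
    show mW G M b l (mkx c o) * f (mkx c o) = _ * (_ * f (mkx c o))
    rw [h4, GI8_W G M b l S hS c (pc x) o (po x) h3.1 h3.2]
    ring
  · have h3 : ¬ ((∀ w ∈ sA S, c w = pc x w) ∧ (∀ e ∈ sB S, o e = po x e)) :=
      fun h => h2 (h1.mpr h)
    rw [if_neg h2, if_neg h3, mul_zero]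

theorem ce_EB (G : Gr V E) (M : Al) (hM : M.Ok) (b l : ℝ) (hb : 0 < b) (S : Finset (SV V E ⊕ E))
    (hS : Adm G S) (f : (∀ i, XI M.k V E i) → ℝ) (x : ∀ i, XI M.k V E i) :
    ce (mW G M b l) f S x =
      EB G M b l (sA S) (sB S) (tt G M b (pc x)) (pc x) (po x) (fun c o => f (mkx c o)) := by
  have hK : GI8_K G M b (sB S) (pc x) (po x) / ∑ c, ∑ o, W G M b l c o ≠ 0 :=
    (div_pos (GI8_Kpos G M hM b hb _ _ _) (GI8_Zpos G M hM b l hb)).ne'
  have h1 := GI8_cs G M b l S hS f x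
  have h2 := GI8_cs G M b l S hS (fun _ => 1) x
  have h3 : (fun y => mW G M b l y * (fun _ : (∀ i, XI M.k V E i) => (1 : ℝ)) y) = mW G M b l := by
    funext y
    exact mul_one _
  rw [h3] at h2
  unfold ce EB
  rw [h1, h2]
  exact mul_div_mul_left _ _ hK

theorem GI8_mkx_le {k : ℕ} (c c' : SV V E → Fin (k + 1)) (o o' : E → Bool) (h : c ≤ c')
    (h' : o ≤ o') : mkx c o ≤ mkx c' o' := by
  intro i
  cases i with
  | inl w => exact h w
  | inr e => exact h' e

theorem mW_mon (G : Gr V E) (M : Al) (hM : M.Ok) (b l : ℝ) (hb : 0 < b) :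
    MonM (mW G M b l) (Adm G) := by
  classical
  intro S hS g hg x y hxy
  rw [ce_EB G M hM b l hb S hS g x, ce_EB G M hM b l hb S hS g y]
  have hc : ∀ w ∈ sA S, pc x w ≤ pc y w := fun w hw => hxy (Sum.inl w) ((mem_sA S w).mp hw)
  have ho : ∀ e ∈ sB S, po x e ≤ po y e := fun e he => hxy (Sum.inr e) ((mem_sB S e).mp he)
  refine EB_mono G M hM b l hb (sA S) (sB S) (tt G M b (pc x)) (tt G M b (pc y)) ?_ ?_ ?_
    (pc x) (pc y) hc (po x) (po y) ho _ ?_
  · intro e _
    exact (rr_bd G M hM b hb (pc y) e).2.2.1.le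
  · intro e he
    obtain ⟨c2, hc2⟩ : ∃ c2 : SV V E → Fin (M.k + 1), c2 =
      fun w => if w ∈ sA S then pc y w else pc x w := ⟨_, rfl⟩
    have k1 : pc x ≤ c2 := by
      intro w
      rw [hc2]
      show pc x w ≤ if w ∈ sA S then pc y w else pc x w
      split_ifs with hw
      · exact hc w hw
      · exact le_rfl
    have k2 : ∀ w ∈ sA S, c2 w = pc y w := by
      intro w hw
      rw [hc2]
      exact if_pos hw
    rw [← (GI8_loc G M b S hS c2 (pc y) k2 e he).2.1]
    exact (rr_mono G M hM b hb (pc x) c2 k1 e).2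
  · intro e _
    exact (rr_bd G M hM b hb (pc x) e).2.2.2.le
  · intro c c' o o' h h'
    exact hg (GI8_mkx_le c c' o o' h h')

/-- association. -/
theorem mW_asc (G : Gr V E) (M : Al) (hM : M.Ok) (b l : ℝ) (hb : 0 < b)
    (f g : (∀ i, XI M.k V E i) → ℝ) (hf : Monotone f) (hg : Monotone g) :
    (∑ x, mW G M b l x * f x) * (∑ x, mW G M b l x * g x) ≤ ∑ x, mW G M b l x * (f x * g x) := by
  have h1 : ∀ F : (∀ i, XI M.k V E i) → ℝ, ∑ x, mW G M b l x * F x =
      EW G M b l (fun c o => F (mkx c o)) := by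
    intro F
    rw [← mW_EW G M hM b l hb (fun c o => F (mkx c o))]
    exact Finset.sum_congr rfl (fun x _ => by rw [GI8_mkx x])
  rw [h1 f, h1 g, h1 (fun x => f x * g x)]
  exact asc G M hM b l hb _ _ (fun c c' o o' h h' => hf (GI8_mkx_le c c' o o' h h'))
    (fun c c' o o' h h' => hg (GI8_mkx_le c c' o o' h h'))

/-- the average conditional covariance is at most the covariance. -/
theorem mW_cov (G : Gr V E) (M : Al) (hM : M.Ok) (b l : ℝ) (hb : 0 < b) (S : Finset (SV V E ⊕ E))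
    (hS : Adm G S) (f : (∀ i, XI M.k V E i) → ℝ) (hf : Monotone f) (w : SV V E) :
    ∑ x, mW G M b l x * (ce (mW G M b l) (fun y => f y * c2 M w y) S x -
      ce (mW G M b l) f S x * ce (mW G M b l) (c2 M w) S x) ≤ cv G M b l f w := by
  have hm : ∀ x, 0 < mW G M b l x := fun x => mW_pos G M hM b l hb x
  have hmon := mW_mon G M hM b l hb
  have hc2 : Monotone (c2 M w : (∀ i, XI M.k V E i) → ℝ) := by
    intro x y hxy
    have h1 : M.cc (pc x w) ≤ M.cc (pc y w) := hM.mono (hxy (Sum.inl w))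
    exact pow_le_pow_left₀ (hM.cc0 _).le h1 2
  have tower : ∀ F : (∀ i, XI M.k V E i) → ℝ, ∑ x, mW G M b l x * ce (mW G M b l) F S x =
      ∑ x, mW G M b l x * F x := by
    intro F
    have h2 := ce_avg (mW G M b l) F (fun _ => 1) hm S (fun _ _ _ => rfl)
    simp only [mul_one] at h2
    exact h2.symm
  have ha := mW_asc G M hM b l hb (fun x => ce (mW G M b l) f S x)
    (fun x => ce (mW G M b l) (c2 M w) S x)
    (fun x y hxy => hmon S hS f hf x y (fun i _ => hxy i))
    (fun x y hxy => hmon S hS (c2 M w) hc2 x y (fun i _ => hxy i))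
  rw [tower f, tower (c2 M w)] at ha
  have hs : ∑ x, mW G M b l x * (ce (mW G M b l) (fun y => f y * c2 M w y) S x -
      ce (mW G M b l) f S x * ce (mW G M b l) (c2 M w) S x) =
      ∑ x, mW G M b l x * (f x * c2 M w x) -
      ∑ x, mW G M b l x * (ce (mW G M b l) f S x * ce (mW G M b l) (c2 M w) S x) := by
    rw [← tower (fun y => f y * c2 M w y), ← Finset.sum_sub_distrib]
    exact Finset.sum_congr rfl (fun x _ => by ring)
  rw [hs]
  unfold cv
  linarith

end H82.BX
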