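import Pool.Agent.H82.BX.HS1

/-!
# HS2: FKG for the heights

`WH` is log-supermodular: `w(a-b) w(a'-b') ≤ w((a∧a')-(b∧b')) w((a∨a')-(b∨b'))` for `w > 0` symmetric log-concave (with `x = a-b`, `y = a'-b'`: if `a ≤ a'`, `b ≥ b'` the right side is `w(a-b') w(a'-b)`,
and `a - b ≤ a-b', a'-b ≤ a'-b'` with the same sum; log-concavity: `w(x) w(y) ≤ w(x+d) w(y-d)` for `x ≤ x+d`, `0 ≤ d ≤ y - x`).
Truncate to `h : ↥F → Icc (-N) N` (a finite distributive lattice) and use `fkg` (`Mathlib/Combinatorics/SetFamily/FourFunctions.lean`; add constants to make the functions nonnegative on the finite set), then `N → ∞`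
(summability from `WH_summ`).
-/

set_option autoImplicit false

open Finset MeasureTheory

namespace H82.BX

open H82.IC

variable {V E : Type} [DecidableEq V] [DecidableEq E]

theorem HS2_lcA (w : ℤ → ℝ) (hw : WOk w) (m : ℤ) (k : ℕ) :
    w m * w (m + k + 1) ≤ w (m + 1) * w (m + k) := by
  induction k with
  | zero =>
    have h0 : m + ((0 : ℕ) : ℤ) = m := by simp
    rw [h0, mul_comm]
  | succ k ih =>
    have h1 := hw.lc (m + k + 1)
    have e1 : m + k + 1 - 1 = m + k := by ring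
    have e2 : m + ((k + 1 : ℕ) : ℤ) = m + k + 1 := by push_cast; ring
    rw [e1] at h1
    rw [e2]
    have p1 := hw.pos (m + k)
    have p2 := hw.pos (m + k + 1)
    have p3 := hw.pos (m + 1)
    have p4 := hw.pos m
    have p5 := hw.pos (m + k + 1 + 1)
    have h2 : (w m * w (m + k + 1)) * (w (m + k) * w (m + k + 1 + 1)) ≤
        (w (m + 1) * w (m + k)) * (w (m + k + 1) ^ 2) :=
      mul_le_mul ih h1 (by positivity) (by positivity)
    have h3 : (w m * w (m + k + 1 + 1)) * (w (m + k) * w (m + k + 1)) ≤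
        (w (m + 1) * w (m + k + 1)) * (w (m + k) * w (m + k + 1)) := by
      calc _ = (w m * w (m + k + 1)) * (w (m + k) * w (m + k + 1 + 1)) := by ring
        _ ≤ _ := h2
        _ = _ := by ring
    exact le_of_mul_le_mul_right h3 (by positivity)

theorem HS2_lcB (w : ℤ → ℝ) (hw : WOk w) (x y : ℤ) (d : ℕ) (hd : 2 * (d : ℤ) ≤ y - x) :
    w x * w y ≤ w (x + d) * w (y - d) := by
  induction d with
  | zero => simp
  | succ d ih =>
    have h1 : 2 * (d : ℤ) ≤ y - x := by push_cast at hd; omega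
    refine (ih h1).trans ?_
    obtain ⟨k, hk⟩ : ∃ k : ℕ, y - d - 1 = x + d + k :=
      ⟨(y - d - 1 - (x + d)).toNat, by push_cast at hd; omega⟩
    have h2 := HS2_lcA w hw (x + d) k
    have e1 : x + d + k + 1 = y - d := by omega
    have e2 : x + ((d + 1 : ℕ) : ℤ) = x + d + 1 := by push_cast; ring
    have e3 : y - ((d + 1 : ℕ) : ℤ) = x + d + k := by push_cast; omega
    rw [e1] at h2
    rw [e2, e3]
    exact h2

theorem w_lc2 (w : ℤ → ℝ) (hw : WOk w) (x y d : ℤ) (hd : 0 ≤ d) (hxy : d ≤ y - x) :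
    w x * w y ≤ w (x + d) * w (y - d) := by
  by_cases h : 2 * d ≤ y - x
  · obtain ⟨k, rfl⟩ := Int.eq_ofNat_of_zero_le hd
    exact HS2_lcB w hw x y k h
  · obtain ⟨k, hk⟩ : ∃ k : ℕ, (k : ℤ) = y - x - d := ⟨(y - x - d).toNat, by omega⟩
    have h1 := HS2_lcB w hw x y k (by omega)
    have e1 : x + k = y - d := by omega
    have e2 : y - k = x + d := by omega
    rw [e1, e2] at h1
    rw [mul_comm (w (x + d))]
    exact h1

theorem HS2_edge (w : ℤ → ℝ) (hw : WOk w) (a b a' b' : ℤ) :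
    w (a - b) * w (a' - b') ≤ w (min a a' - min b b') * w (max a a' - max b b') := by
  rcases le_total a a' with h1 | h1 <;> rcases le_total b b' with h2 | h2
  · rw [min_eq_left h1, min_eq_left h2, max_eq_right h1, max_eq_right h2]
  · rw [min_eq_left h1, min_eq_right h2, max_eq_right h1, max_eq_left h2]
    have h3 := w_lc2 w hw (a - b) (a' - b') (b - b') (by omega) (by omega)
    have e1 : a - b + (b - b') = a - b' := by ring
    have e2 : a' - b' - (b - b') = a' - b := by ring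
    rw [e1, e2] at h3
    exact h3
  · rw [min_eq_right h1, min_eq_left h2, max_eq_left h1, max_eq_right h2]
    have h3 := w_lc2 w hw (a' - b') (a - b) (b' - b) (by omega) (by omega)
    have e1 : a' - b' + (b' - b) = a' - b := by ring
    have e2 : a - b - (b' - b) = a - b' := by ring
    rw [e1, e2] at h3
    rw [mul_comm (w (a - b))]
    exact h3
  · rw [min_eq_right h1, min_eq_right h2, max_eq_left h1, max_eq_left h2, mul_comm]

theorem HS2_ex_inf {F : Finset V} (a b : ↥F → ℤ) (v : V) :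
    ex (a ⊓ b) v = min (ex a v) (ex b v) := by
  unfold ex
  split_ifs with h
  · rfl
  · simp

theorem HS2_ex_sup {F : Finset V} (a b : ↥F → ℤ) (v : V) :
    ex (a ⊔ b) v = max (ex a v) (ex b v) := by
  unfold ex
  split_ifs with h
  · rfl
  · simp

theorem HS2_WH (G : Gr V E) (F : Finset V) (EF : Finset E) (w : ℤ → ℝ) (hw : WOk w) (a b : ↥F → ℤ) :
    WH G F EF w a * WH G F EF w b ≤ WH G F EF w (a ⊓ b) * WH G F EF w (a ⊔ b) := by
  unfold WH
  rw [← prod_mul_distrib, ← prod_mul_distrib]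
  refine prod_le_prod (fun e _ => (mul_pos (hw.pos _) (hw.pos _)).le) fun e _ => ?_
  rw [HS2_ex_inf, HS2_ex_inf, HS2_ex_sup, HS2_ex_sup]
  exact HS2_edge w hw _ _ _ _

/-- the truncation. -/
def HS2_phi (F : Finset V) (N : ℕ) (a : ↥F → Fin (2 * N + 1)) : ↥F → ℤ :=
  fun v => ((a v : ℕ) : ℤ) - N

theorem HS2_phi_mono (F : Finset V) (N : ℕ) : Monotone (HS2_phi F N) := by
  intro a b h v
  have h1 : ((a v : ℕ) : ℤ) ≤ ((b v : ℕ) : ℤ) := by exact_mod_cast h v
  change ((a v : ℕ) : ℤ) - N ≤ ((b v : ℕ) : ℤ) - N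
  omega

theorem HS2_phi_inf (F : Finset V) (N : ℕ) (a b : ↥F → Fin (2 * N + 1)) :
    HS2_phi F N (a ⊓ b) = HS2_phi F N a ⊓ HS2_phi F N b := by
  funext v
  rcases le_total (a v) (b v) with h | h
  · have h1 : ((a v : ℕ) : ℤ) ≤ ((b v : ℕ) : ℤ) := by exact_mod_cast h
    simp only [HS2_phi, Pi.inf_apply, inf_eq_left.2 h]
    rw [inf_eq_left.2 (by omega)]
  · have h1 : ((b v : ℕ) : ℤ) ≤ ((a v : ℕ) : ℤ) := by exact_mod_cast h
    simp only [HS2_phi, Pi.inf_apply, inf_eq_right.2 h]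
    rw [inf_eq_right.2 (by omega)]

theorem HS2_phi_sup (F : Finset V) (N : ℕ) (a b : ↥F → Fin (2 * N + 1)) :
    HS2_phi F N (a ⊔ b) = HS2_phi F N a ⊔ HS2_phi F N b := by
  funext v
  rcases le_total (a v) (b v) with h | h
  · have h1 : ((a v : ℕ) : ℤ) ≤ ((b v : ℕ) : ℤ) := by exact_mod_cast h
    simp only [HS2_phi, Pi.sup_apply, sup_eq_right.2 h]
    rw [sup_eq_right.2 (by omega)]
  · have h1 : ((b v : ℕ) : ℤ) ≤ ((a v : ℕ) : ℤ) := by exact_mod_cast h
    simp only [HS2_phi, Pi.sup_apply, sup_eq_left.2 h]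
    rw [sup_eq_left.2 (by omega)]

theorem HS2_sum (F : Finset V) (N : ℕ) (H : (↥F → ℤ) → ℝ) :
    ∑ a, H (HS2_phi F N a) = ∑ h ∈ Fintype.piFinset (fun _ : ↥F => Finset.Icc (-(N : ℤ)) N), H h := by
  refine Finset.sum_nbij' (HS2_phi F N)
    (fun h v => ⟨(h v + N).toNat % (2 * N + 1), Nat.mod_lt _ (by omega)⟩) ?_ ?_ ?_ ?_ ?_
  · intro a _
    rw [Fintype.mem_piFinset]
    intro v
    have := (a v).2
    rw [Finset.mem_Icc]
    unfold HS2_phi
    omega
  · intro h _; exact Finset.mem_univ _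
  · intro a _
    funext v
    apply Fin.ext
    have h1 := (a v).2
    have h2 : (HS2_phi F N a v + N).toNat = (a v : ℕ) := by unfold HS2_phi; omega
    simp only [h2]
    exact Nat.mod_eq_of_lt h1
  · intro h hh
    rw [Fintype.mem_piFinset] at hh
    funext v
    have h1 := Finset.mem_Icc.1 (hh v)
    have h2 : (h v + N).toNat % (2 * N + 1) = (h v + N).toNat := Nat.mod_eq_of_lt (by omega)
    simp only [HS2_phi, h2]
    omega
  · intro a _; rfl

theorem HS2_fin (G : Gr V E) (F : Finset V) (EF : Finset E) (w : ℤ → ℝ) (hw : WOk w)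
    (f g : (V → ℤ) → ℝ) (hf : Monotone f) (hg : Monotone g) (N : ℕ) :
    (∑ h ∈ Fintype.piFinset (fun _ : ↥F => Finset.Icc (-(N : ℤ)) N), WH G F EF w h * f (ex h)) *
      (∑ h ∈ Fintype.piFinset (fun _ : ↥F => Finset.Icc (-(N : ℤ)) N), WH G F EF w h * g (ex h)) ≤
    (∑ h ∈ Fintype.piFinset (fun _ : ↥F => Finset.Icc (-(N : ℤ)) N), WH G F EF w h) *
      (∑ h ∈ Fintype.piFinset (fun _ : ↥F => Finset.Icc (-(N : ℤ)) N),
        WH G F EF w h * (f (ex h) * g (ex h))) := by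
  rw [← HS2_sum F N (fun h => WH G F EF w h * f (ex h)),
    ← HS2_sum F N (fun h => WH G F EF w h * g (ex h)), ← HS2_sum F N (fun h => WH G F EF w h),
    ← HS2_sum F N (fun h => WH G F EF w h * (f (ex h) * g (ex h)))]
  have hex : Monotone (fun a : ↥F → Fin (2 * N + 1) => (ex (HS2_phi F N a) : V → ℤ)) := by
    intro a b h v
    have h1 := HS2_phi_mono F N h
    simp only [ex]
    split_ifs with hv
    · exact h1 _
    · exact le_rfl
  have hbd : ∀ k : (↥F → Fin (2 * N + 1)) → ℝ, ∃ c : ℝ, ∀ a, 0 ≤ k a + c := by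
    intro k
    refine ⟨∑ a, |k a|, fun a => ?_⟩
    have h1 : |k a| ≤ ∑ a, |k a| :=
      Finset.single_le_sum (f := fun a => |k a|) (fun a _ => abs_nonneg _) (Finset.mem_univ a)
    have h2 := neg_abs_le (k a)
    linarith
  obtain ⟨c, hc⟩ := hbd (fun a => f (ex (HS2_phi F N a)))
  obtain ⟨c', hc'⟩ := hbd (fun a => g (ex (HS2_phi F N a)))
  have h := fkg (α := ↥F → Fin (2 * N + 1)) (β := ℝ)
    (μ := fun a => WH G F EF w (HS2_phi F N a))
    (f := fun a => f (ex (HS2_phi F N a)) + c) (g := fun a => g (ex (HS2_phi F N a)) + c')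
    (fun a => (WH_pos G F EF w hw _).le) hc hc'
    (fun a b hab => add_le_add (hf (hex hab)) le_rfl)
    (fun a b hab => add_le_add (hg (hex hab)) le_rfl)
    (fun a b => by
      simp only [HS2_phi_inf, HS2_phi_sup]
      exact HS2_WH G F EF w hw _ _)
  have e1 : ∑ a, WH G F EF w (HS2_phi F N a) * (f (ex (HS2_phi F N a)) + c) =
      ∑ a, WH G F EF w (HS2_phi F N a) * f (ex (HS2_phi F N a)) +
        c * ∑ a, WH G F EF w (HS2_phi F N a) := by
    rw [mul_sum, ← sum_add_distrib]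
    exact sum_congr rfl fun a _ => by ring
  have e2 : ∑ a, WH G F EF w (HS2_phi F N a) * (g (ex (HS2_phi F N a)) + c') =
      ∑ a, WH G F EF w (HS2_phi F N a) * g (ex (HS2_phi F N a)) +
        c' * ∑ a, WH G F EF w (HS2_phi F N a) := by
    rw [mul_sum, ← sum_add_distrib]
    exact sum_congr rfl fun a _ => by ring
  have e3 : ∑ a, WH G F EF w (HS2_phi F N a) * ((f (ex (HS2_phi F N a)) + c) *
      (g (ex (HS2_phi F N a)) + c')) =
      ∑ a, WH G F EF w (HS2_phi F N a) * (f (ex (HS2_phi F N a)) * g (ex (HS2_phi F N a))) +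
        c * ∑ a, WH G F EF w (HS2_phi F N a) * g (ex (HS2_phi F N a)) +
        c' * ∑ a, WH G F EF w (HS2_phi F N a) * f (ex (HS2_phi F N a)) +
        c * c' * ∑ a, WH G F EF w (HS2_phi F N a) := by
    rw [mul_sum, mul_sum, mul_sum, ← sum_add_distrib, ← sum_add_distrib, ← sum_add_distrib]
    exact sum_congr rfl fun a _ => by ring
  rw [e1, e2, e3] at h
  nlinarith [h]

theorem HS2_lim (F : Finset V) (H : (↥F → ℤ) → ℝ) (hH : Summable H) :
    Filter.Tendsto (fun N : ℕ => ∑ h ∈ Fintype.piFinset (fun _ : ↥F => Finset.Icc (-(N : ℤ)) N), H h)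
      Filter.atTop (nhds (∑' h, H h)) := by
  refine hH.hasSum.comp (Filter.tendsto_atTop_finset_of_monotone ?_ ?_)
  · intro N N' hN
    exact Fintype.piFinset_subset _ _ fun _ => Finset.Icc_subset_Icc (by omega) (by omega)
  · intro h
    refine ⟨∑ v, (h v).natAbs, ?_⟩
    rw [Fintype.mem_piFinset]
    intro v
    have h1 : (h v).natAbs ≤ ∑ v, (h v).natAbs :=
      Finset.single_le_sum (f := fun v => (h v).natAbs) (fun _ _ => Nat.zero_le _) (Finset.mem_univ v)
    rw [Finset.mem_Icc]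
    omega

theorem hs_fkg (G : Gr V E) (F : Finset V) (EF : Finset E) (hB : Bd G F EF) (w : ℤ → ℝ) (hw : WOk w)
    (f g : (V → ℤ) → ℝ) (hf : Monotone f) (hg : Monotone g) (hf' : PBd F f) (hg' : PBd F g) :
    Eh G F EF w f * Eh G F EF w g ≤ Eh G F EF w (fun h => f h * g h) := by
  have s1 := WH_summ G F EF hB w hw f hf'
  have s2 := WH_summ G F EF hB w hw g hg'
  have s3 := WH_summ G F EF hB w hw _ (PBd_mul F f g hf' hg')
  obtain ⟨s4, hpos⟩ := WH_summ1 G F EF hB w hw
  have key : (∑' h : ↥F → ℤ, WH G F EF w h * f (ex h)) * (∑' h : ↥F → ℤ, WH G F EF w h * g (ex h)) ≤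
      (∑' h : ↥F → ℤ, WH G F EF w h) * ∑' h : ↥F → ℤ, WH G F EF w h * (f (ex h) * g (ex h)) :=
    le_of_tendsto_of_tendsto ((HS2_lim F _ s1).mul (HS2_lim F _ s2))
      ((HS2_lim F _ s4).mul (HS2_lim F _ s3))
      (Filter.Eventually.of_forall fun N => HS2_fin G F EF w hw f g hf hg N)
  unfold Eh
  rw [div_mul_div_comm, div_le_div_iff₀ (mul_pos hpos hpos) hpos]
  calc _ ≤ ((∑' h : ↥F → ℤ, WH G F EF w h) *
        ∑' h : ↥F → ℤ, WH G F EF w h * (f (ex h) * g (ex h))) * ∑' h : ↥F → ℤ, WH G F EF w h :=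
        mul_le_mul_of_nonneg_right key hpos.le
    _ = _ := by ring

end H82.BX
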