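import Pool.Agent.H82.BX.HS2

/-!
# HS3: the opening probabilities, association of `ω⁻`, mixing

* `qm_mono`: for `a, b ≤ 0` put `x = 1/2 - a`, `y = 1/2 - b > 0`: `qm = 1 - w(x+y)/w(x-y)` (half integers; in integers `w(a+b-1)/w(a-b)`); the ratio decreases when `a` decreases: `w(a+b-2) w(a-b) ≤ w(a+b-1) w(a-1-b)`
  (`w_lc2`, symmetric `w`).  `0 ≤ qm < 1`: `|a+b-1| ≥ |a-b|` for `a, b ≤ 0` and `w` is nonincreasing in `|·|` (`w_lc2` with symmetry).
* `qm_sum`: `qm a b + qm (-a) (-b) ≤ 1`: both nonzero only if `a = b = 0`, then `2 (1 - w 1/w 0) ≤ 1`.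
* `em_mono`: `em B h φ` is antitone in `h` for increasing `φ` (product measures with larger parameters; change one parameter at a time).
* `em_fkg`: Harris for product measures (`fkg` on `↥B → Bool`).
* `pm_fkg`: `em_fkg` inside, then `hs_fkg` for the two increasing functions `-em`.
* `pm_mix`: `f = -em B1 φ1`, `g = -em B2 φ2` are increasing with values in `[-1,0]`, `em (B1 ∪ B2) (φ1 φ2) = em B1 φ1 em B2 φ2`.  With `S1 = ∑_{i ∈ N1} h_i`, `N1` = the ends of `B1` in `F`: `S1 ± f` are increasing (if `h ≤ h'` differ on `N1` then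
  `S1(h') - S1(h) ≥ 1 ≥ |f(h') - f(h)|`; `f` depends only on the heights of the ends of `B1`), same for `S2 ± g`.  `hs_fkg`: `Cov(S1+f, S2-g) + Cov(S1-f, S2+g) ≥ 0`, i.e. `Cov(f,g) ≤ Cov(S1,S2) = ∑∑ Eh(h_i h_j)` (`Eh h_i = 0` by `Eh_neg`).
-/

set_option autoImplicit false

open Finset MeasureTheory

namespace H82.BX

open H82.IC

variable {V E : Type} [DecidableEq V] [DecidableEq E]

/-! ### product measures -/

section prod
variable {ι : Type} [Fintype ι]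

/-- product weight. -/
noncomputable def h3b (q : ι → ℝ) (ω : ι → Bool) : ℝ := ∏ i, if ω i then q i else 1 - q i

theorem h3b_nonneg (q : ι → ℝ) (h0 : ∀ i, 0 ≤ q i) (h1 : ∀ i, q i ≤ 1) (ω : ι → Bool) :
    0 ≤ h3b q ω := by
  refine prod_nonneg fun i _ => ?_
  split_ifs
  · exact h0 i
  · linarith [h1 i]

theorem h3b_sum [DecidableEq ι] (q : ι → ℝ) : ∑ ω, h3b q ω = 1 := by
  unfold h3b
  have := Finset.prod_univ_sum (fun _ : ι => (univ : Finset Bool))
    (fun i (b : Bool) => if b = true then q i else 1 - q i)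
  rw [Fintype.piFinset_univ] at this
  rw [← this]
  refine prod_eq_one fun i _ => ?_
  simp

theorem h3b_mono [DecidableEq ι] (q q' : ι → ℝ) (h0 : ∀ i, 0 ≤ q i) (h1 : ∀ i, q' i ≤ 1)
    (hq : ∀ i, q i ≤ q' i) (φ : (ι → Bool) → ℝ) (hφ : Monotone φ) :
    ∑ ω, h3b q ω * φ ω ≤ ∑ ω, h3b q' ω * φ ω := by
  have hb : ∃ C : ℝ, ∀ ω, -C ≤ φ ω := by
    refine ⟨∑ ω, |φ ω|, fun ω => ?_⟩
    have := single_le_sum (f := fun ω => |φ ω|) (fun i _ => abs_nonneg _) (mem_univ ω)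
    have h2 := neg_abs_le (φ ω)
    linarith
  obtain ⟨C, hC⟩ := hb
  have key := holley (μ := fun ω => φ ω + C) (f := h3b q) (g := h3b q')
    (fun ω => by have := hC ω; simp only [Pi.zero_apply]; linarith)
    (h3b_nonneg q h0 fun i => (hq i).trans (h1 i)) (h3b_nonneg q' (fun i => (h0 i).trans (hq i)) h1)
    (fun a b h => by have := hφ h; simp only; linarith)
    (by rw [h3b_sum, h3b_sum]) ?_
  · simp only [add_mul, sum_add_distrib, ← mul_sum, h3b_sum] at key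
    have e1 : ∀ r : ι → ℝ, ∑ ω, h3b r ω * φ ω = ∑ ω, φ ω * h3b r ω := fun r =>
      sum_congr rfl fun _ _ => mul_comm _ _
    rw [e1, e1]
    linarith
  · intro a b
    unfold h3b
    rw [← prod_mul_distrib, ← prod_mul_distrib]
    refine prod_le_prod (fun i _ => mul_nonneg ?_ ?_) fun i _ => ?_
    · split_ifs
      · exact h0 i
      · linarith [hq i, h1 i]
    · split_ifs
      · exact (h0 i).trans (hq i)
      · linarith [h1 i]
    · rw [Pi.inf_apply, Pi.sup_apply]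
      cases a i <;> cases b i <;> simp
      nlinarith [h0 i, hq i, h1 i]

theorem h3b_fkg [DecidableEq ι] (q : ι → ℝ) (h0 : ∀ i, 0 ≤ q i) (h1 : ∀ i, q i ≤ 1)
    (φ ψ : (ι → Bool) → ℝ) (hφ : Monotone φ) (hψ : Monotone ψ) :
    (∑ ω, h3b q ω * φ ω) * (∑ ω, h3b q ω * ψ ω) ≤ ∑ ω, h3b q ω * (φ ω * ψ ω) := by
  have hb : ∀ χ : (ι → Bool) → ℝ, ∃ C : ℝ, ∀ ω, -C ≤ χ ω := by
    intro χ
    refine ⟨∑ ω, |χ ω|, fun ω => ?_⟩
    have := single_le_sum (f := fun ω => |χ ω|) (fun i _ => abs_nonneg _) (mem_univ ω)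
    have h2 := neg_abs_le (χ ω)
    linarith
  obtain ⟨C, hC⟩ := hb φ
  obtain ⟨D, hD⟩ := hb ψ
  have key := fkg (μ := h3b q) (f := fun ω => φ ω + C) (g := fun ω => ψ ω + D)
    (h3b_nonneg q h0 h1) (fun ω => by have := hC ω; simp only [Pi.zero_apply]; linarith)
    (fun ω => by have := hD ω; simp only [Pi.zero_apply]; linarith)
    (fun a b h => by have := hφ h; simp only; linarith)
    (fun a b h => by have := hψ h; simp only; linarith) ?_
  · have e1 : ∑ ω, h3b q ω * (φ ω + C) = (∑ ω, h3b q ω * φ ω) + C := by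
      simp only [mul_add, sum_add_distrib, ← sum_mul, h3b_sum, one_mul]
    have e2 : ∑ ω, h3b q ω * (ψ ω + D) = (∑ ω, h3b q ω * ψ ω) + D := by
      simp only [mul_add, sum_add_distrib, ← sum_mul, h3b_sum, one_mul]
    have e3 : ∑ ω, h3b q ω * ((φ ω + C) * (ψ ω + D)) = (∑ ω, h3b q ω * (φ ω * ψ ω)) +
        D * (∑ ω, h3b q ω * φ ω) + C * (∑ ω, h3b q ω * ψ ω) + C * D := by
      have : ∀ ω, h3b q ω * ((φ ω + C) * (ψ ω + D)) = h3b q ω * (φ ω * ψ ω) +
          D * (h3b q ω * φ ω) + C * (h3b q ω * ψ ω) + (C * D) * h3b q ω := fun ω => by ring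
      simp only [this, sum_add_distrib, ← mul_sum, h3b_sum, mul_one]
    rw [e1, e2, e3, h3b_sum] at key
    nlinarith [key]
  · intro a b
    unfold h3b
    rw [← prod_mul_distrib, ← prod_mul_distrib]
    refine le_of_eq (prod_congr rfl fun i _ => ?_)
    rw [Pi.inf_apply, Pi.sup_apply]
    cases a i <;> cases b i <;> simp
    ring

end prod

omit [DecidableEq V] in
theorem h3_em (w : ℤ → ℝ) (G : Gr V E) (B : Finset E) (h : V → ℤ) (φ : (E → Bool) → ℝ) :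
    em w G B h φ = ∑ ω, h3b (fun e : ↥B => qm w (h (G.s e.1)) (h (G.r e.1))) ω * φ (g0 B ω) := rfl

/-! ### opening probabilities -/

theorem h3_dec (w : ℤ → ℝ) (hw : WOk w) (x y : ℤ) (h1 : -y ≤ x) (h2 : x ≤ y) : w y ≤ w x := by
  have h := w_lc2 w hw (-y) y (y - x) (by linarith) (by linarith)
  rw [show -y + (y - x) = -x by ring, show y - (y - x) = x by ring, hw.symm, hw.symm] at h
  exact le_of_sq_le_sq' (by rw [sq, sq]; exact h) (hw.pos x).le
where
  le_of_sq_le_sq' {a b : ℝ} (h : a ^ 2 ≤ b ^ 2) (hb : 0 ≤ b) : a ≤ b := abs_le_of_sq_le_sq' h hb |>.2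

theorem qm_bd (w : ℤ → ℝ) (hw : WOk w) (a b : ℤ) : 0 ≤ qm w a b ∧ qm w a b < 1 := by
  unfold qm
  split_ifs with h
  · have hp := hw.pos (a - b)
    have hq := hw.pos (a + b - 1)
    constructor
    · rw [sub_nonneg, div_le_one hp, ← hw.symm (a + b - 1)]
      exact h3_dec w hw _ _ (by omega) (by omega)
    · have := div_pos hq hp
      linarith
  · exact ⟨le_rfl, one_pos⟩

theorem qm_symm (w : ℤ → ℝ) (hw : WOk w) (a b : ℤ) : qm w a b = qm w b a := by
  unfold qm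
  rw [show a + b - 1 = b + a - 1 by ring, show a - b = -(b - a) by ring, hw.symm]
  simp only [and_comm]

theorem h3_qm1 (w : ℤ → ℝ) (hw : WOk w) (a b : ℤ) (ha : a ≤ 0) (hb : b ≤ 0) :
    qm w a b ≤ qm w (a - 1) b := by
  unfold qm
  rw [if_pos ⟨ha, hb⟩, if_pos ⟨by omega, hb⟩]
  refine sub_le_sub_left ?_ _
  rw [div_le_div_iff₀ (hw.pos _) (hw.pos _)]
  have h := w_lc2 w hw (a + b - 2) (a - b) 1 (by norm_num) (by omega)
  rw [show a + b - 2 + 1 = a + b - 1 by ring, show a - b - 1 = a - 1 - b by ring] at h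
  rw [show a - 1 + b - 1 = a + b - 2 by ring]
  exact h

theorem h3_qml (w : ℤ → ℝ) (hw : WOk w) (a a' b : ℤ) (ha : a ≤ a') : qm w a' b ≤ qm w a b := by
  by_cases h : a' ≤ 0 ∧ b ≤ 0
  · obtain ⟨n, hn⟩ := Int.eq_ofNat_of_zero_le (sub_nonneg.2 ha)
    have key : ∀ n : ℕ, qm w a' b ≤ qm w (a' - n) b := by
      intro n
      induction n with
      | zero => simp
      | succ n ih =>
        refine ih.trans ?_
        have := h3_qm1 w hw (a' - n) b (by omega) h.2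
        rw [show a' - ((n + 1 : ℕ) : ℤ) = a' - n - 1 by push_cast; ring]
        exact this
    have := key n
    rwa [show a' - (n : ℤ) = a by omega] at this
  · have : qm w a' b = 0 := by unfold qm; rw [if_neg h]
    rw [this]
    exact (qm_bd w hw a b).1

theorem qm_mono (w : ℤ → ℝ) (hw : WOk w) (a a' b b' : ℤ) (ha : a ≤ a') (hb : b ≤ b') :
    qm w a' b' ≤ qm w a b := by
  refine (h3_qml w hw a a' b' ha).trans ?_
  rw [qm_symm w hw a b', qm_symm w hw a b]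
  exact h3_qml w hw b b' a hb

theorem qm_sum (w : ℤ → ℝ) (hw : WOk w) (h1 : w 0 ≤ 2 * w 1) (a b : ℤ) :
    qm w a b + qm w (-a) (-b) ≤ 1 := by
  by_cases h : a ≤ 0 ∧ b ≤ 0
  · by_cases h' : -a ≤ 0 ∧ -b ≤ 0
    · have ea : a = 0 := by omega
      have eb : b = 0 := by omega
      subst ea
      subst eb
      have hw1 : w (-1) = w 1 := hw.symm 1
      have : qm w 0 0 = 1 - w 1 / w 0 := by
        unfold qm
        simp [hw1]
      rw [neg_zero, this]
      have h0 := hw.pos 0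
      have : 1 / 2 ≤ w 1 / w 0 := by
        rw [div_le_div_iff₀ (by norm_num) h0]
        linarith
      linarith
    · have : qm w (-a) (-b) = 0 := by unfold qm; rw [if_neg h']
      rw [this, add_zero]
      exact (qm_bd w hw a b).2.le
  · have : qm w a b = 0 := by unfold qm; rw [if_neg h]
    rw [this, zero_add]
    exact (qm_bd w hw _ _).2.le

/-! ### averages given the heights -/

theorem em_bd (w : ℤ → ℝ) (hw : WOk w) (G : Gr V E) (B : Finset E) (h : V → ℤ) (φ : (E → Bool) → ℝ)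
    (h0 : ∀ o, 0 ≤ φ o) (h1 : ∀ o, φ o ≤ 1) : 0 ≤ em w G B h φ ∧ em w G B h φ ≤ 1 := by
  have hn : ∀ ω, 0 ≤ h3b (fun e : ↥B => qm w (h (G.s e.1)) (h (G.r e.1))) ω :=
    h3b_nonneg _ (fun e => (qm_bd w hw _ _).1) fun e => (qm_bd w hw _ _).2.le
  constructor
  · exact sum_nonneg fun ω _ => mul_nonneg (hn ω) (h0 _)
  · rw [h3_em, ← h3b_sum (fun e : ↥B => qm w (h (G.s e.1)) (h (G.r e.1)))]
    exact sum_le_sum fun ω _ => mul_le_of_le_one_right (hn ω) (h1 _)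

theorem em_one (w : ℤ → ℝ) (G : Gr V E) (B : Finset E) (h : V → ℤ) :
    em w G B h (fun _ => 1) = 1 := by
  rw [h3_em]
  simp only [mul_one]
  exact h3b_sum _

theorem h3_g0 (B : Finset E) : Monotone (g0 B) := by
  intro ω ω' h e
  unfold g0
  split_ifs with he
  · exact h _
  · exact le_rfl

theorem em_anti (w : ℤ → ℝ) (hw : WOk w) (G : Gr V E) (B : Finset E) (h h' : V → ℤ) (hh : h ≤ h')
    (φ : (E → Bool) → ℝ) (hφ : Monotone φ) : em w G B h' φ ≤ em w G B h φ := by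
  rw [h3_em, h3_em]
  exact h3b_mono _ _ (fun e => (qm_bd w hw _ _).1) (fun e => (qm_bd w hw _ _).2.le)
    (fun e => qm_mono w hw _ _ _ _ (hh _) (hh _)) (fun ω => φ (g0 B ω)) (hφ.comp (h3_g0 B))

theorem h3_em_abs (w : ℤ → ℝ) (hw : WOk w) (G : Gr V E) (B : Finset E) (h : V → ℤ)
    (φ : (E → Bool) → ℝ) : |em w G B h φ| ≤ ∑ ω : ↥B → Bool, |φ (g0 B ω)| := by
  rw [h3_em]
  refine (abs_sum_le_sum_abs _ _).trans (sum_le_sum fun ω _ => ?_)
  have hn := h3b_nonneg (fun e : ↥B => qm w (h (G.s e.1)) (h (G.r e.1)))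
    (fun e => (qm_bd w hw _ _).1) (fun e => (qm_bd w hw _ _).2.le) ω
  rw [abs_mul, abs_of_nonneg hn]
  refine mul_le_of_le_one_left (abs_nonneg _) ?_
  unfold h3b
  refine prod_le_one (fun e _ => ?_) fun e _ => ?_
  · split_ifs
    · exact (qm_bd w hw _ _).1
    · linarith [(qm_bd w hw (h (G.s e.1)) (h (G.r e.1))).2]
  · split_ifs
    · exact (qm_bd w hw _ _).2.le
    · linarith [(qm_bd w hw (h (G.s e.1)) (h (G.r e.1))).1]

theorem h3_pbd (w : ℤ → ℝ) (hw : WOk w) (G : Gr V E) (F : Finset V) (B : Finset E)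
    (φ : (E → Bool) → ℝ) : PBd F (fun h => em w G B h φ) :=
  PBd_bdd F _ _ fun h => h3_em_abs w hw G B h φ

theorem pm_fkg (G : Gr V E) (F : Finset V) (EF : Finset E) (hB : Bd G F EF) (w : ℤ → ℝ) (hw : WOk w)
    (B : Finset E) (φ ψ : (E → Bool) → ℝ) (hφ : Monotone φ) (hψ : Monotone ψ) :
    PM G F EF w B φ * PM G F EF w B ψ ≤ PM G F EF w B (fun o => φ o * ψ o) := by
  unfold PM
  have h1 := hs_fkg G F EF hB w hw (fun h => (-1) * em w G B h φ) (fun h => (-1) * em w G B h ψ)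
    (fun h h' hh => by
      have := em_anti w hw G B h h' hh φ hφ
      simp only
      linarith)
    (fun h h' hh => by
      have := em_anti w hw G B h h' hh ψ hψ
      simp only
      linarith) (PBd_smul F _ _ (h3_pbd w hw G F B φ)) (PBd_smul F _ _ (h3_pbd w hw G F B ψ))
  rw [Eh_smul, Eh_smul] at h1
  have h2 : Eh G F EF w (fun h => (-1) * em w G B h φ * ((-1) * em w G B h ψ)) ≤
      Eh G F EF w (fun h => em w G B h (fun o => φ o * ψ o)) := by
    refine Eh_mono G F EF hB w hw _ _ (PBd_mul F _ _ (PBd_smul F _ _ (h3_pbd w hw G F B φ))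
      (PBd_smul F _ _ (h3_pbd w hw G F B ψ))) (h3_pbd w hw G F B _) fun h => ?_
    have := h3b_fkg (fun e : ↥B => qm w (ex h (G.s e.1)) (ex h (G.r e.1)))
      (fun e => (qm_bd w hw _ _).1) (fun e => (qm_bd w hw _ _).2.le) (fun ω => φ (g0 B ω))
      (fun ω => ψ (g0 B ω)) (hφ.comp (h3_g0 B)) (hψ.comp (h3_g0 B))
    rw [h3_em, h3_em, h3_em]
    linarith
  linarith

/-! ### mixing -/

theorem h3_em_union (w : ℤ → ℝ) (G : Gr V E) (B1 B2 : Finset E) (hd : Disjoint B1 B2) (h : V → ℤ)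
    (φ1 φ2 : (E → Bool) → ℝ)
    (l1 : ∀ o o', (∀ e ∈ B1, o e = o' e) → φ1 o = φ1 o') (l2 : ∀ o o', (∀ e ∈ B2, o e = o' e) → φ2 o = φ2 o') :
    em w G (B1 ∪ B2) h (fun o => φ1 o * φ2 o) = em w G B1 h φ1 * em w G B2 h φ2 := by
  have hq : ∀ (B : Finset E) (ω : ↥B → Bool),
      h3b (fun e : ↥B => qm w (h (G.s e.1)) (h (G.r e.1))) ω =
        ∏ e ∈ B, if g0 B ω e then qm w (h (G.s e)) (h (G.r e)) else 1 - qm w (h (G.s e)) (h (G.r e)) := by
    intro B ω
    unfold h3b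
    rw [← prod_coe_sort B (fun e => if g0 B ω e then qm w (h (G.s e)) (h (G.r e))
      else 1 - qm w (h (G.s e)) (h (G.r e)))]
    refine prod_congr rfl fun e _ => ?_
    have : g0 B ω e.1 = ω e := by
      unfold g0
      rw [dif_pos e.2]
    rw [this]
  rw [h3_em, h3_em, h3_em]
  rw [← (Equiv.piFinsetUnion (fun _ : E => Bool) hd).sum_comp]
  rw [Fintype.sum_prod_type, Finset.sum_mul_sum]
  refine sum_congr rfl fun ω1 _ => sum_congr rfl fun ω2 _ => ?_
  have g1 : ∀ e ∈ B1, g0 (B1 ∪ B2) (Equiv.piFinsetUnion (fun _ : E => Bool) hd (ω1, ω2)) e = g0 B1 ω1 e := by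
    intro e he
    unfold g0
    rw [dif_pos (mem_union_left _ he), dif_pos he]
    exact Equiv.piFinsetUnion_left (fun _ : E => Bool) hd he _
  have g2 : ∀ e ∈ B2, g0 (B1 ∪ B2) (Equiv.piFinsetUnion (fun _ : E => Bool) hd (ω1, ω2)) e = g0 B2 ω2 e := by
    intro e he
    unfold g0
    rw [dif_pos (mem_union_right _ he), dif_pos he]
    exact Equiv.piFinsetUnion_right (fun _ : E => Bool) hd he _
  rw [hq, hq, hq, prod_union hd, l1 _ _ g1, l2 _ _ g2]
  have p1 : ∏ e ∈ B1, (if g0 (B1 ∪ B2) (Equiv.piFinsetUnion (fun _ : E => Bool) hd (ω1, ω2)) e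
      then qm w (h (G.s e)) (h (G.r e)) else 1 - qm w (h (G.s e)) (h (G.r e))) =
      ∏ e ∈ B1, if g0 B1 ω1 e then qm w (h (G.s e)) (h (G.r e)) else 1 - qm w (h (G.s e)) (h (G.r e)) :=
    prod_congr rfl fun e he => by rw [g1 e he]
  have p2 : ∏ e ∈ B2, (if g0 (B1 ∪ B2) (Equiv.piFinsetUnion (fun _ : E => Bool) hd (ω1, ω2)) e
      then qm w (h (G.s e)) (h (G.r e)) else 1 - qm w (h (G.s e)) (h (G.r e))) =
      ∏ e ∈ B2, if g0 B2 ω2 e then qm w (h (G.s e)) (h (G.r e)) else 1 - qm w (h (G.s e)) (h (G.r e)) :=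
    prod_congr rfl fun e he => by rw [g2 e he]
  rw [p1, p2]
  ring

/-- heights cut to `F`. -/
def h3t (F : Finset V) (h : V → ℤ) : V → ℤ := fun v => if v ∈ F then h v else 0

theorem h3t_ex (F : Finset V) (h : ↥F → ℤ) : h3t F (ex h) = ex h := by
  funext v
  unfold h3t
  split_ifs with hv
  · rfl
  · unfold ex
    rw [dif_neg hv]

/-- `∑_{N} h ± em` is increasing. -/
theorem h3_inc (G : Gr V E) (F : Finset V) (w : ℤ → ℝ) (hw : WOk w)
    (B : Finset E) (N : Finset V)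
    (hN : ∀ e ∈ B, (G.s e ∈ F → G.s e ∈ N) ∧ (G.r e ∈ F → G.r e ∈ N))
    (φ : (E → Bool) → ℝ) (h0 : ∀ o, 0 ≤ φ o ∧ φ o ≤ 1) (t : ℝ) (ht : |t| ≤ 1) :
    Monotone (fun h : V → ℤ => ∑ i ∈ N, (h i : ℝ) + t * em w G B (h3t F h) φ) := by
  intro h h' hh
  by_cases he : ∀ i ∈ N, h i = h' i
  · have : em w G B (h3t F h) φ = em w G B (h3t F h') φ := by
      have hs : ∀ v, (v ∈ F → v ∈ N) → h3t F h v = h3t F h' v := by
        intro v hv
        unfold h3t
        split_ifs with hF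
        · exact he v (hv hF)
        · rfl
      unfold em
      refine sum_congr rfl fun ω _ => ?_
      congr 1
      refine prod_congr rfl fun e _ => ?_
      rw [hs _ (hN e.1 e.2).1, hs _ (hN e.1 e.2).2]
    simp only
    rw [this]
    have : ∑ i ∈ N, (h i : ℝ) = ∑ i ∈ N, (h' i : ℝ) := sum_congr rfl fun i hi => by rw [he i hi]
    rw [this]
  · push Not at he
    obtain ⟨j, hj, hne⟩ := he
    have hlt : h j + 1 ≤ h' j := by
      have : h j ≤ h' j := hh j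
      omega
    have h1 : ∑ i ∈ N, (h i : ℝ) + 1 ≤ ∑ i ∈ N, (h' i : ℝ) := by
      have e1 := add_sum_erase N (fun i => (h i : ℝ)) hj
      have e2 := add_sum_erase N (fun i => (h' i : ℝ)) hj
      have e3 : ∑ i ∈ N.erase j, (h i : ℝ) ≤ ∑ i ∈ N.erase j, (h' i : ℝ) :=
        sum_le_sum fun i _ => by exact_mod_cast hh i
      have e4 : (h j : ℝ) + 1 ≤ h' j := by exact_mod_cast hlt
      linarith
    have b1 := em_bd w hw G B (h3t F h) φ (fun o => (h0 o).1) (fun o => (h0 o).2)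
    have b2 := em_bd w hw G B (h3t F h') φ (fun o => (h0 o).1) (fun o => (h0 o).2)
    have ht' := abs_le.1 ht
    have h2 : |t * (em w G B (h3t F h) φ - em w G B (h3t F h') φ)| ≤ 1 := by
      rw [abs_mul]
      have : |em w G B (h3t F h) φ - em w G B (h3t F h') φ| ≤ 1 := by
        rw [abs_le]
        constructor <;> linarith
      calc |t| * |em w G B (h3t F h) φ - em w G B (h3t F h') φ| ≤ 1 * 1 :=
            mul_le_mul ht this (abs_nonneg _) zero_le_one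
        _ = 1 := by norm_num
    have h3 := (abs_le.1 h2).2
    simp only
    linarith

theorem pm_mix (G : Gr V E) (F : Finset V) (EF : Finset E) (hB : Bd G F EF) (w : ℤ → ℝ) (hw : WOk w)
    (B1 B2 : Finset E) (hd : Disjoint B1 B2) (N1 N2 : Finset V)
    (hN1 : ∀ e ∈ B1, (G.s e ∈ F → G.s e ∈ N1) ∧ (G.r e ∈ F → G.r e ∈ N1))
    (hN2 : ∀ e ∈ B2, (G.s e ∈ F → G.s e ∈ N2) ∧ (G.r e ∈ F → G.r e ∈ N2))
    (φ1 φ2 : (E → Bool) → ℝ) (hφ1 : Monotone φ1) (hφ2 : Monotone φ2)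
    (l1 : ∀ o o', (∀ e ∈ B1, o e = o' e) → φ1 o = φ1 o') (l2 : ∀ o o', (∀ e ∈ B2, o e = o' e) → φ2 o = φ2 o')
    (h01 : ∀ o, 0 ≤ φ1 o ∧ φ1 o ≤ 1) (h02 : ∀ o, 0 ≤ φ2 o ∧ φ2 o ≤ 1) :
    PM G F EF w (B1 ∪ B2) (fun o => φ1 o * φ2 o) ≤
      PM G F EF w B1 φ1 * PM G F EF w B2 φ2 +
        ∑ i ∈ N1, ∑ j ∈ N2, |Eh G F EF w (fun h => (h i : ℝ) * (h j : ℝ))| := by
  have ps : ∀ N : Finset V, PBd F (fun h => ∑ i ∈ N, (h i : ℝ)) := by
    intro N
    induction N using Finset.induction_on with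
    | empty =>
      refine PBd_bdd F _ 0 fun h => ?_
      simp
    | insert a s ha ih =>
      have := PBd_add F _ _ (PBd_h F a) ih
      simpa only [sum_insert ha] using this
  have pe : ∀ (B : Finset E) (φ : (E → Bool) → ℝ), PBd F (fun h => em w G B (h3t F h) φ) :=
    fun B φ => PBd_bdd F _ _ fun h => h3_em_abs w hw G B _ φ
  have pt : ∀ (N : Finset V) (B : Finset E) (φ : (E → Bool) → ℝ) (t : ℝ),
      PBd F (fun h => ∑ i ∈ N, (h i : ℝ) + t * em w G B (h3t F h) φ) := fun N B φ t =>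
    PBd_add F _ _ (ps N) (PBd_smul F t _ (pe B φ))
  have hz : ∀ N : Finset V, Eh G F EF w (fun h => ∑ i ∈ N, (h i : ℝ)) = 0 := by
    intro N
    have e := Eh_neg G F EF w hw (fun h => ∑ i ∈ N, (h i : ℝ))
    have e2 : Eh G F EF w (fun h => ∑ i ∈ N, (((-h) i : ℤ) : ℝ)) =
        (-1) * Eh G F EF w (fun h => ∑ i ∈ N, (h i : ℝ)) := by
      rw [← Eh_smul]
      congr 1
      funext h
      rw [mul_sum]
      refine sum_congr rfl fun i _ => ?_
      push_cast [Pi.neg_apply]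
      ring
    rw [e2] at e
    linarith
  have hm : ∀ (N : Finset V) (B : Finset E) (φ : (E → Bool) → ℝ) (t : ℝ),
      Eh G F EF w (fun h => ∑ i ∈ N, (h i : ℝ) + t * em w G B (h3t F h) φ) =
        t * PM G F EF w B φ := by
    intro N B φ t
    rw [Eh_add G F EF hB w hw _ _ (ps N) (PBd_smul F t _ (pe B φ)), hz, zero_add, Eh_smul]
    congr 1
    unfold PM
    refine Eh_congr G F EF w _ _ fun h => ?_
    rw [h3t_ex]
  have k1 := hs_fkg G F EF hB w hw _ _ (h3_inc G F w hw B1 N1 hN1 φ1 h01 (-1) (by norm_num))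
    (h3_inc G F w hw B2 N2 hN2 φ2 h02 1 (by norm_num)) (pt _ _ _ _) (pt _ _ _ _)
  have k2 := hs_fkg G F EF hB w hw _ _ (h3_inc G F w hw B1 N1 hN1 φ1 h01 1 (by norm_num))
    (h3_inc G F w hw B2 N2 hN2 φ2 h02 (-1) (by norm_num)) (pt _ _ _ _) (pt _ _ _ _)
  rw [hm, hm] at k1 k2
  have hss : PBd F (fun h => (∑ i ∈ N1, (h i : ℝ)) * (∑ j ∈ N2, (h j : ℝ))) :=
    PBd_mul F _ _ (ps N1) (ps N2)
  have hee : PBd F (fun h => em w G B1 (h3t F h) φ1 * em w G B2 (h3t F h) φ2) :=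
    PBd_mul F _ _ (pe B1 φ1) (pe B2 φ2)
  have hsum := Eh_add G F EF hB w hw _ _ (PBd_mul F _ _ (pt N1 B1 φ1 (-1)) (pt N2 B2 φ2 1))
    (PBd_mul F _ _ (pt N1 B1 φ1 1) (pt N2 B2 φ2 (-1)))
  have e1 : Eh G F EF w (fun h => (∑ i ∈ N1, (h i : ℝ) + (-1) * em w G B1 (h3t F h) φ1) *
      (∑ i ∈ N2, (h i : ℝ) + 1 * em w G B2 (h3t F h) φ2) +
      (∑ i ∈ N1, (h i : ℝ) + 1 * em w G B1 (h3t F h) φ1) *
      (∑ i ∈ N2, (h i : ℝ) + (-1) * em w G B2 (h3t F h) φ2)) =
      2 * Eh G F EF w (fun h => (∑ i ∈ N1, (h i : ℝ)) * (∑ j ∈ N2, (h j : ℝ))) +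
      (-2) * Eh G F EF w (fun h => em w G B1 (h3t F h) φ1 * em w G B2 (h3t F h) φ2) := by
    rw [← Eh_smul, ← Eh_smul, ← Eh_add G F EF hB w hw _ _ (PBd_smul F _ _ hss) (PBd_smul F _ _ hee)]
    congr 1
    funext h
    ring
  have e2 : PM G F EF w (B1 ∪ B2) (fun o => φ1 o * φ2 o) =
      Eh G F EF w (fun h => em w G B1 (h3t F h) φ1 * em w G B2 (h3t F h) φ2) := by
    unfold PM
    refine Eh_congr G F EF w _ _ fun h => ?_
    rw [h3t_ex, h3_em_union w G B1 B2 hd _ φ1 φ2 l1 l2]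
  have e3 : Eh G F EF w (fun h => (∑ i ∈ N1, (h i : ℝ)) * (∑ j ∈ N2, (h j : ℝ))) ≤
      ∑ i ∈ N1, ∑ j ∈ N2, |Eh G F EF w (fun h => (h i : ℝ) * (h j : ℝ))| := by
    have : (fun h : V → ℤ => (∑ i ∈ N1, (h i : ℝ)) * (∑ j ∈ N2, (h j : ℝ))) =
        fun h => ∑ i ∈ N1, ∑ j ∈ N2, (h i : ℝ) * (h j : ℝ) := by
      funext h
      rw [sum_mul_sum]
    rw [this, Eh_sum G F EF hB w hw N1 (fun i h => ∑ j ∈ N2, (h i : ℝ) * (h j : ℝ))]
    · refine sum_le_sum fun i _ => ?_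
      rw [Eh_sum G F EF hB w hw N2 (fun j h => (h i : ℝ) * (h j : ℝ))]
      · exact sum_le_sum fun j _ => le_abs_self _
      · exact fun j _ => PBd_mul F _ _ (PBd_h F i) (PBd_h F j)
    · intro i _
      have := PBd_mul F _ _ (PBd_h F i) (ps N2)
      simpa only [mul_sum] using this
  rw [hsum] at e1
  rw [e2]
  linarith

end H82.BX
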