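import Pool.Agent.H82.BX.HS3

/-!
# HS5: approximate insertion tolerance of `ω⁻`

`e ∈ B` with ends `a, b`; `T` = finset containing all edges of `B ∪ EF` that touch `a` or `b`, `Nr` = finset containing the ends of the edges of `T` (`|T| ≤ D`).  On `{|h_v| ≤ R for v ∈ Nr}` let `h'` be `h` with `h_a, h_b` replaced by
`min h_a 0`, `min h_b 0` (vertices outside `F` have height `0` and are not changed).  Then (constants depend on `w, R, D` only)
* `WH(h) ≤ C WH(h')` (at most `D` factors change, all arguments are in `[-2R, 2R]`, `w > 0`);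
* `em B h (φ ∘ opP e) ≤ C em B h' φ`: product measures; for the edges of `B` not in `T` the probabilities agree; for `f ∈ T`: `qm_f(h) ≤ qm_f(h')`, `1 - qm_f(h) ≤ 1 ≤ C (1 - qm_f(h'))` (`qm < 1`, finitely many values), and `qm_e(h') ≥ c > 0`
  (`h'_a, h'_b ≤ 0`, in `[-R, 0]`; `qm w a b > 0` for `a, b ≤ 0`: `w (n+1) < w n` for `n ≥ 0` by log-concavity and `w 1 < w 0`, and
  `|a+b-1| > |a-b|`);
* each `h'` comes from at most `(R+1)²` functions `h` (with `|h_a|, |h_b| ≤ R`).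
Sum over `h`; on the complement use `φ ≤ 1` and `1[∃ v ∈ Nr, |h_v| > R] ≤ ∑_{v ∈ Nr} h_v²/R²`.
-/

set_option autoImplicit false

open Finset MeasureTheory

namespace H82.BX

open H82.IC

theorem HS5_prod_le {ι : Type} (S : Finset ι) (P : ι → Prop) [DecidablePred P] (D : ℕ) (K : ℝ)
    (hK : 1 ≤ K) (hD : (S.filter P).card ≤ D) (a b : ι → ℝ) (ha : ∀ i ∈ S, 0 ≤ a i)
    (hb : ∀ i ∈ S, 0 ≤ b i) (h1 : ∀ i ∈ S, P i → a i ≤ K * b i) (h2 : ∀ i ∈ S, ¬ P i → a i ≤ b i) :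
    ∏ i ∈ S, a i ≤ K ^ D * ∏ i ∈ S, b i := by
  have h : ∏ i ∈ S, a i ≤ ∏ i ∈ S, ((if P i then K else 1) * b i) := by
    apply Finset.prod_le_prod ha
    intro i hi
    split_ifs with h
    · exact h1 i hi h
    · rw [one_mul]; exact h2 i hi h
  rw [Finset.prod_mul_distrib, Finset.prod_ite] at h
  simp only [Finset.prod_const, one_pow, mul_one] at h
  exact h.trans (mul_le_mul_of_nonneg_right (pow_le_pow_right₀ hK hD) (Finset.prod_nonneg hb))

theorem HS5_const (S : Finset (ℤ × ℤ)) (g : ℤ × ℤ → ℝ) (hg : ∀ p ∈ S, 0 < g p) :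
    ∃ C : ℝ, 1 ≤ C ∧ ∀ p ∈ S, 1 ≤ C * g p := by
  have h0 : ∀ p ∈ S, 0 ≤ (g p)⁻¹ := fun p hp => (inv_pos.2 (hg p hp)).le
  refine ⟨1 + ∑ p ∈ S, (g p)⁻¹, ?_, ?_⟩
  · have := Finset.sum_nonneg h0
    linarith
  · intro p hp
    have h1 := Finset.single_le_sum h0 hp
    have h2 : 1 = (g p)⁻¹ * g p := (inv_mul_cancel₀ (hg p hp).ne').symm
    rw [add_mul, one_mul]
    have h3 := mul_le_mul_of_nonneg_right h1 (hg p hp).le
    have := (hg p hp).le
    linarith

theorem HS5_wsucc (w : ℤ → ℝ) (hw : WOk w) (h10 : w 1 < w 0) (n : ℕ) : w ((n + 1 : ℕ) : ℤ) < w (n : ℤ) := by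
  induction n with
  | zero => simpa using h10
  | succ n ih =>
    have h1 := hw.lc ((n + 1 : ℕ) : ℤ)
    have e1 : (((n + 1 : ℕ) : ℤ) - 1) = (n : ℤ) := by push_cast; ring
    have e2 : (((n + 1 : ℕ) : ℤ) + 1) = ((n + 1 + 1 : ℕ) : ℤ) := by push_cast; ring
    rw [e1, e2] at h1
    have p0 := hw.pos (n : ℤ)
    have p1 := hw.pos ((n + 1 : ℕ) : ℤ)
    have p2 := hw.pos ((n + 1 + 1 : ℕ) : ℤ)
    by_contra hc
    push Not at hc
    nlinarith

theorem HS5_wanti (w : ℤ → ℝ) (hw : WOk w) (h10 : w 1 < w 0) (x y : ℤ) (h : |x| < |y|) : w y < w x := by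
  have hs : StrictAnti (fun n : ℕ => w (n : ℤ)) := strictAnti_nat_of_succ_lt (HS5_wsucc w hw h10)
  have ha : ∀ z : ℤ, w z = w ((z.natAbs : ℕ) : ℤ) := by
    intro z
    rcases Int.natAbs_eq z with h | h
    · rw [← h]
    · conv_lhs => rw [h]
      exact hw.symm _
  rw [ha x, ha y]
  apply hs
  zify
  exact h

theorem HS5_qpos (w : ℤ → ℝ) (hw : WOk w) (h10 : w 1 < w 0) (a b : ℤ) (ha : a ≤ 0) (hb : b ≤ 0) :
    0 < qm w a b := by
  unfold qm
  rw [if_pos ⟨ha, hb⟩, sub_pos, div_lt_one (hw.pos _)]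
  apply HS5_wanti w hw h10
  rw [abs_lt]
  have : |a + b - 1| = 1 - a - b := by
    rw [abs_of_nonpos (by linarith)]
    ring
  rw [this]
  constructor <;> linarith

variable {V E : Type} [DecidableEq V] [DecidableEq E]

theorem HS5_em (w : ℤ → ℝ) (hw : WOk w) (R D : ℕ) (K : ℝ) (hK : 1 ≤ K)
    (k2 : ∀ x y : ℤ, |x| ≤ R → |y| ≤ R → 1 ≤ K * (1 - qm w x y))
    (k3 : ∀ x y : ℤ, |x| ≤ R → |y| ≤ R → x ≤ 0 → y ≤ 0 → 1 ≤ K * qm w x y)
    (G : Gr V E) (B T : Finset E) (e : E) (he : e ∈ B) (hT : T.card ≤ D) (h h' : V → ℤ)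
    (hle : h' ≤ h) (hbd : ∀ f ∈ T, |h' (G.s f)| ≤ R ∧ |h' (G.r f)| ≤ R)
    (hse : h' (G.s e) ≤ 0) (hre : h' (G.r e) ≤ 0) (heT : e ∈ T)
    (hout : ∀ f ∈ B, f ∉ T → h' (G.s f) = h (G.s f) ∧ h' (G.r f) = h (G.r f))
    (φ : (E → Bool) → ℝ) (h0 : ∀ o, 0 ≤ φ o) :
    em w G B h (fun o => φ (opP e o)) ≤ 2 * K ^ D * em w G B h' φ := by
  have hg0 : ∀ ω : ↥B → Bool, opP e (g0 B ω) = g0 B (Function.update ω ⟨e, he⟩ true) := by
    intro ω
    funext f
    unfold opP g0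
    by_cases hf : f = e
    · subst hf
      simp [he]
    · simp only [Function.update, hf, dite_false]
      by_cases hfB : f ∈ B
      · have hne : (⟨f, hfB⟩ : ↥B) ≠ ⟨e, he⟩ := by
          intro hc
          exact hf (congrArg Subtype.val hc)
        simp [hfB, hf]
      · simp [hfB]
  set P : (V → ℤ) → (↥B → Bool) → ℝ := fun h ω => ∏ f : ↥B, if ω f then qm w (h (G.s f.1)) (h (G.r f.1))
    else 1 - qm w (h (G.s f.1)) (h (G.r f.1)) with hP
  have hfac0 : ∀ (h : V → ℤ) (ω : ↥B → Bool) (f : ↥B), 0 ≤ (if ω f then qm w (h (G.s f.1)) (h (G.r f.1))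
      else 1 - qm w (h (G.s f.1)) (h (G.r f.1))) := by
    intro h ω f
    have := qm_bd w hw (h (G.s f.1)) (h (G.r f.1))
    split_ifs
    · exact this.1
    · linarith [this.2]
  have hP0 : ∀ h ω, 0 ≤ P h ω := fun h ω => Finset.prod_nonneg (fun f _ => hfac0 h ω f)
  have key : ∀ ω : ↥B → Bool, P h ω ≤ K ^ D * P h' (Function.update ω ⟨e, he⟩ true) := by
    intro ω
    apply HS5_prod_le univ (fun f : ↥B => f.1 ∈ T) D K hK
    · refine le_trans ?_ hT
      apply Finset.card_le_card_of_injOn Subtype.val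
      · intro f hf
        have := (Finset.mem_filter.1 (Finset.mem_coe.1 hf)).2
        exact Finset.mem_coe.2 this
      · exact Subtype.val_injective.injOn
    · intro f _
      exact hfac0 h ω f
    · intro f _
      exact hfac0 h' _ f
    · intro f _ hf
      have b1 := qm_bd w hw (h (G.s f.1)) (h (G.r f.1))
      have b2 := qm_bd w hw (h' (G.s f.1)) (h' (G.r f.1))
      by_cases hfe : f = ⟨e, he⟩
      · subst hfe
        have := k3 _ _ (hbd e heT).1 (hbd e heT).2 hse hre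
        rw [Function.update_self, if_pos rfl]
        refine le_trans ?_ this
        split_ifs
        · exact b1.2.le
        · linarith [b1.1]
      · rw [Function.update_of_ne hfe]
        have m1 := qm_mono w hw _ _ _ _ (hle (G.s f.1)) (hle (G.r f.1))
        split_ifs
        · refine m1.trans ?_
          nlinarith [b2.1]
        · have := k2 _ _ (hbd f.1 hf).1 (hbd f.1 hf).2
          linarith [b1.1]
    · intro f _ hf
      have hfe : f ≠ ⟨e, he⟩ := by
        intro hc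
        rw [hc] at hf
        exact hf heT
      rw [Function.update_of_ne hfe]
      have := hout f.1 f.2 hf
      rw [this.1, this.2]
  set fl : (↥B → Bool) → (↥B → Bool) := fun ω => Function.update ω ⟨e, he⟩ (!(ω ⟨e, he⟩)) with hfl
  have hinv : Function.Involutive fl := by
    intro ω
    simp [hfl]
  have hF : ∀ Q : (↥B → Bool) → ℝ, (∀ ω, 0 ≤ Q ω) →
      ∑ ω, Q (Function.update ω ⟨e, he⟩ true) ≤ 2 * ∑ ω, Q ω := by
    intro Q hQ
    have h2 : ∑ ω, Q (fl ω) = ∑ ω, Q ω := Equiv.sum_comp (Function.Involutive.toPerm fl hinv) Q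
    calc ∑ ω, Q (Function.update ω ⟨e, he⟩ true) ≤ ∑ ω, (Q ω + Q (fl ω)) := by
          apply Finset.sum_le_sum
          intro ω _
          by_cases hω : ω ⟨e, he⟩ = true
          · have : Function.update ω ⟨e, he⟩ true = ω := by
              rw [← hω]
              exact Function.update_eq_self _ _
            rw [this]
            linarith [hQ (fl ω)]
          · have h3 : ω ⟨e, he⟩ = false := by simpa using hω
            have : Function.update ω ⟨e, he⟩ true = fl ω := by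
              simp [hfl, h3]
            rw [this]
            linarith [hQ ω]
      _ = 2 * ∑ ω, Q ω := by
          rw [Finset.sum_add_distrib, h2]
          ring
  have hKD : 0 ≤ K ^ D := pow_nonneg (by linarith) D
  calc em w G B h (fun o => φ (opP e o)) = ∑ ω : ↥B → Bool, P h ω * φ (g0 B (Function.update ω ⟨e, he⟩ true)) := by
        unfold em
        apply Finset.sum_congr rfl
        intro ω _
        show _ * φ (opP e (g0 B ω)) = _
        rw [hg0]
    _ ≤ ∑ ω : ↥B → Bool, K ^ D * (P h' (Function.update ω ⟨e, he⟩ true) *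
          φ (g0 B (Function.update ω ⟨e, he⟩ true))) := by
        apply Finset.sum_le_sum
        intro ω _
        rw [← mul_assoc]
        exact mul_le_mul_of_nonneg_right (key ω) (h0 _)
    _ = K ^ D * ∑ ω : ↥B → Bool, (P h' (Function.update ω ⟨e, he⟩ true) *
          φ (g0 B (Function.update ω ⟨e, he⟩ true))) := by
        rw [Finset.mul_sum]
    _ ≤ K ^ D * (2 * ∑ ω : ↥B → Bool, (P h' ω * φ (g0 B ω))) := by
        apply mul_le_mul_of_nonneg_left _ hKD
        exact hF (fun ω => P h' ω * φ (g0 B ω)) (fun ω => mul_nonneg (hP0 h' ω) (h0 _))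
    _ = 2 * K ^ D * em w G B h' φ := by
        unfold em
        rw [hP]
        ring

/-- truncation at the ends of the edge. -/
noncomputable def HS5_tr {F : Finset V} (a b : V) (h : ↥F → ℤ) : ↥F → ℤ :=
  fun v => if v.1 = a ∨ v.1 = b then min (h v) 0 else h v

theorem HS5_ex {F : Finset V} (a b : V) (h : ↥F → ℤ) (v : V) :
    ex (HS5_tr a b h) v = if v = a ∨ v = b then min (ex h v) 0 else ex h v := by
  unfold ex HS5_tr
  by_cases hv : v ∈ F
  · simp only [hv, dite_true]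
  · simp only [hv, dite_false, min_self, ite_self]

/-- the differences. -/
noncomputable def HS5_dl {F : Finset V} (R : ℕ) (a b : V) : Finset (↥F → ℤ) :=
  Fintype.piFinset (fun v => if v.1 = a ∨ v.1 = b then Finset.Icc (0 : ℤ) R else {0})

theorem HS5_dlc {F : Finset V} (R : ℕ) (a b : V) :
    ((HS5_dl R a b : Finset (↥F → ℤ)).card : ℝ) ≤ (R + 1) ^ 2 := by
  unfold HS5_dl
  rw [Fintype.card_piFinset]
  push_cast
  have h := HS5_prod_le (univ : Finset ↥F) (fun v => v.1 = a ∨ v.1 = b) 2 ((R : ℝ) + 1)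
    (by linarith [Nat.cast_nonneg (α := ℝ) R]) ?_
    (fun v => (((if v.1 = a ∨ v.1 = b then Finset.Icc (0 : ℤ) R else {0}) : Finset ℤ).card : ℝ))
    (fun _ => 1) (fun _ _ => Nat.cast_nonneg _) (fun _ _ => zero_le_one) ?_ ?_
  · simpa using h
  · have : (univ.filter (fun v : ↥F => v.1 = a ∨ v.1 = b)).card ≤ ({a, b} : Finset V).card := by
      apply Finset.card_le_card_of_injOn Subtype.val
      · intro v hv
        have := (Finset.mem_filter.1 (Finset.mem_coe.1 hv)).2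
        simpa using this
      · exact Subtype.val_injective.injOn
    exact this.trans Finset.card_le_two
  · intro v _ hv
    simp only [hv, if_true]
    rw [Int.card_Icc]
    have : ((R : ℤ) + 1 - 0).toNat = R + 1 := by omega
    rw [this]
    push_cast
    linarith
  · intro v _ hv
    simp only [hv, if_false]
    simp

theorem HS5_pt (w : ℤ → ℝ) (hw : WOk w) (R D : ℕ) (K : ℝ) (hK : 1 ≤ K)
    (k1 : ∀ x y : ℤ, |x| ≤ 2 * R → |y| ≤ 2 * R → w x ≤ K * w y)
    (k2 : ∀ x y : ℤ, |x| ≤ R → |y| ≤ R → 1 ≤ K * (1 - qm w x y))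
    (k3 : ∀ x y : ℤ, |x| ≤ R → |y| ≤ R → x ≤ 0 → y ≤ 0 → 1 ≤ K * qm w x y)
    (G : Gr V E) (F : Finset V) (EF : Finset E) (B T : Finset E) (Nr : Finset V) (e : E) (he : e ∈ B)
    (hT : T.card ≤ D)
    (hTT : ∀ f ∈ B ∪ EF, (G.s f = G.s e ∨ G.s f = G.r e ∨ G.r f = G.s e ∨ G.r f = G.r e) → f ∈ T)
    (hTN : ∀ f ∈ T, G.s f ∈ Nr ∧ G.r f ∈ Nr)
    (φ : (E → Bool) → ℝ) (h0 : ∀ o, 0 ≤ φ o)
    (h : ↥F → ℤ) (hg : ∀ v ∈ Nr, |ex h v| ≤ R) :
    WH G F EF w h * em w G B (ex h) (fun o => φ (opP e o)) ≤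
      2 * K ^ D * K ^ D * (WH G F EF w (HS5_tr (G.s e) (G.r e) h) *
        em w G B (ex (HS5_tr (G.s e) (G.r e) h)) φ) := by
  have heT : e ∈ T := hTT e (Finset.mem_union_left _ he) (Or.inl rfl)
  have hle : ex (HS5_tr (G.s e) (G.r e) h) ≤ ex h := by
    intro v
    rw [HS5_ex]
    split_ifs
    · exact min_le_left _ _
    · exact le_rfl
  have hbd : ∀ v ∈ Nr, |ex (HS5_tr (G.s e) (G.r e) h) v| ≤ R := by
    intro v hv
    have h1 := abs_le.1 (hg v hv)
    rw [HS5_ex, abs_le]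
    split_ifs
    · constructor
      · apply le_min h1.1
        omega
      · exact (min_le_left _ _).trans h1.2
    · exact h1
  have hout : ∀ f ∈ B ∪ EF, f ∉ T → ex (HS5_tr (G.s e) (G.r e) h) (G.s f) = ex h (G.s f) ∧
      ex (HS5_tr (G.s e) (G.r e) h) (G.r f) = ex h (G.r f) := by
    intro f hf hfT
    have hn : ¬ (G.s f = G.s e ∨ G.s f = G.r e ∨ G.r f = G.s e ∨ G.r f = G.r e) :=
      fun hc => hfT (hTT f hf hc)
    rw [HS5_ex, HS5_ex, if_neg (by tauto), if_neg (by tauto)]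
    exact ⟨rfl, rfl⟩
  have hem := HS5_em w hw R D K hK k2 k3 G B T e he hT (ex h) (ex (HS5_tr (G.s e) (G.r e) h)) hle
    (fun f hf => ⟨hbd _ (hTN f hf).1, hbd _ (hTN f hf).2⟩)
    (by rw [HS5_ex, if_pos (Or.inl rfl)]; exact min_le_right _ _)
    (by rw [HS5_ex, if_pos (Or.inr rfl)]; exact min_le_right _ _) heT
    (fun f hf hfT => hout f (Finset.mem_union_left _ hf) hfT) φ h0
  have hWH : WH G F EF w h ≤ K ^ D * WH G F EF w (HS5_tr (G.s e) (G.r e) h) := by
    unfold WH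
    apply HS5_prod_le EF (fun f => f ∈ T) D K hK
    · refine le_trans (Finset.card_le_card ?_) hT
      intro f hf
      exact (Finset.mem_filter.1 hf).2
    · intro f _
      exact (hw.pos _).le
    · intro f _
      exact (hw.pos _).le
    · intro f hf hfT
      apply k1
      · have h1 := abs_le.1 (hg _ (hTN f hfT).1)
        have h2 := abs_le.1 (hg _ (hTN f hfT).2)
        rw [abs_le]
        constructor <;> linarith [h1.1, h1.2, h2.1, h2.2]
      · have h1 := abs_le.1 (hbd _ (hTN f hfT).1)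
        have h2 := abs_le.1 (hbd _ (hTN f hfT).2)
        rw [abs_le]
        constructor <;> linarith [h1.1, h1.2, h2.1, h2.2]
    · intro f hf hfT
      have := hout f (Finset.mem_union_right _ hf) hfT
      rw [this.1, this.2]
  have hW0 : 0 ≤ WH G F EF w h := (WH_pos G F EF w hw h).le
  have hKD : 0 ≤ K ^ D := pow_nonneg (by linarith) D
  have hE0 : 0 ≤ 2 * K ^ D * em w G B (ex (HS5_tr (G.s e) (G.r e) h)) φ := by
    refine mul_nonneg (by linarith) ?_
    unfold em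
    apply Finset.sum_nonneg
    intro ω _
    apply mul_nonneg _ (h0 _)
    apply Finset.prod_nonneg
    intro f _
    have := qm_bd w hw (ex (HS5_tr (G.s e) (G.r e) h) (G.s f.1)) (ex (HS5_tr (G.s e) (G.r e) h) (G.r f.1))
    split_ifs
    · exact this.1
    · linarith [this.2]
  calc WH G F EF w h * em w G B (ex h) (fun o => φ (opP e o)) ≤
      WH G F EF w h * (2 * K ^ D * em w G B (ex (HS5_tr (G.s e) (G.r e) h)) φ) :=
        mul_le_mul_of_nonneg_left hem hW0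
    _ ≤ (K ^ D * WH G F EF w (HS5_tr (G.s e) (G.r e) h)) *
        (2 * K ^ D * em w G B (ex (HS5_tr (G.s e) (G.r e) h)) φ) :=
        mul_le_mul_of_nonneg_right hWH hE0
    _ = _ := by ring

theorem HS5_main (w : ℤ → ℝ) (hw : WOk w) (R D : ℕ) (hR : 0 < R) (K : ℝ) (hK : 1 ≤ K)
    (k1 : ∀ x y : ℤ, |x| ≤ 2 * R → |y| ≤ 2 * R → w x ≤ K * w y)
    (k2 : ∀ x y : ℤ, |x| ≤ R → |y| ≤ R → 1 ≤ K * (1 - qm w x y))
    (k3 : ∀ x y : ℤ, |x| ≤ R → |y| ≤ R → x ≤ 0 → y ≤ 0 → 1 ≤ K * qm w x y)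
    (G : Gr V E) (F : Finset V) (EF : Finset E) (hBd : Bd G F EF)
    (B T : Finset E) (Nr : Finset V) (e : E) (he : e ∈ B)
    (hT : T.card ≤ D)
    (hTT : ∀ f ∈ B ∪ EF, (G.s f = G.s e ∨ G.s f = G.r e ∨ G.r f = G.s e ∨ G.r f = G.r e) → f ∈ T)
    (hTN : ∀ f ∈ T, G.s f ∈ Nr ∧ G.r f ∈ Nr)
    (φ : (E → Bool) → ℝ) (h0 : ∀ o, 0 ≤ φ o) (h1 : ∀ o, φ o ≤ 1) :
    PM G F EF w B (fun o => φ (opP e o)) ≤ (2 * K ^ D * K ^ D * (R + 1) ^ 2) * PM G F EF w B φ +
        (∑ v ∈ Nr, Eh G F EF w (fun h => (h v : ℝ) ^ 2)) / R ^ 2 := by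
  set C1 : ℝ := 2 * K ^ D * K ^ D with hC1
  have hC10 : 0 ≤ C1 := by positivity
  have hR0 : (0 : ℝ) < R := by exact_mod_cast hR
  have hemb : ∀ (ψ : (E → Bool) → ℝ), (∀ o, 0 ≤ ψ o) → (∀ o, ψ o ≤ 1) →
      PBd F (fun h => em w G B h ψ) := by
    intro ψ hψ0 hψ1
    apply PBd_bdd F _ 1
    intro h
    have := em_bd w hw G B h ψ hψ0 hψ1
    rw [abs_le]
    constructor <;> linarith [this.1, this.2]
  have sq : ∀ v, PBd F (fun h => (h v : ℝ) ^ 2) := by
    intro v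
    have := PBd_mul F _ _ (PBd_h F v) (PBd_h F v)
    simpa only [pow_two] using this
  obtain ⟨Q, hQ⟩ : ∃ Q : (↥F → ℤ) → ℝ, ∀ h, Q h = WH G F EF w h * em w G B (ex h) φ :=
    ⟨fun h => WH G F EF w h * em w G B (ex h) φ, fun _ => rfl⟩
  have hQs : Summable Q := by
    have h2 : Q = fun h => WH G F EF w h * em w G B (ex h) φ := funext hQ
    rw [h2]
    exact WH_summ G F EF hBd w hw (fun h => em w G B h φ) (hemb φ h0 h1)
  have hQ0 : ∀ h, 0 ≤ Q h := fun h => by
    rw [hQ]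
    exact mul_nonneg (WH_pos G F EF w hw h).le (em_bd w hw G B (ex h) φ h0 h1).1
  have hLs : Summable (fun h : ↥F → ℤ => WH G F EF w h * em w G B (ex h) (fun o => φ (opP e o))) :=
    WH_summ G F EF hBd w hw (fun h => em w G B h (fun o => φ (opP e o)))
      (hemb (fun o => φ (opP e o)) (fun o => h0 _) (fun o => h1 _))
  have hVs : ∀ v, Summable (fun h : ↥F → ℤ => WH G F EF w h * ((ex h v : ℤ) : ℝ) ^ 2) :=
    fun v => WH_summ G F EF hBd w hw (fun h => (h v : ℝ) ^ 2) (sq v)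
  obtain ⟨hZs, hZ⟩ := WH_summ1 G F EF hBd w hw
  have hpt : ∀ h : ↥F → ℤ, WH G F EF w h * em w G B (ex h) (fun o => φ (opP e o)) ≤
      C1 * (∑ d ∈ (HS5_dl R (G.s e) (G.r e) : Finset (↥F → ℤ)), Q (h - d)) +
        (∑ v ∈ Nr, WH G F EF w h * ((ex h v : ℤ) : ℝ) ^ 2) / R ^ 2 := by
    intro h
    have hW0 : 0 ≤ WH G F EF w h := (WH_pos G F EF w hw h).le
    have a1 : 0 ≤ (∑ v ∈ Nr, WH G F EF w h * ((ex h v : ℤ) : ℝ) ^ 2) / R ^ 2 := by
      apply div_nonneg _ (by positivity)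
      apply Finset.sum_nonneg
      intro v _
      exact mul_nonneg hW0 (sq_nonneg _)
    have a2 : 0 ≤ C1 * (∑ d ∈ (HS5_dl R (G.s e) (G.r e) : Finset (↥F → ℤ)), Q (h - d)) :=
      mul_nonneg hC10 (Finset.sum_nonneg (fun d _ => hQ0 _))
    by_cases hg : ∀ v ∈ Nr, |ex h v| ≤ R
    · have b1 := HS5_pt w hw R D K hK k1 k2 k3 G F EF B T Nr e he hT hTT hTN φ h0 h hg
      have heT : e ∈ T := hTT e (Finset.mem_union_left _ he) (Or.inl rfl)
      have b2 : h - HS5_tr (G.s e) (G.r e) h ∈ (HS5_dl R (G.s e) (G.r e) : Finset (↥F → ℤ)) := by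
        unfold HS5_dl
        rw [Fintype.mem_piFinset]
        intro v
        rw [Pi.sub_apply]
        unfold HS5_tr
        by_cases hv : v.1 = G.s e ∨ v.1 = G.r e
        · have hvN : v.1 ∈ Nr := by
            rcases hv with hv | hv
            · rw [hv]; exact (hTN e heT).1
            · rw [hv]; exact (hTN e heT).2
          have h3 := hg v.1 hvN
          have h4 : ex h v.1 = h v := by
            unfold ex
            simp
          rw [h4, abs_le] at h3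
          rw [if_pos hv, if_pos hv, Finset.mem_Icc]
          rcases le_total (h v) 0 with h5 | h5
          · rw [min_eq_left h5]
            omega
          · rw [min_eq_right h5]
            omega
        · rw [if_neg hv, if_neg hv, sub_self]
          exact Finset.mem_singleton_self 0
      have b3 : Q (HS5_tr (G.s e) (G.r e) h) ≤
          ∑ d ∈ (HS5_dl R (G.s e) (G.r e) : Finset (↥F → ℤ)), Q (h - d) := by
        have := Finset.single_le_sum (f := fun d => Q (h - d)) (fun d _ => hQ0 _) b2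
        simpa using this
      have b4 := mul_le_mul_of_nonneg_left b3 hC10
      refine b1.trans ?_
      have : 2 * K ^ D * K ^ D * (WH G F EF w (HS5_tr (G.s e) (G.r e) h) *
        em w G B (ex (HS5_tr (G.s e) (G.r e) h)) φ) = C1 * Q (HS5_tr (G.s e) (G.r e) h) := by
          rw [hC1, hQ]
      rw [this]
      linarith
    · push Not at hg
      obtain ⟨v, hv, hvR⟩ := hg
      have b1 := em_bd w hw G B (ex h) (fun o => φ (opP e o)) (fun o => h0 _) (fun o => h1 _)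
      have b2 : WH G F EF w h * em w G B (ex h) (fun o => φ (opP e o)) ≤ WH G F EF w h := by
        calc _ ≤ WH G F EF w h * 1 := mul_le_mul_of_nonneg_left b1.2 hW0
          _ = _ := mul_one _
      have b3 : WH G F EF w h * ((ex h v : ℤ) : ℝ) ^ 2 ≤ ∑ v ∈ Nr, WH G F EF w h * ((ex h v : ℤ) : ℝ) ^ 2 :=
        Finset.single_le_sum (f := fun v => WH G F EF w h * ((ex h v : ℤ) : ℝ) ^ 2)
          (fun v _ => mul_nonneg hW0 (sq_nonneg _)) hv
      have b4 : (R : ℝ) ≤ |((ex h v : ℤ) : ℝ)| := by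
        rw [← Int.cast_abs]
        exact_mod_cast hvR.le
      have b5 : (R : ℝ) ^ 2 ≤ ((ex h v : ℤ) : ℝ) ^ 2 := by
        rw [← sq_abs ((ex h v : ℤ) : ℝ)]
        exact pow_le_pow_left₀ hR0.le b4 2
      have b6 : WH G F EF w h ≤ (∑ v ∈ Nr, WH G F EF w h * ((ex h v : ℤ) : ℝ) ^ 2) / R ^ 2 := by
        rw [le_div_iff₀ (by positivity)]
        exact (mul_le_mul_of_nonneg_left b5 hW0).trans b3
      linarith
  have hshift : ∀ d : ↥F → ℤ, Summable (fun h => Q (h - d)) := fun d =>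
    (Equiv.subRight d).summable_iff.2 hQs
  have hsum1 : Summable (fun h => C1 * (∑ d ∈ (HS5_dl R (G.s e) (G.r e) : Finset (↥F → ℤ)), Q (h - d))) :=
    (summable_sum (fun d _ => hshift d)).mul_left C1
  have hsum2 : Summable (fun h : ↥F → ℤ => (∑ v ∈ Nr, WH G F EF w h * ((ex h v : ℤ) : ℝ) ^ 2) / (R : ℝ) ^ 2) :=
    (summable_sum (fun v _ => hVs v)).div_const _
  have htot := hLs.tsum_le_tsum hpt (hsum1.add hsum2)
  rw [hsum1.tsum_add hsum2, tsum_mul_left, tsum_div_const, Summable.tsum_finsetSum (fun d _ => hshift d),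
    Summable.tsum_finsetSum (fun v _ => hVs v)] at htot
  have hsh : ∀ d : ↥F → ℤ, ∑' h, Q (h - d) = ∑' h, Q h := fun d => (Equiv.subRight d).tsum_eq Q
  simp only [hsh, Finset.sum_const, nsmul_eq_mul] at htot
  have hcard := HS5_dlc (F := F) R (G.s e) (G.r e)
  have hQt : 0 ≤ ∑' h, Q h := tsum_nonneg hQ0
  have hfin : ∑' h : ↥F → ℤ, WH G F EF w h * em w G B (ex h) (fun o => φ (opP e o)) ≤
      (C1 * (R + 1) ^ 2) * ∑' h, Q h + (∑ v ∈ Nr, ∑' h : ↥F → ℤ, WH G F EF w h * ((ex h v : ℤ) : ℝ) ^ 2) / R ^ 2 := by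
    refine htot.trans ?_
    have := mul_le_mul_of_nonneg_left (mul_le_mul_of_nonneg_right hcard hQt) hC10
    rw [← mul_assoc C1] at this
    linarith
  have hQf : ∑' h, Q h = ∑' h : ↥F → ℤ, WH G F EF w h * em w G B (ex h) φ := by simp only [hQ]
  rw [hQf] at hfin
  unfold PM Eh
  rw [div_le_iff₀ hZ, add_mul]
  have e1 : C1 * (R + 1) ^ 2 * ((∑' h : ↥F → ℤ, WH G F EF w h * em w G B (ex h) φ) /
      ∑' h : ↥F → ℤ, WH G F EF w h) * (∑' h : ↥F → ℤ, WH G F EF w h) =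
      C1 * (R + 1) ^ 2 * ∑' h : ↥F → ℤ, WH G F EF w h * em w G B (ex h) φ := by
    field_simp
  have e2 : (∑ v ∈ Nr, (∑' h : ↥F → ℤ, WH G F EF w h * ((ex h v : ℤ) : ℝ) ^ 2) / ∑' h : ↥F → ℤ, WH G F EF w h) / (R : ℝ) ^ 2 *
      (∑' h : ↥F → ℤ, WH G F EF w h) = (∑ v ∈ Nr, ∑' h : ↥F → ℤ, WH G F EF w h * ((ex h v : ℤ) : ℝ) ^ 2) / R ^ 2 := by
    rw [← Finset.sum_div]
    field_simp
  calc _ ≤ _ := hfin
    _ = _ := by rw [← e1, ← e2]

theorem hs_ins (w : ℤ → ℝ) (hw : WOk w) (h10 : w 1 < w 0) (R : ℕ)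
    (hR : 0 < R) (D : ℕ) : ∃ C : ℝ, 0 < C ∧
    ∀ (V E : Type) [DecidableEq V] [DecidableEq E] (G : Gr V E) (F : Finset V) (EF : Finset E),
      Bd G F EF → ∀ (B T : Finset E) (Nr : Finset V) (e : E), e ∈ B → T.card ≤ D →
      (∀ f ∈ B ∪ EF, (G.s f = G.s e ∨ G.s f = G.r e ∨ G.r f = G.s e ∨ G.r f = G.r e) → f ∈ T) →
      (∀ f ∈ T, G.s f ∈ Nr ∧ G.r f ∈ Nr) →
      ∀ φ : (E → Bool) → ℝ, (∀ o, 0 ≤ φ o) → (∀ o, φ o ≤ 1) →
      PM G F EF w B (fun o => φ (opP e o)) ≤ C * PM G F EF w B φ +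
        (∑ v ∈ Nr, Eh G F EF w (fun h => (h v : ℝ) ^ 2)) / R ^ 2 := by
  classical
  obtain ⟨K1, hK1, k1⟩ := HS5_const ((Finset.Icc (-(2 * R : ℤ)) (2 * R)) ×ˢ (Finset.Icc (-(2 * R : ℤ)) (2 * R)))
    (fun p => w p.2 / w p.1) (fun p _ => div_pos (hw.pos _) (hw.pos _))
  obtain ⟨K2, hK2, k2⟩ := HS5_const ((Finset.Icc (-(R : ℤ)) R) ×ˢ (Finset.Icc (-(R : ℤ)) R))
    (fun p => 1 - qm w p.1 p.2) (fun p _ => by linarith [(qm_bd w hw p.1 p.2).2])
  obtain ⟨K3, hK3, k3⟩ := HS5_const ((Finset.Icc (-(R : ℤ)) 0) ×ˢ (Finset.Icc (-(R : ℤ)) 0))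
    (fun p => qm w p.1 p.2) (fun p hp => by
      rw [Finset.mem_product, Finset.mem_Icc, Finset.mem_Icc] at hp
      exact HS5_qpos w hw h10 _ _ hp.1.2 hp.2.2)
  set K := K1 + K2 + K3 with hKd
  have hK : 1 ≤ K := by linarith
  refine ⟨2 * K ^ D * K ^ D * (R + 1) ^ 2, by positivity, ?_⟩
  intro V E _ _ G F EF hBd B T Nr e he hT hTT hTN φ h0 h1
  refine HS5_main w hw R D hR K hK ?_ ?_ ?_ G F EF hBd B T Nr e he hT hTT hTN φ h0 h1
  · intro x y hx hy
    rw [abs_le] at hx hy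
    have h := k1 (x, y) (by
      rw [Finset.mem_product, Finset.mem_Icc, Finset.mem_Icc]
      exact ⟨hx, hy⟩)
    have px := hw.pos x
    have py := hw.pos y
    simp only at h
    rw [← mul_div_assoc, one_le_div px] at h
    refine h.trans ?_
    exact mul_le_mul_of_nonneg_right (by linarith) py.le
  · intro x y hx hy
    rw [abs_le] at hx hy
    have h := k2 (x, y) (by
      rw [Finset.mem_product, Finset.mem_Icc, Finset.mem_Icc]
      exact ⟨hx, hy⟩)
    refine h.trans ?_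
    exact mul_le_mul_of_nonneg_right (by linarith) (by linarith [(qm_bd w hw x y).2])
  · intro x y hx hy hx0 hy0
    rw [abs_le] at hx hy
    have h := k3 (x, y) (by
      rw [Finset.mem_product, Finset.mem_Icc, Finset.mem_Icc]
      exact ⟨⟨hx.1, hx0⟩, ⟨hy.1, hy0⟩⟩)
    refine h.trans ?_
    exact mul_le_mul_of_nonneg_right (by linarith) (qm_bd w hw x y).1

end H82.BX
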