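import Pool.Agent.H82.BX.DOM

/-!
# LIH: convergence of the local laws of the heights

Assume second moments bounded by `C'` uniformly (`n`, `i ∈ FN n`).
For a finitely supported `t`, let `χ_n(t) = En (cos (t·h))`.  `dom` with `a = 0`: `χ_n(t)` is eventually antitone in `n`,
so it converges to `χ(t)`; `dom` and `Eh_shift` give `χ(t^a) ≤ χ(t)` for the shifted `t^a`, hence `=`.
`En (sin (t·h)) = 0` (`Eh_neg`).  The indicators of `h_S ≡ k mod P` are finite combinations of `cos (c + t·h)`.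
For `g` depending on `h_S` only, `g_P = ∑_k g(k) 1[h_S ≡ k mod P]` (`P = 2R+1`, `|k| ≤ R`) equals `g` if `|h_v| ≤ R` on `S`;
second moments: `|En g - En g_P| ≤ 2 |S| C'/(R+1)²`.
-/

set_option autoImplicit false

open Finset MeasureTheory Filter Topology

namespace H82.BX

open H82.IC XYB

namespace LIHx

/-- shift of heights -/
def lsh (a : Vx 2) (h : Vx 2 × Bool → ℤ) : Vx 2 × Bool → ℤ := fun v => h (v.1 + a, v.2)

theorem lih_FN_ev (S : Finset (Vx 2 × Bool)) : ∃ n0 : ℕ, ∀ n, n0 ≤ n → S ⊆ FN n := by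
  classical
  induction S using Finset.induction_on with
  | empty => exact ⟨0, fun _ _ => Finset.empty_subset _⟩
  | insert v S hv ih =>
    obtain ⟨n0, h0⟩ := ih
    refine ⟨max n0 ((v.1 0).natAbs + (v.1 1).natAbs + 1), fun n hn => ?_⟩
    rw [Finset.insert_subset_iff]
    refine ⟨?_, h0 n (le_trans (le_max_left _ _) hn)⟩
    have h1 := le_trans (le_max_right n0 _) hn
    rw [FN, Finset.mem_product, Fintype.mem_piFinset]
    refine ⟨fun i => ?_, Finset.mem_univ _⟩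
    rw [Finset.mem_Ico]
    fin_cases i
    · show -(n : ℤ) ≤ v.1 0 ∧ v.1 0 < n
      omega
    · show -(n : ℤ) ≤ v.1 1 ∧ v.1 1 < n
      omega

/-- linear forms of the heights -/
noncomputable def lin (t : Vx 2 × Bool →₀ ℝ) (h : Vx 2 × Bool → ℤ) : ℝ := t.sum fun v x => x * (h v : ℝ)

theorem lin_add (t s : Vx 2 × Bool →₀ ℝ) (h : Vx 2 × Bool → ℤ) : lin (t + s) h = lin t h + lin s h := by
  classical
  unfold lin
  exact Finsupp.sum_add_index' (fun v => by simp) (fun v x y => by ring)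

theorem lin_single (v : Vx 2 × Bool) (x : ℝ) (h : Vx 2 × Bool → ℤ) :
    lin (Finsupp.single v x) h = x * (h v : ℝ) := by
  unfold lin
  exact Finsupp.sum_single_index (by simp)

theorem lin_zero (h : Vx 2 × Bool → ℤ) : lin 0 h = 0 := by
  simp [lin]

theorem lin_neg (t : Vx 2 × Bool →₀ ℝ) (h : Vx 2 × Bool → ℤ) : lin t (-h) = -lin t h := by
  unfold lin Finsupp.sum
  rw [← Finset.sum_neg_distrib]
  refine Finset.sum_congr rfl fun v _ => ?_
  simp

/-- shifted coefficients -/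
noncomputable def tsh (a : Vx 2) (t : Vx 2 × Bool →₀ ℝ) : Vx 2 × Bool →₀ ℝ :=
  t.mapDomain (fun v => (v.1 + a, v.2))

theorem lin_tsh (a : Vx 2) (t : Vx 2 × Bool →₀ ℝ) (h : Vx 2 × Bool → ℤ) :
    lin (tsh a t) h = lin t (lsh a h) := by
  unfold lin tsh lsh
  exact Finsupp.sum_mapDomain_index (fun v => by simp) (fun v x y => by ring)

theorem tsh_zero (t : Vx 2 × Bool →₀ ℝ) : tsh 0 t = t := by
  unfold tsh
  have : (fun v : Vx 2 × Bool => (v.1 + 0, v.2)) = id := by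
    funext v
    simp
  rw [this, Finsupp.mapDomain_id]

theorem tsh_tsh (a : Vx 2) (t : Vx 2 × Bool →₀ ℝ) : tsh (-a) (tsh a t) = t := by
  unfold tsh
  rw [← Finsupp.mapDomain_comp]
  have : ((fun v : Vx 2 × Bool => (v.1 + -a, v.2)) ∘ fun v : Vx 2 × Bool => (v.1 + a, v.2)) = id := by
    funext v
    simp
  rw [this, Finsupp.mapDomain_id]

/-- characteristic functions -/
noncomputable def chX (κ : ℝ) (n : ℕ) (t : Vx 2 × Bool →₀ ℝ) : ℝ :=
  En (wk κ) n (fun h => Real.cos (lin t h))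

theorem lih_dom (κ : ℝ) (hκ : 0 < κ) (a : Vx 2) (n m : ℕ) (hs : FNa a n ⊆ FN m)
    (t : Vx 2 × Bool →₀ ℝ) (ht : t.support ⊆ FN n) : chX κ m (tsh a t) ≤ chX κ n t := by
  classical
  have hsup : (tsh a t).support ⊆ FNa a n := by
    refine Finsupp.mapDomain_support.trans ?_
    unfold FNa
    exact Finset.image_subset_image ht
  have hsum : ∀ h : Vx 2 × Bool → ℤ, ∑ v ∈ FNa a n, tsh a t v * (h v : ℝ) = lin (tsh a t) h := by
    intro h
    unfold lin
    exact (Finsupp.sum_of_support_subset _ hsup (fun v x => x * (h v : ℝ)) (fun v _ => by simp)).symm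
  have h1 := dom κ hκ a n m hs (tsh a t)
  rw [Eh_shift (wk κ) (wk_ok κ hκ)] at h1
  simp only [hsum, lin_tsh] at h1
  unfold chX
  simp only [lin_tsh]
  refine h1.trans (le_of_eq ?_)
  congr 1
  funext h
  congr 2
  funext v
  simp [lsh]

theorem FNa_zero (n : ℕ) : FNa 0 n = FN n := by
  unfold FNa
  have : (fun v : Vx 2 × Bool => (v.1 + 0, v.2)) = id := by
    funext v
    simp
  rw [this, Finset.image_id]

theorem FN_mono {n m : ℕ} (h : n ≤ m) : FN n ⊆ FN m := by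
  intro v hv
  rw [FN, Finset.mem_product, Fintype.mem_piFinset] at hv ⊢
  refine ⟨fun i => ?_, hv.2⟩
  have := Finset.mem_Ico.1 (hv.1 i)
  rw [Finset.mem_Ico]
  omega

theorem En_bd (κ : ℝ) (hκ : 0 < κ) (n : ℕ) (g : (Vx 2 × Bool → ℤ) → ℝ) (C : ℝ) (hC : ∀ h, |g h| ≤ C) :
    -C ≤ En (wk κ) n g ∧ En (wk κ) n g ≤ C := by
  have hw := wk_ok κ hκ
  have hB := FN_Bd n
  have hg : PBd (FN n) g := PBd_bdd _ g C hC
  have hc : ∀ c : ℝ, PBd (FN n) (fun _ : Vx 2 × Bool → ℤ => c) := fun c => PBd_bdd _ _ |c| fun _ => le_rfl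
  constructor
  · have := Eh_mono HH.gr (FN n) (EN n) hB (wk κ) hw (fun _ => -C) g (hc _) hg
      (fun h => (abs_le.1 (hC _)).1)
    rw [Eh_one _ _ _ hB _ hw] at this
    exact this
  · have := Eh_mono HH.gr (FN n) (EN n) hB (wk κ) hw g (fun _ => C) hg (hc _)
      (fun h => (abs_le.1 (hC _)).2)
    rw [Eh_one _ _ _ hB _ hw] at this
    exact this

theorem chX_tendsto (κ : ℝ) (hκ : 0 < κ) (t : Vx 2 × Bool →₀ ℝ) :
    ∃ ℓ : ℝ, Tendsto (fun n => chX κ n t) atTop (𝓝 ℓ) := by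
  obtain ⟨n0, h0⟩ := lih_FN_ev t.support
  have hanti : Antitone (fun n => chX κ (n + n0) t) := by
    intro n m hnm
    have := lih_dom κ hκ 0 (n + n0) (m + n0) (by rw [FNa_zero]; exact FN_mono (by omega)) t
      (h0 _ (by omega))
    rwa [tsh_zero] at this
  have hbdd : BddBelow (Set.range (fun n => chX κ (n + n0) t)) := by
    refine ⟨-1, ?_⟩
    rintro _ ⟨n, rfl⟩
    exact (En_bd κ hκ _ _ 1 fun h => Real.abs_cos_le_one _).1
  have h1 := tendsto_atTop_ciInf hanti hbdd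
  exact ⟨_, (tendsto_add_atTop_iff_nat (f := fun n => chX κ n t) n0).1 h1⟩

/-- limit characteristic function -/
noncomputable def chL (κ : ℝ) (hκ : 0 < κ) (t : Vx 2 × Bool →₀ ℝ) : ℝ := (chX_tendsto κ hκ t).choose

theorem chL_spec (κ : ℝ) (hκ : 0 < κ) (t : Vx 2 × Bool →₀ ℝ) :
    Tendsto (fun n => chX κ n t) atTop (𝓝 (chL κ hκ t)) := (chX_tendsto κ hκ t).choose_spec

theorem chL_le (κ : ℝ) (hκ : 0 < κ) (a : Vx 2) (t : Vx 2 × Bool →₀ ℝ) :
    chL κ hκ (tsh a t) ≤ chL κ hκ t := by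
  obtain ⟨n0, h0⟩ := lih_FN_ev t.support
  refine ge_of_tendsto (chL_spec κ hκ t) ?_
  filter_upwards [eventually_ge_atTop n0] with n hn
  obtain ⟨m0, hm0⟩ := lih_FN_ev (FNa a n)
  refine le_of_tendsto (chL_spec κ hκ (tsh a t)) ?_
  filter_upwards [eventually_ge_atTop m0] with m hm
  exact lih_dom κ hκ a n m (hm0 m hm) t (h0 n hn)

theorem chL_eq (κ : ℝ) (hκ : 0 < κ) (a : Vx 2) (t : Vx 2 × Bool →₀ ℝ) :
    chL κ hκ (tsh a t) = chL κ hκ t := by
  refine le_antisymm (chL_le κ hκ a t) ?_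
  have := chL_le κ hκ (-a) (tsh a t)
  rwa [tsh_tsh] at this

/-- good functions -/
def Gd (κ : ℝ) (g : (Vx 2 × Bool → ℤ) → ℝ) : Prop :=
  (∃ C : ℝ, ∀ h, |g h| ≤ C) ∧ ∃ ℓ : ℝ, Tendsto (fun n => En (wk κ) n g) atTop (𝓝 ℓ) ∧
    ∀ a : Vx 2, Tendsto (fun n => En (wk κ) n (fun h => g (lsh a h))) atTop (𝓝 ℓ)

theorem Gd_smul (κ : ℝ) (c : ℝ) (g : (Vx 2 × Bool → ℤ) → ℝ) (hg : Gd κ g) :
    Gd κ (fun h => c * g h) := by
  obtain ⟨⟨C, hC⟩, ℓ, h1, h2⟩ := hg
  have key : ∀ (n : ℕ) (g : (Vx 2 × Bool → ℤ) → ℝ), En (wk κ) n (fun h => c * g h) =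
      c * En (wk κ) n g := fun n g => Eh_smul _ _ _ _ _ _
  refine ⟨⟨|c| * C, fun h => ?_⟩, c * ℓ, ?_, fun a => ?_⟩
  · rw [abs_mul]
    exact mul_le_mul_of_nonneg_left (hC h) (abs_nonneg _)
  · simp only [key]
    exact h1.const_mul c
  · have : ∀ n, En (wk κ) n (fun h => c * g (lsh a h)) = c * En (wk κ) n (fun h => g (lsh a h)) :=
      fun n => key n _
    simp only [this]
    exact (h2 a).const_mul c

theorem Gd_add (κ : ℝ) (hκ : 0 < κ) (g g' : (Vx 2 × Bool → ℤ) → ℝ) (hg : Gd κ g) (hg' : Gd κ g') :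
    Gd κ (fun h => g h + g' h) := by
  obtain ⟨⟨C, hC⟩, ℓ, h1, h2⟩ := hg
  obtain ⟨⟨C', hC'⟩, ℓ', h1', h2'⟩ := hg'
  have key : ∀ (n : ℕ) (g g' : (Vx 2 × Bool → ℤ) → ℝ), (∀ h, |g h| ≤ C) → (∀ h, |g' h| ≤ C') →
      En (wk κ) n (fun h => g h + g' h) = En (wk κ) n g + En (wk κ) n g' := fun n g g' a b =>
    Eh_add _ _ _ (FN_Bd n) _ (wk_ok κ hκ) _ _ (PBd_bdd _ _ C a) (PBd_bdd _ _ C' b)
  refine ⟨⟨C + C', fun h => (abs_add_le _ _).trans (add_le_add (hC h) (hC' h))⟩, ℓ + ℓ', ?_,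
    fun a => ?_⟩
  · simp only [key _ g g' hC hC']
    exact h1.add h1'
  · have : ∀ n, En (wk κ) n (fun h => g (lsh a h) + g' (lsh a h)) =
      En (wk κ) n (fun h => g (lsh a h)) + En (wk κ) n (fun h => g' (lsh a h)) :=
      fun n => key n _ _ (fun h => hC _) (fun h => hC' _)
    simp only [this]
    exact (h2 a).add (h2' a)

theorem Gd_zero (κ : ℝ) (hκ : 0 < κ) : Gd κ (fun _ => 0) := by
  have key : ∀ n, En (wk κ) n (fun _ => 0) = 0 := fun n =>
    Eh_one _ _ _ (FN_Bd n) _ (wk_ok κ hκ) 0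
  refine ⟨⟨0, fun h => by simp⟩, 0, ?_, fun a => ?_⟩
  · simp only [key]
    exact tendsto_const_nhds
  · simp only [key]
    exact tendsto_const_nhds

theorem Gd_sum {ι : Type} (κ : ℝ) (hκ : 0 < κ) (s : Finset ι) (g : ι → (Vx 2 × Bool → ℤ) → ℝ)
    (hg : ∀ i ∈ s, Gd κ (g i)) : Gd κ (fun h => ∑ i ∈ s, g i h) := by
  classical
  induction s using Finset.induction_on with
  | empty => simpa using Gd_zero κ hκ
  | insert i s hi ih =>
    simp only [Finset.sum_insert hi]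
    exact Gd_add κ hκ _ _ (hg i (Finset.mem_insert_self _ _))
      (ih fun j hj => hg j (Finset.mem_insert_of_mem hj))

theorem Gd_cos (κ : ℝ) (hκ : 0 < κ) (t : Vx 2 × Bool →₀ ℝ) : Gd κ (fun h => Real.cos (lin t h)) := by
  refine ⟨⟨1, fun h => Real.abs_cos_le_one _⟩, chL κ hκ t, chL_spec κ hκ t, fun a => ?_⟩
  simp only [← lin_tsh]
  rw [← chL_eq κ hκ a t]
  exact chL_spec κ hκ (tsh a t)

theorem En_sin (κ : ℝ) (hκ : 0 < κ) (n : ℕ) (t : Vx 2 × Bool →₀ ℝ) :
    En (wk κ) n (fun h => Real.sin (lin t h)) = 0 := by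
  have h1 := Eh_neg HH.gr (FN n) (EN n) (wk κ) (wk_ok κ hκ) (fun h => Real.sin (lin t h))
  have h2 := Eh_smul HH.gr (FN n) (EN n) (wk κ) (-1) (fun h => Real.sin (lin t h))
  have h3 : (fun h : Vx 2 × Bool → ℤ => Real.sin (lin t (-h))) =
      fun h => (-1) * Real.sin (lin t h) := by
    funext h
    rw [lin_neg, Real.sin_neg]
    ring
  rw [h3, h2] at h1
  unfold En
  linarith

theorem Gd_sin (κ : ℝ) (hκ : 0 < κ) (t : Vx 2 × Bool →₀ ℝ) : Gd κ (fun h => Real.sin (lin t h)) := by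
  refine ⟨⟨1, fun h => Real.abs_sin_le_one _⟩, 0, ?_, fun a => ?_⟩
  · simp only [En_sin κ hκ]
    exact tendsto_const_nhds
  · simp only [← lin_tsh, En_sin κ hκ]
    exact tendsto_const_nhds

theorem Gd_cosc (κ : ℝ) (hκ : 0 < κ) (c : ℝ) (t : Vx 2 × Bool →₀ ℝ) :
    Gd κ (fun h => Real.cos (c + lin t h)) := by
  have h1 := Gd_add κ hκ _ _ (Gd_smul κ (Real.cos c) _ (Gd_cos κ hκ t))
    (Gd_smul κ (-Real.sin c) _ (Gd_sin κ hκ t))
  convert h1 using 2 with h
  rw [Real.cos_add]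
  ring

theorem cos_avg (P : ℕ) (hP : 0 < P) (m : ℤ) :
    (∑ j ∈ range P, Real.cos (2 * Real.pi * j * m / P)) = if (P : ℤ) ∣ m then (P : ℝ) else 0 := by
  have hP' : (P : ℝ) ≠ 0 := by positivity
  have hPc : (P : ℂ) ≠ 0 := by exact_mod_cast hP.ne'
  split_ifs with h
  · obtain ⟨q, rfl⟩ := h
    have : ∀ j ∈ range P, Real.cos (2 * Real.pi * j * ((P * q : ℤ) : ℝ) / P) = 1 := by
      intro j _
      have e : 2 * Real.pi * j * ((P * q : ℤ) : ℝ) / P = ((j * q : ℤ) : ℝ) * (2 * Real.pi) := by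
        push_cast
        field_simp
      rw [e]
      exact Real.cos_int_mul_two_pi _
    rw [Finset.sum_congr rfl this]
    simp
  · set ζ : ℂ := Complex.exp (2 * Real.pi * Complex.I * m / P) with hζ
    have hne : ζ ≠ 1 := by
      rw [hζ, Ne, Complex.exp_eq_one_iff]
      rintro ⟨n, hn⟩
      apply h
      have h2 : (m : ℂ) = n * P := by
        have h3 : (2 * Real.pi * Complex.I : ℂ) ≠ 0 := by
          simp [Real.pi_ne_zero, Complex.I_ne_zero]
        have h4 : (2 * Real.pi * Complex.I : ℂ) * m = (2 * Real.pi * Complex.I) * (n * P) := by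
          rw [div_eq_iff hPc] at hn
          rw [hn]
          ring
        exact mul_left_cancel₀ h3 h4
      have h5 : m = n * P := by exact_mod_cast h2
      exact ⟨n, by rw [h5]; ring⟩
    have hpow : ζ ^ P = 1 := by
      rw [hζ, ← Complex.exp_nat_mul, Complex.exp_eq_one_iff]
      refine ⟨m, ?_⟩
      field_simp
    have hgeom : ∑ j ∈ range P, ζ ^ j = 0 := by
      rw [geom_sum_eq hne, hpow, sub_self, zero_div]
    have hre : ∀ j ∈ range P, Real.cos (2 * Real.pi * j * m / P) = (ζ ^ j).re := by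
      intro j _
      rw [hζ, ← Complex.exp_nat_mul]
      have e : (j : ℂ) * (2 * Real.pi * Complex.I * m / P) =
          ((2 * Real.pi * j * m / P : ℝ) : ℂ) * Complex.I := by
        push_cast
        ring
      rw [e, Complex.exp_ofReal_mul_I_re]
    rw [Finset.sum_congr rfl hre, ← Complex.re_sum, hgeom, Complex.zero_re]

theorem Gd_prod (κ : ℝ) (hκ : 0 < κ) (P : ℕ) (hP : 0 < P) (k : Vx 2 × Bool → ℤ)
    (S : Finset (Vx 2 × Bool)) : ∀ (c : ℝ) (t : Vx 2 × Bool →₀ ℝ),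
    Gd κ (fun h => (∏ v ∈ S, if (P : ℤ) ∣ h v - k v then (1 : ℝ) else 0) *
      Real.cos (c + lin t h)) := by
  classical
  induction S using Finset.induction_on with
  | empty =>
    intro c t
    simpa using Gd_cosc κ hκ c t
  | insert v S hv ih =>
    intro c t
    have h1 := Gd_smul κ (1 / (2 * P)) _ (Gd_sum κ hκ (range P) (fun j h =>
      (∏ v ∈ S, if (P : ℤ) ∣ h v - k v then (1 : ℝ) else 0) *
        Real.cos ((c - 2 * Real.pi * j * k v / P) + lin (t + Finsupp.single v (2 * Real.pi * j / P)) h) +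
      (∏ v ∈ S, if (P : ℤ) ∣ h v - k v then (1 : ℝ) else 0) *
        Real.cos ((c + 2 * Real.pi * j * k v / P) +
          lin (t + Finsupp.single v (-(2 * Real.pi * j / P))) h))
      (fun j _ => Gd_add κ hκ _ _ (ih _ _) (ih _ _)))
    convert h1 using 2 with h
    rw [Finset.prod_insert hv]
    have hP' : (P : ℝ) ≠ 0 := by positivity
    have h2 : (if (P : ℤ) ∣ h v - k v then (1 : ℝ) else 0) =
        (1 / P) * ∑ j ∈ range P, Real.cos (2 * Real.pi * j * ((h v - k v : ℤ) : ℝ) / P) := by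
      rw [cos_avg P hP]
      split_ifs
      · field_simp
      · simp
    rw [h2]
    have h3 : ∀ j : ℕ, Real.cos ((c - 2 * Real.pi * j * k v / P) +
        lin (t + Finsupp.single v (2 * Real.pi * j / P)) h) +
        Real.cos ((c + 2 * Real.pi * j * k v / P) +
          lin (t + Finsupp.single v (-(2 * Real.pi * j / P))) h) =
        2 * (Real.cos (2 * Real.pi * j * ((h v - k v : ℤ) : ℝ) / P) * Real.cos (c + lin t h)) := by
      intro j
      rw [lin_add, lin_add, lin_single, lin_single]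
      set A : ℝ := 2 * Real.pi * j * ((h v - k v : ℤ) : ℝ) / P with hA
      have e1 : (c - 2 * Real.pi * j * k v / P) + (lin t h + 2 * Real.pi * j / P * (h v : ℝ)) =
          (c + lin t h) + A := by
        rw [hA]
        push_cast
        ring
      have e2 : (c + 2 * Real.pi * j * k v / P) + (lin t h + -(2 * Real.pi * j / P) * (h v : ℝ)) =
          (c + lin t h) - A := by
        rw [hA]
        push_cast
        ring
      rw [e1, e2, Real.cos_add, Real.cos_sub]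
      ring
    simp only [← mul_add, h3]
    rw [Finset.mul_sum, Finset.sum_mul, Finset.sum_mul, Finset.mul_sum]
    refine Finset.sum_congr rfl fun j _ => ?_
    field_simp

/-- representative mod `2R+1` in `[-R,R]` -/
def rep (R : ℕ) (m : ℤ) : ℤ := (m + R) % (2 * R + 1) - R

theorem rep_mem (R : ℕ) (m : ℤ) : rep R m ∈ Finset.Icc (-(R : ℤ)) R := by
  unfold rep
  rw [Finset.mem_Icc]
  have h1 := Int.emod_nonneg (m + R) (by omega : (2 * (R : ℤ) + 1) ≠ 0)
  have h2 := Int.emod_lt_of_pos (m + R) (by omega : 0 < (2 * (R : ℤ) + 1))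
  constructor <;> omega

theorem rep_iff (R : ℕ) (m k : ℤ) (hk : k ∈ Finset.Icc (-(R : ℤ)) R) :
    ((2 * R + 1 : ℕ) : ℤ) ∣ m - k ↔ k = rep R m := by
  rw [Finset.mem_Icc] at hk
  unfold rep
  push_cast
  have h1 := Int.emod_add_mul_ediv (m + R) (2 * (R : ℤ) + 1)
  have h2 := Int.emod_nonneg (m + R) (by omega : (2 * (R : ℤ) + 1) ≠ 0)
  have h3 := Int.emod_lt_of_pos (m + R) (by omega : 0 < (2 * (R : ℤ) + 1))
  constructor
  · rintro ⟨q, hq⟩
    have h4 : m + R = (k + R) + (2 * (R : ℤ) + 1) * q := by linarith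
    have h5 : (m + R) % (2 * (R : ℤ) + 1) = k + R := by
      rw [h4, Int.add_mul_emod_self_left]
      exact Int.emod_eq_of_lt (by omega) (by omega)
    rw [h5]
    ring
  · intro h
    refine ⟨(m + R) / (2 * (R : ℤ) + 1), ?_⟩
    rw [h]
    linarith

theorem rep_self (R : ℕ) (m : ℤ) (hm : |m| ≤ R) : rep R m = m := by
  have := abs_le.1 hm
  exact ((rep_iff R m m (Finset.mem_Icc.2 this)).1 (by simp)).symm

end LIHx

open LIHx

theorem lih (κ C' : ℝ) (hκ : 0 < κ)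
    (hM : ∀ n : ℕ, ∀ i ∈ FN n, En (wk κ) n (fun h => (h i : ℝ) ^ 2) ≤ C')
    (S : Finset (Vx 2 × Bool)) (g : (Vx 2 × Bool → ℤ) → ℝ)
    (hg : ∀ h h', (∀ v ∈ S, h v = h' v) → g h = g h') (hb : ∀ h, |g h| ≤ 1) :
    ∃ ℓ : ℝ, Tendsto (fun n => En (wk κ) n g) atTop (𝓝 ℓ) ∧
      ∀ a : Vx 2, Tendsto (fun n => En (wk κ) n (fun h => g (fun v => h (v.1 + a, v.2)))) atTop (𝓝 ℓ) := by
  classical
  have hw := wk_ok κ hκ
  -- the periodised function
  set gP : ℕ → (Vx 2 × Bool → ℤ) → ℝ := fun R h =>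
    ∑ k ∈ Fintype.piFinset (fun _ : ↥S => Finset.Icc (-(R : ℤ)) R),
      g (ex k) * ((∏ v ∈ S, if ((2 * R + 1 : ℕ) : ℤ) ∣ h v - ex k v then (1 : ℝ) else 0) *
        Real.cos (0 + lin 0 h)) with hgP
  have hGd : ∀ R, Gd κ (gP R) := fun R =>
    Gd_sum κ hκ _ _ fun k _ => Gd_smul κ _ _ (Gd_prod κ hκ (2 * R + 1) (by omega) (ex k) S 0 0)
  have hval : ∀ R h, gP R h = g (ex (fun v : ↥S => rep R (h v.1))) := by
    intro R h
    rw [hgP]
    simp only [lin_zero, add_zero, Real.cos_zero, mul_one]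
    rw [Finset.sum_eq_single (fun v : ↥S => rep R (h v.1))]
    · have : ∏ v ∈ S, (if ((2 * R + 1 : ℕ) : ℤ) ∣ h v - ex (fun v : ↥S => rep R (h v.1)) v
          then (1 : ℝ) else 0) = 1 := by
        refine Finset.prod_eq_one fun v hv => ?_
        rw [if_pos]
        have e : ex (fun v : ↥S => rep R (h v.1)) v = rep R (h v) := by
          unfold ex
          rw [dif_pos hv]
        rw [e]
        exact (rep_iff R (h v) _ (rep_mem R _)).2 rfl
      rw [this, mul_one]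
    · intro k hk hne
      rw [Fintype.mem_piFinset] at hk
      obtain ⟨v, hv⟩ := Function.ne_iff.1 hne
      have e : ex k v.1 = k v := by
        unfold ex
        rw [dif_pos v.2]
      have : ∏ v ∈ S, (if ((2 * R + 1 : ℕ) : ℤ) ∣ h v - ex k v then (1 : ℝ) else 0) = 0 := by
        refine Finset.prod_eq_zero v.2 ?_
        rw [if_neg]
        rw [e, rep_iff R _ _ (hk v)]
        exact hv
      rw [this, mul_zero]
    · intro hn
      exact absurd (Fintype.mem_piFinset.2 fun v => rep_mem R _) hn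
  -- pointwise comparison
  have hpt : ∀ R h, |g h - gP R h| ≤ ∑ v ∈ S, (2 / ((R : ℝ) + 1) ^ 2) * (h v : ℝ) ^ 2 := by
    intro R h
    rw [hval]
    by_cases hs : ∀ v ∈ S, |h v| ≤ R
    · have e : g (ex (fun v : ↥S => rep R (h v.1))) = g h := by
        refine hg _ _ fun v hv => ?_
        unfold ex
        rw [dif_pos hv]
        exact rep_self R (h v) (hs v hv)
      rw [e, sub_self, abs_zero]
      exact Finset.sum_nonneg fun v _ => by positivity
    · push Not at hs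
      obtain ⟨v, hv, hlt⟩ := hs
      have h1 : |g h - g (ex (fun v : ↥S => rep R (h v.1)))| ≤ 2 := by
        have := abs_sub (g h) (g (ex (fun v : ↥S => rep R (h v.1))))
        linarith [hb h, hb (ex (fun v : ↥S => rep R (h v.1)))]
      refine h1.trans ?_
      refine le_trans ?_ (Finset.single_le_sum (f := fun v => (2 / ((R : ℝ) + 1) ^ 2) * (h v : ℝ) ^ 2)
        (fun v _ => by positivity) hv)
      have h2 : (R : ℝ) + 1 ≤ |(h v : ℝ)| := by
        have : (R : ℤ) + 1 ≤ |h v| := hlt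
        exact_mod_cast this
      have h3 : ((R : ℝ) + 1) ^ 2 ≤ (h v : ℝ) ^ 2 := by
        rw [← sq_abs (h v : ℝ)]
        gcongr
      show 2 ≤ (2 / ((R : ℝ) + 1) ^ 2) * (h v : ℝ) ^ 2
      rw [div_mul_eq_mul_div, le_div_iff₀ (by positivity)]
      linarith
  have hgPb : ∀ R h, |gP R h| ≤ 1 := fun R h => by
    rw [hval]
    exact hb _
  -- comparison of expectations
  have hcmp : ∀ (R : ℕ) (a : Vx 2) (n : ℕ), (S.image (fun v => (v.1 + a, v.2))) ⊆ FN n →
      |En (wk κ) n (fun h => g (lsh a h)) - En (wk κ) n (fun h => gP R (lsh a h))| ≤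
        (S.card : ℝ) * ((2 / ((R : ℝ) + 1) ^ 2) * |C'|) := by
    intro R a n hn
    have hB := FN_Bd n
    have hp1 : PBd (FN n) (fun h => g (lsh a h)) := PBd_bdd _ _ 1 fun h => hb _
    have hp2 : PBd (FN n) (fun h => gP R (lsh a h)) := PBd_bdd _ _ 1 fun h => hgPb R _
    have hpv : ∀ v, PBd (FN n) (fun h => (2 / ((R : ℝ) + 1) ^ 2) * ((lsh a h v : ℤ) : ℝ) ^ 2) := by
      intro v
      refine PBd_smul _ _ _ ?_
      have := PBd_mul _ _ _ (PBd_h (FN n) (v.1 + a, v.2)) (PBd_h (FN n) (v.1 + a, v.2))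
      convert this using 2 with h
      rw [pow_two]
      rfl
    have hp3 : PBd (FN n) (fun h => ∑ v ∈ S, (2 / ((R : ℝ) + 1) ^ 2) * ((lsh a h v : ℤ) : ℝ) ^ 2) := by
      have : ∀ T : Finset (Vx 2 × Bool), PBd (FN n)
          (fun h => ∑ v ∈ T, (2 / ((R : ℝ) + 1) ^ 2) * ((lsh a h v : ℤ) : ℝ) ^ 2) := by
        intro T
        induction T using Finset.induction_on with
        | empty => exact PBd_bdd _ _ 0 fun h => by simp
        | insert v T hv ih =>
          simp only [Finset.sum_insert hv]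
          exact PBd_add _ _ _ (hpv v) ih
      exact this S
    have hmom : En (wk κ) n (fun h => ∑ v ∈ S, (2 / ((R : ℝ) + 1) ^ 2) * ((lsh a h v : ℤ) : ℝ) ^ 2) ≤
        (S.card : ℝ) * ((2 / ((R : ℝ) + 1) ^ 2) * |C'|) := by
      have h1 := Eh_sum HH.gr (FN n) (EN n) hB (wk κ) hw S
        (fun v h => (2 / ((R : ℝ) + 1) ^ 2) * ((lsh a h v : ℤ) : ℝ) ^ 2) (fun v _ => hpv v)
      unfold En
      rw [h1]
      have h2 : ∀ v ∈ S, Eh HH.gr (FN n) (EN n) (wk κ)
          (fun h => (2 / ((R : ℝ) + 1) ^ 2) * ((lsh a h v : ℤ) : ℝ) ^ 2) ≤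
          (2 / ((R : ℝ) + 1) ^ 2) * |C'| := by
        intro v hv
        rw [Eh_smul]
        refine mul_le_mul_of_nonneg_left ?_ (by positivity)
        exact (hM n (v.1 + a, v.2) (hn (Finset.mem_image_of_mem _ hv))).trans (le_abs_self _)
      refine (Finset.sum_le_sum h2).trans (le_of_eq ?_)
      rw [Finset.sum_const, nsmul_eq_mul]
    have hadd : ∀ f f' : (Vx 2 × Bool → ℤ) → ℝ, PBd (FN n) f → PBd (FN n) f' →
        En (wk κ) n (fun h => f h + f' h) = En (wk κ) n f + En (wk κ) n f' :=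
      fun f f' a b => Eh_add _ _ _ hB _ hw _ _ a b
    have hmono : ∀ f f' : (Vx 2 × Bool → ℤ) → ℝ, PBd (FN n) f → PBd (FN n) f' →
        (∀ h, f h ≤ f' h) → En (wk κ) n f ≤ En (wk κ) n f' :=
      fun f f' a b c => Eh_mono _ _ _ hB _ hw _ _ a b (fun h => c _)
    have hpta : ∀ h, |g (lsh a h) - gP R (lsh a h)| ≤
        ∑ v ∈ S, (2 / ((R : ℝ) + 1) ^ 2) * ((lsh a h v : ℤ) : ℝ) ^ 2 := fun h => hpt R (lsh a h)
    have h1 := hmono _ _ hp1 (PBd_add _ _ _ hp2 hp3) (fun h => by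
      have := (abs_le.1 (hpta h)).2
      linarith)
    rw [hadd _ _ hp2 hp3] at h1
    have h2 := hmono _ _ hp2 (PBd_add _ _ _ hp1 hp3) (fun h => by
      have := (abs_le.1 (hpta h)).1
      linarith)
    rw [hadd _ _ hp1 hp3] at h2
    rw [abs_le]
    constructor <;> linarith
  -- smallness
  have hsmall : ∀ ε : ℝ, 0 < ε → ∃ R : ℕ, (S.card : ℝ) * ((2 / ((R : ℝ) + 1) ^ 2) * |C'|) < ε := by
    intro ε hε
    obtain ⟨R, hR⟩ := exists_nat_gt ((S.card : ℝ) * (2 * |C'|) / ε)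
    refine ⟨R, ?_⟩
    rw [div_lt_iff₀ hε] at hR
    have hR1 : (R : ℝ) ≤ ((R : ℝ) + 1) ^ 2 := by nlinarith [(Nat.cast_nonneg R : (0 : ℝ) ≤ R)]
    have hpos : (0 : ℝ) < ((R : ℝ) + 1) ^ 2 := by positivity
    have e : (S.card : ℝ) * ((2 / ((R : ℝ) + 1) ^ 2) * |C'|) =
        (S.card : ℝ) * (2 * |C'|) / ((R : ℝ) + 1) ^ 2 := by
      field_simp
    rw [e, div_lt_iff₀ hpos]
    nlinarith
  have hlsh0 : ∀ h : Vx 2 × Bool → ℤ, lsh 0 h = h := by
    intro h
    funext v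
    simp [lsh]
  have hev : ∀ a : Vx 2, ∀ᶠ n in atTop, (S.image (fun v : Vx 2 × Bool => (v.1 + a, v.2))) ⊆ FN n := by
    intro a
    obtain ⟨n0, h0⟩ := lih_FN_ev (S.image (fun v : Vx 2 × Bool => (v.1 + a, v.2)))
    filter_upwards [eventually_ge_atTop n0] with n hn
    exact h0 n hn
  have hcmp0 : ∀ (R : ℕ), ∀ᶠ n in atTop,
      |En (wk κ) n g - En (wk κ) n (gP R)| ≤ (S.card : ℝ) * ((2 / ((R : ℝ) + 1) ^ 2) * |C'|) := by
    intro R
    filter_upwards [hev 0] with n hn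
    have := hcmp R 0 n hn
    simp only [hlsh0] at this
    exact this
  -- Cauchy
  have hcauchy : CauchySeq (fun n => En (wk κ) n g) := by
    rw [Metric.cauchySeq_iff']
    intro ε hε
    obtain ⟨R, hR⟩ := hsmall (ε / 4) (by positivity)
    obtain ⟨-, ℓ, hℓ, -⟩ := hGd R
    have h1 := Metric.tendsto_atTop.1 hℓ (ε / 4) (by positivity)
    obtain ⟨n1, hn1⟩ := h1
    obtain ⟨n2, hn2⟩ := eventually_atTop.1 (hcmp0 R)
    refine ⟨max n1 n2, fun n hn => ?_⟩
    have a1 := hn1 n (le_trans (le_max_left _ _) hn)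
    have a2 := hn1 (max n1 n2) (le_max_left _ _)
    have b1 := (hn2 n (le_trans (le_max_right _ _) hn)).trans_lt hR
    have b2 := (hn2 (max n1 n2) (le_max_right _ _)).trans_lt hR
    rw [Real.dist_eq] at a1 a2 ⊢
    rw [abs_lt] at a1 a2 b1 b2 ⊢
    constructor <;> linarith
  obtain ⟨ℓ, hℓ⟩ := cauchySeq_tendsto_of_complete hcauchy
  refine ⟨ℓ, hℓ, fun a => ?_⟩
  rw [Metric.tendsto_atTop]
  intro ε hε
  obtain ⟨R, hR⟩ := hsmall (ε / 5) (by positivity)
  obtain ⟨-, ℓ', hℓ', hℓa⟩ := hGd R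
  have c1 : ∀ᶠ n in atTop, |En (wk κ) n (gP R) - ℓ'| < ε / 5 := by
    have := Metric.tendsto_nhds.1 hℓ' (ε / 5) (by positivity)
    simpa only [Real.dist_eq] using this
  have c2 : ∀ᶠ n in atTop, |En (wk κ) n (fun h => gP R (lsh a h)) - ℓ'| < ε / 5 := by
    have := Metric.tendsto_nhds.1 (hℓa a) (ε / 5) (by positivity)
    simpa only [Real.dist_eq] using this
  have c3 : ∀ᶠ n in atTop, |En (wk κ) n g - ℓ| < ε / 5 := by
    have := Metric.tendsto_nhds.1 hℓ (ε / 5) (by positivity)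
    simpa only [Real.dist_eq] using this
  obtain ⟨N, hN⟩ := eventually_atTop.1 ((((c1.and c2).and c3).and (hcmp0 R)).and (hev a))
  refine ⟨N, fun n hn => ?_⟩
  obtain ⟨⟨⟨⟨d1, d2⟩, d3⟩, d4⟩, d5⟩ := hN n hn
  have d6 := (hcmp R a n d5).trans_lt hR
  have d4' := d4.trans_lt hR
  rw [Real.dist_eq]
  have e : (fun h : Vx 2 × Bool → ℤ => g (fun v => h (v.1 + a, v.2))) = fun h => g (lsh a h) := rfl
  rw [e]
  rw [abs_lt] at d1 d2 d3 d4' d6 ⊢
  constructor <;> linarith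

end H82.BX
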