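import Pool.Agent.H82.BX.LIH
import Pool.Agent.H82.BX.KOL
import Pool.Agent.H82.BX.HS3

/-!
# NU0: the limit of the joint law of `(ω⁻, ω⁺)`

`Pq κ n F ξ = En (∏_{e ∈ F} q3 (wk κ) (h (s e)) (h (r e)) (ξ e))`.
`Pq_cyl`: nonnegative (`q3 ≥ 0`: `qm_bd`, `qm_sum`), consistent (`∑_a q3 a = 1`, `Eh_sum`), `Pq ∅ = 1` (`Eh_one`).
`nu0`: by `lih` every `Pq κ n F ξ` converges as `n → ∞` (the integrand is a function of finitely many heights with values in `[0,1]`), so `PX (Pq κ n) F X` (a finite sum) converges; `kol` gives `ν` with `ν.real X = ` the ultrafilter limit `=` the limit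
(`hyperfilter ℕ ≤ atTop`, uniqueness of limits).
-/

set_option autoImplicit false

open Finset MeasureTheory Filter Topology

namespace H82.BX

open H82.IC XYB

/-- the configuration of the edges in state `x`. -/
def stt {E : Type} (x : Fin 3) (η : E → Fin 3) : E → Bool := fun e => decide (η e = x)

/-- mass of the cylinder `η = ξ` on `F` in the box `n`. -/
noncomputable def Pq (κ : ℝ) (n : ℕ) (F : Finset (Vx 2 × Fin 3)) (ξ : Vx 2 × Fin 3 → Fin 3) : ℝ :=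
  En (wk κ) n (fun h => ∏ e ∈ F, q3 (wk κ) (h (HH.gr.s e)) (h (HH.gr.r e)) (ξ e))

/-- `ν` is the limit of the laws in the boxes. -/
def NuL (κ : ℝ) (ν : Measure (Vx 2 × Fin 3 → Fin 3)) : Prop :=
  ∀ (F : Finset (Vx 2 × Fin 3)) (X : Set (Vx 2 × Fin 3 → Fin 3)),
    (∀ ω ω' : Vx 2 × Fin 3 → Fin 3, (∀ e ∈ F, ω e = ω' e) → (ω ∈ X ↔ ω' ∈ X)) →
    Tendsto (fun n => PX (Pq κ n) F X) atTop (𝓝 (ν.real X))

theorem NU0_q3sum (w : ℤ → ℝ) (a b : ℤ) : ∑ i, q3 w a b i = 1 := by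
  rw [Fin.sum_univ_three]
  show (1 - qm w a b - qm w (-a) (-b)) + qm w a b + qm w (-a) (-b) = 1
  ring

theorem NU0_q3 (w : ℤ → ℝ) (hw : WOk w) (h1 : w 0 ≤ 2 * w 1) (a b : ℤ) (i : Fin 3) :
    0 ≤ q3 w a b i ∧ q3 w a b i ≤ 1 := by
  have h0 : ∀ i, 0 ≤ q3 w a b i := by
    intro i
    fin_cases i
    · show 0 ≤ 1 - qm w a b - qm w (-a) (-b)
      have := qm_sum w hw h1 a b
      linarith
    · exact (qm_bd w hw a b).1
    · exact (qm_bd w hw (-a) (-b)).1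
  refine ⟨h0 i, ?_⟩
  rw [← NU0_q3sum w a b]
  exact Finset.single_le_sum (f := q3 w a b) (fun j _ => h0 j) (Finset.mem_univ i)

theorem NU0_prod (w : ℤ → ℝ) (hw : WOk w) (h1 : w 0 ≤ 2 * w 1) (F : Finset (Vx 2 × Fin 3))
    (ξ : Vx 2 × Fin 3 → Fin 3) (h : Vx 2 × Bool → ℤ) :
    0 ≤ ∏ e ∈ F, q3 w (h (HH.gr.s e)) (h (HH.gr.r e)) (ξ e) ∧
    |∏ e ∈ F, q3 w (h (HH.gr.s e)) (h (HH.gr.r e)) (ξ e)| ≤ 1 := by
  have h0 : 0 ≤ ∏ e ∈ F, q3 w (h (HH.gr.s e)) (h (HH.gr.r e)) (ξ e) :=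
    Finset.prod_nonneg (fun e _ => (NU0_q3 w hw h1 _ _ _).1)
  refine ⟨h0, ?_⟩
  rw [abs_of_nonneg h0]
  exact Finset.prod_le_one (fun e _ => (NU0_q3 w hw h1 _ _ _).1)
    (fun e _ => (NU0_q3 w hw h1 _ _ _).2)

theorem Pq_cyl (κ : ℝ) (hκ : 0 < κ) (h1 : wk κ 0 ≤ 2 * wk κ 1) (n : ℕ) : Cyl (Pq κ n) := by
  have hw := wk_ok κ hκ
  have hB := FN_Bd n
  refine ⟨?_, ?_, ?_, ?_⟩
  · intro F ξ
    unfold Pq En Eh
    refine div_nonneg (tsum_nonneg (fun h => mul_nonneg (WH_pos _ _ _ _ hw h).le ?_))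
      (tsum_nonneg (fun h => (WH_pos _ _ _ _ hw h).le))
    exact (NU0_prod (wk κ) hw h1 F ξ (ex h)).1
  · intro F ξ ξ' h
    unfold Pq
    congr 1
    funext g
    exact Finset.prod_congr rfl (fun e he => by rw [h e he])
  · intro ξ
    unfold Pq En
    simp only [Finset.prod_empty]
    exact Eh_one HH.gr (FN n) (EN n) hB (wk κ) hw 1
  · intro F ξ e he
    unfold Pq En
    rw [← Eh_sum HH.gr (FN n) (EN n) hB (wk κ) hw univ (fun a h => ∏ e' ∈ insert e F,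
      q3 (wk κ) (h (HH.gr.s e')) (h (HH.gr.r e')) (Function.update ξ e a e'))
      (fun a _ => PBd_bdd (FN n) _ 1 (fun h => (NU0_prod (wk κ) hw h1 _ _ h).2))]
    congr 1
    funext h
    have e1 : ∀ a : Fin 3, (∏ e' ∈ insert e F,
        q3 (wk κ) (h (HH.gr.s e')) (h (HH.gr.r e')) (Function.update ξ e a e')) =
        q3 (wk κ) (h (HH.gr.s e)) (h (HH.gr.r e)) a *
          ∏ e' ∈ F, q3 (wk κ) (h (HH.gr.s e')) (h (HH.gr.r e')) (ξ e') := by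
      intro a
      rw [Finset.prod_insert he, Function.update_self]
      congr 1
      refine Finset.prod_congr rfl (fun e' he' => ?_)
      rw [Function.update_of_ne (fun h' : e' = e => he (h' ▸ he'))]
    simp only [e1]
    rw [← Finset.sum_mul, NU0_q3sum, one_mul]

theorem nu0 (κ C' : ℝ) (hκ : 0 < κ) (h1 : wk κ 0 ≤ 2 * wk κ 1)
    (hM : ∀ n : ℕ, ∀ i ∈ FN n, En (wk κ) n (fun h => (h i : ℝ) ^ 2) ≤ C') :
    ∃ ν : Measure (Vx 2 × Fin 3 → Fin 3), IsProbabilityMeasure ν ∧ NuL κ ν := by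
  have hw := wk_ok κ hκ
  obtain ⟨ν, hν, hk⟩ := kol (fun n => Pq κ n) (fun n => Pq_cyl κ hκ h1 n)
  refine ⟨ν, hν, ?_⟩
  intro F X hX
  have hlim : ∀ ξ : Vx 2 × Fin 3 → Fin 3, ∃ ℓ : ℝ,
      Tendsto (fun n => Pq κ n F ξ) atTop (𝓝 ℓ) := by
    intro ξ
    obtain ⟨ℓ, hℓ, _⟩ := lih κ C' hκ hM (F.image HH.gr.s ∪ F.image HH.gr.r)
      (fun h => ∏ e ∈ F, q3 (wk κ) (h (HH.gr.s e)) (h (HH.gr.r e)) (ξ e)) (by
        intro h h' hh
        refine Finset.prod_congr rfl (fun e he => ?_)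
        rw [hh _ (Finset.mem_union_left _ (Finset.mem_image_of_mem _ he)),
          hh _ (Finset.mem_union_right _ (Finset.mem_image_of_mem _ he))])
      (fun h => (NU0_prod (wk κ) hw h1 F ξ h).2)
    exact ⟨ℓ, hℓ⟩
  choose ℓ hℓ using hlim
  have hL : Tendsto (fun n => PX (Pq κ n) F X) atTop
      (𝓝 (∑ ζ : ↥F → Fin 3, ind (gl F ζ ∈ X) * ℓ (gl F ζ))) := by
    unfold PX
    exact tendsto_finsetSum _ (fun ζ _ => (hℓ (gl F ζ)).const_mul _)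
  have hu : Tendsto (fun n => PX (Pq κ n) F X) (hyperfilter ℕ : Filter ℕ)
      (𝓝 (∑ ζ : ↥F → Fin 3, ind (gl F ζ ∈ X) * ℓ (gl F ζ))) :=
    hL.mono_left Nat.hyperfilter_le_atTop
  rw [tendsto_nhds_unique (hk F X hX) hu]
  exact hL

end H82.BX
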