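import Pool.Agent.H82.BX.NU0

/-!
# NU1: the law of `ω⁻` in the limit

For an event `X` of edge configurations depending on `F`: `PX (Pq κ n) F {η | stt 1 η ∈ X} = PM HH.gr (FN n) (EN n) (wk κ) F (ind X)`:
group the letters `ζ : F → Fin 3` by `ω = (ζ = 1)`; `q3 1 = qm`, `q3 0 + q3 2 = 1 - qm` (lemmas by helper78).
-/

set_option autoImplicit false

open Finset MeasureTheory Filter Topology

namespace H82.BX

open H82.IC XYB

section NU1gen
variable {E α : Type} [DecidableEq E] [Fintype α] [DecidableEq α] [Nonempty α]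

theorem NU1_gl (F : Finset E) (ζ : ↥F → α) (e : E) (he : e ∈ F) : gl F ζ e = ζ ⟨e, he⟩ := by
  unfold gl; rw [dif_pos he]

/-- mass of an event for independent letters with weights `q`. -/
noncomputable def NU1_Q (F : Finset E) (X : Set (E → α)) (q : E → α → ℝ) : ℝ :=
  ∑ ζ : ↥F → α, ind (gl F ζ ∈ X) * ∏ e : ↥F, q e.1 (ζ e)

theorem NU1_ind_congr {p q : Prop} (h : p ↔ q) : ind p = ind q := by
  have h' := propext h
  subst h'
  rfl

theorem NU1_ind01 (p : Prop) : 0 ≤ ind p ∧ ind p ≤ 1 := by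
  unfold ind; split_ifs <;> simp

theorem NU1_sum_one (F : Finset E) (q : E → α → ℝ) (h1 : ∀ e, ∑ a, q e a = 1) :
    ∑ ζ : ↥F → α, ∏ e : ↥F, q e.1 (ζ e) = 1 := by
  have h := Finset.prod_univ_sum (fun _ : ↥F => (Finset.univ : Finset α)) (fun e a => q e.1 a)
  rw [Fintype.piFinset_univ] at h
  rw [← h]
  simp [h1]

theorem NU1_Q_bd (F : Finset E) (X : Set (E → α)) (q : E → α → ℝ) (h0 : ∀ e a, 0 ≤ q e a)
    (h1 : ∀ e, ∑ a, q e a = 1) : 0 ≤ NU1_Q F X q ∧ NU1_Q F X q ≤ 1 := by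
  have hp : ∀ ζ : ↥F → α, 0 ≤ ∏ e : ↥F, q e.1 (ζ e) := fun ζ => Finset.prod_nonneg (fun e _ => h0 _ _)
  constructor
  · exact Finset.sum_nonneg (fun ζ _ => mul_nonneg (NU1_ind01 _).1 (hp ζ))
  · rw [← NU1_sum_one F q h1]
    refine Finset.sum_le_sum (fun ζ _ => ?_)
    exact mul_le_of_le_one_left (hp ζ) (NU1_ind01 _).2

theorem NU1_Q_congr (F : Finset E) (X : Set (E → α)) (q q' : E → α → ℝ)
    (h : ∀ e ∈ F, q e = q' e) : NU1_Q F X q = NU1_Q F X q' := by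
  refine Finset.sum_congr rfl (fun ζ _ => ?_)
  congr 1
  refine Finset.prod_congr rfl (fun e _ => ?_)
  rw [h e.1 e.2]

end NU1gen

section NU1em
variable {E : Type} [DecidableEq E]

theorem NU1_Q_stt (F : Finset E) (X : Set (E → Bool)) (q : E → Fin 3 → ℝ)
    (h1 : ∀ e, ∑ a, q e a = 1)
    (hX : ∀ ω ω' : E → Bool, (∀ e ∈ F, ω e = ω' e) → (ω ∈ X ↔ ω' ∈ X)) :
    NU1_Q F {η | stt 1 η ∈ X} q =
      ∑ ω : ↥F → Bool, (∏ e : ↥F, if ω e then q e.1 1 else 1 - q e.1 1) * ind (g0 F ω ∈ X) := by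
  have hone : ∀ (ω : ↥F → Bool) (e : ↥F), (if ω e then q e.1 1 else 1 - q e.1 1) =
      ∑ a : Fin 3, if decide (a = 1) = ω e then q e.1 a else 0 := by
    intro ω e
    have h := h1 e.1
    rw [Fin.sum_univ_three] at h ⊢
    cases hω : ω e
    · simp; linarith
    · simp
  have hexp : ∀ ω : ↥F → Bool, (∏ e : ↥F, if ω e then q e.1 1 else 1 - q e.1 1) =
      ∑ ζ : ↥F → Fin 3, ∏ e : ↥F, if decide (ζ e = 1) = ω e then q e.1 (ζ e) else 0 := by
    intro ω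
    simp only [hone]
    have h := Finset.prod_univ_sum (fun _ : ↥F => (Finset.univ : Finset (Fin 3)))
      (fun e a => if decide (a = 1) = ω e then q e.1 a else 0)
    rw [Fintype.piFinset_univ] at h
    exact h
  simp only [hexp]
  simp only [Finset.sum_mul]
  rw [Finset.sum_comm]
  unfold NU1_Q
  refine Finset.sum_congr rfl (fun ζ _ => ?_)
  rw [Finset.sum_eq_single (fun e => decide (ζ e = 1))]
  · simp only [if_true]
    rw [mul_comm]
    congr 1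
    refine NU1_ind_congr ?_
    rw [Set.mem_ofPred_eq]
    refine hX _ _ (fun e he => ?_)
    unfold stt g0
    rw [NU1_gl _ _ _ he, dif_pos he]
  · intro ω _ hω
    have : ∃ e, ¬ decide (ζ e = 1) = ω e := by
      by_contra hcon
      push Not at hcon
      exact hω (funext (fun e => (hcon e).symm))
    obtain ⟨e, he⟩ := this
    rw [Finset.prod_eq_zero (Finset.mem_univ e) (by rw [if_neg he]), zero_mul]
  · intro h
    exact absurd (Finset.mem_univ _) h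

end NU1em

/-- letters of the edges given the heights. -/
noncomputable def NU1_q (κ : ℝ) (h : Vx 2 × Bool → ℤ) (e : Vx 2 × Fin 3) : Fin 3 → ℝ :=
  q3 (wk κ) (h (HH.gr.s e)) (h (HH.gr.r e))

theorem NU1_q3_sum (w : ℤ → ℝ) (a b : ℤ) : ∑ c, q3 w a b c = 1 := by
  rw [Fin.sum_univ_three]; simp [q3]; ring

theorem NU1_q3_nonneg (w : ℤ → ℝ) (hw : WOk w) (h1 : w 0 ≤ 2 * w 1) (a b : ℤ) (c : Fin 3) :
    0 ≤ q3 w a b c := by
  have h2 := qm_sum w hw h1 a b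
  have h3 := (qm_bd w hw a b).1
  have h4 := (qm_bd w hw (-a) (-b)).1
  fin_cases c
  · simp [q3]; linarith
  · simpa [q3] using h3
  · simpa [q3] using h4

theorem nu_pm (κ : ℝ) (hκ : 0 < κ) (h1 : wk κ 0 ≤ 2 * wk κ 1)
    (ν : Measure (Vx 2 × Fin 3 → Fin 3)) (hν : NuL κ ν)
    (F : Finset (Vx 2 × Fin 3)) (X : Set (Vx 2 × Fin 3 → Bool))
    (hX : ∀ ω ω' : Vx 2 × Fin 3 → Bool, (∀ e ∈ F, ω e = ω' e) → (ω ∈ X ↔ ω' ∈ X)) :
    Tendsto (fun n => PM HH.gr (FN n) (EN n) (wk κ) F (fun o => ind (o ∈ X))) atTop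
      (𝓝 (ν.real {η | stt 1 η ∈ X})) := by
  have hw : WOk (wk κ) := wk_ok κ hκ
  have hq0 : ∀ h e a, 0 ≤ NU1_q κ h e a := fun h e a => NU1_q3_nonneg _ hw h1 _ _ _
  have hq1 : ∀ h e, ∑ a, NU1_q κ h e a = 1 := fun h e => NU1_q3_sum _ _ _
  have hle1 : ∀ h e a, NU1_q κ h e a ≤ 1 := by
    intro h e a
    rw [← hq1 h e]
    exact Finset.single_le_sum (f := fun a => NU1_q κ h e a) (fun b _ => hq0 h e b) (Finset.mem_univ a)
  have hPX : ∀ (n : ℕ) (F : Finset (Vx 2 × Fin 3)) (X : Set (Vx 2 × Fin 3 → Fin 3)),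
      PX (Pq κ n) F X = En (wk κ) n (fun h => NU1_Q F X (NU1_q κ h)) := by
    intro n F X
    unfold PX
    have h2 : ∀ ζ : ↥F → Fin 3, ind (gl F ζ ∈ X) * Pq κ n F (gl F ζ) =
        Eh HH.gr (FN n) (EN n) (wk κ) (fun h => ind (gl F ζ ∈ X) * ∏ e : ↥F, NU1_q κ h e.1 (ζ e)) := by
      intro ζ
      rw [Eh_smul]
      congr 1
      unfold Pq En
      congr 1
      funext h
      rw [← Finset.prod_coe_sort]
      refine Finset.prod_congr rfl (fun e _ => ?_)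
      rw [NU1_gl _ _ _ e.2]
      rfl
    simp only [h2]
    rw [← Eh_sum HH.gr (FN n) (EN n) (FN_Bd n) (wk κ) hw Finset.univ]
    · rfl
    · intro ζ _
      refine PBd_bdd _ _ 1 (fun h => ?_)
      have h3 : 0 ≤ ∏ e : ↥F, NU1_q κ h e.1 (ζ e) := Finset.prod_nonneg (fun e _ => hq0 _ _ _)
      have h4 : ∏ e : ↥F, NU1_q κ h e.1 (ζ e) ≤ 1 :=
        Finset.prod_le_one (fun e _ => hq0 _ _ _) (fun e _ => hle1 _ _ _)
      rw [abs_of_nonneg (mul_nonneg (NU1_ind01 _).1 h3)]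
      exact mul_le_one₀ (NU1_ind01 _).2 h3 h4
  have hdep : ∀ η η' : Vx 2 × Fin 3 → Fin 3, (∀ e ∈ F, η e = η' e) →
      (η ∈ {η : Vx 2 × Fin 3 → Fin 3 | stt 1 η ∈ X} ↔ η' ∈ {η | stt 1 η ∈ X}) := by
    intro η η' h
    rw [Set.mem_ofPred_eq, Set.mem_ofPred_eq]
    refine hX _ _ (fun e he => ?_)
    unfold stt
    rw [h e he]
  have h3 := hν F {η | stt 1 η ∈ X} hdep
  refine h3.congr (fun n => ?_)
  rw [hPX]
  unfold PM En
  congr 1
  funext h
  rw [NU1_Q_stt F X (NU1_q κ h) (hq1 h) hX]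
  rfl

end H82.BX
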