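import Pool.Agent.H82.BX.NU1
import Pool.Agent.H82.BX.HS5
import Pool.Agent.H82.BX.BE2
import Pool.Agent.H82.BX.POI

/-!
# NU3: insertion tolerance and association of the limit law of `ω⁻`

All cylinder probabilities are limits of `PM HH.gr (FN n) (EN n) (wk κ) F (ind X)` (`nu_pm`); `(ν.map (stt 1)).real X = ν.real {η | stt 1 η ∈ X}` (`stt 1` is measurable).
* `nu_ins`: `insc_inse` (it suffices to have the approximate insertion tolerance for cylinder events); `hs_ins` with `T` = the edges touching an end of `e` (`HH.gr` has degree `3`: at most `5` edges, `D = 5`), `Nr` = all their ends (at most `10`), and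
  `R` with `10 C'/R² ≤ ε` (the vertices of `Nr` outside `FN n` have height `0`, so the second moment is `0`; the others by `hM`; `0 ≤ C'`); `F` is enlarged to contain `e` (`X` and `{opP e ω ∈ X}` both depend on `insert e F`).
  `wk κ 1 < wk κ 0` by `bI_one_lt`.
* `nu_fkg`: `pm_fkg` (both events depend on `F1 ∪ F2`), limit.
-/

set_option autoImplicit false

open Finset MeasureTheory Filter Topology

namespace H82.BX

open H82.IC XYB

theorem NU3_smeas {E : Type} : Measurable (stt (E := E) 1) := by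
  rw [measurable_pi_iff]
  intro e
  have h1 : (fun η : E → Fin 3 => stt 1 η e) = (fun a : Fin 3 => decide (a = 1)) ∘ (fun η => η e) := rfl
  rw [h1]
  exact (measurable_of_finite _).comp (measurable_pi_apply e)

theorem NU3_map (ν : Measure (Vx 2 × Fin 3 → Fin 3)) (X : Set (Vx 2 × Fin 3 → Bool)) (hX : Lc X) :
    (ν.map (stt 1)).real X = ν.real {η | stt 1 η ∈ X} := by
  rw [Measure.real, Measure.map_apply NU3_smeas (lc_meas hX)]
  rfl

/-- the edges touching a vertex. -/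
noncomputable def NU3_t (v : Vx 2 × Bool) : Finset (Vx 2 × Fin 3) :=
  match v with
  | (x, false) => {(x, 0), (x + Pi.single 0 1, 1), (x, 2)}
  | (x, true) => {(x + Pi.single 1 1, 0), (x, 1), (x, 2)}

theorem NU3_t_card (v : Vx 2 × Bool) : (NU3_t v).card ≤ 3 := by
  obtain ⟨x, b⟩ := v
  cases b
  · exact Finset.card_le_three
  · exact Finset.card_le_three

theorem NU3_t_mem (f : Vx 2 × Fin 3) (v : Vx 2 × Bool) (h : HH.gr.s f = v ∨ HH.gr.r f = v) :
    f ∈ NU3_t v := by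
  obtain ⟨x, k⟩ := f
  fin_cases k
  · rcases h with h | h
    · have h1 : v = (x, false) := by rw [← h]; simp [PG.gr, HH]
      rw [h1]; simp [NU3_t]
    · have h1 : v = (x - Pi.single 1 1, true) := by rw [← h]; simp [PG.gr, HH, sub_eq_add_neg]
      rw [h1]; simp [NU3_t]
  · rcases h with h | h
    · have h1 : v = (x - Pi.single 0 1, false) := by rw [← h]; simp [PG.gr, HH, sub_eq_add_neg]
      rw [h1]; simp [NU3_t]
    · have h1 : v = (x, true) := by rw [← h]; simp [PG.gr, HH]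
      rw [h1]; simp [NU3_t]
  · rcases h with h | h
    · have h1 : v = (x, true) := by rw [← h]; simp [PG.gr, HH]
      rw [h1]; simp [NU3_t]
    · have h1 : v = (x, false) := by rw [← h]; simp [PG.gr, HH]
      rw [h1]; simp [NU3_t]

theorem NU3_ind (p : Prop) : 0 ≤ ind p ∧ ind p ≤ 1 := by
  unfold ind
  split_ifs <;> norm_num

theorem NU3_wlt (κ : ℝ) (hκ : 0 < κ) : wk κ 1 < wk κ 0 := by
  have h1 := bI_one_lt κ hκ.le
  have h3 : 0 ≤ bI κ 1 := bI_nonneg κ hκ.le 1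
  unfold wk
  exact pow_lt_pow_left₀ h1 h3 (by norm_num)

theorem NU3_out (κ : ℝ) (n : ℕ) (v : Vx 2 × Bool) (hv : v ∉ FN n) :
    En (wk κ) n (fun h => (h v : ℝ) ^ 2) = 0 := by
  unfold En Eh
  have h1 : ∀ h : ↥(FN n) → ℤ, ex h v = 0 := by
    intro h
    simp [ex, hv]
  simp [h1]

theorem nu_ins (κ C' : ℝ) (hκ : 0 < κ) (h1 : wk κ 0 ≤ 2 * wk κ 1)
    (hM : ∀ n : ℕ, ∀ i ∈ FN n, En (wk κ) n (fun h => (h i : ℝ) ^ 2) ≤ C')
    (ν : Measure (Vx 2 × Fin 3 → Fin 3)) [IsProbabilityMeasure ν] (hν : NuL κ ν) :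
    INSe (ν.map (stt 1)) := by
  classical
  have : IsProbabilityMeasure (ν.map (stt 1)) :=
    Measure.isProbabilityMeasure_map NU3_smeas.aemeasurable
  apply insc_inse
  intro ε hε
  obtain ⟨R, hR⟩ : ∃ R : ℕ, 12 * max C' 0 / ε + 1 ≤ R := exists_nat_ge _
  have hC0 : 0 ≤ max C' 0 := le_max_right _ _
  have hR1 : (1 : ℝ) ≤ R := by
    have : 0 ≤ 12 * max C' 0 / ε := by positivity
    linarith
  have hR0 : 0 < R := by
    have : (0 : ℝ) < R := by linarith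
    exact_mod_cast this
  have hR2 : 12 * max C' 0 / (R : ℝ) ^ 2 ≤ ε := by
    rw [div_le_iff₀ (by positivity)]
    have h2 : 12 * max C' 0 / ε ≤ R := by linarith
    rw [div_le_iff₀ hε] at h2
    nlinarith [mul_nonneg hε.le (sub_nonneg.2 hR1)]
  obtain ⟨C, hC, H⟩ := hs_ins (wk κ) (wk_ok κ hκ) (NU3_wlt κ hκ) R hR0 6
  refine ⟨C, hC, ?_⟩
  rintro e X ⟨F0, hF0⟩
  have hX : ∀ ω ω' : Vx 2 × Fin 3 → Bool, (∀ f ∈ insert e F0, ω f = ω' f) → (ω ∈ X ↔ ω' ∈ X) :=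
    fun ω ω' h => hF0 ω ω' (fun f hf => h f (mem_insert_of_mem hf))
  have hX' : ∀ ω ω' : Vx 2 × Fin 3 → Bool, (∀ f ∈ insert e F0, ω f = ω' f) →
      (ω ∈ {ω | opP e ω ∈ X} ↔ ω' ∈ {ω | opP e ω ∈ X}) := by
    intro ω ω' h
    refine hX _ _ (fun f hf => ?_)
    unfold opP
    by_cases hfe : f = e
    · subst hfe; simp
    · simp [Function.update, hfe, h f hf]
  have l1 := nu_pm κ hκ h1 ν hν (insert e F0) {ω | opP e ω ∈ X} hX'
  have l2 := nu_pm κ hκ h1 ν hν (insert e F0) X hX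
  rw [NU3_map ν X ⟨_, hX⟩, NU3_map ν {ω | opP e ω ∈ X} ⟨_, hX'⟩]
  refine le_of_tendsto_of_tendsto' l1 ((l2.const_mul C).add_const ε) (fun n => ?_)
  have hT : (NU3_t (HH.gr.s e) ∪ NU3_t (HH.gr.r e)).card ≤ 6 := by
    refine (card_union_le _ _).trans ?_
    have := NU3_t_card (HH.gr.s e)
    have := NU3_t_card (HH.gr.r e)
    omega
  set T := NU3_t (HH.gr.s e) ∪ NU3_t (HH.gr.r e) with hTd
  have hNc : (T.image HH.gr.s ∪ T.image HH.gr.r).card ≤ 12 := by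
    refine (card_union_le _ _).trans ?_
    have := card_image_le (s := T) (f := HH.gr.s)
    have := card_image_le (s := T) (f := HH.gr.r)
    omega
  have h3 := H _ _ HH.gr (FN n) (EN n) (FN_Bd n) (insert e F0) T
    (T.image HH.gr.s ∪ T.image HH.gr.r) e (mem_insert_self _ _) hT
    (by
      intro f _ hf
      rw [hTd, mem_union]
      rcases hf with hf | hf | hf | hf
      · exact Or.inl (NU3_t_mem f _ (Or.inl hf))
      · exact Or.inr (NU3_t_mem f _ (Or.inl hf))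
      · exact Or.inl (NU3_t_mem f _ (Or.inr hf))
      · exact Or.inr (NU3_t_mem f _ (Or.inr hf)))
    (by
      intro f hf
      exact ⟨mem_union_left _ (mem_image_of_mem _ hf), mem_union_right _ (mem_image_of_mem _ hf)⟩)
    (fun o => ind (o ∈ X)) (fun o => (NU3_ind _).1) (fun o => (NU3_ind _).2)
  refine h3.trans ?_
  have h4 : ∑ v ∈ T.image HH.gr.s ∪ T.image HH.gr.r,
      Eh HH.gr (FN n) (EN n) (wk κ) (fun h => (h v : ℝ) ^ 2) ≤ 12 * max C' 0 := by
    calc ∑ v ∈ T.image HH.gr.s ∪ T.image HH.gr.r,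
        Eh HH.gr (FN n) (EN n) (wk κ) (fun h => (h v : ℝ) ^ 2)
        ≤ ∑ v ∈ T.image HH.gr.s ∪ T.image HH.gr.r, max C' 0 := by
          refine sum_le_sum (fun v _ => ?_)
          by_cases hv : v ∈ FN n
          · exact (hM n v hv).trans (le_max_left _ _)
          · exact (NU3_out κ n v hv).le.trans hC0
      _ = ((T.image HH.gr.s ∪ T.image HH.gr.r).card : ℝ) * max C' 0 := by
          rw [sum_const, nsmul_eq_mul]
      _ ≤ 12 * max C' 0 := by
          apply mul_le_mul_of_nonneg_right _ hC0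
          exact_mod_cast hNc
  have h5 : (∑ v ∈ T.image HH.gr.s ∪ T.image HH.gr.r,
      Eh HH.gr (FN n) (EN n) (wk κ) (fun h => (h v : ℝ) ^ 2)) / (R : ℝ) ^ 2 ≤ ε := by
    refine le_trans ?_ hR2
    gcongr
  exact add_le_add le_rfl h5

theorem NU3_mono (X : Set (Vx 2 × Fin 3 → Bool)) (hX : Inc1 X) :
    Monotone (fun o : Vx 2 × Fin 3 → Bool => ind (o ∈ X)) := by
  intro o o' h
  have h1 : o ∈ X → o' ∈ X := by
    apply hX
    intro e he
    have := h e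
    rw [he] at this
    exact Bool.eq_true_of_true_le this
  show ind (o ∈ X) ≤ ind (o' ∈ X)
  unfold ind
  by_cases hx : o ∈ X
  · rw [if_pos hx, if_pos (h1 hx)]
  · rw [if_neg hx]
    split_ifs <;> norm_num

theorem nu_fkg (κ : ℝ) (hκ : 0 < κ) (h1 : wk κ 0 ≤ 2 * wk κ 1)
    (ν : Measure (Vx 2 × Fin 3 → Fin 3)) [IsProbabilityMeasure ν] (hν : NuL κ ν)
    (X Y : Set (Vx 2 × Fin 3 → Bool)) (hX : Lc X) (hY : Lc Y) (hX' : Inc1 X) (hY' : Inc1 Y) :
    (ν.map (stt 1)).real X * (ν.map (stt 1)).real Y ≤ (ν.map (stt 1)).real (X ∩ Y) := by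
  classical
  rw [NU3_map ν X hX, NU3_map ν Y hY, NU3_map ν (X ∩ Y) (lc_inter hX hY)]
  obtain ⟨F1, hF1⟩ := hX
  obtain ⟨F2, hF2⟩ := hY
  have a1 : ∀ ω ω' : Vx 2 × Fin 3 → Bool, (∀ f ∈ F1 ∪ F2, ω f = ω' f) → (ω ∈ X ↔ ω' ∈ X) :=
    fun ω ω' h => hF1 ω ω' (fun f hf => h f (mem_union_left _ hf))
  have a2 : ∀ ω ω' : Vx 2 × Fin 3 → Bool, (∀ f ∈ F1 ∪ F2, ω f = ω' f) → (ω ∈ Y ↔ ω' ∈ Y) :=
    fun ω ω' h => hF2 ω ω' (fun f hf => h f (mem_union_right _ hf))
  have a3 : ∀ ω ω' : Vx 2 × Fin 3 → Bool, (∀ f ∈ F1 ∪ F2, ω f = ω' f) →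
      (ω ∈ X ∩ Y ↔ ω' ∈ X ∩ Y) := fun ω ω' h => and_congr (a1 ω ω' h) (a2 ω ω' h)
  have l1 := nu_pm κ hκ h1 ν hν (F1 ∪ F2) X a1
  have l2 := nu_pm κ hκ h1 ν hν (F1 ∪ F2) Y a2
  have l3 := nu_pm κ hκ h1 ν hν (F1 ∪ F2) (X ∩ Y) a3
  refine le_of_tendsto_of_tendsto' (l1.mul l2) l3 (fun n => ?_)
  refine (pm_fkg HH.gr (FN n) (EN n) (FN_Bd n) (wk κ) (wk_ok κ hκ) (F1 ∪ F2) _ _
    (NU3_mono X hX') (NU3_mono Y hY')).trans (le_of_eq ?_)
  congr 1
  funext o
  show ind (o ∈ X) * ind (o ∈ Y) = ind (o ∈ X ∩ Y)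
  unfold ind
  by_cases hx : o ∈ X <;> by_cases hy : o ∈ Y <;> simp [hx, hy]

end H82.BX
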