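import Pool.Agent.H82.BX.Defs

/-!
# OS1: conditional expectations over finite products

`cs A x g` depends on `x` only through its values on `A`.  Everything follows from
`cs A x g = ∑_c cs (insert i A) (update x i c) g` for `i ∉ A` (split according to the value `y i = c`), and from the
exchange `∑_x m x φ(x) = ∑_x (m x / cs A x m) cs A x (m φ)` (for each `x` group the `y` equal to `x` on `A`; the relation
`equal on A` is symmetric and `cs A x m = cs A y m` for related `x y`).
Jensen (`os_jensen`): `ce f B x - ce f A x` is the conditional expectation given `B` of `ce f C - ce f A` when `A ⊆ B ⊆ C`.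
`os_infl`: `|F c - F c'| ≤ |F c - F̄| + |F c' - F̄|` with `F̄ = ce m f A x`.
-/

set_option autoImplicit false

open Finset MeasureTheory

namespace H82.BX

variable {I : Type} [Fintype I] [DecidableEq I] {X : I → Type} [∀ i, Fintype (X i)]
  [∀ i, LinearOrder (X i)]

theorem os1_cond (A : Finset I) (x y : ∀ i, X i) (i : I) (hi : i ∉ A) (c : X i) :
    (∀ j ∈ insert i A, y j = Function.update x i c j) ↔ (y i = c ∧ ∀ j ∈ A, y j = x j) := by
  constructor
  · intro h
    refine ⟨?_, fun j hj => ?_⟩
    · have h1 := h i (Finset.mem_insert_self i A)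
      rwa [Function.update_self] at h1
    · have h1 := h j (Finset.mem_insert_of_mem hj)
      rwa [Function.update_of_ne (fun e : j = i => hi (e ▸ hj))] at h1
  · rintro ⟨h1, h2⟩ j hj
    by_cases e : j = i
    · subst e
      rw [Function.update_self]
      exact h1
    · rw [Function.update_of_ne e]
      exact h2 j ((Finset.mem_insert.1 hj).resolve_left e)

theorem cs_congr (A : Finset I) (x y : ∀ i, X i) (h : ∀ i ∈ A, x i = y i) (g : (∀ i, X i) → ℝ) :
    cs A x g = cs A y g := by
  unfold cs
  refine Finset.sum_congr rfl fun z _ => if_congr ?_ rfl rfl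
  constructor
  · intro hz j hj
    rw [hz j hj, h j hj]
  · intro hz j hj
    rw [hz j hj, h j hj]

theorem ce_congr (m f : (∀ i, X i) → ℝ) (A : Finset I) (x y : ∀ i, X i) (h : ∀ i ∈ A, x i = y i) :
    ce m f A x = ce m f A y := by
  unfold ce
  rw [cs_congr A x y h, cs_congr A x y h]

theorem cs_pos (m : (∀ i, X i) → ℝ) (hm : ∀ x, 0 < m x) (A : Finset I) (x : ∀ i, X i) :
    0 < cs A x m := by
  unfold cs
  refine Finset.sum_pos' (fun y _ => ?_) ⟨x, Finset.mem_univ x, ?_⟩
  · split_ifs
    · exact (hm y).le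
    · exact le_rfl
  · rw [if_pos (fun _ _ => rfl)]
    exact hm x

theorem cs_split (A : Finset I) (x : ∀ i, X i) (i : I) (hi : i ∉ A) (g : (∀ i, X i) → ℝ) :
    cs A x g = ∑ c, cs (insert i A) (Function.update x i c) g := by
  unfold cs
  rw [Finset.sum_comm]
  refine Finset.sum_congr rfl fun y _ => ?_
  have h1 : ∀ c : X i, (if (∀ j ∈ insert i A, y j = Function.update x i c j) then g y else 0) =
      if y i = c then (if (∀ j ∈ A, y j = x j) then g y else 0) else 0 := by
    intro c
    have h2 := os1_cond A x y i hi c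
    by_cases ha : y i = c
    · rw [if_pos ha]
      exact if_congr (h2.trans (and_iff_right ha)) rfl rfl
    · rw [if_neg ha, if_neg (fun h => ha (h2.1 h).1)]
  rw [Finset.sum_congr rfl (fun c _ => h1 c), Finset.sum_ite_eq]
  simp

theorem cp_nonneg (m : (∀ i, X i) → ℝ) (hm : ∀ x, 0 < m x) (A : Finset I) (x : ∀ i, X i) (i : I)
    (c : X i) : 0 ≤ cp m A x i c := by
  exact div_nonneg (cs_pos m hm _ _).le (cs_pos m hm _ _).le

theorem cp_sum (m : (∀ i, X i) → ℝ) (hm : ∀ x, 0 < m x) (A : Finset I) (x : ∀ i, X i) (i : I)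
    (hi : i ∉ A) : ∑ c, cp m A x i c = 1 := by
  unfold cp
  rw [← Finset.sum_div, ← cs_split A x i hi m]
  exact div_self (cs_pos m hm A x).ne'

theorem ce_step (m f : (∀ i, X i) → ℝ) (hm : ∀ x, 0 < m x) (A : Finset I) (x : ∀ i, X i) (i : I)
    (hi : i ∉ A) :
    ∑ c, cp m A x i c * ce m f (insert i A) (Function.update x i c) = ce m f A x := by
  have h1 : ∀ c : X i, cp m A x i c * ce m f (insert i A) (Function.update x i c) =
      cs (insert i A) (Function.update x i c) (fun y => m y * f y) / cs A x m := by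
    intro c
    unfold cp ce
    have h2 := (cs_pos m hm (insert i A) (Function.update x i c)).ne'
    have h3 := (cs_pos m hm A x).ne'
    field_simp
  rw [Finset.sum_congr rfl (fun c _ => h1 c), ← Finset.sum_div, ← cs_split A x i hi]
  rfl

/-- probability of `{z i ∈ s}` given `A`. -/
theorem cp_event (m : (∀ i, X i) → ℝ) (hm : ∀ x, 0 < m x) (A : Finset I) (x : ∀ i, X i) (i : I)
    (hi : i ∉ A) (s : Finset (X i)) :
    ∑ c ∈ s, cp m A x i c = ce m (fun z => if z i ∈ s then 1 else 0) A x := by
  unfold ce
  rw [cs_split A x i hi (fun y => m y * if y i ∈ s then 1 else 0)]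
  have h1 : ∀ c : X i, cs (insert i A) (Function.update x i c)
      (fun y => m y * if y i ∈ s then 1 else 0) =
      if c ∈ s then cs (insert i A) (Function.update x i c) m else 0 := by
    intro c
    have h2 : ∀ y : (∀ i, X i), (∀ j ∈ insert i A, y j = Function.update x i c j) → y i = c := by
      intro y hy
      exact ((os1_cond A x y i hi c).1 hy).1
    unfold cs
    by_cases hc : c ∈ s
    · rw [if_pos hc]
      refine Finset.sum_congr rfl fun y _ => ?_
      by_cases ha : ∀ j ∈ insert i A, y j = Function.update x i c j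
      · rw [if_pos ha, if_pos ha]
        show m y * (if y i ∈ s then (1 : ℝ) else 0) = m y
        have h3 := h2 y ha
        rw [if_pos (by rw [h3]; exact hc), mul_one]
      · rw [if_neg ha, if_neg ha]
    · rw [if_neg hc]
      refine Finset.sum_eq_zero fun y _ => ?_
      by_cases ha : ∀ j ∈ insert i A, y j = Function.update x i c j
      · rw [if_pos ha]
        show m y * (if y i ∈ s then (1 : ℝ) else 0) = 0
        have h3 := h2 y ha
        rw [if_neg (by rw [h3]; exact hc), mul_zero]
      · rw [if_neg ha]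
  rw [Finset.sum_congr rfl (fun c _ => h1 c), Finset.sum_ite_mem, Finset.univ_inter,
    Finset.sum_div]
  rfl

theorem ce_nonneg (m f : (∀ i, X i) → ℝ) (hm : ∀ x, 0 < m x) (hf : ∀ x, 0 ≤ f x) (A : Finset I)
    (x : ∀ i, X i) : 0 ≤ ce m f A x := by
  refine div_nonneg (Finset.sum_nonneg fun y _ => ?_) (cs_pos m hm A x).le
  split_ifs
  · exact mul_nonneg (hm y).le (hf y)
  · exact le_rfl

theorem ce_le_one (m f : (∀ i, X i) → ℝ) (hm : ∀ x, 0 < m x) (hf : ∀ x, f x ≤ 1) (A : Finset I)
    (x : ∀ i, X i) : ce m f A x ≤ 1 := by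
  unfold ce
  rw [div_le_one (cs_pos m hm A x)]
  refine Finset.sum_le_sum fun y _ => ?_
  split_ifs
  · have h1 := mul_le_mul_of_nonneg_left (hf y) (hm y).le
    rw [mul_one] at h1
    exact h1
  · exact le_rfl

/-- if `f` is constant on the configurations equal to `x` on `A`. -/
theorem ce_const (m f : (∀ i, X i) → ℝ) (hm : ∀ x, 0 < m x) (A : Finset I) (x : ∀ i, X i)
    (h : ∀ y, (∀ i ∈ A, y i = x i) → f y = f x) : ce m f A x = f x := by
  unfold ce
  rw [div_eq_iff (cs_pos m hm A x).ne']
  unfold cs
  rw [Finset.mul_sum]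
  refine Finset.sum_congr rfl fun y _ => ?_
  split_ifs with ha
  · show m y * f y = f x * m y
    rw [h y ha, mul_comm]
  · rw [mul_zero]

/-- averaging: `φ` depends only on the coordinates in `A`. -/
theorem ce_avg (m f φ : (∀ i, X i) → ℝ) (hm : ∀ x, 0 < m x) (A : Finset I)
    (hφ : ∀ x y, (∀ i ∈ A, x i = y i) → φ x = φ y) :
    ∑ x, m x * (f x * φ x) = ∑ x, m x * (ce m f A x * φ x) := by
  have h1 : ∀ x, m x * (ce m f A x * φ x) =
      ∑ y, (if (∀ i ∈ A, y i = x i) then m y * f y * (m x * (φ y / cs A y m)) else 0) := by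
    intro x
    have h0 : m x * (ce m f A x * φ x) = cs A x (fun y => m y * f y) * (m x * (φ x / cs A x m)) := by
      unfold ce
      ring
    rw [h0]
    unfold cs
    rw [Finset.sum_mul]
    refine Finset.sum_congr rfl fun y _ => ?_
    by_cases ha : ∀ i ∈ A, y i = x i
    · rw [if_pos ha, if_pos ha]
      have h2 := cs_congr A y x ha m
      unfold cs at h2
      rw [hφ y x ha, h2]
    · rw [if_neg ha, if_neg ha, zero_mul]
  rw [Finset.sum_congr rfl (fun x _ => h1 x), Finset.sum_comm]
  refine Finset.sum_congr rfl fun y _ => ?_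
  have h3 : ∀ K : ℝ, ∑ x, (if (∀ i ∈ A, y i = x i) then m y * f y * (m x * (φ y / K)) else 0) =
      m y * f y * (φ y / K) * cs A y m := by
    intro K
    unfold cs
    rw [Finset.mul_sum]
    refine Finset.sum_congr rfl fun x _ => ?_
    have h4 : (∀ i ∈ A, y i = x i) ↔ (∀ i ∈ A, x i = y i) :=
      ⟨fun h i hi => (h i hi).symm, fun h i hi => (h i hi).symm⟩
    by_cases ha : ∀ i ∈ A, x i = y i
    · rw [if_pos ha, if_pos (h4.2 ha)]
      ring
    · rw [if_neg ha, if_neg (fun h => ha (h4.1 h)), mul_zero]
  rw [h3 (cs A y m)]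
  have h5 := (cs_pos m hm A y).ne'
  field_simp

/-- one step of the chain rule in average form: `φ` depends only on the coordinates in `insert i A`. -/
theorem cp_avg (m φ : (∀ i, X i) → ℝ) (hm : ∀ x, 0 < m x) (A : Finset I) (i : I) (hi : i ∉ A)
    (hφ : ∀ x y, (∀ j ∈ insert i A, x j = y j) → φ x = φ y) :
    ∑ x, m x * φ x = ∑ x, m x * ∑ c, cp m A x i c * φ (Function.update x i c) := by
  have h1 : ∀ x, ∑ c, cp m A x i c * φ (Function.update x i c) = ce m φ A x := by
    intro x
    rw [← ce_step m φ hm A x i hi]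
    refine Finset.sum_congr rfl fun c _ => ?_
    rw [ce_const m φ hm (insert i A) (Function.update x i c) (fun y hy => hφ _ _ hy)]
  have h2 := ce_avg m φ (fun _ => 1) hm A (fun _ _ _ => rfl)
  simp only [mul_one] at h2
  rw [h2]
  refine Finset.sum_congr rfl fun x _ => ?_
  rw [h1 x]

theorem os_jensen (m f : (∀ i, X i) → ℝ) (hm : ∀ x, 0 < m x) (A B C : Finset I) (hAB : A ⊆ B)
    (hBC : B ⊆ C) :
    ∑ x, m x * |ce m f B x - ce m f A x| ≤ ∑ x, m x * |ce m f C x - ce m f A x| := by
  obtain ⟨s, hs⟩ : ∃ s : (∀ i, X i) → ℝ, s = fun x => if 0 ≤ ce m f B x - ce m f A x then 1 else -1 :=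
    ⟨_, rfl⟩
  have hsB : ∀ x y : (∀ i, X i), (∀ i ∈ B, x i = y i) → s x = s y := by
    intro x y h
    rw [hs]
    show (if 0 ≤ ce m f B x - ce m f A x then (1 : ℝ) else -1) = _
    rw [ce_congr m f B x y h, ce_congr m f A x y (fun i hi => h i (hAB hi))]
  have h1 := ce_avg m f s hm B hsB
  have h2 := ce_avg m f s hm C (fun x y h => hsB x y (fun i hi => h i (hBC hi)))
  have h3 : ∀ x, |ce m f B x - ce m f A x| = (ce m f B x - ce m f A x) * s x := by
    intro x
    rw [hs]
    show _ = _ * (if 0 ≤ ce m f B x - ce m f A x then (1 : ℝ) else -1)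
    split_ifs with h
    · rw [abs_of_nonneg h, mul_one]
    · rw [abs_of_neg (lt_of_not_ge h)]
      ring
  have h4 : ∀ x, (ce m f C x - ce m f A x) * s x ≤ |ce m f C x - ce m f A x| := by
    intro x
    rw [hs]
    show _ * (if 0 ≤ ce m f B x - ce m f A x then (1 : ℝ) else -1) ≤ _
    split_ifs with h
    · rw [mul_one]
      exact le_abs_self _
    · rw [mul_neg, mul_one]
      exact neg_le_abs _
  have h5 : ∑ x, m x * |ce m f B x - ce m f A x| =
      ∑ x, m x * ((ce m f C x - ce m f A x) * s x) := by
    have h6 : ∀ D : Finset I, ∑ x, m x * ((ce m f D x - ce m f A x) * s x) =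
        ∑ x, m x * (ce m f D x * s x) - ∑ x, m x * (ce m f A x * s x) := by
      intro D
      rw [← Finset.sum_sub_distrib]
      refine Finset.sum_congr rfl fun x _ => ?_
      ring
    rw [Finset.sum_congr rfl (fun x _ => congrArg (fun t => m x * t) (h3 x)), h6 B, h6 C, ← h1, ← h2]
  rw [h5]
  exact Finset.sum_le_sum fun x _ => mul_le_mul_of_nonneg_left (h4 x) (hm x).le

theorem os_infl (m f : (∀ i, X i) → ℝ) (hm : ∀ x, 0 < m x) (A : Finset I) (i : I) (hi : i ∉ A) :
    ∑ x, m x * infl m f A x i ≤ 2 * ∑ x, m x * |ce m f (insert i A) x - ce m f A x| := by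
  obtain ⟨φ, hφ⟩ : ∃ φ : (∀ i, X i) → ℝ, φ = fun x => |ce m f (insert i A) x - ce m f A x| :=
    ⟨_, rfl⟩
  have h1 : ∀ x y : (∀ i, X i), (∀ j ∈ insert i A, x j = y j) → φ x = φ y := by
    intro x y h
    rw [hφ]
    show |ce m f (insert i A) x - ce m f A x| = |ce m f (insert i A) y - ce m f A y|
    rw [ce_congr m f (insert i A) x y h,
      ce_congr m f A x y (fun j hj => h j (Finset.mem_insert_of_mem hj))]
  have h2 := cp_avg m φ hm A i hi h1
  have h3 : ∀ x, infl m f A x i ≤ 2 * ∑ c, cp m A x i c * φ (Function.update x i c) := by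
    intro x
    have hb : ∀ c : X i, ce m f A (Function.update x i c) = ce m f A x := by
      intro c
      refine ce_congr m f A _ _ fun j hj => ?_
      rw [Function.update_of_ne (fun h : j = i => hi (h ▸ hj))]
    have hF : ∀ c : X i, φ (Function.update x i c) =
        |ce m f (insert i A) (Function.update x i c) - ce m f A x| := by
      intro c
      rw [hφ]
      show |ce m f (insert i A) (Function.update x i c) - ce m f A (Function.update x i c)| = _
      rw [hb c]
    have hp := cp_sum m hm A x i hi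
    have h4 : infl m f A x i ≤ ∑ c, ∑ c', (cp m A x i c * cp m A x i c' * φ (Function.update x i c) +
        cp m A x i c * cp m A x i c' * φ (Function.update x i c')) := by
      unfold infl
      refine Finset.sum_le_sum fun c _ => Finset.sum_le_sum fun c' _ => ?_
      rw [← mul_add]
      refine mul_le_mul_of_nonneg_left ?_
        (mul_nonneg (cp_nonneg m hm A x i c) (cp_nonneg m hm A x i c'))
      rw [hF c, hF c']
      have h6 := abs_sub_le (ce m f (insert i A) (Function.update x i c)) (ce m f A x)
        (ce m f (insert i A) (Function.update x i c'))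
      rw [abs_sub_comm (ce m f A x)] at h6
      exact h6
    refine h4.trans (le_of_eq ?_)
    have h7 : ∀ c, ∑ c', (cp m A x i c * cp m A x i c' * φ (Function.update x i c) +
        cp m A x i c * cp m A x i c' * φ (Function.update x i c')) =
        cp m A x i c * φ (Function.update x i c) +
          cp m A x i c * ∑ c', cp m A x i c' * φ (Function.update x i c') := by
      intro c
      rw [Finset.sum_add_distrib]
      congr 1
      · have h8 : ∀ c', cp m A x i c * cp m A x i c' * φ (Function.update x i c) =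
            cp m A x i c' * (cp m A x i c * φ (Function.update x i c)) := by
          intro c'
          ring
        rw [Finset.sum_congr rfl (fun c' _ => h8 c'), ← Finset.sum_mul, hp, one_mul]
      · rw [Finset.mul_sum]
        refine Finset.sum_congr rfl fun c' _ => ?_
        ring
    rw [Finset.sum_congr rfl (fun c _ => h7 c), Finset.sum_add_distrib, ← Finset.sum_mul, hp]
    ring
  have h9 : ∑ x, m x * infl m f A x i ≤
      ∑ x, 2 * (m x * ∑ c, cp m A x i c * φ (Function.update x i c)) := by
    refine Finset.sum_le_sum fun x _ => ?_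
    have := mul_le_mul_of_nonneg_left (h3 x) (hm x).le
    linarith
  refine h9.trans (le_of_eq ?_)
  rw [← Finset.mul_sum, ← h2, hφ]

end H82.BX
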