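import Pool.Agent.H82.BX.OSD

/-!
# OSA: monotone comparison

Induction on `n`, all `A` with `Ad A`.  In the case `some i` (the same `i` for both, `nx` is driven by `x`): `Ad (insert i A)`.
With `q1 = qt (cp m A y1 i)`, `q2 = qt (cp m A y2 i)`: `q1 u ≤ q2 u` by `qt_mono`, because
`∑_{c' < c} cp m A y c' = 1 - ce m 1[z i ≥ c] A y` (`cp_event`, `cp_sum`) and `z ↦ 1[z i ≥ c]` is monotone (`hM`).  Hence
`update y1 i (q1 u) ≤ update y2 i (q2 u)` on `insert i A`.  Induction gives the integrand inequalities; the integrals exist by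
`qt_intble` (the integrands are functions of `(qt _ u, qt _ u)`); `∫ ce (insert i A) (update y i (q u)) = ce A y` by `qt_int` and
`ce_step`.  Base: `0 ≤ ce m f A x ≤ 1`.
-/

set_option autoImplicit false

open Finset MeasureTheory

namespace H82.BX

variable {I : Type} [Fintype I] [DecidableEq I] {X : I → Type} [∀ i, Fintype (X i)]
  [∀ i, LinearOrder (X i)] [∀ i, Nonempty (X i)]

theorem os_q (m : (∀ i, X i) → ℝ) (hm : ∀ x, 0 < m x) (Ad : Finset I → Prop)
    (hM : MonM m Ad) (A : Finset I) (hA : Ad A) (i : I) (hi : i ∉ A) (y1 y2 : ∀ i, X i)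
    (h : ∀ i ∈ A, y1 i ≤ y2 i) (u : ℝ) : qt (cp m A y1 i) u ≤ qt (cp m A y2 i) u := by
  apply qt_mono _ _ (fun c => cp_nonneg m hm A y1 i c) (fun c => cp_nonneg m hm A y2 i c)
  intro c
  have key : ∀ y, ∑ c' ∈ univ.filter (fun c' => c' < c), cp m A y i c' =
      1 - ce m (fun z => if z i ∈ univ.filter (fun c' : X i => ¬ c' < c) then 1 else 0) A y := by
    intro y
    rw [← cp_event m hm A y i hi, ← cp_sum m hm A y i hi, eq_sub_iff_add_eq]
    exact Finset.sum_filter_add_sum_filter_not univ (fun c' => c' < c) _
  rw [key, key]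
  have hmono : Monotone (fun z : (∀ i, X i) =>
      if z i ∈ univ.filter (fun c' : X i => ¬ c' < c) then (1 : ℝ) else 0) := by
    intro z w hzw
    simp only [mem_filter, mem_univ, true_and, not_lt]
    have h1 : z i ≤ w i := hzw i
    split_ifs with h2 h3
    · exact le_rfl
    · exact absurd (h2.trans h1) h3
    · exact zero_le_one
    · exact le_rfl
  have := hM A hA _ hmono y1 y2 h
  linarith

theorem os_base (m f : (∀ i, X i) → ℝ) (hm : ∀ x, 0 < m x) (hf : Monotone f) (hf0 : ∀ x, 0 ≤ f x)
    (hf1 : ∀ x, f x ≤ 1) (Ad : Finset I → Prop)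
    (hM : MonM m Ad) (A : Finset I) (hA : Ad A) (x y1 y2 : ∀ i, X i)
    (h : ∀ i ∈ A, y1 i ≤ y2 i) :
    0 ≤ ce m f A x * ce m f A y2 - ce m f A x * ce m f A y1 ∧
      ce m f A x * ce m f A y2 - ce m f A x * ce m f A y1 ≤ ce m f A y2 - ce m f A y1 := by
  have h0 := ce_nonneg m f hm hf0 A x
  have h1 := ce_le_one m f hm hf1 A x
  have h2 := hM A hA f hf y1 y2 h
  constructor
  · nlinarith
  · nlinarith

theorem os_comp (m f : (∀ i, X i) → ℝ) (hm : ∀ x, 0 < m x) (hf : Monotone f) (hf0 : ∀ x, 0 ≤ f x)
    (hf1 : ∀ x, f x ≤ 1) (Ad : Finset I → Prop) (nx : Finset I → (∀ i, X i) → Option I)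
    (hL : Legal Ad nx) (hM : MonM m Ad) (n : ℕ) (A : Finset I) (hA : Ad A) (x y1 y2 : ∀ i, X i)
    (h : ∀ i ∈ A, y1 i ≤ y2 i) :
    0 ≤ aT m f nx n A x y2 - aT m f nx n A x y1 ∧
      aT m f nx n A x y2 - aT m f nx n A x y1 ≤ ce m f A y2 - ce m f A y1 := by
  induction n generalizing A x y1 y2 with
  | zero => exact os_base m f hm hf hf0 hf1 Ad hM A hA x y1 y2 h
  | succ n ih =>
    rcases hx : nx A x with _ | i
    · have e : ∀ y, aT m f nx (n + 1) A x y = ce m f A x * ce m f A y := by
        intro y
        simp only [aT, hx]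
      rw [e, e]
      exact os_base m f hm hf hf0 hf1 Ad hM A hA x y1 y2 h
    · have hi := hL.new A x i hx
      have hA' := hL.adm A x i hA hx
      have e : ∀ y, aT m f nx (n + 1) A x y = ∫ u in (0 : ℝ)..1, aT m f nx n (insert i A)
          (Function.update x i (qt (cp m A x i) u)) (Function.update y i (qt (cp m A y i) u)) := by
        intro y
        simp only [aT, hx]
      have hI : ∀ y, IntervalIntegrable (fun u => aT m f nx n (insert i A)
          (Function.update x i (qt (cp m A x i) u)) (Function.update y i (qt (cp m A y i) u)))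
          volume 0 1 := fun y =>
        qt_intble (cp m A x i) (cp m A y i) (fun c c' => aT m f nx n (insert i A)
          (Function.update x i c) (Function.update y i c'))
      have hJ : ∀ y, IntervalIntegrable (fun u => ce m f (insert i A)
          (Function.update y i (qt (cp m A y i) u))) volume 0 1 := fun y =>
        qt_intble (cp m A y i) (cp m A y i) (fun c _ => ce m f (insert i A)
          (Function.update y i c))
      have hE : ∀ y, ∫ u in (0 : ℝ)..1, ce m f (insert i A)
          (Function.update y i (qt (cp m A y i) u)) = ce m f A y := by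
        intro y
        rw [qt_int (cp m A y i) (fun c => cp_nonneg m hm A y i c) (cp_sum m hm A y i hi)
          (fun c => ce m f (insert i A) (Function.update y i c))]
        exact ce_step m f hm A y i hi
      have hpt : ∀ u : ℝ, _ := fun u => ih (insert i A) hA'
        (Function.update x i (qt (cp m A x i) u)) (Function.update y1 i (qt (cp m A y1 i) u))
        (Function.update y2 i (qt (cp m A y2 i) u)) (by
          intro j hj
          by_cases hji : j = i
          · subst hji
            simp only [Function.update_self]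
            exact os_q m hm Ad hM A hA j hi y1 y2 h u
          · rw [Function.update_of_ne hji, Function.update_of_ne hji]
            exact h j ((mem_insert.1 hj).resolve_left hji))
      rw [e, e, ← intervalIntegral.integral_sub (hI y2) (hI y1), ← hE y1, ← hE y2,
        ← intervalIntegral.integral_sub (hJ y2) (hJ y1)]
      constructor
      · exact intervalIntegral.integral_nonneg (by norm_num) (fun u _ => (hpt u).1)
      · exact intervalIntegral.integral_mono (by norm_num) ((hI y2).sub (hI y1))
          ((hJ y2).sub (hJ y1)) (fun u => (hpt u).2)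

end H82.BX
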