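import Pool.Agent.H82.BX.OSA

/-!
# OSB: decoupling

`aT n A x y ≤ ce A x * ce A y + kT n A x y`, by induction on `n`.  Case `some i`: write `a' x' y' = aT n (insert i A) x' y'`,
`qx = qt (cp m A x i)`, `qy = qt (cp m A y i)`.  For all `u v`: the values `qy u`, `qy v` are comparable, so `os_comp` gives
`a' (x qx(u)) (y qy(u)) ≤ a' (x qx(u)) (y qy(v)) + |F (y qy(u)) - F (y qy(v))|` with `F = ce m f (insert i A)`.
Integrate over `u` and `v` (`qt_int` twice): the left side is `aT (n+1) A x y`, the right side is
`∑_c ∑_c' cp_x c cp_y c' a'(x c)(y c') + infl m f A y i`; then use the induction hypothesis and `ce_step` twice.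
-/

set_option autoImplicit false

open Finset MeasureTheory

namespace H82.BX

variable {I : Type} [Fintype I] [DecidableEq I] {X : I → Type} [∀ i, Fintype (X i)]
  [∀ i, LinearOrder (X i)] [∀ i, Nonempty (X i)]

theorem osb_upd (A : Finset I) (y : ∀ i, X i) (i : I) (c d : X i) (h : c ≤ d) :
    ∀ j ∈ insert i A, Function.update y i c j ≤ Function.update y i d j := by
  intro j _
  by_cases hj : j = i
  · subst hj
    simpa using h
  · simp [Function.update_of_ne hj]

theorem osb_point (m f : (∀ i, X i) → ℝ) (hm : ∀ x, 0 < m x) (hf : Monotone f)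
    (hf0 : ∀ x, 0 ≤ f x) (hf1 : ∀ x, f x ≤ 1) (Ad : Finset I → Prop)
    (nx : Finset I → (∀ i, X i) → Option I) (hL : Legal Ad nx) (hM : MonM m Ad) (n : ℕ)
    (A : Finset I) (i : I) (hA : Ad (insert i A)) (x y : ∀ i, X i) (c d : X i) :
    aT m f nx n (insert i A) x (Function.update y i c) ≤
      aT m f nx n (insert i A) x (Function.update y i d) +
        |ce m f (insert i A) (Function.update y i c) -
          ce m f (insert i A) (Function.update y i d)| := by
  rcases le_total c d with h | h
  · have := os_comp m f hm hf hf0 hf1 Ad nx hL hM n (insert i A) hA x _ _ (osb_upd A y i c d h)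
    have h2 := abs_nonneg (ce m f (insert i A) (Function.update y i c) -
          ce m f (insert i A) (Function.update y i d))
    linarith [this.1]
  · have := os_comp m f hm hf hf0 hf1 Ad nx hL hM n (insert i A) hA x _ _ (osb_upd A y i d c h)
    have h2 := le_abs_self (ce m f (insert i A) (Function.update y i c) -
          ce m f (insert i A) (Function.update y i d))
    linarith [this.2]

theorem osb_int {Y : Type} [Fintype Y] [LinearOrder Y] [Nonempty Y] (px py : Y → ℝ)
    (hpx : ∀ c, 0 ≤ px c) (hpy : ∀ c, 0 ≤ py c) (hx1 : ∑ c, px c = 1) (hy1 : ∑ c, py c = 1)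
    (g : Y → Y → ℝ) (F : Y → ℝ) (h : ∀ c d d', g c d ≤ g c d' + |F d - F d'|) :
    ∫ u in (0 : ℝ)..1, g (qt px u) (qt py u) ≤
      ∑ c, ∑ d, px c * py d * g c d + ∑ c, ∑ d, py c * py d * |F c - F d| := by
  have hI : ∀ G : Y → Y → ℝ, IntervalIntegrable (fun u => G (qt px u) (qt py u)) volume 0 1 :=
    fun G => qt_intble px py G
  have h1 : ∀ d', ∫ u in (0 : ℝ)..1, g (qt px u) (qt py u) ≤
      ∑ c, px c * g c d' + ∑ d, py d * |F d - F d'| := by
    intro d'
    calc ∫ u in (0 : ℝ)..1, g (qt px u) (qt py u)
        ≤ ∫ u in (0 : ℝ)..1, (g (qt px u) d' + |F (qt py u) - F d'|) := by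
          refine intervalIntegral.integral_mono_on (by norm_num) (hI g)
            (hI fun c d => g c d' + |F d - F d'|) ?_
          intro u _
          exact h _ _ _
      _ = (∫ u in (0 : ℝ)..1, g (qt px u) d') + ∫ u in (0 : ℝ)..1, |F (qt py u) - F d'| :=
          intervalIntegral.integral_add (hI fun c _ => g c d') (hI fun _ d => |F d - F d'|)
      _ = _ := by
          rw [qt_int px hpx hx1 (fun c => g c d'), qt_int py hpy hy1 (fun d => |F d - F d'|)]
  calc ∫ u in (0 : ℝ)..1, g (qt px u) (qt py u)
      = ∑ d', py d' * ∫ u in (0 : ℝ)..1, g (qt px u) (qt py u) := by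
        rw [← Finset.sum_mul, hy1, one_mul]
    _ ≤ ∑ d', py d' * (∑ c, px c * g c d' + ∑ d, py d * |F d - F d'|) :=
        Finset.sum_le_sum fun d' _ => mul_le_mul_of_nonneg_left (h1 d') (hpy d')
    _ = ∑ d', ∑ c, px c * py d' * g c d' + ∑ d', ∑ d, py d * py d' * |F d - F d'| := by
        rw [← Finset.sum_add_distrib]
        refine Finset.sum_congr rfl fun d' _ => ?_
        rw [mul_add, Finset.mul_sum, Finset.mul_sum]
        congr 1
        · exact Finset.sum_congr rfl fun c _ => by ring
        · exact Finset.sum_congr rfl fun c _ => by ring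
    _ = _ := by
        rw [Finset.sum_comm]
        congr 1
        rw [Finset.sum_comm]

theorem os_cost (m f : (∀ i, X i) → ℝ) (hm : ∀ x, 0 < m x) (hf : Monotone f) (hf0 : ∀ x, 0 ≤ f x)
    (hf1 : ∀ x, f x ≤ 1) (Ad : Finset I → Prop) (nx : Finset I → (∀ i, X i) → Option I)
    (hL : Legal Ad nx) (hM : MonM m Ad) (n : ℕ) (A : Finset I) (hA : Ad A) (x y : ∀ i, X i) :
    aT m f nx n A x y ≤ ce m f A x * ce m f A y + kT m f nx n A x y := by
  induction n generalizing A x y with
  | zero => simp [aT, kT]
  | succ n ih =>
    rcases hx : nx A x with _ | i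
    · simp [aT, kT, hx]
    · have hi : i ∉ A := hL.new A x i hx
      have hA' : Ad (insert i A) := hL.adm A x i hA hx
      have e1 : aT m f nx (n + 1) A x y = ∫ u in (0 : ℝ)..1, aT m f nx n (insert i A)
          (Function.update x i (qt (cp m A x i) u)) (Function.update y i (qt (cp m A y i) u)) := by
        simp only [aT, hx]
      have e2 : kT m f nx (n + 1) A x y = infl m f A y i + ∑ c, ∑ c', cp m A x i c *
          cp m A y i c' *
          kT m f nx n (insert i A) (Function.update x i c) (Function.update y i c') := by
        simp only [kT, hx]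
      have hpx := cp_nonneg m hm A x i
      have hpy := cp_nonneg m hm A y i
      have h1 := osb_int (cp m A x i) (cp m A y i) hpx hpy (cp_sum m hm A x i hi)
        (cp_sum m hm A y i hi)
        (fun c d => aT m f nx n (insert i A) (Function.update x i c) (Function.update y i d))
        (fun d => ce m f (insert i A) (Function.update y i d))
        (fun c d d' => osb_point m f hm hf hf0 hf1 Ad nx hL hM n A i hA' _ y d d')
      rw [e1, e2]
      refine h1.trans ?_
      have h2 : ∑ c, ∑ d, cp m A x i c * cp m A y i d *
          aT m f nx n (insert i A) (Function.update x i c) (Function.update y i d) ≤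
          ∑ c, ∑ d, cp m A x i c * cp m A y i d *
          (ce m f (insert i A) (Function.update x i c) *
            ce m f (insert i A) (Function.update y i d) +
            kT m f nx n (insert i A) (Function.update x i c) (Function.update y i d)) := by
        refine Finset.sum_le_sum fun c _ => Finset.sum_le_sum fun d _ => ?_
        exact mul_le_mul_of_nonneg_left (ih (insert i A) hA' _ _) (mul_nonneg (hpx c) (hpy d))
      have h3 : ∑ c, ∑ d, cp m A x i c * cp m A y i d *
          (ce m f (insert i A) (Function.update x i c) *
            ce m f (insert i A) (Function.update y i d) +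
            kT m f nx n (insert i A) (Function.update x i c) (Function.update y i d)) =
          ce m f A x * ce m f A y + ∑ c, ∑ d, cp m A x i c * cp m A y i d *
            kT m f nx n (insert i A) (Function.update x i c) (Function.update y i d) := by
        rw [← ce_step m f hm A x i hi, ← ce_step m f hm A y i hi, Finset.sum_mul_sum,
          ← Finset.sum_add_distrib]
        refine Finset.sum_congr rfl fun c _ => ?_
        rw [← Finset.sum_add_distrib]
        exact Finset.sum_congr rfl fun d _ => by ring
      have h4 : ∑ c, ∑ d, cp m A y i c * cp m A y i d *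
          |ce m f (insert i A) (Function.update y i c) -
            ce m f (insert i A) (Function.update y i d)| = infl m f A y i := rfl
      rw [h4]
      linarith

end H82.BX
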