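import Pool.Agent.H82.BX.NU2
import Pool.Agent.H82.BX.PG5
import Pool.Agent.H82.BX.PG6

/-!
# PER: `ω⁻` percolates almost surely

`A_{K,N}` = `{some vertex of Λ_K is connected to {nm ≥ N} inside pbE HH (N+1)}`-type cylinder event, decreasing in `N` to `I_K = {some vertex of Λ_K has an infinite cluster}`, `I_K` increasing to `I = {there is an infinite cluster}`, `p = ν(I) > 0`
(`arm`), `I` is shift invariant.  Let `δ > 0`; choose `K` with `ν(I_K) ≥ p - δ` and `N` with `ν(A_{K,N}) ≤ ν(I_K) + δ ≤ p + δ`.  For `k` large (`mix`):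
`ν(A ∩ τ_k A) ≤ ν(A)² + δ ≤ (p+δ)² + δ`, while `A ∩ τ_k A ⊇ I_K ∩ τ_k I_K`, both subsets of `I` of probability `≥ p - δ`: `ν ≥ p - 2δ`.  So `p - 2δ ≤ (p+δ)² + δ` for all `δ`: `p ≤ p²`, `p = 1`.
-/

set_option autoImplicit false

open Finset MeasureTheory Filter Topology

namespace H82.BX

open H82.IC XYB

/-- cylinder approximation of `v` having an infinite cluster. -/
def per_Av (v : Vx 2 × Bool) (n : ℕ) : Set (Vx 2 × Fin 3 → Bool) :=
  {ω | ∀ m : ℕ, m ≤ n → nm v.1 ≤ m →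
    ∃ b ∈ pbd Bool m, HH.gr.Conn (op1 ω ∩ (pbE HH m : Set (Vx 2 × Fin 3))) v b}

/-- some vertex of the box satisfies `per_Av`. -/
def per_U (K n : ℕ) : Set (Vx 2 × Fin 3 → Bool) :=
  {ω | ∃ v : Vx 2 × Bool, nm v.1 ≤ K ∧ ω ∈ per_Av v n}

/-- some vertex of the box has an infinite cluster. -/
def per_I (K : ℕ) : Set (Vx 2 × Fin 3 → Bool) :=
  {ω | ∃ v : Vx 2 × Bool, nm v.1 ≤ K ∧ (HH.gr.cl (op1 ω) v).Infinite}

/-- some vertex has an infinite cluster. -/
def per_J : Set (Vx 2 × Fin 3 → Bool) :=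
  {ω | ∃ v : Vx 2 × Bool, (HH.gr.cl (op1 ω) v).Infinite}

theorem per_op_mono {ω ω' : Vx 2 × Fin 3 → Bool} (h : ∀ e, ω e = true → ω' e = true) :
    op1 ω ⊆ op1 ω' := fun e he => h e he

theorem per_Av_mono (v : Vx 2 × Bool) {n n' : ℕ} (h : n ≤ n') : per_Av v n' ⊆ per_Av v n :=
  fun _ hω m hm hv => hω m (hm.trans h) hv

theorem per_Av_lc (n : ℕ) (v : Vx 2 × Bool) (ω ω' : Vx 2 × Fin 3 → Bool)
    (h : ∀ e ∈ pbE HH n, ω e = ω' e) (hω : ω ∈ per_Av v n) : ω' ∈ per_Av v n := by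
  intro m hm hv
  obtain ⟨b, hb, hc⟩ := hω m hm hv
  refine ⟨b, hb, ?_⟩
  have h1 : op1 ω' ∩ (pbE HH m : Set (Vx 2 × Fin 3)) = op1 ω ∩ (pbE HH m : Set (Vx 2 × Fin 3)) := by
    ext e
    simp only [Set.mem_inter_iff, Finset.mem_coe, and_congr_left_iff]
    intro he
    have h2 := h e (pbE_mono HH HH_ok hm he)
    simp only [op1, Set.mem_setOf_eq, h2]
  rw [h1]; exact hc

theorem per_U_lc (K n : ℕ) : Lc (per_U K n) := by
  refine ⟨pbE HH n, fun ω ω' h => ⟨?_, ?_⟩⟩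
  · rintro ⟨v, hv, h1⟩
    exact ⟨v, hv, per_Av_lc n v ω ω' h h1⟩
  · rintro ⟨v, hv, h1⟩
    exact ⟨v, hv, per_Av_lc n v ω' ω (fun e he => (h e he).symm) h1⟩

theorem per_U_inc (K n : ℕ) : Inc1 (per_U K n) := by
  rintro ω ω' h ⟨v, hv, h1⟩
  refine ⟨v, hv, fun m hm hvm => ?_⟩
  obtain ⟨b, hb, hc⟩ := h1 m hm hvm
  exact ⟨b, hb, conn_mono _ (Set.inter_subset_inter_left _ (per_op_mono h)) hc⟩

theorem per_inf_sub (v : Vx 2 × Bool) (n : ℕ) (ω : Vx 2 × Fin 3 → Bool)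
    (h : (HH.gr.cl (op1 ω) v).Infinite) : ω ∈ per_Av v n := by
  intro m _ hv
  obtain ⟨y, hy, hc⟩ := (inf_pg HH (op1 ω) v).1 h (m + 1)
  exact exit_pg HH HH_ok hv hy hc

theorem per_sub_inf (v : Vx 2 × Bool) (ω : Vx 2 × Fin 3 → Bool)
    (h : ∀ n, ω ∈ per_Av v n) : (HH.gr.cl (op1 ω) v).Infinite := by
  rw [inf_pg]
  intro n
  obtain ⟨b, hb, hc⟩ := h (max (n + 1) (nm v.1)) (max (n + 1) (nm v.1)) le_rfl (le_max_right _ _)
  refine ⟨b, ?_, conn_mono _ Set.inter_subset_left hc⟩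
  have h1 := ((mem_pbd _ b).1 hb).2
  have h2 := le_max_left (n + 1) (nm v.1)
  omega

theorem per_iInter (K : ℕ) : ⋂ n, per_U K n = per_I K := by
  ext ω
  constructor
  · intro h
    rw [Set.mem_iInter] at h
    by_contra hc
    have h1 : ∀ v ∈ pbx Bool K, ∃ n, ω ∉ per_Av v n := by
      intro v hv
      by_contra hcc
      push Not at hcc
      exact hc ⟨v, (mem_pbx K v).1 hv, per_sub_inf v ω hcc⟩
    choose! f hf using h1
    obtain ⟨v, hv, h2⟩ := h ((pbx Bool K).sup f)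
    have hv' := (mem_pbx K v).2 hv
    exact hf v hv' (per_Av_mono v (Finset.le_sup hv') h2)
  · rintro ⟨v, hv, h⟩
    rw [Set.mem_iInter]
    intro n
    exact ⟨v, hv, per_inf_sub v n ω h⟩

theorem per_iUnion : ⋃ K, per_I K = per_J := by
  ext ω
  constructor
  · intro h
    obtain ⟨K, v, _, h⟩ := Set.mem_iUnion.1 h
    exact ⟨v, h⟩
  · rintro ⟨v, h⟩
    exact Set.mem_iUnion.2 ⟨nm v.1, v, le_rfl, h⟩

theorem per_mI (K : ℕ) : MeasurableSet (per_I K) := by
  rw [← per_iInter]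
  exact MeasurableSet.iInter fun n => lc_meas (per_U_lc K n)

theorem per_mJ : MeasurableSet per_J := by
  rw [← per_iUnion]
  exact MeasurableSet.iUnion fun K => per_mI K

theorem per_J_sh (a : Vx 2) (ω : Vx 2 × Fin 3 → Bool) (h : shP a ω ∈ per_J) : ω ∈ per_J := by
  obtain ⟨v, hv⟩ := h
  rw [pg5_inf_sh HH (conn_sh HH)] at hv
  exact ⟨_, hv⟩

theorem per_one (ν : Measure (Vx 2 × Fin 3 → Bool)) (h : PerOk ν) (ε : ℝ) (hε : 0 < ε) :
    ∃ K : ℕ, 1 - ε ≤ ν.real {ω | ∃ v : Vx 2 × Bool, nm v.1 ≤ K ∧ (HH.gr.cl (op1 ω) v).Infinite} := by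
  have hp := h.prob
  -- limits
  have hT1 : Tendsto (fun K => ν.real (per_I K)) atTop (𝓝 (ν.real per_J)) := by
    have h1 : Tendsto (fun K => ν (per_I K)) atTop (𝓝 (ν per_J)) := by
      rw [← per_iUnion]
      refine tendsto_measure_iUnion_atTop ?_
      intro K K' hK ω hω
      obtain ⟨v, hv, hi⟩ := hω
      exact ⟨v, hv.trans hK, hi⟩
    exact (ENNReal.tendsto_toReal (measure_ne_top _ _)).comp h1
  have hT2 : ∀ K, Tendsto (fun n => ν.real (per_U K n)) atTop (𝓝 (ν.real (per_I K))) := by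
    intro K
    have h1 : Tendsto (fun n => ν (per_U K n)) atTop (𝓝 (ν (per_I K))) := by
      rw [← per_iInter]
      refine tendsto_measure_iInter_atTop (fun n => (lc_meas (per_U_lc K n)).nullMeasurableSet) ?_
        ⟨0, measure_ne_top _ _⟩
      intro n n' hn ω hω
      obtain ⟨v, hv, hi⟩ := hω
      exact ⟨v, hv, per_Av_mono v hn hi⟩
    exact (ENNReal.tendsto_toReal (measure_ne_top _ _)).comp h1
  have hIJ : ∀ K, ν.real (per_I K) ≤ ν.real per_J := by
    intro K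
    refine measureReal_mono ?_
    rintro ω ⟨v, _, hi⟩
    exact ⟨v, hi⟩
  have hIU : ∀ K n, per_I K ⊆ per_U K n := by
    intro K n ω hω
    rw [← per_iInter] at hω
    exact Set.mem_iInter.1 hω n
  have hpos : 0 < ν.real per_J := by
    refine lt_of_lt_of_le (h.arm (0, false)) (measureReal_mono ?_)
    intro ω hω
    exact ⟨_, hω⟩
  have hkey : ∀ δ : ℝ, 0 < δ → ν.real per_J - 2 * δ ≤ (ν.real per_J + δ) ^ 2 + δ := by
    intro δ hδ
    obtain ⟨K, hK⟩ : ∃ K, ν.real per_J - δ ≤ ν.real (per_I K) := by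
      have h1 := hT1.eventually (lt_mem_nhds (show ν.real per_J - δ < ν.real per_J by linarith))
      obtain ⟨K, hK⟩ := h1.exists
      exact ⟨K, hK.le⟩
    obtain ⟨n, hn⟩ : ∃ n, ν.real (per_U K n) ≤ ν.real (per_I K) + δ := by
      have h1 := (hT2 K).eventually (gt_mem_nhds (show ν.real (per_I K) < ν.real (per_I K) + δ by linarith))
      obtain ⟨n, hn⟩ := h1.exists
      exact ⟨n, hn.le⟩
    obtain ⟨k0, hk0⟩ := h.mix (per_U K n) (per_U K n) (per_U_lc K n) (per_U_lc K n) (per_U_inc K n)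
      (per_U_inc K n) δ hδ
    have h1 := hk0 k0 le_rfl
    set a : Vx 2 := Pi.single 0 (k0 : ℤ) with ha
    have h2 : ν.real (per_I K ∩ {ω | shP a ω ∈ per_I K}) ≤
        ν.real (per_U K n ∩ {ω | shP a ω ∈ per_U K n}) := by
      refine measureReal_mono ?_
      rintro ω ⟨h3, h4⟩
      exact ⟨hIU K n h3, hIU K n h4⟩
    have hm2 : MeasurableSet {ω : Vx 2 × Fin 3 → Bool | shP a ω ∈ per_I K} :=
      (shP_meas a) (per_mI K)
    have h3 : ν.real {ω | shP a ω ∈ per_I K} = ν.real (per_I K) := h.tip a _ (per_mI K)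
    have h4 : ν.real (per_I K ∪ {ω | shP a ω ∈ per_I K}) + ν.real (per_I K ∩ {ω | shP a ω ∈ per_I K}) =
        ν.real (per_I K) + ν.real {ω | shP a ω ∈ per_I K} :=
      measureReal_union_add_inter hm2
    have h5 : ν.real (per_I K ∪ {ω | shP a ω ∈ per_I K}) ≤ ν.real per_J := by
      refine measureReal_mono ?_
      rintro ω (h6 | h6)
      · obtain ⟨v, _, hi⟩ := h6
        exact ⟨v, hi⟩
      · refine per_J_sh a ω ?_
        obtain ⟨v, _, hi⟩ := h6
        exact ⟨v, hi⟩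
    have h6 := hIJ K
    have h7 : ν.real (per_U K n) ≤ ν.real per_J + δ := by linarith
    have h8 : (0 : ℝ) ≤ ν.real (per_U K n) := measureReal_nonneg
    have h9 : ν.real (per_U K n) * ν.real (per_U K n) ≤ (ν.real per_J + δ) ^ 2 := by
      rw [sq]
      exact mul_le_mul h7 h7 h8 (by linarith)
    linarith
  have hone : 1 ≤ ν.real per_J := by
    by_contra hlt
    push Not at hlt
    set p := ν.real per_J with hpdef
    have h1 := hkey (p * (1 - p) / 8) (by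
      have : 0 < p * (1 - p) := mul_pos hpos (by linarith)
      linarith)
    have hq : 0 < p * (1 - p) := mul_pos hpos (by linarith)
    have hq1 : p * (1 - p) ≤ 1 := by nlinarith
    nlinarith
  have h1 := hT1.eventually (lt_mem_nhds (show ν.real per_J - ε < ν.real per_J by linarith))
  obtain ⟨K, hK⟩ := h1.exists
  refine ⟨K, ?_⟩
  change 1 - ε ≤ ν.real (per_I K)
  linarith

end H82.BX
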