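import Pool.Agent.H82.BX.PG1
import Pool.Agent.H82.IC.BKA

/-!
# PG2: Burton-Keane counting in a box of a periodic graph

Adapt `IC/BKB.lean` (`bk_box`, for the lattice `Zl d`) to periodic graphs: `til` is replaced by `tl`, `box_conn` /
`BKB_tile_conn` by `tile_conn` (`1 ≤ r`), `exit_box` by `exit_pg`, `bdry` by `pbd`.  The contraction sends the vertices of the tile
`tl r x` to `(x, k0)` (`k0 : K` fixed, `(x, k0) ∈ tl r x`).  `D` = the image of `X` under `x ↦ (x, k0)`.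
-/

set_option autoImplicit false

open Finset MeasureTheory

namespace H82.BX

open H82.IC

variable {K K' : Type} [Fintype K] [Fintype K']

/-- three infinite branches at the tile. -/
def TriP (P : PG K K') (S : Set (Vx 2 × K')) (r : ℕ) (x : Vx 2) : Prop :=
  ∃ v1 ∈ (tl r x : Set (Vx 2 × K)), ∃ v2 ∈ (tl r x : Set (Vx 2 × K)), ∃ v3 ∈ (tl r x : Set (Vx 2 × K)),
    (P.gr.cl (S \ P.gr.ins (tl r x)) v1).Infinite ∧
    (P.gr.cl (S \ P.gr.ins (tl r x)) v2).Infinite ∧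
    (P.gr.cl (S \ P.gr.ins (tl r x)) v3).Infinite ∧
    ¬ P.gr.Conn (S \ P.gr.ins (tl r x)) v1 v2 ∧
    ¬ P.gr.Conn (S \ P.gr.ins (tl r x)) v1 v3 ∧
    ¬ P.gr.Conn (S \ P.gr.ins (tl r x)) v2 v3

theorem PG2_self (r : ℕ) (x : Vx 2) (k : K) : (x, k) ∈ (tl r x : Set (Vx 2 × K)) := by
  change nm (x - x) ≤ r
  rw [sub_self, nm_zero]
  exact Nat.zero_le r

theorem PG2_nm {r : ℕ} {x : Vx 2} {z : Vx 2 × K} (h : z ∈ (tl r x : Set (Vx 2 × K))) :
    nm z.1 ≤ nm x + r := by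
  have h1 : nm (z.1 - x) ≤ r := h
  have h2 := nm_add (z.1 - x) x
  rw [sub_add_cancel] at h2
  omega

/-- the contraction of the tiles -/
noncomputable def PG2_q (k0 : K) (r : ℕ) (X : Finset (Vx 2)) (z : Vx 2 × K) : Vx 2 × K :=
  open Classical in if h : ∃ x, x ∈ X ∧ z ∈ (tl r x : Set (Vx 2 × K)) then (h.choose, k0) else z

theorem PG2_q1 (k0 : K) {r : ℕ} {X : Finset (Vx 2)}
    (hX2 : ∀ x ∈ X, ∀ y ∈ X, x ≠ y → Disjoint (tl r x : Set (Vx 2 × K)) (tl r y)) {x : Vx 2}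
    {z : Vx 2 × K} (hx : x ∈ X) (hz : z ∈ (tl r x : Set (Vx 2 × K))) :
    PG2_q k0 r X z = (x, k0) := by
  have h : ∃ x, x ∈ X ∧ z ∈ (tl r x : Set (Vx 2 × K)) := ⟨x, hx, hz⟩
  unfold PG2_q
  rw [dif_pos h]
  obtain ⟨h1, h2⟩ := h.choose_spec
  have h3 : h.choose = x := by
    by_contra hne
    exact Set.disjoint_left.1 (hX2 _ h1 _ hx hne) h2 hz
  rw [h3]

theorem PG2_q2 (k0 : K) {r : ℕ} {X : Finset (Vx 2)} {z : Vx 2 × K}
    (hz : ∀ x ∈ X, z ∉ (tl r x : Set (Vx 2 × K))) : PG2_q k0 r X z = z := by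
  have h : ¬ ∃ x, x ∈ X ∧ z ∈ (tl r x : Set (Vx 2 × K)) := by
    rintro ⟨x, hx, h⟩
    exact hz x hx h
  unfold PG2_q
  rw [dif_neg h]

/-- two points with the same image are equal or in the same tile -/
theorem PG2_q3 (k0 : K) {r : ℕ} {X : Finset (Vx 2)}
    (hX2 : ∀ x ∈ X, ∀ y ∈ X, x ≠ y → Disjoint (tl r x : Set (Vx 2 × K)) (tl r y))
    {a b : Vx 2 × K} (hab : PG2_q k0 r X a = PG2_q k0 r X b) :
    a = b ∨ ∃ x ∈ X, a ∈ (tl r x : Set (Vx 2 × K)) ∧ b ∈ (tl r x : Set (Vx 2 × K)) := by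
  by_cases ha : ∃ x ∈ X, a ∈ (tl r x : Set (Vx 2 × K))
  · obtain ⟨x, hx, hax⟩ := ha
    rw [PG2_q1 k0 hX2 hx hax] at hab
    right
    by_cases hb : ∃ y ∈ X, b ∈ (tl r y : Set (Vx 2 × K))
    · obtain ⟨y, hy, hby⟩ := hb
      rw [PG2_q1 k0 hX2 hy hby] at hab
      have hxy : x = y := congrArg Prod.fst hab
      rw [← hxy] at hby
      exact ⟨x, hx, hax, hby⟩
    · push Not at hb
      rw [PG2_q2 k0 hb] at hab
      exact absurd (hab ▸ PG2_self r x k0) (hb x hx)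
  · push Not at ha
    rw [PG2_q2 k0 ha] at hab
    by_cases hb : ∃ y ∈ X, b ∈ (tl r y : Set (Vx 2 × K))
    · obtain ⟨y, hy, hby⟩ := hb
      rw [PG2_q1 k0 hX2 hy hby] at hab
      exact absurd (hab ▸ PG2_self r y k0) (ha y hy)
    · push Not at hb
      rw [PG2_q2 k0 hb] at hab
      exact Or.inl hab

/-- the contracted graph -/
noncomputable def PG2_G (P : PG K K') (k0 : K) (r n : ℕ) (X : Finset (Vx 2)) :
    Gr (Vx 2 × K) ↥(pbE P n) where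
  s e := PG2_q k0 r X (P.gr.s e.1)
  r e := PG2_q k0 r X (P.gr.r e.1)

theorem PG2_map (P : PG K K') (k0 : K) (r n : ℕ) (X : Finset (Vx 2)) (Q : Set (Vx 2 × K'))
    (ω : Set ↥(pbE P n)) (hP : ∀ e ∈ Q, ∃ h : e ∈ pbE P n, (⟨e, h⟩ : ↥(pbE P n)) ∈ ω)
    {z w : Vx 2 × K} (h : P.gr.Conn Q z w) :
    (PG2_G P k0 r n X).Conn ω (PG2_q k0 r X z) (PG2_q k0 r X w) := by
  induction h with
  | refl => exact Relation.ReflTransGen.refl
  | tail _ h2 ih =>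
    refine Relation.ReflTransGen.tail ih ?_
    obtain ⟨e, he, h3⟩ := h2
    obtain ⟨h4, h5⟩ := hP e he
    refine ⟨⟨e, h4⟩, h5, ?_⟩
    rcases h3 with ⟨h6, h7⟩ | ⟨h6, h7⟩
    · exact Or.inl ⟨congrArg (PG2_q k0 r X) h6, congrArg (PG2_q k0 r X) h7⟩
    · exact Or.inr ⟨congrArg (PG2_q k0 r X) h6, congrArg (PG2_q k0 r X) h7⟩

theorem bk_pg (P : PG K K') (hP : P.Ok) (S : Set (Vx 2 × K')) (r n : ℕ) (hr : 1 ≤ r)
    (X : Finset (Vx 2)) (hX1 : ∀ x ∈ X, nm x + r + 2 ≤ n)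
    (hX2 : ∀ x ∈ X, ∀ y ∈ X, x ≠ y → Disjoint (tl r x : Set (Vx 2 × K)) (tl r y))
    (hX3 : ∀ x ∈ X, P.gr.ins (tl r x) ⊆ S) (hX4 : ∀ x ∈ X, TriP P S r x) :
    X.card ≤ (pbd K n).card := by
  classical
  rcases X.eq_empty_or_nonempty with hXe | ⟨x0, hx0⟩
  · rw [hXe, Finset.card_empty]
    exact Nat.zero_le _
  obtain ⟨v0, hv0, -⟩ := hX4 x0 hx0
  let k0 : K := v0.2
  have hbt : ∀ b ∈ pbd K n, ∀ x ∈ X, b ∉ (tl r x : Set (Vx 2 × K)) := by
    intro b hb x hx hbx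
    have h1 := (mem_pbd n b).1 hb
    have h2 := PG2_nm hbx
    have h3 := hX1 x hx
    omega
  let ω' : Finset ↥(pbE P n) := univ.filter (fun e => e.1 ∈ S)
  have hω' : ∀ e : ↥(pbE P n), e ∈ (ω' : Set ↥(pbE P n)) ↔ e.1 ∈ S := by
    intro e
    rw [Finset.mem_coe, Finset.mem_filter]
    exact ⟨fun h => h.2, fun h => ⟨Finset.mem_univ _, h⟩⟩
  -- the lifting lemma
  have lift : ∀ c ∈ X, ∀ b1 ∈ pbd K n, ∀ b2 ∈ pbd K n,
      (PG2_G P k0 r n X).Conn ((ω' : Set ↥(pbE P n)) \ (PG2_G P k0 r n X).tch {(c, k0)}) b1 b2 →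
      P.gr.Conn (S \ P.gr.ins (tl r c)) b1 b2 := by
    intro c hc b1 hb1 b2 hb2 hconn
    have L : ∀ a b : Vx 2 × K, PG2_q k0 r X a = PG2_q k0 r X b → a ∉ (tl r c : Set (Vx 2 × K)) →
        P.gr.Conn (S \ P.gr.ins (tl r c)) a b := by
      intro a b hab ha
      rcases PG2_q3 k0 hX2 hab with rfl | ⟨x, hx, hax, hbx⟩
      · exact conn_refl _ _ _
      · refine conn_mono _ ?_ (tile_conn P hP r hr x a b hax hbx)
        intro e he
        refine ⟨hX3 x hx he, ?_⟩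
        rintro ⟨h1, -⟩
        have hxc : x ≠ c := by
          rintro rfl
          exact ha hax
        exact Set.disjoint_left.1 (hX2 x hx c hc hxc) he.1 h1
    have key : ∀ v, (PG2_G P k0 r n X).Conn
        ((ω' : Set ↥(pbE P n)) \ (PG2_G P k0 r n X).tch {(c, k0)}) b1 v →
        ∃ a, PG2_q k0 r X a = v ∧ a ∉ (tl r c : Set (Vx 2 × K)) ∧
          P.gr.Conn (S \ P.gr.ins (tl r c)) b1 a := by
      intro v hv
      induction hv with
      | refl => exact ⟨b1, PG2_q2 k0 (hbt b1 hb1), hbt b1 hb1 c hc, conn_refl _ _ _⟩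
      | tail _ h2 ih =>
        obtain ⟨a, ha1, ha2, ha3⟩ := ih
        obtain ⟨e, ⟨he1, he2⟩, h3⟩ := h2
        have hs : P.gr.s e.1 ∉ (tl r c : Set (Vx 2 × K)) :=
          fun h => he2 (Or.inl (PG2_q1 k0 hX2 hc h))
        have hr : P.gr.r e.1 ∉ (tl r c : Set (Vx 2 × K)) :=
          fun h => he2 (Or.inr (PG2_q1 k0 hX2 hc h))
        have heS : e.1 ∈ S \ P.gr.ins (tl r c) := ⟨(hω' e).1 he1, fun h => hs h.1⟩
        have hedge := conn_edge P.gr heS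
        rcases h3 with ⟨h6, h7⟩ | ⟨h6, h7⟩
        · have h8 : PG2_q k0 r X a = PG2_q k0 r X (P.gr.s e.1) := ha1.trans h6.symm
          exact ⟨P.gr.r e.1, h7, hr, conn_trans _ ha3 (conn_trans _ (L _ _ h8 ha2) hedge)⟩
        · have h8 : PG2_q k0 r X a = PG2_q k0 r X (P.gr.r e.1) := ha1.trans h7.symm
          exact ⟨P.gr.s e.1, h6, hs,
            conn_trans _ ha3 (conn_trans _ (L _ _ h8 ha2) (conn_symm _ hedge))⟩
    obtain ⟨a, ha1, ha2, ha3⟩ := key b2 hconn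
    have h8 : PG2_q k0 r X a = PG2_q k0 r X b2 := by rw [ha1, PG2_q2 k0 (hbt b2 hb2)]
    exact conn_trans _ ha3 (L _ _ h8 ha2)
  -- the exits
  have exits : ∀ c ∈ X, ∀ v ∈ (tl r c : Set (Vx 2 × K)),
      (P.gr.cl (S \ P.gr.ins (tl r c)) v).Infinite →
      ∃ b ∈ pbd K n, (PG2_G P k0 r n X).Conn (ω' : Set ↥(pbE P n)) (c, k0) b ∧
        P.gr.Conn (S \ P.gr.ins (tl r c)) v b := by
    intro c hc v hv hinf
    obtain ⟨y, hny, hy⟩ := (inf_pg P _ v).1 hinf (n + 1)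
    have h1 := PG2_nm hv
    have h2 := hX1 c hc
    obtain ⟨b, hb, hvb⟩ := exit_pg P hP (by omega : nm v.1 ≤ n) (by omega : n < nm y.1) hy
    refine ⟨b, hb, ?_, conn_mono _ Set.inter_subset_left hvb⟩
    have h3 := PG2_map P k0 r n X ((S \ P.gr.ins (tl r c)) ∩ (pbE P n : Set (Vx 2 × K')))
      (ω' : Set ↥(pbE P n)) (fun e he => ⟨he.2, (hω' _).2 he.1.1⟩) hvb
    rw [PG2_q1 k0 hX2 hc hv, PG2_q2 k0 (hbt b hb)] at h3
    exact h3
  have hcard : (X.image (fun x => ((x, k0) : Vx 2 × K))).card = X.card := by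
    refine Finset.card_image_of_injective _ ?_
    intro x y hxy
    exact congrArg Prod.fst hxy
  rw [← hcard]
  refine bk_finite (PG2_G P k0 r n X) ω' (pbd K n) _ ?_ ?_
  · intro c hc hcb
    obtain ⟨x, hx, rfl⟩ := Finset.mem_image.1 hc
    exact hbt _ hcb x hx (PG2_self r x k0)
  · intro c' hc'
    obtain ⟨c, hc, rfl⟩ := Finset.mem_image.1 hc'
    obtain ⟨v1, hv1, v2, hv2, v3, hv3, i1, i2, i3, n12, n13, n23⟩ := hX4 c hc
    obtain ⟨b1, hb1, c1, d1⟩ := exits c hc v1 hv1 i1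
    obtain ⟨b2, hb2, c2, d2⟩ := exits c hc v2 hv2 i2
    obtain ⟨b3, hb3, c3, d3⟩ := exits c hc v3 hv3 i3
    refine ⟨b1, hb1, b2, hb2, b3, hb3, c1, c2, c3, ?_, ?_, ?_⟩
    · intro h
      exact n12 (conn_trans _ d1 (conn_trans _ (lift c hc b1 hb1 b2 hb2 h) (conn_symm _ d2)))
    · intro h
      exact n13 (conn_trans _ d1 (conn_trans _ (lift c hc b1 hb1 b3 hb3 h) (conn_symm _ d3)))
    · intro h
      exact n23 (conn_trans _ d2 (conn_trans _ (lift c hc b2 hb2 b3 hb3 h) (conn_symm _ d3)))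

end H82.BX
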