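import Pool.Agent.H82.BX.GCM

/-!
# TIE: restricting to a subgroup increases Ginibre expectations

Work on `X = (W → Cir) × Y` with `H1(s,y) = H s`, `F1(s,y) = F s` (in the cone by `gin_comp`, `fst`), and
`H'_K(s,y) = K ∑_w cos(s_w - ι(y)_w)`, `K ≥ 0` (cone: characters).  `gE H1 F1 = gE H F` (`gE_comp` with the surjection `fst`), and
`gin_mono` gives `gE H F ≤ gE (H1 + H'_K) F1` for all `K`.
Limit `K → ∞`: the map `(u, y) ↦ (u + ι y, y)` is an automorphism of `X`, so
`∫ Φ(s,y) e^{H'_K} = ∫ Φ(u + ι y, y) e^{K ∑ cos u_w}`; divide by `∫ e^{K ∑ cos u_w}` (= the mass); the probability measures with density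
`∝ e^{K ∑ cos u_w}` on `W → Cir` concentrate at `0`: for every continuous `Ψ` on `X`, `∫ Ψ(u,y) e^{K∑cos u}/∫ e^{K ∑ cos u} → ∫ Ψ(0,y) dy`.
(E.g.: `Ψ` is uniformly continuous, `{u | ∃ w, 1 - cos u_w ≥ η}` has weight `≤ |W| e^{-Kη}/ (∫ e^{-K(1-cos t)} dt) → 0`,
since `∫ e^{-K(1 - cos t)} dt ≥ e^{-Kη/2} haar{1 - cos t ≤ η/2}`.)
Apply it with `Ψ = F(u + ι y) e^{H(u + ι y)}` and `Ψ = e^{H(u + ι y)}`.
-/

set_option autoImplicit false

open Finset MeasureTheory

namespace H82.BX

open H82.IC XYB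

theorem tie_cos_eq {t : Cir} (h : cosC t = 1) : t = 0 := by
  induction t using cir_ind with
  | h x =>
    rw [cosC_coe] at h
    obtain ⟨n, hn⟩ := (Real.cos_eq_one_iff x).1 h
    rw [← hn]
    have h1 : ((n * (2 * Real.pi) : ℝ) : Cir) = n • ((2 * Real.pi : ℝ) : Cir) := by
      rw [← AddCircle.coe_zsmul, zsmul_eq_mul]
    rw [h1, AddCircle.coe_period, smul_zero]

/-- concentration at `0` of the product of the densities `e^{K cos u}`. -/
theorem conc0 {W Y : Type} [Fintype W] [DecidableEq W] [AddCommGroup Y] [TopologicalSpace Y]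
    [IsTopologicalAddGroup Y] [CompactSpace Y] [MeasurableSpace Y] [BorelSpace Y]
    [SecondCountableTopology Y] (Ψ : (W → Cir) × Y → ℝ) (hΨ : Continuous Ψ) :
    Filter.Tendsto (fun K : ℝ => (∫ z, Ψ z * Real.exp (K * ∑ w, cosC (z.1 w)) ∂haarP ((W → Cir) × Y)) /
      ∫ z : (W → Cir) × Y, Real.exp (K * ∑ w, cosC (z.1 w)) ∂haarP ((W → Cir) × Y)) Filter.atTop
      (nhds (∫ y, Ψ (0, y) ∂haarP Y)) := by
  classical
  set P := haarP ((W → Cir) × Y) with hP
  set S : (W → Cir) × Y → ℝ := fun z => ∑ w, (1 - cosC (z.1 w)) with hS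
  have hSc : Continuous S := by
    apply continuous_finsetSum
    intro w _
    exact continuous_const.sub (continuous_cosC.comp ((continuous_apply w).comp continuous_fst))
  have hS0 : ∀ z, 0 ≤ S z := fun z => Finset.sum_nonneg fun w _ => by
    have := cosC_le_one (z.1 w)
    linarith
  have hSz : ∀ z, S z = 0 → z.1 = 0 := by
    intro z hz
    have h1 := (Finset.sum_eq_zero_iff_of_nonneg (fun w _ => by
      have := cosC_le_one (z.1 w)
      linarith : ∀ w ∈ (univ : Finset W), (0 : ℝ) ≤ 1 - cosC (z.1 w))).1 hz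
    funext w
    exact tie_cos_eq (by have := h1 w (mem_univ w); linarith)
  set c : ℝ := (Fintype.card W : ℝ) with hc
  have hcs : ∀ z : (W → Cir) × Y, ∑ w, cosC (z.1 w) = c - S z := by
    intro z
    rw [hS]
    simp only [Finset.sum_sub_distrib, Finset.sum_const, Finset.card_univ, nsmul_eq_mul, mul_one]
    ring
  simp only [hcs]
  set Ψ0 : (W → Cir) × Y → ℝ := fun z => Ψ (0, z.2) with hΨ0
  have hΨ0c : Continuous Ψ0 := hΨ.comp (continuous_const.prodMk continuous_snd)
  set Φ : (W → Cir) × Y → ℝ := fun z => Ψ z - Ψ0 z with hΦ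
  have hΦc : Continuous Φ := hΨ.sub hΨ0c
  set I := ∫ y, Ψ (0, y) ∂haarP Y with hI
  have hwc : ∀ K : ℝ, Continuous (fun z : (W → Cir) × Y => Real.exp (K * (c - S z))) := fun K =>
    Real.continuous_exp.comp (continuous_const.mul (continuous_const.sub hSc))
  have hB : ∀ K : ℝ, 0 < ∫ z, Real.exp (K * (c - S z)) ∂P := fun K =>
    integral_exp_pos (fun z => K * (c - S z)) (continuous_const.mul (continuous_const.sub hSc))
  have hpr : haarP ((W → Cir) × Y) = (haarP (W → Cir)).prod (haarP Y) := haarP_prod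
  have hfac : ∀ K : ℝ, ∫ z, Ψ0 z * Real.exp (K * (c - S z)) ∂P =
      I * ∫ z, Real.exp (K * (c - S z)) ∂P := by
    intro K
    have e1 : ∀ z : (W → Cir) × Y, Real.exp (K * (c - S z)) =
        Real.exp (K * ∑ w, cosC (z.1 w)) := by
      intro z
      rw [hcs z]
    simp only [e1]
    have h1 := integral_prod_mul (μ := haarP (W → Cir)) (ν := haarP Y)
      (fun u : W → Cir => Real.exp (K * ∑ w, cosC (u w))) (fun y : Y => Ψ (0, y))
    have h2 := integral_prod_mul (μ := haarP (W → Cir)) (ν := haarP Y)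
      (fun u : W → Cir => Real.exp (K * ∑ w, cosC (u w))) (fun _ : Y => (1 : ℝ))
    rw [hP, hpr]
    have h3 : ∫ z : (W → Cir) × Y, Ψ0 z * Real.exp (K * ∑ w, cosC (z.1 w))
        ∂(haarP (W → Cir)).prod (haarP Y) =
        ∫ z : (W → Cir) × Y, Real.exp (K * ∑ w, cosC (z.1 w)) * Ψ (0, z.2)
          ∂(haarP (W → Cir)).prod (haarP Y) := by
      congr 1
      ext z
      rw [hΨ0]
      ring
    rw [h3, h1]
    simp only [mul_one, integral_const, smul_eq_mul, probReal_univ] at h2
    rw [h2, hI]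
    ring
  have hdiff : ∀ K : ℝ, (∫ z, Ψ z * Real.exp (K * (c - S z)) ∂P) /
      (∫ z, Real.exp (K * (c - S z)) ∂P) - I =
      (∫ z, Φ z * Real.exp (K * (c - S z)) ∂P) / ∫ z, Real.exp (K * (c - S z)) ∂P := by
    intro K
    have h1 : ∫ z, Φ z * Real.exp (K * (c - S z)) ∂P =
        (∫ z, Ψ z * Real.exp (K * (c - S z)) ∂P) -
          ∫ z, Ψ0 z * Real.exp (K * (c - S z)) ∂P := by
      have h9 := integral_sub (μ := P)
        (integrable_cont (fun z => Ψ z * Real.exp (K * (c - S z))) (hΨ.mul (hwc K)))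
        (integrable_cont (fun z => Ψ0 z * Real.exp (K * (c - S z))) (hΨ0c.mul (hwc K)))
      rw [← h9]
      congr 1
      ext z
      rw [hΦ]
      ring
    rw [h1, hfac K, sub_div, mul_div_assoc, div_self (hB K).ne', mul_one]
  -- bounds for `Φ`
  obtain ⟨M, hM⟩ : ∃ M : ℝ, ∀ z, |Φ z| ≤ M := by
    obtain ⟨z0, _, hz0⟩ := isCompact_univ.exists_isMaxOn
      (Set.univ_nonempty : (Set.univ : Set ((W → Cir) × Y)).Nonempty)
      (continuous_abs.comp hΦc).continuousOn
    exact ⟨_, fun z => hz0 (Set.mem_univ z)⟩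
  have hM0 : 0 ≤ M := (abs_nonneg _).trans (hM 0)
  have hη : ∀ ε : ℝ, 0 < ε → ∃ η : ℝ, 0 < η ∧ ∀ z, S z < η → |Φ z| ≤ ε := by
    intro ε hε
    have hcl : IsClosed {z : (W → Cir) × Y | ε ≤ |Φ z|} :=
      isClosed_le continuous_const (continuous_abs.comp hΦc)
    by_cases hne : ({z : (W → Cir) × Y | ε ≤ |Φ z|}).Nonempty
    · obtain ⟨z0, hz0, hmin⟩ := hcl.isCompact.exists_isMinOn hne hSc.continuousOn
      refine ⟨S z0, ?_, ?_⟩
      · refine lt_of_le_of_ne (hS0 z0) ?_
        intro h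
        have h1 := hSz z0 h.symm
        have h2 : Φ z0 = 0 := by
          have h3 : z0 = (0, z0.2) := by
            rw [← h1]
          simp only [hΦ, hΨ0]
          rw [← h3, sub_self]
        have h4 : ε ≤ |Φ z0| := hz0
        rw [h2, abs_zero] at h4
        linarith
      · intro z hz
        by_contra hcon
        push Not at hcon
        have h1 : S z0 ≤ S z := hmin (show z ∈ {z : (W → Cir) × Y | ε ≤ |Φ z|} from hcon.le)
        linarith
    · refine ⟨1, one_pos, ?_⟩
      intro z _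
      by_contra hcon
      push Not at hcon
      exact hne ⟨z, hcon.le⟩
  rw [Metric.tendsto_atTop]
  intro ε hε
  obtain ⟨η, hη0, hηb⟩ := hη (ε / 2) (half_pos hε)
  set U : Set ((W → Cir) × Y) := {z | S z < η / 2} with hU
  have hUo : IsOpen U := isOpen_lt hSc continuous_const
  have hUn : U.Nonempty := ⟨0, by
    show S 0 < η / 2
    have : S 0 = 0 := by
      simp only [hS]
      apply Finset.sum_eq_zero
      intro w _
      simp
    rw [this]
    exact half_pos hη0⟩
  have hp : 0 < P.real U := by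
    rw [Measure.real, ENNReal.toReal_pos_iff]
    exact ⟨hUo.measure_pos P hUn, measure_lt_top P U⟩
  have hlow : ∀ K : ℝ, 0 ≤ K → Real.exp (K * c) * Real.exp (-(K * (η / 2))) * P.real U ≤
      ∫ z, Real.exp (K * (c - S z)) ∂P := by
    intro K hK
    have h1 : ∫ z in U, Real.exp (K * c) * Real.exp (-(K * (η / 2))) ∂P ≤
        ∫ z in U, Real.exp (K * (c - S z)) ∂P := by
      apply setIntegral_mono_on (integrable_const _).integrableOn
        (integrable_cont _ (hwc K)).integrableOn hUo.measurableSet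
      intro z hz
      rw [← Real.exp_add]
      apply Real.exp_le_exp.2
      have h2 : S z < η / 2 := hz
      nlinarith [mul_le_mul_of_nonneg_left h2.le hK]
    have h3 : ∫ z in U, Real.exp (K * (c - S z)) ∂P ≤ ∫ z, Real.exp (K * (c - S z)) ∂P :=
      setIntegral_le_integral (integrable_cont _ (hwc K))
        (Filter.Eventually.of_forall fun z => (Real.exp_pos _).le)
    rw [setIntegral_const, smul_eq_mul] at h1
    calc Real.exp (K * c) * Real.exp (-(K * (η / 2))) * P.real U
        = P.real U * (Real.exp (K * c) * Real.exp (-(K * (η / 2)))) := by ring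
      _ ≤ _ := h1.trans h3
  have hup : ∀ K : ℝ, 0 ≤ K → |∫ z, Φ z * Real.exp (K * (c - S z)) ∂P| ≤
      ε / 2 * (∫ z, Real.exp (K * (c - S z)) ∂P) + M * (Real.exp (K * c) * Real.exp (-(K * η))) := by
    intro K hK
    have h1 : |∫ z, Φ z * Real.exp (K * (c - S z)) ∂P| ≤
        ∫ z, |Φ z * Real.exp (K * (c - S z))| ∂P := abs_integral_le_integral_abs
    refine h1.trans ?_
    have h2 : ∫ z, |Φ z * Real.exp (K * (c - S z))| ∂P ≤
        ∫ z, (ε / 2 * Real.exp (K * (c - S z)) + M * (Real.exp (K * c) * Real.exp (-(K * η)))) ∂P := by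
      apply integral_mono (integrable_cont _ (continuous_abs.comp (hΦc.mul (hwc K))))
        (((integrable_cont _ (hwc K)).const_mul _).add (integrable_const _))
      intro z
      show |Φ z * Real.exp (K * (c - S z))| ≤
        ε / 2 * Real.exp (K * (c - S z)) + M * (Real.exp (K * c) * Real.exp (-(K * η)))
      rw [abs_mul, abs_of_pos (Real.exp_pos _)]
      by_cases hz : S z < η
      · have h3 := mul_le_mul_of_nonneg_right (hηb z hz) (Real.exp_pos (K * (c - S z))).le
        have h4 : 0 ≤ M * (Real.exp (K * c) * Real.exp (-(K * η))) := by positivity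
        linarith
      · push Not at hz
        have h5 : Real.exp (K * (c - S z)) ≤ Real.exp (K * c) * Real.exp (-(K * η)) := by
          rw [← Real.exp_add]
          apply Real.exp_le_exp.2
          nlinarith [mul_le_mul_of_nonneg_left hz hK]
        have h6 := mul_le_mul (hM z) h5 (Real.exp_pos _).le hM0
        have h7 : 0 ≤ ε / 2 * Real.exp (K * (c - S z)) := by positivity
        linarith
    refine h2.trans (le_of_eq ?_)
    rw [integral_add ((integrable_cont _ (hwc K)).const_mul _) (integrable_const _),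
      integral_const_mul, integral_const, probReal_univ, one_smul]
  have hlim : Filter.Tendsto (fun K : ℝ => M / P.real U * Real.exp (-(K * (η / 2)))) Filter.atTop
      (nhds 0) := by
    have h1 : Filter.Tendsto (fun K : ℝ => -(K * (η / 2))) Filter.atTop Filter.atBot :=
      Filter.tendsto_neg_atTop_atBot.comp (Filter.tendsto_id.atTop_mul_const (half_pos hη0))
    have h2 := (Real.tendsto_exp_atBot.comp h1).const_mul (M / P.real U)
    rw [mul_zero] at h2
    exact h2
  obtain ⟨K0, hK0⟩ := (Metric.tendsto_atTop.1 hlim) (ε / 2) (half_pos hε)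
  refine ⟨max K0 0, ?_⟩
  intro K hK
  have hKa : K0 ≤ K := (le_max_left _ _).trans hK
  have hKb : 0 ≤ K := (le_max_right _ _).trans hK
  have h1 := hK0 K hKa
  rw [Real.dist_eq, sub_zero] at h1
  rw [Real.dist_eq, hdiff K, abs_div, abs_of_pos (hB K)]
  have h2 : |∫ z, Φ z * Real.exp (K * (c - S z)) ∂P| / (∫ z, Real.exp (K * (c - S z)) ∂P) ≤
      ε / 2 + M / P.real U * Real.exp (-(K * (η / 2))) := by
    rw [div_le_iff₀ (hB K)]
    refine (hup K hKb).trans ?_
    rw [add_mul]
    apply add_le_add le_rfl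
    have h3 : M * (Real.exp (K * c) * Real.exp (-(K * η))) =
        M / P.real U * Real.exp (-(K * (η / 2))) *
          (Real.exp (K * c) * Real.exp (-(K * (η / 2))) * P.real U) := by
      have h4 : Real.exp (-(K * η)) = Real.exp (-(K * (η / 2))) * Real.exp (-(K * (η / 2))) := by
        rw [← Real.exp_add]
        congr 1
        ring
      rw [h4]
      field_simp
    rw [h3]
    apply mul_le_mul_of_nonneg_left (hlow K hKb)
    positivity
  have h5 := (abs_lt.1 h1).2
  linarith

theorem tie {W Y : Type} [Fintype W] [DecidableEq W] [AddCommGroup Y] [TopologicalSpace Y]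
    [IsTopologicalAddGroup Y] [CompactSpace Y] [MeasurableSpace Y] [BorelSpace Y]
    [SecondCountableTopology Y] (hdiv : ∀ y : Y, ∃ z, z + z = y) (ι : Y →+ (W → Cir))
    (hι : Continuous ι) (H F : (W → Cir) → ℝ) (hH : Gin H) (hF : Gin F) :
    gE H F ≤ gE (fun y => H (ι y)) (fun y => F (ι y)) := by
  classical
  have hHc : Continuous H := hH.continuous
  have hFc : Continuous F := hF.continuous
  set p1 : (W → Cir) × Y →+ (W → Cir) := AddMonoidHom.fst (W → Cir) Y with hp1
  have hp1c : Continuous p1 := continuous_fst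
  have hp1s : Function.Surjective p1 := fun u => ⟨(u, 0), rfl⟩
  have hdX : ∀ x : (W → Cir) × Y, ∃ y : (W → Cir) × Y, y + y = x := by
    rintro ⟨u, y⟩
    obtain ⟨u', hu'⟩ := cir_pi_div u
    obtain ⟨y', hy'⟩ := hdiv y
    exact ⟨(u', y'), Prod.ext hu' hy'⟩
  have hH1 : Gin (fun z : (W → Cir) × Y => H (p1 z)) := gin_comp p1 hp1c hH
  have hF1 : Gin (fun z : (W → Cir) × Y => F (p1 z)) := gin_comp p1 hp1c hF
  set χ : W → ((W → Cir) × Y →+ Cir) := fun w =>
    (Pi.evalAddMonoidHom (fun _ : W => Cir) w).comp p1 -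
      (Pi.evalAddMonoidHom (fun _ : W => Cir) w).comp (ι.comp (AddMonoidHom.snd (W → Cir) Y)) with hχ
  have hχa : ∀ w (z : (W → Cir) × Y), χ w z = z.1 w - ι z.2 w := fun w z => rfl
  have hχc : ∀ w, Continuous (χ w) := by
    intro w
    show Continuous (fun z : (W → Cir) × Y => z.1 w - ι z.2 w)
    exact ((continuous_apply w).comp continuous_fst).sub
      ((continuous_apply w).comp (hι.comp continuous_snd))
  have hHK : ∀ K : ℝ, 0 ≤ K → Gin (fun z : (W → Cir) × Y => K * ∑ w, cosC (χ w z)) := fun K hK =>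
    Gin.smul hK (Gin.sum univ (fun w _ => Gin.cos (χ w) (hχc w)))
  have hmono : ∀ K : ℝ, 0 ≤ K → gE H F ≤
      gE (fun z : (W → Cir) × Y => H (p1 z) + K * ∑ w, cosC (χ w z)) (fun z => F (p1 z)) := by
    intro K hK
    have h1 := gin_mono hdX hF1 hH1 (hHK K hK)
    rw [gE_comp p1 hp1c hp1s H F hHc hFc] at h1
    exact h1
  -- the automorphism
  set α : (W → Cir) × Y →+ (W → Cir) × Y :=
    AddMonoidHom.prod (p1 + ι.comp (AddMonoidHom.snd (W → Cir) Y))
      (AddMonoidHom.snd (W → Cir) Y) with hα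
  have hαa : ∀ z : (W → Cir) × Y, α z = (z.1 + ι z.2, z.2) := fun z => rfl
  have hαc : Continuous α := by
    show Continuous (fun z : (W → Cir) × Y => (z.1 + ι z.2, z.2))
    exact (continuous_fst.add (hι.comp continuous_snd)).prodMk continuous_snd
  have hαs : Function.Surjective α := by
    rintro ⟨u, y⟩
    refine ⟨(u - ι y, y), ?_⟩
    rw [hαa]
    simp
  set Ψ1 : (W → Cir) × Y → ℝ := fun z => F (z.1 + ι z.2) * Real.exp (H (z.1 + ι z.2)) with hΨ1
  set Ψ2 : (W → Cir) × Y → ℝ := fun z => Real.exp (H (z.1 + ι z.2)) with hΨ2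
  have hac : Continuous (fun z : (W → Cir) × Y => z.1 + ι z.2) :=
    continuous_fst.add (hι.comp continuous_snd)
  have hΨ2c : Continuous Ψ2 := Real.continuous_exp.comp (hHc.comp hac)
  have hΨ1c : Continuous Ψ1 := (hFc.comp hac).mul hΨ2c
  have hval : ∀ K : ℝ,
      gE (fun z : (W → Cir) × Y => H (p1 z) + K * ∑ w, cosC (χ w z)) (fun z => F (p1 z)) =
      ((∫ z, Ψ1 z * Real.exp (K * ∑ w, cosC (z.1 w)) ∂haarP ((W → Cir) × Y)) /
        ∫ z : (W → Cir) × Y, Real.exp (K * ∑ w, cosC (z.1 w)) ∂haarP ((W → Cir) × Y)) /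
      ((∫ z, Ψ2 z * Real.exp (K * ∑ w, cosC (z.1 w)) ∂haarP ((W → Cir) × Y)) /
        ∫ z : (W → Cir) × Y, Real.exp (K * ∑ w, cosC (z.1 w)) ∂haarP ((W → Cir) × Y)) := by
    intro K
    have hgc : Continuous (fun z : (W → Cir) × Y => H (p1 z) + K * ∑ w, cosC (χ w z)) :=
      (hHc.comp hp1c).add (continuous_const.mul (continuous_finsetSum _ fun w _ =>
        continuous_cosC.comp (hχc w)))
    have hB : 0 < ∫ z : (W → Cir) × Y, Real.exp (K * ∑ w, cosC (z.1 w)) ∂haarP ((W → Cir) × Y) :=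
      integral_exp_pos (fun z : (W → Cir) × Y => K * ∑ w, cosC (z.1 w))
        (continuous_const.mul (continuous_finsetSum _ fun w _ =>
          continuous_cosC.comp ((continuous_apply w).comp continuous_fst)))
    have hχα : ∀ z : (W → Cir) × Y, ∑ w, cosC (χ w (α z)) = ∑ w, cosC (z.1 w) := by
      intro z
      apply Finset.sum_congr rfl
      intro w _
      rw [hχa, hαa]
      simp
    have e1 := integral_comp_surj α hαc hαs
      (fun z : (W → Cir) × Y => F (p1 z) * Real.exp (H (p1 z) + K * ∑ w, cosC (χ w z)))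
      ((hFc.comp hp1c).mul (Real.continuous_exp.comp hgc))
    have e2 := integral_comp_surj α hαc hαs
      (fun z : (W → Cir) × Y => Real.exp (H (p1 z) + K * ∑ w, cosC (χ w z)))
      (Real.continuous_exp.comp hgc)
    unfold gE
    rw [← e1, ← e2, div_div_div_cancel_right₀ hB.ne']
    congr 1
    · congr 1
      ext z
      rw [hχα, Real.exp_add, ← mul_assoc]
      rfl
    · congr 1
      ext z
      rw [hχα, Real.exp_add]
      rfl
  have hD : (∫ y, Ψ2 (0, y) ∂haarP Y) ≠ 0 := by
    have h1 : ∀ y : Y, Ψ2 (0, y) = Real.exp (H (ι y)) := by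
      intro y
      simp only [hΨ2, zero_add]
    simp only [h1]
    exact (integral_exp_pos (fun y : Y => H (ι y)) (hHc.comp hι)).ne'
  have hlim := (conc0 Ψ1 hΨ1c).div (conc0 Ψ2 hΨ2c) hD
  have hlim2 : (∫ y, Ψ1 (0, y) ∂haarP Y) / (∫ y, Ψ2 (0, y) ∂haarP Y) =
      gE (fun y => H (ι y)) (fun y => F (ι y)) := by
    unfold gE
    simp only [hΨ1, hΨ2, zero_add]
  rw [← hlim2]
  refine ge_of_tendsto hlim ?_
  filter_upwards [Filter.eventually_ge_atTop (0 : ℝ)] with K hK
  have h1 := hmono K hK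
  rw [hval K] at h1
  exact h1

end H82.BX
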